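import Pool.Agent.Rohlin.RP2Top

/-!
# Topology of the discs
-/

set_option autoImplicit false

namespace Pool.Agent.Rohlin

open Set Topology Metric

/-- a disc is homeomorphic to the closed ball -/
theorem IsDisc.exists_homeo {Δ : Set RP2} (h : IsDisc Δ) :
    ∃ e : closedBall (0 : ℂ) 1 ≃ₜ Δ, ∀ z, ((e z : Δ) : RP2) ∈ interior Δ ↔ ‖(z : ℂ)‖ < 1 := by
  obtain ⟨δ, hc, hi, hr, hint⟩ := h
  have hcomp : CompactSpace (closedBall (0 : ℂ) 1) :=
    isCompact_iff_compactSpace.1 (isCompact_closedBall _ _)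
  have hemb : IsEmbedding δ := (hc.isClosedEmbedding hi).isEmbedding
  subst hr
  refine ⟨hemb.toHomeomorph, fun z => ?_⟩
  have hz : ((hemb.toHomeomorph z : range δ) : RP2) = δ z := rfl
  rw [hz, hint]
  constructor
  · rintro ⟨w, hw, hwz⟩
    rwa [← hi hwz]
  · intro hz
    exact ⟨z, hz, rfl⟩

theorem IsDisc.isCompact {Δ : Set RP2} (h : IsDisc Δ) : IsCompact Δ := by
  obtain ⟨e, _⟩ := h.exists_homeo
  have hcomp : CompactSpace (closedBall (0 : ℂ) 1) :=
    isCompact_iff_compactSpace.1 (isCompact_closedBall _ _)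
  exact isCompact_iff_compactSpace.2 e.compactSpace

theorem IsDisc.isClosed {Δ : Set RP2} (h : IsDisc Δ) : IsClosed Δ := h.isCompact.isClosed

theorem IsDisc.contractibleSpace {Δ : Set RP2} (h : IsDisc Δ) : ContractibleSpace Δ := by
  obtain ⟨e, _⟩ := h.exists_homeo
  have : ContractibleSpace (closedBall (0 : ℂ) 1) :=
    (convex_closedBall (0 : ℂ) 1).contractibleSpace ⟨0, by simp⟩
  exact e.symm.contractibleSpace

theorem IsDisc.connectedSpace {Δ : Set RP2} (h : IsDisc Δ) : ConnectedSpace Δ := by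
  have := h.contractibleSpace
  infer_instance

theorem IsDisc.closure_interior {Δ : Set RP2} (h : IsDisc Δ) : closure (interior Δ) = Δ := by
  apply subset_antisymm
  · exact closure_minimal interior_subset h.isClosed
  · obtain ⟨e, he⟩ := h.exists_homeo
    intro p hp
    -- `p = e z`, approach `z` along the radius
    obtain ⟨z, hz⟩ := e.surjective ⟨p, hp⟩
    have hpz : p = (e z : Δ) := by rw [hz]
    have hball : ∀ t : ℝ, t ∈ Icc (0 : ℝ) 1 → (t : ℂ) * (z : ℂ) ∈ closedBall (0 : ℂ) 1 := by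
      intro t ht
      rw [mem_closedBall_zero_iff, norm_mul, Complex.norm_real, Real.norm_eq_abs, abs_of_nonneg ht.1]
      have h1 : ‖(z : ℂ)‖ ≤ 1 := mem_closedBall_zero_iff.1 z.2
      nlinarith [ht.1, ht.2, norm_nonneg (z : ℂ)]
    let γ : Icc (0 : ℝ) 1 → RP2 := fun t => (e ⟨(t : ℝ) * (z : ℂ), hball t t.2⟩ : Δ)
    have hγ : Continuous γ := by
      refine continuous_subtype_val.comp (e.continuous.comp ?_)
      exact Continuous.subtype_mk (by fun_prop) _
    have h1 : γ 1 = p := by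
      rw [hpz]
      change ((e ⟨((1 : ℝ) : ℂ) * (z : ℂ), _⟩ : Δ) : RP2) = _
      congr 2
      apply Subtype.ext
      simp
    have hmem : γ 1 ∈ closure (γ '' Iio 1) := by
      have hcl : (1 : Icc (0 : ℝ) 1) ∈ closure (Iio (1 : Icc (0 : ℝ) 1)) := by
        rw [closure_Iio' ⟨0, by
          change (0 : Icc (0 : ℝ) 1) < 1
          exact zero_lt_one⟩]
        exact mem_Iic.2 le_rfl
      exact image_closure_subset_closure_image hγ ⟨1, hcl, rfl⟩
    rw [h1] at hmem
    refine closure_mono ?_ hmem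
    rintro _ ⟨t, ht, rfl⟩
    rw [he]
    change ‖((t : ℝ) : ℂ) * (z : ℂ)‖ < 1
    rw [norm_mul, Complex.norm_real, Real.norm_eq_abs, abs_of_nonneg t.2.1]
    have h2 : ‖(z : ℂ)‖ ≤ 1 := mem_closedBall_zero_iff.1 z.2
    have h3 : (t : ℝ) < 1 := ht
    nlinarith [t.2.1, norm_nonneg (z : ℂ)]

/-- finite disjoint unions of discs are regular closed sets -/
theorem closure_interior_iUnion {ι : Type*} [Finite ι] {Δ : ι → Set RP2} (h : ∀ i, IsDisc (Δ i)) :
    closure (interior (⋃ i, Δ i)) = ⋃ i, Δ i := by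
  apply subset_antisymm
  · exact closure_minimal interior_subset (isClosed_iUnion_of_finite fun i => (h i).isClosed)
  · refine iUnion_subset fun i => ?_
    rw [← (h i).closure_interior]
    exact closure_mono (interior_mono (subset_trans ((h i).closure_interior ▸ subset_rfl)
      (subset_iUnion Δ i)))

theorem Regions.closure_interior0 {f : MvPolynomial (Fin 3) ℝ} {K0 K1 : Set RP2}
    (h : Regions f K0 K1) : closure (interior K0) = K0 := by
  obtain ⟨Δ, hΔ, _, rfl⟩ := h.discs0
  exact closure_interior_iUnion hΔ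

theorem Regions.closure_interior1 {f : MvPolynomial (Fin 3) ℝ} {K0 K1 : Set RP2}
    (h : Regions f K0 K1) : closure (interior K1) = K1 := by
  obtain ⟨Δ, hΔ, _, rfl⟩ := h.discs1
  exact closure_interior_iUnion hΔ

end Pool.Agent.Rohlin
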