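import Mathlib

/-!
# Cell ROH, module GENERIC CENTRE

A nonsingular plane curve over `ℂ` has only finitely many flex tangents and bitangents, and only
finitely many tangents through a given point off the curve.  The proof is by a derivation of an
ultrapower of `ℂ`.  (helper49)
-/

open MvPolynomial Filter
open scoped TensorProduct

namespace Rohlin.Centre

open scoped IntermediateField.algebraAdjoinAdjoin in
/-- an element of an extension of characteristic zero which is transcendental over the base field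
moves under some derivation -/
theorem exists_derivation_ne_zero {k L : Type*} [Field k] [CharZero k] [Field L] [Algebra k L]
    {x : L} (hx : Transcendental k x) : ∃ D : Derivation k L L, D x ≠ 0 := by
  classical
  have hx1 : AlgebraicIndepOn k id ({x} : Set L) :=
    algebraicIndependent_unique_type_iff.mpr hx
  obtain ⟨s, hs, hb⟩ := exists_isTranscendenceBasis_superset hx1
  have hxs : x ∈ s := hs rfl
  let v : s → L := ((↑) : s → L)
  have hbv : AlgebraicIndependent k v := hb.1
  let S := Algebra.adjoin k (Set.range v)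
  let T := IntermediateField.adjoin k (Set.range v)
  have h1 : Algebra.FormallyEtale S T := .of_isLocalization (nonZeroDivisors _)
  have h2' : Algebra.IsAlgebraic T L := hb.isAlgebraic_field
  have h2 : Algebra.FormallyEtale T L := by
    have : Algebra.IsSeparable T L := inferInstance
    exact Algebra.FormallyEtale.of_isSeparable _ L
  have h3 : Algebra.FormallyEtale S L := .comp S T L
  let e : MvPolynomial s k ≃ₐ[k] S := hbv.aevalEquiv
  let x0 : s := ⟨x, hxs⟩
  let D0 : Derivation k S S :=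
    { toLinearMap := e.toLinearMap ∘ₗ
        ((MvPolynomial.pderiv x0 : Derivation k (MvPolynomial s k) (MvPolynomial s k)) :
          MvPolynomial s k →ₗ[k] MvPolynomial s k) ∘ₗ e.symm.toLinearMap
      map_one_eq_zero' := by simp
      leibniz' := by
        intro a b
        simp [Derivation.leibniz, smul_eq_mul] }
  let D1 : Derivation k S L := (Algebra.linearMap S L).compDer D0
  let φ : Ω[S⁄k] →ₗ[S] L := D1.liftKaehlerDifferential
  let ψ : L ⊗[S] Ω[S⁄k] →ₗ[L] L := LinearMap.liftBaseChange L φ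
  let χ : Ω[L⁄k] →ₗ[L] L :=
    ψ ∘ₗ (KaehlerDifferential.tensorKaehlerEquivOfFormallyEtale k S L).symm.toLinearMap
  refine ⟨χ.compDer (KaehlerDifferential.D k L), ?_⟩
  have hex : algebraMap S L (e (MvPolynomial.X x0)) = x := by
    have := hbv.algebraMap_aevalEquiv (MvPolynomial.X x0)
    rw [MvPolynomial.aeval_X] at this
    exact this
  have key : (χ.compDer (KaehlerDifferential.D k L)) (algebraMap S L (e (MvPolynomial.X x0)))
      = 1 := by
    change χ (KaehlerDifferential.D k L (algebraMap S L (e (MvPolynomial.X x0)))) = 1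
    change ψ ((KaehlerDifferential.tensorKaehlerEquivOfFormallyEtale k S L).symm
      (KaehlerDifferential.D k L (algebraMap S L (e (MvPolynomial.X x0))))) = 1
    rw [KaehlerDifferential.tensorKaehlerEquivOfFormallyEtale_symm_D_algebraMap]
    simp only [ψ, LinearMap.liftBaseChange_tmul, φ, one_smul,
      Derivation.liftKaehlerDifferential_comp_D]
    change algebraMap S L (D0 (e (MvPolynomial.X x0))) = 1
    have h5 : D0 (e (MvPolynomial.X x0)) = 1 := by
      change e ((MvPolynomial.pderiv x0) (e.symm (e (MvPolynomial.X x0)))) = 1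
      rw [AlgEquiv.symm_apply_apply, MvPolynomial.pderiv_X_self, map_one]
    rw [h5, map_one]
  rw [hex] at key
  rw [key]; exact one_ne_zero

section alg
variable {K : Type*} [Field K] [Algebra ℂ K]

/-- dot product of two vectors with three coordinates -/
def dot {R : Type*} [CommRing R] (u v : Fin 3 → R) : R := u 0 * v 0 + u 1 * v 1 + u 2 * v 2

/-- cross product -/
def crs {R : Type*} [CommRing R] (u v : Fin 3 → R) : Fin 3 → R :=
  ![u 1 * v 2 - u 2 * v 1, u 2 * v 0 - u 0 * v 2, u 0 * v 1 - u 1 * v 0]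

/-- gradient of `F` at `v` -/
noncomputable def gr {k : Type*} [Field k] {R : Type*} [CommRing R] [Algebra k R]
    (F : MvPolynomial (Fin 3) k) (v : Fin 3 → R) : Fin 3 → R :=
  fun i => aeval v (pderiv i F)

/-- Hessian of `F` at `v`, as a bilinear form -/
noncomputable def hs {k : Type*} [Field k] {R : Type*} [CommRing R] [Algebra k R]
    (F : MvPolynomial (Fin 3) k) (v a b : Fin 3 → R) : R :=
  ∑ i, ∑ j, aeval v (pderiv j (pderiv i F)) * a i * b j

theorem euler {k : Type*} [Field k] {R : Type*} [CommRing R] [Algebra k R]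
    {F : MvPolynomial (Fin 3) k} {m : ℕ} (hF : F.IsHomogeneous m) (v : Fin 3 → R) :
    dot v (gr F v) = m * aeval v F := by
  have h := congrArg (aeval v) hF.sum_X_mul_pderiv
  simpa [dot, gr, Fin.sum_univ_three, nsmul_eq_mul] using h

theorem euler_hs {k : Type*} [Field k] {R : Type*} [CommRing R] [Algebra k R]
    {F : MvPolynomial (Fin 3) k} {m : ℕ} (hF : F.IsHomogeneous m) (v a : Fin 3 → R) :
    hs F v a v = ((m - 1 : ℕ) : R) * dot (gr F v) a := by
  have h := fun i => euler (R := R) (hF.pderiv (i := i)) v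
  have h0 := h 0
  have h1 := h 1
  have h2 := h 2
  simp only [dot, gr] at h0 h1 h2
  simp only [hs, Fin.sum_univ_three, dot, gr]
  linear_combination a 0 * h0 + a 1 * h1 + a 2 * h2

theorem D_aeval (D : Derivation ℂ K K) (F : MvPolynomial (Fin 3) ℂ) (v : Fin 3 → K) :
    D (aeval v F) = dot (gr F v) (fun i => D (v i)) := by
  induction F using MvPolynomial.induction_on with
  | C a => simp [dot, gr]
  | add p q hp hq =>
    simp only [map_add, hp, hq, dot, gr]; ring
  | mul_X p i hp =>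
    simp only [map_mul, aeval_X, Derivation.leibniz, hp, dot, gr, smul_eq_mul, map_add, pderiv_X]
    fin_cases i <;> simp <;> ring

omit [Algebra ℂ K] in
theorem crs_par (ℓ d p : Fin 3 → K) (h1 : dot ℓ p = 0) (h3 : dot d p = 0) :
    ∀ i j, crs ℓ d i * p j = crs ℓ d j * p i := by
  simp only [dot] at h1 h3
  have A01 : crs ℓ d 0 * p 1 = crs ℓ d 1 * p 0 := by
    simp only [crs, Matrix.cons_val]; linear_combination d 2 * h1 - ℓ 2 * h3
  have A12 : crs ℓ d 1 * p 2 = crs ℓ d 2 * p 1 := by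
    simp only [crs, Matrix.cons_val]; linear_combination d 0 * h1 - ℓ 0 * h3
  have A20 : crs ℓ d 2 * p 0 = crs ℓ d 0 * p 2 := by
    simp only [crs, Matrix.cons_val]; linear_combination d 1 * h1 - ℓ 1 * h3
  intro i j
  fin_cases i <;> fin_cases j <;>
    first
      | rfl
      | exact A01
      | exact A01.symm
      | exact A12
      | exact A12.symm
      | exact A20
      | exact A20.symm

omit [Algebra ℂ K] in
theorem crs_eq_zero (z p q : Fin 3 → K) (hp : ∀ i j, z i * p j = z j * p i)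
    (hq : ∀ i j, z i * q j = z j * q i) (hw : ∃ k, crs p q k ≠ 0) : ∀ i, z i = 0 := by
  intro i
  obtain ⟨k, hk⟩ := hw
  have h : ∀ a b, (p a * q b - p b * q a) * z i ^ 2 = 0 := by
    intro a b
    linear_combination z i * q b * hp i a + z a * p i * hq i b - z i * q a * hp i b
      - z b * p i * hq i a
  have h2 : crs p q k * z i ^ 2 = 0 := by
    fin_cases k
    · simpa [crs] using h 1 2
    · simpa [crs] using h 2 0
    · simpa [crs] using h 0 1
  rcases mul_eq_zero.mp h2 with h3 | h3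
  · exact absurd h3 hk
  · exact pow_eq_zero_iff (two_ne_zero) |>.mp h3

omit [Algebra ℂ K] in
theorem K0 (ℓ p q d : Fin 3 → K) (h1 : dot ℓ p = 0) (h2 : dot ℓ q = 0) (h3 : dot d p = 0)
    (h4 : dot d q = 0) (hw : ∃ k, crs p q k ≠ 0) : ∀ i j, ℓ i * d j = ℓ j * d i := by
  have hz := crs_eq_zero (crs ℓ d) p q (crs_par ℓ d p h1 h3) (crs_par ℓ d q h2 h4) hw
  have z0 := hz 0
  have z1 := hz 1
  have z2 := hz 2
  simp only [crs, Matrix.cons_val] at z0 z1 z2
  intro i j
  fin_cases i <;> fin_cases j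
  · rfl
  · simp only [Fin.mk_one, Fin.zero_eta]; linear_combination z2
  · simp only [Fin.reduceFinMk, Fin.zero_eta]; linear_combination -z1
  · simp only [Fin.mk_one, Fin.zero_eta]; linear_combination -z2
  · rfl
  · simp only [Fin.mk_one, Fin.reduceFinMk]; linear_combination z0
  · simp only [Fin.reduceFinMk, Fin.zero_eta]; linear_combination z1
  · simp only [Fin.mk_one, Fin.reduceFinMk]; linear_combination -z0
  · rfl

theorem D_dot (D : Derivation ℂ K K) (u v : Fin 3 → K) :
    D (dot u v) = dot (fun i => D (u i)) v + dot u (fun i => D (v i)) := by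
  simp only [dot, map_add, Derivation.leibniz, smul_eq_mul]; ring

variable {F : MvPolynomial (Fin 3) ℂ} {m : ℕ}

/-- A moving tangent line: its derivative is orthogonal to the moving point of contact. -/
theorem K_pt (hF : F.IsHomogeneous m) (D : Derivation ℂ K K) (ℓ p : Fin 3 → K) (a : K)
    (ha : a ≠ 0) (hp : aeval p F = 0) (hg : ∀ j, gr F p j = a * ℓ j) :
    dot ℓ p = 0 ∧ dot (fun i => D (ℓ i)) p = 0 := by
  have h1 : dot ℓ p = 0 := by
    have := euler hF p
    rw [hp, mul_zero] at this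
    simp only [dot, hg] at this ⊢
    have h : a * (ℓ 0 * p 0 + ℓ 1 * p 1 + ℓ 2 * p 2) = 0 := by linear_combination this
    exact (mul_eq_zero.mp h).resolve_left ha
  refine ⟨h1, ?_⟩
  have h2 := D_aeval D F p
  rw [hp, map_zero] at h2
  have h3 : dot ℓ (fun i => D (p i)) = 0 := by
    simp only [dot, hg] at h2 ⊢
    have h : a * (ℓ 0 * D (p 0) + ℓ 1 * D (p 1) + ℓ 2 * D (p 2)) = 0 := by
      linear_combination -h2
    exact (mul_eq_zero.mp h).resolve_left ha
  have h4 := D_dot D ℓ p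
  rw [h1, map_zero, h3, add_zero] at h4
  exact h4.symm

/-- bitangent lines do not move -/
theorem K1 (hF : F.IsHomogeneous m) (D : Derivation ℂ K K) (ℓ p q : Fin 3 → K) (a b : K)
    (ha : a ≠ 0) (hb : b ≠ 0) (hp : aeval p F = 0) (hq : aeval q F = 0)
    (hgp : ∀ j, gr F p j = a * ℓ j) (hgq : ∀ j, gr F q j = b * ℓ j)
    (hw : ∃ k, crs p q k ≠ 0) : ∀ i j, ℓ i * D (ℓ j) = ℓ j * D (ℓ i) := by
  obtain ⟨h1, h3⟩ := K_pt hF D ℓ p a ha hp hgp
  obtain ⟨h2, h4⟩ := K_pt hF D ℓ q b hb hq hgq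
  exact K0 ℓ p q _ h1 h2 h3 h4 hw

/-- a tangent line through a fixed point does not move -/
theorem K3 (hF : F.IsHomogeneous m) (D : Derivation ℂ K K) (ℓ p q : Fin 3 → K) (a : K)
    (ha : a ≠ 0) (hp : aeval p F = 0) (hgp : ∀ j, gr F p j = a * ℓ j)
    (hlq : dot ℓ q = 0) (hq : ∀ i, D (q i) = 0)
    (hw : ∃ k, crs p q k ≠ 0) : ∀ i j, ℓ i * D (ℓ j) = ℓ j * D (ℓ i) := by
  obtain ⟨h1, h3⟩ := K_pt hF D ℓ p a ha hp hgp
  refine K0 ℓ p q _ h1 hlq h3 ?_ hw
  have h4 := D_dot D ℓ q
  rw [hlq, map_zero] at h4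
  simp only [dot, hq, mul_zero, add_zero] at h4 ⊢
  exact h4.symm

/-- a flex tangent line does not move -/
theorem K2 (hF : F.IsHomogeneous m) (D : Derivation ℂ K K) (ℓ p q : Fin 3 → K) (a : K)
    (ha : a ≠ 0) (hp : aeval p F = 0) (hgp : ∀ j, gr F p j = a * ℓ j)
    (hlq : dot ℓ q = 0) (hH : hs F p q q = 0) (i0 : Fin 3) (hl : ℓ i0 ≠ 0)
    (hw : ∃ k, crs p q k ≠ 0) : ∀ i j, ℓ i * D (ℓ j) = ℓ j * D (ℓ i) := by
  obtain ⟨h1, h3⟩ := K_pt hF D ℓ p a ha hp hgp
  refine K0 ℓ p q _ h1 hlq h3 ?_ hw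
  -- B(q, p) = 0
  have hB : hs F p q p = 0 := by
    rw [euler_hs hF]
    have : dot (gr F p) q = a * dot ℓ q := by simp only [dot, hgp]; ring
    rw [this, hlq]; ring
  -- the derivative of the point is in the plane of p and q
  set u : Fin 3 → K := fun i => D (p i) with hu
  have h2 := D_aeval D F p
  rw [hp, map_zero] at h2
  have hlu : dot ℓ u = 0 := by
    simp only [dot, hgp] at h2 ⊢
    have h : a * (ℓ 0 * D (p 0) + ℓ 1 * D (p 1) + ℓ 2 * D (p 2)) = 0 := by
      linear_combination -h2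
    exact (mul_eq_zero.mp h).resolve_left ha
  have hdet : dot u (crs p q) = 0 := by
    have : ℓ i0 * dot u (crs p q) = 0 := by
      simp only [dot, crs, Matrix.cons_val] at h1 hlq hlu ⊢
      fin_cases i0
      · simp only [Fin.zero_eta]
        linear_combination (p 1 * q 2 - p 2 * q 1) * hlu + (q 1 * u 2 - q 2 * u 1) * h1
          + (u 1 * p 2 - u 2 * p 1) * hlq
      · simp only [Fin.mk_one]
        linear_combination (p 2 * q 0 - p 0 * q 2) * hlu + (q 2 * u 0 - q 0 * u 2) * h1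
          + (u 2 * p 0 - u 0 * p 2) * hlq
      · simp only [Fin.reduceFinMk]
        linear_combination (p 0 * q 1 - p 1 * q 0) * hlu + (q 0 * u 1 - q 1 * u 0) * h1
          + (u 0 * p 1 - u 1 * p 0) * hlq
    exact (mul_eq_zero.mp this).resolve_left hl
  obtain ⟨k, hk⟩ := hw
  -- w_k u = (u × q)_k p + (p × u)_k q
  have hspan : ∀ i, crs p q k * u i = crs u q k * p i + crs p u k * q i := by
    intro i
    simp only [dot, crs, Matrix.cons_val] at hdet
    fin_cases k <;> fin_cases i <;> simp only [crs, Matrix.cons_val, Fin.zero_eta, Fin.mk_one,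
      Fin.reduceFinMk] <;> first | ring1 | linear_combination hdet
  have hBu : hs F p q u = 0 := by
    have : crs p q k * hs F p q u = crs u q k * hs F p q p + crs p u k * hs F p q q := by
      simp only [hs, Fin.sum_univ_three]
      linear_combination (aeval p (pderiv 0 (pderiv 0 F)) * q 0 + aeval p (pderiv 0 (pderiv 1 F)) * q 1
        + aeval p (pderiv 0 (pderiv 2 F)) * q 2) * hspan 0 +
        (aeval p (pderiv 1 (pderiv 0 F)) * q 0 + aeval p (pderiv 1 (pderiv 1 F)) * q 1
        + aeval p (pderiv 1 (pderiv 2 F)) * q 2) * hspan 1 +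
        (aeval p (pderiv 2 (pderiv 0 F)) * q 0 + aeval p (pderiv 2 (pderiv 1 F)) * q 1
        + aeval p (pderiv 2 (pderiv 2 F)) * q 2) * hspan 2
    rw [hB, hH, mul_zero, mul_zero, add_zero] at this
    exact (mul_eq_zero.mp this).resolve_left hk
  -- differentiate  gr F p = a ℓ
  have hD : ∀ i, D (gr F p i) = D a * ℓ i + a * D (ℓ i) := by
    intro i; rw [hgp i]; simp only [Derivation.leibniz, smul_eq_mul]; ring
  have hD2 : ∀ i, D (gr F p i) = dot (gr (pderiv i F) p) u := fun i => D_aeval D _ p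
  have h5 : dot (fun i => D (gr F p i)) q = hs F p q u := by
    have e : dot (fun i => D (gr F p i)) q
        = dot (gr (pderiv 0 F) p) u * q 0 + dot (gr (pderiv 1 F) p) u * q 1
          + dot (gr (pderiv 2 F) p) u * q 2 := by
      rw [← hD2 0, ← hD2 1, ← hD2 2]; rfl
    rw [e]
    simp only [dot, gr, hs, Fin.sum_univ_three]
    ring
  have h6 : a * dot (fun i => D (ℓ i)) q = 0 := by
    rw [hBu] at h5
    simp only [dot, hD] at h5 hlq ⊢
    linear_combination h5 - D a * hlq
  exact (mul_eq_zero.mp h6).resolve_left ha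

end alg


section germ

/-- the ultrapower of `ℂ` -/
abbrev G : Type := Germ ((hyperfilter ℕ : Ultrafilter ℕ) : Filter ℕ) ℂ

/-- class of a sequence -/
noncomputable def cl : (ℕ → ℂ) →+* G := Germ.coeRingHom _

noncomputable instance instAlgG : Algebra ℂ G := (cl.comp (Pi.constRingHom ℕ ℂ)).toAlgebra

theorem algebraMap_G (c : ℂ) : algebraMap ℂ G c = cl (fun _ => c) := rfl

theorem cl_eq {f g : ℕ → ℂ} : cl f = cl g ↔ ∀ᶠ n in ((hyperfilter ℕ : Ultrafilter ℕ) : Filter ℕ), f n = g n :=
  Germ.coe_eq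

theorem cl_ne_zero {f : ℕ → ℂ} (h : ∀ n, f n ≠ 0) : cl f ≠ 0 := by
  intro h0
  rw [← map_zero cl, cl_eq] at h0
  obtain ⟨n, hn⟩ := h0.exists
  exact h n hn

/-- class of a sequence of vectors -/
noncomputable def clv (v : ℕ → Fin 3 → ℂ) : Fin 3 → G := fun i => cl (fun n => v n i)

theorem aeval_clv (F : MvPolynomial (Fin 3) ℂ) (v : ℕ → Fin 3 → ℂ) :
    aeval (clv v) F = cl (fun n => aeval (v n) F) := by
  induction F using MvPolynomial.induction_on with
  | C a => simp [algebraMap_G]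
  | add p q hp hq => rw [map_add, hp, hq, ← map_add]; congr 1; ext n; simp
  | mul_X p i hp =>
    rw [map_mul, hp, aeval_X, clv, ← map_mul]; congr 1; ext n; simp

theorem mem_range_of_D {x : G} (h : ∀ D : Derivation ℂ G G, D x = 0) :
    ∃ c : ℂ, algebraMap ℂ G c = x := by
  by_cases hx : IsAlgebraic ℂ x
  · have hi : IsIntegral ℂ x := hx.isIntegral
    have h1 : (minpoly ℂ x).degree = 1 :=
      IsAlgClosed.degree_eq_one_of_irreducible ℂ (minpoly.irreducible hi)
    exact minpoly.mem_range_of_degree_eq_one ℂ x h1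
  · exact absurd (exists_derivation_ne_zero hx) (by push Not; exact h)

theorem finite_of (i : Fin 3) (S : Set (Fin 3 → ℂ)) (hS : ∀ ℓ ∈ S, ℓ i = 1)
    (h : ∀ f : ℕ → (Fin 3 → ℂ), (∀ n, f n ∈ S) → ∀ (D : Derivation ℂ G G) (j : Fin 3),
      clv f i * D (clv f j) = clv f j * D (clv f i)) : S.Finite := by
  by_contra hinf
  have hinf : S.Infinite := hinf
  let g := hinf.natEmbedding
  let f : ℕ → (Fin 3 → ℂ) := fun n => (g n : Fin 3 → ℂ)
  have hf : ∀ n, f n ∈ S := fun n => (g n).2
  have hinj : Function.Injective f := fun a b hab => g.injective (Subtype.ext hab)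
  have h1 : clv f i = 1 := by
    rw [← map_one cl]; exact congrArg cl (funext fun n => hS _ (hf n))
  have h2 : ∀ j, ∀ D : Derivation ℂ G G, D (clv f j) = 0 := by
    intro j D
    have := h f hf D j
    rw [h1, one_mul, Derivation.map_one_eq_zero, mul_zero] at this
    exact this
  choose c hc using fun j => mem_range_of_D (h2 j)
  have h3 : ∀ j, ∀ᶠ n in ((hyperfilter ℕ : Ultrafilter ℕ) : Filter ℕ), c j = f n j := by
    intro j
    have := hc j
    rw [algebraMap_G, clv, cl_eq] at this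
    exact this
  have h4 : ∀ᶠ n in ((hyperfilter ℕ : Ultrafilter ℕ) : Filter ℕ), f n = c := by
    filter_upwards [h3 0, h3 1, h3 2] with n a0 a1 a2
    funext j
    fin_cases j
    · exact a0.symm
    · exact a1.symm
    · exact a2.symm
  have h5 : {n | f n = c} ∈ (hyperfilter ℕ : Ultrafilter ℕ) := h4
  refine Set.Finite.notMem_hyperfilter ?_ h5
  refine Set.Subsingleton.finite ?_
  intro a ha b hb
  exact hinj (ha.trans hb.symm)

theorem exists_crs_clv {p q : ℕ → Fin 3 → ℂ} (h : ∀ n, ∃ k, crs (p n) (q n) k ≠ 0) :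
    ∃ k, crs (clv p) (clv q) k ≠ 0 := by
  by_contra hc
  push Not at hc
  have e : ∀ k, crs (clv p) (clv q) k = cl (fun n => crs (p n) (q n) k) := by
    intro k
    fin_cases k <;> simp only [crs, clv, Matrix.cons_val, ← map_mul, ← map_sub, Fin.zero_eta,
      Fin.mk_one, Fin.reduceFinMk] <;> rfl
  have h3 : ∀ k, ∀ᶠ n in ((hyperfilter ℕ : Ultrafilter ℕ) : Filter ℕ),
      crs (p n) (q n) k = 0 := by
    intro k
    have := hc k
    rw [e, ← map_zero cl, cl_eq] at this
    exact this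
  have h4 : ∀ᶠ n in ((hyperfilter ℕ : Ultrafilter ℕ) : Filter ℕ), False := by
    filter_upwards [h3 0, h3 1, h3 2] with n a0 a1 a2
    obtain ⟨k, hk⟩ := h n
    fin_cases k
    · exact hk a0
    · exact hk a1
    · exact hk a2
  exact h4.exists.choose_spec

theorem dot_clv (p q : ℕ → Fin 3 → ℂ) : dot (clv p) (clv q) = cl (fun n => dot (p n) (q n)) := by
  simp only [dot, clv, ← map_mul, ← map_add]; rfl

theorem gr_clv (F : MvPolynomial (Fin 3) ℂ) (p : ℕ → Fin 3 → ℂ) (j : Fin 3) :
    gr F (clv p) j = cl (fun n => gr F (p n) j) := aeval_clv _ _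

theorem cl_zero_of {f : ℕ → ℂ} (h : ∀ n, f n = 0) : cl f = 0 := by
  have : f = 0 := funext h
  rw [this, map_zero]

theorem cl_mul_of {f g : ℕ → ℂ} {h : ℕ → ℂ} (e : ∀ n, h n = f n * g n) : cl h = cl f * cl g := by
  have : h = f * g := funext e
  rw [this, map_mul]

theorem gr_clv_of {F : MvPolynomial (Fin 3) ℂ} {p f : ℕ → Fin 3 → ℂ} {a : ℕ → ℂ}
    (h : ∀ n j, gr F (p n) j = a n * f n j) (j : Fin 3) :
    gr F (clv p) j = cl a * clv f j := by
  rw [gr_clv]
  exact cl_mul_of fun n => h n j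

theorem aeval_clv_of {F : MvPolynomial (Fin 3) ℂ} {p : ℕ → Fin 3 → ℂ}
    (h : ∀ n, aeval (p n) F = 0) : aeval (clv p) F = 0 := by
  rw [aeval_clv]; exact cl_zero_of h

theorem dot_clv_of {p q : ℕ → Fin 3 → ℂ}
    (h : ∀ n, dot (p n) (q n) = 0) : dot (clv p) (clv q) = 0 := by
  rw [dot_clv]; exact cl_zero_of h

variable {F : MvPolynomial (Fin 3) ℂ} {m : ℕ}

/-- finitely many bitangents -/
theorem finite_bitangent (hF : F.IsHomogeneous m) (i : Fin 3) :
    {ℓ : Fin 3 → ℂ | ℓ i = 1 ∧ ∃ (p q : Fin 3 → ℂ) (a b : ℂ), a ≠ 0 ∧ b ≠ 0 ∧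
      aeval p F = 0 ∧ aeval q F = 0 ∧ (∀ j, gr F p j = a * ℓ j) ∧ (∀ j, gr F q j = b * ℓ j) ∧
      ∃ k, crs p q k ≠ 0}.Finite := by
  refine finite_of i _ (fun ℓ h => h.1) ?_
  intro f hf D j
  choose hf1 p q a b ha hb hp hq hgp hgq hw using hf
  exact K1 hF D (clv f) (clv p) (clv q) (cl a) (cl b) (cl_ne_zero ha) (cl_ne_zero hb)
    (aeval_clv_of hp) (aeval_clv_of hq) (gr_clv_of hgp) (gr_clv_of hgq) (exists_crs_clv hw) i j

/-- finitely many flex tangents -/
theorem finite_flex (hF : F.IsHomogeneous m) (i : Fin 3) :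
    {ℓ : Fin 3 → ℂ | ℓ i = 1 ∧ ∃ (p q : Fin 3 → ℂ) (a : ℂ), a ≠ 0 ∧
      aeval p F = 0 ∧ (∀ j, gr F p j = a * ℓ j) ∧ dot ℓ q = 0 ∧ hs F p q q = 0 ∧
      ∃ k, crs p q k ≠ 0}.Finite := by
  refine finite_of i _ (fun ℓ h => h.1) ?_
  intro f hf D j
  choose hf1 p q a ha hp hgp hlq hH hw using hf
  have e : hs F (clv p) (clv q) (clv q) = 0 := by
    have e1 : hs F (clv p) (clv q) (clv q) = cl (fun n => hs F (p n) (q n) (q n)) := by
      simp only [hs, Fin.sum_univ_three, aeval_clv, clv, ← map_mul, ← map_add]; rfl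
    rw [e1]; exact cl_zero_of hH
  have e2 : clv f i ≠ 0 := by
    have e : clv f i = 1 := by
      rw [← map_one cl]; exact congrArg cl (funext fun n => hf1 n)
    rw [e]; exact one_ne_zero
  exact K2 hF D (clv f) (clv p) (clv q) (cl a) (cl_ne_zero ha) (aeval_clv_of hp) (gr_clv_of hgp)
    (dot_clv_of hlq) e i e2 (exists_crs_clv hw) i j

/-- finitely many tangents through a point -/
theorem finite_tangent (hF : F.IsHomogeneous m) (i : Fin 3) (q : Fin 3 → ℂ) :
    {ℓ : Fin 3 → ℂ | ℓ i = 1 ∧ ∃ (p : Fin 3 → ℂ) (a : ℂ), a ≠ 0 ∧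
      aeval p F = 0 ∧ (∀ j, gr F p j = a * ℓ j) ∧ dot ℓ q = 0 ∧
      ∃ k, crs p q k ≠ 0}.Finite := by
  refine finite_of i _ (fun ℓ h => h.1) ?_
  intro f hf D j
  choose hf1 p a ha hp hgp hlq hw using hf
  exact K3 hF D (clv f) (clv p) (clv fun _ => q) (cl a) (cl_ne_zero ha) (aeval_clv_of hp)
    (gr_clv_of hgp) (dot_clv_of hlq) (fun i => D.map_algebraMap (q i)) (exists_crs_clv hw) i j

end germ

section good

theorem aeval_smul {k R : Type*} [Field k] [CommRing R] [Algebra k R]
    {F : MvPolynomial (Fin 3) k} {m : ℕ} (hF : F.IsHomogeneous m) (c : R) (v : Fin 3 → R) :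
    aeval (fun i => c * v i) F = c ^ m * aeval v F := by
  rw [aeval_def, aeval_def, eval₂_eq, eval₂_eq, Finset.mul_sum]
  refine Finset.sum_congr rfl fun d hd => ?_
  have h : d.degree = m := by
    by_contra hne
    exact (mem_support_iff.mp hd) (hF.coeff_eq_zero hne)
  have h2 : ∏ i ∈ d.support, (c * v i) ^ d i = c ^ m * ∏ i ∈ d.support, v i ^ d i := by
    simp_rw [mul_pow]
    rw [Finset.prod_mul_distrib, Finset.prod_pow_eq_pow_sum]
    congr 2
  rw [h2]; ring

/-- two parallel vectors -/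
theorem crs_ne_zero_of {F : MvPolynomial (Fin 3) ℂ} {m : ℕ} (hF : F.IsHomogeneous m)
    {v P : Fin 3 → ℂ} (hv : v ≠ 0) (h0 : aeval v F = 0) (hP : aeval P F ≠ 0) :
    ∃ k, crs v P k ≠ 0 := by
  by_contra hc
  push Not at hc
  have c0 := hc 0
  have c1 := hc 1
  have c2 := hc 2
  simp only [crs, Matrix.cons_val] at c0 c1 c2
  obtain ⟨j, hj⟩ : ∃ j, v j ≠ 0 := by
    by_contra h; push Not at h; exact hv (funext h)
  have h : ∀ k, P k = (P j / v j) * v k := by
    intro k
    rw [div_mul_eq_mul_div, eq_div_iff hj]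
    fin_cases j <;> fin_cases k <;> simp only [Fin.zero_eta, Fin.mk_one, Fin.reduceFinMk] <;>
      first | ring1 | linear_combination c0 | linear_combination c1 | linear_combination c2 |
        linear_combination -c0 | linear_combination -c1 | linear_combination -c2
  have h2 : P = fun k => (P j / v j) * v k := funext h
  apply hP
  rw [h2, aeval_smul hF, h0, mul_zero]

/-- nonsingular projective plane curve -/
def Nonsing (F : MvPolynomial (Fin 3) ℂ) : Prop :=
  ∀ v : Fin 3 → ℂ, v ≠ 0 → aeval v F = 0 → ∃ j, gr F v j ≠ 0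

/-- real vector as a complex vector -/
def toC (P : Fin 3 → ℝ) : Fin 3 → ℂ := fun i => (P i : ℂ)

theorem exists_real_ne_zero {H : MvPolynomial (Fin 3) ℂ} (hH : H ≠ 0) {U : Set (Fin 3 → ℝ)}
    (hU : IsOpen U) (hne : U.Nonempty) : ∃ P ∈ U, aeval (toC P) H ≠ 0 := by
  obtain ⟨P0, hP0⟩ := hne
  obtain ⟨ε, hε, hball⟩ := Metric.isOpen_iff.mp hU P0 hP0
  by_contra hc
  push Not at hc
  apply hH
  refine funext_set (fun i => (fun t : ℝ => (t : ℂ)) '' Metric.ball (P0 i) ε) ?_ ?_
  · intro i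
    refine Set.Infinite.image (Complex.ofReal_injective.injOn) ?_
    rw [Real.ball_eq_Ioo]
    exact Set.Ioo_infinite (by linarith)
  · intro x hx
    choose! y hy using fun i => hx i (Set.mem_univ i)
    have h1 : y ∈ U := by
      apply hball
      rw [Metric.mem_ball, dist_pi_lt_iff hε]
      intro i
      exact (hy i).1
    have h2 := hc y h1
    have h3 : x = toC y := funext fun i => ((hy i).2).symm
    rw [map_zero, h3]
    simpa [aeval_def] using h2

/-- the linear form with coefficient vector `ℓ` -/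
noncomputable def lin (ℓ : Fin 3 → ℂ) : MvPolynomial (Fin 3) ℂ :=
  C (ℓ 0) * X 0 + C (ℓ 1) * X 1 + C (ℓ 2) * X 2

theorem aeval_lin (ℓ v : Fin 3 → ℂ) : aeval v (lin ℓ) = dot ℓ v := by
  simp [lin, dot]

theorem lin_ne_zero {ℓ : Fin 3 → ℂ} {i : Fin 3} (h : ℓ i = 1) : lin ℓ ≠ 0 := by
  intro h0
  have := aeval_lin ℓ (Pi.single i 1)
  rw [h0, map_zero] at this
  fin_cases i <;> simp [dot] at this <;> simp_all

theorem ne_zero_of_nonsing {F : MvPolynomial (Fin 3) ℂ} (h : Nonsing F) : F ≠ 0 := by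
  rintro rfl
  obtain ⟨j, hj⟩ := h (fun _ => 1) (by intro h; simpa using congrFun h 0) (by simp)
  simp [gr] at hj

/-- general position: a real point outside finitely many lines and outside a curve -/
theorem exists_avoid {F : MvPolynomial (Fin 3) ℂ} (hF : F ≠ 0) (S : Fin 3 → Set (Fin 3 → ℂ))
    (hfin : ∀ i, (S i).Finite) (h1 : ∀ i, ∀ ℓ ∈ S i, ℓ i = 1) {U : Set (Fin 3 → ℝ)}
    (hU : IsOpen U) (hne : U.Nonempty) :
    ∃ P ∈ U, aeval (toC P) F ≠ 0 ∧ ∀ i, ∀ ℓ ∈ S i, dot ℓ (toC P) ≠ 0 := by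
  have hH : F * ∏ i, ∏ ℓ ∈ (hfin i).toFinset, lin ℓ ≠ 0 := by
    refine mul_ne_zero hF (Finset.prod_ne_zero_iff.mpr fun i _ =>
      Finset.prod_ne_zero_iff.mpr fun ℓ hℓ => ?_)
    exact lin_ne_zero (h1 i ℓ ((hfin i).mem_toFinset.mp hℓ))
  obtain ⟨P, hP, hne⟩ := exists_real_ne_zero hH hU hne
  rw [map_mul, map_prod] at hne
  refine ⟨P, hP, left_ne_zero_of_mul hne, fun i ℓ hℓ => ?_⟩
  have h2 := (Finset.prod_ne_zero_iff.mp (right_ne_zero_of_mul hne)) i (Finset.mem_univ i)
  rw [map_prod] at h2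
  have h3 := (Finset.prod_ne_zero_iff.mp h2) ℓ ((hfin i).mem_toFinset.mpr hℓ)
  rwa [aeval_lin] at h3

/-- the centre is generic: not on the curve, not on a flex tangent, not on a bitangent -/
structure Good (F : MvPolynomial (Fin 3) ℂ) (P : Fin 3 → ℂ) : Prop where
  ne : aeval P F ≠ 0
  flex : ∀ v : Fin 3 → ℂ, v ≠ 0 → aeval v F = 0 → dot (gr F v) P = 0 → hs F v P P ≠ 0
  bitan : ∀ v v' : Fin 3 → ℂ, v ≠ 0 → v' ≠ 0 → aeval v F = 0 → aeval v' F = 0 →
    dot (gr F v) P = 0 → dot (gr F v') P = 0 → dot (crs v v') P = 0 → ∀ k, crs v v' k = 0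

theorem exists_good {F : MvPolynomial (Fin 3) ℂ} {m : ℕ} (hF : F.IsHomogeneous m)
    (hns : Nonsing F) {U : Set (Fin 3 → ℝ)} (hU : IsOpen U) (hne : U.Nonempty) :
    ∃ P ∈ U, Good F (toC P) := by
  obtain ⟨P, hP, h0, h1⟩ := exists_avoid (ne_zero_of_nonsing hns)
    (fun i => _ ∪ _) (fun i => (finite_bitangent hF i).union (finite_flex hF i))
    (by
      rintro i ℓ (h | h)
      · exact h.1
      · exact h.1) hU hne
  refine ⟨P, hP, h0, ?_, ?_⟩
  · intro v hv hFv hgv hH
    obtain ⟨i, hi⟩ := hns v hv hFv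
    refine h1 i (fun j => gr F v j / gr F v i) (Or.inr ⟨div_self hi, v, toC P, gr F v i, hi, hFv,
      fun j => by field_simp, ?_, hH, crs_ne_zero_of hF hv hFv h0⟩) ?_
    · simp only [dot] at hgv ⊢
      field_simp
      linear_combination hgv
    · simp only [dot] at hgv ⊢
      field_simp
      linear_combination hgv
  · intro v v' hv hv' hFv hFv' hgv hgv' hdet
    by_contra hc
    push Not at hc
    obtain ⟨i, hi⟩ := hns v hv hFv
    -- the gradient at v' is orthogonal to v
    have hgg : dot (gr F v') v = 0 := by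
      obtain ⟨k, hk⟩ := crs_ne_zero_of hF hv' hFv' h0
      have e1 : dot (gr F v') v' = 0 := by
        have := euler hF v'
        rw [hFv', mul_zero] at this
        simp only [dot] at this ⊢
        linear_combination this
      have hsp : ∀ j, crs v (toC P) k * v' j = crs v' (toC P) k * v j
          + crs v v' k * (toC P) j := by
        intro j
        simp only [dot, crs, Matrix.cons_val] at hdet
        fin_cases k <;> fin_cases j <;> simp only [crs, Matrix.cons_val, Fin.zero_eta, Fin.mk_one,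
          Fin.reduceFinMk] <;> first | ring1 | linear_combination hdet | linear_combination -hdet
      have : crs v' (toC P) k * dot (gr F v') v = 0 := by
        simp only [dot] at e1 hgv' ⊢
        linear_combination crs v (toC P) k * e1 - crs v v' k * hgv' - gr F v' 0 * hsp 0
          - gr F v' 1 * hsp 1 - gr F v' 2 * hsp 2
      exact (mul_eq_zero.mp this).resolve_left hk
    have hg1 : dot (gr F v) v = 0 := by
      have := euler hF v
      rw [hFv, mul_zero] at this
      simp only [dot] at this ⊢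
      linear_combination this
    have hpar := K0 (gr F v) v (toC P) (gr F v') hg1 hgv hgg hgv' (crs_ne_zero_of hF hv hFv h0)
    have hb : gr F v' i ≠ 0 := by
      intro hb
      obtain ⟨j, hj⟩ := hns v' hv' hFv'
      have := hpar i j
      rw [hb, mul_zero] at this
      exact (mul_ne_zero hi hj) this
    refine h1 i (fun j => gr F v j / gr F v i) (Or.inl ⟨div_self hi, v, v', gr F v i, gr F v' i,
      hi, hb, hFv, hFv', fun j => by field_simp, fun j => ?_, hc⟩) ?_
    · have := hpar i j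
      field_simp
      linear_combination this
    · simp only [dot] at hgv ⊢
      field_simp
      linear_combination hgv

theorem Good.ne_zero {F : MvPolynomial (Fin 3) ℂ} {m : ℕ} (hF : F.IsHomogeneous m) (hm : 1 ≤ m)
    {P : Fin 3 → ℝ} (hP : Good F (toC P)) : P ≠ 0 := by
  rintro rfl
  apply hP.ne
  have h : toC 0 = fun i => (0 : ℂ) * (fun _ => (0 : ℂ)) i := by
    funext i; simp [toC]
  rw [h, aeval_smul hF, zero_pow (by omega), zero_mul]

/-- the line through `P` and `Q` is not tangent -/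
theorem exists_transversal {F : MvPolynomial (Fin 3) ℂ} {m : ℕ} (hF : F.IsHomogeneous m)
    (hm : 1 ≤ m) (hns : Nonsing F) {P : Fin 3 → ℝ} (hP : Good F (toC P))
    {V : Set (Fin 3 → ℝ)} (hV : IsOpen V) (hne : V.Nonempty) :
    ∃ Q ∈ V, (∃ k, crs P Q k ≠ 0) ∧ ∀ v : Fin 3 → ℂ, v ≠ 0 → aeval v F = 0 →
      dot (gr F v) (toC P) = 0 → dot (gr F v) (toC Q) ≠ 0 := by
  have hP0 := hP.ne_zero hF hm
  obtain ⟨j, hj⟩ : ∃ j, P j ≠ 0 := by
    by_contra h; push Not at h; exact hP0 (funext h)
  obtain ⟨c, k, hc, hck⟩ : ∃ (c : Fin 3 → ℂ) (k : Fin 3), lin c ≠ 0 ∧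
      ∀ Q : Fin 3 → ℝ, dot c (toC Q) = (crs P Q k : ℝ) := by
    fin_cases j
    · refine ⟨![-(P 1 : ℂ), (P 0 : ℂ), 0], 2, ?_, ?_⟩
      · intro h0
        have := aeval_lin ![-(P 1 : ℂ), (P 0 : ℂ), 0] (Pi.single 1 1)
        rw [h0, map_zero] at this
        simp [dot] at this
        exact hj (by exact_mod_cast this.symm)
      · intro Q; simp [dot, crs, toC]; ring
    · refine ⟨![0, -(P 2 : ℂ), (P 1 : ℂ)], 0, ?_, ?_⟩
      · intro h0
        have := aeval_lin ![0, -(P 2 : ℂ), (P 1 : ℂ)] (Pi.single 2 1)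
        rw [h0, map_zero] at this
        simp [dot] at this
        exact hj (by exact_mod_cast this.symm)
      · intro Q; simp [dot, crs, toC]; ring
    · refine ⟨![(P 2 : ℂ), 0, -(P 0 : ℂ)], 1, ?_, ?_⟩
      · intro h0
        have := aeval_lin ![(P 2 : ℂ), 0, -(P 0 : ℂ)] (Pi.single 0 1)
        rw [h0, map_zero] at this
        simp [dot] at this
        exact hj (by exact_mod_cast this.symm)
      · intro Q; simp [dot, crs, toC]; ring
  obtain ⟨Q, hQ, h0, h1⟩ := exists_avoid hc _ (fun i => finite_tangent hF i (toC P))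
    (fun i ℓ h => h.1) hV hne
  refine ⟨Q, hQ, ⟨k, ?_⟩, ?_⟩
  · intro hz
    rw [aeval_lin, hck, hz] at h0
    simp at h0
  · intro v hv hFv hgv hgQ
    obtain ⟨i, hi⟩ := hns v hv hFv
    refine h1 i (fun j => gr F v j / gr F v i) ⟨div_self hi, v, gr F v i, hi, hFv,
      fun j => by field_simp, ?_, crs_ne_zero_of hF hv hFv hP.ne⟩ ?_
    · simp only [dot] at hgv ⊢
      field_simp
      linear_combination hgv
    · simp only [dot] at hgQ ⊢
      field_simp
      linear_combination hgQ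

end good

end Rohlin.Centre
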