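import Pool.Agent.Rohlin.Setup
import Pool.Agent.Rohlin.Centre

/-!
# Cell ROH: an octic in general position (module CENTRE, interface for REDUCE)

`exists_normal`: after a real linear change of coordinates, with the centre in a prescribed
nonempty open set, a nonsingular real octic is `Normal`.  (helper49)
-/

set_option autoImplicit false

namespace Pool.Agent.Rohlin

open Polynomial Complex Set Matrix

namespace CNorm

/-- linear change of coordinates of a form -/
noncomputable def subst (M : Matrix (Fin 3) (Fin 3) ℝ) (F : MvPolynomial (Fin 3) ℝ) :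
    MvPolynomial (Fin 3) ℝ :=
  MvPolynomial.aeval (fun i => (MvPolynomial.C (M i 0) * MvPolynomial.X 0
    + MvPolynomial.C (M i 1) * MvPolynomial.X 1 + MvPolynomial.C (M i 2) * MvPolynomial.X 2 :
      MvPolynomial (Fin 3) ℝ)) F

theorem aeval_subst {A : Type*} [CommRing A] [Algebra ℝ A] (M : Matrix (Fin 3) (Fin 3) ℝ)
    (F : MvPolynomial (Fin 3) ℝ) (z : Fin 3 → A) :
    MvPolynomial.aeval z (subst M F)
      = MvPolynomial.aeval ((M.map (algebraMap ℝ A)) *ᵥ z) F := by
  have h : (MvPolynomial.aeval z).comp (MvPolynomial.aeval (fun i => MvPolynomial.C (M i 0) * MvPolynomial.X 0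
    + MvPolynomial.C (M i 1) * MvPolynomial.X 1 + MvPolynomial.C (M i 2) * MvPolynomial.X 2) :
      MvPolynomial (Fin 3) ℝ →ₐ[ℝ] MvPolynomial (Fin 3) ℝ)
      = MvPolynomial.aeval ((M.map (algebraMap ℝ A)) *ᵥ z) := by
    ext i
    simp [Matrix.mulVec, dotProduct, Fin.sum_univ_three]
  exact congrArg (fun g => g F) h

theorem hom_subst {m : ℕ} {F : MvPolynomial (Fin 3) ℝ} (hF : F.IsHomogeneous m)
    (M : Matrix (Fin 3) (Fin 3) ℝ) : (subst M F).IsHomogeneous m := by
  have := hF.aeval (fun i => (MvPolynomial.C (M i 0) * MvPolynomial.X 0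
    + MvPolynomial.C (M i 1) * MvPolynomial.X 1 + MvPolynomial.C (M i 2) * MvPolynomial.X 2 :
      MvPolynomial (Fin 3) ℝ))
    (n := 1) (fun i => ((MvPolynomial.isHomogeneous_C_mul_X _ _).add
      (MvPolynomial.isHomogeneous_C_mul_X _ _)).add (MvPolynomial.isHomogeneous_C_mul_X _ _))
  simpa [subst] using this

theorem der_aeval {A N : Type*} [CommRing A] [Algebra ℝ A] [AddCommGroup N] [Module A N]
    [Module ℝ N] [IsScalarTower ℝ A N] (D : Derivation ℝ A N) (F : MvPolynomial (Fin 3) ℝ)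
    (u : Fin 3 → A) :
    D (MvPolynomial.aeval u F) = ∑ i, MvPolynomial.aeval u (MvPolynomial.pderiv i F) • D (u i) := by
  induction F using MvPolynomial.induction_on with
  | C a => simp
  | add p q hp hq => simp only [map_add, hp, hq, add_smul, Finset.sum_add_distrib]
  | mul_X p i hp =>
    simp only [map_mul, MvPolynomial.aeval_X, Derivation.leibniz, hp, map_add, smul_eq_mul,
      MvPolynomial.pderiv_X, add_smul, Finset.sum_add_distrib, Finset.smul_sum, mul_smul]
    congr 1
    rw [Finset.sum_eq_single i]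
    · simp
    · intro b _ hb
      simp [hb]
    · simp

theorem pderiv_subst (M : Matrix (Fin 3) (Fin 3) ℝ) (F : MvPolynomial (Fin 3) ℝ) (j : Fin 3) :
    MvPolynomial.pderiv j (subst M F)
      = ∑ i, subst M (MvPolynomial.pderiv i F) * MvPolynomial.C (M i j) := by
  rw [subst, der_aeval]
  refine Finset.sum_congr rfl fun i _ => ?_
  rw [smul_eq_mul, ← subst]
  congr 1
  fin_cases j <;> simp [Derivation.leibniz]

theorem eval_dir (f : MvPolynomial (Fin 3) ℝ) (a b y : ℂ) :
    (dir f a b).eval y = MvPolynomial.aeval ![a, b, y] f := by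
  have h : ((Polynomial.aeval y : ℂ[X] →ₐ[ℂ] ℂ).restrictScalars ℝ).comp
      (MvPolynomial.aeval ![C a, C b, (X : ℂ[X])]) = MvPolynomial.aeval ![a, b, y] := by
    ext i
    fin_cases i <;> simp
  have := congrArg (fun g => g f) h
  simpa [dir] using this

theorem derivative_dir (f : MvPolynomial (Fin 3) ℝ) (a b : ℂ) :
    derivative (dir f a b) = dir (MvPolynomial.pderiv 2 f) a b := by
  have := der_aeval ((Polynomial.derivative' (R := ℂ)).restrictScalars ℝ) f
    ![C a, C b, (X : ℂ[X])]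
  simpa [Fin.sum_univ_three, dir] using this

/-- the form over the complex numbers -/
noncomputable abbrev cx (F : MvPolynomial (Fin 3) ℝ) : MvPolynomial (Fin 3) ℂ :=
  MvPolynomial.map (algebraMap ℝ ℂ) F

theorem aeval_cx (F : MvPolynomial (Fin 3) ℝ) (v : Fin 3 → ℂ) :
    MvPolynomial.aeval v (cx F) = MvPolynomial.aeval v F := MvPolynomial.aeval_map_algebraMap ..

theorem gr_cx (F : MvPolynomial (Fin 3) ℝ) (v : Fin 3 → ℂ) (j : Fin 3) :
    _root_.Rohlin.Centre.gr (cx F) v j = MvPolynomial.aeval v (MvPolynomial.pderiv j F) := by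
  rw [_root_.Rohlin.Centre.gr, cx, MvPolynomial.pderiv_map, ← cx, aeval_cx]

theorem hs_cx (F : MvPolynomial (Fin 3) ℝ) (v a b : Fin 3 → ℂ) :
    _root_.Rohlin.Centre.hs (cx F) v a b = ∑ i, ∑ j,
      MvPolynomial.aeval v (MvPolynomial.pderiv j (MvPolynomial.pderiv i F)) * a i * b j := by
  rw [_root_.Rohlin.Centre.hs]
  refine Finset.sum_congr rfl fun i _ => Finset.sum_congr rfl fun j _ => ?_
  rw [cx, MvPolynomial.pderiv_map, MvPolynomial.pderiv_map, ← cx, aeval_cx]

theorem coeff_single_eight {f : MvPolynomial (Fin 3) ℝ} {m : ℕ} (hf : f.IsHomogeneous m) :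
    f.coeff (Finsupp.single 2 m) = MvPolynomial.eval ![0, 0, 1] f := by
  rw [MvPolynomial.eval_eq, Finset.sum_eq_single (Finsupp.single 2 m)]
  · rw [Finset.prod_eq_one, mul_one]
    intro i hi
    by_cases h : i = 2
    · subst h; simp
    · rw [Finsupp.single_eq_of_ne h, pow_zero]
  · intro d hd hne
    have hdeg : d.degree = m := by
      by_contra h
      exact (MvPolynomial.mem_support_iff.mp hd) (hf.coeff_eq_zero h)
    have h01 : d 0 ≠ 0 ∨ d 1 ≠ 0 := by
      by_contra hc
      push Not at hc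
      apply hne
      rw [Finsupp.degree_eq_sum, Fin.sum_univ_three, hc.1, hc.2] at hdeg
      ext i
      fin_cases i
      · simpa using hc.1
      · simpa using hc.2
      · simpa using hdeg
    rcases h01 with h | h
    · rw [Finset.prod_eq_zero (i := 0) (Finsupp.mem_support_iff.mpr h), mul_zero]
      simp [h]
    · rw [Finset.prod_eq_zero (i := 1) (Finsupp.mem_support_iff.mpr h), mul_zero]
      simp [h]
  · intro h
    rw [MvPolynomial.notMem_support_iff.mp h, zero_mul]

end CNorm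

open CNorm

open _root_.Rohlin.Centre (dot crs toC)

/-- EXISTENCE OF A GENERIC CENTRE in a prescribed nonempty open set. -/
theorem exists_normal {F : MvPolynomial (Fin 3) ℝ} (hF : F.IsHomogeneous 8)
    (hns : ∀ z : Fin 3 → ℂ, z ≠ 0 → MvPolynomial.aeval z F = 0 →
      ∃ i, MvPolynomial.aeval z (MvPolynomial.pderiv i F) ≠ 0)
    {U : Set (Fin 3 → ℝ)} (hU : IsOpen U) (hne : U.Nonempty) :
    ∃ (M : Matrix (Fin 3) (Fin 3) ℝ) (c : ℝ) (f : MvPolynomial (Fin 3) ℝ),
      M.det ≠ 0 ∧ (fun i => M i 2) ∈ U ∧ c ≠ 0 ∧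
      c * MvPolynomial.eval (fun i => M i 2) F = 1 ∧ Normal f ∧ (fam f 1).Separable ∧
      (∀ v : Fin 3 → ℝ, MvPolynomial.eval v f = c * MvPolynomial.eval (M *ᵥ v) F) ∧
      (∀ z : Fin 3 → ℂ, MvPolynomial.aeval z f
        = c * MvPolynomial.aeval ((M.map (algebraMap ℝ ℂ)) *ᵥ z) F) := by
  have hFc : (cx F).IsHomogeneous 8 := hF.map _
  have hnc : _root_.Rohlin.Centre.Nonsing (cx F) := by
    intro v hv h0
    rw [aeval_cx] at h0
    obtain ⟨i, hi⟩ := hns v hv h0
    exact ⟨i, by rw [gr_cx]; exact hi⟩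
  obtain ⟨P, hPU, hP⟩ := _root_.Rohlin.Centre.exists_good hFc hnc hU hne
  obtain ⟨Q, -, ⟨k, hk⟩, hQ⟩ := _root_.Rohlin.Centre.exists_transversal hFc (by norm_num) hnc hP
    isOpen_univ Set.univ_nonempty
  set R : Fin 3 → ℝ := crs P Q with hR
  let M : Matrix (Fin 3) (Fin 3) ℝ := Matrix.of fun i j => ![Q i, R i, P i] j
  have hM0 : ∀ i, M i 0 = Q i := fun i => rfl
  have hM1 : ∀ i, M i 1 = R i := fun i => rfl
  have hM2 : ∀ i, M i 2 = P i := fun i => rfl
  have hdet : M.det ≠ 0 := by
    have e : M.det = dot R R := by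
      rw [Matrix.det_fin_three]
      simp only [hM0, hM1, hM2]
      simp only [hR, dot, crs, Matrix.cons_val]
      ring
    rw [e]
    have : 0 < dot R R := by
      have h2 : 0 < R k * R k := mul_self_pos.mpr hk
      have a0 := mul_self_nonneg (R 0)
      have a1 := mul_self_nonneg (R 1)
      have a2 := mul_self_nonneg (R 2)
      simp only [dot]
      fin_cases k
      · simp only [Fin.zero_eta] at h2; linarith
      · simp only [Fin.mk_one] at h2; linarith
      · simp only [Fin.reduceFinMk] at h2; linarith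
    exact this.ne'
  have hPe : (fun i => M i 2) = P := rfl
  have hFP : MvPolynomial.eval P F ≠ 0 := by
    intro h0
    apply hP.ne
    rw [aeval_cx]
    have : MvPolynomial.aeval (toC P) F = algebraMap ℝ ℂ (MvPolynomial.eval P F) :=
      MvPolynomial.aeval_algebraMap_apply ℂ P F
    rw [this, h0, map_zero]
  let c : ℝ := (MvPolynomial.eval P F)⁻¹
  have hc : c ≠ 0 := inv_ne_zero hFP
  let f : MvPolynomial (Fin 3) ℝ := MvPolynomial.C c * subst M F
  have hfa : ∀ z : Fin 3 → ℂ, MvPolynomial.aeval z f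
        = c * MvPolynomial.aeval ((M.map (algebraMap ℝ ℂ)) *ᵥ z) F := by
    intro z
    simp only [f, map_mul, MvPolynomial.aeval_C, aeval_subst]; rfl
  have hfe : ∀ v : Fin 3 → ℝ, MvPolynomial.eval v f = c * MvPolynomial.eval (M *ᵥ v) F := by
    intro v
    have h := aeval_subst (A := ℝ) M F v
    simp only [f, map_mul, MvPolynomial.eval_C]
    have e : M.map (algebraMap ℝ ℝ) = M := by ext i j; rfl
    rw [e] at h
    exact congrArg (fun t => c * t) h
  -- the complex matrix
  set Mc : Matrix (Fin 3) (Fin 3) ℂ := M.map (algebraMap ℝ ℂ) with hMc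
  have hdetc : Mc.det ≠ 0 := by
    have : Mc.det = algebraMap ℝ ℂ M.det := by
      rw [hMc]; exact (RingHom.map_det _ _).symm
    rw [this]; simpa using hdet
  have hMne : ∀ z : Fin 3 → ℂ, z ≠ 0 → Mc *ᵥ z ≠ 0 := by
    intro z hz h0
    exact hz (Matrix.eq_zero_of_mulVec_eq_zero hdetc h0)
  have hcC : (c : ℂ) ≠ 0 := by exact_mod_cast hc
  -- partial derivatives
  have hpd : ∀ (j : Fin 3) (z : Fin 3 → ℂ), MvPolynomial.aeval z (MvPolynomial.pderiv j f)
      = c * ∑ i, MvPolynomial.aeval (Mc *ᵥ z) (MvPolynomial.pderiv i F) * Mc i j := by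
    intro j z
    simp only [f, MvPolynomial.pderiv_C_mul, pderiv_subst, map_sum, map_mul,
      MvPolynomial.aeval_C, aeval_subst, ← hMc]
    rfl
  have hPc : ∀ i, Mc i 2 = toC P i := fun i => rfl
  have hQc : ∀ i, Mc i 0 = toC Q i := fun i => rfl
  have hv : ∀ (a b y : ℂ) (i : Fin 3), (Mc *ᵥ ![a, b, y]) i = Mc i 0 * a + Mc i 1 * b
      + toC P i * y := by
    intro a b y i
    simp [Matrix.mulVec, dotProduct, Fin.sum_univ_three, hPc]
  have hd2 : ∀ z : Fin 3 → ℂ, MvPolynomial.aeval z (MvPolynomial.pderiv 2 f)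
      = c * dot (_root_.Rohlin.Centre.gr (cx F) (Mc *ᵥ z)) (toC P) := by
    intro z
    rw [hpd, Fin.sum_univ_three, dot, gr_cx, gr_cx, gr_cx]; rfl
  have hd22 : ∀ z : Fin 3 → ℂ,
      MvPolynomial.aeval z (MvPolynomial.pderiv 2 (MvPolynomial.pderiv 2 f))
      = c * _root_.Rohlin.Centre.hs (cx F) (Mc *ᵥ z) (toC P) (toC P) := by
    intro z
    have e : MvPolynomial.pderiv 2 (MvPolynomial.pderiv 2 f) = MvPolynomial.C c *
        ∑ i, (∑ k, subst M (MvPolynomial.pderiv k (MvPolynomial.pderiv i F))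
          * MvPolynomial.C (M k 2)) * MvPolynomial.C (M i 2) := by
      simp only [f, MvPolynomial.pderiv_C_mul, pderiv_subst, map_sum]
      congr 1
      refine Finset.sum_congr rfl fun i _ => ?_
      rw [MvPolynomial.pderiv_mul, MvPolynomial.pderiv_C, mul_zero, add_zero, pderiv_subst]
    rw [e, hs_cx]
    simp only [map_mul, map_sum, MvPolynomial.aeval_C, aeval_subst, ← hMc]
    congr 1
    refine Finset.sum_congr rfl fun i _ => ?_
    rw [Finset.sum_mul]
    refine Finset.sum_congr rfl fun k _ => ?_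
    change _ * toC P k * toC P i = _
    ring
  have hF0 : ∀ z : Fin 3 → ℂ, MvPolynomial.aeval z f = 0 →
      MvPolynomial.aeval (Mc *ᵥ z) (cx F) = 0 := by
    intro z h0
    rw [hfa] at h0
    rw [aeval_cx]; exact (mul_eq_zero.mp h0).resolve_left hcC
  have hz0 : ∀ a b y : ℂ, (a ≠ 0 ∨ b ≠ 0) → Mc *ᵥ ![a, b, y] ≠ 0 := by
    intro a b y hab
    apply hMne
    intro h0
    rcases hab with h | h
    · exact h (by simpa using congrFun h0 0)
    · exact h (by simpa using congrFun h0 1)
  have hhom : f.IsHomogeneous 8 := by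
    have := (hom_subst hF M).C_mul c
    exact this
  have hmonic : f.coeff (Finsupp.single 2 8) = 1 := by
    rw [coeff_single_eight hhom, hfe]
    have : M *ᵥ ![0, 0, 1] = P := by
      ext i
      simp [Matrix.mulVec, dotProduct, Fin.sum_univ_three, hM2]
    rw [this]; exact inv_mul_cancel₀ hFP
  have hnonsing : ∀ z : Fin 3 → ℂ, z ≠ 0 → MvPolynomial.aeval z f = 0 →
      ∃ i, MvPolynomial.aeval z (MvPolynomial.pderiv i f) ≠ 0 := by
    intro z hz h0
    rw [hfa] at h0
    have h1 : MvPolynomial.aeval (Mc *ᵥ z) F = 0 := (mul_eq_zero.mp h0).resolve_left hcC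
    obtain ⟨i, hi⟩ := hns _ (hMne z hz) h1
    by_contra hcon
    push Not at hcon
    have h2 : (fun i => MvPolynomial.aeval (Mc *ᵥ z) (MvPolynomial.pderiv i F)) ᵥ* Mc = 0 := by
      ext j
      have := hcon j
      rw [hpd] at this
      exact (mul_eq_zero.mp this).resolve_left hcC
    exact hi (congrFun (Matrix.eq_zero_of_vecMul_eq_zero hdetc h2) i)
  refine ⟨M, c, f, hdet, hPU, hc, ?_, ⟨hhom, hmonic, hnonsing, ?_, ?_⟩, ?_, hfe, hfa⟩
  · rw [hPe]; exact inv_mul_cancel₀ hFP
  · -- at most one multiple root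
    intro a b y y' hab h1 h2 h3 h4
    rw [derivative_dir] at h2 h4
    rw [eval_dir] at h1 h2 h3 h4
    rw [hd2] at h2 h4
    have h1' := hF0 _ h1
    have h3' := hF0 _ h3
    have h2' := (mul_eq_zero.mp h2).resolve_left hcC
    have h4' := (mul_eq_zero.mp h4).resolve_left hcC
    have hcr : ∀ k, crs (Mc *ᵥ ![a, b, y]) (Mc *ᵥ ![a, b, y']) k
        = (y' - y) * crs (Mc *ᵥ ![a, b, y]) (toC P) k := by
      intro k
      fin_cases k <;> simp only [crs, Matrix.cons_val, hv, Fin.zero_eta, Fin.mk_one,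
        Fin.reduceFinMk] <;> ring
    have h5 := hP.bitan _ _ (hz0 a b y hab) (hz0 a b y' hab) h1' h3' h2' h4' (by
      rw [dot, hcr, hcr, hcr]
      simp only [crs, Matrix.cons_val]; ring)
    obtain ⟨k, hk⟩ := _root_.Rohlin.Centre.crs_ne_zero_of hFc (hz0 a b y hab) h1' hP.ne
    have h6 := h5 k
    rw [hcr] at h6
    have h7 := (mul_eq_zero.mp h6).resolve_right hk
    exact (sub_eq_zero.mp h7).symm
  · intro a b y hab h1 h2
    rw [derivative_dir, derivative_dir]
    rw [derivative_dir] at h2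
    rw [eval_dir] at h1 h2 ⊢
    rw [hd2] at h2
    rw [hd22]
    exact mul_ne_zero hcC (hP.flex _ (hz0 a b y hab) (hF0 _ h1)
      ((mul_eq_zero.mp h2).resolve_left hcC))
  · rw [Polynomial.Separable, isCoprime_iff_aeval_ne_zero_of_isAlgClosed ℂ ℂ]
    intro y
    by_contra hcon
    push Not at hcon
    obtain ⟨h1, h2⟩ := hcon
    rw [coe_aeval_eq_eval] at h1 h2
    have e : fam f 1 = dir f 1 0 := by
      rw [fam]; congr 1 <;> norm_num
    rw [e] at h1 h2
    rw [derivative_dir] at h2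
    rw [eval_dir] at h1 h2
    rw [hd2] at h2
    have h2' := (mul_eq_zero.mp h2).resolve_left hcC
    have hz := hz0 1 0 y (Or.inl one_ne_zero)
    refine hQ _ hz (hF0 _ h1) h2' ?_
    have h3 := _root_.Rohlin.Centre.euler hFc (Mc *ᵥ ![1, 0, y])
    rw [hF0 _ h1, mul_zero] at h3
    simp only [dot] at h3 h2' ⊢
    simp only [hv, hQc] at h3
    linear_combination h3 - y * h2'

end Pool.Agent.Rohlin
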