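import Pool.Agent.Rohlin.Steps
import Pool.Agent.Rohlin.Normalize

/-!
# Cell ROH: linear changes of coordinates (module LINCHANGE)
(helper49)
-/

set_option autoImplicit false

namespace Pool.Agent.Rohlin

open Set Topology Matrix

section general

variable {K : Type} [Field K]

theorem mulVec_ne_zero {M : Matrix (Fin 3) (Fin 3) K} (hM : M.det ≠ 0) {v : Fin 3 → K}
    (hv : v ≠ 0) : M *ᵥ v ≠ 0 := fun h => hv (Matrix.eq_zero_of_mulVec_eq_zero hM h)

theorem mulVecLin_injective {M : Matrix (Fin 3) (Fin 3) K} (hM : M.det ≠ 0) :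
    Function.Injective (Matrix.mulVecLin M) := by
  rw [← LinearMap.ker_eq_bot, LinearMap.ker_eq_bot']
  intro v hv
  exact Matrix.eq_zero_of_mulVec_eq_zero hM hv

/-- the action of an invertible matrix on the projective plane -/
noncomputable def linP (M : Matrix (Fin 3) (Fin 3) K) (hM : M.det ≠ 0) :
    Projectivization K (Fin 3 → K) → Projectivization K (Fin 3 → K) :=
  Projectivization.map (Matrix.mulVecLin M) (mulVecLin_injective hM)

theorem linP_mk (M : Matrix (Fin 3) (Fin 3) K) (hM : M.det ≠ 0) (v : Fin 3 → K) (hv : v ≠ 0) :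
    linP M hM (Projectivization.mk K v hv)
      = Projectivization.mk K (M *ᵥ v) (mulVec_ne_zero hM hv) := rfl

theorem det_inv_ne {M : Matrix (Fin 3) (Fin 3) K} (hM : M.det ≠ 0) : M⁻¹.det ≠ 0 := by
  rw [Matrix.det_nonsing_inv, Ring.inverse_eq_inv']
  exact inv_ne_zero hM

theorem linP_inv_linP (M : Matrix (Fin 3) (Fin 3) K) (hM : M.det ≠ 0)
    (p : Projectivization K (Fin 3 → K)) : linP M⁻¹ (det_inv_ne hM) (linP M hM p) = p := by
  induction p using Projectivization.ind with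
  | h v hv =>
    rw [linP_mk, linP_mk]
    congr 1
    rw [Matrix.mulVec_mulVec, Matrix.nonsing_inv_mul _ (isUnit_iff_ne_zero.mpr hM),
      Matrix.one_mulVec]

theorem linP_linP_inv (M : Matrix (Fin 3) (Fin 3) K) (hM : M.det ≠ 0)
    (p : Projectivization K (Fin 3 → K)) : linP M hM (linP M⁻¹ (det_inv_ne hM) p) = p := by
  induction p using Projectivization.ind with
  | h v hv =>
    rw [linP_mk, linP_mk]
    congr 1
    rw [Matrix.mulVec_mulVec, Matrix.mul_nonsing_inv _ (isUnit_iff_ne_zero.mpr hM),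
      Matrix.one_mulVec]

end general

theorem continuous_linPR (M : Matrix (Fin 3) (Fin 3) ℝ) (hM : M.det ≠ 0) :
    Continuous (linP M hM : RP2 → RP2) := by
  have hq : IsQuotientMap (fun v : {v : Fin 3 → ℝ // v ≠ 0} =>
      (Projectivization.mk ℝ v.1 v.2 : RP2)) := isQuotientMap_quotient_mk'
  rw [hq.continuous_iff]
  have h : Continuous (fun v : {v : Fin 3 → ℝ // v ≠ 0} =>
      (⟨M *ᵥ v.1, mulVec_ne_zero hM v.2⟩ : {v : Fin 3 → ℝ // v ≠ 0})) :=
    Continuous.subtype_mk (Continuous.matrix_mulVec continuous_const continuous_subtype_val) _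
  exact hq.continuous.comp h

theorem continuous_linPC (M : Matrix (Fin 3) (Fin 3) ℂ) (hM : M.det ≠ 0) :
    Continuous (linP M hM : CP2 → CP2) := by
  have hq : IsQuotientMap (fun v : {v : Fin 3 → ℂ // v ≠ 0} =>
      (Projectivization.mk ℂ v.1 v.2 : CP2)) := isQuotientMap_quotient_mk'
  rw [hq.continuous_iff]
  have h : Continuous (fun v : {v : Fin 3 → ℂ // v ≠ 0} =>
      (⟨M *ᵥ v.1, mulVec_ne_zero hM v.2⟩ : {v : Fin 3 → ℂ // v ≠ 0})) :=
    Continuous.subtype_mk (Continuous.matrix_mulVec continuous_const continuous_subtype_val) _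
  exact hq.continuous.comp h

/-- the homeomorphism of the real projective plane given by an invertible real matrix -/
noncomputable def linR (M : Matrix (Fin 3) (Fin 3) ℝ) (hM : M.det ≠ 0) : RP2 ≃ₜ RP2 where
  toFun := linP M hM
  invFun := linP M⁻¹ (det_inv_ne hM)
  left_inv := linP_inv_linP M hM
  right_inv := linP_linP_inv M hM
  continuous_toFun := continuous_linPR M hM
  continuous_invFun := continuous_linPR _ _

theorem linR_mk (M : Matrix (Fin 3) (Fin 3) ℝ) (hM : M.det ≠ 0) (v : Fin 3 → ℝ) (hv : v ≠ 0) :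
    linR M hM (Projectivization.mk ℝ v hv)
      = Projectivization.mk ℝ (M *ᵥ v) (mulVec_ne_zero hM hv) := rfl

/-- the homeomorphism of the complex projective plane given by an invertible matrix -/
noncomputable def linC (M : Matrix (Fin 3) (Fin 3) ℂ) (hM : M.det ≠ 0) : CP2 ≃ₜ CP2 where
  toFun := linP M hM
  invFun := linP M⁻¹ (det_inv_ne hM)
  left_inv := linP_inv_linP M hM
  right_inv := linP_linP_inv M hM
  continuous_toFun := continuous_linPC M hM
  continuous_invFun := continuous_linPC _ _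

theorem linC_mk (M : Matrix (Fin 3) (Fin 3) ℂ) (hM : M.det ≠ 0) (v : Fin 3 → ℂ) (hv : v ≠ 0) :
    linC M hM (Projectivization.mk ℂ v hv)
      = Projectivization.mk ℂ (M *ᵥ v) (mulVec_ne_zero hM hv) := rfl

/-! ### discs -/

theorem IsDisc.image (e : RP2 ≃ₜ RP2) {Δ : Set RP2} (h : IsDisc Δ) : IsDisc (e '' Δ) := by
  obtain ⟨δ, hc, hi, hr, hint⟩ := h
  refine ⟨e ∘ δ, e.continuous.comp hc, e.injective.comp hi, ?_, ?_⟩
  · rw [range_comp, hr]
  · rw [← e.image_interior, hint, image_comp]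

theorem IsDisc.preimage (e : RP2 ≃ₜ RP2) {Δ : Set RP2} (h : IsDisc Δ) : IsDisc (e ⁻¹' Δ) := by
  rw [← e.image_symm]
  exact h.image e.symm

theorem HasScheme.preimage {m : ℕ} {X : Set RP2} {S : Scheme} (e : RP2 ≃ₜ RP2)
    (h : HasScheme m X S) : HasScheme m (e ⁻¹' X) S := by
  obtain ⟨Δ, J, h1, h2, h3, h4, h5, h6, h7, h8⟩ := h
  refine ⟨fun i => e ⁻¹' Δ i, e ⁻¹' J, fun i => (h1 i).preimage e, ?_, ?_, h4, h5, ?_, ?_, ?_⟩
  · intro i j hij hle
    rw [← e.preimage_interior]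
    exact preimage_mono (h2 i j hij hle)
  · intro i j hij hji
    exact (h3 i j hij hji).preimage e
  · rcases h6 with ⟨he, hJ⟩ | ⟨ho, ⟨γ, g1, g2, g3⟩, hcon⟩
    · exact Or.inl ⟨he, by rw [hJ, preimage_empty]⟩
    · refine Or.inr ⟨ho, ⟨e.symm ∘ γ, e.symm.continuous.comp g1, e.symm.injective.comp g2, ?_⟩, ?_⟩
      · rw [range_comp, g3, e.image_symm]
      · rw [← preimage_compl, ← e.image_symm]
        exact hcon.image _ e.symm.continuous.continuousOn
  · intro i
    exact (h7 i).preimage e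
  · rw [h8, preimage_union, preimage_iUnion]
    congr 1
    refine iUnion_congr fun i => ?_
    rw [e.preimage_frontier]

/-! ### the complex curve -/

theorem aeval_rep_eq_zero_iff {m : ℕ} {F : MvPolynomial (Fin 3) ℝ} (hF : F.IsHomogeneous m)
    (v : Fin 3 → ℂ) (hv : v ≠ 0) :
    MvPolynomial.aeval (Projectivization.mk ℂ v hv).rep F = 0 ↔ MvPolynomial.aeval v F = 0 := by
  obtain ⟨a, ha⟩ := Projectivization.exists_smul_eq_mk_rep ℂ v hv
  have h1 : (Projectivization.mk ℂ v hv).rep = fun i => (a : ℂ) * v i := by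
    rw [← ha]; rfl
  rw [h1, _root_.Rohlin.Centre.aeval_smul hF]
  constructor
  · intro h
    exact (mul_eq_zero.1 h).resolve_left (pow_ne_zero _ a.ne_zero)
  · intro h
    rw [h, mul_zero]

theorem mapC_det_ne {M : Matrix (Fin 3) (Fin 3) ℝ} (hM : M.det ≠ 0) :
    (M.map (algebraMap ℝ ℂ)).det ≠ 0 := by
  have : (M.map (algebraMap ℝ ℂ)).det = algebraMap ℝ ℂ M.det := (RingHom.map_det _ _).symm
  rw [this]; simpa using hM

theorem mapC_mulVec (M : Matrix (Fin 3) (Fin 3) ℝ) (v : Fin 3 → ℝ) :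
    (M.map (algebraMap ℝ ℂ)) *ᵥ (fun i => (v i : ℂ)) = fun i => ((M *ᵥ v) i : ℂ) := by
  funext i
  simp [Matrix.mulVec, dotProduct, Fin.sum_univ_three]

theorem ofReal_vec_ne {v : Fin 3 → ℝ} (hv : v ≠ 0) : (fun i => (v i : ℂ)) ≠ 0 := by
  intro h
  apply hv
  funext i
  have := congrFun h i
  simpa using this

theorem mapsTo_realPoints (M : Matrix (Fin 3) (Fin 3) ℝ) (hM : M.det ≠ 0) {p : CP2}
    (hp : p ∈ realPoints) : linC (M.map (algebraMap ℝ ℂ)) (mapC_det_ne hM) p ∈ realPoints := by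
  obtain ⟨v, h, rfl⟩ := hp
  have hv : v ≠ 0 := by
    rintro rfl
    apply h; funext i; simp
  refine ⟨M *ᵥ v, ofReal_vec_ne (mulVec_ne_zero hM hv), ?_⟩
  rw [linC_mk]
  congr 1
  exact mapC_mulVec M v

theorem linC_symm_eq (M : Matrix (Fin 3) (Fin 3) ℝ) (hM : M.det ≠ 0) (p : CP2) :
    (linC (M.map (algebraMap ℝ ℂ)) (mapC_det_ne hM)).symm p
      = linC (M⁻¹.map (algebraMap ℝ ℂ)) (mapC_det_ne (det_inv_ne hM)) p := by
  rw [Homeomorph.symm_apply_eq]
  induction p using Projectivization.ind with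
  | h v hv =>
    rw [linC_mk, linC_mk]
    congr 1
    rw [Matrix.mulVec_mulVec, ← Matrix.map_mul, Matrix.mul_nonsing_inv _
      (isUnit_iff_ne_zero.mpr hM), Matrix.map_one _ (map_zero _) (map_one _), Matrix.one_mulVec]

theorem mem_realPoints_linC (M : Matrix (Fin 3) (Fin 3) ℝ) (hM : M.det ≠ 0) (p : CP2) :
    linC (M.map (algebraMap ℝ ℂ)) (mapC_det_ne hM) p ∈ realPoints ↔ p ∈ realPoints := by
  refine ⟨fun h => ?_, mapsTo_realPoints M hM⟩
  have := mapsTo_realPoints M⁻¹ (det_inv_ne hM) h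
  rw [← linC_symm_eq M hM, Homeomorph.symm_apply_apply] at this
  exact this

theorem cpl_eq_preimage {m : ℕ} {F f : MvPolynomial (Fin 3) ℝ} (hF : F.IsHomogeneous m)
    (hf : f.IsHomogeneous m) (M : Matrix (Fin 3) (Fin 3) ℝ) (hM : M.det ≠ 0) {c : ℝ} (hc : c ≠ 0)
    (h : ∀ z : Fin 3 → ℂ, MvPolynomial.aeval z f
      = c * MvPolynomial.aeval ((M.map (algebraMap ℝ ℂ)) *ᵥ z) F) :
    cpl f = linC (M.map (algebraMap ℝ ℂ)) (mapC_det_ne hM) ⁻¹'
      ({p : CP2 | MvPolynomial.aeval p.rep F = 0} \ realPoints) := by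
  have hcC : (c : ℂ) ≠ 0 := by exact_mod_cast hc
  ext p
  rw [cpl, mem_preimage, mem_sdiff, mem_sdiff, mem_realPoints_linC M hM]
  refine and_congr_left fun _ => ?_
  induction p using Projectivization.ind with
  | h v hv =>
    rw [linC_mk, mem_ofPred_eq, mem_ofPred_eq, aeval_rep_eq_zero_iff hf, aeval_rep_eq_zero_iff hF, h]
    constructor
    · intro h0; exact (mul_eq_zero.mp h0).resolve_left hcC
    · intro h0; rw [h0, mul_zero]

theorem preconn_cpl {F f : MvPolynomial (Fin 3) ℝ} {m : ℕ} (hF : F.IsHomogeneous m)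
    (hf : f.IsHomogeneous m)
    (M : Matrix (Fin 3) (Fin 3) ℝ) (hM : M.det ≠ 0) {c : ℝ} (hc : c ≠ 0)
    (h : ∀ z : Fin 3 → ℂ, MvPolynomial.aeval z f
      = c * MvPolynomial.aeval ((M.map (algebraMap ℝ ℂ)) *ᵥ z) F)
    (hp : IsPreconnected ({p : CP2 | MvPolynomial.aeval p.rep F = 0} \ realPoints)) :
    IsPreconnected (cpl f) := by
  rw [cpl_eq_preimage hF hf M hM hc h, ← Homeomorph.image_symm]
  exact hp.image _ (Homeomorph.continuous _).continuousOn

end Pool.Agent.Rohlin
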