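import Pool.Agent.Rohlin.Transv

/-!
# Transversality along the arc of Lagrangians at a concave event of depth 0
-/

namespace Pool.Agent.Rohlin

open Polynomial Finset Lagrange

section arc

variable {P : Type*} [Fintype P] [DecidableEq P] {A B : P → ℂ} {kind : P → Fin 3} {w : P ⊕ P → ℂ}
  {g : ℝ[X]} {p₁ p₂ : P}

theorem arc_setup (hC : Conf A B kind) (hw : Wt kind w) (hA : Adm (Sum.elim A B) w g) (h12 : p₁ ≠ p₂)
    (hk1 : kind p₁ = 0) (hk2 : kind p₂ = 0)
    (hW : ∀ p, p ≠ p₁ → p ≠ p₂ → WCond A B kind w g p)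
    (s : Finset P) (α β z : P → ℝ)
    (hs1 : ∀ q, kind q = 0 → q ≠ p₁ → q ≠ p₂ → q ∈ s)
    (hα : ∀ q ∈ s, q ≠ p₁ → q ≠ p₂ → α q = (A q).re ∧ β q = (B q).re)
    (hzb : ∀ q ∈ s, α q ≤ z q ∧ z q ≤ β q)
    (hz : ∀ q ∈ s, (A q).re ≤ z q ∧ z q ≤ (B q).re ∧ g.eval (z q) = 0 ∧
      ∀ p, kind p = 1 → g.eval (A p).re = 0 ∨ z q < (A p).re ∨ (B p).re < z q)
    (hdis : ∀ i ∈ s, ∀ j ∈ s, i ≠ j → β i < α j ∨ β j < α i)
    (hblock : ∀ (μ : ℝ) (lam : P → ℝ), 0 ≤ μ → (∀ j ∈ s, 0 < lam j) → (0 < μ ∨ s.Nonempty) →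
      (∀ j ∈ s, (∀ y, α j ≤ y → y < z j → 0 < hergR s μ lam z y) ∧
        (∀ y, z j < y → y ≤ β j → hergR s μ lam z y < 0)) →
      Kc A B w g (herg s μ lam z) p₁ + Kc A B w g (herg s μ lam z) p₂ ≤ 0 ∧
      (Kc A B w g (herg s μ lam z) p₁ + Kc A B w g (herg s μ lam z) p₂ = 0 →
        xval (Sum.elim A B) w g (Sum.inl p₁) = 0 ∧ xval (Sum.elim A B) w g (Sum.inr p₁) = 0 ∧
        xval (Sum.elim A B) w g (Sum.inl p₂) = 0 ∧ xval (Sum.elim A B) w g (Sum.inr p₂) = 0))
    (p : P) : aeval (A p) g = 0 ∧ aeval (B p) g = 0 := by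
  obtain ⟨μ, lam, hμ, hlam, hne, hR⟩ := exists_herg s α β z hzb hdis
  obtain ⟨hb1, hb2⟩ := hblock μ lam hμ hlam hne hR
  have hK : ∀ p, p ≠ p₁ → p ≠ p₂ → Kc A B w g (herg s μ lam z) p ≤ 0 ∧
      (Kc A B w g (herg s μ lam z) p = 0 → aeval (A p) g = 0 ∧ aeval (B p) g = 0) := by
    intro p hp1 hp2
    rcases fin3_cases (kind p) with hp | hp | hp
    · have hps := hs1 p hp hp1 hp2
      have h1 := hz p hps
      have h2 := hR p hps
      obtain ⟨h3, h4⟩ := hα p hps hp1 hp2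
      rw [h3, h4] at h2
      exact Kc_out_le hC hw s μ lam z p hp (hW p hp1 hp2) h1.1 h1.2.1 h1.2.2.1 h2.1 h2.2
    · exact Kc_inn_le hC hw s μ lam z hμ hlam hne p hp (hW p hp1 hp2)
        (fun j hj => (hz j hj).2.2.2 p hp)
    · exact Kc_cpx hC hw s μ lam z hμ hlam hne p hp (hW p hp1 hp2)
  have hsum := sum_Kc_nonneg hA s μ lam z hμ hlam (fun j hj => (hz j hj).2.2.1)
  have hp2m : p₂ ∈ (univ : Finset P).erase p₁ := mem_erase.2 ⟨h12.symm, mem_univ _⟩
  rw [← add_sum_erase univ _ (mem_univ p₁), ← add_sum_erase _ _ hp2m, ← add_assoc] at hsum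
  have hrest : ∀ q ∈ (univ.erase p₁).erase p₂, Kc A B w g (herg s μ lam z) q ≤ 0 := by
    intro q hq
    rw [mem_erase, mem_erase] at hq
    exact (hK q hq.2.1 hq.1).1
  have hrest' := Finset.sum_nonpos hrest
  have h0 : Kc A B w g (herg s μ lam z) p₁ + Kc A B w g (herg s μ lam z) p₂ = 0 := by linarith
  have h0' : ∑ q ∈ (univ.erase p₁).erase p₂, Kc A B w g (herg s μ lam z) q = 0 := by linarith
  have h1 := (Finset.sum_eq_zero_iff_of_nonpos hrest).1 h0'
  obtain ⟨ha, hb, hc, hd⟩ := hb2 h0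
  have hfin : ∀ q, kind q = 0 → xval (Sum.elim A B) w g (Sum.inl q) = 0 →
      xval (Sum.elim A B) w g (Sum.inr q) = 0 → aeval (A q) g = 0 ∧ aeval (B q) g = 0 := by
    intro q hq hx hy
    obtain ⟨i1, i2, -⟩ := hC.real q (by rw [hq]; decide)
    obtain ⟨-, -, h3, h4⟩ := hw.k0 q hq
    exact ⟨aeval_real i1 ((xval_eq_zero (v := Sum.elim A B) h3.ne).1 hx),
      aeval_real i2 ((xval_eq_zero (v := Sum.elim A B) h4.ne').1 hy)⟩
  by_cases hp1 : p = p₁
  · rw [hp1]; exact hfin p₁ hk1 ha hb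
  by_cases hp2 : p = p₂
  · rw [hp2]; exact hfin p₂ hk2 hc hd
  exact (hK p hp1 hp2).2 (h1 p (mem_erase.2 ⟨hp2, mem_erase.2 ⟨hp1, mem_univ _⟩⟩))

theorem arc_main (hC : Conf A B kind) (hw : Wt kind w) (hA : Adm (Sum.elim A B) w g)
    (h12 : p₁ ≠ p₂) (hk1 : kind p₁ = 0) (hk2 : kind p₂ = 0) (hord : (B p₁).re < (A p₂).re)
    (hadj : ∀ q, kind q = 0 → q ≠ p₁ → q ≠ p₂ → (B q).re < (A p₁).re ∨ (B p₂).re < (A q).re)
    (hW : ∀ p, p ≠ p₁ → p ≠ p₂ → WCond A B kind w g p) (c S : ℝ) (hc : 0 ≤ c) (hS : 0 ≤ S)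
    (hcS : c ^ 2 + S ^ 2 = 1)
    (hb : xval (Sum.elim A B) w g (Sum.inr p₁) = -c * xval (Sum.elim A B) w g (Sum.inl p₁) +
      S * xval (Sum.elim A B) w g (Sum.inl p₂))
    (hd : xval (Sum.elim A B) w g (Sum.inr p₂) = -S * xval (Sum.elim A B) w g (Sum.inl p₁) -
      c * xval (Sum.elim A B) w g (Sum.inl p₂))
    (hsgn : (0 ≤ xval (Sum.elim A B) w g (Sum.inl p₁) ∧ 0 ≤ xval (Sum.elim A B) w g (Sum.inl p₂)) ∨
      (0 < xval (Sum.elim A B) w g (Sum.inl p₁) ∧ xval (Sum.elim A B) w g (Sum.inl p₂) < 0))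
    (p : P) : aeval (A p) g = 0 ∧ aeval (B p) g = 0 := by
  have hk1' : kind p₁ ≠ 2 := by rw [hk1]; decide
  have hk2' : kind p₂ ≠ 2 := by rw [hk2]; decide
  have hab := (hC.real p₁ hk1').2.2
  have hcd := (hC.real p₂ hk2').2.2
  have hW1 : ∀ p, kind p = 1 → WCond A B kind w g p := by
    intro p hp
    refine hW p ?_ ?_
    · rintro rfl; rw [hk1] at hp; exact absurd hp (by decide)
    · rintro rfl; rw [hk2] at hp; exact absurd hp (by decide)
  -- zeros
  have hpole : ∀ q, kind q = 0 → xval (Sum.elim A B) w g (Sum.inl q) *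
      xval (Sum.elim A B) w g (Sum.inr q) ≤ 0 →
      ∃ z : ℝ, (A q).re ≤ z ∧ z ≤ (B q).re ∧ g.eval z = 0 ∧
      ∀ p, kind p = 1 → g.eval (A p).re = 0 ∨ z < (A p).re ∨ (B p).re < z := by
    intro q hq hx
    obtain ⟨-, -, h3, h4⟩ := hw.k0 q hq
    exact exists_pole hC hw hW1 q hq
      ((mul_sign (v := Sum.elim A B) (i := Sum.inl q) (j := Sum.inr q) h3.ne h4.ne').2.1 hx)
  have hx0 : ∀ q, q ≠ p₁ → q ≠ p₂ → kind q = 0 → xval (Sum.elim A B) w g (Sum.inl q) *
      xval (Sum.elim A B) w g (Sum.inr q) ≤ 0 := by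
    intro q h1 h2 hq
    rw [(hW q h1 h2).out hq]
    have := mul_self_nonneg (xval (Sum.elim A B) w g (Sum.inl q))
    linarith
  have hz : ∀ q, ∃ z : ℝ, kind q = 0 → xval (Sum.elim A B) w g (Sum.inl q) *
      xval (Sum.elim A B) w g (Sum.inr q) ≤ 0 → (A q).re ≤ z ∧ z ≤ (B q).re ∧ g.eval z = 0 ∧
      ∀ p, kind p = 1 → g.eval (A p).re = 0 ∨ z < (A p).re ∨ (B p).re < z := by
    intro q
    by_cases hq : kind q = 0 ∧ xval (Sum.elim A B) w g (Sum.inl q) *
      xval (Sum.elim A B) w g (Sum.inr q) ≤ 0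
    · obtain ⟨z, hz⟩ := hpole q hq.1 hq.2
      exact ⟨z, fun _ _ => hz⟩
    · exact ⟨0, fun h h' => absurd ⟨h, h'⟩ hq⟩
  choose z hz using hz
  obtain ⟨-, -, hwa, hwb⟩ := hw.k0 p₁ hk1
  obtain ⟨-, -, hwc, hwd⟩ := hw.k0 p₂ hk2
  have ea := xval_eq_zero (v := Sum.elim A B) (g := g) (i := Sum.inl p₁) hwa.ne
  have eb := xval_eq_zero (v := Sum.elim A B) (g := g) (i := Sum.inr p₁) hwb.ne'
  have ec := xval_eq_zero (v := Sum.elim A B) (g := g) (i := Sum.inl p₂) hwc.ne
  have ed := xval_eq_zero (v := Sum.elim A B) (g := g) (i := Sum.inr p₂) hwd.ne'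
  simp only [Sum.elim_inl, Sum.elim_inr] at ea eb ec ed
  set xa := xval (Sum.elim A B) w g (Sum.inl p₁) with hxa
  set xb := xval (Sum.elim A B) w g (Sum.inr p₁) with hxb
  set xc := xval (Sum.elim A B) w g (Sum.inl p₂) with hxc
  set xd := xval (Sum.elim A B) w g (Sum.inr p₂) with hxd
  have hc1 : c ≤ 1 := by nlinarith
  have hS1 : S ≤ 1 := by nlinarith
  -- case 1
  have case1 : 0 < xa → xb < 0 → xc * xd ≤ 0 → ∀ p, aeval (A p) g = 0 ∧ aeval (B p) g = 0 := by
    intro ha hb' hcd'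
    have hx : ∀ q, kind q = 0 → xval (Sum.elim A B) w g (Sum.inl q) *
      xval (Sum.elim A B) w g (Sum.inr q) ≤ 0 := by
      intro q hq
      by_cases h1 : q = p₁
      · rw [h1, ← hxa, ← hxb]; exact (mul_neg_of_pos_of_neg ha hb').le
      by_cases h2 : q = p₂
      · rw [h2, ← hxc, ← hxd]; exact hcd'
      exact hx0 q h1 h2 hq
    have hs' : ∀ q, q ∈ univ.filter (fun q => kind q = 0) ↔ kind q = 0 := by
      intro q; simp
    refine arc_setup hC hw hA h12 hk1 hk2 hW (univ.filter fun q => kind q = 0)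
      (fun q => (A q).re) (fun q => (B q).re) z
      (fun q hq _ _ => (hs' q).2 hq) (fun q _ _ _ => ⟨rfl, rfl⟩)
      (fun q hq => ⟨(hz q ((hs' q).1 hq) (hx q ((hs' q).1 hq))).1,
        (hz q ((hs' q).1 hq) (hx q ((hs' q).1 hq))).2.1⟩)
      (fun q hq => hz q ((hs' q).1 hq) (hx q ((hs' q).1 hq)))
      (fun q hq r hr hqr => hC.disj q r hqr (((hs' q).1 hq).trans ((hs' r).1 hr).symm)
        (by rw [(hs' q).1 hq]; decide)) ?_
    intro μ lam hμ hlam hne hR
    rw [Kc_out hC hw _ μ lam z p₁ hk1, Kc_out hC hw _ μ lam z p₂ hk2, ← hxa, ← hxb, ← hxc, ← hxd]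
    set s := univ.filter fun q => kind q = 0
    have hz1 := hz p₁ hk1 (hx p₁ hk1)
    have hz2 := hz p₂ hk2 (hx p₂ hk2)
    have hR1 := hR p₁ ((hs' p₁).2 hk1)
    have hR2 := hR p₂ ((hs' p₂).2 hk2)
    have h1 : (A p₁).re < z p₁ := lt_of_le_of_ne hz1.1 fun h => ha.ne' (ea.2 (by rw [h]; exact hz1.2.2.1))
    have h2 : z p₁ < (B p₁).re := lt_of_le_of_ne hz1.2.1 fun h =>
      hb'.ne (eb.2 (by rw [← h]; exact hz1.2.2.1))
    have hRa := hR1.1 _ le_rfl h1
    have hRb := hR1.2 _ h2 le_rfl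
    have tc : 0 ≤ xc ^ 2 * hergR s μ lam z (A p₂).re := by
      by_cases h : xc = 0
      · rw [h]; simp
      · have h3 : (A p₂).re < z p₂ := lt_of_le_of_ne hz2.1 fun h' =>
          h (ec.2 (by rw [h']; exact hz2.2.2.1))
        exact mul_nonneg (sq_nonneg _) (hR2.1 _ le_rfl h3).le
    have td : xd ^ 2 * hergR s μ lam z (B p₂).re ≤ 0 := by
      by_cases h : xd = 0
      · rw [h]; simp
      · have h3 : z p₂ < (B p₂).re := lt_of_le_of_ne hz2.2.1 fun h' =>
          h (ed.2 (by rw [← h']; exact hz2.2.2.1))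
        exact mul_nonpos_of_nonneg_of_nonpos (sq_nonneg _) (hR2.2 _ h3 le_rfl).le
    have ta : 0 < xa ^ 2 * hergR s μ lam z (A p₁).re := mul_pos (by positivity) hRa
    have tb : xb ^ 2 * hergR s μ lam z (B p₁).re ≤ 0 :=
      mul_nonpos_of_nonneg_of_nonpos (sq_nonneg _) hRb.le
    have hlt : -xa ^ 2 * hergR s μ lam z (A p₁).re + xb ^ 2 * hergR s μ lam z (B p₁).re +
        (-xc ^ 2 * hergR s μ lam z (A p₂).re + xd ^ 2 * hergR s μ lam z (B p₂).re) < 0 := by
      linarith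
    exact ⟨hlt.le, fun h => absurd h hlt.ne⟩
  -- case 2
  have case2 : 0 ≤ xa → 0 ≤ xb → 0 ≤ xc → ∀ p, aeval (A p) g = 0 ∧ aeval (B p) g = 0 := by
    intro ha hb' hc'
    have hd0 : xd ≤ 0 := by
      rw [hd]
      have := mul_nonneg hS ha
      have := mul_nonneg hc hc'
      linarith
    have hs' : ∀ q, q ∈ (univ.filter (fun q => kind q = 0)).erase p₁ ↔ q ≠ p₁ ∧ kind q = 0 := by
      intro q; simp
    have hx : ∀ q, kind q = 0 → q ≠ p₁ → xval (Sum.elim A B) w g (Sum.inl q) *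
      xval (Sum.elim A B) w g (Sum.inr q) ≤ 0 := by
      intro q hq h1
      by_cases h2 : q = p₂
      · rw [h2, ← hxc, ← hxd]; exact mul_nonpos_of_nonneg_of_nonpos hc' hd0
      exact hx0 q h1 h2 hq
    have hzq : ∀ q ∈ (univ.filter (fun q => kind q = 0)).erase p₁, (A q).re ≤ z q ∧
        z q ≤ (B q).re ∧ g.eval (z q) = 0 ∧
        ∀ p, kind p = 1 → g.eval (A p).re = 0 ∨ z q < (A p).re ∨ (B p).re < z q := fun q hq =>
      hz q ((hs' q).1 hq).2 (hx q ((hs' q).1 hq).2 ((hs' q).1 hq).1)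
    have hp2s : p₂ ∈ (univ.filter (fun q => kind q = 0)).erase p₁ := (hs' p₂).2 ⟨h12.symm, hk2⟩
    refine arc_setup hC hw hA h12 hk1 hk2 hW ((univ.filter fun q => kind q = 0).erase p₁)
      (fun q => if q = p₂ then (A p₁).re else (A q).re) (fun q => (B q).re) z
      (fun q hq h1 _ => (hs' q).2 ⟨h1, hq⟩)
      (fun q _ _ h2 => ⟨if_neg h2, rfl⟩) (fun q hq => ⟨?_, (hzq q hq).2.1⟩) hzq
      (fun q hq r hr hqr => ?_) ?_
    · split_ifs with h
      · have := (hzq q hq).1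
        rw [h] at this ⊢
        linarith
      · exact (hzq q hq).1
    · obtain ⟨hq1, hq0⟩ := (hs' q).1 hq
      obtain ⟨hr1, hr0⟩ := (hs' r).1 hr
      by_cases hqp : q = p₂
      · have hrp : r ≠ p₂ := fun h => hqr (hqp.trans h.symm)
        rw [if_pos hqp, if_neg hrp]
        rcases hadj r hr0 hr1 hrp with h | h
        · exact Or.inr h
        · rw [hqp]; exact Or.inl h
      · rw [if_neg hqp]
        by_cases hrp : r = p₂
        · rw [if_pos hrp]
          rcases hadj q hq0 hq1 hqp with h | h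
          · exact Or.inl h
          · rw [hrp]; exact Or.inr h
        · rw [if_neg hrp]
          exact hC.disj q r hqr (hq0.trans hr0.symm) (by rw [hq0]; decide)
    · intro μ lam hμ hlam hne hR
      rw [Kc_out hC hw _ μ lam z p₁ hk1, Kc_out hC hw _ μ lam z p₂ hk2, ← hxa, ← hxb, ← hxc, ← hxd]
      set s := (univ.filter fun q => kind q = 0).erase p₁
      have hz2 := hzq p₂ hp2s
      have hR2 := hR p₂ hp2s
      simp only [if_true] at hR2
      have hRa := hR2.1 (A p₁).re le_rfl (by linarith [hz2.1])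
      have hRb := hR2.1 (B p₁).re hab.le (by linarith [hz2.1])
      have td : xd ^ 2 * hergR s μ lam z (B p₂).re ≤ 0 := by
        by_cases h : xd = 0
        · rw [h]; simp
        · have h3 : z p₂ < (B p₂).re := lt_of_le_of_ne hz2.2.1 fun h' =>
            h (ed.2 (by rw [← h']; exact hz2.2.2.1))
          exact mul_nonpos_of_nonneg_of_nonpos (sq_nonneg _) (hR2.2 _ h3 le_rfl).le
      have ta : 0 ≤ xa ^ 2 * hergR s μ lam z (A p₁).re := mul_nonneg (sq_nonneg _) hRa.le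
      rcases eq_or_lt_of_le hc' with hc0 | hc0
      · have hb0 : xb = 0 := by
          refine le_antisymm ?_ hb'
          rw [hb, ← hc0]
          have := mul_nonneg hc ha
          linarith
        rw [hb0, ← hc0]
        constructor
        · nlinarith
        · intro h
          have h1 : xa ^ 2 * hergR s μ lam z (A p₁).re = 0 := by nlinarith
          have h2 : xa = 0 := by
            rcases mul_eq_zero.1 h1 with h3 | h3
            · exact pow_eq_zero_iff two_ne_zero |>.1 h3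
            · exact absurd h3 hRa.ne'
          refine ⟨h2, rfl, rfl, ?_⟩
          rw [hd, h2, ← hc0]
          ring
      · have hzc : (A p₂).re < z p₂ := lt_of_le_of_ne hz2.1 fun h' =>
          hc0.ne' (ec.2 (by rw [h']; exact hz2.2.2.1))
        have hmono := hergR_strictMono s μ lam z hμ hlam hne hord fun j hj => by
          by_cases hjp : j = p₂
          · rw [hjp]; exact Or.inr hzc
          · obtain ⟨hj1, hj0⟩ := (hs' j).1 hj
            have hzj := hzq j hj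
            rcases hadj j hj0 hj1 hjp with h | h
            · exact Or.inl (by linarith [hzj.2.1])
            · exact Or.inr (by linarith [hzj.1])
        have hbc : xb ≤ xc := by
          rw [hb]
          have h1 := mul_nonneg hc ha
          have h2 := mul_le_mul_of_nonneg_right hS1 hc'
          linarith
        have h3 : xb ^ 2 ≤ xc ^ 2 := pow_le_pow_left₀ hb' hbc 2
        have h4 : xb ^ 2 * hergR s μ lam z (B p₁).re ≤ xc ^ 2 * hergR s μ lam z (B p₁).re :=
          mul_le_mul_of_nonneg_right h3 hRb.le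
        have h5 : xc ^ 2 * hergR s μ lam z (B p₁).re < xc ^ 2 * hergR s μ lam z (A p₂).re :=
          mul_lt_mul_of_pos_left hmono (by positivity)
        have hlt : -xa ^ 2 * hergR s μ lam z (A p₁).re + xb ^ 2 * hergR s μ lam z (B p₁).re +
            (-xc ^ 2 * hergR s μ lam z (A p₂).re + xd ^ 2 * hergR s μ lam z (B p₂).re) < 0 := by
          linarith
        exact ⟨hlt.le, fun h => absurd h hlt.ne⟩
  -- case 3
  have case3 : 0 < xa → xb < 0 → xc < 0 → xd < 0 →
      ∀ p, aeval (A p) g = 0 ∧ aeval (B p) g = 0 := by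
    intro ha hb' hc' hd'
    have hs' : ∀ q, q ∈ (univ.filter (fun q => kind q = 0)).erase p₂ ↔ q ≠ p₂ ∧ kind q = 0 := by
      intro q; simp
    have hx : ∀ q, kind q = 0 → q ≠ p₂ → xval (Sum.elim A B) w g (Sum.inl q) *
      xval (Sum.elim A B) w g (Sum.inr q) ≤ 0 := by
      intro q hq h1
      by_cases h2 : q = p₁
      · rw [h2, ← hxa, ← hxb]; exact (mul_neg_of_pos_of_neg ha hb').le
      exact hx0 q h2 h1 hq
    have hzq : ∀ q ∈ (univ.filter (fun q => kind q = 0)).erase p₂, (A q).re ≤ z q ∧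
        z q ≤ (B q).re ∧ g.eval (z q) = 0 ∧
        ∀ p, kind p = 1 → g.eval (A p).re = 0 ∨ z q < (A p).re ∨ (B p).re < z q := fun q hq =>
      hz q ((hs' q).1 hq).2 (hx q ((hs' q).1 hq).2 ((hs' q).1 hq).1)
    have hp1s : p₁ ∈ (univ.filter (fun q => kind q = 0)).erase p₂ := (hs' p₁).2 ⟨h12, hk1⟩
    refine arc_setup hC hw hA h12 hk1 hk2 hW ((univ.filter fun q => kind q = 0).erase p₂)
      (fun q => (A q).re) (fun q => if q = p₁ then (B p₂).re else (B q).re) z
      (fun q hq _ h2 => (hs' q).2 ⟨h2, hq⟩)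
      (fun q _ h1 _ => ⟨rfl, if_neg h1⟩) (fun q hq => ⟨(hzq q hq).1, ?_⟩) hzq
      (fun q hq r hr hqr => ?_) ?_
    · split_ifs with h
      · have := (hzq q hq).2.1
        rw [h] at this ⊢
        linarith
      · exact (hzq q hq).2.1
    · obtain ⟨hq1, hq0⟩ := (hs' q).1 hq
      obtain ⟨hr1, hr0⟩ := (hs' r).1 hr
      by_cases hqp : q = p₁
      · have hrp : r ≠ p₁ := fun h => hqr (hqp.trans h.symm)
        rw [if_pos hqp, if_neg hrp]
        rcases hadj r hr0 hrp hr1 with h | h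
        · rw [hqp]; exact Or.inr h
        · exact Or.inl h
      · rw [if_neg hqp]
        by_cases hrp : r = p₁
        · rw [if_pos hrp]
          rcases hadj q hq0 hqp hq1 with h | h
          · rw [hrp]; exact Or.inl h
          · exact Or.inr h
        · rw [if_neg hrp]
          exact hC.disj q r hqr (hq0.trans hr0.symm) (by rw [hq0]; decide)
    · intro μ lam hμ hlam hne hR
      rw [Kc_out hC hw _ μ lam z p₁ hk1, Kc_out hC hw _ μ lam z p₂ hk2, ← hxa, ← hxb, ← hxc, ← hxd]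
      set s := (univ.filter fun q => kind q = 0).erase p₂
      have hz1 := hzq p₁ hp1s
      have hR1 := hR p₁ hp1s
      simp only [if_true] at hR1
      have h1 : (A p₁).re < z p₁ := lt_of_le_of_ne hz1.1 fun h =>
        ha.ne' (ea.2 (by rw [h]; exact hz1.2.2.1))
      have h2 : z p₁ < (B p₁).re := lt_of_le_of_ne hz1.2.1 fun h =>
        hb'.ne (eb.2 (by rw [← h]; exact hz1.2.2.1))
      have hRa := hR1.1 (A p₁).re le_rfl h1
      have hRb := hR1.2 (B p₁).re h2 (by linarith)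
      have hRd := hR1.2 (B p₂).re (by linarith) le_rfl
      have hmono := hergR_mono s μ lam z hμ hlam hord.le fun j hj => by
        by_cases hjp : j = p₁
        · rw [hjp]; exact Or.inl h2
        · obtain ⟨hj1, hj0⟩ := (hs' j).1 hj
          have hzj := hzq j hj
          rcases hadj j hj0 hjp hj1 with h | h
          · exact Or.inl (by linarith [hzj.2.1])
          · exact Or.inr (by linarith [hzj.1])
      have h3 : xc ^ 2 ≤ xb ^ 2 := by
        have h4 : 0 ≤ S * xa + c * xc := by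
          rw [hd] at hd'
          linarith
        have h5 : xb ^ 2 - xc ^ 2 = c ^ 2 * xa ^ 2 + c ^ 2 * xc ^ 2 +
            2 * (c * -xc) * (S * xa + c * xc) := by
          rw [hb]
          linear_combination (xc ^ 2) * hcS
        have h6 : 0 ≤ 2 * (c * -xc) * (S * xa + c * xc) :=
          mul_nonneg (mul_nonneg zero_le_two (mul_nonneg hc (by linarith))) h4
        nlinarith [sq_nonneg (c * xa), sq_nonneg (c * xc)]
      have ta : 0 < xa ^ 2 * hergR s μ lam z (A p₁).re := mul_pos (by positivity) hRa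
      have h7 : xb ^ 2 * hergR s μ lam z (B p₁).re ≤ xc ^ 2 * hergR s μ lam z (B p₁).re :=
        mul_le_mul_of_nonpos_right h3 hRb.le
      have h8 : xc ^ 2 * hergR s μ lam z (B p₁).re ≤ xc ^ 2 * hergR s μ lam z (A p₂).re :=
        mul_le_mul_of_nonneg_left hmono (sq_nonneg _)
      have td : xd ^ 2 * hergR s μ lam z (B p₂).re ≤ 0 :=
        mul_nonpos_of_nonneg_of_nonpos (sq_nonneg _) hRd.le
      have hlt : -xa ^ 2 * hergR s μ lam z (A p₁).re + xb ^ 2 * hergR s μ lam z (B p₁).re +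
          (-xc ^ 2 * hergR s μ lam z (A p₂).re + xd ^ 2 * hergR s μ lam z (B p₂).re) < 0 := by
        linarith
      exact ⟨hlt.le, fun h => absurd h hlt.ne⟩
  -- end
  rcases hsgn with ⟨ha, hc'⟩ | ⟨ha, hc'⟩
  · by_cases hb0 : 0 ≤ xb
    · exact case2 ha hb0 hc' p
    · push Not at hb0
      have ha' : 0 < xa := by
        refine lt_of_le_of_ne ha fun h => ?_
        rw [hb, ← h] at hb0
        have := mul_nonneg hS hc'
        linarith
      refine case1 ha' hb0 ?_ p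
      rw [hd]
      have h1 := mul_nonneg hS ha
      have h2 := mul_nonneg hc hc'
      exact mul_nonpos_of_nonneg_of_nonpos hc' (by linarith)
  · have hb0 : xb < 0 := by
      rw [hb]
      have h1 := mul_nonneg hc ha.le
      have h2 := mul_nonneg hS (neg_nonneg.2 hc'.le)
      rcases eq_or_lt_of_le hc with h3 | h3
      · rw [← h3] at hcS
        have h4 : 0 < S := by
          refine lt_of_le_of_ne hS fun h => ?_
          rw [← h] at hcS
          norm_num at hcS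
        have := mul_pos h4 (neg_pos.2 hc')
        nlinarith
      · have := mul_pos h3 ha
        nlinarith
    by_cases hd0 : 0 ≤ xd
    · exact case1 ha hb0 (mul_nonpos_of_nonpos_of_nonneg hc'.le hd0) p
    · push Not at hd0
      exact case3 ha hb0 hc' hd0 p

theorem xval_neg {ι : Type*} (v w : ι → ℂ) (g : ℝ[X]) (i : ι) : xval v w (-g) i = -xval v w g i := by
  unfold xval
  rw [eval_neg]
  ring

omit [Fintype P] [DecidableEq P] in
theorem WCond.neg {A B : P → ℂ} {kind : P → Fin 3} {w : P ⊕ P → ℂ} {g : ℝ[X]} {p : P}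
    (h : WCond A B kind w g p) : WCond A B kind w (-g) p := by
  refine ⟨fun hp => ?_, fun hp => ?_, fun hp => ?_⟩
  · rw [xval_neg, xval_neg, h.out hp]
  · rw [xval_neg, xval_neg, h.inn hp]
  · rw [map_neg, neg_sq]
    exact h.cpx hp

theorem Adm.neg {ι : Type*} [Fintype ι] {v w : ι → ℂ} {g : ℝ[X]} (h : Adm v w g) : Adm v w (-g) := by
  refine ⟨?_, fun z hz => ?_⟩
  · simpa using h.zero
  · have := h.inv z (by simpa using hz)
    simpa using this

/-- **Transversality along the arc**: core. -/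
theorem core_arc (hC : Conf A B kind) (hw : Wt kind w) (hA : Adm (Sum.elim A B) w g)
    (h12 : p₁ ≠ p₂) (hk1 : kind p₁ = 0) (hk2 : kind p₂ = 0) (hord : (B p₁).re < (A p₂).re)
    (hadj : ∀ q, kind q = 0 → q ≠ p₁ → q ≠ p₂ → (B q).re < (A p₁).re ∨ (B p₂).re < (A q).re)
    (hW : ∀ p, p ≠ p₁ → p ≠ p₂ → WCond A B kind w g p) (c S : ℝ) (hc : 0 ≤ c) (hS : 0 ≤ S)
    (hcS : c ^ 2 + S ^ 2 = 1)
    (hb : xval (Sum.elim A B) w g (Sum.inr p₁) = -c * xval (Sum.elim A B) w g (Sum.inl p₁) +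
      S * xval (Sum.elim A B) w g (Sum.inl p₂))
    (hd : xval (Sum.elim A B) w g (Sum.inr p₂) = -S * xval (Sum.elim A B) w g (Sum.inl p₁) -
      c * xval (Sum.elim A B) w g (Sum.inl p₂))
    (p : P) : aeval (A p) g = 0 ∧ aeval (B p) g = 0 := by
  have key : ∀ h : ℝ[X], (h = g ∨ h = -g) →
      ((0 ≤ xval (Sum.elim A B) w h (Sum.inl p₁) ∧ 0 ≤ xval (Sum.elim A B) w h (Sum.inl p₂)) ∨
      (0 < xval (Sum.elim A B) w h (Sum.inl p₁) ∧ xval (Sum.elim A B) w h (Sum.inl p₂) < 0)) →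
      aeval (A p) g = 0 ∧ aeval (B p) g = 0 := by
    rintro h (rfl | rfl) hs
    · exact arc_main hC hw hA h12 hk1 hk2 hord hadj hW c S hc hS hcS hb hd hs p
    · have := arc_main hC hw hA.neg h12 hk1 hk2 hord hadj (fun p h1 h2 => (hW p h1 h2).neg) c S hc
        hS hcS (by rw [xval_neg, xval_neg, xval_neg, hb]; ring)
        (by rw [xval_neg, xval_neg, xval_neg, hd]; ring) hs p
      simpa using this
  rcases lt_trichotomy (xval (Sum.elim A B) w g (Sum.inl p₁)) 0 with h1 | h1 | h1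
  · refine key (-g) (Or.inr rfl) ?_
    rw [xval_neg, xval_neg]
    rcases le_or_gt (xval (Sum.elim A B) w g (Sum.inl p₂)) 0 with h2 | h2
    · exact Or.inl ⟨by linarith, by linarith⟩
    · exact Or.inr ⟨by linarith, by linarith⟩
  · rcases le_or_gt 0 (xval (Sum.elim A B) w g (Sum.inl p₂)) with h2 | h2
    · exact key g (Or.inl rfl) (Or.inl ⟨h1.ge, h2⟩)
    · refine key (-g) (Or.inr rfl) (Or.inl ?_)
      rw [xval_neg, xval_neg]
      exact ⟨by linarith, by linarith⟩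
  · rcases le_or_gt 0 (xval (Sum.elim A B) w g (Sum.inl p₂)) with h2 | h2
    · exact key g (Or.inl rfl) (Or.inl ⟨h1.le, h2⟩)
    · exact key g (Or.inl rfl) (Or.inr ⟨h1, h2⟩)

end arc

end Pool.Agent.Rohlin
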