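import Pool.Agent.Rohlin.StateArc

/-!
# STATE and ARC for a context
-/

set_option autoImplicit false

namespace Pool.Agent.Rohlin

open Polynomial Complex Set Matrix Filter Topology

namespace Ctx

variable {n : Type} [Fintype n] [DecidableEq n] (X : Ctx n)

theorem hC' (a : Fin 8) : X.C * X.M.e a = (X.M.e a)ᵀ * X.C := X.hC a

theorem labArc {I : Set ℝ} (hI : ∀ θ ∈ I, X.Reg θ) : LabArc X.f I X.eta X.sig :=
  ⟨fun θ hθ => X.lab (hI θ hθ), X.eta_cont hI, X.sig_cont hI⟩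

/-- STATE -/
theorem stateOK_of (hconf : ∀ θ A B kind ζ, X.Reg θ → X.Pairing θ A B kind ζ →
    Conf (fun p => X.eta θ (A p)) (fun p => X.eta θ (B p)) kind) : X.StateOK := by
  intro θ A B kind ζ hθ h
  obtain ⟨ψ, hψ⟩ := PairingG.exists_state X.M X.C X.card X.hH X.hCC X.hCT X.hC X.nf (X.lab hθ)
    ((X.pairing_iff θ A B kind ζ).1 h) (hconf θ A B kind ζ hθ h) (X.lr_sq hθ)
  exact ⟨ψ, (X.isState_iff θ A B ζ ψ).2 hψ⟩

/-- ARC -/
theorem arcOK_of (hopen : IsOpenMap (fun p : ℝ × ℝ => pt p.1 p.2))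
    (hconf : ∀ θ A B kind ζ, X.Reg θ → X.Pairing θ A B kind ζ →
      Conf (fun p => X.eta θ (A p)) (fun p => X.eta θ (B p)) kind) : X.ArcOK := by
  intro θ₁ θ₂ hR A B kind ζ ψ h
  set I := connectedComponentIn {θ | X.Reg θ} θ₁ with hI
  have hIo : IsOpen I := X.isOpen_Reg.connectedComponentIn
  have hIp : IsPreconnected I := isPreconnected_connectedComponentIn
  have hsub : uIcc θ₁ θ₂ ⊆ I :=
    isPreconnected_uIcc.subset_connectedComponentIn left_mem_uIcc hR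
  have hIR : ∀ θ ∈ I, X.Reg θ := fun θ hθ => connectedComponentIn_subset {θ | X.Reg θ} θ₁ hθ
  have h₁ : θ₁ ∈ I := hsub left_mem_uIcc
  have h₂ : θ₂ ∈ I := hsub right_mem_uIcc
  have hP : ∀ θ ∈ I, PairingG X.K0 X.K1 θ (X.eta θ) (X.sig θ) A B kind ζ := fun θ hθ =>
    (X.labArc hIR).pairing hopen X.nf X.reg hIp hIo h₁ hθ ((X.pairing_iff _ A B kind ζ).1 h.pair)
  refine ⟨(X.pairing_iff _ A B kind ζ).2 (hP θ₂ h₂), (X.isState_iff _ A B ζ ψ).2 ?_⟩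
  exact StateG.arc X.M X.C X.card X.hCC X.hCT X.hC X.nf hIp (fun θ hθ => X.lab (hIR θ hθ))
    (X.lr_cont hIR) (fun θ hθ => X.lr_sq (hIR θ hθ)) hP
    (fun θ hθ => hconf θ A B kind ζ (hIR θ hθ) ((X.pairing_iff _ A B kind ζ).2 (hP θ hθ)))
    h₁ h₂ ((X.isState_iff _ A B ζ ψ).1 h.state)

end Ctx

end Pool.Agent.Rohlin
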