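import Pool.Agent.Rohlin.Spinor

/-!
# The abstract end of the proof: phases, words, contradiction
-/

namespace Pool.Agent.Rohlin

open Matrix
open scoped ComplexOrder

section Lists

variable {m : ℕ} {n : Type} [Fintype n] [DecidableEq n] (M : Majorana m n)

/-- an edge with a unit -/
abbrev Edge (m : ℕ) := Fin m × Fin m × ℂ

/-- the factor `1 + u e_a e_b` -/
noncomputable def G (x : Edge m) : Matrix n n ℂ := 1 + x.2.2 • (M.e x.1 * M.e x.2.1)

/-- the pair factor of an edge -/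
noncomputable def pf (x : Edge m) : Matrix n n ℂ := pairFac M x.1 x.2.1 x.2.2

/-- the quarter rotation of an edge -/
noncomputable def bf (x : Edge m) : Matrix n n ℂ := Bfac M x.1 x.2.1 x.2.2

/-- the edge with the unit multiplied by `c` -/
def Edge.scale (c : ℂ) (x : Edge m) : Edge m := (x.1, x.2.1, c * x.2.2)

theorem pf_eq (x : Edge m) : pf M x = (1 / 2 : ℂ) • G M (Edge.scale Complex.I x) := rfl

theorem bf_eq (x : Edge m) : bf M x = ((Real.sqrt 2 : ℝ) : ℂ)⁻¹ • G M x := rfl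

theorem prod_smul_list {ι : Type*} (L : List ι) (c : ℂ) (f : ι → Matrix n n ℂ) :
    (L.map fun x => c • f x).prod = c ^ L.length • (L.map f).prod := by
  induction L with
  | nil => simp
  | cons x L ih =>
    rw [List.map_cons, List.prod_cons, ih, List.map_cons, List.prod_cons, List.length_cons,
      pow_succ, Matrix.smul_mul, Matrix.mul_smul, smul_smul, mul_comm]

theorem prod_pf (L : List (Edge m)) : (L.map (pf M)).prod =
    (1 / 2 : ℂ) ^ L.length • ((L.map (Edge.scale Complex.I)).map (G M)).prod := by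
  rw [List.map_map, ← prod_smul_list]
  rfl

theorem prod_bf_neg (L : List (Edge m)) : (L.map fun x => bf M (Edge.scale (-1) x)).prod =
    (((Real.sqrt 2 : ℝ) : ℂ)⁻¹) ^ L.length • ((L.map (Edge.scale (-1))).map (G M)).prod := by
  rw [List.map_map, ← prod_smul_list]
  rfl

/-- `trace_gt` for a list of edges. -/
theorem trace_gt_list [Nonempty n] (L : List (Edge m)) (hu : ∀ x ∈ L, x.2.2 ^ 4 = 1)
    (hconn : ∀ s : Fin m → ZMod 2, (∀ x ∈ L, s x.1 = s x.2.1) → ∀ x y, s x = s y)
    (hII : ¬ ∃ s : Fin m → ZMod 2, ∀ x ∈ L, (x.2.2 ^ 2 = -1 ↔ s x.1 ≠ s x.2.1)) :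
    -((Fintype.card n : ℝ) * 2 ^ L.length / 2 ^ m) < ((L.map (G M)).prod.trace).re := by
  have h := trace_gt M (fun j : Fin L.length => (L.get j).1) (fun j => (L.get j).2.1)
    (fun j => (L.get j).2.2) (fun j => hu _ (L.get_mem j)) (fun s hs => hconn s fun x hx => by
      obtain ⟨j, rfl⟩ := List.mem_iff_get.mp hx
      exact hs j) (fun ⟨s, hs⟩ => hII ⟨s, fun x hx => by
      obtain ⟨j, rfl⟩ := List.mem_iff_get.mp hx
      exact hs j⟩)
  have h2 : (List.ofFn fun j : Fin L.length => (1 : Matrix n n ℂ) + (L.get j).2.2 •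
      (M.e (L.get j).1 * M.e (L.get j).2.1)) = L.map (G M) := by
    have : (fun j : Fin L.length => (1 : Matrix n n ℂ) + (L.get j).2.2 •
      (M.e (L.get j).1 * M.e (L.get j).2.1)) = G M ∘ L.get := rfl
    rw [this, ← List.map_ofFn, List.ofFn_get]
  rw [h2] at h
  exact h

end Lists

section Chain

variable {n : Type} [Fintype n]

/-- `P i * ... * P 0` -/
def chain (P : ℕ → Matrix n n ℂ) : ℕ → Matrix n n ℂ
  | 0 => P 0
  | i + 1 => P (i + 1) * chain P i

theorem chain_state (P : ℕ → Matrix n n ℂ) (ψ : ℕ → n → ℂ) : ∀ (N : ℕ)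
    (_ : ∀ i ≤ N, P i = vecMulVec (ψ i) (star (ψ i))),
    chain P N = (∏ i ∈ Finset.range N, (star (ψ (i + 1)) ⬝ᵥ ψ i)) •
      vecMulVec (ψ N) (star (ψ 0)) := by
  intro N
  induction N with
  | zero => intro h; simp [chain, h 0 le_rfl]
  | succ N ih =>
    intro h
    rw [chain, ih (fun i hi => h i (by omega)), h (N + 1) le_rfl, Matrix.mul_smul,
      Matrix.vecMulVec_mul_vecMulVec, Finset.prod_range_succ]
    rw [mul_smul]
    congr 1
    ext i j
    simp [Matrix.vecMulVec_apply, Matrix.smul_apply]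
    ring

end Chain

section Final

variable {k : ℕ} {n : Type} [Fintype n] [DecidableEq n] (M : Majorana (2 * k) n)

/-- all the new pairs of the events, last event first -/
def steps (L : ℕ → List (Edge (2 * k))) : ℕ → List (Edge (2 * k))
  | 0 => L 0
  | i + 1 => L (i + 1) ++ steps L i

theorem mem_steps (L : ℕ → List (Edge (2 * k))) (x : Edge (2 * k)) : ∀ i,
    x ∈ steps L i ↔ ∃ j ≤ i, x ∈ L j := by
  intro i
  induction i with
  | zero => simp [steps]
  | succ i ih =>
    rw [steps, List.mem_append, ih]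
    constructor
    · rintro (h | ⟨j, hj, h⟩)
      · exact ⟨i + 1, le_rfl, h⟩
      · exact ⟨j, by omega, h⟩
    · rintro ⟨j, hj, h⟩
      rcases Nat.lt_or_ge i j with h1 | h1
      · have : j = i + 1 := by omega
        subst this
        exact Or.inl h
      · exact Or.inr ⟨j, h1, h⟩

theorem chain_word (L : ℕ → List (Edge (2 * k))) (P : ℕ → Matrix n n ℂ)
    (hP0 : P 0 = ((L 0).map (pf M)).prod) : ∀ (N : ℕ)
    (_ : ∀ i < N, P (i + 1) * P i = ((L (i + 1)).map (pf M)).prod * P i)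
    (_ : ∀ i ≤ N, P i * P i = P i),
    chain P N = ((steps L N).map (pf M)).prod ∧ P N * chain P N = chain P N := by
  intro N
  induction N with
  | zero =>
    intro _ h
    exact ⟨by rw [chain, steps, hP0], by rw [chain, h 0 le_rfl]⟩
  | succ N ih =>
    intro h1 h2
    obtain ⟨h3, h4⟩ := ih (fun i hi => h1 i (by omega)) (fun i hi => h2 i (by omega))
    have h5 : chain P (N + 1) = ((L (N + 1)).map (pf M)).prod * chain P N := by
      rw [chain]
      conv_lhs => rw [← h4, ← Matrix.mul_assoc, h1 N (by omega), Matrix.mul_assoc, h4]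
    refine ⟨?_, ?_⟩
    · rw [h5, h3, steps, List.map_append, List.prod_append]
    · rw [chain, ← Matrix.mul_assoc, h2 (N + 1) le_rfl]

omit [DecidableEq n] in
/-- the trace of the word from the phases. -/
theorem trace_phase (B Bs : Matrix n n ℂ) (hB : Bᴴ = Bs) (N : ℕ) (P : ℕ → Matrix n n ℂ)
    (ψ : ℕ → n → ℂ) (hψ : ∀ i ≤ N, P i = vecMulVec (ψ i) (star (ψ i)))
    (u : ℕ → ℂ) (hu : ∀ i ≤ N, ‖u i‖ = 1) (z : ℕ → ℂ)
    (ht : ∀ i < N, (star (ψ (i + 1)) ⬝ᵥ ψ i) * u (i + 1) = u i * z i) (ζ : ℂ)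
    (hcl : (star (ψ N) ⬝ᵥ (B *ᵥ ψ 0)) * u N = ζ * u 0) :
    (Bs * chain P N).trace = star ζ * ∏ i ∈ Finset.range N, z i := by
  have hu0 : ∀ i ≤ N, u i ≠ 0 := fun i hi h => by
    have := hu i hi
    rw [h, norm_zero] at this
    exact zero_ne_one this
  have hus : ∀ i ≤ N, star (u i) * u i = 1 := fun i hi => by
    have := Complex.conj_mul' (u i)
    rw [hu i hi] at this
    simpa using this
  have h1 : ∀ j ≤ N, (∏ i ∈ Finset.range j, (star (ψ (i + 1)) ⬝ᵥ ψ i)) * u j =
      u 0 * ∏ i ∈ Finset.range j, z i := by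
    intro j
    induction j with
    | zero => intro _; simp
    | succ j ih =>
      intro hj
      rw [Finset.prod_range_succ, Finset.prod_range_succ]
      have h2 := ih (by omega)
      have h3 := ht j (by omega)
      calc (∏ i ∈ Finset.range j, (star (ψ (i + 1)) ⬝ᵥ ψ i)) * (star (ψ (j + 1)) ⬝ᵥ ψ j) *
            u (j + 1) = (∏ i ∈ Finset.range j, (star (ψ (i + 1)) ⬝ᵥ ψ i)) *
            ((star (ψ (j + 1)) ⬝ᵥ ψ j) * u (j + 1)) := by ring
        _ = ((∏ i ∈ Finset.range j, (star (ψ (i + 1)) ⬝ᵥ ψ i)) * u j) * z j := by rw [h3]; ring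
        _ = _ := by rw [h2]; ring
  rw [chain_state P ψ N hψ, Matrix.mul_smul, Matrix.trace_smul, Matrix.mul_vecMulVec,
    Matrix.trace_vecMulVec, smul_eq_mul]
  have h4 : (Bs *ᵥ ψ N) ⬝ᵥ star (ψ 0) = star (star (ψ N) ⬝ᵥ (B *ᵥ ψ 0)) := by
    rw [← hB, Matrix.star_dotProduct, star_star, Matrix.star_mulVec, ← Matrix.dotProduct_mulVec,
      dotProduct_comm]
  rw [h4]
  have h5 : star (star (ψ N) ⬝ᵥ (B *ᵥ ψ 0)) * star (u N) = star ζ * star (u 0) := by
    rw [← star_mul', hcl, star_mul']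
  have h6 := h1 N le_rfl
  have h7 := hus N le_rfl
  have h8 := hus 0 (Nat.zero_le N)
  generalize star (star (ψ N) ⬝ᵥ (B *ᵥ ψ 0)) = X at h5 ⊢
  generalize ∏ i ∈ Finset.range N, (star (ψ (i + 1)) ⬝ᵥ ψ i) = Y at h6 ⊢
  generalize ∏ i ∈ Finset.range N, z i = Z at h6 ⊢
  calc Y * X = (Y * u N) * (X * star (u N)) := by linear_combination (-(Y * X)) * h7
    _ = (u 0 * Z) * (star ζ * star (u 0)) := by rw [h6, h5]
    _ = star ζ * Z := by linear_combination (Z * star ζ) * h8

/-- **The abstract end.** -/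
theorem assembly (hH : ∀ a, (M.e a)ᴴ = M.e a) (hn : Fintype.card n = 2 ^ k)
    (S : List (Edge (2 * k))) (hS : ∀ x ∈ S, x.1 ≠ x.2.1 ∧ (x.2.2 = 1 ∨ x.2.2 = -1))
    (N : ℕ) (L : ℕ → List (Edge (2 * k)))
    (hL : ∀ i ≤ N, ∀ x ∈ L i, x.1 ≠ x.2.1 ∧ (x.2.2 = 1 ∨ x.2.2 = -1))
    (hL0 : (L 0).length = k) (nc : ℕ → ℕ) (hnc : ∀ i < N, (L (i + 1)).length = 2 * nc i)
    (P : ℕ → Matrix n n ℂ) (hP0 : P 0 = ((L 0).map (pf M)).prod)
    (hP : ∀ i < N, P (i + 1) * P i = ((L (i + 1)).map (pf M)).prod * P i)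
    (ψ : ℕ → n → ℂ) (hψ1 : ∀ i ≤ N, star (ψ i) ⬝ᵥ ψ i = 1)
    (hψ : ∀ i ≤ N, P i = vecMulVec (ψ i) (star (ψ i)))
    (u : ℕ → ℂ) (hu : ∀ i ≤ N, ‖u i‖ = 1) (s : ℕ → ℤ)
    (ht : ∀ i < N, (star (ψ (i + 1)) ⬝ᵥ ψ i) * u (i + 1) =
      u i * (Complex.exp (Complex.I * Real.pi * s i / 8) * (((Real.sqrt 2 : ℝ) : ℂ)⁻¹) ^ nc i))
    (hcl : (star (ψ N) ⬝ᵥ ((S.reverse.map (bf M)).prod *ᵥ ψ 0)) * u N =
      Complex.exp (Complex.I * Real.pi * k ^ 2 / 4) * u 0)
    (hcount : S.length + ∑ i ∈ Finset.range N, nc i = 2 * k)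
    (χ : ℤ) (hsum : ∑ i ∈ Finset.range N, s i = 2 * χ) (hχ : χ ≡ k ^ 2 + 4 [ZMOD 8])
    (hconn : ∀ c : Fin (2 * k) → ZMod 2, (∀ x ∈ S, c x.1 = c x.2.1) →
      (∀ i ≤ N, ∀ x ∈ L i, c x.1 = c x.2.1) → ∀ x y, c x = c y)
    (hII : ¬ ∃ c : Fin (2 * k) → ZMod 2, (∀ x ∈ S, c x.1 = c x.2.1) ∧
      ∀ i ≤ N, ∀ x ∈ L i, c x.1 ≠ c x.2.1) : False := by
  have hne : Nonempty n := by
    rw [← Fintype.card_pos_iff, hn]; positivity
  set Bs := (S.map fun x => bf M (Edge.scale (-1) x)).prod with hBs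
  have hB : ((S.reverse.map (bf M)).prod)ᴴ = Bs := by
    rw [hBs]
    clear hcl hcount hconn hII hBs Bs
    induction S with
    | nil => simp
    | cons x S ih =>
      have h1 := hS x List.mem_cons_self
      have hstar : star x.2.2 = x.2.2 := by
        rcases h1.2 with h | h <;> rw [h] <;> simp
      rw [List.reverse_cons, List.map_append, List.prod_append, Matrix.conjTranspose_mul,
        ih (fun y hy => hS y (List.mem_cons_of_mem _ hy)), List.map_cons, List.prod_cons]
      congr 1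
      simp only [List.map_nil, List.prod_nil, mul_one]
      rw [bf, Bfac_herm M h1.1 hH hstar]
      simp [bf, Edge.scale]
  have htr := trace_phase ((S.reverse.map (bf M)).prod) Bs hB N P ψ hψ u hu _ ht _ hcl
  have hidem : ∀ i ≤ N, P i * P i = P i := by
    intro i hi
    rw [hψ i hi, Matrix.vecMulVec_mul_vecMulVec, hψ1 i hi, one_smul]
  obtain ⟨hword, -⟩ := chain_word M L P hP0 N hP hidem
  -- the value of the trace
  set nn := ∑ i ∈ Finset.range N, nc i with hnn
  set q : ℂ := ((Real.sqrt 2 : ℝ) : ℂ)⁻¹ with hq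
  have hqq : q * q = 1 / 2 := sqrt2_sq
  have hval : (Bs * chain P N).trace = -(q ^ nn) := by
    rw [htr, Finset.prod_mul_distrib, Finset.prod_pow_eq_pow_sum, ← Complex.exp_sum]
    have h1 : ∑ i ∈ Finset.range N, Complex.I * Real.pi * (s i : ℂ) / 8 =
        Complex.I * Real.pi * (2 * χ) / 8 := by
      rw [← Finset.sum_div, ← Finset.mul_sum]
      have : (∑ i ∈ Finset.range N, (s i : ℂ)) = 2 * χ := by exact_mod_cast hsum
      rw [this]
    have h2 : star (Complex.exp (Complex.I * Real.pi * k ^ 2 / 4)) =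
        Complex.exp (-(Complex.I * Real.pi * k ^ 2 / 4)) := by
      have : star (Complex.exp (Complex.I * Real.pi * k ^ 2 / 4)) =
        (starRingEnd ℂ) (Complex.exp (Complex.I * Real.pi * k ^ 2 / 4)) := rfl
      rw [this, ← Complex.exp_conj]
      congr 1
      simp only [map_div₀, map_mul, map_pow, Complex.conj_I, Complex.conj_ofReal,
        Complex.conj_natCast, Complex.conj_ofNat]
      ring
    rw [h1, h2, ← mul_assoc, ← Complex.exp_add]
    obtain ⟨t, ht'⟩ := hχ.symm.dvd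
    have h3 : (χ : ℂ) = k ^ 2 + 4 + 8 * t := by
      have : χ = k ^ 2 + 4 + 8 * t := by linarith
      rw [this]; push_cast; ring
    have h4 : -(Complex.I * Real.pi * (k : ℂ) ^ 2 / 4) + Complex.I * Real.pi * (2 * (χ : ℂ)) / 8 =
        Real.pi * Complex.I + t * (2 * Real.pi * Complex.I) := by
      rw [h3]; ring
    rw [h4, Complex.exp_add, Complex.exp_pi_mul_I, Complex.exp_int_mul_two_pi_mul_I]
    ring
  -- the word
  have hw : Bs * chain P N = (q ^ S.length * (1 / 2) ^ (steps L N).length) •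
      ((S.map (Edge.scale (-1)) ++ (steps L N).map (Edge.scale Complex.I)).map (G M)).prod := by
    rw [hBs, prod_bf_neg, hword, prod_pf, Matrix.smul_mul, Matrix.mul_smul, smul_smul,
      List.map_append, List.prod_append]
  have hlen : (steps L N).length = k + 2 * nn := by
    have : ∀ i ≤ N, (steps L i).length = k + 2 * ∑ j ∈ Finset.range i, nc j := by
      intro i
      induction i with
      | zero => intro _; simp [steps, hL0]
      | succ i ih =>
        intro hi
        rw [steps, List.length_append, ih (by omega), hnc i (by omega), Finset.sum_range_succ]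
        ring
    exact this N le_rfl
  have hgt := trace_gt_list M (S.map (Edge.scale (-1)) ++ (steps L N).map (Edge.scale Complex.I))
    (by
      intro x hx
      rw [List.mem_append, List.mem_map, List.mem_map] at hx
      rcases hx with ⟨y, hy, rfl⟩ | ⟨y, hy, rfl⟩
      · change (-1 * y.2.2) ^ 4 = 1
        rcases (hS y hy).2 with h | h <;> rw [h] <;> norm_num
      · obtain ⟨j, hj, hy'⟩ := (mem_steps L y N).mp hy
        change (Complex.I * y.2.2) ^ 4 = 1
        rw [mul_pow, Complex.I_pow_four]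
        rcases (hL j hj y hy').2 with h | h <;> rw [h] <;> norm_num)
    (by
      intro c hc
      refine hconn c (fun x hx => ?_) (fun i hi x hx => ?_)
      · exact hc (Edge.scale (-1) x) (List.mem_append_left _ (List.mem_map_of_mem hx))
      · exact hc (Edge.scale Complex.I x) (List.mem_append_right _ (List.mem_map_of_mem
          ((mem_steps L x N).mpr ⟨i, hi, hx⟩))))
    (by
      rintro ⟨c, hc⟩
      refine hII ⟨c, fun x hx => ?_, fun i hi x hx => ?_⟩
      · have h1 := hc (Edge.scale (-1) x) (List.mem_append_left _ (List.mem_map_of_mem hx))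
        have h2 : ¬ ((-1 * x.2.2 : ℂ) ^ 2 = -1) := by
          rcases (hS x hx).2 with h | h <;> rw [h] <;> norm_num
        by_contra hcon
        exact h2 (h1.mpr hcon)
      · have h1 := hc (Edge.scale Complex.I x) (List.mem_append_right _ (List.mem_map_of_mem
          ((mem_steps L x N).mpr ⟨i, hi, hx⟩)))
        refine h1.mp ?_
        change (Complex.I * x.2.2) ^ 2 = -1
        rcases (hL i hi x hx).2 with h | h <;> rw [h] <;> simp)
  have h1 : (Bs * chain P N).trace = (q ^ S.length * (1 / 2) ^ (steps L N).length) *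
      ((S.map (Edge.scale (-1)) ++ (steps L N).map (Edge.scale Complex.I)).map (G M)).prod.trace := by
    rw [hw, Matrix.trace_smul, smul_eq_mul]
  rw [hval, hlen] at h1
  set X := ((S.map (Edge.scale (-1)) ++ (steps L N).map (Edge.scale Complex.I)).map (G M)).prod.trace
    with hX
  rw [List.length_append, List.length_map, List.length_map, hlen, hn] at hgt
  -- `X = -2 ^ (S.length + 2 nn)`
  have hXv : X = -((2 : ℂ) ^ (S.length + 2 * nn)) := by
    have hq0 : q ≠ 0 := by
      intro h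
      rw [h, zero_mul] at hqq
      norm_num at hqq
    have hc0 : q ^ S.length * (1 / 2 : ℂ) ^ (k + 2 * nn) ≠ 0 :=
      mul_ne_zero (pow_ne_zero _ hq0) (pow_ne_zero _ (by norm_num))
    apply mul_left_cancel₀ hc0
    rw [← h1, mul_neg]
    congr 1
    have h5 : (1 / 2 : ℂ) ^ k = q ^ (S.length + nn) := by
      rw [hcount, pow_mul, pow_two, hqq]
    have h6 : (1 / 2 : ℂ) ^ (2 * nn) * 2 ^ (2 * nn) = 1 := by
      rw [← mul_pow]; norm_num
    have h7 : q ^ S.length * q ^ S.length * 2 ^ S.length = 1 := by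
      rw [← mul_pow, ← mul_pow, hqq]; norm_num
    rw [pow_add, h5, pow_add, pow_add]
    linear_combination (-(q ^ nn) * ((1 / 2 : ℂ) ^ (2 * nn) * 2 ^ (2 * nn))) * h7 - (q ^ nn) * h6
  rw [hXv] at hgt
  have h2 : (-((2 : ℂ) ^ (S.length + 2 * nn))).re = -((2 : ℝ) ^ (S.length + 2 * nn)) := by
    rw [Complex.neg_re, ← Complex.ofReal_ofNat, ← Complex.ofReal_pow, Complex.ofReal_re]
  rw [h2] at hgt
  have h3 : ((2 ^ k : ℕ) : ℝ) * 2 ^ (S.length + (k + 2 * nn)) / 2 ^ (2 * k) =
      2 ^ (S.length + 2 * nn) := by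
    rw [div_eq_iff (by positivity)]
    push_cast
    rw [← pow_add, ← pow_add]
    congr 1
    ring
  rw [h3] at hgt
  exact lt_irrefl _ hgt

end Final

end Pool.Agent.Rohlin
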