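import Pool.Agent.Rohlin.Assembly

/-!
# The abstract end of the proof, for the disc model

Going once around the unit circle one meets finitely many steps: slits (crossing a slit multiplies
by a quarter rotation) and events (real branch points, where the matching of the sheets may
change).
-/

namespace Pool.Agent.Rohlin

open Matrix
open scoped ComplexOrder

variable {k : ℕ} {n : Type} [Fintype n] [DecidableEq n] (M : Majorana (2 * k) n)

/-- the product of the quarter rotations of the slits crossed in one step -/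
noncomputable def XS (S : List (Edge (2 * k))) : Matrix n n ℂ := (S.map (bf M)).prod

/-- `P i * X (i-1) * P (i-1) * ... * X 0 * P 0` -/
noncomputable def chainD (S : ℕ → List (Edge (2 * k))) (P : ℕ → Matrix n n ℂ) : ℕ → Matrix n n ℂ
  | 0 => P 0
  | i + 1 => P (i + 1) * (XS M (S i) * chainD S P i)

theorem chainD_state (S : ℕ → List (Edge (2 * k))) (P : ℕ → Matrix n n ℂ) (ψ : ℕ → n → ℂ) :
    ∀ (N : ℕ) (_ : ∀ i ≤ N, P i = vecMulVec (ψ i) (star (ψ i))),
    chainD M S P N = (∏ i ∈ Finset.range N, (star (ψ (i + 1)) ⬝ᵥ (XS M (S i) *ᵥ ψ i))) •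
      vecMulVec (ψ N) (star (ψ 0)) := by
  intro N
  induction N with
  | zero => intro h; simp [chainD, h 0 le_rfl]
  | succ N ih =>
    intro h
    rw [chainD, ih (fun i hi => h i (by omega)), h (N + 1) le_rfl, Matrix.mul_smul,
      Matrix.mul_smul, Matrix.mul_vecMulVec, Matrix.vecMulVec_mul_vecMulVec,
      Finset.prod_range_succ, mul_smul]
    congr 1
    ext i j
    simp [Matrix.vecMulVec_apply, Matrix.smul_apply]
    ring

/-- the edges of the steps, last step first -/
def stepsD (S L : ℕ → List (Edge (2 * k))) : ℕ → List (Edge (2 * k) × Bool)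
  | 0 => (L 0).map fun x => (x, true)
  | i + 1 => ((L (i + 1)).map fun x => (x, true)) ++ (((S i).map fun x => (x, false)) ++
      stepsD S L i)

theorem mem_stepsD (S L : ℕ → List (Edge (2 * k))) (x : Edge (2 * k)) : ∀ i,
    ((x, true) ∈ stepsD S L i ↔ ∃ j ≤ i, x ∈ L j) ∧
      ((x, false) ∈ stepsD S L i ↔ ∃ j < i, x ∈ S j) := by
  intro i
  induction i with
  | zero => simp [stepsD]
  | succ i ih =>
    simp only [stepsD, List.mem_append, ih.1, ih.2, List.mem_map, Prod.mk.injEq, and_true,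
      exists_eq_right, reduceCtorEq, and_false, exists_false, false_or]
    constructor
    · constructor
      · rintro (h | ⟨j, hj, h⟩)
        · exact ⟨i + 1, le_rfl, h⟩
        · exact ⟨j, by omega, h⟩
      · rintro ⟨j, hj, h⟩
        rcases Nat.lt_or_ge i j with h1 | h1
        · have : j = i + 1 := by omega
          subst this
          exact Or.inl h
        · exact Or.inr ⟨j, h1, h⟩
    · constructor
      · rintro (h | ⟨j, hj, h⟩)
        · exact ⟨i, Nat.lt_succ_self i, h⟩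
        · exact ⟨j, by omega, h⟩
      · rintro ⟨j, hj, h⟩
        rcases Nat.lt_or_ge j i with h1 | h1
        · exact Or.inr ⟨j, h1, h⟩
        · have : j = i := by omega
          subst this
          exact Or.inl h

/-- the factor of a step edge: pair factors and quarter rotations -/
noncomputable def fac (x : Edge (2 * k) × Bool) : Matrix n n ℂ :=
  if x.2 then pf M x.1 else bf M x.1

theorem chainD_word (S L : ℕ → List (Edge (2 * k))) (P : ℕ → Matrix n n ℂ)
    (hP0 : P 0 = ((L 0).map (pf M)).prod) : ∀ (N : ℕ)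
    (_ : ∀ i < N, P (i + 1) * (XS M (S i) * P i) =
      ((L (i + 1)).map (pf M)).prod * (XS M (S i) * P i))
    (_ : ∀ i ≤ N, P i * P i = P i),
    chainD M S P N = ((stepsD S L N).map (fac M)).prod ∧
      P N * chainD M S P N = chainD M S P N := by
  intro N
  induction N with
  | zero =>
    intro _ h
    refine ⟨?_, by rw [chainD, h 0 le_rfl]⟩
    rw [chainD, stepsD, hP0, List.map_map]
    rfl
  | succ N ih =>
    intro h1 h2
    obtain ⟨h3, h4⟩ := ih (fun i hi => h1 i (by omega)) (fun i hi => h2 i (by omega))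
    have h5 : chainD M S P (N + 1) =
        ((L (N + 1)).map (pf M)).prod * (XS M (S N) * chainD M S P N) := by
      have h6 := h1 N (Nat.lt_succ_self N)
      have h7 : P (N + 1) * (XS M (S N) * P N) * chainD M S P N =
          ((L (N + 1)).map (pf M)).prod * (XS M (S N) * P N) * chainD M S P N := by rw [h6]
      simp only [Matrix.mul_assoc, h4] at h7
      rw [chainD]
      exact h7
    refine ⟨?_, ?_⟩
    · rw [h5, h3, stepsD, List.map_append, List.prod_append, List.map_append, List.prod_append,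
        List.map_map, List.map_map]
      rfl
    · rw [chainD, ← Matrix.mul_assoc, h2 (N + 1) le_rfl]

/-- the trace of the word from the phases -/
theorem trace_phaseD (S : ℕ → List (Edge (2 * k))) (N : ℕ) (P : ℕ → Matrix n n ℂ)
    (ψ : ℕ → n → ℂ) (hψ : ∀ i ≤ N, P i = vecMulVec (ψ i) (star (ψ i)))
    (hψ0 : star (ψ 0) ⬝ᵥ ψ 0 = 1) (hψN : ψ N = ψ 0)
    (u : ℕ → ℂ) (hu0 : ‖u 0‖ = 1) (z : ℕ → ℂ)
    (ht : ∀ i < N, (star (ψ (i + 1)) ⬝ᵥ (XS M (S i) *ᵥ ψ i)) * u (i + 1) = u i * z i) (ζ : ℂ)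
    (hcl : u N = ζ * u 0) :
    ζ * (chainD M S P N).trace = ∏ i ∈ Finset.range N, z i := by
  have h1 : ∀ j ≤ N, (∏ i ∈ Finset.range j, (star (ψ (i + 1)) ⬝ᵥ (XS M (S i) *ᵥ ψ i))) * u j =
      u 0 * ∏ i ∈ Finset.range j, z i := by
    intro j
    induction j with
    | zero => intro _; simp
    | succ j ih =>
      intro hj
      rw [Finset.prod_range_succ, Finset.prod_range_succ]
      have h2 := ih (by omega)
      have h3 := ht j (by omega)
      rw [mul_assoc, h3, ← mul_assoc, h2]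
      ring
  have hu : u 0 ≠ 0 := by
    intro h
    rw [h, norm_zero] at hu0
    exact zero_ne_one hu0
  rw [chainD_state M S P ψ N hψ, Matrix.trace_smul, Matrix.trace_vecMulVec, hψN, dotProduct_comm,
    hψ0, smul_eq_mul, mul_one]
  have h2 := h1 N le_rfl
  rw [hcl] at h2
  apply mul_left_cancel₀ hu
  rw [← h2]
  ring

/-- the edge of a step, with the unit of the expansion -/
def edgeD (x : Edge (2 * k) × Bool) : Edge (2 * k) :=
  if x.2 then Edge.scale Complex.I x.1 else x.1

/-- the coefficient of a factor -/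
noncomputable def coefD (x : Edge (2 * k) × Bool) : ℂ :=
  if x.2 then 1 / 2 else ((Real.sqrt 2 : ℝ) : ℂ)⁻¹

theorem fac_eq (x : Edge (2 * k) × Bool) : fac M x = coefD x • G M (edgeD x) := by
  obtain ⟨x, b⟩ := x
  cases b
  · exact bf_eq M x
  · exact pf_eq M x

theorem prod_fac (W : List (Edge (2 * k) × Bool)) :
    (W.map (fac M)).prod = (W.map coefD).prod • ((W.map edgeD).map (G M)).prod := by
  induction W with
  | nil => simp
  | cons x W ih =>
    rw [List.map_cons, List.prod_cons, ih, fac_eq, List.map_cons, List.prod_cons, List.map_cons,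
      List.map_cons, List.prod_cons, Matrix.smul_mul, Matrix.mul_smul, smul_smul]

theorem coef_stepsD (S L : ℕ → List (Edge (2 * k))) (hL0 : (L 0).length = k) (nc : ℕ → ℕ) :
    ∀ (N : ℕ) (_ : ∀ i < N, (L (i + 1)).length = 2 * nc i),
    ((stepsD S L N).map coefD).prod = (1 / 2) ^ (k + 2 * ∑ i ∈ Finset.range N, nc i) *
      (((Real.sqrt 2 : ℝ) : ℂ)⁻¹) ^ (∑ i ∈ Finset.range N, (S i).length) ∧
    (stepsD S L N).length = k + 2 * ∑ i ∈ Finset.range N, nc i +
      ∑ i ∈ Finset.range N, (S i).length := by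
  have h1 : ∀ l : List (Edge (2 * k)), ((l.map fun x => (x, true)).map coefD).prod =
      (1 / 2) ^ l.length := by
    intro l
    induction l with
    | nil => simp
    | cons x l ih =>
      rw [List.map_cons, List.map_cons, List.prod_cons, ih, List.length_cons, pow_succ]
      simp [coefD, mul_comm]
  have h2 : ∀ l : List (Edge (2 * k)), ((l.map fun x => (x, false)).map coefD).prod =
      (((Real.sqrt 2 : ℝ) : ℂ)⁻¹) ^ l.length := by
    intro l
    induction l with
    | nil => simp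
    | cons x l ih =>
      rw [List.map_cons, List.map_cons, List.prod_cons, ih, List.length_cons, pow_succ]
      simp [coefD, mul_comm]
  intro N
  induction N with
  | zero =>
    intro _
    rw [stepsD, h1, List.length_map, hL0]
    simp
  | succ N ih =>
    intro h
    obtain ⟨h3, h4⟩ := ih (fun i hi => h i (by omega))
    constructor
    · rw [stepsD, List.map_append, List.map_append, List.prod_append, List.prod_append, h1, h2, h3,
        h N (Nat.lt_succ_self N), Finset.sum_range_succ, Finset.sum_range_succ]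
      ring
    · rw [stepsD, List.length_append, List.length_append, List.length_map, List.length_map, h4,
        h N (Nat.lt_succ_self N), Finset.sum_range_succ, Finset.sum_range_succ]
      ring

/-- **The abstract end, disc model.** -/
theorem assemblyD (hn : Fintype.card n = 2 ^ k) (N : ℕ)
    (S : ℕ → List (Edge (2 * k)))
    (hS : ∀ i < N, ∀ x ∈ S i, x.2.2 = 1 ∨ x.2.2 = -1)
    (L : ℕ → List (Edge (2 * k)))
    (hL : ∀ i ≤ N, ∀ x ∈ L i, x.2.2 = 1 ∨ x.2.2 = -1)
    (hL0 : (L 0).length = k) (nc : ℕ → ℕ) (hnc : ∀ i < N, (L (i + 1)).length = 2 * nc i)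
    (P : ℕ → Matrix n n ℂ) (hP0 : P 0 = ((L 0).map (pf M)).prod)
    (hP : ∀ i < N, P (i + 1) * (XS M (S i) * P i) =
      ((L (i + 1)).map (pf M)).prod * (XS M (S i) * P i))
    (ψ : ℕ → n → ℂ) (hψ1 : ∀ i ≤ N, star (ψ i) ⬝ᵥ ψ i = 1)
    (hψ : ∀ i ≤ N, P i = vecMulVec (ψ i) (star (ψ i))) (hψN : ψ N = ψ 0)
    (u : ℕ → ℂ) (hu : ‖u 0‖ = 1) (s : ℕ → ℤ)
    (ht : ∀ i < N, (star (ψ (i + 1)) ⬝ᵥ (XS M (S i) *ᵥ ψ i)) * u (i + 1) =
      u i * (Complex.exp (Complex.I * Real.pi * s i / 8) * (((Real.sqrt 2 : ℝ) : ℂ)⁻¹) ^ nc i))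
    (hcl : u N = Complex.exp (Complex.I * Real.pi * k ^ 2 / 4) * u 0)
    (hcount : ∑ i ∈ Finset.range N, (S i).length + ∑ i ∈ Finset.range N, nc i ≤ 2 * k)
    (χ : ℤ) (hsum : ∑ i ∈ Finset.range N, s i = 2 * χ) (hχ : χ ≡ k ^ 2 + 4 [ZMOD 8])
    (hconn : ∀ c : Fin (2 * k) → ZMod 2, (∀ i < N, ∀ x ∈ S i, c x.1 = c x.2.1) →
      (∀ i ≤ N, ∀ x ∈ L i, c x.1 = c x.2.1) → ∀ x y, c x = c y)
    (hII : ¬ ∃ c : Fin (2 * k) → ZMod 2, (∀ i < N, ∀ x ∈ S i, c x.1 = c x.2.1) ∧
      ∀ i ≤ N, ∀ x ∈ L i, c x.1 ≠ c x.2.1) : False := by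
  have hne : Nonempty n := by
    rw [← Fintype.card_pos_iff, hn]; positivity
  have hidem : ∀ i ≤ N, P i * P i = P i := by
    intro i hi
    rw [hψ i hi, Matrix.vecMulVec_mul_vecMulVec, hψ1 i hi, one_smul]
  obtain ⟨hword, -⟩ := chainD_word M S L P hP0 N hP hidem
  have htr := trace_phaseD M S N P ψ hψ (hψ1 0 (Nat.zero_le N)) hψN u hu _ ht _ hcl
  obtain ⟨hco, hlen⟩ := coef_stepsD S L hL0 nc N hnc
  set nn := ∑ i ∈ Finset.range N, nc i with hnn
  set NS := ∑ i ∈ Finset.range N, (S i).length with hNS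
  set r : ℝ := Real.sqrt 2 with hr
  have hr0 : 0 < r := Real.sqrt_pos.mpr (by norm_num)
  have hr1 : 1 ≤ r := by
    rw [hr, Real.one_le_sqrt]; norm_num
  have hrr : r * r = 2 := Real.mul_self_sqrt (by norm_num)
  -- the value of the trace
  have hval : (chainD M S P N).trace = -(((r : ℝ) : ℂ)⁻¹ ^ nn) := by
    rw [Finset.prod_mul_distrib, Finset.prod_pow_eq_pow_sum, ← Complex.exp_sum] at htr
    have h1 : ∑ i ∈ Finset.range N, Complex.I * Real.pi * (s i : ℂ) / 8 =
        Complex.I * Real.pi * (2 * χ) / 8 := by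
      rw [← Finset.sum_div, ← Finset.mul_sum]
      have : (∑ i ∈ Finset.range N, (s i : ℂ)) = 2 * χ := by exact_mod_cast hsum
      rw [this]
    rw [h1] at htr
    obtain ⟨t, ht'⟩ := hχ.symm.dvd
    have h3 : (χ : ℂ) = k ^ 2 + 4 + 8 * t := by
      have : χ = k ^ 2 + 4 + 8 * t := by linarith
      rw [this]; push_cast; ring
    have h4 : Complex.I * Real.pi * (2 * (χ : ℂ)) / 8 = Complex.I * Real.pi * (k : ℂ) ^ 2 / 4 +
        (Real.pi * Complex.I + t * (2 * Real.pi * Complex.I)) := by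
      rw [h3]; ring
    rw [h4, Complex.exp_add, Complex.exp_add, Complex.exp_pi_mul_I,
      Complex.exp_int_mul_two_pi_mul_I, mul_assoc (Complex.exp _)] at htr
    have h5 := mul_left_cancel₀ (Complex.exp_ne_zero _) htr
    rw [h5]; ring
  -- the word
  have hw : (chainD M S P N).trace = ((1 / 2) ^ (k + 2 * nn) * (((r : ℝ) : ℂ)⁻¹) ^ NS) *
      (((stepsD S L N).map edgeD).map (G M)).prod.trace := by
    rw [hword, prod_fac, hco, Matrix.trace_smul, smul_eq_mul]
  have hgt := trace_gt_list M ((stepsD S L N).map edgeD)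
    (by
      intro x hx
      rw [List.mem_map] at hx
      obtain ⟨⟨y, b⟩, hy, rfl⟩ := hx
      cases b
      · obtain ⟨j, hj, hy'⟩ := ((mem_stepsD S L y N).2).mp hy
        change y.2.2 ^ 4 = 1
        rcases hS j hj y hy' with h | h <;> rw [h] <;> norm_num
      · obtain ⟨j, hj, hy'⟩ := ((mem_stepsD S L y N).1).mp hy
        change (Complex.I * y.2.2) ^ 4 = 1
        rw [mul_pow, Complex.I_pow_four]
        rcases hL j hj y hy' with h | h <;> rw [h] <;> norm_num)
    (by
      intro c hc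
      refine hconn c (fun i hi x hx => ?_) (fun i hi x hx => ?_)
      · exact hc (edgeD (x, false)) (List.mem_map_of_mem
          (((mem_stepsD S L x N).2).mpr ⟨i, hi, hx⟩))
      · exact hc (edgeD (x, true)) (List.mem_map_of_mem
          (((mem_stepsD S L x N).1).mpr ⟨i, hi, hx⟩)))
    (by
      rintro ⟨c, hc⟩
      refine hII ⟨c, fun i hi x hx => ?_, fun i hi x hx => ?_⟩
      · have h1 := hc (edgeD (x, false)) (List.mem_map_of_mem
          (((mem_stepsD S L x N).2).mpr ⟨i, hi, hx⟩))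
        have h2 : ¬ ((edgeD (x, false)).2.2 ^ 2 = -1) := by
          change ¬ ((x.2.2 : ℂ) ^ 2 = -1)
          rcases hS i hi x hx with h | h <;> rw [h] <;> norm_num
        by_contra hcon
        exact h2 (h1.mpr hcon)
      · have h1 := hc (edgeD (x, true)) (List.mem_map_of_mem
          (((mem_stepsD S L x N).1).mpr ⟨i, hi, hx⟩))
        refine h1.mp ?_
        change (Complex.I * x.2.2) ^ 2 = -1
        rcases hL i hi x hx with h | h <;> rw [h] <;> simp)
  rw [hval] at hw
  set X := (((stepsD S L N).map edgeD).map (G M)).prod.trace with hX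
  rw [List.length_map, hlen, hn] at hgt
  -- the value of `X`
  have hrC : ((r : ℝ) : ℂ) ≠ 0 := by exact_mod_cast hr0.ne'
  have hXv : X = ((-(r ^ NS * 2 ^ (k + 2 * nn) / r ^ nn) : ℝ) : ℂ) := by
    have hc0 : ((1 / 2 : ℂ)) ^ (k + 2 * nn) * (((r : ℝ) : ℂ)⁻¹) ^ NS ≠ 0 :=
      mul_ne_zero (pow_ne_zero _ (by norm_num)) (pow_ne_zero _ (inv_ne_zero hrC))
    apply mul_left_cancel₀ hc0
    rw [← hw]
    push_cast
    have h6 : (1 / 2 : ℂ) ^ (k + 2 * nn) * 2 ^ (k + 2 * nn) = 1 := by
      rw [← mul_pow]; norm_num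
    have h7 : (((r : ℝ) : ℂ)⁻¹) ^ NS * ((r : ℝ) : ℂ) ^ NS = 1 := by
      rw [← mul_pow, inv_mul_cancel₀ hrC, one_pow]
    have h8 : (((r : ℝ) : ℂ)⁻¹) ^ nn = 1 / ((r : ℝ) : ℂ) ^ nn := by
      rw [inv_pow, one_div]
    rw [h8]
    calc -(1 / ((r : ℝ) : ℂ) ^ nn) = -(((1 / 2 : ℂ) ^ (k + 2 * nn) * 2 ^ (k + 2 * nn)) *
          ((((r : ℝ) : ℂ)⁻¹) ^ NS * ((r : ℝ) : ℂ) ^ NS) / ((r : ℝ) : ℂ) ^ nn) := by
          rw [h6, h7]; ring
      _ = _ := by ring
  rw [hXv, Complex.ofReal_re, neg_lt_neg_iff] at hgt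
  have h3 : ((2 ^ k : ℕ) : ℝ) * 2 ^ (k + 2 * nn + NS) / 2 ^ (2 * k) = 2 ^ (2 * nn) * 2 ^ NS := by
    rw [div_eq_iff (by positivity)]
    push_cast
    rw [← pow_add, ← pow_add, ← pow_add]
    congr 1
    ring
  rw [h3, div_lt_iff₀ (by positivity)] at hgt
  have h4 : (2 : ℝ) ^ NS = r ^ NS * r ^ NS := by rw [← mul_pow, hrr]
  have h5 : (2 : ℝ) ^ k = r ^ (2 * k) := by rw [pow_mul, pow_two, hrr]
  rw [h4, pow_add, h5] at hgt
  have h6 : r ^ (NS + nn) ≤ r ^ (2 * k) := pow_le_pow_right₀ hr1 hcount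
  have h7 : r ^ NS * (2 : ℝ) ^ (2 * nn) * r ^ (NS + nn) ≤ r ^ NS * (2 : ℝ) ^ (2 * nn) * r ^ (2 * k) :=
    mul_le_mul_of_nonneg_left h6 (by positivity)
  rw [pow_add] at h7
  linarith [h7, hgt]

end Pool.Agent.Rohlin
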