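import Mathlib

/-!
# Positivity of forms on cones, certificates for the kernel

A form of degree `d ≤ 8` in `x, y, z` is given as `ev rows x y z - c (x + y + z)^d` with natural coefficients.
On the cone generated by three natural vectors `v₀, v₁, v₂` it is evaluated once at the packed vector
`v₀ + B v₁ + B^9 v₂`, `B = 2^K`; the digits are the coefficients in the variables of the cone.
-/

namespace Pool.Agent.Rohlin.Cone

open MvPolynomial Finset

section gen
variable {R S : Type*} [CommSemiring R] [CommSemiring S]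

/-- Horner scheme in `y`, `zp` is the running power of `z` -/
def row (y z : R) : List ℕ → R → R → R
  | [], acc, _ => acc
  | c :: l, acc, zp => row y z l (acc * y + (c : R) * zp) (zp * z)

/-- Horner scheme in `x` -/
def ev (x y z : R) : List (List ℕ) → R → R
  | [], acc => acc
  | r :: L, acc => ev x y z L (acc * x + row y z r 0 1)

theorem map_row (φ : R →+* S) (y z : R) : ∀ (l : List ℕ) (acc zp : R),
    φ (row y z l acc zp) = row (φ y) (φ z) l (φ acc) (φ zp)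
  | [], acc, zp => rfl
  | c :: l, acc, zp => by
    simp only [row]
    rw [map_row φ y z l]
    simp only [map_add, map_mul, map_natCast]

theorem map_ev (φ : R →+* S) (x y z : R) : ∀ (L : List (List ℕ)) (acc : R),
    φ (ev x y z L acc) = ev (φ x) (φ y) (φ z) L (φ acc)
  | [], acc => rfl
  | r :: L, acc => by
    simp only [ev]
    rw [map_ev φ x y z L]
    simp only [map_add, map_mul, map_row, map_zero, map_one]

end gen

/-! ### the programs for the kernel -/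

/-- `row` for natural numbers -/
def rowN (y z : ℕ) (l : List ℕ) : ℕ → ℕ → ℕ :=
  List.rec (fun acc _ => acc)
    (fun c _ ih acc zp => ih (Nat.add (Nat.mul acc y) (Nat.mul c zp)) (Nat.mul zp z)) l

/-- `ev` for natural numbers -/
def evN (x y z : ℕ) (L : List (List ℕ)) : ℕ → ℕ :=
  List.rec (fun acc => acc)
    (fun r _ ih acc => ih (Nat.add (Nat.mul acc x) (rowN y z r 0 1))) L

theorem rowN_eq (y z : ℕ) : ∀ (l : List ℕ) (acc zp : ℕ), rowN y z l acc zp = row y z l acc zp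
  | [], _, _ => rfl
  | _ :: l, _, _ => rowN_eq y z l _ _

theorem evN_eq (x y z : ℕ) : ∀ (L : List (List ℕ)) (acc : ℕ), evN x y z L acc = ev x y z L acc
  | [], _ => rfl
  | r :: L, acc => by
    show evN x y z L (Nat.add (Nat.mul acc x) (rowN y z r 0 1)) = _
    rw [evN_eq x y z L, rowN_eq]
    rfl

/-- a form: `ev rows - c (x + y + z)^d` -/
structure Form where
  /-- degree -/
  d : ℕ
  /-- coefficients, highest power of `x` first, then highest power of `y` first -/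
  rows : List (List ℕ)
  /-- the multiple of `(x + y + z)^d` which is subtracted -/
  c : ℕ
  /-- bound of the coefficients and of `c` -/
  C : ℕ
  /-- `∑ 2^(K-1) B^i B^(9j)` -/
  M : ℕ
  /-- `∑ (2^(K-1) - 1) B^i B^(9j)` -/
  M1 : ℕ

/-- the value of the form -/
def Form.val (F : Form) (x y z : ℝ) : ℝ := ev x y z F.rows 0 - F.c * (x + y + z) ^ F.d

/-! ### homogeneous polynomials in three variables -/

/-- the exponent `(d - i - j, i, j)` -/
noncomputable def ex (d : ℕ) (q : ℕ × ℕ) : Fin 3 →₀ ℕ :=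
  Finsupp.equivFunOnFinite.symm ![d - q.1 - q.2, q.1, q.2]

/-- the index set -/
def idx (d : ℕ) : Finset (ℕ × ℕ) := (range (d + 1) ×ˢ range (d + 1)).filter fun q => q.1 + q.2 ≤ d

theorem mem_idx {d : ℕ} {q : ℕ × ℕ} : q ∈ idx d ↔ q.1 + q.2 ≤ d := by
  simp only [idx, mem_filter, mem_product, mem_range]
  omega

theorem ex_zero (d : ℕ) (q : ℕ × ℕ) : ex d q 0 = d - q.1 - q.2 := rfl
theorem ex_one (d : ℕ) (q : ℕ × ℕ) : ex d q 1 = q.1 := rfl
theorem ex_two (d : ℕ) (q : ℕ × ℕ) : ex d q 2 = q.2 := rfl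

theorem expand {R : Type*} [CommSemiring R] {p : MvPolynomial (Fin 3) R} {d : ℕ} (hp : p.IsHomogeneous d) :
    p = ∑ q ∈ idx d, monomial (ex d q) (coeff (ex d q) p) := by
  ext m
  rw [coeff_sum]
  simp only [coeff_monomial]
  by_cases hm : m 0 + m 1 + m 2 = d
  · have he : ex d (m 1, m 2) = m := by
      ext i
      fin_cases i
      · show d - m 1 - m 2 = m 0
        omega
      · rfl
      · rfl
    rw [Finset.sum_eq_single (m 1, m 2)]
    · rw [if_pos he, he]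
    · intro q _ hq
      rw [if_neg]
      intro h
      apply hq
      rw [← h]
      rfl
    · intro h
      exact absurd (mem_idx.mpr (by show m 1 + m 2 ≤ d; omega)) h
  · rw [Finset.sum_eq_zero]
    · by_contra h
      have := hp h
      rw [Finsupp.weight_apply, Finsupp.sum_fintype _ _ (by simp)] at this
      simp [Fin.sum_univ_three] at this
      exact hm this
    · intro q hq
      rw [if_neg]
      intro h
      apply hm
      rw [← h, ex_zero, ex_one, ex_two]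
      have := mem_idx.mp hq
      omega

/-- the value of a homogeneous polynomial -/
theorem eval_expand {R S : Type*} [CommSemiring R] [CommSemiring S] (φ : R →+* S) {p : MvPolynomial (Fin 3) R}
    {d : ℕ} (hp : p.IsHomogeneous d) (t : Fin 3 → S) :
    eval₂ φ t p = ∑ q ∈ idx d, φ (coeff (ex d q) p) * (t 0 ^ (d - q.1 - q.2) * t 1 ^ q.1 * t 2 ^ q.2) := by
  conv_lhs => rw [expand hp]
  rw [eval₂_sum]
  refine Finset.sum_congr rfl fun q _ => ?_
  rw [eval₂_monomial, Finsupp.prod_fintype _ _ (by simp), Fin.prod_univ_three, ex_zero, ex_one, ex_two]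

/-! ### digits -/

theorem sum_lt_pow {B : ℕ} {f : ℕ → ℕ} (hf : ∀ n, f n < B) : ∀ N, ∑ n ∈ range N, f n * B ^ n < B ^ N
  | 0 => by simp
  | N + 1 => by
    rw [sum_range_succ, pow_succ]
    have h1 := sum_lt_pow hf N
    have h2 := hf N
    calc _ < B ^ N + f N * B ^ N := by omega
      _ = (f N + 1) * B ^ N := by ring
      _ ≤ B * B ^ N := Nat.mul_le_mul_right _ h2
      _ = B ^ N * B := by ring

theorem digit {B : ℕ} (hB : 0 < B) {f : ℕ → ℕ} (hf : ∀ n, f n < B) : ∀ N i, i < N →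
    (∑ n ∈ range N, f n * B ^ n) / B ^ i % B = f i
  | 0, i, h => absurd h (Nat.not_lt_zero i)
  | N + 1, i, h => by
    rw [sum_range_succ]
    rcases Nat.lt_succ_iff_lt_or_eq.mp h with h | rfl
    · have e : f N * B ^ N = B ^ i * (B * (f N * B ^ (N - i - 1))) := by
        have : B ^ N = B ^ i * (B * B ^ (N - i - 1)) := by
          rw [← pow_succ', ← pow_add]
          congr 1
          omega
        rw [this]
        ring
      rw [e, Nat.add_mul_div_left _ _ (pow_pos hB i), Nat.add_mul_mod_self_left]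
      exact digit hB hf N i h
    · rw [Nat.add_mul_div_right _ _ (pow_pos hB i), Nat.div_eq_of_lt (sum_lt_pow hf i), zero_add,
        Nat.mod_eq_of_lt (hf i)]

/-- the position of a coefficient in the packed number -/
theorem sum_idx {d : ℕ} (hd : d ≤ 8) (B : ℕ) (g : ℕ × ℕ → ℕ) :
    ∑ q ∈ idx d, g q * (B ^ q.1 * (B ^ 9) ^ q.2) =
      ∑ n ∈ range 81, (if n % 9 + n / 9 ≤ d then g (n % 9, n / 9) else 0) * B ^ n := by
  classical
  have h1 : ∀ n, (if n % 9 + n / 9 ≤ d then g (n % 9, n / 9) else 0) * B ^ n =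
      if n % 9 + n / 9 ≤ d then g (n % 9, n / 9) * B ^ n else 0 := by
    intro n; split_ifs <;> simp
  simp only [h1]
  rw [← Finset.sum_filter]
  refine Finset.sum_nbij' (fun q => q.1 + 9 * q.2) (fun n => (n % 9, n / 9)) ?_ ?_ ?_ ?_ ?_
  · intro q hq
    have := mem_idx.mp hq
    simp only [mem_filter, mem_range]
    omega
  · intro n hn
    simp only [mem_filter, mem_range] at hn
    exact mem_idx.mpr hn.2
  · intro q hq
    have := mem_idx.mp hq
    ext <;> simp only <;> omega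
  · intro n hn
    simp only
    omega
  · intro q hq
    have := mem_idx.mp hq
    have e1 : (q.1 + 9 * q.2) % 9 = q.1 := by omega
    have e2 : (q.1 + 9 * q.2) / 9 = q.2 := by omega
    simp only [e1, e2]
    rw [← pow_mul, ← pow_add]

/-- the bit test -/
theorem bit_test {K : ℕ} {f : ℕ → ℕ} (hf : ∀ n, f n < 2 ^ (K + 1)) {m : ℕ → Prop} [DecidablePred m] {N : ℕ}
    (h : Nat.land (∑ n ∈ range N, f n * (2 ^ (K + 1)) ^ n)
      (∑ n ∈ range N, (if m n then 2 ^ K else 0) * (2 ^ (K + 1)) ^ n) =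
        ∑ n ∈ range N, (if m n then 2 ^ K else 0) * (2 ^ (K + 1)) ^ n) {i : ℕ} (hi : i < N) (hm : m i) :
    2 ^ K ≤ f i := by
  have hB : 0 < 2 ^ (K + 1) := by positivity
  have hg : ∀ n, (if m n then 2 ^ K else 0) < 2 ^ (K + 1) := by
    intro n
    have : 2 ^ K < 2 ^ (K + 1) := Nat.pow_lt_pow_right (by norm_num) (Nat.lt_succ_self K)
    split_ifs
    · exact this
    · positivity
  have h1 := digit hB hf N i hi
  have h2 := digit hB hg N i hi
  rw [if_pos hm] at h2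
  have key : ∀ D : ℕ, D.testBit ((K + 1) * i + K) = (D / (2 ^ (K + 1)) ^ i % 2 ^ (K + 1)).testBit K := by
    intro D
    rw [Nat.testBit_mod_two_pow, ← pow_mul, Nat.testBit_div_two_pow]
    simp [Nat.add_comm]
  have h3 := congrArg (fun D => Nat.testBit D ((K + 1) * i + K)) h
  change Nat.testBit (_ &&& _) _ = Nat.testBit _ _ at h3
  rw [Nat.testBit_and, key, key, h1, h2] at h3
  have h4 : (2 ^ K : ℕ).testBit K = true := Nat.testBit_two_pow_self
  rw [h4, Bool.and_true] at h3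
  exact Nat.ge_two_pow_of_testBit h3

/-- the mask with digits `a` -/
def mask (K d a : ℕ) : ℕ := ∑ q ∈ idx d, a * ((2 ^ (K + 1)) ^ q.1 * ((2 ^ (K + 1)) ^ 9) ^ q.2)

theorem coeff_le_eval {p : MvPolynomial (Fin 3) ℕ} {d : ℕ} (hp : p.IsHomogeneous d) {q : ℕ × ℕ}
    (hq : q ∈ idx d) : coeff (ex d q) p ≤ eval ![1, 1, 1] p := by
  have h := eval_expand (RingHom.id ℕ) hp ![1, 1, 1]
  rw [eval₂_id] at h
  simp only [RingHom.id_apply, Matrix.cons_val_zero, Matrix.cons_val_one, Matrix.cons_val, one_pow, mul_one] at h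
  rw [h]
  exact Finset.single_le_sum (f := fun q => coeff (ex d q) p) (fun _ _ => Nat.zero_le _) hq

theorem coeff_lt {p q : MvPolynomial (Fin 3) ℕ} {d K : ℕ} (hd : d ≤ 8) (hp : p.IsHomogeneous d)
    (hq : q.IsHomogeneous d) (hpb : eval ![1, 1, 1] p < 2 ^ K) (hqb : eval ![1, 1, 1] q < 2 ^ K)
    (h : Nat.land (eval ![1, 2 ^ (K + 1), (2 ^ (K + 1)) ^ 9] p + mask K d (2 ^ K - 1) -
        eval ![1, 2 ^ (K + 1), (2 ^ (K + 1)) ^ 9] q) (mask K d (2 ^ K)) = mask K d (2 ^ K))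
    {m : ℕ × ℕ} (hm : m ∈ idx d) : coeff (ex d m) q < coeff (ex d m) p := by
  have hpc : ∀ m ∈ idx d, coeff (ex d m) p < 2 ^ K := fun m hm => (coeff_le_eval hp hm).trans_lt hpb
  have hqc : ∀ m ∈ idx d, coeff (ex d m) q < 2 ^ K := fun m hm => (coeff_le_eval hq hm).trans_lt hqb
  have ep := eval_expand (RingHom.id ℕ) hp ![1, 2 ^ (K + 1), (2 ^ (K + 1)) ^ 9]
  have eq := eval_expand (RingHom.id ℕ) hq ![1, 2 ^ (K + 1), (2 ^ (K + 1)) ^ 9]
  rw [eval₂_id] at ep eq
  simp only [RingHom.id_apply, Matrix.cons_val_zero, Matrix.cons_val_one, Matrix.cons_val, one_pow,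
    one_mul] at ep eq
  have e1 : eval ![1, 2 ^ (K + 1), (2 ^ (K + 1)) ^ 9] p + mask K d (2 ^ K - 1) -
      eval ![1, 2 ^ (K + 1), (2 ^ (K + 1)) ^ 9] q =
      ∑ m ∈ idx d, (coeff (ex d m) p + (2 ^ K - 1) - coeff (ex d m) q) *
        ((2 ^ (K + 1)) ^ m.1 * ((2 ^ (K + 1)) ^ 9) ^ m.2) := by
    rw [ep, eq, mask, ← Finset.sum_add_distrib]
    refine Nat.sub_eq_of_eq_add ?_
    rw [← Finset.sum_add_distrib]
    refine Finset.sum_congr rfl fun m hm => ?_
    rw [← add_mul, ← add_mul]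
    congr 1
    have := hqc m hm
    omega
  have e2 : mask K d (2 ^ K) = ∑ n ∈ range 81, (if n % 9 + n / 9 ≤ d then 2 ^ K else 0) * (2 ^ (K + 1)) ^ n :=
    sum_idx hd _ (fun _ => 2 ^ K)
  rw [e1, e2, sum_idx hd] at h
  have hf : ∀ n, (if n % 9 + n / 9 ≤ d then coeff (ex d (n % 9, n / 9)) p + (2 ^ K - 1) -
      coeff (ex d (n % 9, n / 9)) q else 0) < 2 ^ (K + 1) := by
    intro n
    split_ifs with hn
    · have h1 := hpc (n % 9, n / 9) (mem_idx.mpr hn)
      have h2 : 2 ^ (K + 1) = 2 ^ K + 2 ^ K := by ring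
      omega
    · positivity
  have hm' := mem_idx.mp hm
  have e3 : (m.1 + 9 * m.2) % 9 = m.1 := by omega
  have e4 : (m.1 + 9 * m.2) / 9 = m.2 := by omega
  have hb := bit_test (m := fun n => n % 9 + n / 9 ≤ d) (i := m.1 + 9 * m.2) hf h (by omega)
    (by simp only [e3, e4]; exact hm')
  simp only [e3, e4, if_pos hm'] at hb
  have h1 := hqc m hm
  have h2 : 0 < 2 ^ K := by positivity
  simp only [Prod.mk.eta] at hb
  omega

/-- positivity on the cone -/
theorem eval_lt {p q : MvPolynomial (Fin 3) ℕ} {d : ℕ} (hp : p.IsHomogeneous d) (hq : q.IsHomogeneous d)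
    (h : ∀ m ∈ idx d, coeff (ex d m) q < coeff (ex d m) p) {t : Fin 3 → ℝ} (ht : ∀ i, 0 ≤ t i)
    (ht0 : ∃ i, t i ≠ 0) : eval₂ (Nat.castRingHom ℝ) t q < eval₂ (Nat.castRingHom ℝ) t p := by
  rw [eval_expand _ hp, eval_expand _ hq]
  have hnn : ∀ m : ℕ × ℕ, 0 ≤ t 0 ^ (d - m.1 - m.2) * t 1 ^ m.1 * t 2 ^ m.2 := fun m =>
    mul_nonneg (mul_nonneg (pow_nonneg (ht 0) _) (pow_nonneg (ht 1) _)) (pow_nonneg (ht 2) _)
  refine Finset.sum_lt_sum (fun m hm => ?_) ?_
  · exact mul_le_mul_of_nonneg_right (by simpa using (h m hm).le) (hnn m)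
  · obtain ⟨i, hi⟩ := ht0
    have hpos : 0 < t i := lt_of_le_of_ne (ht i) (Ne.symm hi)
    have key : ∀ m ∈ idx d, 0 < t 0 ^ (d - m.1 - m.2) * t 1 ^ m.1 * t 2 ^ m.2 →
        ∃ i ∈ idx d, (Nat.castRingHom ℝ) (coeff (ex d i) q) * (t 0 ^ (d - i.1 - i.2) * t 1 ^ i.1 * t 2 ^ i.2) <
          (Nat.castRingHom ℝ) (coeff (ex d i) p) * (t 0 ^ (d - i.1 - i.2) * t 1 ^ i.1 * t 2 ^ i.2) := by
      intro m hm hpos
      exact ⟨m, hm, mul_lt_mul_of_pos_right (by simpa using h m hm) hpos⟩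
    fin_cases i
    · exact key (0, 0) (mem_idx.mpr (Nat.zero_le _)) (by simpa using pow_pos hpos d)
    · exact key (d, 0) (mem_idx.mpr (by simp)) (by simpa using pow_pos hpos d)
    · exact key (0, d) (mem_idx.mpr (by simp)) (by simpa using pow_pos hpos d)

/-! ### homogeneity of `ev` -/

theorem row_hom {y z : MvPolynomial (Fin 3) ℕ} (hy : y.IsHomogeneous 1) (hz : z.IsHomogeneous 1) :
    ∀ (l : List ℕ) (c : ℕ) (acc zp : MvPolynomial (Fin 3) ℕ) (n : ℕ), (acc * y).IsHomogeneous n →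
      zp.IsHomogeneous n → (row y z (c :: l) acc zp).IsHomogeneous (n + l.length)
  | [], c, acc, zp, n, h1, h2 => by
    have h : ((c : MvPolynomial (Fin 3) ℕ) * zp).IsHomogeneous n := by
      have := (isHomogeneous_C (Fin 3) c).mul h2
      simpa using this
    exact h1.add h
  | c' :: l, c, acc, zp, n, h1, h2 => by
    have h : ((c : MvPolynomial (Fin 3) ℕ) * zp).IsHomogeneous n := by
      have := (isHomogeneous_C (Fin 3) c).mul h2
      simpa using this
    have := row_hom hy hz l c' (acc * y + (c : MvPolynomial (Fin 3) ℕ) * zp) (zp * z) (n + 1)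
      ((h1.add h).mul hy) (h2.mul hz)
    rw [show n + (c' :: l).length = n + 1 + l.length by simp; omega]
    exact this

/-- the rows have lengths `n + 1, n + 2, ...` -/
def shape : ℕ → List (List ℕ) → Bool
  | _, [] => true
  | n, r :: L => Nat.beq r.length (n + 1) && shape (n + 1) L

theorem ev_hom {x y z : MvPolynomial (Fin 3) ℕ} (hx : x.IsHomogeneous 1) (hy : y.IsHomogeneous 1)
    (hz : z.IsHomogeneous 1) : ∀ (L : List (List ℕ)) (r : List ℕ) (acc : MvPolynomial (Fin 3) ℕ) (n : ℕ),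
      (acc * x).IsHomogeneous n → shape n (r :: L) = true → (ev x y z (r :: L) acc).IsHomogeneous (n + L.length)
  | L, r, acc, n, h1, hs => by
    simp only [shape, Bool.and_eq_true] at hs
    have hr : r.length = n + 1 := Nat.eq_of_beq_eq_true hs.1
    have hrow : (row y z r 0 1).IsHomogeneous n := by
      cases r with
      | nil => simp at hr
      | cons c l =>
        have hl : l.length = n := by simpa using hr
        have := row_hom hy hz l c 0 1 0 (by simpa using isHomogeneous_zero _ _ 0) (isHomogeneous_one _ _)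
        rw [zero_add, hl] at this
        exact this
    cases L with
    | nil => exact h1.add hrow
    | cons r' L =>
      have := ev_hom hx hy hz L r' (acc * x + row y z r 0 1) (n + 1) ((h1.add hrow).mul hx) hs.2
      rw [show n + (r' :: L).length = n + 1 + L.length by simp; omega]
      exact this

/-- a linear form -/
noncomputable def lin (a₀ a₁ a₂ : ℕ) : MvPolynomial (Fin 3) ℕ :=
  (a₀ : MvPolynomial (Fin 3) ℕ) * X 0 + (a₁ : MvPolynomial (Fin 3) ℕ) * X 1 + (a₂ : MvPolynomial (Fin 3) ℕ) * X 2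

theorem lin_hom (a₀ a₁ a₂ : ℕ) : (lin a₀ a₁ a₂).IsHomogeneous 1 := by
  have h : ∀ (c : ℕ) (i : Fin 3), ((c : MvPolynomial (Fin 3) ℕ) * X i).IsHomogeneous 1 := by
    intro c i
    have := (isHomogeneous_C (Fin 3) c).mul (isHomogeneous_X ℕ i)
    simpa using this
  exact ((h _ _).add (h _ _)).add (h _ _)

theorem eval_lin (a₀ a₁ a₂ : ℕ) (t : Fin 3 → ℕ) : eval t (lin a₀ a₁ a₂) = a₀ * t 0 + a₁ * t 1 + a₂ * t 2 := by
  simp [lin]

theorem eval₂_lin (a₀ a₁ a₂ : ℕ) (t : Fin 3 → ℝ) :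
    eval₂ (Nat.castRingHom ℝ) t (lin a₀ a₁ a₂) = a₀ * t 0 + a₁ * t 1 + a₂ * t 2 := by
  simp [lin]

/-! ### bounds -/

theorem row_mono {y z y' z' : ℕ} (hy : y ≤ y') (hz : z ≤ z') : ∀ (l : List ℕ) {acc zp acc' zp' : ℕ},
    acc ≤ acc' → zp ≤ zp' → row y z l acc zp ≤ row y' z' l acc' zp'
  | [], _, _, _, _, h, _ => h
  | _ :: l, _, _, _, _, h, h' => row_mono hy hz l
    (add_le_add (Nat.mul_le_mul h hy) (Nat.mul_le_mul le_rfl h')) (Nat.mul_le_mul h' hz)

theorem ev_mono {x y z x' y' z' : ℕ} (hx : x ≤ x') (hy : y ≤ y') (hz : z ≤ z') : ∀ (L : List (List ℕ))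
    {acc acc' : ℕ}, acc ≤ acc' → ev x y z L acc ≤ ev x' y' z' L acc'
  | [], _, _, h => h
  | r :: L, _, _, h => ev_mono hx hy hz L (add_le_add (Nat.mul_le_mul h hx) (row_mono hy hz r le_rfl le_rfl))

theorem ev_diag {L : List (List ℕ)} {d : ℕ} (hL : L.length = d + 1) (hs : shape 0 L = true) (S : ℕ) :
    ev S S S L 0 = ev 1 1 1 L 0 * S ^ d := by
  cases L with
  | nil => simp at hL
  | cons r L =>
    have hd : L.length = d := by simpa using hL
    have hp := ev_hom (isHomogeneous_X ℕ (0 : Fin 3)) (isHomogeneous_X ℕ (1 : Fin 3))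
      (isHomogeneous_X ℕ (2 : Fin 3)) L r 0 0 (by simpa using isHomogeneous_zero _ _ 0) hs
    rw [zero_add, hd] at hp
    have h1 := eval_expand (RingHom.id ℕ) hp (fun _ => S)
    have h2 := eval_expand (RingHom.id ℕ) hp (fun _ => 1)
    rw [eval₂_id, map_ev] at h1 h2
    simp only [eval_X, map_zero, RingHom.id_apply, one_pow, mul_one] at h1 h2
    rw [h1, h2, Finset.sum_mul]
    refine Finset.sum_congr rfl fun q hq => ?_
    have := mem_idx.mp hq
    rw [← pow_add, ← pow_add]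
    congr 2
    omega

/-! ### the test on one cone -/

/-- forced evaluation -/
def seqB (n : ℕ) (f : ℕ → Bool) : Bool := Nat.rec (f 0) (fun m _ => f (Nat.succ m)) n
/-- forced evaluation -/
def seqN (n : ℕ) (f : ℕ → ℕ) : ℕ := Nat.rec (f 0) (fun m _ => f (Nat.succ m)) n

theorem seqB_eq (n : ℕ) (f : ℕ → Bool) : seqB n f = f n := by cases n <;> rfl
theorem seqN_eq (n : ℕ) (f : ℕ → ℕ) : seqN n f = f n := by cases n <;> rfl

/-- the mask test for the packed vector `(x, y, z)` -/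
def tst (F : Form) (x y z : ℕ) : Bool :=
  Nat.beq (Nat.land (Nat.sub (Nat.add (evN x y z F.rows 0) F.M1)
    (Nat.mul F.c (Nat.pow (Nat.add x (Nat.add y z)) F.d))) F.M) F.M

/-- the test for one cone and one form; `h = 2^K`, `B = 2^(K+1)`, `Y = B^9` -/
def leaf (h B Y : ℕ) (F : Form) (a₀ b₀ c₀ a₁ b₁ c₁ a₂ b₂ c₂ : ℕ) : Bool :=
  cond (Nat.blt (Nat.mul F.C (Nat.pow (Nat.add (Nat.add (Nat.add a₀ a₁) a₂)
      (Nat.add (Nat.add (Nat.add b₀ b₁) b₂) (Nat.add (Nat.add c₀ c₁) c₂))) F.d)) h)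
    (seqB (Nat.add a₀ (Nat.add (Nat.mul a₁ B) (Nat.mul a₂ Y))) fun x =>
      seqB (Nat.add b₀ (Nat.add (Nat.mul b₁ B) (Nat.mul b₂ Y))) fun y =>
        seqB (Nat.add c₀ (Nat.add (Nat.mul c₁ B) (Nat.mul c₂ Y))) fun z => tst F x y z) false

/-- the fields of a form are as they should be -/
structure Form.Ok (K : ℕ) (F : Form) : Prop where
  deg : F.d ≤ 8
  len : F.rows.length = F.d + 1
  shape : shape 0 F.rows = true
  c_le : F.c ≤ F.C
  ev_le : ev 1 1 1 F.rows 0 ≤ F.C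
  M_eq : F.M = mask K F.d (2 ^ K)
  M1_eq : F.M1 = mask K F.d (2 ^ K - 1)

theorem leaf_pos {K : ℕ} {F : Form} (hF : F.Ok K) {a₀ b₀ c₀ a₁ b₁ c₁ a₂ b₂ c₂ : ℕ}
    (h : leaf (2 ^ K) (2 ^ (K + 1)) ((2 ^ (K + 1)) ^ 9) F a₀ b₀ c₀ a₁ b₁ c₁ a₂ b₂ c₂ = true) {t : Fin 3 → ℝ}
    (ht : ∀ i, 0 ≤ t i) (ht0 : ∃ i, t i ≠ 0) :
    0 < F.val (a₀ * t 0 + a₁ * t 1 + a₂ * t 2) (b₀ * t 0 + b₁ * t 1 + b₂ * t 2)
      (c₀ * t 0 + c₁ * t 1 + c₂ * t 2) := by
  obtain ⟨d, rows, c, C, M, M1⟩ := F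
  obtain ⟨hd, hlen, hsh, hc, hev, hM, hM1⟩ := hF
  simp only at hd hlen hsh hc hev hM hM1
  unfold leaf at h
  cases hb : Nat.blt (Nat.mul C (Nat.pow (Nat.add (Nat.add (Nat.add a₀ a₁) a₂)
      (Nat.add (Nat.add (Nat.add b₀ b₁) b₂) (Nat.add (Nat.add c₀ c₁) c₂))) d)) (2 ^ K) with
  | false => simp only [hb, cond_false, Bool.false_eq_true] at h
  | true =>
    simp only [hb, cond_true, seqB_eq] at h
    have hS : C * ((a₀ + a₁ + a₂) + ((b₀ + b₁ + b₂) + (c₀ + c₁ + c₂))) ^ d < 2 ^ K := Nat.blt_eq.mp hb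
    have htst := Nat.eq_of_beq_eq_true h
    simp only at htst
    cases rows with
    | nil => simp at hlen
    | cons r L =>
      have hL : L.length = d := by simpa using hlen
      set p : MvPolynomial (Fin 3) ℕ := ev (lin a₀ a₁ a₂) (lin b₀ b₁ b₂) (lin c₀ c₁ c₂) (r :: L) 0 with hp
      set q : MvPolynomial (Fin 3) ℕ := (c : MvPolynomial (Fin 3) ℕ) *
        (lin a₀ a₁ a₂ + (lin b₀ b₁ b₂ + lin c₀ c₁ c₂)) ^ d with hq
      have hph : p.IsHomogeneous d := by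
        have := ev_hom (lin_hom a₀ a₁ a₂) (lin_hom b₀ b₁ b₂) (lin_hom c₀ c₁ c₂) L r 0 0
          (by simpa using isHomogeneous_zero _ _ 0) hsh
        rw [zero_add, hL] at this
        exact this
      have hqh : q.IsHomogeneous d := by
        have h1 := ((lin_hom a₀ a₁ a₂).add ((lin_hom b₀ b₁ b₂).add (lin_hom c₀ c₁ c₂))).pow d
        rw [one_mul] at h1
        have := (isHomogeneous_C (Fin 3) c).mul h1
        simpa using this
      have hep : ∀ t : Fin 3 → ℕ, eval t p = ev (a₀ * t 0 + a₁ * t 1 + a₂ * t 2)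
          (b₀ * t 0 + b₁ * t 1 + b₂ * t 2) (c₀ * t 0 + c₁ * t 1 + c₂ * t 2) (r :: L) 0 := by
        intro t
        rw [hp, map_ev, eval_lin, eval_lin, eval_lin, map_zero]
      have heq : ∀ t : Fin 3 → ℕ, eval t q = c * ((a₀ * t 0 + a₁ * t 1 + a₂ * t 2) +
          ((b₀ * t 0 + b₁ * t 1 + b₂ * t 2) + (c₀ * t 0 + c₁ * t 1 + c₂ * t 2))) ^ d := by
        intro t
        rw [hq]
        simp only [map_mul, map_natCast, map_pow, map_add, eval_lin]
        rfl
      have hpb : eval ![1, 1, 1] p < 2 ^ K := by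
        rw [hep]
        simp only [Matrix.cons_val_zero, Matrix.cons_val_one, Matrix.cons_val, mul_one]
        refine lt_of_le_of_lt ?_ hS
        refine le_trans (ev_mono (x' := (a₀ + a₁ + a₂) + ((b₀ + b₁ + b₂) + (c₀ + c₁ + c₂)))
          (y' := (a₀ + a₁ + a₂) + ((b₀ + b₁ + b₂) + (c₀ + c₁ + c₂)))
          (z' := (a₀ + a₁ + a₂) + ((b₀ + b₁ + b₂) + (c₀ + c₁ + c₂)))
          (by omega) (by omega) (by omega) (r :: L) le_rfl) ?_
        rw [ev_diag hlen hsh]
        exact Nat.mul_le_mul_right _ hev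
      have hqb : eval ![1, 1, 1] q < 2 ^ K := by
        rw [heq]
        simp only [Matrix.cons_val_zero, Matrix.cons_val_one, Matrix.cons_val, mul_one]
        exact lt_of_le_of_lt (Nat.mul_le_mul_right _ hc) hS
      have hland : Nat.land (eval ![1, 2 ^ (K + 1), (2 ^ (K + 1)) ^ 9] p + mask K d (2 ^ K - 1) -
          eval ![1, 2 ^ (K + 1), (2 ^ (K + 1)) ^ 9] q) (mask K d (2 ^ K)) = mask K d (2 ^ K) := by
        rw [hep, heq, ← hM, ← hM1]
        simp only [Matrix.cons_val_zero, Matrix.cons_val_one, Matrix.cons_val, mul_one]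
        rw [evN_eq] at htst
        have e : ∀ u v w : ℕ, Nat.add u (Nat.add (Nat.mul v (2 ^ (K + 1))) (Nat.mul w ((2 ^ (K + 1)) ^ 9))) =
            u + v * 2 ^ (K + 1) + w * (2 ^ (K + 1)) ^ 9 := by
          intro u v w
          show u + (v * 2 ^ (K + 1) + w * (2 ^ (K + 1)) ^ 9) = _
          ring
        rw [e, e, e] at htst
        exact htst
      have hlt := eval_lt hph hqh (fun m hm => coeff_lt hd hph hqh hpb hqb hland hm) ht ht0
      have h1 : eval₂ (Nat.castRingHom ℝ) t p = ev (a₀ * t 0 + a₁ * t 1 + a₂ * t 2)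
          (b₀ * t 0 + b₁ * t 1 + b₂ * t 2) (c₀ * t 0 + c₁ * t 1 + c₂ * t 2) (r :: L) 0 := by
        have := map_ev (eval₂Hom (Nat.castRingHom ℝ) t) (lin a₀ a₁ a₂) (lin b₀ b₁ b₂) (lin c₀ c₁ c₂) (r :: L) 0
        simp only [coe_eval₂Hom, eval₂_lin, map_zero] at this
        exact this
      have h2 : eval₂ (Nat.castRingHom ℝ) t q = c * ((a₀ * t 0 + a₁ * t 1 + a₂ * t 2) +
          ((b₀ * t 0 + b₁ * t 1 + b₂ * t 2) + (c₀ * t 0 + c₁ * t 1 + c₂ * t 2))) ^ d := by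
        rw [hq, ← coe_eval₂Hom]
        simp only [map_mul, map_natCast, map_pow, map_add]
        simp only [coe_eval₂Hom, eval₂_lin]
      rw [h1, h2] at hlt
      simp only [Form.val]
      rw [sub_pos, add_assoc (_ + _ : ℝ)]
      exact hlt

/-! ### subdivision trees -/

/-- try form number `k` -/
def leafAt (h B Y : ℕ) (Fs : List Form) (a₀ b₀ c₀ a₁ b₁ c₁ a₂ b₂ c₂ : ℕ) : ℕ → Bool :=
  List.rec (fun _ => false)
    (fun F _ ih k => Nat.rec (leaf h B Y F a₀ b₀ c₀ a₁ b₁ c₁ a₂ b₂ c₂) (fun k' _ => ih k') k) Fs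

theorem leafAt_mem {h B Y : ℕ} {a₀ b₀ c₀ a₁ b₁ c₁ a₂ b₂ c₂ : ℕ} : ∀ {Fs : List Form} {k : ℕ},
    leafAt h B Y Fs a₀ b₀ c₀ a₁ b₁ c₁ a₂ b₂ c₂ k = true → ∃ F ∈ Fs, leaf h B Y F a₀ b₀ c₀ a₁ b₁ c₁ a₂ b₂ c₂ = true
  | [], _, h => absurd h Bool.false_ne_true
  | F :: _, 0, h => ⟨F, List.mem_cons_self, h⟩
  | _ :: Fs, k + 1, h => by
    obtain ⟨F, hF, h'⟩ := leafAt_mem (Fs := Fs) (k := k) h
    exact ⟨F, List.mem_cons_of_mem _ hF, h'⟩

/-- One step of the subdivision: the last hexadecimal digit of the code is `13`, `14`, `15` (cut the edge `01`, `12`,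
`20` at the sum of its ends) or the number of the form which is positive on the cone. -/
def step (h B Y : ℕ) (Fs : List Form) (ih : ℕ → ℕ → ℕ → ℕ → ℕ → ℕ → ℕ → ℕ → ℕ → ℕ → ℕ)
    (code a₀ b₀ c₀ a₁ b₁ c₁ a₂ b₂ c₂ : ℕ) : ℕ :=
  seqN (Nat.div code 16) fun rest => seqN (Nat.mod code 16) fun e =>
    cond (Nat.beq e 13)
      (seqN (Nat.add a₀ a₁) fun a => seqN (Nat.add b₀ b₁) fun b => seqN (Nat.add c₀ c₁) fun c =>
        Nat.rec 0 (fun r _ => ih r a b c a₁ b₁ c₁ a₂ b₂ c₂) (ih rest a₀ b₀ c₀ a b c a₂ b₂ c₂))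
      (cond (Nat.beq e 14)
        (seqN (Nat.add a₁ a₂) fun a => seqN (Nat.add b₁ b₂) fun b => seqN (Nat.add c₁ c₂) fun c =>
          Nat.rec 0 (fun r _ => ih r a₀ b₀ c₀ a b c a₂ b₂ c₂) (ih rest a₀ b₀ c₀ a₁ b₁ c₁ a b c))
        (cond (Nat.beq e 15)
          (seqN (Nat.add a₂ a₀) fun a => seqN (Nat.add b₂ b₀) fun b => seqN (Nat.add c₂ c₀) fun c =>
            Nat.rec 0 (fun r _ => ih r a b c a₁ b₁ c₁ a₂ b₂ c₂) (ih rest a₀ b₀ c₀ a₁ b₁ c₁ a b c))
          (cond (leafAt h B Y Fs a₀ b₀ c₀ a₁ b₁ c₁ a₂ b₂ c₂ e) (Nat.succ rest) 0)))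

/-- The subdivision; the value is the rest of the code plus one, or zero if a test fails. -/
def run (h B Y : ℕ) (Fs : List Form) (depth : ℕ) : ℕ → ℕ → ℕ → ℕ → ℕ → ℕ → ℕ → ℕ → ℕ → ℕ → ℕ :=
  Nat.rec (fun _ _ _ _ _ _ _ _ _ _ => 0) (fun _ ih => step h B Y Fs ih) depth

/-- a point of the cone -/
def pt (a₀ a₁ a₂ : ℕ) (t : Fin 3 → ℝ) : ℝ := a₀ * t 0 + a₁ * t 1 + a₂ * t 2

/-- second child after the first -/
def bnd (x : ℕ) (f : ℕ → ℕ) : ℕ := Nat.rec 0 (fun r _ => f r) x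

theorem bnd_ne {x : ℕ} {f : ℕ → ℕ} (h : bnd x f ≠ 0) : x ≠ 0 ∧ ∃ r, f r ≠ 0 := by
  cases x with
  | zero => exact absurd rfl h
  | succ r => exact ⟨Nat.succ_ne_zero r, r, h⟩

theorem run_succ (h B Y : ℕ) (Fs : List Form) (depth code a₀ b₀ c₀ a₁ b₁ c₁ a₂ b₂ c₂ : ℕ) :
    run h B Y Fs (depth + 1) code a₀ b₀ c₀ a₁ b₁ c₁ a₂ b₂ c₂ =
      cond (Nat.beq (code % 16) 13)
        (bnd (run h B Y Fs depth (code / 16) a₀ b₀ c₀ (a₀ + a₁) (b₀ + b₁) (c₀ + c₁) a₂ b₂ c₂) fun r =>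
          run h B Y Fs depth r (a₀ + a₁) (b₀ + b₁) (c₀ + c₁) a₁ b₁ c₁ a₂ b₂ c₂)
      (cond (Nat.beq (code % 16) 14)
        (bnd (run h B Y Fs depth (code / 16) a₀ b₀ c₀ a₁ b₁ c₁ (a₁ + a₂) (b₁ + b₂) (c₁ + c₂)) fun r =>
          run h B Y Fs depth r a₀ b₀ c₀ (a₁ + a₂) (b₁ + b₂) (c₁ + c₂) a₂ b₂ c₂)
      (cond (Nat.beq (code % 16) 15)
        (bnd (run h B Y Fs depth (code / 16) a₀ b₀ c₀ a₁ b₁ c₁ (a₂ + a₀) (b₂ + b₀) (c₂ + c₀)) fun r =>
          run h B Y Fs depth r (a₂ + a₀) (b₂ + b₀) (c₂ + c₀) a₁ b₁ c₁ a₂ b₂ c₂)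
      (cond (leafAt h B Y Fs a₀ b₀ c₀ a₁ b₁ c₁ a₂ b₂ c₂ (code % 16)) (code / 16 + 1) 0))) := by
  show step h B Y Fs (run h B Y Fs depth) code a₀ b₀ c₀ a₁ b₁ c₁ a₂ b₂ c₂ = _
  unfold step
  simp only [seqN_eq]
  rfl

theorem run_pos {K : ℕ} {Fs : List Form} (hFs : ∀ F ∈ Fs, F.Ok K) : ∀ (depth code a₀ b₀ c₀ a₁ b₁ c₁ a₂ b₂ c₂ : ℕ),
    run (2 ^ K) (2 ^ (K + 1)) ((2 ^ (K + 1)) ^ 9) Fs depth code a₀ b₀ c₀ a₁ b₁ c₁ a₂ b₂ c₂ ≠ 0 →
    ∀ t : Fin 3 → ℝ, (∀ i, 0 ≤ t i) → (∃ i, t i ≠ 0) →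
      ∃ F ∈ Fs, 0 < F.val (pt a₀ a₁ a₂ t) (pt b₀ b₁ b₂ t) (pt c₀ c₁ c₂ t)
  | 0, _, _, _, _, _, _, _, _, _, _, h, _, _, _ => absurd rfl h
  | depth + 1, code, a₀, b₀, c₀, a₁, b₁, c₁, a₂, b₂, c₂, h, t, ht, ht0 => by
    rw [run_succ] at h
    have hz : ¬ (t 0 = 0 ∧ t 1 = 0 ∧ t 2 = 0) := by
      rintro ⟨h0, h1, h2⟩
      obtain ⟨i, hi⟩ := ht0
      fin_cases i
      · exact hi h0
      · exact hi h1
      · exact hi h2
    have mk : ∀ u v w : ℝ, 0 ≤ u → 0 ≤ v → 0 ≤ w → ¬ (u = 0 ∧ v = 0 ∧ w = 0) →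
        (∀ i, 0 ≤ (![u, v, w] : Fin 3 → ℝ) i) ∧ ∃ i, (![u, v, w] : Fin 3 → ℝ) i ≠ 0 := by
      intro u v w hu hv hw hne
      refine ⟨?_, ?_⟩
      · intro i
        fin_cases i
        · exact hu
        · exact hv
        · exact hw
      · by_contra hcon
        push Not at hcon
        exact hne ⟨hcon 0, hcon 1, hcon 2⟩
    have h0 := ht 0
    have h1 := ht 1
    have h2 := ht 2
    cases hb1 : Nat.beq (code % 16) 13 with
    | true =>
      rw [hb1, cond_true] at h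
      obtain ⟨hl, r, hr⟩ := bnd_ne h
      rcases le_total (t 1) (t 0) with hle | hle
      · obtain ⟨m1, m2⟩ := mk (t 0 - t 1) (t 1) (t 2) (by linarith) h1 h2 (fun hc => hz ⟨by linarith [hc.1, hc.2.1], hc.2.1, hc.2.2⟩)
        obtain ⟨F, hF, hpos⟩ := run_pos hFs depth _ _ _ _ _ _ _ _ _ _ hl _ m1 m2
        refine ⟨F, hF, ?_⟩
        convert hpos using 2 <;> simp only [pt, Matrix.cons_val_zero, Matrix.cons_val_one, Matrix.cons_val] <;>
          push_cast <;> ring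
      · obtain ⟨m1, m2⟩ := mk (t 0) (t 1 - t 0) (t 2) h0 (by linarith) h2 (fun hc => hz ⟨hc.1, by linarith [hc.1, hc.2.1], hc.2.2⟩)
        obtain ⟨F, hF, hpos⟩ := run_pos hFs depth _ _ _ _ _ _ _ _ _ _ hr _ m1 m2
        refine ⟨F, hF, ?_⟩
        convert hpos using 2 <;> simp only [pt, Matrix.cons_val_zero, Matrix.cons_val_one, Matrix.cons_val] <;>
          push_cast <;> ring
    | false =>
      rw [hb1, cond_false] at h
      cases hb2 : Nat.beq (code % 16) 14 with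
      | true =>
        rw [hb2, cond_true] at h
        obtain ⟨hl, r, hr⟩ := bnd_ne h
        rcases le_total (t 2) (t 1) with hle | hle
        · obtain ⟨m1, m2⟩ := mk (t 0) (t 1 - t 2) (t 2) h0 (by linarith) h2 (fun hc => hz ⟨hc.1, by linarith [hc.2.1, hc.2.2], hc.2.2⟩)
          obtain ⟨F, hF, hpos⟩ := run_pos hFs depth _ _ _ _ _ _ _ _ _ _ hl _ m1 m2
          refine ⟨F, hF, ?_⟩
          convert hpos using 2 <;> simp only [pt, Matrix.cons_val_zero, Matrix.cons_val_one, Matrix.cons_val] <;>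
            push_cast <;> ring
        · obtain ⟨m1, m2⟩ := mk (t 0) (t 1) (t 2 - t 1) h0 h1 (by linarith) (fun hc => hz ⟨hc.1, hc.2.1, by linarith [hc.2.1, hc.2.2]⟩)
          obtain ⟨F, hF, hpos⟩ := run_pos hFs depth _ _ _ _ _ _ _ _ _ _ hr _ m1 m2
          refine ⟨F, hF, ?_⟩
          convert hpos using 2 <;> simp only [pt, Matrix.cons_val_zero, Matrix.cons_val_one, Matrix.cons_val] <;>
            push_cast <;> ring
      | false =>
        rw [hb2, cond_false] at h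
        cases hb3 : Nat.beq (code % 16) 15 with
        | true =>
          rw [hb3, cond_true] at h
          obtain ⟨hl, r, hr⟩ := bnd_ne h
          rcases le_total (t 2) (t 0) with hle | hle
          · obtain ⟨m1, m2⟩ := mk (t 0 - t 2) (t 1) (t 2) (by linarith) h1 h2 (fun hc => hz ⟨by linarith [hc.1, hc.2.2], hc.2.1, hc.2.2⟩)
            obtain ⟨F, hF, hpos⟩ := run_pos hFs depth _ _ _ _ _ _ _ _ _ _ hl _ m1 m2
            refine ⟨F, hF, ?_⟩
            convert hpos using 2 <;> simp only [pt, Matrix.cons_val_zero, Matrix.cons_val_one, Matrix.cons_val] <;>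
              push_cast <;> ring
          · obtain ⟨m1, m2⟩ := mk (t 0) (t 1) (t 2 - t 0) h0 h1 (by linarith) (fun hc => hz ⟨hc.1, hc.2.1, by linarith [hc.1, hc.2.2]⟩)
            obtain ⟨F, hF, hpos⟩ := run_pos hFs depth _ _ _ _ _ _ _ _ _ _ hr _ m1 m2
            refine ⟨F, hF, ?_⟩
            convert hpos using 2 <;> simp only [pt, Matrix.cons_val_zero, Matrix.cons_val_one, Matrix.cons_val] <;>
              push_cast <;> ring
        | false =>
          rw [hb3, cond_false] at h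
          cases hb4 : leafAt (2 ^ K) (2 ^ (K + 1)) ((2 ^ (K + 1)) ^ 9) Fs a₀ b₀ c₀ a₁ b₁ c₁ a₂ b₂ c₂ (code % 16) with
          | true =>
            obtain ⟨F, hF, hl⟩ := leafAt_mem hb4
            exact ⟨F, hF, leaf_pos (hFs F hF) hl ht ht0⟩
          | false =>
            rw [hb4, cond_false] at h
            exact absurd rfl h

end Pool.Agent.Rohlin.Cone
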