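import Pool.Agent.Rohlin.ConeInt

/-!
# Positivity of integer forms on cones, a faster program

The signs of the coordinates of the packed vector are moved into the coefficients, and a multiple of
`(x + y + z)^d` makes all coefficients natural numbers.
-/

set_option autoImplicit false

namespace Pool.Agent.Rohlin.Cone

open MvPolynomial Finset

/-! ### sums -/

section
variable {R : Type*} [CommRing R]

theorem rowZ_append (y z : R) : ∀ (l : List ℤ) (c : ℤ) (acc zp : R),
    rowZ y z (l ++ [c]) acc zp = rowZ y z l acc zp * y + c * (zp * z ^ l.length)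
  | [], c, acc, zp => by simp [rowZ]
  | b :: l, c, acc, zp => by
    simp only [List.cons_append, rowZ, List.length_cons]
    rw [rowZ_append y z l c]
    ring

theorem evZ_append (x y z : R) : ∀ (L : List (List ℤ)) (r : List ℤ) (acc : R),
    evZ x y z (L ++ [r]) acc = evZ x y z L acc * x + rowZ y z r 0 1
  | [], r, acc => by simp [evZ]
  | s :: L, r, acc => by
    simp only [List.cons_append, evZ]
    rw [evZ_append x y z L r]

theorem rowZ_range (y z : R) (g : ℕ → ℤ) : ∀ n, rowZ y z ((List.range (n + 1)).map g) 0 1 =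
    ∑ s ∈ range (n + 1), (g s : R) * (y ^ (n - s) * z ^ s)
  | 0 => by simp [rowZ]
  | n + 1 => by
    rw [List.range_succ, List.map_append, List.map_singleton, rowZ_append, rowZ_range y z g n,
      Finset.sum_range_succ _ (n + 1), Finset.sum_mul, List.length_map, List.length_range]
    congr 1
    · refine Finset.sum_congr rfl fun s hs => ?_
      have : s ≤ n := by simpa [Nat.lt_succ_iff] using hs
      rw [show n + 1 - s = n - s + 1 by omega, pow_succ y]
      ring
    · simp

theorem evZ_range (x y z : R) (g : ℕ → List ℤ) : ∀ n, evZ x y z ((List.range (n + 1)).map g) 0 =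
    ∑ m ∈ range (n + 1), rowZ y z (g m) 0 1 * x ^ (n - m)
  | 0 => by simp [evZ]
  | n + 1 => by
    rw [List.range_succ, List.map_append, List.map_singleton, evZ_append, evZ_range x y z g n,
      Finset.sum_range_succ _ (n + 1), Finset.sum_mul]
    congr 1
    · refine Finset.sum_congr rfl fun m hm => ?_
      have : m ≤ n := by simpa [Nat.lt_succ_iff] using hm
      rw [show n + 1 - m = n - m + 1 by omega, pow_succ x]
      ring
    · simp

end

/-- a triangular table -/
def tab (d : ℕ) (g : ℕ → ℕ → ℤ) : List (List ℤ) :=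
  (List.range (d + 1)).map fun m => (List.range (m + 1)).map fun s => g m s

theorem evZ_tab {R : Type*} [CommRing R] (x y z : R) (d : ℕ) (g : ℕ → ℕ → ℤ) : evZ x y z (tab d g) 0 =
    ∑ m ∈ range (d + 1), (∑ s ∈ range (m + 1), (g m s : R) * (y ^ (m - s) * z ^ s)) * x ^ (d - m) := by
  rw [tab, evZ_range]
  simp only [rowZ_range]

/-- an entry of a table -/
def cf (rows : List (List ℤ)) (m s : ℕ) : ℤ := (rows.getD m []).getD s 0

/-! ### signs -/

/-- the sign -/
def sgZ (b : Bool) : ℤ := cond b 1 (-1)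

/-- multiplication by the `n`-th power of a sign -/
def flip (b : Bool) (n : ℕ) (v : ℤ) : ℤ := cond b v (cond (Nat.beq (n % 2) 0) v (-v))

theorem flip_eq (b : Bool) (n : ℕ) (v : ℤ) : flip b n v = sgZ b ^ n * v := by
  cases b with
  | true => simp [flip, sgZ]
  | false =>
    simp only [flip, sgZ, cond_false]
    cases h : Nat.beq (n % 2) 0 with
    | true =>
      have : n % 2 = 0 := Nat.eq_of_beq_eq_true h
      rw [cond_true, (Nat.even_iff.mpr this).neg_one_pow, one_mul]
    | false =>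
      have h2 : n % 2 ≠ 0 := by
        intro h'
        rw [h'] at h
        exact absurd h (by decide)
      have : n % 2 = 1 := by omega
      rw [cond_false, (Nat.odd_iff.mpr this).neg_one_pow]
      ring

/-- the natural numbers as integers -/
def castRows (L : List (List ℕ)) : List (List ℤ) := L.map fun r => r.map Int.ofNat

theorem rowZ_cast {R : Type*} [CommRing R] (y z : R) : ∀ (l : List ℕ) (acc zp : R),
    rowZ y z (l.map Int.ofNat) acc zp = row y z l acc zp
  | [], _, _ => rfl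
  | c :: l, acc, zp => by
    simp only [List.map_cons, rowZ, row]
    rw [rowZ_cast y z l]
    simp

theorem evZ_cast {R : Type*} [CommRing R] (x y z : R) : ∀ (L : List (List ℕ)) (acc : R),
    evZ x y z (castRows L) acc = ev x y z L acc
  | [], _ => rfl
  | r :: L, acc => by
    show evZ x y z (castRows L) (acc * x + rowZ y z (r.map Int.ofNat) 0 1) = _
    rw [evZ_cast x y z L, rowZ_cast]
    rfl

/-- the coefficients after the change of signs -/
def twist (d c : ℕ) (rows : List (List ℤ)) (a b e : Bool) : List (List ℤ) :=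
  tab d fun m s => flip a (d - m) (flip b (m - s) (flip e s (cf rows m s))) +
    (c : ℤ) * ((d.choose m * m.choose s : ℕ) : ℤ)

theorem trinomial (x y z : ℤ) (d : ℕ) : (x + y + z) ^ d =
    ∑ m ∈ range (d + 1), (∑ s ∈ range (m + 1), ((d.choose m * m.choose s : ℕ) : ℤ) * (y ^ (m - s) * z ^ s)) *
      x ^ (d - m) := by
  rw [show x + y + z = (z + y) + x by ring, add_pow]
  refine Finset.sum_congr rfl fun m _ => ?_
  rw [add_pow, Finset.sum_mul, Finset.sum_mul, Finset.sum_mul]
  refine Finset.sum_congr rfl fun s _ => ?_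
  push_cast
  ring

theorem ev_twist {d c : ℕ} {rows : List (List ℤ)} (hrows : rows = tab d (cf rows)) {a b e : Bool}
    {T : List (List ℕ)} (hT : castRows T = twist d c rows a b e) (x y z : ℕ) :
    evZ (sgZ a * x) (sgZ b * y) (sgZ e * z) rows 0 = ((ev x y z T 0 : ℕ) : ℤ) - (c : ℤ) * (x + y + z) ^ d := by
  have h1 : ((ev x y z T 0 : ℕ) : ℤ) = ev (x : ℤ) (y : ℤ) (z : ℤ) T 0 := by
    have := map_ev (Nat.castRingHom ℤ) x y z T 0
    simpa using this
  rw [h1, ← evZ_cast, hT, hrows, twist, evZ_tab, evZ_tab, trinomial, Finset.mul_sum, ← Finset.sum_sub_distrib]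
  refine Finset.sum_congr rfl fun m _ => ?_
  rw [← hrows, ← mul_assoc, ← sub_mul, Finset.mul_sum, ← Finset.sum_sub_distrib, Finset.sum_mul, Finset.sum_mul]
  refine Finset.sum_congr rfl fun s _ => ?_
  simp only [flip_eq, mul_pow, Int.cast_id]
  ring

/-! ### the program -/

/-- forced evaluation, the sign is given to the function -/
def sgB (n : ℤ) (f : Bool → ℕ → Bool) : Bool :=
  match n with
  | Int.ofNat m => seqB m (f true)
  | Int.negSucc m => seqB (Nat.succ m) (f false)

theorem sgB_eq (n : ℤ) (f : Bool → ℕ → Bool) : ∃ (b : Bool) (m : ℕ), n = sgZ b * m ∧ sgB n f = f b m := by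
  cases n with
  | ofNat m => exact ⟨true, m, by simp [sgZ], seqB_eq m (f true)⟩
  | negSucc m =>
    refine ⟨false, m + 1, ?_, seqB_eq (m + 1) (f false)⟩
    rw [Int.negSucc_eq]
    simp [sgZ]

/-- the mask test -/
def tstF (c d M M1 : ℕ) (T : List (List ℕ)) (x y z : ℕ) : Bool :=
  Nat.beq (Nat.land (Nat.sub (Nat.add (evN x y z T 0) M1)
    (Nat.mul c (Nat.pow (Nat.add (Nat.add x y) z) d))) M) M

/-- the test for one cone and one form -/
def posF (F : FormZ) (c : ℕ) (T : Bool → Bool → Bool → List (List ℕ)) (a₀ b₀ c₀ a₁ b₁ c₁ a₂ b₂ c₂ : ℤ) : Bool :=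
  cond (Nat.blt (Nat.mul F.C (Nat.pow (Nat.add (abs3 a₀ a₁ a₂) (Nat.add (abs3 b₀ b₁ b₂) (abs3 c₀ c₁ c₂))) F.d)) F.h)
    (sgB (pk F.B F.Y a₀ a₁ a₂) fun sx x => sgB (pk F.B F.Y b₀ b₁ b₂) fun sy y =>
      sgB (pk F.B F.Y c₀ c₁ c₂) fun sz z => tstF c F.d F.M F.M1 (T sx sy sz) x y z) false

/-- the tables are as they should be -/
def TabOk (F : FormZ) (c : ℕ) (T : Bool → Bool → Bool → List (List ℕ)) : Prop :=
  F.rows = tab F.d (cf F.rows) ∧ ∀ a b e, castRows (T a b e) = twist F.d c F.rows a b e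

theorem posF_pos {K : ℕ} {F : FormZ} (hF : F.Ok K) {c : ℕ} {T : Bool → Bool → Bool → List (List ℕ)}
    (hT : TabOk F c T) {a₀ b₀ c₀ a₁ b₁ c₁ a₂ b₂ c₂ : ℤ}
    (h : posF F c T a₀ b₀ c₀ a₁ b₁ c₁ a₂ b₂ c₂ = true) {t : Fin 3 → ℝ}
    (ht : ∀ i, 0 ≤ t i) (ht0 : ∃ i, t i ≠ 0) :
    0 < F.val (a₀ * t 0 + a₁ * t 1 + a₂ * t 2) (b₀ * t 0 + b₁ * t 1 + b₂ * t 2)
      (c₀ * t 0 + c₁ * t 1 + c₂ * t 2) := by
  unfold posF at h
  cases hb : Nat.blt (Nat.mul F.C (Nat.pow (Nat.add (abs3 a₀ a₁ a₂) (Nat.add (abs3 b₀ b₁ b₂) (abs3 c₀ c₁ c₂))) F.d))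
      F.h with
  | false => simp only [hb, cond_false, Bool.false_eq_true] at h
  | true =>
    rw [hb, cond_true] at h
    obtain ⟨sx, x, hx, e1⟩ := sgB_eq (pk F.B F.Y a₀ a₁ a₂) fun sx x => sgB (pk F.B F.Y b₀ b₁ b₂) fun sy y =>
      sgB (pk F.B F.Y c₀ c₁ c₂) fun sz z => tstF c F.d F.M F.M1 (T sx sy sz) x y z
    obtain ⟨sy, y, hy, e2⟩ := sgB_eq (pk F.B F.Y b₀ b₁ b₂) fun sy y =>
      sgB (pk F.B F.Y c₀ c₁ c₂) fun sz z => tstF c F.d F.M F.M1 (T sx sy sz) x y z
    obtain ⟨sz, z, hz, e3⟩ := sgB_eq (pk F.B F.Y c₀ c₁ c₂) fun sz z => tstF c F.d F.M F.M1 (T sx sy sz) x y z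
    rw [e1, e2, e3] at h
    obtain ⟨D, hD, hpos⟩ := cone_pos hF hb
    refine hpos ?_ t ht ht0
    have h1 := Nat.eq_of_beq_eq_true h
    rw [evN_eq] at h1
    rw [hx, hy, hz, ev_twist hT.1 (hT.2 sx sy sz)] at hD
    have h2 : D = ev x y z (T sx sy sz) 0 + F.M1 - c * ((x + y) + z) ^ F.d := by
      have h3 : (ev x y z (T sx sy sz) 0 + F.M1 : ℤ) = ((D + c * ((x + y) + z) ^ F.d : ℕ) : ℤ) := by
        push_cast
        rw [← hD]
        ring
      have h4 : ev x y z (T sx sy sz) 0 + F.M1 = D + c * ((x + y) + z) ^ F.d := by exact_mod_cast h3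
      rw [h4, Nat.add_sub_cancel]
    rw [h2]
    exact h1

end Pool.Agent.Rohlin.Cone
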