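import Pool.Agent.Rohlin.ConeCheck

/-!
# Positivity of integer forms on cones with signed integer generators, certificates for the kernel

The same method as in `ConeCheck`, with integer coefficients and integer vectors.  The leaves of the subdivision tree
are conjunctions of forms.
-/

namespace Pool.Agent.Rohlin.Cone

open MvPolynomial Finset

section gen
variable {R S : Type*} [CommRing R] [CommRing S]

/-- Horner scheme in `y`, `zp` is the running power of `z` -/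
def rowZ (y z : R) : List ℤ → R → R → R
  | [], acc, _ => acc
  | c :: l, acc, zp => rowZ y z l (acc * y + (c : R) * zp) (zp * z)

/-- Horner scheme in `x` -/
def evZ (x y z : R) : List (List ℤ) → R → R
  | [], acc => acc
  | r :: L, acc => evZ x y z L (acc * x + rowZ y z r 0 1)

theorem map_rowZ (φ : R →+* S) (y z : R) : ∀ (l : List ℤ) (acc zp : R),
    φ (rowZ y z l acc zp) = rowZ (φ y) (φ z) l (φ acc) (φ zp)
  | [], _, _ => rfl
  | c :: l, acc, zp => by
    simp only [rowZ]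
    rw [map_rowZ φ y z l]
    simp only [map_add, map_mul, map_intCast]

theorem map_evZ (φ : R →+* S) (x y z : R) : ∀ (L : List (List ℤ)) (acc : R),
    φ (evZ x y z L acc) = evZ (φ x) (φ y) (φ z) L (φ acc)
  | [], _ => rfl
  | r :: L, acc => by
    simp only [evZ]
    rw [map_evZ φ x y z L]
    simp only [map_add, map_mul, map_rowZ, map_zero, map_one]

end gen

/-! ### programs -/

/-- `rowZ` for integers -/
def rowI (y z : ℤ) (l : List ℤ) : ℤ → ℤ → ℤ :=
  List.rec (fun acc _ => acc)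
    (fun c _ ih acc zp => ih (Int.add (Int.mul acc y) (Int.mul c zp)) (Int.mul zp z)) l

/-- `evZ` for integers -/
def evI (x y z : ℤ) (L : List (List ℤ)) : ℤ → ℤ :=
  List.rec (fun acc => acc)
    (fun r _ ih acc => ih (Int.add (Int.mul acc x) (rowI y z r (Int.ofNat 0) (Int.ofNat 1)))) L

theorem rowI_eq (y z : ℤ) : ∀ (l : List ℤ) (acc zp : ℤ), rowI y z l acc zp = rowZ y z l acc zp
  | [], _, _ => rfl
  | c :: l, acc, zp => by
    show rowI y z l (acc * y + c * zp) (zp * z) = _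
    rw [rowI_eq y z l]
    simp only [rowZ, Int.cast_id]

theorem evI_eq (x y z : ℤ) : ∀ (L : List (List ℤ)) (acc : ℤ), evI x y z L acc = evZ x y z L acc
  | [], _ => rfl
  | r :: L, acc => by
    show evI x y z L (acc * x + rowI y z r 0 1) = _
    rw [evI_eq x y z L, rowI_eq]
    rfl

/-- an integer form of degree `d` -/
structure FormZ where
  /-- degree -/
  d : ℕ
  /-- coefficients, highest power of `x` first, then highest power of `y` first -/
  rows : List (List ℤ)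
  /-- bound of the sum of the absolute values of the coefficients -/
  C : ℕ
  /-- `2^K` -/
  h : ℕ
  /-- `2^(K+1)` -/
  B : ℕ
  /-- `B^9` -/
  Y : ℕ
  /-- `∑ 2^K B^i B^(9j)` -/
  M : ℕ
  /-- `∑ (2^K - 1) B^i B^(9j)` -/
  M1 : ℕ

/-- the value of the form -/
def FormZ.val (F : FormZ) (x y z : ℝ) : ℝ := evZ x y z F.rows 0

/-- the polynomial -/
noncomputable def toMv (rows : List (List ℤ)) : MvPolynomial (Fin 3) ℤ := evZ (X 0) (X 1) (X 2) rows 0

theorem val_eq_aeval (F : FormZ) (v : Fin 3 → ℝ) : F.val (v 0) (v 1) (v 2) = aeval v (toMv F.rows) := by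
  have := map_evZ (aeval v : MvPolynomial (Fin 3) ℤ →ₐ[ℤ] ℝ).toRingHom (X 0) (X 1) (X 2) F.rows 0
  simp only [AlgHom.toRingHom_eq_coe, RingHom.coe_coe, aeval_X, map_zero] at this
  exact this.symm

/-! ### homogeneity -/

theorem row_homZ {y z : MvPolynomial (Fin 3) ℤ} (hy : y.IsHomogeneous 1) (hz : z.IsHomogeneous 1) :
    ∀ (l : List ℤ) (c : ℤ) (acc zp : MvPolynomial (Fin 3) ℤ) (n : ℕ), (acc * y).IsHomogeneous n →
      zp.IsHomogeneous n → (rowZ y z (c :: l) acc zp).IsHomogeneous (n + l.length)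
  | [], c, acc, zp, n, h1, h2 => by
    have h : ((c : MvPolynomial (Fin 3) ℤ) * zp).IsHomogeneous n := by
      have := (isHomogeneous_C (Fin 3) c).mul h2
      simpa using this
    exact h1.add h
  | c' :: l, c, acc, zp, n, h1, h2 => by
    have h : ((c : MvPolynomial (Fin 3) ℤ) * zp).IsHomogeneous n := by
      have := (isHomogeneous_C (Fin 3) c).mul h2
      simpa using this
    have := row_homZ hy hz l c' (acc * y + (c : MvPolynomial (Fin 3) ℤ) * zp) (zp * z) (n + 1)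
      ((h1.add h).mul hy) (h2.mul hz)
    rw [show n + (c' :: l).length = n + 1 + l.length by simp; omega]
    exact this

/-- the rows have lengths `n + 1, n + 2, ...` -/
def shapeZ : ℕ → List (List ℤ) → Bool
  | _, [] => true
  | n, r :: L => Nat.beq r.length (n + 1) && shapeZ (n + 1) L

theorem ev_homZ {x y z : MvPolynomial (Fin 3) ℤ} (hx : x.IsHomogeneous 1) (hy : y.IsHomogeneous 1)
    (hz : z.IsHomogeneous 1) : ∀ (L : List (List ℤ)) (r : List ℤ) (acc : MvPolynomial (Fin 3) ℤ) (n : ℕ),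
      (acc * x).IsHomogeneous n → shapeZ n (r :: L) = true → (evZ x y z (r :: L) acc).IsHomogeneous (n + L.length)
  | L, r, acc, n, h1, hs => by
    simp only [shapeZ, Bool.and_eq_true] at hs
    have hr : r.length = n + 1 := Nat.eq_of_beq_eq_true hs.1
    have hrow : (rowZ y z r 0 1).IsHomogeneous n := by
      cases r with
      | nil => simp at hr
      | cons c l =>
        have hl : l.length = n := by simpa using hr
        have := row_homZ hy hz l c 0 1 0 (by simpa using isHomogeneous_zero _ _ 0) (isHomogeneous_one _ _)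
        rw [zero_add, hl] at this
        exact this
    cases L with
    | nil => exact h1.add hrow
    | cons r' L =>
      have := ev_homZ hx hy hz L r' (acc * x + rowZ y z r 0 1) (n + 1) ((h1.add hrow).mul hx) hs.2
      rw [show n + (r' :: L).length = n + 1 + L.length by simp; omega]
      exact this

/-- a linear form -/
noncomputable def linZ (a₀ a₁ a₂ : ℤ) : MvPolynomial (Fin 3) ℤ :=
  (a₀ : MvPolynomial (Fin 3) ℤ) * X 0 + (a₁ : MvPolynomial (Fin 3) ℤ) * X 1 + (a₂ : MvPolynomial (Fin 3) ℤ) * X 2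

theorem linZ_hom (a₀ a₁ a₂ : ℤ) : (linZ a₀ a₁ a₂).IsHomogeneous 1 := by
  have h : ∀ (c : ℤ) (i : Fin 3), ((c : MvPolynomial (Fin 3) ℤ) * X i).IsHomogeneous 1 := by
    intro c i
    have := (isHomogeneous_C (Fin 3) c).mul (isHomogeneous_X ℤ i)
    simpa using this
  exact ((h _ _).add (h _ _)).add (h _ _)

theorem eval₂_linZ {S : Type*} [CommRing S] (a₀ a₁ a₂ : ℤ) (t : Fin 3 → S) :
    eval₂ (Int.castRingHom S) t (linZ a₀ a₁ a₂) = a₀ * t 0 + a₁ * t 1 + a₂ * t 2 := by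
  have h : ∀ c : ℤ, eval₂ (Int.castRingHom S) t (c : MvPolynomial (Fin 3) ℤ) = c := by
    intro c
    have : (c : MvPolynomial (Fin 3) ℤ) = C c := by simp
    rw [this, eval₂_C]
    rfl
  simp only [linZ, eval₂_add, eval₂_mul, eval₂_X, h]

/-! ### domination -/

/-- the coefficients of `p` are bounded by those of `P` -/
def Dom (p : MvPolynomial (Fin 3) ℤ) (P : MvPolynomial (Fin 3) ℕ) : Prop :=
  ∀ m, (coeff m p).natAbs ≤ coeff m P

theorem Dom.add {p q : MvPolynomial (Fin 3) ℤ} {P Q : MvPolynomial (Fin 3) ℕ} (hp : Dom p P) (hq : Dom q Q) :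
    Dom (p + q) (P + Q) := fun m => by
  rw [coeff_add, coeff_add]
  exact (Int.natAbs_add_le _ _).trans (add_le_add (hp m) (hq m))

theorem Dom.mul {p q : MvPolynomial (Fin 3) ℤ} {P Q : MvPolynomial (Fin 3) ℕ} (hp : Dom p P) (hq : Dom q Q) :
    Dom (p * q) (P * Q) := fun m => by
  classical
  rw [coeff_mul, coeff_mul]
  have h : ∀ s : Finset ((Fin 3 →₀ ℕ) × (Fin 3 →₀ ℕ)),
      (∑ x ∈ s, coeff x.1 p * coeff x.2 q).natAbs ≤ ∑ x ∈ s, coeff x.1 P * coeff x.2 Q := by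
    intro s
    induction s using Finset.induction_on with
    | empty => simp
    | insert a s ha ih =>
      rw [Finset.sum_insert ha, Finset.sum_insert ha]
      refine (Int.natAbs_add_le _ _).trans (add_le_add ?_ ih)
      rw [Int.natAbs_mul]
      exact Nat.mul_le_mul (hp _) (hq _)
  exact h _

theorem dom_zero : Dom 0 0 := fun m => by simp

theorem dom_one : Dom 1 1 := fun m => by
  classical
  rw [coeff_one, coeff_one]
  split_ifs <;> simp

theorem dom_cast (c : ℤ) : Dom (c : MvPolynomial (Fin 3) ℤ) (c.natAbs : MvPolynomial (Fin 3) ℕ) := fun m => by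
  classical
  have h1 : (c : MvPolynomial (Fin 3) ℤ) = C c := by simp
  have h2 : (c.natAbs : MvPolynomial (Fin 3) ℕ) = C c.natAbs := by simp
  rw [h1, h2, coeff_C, coeff_C]
  split_ifs <;> simp

theorem dom_X (i : Fin 3) : Dom (X i) (X i) := fun m => by
  classical
  rw [coeff_X, coeff_X]
  split_ifs <;> simp

theorem dom_lin (a₀ a₁ a₂ : ℤ) : Dom (linZ a₀ a₁ a₂) (lin a₀.natAbs a₁.natAbs a₂.natAbs) :=
  (((dom_cast _).mul (dom_X 0)).add ((dom_cast _).mul (dom_X 1))).add ((dom_cast _).mul (dom_X 2))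

/-- absolute values -/
def absRows (L : List (List ℤ)) : List (List ℕ) := L.map fun r => r.map Int.natAbs

theorem dom_row {y z : MvPolynomial (Fin 3) ℤ} {Y Z : MvPolynomial (Fin 3) ℕ} (hy : Dom y Y) (hz : Dom z Z) :
    ∀ (l : List ℤ) {acc zp : MvPolynomial (Fin 3) ℤ} {Acc Zp : MvPolynomial (Fin 3) ℕ}, Dom acc Acc →
      Dom zp Zp → Dom (rowZ y z l acc zp) (row Y Z (l.map Int.natAbs) Acc Zp)
  | [], _, _, _, _, h, _ => h
  | c :: l, _, _, _, _, h, h' => dom_row hy hz l ((h.mul hy).add ((dom_cast c).mul h')) (h'.mul hz)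

theorem dom_ev {x y z : MvPolynomial (Fin 3) ℤ} {X Y Z : MvPolynomial (Fin 3) ℕ} (hx : Dom x X) (hy : Dom y Y)
    (hz : Dom z Z) : ∀ (L : List (List ℤ)) {acc : MvPolynomial (Fin 3) ℤ} {Acc : MvPolynomial (Fin 3) ℕ},
      Dom acc Acc → Dom (evZ x y z L acc) (ev X Y Z (absRows L) Acc)
  | [], _, _, h => h
  | r :: L, _, _, h => dom_ev hx hy hz L ((h.mul hx).add (dom_row hy hz r dom_zero dom_one))

theorem shape_abs : ∀ (n : ℕ) (L : List (List ℤ)), shape n (absRows L) = shapeZ n L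
  | _, [] => rfl
  | n, r :: L => by
    show (Nat.beq (r.map Int.natAbs).length (n + 1) && shape (n + 1) (absRows L)) = _
    rw [shape_abs (n + 1) L, List.length_map]
    rfl

/-! ### the test for the signs of the coefficients -/

theorem coeff_pos {p : MvPolynomial (Fin 3) ℤ} {P : MvPolynomial (Fin 3) ℕ} {d K : ℕ} (hd : d ≤ 8)
    (hp : p.IsHomogeneous d) (hP : P.IsHomogeneous d) (hdom : Dom p P) (hPb : eval ![1, 1, 1] P < 2 ^ K) :
    ∃ D : ℕ, eval ![1, 2 ^ (K + 1), (2 ^ (K + 1)) ^ 9] p + (mask K d (2 ^ K - 1) : ℤ) = D ∧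
      (Nat.land D (mask K d (2 ^ K)) = mask K d (2 ^ K) → ∀ m ∈ idx d, 0 < coeff (ex d m) p) := by
  have h2K : (0 : ℕ) < 2 ^ K := by positivity
  have hc : ∀ q ∈ idx d, (coeff (ex d q) p).natAbs < 2 ^ K := fun q hq =>
    (hdom _).trans_lt ((coeff_le_eval hP hq).trans_lt hPb)
  set g : ℕ × ℕ → ℕ := fun q => if q.1 + q.2 ≤ d then (coeff (ex d q) p + ((2 ^ K - 1 : ℕ) : ℤ)).toNat else 0 with hg
  have hgc : ∀ q ∈ idx d, (g q : ℤ) = coeff (ex d q) p + ((2 ^ K - 1 : ℕ) : ℤ) := by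
    intro q hq
    have h1 := hc q hq
    simp only [hg, if_pos (mem_idx.mp hq)]
    refine Int.toNat_of_nonneg ?_
    omega
  have hglt : ∀ q, g q < 2 ^ (K + 1) := by
    intro q
    by_cases hq : q.1 + q.2 ≤ d
    · have h1 := hc q (mem_idx.mpr hq)
      have h2 := hgc q (mem_idx.mpr hq)
      have h3 : 2 ^ (K + 1) = 2 ^ K + 2 ^ K := by ring
      omega
    · simp only [hg, if_neg hq]
      positivity
  have ep := eval_expand (RingHom.id ℤ) hp ![1, 2 ^ (K + 1), (2 ^ (K + 1)) ^ 9]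
  rw [eval₂_id] at ep
  simp only [RingHom.id_apply, Matrix.cons_val_zero, Matrix.cons_val_one, Matrix.cons_val, one_pow,
    one_mul] at ep
  refine ⟨∑ q ∈ idx d, g q * ((2 ^ (K + 1)) ^ q.1 * ((2 ^ (K + 1)) ^ 9) ^ q.2), ?_, ?_⟩
  · rw [ep, mask, Nat.cast_sum, Nat.cast_sum, ← Finset.sum_add_distrib]
    refine Finset.sum_congr rfl fun q hq => ?_
    rw [Nat.cast_mul (g q), hgc q hq]
    push_cast
    ring
  intro h m hm
  have e2 : mask K d (2 ^ K) = ∑ n ∈ range 81, (if n % 9 + n / 9 ≤ d then 2 ^ K else 0) * (2 ^ (K + 1)) ^ n :=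
    sum_idx hd _ (fun _ => 2 ^ K)
  rw [e2, sum_idx hd] at h
  have hf : ∀ n, (if n % 9 + n / 9 ≤ d then g (n % 9, n / 9) else 0) < 2 ^ (K + 1) := by
    intro n
    split_ifs with hn
    · exact hglt _
    · positivity
  have hm' := mem_idx.mp hm
  have e3 : (m.1 + 9 * m.2) % 9 = m.1 := by omega
  have e4 : (m.1 + 9 * m.2) / 9 = m.2 := by omega
  have hb := bit_test (m := fun n => n % 9 + n / 9 ≤ d) (i := m.1 + 9 * m.2) hf h (by omega)
    (by simp only [e3, e4]; exact hm')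
  simp only [e3, e4, if_pos hm', Prod.mk.eta] at hb
  have h5 := hgc m hm
  omega

/-- positivity on the cone -/
theorem eval_pos {p : MvPolynomial (Fin 3) ℤ} {d : ℕ} (hp : p.IsHomogeneous d)
    (h : ∀ m ∈ idx d, 0 < coeff (ex d m) p) {t : Fin 3 → ℝ} (ht : ∀ i, 0 ≤ t i)
    (ht0 : ∃ i, t i ≠ 0) : 0 < eval₂ (Int.castRingHom ℝ) t p := by
  rw [eval_expand _ hp]
  have hnn : ∀ m : ℕ × ℕ, 0 ≤ t 0 ^ (d - m.1 - m.2) * t 1 ^ m.1 * t 2 ^ m.2 := fun m =>
    mul_nonneg (mul_nonneg (pow_nonneg (ht 0) _) (pow_nonneg (ht 1) _)) (pow_nonneg (ht 2) _)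
  have hcpos : ∀ m ∈ idx d, (0 : ℝ) < (Int.castRingHom ℝ) (coeff (ex d m) p) := fun m hm => by
    simpa using h m hm
  refine Finset.sum_pos' (fun m hm => mul_nonneg (hcpos m hm).le (hnn m)) ?_
  obtain ⟨i, hi⟩ := ht0
  have hpos : 0 < t i := lt_of_le_of_ne (ht i) (Ne.symm hi)
  have key : ∀ m ∈ idx d, 0 < t 0 ^ (d - m.1 - m.2) * t 1 ^ m.1 * t 2 ^ m.2 →
      ∃ i ∈ idx d, 0 < (Int.castRingHom ℝ) (coeff (ex d i) p) * (t 0 ^ (d - i.1 - i.2) * t 1 ^ i.1 * t 2 ^ i.2) :=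
    fun m hm hpos => ⟨m, hm, mul_pos (hcpos m hm) hpos⟩
  fin_cases i
  · exact key (0, 0) (mem_idx.mpr (Nat.zero_le _)) (by simpa using pow_pos hpos d)
  · exact key (d, 0) (mem_idx.mpr (by simp)) (by simpa using pow_pos hpos d)
  · exact key (0, d) (mem_idx.mpr (by simp)) (by simpa using pow_pos hpos d)

/-! ### the test on one cone -/

/-- forced evaluation -/
def seqI (n : ℤ) (f : ℤ → Bool) : Bool :=
  match n with
  | Int.ofNat m => seqB m fun k => f (Int.ofNat k)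
  | Int.negSucc m => seqB m fun k => f (Int.negSucc k)

theorem seqI_eq (n : ℤ) (f : ℤ → Bool) : seqI n f = f n := by
  cases n with
  | ofNat m => exact seqB_eq m fun k => f (Int.ofNat k)
  | negSucc m => exact seqB_eq m fun k => f (Int.negSucc k)

/-- the test of a number against the mask -/
def mskZ (M : ℕ) (D : ℤ) : Bool :=
  match D with
  | Int.ofNat D => Nat.beq (Nat.land D M) M
  | Int.negSucc _ => false

theorem mskZ_eq {M : ℕ} {D : ℤ} (h : mskZ M D = true) : ∃ n : ℕ, D = n ∧ Nat.land n M = M := by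
  cases D with
  | ofNat n => exact ⟨n, rfl, Nat.eq_of_beq_eq_true h⟩
  | negSucc n => exact absurd h Bool.false_ne_true

/-- the packed number -/
def pk (B Y : ℕ) (a b c : ℤ) : ℤ := Int.add a (Int.add (Int.mul b (Int.ofNat B)) (Int.mul c (Int.ofNat Y)))

/-- the sum of the absolute values -/
def abs3 (a b c : ℤ) : ℕ := Nat.add (Nat.add (Int.natAbs a) (Int.natAbs b)) (Int.natAbs c)

/-- the test for one cone and one form -/
def posI (F : FormZ) (a₀ b₀ c₀ a₁ b₁ c₁ a₂ b₂ c₂ : ℤ) : Bool :=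
  cond (Nat.blt (Nat.mul F.C (Nat.pow (Nat.add (abs3 a₀ a₁ a₂) (Nat.add (abs3 b₀ b₁ b₂) (abs3 c₀ c₁ c₂))) F.d)) F.h)
    (seqI (pk F.B F.Y a₀ a₁ a₂) fun x => seqI (pk F.B F.Y b₀ b₁ b₂) fun y => seqI (pk F.B F.Y c₀ c₁ c₂) fun z =>
      mskZ F.M (Int.add (evI x y z F.rows (Int.ofNat 0)) (Int.ofNat F.M1))) false

/-- the fields of a form are as they should be -/
structure FormZ.Ok (K : ℕ) (F : FormZ) : Prop where
  deg : F.d ≤ 8
  len : F.rows.length = F.d + 1
  shape : shapeZ 0 F.rows = true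
  ev_le : ev 1 1 1 (absRows F.rows) 0 ≤ F.C
  h_eq : F.h = 2 ^ K
  B_eq : F.B = 2 ^ (K + 1)
  Y_eq : F.Y = (2 ^ (K + 1)) ^ 9
  M_eq : F.M = mask K F.d (2 ^ K)
  M1_eq : F.M1 = mask K F.d (2 ^ K - 1)

/-- The bound of the coefficients makes the number for the mask test natural. -/
theorem cone_pos {K : ℕ} {F : FormZ} (hF : F.Ok K) {a₀ b₀ c₀ a₁ b₁ c₁ a₂ b₂ c₂ : ℤ}
    (hb : Nat.blt (Nat.mul F.C (Nat.pow (Nat.add (abs3 a₀ a₁ a₂) (Nat.add (abs3 b₀ b₁ b₂) (abs3 c₀ c₁ c₂))) F.d)) F.h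
      = true) :
    ∃ D : ℕ, evZ (pk F.B F.Y a₀ a₁ a₂) (pk F.B F.Y b₀ b₁ b₂) (pk F.B F.Y c₀ c₁ c₂) F.rows 0 + (F.M1 : ℤ) = D ∧
      (Nat.land D F.M = F.M → ∀ t : Fin 3 → ℝ, (∀ i, 0 ≤ t i) → (∃ i, t i ≠ 0) →
        0 < F.val (a₀ * t 0 + a₁ * t 1 + a₂ * t 2) (b₀ * t 0 + b₁ * t 1 + b₂ * t 2)
          (c₀ * t 0 + c₁ * t 1 + c₂ * t 2)) := by
  obtain ⟨d, rows, C, H, B, Y, M, M1⟩ := F
  obtain ⟨hd, hlen, hsh, hev, hH, hB, hY, hM, hM1⟩ := hF
  simp only at hd hlen hsh hev hH hB hY hM hM1 hb ⊢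
  subst hH hB hY
  set S : ℕ := (a₀.natAbs + a₁.natAbs + a₂.natAbs) + ((b₀.natAbs + b₁.natAbs + b₂.natAbs) +
    (c₀.natAbs + c₁.natAbs + c₂.natAbs)) with hSdef
  have hS : C * S ^ d < 2 ^ K := Nat.blt_eq.mp hb
  cases rows with
  | nil => simp at hlen
  | cons r L =>
    have hL : L.length = d := by simpa using hlen
    set p : MvPolynomial (Fin 3) ℤ := evZ (linZ a₀ a₁ a₂) (linZ b₀ b₁ b₂) (linZ c₀ c₁ c₂) (r :: L) 0 with hp
    set P : MvPolynomial (Fin 3) ℕ := ev (lin a₀.natAbs a₁.natAbs a₂.natAbs) (lin b₀.natAbs b₁.natAbs b₂.natAbs)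
      (lin c₀.natAbs c₁.natAbs c₂.natAbs) (absRows (r :: L)) 0 with hP
    have hph : p.IsHomogeneous d := by
      have := ev_homZ (linZ_hom a₀ a₁ a₂) (linZ_hom b₀ b₁ b₂) (linZ_hom c₀ c₁ c₂) L r 0 0
        (by simpa using isHomogeneous_zero _ _ 0) hsh
      rw [zero_add, hL] at this
      exact this
    have hsh' : shape 0 (absRows (r :: L)) = true := by rw [shape_abs]; exact hsh
    have hlen' : (absRows (r :: L)).length = d + 1 := by rw [absRows, List.length_map]; exact hlen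
    have hPh : P.IsHomogeneous d := by
      have := ev_hom (lin_hom a₀.natAbs a₁.natAbs a₂.natAbs) (lin_hom b₀.natAbs b₁.natAbs b₂.natAbs)
        (lin_hom c₀.natAbs c₁.natAbs c₂.natAbs) (absRows L) (r.map Int.natAbs) 0 0
        (by simpa using isHomogeneous_zero _ _ 0) hsh'
      rw [zero_add, absRows, List.length_map, hL] at this
      exact this
    have hdom : Dom p P := dom_ev (dom_lin _ _ _) (dom_lin _ _ _) (dom_lin _ _ _) _ dom_zero
    have hPb : eval ![1, 1, 1] P < 2 ^ K := by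
      rw [hP, map_ev, eval_lin, eval_lin, eval_lin, map_zero]
      simp only [Matrix.cons_val_zero, Matrix.cons_val_one, Matrix.cons_val, mul_one]
      refine lt_of_le_of_lt ?_ hS
      refine le_trans (ev_mono (x' := S) (y' := S) (z' := S) (by omega) (by omega) (by omega) _ le_rfl) ?_
      rw [ev_diag hlen' hsh']
      exact Nat.mul_le_mul_right _ hev
    have hlin : ∀ (u v w : ℤ) (t : Fin 3 → ℤ), eval t (linZ u v w) = u * t 0 + v * t 1 + w * t 2 := by
      intro u v w t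
      simp [linZ]
    obtain ⟨D, hD, hpos⟩ := coeff_pos hd hph hPh hdom hPb
    refine ⟨D, ?_, ?_⟩
    · rw [← hD, hp, map_evZ, hlin, hlin, hlin, map_zero]
      simp only [Matrix.cons_val_zero, Matrix.cons_val_one, Matrix.cons_val, mul_one]
      rw [← hM1]
      have e : ∀ u v w : ℤ, pk (2 ^ (K + 1)) ((2 ^ (K + 1)) ^ 9) u v w =
          u + v * 2 ^ (K + 1) + w * (2 ^ (K + 1)) ^ 9 := by
        intro u v w
        show u + (v * ((2 ^ (K + 1) : ℕ) : ℤ) + w * (((2 ^ (K + 1)) ^ 9 : ℕ) : ℤ)) = _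
        push_cast
        ring
      rw [e, e, e]
    · intro hland t ht ht0
      have hfin := eval_pos hph (hpos (hM ▸ hland)) ht ht0
      have h1 : eval₂ (Int.castRingHom ℝ) t p = evZ (a₀ * t 0 + a₁ * t 1 + a₂ * t 2 : ℝ)
          (b₀ * t 0 + b₁ * t 1 + b₂ * t 2) (c₀ * t 0 + c₁ * t 1 + c₂ * t 2) (r :: L) 0 := by
        have := map_evZ (eval₂Hom (Int.castRingHom ℝ) t) (linZ a₀ a₁ a₂) (linZ b₀ b₁ b₂) (linZ c₀ c₁ c₂) (r :: L) 0
        simp only [coe_eval₂Hom, eval₂_linZ, map_zero] at this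
        exact this
      rw [h1] at hfin
      exact hfin

theorem posI_pos {K : ℕ} {F : FormZ} (hF : F.Ok K) {a₀ b₀ c₀ a₁ b₁ c₁ a₂ b₂ c₂ : ℤ}
    (h : posI F a₀ b₀ c₀ a₁ b₁ c₁ a₂ b₂ c₂ = true) {t : Fin 3 → ℝ}
    (ht : ∀ i, 0 ≤ t i) (ht0 : ∃ i, t i ≠ 0) :
    0 < F.val (a₀ * t 0 + a₁ * t 1 + a₂ * t 2) (b₀ * t 0 + b₁ * t 1 + b₂ * t 2)
      (c₀ * t 0 + c₁ * t 1 + c₂ * t 2) := by
  unfold posI at h
  cases hb : Nat.blt (Nat.mul F.C (Nat.pow (Nat.add (abs3 a₀ a₁ a₂) (Nat.add (abs3 b₀ b₁ b₂) (abs3 c₀ c₁ c₂))) F.d))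
      F.h with
  | false => simp only [hb, cond_false, Bool.false_eq_true] at h
  | true =>
    simp only [hb, cond_true, seqI_eq] at h
    obtain ⟨D, hD, hpos⟩ := cone_pos hF hb
    obtain ⟨D', hD', hland⟩ := mskZ_eq h
    rw [evI_eq] at hD'
    have : D = D' := by exact_mod_cast hD.symm.trans hD'
    subst this
    exact hpos hland t ht ht0

end Pool.Agent.Rohlin.Cone
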