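import Pool.Agent.Rohlin.ConeFast

/-!
# Positivity of integer forms on cones, several digit sizes

The size of the digits is chosen on every cone from the value of the form with the absolute values of the coefficients.
-/

set_option autoImplicit false

namespace Pool.Agent.Rohlin.Cone

open MvPolynomial Finset

/-- The bound of the coefficients makes the number for the mask test natural. -/
theorem cone_core {K d : ℕ} {rows : List (List ℤ)} (hd : d ≤ 8) (hlen : rows.length = d + 1)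
    (hsh : shapeZ 0 rows = true) {a₀ b₀ c₀ a₁ b₁ c₁ a₂ b₂ c₂ : ℤ}
    (hb : ev (abs3 a₀ a₁ a₂) (abs3 b₀ b₁ b₂) (abs3 c₀ c₁ c₂) (absRows rows) 0 < 2 ^ K) :
    ∃ D : ℕ, evZ (pk (2 ^ (K + 1)) ((2 ^ (K + 1)) ^ 9) a₀ a₁ a₂) (pk (2 ^ (K + 1)) ((2 ^ (K + 1)) ^ 9) b₀ b₁ b₂)
        (pk (2 ^ (K + 1)) ((2 ^ (K + 1)) ^ 9) c₀ c₁ c₂) rows 0 + (mask K d (2 ^ K - 1) : ℤ) = D ∧
      (Nat.land D (mask K d (2 ^ K)) = mask K d (2 ^ K) → ∀ t : Fin 3 → ℝ, (∀ i, 0 ≤ t i) → (∃ i, t i ≠ 0) →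
        0 < evZ (a₀ * t 0 + a₁ * t 1 + a₂ * t 2 : ℝ) (b₀ * t 0 + b₁ * t 1 + b₂ * t 2)
          (c₀ * t 0 + c₁ * t 1 + c₂ * t 2) rows 0) := by
  cases rows with
  | nil => simp at hlen
  | cons r L =>
    have hL : L.length = d := by simpa using hlen
    set p : MvPolynomial (Fin 3) ℤ := evZ (linZ a₀ a₁ a₂) (linZ b₀ b₁ b₂) (linZ c₀ c₁ c₂) (r :: L) 0 with hp
    set P : MvPolynomial (Fin 3) ℕ := ev (lin a₀.natAbs a₁.natAbs a₂.natAbs) (lin b₀.natAbs b₁.natAbs b₂.natAbs)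
      (lin c₀.natAbs c₁.natAbs c₂.natAbs) (absRows (r :: L)) 0 with hP
    have hph : p.IsHomogeneous d := by
      have := ev_homZ (linZ_hom a₀ a₁ a₂) (linZ_hom b₀ b₁ b₂) (linZ_hom c₀ c₁ c₂) L r 0 0
        (by simpa using isHomogeneous_zero _ _ 0) hsh
      rw [zero_add, hL] at this
      exact this
    have hsh' : shape 0 (absRows (r :: L)) = true := by rw [shape_abs]; exact hsh
    have hPh : P.IsHomogeneous d := by
      have := ev_hom (lin_hom a₀.natAbs a₁.natAbs a₂.natAbs) (lin_hom b₀.natAbs b₁.natAbs b₂.natAbs)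
        (lin_hom c₀.natAbs c₁.natAbs c₂.natAbs) (absRows L) (r.map Int.natAbs) 0 0
        (by simpa using isHomogeneous_zero _ _ 0) hsh'
      rw [zero_add, absRows, List.length_map, hL] at this
      exact this
    have hdom : Dom p P := dom_ev (dom_lin _ _ _) (dom_lin _ _ _) (dom_lin _ _ _) _ dom_zero
    have hPb : eval ![1, 1, 1] P < 2 ^ K := by
      rw [hP, map_ev, eval_lin, eval_lin, eval_lin, map_zero]
      simp only [Matrix.cons_val_zero, Matrix.cons_val_one, Matrix.cons_val, mul_one]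
      exact hb
    have hlin : ∀ (u v w : ℤ) (t : Fin 3 → ℤ), eval t (linZ u v w) = u * t 0 + v * t 1 + w * t 2 := by
      intro u v w t
      simp [linZ]
    obtain ⟨D, hD, hpos⟩ := coeff_pos hd hph hPh hdom hPb
    refine ⟨D, ?_, ?_⟩
    · rw [← hD, hp, map_evZ, hlin, hlin, hlin, map_zero]
      simp only [Matrix.cons_val_zero, Matrix.cons_val_one, Matrix.cons_val, mul_one]
      have e : ∀ u v w : ℤ, pk (2 ^ (K + 1)) ((2 ^ (K + 1)) ^ 9) u v w =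
          u + v * 2 ^ (K + 1) + w * (2 ^ (K + 1)) ^ 9 := by
        intro u v w
        show u + (v * ((2 ^ (K + 1) : ℕ) : ℤ) + w * (((2 ^ (K + 1)) ^ 9 : ℕ) : ℤ)) = _
        push_cast
        ring
      rw [e, e, e]
    · intro hland t ht ht0
      have hfin := eval_pos hph (hpos hland) ht ht0
      have h1 : eval₂ (Int.castRingHom ℝ) t p = evZ (a₀ * t 0 + a₁ * t 1 + a₂ * t 2 : ℝ)
          (b₀ * t 0 + b₁ * t 1 + b₂ * t 2) (c₀ * t 0 + c₁ * t 1 + c₂ * t 2) (r :: L) 0 := by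
        have := map_evZ (eval₂Hom (Int.castRingHom ℝ) t) (linZ a₀ a₁ a₂) (linZ b₀ b₁ b₂) (linZ c₀ c₁ c₂) (r :: L) 0
        simp only [coe_eval₂Hom, eval₂_linZ, map_zero] at this
        exact this
      rw [h1] at hfin
      exact hfin

/-- a digit size -/
structure Lvl where
  /-- the number of bits -/
  K : ℕ
  /-- `2^K` -/
  h : ℕ
  /-- `2^(K+1)` -/
  B : ℕ
  /-- `B^9` -/
  Y : ℕ
  /-- `∑ 2^K B^i B^(9j)` -/
  M : ℕ
  /-- `∑ (2^K - 1) B^i B^(9j)` -/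
  M1 : ℕ

/-- the numbers of a digit size are as they should be -/
def Lvl.Ok (d : ℕ) (l : Lvl) : Prop := l.h = 2 ^ l.K ∧ l.B = 2 ^ (l.K + 1) ∧ l.Y = (2 ^ (l.K + 1)) ^ 9 ∧
  l.M = mask l.K d (2 ^ l.K) ∧ l.M1 = mask l.K d (2 ^ l.K - 1)

/-- the test with one digit size -/
def tstL (d c : ℕ) (T : Bool → Bool → Bool → List (List ℕ)) (l : Lvl) (a₀ b₀ c₀ a₁ b₁ c₁ a₂ b₂ c₂ : ℤ) : Bool :=
  sgB (pk l.B l.Y a₀ a₁ a₂) fun sx x => sgB (pk l.B l.Y b₀ b₁ b₂) fun sy y =>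
    sgB (pk l.B l.Y c₀ c₁ c₂) fun sz z => tstF c d l.M l.M1 (T sx sy sz) x y z

/-- the test with the first digit size which is large enough -/
def tstLs (d c : ℕ) (T : Bool → Bool → Bool → List (List ℕ)) (bd : ℕ) (a₀ b₀ c₀ a₁ b₁ c₁ a₂ b₂ c₂ : ℤ)
    (ls : List Lvl) : Bool :=
  List.rec false (fun l _ ih => cond (Nat.blt bd l.h) (tstL d c T l a₀ b₀ c₀ a₁ b₁ c₁ a₂ b₂ c₂) ih) ls

theorem tstLs_mem {d c : ℕ} {T : Bool → Bool → Bool → List (List ℕ)} {bd : ℕ} {a₀ b₀ c₀ a₁ b₁ c₁ a₂ b₂ c₂ : ℤ} :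
    ∀ {ls : List Lvl}, tstLs d c T bd a₀ b₀ c₀ a₁ b₁ c₁ a₂ b₂ c₂ ls = true →
      ∃ l ∈ ls, bd < l.h ∧ tstL d c T l a₀ b₀ c₀ a₁ b₁ c₁ a₂ b₂ c₂ = true
  | [], h => absurd h Bool.false_ne_true
  | l :: ls, h => by
    change cond (Nat.blt bd l.h) (tstL d c T l a₀ b₀ c₀ a₁ b₁ c₁ a₂ b₂ c₂)
      (tstLs d c T bd a₀ b₀ c₀ a₁ b₁ c₁ a₂ b₂ c₂ ls) = true at h
    cases hb : Nat.blt bd l.h with
    | true =>
      rw [hb, cond_true] at h
      exact ⟨l, List.mem_cons_self, Nat.blt_eq.mp hb, h⟩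
    | false =>
      rw [hb, cond_false] at h
      obtain ⟨l', hl', h1, h2⟩ := tstLs_mem h
      exact ⟨l', List.mem_cons_of_mem _ hl', h1, h2⟩

/-- a form with tables -/
structure FormL where
  /-- degree -/
  d : ℕ
  /-- coefficients, highest power of `x` first, then highest power of `y` first -/
  rows : List (List ℤ)
  /-- the absolute values of the coefficients -/
  ar : List (List ℕ)
  /-- the multiple of `(x + y + z)^d` which is added in the tables -/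
  c : ℕ
  /-- the tables of natural numbers for all signs -/
  T : Bool → Bool → Bool → List (List ℕ)
  /-- the digit sizes -/
  ls : List Lvl

/-- the data of a form are as they should be -/
structure FormL.Ok (F : FormL) : Prop where
  deg : F.d ≤ 8
  len : F.rows.length = F.d + 1
  shape : shapeZ 0 F.rows = true
  ar_eq : F.ar = absRows F.rows
  rows_eq : F.rows = tab F.d (cf F.rows)
  T_eq : ∀ a b e, castRows (F.T a b e) = twist F.d F.c F.rows a b e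
  ls_ok : ∀ l ∈ F.ls, l.Ok F.d

/-- the test for one cone and one form -/
def posL (F : FormL) (a₀ b₀ c₀ a₁ b₁ c₁ a₂ b₂ c₂ : ℤ) : Bool :=
  seqB (abs3 a₀ a₁ a₂) fun x => seqB (abs3 b₀ b₁ b₂) fun y => seqB (abs3 c₀ c₁ c₂) fun z =>
    seqB (evN x y z F.ar 0) fun bd => tstLs F.d F.c F.T bd a₀ b₀ c₀ a₁ b₁ c₁ a₂ b₂ c₂ F.ls

theorem posL_pos {F : FormL} (hF : F.Ok) {a₀ b₀ c₀ a₁ b₁ c₁ a₂ b₂ c₂ : ℤ}
    (h : posL F a₀ b₀ c₀ a₁ b₁ c₁ a₂ b₂ c₂ = true) {t : Fin 3 → ℝ}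
    (ht : ∀ i, 0 ≤ t i) (ht0 : ∃ i, t i ≠ 0) :
    0 < evZ (a₀ * t 0 + a₁ * t 1 + a₂ * t 2 : ℝ) (b₀ * t 0 + b₁ * t 1 + b₂ * t 2)
      (c₀ * t 0 + c₁ * t 1 + c₂ * t 2) F.rows 0 := by
  simp only [posL, seqB_eq] at h
  obtain ⟨l, hl, hb, h⟩ := tstLs_mem h
  obtain ⟨h1, h2, h3, h4, h5⟩ := hF.ls_ok l hl
  rw [evN_eq, hF.ar_eq, h1] at hb
  obtain ⟨D, hD, hpos⟩ := cone_core hF.deg hF.len hF.shape hb
  refine hpos ?_ t ht ht0
  unfold tstL at h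
  obtain ⟨sx, x, hx, e1⟩ := sgB_eq (pk l.B l.Y a₀ a₁ a₂) fun sx x => sgB (pk l.B l.Y b₀ b₁ b₂) fun sy y =>
    sgB (pk l.B l.Y c₀ c₁ c₂) fun sz z => tstF F.c F.d l.M l.M1 (F.T sx sy sz) x y z
  obtain ⟨sy, y, hy, e2⟩ := sgB_eq (pk l.B l.Y b₀ b₁ b₂) fun sy y =>
    sgB (pk l.B l.Y c₀ c₁ c₂) fun sz z => tstF F.c F.d l.M l.M1 (F.T sx sy sz) x y z
  obtain ⟨sz, z, hz, e3⟩ := sgB_eq (pk l.B l.Y c₀ c₁ c₂) fun sz z => tstF F.c F.d l.M l.M1 (F.T sx sy sz) x y z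
  rw [e1, e2, e3] at h
  have h6 := Nat.eq_of_beq_eq_true h
  rw [evN_eq] at h6
  rw [← h3, ← h2, ← h5, hx, hy, hz, ev_twist hF.rows_eq (hF.T_eq sx sy sz)] at hD
  have h7 : D = ev x y z (F.T sx sy sz) 0 + l.M1 - F.c * ((x + y) + z) ^ F.d := by
    have h8 : (ev x y z (F.T sx sy sz) 0 + l.M1 : ℤ) = ((D + F.c * ((x + y) + z) ^ F.d : ℕ) : ℤ) := by
      push_cast
      rw [← hD]
      ring
    have h9 : ev x y z (F.T sx sy sz) 0 + l.M1 = D + F.c * ((x + y) + z) ^ F.d := by exact_mod_cast h8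
    rw [h9, Nat.add_sub_cancel]
  rw [h7, ← h4]
  exact h6

end Pool.Agent.Rohlin.Cone
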