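import Pool.Agent.Rohlin.Pair0
import Pool.Agent.Rohlin.ArcOK

/-!
# The configuration of a pairing of labelled roots; the generic arc
-/

set_option autoImplicit false

namespace Pool.Agent.Rohlin

open Polynomial Complex Set Matrix Filter Topology

variable {f : MvPolynomial (Fin 3) ℝ} {K0 K1 : Set RP2} {θ : ℝ} {e s : Fin 8 → ℂ}

theorem Lab.eval_re (hL : Lab f θ e s) {i : Fin 8} (hi : (e i).im = 0) :
    (gr f θ).eval (e i).re = 0 := by
  have h1 := hL.root i
  have h2 : e i = (((e i).re : ℝ) : ℂ) := Complex.ext rfl (by simpa using hi)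
  rw [h2, ← aeval_eq_eval_map, aeval_ofReal] at h1
  exact_mod_cast h1

theorem Lab.slc (nf : Normal f) (reg : Regions f K0 K1) (hL : Lab f θ e s) :
    Slc {x | pt θ x ∈ K0} {x | pt θ x ∈ interior K0} {x | pt θ x ∈ K1}
      {x | pt θ x ∈ interior K1} (gr f θ) := by
  have hc : Continuous (fun x : ℝ => pt θ x) :=
    continuous_pt.comp (continuous_const.prodMk continuous_id)
  refine ⟨reg.closed0.preimage hc, reg.closed1.preimage hc, isOpen_interior.preimage hc,
    isOpen_interior.preimage hc, fun x hx => interior_subset (s := K0) hx,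
    fun x hx => interior_subset (s := K1) hx, fun x hx => reg.sub hx, fun x hx => reg.pos θ x hx,
    fun x hx hx1 => reg.neg θ x hx hx1, fun x hx => reg.posi θ x hx,
    fun x hx hx1 => reg.zero θ x (Or.inl ⟨subset_closure hx, hx1⟩),
    fun x hx hx1 => reg.zero θ x (Or.inr ⟨subset_closure hx, hx1⟩),
    exists_bound reg.closed0 reg.centre θ, fun x hx hd => ?_⟩
  obtain ⟨i, hi⟩ := hL.surj_real nf hx
  have him : (e i).im = 0 := by rw [hi]; simp
  have h1 := hL.sq_real him
  have hre : (e i).re = x := by rw [hi]; simp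
  rw [hre, hd] at h1
  exact hL.s_ne_zero nf i (pow_eq_zero_iff two_ne_zero |>.1 (by simpa using h1))

theorem PairingG.ivs (hL : Lab f θ e s) {A B : Fin 4 → Fin 8} {kind : Fin 4 → Fin 3}
    {ζ : Fin 4 → ℂ} (P : PairingG K0 K1 θ e s A B kind ζ) :
    Ivs {x | pt θ x ∈ K0} {x | pt θ x ∈ K1} (gr f θ) (fun p => (e (A p)).re)
      (fun p => (e (B p)).re) kind := by
  have key : ∀ i j : Fin 8, (e i).im = 0 → (e j).im = 0 → (e i).re = (e j).re → i = j := by
    intro i j hi hj hij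
    exact hL.inj (Complex.ext hij (hi.trans hj.symm))
  refine ⟨fun p hp => ⟨hL.eval_re (P.real p hp).1, hL.eval_re (P.real p hp).2.1⟩,
    fun p hp => (P.real p hp).2.2, fun p q hp hq h => ?_, fun p q hp hq h => ?_,
    fun p q hp hq h => ?_, fun x => P.in0 x, fun x => P.in1 x⟩
  · have := @P.inj (Sum.inl p) (Sum.inl q) (key _ _ (P.real p hp).1 (P.real q hq).1 h)
    exact Sum.inl.inj this
  · have := @P.inj (Sum.inr p) (Sum.inr q) (key _ _ (P.real p hp).2.1 (P.real q hq).2.1 h)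
    exact Sum.inr.inj this
  · have := @P.inj (Sum.inl p) (Sum.inr q) (key _ _ (P.real p hp).1 (P.real q hq).2.1 h)
    exact absurd this (by simp)

/-- the labelled roots of a pairing are a configuration in the sense of `Transv` -/
theorem PairingG.conf (nf : Normal f) (reg : Regions f K0 K1) (hL : Lab f θ e s)
    {A B : Fin 4 → Fin 8} {kind : Fin 4 → Fin 3} {ζ : Fin 4 → ℂ}
    (P : PairingG K0 K1 θ e s A B kind ζ) :
    Conf (fun p => e (A p)) (fun p => e (B p)) kind where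
  real := P.real
  cpx := P.cpx
  inj := by
    have : Sum.elim (fun p => e (A p)) (fun p => e (B p)) = e ∘ Sum.elim A B := by
      funext i
      rcases i with i | i <;> rfl
    rw [this]
    exact hL.inj.comp P.inj
  disj := fun p q hpq hk h2 => (hL.slc nf reg).disj (P.ivs hL) hpq hk h2
  parent := fun p hp => (hL.slc nf reg).parent (P.ivs hL) hp

/-- **The generic arc**: pairing and state along an open interval of angles with continuous labels
and a continuous functional. -/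
theorem generic_arc {n : Type} [Fintype n] [DecidableEq n] (M : Majorana 8 n) (C : Matrix n n ℂ)
    (card : Fintype.card n = 2 ^ 4) (hCC : Cᴴ * C = 1) (hCT : Cᵀ = C)
    (hC : ∀ a, C * M.e a = (M.e a)ᵀ * C) (hopen : IsOpenMap (fun p : ℝ × ℝ => pt p.1 p.2))
    (nf : Normal f) (reg : Regions f K0 K1) {I : Set ℝ} {e s : ℝ → Fin 8 → ℂ} {l : ℝ → n → ℂ}
    (L : LabArc f I e s) (hI : IsPreconnected I) (hIo : IsOpen I) (hlc : ContinuousOn l I)
    (hl : ∀ θ ∈ I, C * M.R (vfam (e θ) (s θ)) = vecMulVec (l θ) (l θ)) {θ₁ θ₂ : ℝ}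
    (h₁ : θ₁ ∈ I) (h₂ : θ₂ ∈ I) {A B : Fin 4 → Fin 8} {kind : Fin 4 → Fin 3} {ζ : Fin 4 → ℂ}
    {ψ : n → ℂ} (hP : PairingG K0 K1 θ₁ (e θ₁) (s θ₁) A B kind ζ)
    (hS : StateG M (l θ₁) A B ζ ψ) :
    PairingG K0 K1 θ₂ (e θ₂) (s θ₂) A B kind ζ ∧ StateG M (l θ₂) A B ζ ψ := by
  have hPI : ∀ θ ∈ I, PairingG K0 K1 θ (e θ) (s θ) A B kind ζ := fun θ hθ =>
    L.pairing hopen nf reg hI hIo h₁ hθ hP
  exact ⟨hPI θ₂ h₂, StateG.arc M C card hCC hCT hC nf hI L.lab hlc hl hPI
    (fun θ hθ => (hPI θ hθ).conf nf reg (L.lab θ hθ)) h₁ h₂ hS⟩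

namespace Ctx

variable {n : Type} [Fintype n] [DecidableEq n] (X : Ctx n)

/-- **STATE** -/
theorem stateOK : X.StateOK := X.stateOK_of fun _ _ _ _ _ hθ h => h.conf hθ

/-- **ARC** -/
theorem arcOK (hopen : IsOpenMap (fun p : ℝ × ℝ => pt p.1 p.2)) : X.ArcOK :=
  X.arcOK_of hopen fun _ _ _ _ _ hθ h => h.conf hθ

end Ctx

end Pool.Agent.Rohlin
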