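import Pool.Agent.Rohlin.Cover

/-!
# The regular part of a smooth affine plane curve is connected

`F` is the family of the polynomials `f(x, ·)`; the curve `f = 0` is nonsingular, has finitely many
critical values and `m` different directions at infinity.  Then every locally constant colouring
of the regular part of the curve is constant.
-/

set_option autoImplicit false

namespace Pool.Agent.Rohlin

open Set Topology Polynomial Filter

variable {m : ℕ} (F : Family m)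

namespace Family

/-- the equation of the curve -/
noncomputable def g (p : ℂ × ℂ) : ℂ := (F.P p.1).eval p.2

/-- the analytic hypotheses on the curve -/
structure Smooth : Prop where
  cd : ContDiff ℂ 1 F.g
  ns : ∀ p, F.g p = 0 → fderiv ℂ F.g p ≠ 0
  fin : (F.reg)ᶜ.Finite
  inf : ∃ G : Family m, (G.P 0).Separable ∧
    ∀ t : ℂ, t ≠ 0 → ∀ v, (G.P t).eval v = t ^ m * (F.P t⁻¹).eval (t⁻¹ * v)

variable {F}

lemma isOpen_reg (h : (F.reg)ᶜ.Finite) : IsOpen F.reg := by
  simpa using h.isClosed.isOpen_compl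

lemma reg_preconnected (h : (F.reg)ᶜ.Finite) : IsPreconnected F.reg := by
  have h1 : 1 < Module.rank ℝ ℂ := by
    rw [Complex.rank_real_complex]
    norm_num
  have := (h.countable.isConnected_compl_of_one_lt_rank h1).isPreconnected
  simpa using this

lemma reg_nonempty (h : (F.reg)ᶜ.Finite) : F.reg.Nonempty := by
  have h1 : 1 < Module.rank ℝ ℂ := by
    rw [Complex.rank_real_complex]
    norm_num
  have := (h.countable.isConnected_compl_of_one_lt_rank h1).nonempty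
  simpa using this

/-- Cauchy's bound -/
lemma root_bound {x y : ℂ} (h : (F.P x).eval y = 0) :
    ‖y‖ ≤ 1 + ∑ j ∈ Finset.range m, ‖(F.P x).coeff j‖ := by
  have hm := F.pos_of_root h
  set S := ∑ j ∈ Finset.range m, ‖(F.P x).coeff j‖ with hS
  have hS0 : 0 ≤ S := Finset.sum_nonneg fun j _ => norm_nonneg _
  by_contra hcon
  push Not at hcon
  have hy : 1 < ‖y‖ := by linarith
  have h1 : y ^ m = -∑ j ∈ Finset.range m, (F.P x).coeff j * y ^ j := by
    have h2 := h
    rw [eval_eq_sum_range, F.deg, Finset.sum_range_succ] at h2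
    have h3 : (F.P x).coeff m = 1 := by
      have := (F.monic x).coeff_natDegree
      rwa [F.deg] at this
    rw [h3, one_mul] at h2
    linear_combination h2
  have h2 : ‖y‖ ^ m ≤ S * ‖y‖ ^ (m - 1) := by
    calc ‖y‖ ^ m = ‖y ^ m‖ := (norm_pow _ _).symm
      _ = ‖∑ j ∈ Finset.range m, (F.P x).coeff j * y ^ j‖ := by rw [h1, norm_neg]
      _ ≤ ∑ j ∈ Finset.range m, ‖(F.P x).coeff j * y ^ j‖ := norm_sum_le _ _
      _ ≤ ∑ j ∈ Finset.range m, ‖(F.P x).coeff j‖ * ‖y‖ ^ (m - 1) := by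
        refine Finset.sum_le_sum fun j hj => ?_
        rw [norm_mul, norm_pow]
        refine mul_le_mul_of_nonneg_left ?_ (norm_nonneg _)
        exact pow_le_pow_right₀ hy.le (by have := Finset.mem_range.1 hj; omega)
      _ = S * ‖y‖ ^ (m - 1) := by rw [← Finset.sum_mul]
  have h3 : ‖y‖ ^ m = ‖y‖ * ‖y‖ ^ (m - 1) := by
    rw [← pow_succ']
    congr 1
    omega
  rw [h3] at h2
  have h4 : 0 < ‖y‖ ^ (m - 1) := pow_pos (by linarith) _
  have h5 : ‖y‖ ≤ S := le_of_mul_le_mul_right h2 h4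
  linarith

/-- all roots of a nearby polynomial are near roots -/
lemma eventually_near (z : ℂ) {ρ : ℝ} (hρ : 0 < ρ) :
    ∀ᶠ x in 𝓝 z, ∀ y, (F.P x).eval y = 0 → ∃ y₀, (F.P z).eval y₀ = 0 ∧ ‖y₀ - y‖ < ρ := by
  -- bound of the roots
  have hb : Continuous fun x => 1 + ∑ j ∈ Finset.range m, ‖(F.P x).coeff j‖ := by
    refine continuous_const.add (continuous_finsetSum _ fun j _ => (F.cont j).norm)
  set M : ℝ := 2 + ∑ j ∈ Finset.range m, ‖(F.P z).coeff j‖ with hM
  have hM1 : 1 ≤ M := by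
    have : 0 ≤ ∑ j ∈ Finset.range m, ‖(F.P z).coeff j‖ := Finset.sum_nonneg fun j _ => norm_nonneg _
    linarith
  have e1 : ∀ᶠ x in 𝓝 z, 1 + ∑ j ∈ Finset.range m, ‖(F.P x).coeff j‖ < M :=
    hb.continuousAt.eventually (gt_mem_nhds (by rw [hM]; linarith))
  -- the difference
  have hd : Continuous fun x => (∑ j ∈ Finset.range m,
      ‖(F.P z).coeff j - (F.P x).coeff j‖) * M ^ m := by
    refine (continuous_finsetSum _ fun j _ => ?_).mul continuous_const
    exact (continuous_const.sub (F.cont j)).norm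
  have e2 : ∀ᶠ x in 𝓝 z, (∑ j ∈ Finset.range m,
      ‖(F.P z).coeff j - (F.P x).coeff j‖) * M ^ m < ρ ^ m := by
    refine hd.continuousAt.eventually (gt_mem_nhds ?_)
    simp only [sub_self, norm_zero, Finset.sum_const_zero, zero_mul]
    positivity
  filter_upwards [e1, e2] with x h1 h2 y hy
  refine F.exists_root_near hρ (lt_of_le_of_lt ?_ h2)
  have hyM : ‖y‖ ≤ M := (F.root_bound hy).trans h1.le
  have h3 : (F.P z).eval y = ∑ j ∈ Finset.range m,
      ((F.P z).coeff j - (F.P x).coeff j) * y ^ j := by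
    have h4 : (F.P z).eval y = (F.P z).eval y - (F.P x).eval y := by rw [hy, sub_zero]
    have c1 : (F.P z).coeff m = 1 := by
      have := (F.monic z).coeff_natDegree
      rwa [F.deg] at this
    have c2 : (F.P x).coeff m = 1 := by
      have := (F.monic x).coeff_natDegree
      rwa [F.deg] at this
    rw [h4, eval_eq_sum_range, eval_eq_sum_range, F.deg, F.deg, Finset.sum_range_succ,
      Finset.sum_range_succ, c1, c2]
    simp only [sub_mul, Finset.sum_sub_distrib]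
    ring
  rw [h3]
  calc ‖∑ j ∈ Finset.range m, ((F.P z).coeff j - (F.P x).coeff j) * y ^ j‖
      ≤ ∑ j ∈ Finset.range m, ‖((F.P z).coeff j - (F.P x).coeff j) * y ^ j‖ := norm_sum_le _ _
    _ ≤ ∑ j ∈ Finset.range m, ‖(F.P z).coeff j - (F.P x).coeff j‖ * M ^ m := by
        refine Finset.sum_le_sum fun j hj => ?_
        rw [norm_mul, norm_pow]
        refine mul_le_mul_of_nonneg_left ?_ (norm_nonneg _)
        refine (pow_le_pow_left₀ (norm_nonneg _) hyM j).trans ?_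
        exact pow_le_pow_right₀ hM1 (by have := Finset.mem_range.1 hj; omega)
    _ = _ := by rw [← Finset.sum_mul]

/-- labels near a regular value -/
lemma exists_local_labels (hF : F.Smooth) {x₀ : ℂ} (hx₀ : x₀ ∈ F.reg) :
    ∃ δ > 0, Metric.ball x₀ δ ⊆ F.reg ∧ ∃ y : Fin m → ℂ → ℂ,
      (∀ i, ContinuousOn (y i) (Metric.ball x₀ δ)) ∧
      (∀ x ∈ Metric.ball x₀ δ, ∀ i, (F.P x).eval (y i x) = 0) ∧
      ∀ x ∈ Metric.ball x₀ δ, Function.Injective fun i => y i x := by
  obtain ⟨δ, hδ, hb⟩ := Metric.isOpen_iff.1 (isOpen_reg hF.fin) x₀ hx₀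
  have h1 : ContractibleSpace (Metric.ball x₀ δ) := Metric.contractibleSpace_ball hδ
  have h2 : IsSimplyConnected (Metric.ball x₀ δ) := SimplyConnectedSpace.ofContractible _
  obtain ⟨y, h3⟩ := F.exists_labels Metric.isOpen_ball h2 hb
  exact ⟨δ, hδ, hb, y, h3⟩

lemma fderiv_snd (hF : F.Smooth) (x y : ℂ) :
    fderiv ℂ F.g (x, y) (0, 1) = (derivative (F.P x)).eval y := by
  have h1 : HasFDerivAt F.g (fderiv ℂ F.g (x, y)) (x, y) :=
    (hF.cd.differentiable (by norm_num) (x, y)).hasFDerivAt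
  have h2 : HasDerivAt (fun s : ℂ => ((x, s) : ℂ × ℂ)) (0, 1) y :=
    (hasDerivAt_const y x).prodMk (hasDerivAt_id y)
  have h3 := h1.comp_hasDerivAt y h2
  have h4 : HasDerivAt (F.g ∘ fun s : ℂ => ((x, s) : ℂ × ℂ)) ((derivative (F.P x)).eval y) y :=
    (F.P x).hasDerivAt y
  exact h3.unique h4

lemma isInvertible_of_ne {L : ℂ →L[ℂ] ℂ} (h : L 1 ≠ 0) : L.IsInvertible := by
  refine ⟨ContinuousLinearEquiv.unitsEquivAut ℂ (Units.mk0 (L 1) h), ?_⟩
  ext
  simp

lemma isPreconnected_punctured (z : ℂ) (δ : ℝ) : IsPreconnected (Metric.ball z δ \ {z}) := by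
  have h1 : 1 < Module.rank ℝ ℂ := by
    rw [Complex.rank_real_complex]
    norm_num
  have hs : IsPreconnected (Ioo (0 : ℝ) δ ×ˢ Metric.sphere (0 : ℂ) 1) :=
    isPreconnected_Ioo.prod (isPreconnected_sphere h1 0 1)
  have himg := hs.image (fun p : ℝ × ℂ => z + (p.1 : ℂ) * p.2)
    (Continuous.continuousOn (by fun_prop))
  convert himg using 1
  ext w
  simp only [Set.mem_sdiff, Metric.mem_ball, mem_singleton_iff, mem_image, mem_prod, mem_Ioo,
    Metric.mem_sphere, Prod.exists, dist_zero_right]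
  constructor
  · rintro ⟨hw, hne⟩
    have hpos : 0 < ‖w - z‖ := norm_pos_iff.2 (sub_ne_zero.2 hne)
    have hne' : (‖w - z‖ : ℂ) ≠ 0 := by exact_mod_cast hpos.ne'
    refine ⟨‖w - z‖, (w - z) / ‖w - z‖, ⟨⟨hpos, by rwa [← dist_eq_norm]⟩, ?_⟩, ?_⟩
    · rw [norm_div, Complex.norm_real, norm_norm, div_self hpos.ne']
    · field_simp
      ring
  · rintro ⟨r, u, ⟨⟨hr, hrδ⟩, hu⟩, rfl⟩
    have hn : ‖(r : ℂ) * u‖ = r := by
      rw [norm_mul, hu, Complex.norm_real, mul_one, Real.norm_of_nonneg hr.le]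
    refine ⟨by rw [dist_eq_norm, add_sub_cancel_left, hn]; exact hrδ, fun h => ?_⟩
    have h2 : (r : ℂ) * u = 0 := by linear_combination h
    rw [h2, norm_zero] at hn
    linarith

lemma const_of_locally {X Y : Type*} [TopologicalSpace X] [TopologicalSpace Y]
    [DiscreteTopology Y] {s : Set X} (hs : IsPreconnected s) {f : X → Y} (h : ∀ x ∈ s, ∀ᶠ y in 𝓝[s] x, f y = f x) {x y : X} (hx : x ∈ s) (hy : y ∈ s) :
    f x = f y := by
  refine hs.constant (f := f) (fun x hx => ?_) hx hy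
  show Tendsto f (𝓝[s] x) (𝓝 (f x))
  rw [nhds_discrete, tendsto_pure]
  exact h x hx

/-- colourings of the regular part of the curve -/
def LocConst (F : Family m) (K : ℂ × ℂ → Bool) : Prop :=
  ∀ p, F.g p = 0 → p.1 ∈ F.reg → ∀ᶠ q in 𝓝 p, F.g q = 0 → K q = K p

lemma strict (hF : F.Smooth) (p : ℂ × ℂ) : HasStrictFDerivAt F.g (fderiv ℂ F.g p) p :=
  hF.cd.contDiffAt.hasStrictFDerivAt (by norm_num)

/-- a label is differentiable -/
lemma label_differentiableAt (hF : F.Smooth) {x₀ : ℂ} {y : ℂ → ℂ} (hc : ContinuousAt y x₀)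
    (hr : ∀ᶠ x in 𝓝 x₀, (F.P x).eval (y x) = 0) (hx₀ : x₀ ∈ F.reg) :
    DifferentiableAt ℂ y x₀ := by
  have h0 : (F.P x₀).eval (y x₀) = 0 := hr.self_of_nhds
  have hsep : (derivative (F.P x₀)).eval (y x₀) ≠ 0 :=
    Separable.eval₂_derivative_ne_zero (RingHom.id ℂ) hx₀ (by simpa using! h0)
  have dfu := strict hF (x₀, y x₀)
  have hinv : ((fderiv ℂ F.g (x₀, y x₀)) ∘L .inr ℂ ℂ ℂ).IsInvertible := by
    apply isInvertible_of_ne
    simpa [fderiv_snd hF] using hsep
  have h1 := dfu.eventually_apply_eq_iff_implicitFunctionOfProdDomain hinv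
  have h2 := (dfu.hasStrictFDerivAt_implicitFunctionOfProdDomain hinv).differentiableAt
  have h3 : Tendsto (fun x => (x, y x)) (𝓝 x₀) (𝓝 (x₀, y x₀)) := by
    rw [nhds_prod_eq]
    exact tendsto_id.prodMk hc
  have h4 : y =ᶠ[𝓝 x₀] dfu.implicitFunctionOfProdDomain hinv := by
    filter_upwards [h3.eventually h1, hr] with x h1 h2
    have h5 : F.g (x, y x) = F.g (x₀, y x₀) := h2.trans h0.symm
    exact (h1.1 h5).symm
  exact h2.congr_of_eventuallyEq h4

/-- near every point of the curve there is one colour -/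
lemma exists_mono (hF : F.Smooth) {K : ℂ × ℂ → Bool} (hK : F.LocConst K) {p₀ : ℂ × ℂ}
    (h0 : F.g p₀ = 0) : ∃ c : Bool, ∀ᶠ p in 𝓝 p₀, F.g p = 0 → p.1 ∈ F.reg → K p = c := by
  by_cases hreg : p₀.1 ∈ F.reg
  · refine ⟨K p₀, ?_⟩
    filter_upwards [hK p₀ h0 hreg] with p hp h1 _
    exact hp h1
  have dfu := strict hF p₀
  set L := fderiv ℂ F.g p₀ with hL
  have hne := hF.ns p₀ h0
  -- the points over the critical values are isolated in the two coordinates
  have hZ : ∀ᶠ x in 𝓝 p₀.1, x ≠ p₀.1 → x ∈ F.reg := by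
    have h1 : ((F.reg)ᶜ \ {p₀.1}).Finite := hF.fin.subset sdiff_subset
    have h2 : ((F.reg)ᶜ \ {p₀.1})ᶜ ∈ 𝓝 p₀.1 := h1.isClosed.isOpen_compl.mem_nhds (by simp)
    filter_upwards [h2] with x hx hne
    by_contra hcon
    exact hx ⟨hcon, hne⟩
  by_cases hb : L (0, 1) ≠ 0
  · have hinv : (L ∘L .inr ℂ ℂ ℂ).IsInvertible := by
      apply isInvertible_of_ne
      simpa using hb
    have h1 := dfu.eventually_apply_eq_iff_implicitFunctionOfProdDomain hinv
    have h2 := dfu.eventually_apply_implicitFunctionOfProdDomain hinv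
    obtain ⟨C, s, hs, hlip⟩ :=
      (dfu.hasStrictFDerivAt_implicitFunctionOfProdDomain hinv).exists_lipschitzOnWith
    set ψ := dfu.implicitFunctionOfProdDomain hinv
    obtain ⟨δ, hδ, hball⟩ := Metric.mem_nhds_iff.1
      (inter_mem (inter_mem hs h2) hZ)
    have hbs : Metric.ball p₀.1 δ ⊆ s := fun x hx => (hball hx).1.1
    have hroot : ∀ x ∈ Metric.ball p₀.1 δ, F.g (x, ψ x) = 0 := fun x hx => by
      have : F.g (x, ψ x) = F.g p₀ := (hball hx).1.2
      rw [this, h0]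
    have hregb : ∀ x ∈ Metric.ball p₀.1 δ, x ≠ p₀.1 → x ∈ F.reg := fun x hx => (hball hx).2
    have hψ : ContinuousOn ψ (Metric.ball p₀.1 δ) := hlip.continuousOn.mono hbs
    have hloc : ∀ x ∈ Metric.ball p₀.1 δ \ {p₀.1},
        ∀ᶠ x' in 𝓝[Metric.ball p₀.1 δ \ {p₀.1}] x, K (x', ψ x') = K (x, ψ x) := by
      intro x hx
      have h3 := hK (x, ψ x) (hroot x hx.1) (hregb x hx.1 hx.2)
      have h4 : Tendsto (fun x' => (x', ψ x')) (𝓝[Metric.ball p₀.1 δ \ {p₀.1}] x)
          (𝓝 (x, ψ x)) := by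
        rw [nhds_prod_eq]
        refine Tendsto.prodMk (tendsto_id.mono_left nhdsWithin_le_nhds) ?_
        exact (hψ x hx.1).mono_left (nhdsWithin_mono _ sdiff_subset)
      filter_upwards [h4.eventually h3, self_mem_nhdsWithin] with x' h5 h6
      exact h5 (hroot x' h6.1)
    -- the colour
    have hne' : (Metric.ball p₀.1 δ \ {p₀.1}).Nonempty := by
      refine ⟨p₀.1 + (δ / 2 : ℝ), ?_, ?_⟩
      · rw [Metric.mem_ball, dist_eq_norm, add_sub_cancel_left, Complex.norm_real,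
          Real.norm_of_nonneg (by linarith)]
        linarith
      · intro h
        have h' : p₀.1 + ((δ / 2 : ℝ) : ℂ) = p₀.1 := h
        have h3 : ((δ / 2 : ℝ) : ℂ) = 0 := by linear_combination h'
        have : δ / 2 = 0 := by exact_mod_cast h3
        linarith
    obtain ⟨x₁, hx₁⟩ := hne'
    refine ⟨K (x₁, ψ x₁), ?_⟩
    have h3 : ∀ᶠ p : ℂ × ℂ in 𝓝 p₀, p.1 ∈ Metric.ball p₀.1 δ :=
      continuous_fst.continuousAt.eventually (Metric.ball_mem_nhds _ hδ)
    filter_upwards [h1, h3] with p h1 h3 h4 h5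
    have h6 : ψ p.1 = p.2 := h1.1 (by rw [h4, h0])
    have h7 : p.1 ∈ Metric.ball p₀.1 δ \ {p₀.1} := ⟨h3, fun h => hreg (by
      have : p.1 = p₀.1 := h
      rwa [this] at h5)⟩
    have h8 := const_of_locally (f := fun x => K (x, ψ x))
      (isPreconnected_punctured p₀.1 δ) hloc h7 hx₁
    have h9 : p = (p.1, ψ p.1) := by rw [h6]
    rw [h9]
    exact h8
  · push Not at hb
    have ha : L (1, 0) ≠ 0 := by
      intro ha
      apply hne
      rw [← hL]
      ext <;> simp [ha, hb]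
    -- swap the coordinates
    let sw : (ℂ × ℂ) ≃L[ℂ] (ℂ × ℂ) := ContinuousLinearEquiv.prodComm ℂ ℂ ℂ
    have dfs : HasStrictFDerivAt (fun q : ℂ × ℂ => F.g q.swap)
        (L ∘L (sw : (ℂ × ℂ) →L[ℂ] (ℂ × ℂ))) p₀.swap := by
      have h1 : HasStrictFDerivAt (fun q : ℂ × ℂ => sw q) (sw : (ℂ × ℂ) →L[ℂ] (ℂ × ℂ)) p₀.swap :=
        sw.hasStrictFDerivAt
      have h2 : HasStrictFDerivAt F.g L (sw p₀.swap) := by
        simpa [sw] using! dfu
      exact h2.comp p₀.swap h1
    have hinv : ((L ∘L (sw : (ℂ × ℂ) →L[ℂ] (ℂ × ℂ))) ∘L .inr ℂ ℂ ℂ).IsInvertible := by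
      apply isInvertible_of_ne
      simpa [sw] using ha
    have h1 := dfs.eventually_apply_eq_iff_implicitFunctionOfProdDomain hinv
    have h2 := dfs.eventually_apply_implicitFunctionOfProdDomain hinv
    obtain ⟨C, s, hs, hlip⟩ :=
      (dfs.hasStrictFDerivAt_implicitFunctionOfProdDomain hinv).exists_lipschitzOnWith
    have h10 := dfs.tendsto_implicitFunctionOfProdDomain hinv
    set ψ := dfs.implicitFunctionOfProdDomain hinv
    -- `x = ψ y`; the points with `ψ y ∉ reg`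
    have hval : ψ p₀.2 = p₀.1 := by
      have := h1.self_of_nhds
      simpa using this.1 rfl
    have hfinroots : {y : ℂ | (F.P p₀.1).eval y = 0}.Finite := by
      have : {y : ℂ | (F.P p₀.1).eval y = 0} ⊆ ((F.P p₀.1).roots.toFinset : Set ℂ) := by
        intro y hy
        rw [Finset.mem_coe, Multiset.mem_toFinset, mem_roots (F.ne_zero _)]
        exact hy
      exact (Finset.finite_toSet _).subset this
    have hiso : ∀ᶠ y in 𝓝 p₀.2, y ≠ p₀.2 → (F.P p₀.1).eval y ≠ 0 := by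
      have h3 : ({y : ℂ | (F.P p₀.1).eval y = 0} \ {p₀.2}).Finite := hfinroots.subset sdiff_subset
      have h4 : ({y : ℂ | (F.P p₀.1).eval y = 0} \ {p₀.2})ᶜ ∈ 𝓝 p₀.2 :=
        h3.isClosed.isOpen_compl.mem_nhds (by simp)
      filter_upwards [h4] with y hy hne h5
      exact hy ⟨h5, hne⟩
    have h10' : Tendsto ψ (𝓝 p₀.2) (𝓝 p₀.1) := h10
    have hZ' : ∀ᶠ y in 𝓝 p₀.2, ψ y ≠ p₀.1 → ψ y ∈ F.reg := h10'.eventually hZ
    obtain ⟨δ, hδ, hball⟩ := Metric.mem_nhds_iff.1
      (inter_mem (inter_mem (inter_mem hs h2) hZ') hiso)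
    have hbs : Metric.ball p₀.2 δ ⊆ s := fun x hx => (hball hx).1.1.1
    have hroot : ∀ y ∈ Metric.ball p₀.2 δ, F.g (ψ y, y) = 0 := fun x hx => by
      have : F.g (x, ψ x).swap = F.g p₀.swap.swap := (hball hx).1.1.2
      simpa [h0] using this
    have hregb : ∀ y ∈ Metric.ball p₀.2 δ, y ≠ p₀.2 → ψ y ∈ F.reg := by
      intro y hy hne
      refine (hball hy).1.2 fun h => ?_
      have h3 := hroot y hy
      rw [h] at h3
      exact (hball hy).2 hne h3
    have hψ : ContinuousOn ψ (Metric.ball p₀.2 δ) := hlip.continuousOn.mono hbs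
    have hloc : ∀ y ∈ Metric.ball p₀.2 δ \ {p₀.2},
        ∀ᶠ y' in 𝓝[Metric.ball p₀.2 δ \ {p₀.2}] y, K (ψ y', y') = K (ψ y, y) := by
      intro x hx
      have h3 := hK (ψ x, x) (hroot x hx.1) (hregb x hx.1 hx.2)
      have h4 : Tendsto (fun x' => (ψ x', x')) (𝓝[Metric.ball p₀.2 δ \ {p₀.2}] x)
          (𝓝 (ψ x, x)) := by
        rw [nhds_prod_eq]
        refine Tendsto.prodMk ?_ (tendsto_id.mono_left nhdsWithin_le_nhds)
        exact (hψ x hx.1).mono_left (nhdsWithin_mono _ sdiff_subset)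
      filter_upwards [h4.eventually h3, self_mem_nhdsWithin] with x' h5 h6
      exact h5 (hroot x' h6.1)
    have hne' : (Metric.ball p₀.2 δ \ {p₀.2}).Nonempty := by
      refine ⟨p₀.2 + (δ / 2 : ℝ), ?_, ?_⟩
      · rw [Metric.mem_ball, dist_eq_norm, add_sub_cancel_left, Complex.norm_real,
          Real.norm_of_nonneg (by linarith)]
        linarith
      · intro h
        have h' : p₀.2 + ((δ / 2 : ℝ) : ℂ) = p₀.2 := h
        have h3 : ((δ / 2 : ℝ) : ℂ) = 0 := by linear_combination h'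
        have : δ / 2 = 0 := by exact_mod_cast h3
        linarith
    obtain ⟨x₁, hx₁⟩ := hne'
    refine ⟨K (ψ x₁, x₁), ?_⟩
    have h3 : ∀ᶠ p : ℂ × ℂ in 𝓝 p₀, p.2 ∈ Metric.ball p₀.2 δ :=
      continuous_snd.continuousAt.eventually (Metric.ball_mem_nhds _ hδ)
    have h1' : ∀ᶠ p : ℂ × ℂ in 𝓝 p₀, F.g p = F.g p₀ ↔ ψ p.2 = p.1 := by
      have h4 : Tendsto (fun p : ℂ × ℂ => p.swap) (𝓝 p₀) (𝓝 p₀.swap) :=
        continuous_swap.continuousAt
      filter_upwards [h4.eventually h1] with p hp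
      simpa using hp
    filter_upwards [h1', h3] with p h1 h3 h4 h5
    have h6 : ψ p.2 = p.1 := h1.1 (by rw [h4, h0])
    have h7 : p.2 ∈ Metric.ball p₀.2 δ \ {p₀.2} := ⟨h3, fun h => hreg (by
      have h' : p.2 = p₀.2 := h
      rw [h', hval] at h6
      rwa [← h6] at h5)⟩
    have h8 := const_of_locally (f := fun y => K (ψ y, y))
      (isPreconnected_punctured p₀.2 δ) hloc h7 hx₁
    have h9 : p = (ψ p.2, p.2) := by rw [h6]
    rw [h9]
    exact h8

/-- the roots of a given colour -/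
noncomputable def ofCol (F : Family m) (K : ℂ × ℂ → Bool) (c : Bool) (x : ℂ) : Finset ℂ :=
  (F.P x).roots.toFinset.filter fun y => K (x, y) = c

lemma mem_ofCol {K : ℂ × ℂ → Bool} {c : Bool} {x y : ℂ} :
    y ∈ F.ofCol K c x ↔ (F.P x).eval y = 0 ∧ K (x, y) = c := by
  rw [ofCol, Finset.mem_filter, Multiset.mem_toFinset, mem_roots (F.ne_zero x), IsRoot.def]

/-- the product of the differences of roots of different colours -/
noncomputable def resu (F : Family m) (K : ℂ × ℂ → Bool) (x : ℂ) : ℂ :=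
  ∏ a ∈ F.ofCol K true x, ∏ b ∈ F.ofCol K false x, (a - b)

lemma resu_ne_zero (K : ℂ × ℂ → Bool) (x : ℂ) : F.resu K x ≠ 0 := by
  refine Finset.prod_ne_zero_iff.2 fun a ha => Finset.prod_ne_zero_iff.2 fun b hb => ?_
  rw [mem_ofCol] at ha hb
  intro h
  have : a = b := sub_eq_zero.1 h
  rw [this, hb.2] at ha
  simpa using ha.2

lemma colours_local (hF : F.Smooth) {K : ℂ × ℂ → Bool} (hK : F.LocConst K) {x₀ : ℂ}
    (hx₀ : x₀ ∈ F.reg) : ∃ (y : Fin m → ℂ → ℂ) (κ : Fin m → Bool),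
      (∀ i, DifferentiableAt ℂ (y i) x₀) ∧ ∀ᶠ x in 𝓝 x₀, (Function.Injective fun i => y i x) ∧
        ∀ c, F.ofCol K c x = (Finset.univ.filter fun i => κ i = c).image fun i => y i x := by
  obtain ⟨δ, hδ, hb, y, hc, hr, hinj⟩ := exists_local_labels hF hx₀
  have hx₀b : x₀ ∈ Metric.ball x₀ δ := Metric.mem_ball_self hδ
  have hnb : Metric.ball x₀ δ ∈ 𝓝 x₀ := Metric.ball_mem_nhds _ hδ
  have hca : ∀ i, ContinuousAt (y i) x₀ := fun i => (hc i).continuousAt hnb
  refine ⟨y, fun i => K (x₀, y i x₀), fun i => ?_, ?_⟩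
  · refine label_differentiableAt hF (hca i) ?_ hx₀
    filter_upwards [hnb] with x hx
    exact hr x hx i
  · have h1 : ∀ᶠ x in 𝓝 x₀, ∀ i, K (x, y i x) = K (x₀, y i x₀) := by
      refine eventually_all.2 fun i => ?_
      have h2 : Tendsto (fun x => (x, y i x)) (𝓝 x₀) (𝓝 (x₀, y i x₀)) := by
        rw [nhds_prod_eq]
        exact tendsto_id.prodMk (hca i)
      filter_upwards [h2.eventually (hK (x₀, y i x₀) (hr x₀ hx₀b i) hx₀), hnb] with x h3 h4
      exact h3 (hr x h4 i)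
    filter_upwards [h1, hnb] with x h1 h2
    refine ⟨hinj x h2, fun c => ?_⟩
    ext w
    rw [mem_ofCol, Finset.mem_image]
    constructor
    · rintro ⟨hw, hwc⟩
      obtain ⟨i, hi⟩ := F.eq_of_injective (hinj x h2) (hr x h2) hw
      refine ⟨i, ?_, hi⟩
      rw [Finset.mem_filter]
      refine ⟨Finset.mem_univ _, ?_⟩
      rw [← h1 i]
      have hi' : y i x = w := hi
      rw [hi']
      exact hwc
    · rintro ⟨i, hi, rfl⟩
      rw [Finset.mem_filter] at hi
      refine ⟨hr x h2 i, ?_⟩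
      rw [h1 i]
      exact hi.2

lemma resu_differentiableAt (hF : F.Smooth) {K : ℂ × ℂ → Bool} (hK : F.LocConst K) {x₀ : ℂ}
    (hx₀ : x₀ ∈ F.reg) : DifferentiableAt ℂ (F.resu K) x₀ := by
  obtain ⟨y, κ, hd, he⟩ := colours_local hF hK hx₀
  have h1 : F.resu K =ᶠ[𝓝 x₀] fun x => ∏ i ∈ Finset.univ.filter (fun i => κ i = true),
      ∏ j ∈ Finset.univ.filter (fun i => κ i = false), (y i x - y j x) := by
    filter_upwards [he] with x hx
    rw [resu, hx.2, hx.2, Finset.prod_image fun a _ b _ h => hx.1 h]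
    refine Finset.prod_congr rfl fun i _ => ?_
    rw [Finset.prod_image fun a _ b _ h => hx.1 h]
  refine DifferentiableAt.congr_of_eventuallyEq ?_ h1
  refine DifferentiableAt.fun_finsetProd fun i _ => ?_
  exact DifferentiableAt.fun_finsetProd fun j _ => (hd i).sub (hd j)

lemma card_ofCol (hF : F.Smooth) {K : ℂ × ℂ → Bool} (hK : F.LocConst K) {x x' : ℂ}
    (hx : x ∈ F.reg) (hx' : x' ∈ F.reg) (c : Bool) :
    (F.ofCol K c x).card = (F.ofCol K c x').card := by
  refine const_of_locally (f := fun x => (F.ofCol K c x).card) (reg_preconnected hF.fin)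
    (fun x₀ hx₀ => ?_) hx hx'
  obtain ⟨y, κ, -, he⟩ := colours_local hF hK hx₀
  refine eventually_nhdsWithin_of_eventually_nhds ?_
  have h0 := he.self_of_nhds
  filter_upwards [he] with x hx
  rw [hx.2, h0.2, Finset.card_image_of_injective _ hx.1, Finset.card_image_of_injective _ h0.1]

/-- a lower bound of the products of differences -/
lemma resu_lower (K : ℂ × ℂ → Bool) {x : ℂ} {δ : ℝ} (hδ0 : 0 < δ) (hδ1 : δ ≤ 1)
    (h : ∀ a ∈ F.ofCol K true x, ∀ b ∈ F.ofCol K false x, δ ≤ ‖a - b‖) :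
    δ ^ (m * m) ≤ ‖F.resu K x‖ := by
  have hcard : ∀ c, (F.ofCol K c x).card ≤ m := fun c =>
    (Finset.card_filter_le _ _).trans ((Multiset.toFinset_card_le _).trans
      ((card_roots' _).trans (F.deg x).le))
  rw [resu, norm_prod]
  calc δ ^ (m * m) ≤ ∏ a ∈ F.ofCol K true x, ∏ b ∈ F.ofCol K false x, δ := by
        rw [Finset.prod_const, Finset.prod_const, ← pow_mul]
        exact pow_le_pow_of_le_one hδ0.le hδ1 (Nat.mul_le_mul (hcard _) (hcard _))
    _ ≤ _ := by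
        refine Finset.prod_le_prod (fun a _ => Finset.prod_nonneg fun b _ => hδ0.le) fun a ha => ?_
        rw [norm_prod]
        exact Finset.prod_le_prod (fun b _ => hδ0.le) fun b hb => h a ha b hb

/-- differences of roots of different colours are bounded below near every point -/
lemma separated_near (hF : F.Smooth) {K : ℂ × ℂ → Bool} (hK : F.LocConst K) (z : ℂ) :
    ∃ δ : ℝ, 0 < δ ∧ ∀ᶠ x in 𝓝 z, x ∈ F.reg → ∀ a ∈ F.ofCol K true x,
      ∀ b ∈ F.ofCol K false x, δ ≤ ‖a - b‖ := by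
  have h1 : ∀ y₀ ∈ (F.P z).roots.toFinset, ∀ᶠ ρ : ℝ in 𝓝[>] 0, ∃ c : Bool, ∀ x y,
      dist x z < ρ → dist y y₀ < ρ → (F.P x).eval y = 0 → x ∈ F.reg → K (x, y) = c := by
    intro y₀ hy₀
    rw [Multiset.mem_toFinset, mem_roots (F.ne_zero z)] at hy₀
    obtain ⟨c, hc⟩ := exists_mono hF hK (p₀ := (z, y₀)) hy₀
    obtain ⟨ε, hε, he⟩ := Metric.eventually_nhds_iff.1 hc
    filter_upwards [Ioo_mem_nhdsGT hε] with ρ hρ
    refine ⟨c, fun x y hx hy h3 h4 => he (y := (x, y)) ?_ h3 h4⟩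
    rw [Prod.dist_eq]
    exact max_lt (hx.trans hρ.2) (hy.trans hρ.2)
  obtain ⟨ρ, hρ, hρ0⟩ := (((Finset.eventually_all _).2 h1).and self_mem_nhdsWithin).exists
  have hρ0' : 0 < ρ := hρ0
  refine ⟨ρ / 2, by positivity, ?_⟩
  filter_upwards [eventually_near z (half_pos hρ0'), Metric.ball_mem_nhds z hρ0'] with x h2 h3
    h4 a ha b hb
  rw [mem_ofCol] at ha hb
  by_contra hcon
  push Not at hcon
  obtain ⟨y₀, hy₀, hd⟩ := h2 a ha.1
  obtain ⟨c, hc⟩ := hρ y₀ (by
    rw [Multiset.mem_toFinset, mem_roots (F.ne_zero z)]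
    exact hy₀)
  have e1 : dist a y₀ < ρ := by
    rw [dist_comm, dist_eq_norm]
    linarith
  have e2 : dist b y₀ < ρ := by
    calc dist b y₀ ≤ dist b a + dist a y₀ := dist_triangle _ _ _
      _ < ρ / 2 + ρ / 2 := by
        refine add_lt_add ?_ ?_
        · rw [dist_comm, dist_eq_norm]
          exact hcon
        · rw [dist_comm, dist_eq_norm]
          exact hd
      _ = ρ := by ring
  have k1 := hc x a h3 e1 ha.1 h4
  have k2 := hc x b h3 e2 hb.1 h4
  rw [ha.2] at k1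
  rw [hb.2, ← k1] at k2
  simp at k2

/-- at infinity the roots are far from each other -/
lemma separated_infinity (hF : F.Smooth) : ∃ c : ℝ, 0 < c ∧ ∀ᶠ x in cocompact ℂ,
    ∀ a b, (F.P x).eval a = 0 → (F.P x).eval b = 0 → a ≠ b → c * ‖x‖ ≤ ‖a - b‖ := by
  obtain ⟨G, hG0, hG⟩ := hF.inf
  obtain ⟨η, hinj, hη⟩ := G.exists_enum (x := 0) hG0
  obtain ⟨δ, U, hδ, hUo, h0U, hsep, hex⟩ := G.exists_nbhd hinj fun i => (hη _).2 ⟨i, rfl⟩
  refine ⟨δ, hδ, ?_⟩
  have hinv : Tendsto (fun x : ℂ => x⁻¹) (cocompact ℂ) (𝓝 0) := by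
    rw [← Metric.cobounded_eq_cocompact]
    exact tendsto_inv₀_cobounded
  have hne : ∀ᶠ x in cocompact ℂ, x ≠ (0 : ℂ) := by
    have : ({0} : Set ℂ)ᶜ ∈ cocompact ℂ := isCompact_singleton.compl_mem_cocompact
    filter_upwards [this] with x hx
    exact hx
  filter_upwards [hinv.eventually (eventually_near (F := G) 0 (half_pos hδ)),
    hinv.eventually (hUo.mem_nhds h0U), hne] with x h1 h2 h3 a b ha hb hab
  have hroot : ∀ a, (F.P x).eval a = 0 → (G.P x⁻¹).eval (x⁻¹ * a) = 0 := by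
    intro a ha
    rw [hG x⁻¹ (inv_ne_zero h3), inv_inv, ← mul_assoc, mul_inv_cancel₀ h3, one_mul, ha, mul_zero]
  obtain ⟨v, hv, hva⟩ := h1 _ (hroot a ha)
  obtain ⟨w, hw, hwb⟩ := h1 _ (hroot b hb)
  obtain ⟨i, rfl⟩ := (hη v).1 hv
  obtain ⟨j, rfl⟩ := (hη w).1 hw
  have hij : i ≠ j := by
    rintro rfl
    have e1 : ‖x⁻¹ * a - η i‖ < δ := by
      rw [norm_sub_rev]
      linarith
    have e2 : ‖x⁻¹ * b - η i‖ < δ := by
      rw [norm_sub_rev]
      linarith
    have e3 := (G.unique_near hsep (hex x⁻¹ h2)).1 i _ _ (hroot a ha) e1 (hroot b hb) e2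
    exact hab (mul_left_cancel₀ (inv_ne_zero h3) e3)
  have e4 : 2 * δ ≤ ‖x⁻¹ * a - x⁻¹ * b‖ + δ := by
    calc 2 * δ ≤ ‖η i - η j‖ := hsep i j hij
      _ = ‖(η i - x⁻¹ * a) + (x⁻¹ * a - x⁻¹ * b) - (η j - x⁻¹ * b)‖ := by congr 1; ring
      _ ≤ ‖(η i - x⁻¹ * a) + (x⁻¹ * a - x⁻¹ * b)‖ + ‖η j - x⁻¹ * b‖ := norm_sub_le _ _
      _ ≤ ‖η i - x⁻¹ * a‖ + ‖x⁻¹ * a - x⁻¹ * b‖ + ‖η j - x⁻¹ * b‖ := by
        gcongr
        exact norm_add_le _ _
      _ ≤ _ := by linarith
  have e5 : ‖a - b‖ = ‖x‖ * ‖x⁻¹ * a - x⁻¹ * b‖ := by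
    rw [← norm_mul]
    congr 1
    field_simp
  rw [e5, mul_comm]
  exact mul_le_mul_of_nonneg_left (by linarith) (norm_nonneg _)

/-- **Connectedness**: a locally constant colouring of the regular part is constant. -/
theorem colour_const (hF : F.Smooth) {K : ℂ × ℂ → Bool} (hK : F.LocConst K) {p q : ℂ × ℂ}
    (hp : F.g p = 0) (hpr : p.1 ∈ F.reg) (hq : F.g q = 0) (hqr : q.1 ∈ F.reg) : K p = K q := by
  -- both colours occur over every regular value, or only one
  by_contra hcon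
  have hex : ∀ c, ∃ r : ℂ × ℂ, F.g r = 0 ∧ r.1 ∈ F.reg ∧ K r = c := by
    intro c
    by_cases h : K p = c
    · exact ⟨p, hp, hpr, h⟩
    · refine ⟨q, hq, hqr, ?_⟩
      revert h hcon
      generalize K p = u
      generalize K q = v
      revert u v c
      decide
  have hcard : ∀ c, ∀ x ∈ F.reg, 0 < (F.ofCol K c x).card := by
    intro c x hx
    obtain ⟨r, hr, hrr, hrc⟩ := hex c
    rw [card_ofCol hF hK hx hrr c]
    exact Finset.card_pos.2 ⟨r.2, mem_ofCol.2 ⟨hr, hrc⟩⟩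
  -- the inverse of the resultant
  set h : ℂ → ℂ := fun x => (F.resu K x)⁻¹ with hh
  have hdiff : ∀ x ∈ F.reg, DifferentiableAt ℂ h x := fun x hx =>
    (resu_differentiableAt hF hK hx).inv (resu_ne_zero K x)
  classical
  let e : ℂ → ℂ := fun x => if x ∈ F.reg then h x else limUnder (𝓝[≠] x) h
  have hZ : ∀ z, ∀ᶠ x in 𝓝 z, x ≠ z → x ∈ F.reg := by
    intro z
    have h1 : ((F.reg)ᶜ \ {z}).Finite := hF.fin.subset sdiff_subset
    have h2 : ((F.reg)ᶜ \ {z})ᶜ ∈ 𝓝 z := h1.isClosed.isOpen_compl.mem_nhds (by simp)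
    filter_upwards [h2] with x hx hne
    by_contra hcon
    exact hx ⟨hcon, hne⟩
  have he : Differentiable ℂ e := by
    intro z
    by_cases hz : z ∈ F.reg
    · refine (hdiff z hz).congr_of_eventuallyEq ?_
      filter_upwards [(isOpen_reg hF.fin).mem_nhds hz] with x hx
      exact if_pos hx
    · obtain ⟨δ, hδ, hsep⟩ := separated_near hF hK z
      obtain ⟨ρ, hρ, hball⟩ := Metric.mem_nhds_iff.1 (inter_mem hsep (hZ z))
      have hs : Metric.ball z ρ ∈ 𝓝 z := Metric.ball_mem_nhds _ hρ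
      have hreg : ∀ x ∈ Metric.ball z ρ \ {z}, x ∈ F.reg := fun x hx =>
        (hball hx.1).2 hx.2
      have h1 : DifferentiableOn ℂ h (Metric.ball z ρ \ {z}) := fun x hx =>
        (hdiff x (hreg x hx)).differentiableWithinAt
      have h2 : BddAbove (norm ∘ h '' (Metric.ball z ρ \ {z})) := by
        refine ⟨((min δ 1) ^ (m * m))⁻¹, ?_⟩
        rintro _ ⟨x, hx, rfl⟩
        have h3 : ∀ a ∈ F.ofCol K true x, ∀ b ∈ F.ofCol K false x, min δ 1 ≤ ‖a - b‖ :=
          fun a ha b hb => (min_le_left _ _).trans ((hball hx.1).1 (hreg x hx) a ha b hb)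
        have h4 := resu_lower K (lt_min hδ one_pos) (min_le_right _ _) h3
        have h5 : 0 < (min δ 1) ^ (m * m) := pow_pos (lt_min hδ one_pos) _
        show ‖(F.resu K x)⁻¹‖ ≤ _
        rw [norm_inv]
        exact inv_anti₀ h5 h4
      have h3 := Complex.differentiableOn_update_limUnder_of_bddAbove hs h1 h2
      have h4 : Function.update h z (limUnder (𝓝[≠] z) h) =ᶠ[𝓝 z] e := by
        filter_upwards [hs] with x hx
        by_cases hxz : x = z
        · subst hxz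
          rw [Function.update_self]
          exact (if_neg hz).symm
        · rw [Function.update_of_ne hxz]
          exact (if_pos (hreg x ⟨hx, hxz⟩)).symm
      exact (h3.differentiableAt hs).congr_of_eventuallyEq h4.symm
  -- it tends to zero
  have hlim : Tendsto e (cocompact ℂ) (𝓝 0) := by
    obtain ⟨c, hc, hsep⟩ := separated_infinity hF
    have hnorm : Tendsto (fun x : ℂ => ‖x‖) (cocompact ℂ) atTop := tendsto_norm_cocompact_atTop
    have hinv : Tendsto (fun x : ℂ => (c * ‖x‖)⁻¹) (cocompact ℂ) (𝓝 0) :=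
      (hnorm.const_mul_atTop hc).inv_tendsto_atTop
    refine squeeze_zero_norm' ?_ hinv
    have hreg : ∀ᶠ x in cocompact ℂ, x ∈ F.reg := by
      have : F.reg ∈ cocompact ℂ := by
        have := hF.fin.isCompact.compl_mem_cocompact
        simpa using this
      exact this
    filter_upwards [hsep, hreg, (hnorm.const_mul_atTop hc).eventually_ge_atTop 1] with x h1 h2 h3
    have h4 : e x = (F.resu K x)⁻¹ := if_pos h2
    rw [h4, norm_inv]
    have h5 : 0 < c * ‖x‖ := by linarith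
    refine inv_anti₀ h5 ?_
    rw [resu, norm_prod]
    obtain ⟨a₀, ha₀⟩ := Finset.card_pos.1 (hcard true x h2)
    obtain ⟨b₀, hb₀⟩ := Finset.card_pos.1 (hcard false x h2)
    have h6 : ∀ a ∈ F.ofCol K true x, ∀ b ∈ F.ofCol K false x, c * ‖x‖ ≤ ‖a - b‖ := by
      intro a ha b hb
      rw [mem_ofCol] at ha hb
      refine h1 a b ha.1 hb.1 ?_
      rintro rfl
      rw [hb.2] at ha
      simpa using ha.2
    have h7 : ∀ a ∈ F.ofCol K true x, c * ‖x‖ ≤ ‖∏ b ∈ F.ofCol K false x, (a - b)‖ := by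
      intro a ha
      rw [norm_prod]
      calc c * ‖x‖ ≤ (c * ‖x‖) ^ (F.ofCol K false x).card :=
            le_self_pow₀ h3 (Finset.card_pos.2 ⟨b₀, hb₀⟩).ne'
        _ = ∏ b ∈ F.ofCol K false x, (c * ‖x‖) := by rw [Finset.prod_const]
        _ ≤ _ := Finset.prod_le_prod (fun b _ => h5.le) fun b hb => h6 a ha b hb
    calc c * ‖x‖ ≤ (c * ‖x‖) ^ (F.ofCol K true x).card :=
          le_self_pow₀ h3 (Finset.card_pos.2 ⟨a₀, ha₀⟩).ne'
      _ = ∏ a ∈ F.ofCol K true x, (c * ‖x‖) := by rw [Finset.prod_const]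
      _ ≤ _ := Finset.prod_le_prod (fun a _ => h5.le) fun a ha => h7 a ha
  have h0 := he.apply_eq_of_tendsto_cocompact p.1 hlim
  have h1 : e p.1 = (F.resu K p.1)⁻¹ := if_pos hpr
  rw [h1] at h0
  exact inv_ne_zero (resu_ne_zero K p.1) h0

end Family

end Pool.Agent.Rohlin
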