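import Pool.Agent.Rohlin.Setup
import Pool.Agent.Rohlin.Assembly

/-!
# The statements which the core of the proof consumes
-/

set_option autoImplicit false

namespace Pool.Agent.Rohlin

open Polynomial Complex Set Matrix Filter Topology

/-- the complex points which are not real -/
def cpl (f : MvPolynomial (Fin 3) ℝ) : Set CP2 :=
  {p | MvPolynomial.aeval p.rep f = 0} \ realPoints

namespace Ctx

variable {n : Type} [Fintype n] [DecidableEq n] (X : Ctx n)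

/-- regular angles -/
def Reg (θ : ℝ) : Prop := circ θ ∈ Star X.c X.Z

/-- the labels `a`, `b` collide at `z` -/
def Coll (z : ℂ) (a b : Fin 8) : Prop :=
  a ≠ b ∧ ∃ L : ℂ, Tendsto (X.y a) (𝓝[X.D] z) (𝓝 L) ∧ Tendsto (X.y b) (𝓝[X.D] z) (𝓝 L)

/-- the roots `a`, `b` of `gr f θ` are complex conjugate and not real -/
def ConjEdge (θ : ℝ) (a b : Fin 8) : Prop :=
  (X.eta θ a).im ≠ 0 ∧ X.eta θ b = (starRingEnd ℂ) (X.eta θ a)

/-- a pairing together with its state -/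
structure Full (θ : ℝ) (A B : Fin 4 → Fin 8) (kind : Fin 4 → Fin 3) (ζ : Fin 4 → ℂ)
    (ψ : n → ℂ) : Prop where
  pair : X.Pairing θ A B kind ζ
  state : X.IsState θ A B ζ ψ

/-- PAIR: there is a pairing at every regular angle -/
def PairOK : Prop := ∀ θ : ℝ, X.Reg θ → ∃ A B kind ζ, X.Pairing θ A B kind ζ

/-- STATE: a pairing has a state -/
def StateOK : Prop := ∀ (θ : ℝ) A B kind ζ, X.Reg θ → X.Pairing θ A B kind ζ →
  ∃ ψ, X.IsState θ A B ζ ψ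

/-- ARC: nothing happens between two angles if all angles in between are regular (`θ₂ < θ₁` is
allowed) -/
def ArcOK : Prop := ∀ θ₁ θ₂ : ℝ, (∀ θ ∈ uIcc θ₁ θ₂, X.Reg θ) → ∀ A B kind ζ ψ,
  X.Full θ₁ A B kind ζ ψ → X.Full θ₂ A B kind ζ ψ

/-- closing: the pairing at `0` gives one at `π` with the same projector -/
def CloseOK : Prop := ∀ A B kind ζ, X.Pairing 0 A B kind ζ →
  ∃ A' B' ζ', X.Pairing Real.pi A' B' kind ζ' ∧ X.proj A' B' ζ' = X.proj A B ζ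

/-- CROSS: at a slit end the labels are exchanged -/
def CrossOK : Prop := ∀ z ∈ X.Z, ‖z‖ < 1 → ∀ θ t : ℝ, 0 < t → circ θ = z + t * (z - X.c) →
  ∃ (a b : Fin 8) (τ : ℂ), (τ = 1 ∨ τ = -1) ∧ X.Coll z a b ∧
    (∀ a' b', X.Coll z a' b' → (a' = a ∧ b' = b) ∨ (a' = b ∧ b' = a)) ∧
    ∃ ε : ℝ, 0 < ε ∧ ∀ θ₁ θ₂ : ℝ, θ - ε < θ₁ → θ₁ < θ → θ < θ₂ → θ₂ < θ + ε →
      ∀ A B kind ζ ψ, X.Full θ₁ A B kind ζ ψ →
        ∃ ζ', X.Full θ₂ (fun p => Equiv.swap a b (A p)) (fun p => Equiv.swap a b (B p)) kind ζ'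
          (Bfac X.M a b τ *ᵥ ψ)

/-- `η` is a double root of `gr f θ` -/
def Dbl (θ η : ℝ) : Prop :=
  (gr X.f θ).eval η = 0 ∧ (derivative (gr X.f θ)).eval η = 0

/-- the sign of the second derivative at the double root (`1` for type O, `-1` for a gap) -/
noncomputable def esg (θ η : ℝ) : ℤ :=
  SignType.sign ((derivative (derivative (gr X.f θ))).eval η)

open Classical in
/-- `1` if the double root is on an outer oval, `-1` if it is on an inner one -/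
noncomputable def edep (θ η : ℝ) : ℤ := if pt θ η ∈ X.K1 then -1 else 1

/-- `0` if the event is convex, `1` if it is concave -/
noncomputable def enc (θ η : ℝ) : ℕ := if X.esg θ η = X.edep θ η then 0 else 1

/-- EVENT -/
def EventOK : Prop := ∀ θ η : ℝ, circ θ ∈ X.Z → X.Dbl θ η →
  ∃ ε : ℝ, 0 < ε ∧ ∀ θ₁ θ₂ : ℝ, θ - ε < θ₁ → θ₁ < θ → θ < θ₂ → θ₂ < θ + ε →
    ∀ A B kind ζ ψ, X.Full θ₁ A B kind ζ ψ → ∃ A' B' kind' ζ' ψ', X.Full θ₂ A' B' kind' ζ' ψ' ∧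
      star ψ' ⬝ᵥ ψ = exp (I * Real.pi * X.esg θ η / 8) *
        (((Real.sqrt 2 : ℝ) : ℂ)⁻¹) ^ X.enc θ η ∧
      ∃ L : List (Edge 8), L.length = 2 * X.enc θ η ∧
        (∀ x ∈ L, x.1 ≠ x.2.1 ∧ (x.2.2 = 1 ∨ x.2.2 = -1)) ∧
        X.proj A' B' ζ' * X.proj A B ζ = (L.map (pf X.M)).prod * X.proj A B ζ ∧
        ∀ p, (∃ q, (A' p = A q ∧ B' p = B q) ∨ (A' p = B q ∧ B' p = A q)) ∨
          ∃ x ∈ L, (x.1 = A' p ∧ x.2.1 = B' p) ∨ (x.1 = B' p ∧ x.2.1 = A' p)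

/-- OVALCOUNT -/
def CountOK : Prop := ∀ E : Finset (ℝ × ℝ),
  (∀ e : ℝ × ℝ, e ∈ E ↔ 0 < e.1 ∧ e.1 < Real.pi ∧ X.Dbl e.1 e.2) →
    ∑ e ∈ E, X.esg e.1 e.2 = 24 ∧ ∑ e ∈ E, X.esg e.1 e.2 * X.edep e.1 e.2 = 40

/-- DISC -/
def DiscOK : Prop :=
  2 * (X.Z.filter fun z => ‖z‖ < 1).card + (X.Z.filter fun z => ‖z‖ = 1).card ≤ 56

/-- TYPE2 -/
def TypeTwoOK : Prop := ∀ c : Fin 8 → ZMod 2,
  (∀ z ∈ X.Z, ‖z‖ < 1 → ∀ a b, X.Coll z a b → c a = c b) →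
    ((∀ θ ∈ Icc 0 Real.pi, X.Reg θ → ∀ a b, X.ConjEdge θ a b → c a = c b) →
      ∀ a b, c a = c b) ∧
    ¬ ∀ θ ∈ Icc 0 Real.pi, X.Reg θ → ∀ a b, X.ConjEdge θ a b → c a ≠ c b

end Ctx

end Pool.Agent.Rohlin
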