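import Pool.Agent.Rohlin.Discr
import Pool.Agent.Rohlin.Steps

/-!
# The number of branch lines
-/

set_option autoImplicit false

namespace Pool.Agent.Rohlin

open Polynomial Complex Set

theorem separable_iff_roots {P : ℂ[X]} :
    P.Separable ↔ ∀ y, P.eval y = 0 → (derivative P).eval y ≠ 0 := by
  rw [separable_def, isCoprime_iff_aeval_ne_zero_of_isAlgClosed (k := ℂ) (K := ℂ)]
  simp only [coe_aeval_eq_eval]
  refine forall_congr' fun y => ?_
  tauto

theorem dir_smul {f : MvPolynomial (Fin 3) ℝ} {m : ℕ} (hf : f.IsHomogeneous m) {t : ℂ} (ht : t ≠ 0)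
    (a b : ℂ) : dir f (t * a) (t * b) = C (t ^ m) * (dir f a b).comp (C t⁻¹ * X) := by
  apply Polynomial.funext
  intro y
  rw [eval_mul, eval_C, eval_comp, eval_mul, eval_C, eval_X, aeval_dir, aeval_dir,
    ← aeval_smul_hom hf]
  congr 2
  funext i
  fin_cases i
  · simp
  · simp
  · simp [ht]

theorem separable_dir_smul {f : MvPolynomial (Fin 3) ℝ} {m : ℕ} (hf : f.IsHomogeneous m) {t : ℂ}
    (ht : t ≠ 0) {a b : ℂ} (h : (dir f a b).Separable) : (dir f (t * a) (t * b)).Separable := by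
  rw [separable_iff_roots] at h ⊢
  intro y hy
  rw [dir_smul hf ht, eval_mul, eval_C, eval_comp, eval_mul, eval_C, eval_X, mul_eq_zero] at hy
  have h1 := h _ (hy.resolve_left (pow_ne_zero _ ht))
  rw [dir_smul hf ht, derivative_C_mul, derivative_comp, eval_mul, eval_C, eval_mul, eval_comp,
    eval_mul, eval_C, eval_X]
  refine mul_ne_zero (pow_ne_zero _ ht) (mul_ne_zero ?_ h1)
  simp [ht]

theorem dir_conj (f : MvPolynomial (Fin 3) ℝ) (a b : ℂ) :
    (dir f a b).map (starRingEnd ℂ) = dir f ((starRingEnd ℂ) a) ((starRingEnd ℂ) b) := by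
  ext j
  rw [coeff_map, coeff_dir, coeff_dir, map_sum]
  refine Finset.sum_congr rfl fun d _ => ?_
  rw [map_mul, map_mul, map_pow, map_pow, conj_ofReal]

/-- the coordinate of the line `w` in the chart `x₁ = 1` -/
noncomputable def xw (w : ℂ) : ℂ := (1 + w) / (I * (1 - w))

theorem separable_xw {f : MvPolynomial (Fin 3) ℝ} {m : ℕ} (hf : f.IsHomogeneous m) {w : ℂ}
    (hw : w ≠ 1) : (dir f (xw w) 1).Separable ↔ (fam f w).Separable := by
  have h1 : I * (1 - w) / 2 ≠ 0 :=
    div_ne_zero (mul_ne_zero I_ne_zero (sub_ne_zero.2 hw.symm)) two_ne_zero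
  have h0 : (1 - w) ≠ 0 := sub_ne_zero.2 hw.symm
  have h2 : (1 + w) / 2 = I * (1 - w) / 2 * xw w := by
    rw [xw]
    field_simp
  constructor
  · intro h
    have := separable_dir_smul hf h1 h
    rwa [← h2, mul_one] at this
  · intro h
    have := separable_dir_smul hf (inv_ne_zero h1) h
    rwa [h2, inv_mul_cancel_left₀ h1, inv_mul_cancel₀ h1] at this

theorem im_xw {w : ℂ} (hw : w ≠ 1) : (xw w).im = (normSq w - 1) / normSq (1 - w) := by
  have h0 : (1 - w) ≠ 0 := sub_ne_zero.2 hw.symm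
  have h1 : normSq (1 - w) ≠ 0 := fun h => h0 (normSq_eq_zero.1 h)
  rw [xw, div_im]
  have h2 : normSq (I * (1 - w)) = normSq (1 - w) := by
    rw [normSq_mul, normSq_I, one_mul]
  rw [h2]
  field_simp
  simp only [mul_re, mul_im, I_re, I_im, add_re, add_im, sub_re, sub_im, one_re, one_im,
    normSq_apply]
  ring

theorem xw_injOn {w w' : ℂ} (hw : w ≠ 1) (hw' : w' ≠ 1) (h : xw w = xw w') : w = w' := by
  have h0 : (1 - w) ≠ 0 := sub_ne_zero.2 hw.symm
  have h0' : (1 - w') ≠ 0 := sub_ne_zero.2 hw'.symm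
  rw [xw, xw, div_eq_div_iff (mul_ne_zero I_ne_zero h0) (mul_ne_zero I_ne_zero h0')] at h
  have h1 : (1 + w) * (1 - w') = (1 + w') * (1 - w) := by
    apply mul_left_cancel₀ I_ne_zero
    linear_combination h
  linear_combination (1 / 2 : ℂ) * h1

theorem card_branch {f : MvPolynomial (Fin 3) ℝ} (nf : Normal f) (Z : Finset ℂ)
    (hZ : ∀ w ∈ Z, ¬ (fam f w).Separable) (hone : (1 : ℂ) ∉ Z) {c : ℂ} (hc1 : c ≠ 1)
    (hc : (fam f c).Separable) :
    2 * (Z.filter fun z => ‖z‖ < 1).card + (Z.filter fun z => ‖z‖ = 1).card ≤ 56 := by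
  classical
  set D := dis f 8 X 1 with hD
  have hDeval : ∀ x, D.eval x = 0 ↔ ¬ (dir f x 1).Separable := by
    intro x
    have := dis_eval nf.hom nf.monic X 1 x
    rwa [eval_X, eval_one] at this
  have hD0 : D ≠ 0 := by
    intro h
    have h1 := (hDeval (xw c)).1 (by rw [h, eval_zero])
    exact h1 ((separable_xw nf.hom hc1).2 hc)
  have hdeg : D.natDegree ≤ 56 := natDegree_dis nf.hom (by simp) (by simp)
  clear_value D
  have hne : ∀ w ∈ Z, w ≠ 1 := fun w hw h => hone (h ▸ hw)
  have hroot : ∀ w ∈ Z, D.eval (xw w) = 0 := fun w hw =>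
    (hDeval _).2 fun h => hZ w hw ((separable_xw nf.hom (hne w hw)).1 h)
  have hroot' : ∀ w ∈ Z, D.eval ((starRingEnd ℂ) (xw w)) = 0 := by
    intro w hw
    rw [hDeval]
    intro h
    have h1 : (dir f (xw w) 1).Separable := by
      have h2 := h.map (f := starRingEnd ℂ)
      rwa [dir_conj, starRingEnd_self_apply, map_one] at h2
    exact (hDeval _).1 (hroot w hw) h1
  set A := (Z.filter fun z => ‖z‖ < 1).image xw with hA
  set B := (Z.filter fun z => ‖z‖ < 1).image (fun w => (starRingEnd ℂ) (xw w)) with hB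
  set E := (Z.filter fun z => ‖z‖ = 1).image xw with hE
  have hmemA : ∀ x ∈ A, x.im < 0 ∧ D.eval x = 0 := by
    intro x hx
    obtain ⟨w, hw, rfl⟩ := Finset.mem_image.1 hx
    rw [Finset.mem_filter] at hw
    refine ⟨?_, hroot w hw.1⟩
    have h0 : (1 - w) ≠ 0 := sub_ne_zero.2 (hne w hw.1).symm
    rw [im_xw (hne w hw.1)]
    apply div_neg_of_neg_of_pos
    · rw [normSq_eq_norm_sq]
      have h4 : ‖w‖ ^ 2 < 1 := (sq_lt_one_iff₀ (norm_nonneg w)).2 hw.2
      linarith
    · exact normSq_pos.2 h0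
  have hmemB : ∀ x ∈ B, 0 < x.im ∧ D.eval x = 0 := by
    intro x hx
    obtain ⟨w, hw, rfl⟩ := Finset.mem_image.1 hx
    have h1 := (hmemA (xw w) (Finset.mem_image_of_mem _ hw)).1
    rw [Finset.mem_filter] at hw
    refine ⟨?_, hroot' w hw.1⟩
    simp only [conj_im]
    linarith
  have hmemE : ∀ x ∈ E, x.im = 0 ∧ D.eval x = 0 := by
    intro x hx
    obtain ⟨w, hw, rfl⟩ := Finset.mem_image.1 hx
    rw [Finset.mem_filter] at hw
    refine ⟨?_, hroot w hw.1⟩
    rw [im_xw (hne w hw.1), normSq_eq_norm_sq, hw.2]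
    simp
  have hcA : A.card = (Z.filter fun z => ‖z‖ < 1).card := by
    refine Finset.card_image_of_injOn fun w hw w' hw' h => ?_
    rw [Finset.coe_filter, mem_ofPred_eq] at hw hw'
    exact xw_injOn (hne w hw.1) (hne w' hw'.1) h
  have hcB : B.card = (Z.filter fun z => ‖z‖ < 1).card := by
    refine Finset.card_image_of_injOn fun w hw w' hw' h => ?_
    rw [Finset.coe_filter, mem_ofPred_eq] at hw hw'
    exact xw_injOn (hne w hw.1) (hne w' hw'.1) ((starRingEnd ℂ).injective h)
  have hcE : E.card = (Z.filter fun z => ‖z‖ = 1).card := by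
    refine Finset.card_image_of_injOn fun w hw w' hw' h => ?_
    rw [Finset.coe_filter, mem_ofPred_eq] at hw hw'
    exact xw_injOn (hne w hw.1) (hne w' hw'.1) h
  have hAB : Disjoint A B := by
    rw [Finset.disjoint_left]
    intro x hx hx'
    linarith [(hmemA x hx).1, (hmemB x hx').1]
  have hABE : Disjoint (A ∪ B) E := by
    rw [Finset.disjoint_left]
    intro x hx hx'
    have h1 := (hmemE x hx').1
    rcases Finset.mem_union.1 hx with h | h
    · linarith [(hmemA x h).1]
    · linarith [(hmemB x h).1]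
  have hsub : A ∪ B ∪ E ⊆ D.roots.toFinset := by
    intro x hx
    rw [Multiset.mem_toFinset, mem_roots hD0]
    rcases Finset.mem_union.1 hx with hx | hx
    · rcases Finset.mem_union.1 hx with hx | hx
      · exact (hmemA x hx).2
      · exact (hmemB x hx).2
    · exact (hmemE x hx).2
  have h1 := Finset.card_le_card hsub
  rw [Finset.card_union_of_disjoint hABE, Finset.card_union_of_disjoint hAB, hcA, hcB, hcE] at h1
  have h2 := (Multiset.toFinset_card_le D.roots).trans (card_roots' D)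
  omega

/-- **DISC** -/
theorem Ctx.discOK {n : Type} [Fintype n] [DecidableEq n] (X : Ctx n) : X.DiscOK := by
  refine card_branch X.nf X.Z (fun w hw => ((X.hZ w).1 hw).2) X.one (c := X.c) ?_ ?_
  · rintro h
    have := X.hc
    rw [h, norm_one] at this
    exact lt_irrefl _ this
  · by_contra hcon
    exact X.cZ ((X.hZ _).2 ⟨X.hc.le, hcon⟩)

end Pool.Agent.Rohlin
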