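import Pool.Agent.Rohlin.Fam

/-!
# The restriction of the form to one line (module LINE, shared)
-/

set_option autoImplicit false

namespace Pool.Agent.Rohlin

open Polynomial Complex Set Matrix

namespace Line

variable {f : MvPolynomial (Fin 3) ℝ}

theorem dir_eq_sum (f : MvPolynomial (Fin 3) ℝ) (a b : ℂ) :
    dir f a b = ∑ d ∈ f.support, C (((MvPolynomial.coeff d f : ℝ) : ℂ) * (a ^ d 0 * b ^ d 1)) * X ^ d 2 := by
  unfold dir
  rw [MvPolynomial.aeval_def, MvPolynomial.eval₂_eq']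
  refine Finset.sum_congr rfl fun d _ => ?_
  rw [Fin.prod_univ_three]
  have h : (algebraMap ℝ ℂ[X]) (MvPolynomial.coeff d f) =
      C ((MvPolynomial.coeff d f : ℝ) : ℂ) := rfl
  rw [h]
  simp only [Matrix.cons_val_zero, Matrix.cons_val_one, Matrix.cons_val, C_mul, C_pow]
  ring

theorem gr_eq_sum (f : MvPolynomial (Fin 3) ℝ) (θ : ℝ) :
    gr f θ = ∑ d ∈ f.support,
      C (f.coeff d * (Real.cos θ ^ d 0 * Real.sin θ ^ d 1)) * X ^ d 2 := by
  unfold gr
  rw [MvPolynomial.aeval_def, MvPolynomial.eval₂_eq']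
  refine Finset.sum_congr rfl fun d _ => ?_
  rw [Fin.prod_univ_three]
  have h : (algebraMap ℝ ℝ[X]) (MvPolynomial.coeff d f) = C (MvPolynomial.coeff d f) := rfl
  rw [h]
  simp only [Matrix.cons_val_zero, Matrix.cons_val_one, Matrix.cons_val, C_mul, C_pow]
  ring

/-- the complexification of `gr f θ` -/
theorem gr_map (f : MvPolynomial (Fin 3) ℝ) (θ : ℝ) :
    (gr f θ).map (algebraMap ℝ ℂ) = dir f (Real.cos θ : ℂ) (Real.sin θ : ℂ) := by
  rw [gr_eq_sum, dir_eq_sum, Polynomial.map_sum]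
  refine Finset.sum_congr rfl fun d _ => ?_
  rw [Polynomial.map_mul, Polynomial.map_pow, Polynomial.map_X, Polynomial.map_C]
  congr 2
  simp

theorem dir_eval (f : MvPolynomial (Fin 3) ℝ) (a b y : ℂ) :
    (dir f a b).eval y = MvPolynomial.aeval ![a, b, y] f := by
  rw [dir_eq_sum, Polynomial.eval_finsetSum, MvPolynomial.aeval_def, MvPolynomial.eval₂_eq']
  refine Finset.sum_congr rfl fun d _ => ?_
  rw [Fin.prod_univ_three]
  simp only [Matrix.cons_val_zero, Matrix.cons_val_one, Matrix.cons_val, eval_mul, eval_C,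
    eval_pow, eval_X, coe_algebraMap]
  ring

theorem gr_eval (f : MvPolynomial (Fin 3) ℝ) (θ y : ℝ) :
    (gr f θ).eval y = MvPolynomial.eval ![Real.cos θ, Real.sin θ, y] f := by
  rw [gr_eq_sum, Polynomial.eval_finsetSum, MvPolynomial.eval_eq']
  refine Finset.sum_congr rfl fun d _ => ?_
  rw [Fin.prod_univ_three]
  simp only [Matrix.cons_val_zero, Matrix.cons_val_one, Matrix.cons_val, eval_mul, eval_C,
    eval_pow, eval_X]
  ring

theorem deg_of_mem_support (hf : f.IsHomogeneous 8) {d : Fin 3 →₀ ℕ} (hd : d ∈ f.support) :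
    d 0 + d 1 + d 2 = 8 := by
  have h := hf (MvPolynomial.mem_support_iff.1 hd)
  rw [Finsupp.weight_apply, Finsupp.sum_fintype _ _ (by simp), Fin.sum_univ_three] at h
  simpa using h

/-- homogeneity -/
theorem dir_scale (hf : f.IsHomogeneous 8) (a b c : ℂ) :
    (dir f (c * a) (c * b)).comp (C c * X) = C (c ^ 8) * dir f a b := by
  rw [dir_eq_sum, dir_eq_sum, Polynomial.sum_comp, Finset.mul_sum]
  refine Finset.sum_congr rfl fun d hd => ?_
  have h := deg_of_mem_support hf hd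
  rw [mul_comp, C_comp, pow_comp, X_comp, ← h, mul_pow, mul_pow, mul_pow, ← C_pow]
  simp only [C_mul, C_pow, pow_add]
  ring

theorem dir_natDegree_le (hf : f.IsHomogeneous 8) (a b : ℂ) : (dir f a b).natDegree ≤ 8 := by
  rw [dir_eq_sum]
  refine Polynomial.natDegree_sum_le_of_forall_le _ _ fun d hd => ?_
  have h := deg_of_mem_support hf hd
  exact (Polynomial.natDegree_C_mul_X_pow_le _ _).trans (by omega)

theorem dir_coeff_eight (hf : Normal f) (a b : ℂ) : (dir f a b).coeff 8 = 1 := by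
  rw [dir_eq_sum, Polynomial.finsetSum_coeff]
  have hmem : (Finsupp.single 2 8 : Fin 3 →₀ ℕ) ∈ f.support := by
    rw [MvPolynomial.mem_support_iff, hf.monic]; exact one_ne_zero
  rw [Finset.sum_eq_single (Finsupp.single 2 8 : Fin 3 →₀ ℕ)]
  · rw [coeff_C_mul, coeff_X_pow, hf.monic]
    simp
  · intro d hd hne
    rw [coeff_C_mul, coeff_X_pow]
    have h := deg_of_mem_support hf.hom hd
    rw [if_neg, mul_zero]
    intro h8
    apply hne
    ext i
    fin_cases i
    · simp; omega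
    · simp; omega
    · simp; omega
  · intro h
    exact absurd hmem h

theorem dir_monic (hf : Normal f) (a b : ℂ) : (dir f a b).Monic :=
  Polynomial.monic_of_natDegree_le_of_coeff_eq_one 8 (dir_natDegree_le hf.hom a b)
    (dir_coeff_eight hf a b)

theorem dir_natDegree (hf : Normal f) (a b : ℂ) : (dir f a b).natDegree = 8 := by
  refine le_antisymm (dir_natDegree_le hf.hom a b) (Polynomial.le_natDegree_of_ne_zero ?_)
  rw [dir_coeff_eight hf]
  exact one_ne_zero

theorem fam_monic (hf : Normal f) (w : ℂ) : (fam f w).Monic := dir_monic hf _ _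

theorem fam_natDegree (hf : Normal f) (w : ℂ) : (fam f w).natDegree = 8 := dir_natDegree hf _ _

theorem gr_monic (hf : Normal f) (θ : ℝ) : (gr f θ).Monic := by
  have h := dir_monic hf (Real.cos θ : ℂ) (Real.sin θ : ℂ)
  rw [← gr_map] at h
  exact Polynomial.monic_of_injective (algebraMap ℝ ℂ).injective h

theorem gr_natDegree (hf : Normal f) (θ : ℝ) : (gr f θ).natDegree = 8 := by
  have h := dir_natDegree hf (Real.cos θ : ℂ) (Real.sin θ : ℂ)
  rwa [← gr_map, Polynomial.natDegree_map] at h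

/-! ### the unit circle -/

theorem circ_eq_sq (θ : ℝ) : circ θ = exp (θ * I) ^ 2 := by
  unfold circ
  rw [← Complex.exp_nat_mul]
  congr 1
  push_cast
  ring

theorem circ_add (θ : ℝ) : (1 + circ θ) / 2 = exp (θ * I) * (Real.cos θ : ℂ) := by
  have h1 : exp (θ * I) * exp (-(θ * I)) = 1 := by rw [← Complex.exp_add, add_neg_cancel, exp_zero]
  rw [circ_eq_sq, Complex.ofReal_cos, Complex.cos, neg_mul]
  linear_combination -(1 / 2) * h1

theorem circ_sub (θ : ℝ) : I * (1 - circ θ) / 2 = exp (θ * I) * (Real.sin θ : ℂ) := by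
  have h1 : exp (θ * I) * exp (-(θ * I)) = 1 := by rw [← Complex.exp_add, add_neg_cancel, exp_zero]
  rw [circ_eq_sq, Complex.ofReal_sin, Complex.sin, neg_mul]
  linear_combination -(I / 2) * h1

theorem fam_circ_dir (f : MvPolynomial (Fin 3) ℝ) (θ : ℝ) :
    fam f (circ θ) = dir f (exp (θ * I) * (Real.cos θ : ℂ)) (exp (θ * I) * (Real.sin θ : ℂ)) := by
  unfold fam
  rw [circ_add, circ_sub]

/-- `fam f (circ θ) (e^{iθ} x) = e^{8 i θ} gr f θ x` -/
theorem fam_circ_comp (hf : f.IsHomogeneous 8) (θ : ℝ) :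
    (fam f (circ θ)).comp (C (exp (θ * I)) * X) =
      C (exp (θ * I) ^ 8) * (gr f θ).map (algebraMap ℝ ℂ) := by
  rw [fam_circ_dir, dir_scale hf, gr_map]

theorem fam_circ_eval (hf : f.IsHomogeneous 8) (θ : ℝ) (x : ℂ) :
    (fam f (circ θ)).eval (exp (θ * I) * x) =
      exp (θ * I) ^ 8 * ((gr f θ).map (algebraMap ℝ ℂ)).eval x := by
  have h := congrArg (Polynomial.eval x) (fam_circ_comp hf θ)
  simpa [eval_comp] using h

theorem fam_circ_deriv_eval (hf : f.IsHomogeneous 8) (θ : ℝ) (x : ℂ) :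
    (derivative (fam f (circ θ))).eval (exp (θ * I) * x) =
      exp (θ * I) ^ 7 * ((derivative (gr f θ)).map (algebraMap ℝ ℂ)).eval x := by
  have h := congrArg (fun p => Polynomial.eval x (derivative p)) (fam_circ_comp hf θ)
  simp only [derivative_comp, derivative_mul, derivative_C, zero_mul, derivative_X, mul_one,
    zero_add, eval_mul, eval_C, eval_comp, eval_X, derivative_map] at h
  have h0 : exp (θ * I) ≠ 0 := exp_ne_zero _
  apply mul_left_cancel₀ h0
  rw [h]
  ring

end Line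

namespace Ctx

open Line

variable {n : Type} [Fintype n] [DecidableEq n] (X : Ctx n)

theorem norm_circ_le {θ : ℝ} : ‖circ θ‖ ≤ 1 := (norm_circ θ).le

theorem not_mem_Z {θ : ℝ} (h : circ θ ∈ Star X.c X.Z) : circ θ ∉ X.Z := by
  intro hz
  exact h _ hz 0 le_rfl (by simp)

/-- at a regular angle the restriction is separable -/
theorem fam_separable {θ : ℝ} (h : circ θ ∈ Star X.c X.Z) : (fam X.f (circ θ)).Separable := by
  by_contra hs
  exact X.not_mem_Z h ((X.hZ _).2 ⟨norm_circ_le, hs⟩)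

theorem exp_mul_eta (θ : ℝ) (i : Fin 8) : exp (θ * I) * X.eta θ i = X.y i (circ θ) := by
  unfold eta
  rw [← mul_assoc, ← Complex.exp_add, add_neg_cancel, exp_zero, one_mul]

theorem eta_root {θ : ℝ} (h : circ θ ∈ Star X.c X.Z) (i : Fin 8) :
    ((gr X.f θ).map (algebraMap ℝ ℂ)).eval (X.eta θ i) = 0 := by
  have h1 := fam_circ_eval X.nf.hom θ (X.eta θ i)
  rw [exp_mul_eta, X.y_root _ h norm_circ_le i] at h1
  have h0 : exp (θ * I) ^ 8 ≠ 0 := pow_ne_zero _ (exp_ne_zero _)
  exact (mul_eq_zero.1 h1.symm).resolve_left h0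

theorem eta_injective {θ : ℝ} (h : circ θ ∈ Star X.c X.Z) : Function.Injective (X.eta θ) := by
  intro i j hij
  apply X.y_inj _ h norm_circ_le
  change X.y i (circ θ) = X.y j (circ θ)
  rw [← exp_mul_eta, ← exp_mul_eta, hij]

/-- `gr f θ` splits into the linear factors of the `eta` -/
theorem gr_map_eq_prod {θ : ℝ} (h : circ θ ∈ Star X.c X.Z) :
    (gr X.f θ).map (algebraMap ℝ ℂ) = ∏ i, (Polynomial.X - Polynomial.C (X.eta θ i)) := by
  have hm : ((gr X.f θ).map (algebraMap ℝ ℂ)).Monic := (gr_monic X.nf θ).map _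
  have hdeg : ((gr X.f θ).map (algebraMap ℝ ℂ)).natDegree = 8 := by
    rw [Polynomial.natDegree_map, gr_natDegree X.nf]
  have hdvd : (∏ i, (Polynomial.X - Polynomial.C (X.eta θ i))) ∣ (gr X.f θ).map (algebraMap ℝ ℂ) := by
    refine Finset.prod_dvd_of_coprime (fun i _ j _ hij => ?_) fun i _ => ?_
    · exact Polynomial.pairwise_coprime_X_sub_C (X.eta_injective h) hij
    · exact Polynomial.dvd_iff_isRoot.2 (X.eta_root h i)
  have hmp : (∏ i, (Polynomial.X - Polynomial.C (X.eta θ i))).Monic :=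
    Polynomial.monic_prod_of_monic _ _ fun i _ => Polynomial.monic_X_sub_C _
  refine Polynomial.eq_of_monic_of_dvd_of_natDegree_le hmp hm hdvd ?_
  rw [hdeg, Polynomial.natDegree_prod_of_monic _ _ fun i _ => Polynomial.monic_X_sub_C _]
  simp

theorem eta_surj {θ : ℝ} (h : circ θ ∈ Star X.c X.Z) {x : ℂ}
    (hx : ((gr X.f θ).map (algebraMap ℝ ℂ)).eval x = 0) : ∃ i, X.eta θ i = x := by
  rw [X.gr_map_eq_prod h, Polynomial.eval_prod, Finset.prod_eq_zero_iff] at hx
  obtain ⟨i, _, hi⟩ := hx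
  rw [eval_sub, eval_X, eval_C, sub_eq_zero] at hi
  exact ⟨i, hi.symm⟩

theorem sig_sq {θ : ℝ} (h : circ θ ∈ Star X.c X.Z) (i : Fin 8) :
    X.sig θ i ^ 2 = ((derivative (gr X.f θ)).map (algebraMap ℝ ℂ)).eval (X.eta θ i) := by
  have h1 := fam_circ_deriv_eval X.nf.hom θ (X.eta θ i)
  rw [exp_mul_eta, ← X.s_sq _ h norm_circ_le i] at h1
  unfold sig
  rw [mul_pow, h1, ← Complex.exp_nat_mul, ← Complex.exp_nat_mul, ← mul_assoc, ← Complex.exp_add]
  have h2 : ((2 : ℕ) : ℂ) * -(7 / 2 * θ * I) + ((7 : ℕ) : ℂ) * (θ * I) = 0 := by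
    push_cast; ring
  rw [h2, exp_zero, one_mul]

theorem sig_ne_zero {θ : ℝ} (h : circ θ ∈ Star X.c X.Z) (i : Fin 8) : X.sig θ i ≠ 0 := by
  intro h0
  have h1 := X.sig_sq h i
  rw [h0, zero_pow two_ne_zero, ← derivative_map, X.gr_map_eq_prod h] at h1
  have h2 : (derivative (∏ i, (Polynomial.X - Polynomial.C (X.eta θ i)))).eval (X.eta θ i) =
      ∏ j ∈ Finset.univ.erase i, (X.eta θ i - X.eta θ j) := by
    rw [← Finset.mul_prod_erase Finset.univ _ (Finset.mem_univ i), derivative_mul]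
    simp [Polynomial.eval_prod]
  rw [h2] at h1
  refine Finset.prod_ne_zero_iff.2 (fun j hj => ?_) h1.symm
  exact sub_ne_zero.2 fun e => (Finset.mem_erase.1 hj).1 (X.eta_injective h e).symm

/-- the value of the derivative at a root as a product -/
theorem sig_sq_prod {θ : ℝ} (h : circ θ ∈ Star X.c X.Z) (i : Fin 8) :
    X.sig θ i ^ 2 = ∏ j ∈ Finset.univ.erase i, (X.eta θ i - X.eta θ j) := by
  rw [X.sig_sq h i, ← derivative_map, X.gr_map_eq_prod h,
    ← Finset.mul_prod_erase Finset.univ _ (Finset.mem_univ i), derivative_mul]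
  simp [Polynomial.eval_prod]

/-- the conjugate of a root is a root -/
theorem eta_conj {θ : ℝ} (h : circ θ ∈ Star X.c X.Z) (i : Fin 8) :
    ∃ j, X.eta θ j = (starRingEnd ℂ) (X.eta θ i) := by
  apply X.eta_surj h
  have h1 := X.eta_root h i
  rw [Polynomial.eval_map_algebraMap] at h1 ⊢
  have h2 := Polynomial.aeval_conj (gr X.f θ) (X.eta θ i)
  rw [h2, h1, map_zero]

end Ctx

end Pool.Agent.Rohlin
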