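import Pool.Agent.Rohlin.Grid
import Pool.Agent.Rohlin.Line
import Pool.Agent.Rohlin.AssemblyD
import Pool.Agent.Rohlin.Disc

/-!
# The core of the proof: from the data of one octic to a contradiction
-/

set_option autoImplicit false

namespace Pool.Agent.Rohlin

open Polynomial Complex Set Matrix Filter Topology

namespace Ctx

variable {n : Type} [Fintype n] [DecidableEq n] (X : Ctx n)

/-- UNIQ: the projector of a pairing is determined by the angle -/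
def UniqOK : Prop := ∀ θ : ℝ, X.Reg θ → ∀ A B kind ζ A' B' kind' ζ', X.Pairing θ A B kind ζ →
  X.Pairing θ A' B' kind' ζ' → X.proj A' B' ζ' = X.proj A B ζ

/-- the data at one angle -/
structure Dat (n : Type) where
  A : Fin 4 → Fin 8
  B : Fin 4 → Fin 8
  kind : Fin 4 → Fin 3
  ζ : Fin 4 → ℂ
  ψ : n → ℂ

/-- the data fit to the angle -/
def Dat.At (D : Dat n) (θ : ℝ) : Prop := X.Full θ D.A D.B D.kind D.ζ D.ψ

/-- one step -/
def Rel (S : List (Edge 8)) (nc : ℕ) (s : ℤ) (D D' : Dat n) (L : List (Edge 8)) : Prop :=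
  L.length = 2 * nc ∧ (∀ x ∈ L, x.2.2 = 1 ∨ x.2.2 = -1) ∧
    X.proj D'.A D'.B D'.ζ * (XS (k := 4) X.M S * X.proj D.A D.B D.ζ) =
      (L.map (pf X.M)).prod * (XS (k := 4) X.M S * X.proj D.A D.B D.ζ) ∧
    star D'.ψ ⬝ᵥ (XS (k := 4) X.M S *ᵥ D.ψ) =
      exp (I * Real.pi * s / 8) * (((Real.sqrt 2 : ℝ) : ℂ)⁻¹) ^ nc ∧
    (∀ c : Fin 8 → ZMod 2, (∀ x ∈ S, c x.1 = c x.2.1) → (∀ x ∈ L, c x.1 = c x.2.1) →
      (∀ p, c (D.A p) = c (D.B p)) → ∀ p, c (D'.A p) = c (D'.B p)) ∧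
    ∀ c : Fin 8 → ZMod 2, (∀ x ∈ S, c x.1 = c x.2.1) → (∀ x ∈ L, c x.1 ≠ c x.2.1) →
      (∀ p, c (D.A p) ≠ c (D.B p)) → ∀ p, c (D'.A p) ≠ c (D'.B p)

/-- what happens at a special angle -/
def Loc (θ : ℝ) (S : List (Edge 8)) (nc : ℕ) (s : ℤ) : Prop :=
  ∃ ε : ℝ, 0 < ε ∧ ∀ θ₁ θ₂ : ℝ, θ - ε < θ₁ → θ₁ < θ → θ < θ₂ → θ₂ < θ + ε →
    ∀ D : Dat n, Dat.At X D θ₁ → ∃ (D' : Dat n) (L : List (Edge 8)), Dat.At X D' θ₂ ∧
      X.Rel S nc s D D' L

theorem XS_nil : XS (k := 4) X.M ([] : List (Edge 8)) = 1 := rfl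

theorem XS_single (a b : Fin 8) (τ : ℂ) :
    XS (k := 4) X.M ([(a, b, τ)] : List (Edge 8)) = Bfac X.M a b τ := by
  unfold XS
  rw [List.map_cons, List.prod_cons, List.map_nil, List.prod_nil, mul_one]
  rfl

theorem loc_event (h : X.EventOK) {θ η : ℝ} (h1 : circ θ ∈ X.Z) (h2 : X.Dbl θ η) :
    X.Loc θ [] (X.enc θ η) (X.esg θ η) := by
  obtain ⟨ε, hε, H⟩ := h θ η h1 h2
  refine ⟨ε, hε, fun θ₁ θ₂ e1 e2 e3 e4 D hD => ?_⟩
  obtain ⟨A', B', kind', ζ', ψ', hF, hs, L, hL1, hL2, hL3, hL4⟩ := H θ₁ θ₂ e1 e2 e3 e4 _ _ _ _ _ hD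
  refine ⟨⟨A', B', kind', ζ', ψ'⟩, L, hF, hL1, fun x hx => (hL2 x hx).2, ?_, ?_, ?_, ?_⟩
  · rw [XS_nil, one_mul]
    exact hL3
  · rw [XS_nil, one_mulVec]
    exact hs
  · intro c _ hc hD p
    rcases hL4 p with ⟨q, ⟨e5, e6⟩ | ⟨e5, e6⟩⟩ | ⟨x, hx, ⟨e5, e6⟩ | ⟨e5, e6⟩⟩
    · show c (A' p) = c (B' p)
      rw [e5, e6, hD q]
    · show c (A' p) = c (B' p)
      rw [e5, e6, hD q]
    · show c (A' p) = c (B' p)
      rw [← e5, ← e6, hc x hx]
    · show c (A' p) = c (B' p)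
      rw [← e5, ← e6, hc x hx]
  · intro c _ hc hD p
    rcases hL4 p with ⟨q, ⟨e5, e6⟩ | ⟨e5, e6⟩⟩ | ⟨x, hx, ⟨e5, e6⟩ | ⟨e5, e6⟩⟩
    · show c (A' p) ≠ c (B' p)
      rw [e5, e6]
      exact hD q
    · show c (A' p) ≠ c (B' p)
      rw [e5, e6]
      exact (hD q).symm
    · show c (A' p) ≠ c (B' p)
      rw [← e5, ← e6]
      exact hc x hx
    · show c (A' p) ≠ c (B' p)
      rw [← e5, ← e6]
      exact (hc x hx).symm

theorem swap_colour (c : Fin 8 → ZMod 2) {a b : Fin 8} (h : c a = c b) (i : Fin 8) :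
    c (Equiv.swap a b i) = c i := by
  rcases eq_or_ne i a with h1 | h1
  · rw [h1, Equiv.swap_apply_left, h]
  · rcases eq_or_ne i b with h2 | h2
    · rw [h2, Equiv.swap_apply_right, h]
    · rw [Equiv.swap_apply_of_ne_of_ne h1 h2]

/-- the projector of a state -/
theorem Full.proj_eq {θ : ℝ} {A B kind ζ ψ} (h : X.Full θ A B kind ζ ψ) :
    X.proj A B ζ = vecMulVec ψ (star ψ) := h.state.proj

theorem loc_slit {θ : ℝ} {a b : Fin 8} {τ : ℂ} (hab : a ≠ b) (hτ : τ = 1 ∨ τ = -1)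
    (h : ∃ ε : ℝ, 0 < ε ∧ ∀ θ₁ θ₂ : ℝ, θ - ε < θ₁ → θ₁ < θ → θ < θ₂ → θ₂ < θ + ε →
      ∀ A B kind ζ ψ, X.Full θ₁ A B kind ζ ψ →
        ∃ ζ', X.Full θ₂ (fun p => Equiv.swap a b (A p)) (fun p => Equiv.swap a b (B p)) kind ζ'
          (Bfac X.M a b τ *ᵥ ψ)) :
    X.Loc θ [(a, b, τ)] 0 0 := by
  obtain ⟨ε, hε, H⟩ := h
  refine ⟨ε, hε, fun θ₁ θ₂ e1 e2 e3 e4 D hD => ?_⟩
  obtain ⟨ζ', hF⟩ := H θ₁ θ₂ e1 e2 e3 e4 _ _ _ _ _ hD
  refine ⟨⟨_, _, D.kind, ζ', Bfac X.M a b τ *ᵥ D.ψ⟩, [], hF, rfl, by simp, ?_, ?_, ?_, ?_⟩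
  · rw [XS_single, List.map_nil, List.prod_nil, one_mul]
    show X.proj _ _ ζ' * _ = _
    rw [hF.state.proj, hD.state.proj, Matrix.mul_vecMulVec, Matrix.vecMulVec_mul_vecMulVec,
      hF.state.unit, one_smul]
  · rw [XS_single]
    show star (Bfac X.M a b τ *ᵥ D.ψ) ⬝ᵥ (Bfac X.M a b τ *ᵥ D.ψ) = _
    rw [hF.state.unit]
    simp
  · intro c hc _ hD p
    have h1 : c a = c b := hc (a, b, τ) (List.mem_singleton.mpr rfl)
    show c (Equiv.swap a b (D.A p)) = c (Equiv.swap a b (D.B p))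
    rw [swap_colour c h1, swap_colour c h1]
    exact hD p
  · intro c hc _ hD p
    have h1 : c a = c b := hc (a, b, τ) (List.mem_singleton.mpr rfl)
    show c (Equiv.swap a b (D.A p)) ≠ c (Equiv.swap a b (D.B p))
    rw [swap_colour c h1, swap_colour c h1]
    exact hD p

/-- a step between two grid points -/
theorem step_of_loc (hA : X.ArcOK) {θ θ₁ θ₂ : ℝ} (h1 : θ₁ < θ) (h2 : θ < θ₂)
    (hreg : ∀ φ, θ₁ ≤ φ → φ ≤ θ₂ → φ ≠ θ → X.Reg φ) {S : List (Edge 8)} {nc : ℕ} {s : ℤ}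
    (hl : X.Loc θ S nc s) (D : Dat n) (hD : Dat.At X D θ₁) :
    ∃ (D' : Dat n) (L : List (Edge 8)), Dat.At X D' θ₂ ∧ X.Rel S nc s D D' L := by
  obtain ⟨ε, hε, H⟩ := hl
  obtain ⟨φ₁, h3, h4⟩ := exists_between (max_lt (show θ₁ < θ from h1) (show θ - ε < θ by linarith))
  obtain ⟨φ₂, h5, h6⟩ := exists_between (lt_min (show θ < θ₂ from h2) (show θ < θ + ε by linarith))
  have h7 : θ₁ < φ₁ := lt_of_le_of_lt (le_max_left _ _) h3
  have h8 : θ - ε < φ₁ := lt_of_le_of_lt (le_max_right _ _) h3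
  have h9 : φ₂ < θ₂ := lt_of_lt_of_le h6 (min_le_left _ _)
  have h10 : φ₂ < θ + ε := lt_of_lt_of_le h6 (min_le_right _ _)
  have hD1 : Dat.At X D φ₁ := by
    refine hA θ₁ φ₁ (fun φ hφ => ?_) _ _ _ _ _ hD
    rw [uIcc_of_le h7.le] at hφ
    exact hreg φ hφ.1 (by linarith [hφ.2]) (by linarith [hφ.2] : φ < θ).ne
  obtain ⟨D', L, hD', hR⟩ := H φ₁ φ₂ h8 h4 h5 h10 D hD1
  refine ⟨D', L, ?_, hR⟩
  refine hA φ₂ θ₂ (fun φ hφ => ?_) _ _ _ _ _ hD'
  rw [uIcc_of_le h9.le] at hφ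
  exact hreg φ (by linarith [hφ.1]) hφ.2 (by linarith [hφ.1] : θ < φ).ne'

theorem gr_map_real (p : ℝ[X]) (r : ℝ) :
    (p.map (algebraMap ℝ ℂ)).eval (r : ℂ) = ((p.eval r : ℝ) : ℂ) := by
  rw [eval_map]
  exact eval₂_at_apply (algebraMap ℝ ℂ) r

theorem cos_or_sin (θ : ℝ) : (Real.cos θ : ℂ) ≠ 0 ∨ (Real.sin θ : ℂ) ≠ 0 := by
  by_contra h
  push Not at h
  have h1 : Real.cos θ = 0 := by exact_mod_cast h.1
  have h2 : Real.sin θ = 0 := by exact_mod_cast h.2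
  have := Real.sin_sq_add_cos_sq θ
  rw [h1, h2] at this
  norm_num at this

/-- the complex form of a double root -/
theorem dbl_unique_cx {θ : ℝ} {x x' : ℂ} (h1 : ((gr X.f θ).map (algebraMap ℝ ℂ)).eval x = 0)
    (h2 : ((derivative (gr X.f θ)).map (algebraMap ℝ ℂ)).eval x = 0)
    (h1' : ((gr X.f θ).map (algebraMap ℝ ℂ)).eval x' = 0)
    (h2' : ((derivative (gr X.f θ)).map (algebraMap ℝ ℂ)).eval x' = 0) : x = x' := by
  rw [← derivative_map, Line.gr_map] at h2 h2'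
  rw [Line.gr_map] at h1 h1'
  exact X.nf.one _ _ x x' (cos_or_sin θ) h1 h2 h1' h2'

theorem Dbl.cx {θ η : ℝ} (h : X.Dbl θ η) :
    ((gr X.f θ).map (algebraMap ℝ ℂ)).eval (η : ℂ) = 0 ∧
      ((derivative (gr X.f θ)).map (algebraMap ℝ ℂ)).eval (η : ℂ) = 0 := by
  rw [gr_map_real, gr_map_real, h.1, h.2]
  simp

theorem dbl_unique {θ η η' : ℝ} (h : X.Dbl θ η) (h' : X.Dbl θ η') : η = η' := by
  have := X.dbl_unique_cx (Dbl.cx X h).1 (Dbl.cx X h).2 (Dbl.cx X h').1 (Dbl.cx X h').2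
  exact_mod_cast this

/-- the double root of an event -/
theorem exists_dbl {θ : ℝ} (h : circ θ ∈ X.Z) : ∃ η : ℝ, X.Dbl θ η := by
  obtain ⟨-, h1⟩ := (X.hZ _).mp h
  rw [separable_iff_roots] at h1
  push Not at h1
  obtain ⟨y, hy, hy'⟩ := h1
  have h0 : exp (θ * I) ≠ 0 := exp_ne_zero _
  set x := exp (-(θ * I)) * y with hx
  have e1 : exp (θ * I) * x = y := by
    rw [hx, ← mul_assoc, ← Complex.exp_add, add_neg_cancel, exp_zero, one_mul]
  have e2 := Line.fam_circ_eval X.nf.hom θ x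
  have e3 := Line.fam_circ_deriv_eval (f := X.f) X.nf.hom θ x
  rw [e1, hy] at e2
  rw [e1, hy'] at e3
  have e4 := (mul_eq_zero.mp e2.symm).resolve_left (pow_ne_zero _ h0)
  have e5 := (mul_eq_zero.mp e3.symm).resolve_left (pow_ne_zero _ h0)
  have hc : ∀ (p : ℝ[X]) (x : ℂ), (p.map (algebraMap ℝ ℂ)).eval x = 0 →
      (p.map (algebraMap ℝ ℂ)).eval ((starRingEnd ℂ) x) = 0 := by
    intro p x hx
    rw [Polynomial.eval_map_algebraMap] at hx ⊢
    rw [Polynomial.aeval_conj, hx, map_zero]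
  have e6 := X.dbl_unique_cx e4 e5 (hc _ _ e4) (hc _ _ e5)
  have e7 : ((x.re : ℝ) : ℂ) = x := Complex.conj_eq_iff_re.mp e6.symm
  rw [← e7, gr_map_real] at e4 e5
  exact ⟨x.re, by exact_mod_cast e4, by exact_mod_cast e5⟩

theorem mem_Z_of_dbl {θ η : ℝ} (h : X.Dbl θ η) : circ θ ∈ X.Z := by
  rw [X.hZ]
  refine ⟨(norm_circ θ).le, ?_⟩
  rw [separable_iff_roots]
  push Not
  refine ⟨exp (θ * I) * η, ?_, ?_⟩
  · rw [Line.fam_circ_eval X.nf.hom, (Dbl.cx X h).1, mul_zero]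
  · rw [Line.fam_circ_deriv_eval (f := X.f) X.nf.hom, (Dbl.cx X h).2, mul_zero]

theorem esg_edep {θ η : ℝ} (h : X.Dbl θ η) :
    X.esg θ η * X.edep θ η = 1 - 2 * (X.enc θ η : ℤ) := by
  have h1 : (derivative (derivative (gr X.f θ))).eval η ≠ 0 := by
    intro h0
    have h2 := X.nf.two (Real.cos θ : ℂ) (Real.sin θ : ℂ) η (cos_or_sin θ)
    rw [← Line.gr_map, derivative_map, derivative_map] at h2
    refine h2 (Dbl.cx X h).1 (Dbl.cx X h).2 ?_
    rw [gr_map_real, h0]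
    simp
  have h3 : X.esg θ η = 1 ∨ X.esg θ η = -1 := by
    unfold esg
    rcases lt_or_gt_of_ne h1 with h2 | h2
    · right; rw [sign_neg h2]; rfl
    · left; rw [sign_pos h2]; rfl
  have h4 : X.edep θ η = 1 ∨ X.edep θ η = -1 := by
    unfold edep
    split_ifs
    · right; rfl
    · left; rfl
  unfold enc
  rcases h3 with h3 | h3 <;> rcases h4 with h4 | h4 <;> rw [h3, h4] <;> simp

theorem conj_edge {θ : ℝ} (hr : X.Reg θ) {A B kind ζ} (h : X.Pairing θ A B kind ζ) {a b : Fin 8}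
    (hab : X.ConjEdge θ a b) : ∃ p, (a = A p ∧ b = B p) ∨ (a = B p ∧ b = A p) := by
  have hbij : Function.Bijective (Sum.elim A B) := by
    rw [Fintype.bijective_iff_injective_and_card]
    exact ⟨h.inj, by simp⟩
  obtain ⟨x, hx⟩ := hbij.2 a
  have hinj := X.eta_injective hr
  rcases x with p | p
  · have h1 : A p = a := hx
    refine ⟨p, Or.inl ⟨h1.symm, ?_⟩⟩
    have h2 : kind p = 2 := by
      by_contra hk
      exact hab.1 (by rw [← h1]; exact (h.real p hk).1)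
    apply hinj
    rw [hab.2, ← h1, (h.cpx p h2).2]
  · have h1 : B p = a := hx
    refine ⟨p, Or.inr ⟨h1.symm, ?_⟩⟩
    have h2 : kind p = 2 := by
      by_contra hk
      exact hab.1 (by rw [← h1]; exact (h.real p hk).2.1)
    apply hinj
    rw [hab.2, ← h1, (h.cpx p h2).2, Complex.conj_conj]

theorem state_unique {θ θ' : ℝ} {A B ζ ψ A' B' ζ' ψ'} (h : X.IsState θ A B ζ ψ)
    (h' : X.IsState θ' A' B' ζ' ψ') (hp : X.proj A' B' ζ' = X.proj A B ζ)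
    (hl : X.lr θ' = X.lr θ) : ψ' = ψ := by
  have e1 : vecMulVec ψ' (star ψ') = vecMulVec ψ (star ψ) := by
    rw [← h'.proj, hp, h.proj]
  have e2 : ψ' = (star ψ ⬝ᵥ ψ') • ψ := by
    have e3 : vecMulVec ψ' (star ψ') *ᵥ ψ' = vecMulVec ψ (star ψ) *ᵥ ψ' := by rw [e1]
    rw [vecMulVec_mulVec, vecMulVec_mulVec, h'.unit] at e3
    simpa using e3
  set c := star ψ ⬝ᵥ ψ' with hc
  obtain ⟨r, hr, hr1⟩ := h.pos
  obtain ⟨r', hr', hr1'⟩ := h'.pos
  have e4 : (r' : ℂ) = c * r := by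
    rw [← hr1', hl, e2, dotProduct_smul, hr1, smul_eq_mul]
  have hrc : (r : ℂ) ≠ 0 := by exact_mod_cast hr.ne'
  have e5 : c = ((r' / r : ℝ) : ℂ) := by
    push_cast
    rw [eq_div_iff hrc, e4]
  have e6 : star c * c = 1 := by
    have := h'.unit
    rw [e2, star_smul, smul_dotProduct, dotProduct_smul, h.unit] at this
    simpa using this
  have hpos : 0 < r' / r := div_pos hr' hr
  have e7 : (r' / r) * (r' / r) = 1 := by
    rw [e5] at e6
    have : star (((r' / r : ℝ) : ℂ)) = ((r' / r : ℝ) : ℂ) := Complex.conj_ofReal _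
    rw [this] at e6
    exact_mod_cast e6
  have e8 : r' / r = 1 := by nlinarith
  rw [e2, e5, e8]
  simp

end Ctx

theorem exists_seq {α β : Type*} (P : ℕ → α → Prop) (R : ℕ → α → α → β → Prop) (a0 : α) (b0 : β)
    (h0 : P 0 a0) : ∀ (N : ℕ)
    (_ : ∀ i < N, ∀ a, P i a → ∃ a' b, P (i + 1) a' ∧ R i a a' b),
    ∃ (a : ℕ → α) (b : ℕ → β), a 0 = a0 ∧ b 0 = b0 ∧ (∀ i ≤ N, P i (a i)) ∧
      ∀ i < N, R i (a i) (a (i + 1)) (b (i + 1)) := by
  intro N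
  induction N with
  | zero =>
    intro _
    refine ⟨fun _ => a0, fun _ => b0, rfl, rfl, ?_, ?_⟩
    · intro i hi
      have : i = 0 := by omega
      rw [this]
      exact h0
    · intro i hi
      omega
  | succ N ih =>
    intro h
    obtain ⟨a, b, ha, hb, h1, h2⟩ := ih fun i hi => h i (by omega)
    obtain ⟨a', b', h3, h4⟩ := h N (by omega) (a N) (h1 N le_rfl)
    refine ⟨fun i => if i ≤ N then a i else a', fun i => if i ≤ N then b i else b', ?_, ?_, ?_, ?_⟩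
    · simp [ha]
    · simp [hb]
    · intro i hi
      by_cases hiN : i ≤ N
      · simp only [hiN, if_true]
        exact h1 i hiN
      · simp only [hiN, if_false]
        have : i = N + 1 := by omega
        rw [this]
        exact h3
    · intro i hi
      by_cases hiN : i + 1 ≤ N
      · have : i ≤ N := by omega
        simp only [hiN, this, if_true]
        exact h2 i (by omega)
      · have h5 : i ≤ N := by omega
        have h6 : i = N := by omega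
        simp only [hiN, h5, if_true, if_false]
        rw [h6]
        exact h4

namespace Ctx

variable {n : Type} [Fintype n] [DecidableEq n] (X : Ctx n)

/-- the local data at all branch points -/
theorem exists_local (hX : X.CrossOK) (hE : X.EventOK) :
    ∃ (S : ℂ → List (Edge 8)) (nc : ℂ → ℕ) (s : ℂ → ℤ), ∀ z ∈ X.Z,
      X.Loc (X.ang z) (S z) (nc z) (s z) ∧ (∀ x ∈ S z, x.2.2 = 1 ∨ x.2.2 = -1) ∧
      (‖z‖ = 1 → S z = [] ∧ ∃ η, X.Dbl (X.ang z) η ∧ nc z = X.enc (X.ang z) η ∧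
        s z = X.esg (X.ang z) η) ∧
      (‖z‖ < 1 → nc z = 0 ∧ s z = 0 ∧ ∃ a b τ, S z = [(a, b, τ)] ∧
        ∀ a' b', X.Coll z a' b' → (a' = a ∧ b' = b) ∨ (a' = b ∧ b' = a)) := by
  have H : ∀ z : ℂ, ∃ (d : List (Edge 8) × ℕ × ℤ), z ∈ X.Z →
      X.Loc (X.ang z) d.1 d.2.1 d.2.2 ∧ (∀ x ∈ d.1, x.2.2 = 1 ∨ x.2.2 = -1) ∧
      (‖z‖ = 1 → d.1 = [] ∧ ∃ η, X.Dbl (X.ang z) η ∧ d.2.1 = X.enc (X.ang z) η ∧
        d.2.2 = X.esg (X.ang z) η) ∧
      (‖z‖ < 1 → d.2.1 = 0 ∧ d.2.2 = 0 ∧ ∃ a b τ, d.1 = [(a, b, τ)] ∧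
        ∀ a' b', X.Coll z a' b' → (a' = a ∧ b' = b) ∨ (a' = b ∧ b' = a)) := by
    intro z
    by_cases hz : z ∈ X.Z
    · rcases X.norm_eq_or_lt hz with h1 | h1
      · obtain ⟨t, ht, h2⟩ := X.circ_ang_slit hz h1
        obtain ⟨a, b, τ, hτ, hab, huniq, hloc⟩ := hX z hz h1 _ t ht h2
        refine ⟨([(a, b, τ)], 0, 0), fun _ => ⟨X.loc_slit hab.1 hτ hloc, ?_, ?_, ?_⟩⟩
        · intro x hx
          rw [List.mem_singleton] at hx
          rw [hx]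
          exact hτ
        · intro h3
          exact absurd h3 h1.ne
        · intro _
          exact ⟨rfl, rfl, a, b, τ, rfl, huniq⟩
      · have h2 : circ (X.ang z) ∈ X.Z := by rw [X.circ_ang hz h1]; exact hz
        obtain ⟨η, hη⟩ := X.exists_dbl h2
        refine ⟨([], X.enc (X.ang z) η, X.esg (X.ang z) η), fun _ =>
          ⟨X.loc_event hE h2 hη, by simp, fun _ => ⟨rfl, η, hη, rfl, rfl⟩, ?_⟩⟩
        intro h3
        exact absurd h1 h3.ne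
    · exact ⟨([], 0, 0), fun h => absurd h hz⟩
  choose d hd using H
  exact ⟨fun z => (d z).1, fun z => (d z).2.1, fun z => (d z).2.2, hd⟩

/-- the sums over the branch points -/
theorem sums (hN : X.CountOK) (hD : X.DiscOK) {S : ℂ → List (Edge 8)} {nc : ℂ → ℕ} {s : ℂ → ℤ}
    (h : ∀ z ∈ X.Z, (‖z‖ = 1 → S z = [] ∧ ∃ η, X.Dbl (X.ang z) η ∧ nc z = X.enc (X.ang z) η ∧
        s z = X.esg (X.ang z) η) ∧
      (‖z‖ < 1 → nc z = 0 ∧ s z = 0 ∧ ∃ a b τ, S z = [(a, b, τ)])) :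
    ∑ z ∈ X.Z, s z = 24 ∧ ∑ z ∈ X.Z, (S z).length + ∑ z ∈ X.Z, nc z ≤ 8 := by
  classical
  set Zc := X.Z.filter fun z => ‖z‖ = 1 with hZc
  set Zi := X.Z.filter fun z => ‖z‖ < 1 with hZi
  have hsplit : ∀ {M : Type} [AddCommMonoid M] (F : ℂ → M),
      ∑ z ∈ X.Z, F z = ∑ z ∈ Zi, F z + ∑ z ∈ Zc, F z := by
    intro M _ F
    rw [← Finset.sum_filter_add_sum_filter_not X.Z (fun z => ‖z‖ < 1)]
    congr 1
    refine Finset.sum_congr ?_ fun _ _ => rfl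
    ext z
    rw [Finset.mem_filter, hZc, Finset.mem_filter]
    refine and_congr_right fun hz => ?_
    rcases X.norm_eq_or_lt hz with h1 | h1
    · exact ⟨fun h2 => absurd h1 h2, fun h2 => absurd h2 h1.ne⟩
    · exact ⟨fun _ => h1, fun _ => by rw [h1]; exact lt_irrefl 1⟩
  have hmc : ∀ z ∈ Zc, z ∈ X.Z ∧ ‖z‖ = 1 := fun z hz => Finset.mem_filter.mp hz
  have hmi : ∀ z ∈ Zi, z ∈ X.Z ∧ ‖z‖ < 1 := fun z hz => Finset.mem_filter.mp hz
  -- the double roots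
  have hex : ∀ z : ℂ, ∃ η : ℝ, z ∈ Zc → X.Dbl (X.ang z) η ∧ nc z = X.enc (X.ang z) η ∧
      s z = X.esg (X.ang z) η := by
    intro z
    by_cases hz : z ∈ Zc
    · obtain ⟨η, hη⟩ := ((h z (hmc z hz).1).1 (hmc z hz).2).2
      exact ⟨η, fun _ => hη⟩
    · exact ⟨0, fun h => absurd h hz⟩
  choose dr hdr using hex
  set E : Finset (ℝ × ℝ) := Zc.image fun z => (X.ang z, dr z) with hE
  have hinj : Set.InjOn (fun z => (X.ang z, dr z)) Zc := by
    intro z hz z' hz' he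
    exact X.ang_injOn (hmc z hz).1 (hmc z' hz').1 (congrArg Prod.fst he)
  have hEmem : ∀ e : ℝ × ℝ, e ∈ E ↔ 0 < e.1 ∧ e.1 < Real.pi ∧ X.Dbl e.1 e.2 := by
    rintro ⟨θ, η⟩
    rw [hE, Finset.mem_image]
    constructor
    · rintro ⟨z, hz, he⟩
      obtain ⟨h1, h2, -⟩ := X.ang_spec (hmc z hz).1
      rw [Prod.mk.injEq] at he
      obtain ⟨h3, h4⟩ := he
      subst h3 h4
      exact ⟨h1, h2, (hdr z hz).1⟩
    · rintro ⟨h1, h2, h3⟩
      have h4 := X.mem_Z_of_dbl h3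
      have h5 : θ = X.ang (circ θ) := X.ang_unique h4 h1 h2 (t := 0) le_rfl (by simp)
      have h6 : circ θ ∈ Zc := Finset.mem_filter.mpr ⟨h4, norm_circ θ⟩
      refine ⟨circ θ, h6, ?_⟩
      rw [← h5]
      have h7 := (hdr _ h6).1
      rw [← h5] at h7
      rw [X.dbl_unique h7 h3]
  obtain ⟨hs1, hs2⟩ := hN E hEmem
  rw [hE, Finset.sum_image hinj] at hs1 hs2
  have hlen : ∑ z ∈ X.Z, (S z).length = Zi.card := by
    rw [hsplit, Finset.sum_congr rfl (g := fun _ => 1) (s₂ := Zi), Finset.sum_const,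
      Finset.sum_eq_zero (s := Zc)]
    · simp
    · intro z hz
      rw [((h z (hmc z hz).1).1 (hmc z hz).2).1]
      rfl
    · intro z hz
      obtain ⟨-, -, a, b, τ, h1⟩ := (h z (hmi z hz).1).2 (hmi z hz).2
      rw [h1]
      rfl
  have hnc : ∑ z ∈ X.Z, nc z = ∑ z ∈ Zc, nc z := by
    rw [hsplit, Finset.sum_eq_zero (s := Zi), zero_add]
    intro z hz
    exact ((h z (hmi z hz).1).2 (hmi z hz).2).1
  have hs : ∑ z ∈ X.Z, s z = ∑ z ∈ Zc, s z := by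
    rw [hsplit, Finset.sum_eq_zero (s := Zi), zero_add]
    intro z hz
    exact ((h z (hmi z hz).1).2 (hmi z hz).2).2.1
  refine ⟨?_, ?_⟩
  · rw [hs, ← hs1]
    exact Finset.sum_congr rfl fun z hz => (hdr z hz).2.2
  · have h1 : ∑ z ∈ Zc, (1 - 2 * (nc z : ℤ)) = 40 := by
      rw [← hs2]
      refine Finset.sum_congr rfl fun z hz => ?_
      rw [X.esg_edep (hdr z hz).1, (hdr z hz).2.1]
    rw [Finset.sum_sub_distrib, Finset.sum_const, ← Finset.mul_sum] at h1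
    have h2 : 2 * Zi.card + Zc.card ≤ 56 := hD
    rw [hlen, hnc]
    have h3 : ((∑ z ∈ Zc, nc z : ℕ) : ℤ) = ∑ z ∈ Zc, (nc z : ℤ) := by push_cast; rfl
    rw [← h3] at h1
    simp only [nsmul_eq_mul, mul_one] at h1
    omega

/-- **The core.** -/
theorem core (hP : X.PairOK) (hS : X.StateOK) (hA : X.ArcOK) (hU : X.UniqOK) (hC : X.CloseOK)
    (hX : X.CrossOK) (hE : X.EventOK) (hN : X.CountOK) (hD : X.DiscOK) (hT : X.TypeTwoOK) :
    False := by
  classical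
  obtain ⟨S, nc, s, hloc⟩ := X.exists_local hX hE
  obtain ⟨hsum, hcount⟩ := X.sums hN hD (S := S) (nc := nc) (s := s) (fun z hz => by
    obtain ⟨-, -, h1, h2⟩ := hloc z hz
    refine ⟨h1, fun h => ?_⟩
    obtain ⟨h3, h4, a, b, τ, h5, -⟩ := h2 h
    exact ⟨h3, h4, a, b, τ, h5⟩)
  -- the grid
  have hne : X.spec.Nonempty := by
    rw [Finset.nonempty_iff_ne_empty]
    intro h0
    have h1 : X.Z = ∅ := by
      rw [Finset.eq_empty_iff_forall_notMem]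
      intro z hz
      have : X.ang z ∈ X.spec := Finset.mem_image_of_mem _ hz
      rw [h0] at this
      exact absurd this (Finset.notMem_empty _)
    rw [h1, Finset.sum_empty] at hsum
    norm_num at hsum
  obtain ⟨N, e, τ, hτ0, hτN, himg, hinj, hstep, hcov⟩ := exists_grid X.spec (fun θ hθ =>
    ⟨((X.mem_spec_iff θ).mp hθ).1, ((X.mem_spec_iff θ).mp hθ).2.1⟩) hne
  have heS : ∀ i < N, e i ∈ X.spec := fun i hi => by
    rw [← himg]
    exact Finset.mem_image_of_mem _ (Finset.mem_range.mpr hi)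
  have hex : ∀ i : ℕ, ∃ z : ℂ, i < N → z ∈ X.Z ∧ X.ang z = e i := by
    intro i
    by_cases hi : i < N
    · obtain ⟨z, hz, h⟩ := Finset.mem_image.mp (heS i hi)
      exact ⟨z, fun _ => ⟨hz, h⟩⟩
    · exact ⟨0, fun h => absurd h hi⟩
  choose zz hzz using hex
  have hsurj : ∀ z ∈ X.Z, ∃ i < N, zz i = z := by
    intro z hz
    have h1 : X.ang z ∈ X.spec := Finset.mem_image_of_mem _ hz
    rw [← himg] at h1
    obtain ⟨i, hi, h2⟩ := Finset.mem_image.mp h1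
    have hi' := Finset.mem_range.mp hi
    refine ⟨i, hi', ?_⟩
    exact X.ang_injOn (hzz i hi').1 hz (by rw [(hzz i hi').2, h2])
  have hsumN : ∀ {M : Type} [AddCommMonoid M] (F : ℂ → M),
      ∑ i ∈ Finset.range N, F (zz i) = ∑ z ∈ X.Z, F z := by
    intro M _ F
    refine Finset.sum_bij (fun i _ => zz i) ?_ ?_ ?_ ?_
    · intro i hi
      exact (hzz i (Finset.mem_range.mp hi)).1
    · intro i hi j hj h
      have h1 := (hzz i (Finset.mem_range.mp hi)).2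
      have h2 := (hzz j (Finset.mem_range.mp hj)).2
      exact hinj hi hj (by rw [← h1, ← h2, h])
    · intro z hz
      obtain ⟨i, hi, h⟩ := hsurj z hz
      exact ⟨i, Finset.mem_range.mpr hi, h⟩
    · intro i hi
      rfl
  have hregs : ∀ i < N, ∀ φ, τ i ≤ φ → φ ≤ τ (i + 1) → φ ≠ e i → X.Reg φ := by
    intro i hi φ h1 h2 h3
    obtain ⟨h4, h5, h6, h7, h8⟩ := hstep i hi
    refine X.reg_of_not_mem (h4.trans h1) (h2.trans h7) fun h9 => h3 (h8 φ h9 h1 h2)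
  -- the initial data
  obtain ⟨A0, B0, kind0, ζ0, hpair0⟩ := hP 0 X.reg_zero
  obtain ⟨ψ0, hst0⟩ := hS 0 _ _ _ _ X.reg_zero hpair0
  let D0 : Dat n := ⟨A0, B0, kind0, ζ0, ψ0⟩
  let L0 : List (Edge 8) := List.ofFn fun p => (A0 p, B0 p, ζ0 p)
  obtain ⟨D, L, hD0, hL0, hAt, hRel⟩ := exists_seq (fun i (D : Dat n) => Dat.At X D (τ i))
    (fun i D D' L => X.Rel (S (zz i)) (nc (zz i)) (s (zz i)) D D' L) D0 L0
    (by show Dat.At X D0 (τ 0); rw [hτ0]; exact ⟨hpair0, hst0⟩) N (by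
      intro i hi Di hDi
      obtain ⟨h4, h5, h6, h7, h8⟩ := hstep i hi
      have h9 := (hloc (zz i) (hzz i hi).1).1
      rw [(hzz i hi).2] at h9
      exact X.step_of_loc hA h5 h6 (hregs i hi) h9 Di hDi)
  have hfullN := hAt N le_rfl
  have hfull0 := hAt 0 (Nat.zero_le N)
  have hψN : (D N).ψ = (D 0).ψ := by
    obtain ⟨A', B', ζ', hp', hproj'⟩ := hC _ _ _ _ hpair0
    have h1 : Dat.At X (D N) Real.pi := by rw [← hτN]; exact hfullN
    have h2 := hU Real.pi X.reg_pi _ _ _ _ _ _ _ _ hp' h1.pair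
    rw [hD0]
    refine X.state_unique hst0 h1.state ?_ X.lr_pi
    rw [h2, hproj']
  -- colours
  have hcol : ∀ c : Fin 8 → ZMod 2, (∀ i < N, ∀ x ∈ S (zz i), c x.1 = c x.2.1) →
      ∀ z ∈ X.Z, ‖z‖ < 1 → ∀ a b, X.Coll z a b → c a = c b := by
    intro c hc z hz h1 a b hab
    obtain ⟨i, hi, h2⟩ := hsurj z hz
    obtain ⟨-, -, -, h3⟩ := hloc z hz
    obtain ⟨-, -, a', b', τ', h4, h5⟩ := h3 h1
    have h6 : c a' = c b' := hc i hi (a', b', τ') (by rw [h2, h4]; exact List.mem_singleton.mpr rfl)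
    rcases h5 a b hab with ⟨h7, h8⟩ | ⟨h7, h8⟩
    · rw [h7, h8, h6]
    · rw [h7, h8, h6]
  -- every conjugate pair is a pair of the sequence
  have hedge : ∀ θ ∈ Icc 0 Real.pi, X.Reg θ → ∀ a b, X.ConjEdge θ a b → ∃ i ≤ N, ∃ p,
      (a = (D i).A p ∧ b = (D i).B p) ∨ (a = (D i).B p ∧ b = (D i).A p) := by
    intro θ hθ hr a b hab
    obtain ⟨i, hi, h1, h2⟩ := hcov θ hθ.1 hθ.2
    obtain ⟨h4, h5, h6, h7, h8⟩ := hstep i hi
    have h9 : θ ≠ e i := by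
      intro h9
      rw [h9] at hr
      exact ((X.mem_spec_iff _).mp (heS i hi)).2.2 hr
    rcases lt_or_gt_of_ne h9 with h10 | h10
    · have h11 : Dat.At X (D i) θ := by
        refine hA (τ i) θ (fun φ hφ => ?_) _ _ _ _ _ (hAt i hi.le)
        rw [uIcc_of_le h1] at hφ
        exact hregs i hi φ hφ.1 (hφ.2.trans h2) (by linarith [hφ.2] : φ < e i).ne
      obtain ⟨p, hp⟩ := X.conj_edge hr h11.pair hab
      exact ⟨i, hi.le, p, hp⟩
    · have h11 : Dat.At X (D (i + 1)) θ := by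
        refine hA (τ (i + 1)) θ (fun φ hφ => ?_) _ _ _ _ _ (hAt (i + 1) hi)
        rw [uIcc_of_ge h2] at hφ
        exact hregs i hi φ (h1.trans hφ.1) hφ.2 (by linarith [hφ.1] : e i < φ).ne'
      obtain ⟨p, hp⟩ := X.conj_edge hr h11.pair hab
      exact ⟨i + 1, hi, p, hp⟩
  have hL0mem : ∀ p, (A0 p, B0 p, ζ0 p) ∈ L 0 := by
    intro p
    rw [hL0]
    exact (List.mem_ofFn' _ _).mpr ⟨p, rfl⟩
  refine assemblyD (k := 4) X.M X.card N (fun i => S (zz i)) ?_ L ?_ ?_ (fun i => nc (zz i)) ?_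
    (fun i => X.proj (D i).A (D i).B (D i).ζ) ?_ ?_ (fun i => (D i).ψ) ?_ ?_ hψN (fun _ => 1)
    (by simp) (fun i => s (zz i)) ?_ ?_ ?_ 12 ?_ (by decide) ?_ ?_
  · intro i hi
    exact (hloc _ (hzz i hi).1).2.1
  · intro i hi x hx
    rcases Nat.eq_zero_or_pos i with h | h
    · subst h
      rw [hL0] at hx
      obtain ⟨p, rfl⟩ := (List.mem_ofFn' _ _).mp hx
      exact hpair0.zeta_sq p
    · obtain ⟨j, rfl⟩ : ∃ j, i = j + 1 := ⟨i - 1, by omega⟩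
      exact (hRel j (by omega)).2.1 x hx
  · rw [hL0]
    simp [L0]
  · intro i hi
    exact (hRel i hi).1
  · show X.proj (D 0).A (D 0).B (D 0).ζ = _
    rw [hD0, hL0, List.map_ofFn]
    rfl
  · intro i hi
    exact (hRel i hi).2.2.1
  · intro i hi
    exact (hAt i hi).state.unit
  · intro i hi
    exact (hAt i hi).state.proj
  · intro i hi
    rw [mul_one, one_mul]
    exact (hRel i hi).2.2.2.1
  · have : Complex.I * Real.pi * ((4 : ℕ) : ℂ) ^ 2 / 4 = ((2 : ℤ) : ℂ) * (2 * Real.pi * I) := by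
      push_cast
      ring
    rw [this, Complex.exp_int_mul_two_pi_mul_I, mul_one]
  · rw [hsumN fun z => (S z).length, hsumN nc]
    exact hcount
  · rw [hsumN s, hsum]
    norm_num
  · intro c hc1 hc2
    have h1 : ∀ i ≤ N, ∀ p, c ((D i).A p) = c ((D i).B p) := by
      intro i
      induction i with
      | zero =>
        intro _ p
        rw [hD0]
        exact hc2 0 (Nat.zero_le N) _ (hL0mem p)
      | succ i ih =>
        intro hi
        exact (hRel i hi).2.2.2.2.1 c (hc1 i hi) (hc2 (i + 1) hi) (ih (by omega))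
    refine (hT c (hcol c hc1)).1 fun θ hθ hr a b hab => ?_
    obtain ⟨i, hi, p, ⟨h2, h3⟩ | ⟨h2, h3⟩⟩ := hedge θ hθ hr a b hab
    · rw [h2, h3, h1 i hi p]
    · rw [h2, h3, h1 i hi p]
  · rintro ⟨c, hc1, hc2⟩
    have h1 : ∀ i ≤ N, ∀ p, c ((D i).A p) ≠ c ((D i).B p) := by
      intro i
      induction i with
      | zero =>
        intro _ p
        rw [hD0]
        exact hc2 0 (Nat.zero_le N) _ (hL0mem p)
      | succ i ih =>
        intro hi
        exact (hRel i hi).2.2.2.2.2 c (hc1 i hi) (hc2 (i + 1) hi) (ih (by omega))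
    refine (hT c (hcol c hc1)).2 fun θ hθ hr a b hab => ?_
    obtain ⟨i, hi, p, ⟨h2, h3⟩ | ⟨h2, h3⟩⟩ := hedge θ hθ hr a b hab
    · rw [h2, h3]
      exact h1 i hi p
    · rw [h2, h3]
      exact (h1 i hi p).symm

end Ctx

end Pool.Agent.Rohlin
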