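import Pool.Agent.Rohlin.RP2Top

/-!
# The coordinates `pt` are an open map
-/

set_option autoImplicit false

namespace Pool.Agent.Rohlin

open Set Topology

/-- the quotient map is open -/
theorem isOpenMap_mkRP2 :
    IsOpenMap (fun v : {v : Fin 3 → ℝ // v ≠ 0} => (Projectivization.mk ℝ v.1 v.2 : RP2)) := by
  intro U hU
  have hq : IsQuotientMap
      (fun v : {v : Fin 3 → ℝ // v ≠ 0} => (Projectivization.mk ℝ v.1 v.2 : RP2)) :=
    isQuotientMap_quotient_mk'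
  rw [← hq.isOpen_preimage]
  have h1 : (fun v : {v : Fin 3 → ℝ // v ≠ 0} => (Projectivization.mk ℝ v.1 v.2 : RP2)) ⁻¹'
      ((fun v : {v : Fin 3 → ℝ // v ≠ 0} => (Projectivization.mk ℝ v.1 v.2 : RP2)) '' U) =
      ⋃ t : ℝˣ, (fun v : {v : Fin 3 → ℝ // v ≠ 0} =>
        (⟨t • v.1, smul_ne_zero_iff_ne t |>.2 v.2⟩ : {v : Fin 3 → ℝ // v ≠ 0})) ⁻¹' U := by
    ext v
    simp only [mem_preimage, mem_image, mem_iUnion]
    constructor
    · rintro ⟨u, hu, huv⟩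
      obtain ⟨t, ht⟩ := (Projectivization.mk_eq_mk_iff ℝ u.1 v.1 u.2 v.2).1 huv
      refine ⟨t, ?_⟩
      have : (⟨t • v.1, smul_ne_zero_iff_ne t |>.2 v.2⟩ : {v : Fin 3 → ℝ // v ≠ 0}) = u :=
        Subtype.ext ht
      rw [this]
      exact hu
    · rintro ⟨t, ht⟩
      exact ⟨_, ht, (Projectivization.mk_eq_mk_iff ℝ _ _ _ _).2 ⟨t, rfl⟩⟩
  rw [h1]
  refine isOpen_iUnion fun t => hU.preimage ?_
  refine Continuous.subtype_mk ?_ _
  exact continuous_subtype_val.const_smul t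

/-- local section of `pt` -/
noncomputable def sect (θ₀ : ℝ) (v : Fin 3 → ℝ) : ℝ × ℝ :=
  (θ₀ + Complex.arg (((v 0 : ℂ) + v 1 * Complex.I) * Complex.exp (-(θ₀ * Complex.I))),
    v 2 / ‖(v 0 : ℂ) + v 1 * Complex.I‖)

theorem pt_sect (θ₀ : ℝ) (v : Fin 3 → ℝ) (hv : v ≠ 0) (hv' : (v 0 : ℂ) + v 1 * Complex.I ≠ 0) :
    pt (sect θ₀ v).1 (sect θ₀ v).2 = Projectivization.mk ℝ v hv := by
  set a : ℂ := (v 0 : ℂ) + v 1 * Complex.I with ha
  have hn : (0 : ℝ) < ‖a‖ := norm_pos_iff.2 hv'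
  have hexp : Complex.exp ((sect θ₀ v).1 * Complex.I) = a / ‖a‖ := by
    have h1 := Complex.norm_mul_exp_arg_mul_I (a * Complex.exp (-(θ₀ * Complex.I)))
    have h2 : ‖a * Complex.exp (-(θ₀ * Complex.I))‖ = ‖a‖ := by
      rw [norm_mul]
      have : -(θ₀ * Complex.I) = ((-θ₀ : ℝ) : ℂ) * Complex.I := by push_cast; ring
      rw [this, Complex.norm_exp_ofReal_mul_I, mul_one]
    rw [h2] at h1
    have h3 : Complex.exp ((sect θ₀ v).1 * Complex.I) = Complex.exp (θ₀ * Complex.I) *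
        Complex.exp (Complex.arg (a * Complex.exp (-(θ₀ * Complex.I))) * Complex.I) := by
      rw [← Complex.exp_add]
      congr 1
      unfold sect
      push_cast
      ring
    have hn' : (‖a‖ : ℂ) ≠ 0 := Complex.ofReal_ne_zero.2 hn.ne'
    rw [h3, eq_div_iff hn', mul_assoc, mul_comm (Complex.exp (_ * Complex.I)) (‖a‖ : ℂ), h1,
      mul_comm a, ← mul_assoc, ← Complex.exp_add]
    simp
  have hcos : Real.cos (sect θ₀ v).1 = v 0 / ‖a‖ := by
    have h := congrArg Complex.re hexp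
    rw [Complex.exp_ofReal_mul_I_re, Complex.div_ofReal_re] at h
    rw [h]
    simp [ha]
  have hsin : Real.sin (sect θ₀ v).1 = v 1 / ‖a‖ := by
    have h := congrArg Complex.im hexp
    rw [Complex.exp_ofReal_mul_I_im, Complex.div_ofReal_im] at h
    rw [h]
    simp [ha]
  unfold pt
  refine (Projectivization.mk_eq_mk_iff' ℝ _ _ _ _).2 ⟨‖a‖⁻¹, ?_⟩
  funext i
  fin_cases i
  · simp only [Pi.smul_apply, smul_eq_mul]
    change ‖a‖⁻¹ * v 0 = Real.cos (sect θ₀ v).1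
    rw [hcos]
    ring
  · simp only [Pi.smul_apply, smul_eq_mul]
    change ‖a‖⁻¹ * v 1 = Real.sin (sect θ₀ v).1
    rw [hsin]
    ring
  · simp only [Pi.smul_apply, smul_eq_mul]
    change ‖a‖⁻¹ * v 2 = v 2 / ‖a‖
    ring

theorem isOpenMap_pt : IsOpenMap (fun p : ℝ × ℝ => pt p.1 p.2) := by
  rw [isOpenMap_iff_nhds_le]
  rintro ⟨θ₀, η₀⟩
  intro S hS
  rw [Filter.mem_map] at hS
  -- the point
  let w₀ : {v : Fin 3 → ℝ // v ≠ 0} := ⟨![Real.cos θ₀, Real.sin θ₀, η₀], vec_ne θ₀ η₀⟩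
  have hw₀ : ((w₀.1 0 : ℂ) + w₀.1 1 * Complex.I) = Complex.exp (θ₀ * Complex.I) := by
    change ((Real.cos θ₀ : ℝ) : ℂ) + ((Real.sin θ₀ : ℝ) : ℂ) * Complex.I = _
    rw [Complex.exp_mul_I, ← Complex.ofReal_cos, ← Complex.ofReal_sin]
  have hprod : ((w₀.1 0 : ℂ) + w₀.1 1 * Complex.I) * Complex.exp (-(θ₀ * Complex.I)) = 1 := by
    rw [hw₀, ← Complex.exp_add, add_neg_cancel, Complex.exp_zero]
  have hnorm : ‖(w₀.1 0 : ℂ) + w₀.1 1 * Complex.I‖ = 1 := by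
    rw [hw₀, Complex.norm_exp_ofReal_mul_I]
  have hg0 : sect θ₀ w₀.1 = (θ₀, η₀) := by
    unfold sect
    rw [hprod, hnorm, Complex.arg_one]
    change (θ₀ + 0, η₀ / 1) = (θ₀, η₀)
    rw [add_zero, div_one]
  have hc : Continuous fun v : {v : Fin 3 → ℝ // v ≠ 0} => ((v.1 0 : ℂ) + v.1 1 * Complex.I) := by
    have hk : ∀ k : Fin 3, Continuous fun v : {v : Fin 3 → ℝ // v ≠ 0} => ((v.1 k : ℝ) : ℂ) :=
      fun k => Complex.continuous_ofReal.comp ((continuous_apply k).comp continuous_subtype_val)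
    exact (hk 0).add ((hk 1).mul continuous_const)
  have hcont : ContinuousAt (fun v : {v : Fin 3 → ℝ // v ≠ 0} => sect θ₀ v.1) w₀ := by
    unfold sect
    refine ContinuousAt.prodMk ?_ ?_
    · refine continuousAt_const.add ?_
      have h1 : ContinuousAt Complex.arg
          (((w₀.1 0 : ℂ) + w₀.1 1 * Complex.I) * Complex.exp (-(θ₀ * Complex.I))) := by
        rw [hprod]
        exact Complex.continuousAt_arg Complex.one_mem_slitPlane
      exact ContinuousAt.comp (f := fun v : {v : Fin 3 → ℝ // v ≠ 0} =>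
        ((v.1 0 : ℂ) + v.1 1 * Complex.I) * Complex.exp (-(θ₀ * Complex.I))) h1
        (hc.mul continuous_const).continuousAt
    · refine ContinuousAt.div ?_ hc.norm.continuousAt ?_
      · exact ((continuous_apply 2).comp continuous_subtype_val).continuousAt
      · rw [hnorm]
        exact one_ne_zero
  have hA : (fun v : {v : Fin 3 → ℝ // v ≠ 0} => sect θ₀ v.1) ⁻¹'
      ((fun p : ℝ × ℝ => pt p.1 p.2) ⁻¹' S) ∈ 𝓝 w₀ := by
    refine hcont.preimage_mem_nhds ?_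
    rw [hg0]
    exact hS
  have hB : (fun v : {v : Fin 3 → ℝ // v ≠ 0} => ((v.1 0 : ℂ) + v.1 1 * Complex.I)) ⁻¹' {0}ᶜ ∈
      𝓝 w₀ := by
    refine (isOpen_compl_singleton.preimage hc).mem_nhds ?_
    intro h
    rw [mem_singleton_iff] at h
    have h' : ‖(w₀.1 0 : ℂ) + w₀.1 1 * Complex.I‖ = 0 := norm_eq_zero.2 h
    rw [hnorm] at h'
    exact one_ne_zero h'
  have h2 := isOpenMap_mkRP2.image_mem_nhds (Filter.inter_mem hA hB)
  refine Filter.mem_of_superset h2 ?_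
  rintro _ ⟨v, ⟨hv1, hv2⟩, rfl⟩
  have hv1' : pt (sect θ₀ v.1).1 (sect θ₀ v.1).2 ∈ S := hv1
  rw [pt_sect θ₀ v.1 v.2 hv2] at hv1'
  exact hv1'

end Pool.Agent.Rohlin
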