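import Pool.Agent.Rohlin.Setup
import Pool.Agent.Rohlin.Conn

/-!
# Basic facts about the family of the lines through the centre
-/

set_option autoImplicit false

namespace Pool.Agent.Rohlin

open Polynomial Complex Set Filter Topology

variable {f : MvPolynomial (Fin 3) ℝ}

/-! ### evaluation -/

lemma aeval_dir (f : MvPolynomial (Fin 3) ℝ) (a b y : ℂ) :
    (dir f a b).eval y = MvPolynomial.aeval ![a, b, y] f := by
  unfold dir
  induction f using MvPolynomial.induction_on with
  | C r => simp [Polynomial.algebraMap_apply]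
  | add p q hp hq => rw [map_add, map_add, eval_add, hp, hq]
  | mul_X p i hp =>
    rw [map_mul, map_mul, eval_mul, hp, MvPolynomial.aeval_X, MvPolynomial.aeval_X]
    congr 1
    fin_cases i <;> simp

lemma aeval_gr (f : MvPolynomial (Fin 3) ℝ) (θ : ℝ) (η : ℂ) :
    Polynomial.aeval η (gr f θ) =
      MvPolynomial.aeval ![(Real.cos θ : ℂ), (Real.sin θ : ℂ), η] f := by
  unfold gr
  induction f using MvPolynomial.induction_on with
  | C r => simp
  | add p q hp hq => rw [map_add, map_add, map_add, hp, hq]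
  | mul_X p i hp =>
    rw [map_mul, map_mul, map_mul, hp, MvPolynomial.aeval_X, MvPolynomial.aeval_X]
    congr 1
    fin_cases i <;> simp

lemma eval_gr (f : MvPolynomial (Fin 3) ℝ) (θ η : ℝ) :
    (gr f θ).eval η = MvPolynomial.eval ![Real.cos θ, Real.sin θ, η] f := by
  unfold gr
  induction f using MvPolynomial.induction_on with
  | C r => simp
  | add p q hp hq => rw [map_add, map_add, eval_add, hp, hq]
  | mul_X p i hp =>
    rw [map_mul, map_mul, eval_mul, hp, MvPolynomial.aeval_X, MvPolynomial.eval_X]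
    congr 1
    fin_cases i <;> simp

/-- homogeneity -/
lemma aeval_smul_hom {m : ℕ} (hf : f.IsHomogeneous m) (t : ℂ) (v : Fin 3 → ℂ) :
    MvPolynomial.aeval (t • v) f = t ^ m * MvPolynomial.aeval v f := by
  rw [MvPolynomial.aeval_def, MvPolynomial.aeval_def, MvPolynomial.eval₂_eq', MvPolynomial.eval₂_eq',
    Finset.mul_sum]
  refine Finset.sum_congr rfl fun d hd => ?_
  have h1 : d.degree = m := hf.degree_eq_sum_deg_support hd |>.symm ▸ rfl
  have h2 : d 0 + d 1 + d 2 = m := by
    rw [← h1, Finsupp.degree_eq_sum, Fin.sum_univ_three]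
  simp only [Fin.prod_univ_three, Pi.smul_apply, smul_eq_mul, mul_pow]
  rw [← h2, pow_add, pow_add]
  ring

/-- conjugation -/
lemma aeval_conj (f : MvPolynomial (Fin 3) ℝ) (v : Fin 3 → ℂ) :
    MvPolynomial.aeval (fun i => (starRingEnd ℂ) (v i)) f =
      (starRingEnd ℂ) (MvPolynomial.aeval v f) := by
  induction f using MvPolynomial.induction_on with
  | C r => simp
  | add p q hp hq => rw [map_add, map_add, map_add, hp, hq]
  | mul_X p i hp =>
    rw [map_mul, map_mul, map_mul, hp, MvPolynomial.aeval_X, MvPolynomial.aeval_X]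

/-! ### coefficients -/

lemma coeff_dir (f : MvPolynomial (Fin 3) ℝ) (a b : ℂ) (j : ℕ) :
    (dir f a b).coeff j =
      ∑ d ∈ f.support.filter (fun d => d 2 = j), ((f.coeff d : ℝ) : ℂ) * a ^ d 0 * b ^ d 1 := by
  unfold dir
  rw [MvPolynomial.aeval_def, MvPolynomial.eval₂_eq', Polynomial.finsetSum_coeff,
    Finset.sum_filter]
  refine Finset.sum_congr rfl fun d _ => ?_
  have h1 : (algebraMap ℝ ℂ[X]) (f.coeff d) * ∏ i, (![C a, C b, (X : ℂ[X])] i) ^ d i =
      C (((f.coeff d : ℝ) : ℂ) * a ^ d 0 * b ^ d 1) * X ^ d 2 := by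
    rw [Fin.prod_univ_three]
    simp [Polynomial.algebraMap_apply]
    ring
  rw [h1, coeff_C_mul_X_pow]
  by_cases h : d 2 = j
  · rw [if_pos h.symm, if_pos h]
  · rw [if_neg fun h' => h h'.symm, if_neg h]

lemma sum_of_mem_support {m : ℕ} (hf : f.IsHomogeneous m) {d : Fin 3 →₀ ℕ}
    (hd : d ∈ f.support) : d 0 + d 1 + d 2 = m := by
  have h1 : d.degree = m := hf.degree_eq_sum_deg_support hd |>.symm ▸ rfl
  rw [← h1, Finsupp.degree_eq_sum, Fin.sum_univ_three]

lemma natDegree_dir_le (nf : Normal f) (a b : ℂ) : (dir f a b).natDegree ≤ 8 := by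
  rw [natDegree_le_iff_coeff_eq_zero]
  intro j hj
  rw [coeff_dir]
  refine Finset.sum_eq_zero fun d hd => ?_
  rw [Finset.mem_filter] at hd
  have := sum_of_mem_support nf.hom hd.1
  omega

lemma coeff_dir_eight (nf : Normal f) (a b : ℂ) : (dir f a b).coeff 8 = 1 := by
  have h1 : f.support.filter (fun d => d 2 = 8) = {Finsupp.single 2 8} := by
    ext d
    rw [Finset.mem_filter, Finset.mem_singleton]
    constructor
    · rintro ⟨hd, h2⟩
      have h3 := sum_of_mem_support nf.hom hd
      ext i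
      fin_cases i
      · simp
        omega
      · simp
        omega
      · simpa using h2
    · rintro rfl
      refine ⟨?_, by simp⟩
      rw [MvPolynomial.mem_support_iff, nf.monic]
      exact one_ne_zero
  rw [coeff_dir, h1, Finset.sum_singleton, nf.monic]
  simp

lemma natDegree_dir (nf : Normal f) (a b : ℂ) : (dir f a b).natDegree = 8 := by
  refine le_antisymm (natDegree_dir_le nf a b) (le_natDegree_of_ne_zero ?_)
  rw [coeff_dir_eight nf]
  exact one_ne_zero

lemma monic_dir (nf : Normal f) (a b : ℂ) : (dir f a b).Monic := by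
  rw [Monic, leadingCoeff, natDegree_dir nf, coeff_dir_eight nf]

lemma continuous_coeff_fam (f : MvPolynomial (Fin 3) ℝ) (j : ℕ) :
    Continuous fun w => (fam f w).coeff j := by
  simp only [fam, coeff_dir]
  fun_prop

lemma differentiable_coeff_fam (f : MvPolynomial (Fin 3) ℝ) (j : ℕ) :
    Differentiable ℂ fun w => (fam f w).coeff j := by
  simp only [fam, coeff_dir]
  fun_prop

/-- the family as a `Family` -/
noncomputable def famF (nf : Normal f) : Family 8 where
  P := fam f
  monic _ := monic_dir nf _ _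
  deg _ := natDegree_dir nf _ _
  cont := continuous_coeff_fam f

@[simp] lemma famF_P (nf : Normal f) : (famF nf).P = fam f := rfl

lemma monic_fam (nf : Normal f) (w : ℂ) : (fam f w).Monic := monic_dir nf _ _

lemma natDegree_fam (nf : Normal f) (w : ℂ) : (fam f w).natDegree = 8 := natDegree_dir nf _ _

/-! ### smoothness -/

lemma contDiff_aeval (f : MvPolynomial (Fin 3) ℝ) {n : WithTop ℕ∞} :
    ContDiff ℂ n fun v : Fin 3 → ℂ => MvPolynomial.aeval v f := by
  have : (fun v : Fin 3 → ℂ => MvPolynomial.aeval v f) =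
      fun v => ∑ d ∈ f.support, ((f.coeff d : ℝ) : ℂ) * (v 0 ^ d 0 * v 1 ^ d 1 * v 2 ^ d 2) := by
    funext v
    rw [MvPolynomial.aeval_def, MvPolynomial.eval₂_eq']
    refine Finset.sum_congr rfl fun d _ => ?_
    rw [Fin.prod_univ_three]
    rfl
  rw [this]
  refine ContDiff.sum fun d _ => ?_
  refine contDiff_const.mul (((ContDiff.pow ?_ _).mul (ContDiff.pow ?_ _)).mul
    (ContDiff.pow ?_ _)) <;> exact contDiff_apply ℂ ℂ _

lemma continuous_aeval (f : MvPolynomial (Fin 3) ℝ) :
    Continuous fun v : Fin 3 → ℂ => MvPolynomial.aeval v f :=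
  (contDiff_aeval f (n := 0)).continuous

lemma contDiff_fam (f : MvPolynomial (Fin 3) ℝ) {n : WithTop ℕ∞} :
    ContDiff ℂ n fun p : ℂ × ℂ => (fam f p.1).eval p.2 := by
  have : (fun p : ℂ × ℂ => (fam f p.1).eval p.2) = (fun v : Fin 3 → ℂ => MvPolynomial.aeval v f) ∘
      fun p : ℂ × ℂ => ![(1 + p.1) / 2, I * (1 - p.1) / 2, p.2] := by
    funext p
    rw [fam, aeval_dir]
    rfl
  rw [this]
  refine (contDiff_aeval f).comp ?_
  rw [contDiff_pi]
  intro i
  fin_cases i
  · show ContDiff ℂ n fun p : ℂ × ℂ => (1 + p.1) / 2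
    exact (contDiff_const.add contDiff_fst).div_const _
  · show ContDiff ℂ n fun p : ℂ × ℂ => I * (1 - p.1) / 2
    exact (contDiff_const.mul (contDiff_const.sub contDiff_fst)).div_const _
  · show ContDiff ℂ n fun p : ℂ × ℂ => p.2
    exact contDiff_snd

/-! ### the coordinates `w = (x0 + i x1) / (x0 - i x1)`, `y = x2 / (x0 - i x1)` -/

/-- `x0 + i x1` -/
def cU (v : Fin 3 → ℂ) : ℂ := v 0 + I * v 1

/-- `x0 - i x1` -/
def cV (v : Fin 3 → ℂ) : ℂ := v 0 - I * v 1

lemma continuous_cU : Continuous cU := by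
  unfold cU
  fun_prop

lemma continuous_cV : Continuous cV := by
  unfold cV
  fun_prop

lemma cU_smul (t : ℂ) (v : Fin 3 → ℂ) : cU (t • v) = t * cU v := by
  simp [cU]
  ring

lemma cV_smul (t : ℂ) (v : Fin 3 → ℂ) : cV (t • v) = t * cV v := by
  simp [cV]
  ring

lemma cU_conj (v : Fin 3 → ℂ) : cU (fun i => (starRingEnd ℂ) (v i)) = (starRingEnd ℂ) (cV v) := by
  simp [cU, cV]

lemma cV_conj (v : Fin 3 → ℂ) : cV (fun i => (starRingEnd ℂ) (v i)) = (starRingEnd ℂ) (cU v) := by
  simp [cU, cV]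
  ring

/-- a point of the affine chart -/
lemma eq_smul_of_cV_ne_zero {v : Fin 3 → ℂ} (h : cV v ≠ 0) :
    v = cV v • ![(1 + cU v / cV v) / 2, I * (1 - cU v / cV v) / 2, v 2 / cV v] := by
  have h1 : v 0 = (cU v + cV v) / 2 := by
    simp [cU, cV]
  have h2 : v 1 = I * (cV v - cU v) / 2 := by
    have : I * (cV v - cU v) = -(I * I) * (2 * v 1) := by
      simp only [cU, cV]
      ring
    rw [this, I_mul_I]
    ring
  ext i
  fin_cases i
  · show v 0 = cV v * ((1 + cU v / cV v) / 2)
    rw [h1]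
    field_simp
    ring
  · show v 1 = cV v * (I * (1 - cU v / cV v) / 2)
    rw [h2]
    field_simp
  · show v 2 = cV v * (v 2 / cV v)
    field_simp

lemma aeval_eq_fam {m : ℕ} (hf : f.IsHomogeneous m) {v : Fin 3 → ℂ} (h : cV v ≠ 0) :
    MvPolynomial.aeval v f = cV v ^ m * (fam f (cU v / cV v)).eval (v 2 / cV v) := by
  conv_lhs => rw [eq_smul_of_cV_ne_zero h]
  rw [aeval_smul_hom hf, fam, aeval_dir]

lemma cU_std (w y : ℂ) : cU ![(1 + w) / 2, I * (1 - w) / 2, y] = w := by
  have : cU ![(1 + w) / 2, I * (1 - w) / 2, y] = (1 + w) / 2 + I * I * (1 - w) / 2 := by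
    show (1 + w) / 2 + I * (I * (1 - w) / 2) = _
    ring
  rw [this, I_mul_I]
  ring

lemma cV_std (w y : ℂ) : cV ![(1 + w) / 2, I * (1 - w) / 2, y] = 1 := by
  have : cV ![(1 + w) / 2, I * (1 - w) / 2, y] = (1 + w) / 2 - I * I * (1 - w) / 2 := by
    show (1 + w) / 2 - I * (I * (1 - w) / 2) = _
    ring
  rw [this, I_mul_I]
  ring

/-- the centre is not on the curve -/
lemma ne_zero_of_aeval (nf : Normal f) {v : Fin 3 → ℂ} (hv : v ≠ 0)
    (h : MvPolynomial.aeval v f = 0) : v 0 ≠ 0 ∨ v 1 ≠ 0 := by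
  by_contra hcon
  push Not at hcon
  have h1 : v 2 ≠ 0 := by
    intro h2
    apply hv
    ext i
    fin_cases i
    · exact hcon.1
    · exact hcon.2
    · exact h2
  have h2 : v = ![0, 0, v 2] := by
    ext i
    fin_cases i
    · exact hcon.1
    · exact hcon.2
    · rfl
  rw [h2, ← aeval_dir] at h
  have h3 : dir f 0 0 = X ^ 8 := by
    ext j
    rw [coeff_X_pow]
    by_cases hj : j = 8
    · rw [if_pos hj, hj, coeff_dir_eight nf]
    · rw [if_neg hj, coeff_dir]
      refine Finset.sum_eq_zero fun d hd => ?_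
      rw [Finset.mem_filter] at hd
      have h4 := sum_of_mem_support nf.hom hd.1
      by_cases h0 : d 0 = 0
      · have : d 1 ≠ 0 := by omega
        rw [zero_pow this, mul_zero]
      · rw [zero_pow h0, mul_zero, zero_mul]
  rw [h3, eval_pow, eval_X] at h
  exact h1 (pow_eq_zero_iff (by norm_num) |>.1 h)

/-! ### the circle -/

lemma norm_circ (θ : ℝ) : ‖circ θ‖ = 1 := by
  have : (2 * θ * I : ℂ) = ((2 * θ : ℝ) : ℂ) * I := by push_cast; ring
  rw [circ, this, Complex.norm_exp_ofReal_mul_I]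

lemma continuous_circ : Continuous circ := by
  unfold circ
  fun_prop

lemma half_one_add_circ (θ : ℝ) : (1 + circ θ) / 2 = exp (θ * I) * Real.cos θ := by
  have h1 : circ θ = exp (θ * I) * exp (θ * I) := by
    rw [circ, ← Complex.exp_add]
    congr 1
    ring
  have h2 : exp (θ * I) * exp (-(θ * I)) = 1 := by
    rw [← Complex.exp_add, add_neg_cancel, Complex.exp_zero]
  rw [h1, Complex.ofReal_cos, Complex.cos]
  have h3 : exp (θ * I) * ((exp (θ * I) + exp (-θ * I)) / 2) =
      (exp (θ * I) * exp (θ * I) + exp (θ * I) * exp (-(θ * I))) / 2 := by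
    rw [neg_mul]
    ring
  rw [h3, h2]
  ring

lemma half_one_sub_circ (θ : ℝ) : I * (1 - circ θ) / 2 = exp (θ * I) * Real.sin θ := by
  have h1 : circ θ = exp (θ * I) * exp (θ * I) := by
    rw [circ, ← Complex.exp_add]
    congr 1
    ring
  have h2 : exp (θ * I) * exp (-(θ * I)) = 1 := by
    rw [← Complex.exp_add, add_neg_cancel, Complex.exp_zero]
  rw [h1, Complex.ofReal_sin, Complex.sin]
  have h3 : exp (θ * I) * ((exp (-θ * I) - exp (θ * I)) * I / 2) =
      (exp (θ * I) * exp (-(θ * I)) - exp (θ * I) * exp (θ * I)) * I / 2 := by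
    rw [neg_mul]
    ring
  rw [h3, h2]
  ring

/-- the family on the circle -/
lemma fam_circ {m : ℕ} (hf : f.IsHomogeneous m) (θ : ℝ) (η : ℂ) :
    (fam f (circ θ)).eval (exp (θ * I) * η) = exp (θ * I) ^ m * Polynomial.aeval η (gr f θ) := by
  rw [fam, aeval_dir, half_one_add_circ, half_one_sub_circ, aeval_gr, ← aeval_smul_hom hf]
  congr 1
  congr 1
  ext i
  fin_cases i <;> simp

lemma circ_surj {w : ℂ} (hw : ‖w‖ = 1) : ∃ θ : ℝ, 0 ≤ θ ∧ θ < Real.pi ∧ circ θ = w := by
  have h0 : w ≠ 0 := by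
    intro h
    rw [h, norm_zero] at hw
    norm_num at hw
  have h1 : w = exp (arg w * I) := by
    conv_lhs => rw [← Complex.norm_mul_exp_arg_mul_I w]
    rw [hw]
    simp
  by_cases h : 0 ≤ arg w
  · refine ⟨arg w / 2, by positivity, ?_, ?_⟩
    · have := Complex.arg_le_pi w
      have := Real.pi_pos
      linarith
    · conv_rhs => rw [h1]
      rw [circ]
      congr 1
      push_cast
      ring
  · push Not at h
    refine ⟨arg w / 2 + Real.pi, ?_, ?_, ?_⟩
    · have := Complex.neg_pi_lt_arg w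
      linarith [Real.pi_pos]
    · linarith
    · conv_rhs => rw [h1]
      rw [circ, ← Complex.exp_periodic (arg w * I)]
      congr 1
      push_cast
      ring

end Pool.Agent.Rohlin
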