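import Pool.Agent.Rohlin.Spin

/-!
# The local structure at a branch point (statement)
-/

set_option autoImplicit false

namespace Pool.Agent.Rohlin

open Polynomial Complex Set Matrix Filter Topology

namespace Ctx

variable {n : Type} [Fintype n] [DecidableEq n] (X : Ctx n)

/-- the local structure at the branch point `z` in the coordinate `t = tvar c z w`,
`w = z + t ^ 2 * (c - z)`: the labels `a`, `b` are `Y t` and `Y (-t)`, the square roots of the
derivative are `t ^ (1/2) * H t` and `ε * I * t ^ (1/2) * H (-t)`, the other labels converge -/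
structure LocalAt (z : ℂ) (D : LocalData 4) : Prop where
  anY : AnalyticAt ℂ D.Y 0
  anH : AnalyticAt ℂ D.H 0
  root : ∀ᶠ t in 𝓝 (0 : ℂ), (fam X.f (z + t ^ 2 * (X.c - z))).eval (D.Y t) = 0
  der : ∀ᶠ t in 𝓝 (0 : ℂ),
    (derivative (fam X.f (z + t ^ 2 * (X.c - z)))).eval (D.Y t) = t * D.H t ^ 2
  ya : ∀ᶠ w in 𝓝[X.D] z, X.y D.a w = D.Y (tvar X.c z w)
  yb : ∀ᶠ w in 𝓝[X.D] z, X.y D.b w = D.Y (-tvar X.c z w)
  sa : ∀ᶠ w in 𝓝[X.D] z, X.s D.a w = rt (tvar X.c z w) * D.H (tvar X.c z w)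
  sb : ∀ᶠ w in 𝓝[X.D] z,
    X.s D.b w = D.ε * I * rt (tvar X.c z w) * D.H (-tvar X.c z w)
  y_other : ∀ i, i ≠ D.a → i ≠ D.b → Tendsto (X.y i) (𝓝[X.D] z) (𝓝 (D.y i))
  s_other : ∀ i, i ≠ D.a → i ≠ D.b → Tendsto (X.s i) (𝓝[X.D] z) (𝓝 (D.s i))

/-- LOCAL: every branch point has a local structure -/
def LocalOK : Prop := ∀ z ∈ X.Z, ∃ D : LocalData 4, X.LocalAt z D

end Ctx

end Pool.Agent.Rohlin
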