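import Pool.Agent.Rohlin.SpinGeo
import Pool.Agent.Rohlin.LocalDefs
import Pool.Agent.Rohlin.Fam
import Pool.Agent.Rohlin.Steps

/-!
# Crossing the slit of an interior branch point
-/

set_option autoImplicit false

namespace Pool.Agent.Rohlin

open Polynomial Complex Set Matrix Filter Topology

/-! ### a frame on the cone which agrees with a given frame on one side -/

theorem exists_agree {m : ℕ} {F : Family m} {D0 K Kp : Set ℂ} (fr : Frame F D0) (hK : IsOpen K)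
    (hKs : IsSimplyConnected K) (hKp : IsPreconnected Kp) (hne : Kp.Nonempty) (hsub : Kp ⊆ K)
    (hsub0 : Kp ⊆ D0) (hreg : K ⊆ F.reg) :
    ∃ fr' : Frame F K, ∀ w ∈ Kp, ∀ i, fr'.y i w = fr.y i w ∧ fr'.s i w = fr.s i w := by
  obtain ⟨fr1⟩ := exists_frame F hK hKs hreg
  have hsel : ∀ i, ∃ j, ∀ w ∈ Kp, fr.y i w = fr1.y j w := fun i =>
    select hKp hne (fr.y i) ((fr.contY i).mono hsub0) fr1.y (fun j => (fr1.contY j).mono hsub)
      (fun w hw => fr1.inj w (hsub hw))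
      (fun w hw => fr1.exists_label (hsub hw) (fr.root w (hsub0 hw) i))
  choose π hπ using hsel
  obtain ⟨w0, hw0⟩ := hne
  have hπinj : Function.Injective π := by
    intro i j hij
    apply fr.inj w0 (hsub0 hw0)
    change fr.y i w0 = fr.y j w0
    rw [hπ i w0 hw0, hπ j w0 hw0, hij]
  have hsign : ∀ i, ∃ σ : ℂ, σ ^ 2 = 1 ∧ ∀ w ∈ Kp, fr.s i w = σ * fr1.s (π i) w := by
    intro i
    rcases select_sign hKp ⟨w0, hw0⟩ (fr.s i) (fr1.s (π i)) ((fr.contS i).mono hsub0)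
      ((fr1.contS _).mono hsub) (fun w hw => fr1.s_ne_zero (hsub hw) _) (fun w hw => by
        rw [fr.sq w (hsub0 hw), fr1.sq w (hsub hw), hπ i w hw]) with h | h
    · exact ⟨1, by norm_num, fun w hw => by rw [h w hw, one_mul]⟩
    · exact ⟨-1, by norm_num, fun w hw => by rw [h w hw, neg_one_mul]⟩
  choose σ hσ hσs using hsign
  refine ⟨⟨fun i => fr1.y (π i), fun i w => σ i * fr1.s (π i) w, fun i => fr1.contY _,
    fun i => continuousOn_const.mul (fr1.contS _), fun x hx i => fr1.root x hx _,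
    fun x hx i j hij => hπinj (fr1.inj x hx hij), fun x hx i => ?_⟩, fun w hw i => ?_⟩
  · rw [mul_pow, hσ, one_mul, fr1.sq x hx]
  · exact ⟨(hπ i w hw).symm, (hσs i w hw).symm⟩

theorem exists_agree_l {k : ℕ} {F : Family (2 * (k + 1))} {D0 K Kp : Set ℂ} (fr : Frame F D0)
    (fr' : Frame F K) (hK : IsOpen K) (hKs : IsSimplyConnected K) (hKp : IsPreconnected Kp)
    (hne : Kp.Nonempty) (hsub : Kp ⊆ K) (hsub0 : Kp ⊆ D0)
    (hag : ∀ w ∈ Kp, ∀ i, fr'.y i w = fr.y i w ∧ fr'.s i w = fr.s i w)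
    {n : Type} [Fintype n] [DecidableEq n] (M : Majorana (2 * (k + 1)) n) (C : Matrix n n ℂ)
    (hn : Fintype.card n = 2 ^ (k + 1)) (hCC : Cᴴ * C = 1)
    (hC : ∀ a, C * M.e a = (-1 : ℂ) ^ (k + 1) • ((M.e a)ᵀ * C))
    (hCT : Cᵀ = (-1 : ℂ) ^ ((k + 1) * (k + 1 + 1) / 2) • C) (L : ℂ → n → ℂ)
    (hL : ContinuousOn L D0)
    (hLL : ∀ w ∈ D0, C * M.R (fr.v (k + 1) w) = vecMulVec (L w) (L w)) :
    ∃ L' : ℂ → n → ℂ, ContinuousOn L' K ∧
      (∀ w ∈ K, C * M.R (fr'.v (k + 1) w) = vecMulVec (L' w) (L' w)) ∧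
      ∀ w ∈ Kp, L' w = L w := by
  obtain ⟨l, hl, hl0, hll⟩ := fr'.exists_l M (k := k + 1) le_rfl hn C hCC hC hCT hK hKs
  have hv : ∀ w ∈ Kp, fr'.v (k + 1) w = fr.v (k + 1) w := by
    intro w hw
    funext j i
    rw [fr'.v_apply, fr.v_apply, (hag w hw i).1, (hag w hw i).2]
  obtain ⟨j, hj⟩ := select hKp hne L (hL.mono hsub0)
    (fun j : Bool => fun w => if j then l w else -l w) (by
      intro j
      cases j
      · simp only [Bool.false_eq_true, if_false]
        exact (hl.mono hsub).neg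
      · simp only [if_true]
        exact hl.mono hsub) (by
      intro w hw i j hij
      have h1 : ∀ x : n → ℂ, x ≠ 0 → x ≠ -x := by
        intro x hx h2
        apply hx
        funext i
        have h3 := congrFun h2 i
        simp only [Pi.neg_apply] at h3
        simp only [Pi.zero_apply]
        linear_combination (1 / 2 : ℂ) * h3
      cases i <;> cases j <;> simp at hij ⊢
      · exact h1 _ (hl0 w (hsub hw)) hij.symm
      · exact h1 _ (hl0 w (hsub hw)) hij) (by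
      intro w hw
      have h2 : vecMulVec (L w) (L w) = vecMulVec (l w) (l w) := by
        rw [← hLL w (hsub0 hw), ← hll w (hsub hw), hv w hw]
      rcases eq_or_eq_neg_of_vecMulVec h2 with h1 | h1
      · exact ⟨true, by simpa using h1⟩
      · exact ⟨false, by simpa using h1⟩)
  cases j
  · refine ⟨fun w => -l w, hl.neg, fun w hw => ?_, fun w hw => ?_⟩
    · rw [hll w hw]
      ext i j
      simp [Matrix.vecMulVec_apply]
    · have := hj w hw
      simp only [Bool.false_eq_true, if_false] at this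
      exact this.symm
  · refine ⟨l, hl, hll, fun w hw => ?_⟩
    have := hj w hw
    simp only [if_true] at this
    exact this.symm

namespace Ctx

variable {n : Type} [Fintype n] [DecidableEq n] (X : Ctx n)

/-- the family extended to the plane -/
noncomputable def famE : Family (2 * (3 + 1)) :=
  (famF X.nf).comp (retr X.c) (continuous_retr X.hc)

theorem famE_P (w : ℂ) : X.famE.P w = fam X.f (retr X.c w) := rfl

theorem famE_P' {w : ℂ} (h : ‖w‖ ≤ 1) : X.famE.P w = fam X.f w := by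
  rw [famE_P, retr_eq_self h]

theorem retr_mem_D {w : ℂ} (h : w ∈ Star X.c X.Z) : retr X.c w ∈ X.D :=
  ⟨retr_mem_Star X.cZ h, norm_retr_le X.hc w⟩

theorem mapsTo_retr : MapsTo (retr X.c) (Star X.c X.Z) X.D := fun _ h => X.retr_mem_D h

/-- the frame extended to the star domain -/
noncomputable def frE : Frame X.famE (Star X.c X.Z) where
  y i w := X.y i (retr X.c w)
  s i w := X.s i (retr X.c w)
  contY i := (X.y_cont i).comp (continuous_retr X.hc).continuousOn X.mapsTo_retr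
  contS i := (X.s_cont i).comp (continuous_retr X.hc).continuousOn X.mapsTo_retr
  root _ hx i := X.y_root _ (X.retr_mem_D hx).1 (X.retr_mem_D hx).2 i
  inj _ hx := X.y_inj _ (X.retr_mem_D hx).1 (X.retr_mem_D hx).2
  sq _ hx i := X.s_sq _ (X.retr_mem_D hx).1 (X.retr_mem_D hx).2 i

theorem frE_y (i : Fin 8) (w : ℂ) : X.frE.y i w = X.y i (retr X.c w) := rfl

theorem frE_s (i : Fin 8) (w : ℂ) : X.frE.s i w = X.s i (retr X.c w) := rfl

/-- the extended spinor -/
noncomputable def lE (w : ℂ) : n → ℂ := X.l (retr X.c w)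

theorem lE_cont : ContinuousOn X.lE (Star X.c X.Z) :=
  X.l_cont.comp (continuous_retr X.hc).continuousOn X.mapsTo_retr

theorem lE_sq {w : ℂ} (hw : w ∈ Star X.c X.Z) :
    X.C * X.M.R (X.frE.v (3 + 1) w) = vecMulVec (X.lE w) (X.lE w) :=
  X.l_sq _ (X.retr_mem_D hw).1 (X.retr_mem_D hw).2

theorem hC4 (a : Fin 8) : X.C * X.M.e a = (-1 : ℂ) ^ (3 + 1) • ((X.M.e a)ᵀ * X.C) := by
  rw [X.hC a]
  norm_num

theorem hCT4 : X.Cᵀ = (-1 : ℂ) ^ ((3 + 1) * (3 + 1 + 1) / 2) • X.C := by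
  rw [X.hCT]
  norm_num

include X in
theorem nonempty_n : Nonempty n := by
  rw [← Fintype.card_pos_iff, X.card]
  norm_num

theorem lE_ne_zero {w : ℂ} (hw : w ∈ Star X.c X.Z) : X.lE w ≠ 0 := by
  have := X.nonempty_n
  intro h
  have h1 := X.lE_sq hw
  rw [h] at h1
  apply X.M.R_ne_zero (X.frE.v (3 + 1) w) (X.frE.v_iso le_rfl hw)
    (X.frE.v_linearIndependent (by norm_num) hw)
  have h2 := congrArg (fun A => X.Cᴴ * A) h1
  have h3 : vecMulVec (0 : n → ℂ) (0 : n → ℂ) = 0 := by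
    ext i j
    simp [Matrix.vecMulVec_apply]
  simp only [h3, Matrix.mul_zero, ← Matrix.mul_assoc, X.hCC, Matrix.one_mul] at h2
  exact h2

theorem c_ne {z : ℂ} (hz : z ∈ X.Z) : X.c ≠ z := fun h => X.cZ (h ▸ hz)

theorem notMem_erase (z : ℂ) : X.c ∉ X.Z.erase z := fun h => X.cZ (Finset.mem_of_mem_erase h)

theorem mem_Star_erase {z : ℂ} (hz : z ∈ X.Z) : z ∈ Star X.c (X.Z.erase z) := by
  intro z' hz' t ht h
  refine X.cgen2 z hz z' (Finset.mem_of_mem_erase hz') (Finset.ne_of_mem_erase hz').symm 0 t le_rfl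
    ht ?_
  simpa using h

/-- the branch points are in the closure of `D` -/
theorem neBot_D {z : ℂ} (hz : z ∈ X.Z) : (𝓝[X.D] z).NeBot := by
  rw [← mem_closure_iff_nhdsWithin_neBot]
  have hcz := X.c_ne hz
  have h1 : Tendsto (fun j : ℕ => phi X.c z ((((1 : ℝ) / (j + 1) : ℝ)) : ℂ)) atTop (𝓝 z) := by
    have h2 : Tendsto (fun j : ℕ => (((1 : ℝ) / (j + 1) : ℝ) : ℂ)) atTop (𝓝 ((0 : ℝ) : ℂ)) :=
      (Complex.continuous_ofReal.tendsto _).comp tendsto_one_div_add_atTop_nhds_zero_nat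
    have h3 := ((continuous_phi X.c z).tendsto ((0 : ℝ) : ℂ)).comp h2
    have h4 : phi X.c z ((0 : ℝ) : ℂ) = z := by simp [phi]
    rw [h4] at h3
    exact h3
  refine mem_closure_of_tendsto h1 ?_
  have h2 : Tendsto (fun j : ℕ => (((1 : ℝ) / (j + 1) : ℝ) : ℂ)) atTop (𝓝 (0 : ℂ)) := by
    have := (Complex.continuous_ofReal.tendsto _).comp
      (tendsto_one_div_add_atTop_nhds_zero_nat (𝕜 := ℝ))
    rw [Complex.ofReal_zero] at this
    exact this
  have h3 := h2.eventually (phi_mem_Star X.cZ hcz (X.mem_Star_erase hz))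
  filter_upwards [h3] with j hj
  have hpos : (0 : ℝ) < 1 / (j + 1) := by positivity
  have hle : (1 : ℝ) / (j + 1) ≤ 1 := by
    rw [div_le_one (by positivity)]
    have : (0 : ℝ) ≤ j := Nat.cast_nonneg j
    linarith
  refine ⟨hj (by rw [Complex.ofReal_re]; exact hpos), ?_⟩
  change ‖phi X.c z _‖ ≤ 1
  have hz1 := ((X.hZ z).1 hz).1
  have h5 : phi X.c z (((1 : ℝ) / (j + 1) : ℝ) : ℂ) =
      (((1 - ((1 : ℝ) / (j + 1)) ^ 2 : ℝ)) : ℂ) * z +
        ((((1 : ℝ) / (j + 1)) ^ 2 : ℝ) : ℂ) * X.c := by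
    rw [phi]
    push_cast
    ring
  rw [h5]
  have h6 : ((1 : ℝ) / (j + 1)) ^ 2 ≤ 1 := pow_le_one₀ hpos.le hle
  refine (norm_add_le _ _).trans ?_
  rw [norm_mul, norm_mul, norm_real, norm_real, Real.norm_of_nonneg (by linarith),
    Real.norm_of_nonneg (by positivity)]
  have h7 := X.hc.le
  have h8 : (0 : ℝ) ≤ ((1 : ℝ) / (j + 1)) ^ 2 := by positivity
  nlinarith

section Local

variable {X} {z : ℂ} {D : LocalData 4} (hD : X.LocalAt z D) (hz : z ∈ X.Z)

include hD in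
theorem LocalAt.tendsto_a : Tendsto (X.y D.a) (𝓝[X.D] z) (𝓝 (D.Y 0)) := by
  have h1 : Tendsto (fun w => D.Y (tvar X.c z w)) (𝓝[X.D] z) (𝓝 (D.Y 0)) :=
    (hD.anY.continuousAt.tendsto.comp (tendsto_tvar_self X.c z)).mono_left nhdsWithin_le_nhds
  exact h1.congr' (hD.ya.mono fun w hw => hw.symm)

include hD in
theorem LocalAt.tendsto_b : Tendsto (X.y D.b) (𝓝[X.D] z) (𝓝 (D.Y 0)) := by
  have h0 : Tendsto (fun w => -tvar X.c z w) (𝓝 z) (𝓝 0) := by
    simpa using (tendsto_tvar_self X.c z).neg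
  have h1 : Tendsto (fun w => D.Y (-tvar X.c z w)) (𝓝[X.D] z) (𝓝 (D.Y 0)) :=
    (hD.anY.continuousAt.tendsto.comp h0).mono_left nhdsWithin_le_nhds
  exact h1.congr' (hD.yb.mono fun w hw => hw.symm)

include hD in
/-- the labels `a`, `b` collide -/
theorem LocalAt.coll : X.Coll z D.a D.b := ⟨D.hab, D.Y 0, hD.tendsto_a, hD.tendsto_b⟩

include hD hz in
/-- and no other labels -/
theorem LocalAt.coll_unique (a' b' : Fin 8) (h : X.Coll z a' b') :
    (a' = D.a ∧ b' = D.b) ∨ (a' = D.b ∧ b' = D.a) := by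
  have hnb := X.neBot_D hz
  obtain ⟨hne, L, ha, hb⟩ := h
  -- the limits of all labels
  have hlim : ∀ i : Fin 8, Tendsto (X.y i) (𝓝[X.D] z)
      (𝓝 (if i = D.a ∨ i = D.b then D.Y 0 else D.y i)) := by
    intro i
    by_cases h1 : i = D.a
    · rw [if_pos (Or.inl h1), h1]
      exact hD.tendsto_a
    · by_cases h2 : i = D.b
      · rw [if_pos (Or.inr h2), h2]
        exact hD.tendsto_b
      · rw [if_neg (not_or.2 ⟨h1, h2⟩)]
        exact hD.y_other i h1 h2
  have e1 := tendsto_nhds_unique ha (hlim a')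
  have e2 := tendsto_nhds_unique hb (hlim b')
  by_cases ha' : a' = D.a ∨ a' = D.b
  · by_cases hb' : b' = D.a ∨ b' = D.b
    · rcases ha' with h1 | h1 <;> rcases hb' with h2 | h2
      · exact absurd (h1.trans h2.symm) hne
      · exact Or.inl ⟨h1, h2⟩
      · exact Or.inr ⟨h1, h2⟩
      · exact absurd (h1.trans h2.symm) hne
    · rw [if_pos ha'] at e1
      rw [if_neg hb'] at e2
      rw [not_or] at hb'
      exact absurd (e2.symm.trans e1) (D.hyY b' hb'.1 hb'.2)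
  · rw [if_neg ha'] at e1
    by_cases hb' : b' = D.a ∨ b' = D.b
    · rw [if_pos hb'] at e2
      rw [not_or] at ha'
      exact absurd (e1.symm.trans e2) (D.hyY a' ha'.1 ha'.2)
    · rw [if_neg hb'] at e2
      rw [not_or] at ha' hb'
      exact absurd (e1.symm.trans e2) (D.hinj a' b' ha'.1 ha'.2 hb'.1 hb'.2 hne)

end Local

/-- the frame across the slit of the branch point `z`, over the neighbourhood `V` of the point `p`
of the slit: `yt`, `st`, `lt` agree with `X.y`, `X.s`, `X.l` on the side `0 < Im (sc c z w)` (smaller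
angles), and they are related by the exchange of `a` and `b` on the other side -/
structure CrossAt (z p : ℂ) (a b : Fin 8) (τ : ℂ) (V : Set ℂ) (yt st : Fin 8 → ℂ → ℂ)
    (lt : ℂ → n → ℂ) : Prop where
  hab : a ≠ b
  hτ : τ = 1 ∨ τ = -1
  isOpen : IsOpen V
  convex : Convex ℝ V
  mem : p ∈ V
  y_cont : ∀ i, ContinuousOn (yt i) V
  s_cont : ∀ i, ContinuousOn (st i) V
  l_cont : ContinuousOn lt V
  root : ∀ w ∈ V, ‖w‖ ≤ 1 → ∀ i, (fam X.f w).eval (yt i w) = 0
  inj : ∀ w ∈ V, ‖w‖ ≤ 1 → Function.Injective fun i => yt i w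
  sq : ∀ w ∈ V, ‖w‖ ≤ 1 → ∀ i, st i w ^ 2 = (derivative (fam X.f w)).eval (yt i w)
  lsq : ∀ w ∈ V, ‖w‖ ≤ 1 →
    X.C * X.M.R (vfam (fun i => yt i w) fun i => st i w) = vecMulVec (lt w) (lt w)
  memD : ∀ w ∈ V, ‖w‖ ≤ 1 → (sc X.c z w).im ≠ 0 → w ∈ X.D
  y_before : ∀ w ∈ V, ‖w‖ ≤ 1 → 0 < (sc X.c z w).im → ∀ i, X.y i w = yt i w
  s_before : ∀ w ∈ V, ‖w‖ ≤ 1 → 0 < (sc X.c z w).im → ∀ i, X.s i w = st i w
  l_before : ∀ w ∈ V, ‖w‖ ≤ 1 → 0 < (sc X.c z w).im → X.l w = lt w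
  y_a : ∀ w ∈ V, ‖w‖ ≤ 1 → (sc X.c z w).im < 0 → X.y a w = yt b w
  y_b : ∀ w ∈ V, ‖w‖ ≤ 1 → (sc X.c z w).im < 0 → X.y b w = yt a w
  s_a : ∀ w ∈ V, ‖w‖ ≤ 1 → (sc X.c z w).im < 0 → X.s a w = τ * st b w
  s_b : ∀ w ∈ V, ‖w‖ ≤ 1 → (sc X.c z w).im < 0 → X.s b w = -τ * st a w
  y_other : ∀ w ∈ V, ‖w‖ ≤ 1 → (sc X.c z w).im < 0 → ∀ i, i ≠ a → i ≠ b → X.y i w = yt i w
  s_other : ∀ w ∈ V, ‖w‖ ≤ 1 → (sc X.c z w).im < 0 → ∀ i, i ≠ a → i ≠ b → X.s i w = st i w
  l_after : ∀ w ∈ V, ‖w‖ ≤ 1 → (sc X.c z w).im < 0 → lt w = X.l w ᵥ* Bfac X.M a b τ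

section Cross

variable {X} {z : ℂ} {D : LocalData 4}

theorem tendsto_phi (c z : ℂ) : Tendsto (phi c z) (𝓝 0) (𝓝 z) := by
  have := (continuous_phi c z).tendsto 0
  simpa [phi] using this

theorem norm_phi (c : ℂ) {z : ℂ} (hz1 : ‖z‖ < 1) : ∀ᶠ t in 𝓝 (0 : ℂ), ‖phi c z t‖ ≤ 1 := by
  have h1 := (tendsto_phi c z).norm.eventually (gt_mem_nhds hz1)
  exact h1.mono fun t ht => ht.le

variable (X) in
theorem tendsto_phi_D (hz : z ∈ X.Z) (hz1 : ‖z‖ < 1) :
    Tendsto (phi X.c z) (𝓝[{t : ℂ | 0 < t.re}] 0) (𝓝[X.D] z) := by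
  rw [tendsto_nhdsWithin_iff]
  refine ⟨(tendsto_phi X.c z).mono_left nhdsWithin_le_nhds, ?_⟩
  have h1 := (phi_mem_Star X.cZ (X.c_ne hz) (X.mem_Star_erase hz)).filter_mono
    (nhdsWithin_le_nhds (s := {t : ℂ | 0 < t.re}))
  have h2 := (norm_phi X.c hz1).filter_mono (nhdsWithin_le_nhds (s := {t : ℂ | 0 < t.re}))
  filter_upwards [h1, h2, self_mem_nhdsWithin] with t h1 h2 h3
  exact ⟨h1 h3, h2⟩

theorem ev_retr (hz1 : ‖z‖ < 1) :
    ∀ᶠ t in 𝓝[{t : ℂ | 0 < t.re}] (0 : ℂ), retr X.c (phi X.c z t) = phi X.c z t := by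
  have h2 := (norm_phi X.c hz1).filter_mono (nhdsWithin_le_nhds (s := {t : ℂ | 0 < t.re}))
  exact h2.mono fun t ht => retr_eq_self ht

theorem LocalAt.holds (hD : X.LocalAt z D) (hz : z ∈ X.Z) (hz1 : ‖z‖ < 1) :
    D.Holds {t | 0 < t.re} (fun i t => X.frE.y i (phi X.c z t))
      (fun i t => X.frE.s i (phi X.c z t)) := by
  have hT := X.tendsto_phi_D hz hz1
  have hr := ev_retr (X := X) hz1
  have hcz := X.c_ne hz
  have hpos : ∀ᶠ t in 𝓝[{t : ℂ | 0 < t.re}] (0 : ℂ), tvar X.c z (phi X.c z t) = t := by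
    filter_upwards [self_mem_nhdsWithin] with t ht
    exact tvar_phi hcz ht
  refine ⟨?_, ?_, ?_, ?_, ?_, ?_⟩
  · filter_upwards [hT.eventually hD.ya, hr, hpos] with t h1 h2 h3
    rw [frE_y, h2, h1, h3]
  · filter_upwards [hT.eventually hD.yb, hr, hpos] with t h1 h2 h3
    rw [frE_y, h2, h1, h3]
  · filter_upwards [hT.eventually hD.sa, hr, hpos] with t h1 h2 h3
    rw [frE_s, h2, h1, h3]
  · filter_upwards [hT.eventually hD.sb, hr, hpos] with t h1 h2 h3
    rw [frE_s, h2, h1, h3]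
  · intro i hia hib
    refine ((hD.y_other i hia hib).comp hT).congr' ?_
    filter_upwards [hr] with t h2
    rw [Function.comp, frE_y, h2]
  · intro i hia hib
    refine ((hD.s_other i hia hib).comp hT).congr' ?_
    filter_upwards [hr] with t h2
    rw [Function.comp, frE_s, h2]

/-- **Crossing the slit** of an interior branch point. -/
theorem LocalAt.exists_cross (hD : X.LocalAt z D) (hz : z ∈ X.Z) (hz1 : ‖z‖ < 1) {p : ℂ} {t : ℝ}
    (ht : 0 < t) (hp : p = z + t * (z - X.c)) :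
    ∃ V yt st lt, X.CrossAt z p D.a D.b (-D.ε) V yt st lt := by
  have hne := X.nonempty_n
  have hcz := X.c_ne hz
  obtain ⟨α, hα, hcone⟩ := exists_cone X.cZ hcz (t + 1) (by linarith)
    (fun z' hz' hne t t' h h' => X.cgen2 z hz z' hz' (Ne.symm hne) t t' h h')
  have hT : 0 < t + 1 := by linarith
  set K := cone X.c z α (t + 1) with hK
  have hKo : IsOpen K := isOpen_cone _ _ _ _
  have hKc : Convex ℝ K := convex_cone hcz
  obtain ⟨w0, hw0⟩ := nonempty_coneP hcz hα hT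
  have hKs : IsSimplyConnected K := by
    have : ContractibleSpace K := hKc.contractibleSpace ⟨w0, hw0.1⟩
    exact SimplyConnectedSpace.ofContractible _
  have hKD : ∀ w ∈ K, (sc X.c z w).im ≠ 0 → w ∈ Star X.c X.Z := fun w hw him =>
    mem_Star_of_cone X.cZ (hcone hw) him
  have hreg : K ⊆ X.famE.reg := by
    intro w hw
    change (fam X.f (retr X.c w)).Separable
    by_contra hcon
    have hmem := (X.hZ _).2 ⟨norm_retr_le X.hc w, hcon⟩
    by_cases h : retr X.c w = z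
    · have h2 : ‖retr X.c w‖ < 1 := by rw [h]; exact hz1
      have h3 := retr_eq_of_norm_lt h2
      rw [h] at h3
      have h4 := hw.1
      rw [← h3, sc_self] at h4
      simp at h4
    · obtain ⟨r, hr, h2⟩ := eq_add_of_retr_eq (c := X.c) (w := w) rfl
      exact hcone hw _ (Finset.mem_erase.2 ⟨h, hmem⟩) r hr h2
  have hPsub : coneP X.c z α (t + 1) ⊆ K := fun w hw => hw.1
  have hPsub0 : coneP X.c z α (t + 1) ⊆ Star X.c X.Z := fun w hw => hKD w hw.1 hw.2.ne'
  have hPpre : IsPreconnected (coneP X.c z α (t + 1)) := (convex_coneP hcz).isPreconnected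
  obtain ⟨fr', hag⟩ := exists_agree X.frE hKo hKs hPpre ⟨w0, hw0⟩ hPsub hPsub0 hreg
  obtain ⟨L', hL', hLL', hLag⟩ := exists_agree_l (k := 3) X.frE fr' hKo hKs hPpre ⟨w0, hw0⟩ hPsub
    hPsub0 hag X.M X.C X.card X.hCC X.hC4 X.hCT4 X.lE X.lE_cont (fun w hw => X.lE_sq hw)
  obtain ⟨β, hβ, hphiK⟩ := phi_mem_cone hcz hα hT
  have hCr : CrossHyp (k := 3) X.frE fr' X.c z D β := by
    refine ⟨hcz, hβ, hKc, hKD, phi_mem_Star X.cZ hcz (X.mem_Star_erase hz), hphiK,
      hD.holds hz hz1, ?_, ?_, hD.anY.eventually_analyticAt.mono fun t ht => ht.continuousAt,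
      hD.anH.eventually_analyticAt.mono fun t ht => ht.continuousAt,
      fun w hw him i => hag w ⟨hw, him⟩ i⟩
    · filter_upwards [hD.root, norm_phi X.c hz1] with t h1 h2
      rw [X.famE_P' h2]
      exact h1
    · filter_upwards [hD.der, norm_phi X.c hz1] with t h1 h2
      rw [X.famE_P' h2]
      exact h1
  have hspin := hCr.spinor X.M X.C X.hCC X.hC4 X.lE L' X.lE_cont (fun w hw => X.lE_ne_zero hw)
    (fun w hw => X.lE_sq hw) hL' hLL' (fun w hw him => hLag w ⟨hw, him⟩)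
  have hε : D.ε ^ 2 = 1 := D.ε_sq
  refine ⟨K, fr'.y, fr'.s, L', D.hab, ?_, hKo, hKc, ?_, fr'.contY, fr'.contS, hL', ?_, ?_, ?_, ?_,
    ?_, ?_, ?_, ?_, ?_, ?_, ?_, ?_, ?_, ?_, ?_⟩
  · rcases D.hε with h | h
    · right; rw [h]
    · left; rw [h]; norm_num
  · have h1 : sc X.c z p = ((-t : ℝ) : ℂ) := by
      rw [hp, show z + (t : ℂ) * (z - X.c) = z + ((-t : ℝ) : ℂ) * (X.c - z) by push_cast; ring,
        sc_point hcz]
    refine ⟨?_, ?_, ?_⟩ <;> rw [h1]
    · rw [ofReal_re]; linarith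
    · rw [ofReal_im, ofReal_re, abs_zero]
      have : 0 < α * t := mul_pos hα ht
      linarith
    · rw [ofReal_re]; linarith
  · intro w hw h1 i
    have := fr'.root w hw i
    rwa [X.famE_P' h1] at this
  · intro w hw _
    exact fr'.inj w hw
  · intro w hw h1 i
    have := fr'.sq w hw i
    rwa [X.famE_P' h1] at this
  · intro w hw _
    exact hLL' w hw
  · intro w hw h1 him
    exact ⟨hKD w hw him, h1⟩
  · intro w hw h1 him i
    have := (hag w ⟨hw, him⟩ i).1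
    rw [frE_y, retr_eq_self h1] at this
    exact this.symm
  · intro w hw h1 him i
    have := (hag w ⟨hw, him⟩ i).2
    rw [frE_s, retr_eq_self h1] at this
    exact this.symm
  · intro w hw h1 him
    have := hLag w ⟨hw, him⟩
    rw [lE, retr_eq_self h1] at this
    exact this.symm
  · intro w hw h1 him
    have := (hCr.labels w ⟨hw, him⟩).1
    rwa [frE_y, retr_eq_self h1] at this
  · intro w hw h1 him
    have := (hCr.labels w ⟨hw, him⟩).2.1
    rwa [frE_y, retr_eq_self h1] at this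
  · intro w hw h1 him
    have := (hCr.sq_ab w ⟨hw, him⟩).2
    rwa [frE_s, retr_eq_self h1] at this
  · intro w hw h1 him
    have := (hCr.sq_ab w ⟨hw, him⟩).1
    rw [frE_s, retr_eq_self h1] at this
    rw [this, neg_neg]
  · intro w hw h1 him i hia hib
    have := (hCr.labels w ⟨hw, him⟩).2.2 i hia hib
    rwa [frE_y, retr_eq_self h1] at this
  · intro w hw h1 him i hia hib
    have := (hCr.sq_other_SK i hia hib).2 w ⟨hw, him⟩
    rwa [frE_s, retr_eq_self h1] at this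
  · intro w hw h1 him
    have := hspin w ⟨hw, him⟩
    rw [lE, retr_eq_self h1] at this
    rw [this, Matrix.vecMul_vecMul, Bfac_mul_Bfac_neg X.M D.hab hε, Matrix.vecMul_one]

end Cross

end Ctx

end Pool.Agent.Rohlin
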