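import Pool.Agent.Rohlin.Fock

/-!
# Pure spinors: products of isotropic vectors, the trace formula, the quarter rotations
-/

namespace Pool.Agent.Rohlin

open Matrix
open scoped ComplexOrder

section Clifford

variable {m : ℕ} {n : Type} [Fintype n] [DecidableEq n] (M : Majorana m n)

/-- Clifford multiplication by a vector -/
noncomputable def Majorana.g (v : Fin m → ℂ) : Matrix n n ℂ := ∑ a, v a • M.e a

theorem Majorana.e_anti (a b : Fin m) :
    M.e a * M.e b + M.e b * M.e a = (if a = b then (2 : ℂ) else 0) • (1 : Matrix n n ℂ) := by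
  split_ifs with h
  · subst h; rw [M.sq]; module
  · rw [M.anti a b h]; simp

theorem Majorana.g_mul_add (v w : Fin m → ℂ) :
    M.g v * M.g w + M.g w * M.g v = (2 * (v ⬝ᵥ w)) • (1 : Matrix n n ℂ) := by
  have h0 : ∀ v w : Fin m → ℂ, M.g v * M.g w = ∑ a, ∑ b, (v a * w b) • (M.e a * M.e b) := by
    intro v w
    rw [Majorana.g, Majorana.g, Finset.sum_mul]
    refine Finset.sum_congr rfl fun a _ => ?_
    rw [Finset.mul_sum]
    refine Finset.sum_congr rfl fun b _ => ?_
    rw [Matrix.smul_mul, Matrix.mul_smul, smul_smul]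
  have h1 := h0 v w
  have h2 : M.g w * M.g v = ∑ a, ∑ b, (v a * w b) • (M.e b * M.e a) := by
    rw [h0 w v, Finset.sum_comm]
    refine Finset.sum_congr rfl fun a _ => ?_
    refine Finset.sum_congr rfl fun b _ => ?_
    rw [mul_comm]
  rw [h1, h2, ← Finset.sum_add_distrib]
  have h3 : ∀ a, (∑ b, (v a * w b) • (M.e a * M.e b)) + (∑ b, (v a * w b) • (M.e b * M.e a)) =
      (2 * (v a * w a)) • (1 : Matrix n n ℂ) := by
    intro a
    rw [← Finset.sum_add_distrib]
    rw [Finset.sum_eq_single a]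
    · rw [← smul_add, M.e_anti, if_pos rfl, smul_smul]; ring_nf
    · intro b _ hb
      rw [← smul_add, M.e_anti, if_neg (Ne.symm hb)]; simp
    · intro h; exact absurd (Finset.mem_univ _) h
  rw [Finset.sum_congr rfl fun a _ => h3 a, ← Finset.sum_smul, ← Finset.mul_sum]
  rfl

theorem Majorana.g_sq (v : Fin m → ℂ) (hv : v ⬝ᵥ v = 0) : M.g v * M.g v = 0 := by
  have := M.g_mul_add v v
  rw [hv, mul_zero, zero_smul, ← two_smul ℂ] at this
  exact (smul_eq_zero.mp this).resolve_left two_ne_zero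

theorem Majorana.g_anti (v w : Fin m → ℂ) (hv : v ⬝ᵥ w = 0) : M.g v * M.g w = -(M.g w * M.g v) := by
  have := M.g_mul_add v w
  rw [hv, mul_zero, zero_smul] at this
  exact eq_neg_of_add_eq_zero_left this

/-- the product of the Clifford multiplications by a family of vectors -/
noncomputable def Majorana.R {k : ℕ} (v : Fin k → Fin m → ℂ) : Matrix n n ℂ :=
  (List.ofFn fun j => M.g (v j)).prod

theorem Majorana.R_zero (v : Fin 0 → Fin m → ℂ) : M.R v = 1 := by simp [Majorana.R]

theorem Majorana.R_succ {k : ℕ} (v : Fin (k + 1) → Fin m → ℂ) :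
    M.R v = M.g (v 0) * M.R (fun j => v j.succ) := by
  rw [Majorana.R, List.ofFn_succ, List.prod_cons]; rfl

/-- moving a vector through a product (Wick). -/
theorem Majorana.g_mul_R (x : Fin m → ℂ) : ∀ {k : ℕ} (v : Fin (k + 1) → Fin m → ℂ),
    M.g x * M.R v = (∑ j : Fin (k + 1), ((-1 : ℂ) ^ (j : ℕ) * (2 * (x ⬝ᵥ v j))) • M.R (fun i => v (j.succAbove i)))
      + (-1 : ℂ) ^ (k + 1) • (M.R v * M.g x) := by
  intro k
  induction k with
  | zero =>
    intro v
    rw [Fin.sum_univ_succ]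
    simp only [Finset.univ_eq_empty, Finset.sum_empty, add_zero, Fin.val_zero, pow_zero, one_mul,
      zero_add, pow_one, M.R_succ, M.R_zero, mul_one]
    rw [← M.g_mul_add x (v 0)]
    simp
  | succ k ih =>
    intro v
    have h1 : M.g x * M.g (v 0) = (2 * (x ⬝ᵥ v 0)) • (1 : Matrix n n ℂ) - M.g (v 0) * M.g x := by
      rw [← M.g_mul_add x (v 0)]; abel
    rw [M.R_succ v, ← Matrix.mul_assoc, h1, Matrix.sub_mul, Matrix.smul_mul, one_mul,
      Matrix.mul_assoc, ih (fun j => v j.succ), Fin.sum_univ_succ (n := k + 1)]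
    have h2 : ∀ j : Fin (k + 1), M.R (fun i => v (j.succ.succAbove i)) =
        M.g (v 0) * M.R (fun i => v (j.succAbove i).succ) := by
      intro j
      rw [M.R_succ]
      simp
    have h3 : M.R (fun i => v ((0 : Fin (k + 2)).succAbove i)) = M.R (fun j => v j.succ) := by
      simp
    rw [h3, Matrix.mul_add, Finset.mul_sum]
    simp only [Fin.val_zero, pow_zero, one_mul, Fin.val_succ, h2, Matrix.mul_smul]
    rw [sub_add_eq_sub_sub, sub_eq_add_neg, sub_eq_add_neg, ← Finset.sum_neg_distrib]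
    congr 1
    · congr 1
      refine Finset.sum_congr rfl fun j _ => ?_
      rw [← neg_smul]
      congr 1
      ring
    · rw [← neg_smul, Matrix.mul_assoc]
      congr 1
      ring

theorem Majorana.g_mul_R_ortho (x : Fin m → ℂ) : ∀ {k : ℕ} (v : Fin k → Fin m → ℂ)
    (_ : ∀ j, x ⬝ᵥ v j = 0), M.g x * M.R v = (-1 : ℂ) ^ k • (M.R v * M.g x) := by
  intro k v hv
  cases k with
  | zero => simp [M.R_zero]
  | succ k => rw [M.g_mul_R x v]; simp [hv]

theorem Majorana.g_mul_R_mem : ∀ {k : ℕ} (v : Fin k → Fin m → ℂ)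
    (_ : ∀ i j, v i ⬝ᵥ v j = 0) (j : Fin k), M.g (v j) * M.R v = 0 := by
  intro k
  induction k with
  | zero => intro v _ j; exact j.elim0
  | succ k ih =>
    intro v hv j
    rw [M.R_succ, ← Matrix.mul_assoc]
    refine Fin.cases ?_ (fun j => ?_) j
    · rw [M.g_sq _ (hv 0 0), Matrix.zero_mul]
    · rw [M.g_anti _ _ (hv j.succ 0), Matrix.neg_mul, Matrix.mul_assoc,
        ih (fun j => v j.succ) (fun i j => hv _ _) j, Matrix.mul_zero, neg_zero]

theorem Majorana.R_mul_g_mem {k : ℕ} (v : Fin k → Fin m → ℂ)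
    (hv : ∀ i j, v i ⬝ᵥ v j = 0) (j : Fin k) : M.R v * M.g (v j) = 0 := by
  have h1 := M.g_mul_R_ortho (v j) v (fun i => hv j i)
  rw [M.g_mul_R_mem v hv j] at h1
  rcases smul_eq_zero.mp h1.symm with h2 | h2
  · exact absurd h2 (pow_ne_zero _ (by norm_num))
  · exact h2

/-- **Trace formula.** -/
theorem Majorana.trace_R_mul_R : ∀ {k : ℕ} (w v : Fin k → Fin m → ℂ)
    (_ : ∀ i j, w i ⬝ᵥ w j = 0), (M.R w * M.R v).trace =
      (-1 : ℂ) ^ (k * (k - 1) / 2) * Fintype.card n * (Matrix.of fun i j => w i ⬝ᵥ v j).det := by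
  intro k
  induction k with
  | zero => intro w v _; simp [M.R_zero]
  | succ k ih =>
    intro w v hw
    set T := (M.R w * M.R v).trace with hT
    have h1 : M.g (w 0) * M.R (fun j => w j.succ) =
        (-1 : ℂ) ^ k • (M.R (fun j => w j.succ) * M.g (w 0)) :=
      M.g_mul_R_ortho _ _ fun j => hw 0 j.succ
    have h2 : T = (M.R (fun j => w j.succ) * M.R v * M.g (w 0)).trace := by
      rw [hT, M.R_succ w, Matrix.mul_assoc, Matrix.trace_mul_comm]
    have h3 : T = (-1 : ℂ) ^ k * (∑ j : Fin (k + 1), ((-1 : ℂ) ^ (j : ℕ) * (2 * (w 0 ⬝ᵥ v j))) *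
        (M.R (fun j => w j.succ) * M.R (fun i => v (j.succAbove i))).trace) - T := by
      conv_lhs => rw [hT, M.R_succ w, h1, Matrix.smul_mul, Matrix.mul_assoc, M.g_mul_R (w 0) v]
      rw [Matrix.mul_add, Matrix.trace_smul, Matrix.trace_add, Matrix.mul_smul, Matrix.trace_smul,
        ← Matrix.mul_assoc, ← h2, Matrix.mul_sum, Matrix.trace_sum]
      simp only [Matrix.mul_smul, Matrix.trace_smul, smul_eq_mul]
      have h4 : ((-1 : ℂ) ^ k) * (-1) ^ k = 1 := by
        rw [← pow_add]; exact Even.neg_one_pow ⟨k, rfl⟩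
      rw [pow_succ]
      linear_combination (-T) * h4
    have h5 : ∀ j : Fin (k + 1), (M.R (fun j => w j.succ) * M.R (fun i => v (j.succAbove i))).trace =
        (-1 : ℂ) ^ (k * (k - 1) / 2) * Fintype.card n *
          ((Matrix.of fun i j => w i ⬝ᵥ v j).submatrix Fin.succ j.succAbove).det := by
      intro j
      rw [ih (fun j => w j.succ) (fun i => v (j.succAbove i)) (fun i j => hw _ _)]
      rfl
    rw [Matrix.det_succ_row_zero]
    have h6 : (k + 1) * (k + 1 - 1) / 2 = k + k * (k - 1) / 2 := by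
      cases k with
      | zero => rfl
      | succ k =>
        have : (k + 1 + 1) * (k + 1 + 1 - 1) = 2 * (k + 1) + (k + 1) * (k + 1 - 1) := by
          simp only [Nat.add_sub_cancel]; ring
        rw [this, Nat.mul_add_div (by norm_num)]
    rw [h6, pow_add]
    simp only [h5] at h3
    have h7 : T = (-1 : ℂ) ^ k * ∑ j : Fin (k + 1), ((-1 : ℂ) ^ (j : ℕ) * (w 0 ⬝ᵥ v j)) *
        ((-1 : ℂ) ^ (k * (k - 1) / 2) * Fintype.card n *
          ((Matrix.of fun i j => w i ⬝ᵥ v j).submatrix Fin.succ j.succAbove).det) := by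
      have : 2 * T = 2 * ((-1 : ℂ) ^ k * ∑ j : Fin (k + 1), ((-1 : ℂ) ^ (j : ℕ) * (w 0 ⬝ᵥ v j)) *
        ((-1 : ℂ) ^ (k * (k - 1) / 2) * Fintype.card n *
          ((Matrix.of fun i j => w i ⬝ᵥ v j).submatrix Fin.succ j.succAbove).det)) := by
        rw [← mul_assoc, mul_comm 2 ((-1 : ℂ) ^ k), mul_assoc, Finset.mul_sum]
        have h8 : 2 * T = (-1 : ℂ) ^ k * ∑ j : Fin (k + 1),
            ((-1 : ℂ) ^ (j : ℕ) * (2 * (w 0 ⬝ᵥ v j))) *
        ((-1 : ℂ) ^ (k * (k - 1) / 2) * Fintype.card n *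
          ((Matrix.of fun i j => w i ⬝ᵥ v j).submatrix Fin.succ j.succAbove).det) := by
          linear_combination h3
        rw [h8]
        congr 1
        refine Finset.sum_congr rfl fun j _ => ?_
        ring
      exact mul_left_cancel₀ two_ne_zero this
    rw [h7, Finset.mul_sum, Finset.mul_sum]
    refine Finset.sum_congr rfl fun j _ => ?_
    simp only [Matrix.of_apply]
    ring

end Clifford

/-! ### rank one -/

section RankOne

/-- A symmetric matrix of the form `p q` is `l l`. -/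
theorem exists_sq_of_symm {n : Type} (p q : n → ℂ)
    (hs : (vecMulVec p q)ᵀ = vecMulVec p q) : ∃ l : n → ℂ, vecMulVec p q = vecMulVec l l := by
  classical
  have h0 : ∀ i j, p i * q j = p j * q i := by
    intro i j
    have := congrFun (congrFun hs i) j
    simp only [Matrix.transpose_apply, Matrix.vecMulVec_apply] at this
    exact this.symm
  by_cases hz : vecMulVec p q = 0
  · exact ⟨0, by rw [hz]; ext i j; simp [Matrix.vecMulVec_apply]⟩
  obtain ⟨i, j, hij⟩ : ∃ i j, p i * q j ≠ 0 := by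
    by_contra hcon
    push Not at hcon
    exact hz (by ext i j; simpa [Matrix.vecMulVec_apply] using hcon i j)
  have hpi : p i ≠ 0 := left_ne_zero_of_mul hij
  have hqi : q i ≠ 0 := by
    intro h
    exact hij (by rw [h0 i j, h, mul_zero])
  obtain ⟨c, hc⟩ := IsAlgClosed.exists_eq_mul_self (p i * q i)
  have hc0 : c ≠ 0 := by
    rintro rfl
    rw [mul_zero] at hc
    exact mul_ne_zero hpi hqi hc
  refine ⟨fun j => p i * q j / c, ?_⟩
  ext a b
  rw [Matrix.vecMulVec_apply, Matrix.vecMulVec_apply, div_mul_div_comm, eq_div_iff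
    (mul_ne_zero hc0 hc0), ← hc]
  linear_combination (p i * q b) * h0 a i

variable {n : Type} [Fintype n] [DecidableEq n]

/-- An idempotent of trace one is a product column times row. -/
theorem exists_vecMulVec_of_idem (Q : Matrix n n ℂ) (hQ : Q * Q = Q) (ht : Q.trace = 1) :
    ∃ p q : n → ℂ, Q = vecMulVec p q := by
  have hidem : IsIdempotentElem (Matrix.toLin' Q) := by
    rw [IsIdempotentElem, Module.End.mul_eq_comp, ← Matrix.toLin'_mul, hQ]
  have h1 := (LinearMap.IsIdempotentElem.isProj_range _ hidem).trace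
  rw [Matrix.trace_toLin'_eq, ht] at h1
  have h2 : Module.finrank ℂ (LinearMap.range (Matrix.toLin' Q)) = 1 := by exact_mod_cast h1.symm
  obtain ⟨⟨r, hr⟩, -, hspan⟩ := finrank_eq_one_iff'.mp h2
  have h3 : ∀ j, ∃ c : ℂ, c • r = Q.col j := by
    intro j
    have hmem : Q.col j ∈ LinearMap.range (Matrix.toLin' Q) :=
      ⟨Pi.single j 1, by rw [Matrix.toLin'_apply, Matrix.mulVec_single_one]⟩
    obtain ⟨c, hc⟩ := hspan ⟨_, hmem⟩
    exact ⟨c, congrArg Subtype.val hc⟩
  choose c hc using h3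
  refine ⟨r, c, ?_⟩
  ext i j
  have := congrFun (hc j) i
  rw [Matrix.vecMulVec_apply, mul_comm]
  simpa using this.symm

end RankOne

section Pure

variable {m : ℕ} {n : Type} [Fintype n] [DecidableEq n] (M : Majorana m n)

/-- Contraction: `X * g(w_k) ... g(w_1) * g(v_1) ... g(v_k) = 2 ^ k X` when `X * g(v_j) = 0` and
`w` is dual to `v`. -/
theorem Majorana.contract : ∀ {k : ℕ} (X : Matrix n n ℂ) (w v : Fin k → Fin m → ℂ)
    (_ : ∀ i j, v i ⬝ᵥ w j = if i = j then 1 else 0) (_ : ∀ j, X * M.g (v j) = 0),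
    X * (List.ofFn fun j => M.g (w j)).reverse.prod * M.R v = (2 : ℂ) ^ k • X := by
  intro k
  induction k with
  | zero => intro X w v _ _; simp [M.R_zero]
  | succ k ih =>
    intro X w v hd hX
    set W := (List.ofFn fun j : Fin k => M.g (w j.succ)).reverse.prod with hW
    have h1 : (List.ofFn fun j => M.g (w j)).reverse.prod = W * M.g (w 0) := by
      rw [List.ofFn_succ, List.reverse_cons, List.prod_append]
      simp [hW]
    have h2 : W * M.g (v 0) = (-1 : ℂ) ^ k • (M.g (v 0) * W) := by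
      have : ∀ {k : ℕ} (w : Fin k → Fin m → ℂ) (_ : ∀ j, v 0 ⬝ᵥ w j = 0),
          (List.ofFn fun j => M.g (w j)).reverse.prod * M.g (v 0) =
            (-1 : ℂ) ^ k • (M.g (v 0) * (List.ofFn fun j => M.g (w j)).reverse.prod) := by
        intro k
        induction k with
        | zero => intro w _; simp
        | succ k ih2 =>
          intro w hw
          rw [List.ofFn_succ, List.reverse_cons, List.prod_append]
          simp only [List.prod_cons, List.prod_nil, mul_one]
          rw [Matrix.mul_assoc, M.g_anti (w 0) (v 0) (by rw [dotProduct_comm]; exact hw 0),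
            Matrix.mul_neg, ← Matrix.mul_assoc, ih2 (fun j => w j.succ) (fun j => hw _), pow_succ]
          simp [Matrix.mul_assoc]
      exact this (fun j => w j.succ) fun j => by rw [hd]; simp [(Fin.succ_ne_zero j).symm]
    have h3 : M.g (w 0) * M.g (v 0) = (2 : ℂ) • (1 : Matrix n n ℂ) - M.g (v 0) * M.g (w 0) := by
      have := M.g_mul_add (w 0) (v 0)
      rw [dotProduct_comm, hd, if_pos rfl, mul_one] at this
      rw [← this]; abel
    have h4 := ih X (fun j => w j.succ) (fun j => v j.succ) (fun i j => by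
      rw [hd]; simp) (fun j => hX _)
    calc X * (List.ofFn fun j => M.g (w j)).reverse.prod * M.R v
        = X * W * (M.g (w 0) * M.g (v 0)) * M.R (fun j => v j.succ) := by
          rw [h1, M.R_succ v]; simp only [Matrix.mul_assoc]
      _ = (2 : ℂ) • (X * W * M.R (fun j => v j.succ)) -
            X * (W * M.g (v 0)) * (M.g (w 0) * M.R (fun j => v j.succ)) := by
          rw [h3, Matrix.mul_sub, Matrix.sub_mul, Matrix.mul_smul, Matrix.smul_mul, mul_one]
          simp only [Matrix.mul_assoc]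
      _ = (2 : ℂ) ^ (k + 1) • X := by
          have hz : X * (W * M.g (v 0)) = 0 := by
            rw [h2, Matrix.mul_smul, ← Matrix.mul_assoc, hX 0, Matrix.zero_mul, smul_zero]
          rw [hz, Matrix.zero_mul, sub_zero, h4, smul_smul, pow_succ, mul_comm]

theorem Majorana.reverse_R : ∀ {k : ℕ} (w : Fin k → Fin m → ℂ) (_ : ∀ i j, w i ⬝ᵥ w j = 0),
    (List.ofFn fun j => M.g (w j)).reverse.prod = (-1 : ℂ) ^ (k * (k - 1) / 2) • M.R w := by
  intro k
  induction k with
  | zero => intro w _; simp [M.R_zero]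
  | succ k ih =>
    intro w hw
    have h6 : (k + 1) * (k + 1 - 1) / 2 = k + k * (k - 1) / 2 := by
      cases k with
      | zero => rfl
      | succ k =>
        have : (k + 1 + 1) * (k + 1 + 1 - 1) = 2 * (k + 1) + (k + 1) * (k + 1 - 1) := by
          simp only [Nat.add_sub_cancel]; ring
        rw [this, Nat.mul_add_div (by norm_num)]
    rw [List.ofFn_succ, List.reverse_cons, List.prod_append,
      ih (fun j => w j.succ) (fun i j => hw _ _), M.R_succ,
      M.g_mul_R_ortho (w 0) (fun j => w j.succ) (fun j => hw _ _), h6, pow_add, smul_smul]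
    simp only [List.prod_cons, List.prod_nil, mul_one, Matrix.smul_mul]
    congr 1
    have h4 : ((-1 : ℂ) ^ k) * (-1) ^ k = 1 := by
      rw [← pow_add]; exact Even.neg_one_pow ⟨k, rfl⟩
    linear_combination (-(-1 : ℂ) ^ (k * (k - 1) / 2)) * h4

/-- **`R v` has rank one** when `v` is isotropic with an isotropic dual family. -/
theorem Majorana.exists_R_eq {k : ℕ} (hn : Fintype.card n = 2 ^ k) (w v : Fin k → Fin m → ℂ)
    (hv : ∀ i j, v i ⬝ᵥ v j = 0) (hw : ∀ i j, w i ⬝ᵥ w j = 0)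
    (hd : ∀ i j, v i ⬝ᵥ w j = if i = j then 1 else 0) :
    ∃ p q : n → ℂ, M.R v = vecMulVec p q := by
  set Z := (List.ofFn fun j => M.g (w j)).reverse.prod with hZ
  have h1 : M.R v * Z * M.R v = (2 : ℂ) ^ k • M.R v :=
    M.contract (M.R v) w v hd (M.R_mul_g_mem v hv)
  set Q : Matrix n n ℂ := ((2 : ℂ) ^ k)⁻¹ • (M.R v * Z) with hQ
  have h2k : ((2 : ℂ) ^ k) ≠ 0 := pow_ne_zero _ two_ne_zero
  have hQR : Q * M.R v = M.R v := by
    rw [hQ, Matrix.smul_mul, h1, smul_smul, inv_mul_cancel₀ h2k, one_smul]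
  have hQQ : Q * Q = Q := by
    conv_lhs => rw [hQ, Matrix.smul_mul, Matrix.mul_smul]
    rw [← Matrix.mul_assoc, h1, Matrix.smul_mul, smul_smul, smul_smul, inv_mul_cancel_right₀ h2k]
  have hdet : (Matrix.of fun i j => v i ⬝ᵥ w j).det = 1 := by
    have : (Matrix.of fun i j => v i ⬝ᵥ w j) = (1 : Matrix (Fin k) (Fin k) ℂ) := by
      ext i j
      rw [Matrix.of_apply, hd, Matrix.one_apply]
    rw [this, Matrix.det_one]
  have htr : Q.trace = 1 := by
    rw [hQ, hZ, M.reverse_R w hw, Matrix.mul_smul, Matrix.trace_smul, Matrix.trace_smul,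
      M.trace_R_mul_R v w hv, hdet, hn, smul_eq_mul, smul_eq_mul]
    have h4 : ((-1 : ℂ) ^ (k * (k - 1) / 2)) * (-1) ^ (k * (k - 1) / 2) = 1 := by
      rw [← pow_add]; exact Even.neg_one_pow ⟨_, rfl⟩
    push_cast
    field_simp
    linear_combination h4
  obtain ⟨p, q, hpq⟩ := exists_vecMulVec_of_idem Q hQQ htr
  exact ⟨p, q ᵥ* M.R v, by rw [← Matrix.vecMulVec_mul, ← hpq, hQR]⟩

/-- the charge conjugation reverses a product of vectors. -/
theorem Majorana.C_mul_R (C : Matrix n n ℂ) (ε : ℂ)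
    (hC : ∀ a, C * M.e a = ε • ((M.e a)ᵀ * C)) : ∀ {k : ℕ} (v : Fin k → Fin m → ℂ),
    C * M.R v = ε ^ k • (((List.ofFn fun j => M.g (v j)).reverse.prod)ᵀ * C) := by
  have hg : ∀ v, C * M.g v = ε • ((M.g v)ᵀ * C) := by
    intro v
    rw [Majorana.g, Matrix.mul_sum, Matrix.transpose_sum, Matrix.sum_mul, Finset.smul_sum]
    refine Finset.sum_congr rfl fun a _ => ?_
    rw [Matrix.mul_smul, hC, Matrix.transpose_smul, Matrix.smul_mul, smul_comm]
  intro k
  induction k with
  | zero => intro v; simp [M.R_zero]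
  | succ k ih =>
    intro v
    rw [M.R_succ, ← Matrix.mul_assoc, hg, Matrix.smul_mul, Matrix.mul_assoc, ih,
      List.ofFn_succ, List.reverse_cons, List.prod_append, Matrix.transpose_mul, pow_succ]
    simp only [List.prod_cons, List.prod_nil, mul_one, Matrix.mul_smul, smul_smul,
      Matrix.mul_assoc]
    rw [mul_comm]

/-- `C * R v` is symmetric. -/
theorem Majorana.transpose_C_mul_R {k : ℕ} (C : Matrix n n ℂ)
    (hC : ∀ a, C * M.e a = (-1 : ℂ) ^ k • ((M.e a)ᵀ * C))
    (hCT : Cᵀ = (-1 : ℂ) ^ (k * (k + 1) / 2) • C)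
    (v : Fin k → Fin m → ℂ) (hv : ∀ i j, v i ⬝ᵥ v j = 0) : (C * M.R v)ᵀ = C * M.R v := by
  have h1 := M.C_mul_R C ((-1 : ℂ) ^ k) hC v
  rw [M.reverse_R v hv, Matrix.transpose_smul, Matrix.smul_mul, smul_smul] at h1
  rw [Matrix.transpose_mul, hCT, Matrix.mul_smul]
  have h2 : (M.R v)ᵀ * C = (((-1 : ℂ) ^ k) ^ k * (-1) ^ (k * (k - 1) / 2)) • (C * M.R v) := by
    rw [h1, smul_smul]
    have : ((-1 : ℂ) ^ k) ^ k * (-1) ^ (k * (k - 1) / 2) *
        (((-1 : ℂ) ^ k) ^ k * (-1) ^ (k * (k - 1) / 2)) = 1 := by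
      rw [← pow_mul, ← pow_add, ← pow_add]; exact Even.neg_one_pow ⟨_, rfl⟩
    rw [this, one_smul]
  rw [h2, smul_smul]
  have h3 : (-1 : ℂ) ^ (k * (k + 1) / 2) * (((-1 : ℂ) ^ k) ^ k * (-1) ^ (k * (k - 1) / 2)) = 1 := by
    rw [← pow_mul, ← pow_add, ← pow_add]
    apply Even.neg_one_pow
    have h5 : k * (k + 1) / 2 = k + k * (k - 1) / 2 := by
      cases k with
      | zero => rfl
      | succ k =>
        have : (k + 1) * (k + 1 + 1) = 2 * (k + 1) + (k + 1) * (k + 1 - 1) := by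
          simp only [Nat.add_sub_cancel]; ring
        rw [this, Nat.mul_add_div (by norm_num)]
    rw [h5]
    have h6 : Even (k + k * k) := by
      rw [show k + k * k = k * (k + 1) by ring]; exact Nat.even_mul_succ_self k
    have h7 : k + k * (k - 1) / 2 + (k * k + k * (k - 1) / 2) =
        (k + k * k) + 2 * (k * (k - 1) / 2) := by ring
    rw [h7]
    exact h6.add (even_two_mul _)
  rw [h3, one_smul]

/-- **The pure spinor functional**: `C * R v = l l`, and `l` is killed by the span of `v`. -/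
theorem Majorana.exists_l {k : ℕ} (hn : Fintype.card n = 2 ^ k) (C : Matrix n n ℂ)
    (hC : ∀ a, C * M.e a = (-1 : ℂ) ^ k • ((M.e a)ᵀ * C))
    (hCT : Cᵀ = (-1 : ℂ) ^ (k * (k + 1) / 2) • C) (w v : Fin k → Fin m → ℂ)
    (hv : ∀ i j, v i ⬝ᵥ v j = 0) (hw : ∀ i j, w i ⬝ᵥ w j = 0)
    (hd : ∀ i j, v i ⬝ᵥ w j = if i = j then 1 else 0) :
    ∃ l : n → ℂ, C * M.R v = vecMulVec l l := by
  obtain ⟨p, q, hpq⟩ := M.exists_R_eq hn w v hv hw hd
  have h1 := M.transpose_C_mul_R C hC hCT v hv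
  rw [hpq, Matrix.mul_vecMulVec] at h1 ⊢
  exact exists_sq_of_symm _ _ h1

/-- the functional is killed by the vectors of the family. -/
theorem Majorana.l_vecMul_g {k : ℕ} (C : Matrix n n ℂ) (v : Fin k → Fin m → ℂ)
    (hv : ∀ i j, v i ⬝ᵥ v j = 0) (l : n → ℂ) (hl : C * M.R v = vecMulVec l l) (j : Fin k) :
    l ᵥ* M.g (v j) = 0 := by
  have h1 : vecMulVec l (l ᵥ* M.g (v j)) = 0 := by
    rw [← Matrix.vecMulVec_mul, ← hl, Matrix.mul_assoc, M.R_mul_g_mem v hv, Matrix.mul_zero]
  by_cases h0 : l = 0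
  · rw [h0, Matrix.zero_vecMul]
  · obtain ⟨i, hi⟩ : ∃ i, l i ≠ 0 := by
      by_contra hcon
      push Not at hcon
      exact h0 (funext hcon)
    funext a
    have := congrFun (congrFun h1 i) a
    rw [Matrix.vecMulVec_apply] at this
    exact (mul_eq_zero.mp this).resolve_left hi

/-! ### dual families -/

/-- The standard hermitian dual of an isotropic linearly independent family. -/
theorem exists_dual {k : ℕ} (v : Fin k → Fin m → ℂ) (hv : ∀ i j, v i ⬝ᵥ v j = 0)
    (hli : LinearIndependent ℂ v) : ∃ w : Fin k → Fin m → ℂ, (∀ i j, w i ⬝ᵥ w j = 0) ∧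
      ∀ i j, v i ⬝ᵥ w j = if i = j then 1 else 0 := by
  set V : Matrix (Fin k) (Fin m) ℂ := Matrix.of v with hV
  have hVV : V * Vᵀ = 0 := by
    ext i j
    simpa [hV, Matrix.mul_apply, dotProduct] using hv i j
  set G := V * Vᴴ with hG
  have hGdet : IsUnit G.det := by
    rw [← Matrix.isUnit_iff_isUnit_det]
    rw [← Matrix.mulVec_injective_iff_isUnit]
    intro x y hxy
    rw [← sub_eq_zero]
    set z := x - y with hz
    have h1 : G *ᵥ z = 0 := by rw [hz, Matrix.mulVec_sub, hxy, sub_self]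
    have h2 : Vᴴ *ᵥ z = 0 := by
      have h3 : star (Vᴴ *ᵥ z) ⬝ᵥ (Vᴴ *ᵥ z) = 0 := by
        rw [Matrix.star_mulVec, Matrix.conjTranspose_conjTranspose, ← Matrix.dotProduct_mulVec,
          Matrix.mulVec_mulVec, ← hG, h1, dotProduct_zero]
      exact dotProduct_star_self_eq_zero.mp h3
    have h4 : (star z) ᵥ* V = 0 := by
      have := congrArg star h2
      rw [Matrix.star_mulVec, Matrix.conjTranspose_conjTranspose, star_zero] at this
      exact this
    have h5 : star z = 0 := by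
      rw [Fintype.linearIndependent_iff] at hli
      funext i
      refine hli (star z) ?_ i
      funext a
      have := congrFun h4 a
      simpa [Matrix.vecMul, dotProduct, hV] using this
    have := congrArg star h5
    simpa using this
  set W : Matrix (Fin m) (Fin k) ℂ := Vᴴ * G⁻¹ with hW
  have h1 : V * W = 1 := by
    rw [hW, ← Matrix.mul_assoc, ← hG, Matrix.mul_nonsing_inv _ hGdet]
  have h2 : Wᵀ * W = 0 := by
    have h3 : Vᴴᵀ * Vᴴ = 0 := by
      have : Vᴴᵀ * Vᴴ = ((V * Vᵀ)ᴴ)ᵀ := by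
        rw [Matrix.conjTranspose_mul, Matrix.transpose_mul]
        congr 1
      rw [this, hVV]; simp
    rw [hW, Matrix.transpose_mul, Matrix.mul_assoc, ← Matrix.mul_assoc (Vᴴᵀ), h3]
    simp
  refine ⟨fun j a => W a j, fun i j => ?_, fun i j => ?_⟩
  · have := congrFun (congrFun h2 i) j
    simpa [Matrix.mul_apply, dotProduct] using this
  · have := congrFun (congrFun h1 i) j
    simpa [Matrix.mul_apply, dotProduct, hV, Matrix.one_apply] using this

end Pure

/-! ### the state of a perfect matching against a pure spinor -/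

section Matching

variable {m : ℕ} {n : Type} [Fintype n] [DecidableEq n] (M : Majorana m n)

/-- the annihilating vector of a pair -/
noncomputable def pairVec (a b : Fin m) (η : ℂ) : Fin m → ℂ :=
  Pi.single a 1 - (Complex.I * η) • Pi.single b 1

theorem g_pairVec (a b : Fin m) (η : ℂ) :
    M.g (pairVec a b η) = M.e a - (Complex.I * η) • M.e b := by
  rw [Majorana.g]
  simp only [pairVec, Pi.sub_apply, Pi.smul_apply, sub_smul, Finset.sum_sub_distrib]
  rw [Finset.sum_eq_single a, Finset.sum_eq_single b]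
  · simp
  · intro c _ hc; simp [hc]
  · intro h; exact absurd (Finset.mem_univ _) h
  · intro c _ hc; simp [hc]
  · intro h; exact absurd (Finset.mem_univ _) h

theorem pairFac_mul_g_pairVec {a b : Fin m} (hab : a ≠ b) {η : ℂ} (hη : η ^ 2 = 1) :
    pairFac M a b η * M.g (pairVec a b η) = M.g (pairVec a b η) := by
  have h1 : M.e a * M.e b * M.e a = -M.e b := by
    rw [M.anti a b hab, Matrix.neg_mul, Matrix.mul_assoc, M.sq, mul_one]
  have h2 : M.e a * M.e b * M.e b = M.e a := by rw [Matrix.mul_assoc, M.sq, mul_one]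
  have h3 : (Complex.I * η) * (Complex.I * η) = -1 := by
    linear_combination (η ^ 2) * Complex.I_sq - hη
  rw [g_pairVec, pairFac, Matrix.smul_mul, Matrix.add_mul, one_mul, Matrix.smul_mul,
    Matrix.mul_sub, h1, Matrix.mul_smul, h2, smul_sub, smul_neg, smul_smul, h3]
  module

theorem pairFac_comm_g {a b : Fin m} (η : ℂ) (x : Fin m → ℂ) (ha : x a = 0) (hb : x b = 0) :
    pairFac M a b η * M.g x = M.g x * pairFac M a b η := by
  have h1 : ∀ c, x c ≠ 0 → (M.e a * M.e b) * M.e c = M.e c * (M.e a * M.e b) := by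
    intro c hc
    have hac : a ≠ c := fun h => hc (by rw [← h, ha])
    have hbc : b ≠ c := fun h => hc (by rw [← h, hb])
    rw [Matrix.mul_assoc, M.anti b c hbc, Matrix.mul_neg, ← Matrix.mul_assoc, M.anti a c hac,
      Matrix.neg_mul, neg_neg, Matrix.mul_assoc]
  have h2 : (M.e a * M.e b) * M.g x = M.g x * (M.e a * M.e b) := by
    rw [Majorana.g, Matrix.mul_sum, Matrix.sum_mul]
    refine Finset.sum_congr rfl fun c _ => ?_
    by_cases hc : x c = 0
    · rw [hc]; simp
    · rw [Matrix.mul_smul, Matrix.smul_mul, h1 c hc]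
  rw [pairFac, Matrix.smul_mul, Matrix.mul_smul, Matrix.add_mul, Matrix.mul_add, one_mul, mul_one,
    Matrix.smul_mul, Matrix.mul_smul, h2]

theorem pairVec_dot {a b c d : Fin m} (η η' : ℂ) (hac : a ≠ c) (had : a ≠ d) (hbc : b ≠ c)
    (hbd : b ≠ d) : pairVec a b η ⬝ᵥ pairVec c d η' = 0 := by
  simp [pairVec, dotProduct_sub, hac, had, hbc, hbd]

theorem pairVec_dot_self {a b : Fin m} (hab : a ≠ b) {η : ℂ} (hη : η ^ 2 = 1) :
    pairVec a b η ⬝ᵥ pairVec a b η = 0 := by
  simp [pairVec, dotProduct_sub, hab, hab.symm]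
  linear_combination (η ^ 2) * Complex.I_sq - hη

theorem pairVec_dot_neg {a b : Fin m} (hab : a ≠ b) {η : ℂ} (hη : η ^ 2 = 1) :
    pairVec a b η ⬝ᵥ pairVec a b (-η) = 2 := by
  simp [pairVec, hab, hab.symm]
  linear_combination (-(η ^ 2)) * Complex.I_sq + hη

variable {k : ℕ} (a b : Fin k → Fin m) (hinj : Function.Injective (Sum.elim a b)) (η : Fin k → ℂ)
  (hη : ∀ j, η j = 1 ∨ η j = -1)

/-- the family of the pair vectors -/
noncomputable def pairFam : Fin k → Fin m → ℂ := fun j => pairVec (a j) (b j) (η j)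

include hinj in
theorem ne_of_inj : (∀ i j, a i ≠ b j) ∧ (∀ i j, i ≠ j → a i ≠ a j) ∧
    (∀ i j, i ≠ j → b i ≠ b j) :=
  ⟨fun i j h =>
      absurd (hinj (show Sum.elim a b (Sum.inl i) = Sum.elim a b (Sum.inr j) from h)) (by simp),
    fun i j hij h =>
      hij (by simpa using hinj (show Sum.elim a b (Sum.inl i) = Sum.elim a b (Sum.inl j) from h)),
    fun i j hij h =>
      hij (by simpa using hinj (show Sum.elim a b (Sum.inr i) = Sum.elim a b (Sum.inr j) from h))⟩

include hη in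
theorem eta_sq (j : Fin k) : η j ^ 2 = 1 := by
  rcases hη j with h | h <;> rw [h] <;> norm_num

include hinj hη in
theorem pairFam_iso (i j : Fin k) : pairFam a b η i ⬝ᵥ pairFam a b η j = 0 := by
  obtain ⟨h1, h2, h3⟩ := ne_of_inj a b hinj
  by_cases hij : i = j
  · subst hij
    exact pairVec_dot_self (h1 i i) (eta_sq η hη i)
  · exact pairVec_dot _ _ (h2 i j hij) (h1 i j) (h1 j i).symm (h3 i j hij)

include hinj hη in
theorem pairFac_mul_R (p : Fin k) : pairFac M (a p) (b p) (η p) * M.R (pairFam a b η) =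
    M.R (pairFam a b η) := by
  have hmain : ∀ {l : ℕ} (w : Fin l → Fin m → ℂ) (x y : Fin m) (ζ : ℂ) (q : Fin l),
      x ≠ y → ζ ^ 2 = 1 → w q = pairVec x y ζ → (∀ r, r ≠ q → w r x = 0 ∧ w r y = 0) →
      pairFac M x y ζ * M.R w = M.R w := by
    intro l
    induction l with
    | zero => intro w x y ζ q; exact q.elim0
    | succ l ih =>
      intro w x y ζ q hxy hζ hq hr
      rw [M.R_succ]
      revert hq hr
      refine Fin.cases ?_ (fun q => ?_) q
      · intro hq _
        rw [← Matrix.mul_assoc, hq, pairFac_mul_g_pairVec M hxy hζ]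
      · intro hq hr
        obtain ⟨hx, hy⟩ := hr 0 (Fin.succ_ne_zero q).symm
        rw [← Matrix.mul_assoc, pairFac_comm_g M ζ (w 0) hx hy, Matrix.mul_assoc,
          ih (fun j => w j.succ) x y ζ q hxy hζ hq (fun r hr' => hr r.succ (by
            intro h; exact hr' (Fin.succ_injective _ h)))]
  obtain ⟨h1, h2, h3⟩ := ne_of_inj a b hinj
  refine hmain (pairFam a b η) (a p) (b p) (η p) p (h1 p p) (eta_sq η hη p) rfl
    fun r hr => ⟨?_, ?_⟩
  · simp [pairFam, pairVec, (h1 p r), (h2 r p hr).symm]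
  · simp [pairFam, pairVec, (h1 r p).symm, (h3 r p hr).symm]

include hinj hη in
/-- **Matching state against pure spinors**: `ψ (C R v) ψ = κ det (w_p . v_j)`. -/
theorem Majorana.exists_kappa (hn : Fintype.card n = 2 ^ k)
    (C : Matrix n n ℂ) (hCC : Cᴴ * C = 1) (hC : ∀ a, C * M.e a = (-1 : ℂ) ^ k • ((M.e a)ᵀ * C))
    (hCT : Cᵀ = (-1 : ℂ) ^ (k * (k + 1) / 2) • C) (ψ : n → ℂ)
    (hψ : (List.ofFn fun j => pairFac M (a j) (b j) (η j)).prod = vecMulVec ψ (star ψ)) :
    ∃ κ : ℂ, κ ≠ 0 ∧ ∀ v : Fin k → Fin m → ℂ,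
      ψ ⬝ᵥ ((C * M.R v) *ᵥ ψ) = κ * (Matrix.of fun i j => pairFam a b η i ⬝ᵥ v j).det := by
  set w := pairFam a b η with hw
  have hwi : ∀ i j, w i ⬝ᵥ w j = 0 := pairFam_iso a b hinj η hη
  obtain ⟨h1, h2, h3⟩ := ne_of_inj a b hinj
  -- `R w = ψ φ`
  have hPR : (List.ofFn fun j => pairFac M (a j) (b j) (η j)).prod * M.R w = M.R w := by
    have : ∀ L : List (Matrix n n ℂ), (∀ x ∈ L, x * M.R w = M.R w) → L.prod * M.R w = M.R w := by
      intro L
      induction L with
      | nil => intro _; simp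
      | cons x L ih =>
        intro hL
        rw [List.prod_cons, Matrix.mul_assoc, ih (fun y hy => hL y (List.mem_cons_of_mem _ hy)),
          hL x List.mem_cons_self]
    apply this
    intro x hx
    rw [List.mem_ofFn] at hx
    obtain ⟨j, rfl⟩ := hx
    exact pairFac_mul_R M a b hinj η hη j
  set φ := star ψ ᵥ* M.R w with hφ
  have hRw : M.R w = vecMulVec ψ φ := by
    rw [hψ, Matrix.vecMulVec_mul] at hPR
    exact hPR.symm
  -- `R w` is not zero
  have hRw0 : M.R w ≠ 0 := by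
    intro h0
    have ht := M.trace_R_mul_R w (pairFam a b (fun j => -η j)) hwi
    rw [h0, Matrix.zero_mul, Matrix.trace_zero] at ht
    have hdet : (Matrix.of fun i j => w i ⬝ᵥ pairFam a b (fun j => -η j) j).det = 2 ^ k := by
      have : (Matrix.of fun i j => w i ⬝ᵥ pairFam a b (fun j => -η j) j) =
          (2 : ℂ) • (1 : Matrix (Fin k) (Fin k) ℂ) := by
        ext i j
        rw [Matrix.of_apply, Matrix.smul_apply, Matrix.one_apply]
        by_cases hij : i = j
        · subst hij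
          rw [if_pos rfl]
          simpa [hw, pairFam] using pairVec_dot_neg (h1 i i) (eta_sq η hη i)
        · rw [if_neg hij]
          simpa [hw, pairFam] using
            pairVec_dot (η i) (-η j) (h2 i j hij) (h1 i j) (h1 j i).symm (h3 i j hij)
      rw [this, Matrix.det_smul, Matrix.det_one, Fintype.card_fin, mul_one]
    rw [hdet, hn] at ht
    have : (-1 : ℂ) ^ (k * (k - 1) / 2) * ((2 ^ k : ℕ) : ℂ) * 2 ^ k ≠ 0 := by
      push_cast
      exact mul_ne_zero (mul_ne_zero (pow_ne_zero _ (by norm_num)) (pow_ne_zero _ two_ne_zero))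
        (pow_ne_zero _ two_ne_zero)
    exact this ht.symm
  -- `φ = c C ψ`
  have hsym := M.transpose_C_mul_R C hC hCT w hwi
  rw [hRw, Matrix.mul_vecMulVec] at hsym
  have h0 : ∀ i j, (C *ᵥ ψ) i * φ j = (C *ᵥ ψ) j * φ i := by
    intro i j
    have := congrFun (congrFun hsym i) j
    simp only [Matrix.transpose_apply, Matrix.vecMulVec_apply] at this
    exact this.symm
  have hφ0 : φ ≠ 0 := by
    intro h
    apply hRw0
    rw [hRw, h]
    ext i j
    simp [Matrix.vecMulVec_apply]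
  obtain ⟨j0, hj0⟩ : ∃ j, φ j ≠ 0 := by
    by_contra hcon
    push Not at hcon
    exact hφ0 (funext hcon)
  -- `C ψ = c φ` with `c = (C ψ) j0 / φ j0`
  set c := (C *ᵥ ψ) j0 / φ j0 with hc
  have hCψ : C *ᵥ ψ = c • φ := by
    funext i
    rw [Pi.smul_apply, smul_eq_mul, hc, div_mul_eq_mul_div, eq_div_iff hj0]
    exact h0 i j0
  have hc0 : c ≠ 0 := by
    intro hc0
    rw [hc0, zero_smul] at hCψ
    apply hRw0
    have : ψ = 0 := by
      rw [← Matrix.one_mulVec ψ, ← hCC, ← Matrix.mulVec_mulVec, hCψ, Matrix.mulVec_zero]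
    rw [hRw, this]
    ext i j
    simp [Matrix.vecMulVec_apply]
  refine ⟨c * ((-1 : ℂ) ^ (k * (k + 1) / 2) * ((-1 : ℂ) ^ (k * (k - 1) / 2) * 2 ^ k)), ?_, ?_⟩
  · exact mul_ne_zero hc0 (mul_ne_zero (pow_ne_zero _ (by norm_num))
      (mul_ne_zero (pow_ne_zero _ (by norm_num)) (pow_ne_zero _ two_ne_zero)))
  · intro v
    have h5 : c * (M.R w * M.R v).trace =
        (-1 : ℂ) ^ (k * (k + 1) / 2) * (ψ ⬝ᵥ ((C * M.R v) *ᵥ ψ)) := by
      rw [hRw, Matrix.vecMulVec_mul, Matrix.trace_vecMulVec, dotProduct_comm,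
        ← Matrix.dotProduct_mulVec, ← smul_eq_mul, ← smul_dotProduct, ← hCψ, dotProduct_comm,
        ← Matrix.dotProduct_transpose_mulVec, hCT, Matrix.smul_mulVec, dotProduct_smul,
        Matrix.mulVec_mulVec, smul_eq_mul]
    have h6 := M.trace_R_mul_R w v hwi
    have h7 : ((-1 : ℂ) ^ (k * (k + 1) / 2)) * (-1) ^ (k * (k + 1) / 2) = 1 := by
      rw [← pow_add]; exact Even.neg_one_pow ⟨_, rfl⟩
    rw [h6, hn] at h5
    push_cast at h5
    linear_combination (-(-1 : ℂ) ^ (k * (k + 1) / 2)) * h5 -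
      (ψ ⬝ᵥ ((C * M.R v) *ᵥ ψ)) * h7

end Matching

/-! ### quarter rotations -/

section Quarter

variable {m : ℕ} {n : Type} [Fintype n] [DecidableEq n] (M : Majorana m n)

/-- the quarter rotation in the plane `(a, b)` on vectors -/
noncomputable def rho (a b : Fin m) (τ : ℂ) (v : Fin m → ℂ) : Fin m → ℂ :=
  Function.update (Function.update v a (τ * v b)) b (-τ * v a)

/-- its lift `(1 + τ e_a e_b) / √2` -/
noncomputable def Bfac (a b : Fin m) (τ : ℂ) : Matrix n n ℂ :=
  ((Real.sqrt 2 : ℝ) : ℂ)⁻¹ • (1 + τ • (M.e a * M.e b))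

theorem sqrt2_sq : (((Real.sqrt 2 : ℝ) : ℂ)⁻¹) * ((Real.sqrt 2 : ℝ) : ℂ)⁻¹ = 1 / 2 := by
  rw [← mul_inv, ← Complex.ofReal_mul, Real.mul_self_sqrt (by norm_num)]
  norm_num

theorem Bfac_mul_Bfac_neg {a b : Fin m} (hab : a ≠ b) {τ : ℂ} (hτ : τ ^ 2 = 1) :
    Bfac M a b τ * Bfac M a b (-τ) = 1 := by
  rw [Bfac, Bfac, Matrix.smul_mul, Matrix.mul_smul, smul_smul, sqrt2_sq, Matrix.add_mul,
    Matrix.mul_add, Matrix.mul_add, one_mul, one_mul, mul_one, Matrix.smul_mul, Matrix.mul_smul,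
    ee_sq M hab, smul_smul, show τ * -τ = -1 by linear_combination -hτ]
  module

theorem Bfac_herm {a b : Fin m} (hab : a ≠ b) (hH : ∀ a, (M.e a)ᴴ = M.e a) {τ : ℂ}
    (hτ : star τ = τ) : (Bfac M a b τ)ᴴ = Bfac M a b (-τ) := by
  have : star (((Real.sqrt 2 : ℝ) : ℂ)⁻¹) = ((Real.sqrt 2 : ℝ) : ℂ)⁻¹ := by
    rw [star_inv₀]
    congr 1
    exact Complex.conj_ofReal _
  rw [Bfac, Bfac, conjTranspose_smul, conjTranspose_add, conjTranspose_smul, conjTranspose_one,
    conjTranspose_mul, hH, hH, M.anti b a (Ne.symm hab), hτ, this]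
  simp

theorem Bfac_mul_e {a b : Fin m} (hab : a ≠ b) {τ : ℂ} (hτ : τ ^ 2 = 1) (c : Fin m) :
    Bfac M a b τ * M.e c = (if c = a then -τ • M.e b else if c = b then τ • M.e a else M.e c) *
      Bfac M a b τ := by
  have ha : M.e a * M.e b * M.e a = -M.e b := by
    rw [M.anti a b hab, Matrix.neg_mul, Matrix.mul_assoc, M.sq, mul_one]
  have hb : M.e a * M.e b * M.e b = M.e a := by rw [Matrix.mul_assoc, M.sq, mul_one]
  have ha' : M.e a * (M.e a * M.e b) = M.e b := by rw [← Matrix.mul_assoc, M.sq, one_mul]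
  have hb' : M.e b * (M.e a * M.e b) = -M.e a := by
    rw [← Matrix.mul_assoc, M.anti b a hab.symm, Matrix.neg_mul, hb]
  simp only [Bfac, Matrix.smul_mul, Matrix.mul_smul, Matrix.add_mul, Matrix.mul_add, one_mul,
    mul_one]
  congr 1
  split_ifs with h1 h2
  · subst h1
    simp only [ha, Matrix.smul_mul, hb', smul_neg, smul_smul]
    rw [show τ * -τ = -1 by linear_combination -hτ]
    module
  · subst h2
    simp only [hb, Matrix.smul_mul, ha', smul_smul]
    rw [show τ * τ = 1 by linear_combination hτ]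
    module
  · have h3 : M.e a * M.e b * M.e c = M.e c * (M.e a * M.e b) := by
      rw [Matrix.mul_assoc, M.anti b c (Ne.symm h2), Matrix.mul_neg, ← Matrix.mul_assoc,
        M.anti a c (Ne.symm h1), Matrix.neg_mul, neg_neg, Matrix.mul_assoc]
    rw [h3]

/-- conjugation with `B` is the quarter rotation. -/
theorem Bfac_mul_g {a b : Fin m} (hab : a ≠ b) {τ : ℂ} (hτ : τ ^ 2 = 1) (v : Fin m → ℂ) :
    Bfac M a b τ * M.g v = M.g (rho a b τ v) * Bfac M a b τ := by
  have h1 : M.g (rho a b τ v) =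
      ∑ c, v c • (if c = a then -τ • M.e b else if c = b then τ • M.e a else M.e c) := by
    have h2 : ∀ f : Fin m → Matrix n n ℂ, ∑ c, f c = f a + (f b + ∑ c ∈ (Finset.univ.erase a).erase b, f c) := by
      intro f
      rw [Finset.add_sum_erase _ _ (Finset.mem_erase.mpr ⟨hab.symm, Finset.mem_univ _⟩),
        Finset.add_sum_erase _ _ (Finset.mem_univ _)]
    rw [Majorana.g, h2, h2]
    have h3 : ∑ c ∈ (Finset.univ.erase a).erase b, rho a b τ v c • M.e c =
        ∑ c ∈ (Finset.univ.erase a).erase b,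
          v c • (if c = a then -τ • M.e b else if c = b then τ • M.e a else M.e c) := by
      refine Finset.sum_congr rfl fun c hc => ?_
      have hcb : c ≠ b := (Finset.mem_erase.mp hc).1
      have hca : c ≠ a := (Finset.mem_erase.mp (Finset.mem_erase.mp hc).2).1
      rw [if_neg hca, if_neg hcb, rho, Function.update_of_ne hcb, Function.update_of_ne hca]
    rw [h3, if_pos rfl, if_neg hab.symm, if_pos rfl]
    have h4 : rho a b τ v a = τ * v b := by
      rw [rho, Function.update_of_ne hab, Function.update_self]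
    have h5 : rho a b τ v b = -τ * v a := by rw [rho, Function.update_self]
    rw [h4, h5]
    module
  rw [h1, Majorana.g, Matrix.mul_sum, Matrix.sum_mul]
  refine Finset.sum_congr rfl fun c _ => ?_
  rw [Matrix.mul_smul, Bfac_mul_e M hab hτ, Matrix.smul_mul]

theorem Bfac_mul_R {a b : Fin m} (hab : a ≠ b) {τ : ℂ} (hτ : τ ^ 2 = 1) : ∀ {k : ℕ}
    (v : Fin k → Fin m → ℂ), Bfac M a b τ * M.R v = M.R (fun j => rho a b τ (v j)) * Bfac M a b τ := by
  intro k
  induction k with
  | zero => intro v; simp [M.R_zero]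
  | succ k ih =>
    intro v
    rw [M.R_succ, ← Matrix.mul_assoc, Bfac_mul_g M hab hτ, Matrix.mul_assoc, ih, M.R_succ,
      Matrix.mul_assoc]

theorem C_mul_Bfac {a b : Fin m} (C : Matrix n n ℂ) {ε : ℂ} (hε : ε * ε = 1)
    (hC : ∀ a, C * M.e a = ε • ((M.e a)ᵀ * C)) (hab : a ≠ b) (τ : ℂ) :
    C * Bfac M a b (-τ) = (Bfac M a b τ)ᵀ * C := by
  have h1 : C * (M.e a * M.e b) = -((M.e a * M.e b)ᵀ * C) := by
    rw [← Matrix.mul_assoc, hC, Matrix.smul_mul, Matrix.mul_assoc, hC, Matrix.mul_smul, smul_smul,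
      hε, one_smul, ← Matrix.mul_assoc, ← Matrix.transpose_mul, M.anti b a hab.symm,
      Matrix.transpose_neg, Matrix.neg_mul]
  rw [Bfac, Bfac, Matrix.mul_smul, Matrix.mul_add, mul_one, Matrix.mul_smul, h1,
    Matrix.transpose_smul, Matrix.transpose_add, Matrix.transpose_one, Matrix.transpose_smul,
    Matrix.smul_mul, Matrix.add_mul, one_mul, Matrix.smul_mul]
  module

/-- **Slit crossing**: the form of the rotated family is the pull back by `B`. -/
theorem form_rho {a b : Fin m} (C : Matrix n n ℂ) {ε : ℂ} (hε : ε * ε = 1)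
    (hC : ∀ a, C * M.e a = ε • ((M.e a)ᵀ * C)) (hab : a ≠ b) {τ : ℂ} (hτ : τ ^ 2 = 1) {k : ℕ}
    (v : Fin k → Fin m → ℂ) :
    C * M.R v = (Bfac M a b τ)ᵀ * (C * M.R (fun j => rho a b τ (v j))) * Bfac M a b τ := by
  have h1 := Bfac_mul_R M hab hτ v
  have h2 : M.R v = Bfac M a b (-τ) * (M.R (fun j => rho a b τ (v j)) * Bfac M a b τ) := by
    rw [← h1, ← Matrix.mul_assoc]
    have := Bfac_mul_Bfac_neg M hab (τ := -τ) (by rw [neg_sq]; exact hτ)
    rw [neg_neg] at this
    rw [this, one_mul]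
  rw [← Matrix.mul_assoc, ← C_mul_Bfac M C hε hC hab τ]
  conv_lhs => rw [h2]
  simp only [Matrix.mul_assoc]

end Quarter

end Pool.Agent.Rohlin
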