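import Pool.Agent.Rohlin.Defs
import Pool.Agent.Rohlin.Spinor

/-!
# The common language of the proof (degree 8)

`f` is a real form of degree 8 in `x0, x1, x2`, monic in `x2`.  The point `P = [0 : 0 : 1]` is the
centre of projection.  The closed unit disc parametrizes one half of the pencil of lines through
`P`: `fam f w` is the restriction of `f` to the line `w`; on the unit circle, `w = exp (2 i θ)`, the
roots are `exp (i θ) * η` with `η` a root of the real polynomial `gr f θ`.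
-/

set_option autoImplicit false

namespace Pool.Agent.Rohlin

open Polynomial Complex Set Matrix

/-- restriction of the form to the line through `P` with direction `(a, b)` -/
noncomputable def dir (f : MvPolynomial (Fin 3) ℝ) (a b : ℂ) : ℂ[X] :=
  MvPolynomial.aeval ![C a, C b, (X : ℂ[X])] f

/-- the family over the disc -/
noncomputable def fam (f : MvPolynomial (Fin 3) ℝ) (w : ℂ) : ℂ[X] :=
  dir f ((1 + w) / 2) (I * (1 - w) / 2)

/-- the real polynomial over the real line with angle `θ` -/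
noncomputable def gr (f : MvPolynomial (Fin 3) ℝ) (θ : ℝ) : ℝ[X] :=
  MvPolynomial.aeval ![C (Real.cos θ), C (Real.sin θ), (X : ℝ[X])] f

/-- the point of the unit circle with parameter `θ` -/
noncomputable def circ (θ : ℝ) : ℂ := exp (2 * θ * I)

/-- the real point of the plane on the line `θ` -/
noncomputable def pt (θ η : ℝ) : RP2 :=
  Projectivization.mk ℝ ![Real.cos θ, Real.sin θ, η] (by
    intro h
    have h0 : Real.cos θ = 0 := by simpa using congrFun h 0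
    have h1 : Real.sin θ = 0 := by simpa using congrFun h 1
    have := Real.sin_sq_add_cos_sq θ
    rw [h0, h1] at this
    norm_num at this)

/-- the centre of projection -/
noncomputable def centre : RP2 :=
  Projectivization.mk ℝ ![0, 0, 1] (fun h => by simpa using congrFun h 2)

/-- an octic in general position with respect to `P` -/
structure Normal (f : MvPolynomial (Fin 3) ℝ) : Prop where
  hom : f.IsHomogeneous 8
  monic : f.coeff (Finsupp.single 2 8) = 1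
  nonsing : ∀ z : Fin 3 → ℂ, z ≠ 0 → MvPolynomial.aeval z f = 0 →
    ∃ i, MvPolynomial.aeval z (MvPolynomial.pderiv i f) ≠ 0
  /-- every line through `P` has at most one multiple root ... -/
  one : ∀ a b y y' : ℂ, (a ≠ 0 ∨ b ≠ 0) → (dir f a b).eval y = 0 →
    (derivative (dir f a b)).eval y = 0 → (dir f a b).eval y' = 0 →
    (derivative (dir f a b)).eval y' = 0 → y = y'
  /-- ... and it is a double root -/
  two : ∀ a b y : ℂ, (a ≠ 0 ∨ b ≠ 0) → (dir f a b).eval y = 0 →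
    (derivative (dir f a b)).eval y = 0 → (derivative (derivative (dir f a b))).eval y ≠ 0

/-- the star domain: the plane minus the rays from the points `z` of `Z` in the direction `z - c` -/
def Star (c : ℂ) (Z : Finset ℂ) : Set ℂ := {w | ∀ z ∈ Z, ∀ t : ℝ, 0 ≤ t → w ≠ z + t * (z - c)}

/-- the local variable at `z ∈ Z`: principal square root, cut = the slit of `z` -/
noncomputable def tvar (c z w : ℂ) : ℂ := ((w - z) / (c - z)) ^ (1 / 2 : ℂ)

/-- the vectors `(y_i ^ j / s_i)_i` which span the Lagrangian `L` of polynomials of degree `< 4` -/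
noncomputable def vfam (y s : Fin 8 → ℂ) : Fin 4 → Fin 8 → ℂ := fun j i => y i ^ (j : ℕ) / s i

/-- the regions of the real plane: `K0` is the union of 16 disjoint discs (outer ovals), `K1` the
union of 4 disjoint discs in the interior of `K0` -/
structure Regions (f : MvPolynomial (Fin 3) ℝ) (K0 K1 : Set RP2) : Prop where
  discs0 : ∃ Δ : Fin 16 → Set RP2, (∀ i, IsDisc (Δ i)) ∧ (∀ i j, i ≠ j → Disjoint (Δ i) (Δ j)) ∧
    K0 = ⋃ i, Δ i
  discs1 : ∃ Δ : Fin 4 → Set RP2, (∀ i, IsDisc (Δ i)) ∧ (∀ i j, i ≠ j → Disjoint (Δ i) (Δ j)) ∧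
    K1 = ⋃ i, Δ i
  closed0 : IsClosed K0
  closed1 : IsClosed K1
  sub : K1 ⊆ interior K0
  centre : centre ∉ K0
  pos : ∀ θ η : ℝ, pt θ η ∉ K0 → 0 < (gr f θ).eval η
  neg : ∀ θ η : ℝ, pt θ η ∈ interior K0 → pt θ η ∉ K1 → (gr f θ).eval η < 0
  posi : ∀ θ η : ℝ, pt θ η ∈ interior K1 → 0 < (gr f θ).eval η
  zero : ∀ θ η : ℝ, pt θ η ∈ frontier K0 ∨ pt θ η ∈ frontier K1 → (gr f θ).eval η = 0

/-- everything that the analytic part provides -/
structure Ctx (n : Type) [Fintype n] [DecidableEq n] where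
  f : MvPolynomial (Fin 3) ℝ
  nf : Normal f
  K0 : Set RP2
  K1 : Set RP2
  reg : Regions f K0 K1
  M : Majorana 8 n
  C : Matrix n n ℂ
  card : Fintype.card n = 2 ^ 4
  hH : ∀ a, (M.e a)ᴴ = M.e a
  hCC : Cᴴ * C = 1
  hCT : Cᵀ = C
  hC : ∀ a, C * M.e a = (M.e a)ᵀ * C
  /-- the branch points in the closed disc -/
  Z : Finset ℂ
  hZ : ∀ w : ℂ, w ∈ Z ↔ ‖w‖ ≤ 1 ∧ ¬ (fam f w).Separable
  one : (1 : ℂ) ∉ Z
  /-- the centre of the star -/
  c : ℂ
  hc : ‖c‖ < 1
  cZ : c ∉ Z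
  /-- no ray of the star meets a second branch point -/
  cgen : ∀ z ∈ Z, ∀ z' ∈ Z, ∀ t : ℝ, 0 < t → z' ≠ z + t * (z - c)
  /-- two different slits are disjoint -/
  cgen2 : ∀ z ∈ Z, ∀ z' ∈ Z, z ≠ z' → ∀ t t' : ℝ, 0 ≤ t → 0 ≤ t' →
    z + t * (z - c) ≠ z' + t' * (z' - c)
  /-- no slit ends at `w = 1` -/
  cgen3 : (1 : ℂ) ∈ Star c Z
  y : Fin 8 → ℂ → ℂ
  s : Fin 8 → ℂ → ℂ
  l : ℂ → n → ℂ
  y_cont : ∀ i, ContinuousOn (y i) (Star c Z ∩ {w | ‖w‖ ≤ 1})
  s_cont : ∀ i, ContinuousOn (s i) (Star c Z ∩ {w | ‖w‖ ≤ 1})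
  l_cont : ContinuousOn l (Star c Z ∩ {w | ‖w‖ ≤ 1})
  y_root : ∀ w ∈ Star c Z, ‖w‖ ≤ 1 → ∀ i, (fam f w).eval (y i w) = 0
  y_inj : ∀ w ∈ Star c Z, ‖w‖ ≤ 1 → Function.Injective fun i => y i w
  s_sq : ∀ w ∈ Star c Z, ‖w‖ ≤ 1 → ∀ i, s i w ^ 2 = (derivative (fam f w)).eval (y i w)
  l_sq : ∀ w ∈ Star c Z, ‖w‖ ≤ 1 →
    C * M.R (vfam (fun i => y i w) fun i => s i w) = vecMulVec (l w) (l w)

namespace Ctx

variable {n : Type} [Fintype n] [DecidableEq n] (X : Ctx n)

/-- the domain in the closed disc -/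
def D : Set ℂ := Star X.c X.Z ∩ {w | ‖w‖ ≤ 1}

/-- the roots of `gr f θ` -/
noncomputable def eta (θ : ℝ) (i : Fin 8) : ℂ := exp (-(θ * I)) * X.y i (circ θ)

/-- the square roots of the derivative of `gr f θ` at its roots -/
noncomputable def sig (θ : ℝ) (i : Fin 8) : ℂ := exp (-(7 / 2 * θ * I)) * X.s i (circ θ)

/-- the spinor in the real gauge -/
noncomputable def lr (θ : ℝ) (a : n) : ℂ := exp (4 * θ * I) * X.l (circ θ) a

/-- the sign of a pair of roots: `kind = 2` is a conjugate pair (`a` the upper root), `kind = 0, 1`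
are the pairs of real roots `a < b` which bound a component of `K0`, of `K1` -/
noncomputable def zeta (θ : ℝ) (a b : Fin 8) (kind : Fin 3) : ℂ :=
  if kind = 2 then (starRingEnd ℂ) (X.sig θ a) / X.sig θ b
  else -I * (X.sig θ a * X.sig θ b) / ‖X.sig θ a * X.sig θ b‖

/-- the pairing of the roots at the angle `θ` -/
structure Pairing (θ : ℝ) (A B : Fin 4 → Fin 8) (kind : Fin 4 → Fin 3) (ζ : Fin 4 → ℂ) :
    Prop where
  inj : Function.Injective (Sum.elim A B)
  cpx : ∀ p, kind p = 2 → 0 < (X.eta θ (A p)).im ∧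
    X.eta θ (B p) = (starRingEnd ℂ) (X.eta θ (A p))
  real : ∀ p, kind p ≠ 2 → (X.eta θ (A p)).im = 0 ∧ (X.eta θ (B p)).im = 0 ∧
    (X.eta θ (A p)).re < (X.eta θ (B p)).re
  in0 : ∀ η : ℝ, pt θ η ∈ X.K0 ↔ ∃ p, kind p = 0 ∧
    (X.eta θ (A p)).re ≤ η ∧ η ≤ (X.eta θ (B p)).re
  in1 : ∀ η : ℝ, pt θ η ∈ X.K1 ↔ ∃ p, kind p = 1 ∧
    (X.eta θ (A p)).re ≤ η ∧ η ≤ (X.eta θ (B p)).re
  zeta : ∀ p, ζ p = X.zeta θ (A p) (B p) (kind p)
  zeta_sq : ∀ p, ζ p = 1 ∨ ζ p = -1

/-- the projector of a pairing -/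
noncomputable def proj (A B : Fin 4 → Fin 8) (ζ : Fin 4 → ℂ) : Matrix n n ℂ :=
  (List.ofFn fun p => pairFac X.M (A p) (B p) (ζ p)).prod

/-- `ψ` is the normalized state of the pairing at the angle `θ` -/
structure IsState (θ : ℝ) (A B : Fin 4 → Fin 8) (ζ : Fin 4 → ℂ) (ψ : n → ℂ) : Prop where
  unit : star ψ ⬝ᵥ ψ = 1
  proj : X.proj A B ζ = vecMulVec ψ (star ψ)
  pos : ∃ r : ℝ, 0 < r ∧ X.lr θ ⬝ᵥ ψ = r

end Ctx

end Pool.Agent.Rohlin
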