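import Pool.Agent.Rohlin.AssemblyD
import Pool.Agent.Rohlin.Setup

/-!
# The algebra of one step: slits, matchings given by lists, phases
-/

namespace Pool.Agent.Rohlin

open Matrix
open scoped ComplexOrder

section Slit

variable {m : ℕ} {n : Type} [Fintype n] [DecidableEq n] (M : Majorana m n)

/-- the sign of a label under a quarter rotation in the plane `(a, b)` -/
def sgnE (a b : Fin m) (τ : ℂ) (c : Fin m) : ℂ := if c = a then -τ else if c = b then τ else 1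

theorem Bfac_mul_e' {a b : Fin m} (hab : a ≠ b) {τ : ℂ} (hτ : τ ^ 2 = 1) (c : Fin m) :
    Bfac M a b τ * M.e c = sgnE a b τ c • (M.e (Equiv.swap a b c) * Bfac M a b τ) := by
  rw [Bfac_mul_e M hab hτ, sgnE]
  split_ifs with h1 h2
  · subst h1
    rw [Equiv.swap_apply_left, Matrix.smul_mul]
  · subst h2
    rw [Equiv.swap_apply_right, Matrix.smul_mul]
  · rw [Equiv.swap_apply_of_ne_of_ne h1 h2, one_smul]

theorem Bfac_mul_pairFac {a b : Fin m} (hab : a ≠ b) {τ : ℂ} (hτ : τ ^ 2 = 1) (p q : Fin m)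
    (η : ℂ) : Bfac M a b τ * pairFac M p q η =
      pairFac M (Equiv.swap a b p) (Equiv.swap a b q) (sgnE a b τ p * sgnE a b τ q * η) *
        Bfac M a b τ := by
  have h1 : Bfac M a b τ * (M.e p * M.e q) = (sgnE a b τ p * sgnE a b τ q) •
      ((M.e (Equiv.swap a b p) * M.e (Equiv.swap a b q)) * Bfac M a b τ) := by
    rw [← Matrix.mul_assoc, Bfac_mul_e' M hab hτ, Matrix.smul_mul, Matrix.mul_assoc,
      Bfac_mul_e' M hab hτ, Matrix.mul_smul, smul_smul, ← Matrix.mul_assoc]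
  rw [pairFac, pairFac, Matrix.mul_smul, Matrix.mul_add, mul_one, Matrix.mul_smul, h1,
    Matrix.smul_mul, Matrix.add_mul, one_mul, Matrix.smul_mul, smul_smul]
  congr 3
  ring

theorem pairFac_symm {p q : Fin m} (hpq : p ≠ q) (η : ℂ) :
    pairFac M p q η = pairFac M q p (-η) := by
  rw [pairFac, pairFac, M.anti p q hpq]
  module

/-- the pair edge on the other side of a slit -/
def swapE (x y : Edge m) : Edge m :=
  (Equiv.swap x.1 x.2.1 y.1, Equiv.swap x.1 x.2.1 y.2.1,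
    sgnE x.1 x.2.1 x.2.2 y.1 * sgnE x.1 x.2.1 x.2.2 y.2.1 * y.2.2)

theorem bf_mul_pf (x : Edge m) (hx : x.1 ≠ x.2.1) (hτ : x.2.2 = 1 ∨ x.2.2 = -1) (y : Edge m) :
    bf M x * pf M y = pf M (swapE x y) * bf M x :=
  Bfac_mul_pairFac M hx (by rcases hτ with h | h <;> rw [h] <;> norm_num) _ _ _

/-- the product of the pair factors of a list of edges -/
noncomputable def PL (L : List (Edge m)) : Matrix n n ℂ := (L.map (pf M)).prod

theorem PL_nil : PL M ([] : List (Edge m)) = 1 := rfl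

theorem PL_cons (x : Edge m) (L : List (Edge m)) : PL M (x :: L) = pf M x * PL M L := by
  rw [PL, List.map_cons, List.prod_cons]; rfl

theorem PL_append (L L' : List (Edge m)) : PL M (L ++ L') = PL M L * PL M L' := by
  rw [PL, List.map_append, List.prod_append]; rfl

theorem bf_mul_PL (x : Edge m) (hx : x.1 ≠ x.2.1) (hτ : x.2.2 = 1 ∨ x.2.2 = -1)
    (L : List (Edge m)) : bf M x * PL M L = PL M (L.map (swapE x)) * bf M x := by
  induction L with
  | nil => simp [PL_nil]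
  | cons y L ih =>
    rw [PL_cons, ← Matrix.mul_assoc, bf_mul_pf M x hx hτ, Matrix.mul_assoc, ih, List.map_cons,
      PL_cons, Matrix.mul_assoc]

theorem bf_unitary (x : Edge m) (hx : x.1 ≠ x.2.1) (hτ : x.2.2 = 1 ∨ x.2.2 = -1)
    (hH : ∀ a, (M.e a)ᴴ = M.e a) : (bf M x)ᴴ * bf M x = 1 := by
  have hs : star x.2.2 = x.2.2 := by rcases hτ with h | h <;> rw [h] <;> simp
  rw [bf, Bfac_herm M hx hH hs]
  have := Bfac_mul_Bfac_neg M hx (τ := -x.2.2) (by
    rcases hτ with h | h <;> rw [h] <;> norm_num)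
  rwa [neg_neg] at this

end Slit

section Lists

variable {m : ℕ} {n : Type} [Fintype n] [DecidableEq n] (M : Majorana m n)

/-- the edges of the list have pairwise different end points -/
def Disj (L : List (Edge m)) : Prop := (L.map (fun x => x.1) ++ L.map (fun x => x.2.1)).Nodup

theorem Disj.cons_iff {x : Edge m} {L : List (Edge m)} : Disj (x :: L) ↔
    x.1 ≠ x.2.1 ∧ (∀ y ∈ L, x.1 ≠ y.1 ∧ x.1 ≠ y.2.1 ∧ x.2.1 ≠ y.1 ∧ x.2.1 ≠ y.2.1) ∧ Disj L := by
  unfold Disj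
  simp only [List.map_cons, List.cons_append, List.nodup_cons, List.mem_append, List.mem_map,
    List.mem_cons, not_or, not_exists, not_and, List.nodup_append]
  constructor
  · rintro ⟨⟨h1, h2, h3⟩, h4, ⟨h5, h6⟩, h7⟩
    refine ⟨h2, fun y hy => ⟨fun h => h1 y hy h.symm, fun h => h3 y hy h.symm, fun h => ?_,
      fun h => h5 y hy h.symm⟩, h4, h6, fun p hp q hq => h7 p hp q (Or.inr hq)⟩
    exact h7 y.1 ⟨y, hy, rfl⟩ x.2.1 (Or.inl rfl) h.symm
  · rintro ⟨h1, h2, h3, h4, h5⟩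
    refine ⟨⟨fun y hy h => (h2 y hy).1 h.symm, h1, fun y hy h => (h2 y hy).2.1 h.symm⟩, h3,
      ⟨fun y hy h => (h2 y hy).2.2.2 h.symm, h4⟩, fun p hp q hq => ?_⟩
    rcases hq with rfl | hq
    · obtain ⟨y, hy, rfl⟩ := hp
      exact fun h => (h2 y hy).2.2.1 h.symm
    · exact h5 p hp q hq

/-- disjoint edges commute -/
theorem pf_comm {x y : Edge m} (h : x.1 ≠ y.1 ∧ x.1 ≠ y.2.1 ∧ x.2.1 ≠ y.1 ∧ x.2.1 ≠ y.2.1) :
    pf M x * pf M y = pf M y * pf M x :=
  pairFac_comm M h.1 h.2.1 h.2.2.1 h.2.2.2 _ _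

theorem Disj.pairwise {L : List (Edge m)} (h : Disj L) :
    (L.map (pf M)).Pairwise Commute := by
  induction L with
  | nil => simp
  | cons x L ih =>
    obtain ⟨-, h2, h3⟩ := Disj.cons_iff.1 h
    rw [List.map_cons, List.pairwise_cons]
    refine ⟨fun z hz => ?_, ih h3⟩
    obtain ⟨y, hy, rfl⟩ := List.mem_map.1 hz
    exact pf_comm M (h2 y hy)

theorem Disj.perm {L L' : List (Edge m)} (h : Disj L) (hp : L.Perm L') : Disj L' := by
  unfold Disj at h ⊢
  exact ((hp.map _).append (hp.map _)).nodup_iff.1 h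

/-- the product of disjoint pair factors does not depend on their order -/
theorem PL_perm {L L' : List (Edge m)} (h : Disj L) (hp : L.Perm L') : PL M L = PL M L' :=
  (hp.map (pf M)).prod_eq' (h.pairwise M)

theorem Disj.inj {L : List (Edge m)} (h : Disj L) :
    Function.Injective (Sum.elim (fun j : Fin L.length => (L.get j).1)
      (fun j : Fin L.length => (L.get j).2.1)) := by
  unfold Disj at h
  rw [List.nodup_append] at h
  obtain ⟨h1, h2, h3⟩ := h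
  have e1 : ∀ i j : Fin L.length, (L.get i).1 = (L.get j).1 → i = j := by
    intro i j hij
    have h4 := List.nodup_iff_injective_get.1 h1
    have h5 : (L.map fun x => x.1).get ⟨i, by simp⟩ = (L.map fun x => x.1).get ⟨j, by simp⟩ := by
      simpa using hij
    have h6 := h4 h5
    simpa [Fin.ext_iff] using h6
  have e2 : ∀ i j : Fin L.length, (L.get i).2.1 = (L.get j).2.1 → i = j := by
    intro i j hij
    have h4 := List.nodup_iff_injective_get.1 h2
    have h5 : (L.map fun x => x.2.1).get ⟨i, by simp⟩ =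
        (L.map fun x => x.2.1).get ⟨j, by simp⟩ := by
      simpa using hij
    have h6 := h4 h5
    simpa [Fin.ext_iff] using h6
  rintro (i | i) (j | j) hij
  · rw [e1 i j hij]
  · exact absurd hij (h3 _ (List.mem_map_of_mem (L.get_mem i)) _
      (List.mem_map_of_mem (L.get_mem j)))
  · exact absurd hij.symm (h3 _ (List.mem_map_of_mem (L.get_mem j)) _
      (List.mem_map_of_mem (L.get_mem i)))
  · rw [e2 i j hij]

theorem PL_eq_ofFn (L : List (Edge m)) : PL M L = (List.ofFn fun j : Fin L.length =>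
    pairFac M (L.get j).1 (L.get j).2.1 (L.get j).2.2).prod := by
  have : (List.ofFn fun j : Fin L.length =>
      pairFac M (L.get j).1 (L.get j).2.1 (L.get j).2.2) = L.map (pf M) := by
    have h1 : (fun j : Fin L.length => pairFac M (L.get j).1 (L.get j).2.1 (L.get j).2.2) =
        pf M ∘ L.get := rfl
    rw [h1, ← List.map_ofFn, List.ofFn_get]
  rw [this]; rfl

/-- all units are `1` or `-1` -/
def Unital (L : List (Edge m)) : Prop := ∀ x ∈ L, x.2.2 = 1 ∨ x.2.2 = -1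

/-- the projector of a list of disjoint edges -/
theorem PL_facts (hH : ∀ a, (M.e a)ᴴ = M.e a) {L : List (Edge m)} (h : Disj L) (hu : Unital L) :
    (PL M L)ᴴ = PL M L ∧ PL M L * PL M L = PL M L ∧ (∀ x ∈ L, pf M x * PL M L = PL M L) ∧
      (∀ x ∈ L, PL M L * pf M x = PL M L) ∧
      (PL M L).trace * 2 ^ L.length = Fintype.card n := by
  obtain ⟨h1, h2, h3, h4⟩ := pairProd M hH L.length (fun j => (L.get j).1)
    (fun j => (L.get j).2.1) h.inj (fun j => (L.get j).2.2) (fun j => hu _ (L.get_mem j))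
  have h5 := trace_pairProd M L.length (fun j => (L.get j).1)
    (fun j => (L.get j).2.1) h.inj (fun j => (L.get j).2.2)
  rw [← PL_eq_ofFn] at h1 h2 h5
  refine ⟨h1, h2, fun x hx => ?_, fun x hx => ?_, h5⟩
  · obtain ⟨j, rfl⟩ := List.mem_iff_get.1 hx
    rw [PL_eq_ofFn]
    exact h3 j
  · obtain ⟨j, rfl⟩ := List.mem_iff_get.1 hx
    rw [PL_eq_ofFn]
    exact h4 j

/-- the state of a perfect matching given by a list -/
theorem exists_state_list (hH : ∀ a, (M.e a)ᴴ = M.e a) {k : ℕ} (hn : Fintype.card n = 2 ^ k)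
    {L : List (Edge m)} (h : Disj L) (hu : Unital L) (hk : L.length = k) :
    ∃ ψ : n → ℂ, star ψ ⬝ᵥ ψ = 1 ∧ (∀ x ∈ L, pf M x *ᵥ ψ = ψ) ∧
      PL M L = vecMulVec ψ (star ψ) := by
  obtain ⟨ψ, h1, h2, h3⟩ := exists_pairState M hH L.length (by rw [hn, hk])
    (fun j => (L.get j).1) (fun j => (L.get j).2.1) h.inj (fun j => (L.get j).2.2)
    (fun j => hu _ (L.get_mem j))
  refine ⟨ψ, h1, fun x hx => ?_, ?_⟩
  · obtain ⟨j, rfl⟩ := List.mem_iff_get.1 hx
    exact h2 j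
  · rw [PL_eq_ofFn]; exact h3

/-- a list of factors absorbed by `P` -/
theorem PL_mul_absorb {L : List (Edge m)} {P : Matrix n n ℂ} (h : ∀ x ∈ L, pf M x * P = P) :
    PL M L * P = P := by
  induction L with
  | nil => rw [PL_nil, one_mul]
  | cons x L ih =>
    rw [PL_cons, Matrix.mul_assoc, ih (fun y hy => h y (List.mem_cons_of_mem _ hy)),
      h x List.mem_cons_self]

/-- **Change of the matching**: if the new matching is `new ++ rest` up to order and the pairs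
of `rest` are old pairs, then only the new pairs count. -/
theorem PL_step (hH : ∀ a, (M.e a)ᴴ = M.e a) {L L' new rest : List (Edge m)} (h : Disj L)
    (hu : Unital L) (h' : Disj L') (hp : L'.Perm (new ++ rest)) (hrest : ∀ x ∈ rest, x ∈ L) :
    PL M L' * PL M L = PL M new * PL M L := by
  obtain ⟨-, -, h3, -, -⟩ := PL_facts M hH h hu
  rw [PL_perm M h' hp, PL_append, Matrix.mul_assoc,
    PL_mul_absorb M fun x hx => h3 x (hrest x hx)]

end Lists

section Phase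

variable {n : Type} [Fintype n]

theorem vecMulVec_star_mulVec (ψ w : n → ℂ) :
    vecMulVec ψ (star ψ) *ᵥ w = (star ψ ⬝ᵥ w) • ψ := by
  rw [Matrix.vecMulVec_mulVec]
  ext i
  simp [mul_comm]

theorem star_dot_self_smul (α : ℂ) (ψ : n → ℂ) (h : star ψ ⬝ᵥ ψ = 1) :
    star (α • ψ) ⬝ᵥ (α • ψ) = ((‖α‖ ^ 2 : ℝ) : ℂ) := by
  rw [star_smul, smul_dotProduct, dotProduct_smul, h, smul_eq_mul, smul_eq_mul, mul_one]
  have := Complex.conj_mul' α
  push_cast
  exact this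

/-- **One slit.** -/
theorem slit_step (B P P' : Matrix n n ℂ) (hB : ∀ w : n → ℂ, star (B *ᵥ w) ⬝ᵥ (B *ᵥ w) =
    star w ⬝ᵥ w) (hPB : P' * B = B * P) (ψ ψ' : n → ℂ)
    (hψ : P = vecMulVec ψ (star ψ)) (hψ' : P' = vecMulVec ψ' (star ψ'))
    (h1 : star ψ ⬝ᵥ ψ = 1) (h1' : star ψ' ⬝ᵥ ψ' = 1) (l l' : n → ℂ) (hl : l = l' ᵥ* B)
    (u u' z : ℂ) (r r' : ℝ) (hr : 0 < r) (hr' : 0 < r') (hu : ‖u‖ = 1) (hu' : ‖u'‖ = 1)
    (hz : z ≠ 0) (h2 : l ⬝ᵥ ψ = u * r * z) (h3 : l' ⬝ᵥ ψ' = u' * r' * z) :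
    (star ψ' ⬝ᵥ (B *ᵥ ψ)) * u' = u := by
  set α := star ψ' ⬝ᵥ (B *ᵥ ψ) with hα
  have hψψ : P *ᵥ ψ = ψ := by rw [hψ, vecMulVec_star_mulVec, h1, one_smul]
  have h4 : B *ᵥ ψ = α • ψ' := by
    have h5 : P' *ᵥ (B *ᵥ ψ) = B *ᵥ ψ := by
      rw [Matrix.mulVec_mulVec, hPB, ← Matrix.mulVec_mulVec, hψψ]
    rw [← h5, hψ', vecMulVec_star_mulVec]
  have hα1 : ‖α‖ = 1 := by
    have h5 := hB ψ
    rw [h4, star_dot_self_smul α ψ' h1', h1] at h5
    have h6 : ‖α‖ ^ 2 = 1 := by exact_mod_cast h5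
    exact (pow_eq_one_iff_of_nonneg (norm_nonneg α) two_ne_zero).1 h6
  have h5 : u * r * z = α * (u' * r' * z) := by
    rw [← h2, ← h3, hl, ← Matrix.dotProduct_mulVec, h4, dotProduct_smul, smul_eq_mul]
  have h6 : u * r = α * u' * r' := by
    apply mul_right_cancel₀ hz
    rw [h5]; ring
  have h7 : r = r' := by
    have h8 := congrArg norm h6
    rw [norm_mul, norm_mul, norm_mul, hu, hα1, hu', one_mul, one_mul, Complex.norm_real,
      Complex.norm_real, Real.norm_of_nonneg hr.le, one_mul, Real.norm_of_nonneg hr'.le] at h8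
    exact h8
  rw [h7] at h6
  exact (mul_right_cancel₀ (by exact_mod_cast hr'.ne') h6).symm

/-- **One change of the matching.** -/
theorem conc_step (P' : Matrix n n ℂ) (ψ ψ' : n → ℂ) (hψ' : P' = vecMulVec ψ' (star ψ'))
    (c : ℝ) (hov : ‖star ψ' ⬝ᵥ ψ‖ = c) (l : n → ℂ) (t : ℝ) (ht : 0 < t)
    (hl : l ⬝ᵥ (P' *ᵥ ψ) = t * (l ⬝ᵥ ψ)) (u u' z : ℂ) (r r' : ℝ) (hr : 0 < r) (hr' : 0 < r')
    (hu : ‖u‖ = 1) (hu' : ‖u'‖ = 1) (hz : z ≠ 0) (h2 : l ⬝ᵥ ψ = u * r * z)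
    (h3 : l ⬝ᵥ ψ' = u' * r' * z) :
    (star ψ' ⬝ᵥ ψ) * u' = u * c := by
  set α := star ψ' ⬝ᵥ ψ with hα
  have h5 : α * (u' * r' * z) = t * (u * r * z) := by
    rw [← h2, ← h3, ← hl, hψ', vecMulVec_star_mulVec, dotProduct_smul, smul_eq_mul]
  have h6 : α * u' * r' = u * (t * r) := by
    apply mul_right_cancel₀ hz
    linear_combination h5
  have h7 : c * r' = t * r := by
    have h8 := congrArg norm h6
    rw [norm_mul, norm_mul, norm_mul, norm_mul, hov, hu, hu', Complex.norm_real,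
      Complex.norm_real, Complex.norm_real, Real.norm_of_nonneg hr.le,
      Real.norm_of_nonneg hr'.le, Real.norm_of_nonneg ht.le, one_mul, mul_one] at h8
    exact h8
  have h9 : ((c : ℝ) : ℂ) * r' = t * r := by exact_mod_cast h7
  have hr0 : ((r' : ℝ) : ℂ) ≠ 0 := by exact_mod_cast hr'.ne'
  apply mul_right_cancel₀ hr0
  linear_combination h6 - u * h9

/-- The same with the roles of the two states exchanged. -/
theorem conc_step' (P' : Matrix n n ℂ) (ψ ψ' : n → ℂ) (hψ' : P' = vecMulVec ψ' (star ψ'))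
    (c : ℝ) (hov : ‖star ψ' ⬝ᵥ ψ‖ = c) (l : n → ℂ) (t : ℝ) (ht : 0 < t)
    (hl : l ⬝ᵥ (P' *ᵥ ψ) = t * (l ⬝ᵥ ψ)) (u u' z : ℂ) (r r' : ℝ) (hr : 0 < r) (hr' : 0 < r')
    (hu : ‖u‖ = 1) (hu' : ‖u'‖ = 1) (hz : z ≠ 0) (h2 : l ⬝ᵥ ψ = u * r * z)
    (h3 : l ⬝ᵥ ψ' = u' * r' * z) :
    (star ψ ⬝ᵥ ψ') * u = u' * c := by
  have h := conc_step P' ψ ψ' hψ' c hov l t ht hl u u' z r r' hr hr' hu hu' hz h2 h3
  have h4 := congrArg star h
  have h5 : star (star ψ' ⬝ᵥ ψ) = star ψ ⬝ᵥ ψ' := by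
    rw [star_dotProduct, star_star]
  have h6 : star ((c : ℝ) : ℂ) = ((c : ℝ) : ℂ) := Complex.conj_ofReal c
  rw [star_mul', star_mul', h5, h6] at h4
  have h7 : star u * u = 1 := by
    have := Complex.conj_mul' u
    rw [hu] at this
    simpa using this
  have h8 : star u' * u' = 1 := by
    have := Complex.conj_mul' u'
    rw [hu'] at this
    simpa using this
  -- `⟨ψ, ψ'⟩ conj u' = conj u * c`
  linear_combination (u * u') * h4 + (-(star ψ ⬝ᵥ ψ') * u) * h8 + (u' * c) * h7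

end Phase

section Ctx

namespace Ctx

variable {n : Type} [Fintype n] [DecidableEq n] (X : Ctx n)

theorem proj_eq_PL (A B : Fin 4 → Fin 8) (ζ : Fin 4 → ℂ) :
    X.proj A B ζ = PL X.M (List.ofFn fun p => ((A p, B p, ζ p) : Edge 8)) := by
  rw [PL, List.map_ofFn]; rfl

/-- The projector of a pairing is carried by `B` to the projector of the exchanged pairing. -/
theorem Bfac_mul_proj {a b : Fin 8} (hab : a ≠ b) {τ : ℂ} (hτ : τ = 1 ∨ τ = -1)
    (A B : Fin 4 → Fin 8) (ζ : Fin 4 → ℂ) :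
    Bfac X.M a b τ * X.proj A B ζ =
      X.proj (fun p => Equiv.swap a b (A p)) (fun p => Equiv.swap a b (B p))
        (fun p => sgnE a b τ (A p) * sgnE a b τ (B p) * ζ p) * Bfac X.M a b τ := by
  have h := bf_mul_PL X.M (a, b, τ) hab hτ (List.ofFn fun p => ((A p, B p, ζ p) : Edge 8))
  rw [List.map_ofFn] at h
  rw [proj_eq_PL, proj_eq_PL]
  exact h

theorem Bfac_unitary {a b : Fin 8} (hab : a ≠ b) {τ : ℂ} (hτ : τ = 1 ∨ τ = -1) :
    (Bfac X.M a b τ)ᴴ * Bfac X.M a b τ = 1 :=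
  bf_unitary X.M (a, b, τ) hab hτ X.hH

theorem Bfac_mul_herm {a b : Fin 8} (hab : a ≠ b) {τ : ℂ} (hτ : τ = 1 ∨ τ = -1) :
    Bfac X.M a b τ * (Bfac X.M a b τ)ᴴ = 1 :=
  mul_eq_one_comm.1 (X.Bfac_unitary hab hτ)

/-- `B ψ` is the state of the exchanged pairing: the projector. -/
theorem proj_swap {a b : Fin 8} (hab : a ≠ b) {τ : ℂ} (hτ : τ = 1 ∨ τ = -1)
    {A B : Fin 4 → Fin 8} {ζ : Fin 4 → ℂ} {ψ : n → ℂ}
    (h : X.proj A B ζ = vecMulVec ψ (star ψ)) :
    X.proj (fun p => Equiv.swap a b (A p)) (fun p => Equiv.swap a b (B p))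
        (fun p => sgnE a b τ (A p) * sgnE a b τ (B p) * ζ p) =
      vecMulVec (Bfac X.M a b τ *ᵥ ψ) (star (Bfac X.M a b τ *ᵥ ψ)) := by
  have h1 := X.Bfac_mul_proj hab hτ A B ζ
  have h2 := congrArg (· * (Bfac X.M a b τ)ᴴ) h1
  simp only [Matrix.mul_assoc, X.Bfac_mul_herm hab hτ, mul_one] at h2
  rw [← h2, h, star_mulVec, Matrix.vecMulVec_mul, Matrix.mul_vecMulVec]

/-- `B ψ` is normalized. -/
theorem unit_swap {a b : Fin 8} (hab : a ≠ b) {τ : ℂ} (hτ : τ = 1 ∨ τ = -1) {ψ : n → ℂ}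
    (h : star ψ ⬝ᵥ ψ = 1) :
    star (Bfac X.M a b τ *ᵥ ψ) ⬝ᵥ (Bfac X.M a b τ *ᵥ ψ) = 1 := by
  rw [star_mulVec, ← Matrix.dotProduct_mulVec, Matrix.mulVec_mulVec, X.Bfac_unitary hab hτ,
    one_mulVec, h]

/-- The state of the exchanged pairing with the units `ζ'`, if `ζ'` are the exchanged units. -/
theorem isState_swap {a b : Fin 8} (hab : a ≠ b) {τ : ℂ} (hτ : τ = 1 ∨ τ = -1)
    {A B : Fin 4 → Fin 8} {ζ ζ' : Fin 4 → ℂ} {ψ : n → ℂ}
    (h : X.proj A B ζ = vecMulVec ψ (star ψ)) (h1 : star ψ ⬝ᵥ ψ = 1) {θ : ℝ}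
    (hζ : ∀ p, ζ' p = sgnE a b τ (A p) * sgnE a b τ (B p) * ζ p)
    {r : ℝ} (hr : 0 < r) (hl : (X.lr θ ᵥ* Bfac X.M a b τ) ⬝ᵥ ψ = r) :
    X.IsState θ (fun p => Equiv.swap a b (A p)) (fun p => Equiv.swap a b (B p)) ζ'
      (Bfac X.M a b τ *ᵥ ψ) := by
  have hζ' : ζ' = fun p => sgnE a b τ (A p) * sgnE a b τ (B p) * ζ p := funext hζ
  refine ⟨X.unit_swap hab hτ h1, ?_, r, hr, ?_⟩
  · rw [hζ']; exact X.proj_swap hab hτ h
  · rw [Matrix.dotProduct_mulVec, hl]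

end Ctx

end Ctx

end Pool.Agent.Rohlin
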