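import Pool.Agent.Rohlin.ConfG
import Pool.Agent.Rohlin.StepAlg
import Pool.Agent.Rohlin.SpinCtx
import Pool.Agent.Rohlin.PtOpen

/-!
# CROSS: the pairing and the state at the end of a slit
-/

set_option autoImplicit false

namespace Pool.Agent.Rohlin

open Polynomial Complex Set Matrix Filter Topology

theorem sgnE_cases {m : ℕ} (a b : Fin m) {τ : ℂ} (hτ : τ = 1 ∨ τ = -1) (c : Fin m) :
    sgnE a b τ c = 1 ∨ sgnE a b τ c = -1 := by
  unfold sgnE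
  split_ifs
  · rcases hτ with h | h <;> rw [h] <;> simp
  · exact hτ
  · exact Or.inl rfl

/-- the sign of a pair after relabelling -/
theorem zetaG_relabel {σ : Equiv.Perm (Fin 8)} {s s' : Fin 8 → ℂ} {κ : Fin 8 → ℂ}
    (hκ : ∀ i, κ i = 1 ∨ κ i = -1) (hs : ∀ i, s' (σ i) = κ i * s i) (a b : Fin 8) (k : Fin 3) :
    zetaG s' (σ a) (σ b) k = κ a * κ b * zetaG s a b k := by
  unfold zetaG
  rw [hs, hs]
  rcases hκ a with ha | ha <;> rcases hκ b with hb | hb <;> rw [ha, hb] <;> split_ifs <;>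
    simp [div_neg, neg_div]

/-- relabelling of a pairing -/
theorem PairingG.relabel {K0 K1 : Set RP2} {θ : ℝ} {σ : Equiv.Perm (Fin 8)}
    {e s e' s' : Fin 8 → ℂ} {κ : Fin 8 → ℂ} (hκ : ∀ i, κ i = 1 ∨ κ i = -1)
    (he : ∀ i, e' (σ i) = e i) (hs : ∀ i, s' (σ i) = κ i * s i) {A B : Fin 4 → Fin 8}
    {kind : Fin 4 → Fin 3} {ζ : Fin 4 → ℂ} (h : PairingG K0 K1 θ e s A B kind ζ) :
    PairingG K0 K1 θ e' s' (fun p => σ (A p)) (fun p => σ (B p)) kind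
      (fun p => κ (A p) * κ (B p) * ζ p) where
  inj := by
    have : Sum.elim (fun p => σ (A p)) (fun p => σ (B p)) = σ ∘ Sum.elim A B := by
      funext i
      rcases i with i | i <;> rfl
    rw [this]
    exact σ.injective.comp h.inj
  cpx := fun p hp => by rw [he, he]; exact h.cpx p hp
  real := fun p hp => by rw [he, he]; exact h.real p hp
  in0 := fun η => by simp only [he]; exact h.in0 η
  in1 := fun η => by simp only [he]; exact h.in1 η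
  zeta := fun p => by rw [zetaG_relabel hκ hs, ← h.zeta p]
  zeta_sq := fun p => by
    rcases hκ (A p) with ha | ha <;> rcases hκ (B p) with hb | hb <;>
      rcases h.zeta_sq p with hz | hz <;> rw [ha, hb, hz] <;> simp

/-- the side of the slit on the circle -/
theorem exists_side {c z : ℂ} (hz : ‖z‖ < 1) {θ₀ t : ℝ} (ht : 0 < t)
    (h : circ θ₀ = z + t * (z - c)) : ∃ ε : ℝ, 0 < ε ∧ ∀ θ : ℝ,
      (θ₀ - ε < θ → θ < θ₀ → 0 < (sc c z (circ θ)).im) ∧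
      (θ₀ < θ → θ < θ₀ + ε → (sc c z (circ θ)).im < 0) := by
  have hcz : c - z ≠ 0 := by
    intro h0
    have h1 : circ θ₀ = z := by
      rw [h, ← neg_sub c z, h0]; simp
    have h2 := Phase.norm_circ θ₀
    rw [h1] at h2
    exact hz.ne h2
  have htc : (t : ℂ) ≠ 0 := Complex.ofReal_ne_zero.2 ht.ne'
  have hzp : z - circ θ₀ = t * (c - z) := by rw [h]; ring
  have hzp0 : z - circ θ₀ ≠ 0 := by rw [hzp]; exact mul_ne_zero htc hcz
  set g : ℝ → ℝ := fun θ => (Complex.exp ((θ - θ₀ : ℝ) * I) * (I * circ θ₀ / (z - circ θ₀))).im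
    with hg
  have hgc : Continuous g := by
    rw [hg]
    fun_prop
  have hg0 : g θ₀ < 0 := by
    have := Phase.im_dir (c := z) (θ₀ := θ₀) hz
    simpa [hg] using this
  have key : ∀ θ : ℝ, (sc c z (circ θ)).im = 2 * Real.sin (θ - θ₀) * t * g θ := by
    intro θ
    have h1 : sc c z (circ θ) = ((2 * Real.sin (θ - θ₀) * t : ℝ) : ℂ) *
        (Complex.exp ((θ - θ₀ : ℝ) * I) * (I * circ θ₀ / (z - circ θ₀))) - (t : ℂ) := by
      have h2 := Phase.circ_sub θ θ₀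
      have h3 : circ θ - z = (circ θ - circ θ₀) - t * (c - z) := by rw [← hzp]; ring
      rw [sc, h3, h2, hzp]
      push_cast
      field_simp
    rw [h1, Complex.sub_im, Complex.ofReal_im, sub_zero, Complex.im_ofReal_mul]
  have hev := hgc.continuousAt.eventually (gt_mem_nhds hg0)
  obtain ⟨δ, hδ, hb⟩ := Metric.eventually_nhds_iff.1 hev
  refine ⟨min δ 1, lt_min hδ one_pos, fun θ => ⟨fun h1 h2 => ?_, fun h1 h2 => ?_⟩⟩
  · have h3 : |θ - θ₀| < min δ 1 := by rw [abs_lt]; constructor <;> linarith [lt_min hδ one_pos]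
    have h4 : g θ < 0 := hb (by rw [Real.dist_eq]; exact h3.trans_le (min_le_left _ _))
    have h5 : Real.sin (θ - θ₀) < 0 := by
      refine Real.sin_neg_of_neg_of_neg_pi_lt (by linarith) ?_
      have h6 := (abs_lt.1 (h3.trans_le (min_le_right _ _))).1
      linarith [Real.pi_gt_three]
    rw [key]
    have h6 : 2 * Real.sin (θ - θ₀) * t < 0 := by nlinarith
    nlinarith
  · have h3 : |θ - θ₀| < min δ 1 := by rw [abs_lt]; constructor <;> linarith [lt_min hδ one_pos]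
    have h4 : g θ < 0 := hb (by rw [Real.dist_eq]; exact h3.trans_le (min_le_left _ _))
    have h5 : 0 < Real.sin (θ - θ₀) := by
      refine Real.sin_pos_of_pos_of_lt_pi (by linarith) ?_
      have h6 := (abs_lt.1 (h3.trans_le (min_le_right _ _))).2
      linarith [Real.pi_gt_three]
    rw [key]
    have h6 : 0 < 2 * Real.sin (θ - θ₀) * t := by positivity
    nlinarith

namespace Ctx

variable {n : Type} [Fintype n] [DecidableEq n] (X : Ctx n)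

/-- the labels continued across the end `p` of the slit of `z` -/
structure Continued (z p : ℂ) (a b : Fin 8) (τ : ℂ) (V : Set ℂ) (yt st : Fin 8 → ℂ → ℂ)
    (lt : ℂ → n → ℂ) : Prop where
  hab : a ≠ b
  hτ : τ = 1 ∨ τ = -1
  nhds : V ∈ 𝓝 p
  contY : ∀ i, ContinuousOn (yt i) (V ∩ {w | ‖w‖ ≤ 1})
  contS : ∀ i, ContinuousOn (st i) (V ∩ {w | ‖w‖ ≤ 1})
  contL : ContinuousOn lt (V ∩ {w | ‖w‖ ≤ 1})
  root : ∀ w ∈ V, ‖w‖ ≤ 1 → ∀ i, (fam X.f w).eval (yt i w) = 0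
  inj : ∀ w ∈ V, ‖w‖ ≤ 1 → Function.Injective fun i => yt i w
  sq : ∀ w ∈ V, ‖w‖ ≤ 1 → ∀ i, st i w ^ 2 = (derivative (fam X.f w)).eval (yt i w)
  form : ∀ w ∈ V, ‖w‖ ≤ 1 →
    X.C * X.M.R (vfam (fun i => yt i w) fun i => st i w) = vecMulVec (lt w) (lt w)
  before : ∀ w ∈ V, ‖w‖ ≤ 1 → 0 < (sc X.c z w).im →
    (∀ i, X.y i w = yt i w ∧ X.s i w = st i w) ∧ X.l w = lt w
  after_a : ∀ w ∈ V, ‖w‖ ≤ 1 → (sc X.c z w).im < 0 → X.y a w = yt b w ∧ X.s a w = τ * st b w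
  after_b : ∀ w ∈ V, ‖w‖ ≤ 1 → (sc X.c z w).im < 0 → X.y b w = yt a w ∧ X.s b w = -τ * st a w
  after : ∀ w ∈ V, ‖w‖ ≤ 1 → (sc X.c z w).im < 0 → ∀ i, i ≠ a → i ≠ b →
    X.y i w = yt i w ∧ X.s i w = st i w
  after_l : ∀ w ∈ V, ‖w‖ ≤ 1 → (sc X.c z w).im < 0 → lt w = X.l w ᵥ* Bfac X.M a b τ

/-- **CROSS** from the continued labels -/
theorem Continued.cross {X : Ctx n} {z : ℂ} {a b : Fin 8} {τ : ℂ} {V : Set ℂ}
    {yt st : Fin 8 → ℂ → ℂ} {lt : ℂ → n → ℂ} {θ₀ t : ℝ}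
    (h : X.Continued z (circ θ₀) a b τ V yt st lt) (hz : ‖z‖ < 1) (ht : 0 < t)
    (hp : circ θ₀ = z + t * (z - X.c)) :
    ∃ ε : ℝ, 0 < ε ∧ ∀ θ₁ θ₂ : ℝ, θ₀ - ε < θ₁ → θ₁ < θ₀ → θ₀ < θ₂ → θ₂ < θ₀ + ε →
      ∀ A B kind ζ ψ, X.Full θ₁ A B kind ζ ψ →
        ∃ ζ', X.Full θ₂ (fun p => Equiv.swap a b (A p)) (fun p => Equiv.swap a b (B p)) kind ζ'
          (Bfac X.M a b τ *ᵥ ψ) := by
  obtain ⟨ε₁, hε₁, hside⟩ := exists_side hz ht hp
  have hVn : ∀ᶠ θ in 𝓝 θ₀, circ θ ∈ V := Phase.continuous_circ.continuousAt.eventually h.nhds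
  obtain ⟨ε₂, hε₂, hVb⟩ := Metric.eventually_nhds_iff.1 hVn
  set ε := min ε₁ ε₂ with hε
  have hε0 : 0 < ε := lt_min hε₁ hε₂
  set I₀ : Set ℝ := Ioo (θ₀ - ε) (θ₀ + ε) with hI₀
  have hV : ∀ θ ∈ I₀, circ θ ∈ V := fun θ hθ => hVb (by
    rw [Real.dist_eq, abs_lt]
    constructor <;> linarith [hθ.1, hθ.2, min_le_right ε₁ ε₂])
  have hn : ∀ θ : ℝ, ‖circ θ‖ ≤ 1 := fun θ => (Phase.norm_circ θ).le
  have hmaps : MapsTo circ I₀ (V ∩ {w | ‖w‖ ≤ 1}) := fun θ hθ => ⟨hV θ hθ, hn θ⟩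
  set e : ℝ → Fin 8 → ℂ := fun θ i => exp (-(θ * I)) * yt i (circ θ) with he
  set s : ℝ → Fin 8 → ℂ := fun θ i => exp (-(7 / 2 * θ * I)) * st i (circ θ) with hs
  set l : ℝ → n → ℂ := fun θ x => exp (4 * θ * I) * lt (circ θ) x with hl
  have L : LabArc X.f I₀ e s := by
    refine ⟨fun θ hθ => ?_, fun i => ?_, fun i => ?_⟩
    · exact Lab.of_w X.nf (h.root _ (hV θ hθ) (hn θ)) (h.inj _ (hV θ hθ) (hn θ))
        (h.sq _ (hV θ hθ) (hn θ))
    · exact ContinuousOn.mul (by fun_prop)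
        ((h.contY i).comp Phase.continuous_circ.continuousOn hmaps)
    · exact ContinuousOn.mul (by fun_prop)
        ((h.contS i).comp Phase.continuous_circ.continuousOn hmaps)
  have hlc : ContinuousOn l I₀ := by
    rw [hl]
    refine continuousOn_pi.2 fun x => ?_
    exact ContinuousOn.mul (by fun_prop)
      ((continuousOn_pi.1 h.contL x).comp Phase.continuous_circ.continuousOn hmaps)
  have hform : ∀ θ ∈ I₀, X.C * X.M.R (vfam (e θ) (s θ)) = vecMulVec (l θ) (l θ) :=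
    fun θ hθ => form_of_w X.M X.C (h.form _ (hV θ hθ) (hn θ))
  refine ⟨ε, hε0, fun θ₁ θ₂ h1 h2 h3 h4 A B kind ζ ψ hF => ?_⟩
  have hθ₁ : θ₁ ∈ I₀ := ⟨h1, by linarith⟩
  have hθ₂ : θ₂ ∈ I₀ := ⟨by linarith, h4⟩
  have hs1 : 0 < (sc X.c z (circ θ₁)).im :=
    (hside θ₁).1 (by linarith [min_le_left ε₁ ε₂]) h2
  have hs2 : (sc X.c z (circ θ₂)).im < 0 :=
    (hside θ₂).2 h3 (by linarith [min_le_left ε₁ ε₂])
  -- before
  obtain ⟨hb1, hb2⟩ := h.before _ (hV θ₁ hθ₁) (hn θ₁) hs1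
  have e1 : X.eta θ₁ = e θ₁ := by
    funext i
    rw [Ctx.eta, (hb1 i).1]
  have s1 : X.sig θ₁ = s θ₁ := by
    funext i
    rw [Ctx.sig, (hb1 i).2]
  have l1 : X.lr θ₁ = l θ₁ := by
    funext x
    rw [Ctx.lr, hb2]
  have hP1 := (X.pairing_iff _ _ _ _ _).1 hF.pair
  have hS1 := (X.isState_iff _ _ _ _ _).1 hF.state
  rw [e1, s1] at hP1
  rw [l1] at hS1
  obtain ⟨hP2, hS2⟩ := generic_arc X.M X.C X.card X.hCC X.hCT X.hC isOpenMap_pt X.nf X.reg L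
    isPreconnected_Ioo isOpen_Ioo hlc hform hθ₁ hθ₂ hP1 hS1
  -- after
  obtain ⟨ya, sa⟩ := h.after_a _ (hV θ₂ hθ₂) (hn θ₂) hs2
  obtain ⟨yb, sb⟩ := h.after_b _ (hV θ₂ hθ₂) (hn θ₂) hs2
  have hoth := h.after _ (hV θ₂ hθ₂) (hn θ₂) hs2
  have hττ : τ * τ = 1 := by rcases h.hτ with h0 | h0 <;> rw [h0] <;> norm_num
  have e2 : ∀ i, X.eta θ₂ (Equiv.swap a b i) = e θ₂ i := by
    intro i
    rw [Ctx.eta]
    by_cases hia : i = a
    · rw [hia, Equiv.swap_apply_left, yb]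
    by_cases hib : i = b
    · rw [hib, Equiv.swap_apply_right, ya]
    rw [Equiv.swap_apply_of_ne_of_ne hia hib, (hoth i hia hib).1]
  have s2 : ∀ i, X.sig θ₂ (Equiv.swap a b i) = sgnE a b τ i * s θ₂ i := by
    intro i
    rw [Ctx.sig]
    by_cases hia : i = a
    · rw [hia, Equiv.swap_apply_left, sb, sgnE, if_pos rfl]
      ring
    by_cases hib : i = b
    · rw [hib, Equiv.swap_apply_right, sa, sgnE, if_neg h.hab.symm, if_pos rfl]
      ring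
    rw [Equiv.swap_apply_of_ne_of_ne hia hib, (hoth i hia hib).2, sgnE, if_neg hia, if_neg hib,
      one_mul]
  have l2 : l θ₂ = X.lr θ₂ ᵥ* Bfac X.M a b τ := by
    have h5 : X.lr θ₂ = exp (4 * θ₂ * I) • X.l (circ θ₂) := by
      funext x
      rw [Ctx.lr]; rfl
    have h6 : l θ₂ = exp (4 * θ₂ * I) • lt (circ θ₂) := by
      funext x
      rw [hl]; rfl
    rw [h5, h6, Matrix.smul_vecMul, ← h.after_l _ (hV θ₂ hθ₂) (hn θ₂) hs2]
  refine ⟨fun p => sgnE a b τ (A p) * sgnE a b τ (B p) * ζ p, ?_, ?_⟩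
  · exact (X.pairing_iff _ _ _ _ _).2 (hP2.relabel (sgnE_cases a b h.hτ) e2 s2)
  · obtain ⟨r, hr, hr2⟩ := hS2.pos
    exact X.isState_swap h.hab h.hτ hS2.proj hS2.unit (fun p => rfl) hr (by rw [← l2]; exact hr2)

/-- the frame across the slit (helper file `SpinCtx`) gives continued labels -/
theorem CrossAt.continued {X : Ctx n} {z p : ℂ} {a b : Fin 8} {τ : ℂ} {V : Set ℂ}
    {yt st : Fin 8 → ℂ → ℂ} {lt : ℂ → n → ℂ} (h : X.CrossAt z p a b τ V yt st lt) :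
    X.Continued z p a b τ V yt st lt where
  hab := h.hab
  hτ := h.hτ
  nhds := h.isOpen.mem_nhds h.mem
  contY := fun i => (h.y_cont i).mono inter_subset_left
  contS := fun i => (h.s_cont i).mono inter_subset_left
  contL := h.l_cont.mono inter_subset_left
  root := h.root
  inj := h.inj
  sq := h.sq
  form := h.lsq
  before := fun w hw h1 h2 =>
    ⟨fun i => ⟨h.y_before w hw h1 h2 i, h.s_before w hw h1 h2 i⟩, h.l_before w hw h1 h2⟩
  after_a := fun w hw h1 h2 => ⟨h.y_a w hw h1 h2, h.s_a w hw h1 h2⟩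
  after_b := fun w hw h1 h2 => ⟨h.y_b w hw h1 h2, h.s_b w hw h1 h2⟩
  after := fun w hw h1 h2 i ha hb => ⟨h.y_other w hw h1 h2 i ha hb, h.s_other w hw h1 h2 i ha hb⟩
  after_l := h.l_after

/-- **CROSS** -/
theorem crossOK (hL : X.LocalOK) : X.CrossOK := by
  intro z hz hz1 θ t ht hp
  obtain ⟨D, hD⟩ := hL z hz
  obtain ⟨V, yt, st, lt, h⟩ := hD.exists_cross hz hz1 ht hp
  exact ⟨D.a, D.b, -D.ε, h.hτ, hD.coll, fun a' b' hc => hD.coll_unique hz a' b' hc,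
    h.continued.cross hz1 ht hp⟩

end Ctx

end Pool.Agent.Rohlin
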