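import Mathlib

/-!
# The square root of a continuous family of symmetric matrices of rank one
-/

set_option autoImplicit false

namespace Pool.Agent.Rohlin

open Set Topology Matrix

section

variable {n : Type*} [Fintype n]

/-- two roots of a matrix `l lᵀ` differ by a sign -/
theorem eq_or_eq_neg_of_vecMulVec {l l' : n → ℂ} (h : vecMulVec l l = vecMulVec l' l') :
    l = l' ∨ l = -l' := by
  have h0 : ∀ i j, l i * l j = l' i * l' j := by
    intro i j
    have := congrFun (congrFun h i) j
    simpa [Matrix.vecMulVec_apply] using this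
  by_cases hz : l = 0
  · left
    rw [hz]
    funext i
    have := h0 i i
    rw [hz] at this
    simpa [eq_comm] using this
  · obtain ⟨i, hi⟩ : ∃ i, l i ≠ 0 := by
      by_contra hcon
      push Not at hcon
      exact hz (funext hcon)
    have h1 := h0 i i
    rcases mul_self_eq_mul_self_iff.1 h1 with h2 | h2
    · left
      funext j
      have h3 := h0 i j
      rw [← h2] at h3
      exact mul_left_cancel₀ hi h3
    · right
      funext j
      have h3 := h0 i j
      have h4 : l' i = -l i := by rw [h2, neg_neg]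
      rw [h4, neg_mul, ← mul_neg] at h3
      exact mul_left_cancel₀ hi h3

/-- the total space -/
def RootSpace (D : Set ℂ) (N : ℂ → Matrix n n ℂ) : Type _ :=
  {p : D × (n → ℂ) // N p.1 = vecMulVec p.2 p.2}

instance (D : Set ℂ) (N : ℂ → Matrix n n ℂ) : TopologicalSpace (RootSpace D N) :=
  inferInstanceAs (TopologicalSpace {p : D × (n → ℂ) // N p.1 = vecMulVec p.2 p.2})

/-- the projection -/
def RootSpace.pr {D : Set ℂ} {N : ℂ → Matrix n n ℂ} (e : RootSpace D N) : D := e.1.1

omit [Fintype n] in
theorem RootSpace.continuous_pr {D : Set ℂ} {N : ℂ → Matrix n n ℂ} :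
    Continuous (RootSpace.pr : RootSpace D N → D) := continuous_fst.comp continuous_subtype_val

theorem RootSpace.isCoveringMap_pr {D : Set ℂ} {N : ℂ → Matrix n n ℂ} (hN : ContinuousOn N D)
    (hr : ∀ x ∈ D, ∃ l : n → ℂ, l ≠ 0 ∧ N x = vecMulVec l l) :
    IsCoveringMap (RootSpace.pr : RootSpace D N → D) := by
  classical
  choose! sec hsec0 hsec using hr
  have hne : Nonempty (D → RootSpace D N) := ⟨fun x => ⟨(x, sec x), hsec x x.2⟩⟩
  have hND : Continuous fun x : D => N x := continuousOn_iff_continuous_domRestrict.1 hN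
  have key : ∀ x : D, ∃ t : Bundle.Trivialization (Fin 2) (RootSpace.pr : RootSpace D N → D),
      x ∈ t.baseSet := by
    intro x₀
    -- a vector `ψ` with `l₀ ⬝ ψ = 1`
    obtain ⟨i, hi⟩ : ∃ i, sec x₀ i ≠ 0 := by
      by_contra hcon
      push Not at hcon
      exact hsec0 x₀ x₀.2 (funext hcon)
    let ψ : n → ℂ := Pi.single i (sec x₀ i)⁻¹
    have hψ : sec x₀ ⬝ᵥ ψ = 1 := by
      rw [dotProduct_single, mul_inv_cancel₀ hi]
    let q : D → ℂ := fun x => ψ ⬝ᵥ (N x *ᵥ ψ)
    have hq : Continuous q := by
      have : Continuous fun x : D => N x *ᵥ ψ := hND.matrix_mulVec continuous_const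
      exact continuous_const.dotProduct this
    have hqe : ∀ (e : RootSpace D N), q e.pr = (e.1.2 ⬝ᵥ ψ) ^ 2 := by
      intro e
      have h1 : N e.pr = vecMulVec e.1.2 e.1.2 := e.2
      simp only [q]
      rw [h1, Matrix.vecMulVec_mulVec, dotProduct_comm]
      simp [sq, dotProduct_comm]
    let U : Set D := {x | 0 < (q x).re}
    have hUo : IsOpen U := isOpen_lt continuous_const (Complex.continuous_re.comp hq)
    have hxU : x₀ ∈ U := by
      have h1 := hqe ⟨(x₀, sec x₀), hsec x₀ x₀.2⟩
      have h2 : q x₀ = 1 := by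
        have h3 : q x₀ = (sec x₀ ⬝ᵥ ψ) ^ 2 := h1
        rw [h3, hψ, one_pow]
      show 0 < (q x₀).re
      rw [h2]
      norm_num
    -- the local roots
    let r : D → ℂ := fun x => q x ^ (1 / 2 : ℂ)
    have hr2 : ∀ x, r x ^ 2 = q x := by
      intro x
      have := Complex.cpow_nat_inv_pow (q x) (n := 2) two_ne_zero
      convert this using 2
      simp only [r]
      norm_num
    have hrre : ∀ x ∈ U, 0 < (r x).re := by
      intro x hx
      have hx' : 0 < (q x).re := hx
      have h0 : q x ≠ 0 := by
        intro h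
        rw [h] at hx'
        exact lt_irrefl _ hx'
      have h1 : |Complex.arg (q x)| < Real.pi / 2 := Complex.abs_arg_lt_pi_div_two_iff.2 (Or.inl hx')
      simp only [r]
      rw [Complex.cpow_def_of_ne_zero h0, Complex.exp_re]
      refine mul_pos (Real.exp_pos _) ?_
      apply Real.cos_pos_of_mem_Ioo
      have h2 : (Complex.log (q x) * (1 / 2 : ℂ)).im = Complex.arg (q x) / 2 := by
        rw [show (1 / 2 : ℂ) = ((1 / 2 : ℝ) : ℂ) by push_cast; ring, Complex.im_mul_ofReal,
          Complex.log_im]
        ring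
      rw [h2]
      obtain ⟨h3, h4⟩ := abs_lt.1 h1
      have := Real.pi_pos
      constructor <;> linarith
    have hrcont : ContinuousOn r U := by
      intro x hx
      have h1 : ContinuousAt r x := hq.continuousAt.cpow continuousAt_const (Or.inl hx)
      exact h1.continuousWithinAt
    -- the sign of a root
    have hsgn : ∀ e : RootSpace D N, e.pr ∈ U → (e.1.2 ⬝ᵥ ψ = r e.pr ∨ e.1.2 ⬝ᵥ ψ = -r e.pr) := by
      intro e he
      have h1 := hqe e
      rw [← hr2] at h1
      rcases sq_eq_sq_iff_eq_or_eq_neg.1 h1 with h | h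
      · exact Or.inl h.symm
      · right
        rw [h, neg_neg]
    have hNψ : ∀ e : RootSpace D N, N e.pr *ᵥ ψ = (e.1.2 ⬝ᵥ ψ) • e.1.2 := by
      intro e
      have h1 : N e.pr = vecMulVec e.1.2 e.1.2 := e.2
      rw [h1, Matrix.vecMulVec_mulVec]
      ext j
      simp [mul_comm]
    let sg : Fin 2 → ℂ := fun i => if i = 0 then 1 else -1
    have hsg : ∀ i, sg i * sg i = 1 := by
      intro i
      fin_cases i <;> simp [sg]
    let V : Fin 2 → Set (RootSpace D N) := fun i => {e | e.pr ∈ U ∧ 0 < (sg i * (e.1.2 ⬝ᵥ ψ)).re}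
    have hVo : ∀ i, IsOpen (V i) := fun i => by
      refine IsOpen.inter (hUo.preimage RootSpace.continuous_pr) ?_
      have h1 : Continuous fun e : RootSpace D N => (sg i * (e.1.2 ⬝ᵥ ψ)).re := by
        have h2 : Continuous fun e : RootSpace D N => e.1.2 ⬝ᵥ ψ :=
          (continuous_snd.comp continuous_subtype_val).dotProduct continuous_const
        exact Complex.continuous_re.comp (continuous_const.mul h2)
      exact isOpen_lt continuous_const h1
    -- the local section
    have hVeq : ∀ i, ∀ e ∈ V i, e.1.2 ⬝ᵥ ψ = sg i * r e.pr := by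
      rintro i e ⟨h1, h2⟩
      have h3 := hrre _ h1
      rcases hsgn e h1 with h | h
      · rw [h] at h2 ⊢
        fin_cases i
        · simp [sg]
        · simp [sg] at h2
          linarith
      · rw [h] at h2 ⊢
        fin_cases i
        · simp [sg] at h2
          linarith
        · simp [sg]
    let sc : Fin 2 → D → n → ℂ := fun i x => (sg i * (r x)⁻¹) • (N x *ᵥ ψ)
    have hsc : ∀ i, ∀ x ∈ U, N x = vecMulVec (sc i x) (sc i x) := by
      intro i x hx
      have h1 := hNψ ⟨(x, sec x), hsec x x.2⟩
      have h1' : N x *ᵥ ψ = (sec x ⬝ᵥ ψ) • sec x := h1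
      have h2 := hqe ⟨(x, sec x), hsec x x.2⟩
      have h2' : q x = (sec x ⬝ᵥ ψ) ^ 2 := h2
      have h3 : r x ≠ 0 := by
        intro h
        have := hrre x hx
        rw [h] at this
        exact lt_irrefl _ this
      have h4 : N x = vecMulVec (sec x) (sec x) := hsec x x.2
      conv_lhs => rw [h4]
      ext a b
      simp only [sc, h1', Matrix.vecMulVec_apply, Pi.smul_apply, smul_eq_mul]
      have h5 := hr2 x
      rw [h2'] at h5
      have h6 := hsg i
      field_simp
      linear_combination (sec x a * sec x b) * h5 -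
        (sec x a * sec x b * (sec x ⬝ᵥ ψ) ^ 2) * h6
    have hsccont : ∀ i, ContinuousOn (sc i) U := by
      intro i
      have h1 : Continuous fun x : D => N x *ᵥ ψ := hND.matrix_mulVec continuous_const
      have h2 : ContinuousOn (fun x => (r x)⁻¹) U := hrcont.inv₀ fun x hx h => by
        have := hrre x hx
        rw [h] at this
        exact lt_irrefl _ this
      exact (continuousOn_const.mul h2).smul h1.continuousOn
    have hscV : ∀ i, ∀ x ∈ U, 0 < (sg i * (sc i x ⬝ᵥ ψ)).re := by
      intro i x hx
      have h1 : sc i x ⬝ᵥ ψ = sg i * r x := by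
        have h3 : r x ≠ 0 := by
          intro h
          have := hrre x hx
          rw [h] at this
          exact lt_irrefl _ this
        simp only [sc]
        rw [smul_dotProduct, dotProduct_comm (N x *ᵥ ψ)]
        show (sg i * (r x)⁻¹) • q x = _
        rw [← hr2 x, smul_eq_mul]
        field_simp
      rw [h1, ← mul_assoc, hsg, one_mul]
      exact hrre x hx
    have hscu : ∀ i, ∀ e ∈ V i, e.1.2 = sc i e.pr := by
      intro i e he
      have h1 := hNψ e
      have h2 := hVeq i e he
      have h3 : r e.pr ≠ 0 := by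
        intro h
        have := hrre _ he.1
        rw [h] at this
        exact lt_irrefl _ this
      simp only [sc]
      rw [h1, h2, smul_smul]
      have h4 : sg i * (r e.pr)⁻¹ * (sg i * r e.pr) = 1 := by
        have := hsg i
        field_simp
        linear_combination this
      rw [h4, one_smul]
    refine ⟨hUo.trivializationDiscrete V U (fun i W hW => ⟨fun hWo => ?_, fun hWo => ?_⟩)
      (fun i => ?_) (fun i => ?_) (fun i j hij => ?_) ?_, hxU⟩
    · exact (hWo.preimage RootSpace.continuous_pr).inter (hVo i)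
    · -- the image of an open set under the section
      obtain ⟨O, hO, hOe⟩ := isOpen_induced_iff.1 hWo
      have h1 : W = U ∩ (fun x => ((x, sc i x) : D × (n → ℂ))) ⁻¹' O := by
        ext x
        constructor
        · intro hx
          refine ⟨hW hx, ?_⟩
          have h2 : (⟨(x, sc i x), hsc i x (hW hx)⟩ : RootSpace D N) ∈
              RootSpace.pr ⁻¹' W ∩ V i := ⟨hx, hW hx, hscV i x (hW hx)⟩
          rw [← hOe] at h2
          exact h2
        · rintro ⟨hxU', hxO⟩
          have h2 : (⟨(x, sc i x), hsc i x hxU'⟩ : RootSpace D N) ∈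
              RootSpace.pr ⁻¹' W ∩ V i := by
            rw [← hOe]
            exact hxO
          exact h2.1
      rw [h1]
      have h2 : ContinuousOn (fun x => ((x, sc i x) : D × (n → ℂ))) U :=
        continuousOn_id.prodMk (hsccont i)
      exact h2.isOpen_inter_preimage hUo hO
    · intro e he e' he' hee
      have hee' : e.pr = e'.pr := hee
      have h1 := hscu i e he
      have h2 := hscu i e' he'
      apply Subtype.ext
      refine Prod.ext hee' ?_
      rw [h1, h2, hee']
    · intro x hx
      exact ⟨⟨(x, sc i x), hsc i x hx⟩, ⟨hx, hscV i x hx⟩, rfl⟩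
    · rw [Function.onFun, Set.disjoint_left]
      rintro e ⟨_, h1⟩ ⟨_, h2⟩
      have h3 : sg i = sg j ∨ sg i = -sg j := by
        fin_cases i <;> fin_cases j <;> simp [sg]
      rcases h3 with h3 | h3
      · apply hij
        fin_cases i <;> fin_cases j <;> simp [sg] at h3 ⊢
        · norm_num at h3
        · norm_num at h3
      · rw [h3, neg_mul, Complex.neg_re] at h1
        linarith
    · intro e he
      have he' : e.pr ∈ U := he
      rcases hsgn e he' with h | h
      · refine Set.mem_iUnion.2 ⟨0, he', ?_⟩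
        show 0 < (sg 0 * (e.1.2 ⬝ᵥ ψ)).re
        rw [h]
        simpa [sg] using hrre _ he'
      · refine Set.mem_iUnion.2 ⟨1, he', ?_⟩
        show 0 < (sg 1 * (e.1.2 ⬝ᵥ ψ)).re
        rw [h]
        simpa [sg] using hrre _ he'
  choose t ht using key
  exact IsCoveringMap.mk _ (fun _ => Fin 2) t ht

/-- **The continuous square root** of a family of symmetric matrices of rank one over a simply
connected open set. -/
theorem exists_continuousOn_vecMulVec {D : Set ℂ} (hD : IsOpen D) (hDs : IsSimplyConnected D)
    {N : ℂ → Matrix n n ℂ} (hN : ContinuousOn N D)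
    (hr : ∀ x ∈ D, ∃ l : n → ℂ, l ≠ 0 ∧ N x = vecMulVec l l) :
    ∃ l : ℂ → n → ℂ, ContinuousOn l D ∧ ∀ x ∈ D, N x = vecMulVec (l x) (l x) := by
  classical
  have := hDs.simplyConnectedSpace
  have := hD.locallyPathConnectedSpace
  obtain ⟨x₀, hx₀⟩ := hDs.nonempty
  have cov := RootSpace.isCoveringMap_pr hN hr
  obtain ⟨l₀, -, hl₀⟩ := hr x₀ hx₀
  obtain ⟨f, ⟨-, hf⟩, -⟩ := cov.existsUnique_continuousMap_lifts (ContinuousMap.id D)
    (a₀ := ⟨x₀, hx₀⟩) (e₀ := ⟨(⟨x₀, hx₀⟩, l₀), hl₀⟩) rfl
  have hfst : ∀ a : D, (f a).1.1 = a := fun a => congrFun hf a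
  refine ⟨fun x => if h : x ∈ D then (f ⟨x, h⟩).1.2 else 0, ?_, fun x hx => ?_⟩
  · rw [continuousOn_iff_continuous_domRestrict]
    have h1 : (D.domRestrict fun x => if h : x ∈ D then (f ⟨x, h⟩).1.2 else 0) =
        fun a => (f a).1.2 := by
      funext a
      simp [Set.domRestrict]
    rw [h1]
    exact continuous_snd.comp (continuous_subtype_val.comp (map_continuous f))
  · simp only [dif_pos hx]
    have h1 := (f ⟨x, hx⟩).2
    rwa [hfst ⟨x, hx⟩] at h1

end

end Pool.Agent.Rohlin
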