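import Pool.Agent.Rohlin.Setup

/-!
# Star domains

`Star c Z` (see `Setup`) is the plane minus the rays from the points `z` of the finite set `Z` which
point away from the centre `c`.  `retr c` is the retraction of the plane onto the closed unit disc
along the rays from `c`.
-/

set_option autoImplicit false

namespace Pool.Agent.Rohlin

open Complex Set Topology Metric

/-- the coordinate at `z`: it is `0` at `z`, `1` at `c`, and real negative on the slit of `z` -/
noncomputable def sc (c z w : ℂ) : ℂ := (w - z) / (c - z)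

lemma sc_self (c z : ℂ) : sc c z z = 0 := by simp [sc]

lemma sc_centre {c z : ℂ} (h : z ≠ c) : sc c z c = 1 := div_self (sub_ne_zero.2 (Ne.symm h))

lemma continuous_sc (c z : ℂ) : Continuous (sc c z) := by
  unfold sc
  fun_prop

lemma eq_add_mul_sc {c z : ℂ} (h : z ≠ c) (w : ℂ) : w = z + sc c z w * (c - z) := by
  have : c - z ≠ 0 := sub_ne_zero.2 (Ne.symm h)
  rw [sc, div_mul_cancel₀ _ this]
  ring

variable {c : ℂ} {Z : Finset ℂ}

/-- the star domain in terms of the coordinates `sc` -/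
lemma mem_Star (hc : c ∉ Z) {w : ℂ} : w ∈ Star c Z ↔ ∀ z ∈ Z, sc c z w ∈ slitPlane := by
  symm
  refine forall₂_congr fun z hz => ?_
  have hzc : z ≠ c := fun h => hc (h ▸ hz)
  have h0 : c - z ≠ 0 := sub_ne_zero.2 (Ne.symm hzc)
  constructor
  · rintro h t ht rfl
    have h1 : sc c z (z + t * (z - c)) = ((-t : ℝ) : ℂ) := by
      rw [sc]
      field_simp
      push_cast
      ring
    rw [h1, ofReal_mem_slitPlane] at h
    linarith
  · intro h
    rw [mem_slitPlane_iff]
    by_contra hcon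
    push Not at hcon
    obtain ⟨h1, h2⟩ := hcon
    apply h (-(sc c z w).re) (by linarith)
    have h3 : sc c z w = ((sc c z w).re : ℂ) := by
      apply Complex.ext <;> simp [h2]
    conv_lhs => rw [eq_add_mul_sc hzc w, h3]
    push_cast
    ring

lemma sc_mem_slitPlane {w z : ℂ} (hc : c ∉ Z) (hz : z ∈ Z) (hw : w ∈ Star c Z) :
    sc c z w ∈ slitPlane := (mem_Star hc).1 hw z hz

lemma notMem_of_mem_Star {w : ℂ} (h : w ∈ Star c Z) : w ∉ Z := by
  intro hw
  exact h w hw 0 le_rfl (by simp)

lemma isOpen_Star (hc : c ∉ Z) : IsOpen (Star c Z) := by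
  have h1 : Star c Z = ⋂ z ∈ Z, sc c z ⁻¹' slitPlane := by
    ext w
    rw [mem_Star hc]
    simp
  rw [h1]
  exact isOpen_biInter_finset fun z _ => isOpen_slitPlane.preimage (continuous_sc c z)

lemma centre_mem_Star (hc : c ∉ Z) : c ∈ Star c Z := by
  rw [mem_Star hc]
  intro z hz
  have hzc : z ≠ c := fun h => hc (h ▸ hz)
  rw [sc_centre hzc]
  exact one_mem_slitPlane

lemma starConvex_Star (hc : c ∉ Z) : StarConvex ℝ c (Star c Z) := by
  intro w hw a b ha hb hab
  rw [mem_Star hc] at hw ⊢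
  intro z hz
  have hzc : z ≠ c := fun h => hc (h ▸ hz)
  have h1 := starConvex_one_slitPlane (hw z hz) ha hb hab
  have h2 : sc c z (a • c + b • w) = a • (1 : ℂ) + b • sc c z w := by
    have h0 : c - z ≠ 0 := sub_ne_zero.2 (Ne.symm hzc)
    have hab' : (a : ℂ) + b = 1 := by exact_mod_cast hab
    simp only [sc, real_smul]
    field_simp
    linear_combination z * hab'
  rw [h2]
  exact h1

theorem contractibleSpace_Star (hc : c ∉ Z) : ContractibleSpace (Star c Z) :=
  (starConvex_Star hc).contractibleSpace ⟨c, centre_mem_Star hc⟩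

theorem isSimplyConnected_Star (hc : c ∉ Z) : IsSimplyConnected (Star c Z) := by
  have := contractibleSpace_Star hc
  exact SimplyConnectedSpace.ofContractible _

/-! ## The square root coordinate -/

lemma tvar_eq (c z w : ℂ) : tvar c z w = sc c z w ^ (1 / 2 : ℂ) := rfl

lemma tvar_sq (c z w : ℂ) : tvar c z w ^ 2 = sc c z w := by
  have := cpow_nat_inv_pow (sc c z w) (n := 2) two_ne_zero
  rw [tvar_eq]
  convert this using 2
  norm_num

lemma tvar_self (c z : ℂ) : tvar c z z = 0 := by
  rw [tvar_eq, sc_self, zero_cpow]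
  norm_num

/-- `w` in terms of the square root coordinate -/
lemma eq_add_tvar {c z : ℂ} (h : z ≠ c) (w : ℂ) : w = z + tvar c z w ^ 2 * (c - z) := by
  rw [tvar_sq]
  exact eq_add_mul_sc h w

lemma tvar_ne_zero {w z : ℂ} (hc : c ∉ Z) (hz : z ∈ Z) (hw : w ∈ Star c Z) : tvar c z w ≠ 0 := by
  intro h
  have h1 := tvar_sq c z w
  rw [h] at h1
  have h2 := sc_mem_slitPlane hc hz hw
  rw [← h1] at h2
  norm_num at h2

lemma tvar_re_pos {w z : ℂ} (hc : c ∉ Z) (hz : z ∈ Z) (hw : w ∈ Star c Z) :
    0 < (tvar c z w).re := by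
  have hs := sc_mem_slitPlane hc hz hw
  have h0 : sc c z w ≠ 0 := slitPlane_ne_zero hs
  have h1 : arg (sc c z w) ≠ Real.pi := slitPlane_arg_ne_pi hs
  rw [tvar_eq, cpow_def_of_ne_zero h0, Complex.exp_re]
  refine mul_pos (Real.exp_pos _) ?_
  apply Real.cos_pos_of_mem_Ioo
  have h2 : (log (sc c z w) * (1 / 2 : ℂ)).im = arg (sc c z w) / 2 := by
    rw [show (1 / 2 : ℂ) = ((1 / 2 : ℝ) : ℂ) by push_cast; ring, im_mul_ofReal, log_im]
    ring
  rw [h2]
  have h3 := neg_pi_lt_arg (sc c z w)
  have h4 := (arg_le_pi (sc c z w)).lt_of_ne h1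
  constructor <;> linarith

lemma continuousOn_tvar {z : ℂ} (hc : c ∉ Z) (hz : z ∈ Z) :
    ContinuousOn (tvar c z) (Star c Z) := by
  intro w hw
  have h1 : ContinuousAt (tvar c z) w :=
    (continuous_sc c z).continuousAt.cpow continuousAt_const (sc_mem_slitPlane hc hz hw)
  exact h1.continuousWithinAt

/-- the square root coordinate tends to `0` at `z` (no restriction on the direction) -/
lemma tendsto_tvar_self (c z : ℂ) : Filter.Tendsto (tvar c z) (𝓝 z) (𝓝 0) := by
  rw [tendsto_zero_iff_norm_tendsto_zero]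
  have h1 : ∀ w, ‖tvar c z w‖ = Real.sqrt ‖sc c z w‖ := by
    intro w
    rw [← tvar_sq c z w, norm_pow, Real.sqrt_sq (norm_nonneg _)]
  simp only [h1]
  have h2 : Filter.Tendsto (fun w => ‖sc c z w‖) (𝓝 z) (𝓝 0) := by
    have := (continuous_sc c z).norm.tendsto z
    rwa [sc_self, norm_zero] at this
  have h3 := (Real.continuous_sqrt.tendsto 0).comp h2
  rwa [Real.sqrt_zero] at h3

/-! ## The retraction onto the closed unit disc -/

/-- the radial function of the retraction -/
noncomputable def rad (c w : ℂ) : ℝ := max 1 (gauge (closedBall (-c) 1) (w - c))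

/-- the retraction of the plane onto the closed unit disc, along the rays from `c` -/
noncomputable def retr (c w : ℂ) : ℂ := c + ((rad c w)⁻¹ : ℝ) * (w - c)

lemma closedBall_mem_nhds_zero (hc : ‖c‖ < 1) : closedBall (-c) 1 ∈ 𝓝 (0 : ℂ) := by
  refine closedBall_mem_nhds_of_mem ?_
  rw [mem_ball, dist_eq_norm, zero_sub, neg_neg]
  exact hc

lemma one_le_rad (c w : ℂ) : 1 ≤ rad c w := le_max_left _ _

lemma continuous_rad (hc : ‖c‖ < 1) : Continuous (rad c) := by
  have h1 : Continuous (gauge (closedBall (-c) 1)) :=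
    continuous_gauge (convex_closedBall _ _) (closedBall_mem_nhds_zero hc)
  exact continuous_const.max (h1.comp (by fun_prop))

lemma continuous_retr (hc : ‖c‖ < 1) : Continuous (retr c) := by
  have h1 : Continuous fun w => (rad c w)⁻¹ :=
    (continuous_rad hc).inv₀ fun w => (zero_lt_one.trans_le (one_le_rad c w)).ne'
  unfold retr
  exact continuous_const.add ((continuous_ofReal.comp h1).mul (by fun_prop))

lemma retr_eq_self {w : ℂ} (hw : ‖w‖ ≤ 1) : retr c w = w := by
  have h1 : gauge (closedBall (-c) 1) (w - c) ≤ 1 := by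
    apply gauge_le_one_of_mem
    rw [mem_closedBall, dist_eq_norm]
    simpa using hw
  have h2 : rad c w = 1 := max_eq_left h1
  rw [retr, h2]
  simp

lemma norm_retr_le (hc : ‖c‖ < 1) (w : ℂ) : ‖retr c w‖ ≤ 1 := by
  have hpos : 0 < rad c w := zero_lt_one.trans_le (one_le_rad c w)
  have h0 := closedBall_mem_nhds_zero hc
  have h1 : gauge (closedBall (-c) 1) (((rad c w)⁻¹ : ℝ) • (w - c)) ≤ 1 := by
    rw [gauge_smul_of_nonneg (inv_nonneg.2 hpos.le), smul_eq_mul, inv_mul_le_one₀ hpos]
    exact le_max_right _ _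
  have h2 : ((rad c w)⁻¹ : ℝ) • (w - c) ∈ closedBall (-c) 1 := by
    rw [← isClosed_closedBall.closure_eq]
    exact (gauge_le_one_iff_mem_closure (convex_closedBall _ _) h0).1 h1
  rw [mem_closedBall, dist_eq_norm, real_smul] at h2
  rw [sub_neg_eq_add, add_comm] at h2
  exact h2

lemma retr_eq_combo (c w : ℂ) : ∃ a b : ℝ, 0 ≤ a ∧ 0 < b ∧ a + b = 1 ∧
    retr c w = a • c + b • w := by
  have hpos : 0 < rad c w := zero_lt_one.trans_le (one_le_rad c w)
  refine ⟨1 - (rad c w)⁻¹, (rad c w)⁻¹, ?_, inv_pos.2 hpos, by ring, ?_⟩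
  · rw [sub_nonneg]
    exact inv_le_one_of_one_le₀ (one_le_rad c w)
  · simp only [real_smul, retr]
    push_cast
    ring

lemma retr_mem_Star (hc : c ∉ Z) {w : ℂ} (hw : w ∈ Star c Z) : retr c w ∈ Star c Z := by
  obtain ⟨a, b, ha, hb, hab, h⟩ := retr_eq_combo c w
  rw [h]
  exact starConvex_Star hc hw ha hb.le hab

end Pool.Agent.Rohlin
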