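import Pool.Agent.Rohlin.Cover
import Pool.Agent.Rohlin.Star
import Pool.Agent.Rohlin.RankOne
import Pool.Agent.Rohlin.Spinor

/-!
# The labelled roots, their square roots and the pure spinor functional over a simply connected set
-/

set_option autoImplicit false

namespace Pool.Agent.Rohlin

open Set Topology Polynomial Filter Matrix

variable {m : ℕ}

/-- pull back of a family -/
def Family.comp (F : Family m) (g : ℂ → ℂ) (hg : Continuous g) : Family m where
  P x := F.P (g x)
  monic _ := F.monic _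
  deg _ := F.deg _
  cont j := (F.cont j).comp hg

@[simp] theorem Family.comp_P (F : Family m) (g : ℂ → ℂ) (hg : Continuous g) (x : ℂ) :
    (F.comp g hg).P x = F.P (g x) := rfl

/-- labelled roots `y i` and square roots `s i` of the derivative at the roots -/
structure Frame (F : Family m) (D : Set ℂ) where
  y : Fin m → ℂ → ℂ
  s : Fin m → ℂ → ℂ
  contY : ∀ i, ContinuousOn (y i) D
  contS : ∀ i, ContinuousOn (s i) D
  root : ∀ x ∈ D, ∀ i, (F.P x).eval (y i x) = 0
  inj : ∀ x ∈ D, Function.Injective fun i => y i x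
  sq : ∀ x ∈ D, ∀ i, s i x ^ 2 = (F.P x).derivative.eval (y i x)

theorem prod_of_roots {P : ℂ[X]} (hP : P.Monic) (hd : P.natDegree = m) {y : Fin m → ℂ}
    (hy : ∀ i, P.eval (y i) = 0) (hinj : Function.Injective y) : P = ∏ i, (X - C (y i)) := by
  classical
  have h1 : ∏ i, (X - C (y i)) ∣ P := by
    refine Finset.prod_dvd_of_coprime ?_ fun i _ => dvd_iff_isRoot.2 (hy i)
    intro i _ j _ hij
    exact isCoprime_X_sub_C_of_isUnit_sub (sub_ne_zero.2 fun h => hij (hinj h)).isUnit
  refine (eq_of_monic_of_dvd_of_natDegree_le (monic_prod_of_monic _ _ fun i _ => monic_X_sub_C _)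
    hP h1 ?_)
  rw [natDegree_prod_of_monic _ _ fun i _ => monic_X_sub_C _]
  simp [hd]

theorem deriv_of_prod {P : ℂ[X]} {y : Fin m → ℂ} (h : P = ∏ i, (X - C (y i))) (i : Fin m) :
    P.derivative.eval (y i) = ∏ j ∈ Finset.univ.erase i, (y i - y j) := by
  classical
  have h1 : P = Lagrange.nodal Finset.univ y := by rw [h, Lagrange.nodal_eq]
  rw [h1, Lagrange.eval_nodal_derivative_eval_node_eq (Finset.mem_univ i), Lagrange.eval_nodal]

namespace Frame

variable {F : Family m} {D : Set ℂ} (fr : Frame F D)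

include fr in
theorem P_eq {x : ℂ} (hx : x ∈ D) : F.P x = ∏ i, (X - C (fr.y i x)) :=
  prod_of_roots (F.monic x) (F.deg x) (fr.root x hx) (fr.inj x hx)

theorem deriv_eq {x : ℂ} (hx : x ∈ D) (i : Fin m) :
    (F.P x).derivative.eval (fr.y i x) = ∏ j ∈ Finset.univ.erase i, (fr.y i x - fr.y j x) :=
  deriv_of_prod (fr.P_eq hx) i

theorem s_ne_zero {x : ℂ} (hx : x ∈ D) (i : Fin m) : fr.s i x ≠ 0 := by
  intro h
  have h1 := fr.sq x hx i
  rw [h, fr.deriv_eq hx, zero_pow two_ne_zero, eq_comm, Finset.prod_eq_zero_iff] at h1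
  obtain ⟨j, hj, h2⟩ := h1
  exact (Finset.mem_erase.1 hj).1 (fr.inj x hx (sub_eq_zero.1 h2)).symm

/-- the vectors `(y_i ^ j / s_i)_i` -/
noncomputable def v (k : ℕ) (x : ℂ) : Fin k → Fin m → ℂ := fun j i => fr.y i x ^ (j : ℕ) / fr.s i x

theorem v_apply (k : ℕ) (x : ℂ) (j : Fin k) (i : Fin m) :
    fr.v k x j i = fr.y i x ^ (j : ℕ) / fr.s i x := rfl

/-- Euler's identity. -/
theorem sum_pow_div {x : ℂ} (hx : x ∈ D) (e : ℕ) (he : e + 1 < m) :
    ∑ i, fr.y i x ^ e / fr.s i x ^ 2 = 0 := by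
  classical
  have h1 := Lagrange.coeff_eq_sum (s := Finset.univ) (v := fun i => fr.y i x)
    (fun i _ j _ h => fr.inj x hx h) (P := (X : ℂ[X]) ^ e) (by
      rw [degree_X_pow, Finset.card_univ, Fintype.card_fin]
      exact_mod_cast (by omega : e < m))
  rw [coeff_X_pow, Finset.card_univ, Fintype.card_fin, if_neg (by omega)] at h1
  rw [h1]
  refine Finset.sum_congr rfl fun i _ => ?_
  rw [eval_pow, eval_X, fr.sq x hx, fr.deriv_eq hx]

theorem v_iso {k : ℕ} (hk : 2 * k ≤ m) {x : ℂ} (hx : x ∈ D) (i j : Fin k) :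
    fr.v k x i ⬝ᵥ fr.v k x j = 0 := by
  rw [← fr.sum_pow_div hx (i + j) (by have := i.2; have := j.2; omega)]
  refine Finset.sum_congr rfl fun a _ => ?_
  have := fr.s_ne_zero hx a
  rw [v_apply, v_apply, pow_add]
  field_simp

theorem v_linearIndependent {k : ℕ} (hk : k ≤ m) {x : ℂ} (hx : x ∈ D) :
    LinearIndependent ℂ (fr.v k x) := by
  classical
  rw [Fintype.linearIndependent_iff]
  intro g hg j
  set p : ℂ[X] := ∑ j : Fin k, C (g j) * X ^ (j : ℕ) with hp
  have hev : ∀ i, p.eval (fr.y i x) = 0 := by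
    intro i
    have h1 := congrFun hg i
    rw [Finset.sum_apply] at h1
    simp only [Pi.smul_apply, smul_eq_mul, v_apply, Pi.zero_apply] at h1
    have h2 : (∑ j : Fin k, g j * fr.y i x ^ (j : ℕ)) / fr.s i x = 0 := by
      rw [← h1, Finset.sum_div]
      exact Finset.sum_congr rfl fun j _ => by ring
    rw [div_eq_zero_iff] at h2
    rw [hp, eval_finsetSum]
    simp only [eval_mul, eval_C, eval_pow, eval_X]
    exact h2.resolve_right (fr.s_ne_zero hx i)
  have hdeg : p.degree < k := by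
    rw [hp]
    rw [← mem_degreeLT]
    refine Submodule.sum_mem _ fun j _ => ?_
    rw [mem_degreeLT]
    refine (degree_C_mul_X_pow_le _ _).trans_lt ?_
    exact_mod_cast j.2
  have hp0 : p = 0 := by
    refine Polynomial.eq_zero_of_degree_lt_of_eval_index_eq_zero (s := Finset.univ)
      (v := fun i => fr.y i x) (fun i _ j _ h => fr.inj x hx h) ?_ fun i _ => hev i
    rw [Finset.card_univ, Fintype.card_fin]
    exact hdeg.trans_le (by exact_mod_cast hk)
  have h3 : p.coeff (j : ℕ) = g j := by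
    rw [hp, finsetSum_coeff]
    rw [Finset.sum_eq_single j]
    · simp
    · intro i _ hij
      rw [coeff_C_mul_X_pow, if_neg]
      exact fun h => hij (Fin.ext h.symm)
    · intro h
      exact absurd (Finset.mem_univ j) h
  rw [← h3, hp0, coeff_zero]

theorem continuousOn_v {k : ℕ} (j : Fin k) (i : Fin m) :
    ContinuousOn (fun x => fr.v k x j i) D :=
  ((fr.contY i).pow _).div (fr.contS i) fun _ hx => fr.s_ne_zero hx i

end Frame

/-- **Existence of a frame** over a simply connected open set of regular values. -/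
theorem exists_frame (F : Family m) {D : Set ℂ} (hD : IsOpen D) (hDs : IsSimplyConnected D)
    (hreg : D ⊆ F.reg) : Nonempty (Frame F D) := by
  classical
  obtain ⟨y, hy, hroot, hinj⟩ := F.exists_labels hD hDs hreg
  have hder : ∀ i, ContinuousOn (fun x => ∏ j ∈ Finset.univ.erase i, (y i x - y j x)) D := fun i =>
    continuousOn_finsetProd _ fun j _ => (hy i).sub (hy j)
  have hex : ∀ i, ∃ s : ℂ → ℂ, ContinuousOn s D ∧
      ∀ x, s x ^ 2 = ∏ j ∈ Finset.univ.erase i, (y i x - y j x) := by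
    intro i
    refine Complex.exists_continuousOn_pow_eq hDs hD (hder i) ?_ two_ne_zero
    rintro ⟨x, hx, h0⟩
    simp only [Finset.prod_eq_zero_iff] at h0
    obtain ⟨j, hj, h1⟩ := h0
    exact (Finset.mem_erase.1 hj).1 (hinj x hx (sub_eq_zero.1 h1)).symm
  choose s hs hs2 using hex
  refine ⟨⟨y, s, hy, hs, hroot, hinj, fun x hx i => ?_⟩⟩
  rw [hs2, deriv_of_prod (prod_of_roots (F.monic x) (F.deg x) (hroot x hx) (hinj x hx))]

section Spinor

variable {n : Type} [Fintype n] [DecidableEq n] (M : Majorana m n)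

theorem Majorana.continuous_R {X : Type*} [TopologicalSpace X] : ∀ {k : ℕ}
    (v : X → Fin k → Fin m → ℂ) (_ : ∀ j i, Continuous fun x => v x j i),
    Continuous fun x => M.R (v x) := by
  intro k
  induction k with
  | zero =>
    intro v _
    simp only [M.R_zero]
    exact continuous_const
  | succ k ih =>
    intro v hv
    simp only [M.R_succ]
    refine Continuous.matrix_mul ?_ (ih (fun x j => v x j.succ) fun j i => hv _ _)
    unfold Majorana.g
    exact continuous_finsetSum _ fun a _ => (hv 0 a).smul continuous_const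

theorem Majorana.R_ne_zero [Nonempty n] {k : ℕ} (v : Fin k → Fin m → ℂ)
    (hv : ∀ i j, v i ⬝ᵥ v j = 0) (hli : LinearIndependent ℂ v) : M.R v ≠ 0 := by
  intro h0
  obtain ⟨w, hw, hd⟩ := exists_dual v hv hli
  have h1 := M.trace_R_mul_R v w hv
  have h2 : (Matrix.of fun i j => v i ⬝ᵥ w j) = (1 : Matrix (Fin k) (Fin k) ℂ) := by
    ext i j
    rw [Matrix.of_apply, hd, Matrix.one_apply]
  rw [h0, Matrix.zero_mul, Matrix.trace_zero, h2, Matrix.det_one, mul_one] at h1
  have h3 : ((-1 : ℂ) ^ (k * (k - 1) / 2)) * (Fintype.card n : ℂ) ≠ 0 :=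
    mul_ne_zero (pow_ne_zero _ (by norm_num)) (by exact_mod_cast Fintype.card_ne_zero)
  exact h3 h1.symm

/-- **The pure spinor functional** along a frame. -/
theorem Frame.exists_l {k : ℕ} (hk : 2 * k ≤ m) (hn : Fintype.card n = 2 ^ k) (C : Matrix n n ℂ)
    (hCC : Cᴴ * C = 1) (hC : ∀ a, C * M.e a = (-1 : ℂ) ^ k • ((M.e a)ᵀ * C))
    (hCT : Cᵀ = (-1 : ℂ) ^ (k * (k + 1) / 2) • C) {F : Family m} {D : Set ℂ} (hD : IsOpen D)
    (hDs : IsSimplyConnected D) (fr : Frame F D) :
    ∃ l : ℂ → n → ℂ, ContinuousOn l D ∧ (∀ x ∈ D, l x ≠ 0) ∧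
      ∀ x ∈ D, C * M.R (fr.v k x) = vecMulVec (l x) (l x) := by
  classical
  have hne : Nonempty n := by
    rw [← Fintype.card_pos_iff, hn]
    positivity
  have hnz : ∀ x ∈ D, C * M.R (fr.v k x) ≠ 0 := by
    intro x hx h
    apply M.R_ne_zero (fr.v k x) (fr.v_iso hk hx) (fr.v_linearIndependent (by omega) hx)
    have := congrArg (fun A => Cᴴ * A) h
    simpa [← Matrix.mul_assoc, hCC] using this
  have hN : ContinuousOn (fun x => C * M.R (fr.v k x)) D := by
    rw [continuousOn_iff_continuous_domRestrict]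
    refine Continuous.matrix_mul continuous_const ?_
    refine M.continuous_R (fun x : D => fr.v k x) fun j i => ?_
    exact continuousOn_iff_continuous_domRestrict.1 (fr.continuousOn_v j i)
  have hr : ∀ x ∈ D, ∃ l : n → ℂ, l ≠ 0 ∧ C * M.R (fr.v k x) = vecMulVec l l := by
    intro x hx
    obtain ⟨w, hw, hd⟩ := exists_dual (fr.v k x) (fr.v_iso hk hx)
      (fr.v_linearIndependent (by omega) hx)
    obtain ⟨l, hl⟩ := M.exists_l hn C hC hCT w (fr.v k x) (fr.v_iso hk hx) hw hd
    refine ⟨l, ?_, hl⟩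
    rintro rfl
    apply hnz x hx
    rw [hl]
    ext i j
    simp [Matrix.vecMulVec_apply]
  obtain ⟨l, hl, hlN⟩ := exists_continuousOn_vecMulVec hD hDs hN hr
  refine ⟨l, hl, fun x hx h => ?_, hlN⟩
  apply hnz x hx
  rw [hlN x hx, h]
  ext i j
  simp [Matrix.vecMulVec_apply]

end Spinor

/-- The frame and the spinor functional over the star domain of a family given on the closed unit
disc, extended by the retraction. -/
theorem exists_star_frame (F : Family m) {c : ℂ} (hc : ‖c‖ < 1) {Z : Finset ℂ} (hcZ : c ∉ Z)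
    (hZ : ∀ w, ‖w‖ ≤ 1 → w ∉ Z → (F.P w).Separable) :
    Nonempty (Frame (F.comp (retr c) (continuous_retr hc)) (Star c Z)) := by
  refine exists_frame _ (isOpen_Star hcZ) (isSimplyConnected_Star hcZ) fun w hw => ?_
  exact hZ _ (norm_retr_le hc w) (notMem_of_mem_Star (retr_mem_Star hcZ hw))

/-- The data of the analytic part (`Ctx`): labels, square roots of the derivative and the spinor
functional over the star domain in the closed disc. -/
theorem exists_star_data {n : Type} [Fintype n] [DecidableEq n] (M : Majorana 8 n)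
    (C : Matrix n n ℂ) (card : Fintype.card n = 2 ^ 4) (hCC : Cᴴ * C = 1) (hCT : Cᵀ = C)
    (hC : ∀ a, C * M.e a = (M.e a)ᵀ * C) (F : Family 8) {c : ℂ} (hc : ‖c‖ < 1) {Z : Finset ℂ}
    (hcZ : c ∉ Z) (hZ : ∀ w, ‖w‖ ≤ 1 → w ∉ Z → (F.P w).Separable) :
    ∃ (y s : Fin 8 → ℂ → ℂ) (l : ℂ → n → ℂ),
      (∀ i, ContinuousOn (y i) (Star c Z ∩ {w | ‖w‖ ≤ 1})) ∧
      (∀ i, ContinuousOn (s i) (Star c Z ∩ {w | ‖w‖ ≤ 1})) ∧
      ContinuousOn l (Star c Z ∩ {w | ‖w‖ ≤ 1}) ∧
      (∀ w ∈ Star c Z, ‖w‖ ≤ 1 → ∀ i, (F.P w).eval (y i w) = 0) ∧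
      (∀ w ∈ Star c Z, ‖w‖ ≤ 1 → Function.Injective fun i => y i w) ∧
      (∀ w ∈ Star c Z, ‖w‖ ≤ 1 → ∀ i, s i w ^ 2 = (derivative (F.P w)).eval (y i w)) ∧
      (∀ w ∈ Star c Z, ‖w‖ ≤ 1 →
        C * M.R (vfam (fun i => y i w) fun i => s i w) = vecMulVec (l w) (l w)) := by
  obtain ⟨fr⟩ := exists_star_frame F hc hcZ hZ
  obtain ⟨l, hl, -, hlN⟩ := fr.exists_l M (k := 4) (by norm_num) card C hCC
    (fun a => by rw [hC a]; norm_num) (by rw [hCT]; norm_num) (isOpen_Star hcZ)
    (isSimplyConnected_Star hcZ)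
  have hP : ∀ w, ‖w‖ ≤ 1 → (F.comp (retr c) (continuous_retr hc)).P w = F.P w := by
    intro w hw
    rw [Family.comp_P, retr_eq_self hw]
  refine ⟨fr.y, fr.s, l, fun i => (fr.contY i).mono inter_subset_left,
    fun i => (fr.contS i).mono inter_subset_left, hl.mono inter_subset_left, ?_,
    fun w hw _ => fr.inj w hw, ?_, fun w hw _ => hlN w hw⟩
  · intro w hw h1 i
    have := fr.root w hw i
    rwa [hP w h1] at this
  · intro w hw h1 i
    have := fr.sq w hw i
    rwa [hP w h1] at this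

end Pool.Agent.Rohlin
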