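import Pool.Agent.Rohlin.Discr
import Pool.Agent.Rohlin.Frame

/-!
# Existence of the data `Ctx`
-/

set_option autoImplicit false

namespace Pool.Agent.Rohlin

open Polynomial Complex Set Matrix

/-- the discriminant of the family over the disc -/
noncomputable def disF (f : MvPolynomial (Fin 3) ℝ) : ℂ[X] :=
  dis f 8 (C (1 / 2) * (1 + X)) (C (I / 2) * (1 - X))

theorem disF_eval {f : MvPolynomial (Fin 3) ℝ} (nf : Normal f) (w : ℂ) :
    (disF f).eval w = 0 ↔ ¬ (fam f w).Separable := by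
  rw [disF, dis_eval nf.hom nf.monic, fam]
  have h1 : (C (1 / 2) * (1 + X) : ℂ[X]).eval w = (1 + w) / 2 := by
    simp only [eval_mul, eval_C, eval_add, eval_one, eval_X]
    ring
  have h2 : (C (I / 2) * (1 - X) : ℂ[X]).eval w = I * (1 - w) / 2 := by
    simp only [eval_mul, eval_C, eval_sub, eval_one, eval_X]
    ring
  rw [h1, h2]

theorem finite_branch {f : MvPolynomial (Fin 3) ℝ} (nf : Normal f) (h1 : (fam f 1).Separable) :
    {w : ℂ | ‖w‖ ≤ 1 ∧ ¬ (fam f w).Separable}.Finite := by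
  have h0 : disF f ≠ 0 := by
    intro h
    have h2 := (disF_eval nf 1).1 (by rw [h, eval_zero])
    exact h2 h1
  refine ((disF f).roots.toFinset.finite_toSet).subset fun w hw => ?_
  rw [Finset.mem_coe, Multiset.mem_toFinset, mem_roots h0]
  exact (disF_eval nf w).2 hw.2

theorem finite_line {p q : ℝ} (h : p ≠ 0 ∨ q ≠ 0) (r : ℝ) :
    {x : ℝ | p * x ^ 2 - q * x + r = 0}.Finite := by
  set P : ℝ[X] := C p * X ^ 2 - C q * X + C r with hP
  have h0 : P ≠ 0 := by
    intro h0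
    have h2 : P.coeff 2 = p := by simp [hP]
    have h1 : P.coeff 1 = -q := by simp [hP, coeff_C, coeff_X_pow]
    rw [h0, coeff_zero] at h1 h2
    rcases h with h | h
    · exact h h2.symm
    · exact h (by linarith)
  refine (P.roots.toFinset.finite_toSet).subset fun x hx => ?_
  rw [Finset.mem_coe, Multiset.mem_toFinset, mem_roots h0]
  simpa [hP] using hx

/-- a centre in general position -/
theorem exists_generic (Z : Finset ℂ) : ∃ c : ℂ, ‖c‖ < 1 ∧ c ∉ Z ∧
    ∀ z ∈ Z, ∀ z' ∈ Z, z ≠ z' → ((c - z) * (starRingEnd ℂ) (z' - z)).im ≠ 0 := by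
  classical
  -- the bad parameters
  have h1 : ∀ z ∈ Z, ∀ z' ∈ Z, z ≠ z' → {x : ℝ | ((((x : ℂ) + (x ^ 2 : ℝ) * I) - z) *
      (starRingEnd ℂ) (z' - z)).im = 0}.Finite := by
    intro z _ z' _ hne
    have h2 : (z' - z).re ≠ 0 ∨ (z' - z).im ≠ 0 := by
      by_contra hcon
      push Not at hcon
      exact hne (sub_eq_zero.1 (Complex.ext hcon.1 hcon.2)).symm
    refine (finite_line h2 ((z' - z).im * z.re - (z' - z).re * z.im)).subset fun x hx => ?_
    rw [mem_ofPred_eq] at hx ⊢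
    rw [← hx]
    simp only [mul_im, sub_re, sub_im, add_re, add_im, ofReal_re, ofReal_im, mul_re, I_re, I_im,
      conj_re, conj_im]
    ring
  have h2 : {x : ℝ | (x : ℂ) + (x ^ 2 : ℝ) * I ∈ Z}.Finite := by
    refine (Z.image Complex.re).finite_toSet.subset fun x hx => ?_
    rw [Finset.mem_coe, Finset.mem_image]
    exact ⟨_, hx, by rw [add_re, ofReal_re, re_ofReal_mul, I_re, mul_zero, add_zero]⟩
  have h3 : (⋃ z ∈ Z, ⋃ z' ∈ Z, {x : ℝ | z ≠ z' ∧ ((((x : ℂ) + (x ^ 2 : ℝ) * I) - z) *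
      (starRingEnd ℂ) (z' - z)).im = 0}).Finite := by
    refine Z.finite_toSet.biUnion fun z hz => Z.finite_toSet.biUnion fun z' hz' => ?_
    by_cases hne : z = z'
    · subst hne
      simp
    · exact (h1 z hz z' hz' hne).subset fun x hx => hx.2
  obtain ⟨x, ⟨hx0, hx1⟩, hx⟩ := (Set.Ioo_infinite (by norm_num : (0 : ℝ) < 1 / 2)).exists_notMem_finset
    ((h2.union h3).toFinset)
  rw [Set.Finite.mem_toFinset, mem_union, not_or] at hx
  refine ⟨(x : ℂ) + (x ^ 2 : ℝ) * I, ?_, hx.1, ?_⟩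
  · rw [← sq_lt_one_iff₀ (norm_nonneg _), ← Complex.normSq_eq_norm_sq, normSq_add_mul_I]
    have h4 : x ^ 2 < 1 / 4 := by nlinarith
    nlinarith [sq_nonneg x]
  · intro z hz z' hz' hne h
    apply hx.2
    simp only [mem_iUnion]
    exact ⟨z, hz, z', hz', hne, h⟩

theorem im_eq_zero_of_smul {a b : ℂ} {r : ℝ} (h : b = r * a) :
    (a * (starRingEnd ℂ) b).im = 0 := by
  rw [h, map_mul, conj_ofReal]
  simp only [mul_im, mul_re, conj_re, conj_im, ofReal_re, ofReal_im]
  ring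

/-- **Existence of the data.** -/
theorem exists_ctx {f : MvPolynomial (Fin 3) ℝ} {K0 K1 : Set RP2} (nf : Normal f)
    (reg : Regions f K0 K1) (h1 : (fam f 1).Separable) :
    ∃ (n : Type) (_ : Fintype n) (_ : DecidableEq n) (X : Ctx n), X.f = f ∧ X.K0 = K0 ∧
      X.K1 = K1 := by
  classical
  obtain ⟨n, i1, i2, M, C, hcard, hH, hCC, hCT, hC⟩ := exists_fock 4
  have hCT' : Cᵀ = C := by rw [hCT]; norm_num
  have hC' : ∀ a, C * M.e a = (M.e a)ᵀ * C := fun a => by rw [hC a]; norm_num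
  let Z : Finset ℂ := (finite_branch nf h1).toFinset
  have hZ : ∀ w : ℂ, w ∈ Z ↔ ‖w‖ ≤ 1 ∧ ¬ (fam f w).Separable := fun w => by
    rw [Set.Finite.mem_toFinset]
    rfl
  have hone : (1 : ℂ) ∉ Z := fun h => ((hZ 1).1 h).2 h1
  obtain ⟨c, hc, hcZ, hgen⟩ := exists_generic (insert 1 Z)
  have hcZ' : c ∉ Z := fun h => hcZ (Finset.mem_insert_of_mem h)
  have hgen' : ∀ z ∈ Z, ∀ z' ∈ insert 1 Z, z ≠ z' → ∀ r : ℝ, z' - z ≠ r * (c - z) := by
    intro z hz z' hz' hne r h
    exact hgen z (Finset.mem_insert_of_mem hz) z' hz' hne (im_eq_zero_of_smul h)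
  obtain ⟨y, s, l, hy, hs, hl, hroot, hinj, hsq, hlsq⟩ := exists_star_data M C hcard hCC hCT' hC'
    (famF nf) hc hcZ' (fun w hw hwZ => by
      by_contra hcon
      exact hwZ ((hZ w).2 ⟨hw, hcon⟩))
  refine ⟨n, i1, i2, ⟨f, nf, K0, K1, reg, M, C, hcard, hH, hCC, hCT', hC', Z, hZ, hone, c, hc,
    hcZ', ?_, ?_, ?_, y, s, l, hy, hs, hl, hroot, hinj, hsq, hlsq⟩, rfl, rfl, rfl⟩
  · intro z hz z' hz' t ht h
    by_cases hne : z = z'
    · subst hne
      have h2 : (t : ℂ) * (z - c) = 0 := by linear_combination -h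
      rcases mul_eq_zero.1 h2 with h3 | h3
      · exact ht.ne' (by exact_mod_cast h3)
      · exact hcZ' ((sub_eq_zero.1 h3) ▸ hz)
    · refine hgen' z hz z' (Finset.mem_insert_of_mem hz') hne (-t) ?_
      rw [h]
      push_cast
      ring
  · intro z hz z' hz' hne t t' ht ht' h
    have h2 : (1 + t' : ℂ) ≠ 0 := by
      have : (0 : ℝ) < 1 + t' := by linarith
      exact_mod_cast this.ne'
    refine hgen' z hz z' (Finset.mem_insert_of_mem hz') hne (1 - (1 + t) / (1 + t')) ?_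
    have h3 : z' - c = (1 + t) / (1 + t') * (z - c) := by
      rw [div_mul_eq_mul_div, eq_div_iff h2]
      linear_combination -h
    push_cast
    linear_combination h3
  · intro z hz t ht h
    have hne : z ≠ 1 := fun h' => hone (h' ▸ hz)
    refine hgen' z hz 1 (Finset.mem_insert_self _ _) hne (-t) ?_
    rw [h]
    push_cast
    ring

end Pool.Agent.Rohlin
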