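import Pool.Agent.Rohlin.Local
import Pool.Agent.Rohlin.LocalDefs

/-!
# LOCAL: every branch point has a local structure (from `Local.lean` to `LocalDefs.lean`)
-/

set_option autoImplicit false

namespace Pool.Agent.Rohlin

open Polynomial Complex Set Matrix Filter Topology

namespace Ctx

variable {n : Type} [Fintype n] [DecidableEq n] {X : Ctx n}

/-- the data of `LocAt` as `LocalData` -/
noncomputable def LocAt.data {z : ℂ} {a b : Fin 8} {ε : ℂ} {Y H : ℂ → ℂ} {y0 s0 : Fin 8 → ℂ}
    {δ r : ℝ} (h : X.LocAt z a b ε Y H y0 s0 δ r) : LocalData 4 where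
  a := a
  b := b
  hab := h.ne
  ε := ε
  hε := h.eps
  Y := Y
  H := H
  hY := h.anY.differentiableAt
  hH := h.anH.continuousAt
  hH0 := h.H0
  y := y0
  s := s0
  hs0 := h.s0_ne
  hyY := h.y0_ne
  hinj := h.y0_inj

theorem LocAt.localAt {z : ℂ} {a b : Fin 8} {ε : ℂ} {Y H : ℂ → ℂ} {y0 s0 : Fin 8 → ℂ}
    {δ r : ℝ} (h : X.LocAt z a b ε Y H y0 s0 δ r) : X.LocalAt z h.data where
  anY := h.anY
  anH := h.anH
  root := by
    filter_upwards [Metric.ball_mem_nhds (0 : ℂ) h.pos] with t ht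
    exact h.root t (mem_ball_zero_iff.1 ht)
  der := by
    filter_upwards [Metric.ball_mem_nhds (0 : ℂ) h.pos] with t ht
    exact h.der t (mem_ball_zero_iff.1 ht)
  ya := by
    filter_upwards [self_mem_nhdsWithin,
      mem_nhdsWithin_of_mem_nhds (Metric.ball_mem_nhds z h.rpos)] with w hw hr
    exact h.ya w hw (mem_ball_iff_norm.1 hr)
  yb := by
    filter_upwards [self_mem_nhdsWithin,
      mem_nhdsWithin_of_mem_nhds (Metric.ball_mem_nhds z h.rpos)] with w hw hr
    exact h.yb w hw (mem_ball_iff_norm.1 hr)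
  sa := by
    filter_upwards [self_mem_nhdsWithin,
      mem_nhdsWithin_of_mem_nhds (Metric.ball_mem_nhds z h.rpos)] with w hw hr
    exact h.sa w hw (mem_ball_iff_norm.1 hr)
  sb := by
    filter_upwards [self_mem_nhdsWithin,
      mem_nhdsWithin_of_mem_nhds (Metric.ball_mem_nhds z h.rpos)] with w hw hr
    exact h.sb w hw (mem_ball_iff_norm.1 hr)
  y_other := fun i _ _ => h.lim_y i
  s_other := fun i hi hi' => h.lim_s i hi hi'

/-- **LOCAL** -/
theorem localOK : X.LocalOK := fun z hz => by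
  obtain ⟨a, b, ε, Y, H, y0, s0, δ, r, h⟩ := X.exists_locAt hz
  exact ⟨h.data, h.localAt⟩

end Ctx

end Pool.Agent.Rohlin
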