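import Pool.Agent.Rohlin.DiscStrip
import Pool.Agent.Rohlin.Steps

/-!
# OVALCOUNT: the count of the events

Cell ROH (MP_dec4ff_ag).  Every disc contributes `2` (outer ovals) or `-2` (inner ovals) to the sum
of the signs of the events on its frontier.
-/

set_option autoImplicit false

namespace Pool.Agent.Rohlin

open Set Topology Filter

section one

variable {f : MvPolynomial (Fin 3) ℝ}

/-- the weight of an event -/
noncomputable def wt (f : MvPolynomial (Fin 3) ℝ) (τ : ℝ) (e : ℝ × ℝ) : ℤ :=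
  -(SignType.sign
    (τ * (Polynomial.derivative (Polynomial.derivative (gr f e.1))).eval e.2) : ℤ)

open Classical in
theorem type_at (nf : Normal f) {E Z : Set (ℝ × ℝ)} (h : StripSet E Z) {τ : ℝ} (hτ : τ ≠ 0)
    {θ ρ : ℝ} (h0 : (gr f θ).eval ρ = 0)
    (hloc : ∀ᶠ q : ℝ × ℝ in 𝓝 (θ, ρ), q ∈ E ↔ 0 ≤ τ * (gr f q.1).eval q.2) :
    ∃ cL c0 cR : ℕ, LocType E θ ρ cL c0 cR ∧ (2 * c0 : ℤ) - cL - cR =
      if (Polynomial.derivative (gr f θ)).eval ρ = 0 then wt f τ (θ, ρ) else 0 := by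
  have S := (smooth_gr f).const_mul τ
  by_cases h1 : (Polynomial.derivative (gr f θ)).eval ρ = 0
  · rw [if_pos h1]
    exact locType_fold S h hloc (by rw [h0, mul_zero]) (by rw [h1, mul_zero])
      (mul_ne_zero hτ (nf.gyy_ne h0 h1)) (mul_ne_zero hτ (nf.gx_ne h0 h1))
  · rw [if_neg h1]
    obtain ⟨c, hc⟩ := locType_simple S h hloc (by rw [h0, mul_zero]) (mul_ne_zero hτ h1)
    exact ⟨c, c, c, hc, by ring⟩

theorem regAt_of {E Z : Set (ℝ × ℝ)} (h : StripSet E Z) {τ : ℝ} (hτ : τ ≠ 0)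
    {θ : ℝ} (h0 : ∀ ρ ∈ sl Z θ, (gr f θ).eval ρ = 0)
    (h1 : ∀ ρ ∈ sl Z θ, (Polynomial.derivative (gr f θ)).eval ρ ≠ 0)
    (hloc : ∀ ρ ∈ sl Z θ, ∀ᶠ q : ℝ × ℝ in 𝓝 (θ, ρ), q ∈ E ↔ 0 ≤ τ * (gr f q.1).eval q.2) :
    RegAt E Z θ := by
  have S := (smooth_gr f).const_mul τ
  have key : ∀ ρ : ℝ, ∃ c : ℕ, ρ ∈ sl Z θ → LocType E θ ρ c c c := by
    intro ρ
    by_cases hρ : ρ ∈ sl Z θ
    · obtain ⟨c, hc⟩ := locType_simple S h (hloc ρ hρ) (by rw [h0 ρ hρ, mul_zero])
        (mul_ne_zero hτ (h1 ρ hρ))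
      exact ⟨c, fun _ => hc⟩
    · exact ⟨0, fun h => absurd h hρ⟩
  choose c hc using key
  exact ⟨c, hc⟩

open Classical in
/-- THE COUNT OF THE EVENTS ON ONE OVAL -/
theorem disc_count (nf : Normal f) {Δ : Set RP2} (hΔ : IsDisc Δ) (hcen : centre ∉ Δ) {τ : ℝ}
    (hτ : τ ≠ 0) (hz : ∀ θ η, pt θ η ∈ frontier Δ → (gr f θ).eval η = 0)
    (hloc : ∀ θ η, pt θ η ∈ frontier Δ → ∀ᶠ q : ℝ × ℝ in 𝓝 (θ, η),
      pt q.1 q.2 ∈ Δ ↔ 0 ≤ τ * (gr f q.1).eval q.2)
    (hreg0 : ∀ η, (gr f 0).eval η = 0 → (Polynomial.derivative (gr f 0)).eval η ≠ 0)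
    (E : Finset (ℝ × ℝ)) (hE : ∀ e : ℝ × ℝ, e ∈ E ↔ 0 < e.1 ∧ e.1 < Real.pi ∧
      (gr f e.1).eval e.2 = 0 ∧ (Polynomial.derivative (gr f e.1)).eval e.2 = 0) :
    ∑ e ∈ E.filter (fun e => pt e.1 e.2 ∈ frontier Δ), wt f τ e = 2 := by
  have hcl : IsClosed Δ := hΔ.isClosed
  set P : Set (ℝ × ℝ) := {p : ℝ × ℝ | pt p.1 p.2 ∈ Δ} with hP
  set Z : Set (ℝ × ℝ) := {p : ℝ × ℝ | pt p.1 p.2 ∈ frontier Δ} with hZ
  have h : StripSet P Z := stripSet_of_closed hcl hcen fun θ =>
    (nf.finite_zeros θ).subset fun η hη => hz θ η hη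
  -- the cut angles
  let S : Finset ℝ := insert (Real.pi / 2) (E.image Prod.fst)
  have hpi := Real.pi_pos
  have hS : ∀ θ ∈ S, 0 < θ ∧ θ < Real.pi := by
    intro θ hθ
    rcases Finset.mem_insert.1 hθ with h1 | h1
    · rw [h1]; constructor <;> linarith
    · obtain ⟨e, he, rfl⟩ := Finset.mem_image.1 h1
      exact ⟨((hE e).1 he).1, ((hE e).1 he).2.1⟩
  have hcard : 1 ≤ S.card := Finset.card_pos.2 ⟨_, Finset.mem_insert_self _ _⟩
  obtain ⟨c, hc0, hcK, hc, hcS, hSc⟩ := exists_cuts S Real.pi hpi hS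
  set K := S.card with hKdef
  have hlt : ∀ {k l : ℕ}, k < l → l ≤ K + 1 → c k < c l := fun h1 h2 => c_lt_of_lt hc h1 h2
  -- regular angles
  have hregA : ∀ θ, (∀ ρ, pt θ ρ ∈ frontier Δ → (Polynomial.derivative (gr f θ)).eval ρ ≠ 0) →
      RegAt P Z θ := fun θ hθ =>
    regAt_of h hτ (fun ρ hρ => hz θ ρ hρ) (fun ρ hρ => hθ ρ hρ) (fun ρ hρ => hloc θ ρ hρ)
  have hreg : ∀ k ≤ K, ∀ θ ∈ Ioo (c k) (c (k + 1)), RegAt P Z θ := by
    intro k hk θ hθ
    refine hregA θ fun ρ hρ hder => ?_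
    have h0 : 0 ≤ c k := by
      rcases Nat.eq_zero_or_pos k with h1 | h1
      · rw [h1, hc0]
      · rw [← hc0]; exact (hlt h1 (by omega)).le
    have h1 : c (k + 1) ≤ Real.pi := by
      rcases hk.lt_or_eq with h2 | h2
      · rw [← hcK]; exact (hlt (by omega) le_rfl).le
      · rw [h2, hcK]
    have hmem : (θ, ρ) ∈ E := (hE _).2 ⟨by linarith [hθ.1], by linarith [hθ.2], hz θ ρ hρ, hder⟩
    have hθS : θ ∈ S := Finset.mem_insert_of_mem (Finset.mem_image.2 ⟨_, hmem, rfl⟩)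
    obtain ⟨j, hj1, hj2, hj3⟩ := hSc θ hθS
    rw [← hj3] at hθ
    rcases Nat.lt_or_ge k j with h3 | h3
    · rcases Nat.lt_or_ge (k + 1) j with h4 | h4
      · exact absurd hθ.2 (not_lt.2 (hlt h4 (by omega)).le)
      · have : j = k + 1 := by omega
        rw [this] at hθ
        exact lt_irrefl _ hθ.2
    · rcases h3.lt_or_eq with h4 | h4
      · exact absurd hθ.1 (not_lt.2 (hlt h4 (by omega)).le)
      · rw [h4] at hθ
        exact lt_irrefl _ hθ.1
  have hcount := strip_count hΔ hcen h c K hc hc0 hcK hcard hreg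
  -- the numbers
  let L : ℝ → ℤ := fun θ => ((leftEnds (sl P θ)).ncard : ℤ)
  let mid : ℕ → ℝ := fun k => (c k + c (k + 1)) / 2
  have hmid : ∀ k ≤ K, mid k ∈ Ioo (c k) (c (k + 1)) := by
    intro k hk
    have := hc k hk
    constructor <;> simp only [mid] <;> linarith
  have hcountZ : ∑ k ∈ Finset.range (K + 1), L (c k) =
      ∑ k ∈ Finset.range (K + 1), L (mid k) + 1 := by
    have := congrArg (Nat.cast : ℕ → ℤ) hcount
    push_cast at this
    exact this
  -- the jumps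
  let J : ℝ → ℝ → ℤ := fun θ ρ =>
    if (Polynomial.derivative (gr f θ)).eval ρ = 0 then wt f τ (θ, ρ) else 0
  have hjump : ∀ k, k < K → 2 * L (c (k + 1)) - L (mid k) - L (mid (k + 1)) =
      ∑ ρ ∈ (h.fin (c (k + 1))).toFinset, J (c (k + 1)) ρ := by
    intro k hk
    exact h.jump (hreg k (by omega)) (hreg (k + 1) (by omega)) (hmid k (by omega))
      (hmid (k + 1) (by omega)) (J (c (k + 1))) (fun ρ hρ =>
        type_at nf h hτ (hz _ _ hρ) (hloc _ _ hρ))
  have hr0 : RegAt P Z 0 := hregA 0 fun ρ hρ => hreg0 ρ (hz 0 ρ hρ)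
  have hflip : ∀ y, (Real.pi, -y) ∈ P ↔ ((0 : ℝ), y) ∈ P := by
    intro y
    change pt Real.pi (-y) ∈ Δ ↔ pt 0 y ∈ Δ
    rw [← pt_add_pi 0 y, zero_add]
  have hrπ : RegAt P Z Real.pi := by
    refine hregA _ fun ρ hρ hder => ?_
    have hρ' : pt 0 (-ρ) ∈ frontier Δ := by
      rw [← pt_add_pi 0 (-ρ), zero_add, neg_neg]
      exact hρ
    have hgr : gr f 0 = (gr f Real.pi).comp (-Polynomial.X) := by
      have h8 := nf.hom
      have hfun : ∀ y : ℝ, (gr f 0).eval y = ((gr f Real.pi).comp (-Polynomial.X)).eval y := by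
        intro y
        rw [Polynomial.eval_comp, Polynomial.eval_neg, Polynomial.eval_X, gr_eval, gr_eval]
        have e1 : (![Real.cos Real.pi, Real.sin Real.pi, -y] : Fin 3 → ℝ) =
            (-1 : ℝ) • ![Real.cos 0, Real.sin 0, y] := by
          funext i
          fin_cases i
          · simp
          · simp
          · simp
        rw [e1, eval_smul_of_homogeneous h8]
        norm_num
      exact Polynomial.funext hfun
    apply hreg0 (-ρ) (hz 0 _ hρ')
    rw [hgr, Polynomial.derivative_comp]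
    simp [hder]
  have hm0 : L (mid 0) = L 0 := by
    have h1 := h.reg_right (β := c 1) (m := mid 0) hr0 (by
      have := hreg 0 (by omega)
      rwa [hc0] at this) (by
      have := hmid 0 (by omega)
      rwa [hc0] at this)
    exact congrArg (Nat.cast : ℕ → ℤ) h1
  have hmK : L (mid K) = L 0 := by
    have h1 := h.reg_left (α := c K) (m := mid K) hrπ (by
      have := hreg K le_rfl
      rwa [hcK] at this) (by
      have := hmid K le_rfl
      rwa [hcK] at this)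
    have h2 := h.ncard_flip hflip
    exact congrArg (Nat.cast : ℕ → ℤ) (h1.trans h2)
  have hsum : ∑ k ∈ Finset.range K, ∑ ρ ∈ (h.fin (c (k + 1))).toFinset, J (c (k + 1)) ρ = 2 := by
    rw [← Finset.sum_congr rfl fun k hk => hjump k (Finset.mem_range.1 hk)]
    rw [Finset.sum_sub_distrib, Finset.sum_sub_distrib, ← Finset.mul_sum]
    have e1 : ∑ k ∈ Finset.range (K + 1), L (c k) = ∑ k ∈ Finset.range K, L (c (k + 1)) + L (c 0) :=
      Finset.sum_range_succ' _ _
    have e2 : ∑ k ∈ Finset.range (K + 1), L (mid k) =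
        ∑ k ∈ Finset.range K, L (mid (k + 1)) + L (mid 0) := Finset.sum_range_succ' _ _
    have e3 : ∑ k ∈ Finset.range (K + 1), L (mid k) =
        ∑ k ∈ Finset.range K, L (mid k) + L (mid K) := Finset.sum_range_succ _ _
    rw [hc0] at e1
    linarith
  -- regrouping
  have hregroup1 : ∑ k ∈ Finset.range K, ∑ ρ ∈ (h.fin (c (k + 1))).toFinset, J (c (k + 1)) ρ =
      ∑ θ ∈ S, ∑ ρ ∈ (h.fin θ).toFinset, J θ ρ := by
    refine Finset.sum_nbij (fun k => c (k + 1)) (fun k hk => ?_) (fun k hk l hl hkl => ?_)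
      (fun θ hθ => ?_) (fun k _ => rfl)
    · rw [Finset.mem_range] at hk
      exact hcS (k + 1) (by omega) (by omega)
    · have hk' := Finset.mem_range.1 (Finset.mem_coe.1 hk)
      have hl' := Finset.mem_range.1 (Finset.mem_coe.1 hl)
      have hkl' : c (k + 1) = c (l + 1) := hkl
      rcases lt_trichotomy k l with h1 | h1 | h1
      · exact absurd hkl' (hlt (by omega) (by omega)).ne
      · exact h1
      · exact absurd hkl'.symm (hlt (by omega) (by omega)).ne
    · obtain ⟨j, hj1, hj2, hj3⟩ := hSc θ (Finset.mem_coe.1 hθ)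
      refine ⟨j - 1, ?_, ?_⟩
      · rw [Finset.mem_coe, Finset.mem_range]; omega
      · have : j - 1 + 1 = j := by omega
        change c (j - 1 + 1) = θ
        rw [this, hj3]
  have hregroup2 : ∀ θ ∈ S, ∑ ρ ∈ (h.fin θ).toFinset, J θ ρ =
      ∑ e ∈ (E.filter (fun e => pt e.1 e.2 ∈ frontier Δ)).filter (fun e => e.1 = θ), wt f τ e := by
    intro θ hθ
    rw [← Finset.sum_filter]
    refine Finset.sum_nbij (fun ρ => (θ, ρ)) (fun ρ hρ => ?_) (fun ρ _ ρ' _ hh => ?_)
      (fun e he => ?_) (fun ρ _ => rfl)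
    · rw [Finset.mem_filter, (h.fin θ).mem_toFinset] at hρ
      rw [Finset.mem_filter, Finset.mem_filter, hE]
      exact ⟨⟨⟨(hS θ hθ).1, (hS θ hθ).2, hz θ ρ hρ.1, hρ.2⟩, hρ.1⟩, rfl⟩
    · exact (Prod.mk.inj hh).2
    · rw [Finset.mem_coe, Finset.mem_filter, Finset.mem_filter, hE] at he
      obtain ⟨⟨⟨_, _, _, h4⟩, h5⟩, h6⟩ := he
      refine ⟨e.2, ?_, ?_⟩
      · rw [Finset.mem_coe, Finset.mem_filter, (h.fin θ).mem_toFinset, ← h6]
        exact ⟨h5, h4⟩
      · change (θ, e.2) = e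
        rw [← h6]
  rw [hregroup1, Finset.sum_congr rfl hregroup2,
    Finset.sum_fiberwise_of_maps_to (g := Prod.fst) (t := S)] at hsum
  · exact hsum
  · intro e he
    rw [Finset.mem_filter] at he
    exact Finset.mem_insert_of_mem (Finset.mem_image.2 ⟨e, he.1, rfl⟩)

end one

/-! ### the regions -/

section regions

variable {f : MvPolynomial (Fin 3) ℝ} {K0 K1 : Set RP2}

/-- one piece of a finite disjoint union of closed sets -/
theorem piece_local {X ι : Type*} [TopologicalSpace X] [Finite ι] {Δ : ι → Set X}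
    (hcl : ∀ i, IsClosed (Δ i)) (hdis : ∀ i j, i ≠ j → Disjoint (Δ i) (Δ j)) {i : ι} {x : X}
    (hx : x ∈ Δ i) : ∀ᶠ y in 𝓝 x, y ∈ ⋃ j, Δ j ↔ y ∈ Δ i := by
  have hcl' : IsClosed (⋃ j ∈ {j | j ≠ i}, Δ j) :=
    (Set.toFinite {j | j ≠ i}).isClosed_biUnion fun j _ => hcl j
  have hx' : x ∉ ⋃ j ∈ {j | j ≠ i}, Δ j := by
    intro h
    obtain ⟨j, hj, hxj⟩ := mem_iUnion₂.1 h
    exact (Set.disjoint_left.1 (hdis j i hj)) hxj hx
  filter_upwards [hcl'.isOpen_compl.mem_nhds hx'] with y hy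
  constructor
  · intro h
    obtain ⟨j, hj⟩ := mem_iUnion.1 h
    by_cases hji : j = i
    · rwa [hji] at hj
    · exact absurd (mem_iUnion₂.2 ⟨j, hji, hj⟩) hy
  · intro h
    exact mem_iUnion.2 ⟨i, h⟩

theorem frontier_piece {X ι : Type*} [TopologicalSpace X] [Finite ι] {Δ : ι → Set X}
    (hcl : ∀ i, IsClosed (Δ i)) (hdis : ∀ i j, i ≠ j → Disjoint (Δ i) (Δ j)) {i : ι} {x : X}
    (hx : x ∈ Δ i) : x ∈ frontier (⋃ j, Δ j) ↔ x ∈ frontier (Δ i) := by
  have hclU : IsClosed (⋃ j, Δ j) := isClosed_iUnion_of_finite hcl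
  rw [hclU.frontier_eq, (hcl i).frontier_eq]
  have hloc := piece_local hcl hdis hx
  have hint : x ∈ interior (⋃ j, Δ j) ↔ x ∈ interior (Δ i) := by
    rw [mem_interior_iff_mem_nhds, mem_interior_iff_mem_nhds]
    constructor
    · intro h
      filter_upwards [h, hloc] with y h1 h2
      exact h2.1 h1
    · intro h
      filter_upwards [h, hloc] with y h1 h2
      exact h2.2 h1
  constructor
  · rintro ⟨_, h⟩
    exact ⟨hx, fun h' => h (hint.2 h')⟩
  · rintro ⟨_, h⟩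
    exact ⟨mem_iUnion.2 ⟨i, hx⟩, fun h' => h (hint.1 h')⟩

theorem Regions.loc0 (R : Regions f K0 K1) {θ η : ℝ} (h : pt θ η ∈ frontier K0) :
    ∀ᶠ q : ℝ × ℝ in 𝓝 (θ, η), pt q.1 q.2 ∈ K0 ↔ 0 ≤ (-1 : ℝ) * (gr f q.1).eval q.2 := by
  have h1 : pt θ η ∉ K1 := fun h1 => by
    rw [R.closed0.frontier_eq] at h
    exact h.2 (R.sub h1)
  filter_upwards [(R.closed1.isOpen_compl.preimage continuous_pt).mem_nhds h1] with q hq
  have hq1 : pt q.1 q.2 ∉ K1 := hq
  constructor
  · intro h2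
    by_cases h3 : pt q.1 q.2 ∈ interior K0
    · have := R.neg _ _ h3 hq1
      linarith
    · have h4 : pt q.1 q.2 ∈ frontier K0 := by
        rw [R.closed0.frontier_eq]
        exact ⟨h2, h3⟩
      rw [R.zero _ _ (Or.inl h4), mul_zero]
  · intro h2
    by_contra h3
    have := R.pos _ _ h3
    linarith

theorem Regions.loc1 (R : Regions f K0 K1) {θ η : ℝ} (h : pt θ η ∈ frontier K1) :
    ∀ᶠ q : ℝ × ℝ in 𝓝 (θ, η), pt q.1 q.2 ∈ K1 ↔ 0 ≤ (1 : ℝ) * (gr f q.1).eval q.2 := by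
  have h1 : pt θ η ∈ interior K0 := R.sub (R.closed1.frontier_subset h)
  filter_upwards [(isOpen_interior.preimage continuous_pt).mem_nhds h1] with q hq
  have hq1 : pt q.1 q.2 ∈ interior K0 := hq
  constructor
  · intro h2
    by_cases h3 : pt q.1 q.2 ∈ interior K1
    · have := R.posi _ _ h3
      linarith
    · have h4 : pt q.1 q.2 ∈ frontier K1 := by
        rw [R.closed1.frontier_eq]
        exact ⟨h2, h3⟩
      rw [R.zero _ _ (Or.inr h4), mul_zero]
  · intro h2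
    by_contra h3
    have := R.neg _ _ hq1 h3
    linarith

theorem Regions.zero_cases (R : Regions f K0 K1) {θ η : ℝ} (h : (gr f θ).eval η = 0) :
    pt θ η ∈ frontier K0 ∨ pt θ η ∈ frontier K1 := by
  by_cases h0 : pt θ η ∈ K0
  · by_cases h1 : pt θ η ∈ interior K0
    · right
      by_cases h2 : pt θ η ∈ K1
      · rw [R.closed1.frontier_eq]
        refine ⟨h2, fun h3 => ?_⟩
        have := R.posi _ _ h3
        linarith
      · have := R.neg _ _ h1 h2
        linarith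
    · left
      rw [R.closed0.frontier_eq]
      exact ⟨h0, h1⟩
  · have := R.pos _ _ h0
    linarith

end regions

namespace Ctx

variable {n : Type} [Fintype n] [DecidableEq n] (X : Ctx n)

theorem reg_zero_simple (η : ℝ) (h0 : (gr X.f 0).eval η = 0) :
    (Polynomial.derivative (gr X.f 0)).eval η ≠ 0 := by
  intro h1
  apply X.one
  rw [X.hZ]
  refine ⟨by simp, fun hsep => ?_⟩
  have e : circ 0 = 1 := by simp [circ]
  have h2 := Line.fam_circ_eval X.nf.hom 0 (η : ℂ)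
  have h3 := Line.fam_circ_deriv_eval X.nf.hom 0 (η : ℂ)
  rw [map_eval_real, h0, e] at h2
  rw [map_eval_real, h1, e] at h3
  simp only [Complex.ofReal_zero, mul_zero, zero_mul, Complex.exp_zero, one_mul] at h2 h3
  obtain ⟨a, b, hab⟩ := hsep
  have := congrArg (Polynomial.eval (η : ℂ)) hab
  rw [Polynomial.eval_add, Polynomial.eval_mul, Polynomial.eval_mul, h2, h3] at this
  simp at this

/-- OVALCOUNT -/
theorem countOK : X.CountOK := by
  classical
  intro E hE
  have R := X.reg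
  obtain ⟨Δ, hΔ, hdis, hK0⟩ := R.discs0
  obtain ⟨Γ, hΓ, hdis1, hK1⟩ := R.discs1
  have hclΔ : ∀ i, IsClosed (Δ i) := fun i => (hΔ i).isClosed
  have hclΓ : ∀ i, IsClosed (Γ i) := fun i => (hΓ i).isClosed
  have hsub0 : ∀ i, Δ i ⊆ X.K0 := fun i => by rw [hK0]; exact subset_iUnion Δ i
  have hsub1 : ∀ i, Γ i ⊆ X.K1 := fun i => by rw [hK1]; exact subset_iUnion Γ i
  have hK10 : X.K1 ⊆ X.K0 := R.sub.trans interior_subset
  have hE' : ∀ e : ℝ × ℝ, e ∈ E ↔ 0 < e.1 ∧ e.1 < Real.pi ∧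
      (gr X.f e.1).eval e.2 = 0 ∧ (Polynomial.derivative (gr X.f e.1)).eval e.2 = 0 := hE
  have hfr0 : ∀ i x, x ∈ frontier (Δ i) → x ∈ frontier X.K0 := fun i x hx => by
    rw [hK0]
    exact (frontier_piece hclΔ hdis ((hclΔ i).frontier_subset hx)).2 hx
  have hfr1 : ∀ i x, x ∈ frontier (Γ i) → x ∈ frontier X.K1 := fun i x hx => by
    rw [hK1]
    exact (frontier_piece hclΓ hdis1 ((hclΓ i).frontier_subset hx)).2 hx
  -- the outer discs
  have h0 : ∀ i, ∑ e ∈ E.filter (fun e => pt e.1 e.2 ∈ frontier (Δ i)), X.esg e.1 e.2 = 2 := by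
    intro i
    have h1 := disc_count X.nf (hΔ i) (fun h => R.centre (hsub0 i h)) (τ := -1) (by norm_num)
      (fun θ η h => R.zero θ η (Or.inl (hfr0 i _ h))) (fun θ η h => by
        have h2 := R.loc0 (hfr0 i _ h)
        have h3 := (piece_local hclΔ hdis ((hclΔ i).frontier_subset h))
        have h4 : ∀ᶠ q : ℝ × ℝ in 𝓝 (θ, η), pt q.1 q.2 ∈ ⋃ j, Δ j ↔ pt q.1 q.2 ∈ Δ i :=
          (continuous_pt.tendsto ((θ, η) : ℝ × ℝ)).eventually h3
        rw [← hK0] at h4
        filter_upwards [h2, h4] with q h5 h6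
        rw [← h6, h5]) (X.reg_zero_simple) E hE'
    rw [← h1]
    refine Finset.sum_congr rfl fun e _ => ?_
    unfold wt esg
    rw [neg_one_mul, Left.sign_neg]
    simp
  -- the inner discs
  have h1 : ∀ i, ∑ e ∈ E.filter (fun e => pt e.1 e.2 ∈ frontier (Γ i)), X.esg e.1 e.2 = -2 := by
    intro i
    have h1 := disc_count X.nf (hΓ i) (fun h => R.centre (hK10 (hsub1 i h))) (τ := 1) (by norm_num)
      (fun θ η h => R.zero θ η (Or.inr (hfr1 i _ h))) (fun θ η h => by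
        have h2 := R.loc1 (hfr1 i _ h)
        have h3 := (piece_local hclΓ hdis1 ((hclΓ i).frontier_subset h))
        have h4 : ∀ᶠ q : ℝ × ℝ in 𝓝 (θ, η), pt q.1 q.2 ∈ ⋃ j, Γ j ↔ pt q.1 q.2 ∈ Γ i :=
          (continuous_pt.tendsto ((θ, η) : ℝ × ℝ)).eventually h3
        rw [← hK1] at h4
        filter_upwards [h2, h4] with q h5 h6
        rw [← h6, h5]) (X.reg_zero_simple) E hE'
    have h2 : ∑ e ∈ E.filter (fun e => pt e.1 e.2 ∈ frontier (Γ i)), X.esg e.1 e.2 =
        - ∑ e ∈ E.filter (fun e => pt e.1 e.2 ∈ frontier (Γ i)), wt X.f 1 e := by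
      rw [← Finset.sum_neg_distrib]
      refine Finset.sum_congr rfl fun e _ => ?_
      unfold wt esg
      rw [one_mul, neg_neg]
    rw [h2, h1]
  -- the events are distributed over the frontiers
  have hcases : ∀ e ∈ E, (∃ i, pt e.1 e.2 ∈ frontier (Δ i)) ∨ ∃ i, pt e.1 e.2 ∈ frontier (Γ i) := by
    intro e he
    rcases R.zero_cases ((hE' e).1 he).2.2.1 with h | h
    · left
      have hmem := R.closed0.frontier_subset h
      rw [hK0] at hmem
      obtain ⟨i, hi⟩ := mem_iUnion.1 hmem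
      refine ⟨i, ?_⟩
      rw [hK0] at h
      exact (frontier_piece hclΔ hdis hi).1 h
    · right
      have hmem := R.closed1.frontier_subset h
      rw [hK1] at hmem
      obtain ⟨i, hi⟩ := mem_iUnion.1 hmem
      refine ⟨i, ?_⟩
      rw [hK1] at h
      exact (frontier_piece hclΓ hdis1 hi).1 h
  have hnot1 : ∀ x, x ∈ frontier X.K0 → x ∉ X.K1 := fun x hx hx1 => by
    rw [R.closed0.frontier_eq] at hx
    exact hx.2 (R.sub hx1)
  -- a general splitting
  have hsplit : ∀ g : ℝ × ℝ → ℤ, ∑ e ∈ E, g e =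
      ∑ i, ∑ e ∈ E.filter (fun e => pt e.1 e.2 ∈ frontier (Δ i)), g e +
      ∑ i, ∑ e ∈ E.filter (fun e => pt e.1 e.2 ∈ frontier (Γ i)), g e := by
    intro g
    have e1 : E = (Finset.univ.biUnion fun i => E.filter (fun e => pt e.1 e.2 ∈ frontier (Δ i))) ∪
        (Finset.univ.biUnion fun i => E.filter (fun e => pt e.1 e.2 ∈ frontier (Γ i))) := by
      ext e
      simp only [Finset.mem_union, Finset.mem_biUnion, Finset.mem_univ, true_and,
        Finset.mem_filter]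
      constructor
      · intro he
        rcases hcases e he with ⟨i, hi⟩ | ⟨i, hi⟩
        · exact Or.inl ⟨i, he, hi⟩
        · exact Or.inr ⟨i, he, hi⟩
      · rintro (⟨i, he, _⟩ | ⟨i, he, _⟩) <;> exact he
    conv_lhs => rw [e1]
    rw [Finset.sum_union, Finset.sum_biUnion, Finset.sum_biUnion]
    · intro i _ j _ hij
      rw [Function.onFun, Finset.disjoint_left]
      intro e he he'
      rw [Finset.mem_filter] at he he'
      exact (Set.disjoint_left.1 (hdis1 i j hij)) ((hclΓ i).frontier_subset he.2)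
        ((hclΓ j).frontier_subset he'.2)
    · intro i _ j _ hij
      rw [Function.onFun, Finset.disjoint_left]
      intro e he he'
      rw [Finset.mem_filter] at he he'
      exact (Set.disjoint_left.1 (hdis i j hij)) ((hclΔ i).frontier_subset he.2)
        ((hclΔ j).frontier_subset he'.2)
    · rw [Finset.disjoint_left]
      intro e he he'
      simp only [Finset.mem_biUnion, Finset.mem_univ, true_and, Finset.mem_filter] at he he'
      obtain ⟨i, _, hi⟩ := he
      obtain ⟨j, _, hj⟩ := he'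
      exact hnot1 _ (hfr0 i _ hi) (hsub1 j ((hclΓ j).frontier_subset hj))
  refine ⟨?_, ?_⟩
  · rw [hsplit fun e => X.esg e.1 e.2, Finset.sum_congr rfl fun i _ => h0 i,
      Finset.sum_congr rfl fun i _ => h1 i]
    simp
  · rw [hsplit fun e => X.esg e.1 e.2 * X.edep e.1 e.2]
    have e1 : ∀ i, ∑ e ∈ E.filter (fun e => pt e.1 e.2 ∈ frontier (Δ i)),
        X.esg e.1 e.2 * X.edep e.1 e.2 = 2 := by
      intro i
      rw [← h0 i]
      refine Finset.sum_congr rfl fun e he => ?_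
      rw [Finset.mem_filter] at he
      unfold edep
      rw [if_neg (hnot1 _ (hfr0 i _ he.2)), mul_one]
    have e2 : ∀ i, ∑ e ∈ E.filter (fun e => pt e.1 e.2 ∈ frontier (Γ i)),
        X.esg e.1 e.2 * X.edep e.1 e.2 = 2 := by
      intro i
      have : (2 : ℤ) = -(-2) := by norm_num
      rw [this, ← h1 i, ← Finset.sum_neg_distrib]
      refine Finset.sum_congr rfl fun e he => ?_
      rw [Finset.mem_filter] at he
      unfold edep
      rw [if_pos (hsub1 i ((hclΓ i).frontier_subset he.2)), mul_neg, mul_one]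
    rw [Finset.sum_congr rfl fun i _ => e1 i, Finset.sum_congr rfl fun i _ => e2 i]
    simp

end Ctx

end Pool.Agent.Rohlin
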