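import Pool.Agent.Rohlin.Steps
import Pool.Agent.Rohlin.Star
import Pool.Agent.Rohlin.Fam

/-!
# The real gauge on the unit circle: continuity, the form, the gauge at `π`
-/

set_option autoImplicit false

namespace Pool.Agent.Rohlin

open Polynomial Complex Set Matrix Filter Topology

/-- `M.g` is homogeneous -/
theorem Majorana.g_smul {m : ℕ} {n : Type} [Fintype n] [DecidableEq n] (M : Majorana m n) (t : ℂ)
    (v : Fin m → ℂ) : M.g (t • v) = t • M.g v := by
  rw [Majorana.g, Majorana.g, Finset.smul_sum]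
  refine Finset.sum_congr rfl fun a _ => ?_
  rw [Pi.smul_apply, smul_eq_mul, mul_smul]

/-- `M.R` is multilinear -/
theorem Majorana.R_smul {m : ℕ} {n : Type} [Fintype n] [DecidableEq n] (M : Majorana m n) :
    ∀ {k : ℕ} (t : Fin k → ℂ) (v : Fin k → Fin m → ℂ),
      M.R (fun j => t j • v j) = (∏ j, t j) • M.R v := by
  intro k
  induction k with
  | zero => intro t v; simp [Majorana.R_zero]
  | succ k ih =>
    intro t v
    rw [M.R_succ, M.R_succ, ih (fun j => t j.succ) fun j => v j.succ, M.g_smul, Matrix.smul_mul,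
      Matrix.mul_smul, smul_smul, Fin.prod_univ_succ]

namespace Ctx

variable {n : Type} [Fintype n] [DecidableEq n] (X : Ctx n)

theorem isOpen_Reg : IsOpen {θ | X.Reg θ} :=
  (isOpen_Star X.cZ).preimage continuous_circ

theorem mapsTo_circ {I : Set ℝ} (hI : ∀ θ ∈ I, X.Reg θ) :
    MapsTo circ I (Star X.c X.Z ∩ {w | ‖w‖ ≤ 1}) := fun θ hθ =>
  ⟨hI θ hθ, (norm_circ θ).le⟩

theorem eta_cont {I : Set ℝ} (hI : ∀ θ ∈ I, X.Reg θ) (i : Fin 8) :
    ContinuousOn (fun θ => X.eta θ i) I := by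
  unfold eta
  exact (Continuous.continuousOn (by fun_prop)).mul
    ((X.y_cont i).comp continuous_circ.continuousOn (X.mapsTo_circ hI))

theorem sig_cont {I : Set ℝ} (hI : ∀ θ ∈ I, X.Reg θ) (i : Fin 8) :
    ContinuousOn (fun θ => X.sig θ i) I := by
  unfold sig
  exact (Continuous.continuousOn (by fun_prop)).mul
    ((X.s_cont i).comp continuous_circ.continuousOn (X.mapsTo_circ hI))

theorem lr_cont {I : Set ℝ} (hI : ∀ θ ∈ I, X.Reg θ) :
    ContinuousOn (fun θ => X.lr θ) I := by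
  rw [continuousOn_pi]
  intro a
  unfold lr
  refine (Continuous.continuousOn (by fun_prop)).mul ?_
  exact (continuousOn_pi.1 (X.l_cont) a).comp continuous_circ.continuousOn (X.mapsTo_circ hI)

theorem y_eq (θ : ℝ) (i : Fin 8) : X.y i (circ θ) = exp (θ * I) * X.eta θ i := by
  unfold eta
  rw [← mul_assoc, ← Complex.exp_add]
  simp

theorem s_eq (θ : ℝ) (i : Fin 8) : X.s i (circ θ) = exp (7 / 2 * θ * I) * X.sig θ i := by
  unfold sig
  rw [← mul_assoc, ← Complex.exp_add]
  simp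

/-- the family of the vectors in the two gauges -/
theorem vfam_circ (θ : ℝ) : (vfam (fun i => X.y i (circ θ)) fun i => X.s i (circ θ)) =
    fun j : Fin 4 => (exp (θ * I) ^ (j : ℕ) * exp (-(7 / 2 * θ * I))) • vfam (X.eta θ) (X.sig θ) j := by
  funext j i
  rw [Pi.smul_apply, smul_eq_mul]
  unfold vfam
  change X.y i (circ θ) ^ (j : ℕ) / X.s i (circ θ) = _
  rw [X.y_eq, X.s_eq, mul_pow, Complex.exp_neg]
  have := Complex.exp_ne_zero (7 / 2 * θ * I)
  by_cases h : X.sig θ i = 0
  · simp [h]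
  · field_simp

/-- **the form in the real gauge** -/
theorem lr_sq {θ : ℝ} (h : X.Reg θ) :
    X.C * X.M.R (vfam (X.eta θ) (X.sig θ)) = vecMulVec (X.lr θ) (X.lr θ) := by
  have h1 := X.l_sq (circ θ) h (norm_circ θ).le
  rw [X.vfam_circ, Majorana.R_smul, Matrix.mul_smul] at h1
  have h2 : (∏ j : Fin 4, exp (θ * I) ^ (j : ℕ) * exp (-(7 / 2 * θ * I))) = exp (-(8 * θ * I)) := by
    rw [Fin.prod_univ_four]
    simp only [← Complex.exp_nat_mul, ← Complex.exp_add]
    congr 1
    simp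
    ring
  rw [h2] at h1
  have h3 : X.C * X.M.R (vfam (X.eta θ) (X.sig θ)) =
      exp (8 * θ * I) • vecMulVec (X.l (circ θ)) (X.l (circ θ)) := by
    rw [← h1, smul_smul, ← Complex.exp_add]
    simp
  rw [h3]
  ext a b
  rw [Matrix.smul_apply, vecMulVec_apply, vecMulVec_apply, lr, lr, smul_eq_mul]
  have h4 : exp (8 * θ * I) = exp (4 * θ * I) * exp (4 * θ * I) := by
    rw [← Complex.exp_add]
    congr 1
    ring
  rw [h4]
  ring

/-! ### the gauge at `π` -/

theorem circ_zero : circ 0 = 1 := by simp [circ]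

theorem circ_pi : circ Real.pi = 1 := by
  rw [circ, Complex.exp_two_pi_mul_I]

theorem reg_zero : X.Reg 0 := by
  rw [Reg, circ_zero]
  exact X.cgen3

theorem reg_pi : X.Reg Real.pi := by
  rw [Reg, circ_pi]
  exact X.cgen3

theorem eta_pi (i : Fin 8) : X.eta Real.pi i = -X.eta 0 i := by
  unfold eta
  rw [circ_zero, circ_pi, Complex.exp_neg, Complex.exp_pi_mul_I]
  simp

theorem sig_pi (i : Fin 8) : X.sig Real.pi i = I * X.sig 0 i := by
  unfold sig
  rw [circ_zero, circ_pi]
  have h1 : exp (-(7 / 2 * (Real.pi : ℂ) * I)) = I := by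
    have : -(7 / 2 * (Real.pi : ℂ) * I) = (Real.pi / 2 * I) + ((-2 : ℤ) : ℂ) * (2 * Real.pi * I) := by
      push_cast
      ring
    rw [this, Complex.exp_add, Complex.exp_int_mul_two_pi_mul_I, mul_one]
    exact Complex.exp_pi_div_two_mul_I
  rw [h1]
  simp

theorem lr_pi : X.lr Real.pi = X.lr 0 := by
  funext a
  unfold lr
  rw [circ_zero, circ_pi]
  have h1 : exp (4 * (Real.pi : ℂ) * I) = 1 := by
    have : 4 * (Real.pi : ℂ) * I = ((2 : ℤ) : ℂ) * (2 * Real.pi * I) := by
      push_cast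
      ring
    rw [this, Complex.exp_int_mul_two_pi_mul_I]
  rw [h1]
  simp

theorem pt_pi (η : ℝ) : pt Real.pi η = pt 0 (-η) := by
  unfold pt
  rw [Projectivization.mk_eq_mk_iff']
  refine ⟨-1, ?_⟩
  ext i
  fin_cases i <;> simp

theorem zeta_pi (a b : Fin 8) (kind : Fin 3) :
    kind ≠ 2 → X.zeta Real.pi b a kind = -X.zeta 0 a b kind := by
  intro hk
  unfold zeta
  rw [if_neg hk, if_neg hk, X.sig_pi, X.sig_pi]
  have h1 : I * X.sig 0 b * (I * X.sig 0 a) = -(X.sig 0 a * X.sig 0 b) := by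
    linear_combination (X.sig 0 a * X.sig 0 b) * I_mul_I
  rw [h1, norm_neg]
  ring

/-- the projectors of a pair do not depend on the orientation -/
theorem pairFac_swap {m : ℕ} {n : Type} [Fintype n] [DecidableEq n] (M : Majorana m n)
    {a b : Fin m} (hab : a ≠ b) (ζ : ℂ) : pairFac M b a (-ζ) = pairFac M a b ζ := by
  rw [pairFac, pairFac, M.anti b a hab.symm, smul_neg, mul_neg, neg_smul, neg_neg]

/-- **Closing** -/
theorem Pairing.close {A B : Fin 4 → Fin 8} {kind : Fin 4 → Fin 3} {ζ : Fin 4 → ℂ}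
    (h : X.Pairing 0 A B kind ζ) : X.Pairing Real.pi B A kind (fun p => -ζ p) := by
  have hin : ∀ (K : Set RP2) (k : Fin 3), k ≠ 2 → (∀ η : ℝ, pt 0 η ∈ K ↔ ∃ p, kind p = k ∧
      (X.eta 0 (A p)).re ≤ η ∧ η ≤ (X.eta 0 (B p)).re) → ∀ η : ℝ, pt Real.pi η ∈ K ↔
      ∃ p, kind p = k ∧ (X.eta Real.pi (B p)).re ≤ η ∧ η ≤ (X.eta Real.pi (A p)).re := by
    intro K k _ hK η
    rw [pt_pi, hK]
    refine exists_congr fun p => and_congr_right fun _ => ?_
    rw [X.eta_pi, X.eta_pi, neg_re, neg_re]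
    constructor
    · rintro ⟨h1, h2⟩
      exact ⟨by linarith, by linarith⟩
    · rintro ⟨h1, h2⟩
      exact ⟨by linarith, by linarith⟩
  refine ⟨?_, ?_, ?_, hin _ 0 (by decide) h.in0, hin _ 1 (by decide) h.in1, ?_, ?_⟩
  · have h1 : Sum.elim B A = Sum.elim A B ∘ Sum.swap := by
      funext x
      rcases x with x | x <;> rfl
    rw [h1]
    exact h.inj.comp Sum.swap_leftInverse.injective
  · intro p hp
    obtain ⟨h1, h2⟩ := h.cpx p hp
    rw [X.eta_pi, X.eta_pi, h2]
    simp [h1]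
  · intro p hp
    obtain ⟨h1, h2, h3⟩ := h.real p hp
    rw [X.eta_pi, X.eta_pi]
    simp [h1, h2, h3]
  · intro p
    by_cases hp : kind p = 2
    · have h1 := h.zeta p
      have h2 : X.zeta Real.pi (B p) (A p) (kind p) = -((starRingEnd ℂ) (X.sig 0 (B p)) / X.sig 0 (A p)) := by
        unfold Ctx.zeta
        rw [if_pos hp, X.sig_pi, X.sig_pi, map_mul, Complex.conj_I, neg_mul, neg_div,
          mul_div_mul_left _ _ I_ne_zero]
      rw [h2]
      unfold Ctx.zeta at h1
      rw [if_pos hp] at h1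
      have h3 : ζ p ≠ 0 := by
        rcases h.zeta_sq p with h4 | h4 <;> rw [h4] <;> norm_num
      have hb : X.sig 0 (B p) ≠ 0 := by
        intro h0
        rw [h0, div_zero] at h1
        exact h3 h1
      have ha : X.sig 0 (A p) ≠ 0 := by
        intro h0
        rw [h0, map_zero, zero_div] at h1
        exact h3 h1
      -- `conj s_b = s_a / conj ζ = ζ s_a`
      have h5 : (starRingEnd ℂ) (X.sig 0 (A p)) = ζ p * X.sig 0 (B p) := by
        rw [h1]
        field_simp
      have h6 := congrArg (starRingEnd ℂ) h5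
      rw [Complex.conj_conj, map_mul] at h6
      have h7 : (starRingEnd ℂ) (ζ p) = ζ p := by
        rcases h.zeta_sq p with h4 | h4 <;> rw [h4] <;> simp
      have h8 : ζ p * ζ p = 1 := by
        rcases h.zeta_sq p with h4 | h4 <;> rw [h4] <;> norm_num
      rw [h7] at h6
      congr 1
      rw [eq_div_iff ha, h6, ← mul_assoc, h8, one_mul]
    · rw [h.zeta p, X.zeta_pi _ _ _ hp]
  · intro p
    rcases h.zeta_sq p with h1 | h1
    · right
      rw [h1]
    · left
      rw [h1, neg_neg]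

theorem Pairing.close_proj {A B : Fin 4 → Fin 8} {kind : Fin 4 → Fin 3} {ζ : Fin 4 → ℂ}
    (h : X.Pairing 0 A B kind ζ) : X.proj B A (fun p => -ζ p) = X.proj A B ζ := by
  unfold proj
  congr 1
  congr 1
  funext p
  refine pairFac_swap X.M ?_ _
  intro hab
  have := @h.inj (Sum.inl p) (Sum.inr p) hab
  simp at this

/-- CLOSE -/
theorem closeOK : X.CloseOK := fun A B _ ζ h =>
  ⟨B, A, fun p => -ζ p, h.close X, h.close_proj X⟩

end Ctx

end Pool.Agent.Rohlin
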