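import Pool.Agent.Rohlin.RP2Top

/-!
# The sign of a nonsingular form on the regions of the real projective plane (helper64)

Near a real zero the curve is two-sided.  Since the real projective plane is connected, the sign of
the form is determined by the nesting of the discs.
-/

set_option autoImplicit false

namespace Pool.Agent.Rohlin

open Set Topology

/-! ### connectedness of the real projective plane -/

instance : PreconnectedSpace RP2 := by
  have h1 : IsPreconnected ({0}ᶜ : Set (Fin 3 → ℝ)) := by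
    apply (isConnected_compl_singleton_of_one_lt_rank ?_ 0).isPreconnected
    rw [rank_fin_fun]
    norm_num
  have h2 : PreconnectedSpace {v : Fin 3 → ℝ // v ≠ 0} :=
    isPreconnected_iff_preconnectedSpace.1 h1
  have h3 : Function.Surjective
      (fun v : {v : Fin 3 → ℝ // v ≠ 0} => (Projectivization.mk ℝ v.1 v.2 : RP2)) := by
    intro p
    induction p using Projectivization.ind with
    | h v hv => exact ⟨⟨v, hv⟩, rfl⟩
  exact ⟨by
    rw [← h3.range_eq]
    exact isPreconnected_range continuous_mkRP2⟩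

theorem isOpen_RP2_iff {N : Set RP2} : IsOpen N ↔
    IsOpen {v : {v : Fin 3 → ℝ // v ≠ 0} | (Projectivization.mk ℝ v.1 v.2 : RP2) ∈ N} := Iff.rfl

/-! ### two sides of a graph -/

theorem preconn_pos {h : ℝ → ℝ → ℝ} {ε δ s1 : ℝ} (hδ : 0 < δ) (hs1 : s1 ∈ Ioo (-ε) ε)
    (mono : ∀ t ∈ Ioo (-δ) δ, MonotoneOn (fun s => h s t) (Ioo (-ε) ε))
    (top : ∀ t ∈ Ioo (-δ) δ, 0 < h s1 t) :
    IsPreconnected {p : ℝ × ℝ | p.1 ∈ Ioo (-ε) ε ∧ p.2 ∈ Ioo (-δ) δ ∧ 0 < h p.1 p.2} := by
  refine isPreconnected_of_forall (s1, 0) ?_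
  rintro ⟨s, t⟩ ⟨hs, ht, hst⟩
  simp only at hs ht hst
  have hm1 : max s s1 < ε := max_lt hs.2 hs1.2
  refine ⟨(Icc s (max s s1) ×ˢ {t}) ∪ (Ico s1 ε ×ˢ Ioo (-δ) δ), ?_, ?_, ?_, ?_⟩
  · rintro ⟨a, b⟩ (⟨ha, hb⟩ | ⟨ha, hb⟩)
    · simp only [mem_singleton_iff] at ha hb
      subst hb
      have ha' : a ∈ Ioo (-ε) ε := ⟨lt_of_lt_of_le hs.1 ha.1, lt_of_le_of_lt ha.2 hm1⟩
      exact ⟨ha', ht, lt_of_lt_of_le hst (mono _ ht hs ha' ha.1)⟩
    · simp only at ha hb
      have ha' : a ∈ Ioo (-ε) ε := ⟨lt_of_lt_of_le hs1.1 ha.1, ha.2⟩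
      exact ⟨ha', hb, lt_of_lt_of_le (top b hb) (mono _ hb hs1 ha' ha.1)⟩
  · exact Or.inr ⟨⟨le_rfl, hs1.2⟩, by simpa using hδ⟩
  · exact Or.inl ⟨⟨le_rfl, le_max_left _ _⟩, rfl⟩
  · refine IsPreconnected.union (max s s1, t) ?_ ?_ (isPreconnected_Icc.prod
      isPreconnected_singleton) (isPreconnected_Ico.prod isPreconnected_Ioo)
    · exact ⟨⟨le_max_left _ _, le_rfl⟩, rfl⟩
    · exact ⟨⟨le_max_right _ _, hm1⟩, ht⟩

theorem preconn_neg {h : ℝ → ℝ → ℝ} {ε δ s1 : ℝ} (hδ : 0 < δ) (hs1 : s1 ∈ Ioo (-ε) ε)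
    (mono : ∀ t ∈ Ioo (-δ) δ, MonotoneOn (fun s => h s t) (Ioo (-ε) ε))
    (bot : ∀ t ∈ Ioo (-δ) δ, h s1 t < 0) :
    IsPreconnected {p : ℝ × ℝ | p.1 ∈ Ioo (-ε) ε ∧ p.2 ∈ Ioo (-δ) δ ∧ h p.1 p.2 < 0} := by
  have h1 : IsPreconnected {p : ℝ × ℝ | p.1 ∈ Ioo (-ε) ε ∧ p.2 ∈ Ioo (-δ) δ ∧
      0 < (fun s t => -h (-s) t) p.1 p.2} := by
    refine preconn_pos (h := fun s t => -h (-s) t) (ε := ε) (s1 := -s1) hδ
      ⟨by linarith [hs1.2], by linarith [hs1.1]⟩ ?_ ?_
    · intro t ht a ha b hb hab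
      have := mono t ht (a := -b) (b := -a) ⟨by linarith [hb.2], by linarith [hb.1]⟩
        ⟨by linarith [ha.2], by linarith [ha.1]⟩ (by linarith)
      simp only at this ⊢
      linarith
    · intro t ht
      have := bot t ht
      simp only [neg_neg]
      linarith
  have h2 := h1.image (fun p : ℝ × ℝ => (-p.1, p.2)) (by fun_prop)
  convert h2 using 1
  ext ⟨a, b⟩
  constructor
  · rintro ⟨ha, hb, hab⟩
    simp only at ha hb hab
    refine ⟨(-a, b), ⟨⟨by simp only; linarith [ha.2], by simp only; linarith [ha.1]⟩, hb, ?_⟩, ?_⟩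
    · simp only [neg_neg]
      linarith
    · simp
  · rintro ⟨⟨a', b'⟩, ⟨ha, hb, hab⟩, he⟩
    simp only [Prod.mk.injEq] at ha hb hab he
    obtain ⟨rfl, rfl⟩ := he
    exact ⟨⟨by simp only; linarith [ha.2], by simp only; linarith [ha.1]⟩, hb, by
      simp only
      linarith⟩

/-- A function which increases in the direction of `s` is two-sided near `0`. -/
theorem exists_sign_box {h h' : ℝ → ℝ → ℝ} (hd : ∀ s t, HasDerivAt (fun s => h s t) (h' s t) s)
    (hc : Continuous fun p : ℝ × ℝ => h p.1 p.2) (hc' : Continuous fun p : ℝ × ℝ => h' p.1 p.2)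
    (h0 : h 0 0 = 0) (hpos : 0 < h' 0 0) : ∃ ε > 0, ∃ δ > 0,
      IsPreconnected {p : ℝ × ℝ | p.1 ∈ Ioo (-ε) ε ∧ p.2 ∈ Ioo (-δ) δ ∧ 0 < h p.1 p.2} ∧
      IsPreconnected {p : ℝ × ℝ | p.1 ∈ Ioo (-ε) ε ∧ p.2 ∈ Ioo (-δ) δ ∧ h p.1 p.2 < 0} := by
  have h1 : {p : ℝ × ℝ | 0 < h' p.1 p.2} ∈ 𝓝 ((0 : ℝ), (0 : ℝ)) :=
    (isOpen_lt continuous_const hc').mem_nhds hpos
  obtain ⟨ε, hε, hball⟩ := Metric.mem_nhds_iff.1 h1
  have hin : ∀ s t : ℝ, s ∈ Ioo (-ε) ε → t ∈ Ioo (-ε) ε → 0 < h' s t := by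
    intro s t hs ht
    have : ((s, t) : ℝ × ℝ) ∈ Metric.ball ((0 : ℝ), (0 : ℝ)) ε := by
      rw [Metric.mem_ball, Prod.dist_eq]
      simp only [Real.dist_eq, sub_zero]
      exact max_lt (abs_lt.2 hs) (abs_lt.2 ht)
    exact hball this
  have mono : ∀ t ∈ Ioo (-ε) ε, StrictMonoOn (fun s => h s t) (Ioo (-ε) ε) := by
    intro t ht
    refine strictMonoOn_of_deriv_pos (convex_Ioo _ _)
      (fun s _ => (hd s t).continuousAt.continuousWithinAt) fun s hs => ?_
    rw [interior_Ioo] at hs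
    rw [(hd s t).deriv]
    exact hin s t hs ht
  have h0m : (0 : ℝ) ∈ Ioo (-ε) ε := ⟨by linarith, hε⟩
  have htop : 0 < h (ε / 2) 0 := by
    have := mono 0 h0m h0m (b := ε / 2) ⟨by linarith, by linarith⟩ (by linarith)
    simpa [h0] using this
  have hbot : h (-(ε / 2)) 0 < 0 := by
    have := mono 0 h0m (a := -(ε / 2)) (b := 0) ⟨by linarith, by linarith⟩ h0m (by linarith)
    simpa [h0] using this
  have h2 : {t : ℝ | 0 < h (ε / 2) t ∧ h (-(ε / 2)) t < 0} ∈ 𝓝 (0 : ℝ) := by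
    have c1 : Continuous fun t => h (ε / 2) t :=
      hc.comp (continuous_const.prodMk continuous_id)
    have c2 : Continuous fun t => h (-(ε / 2)) t :=
      hc.comp (continuous_const.prodMk continuous_id)
    exact ((isOpen_lt continuous_const c1).inter (isOpen_lt c2 continuous_const)).mem_nhds
      ⟨htop, hbot⟩
  obtain ⟨δ', hδ', hball'⟩ := Metric.mem_nhds_iff.1 h2
  set δ := min δ' ε with hδdef
  have hδ : 0 < δ := lt_min hδ' hε
  have hsub : Ioo (-δ) δ ⊆ Ioo (-ε) ε := by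
    intro t ht
    exact ⟨by linarith [ht.1, min_le_right δ' ε], by linarith [ht.2, min_le_right δ' ε]⟩
  have hsub' : ∀ t ∈ Ioo (-δ) δ, 0 < h (ε / 2) t ∧ h (-(ε / 2)) t < 0 := by
    intro t ht
    apply hball'
    rw [Metric.mem_ball, Real.dist_eq, sub_zero, abs_lt]
    exact ⟨by linarith [ht.1, min_le_left δ' ε], by linarith [ht.2, min_le_left δ' ε]⟩
  refine ⟨ε, hε, δ, hδ, preconn_pos (s1 := ε / 2) hδ ⟨by linarith, by linarith⟩
    (fun t ht => (mono t (hsub ht)).monotoneOn) fun t ht => (hsub' t ht).1,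
    preconn_neg (s1 := -(ε / 2)) hδ ⟨by linarith, by linarith⟩
    (fun t ht => (mono t (hsub ht)).monotoneOn) fun t ht => (hsub' t ht).2⟩

/-! ### charts of the real projective plane -/

section chart

variable {v u w : Fin 3 → ℝ}

theorem comb_eq (a b c : ℝ) (v u w : Fin 3 → ℝ) :
    Matrix.vecMul ![a, b, c] (Matrix.of ![v, u, w]) = a • v + b • u + c • w := by
  funext j
  simp [Matrix.vecMul, dotProduct, Fin.sum_univ_three]

theorem coord (hdet : (Matrix.of ![v, u, w]).det ≠ 0) (a b c : ℝ) :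
    Matrix.vecMul (a • v + b • u + c • w) (Matrix.of ![v, u, w])⁻¹ = ![a, b, c] := by
  rw [← comb_eq, Matrix.vecMul_vecMul, Matrix.mul_nonsing_inv _ (isUnit_iff_ne_zero.2 hdet),
    Matrix.vecMul_one]

theorem exists_coord (hdet : (Matrix.of ![v, u, w]).det ≠ 0) (x : Fin 3 → ℝ) :
    x = (Matrix.vecMul x (Matrix.of ![v, u, w])⁻¹ 0) • v +
      (Matrix.vecMul x (Matrix.of ![v, u, w])⁻¹ 1) • u +
      (Matrix.vecMul x (Matrix.of ![v, u, w])⁻¹ 2) • w := by
  rw [← comb_eq]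
  have h1 : ![Matrix.vecMul x (Matrix.of ![v, u, w])⁻¹ 0, Matrix.vecMul x (Matrix.of ![v, u, w])⁻¹ 1,
      Matrix.vecMul x (Matrix.of ![v, u, w])⁻¹ 2] = Matrix.vecMul x (Matrix.of ![v, u, w])⁻¹ := by
    funext i
    fin_cases i <;> rfl
  rw [h1, Matrix.vecMul_vecMul, Matrix.nonsing_inv_mul _ (isUnit_iff_ne_zero.2 hdet),
    Matrix.vecMul_one]

theorem chart_ne (hdet : (Matrix.of ![v, u, w]).det ≠ 0) (s t : ℝ) :
    (1 : ℝ) • v + s • u + t • w ≠ 0 := by
  intro h
  have h1 := coord hdet 1 s t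
  rw [h, Matrix.zero_vecMul] at h1
  have := congrFun h1 0
  simp at this

/-- the affine chart -/
noncomputable def cht (hdet : (Matrix.of ![v, u, w]).det ≠ 0) (p : ℝ × ℝ) : RP2 :=
  Projectivization.mk ℝ ((1 : ℝ) • v + p.1 • u + p.2 • w) (chart_ne hdet p.1 p.2)

theorem continuous_cht (hdet : (Matrix.of ![v, u, w]).det ≠ 0) : Continuous (cht hdet) := by
  have h : Continuous (fun p : ℝ × ℝ => (⟨(1 : ℝ) • v + p.1 • u + p.2 • w,
      chart_ne hdet p.1 p.2⟩ : {v : Fin 3 → ℝ // v ≠ 0})) := by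
    refine Continuous.subtype_mk ?_ _
    fun_prop
  exact continuous_mkRP2.comp h

theorem isOpen_cht_image (hdet : (Matrix.of ![v, u, w]).det ≠ 0) {ε δ : ℝ} :
    IsOpen (cht hdet '' (Ioo (-ε) ε ×ˢ Ioo (-δ) δ)) := by
  rw [isOpen_RP2_iff]
  have hc : ∀ i : Fin 3, Continuous fun x : {v : Fin 3 → ℝ // v ≠ 0} =>
      Matrix.vecMul x.1 (Matrix.of ![v, u, w])⁻¹ i := by
    intro i
    simp only [Matrix.vecMul, dotProduct]
    exact continuous_finsetSum _ fun k _ =>
      ((continuous_apply k).comp continuous_subtype_val).mul continuous_const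
  have h1 : {x : {v : Fin 3 → ℝ // v ≠ 0} | (Projectivization.mk ℝ x.1 x.2 : RP2) ∈
      cht hdet '' (Ioo (-ε) ε ×ˢ Ioo (-δ) δ)} =
      {x | |Matrix.vecMul x.1 (Matrix.of ![v, u, w])⁻¹ 1| <
          ε * |Matrix.vecMul x.1 (Matrix.of ![v, u, w])⁻¹ 0|} ∩
      {x | |Matrix.vecMul x.1 (Matrix.of ![v, u, w])⁻¹ 2| <
          δ * |Matrix.vecMul x.1 (Matrix.of ![v, u, w])⁻¹ 0|} := by
    ext ⟨x, hx⟩
    constructor
    · rintro ⟨⟨s, t⟩, ⟨hs, ht⟩, h⟩
      simp only at hs ht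
      obtain ⟨a, ha⟩ := (Projectivization.mk_eq_mk_iff' ℝ _ _ _ _).1 h
      have ha0 : a ≠ 0 := by
        rintro rfl
        rw [zero_smul] at ha
        exact chart_ne hdet s t ha.symm
      -- `a • x = v + s u + t w`
      have h2 : x = a⁻¹ • v + (a⁻¹ * s) • u + (a⁻¹ * t) • w := by
        have : x = a⁻¹ • (a • x) := by rw [smul_smul, inv_mul_cancel₀ ha0, one_smul]
        rw [this, ha]
        module
      change |Matrix.vecMul x (Matrix.of ![v, u, w])⁻¹ 1| <
          ε * |Matrix.vecMul x (Matrix.of ![v, u, w])⁻¹ 0| ∧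
        |Matrix.vecMul x (Matrix.of ![v, u, w])⁻¹ 2| <
          δ * |Matrix.vecMul x (Matrix.of ![v, u, w])⁻¹ 0|
      rw [h2, coord hdet]
      change |a⁻¹ * s| < ε * |a⁻¹| ∧ |a⁻¹ * t| < δ * |a⁻¹|
      have hpos : 0 < |a⁻¹| := abs_pos.2 (inv_ne_zero ha0)
      rw [abs_mul, abs_mul, mul_comm ε, mul_comm δ]
      exact ⟨mul_lt_mul_of_pos_left (abs_lt.2 hs) hpos, mul_lt_mul_of_pos_left (abs_lt.2 ht) hpos⟩
    · rintro ⟨h2, h3⟩
      change |Matrix.vecMul x (Matrix.of ![v, u, w])⁻¹ 1| <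
          ε * |Matrix.vecMul x (Matrix.of ![v, u, w])⁻¹ 0| at h2
      change |Matrix.vecMul x (Matrix.of ![v, u, w])⁻¹ 2| <
          δ * |Matrix.vecMul x (Matrix.of ![v, u, w])⁻¹ 0| at h3
      set y := Matrix.vecMul x (Matrix.of ![v, u, w])⁻¹ with hy
      have hy0 : y 0 ≠ 0 := by
        intro h
        rw [h, abs_zero, mul_zero] at h2
        exact absurd h2 (not_lt.2 (abs_nonneg _))
      have hpos : 0 < |y 0| := abs_pos.2 hy0
      refine ⟨(y 1 / y 0, y 2 / y 0), ⟨?_, ?_⟩, ?_⟩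
      · apply abs_lt.1
        rw [abs_div, div_lt_iff₀ hpos]
        exact h2
      · apply abs_lt.1
        rw [abs_div, div_lt_iff₀ hpos]
        exact h3
      · refine (Projectivization.mk_eq_mk_iff' ℝ _ _ _ _).2 ⟨(y 0)⁻¹, ?_⟩
        have h4 := exists_coord hdet x
        rw [← hy] at h4
        change (y 0)⁻¹ • x = (1 : ℝ) • v + (y 1 / y 0) • u + (y 2 / y 0) • w
        conv_lhs => rw [h4]
        simp only [smul_add, smul_smul]
        rw [inv_mul_cancel₀ hy0, div_eq_inv_mul, div_eq_inv_mul]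
  rw [h1]
  exact (isOpen_lt (hc 1).abs (continuous_const.mul (hc 0).abs)).inter
    (isOpen_lt (hc 2).abs (continuous_const.mul (hc 0).abs))

end chart

/-! ### the sign of a form of even degree -/

section sign

open MvPolynomial

variable {m : ℕ} {f : MvPolynomial (Fin 3) ℝ}

theorem exists_rep (hf : f.IsHomogeneous m) (hm : Even m) (v : Fin 3 → ℝ) (hv : v ≠ 0) :
    ∃ r : ℝ, 0 < r ∧ eval (Projectivization.mk ℝ v hv).rep f = r * eval v f := by
  obtain ⟨a, ha⟩ := Projectivization.exists_smul_eq_mk_rep ℝ v hv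
  refine ⟨(a : ℝ) ^ m, hm.pow_pos a.ne_zero, ?_⟩
  rw [← ha, Units.smul_def, eval_smul_of_homogeneous hf]

theorem rep_pos_iff (hf : f.IsHomogeneous m) (hm : Even m) (v : Fin 3 → ℝ) (hv : v ≠ 0) :
    0 < eval (Projectivization.mk ℝ v hv).rep f ↔ 0 < eval v f := by
  obtain ⟨r, hr, h⟩ := exists_rep hf hm v hv
  rw [h]
  exact mul_pos_iff_of_pos_left hr

theorem rep_neg_iff (hf : f.IsHomogeneous m) (hm : Even m) (v : Fin 3 → ℝ) (hv : v ≠ 0) :
    eval (Projectivization.mk ℝ v hv).rep f < 0 ↔ eval v f < 0 := by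
  obtain ⟨r, hr, h⟩ := exists_rep hf hm v hv
  rw [h, ← neg_pos, ← mul_neg, mul_pos_iff_of_pos_left hr, neg_pos]

theorem isOpen_pos (hf : f.IsHomogeneous m) (hm : Even m) :
    IsOpen {p : RP2 | 0 < eval p.rep f} := by
  rw [isOpen_RP2_iff]
  have : {v : {v : Fin 3 → ℝ // v ≠ 0} | (Projectivization.mk ℝ v.1 v.2 : RP2) ∈
      {p : RP2 | 0 < eval p.rep f}} = {v | 0 < eval v.1 f} := by
    ext v
    exact rep_pos_iff hf hm v.1 v.2
  rw [this]
  exact isOpen_lt continuous_const ((MvPolynomial.continuous_eval f).comp continuous_subtype_val)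

theorem isOpen_neg (hf : f.IsHomogeneous m) (hm : Even m) :
    IsOpen {p : RP2 | eval p.rep f < 0} := by
  rw [isOpen_RP2_iff]
  have : {v : {v : Fin 3 → ℝ // v ≠ 0} | (Projectivization.mk ℝ v.1 v.2 : RP2) ∈
      {p : RP2 | eval p.rep f < 0}} = {v | eval v.1 f < 0} := by
    ext v
    exact rep_neg_iff hf hm v.1 v.2
  rw [this]
  exact isOpen_lt ((MvPolynomial.continuous_eval f).comp continuous_subtype_val) continuous_const

/-- the derivative of a form along a line -/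
theorem hasDerivAt_eval_line (f : MvPolynomial (Fin 3) ℝ) (x u : Fin 3 → ℝ) (s : ℝ) :
    HasDerivAt (fun s : ℝ => eval (x + s • u) f) (∑ i, u i * eval (x + s • u) (pderiv i f)) s := by
  induction f using MvPolynomial.induction_on with
  | C r =>
    simp only [eval_C, pderiv_C, map_zero, mul_zero, Finset.sum_const_zero]
    exact hasDerivAt_const _ _
  | add p q hp hq =>
    simp only [map_add, mul_add, Finset.sum_add_distrib]
    exact hp.add hq
  | mul_X p i hp =>
    have h1 : HasDerivAt (fun s : ℝ => (x + s • u) i) (u i) s := by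
      have : (fun s : ℝ => (x + s • u) i) = fun s => x i + s * u i := by
        funext s
        simp
      rw [this]
      simpa using ((hasDerivAt_id s).mul_const (u i)).const_add (x i)
    have h2 := hp.mul h1
    simp only [map_mul, eval_X]
    refine HasDerivAt.congr_deriv h2 ?_
    simp only [Derivation.leibniz, smul_eq_mul, map_add, map_mul, eval_X, pderiv_X, mul_add,
      Finset.sum_add_distrib]
    rw [add_comm]
    congr 1
    · rw [Finset.sum_eq_single i]
      · simp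
        ring
      · intro j _ hj
        rw [Pi.single_eq_of_ne (Ne.symm hj) 1]
        simp
      · simp
    · rw [Finset.sum_mul]
      exact Finset.sum_congr rfl fun j _ => by ring

theorem euler_eval (hf : f.IsHomogeneous m) (v : Fin 3 → ℝ) :
    ∑ i, v i * eval v (pderiv i f) = m * eval v f := by
  have h := congrArg (eval v) hf.sum_X_mul_pderiv
  simpa [nsmul_eq_mul] using h

/-- Near a nonsingular zero the two signs are taken on two preconnected sets. -/
theorem exists_two_sided (hf : f.IsHomogeneous m) (hm : Even m) {v : Fin 3 → ℝ} (hv : v ≠ 0)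
    (h0 : eval v f = 0) (hns : ∃ i, eval v (pderiv i f) ≠ 0) :
    ∃ N : Set RP2, IsOpen N ∧ (Projectivization.mk ℝ v hv : RP2) ∈ N ∧
      IsPreconnected (N ∩ {p : RP2 | 0 < eval p.rep f}) ∧
      IsPreconnected (N ∩ {p : RP2 | eval p.rep f < 0}) := by
  set u : Fin 3 → ℝ := fun i => eval v (pderiv i f) with hu
  have hvu : v 0 * u 0 + v 1 * u 1 + v 2 * u 2 = 0 := by
    have := euler_eval hf v
    rw [h0, mul_zero, Fin.sum_univ_three] at this
    exact this
  set w : Fin 3 → ℝ := ![v 1 * u 2 - v 2 * u 1, v 2 * u 0 - v 0 * u 2, v 0 * u 1 - v 1 * u 0]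
    with hw
  have hV : 0 < v 0 ^ 2 + v 1 ^ 2 + v 2 ^ 2 := by
    have := sumsq_pos hv
    rwa [Fin.sum_univ_three] at this
  have hune : u ≠ 0 := by
    obtain ⟨i, hi⟩ := hns
    exact fun h => hi (congrFun h i)
  have hU : 0 < u 0 ^ 2 + u 1 ^ 2 + u 2 ^ 2 := by
    have := sumsq_pos hune
    rwa [Fin.sum_univ_three] at this
  have hdet : (Matrix.of ![v, u, w]).det ≠ 0 := by
    have h1 : (Matrix.of ![v, u, w]).det = (v 0 ^ 2 + v 1 ^ 2 + v 2 ^ 2) *
        (u 0 ^ 2 + u 1 ^ 2 + u 2 ^ 2) - (v 0 * u 0 + v 1 * u 1 + v 2 * u 2) ^ 2 := by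
      rw [Matrix.det_fin_three]
      simp [hw]
      ring
    rw [h1, hvu]
    have := mul_pos hV hU
    simpa using this.ne'
  set h : ℝ → ℝ → ℝ := fun s t => eval ((1 : ℝ) • v + s • u + t • w) f with hh
  set h' : ℝ → ℝ → ℝ := fun s t =>
    ∑ i, u i * eval ((1 : ℝ) • v + s • u + t • w) (pderiv i f) with hh'
  have hd : ∀ s t, HasDerivAt (fun s => h s t) (h' s t) s := by
    intro s t
    have h1 := hasDerivAt_eval_line f ((1 : ℝ) • v + t • w) u s
    have h2 : ∀ s : ℝ, (1 : ℝ) • v + t • w + s • u = (1 : ℝ) • v + s • u + t • w := by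
      intro s
      abel
    simp only [h2] at h1
    exact h1
  have hlin : Continuous fun p : ℝ × ℝ => (1 : ℝ) • v + p.1 • u + p.2 • w := by fun_prop
  have hc : Continuous fun p : ℝ × ℝ => h p.1 p.2 := (MvPolynomial.continuous_eval f).comp hlin
  have hc' : Continuous fun p : ℝ × ℝ => h' p.1 p.2 :=
    continuous_finsetSum _ fun i _ =>
      continuous_const.mul ((MvPolynomial.continuous_eval (pderiv i f)).comp hlin)
  have h00 : h 0 0 = 0 := by
    simp only [hh, zero_smul, add_zero, one_smul]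
    exact h0
  have hpos : 0 < h' 0 0 := by
    simp only [hh', zero_smul, add_zero, one_smul]
    rw [Fin.sum_univ_three]
    have : u 0 * eval v (pderiv 0 f) + u 1 * eval v (pderiv 1 f) + u 2 * eval v (pderiv 2 f) =
        u 0 ^ 2 + u 1 ^ 2 + u 2 ^ 2 := by
      simp only [hu]
      ring
    rw [this]
    exact hU
  obtain ⟨ε, hε, δ, hδ, hp, hn⟩ := exists_sign_box hd hc hc' h00 hpos
  refine ⟨cht hdet '' (Ioo (-ε) ε ×ˢ Ioo (-δ) δ), isOpen_cht_image hdet, ?_, ?_, ?_⟩
  · refine ⟨(0, 0), ⟨⟨by simpa using hε, hε⟩, ⟨by simpa using hδ, hδ⟩⟩, ?_⟩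
    refine (Projectivization.mk_eq_mk_iff' ℝ _ _ _ _).2 ⟨1, ?_⟩
    simp
  · have e : cht hdet '' (Ioo (-ε) ε ×ˢ Ioo (-δ) δ) ∩ {p : RP2 | 0 < eval p.rep f} =
        cht hdet '' {p : ℝ × ℝ | p.1 ∈ Ioo (-ε) ε ∧ p.2 ∈ Ioo (-δ) δ ∧ 0 < h p.1 p.2} := by
      ext q
      constructor
      · rintro ⟨⟨p, ⟨h1, h2⟩, rfl⟩, h3⟩
        exact ⟨p, ⟨h1, h2, (rep_pos_iff hf hm _ _).1 h3⟩, rfl⟩
      · rintro ⟨p, ⟨h1, h2, h3⟩, rfl⟩
        exact ⟨⟨p, ⟨h1, h2⟩, rfl⟩, (rep_pos_iff hf hm _ _).2 h3⟩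
    rw [e]
    exact hp.image _ (continuous_cht hdet).continuousOn
  · have e : cht hdet '' (Ioo (-ε) ε ×ˢ Ioo (-δ) δ) ∩ {p : RP2 | eval p.rep f < 0} =
        cht hdet '' {p : ℝ × ℝ | p.1 ∈ Ioo (-ε) ε ∧ p.2 ∈ Ioo (-δ) δ ∧ h p.1 p.2 < 0} := by
      ext q
      constructor
      · rintro ⟨⟨p, ⟨h1, h2⟩, rfl⟩, h3⟩
        exact ⟨p, ⟨h1, h2, (rep_neg_iff hf hm _ _).1 h3⟩, rfl⟩
      · rintro ⟨p, ⟨h1, h2, h3⟩, rfl⟩
        exact ⟨⟨p, ⟨h1, h2⟩, rfl⟩, (rep_neg_iff hf hm _ _).2 h3⟩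
    rw [e]
    exact hn.image _ (continuous_cht hdet).continuousOn

/-- The sign of a form of even degree on the regions. -/
theorem sign_regions (hf : f.IsHomogeneous m) (hm : Even m)
    (hns : ∀ v : Fin 3 → ℝ, v ≠ 0 → eval v f = 0 → ∃ i, eval v (pderiv i f) ≠ 0)
    {K0 K1 : Set RP2} (c0 : IsClosed K0) (c1 : IsClosed K1) (sub : K1 ⊆ interior K0)
    (r0 : K0 ⊆ closure (interior K0)) (r1 : K1 ⊆ closure (interior K1))
    (hX : ∀ p : RP2, eval p.rep f = 0 ↔ p ∈ frontier K0 ∨ p ∈ frontier K1)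
    {P : RP2} (hP : P ∉ K0) (hPpos : 0 < eval P.rep f) :
    (∀ p : RP2, p ∉ K0 → 0 < eval p.rep f) ∧
    (∀ p : RP2, p ∈ interior K0 → p ∉ K1 → eval p.rep f < 0) ∧
    (∀ p : RP2, p ∈ interior K1 → 0 < eval p.rep f) := by
  set Np : Set RP2 := {p | 0 < eval p.rep f} with hNp
  set Nn : Set RP2 := {p | eval p.rep f < 0} with hNn
  set Op : Set RP2 := K0ᶜ ∪ interior K1 with hOp
  set On : Set RP2 := interior K0 ∩ K1ᶜ with hOn
  have oNp : IsOpen Np := isOpen_pos hf hm
  have oNn : IsOpen Nn := isOpen_neg hf hm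
  have oOp : IsOpen Op := c0.isOpen_compl.union isOpen_interior
  have oOn : IsOpen On := isOpen_interior.inter c1.isOpen_compl
  have dO : Disjoint Op On := by
    rw [Set.disjoint_left]
    rintro p (h | h) ⟨h1, h2⟩
    · exact h (interior_subset h1)
    · exact h2 (interior_subset h)
  have dN : Disjoint Np Nn := by
    rw [Set.disjoint_left]
    intro p h h'
    have h1 : 0 < eval p.rep f := h
    have h2 : eval p.rep f < 0 := h'
    linarith
  set X : Set RP2 := frontier K0 ∪ frontier K1 with hXdef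
  have hXc : IsClosed X := isClosed_frontier.union isClosed_frontier
  have hXi : interior X = ∅ := by
    rw [hXdef, interior_union_isClosed_of_interior_empty isClosed_frontier (interior_frontier c1)]
    exact interior_frontier c0
  have hN : ∀ p, p ∉ X → p ∈ Np ∨ p ∈ Nn := by
    intro p hp
    have h1 : eval p.rep f ≠ 0 := fun h => hp ((hX p).1 h)
    rcases lt_or_gt_of_ne h1 with h | h
    · exact Or.inr h
    · exact Or.inl h
  have hO : ∀ p, p ∉ X → p ∈ Op ∨ p ∈ On := by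
    intro p hp
    by_cases h0 : p ∈ K0
    · have h1 : p ∈ interior K0 := by
        by_contra h
        exact hp (Or.inl ⟨subset_closure h0, h⟩)
      by_cases h2 : p ∈ K1
      · left
        right
        by_contra h
        exact hp (Or.inr ⟨subset_closure h2, h⟩)
      · exact Or.inr ⟨h1, h2⟩
    · exact Or.inl (Or.inl h0)
  have hNpX : ∀ p ∈ Np, p ∉ X := by
    intro p hp h
    have h1 := (hX p).2 h
    have h2 : 0 < eval p.rep f := hp
    exact h2.ne' h1
  have hNnX : ∀ p ∈ Nn, p ∉ X := by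
    intro p hp h
    have h1 := (hX p).2 h
    have h2 : eval p.rep f < 0 := hp
    exact h2.ne h1
  set A : Set RP2 := (Op ∩ Np) ∪ (On ∩ Nn) with hA
  set B : Set RP2 := (Op ∩ Nn) ∪ (On ∩ Np) with hB
  have oA : IsOpen A := (oOp.inter oNp).union (oOn.inter oNn)
  have oB : IsOpen B := (oOp.inter oNn).union (oOn.inter oNp)
  have hAB : Disjoint A B := by
    rw [Set.disjoint_left] at dO dN ⊢
    rintro p (⟨h1, h2⟩ | ⟨h1, h2⟩) (⟨h3, h4⟩ | ⟨h3, h4⟩)
    · exact dN h2 h4
    · exact dO h1 h3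
    · exact dO h3 h1
    · exact dN h4 h2
  have hABX : ∀ p, p ∉ X → p ∈ A ∨ p ∈ B := by
    intro p hp
    rcases hN p hp with h | h <;> rcases hO p hp with h' | h'
    · exact Or.inl (Or.inl ⟨h', h⟩)
    · exact Or.inr (Or.inr ⟨h', h⟩)
    · exact Or.inr (Or.inl ⟨h', h⟩)
    · exact Or.inl (Or.inr ⟨h', h⟩)
  -- the local analysis
  have hloc : ∀ q ∈ X, ∃ N : Set RP2, IsOpen N ∧ q ∈ N ∧
      ((∀ p ∈ N, p ∉ X → p ∈ A) ∨ (∀ p ∈ N, p ∉ X → p ∈ B)) := by
    intro q hq
    obtain ⟨N, oN, hqN, hpp, hpn⟩ : ∃ N : Set RP2, IsOpen N ∧ q ∈ N ∧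
        IsPreconnected (N ∩ Np) ∧ IsPreconnected (N ∩ Nn) := by
      have h0 := (hX q).2 hq
      induction q using Projectivization.ind with
      | h v hv =>
        have h1 := (eval_rep_eq_zero_iff hf v hv).1 h0
        exact exists_two_sided hf hm hv h1 (hns v hv h1)
    have cover : ∀ S : Set RP2, (∀ p ∈ S, p ∉ X) → IsPreconnected S → S ⊆ Op ∨ S ⊆ On := by
      intro S hS hpc
      refine hpc.subset_or_subset oOp oOn dO fun p hp => ?_
      exact hO p (hS p hp)
    have e1 := cover (N ∩ Np) (fun p hp => hNpX p hp.2) hpp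
    have e2 := cover (N ∩ Nn) (fun p hp => hNnX p hp.2) hpn
    refine ⟨N, oN, hqN, ?_⟩
    -- not both in `On`, not both in `Op`
    have key1 : ¬ (∀ p ∈ N, p ∉ X → p ∈ On) := by
      intro hall
      rcases hq with hq | hq
      · have hsub : N ⊆ K0 := by
          intro p hp
          by_cases hpX : p ∈ X
          · rcases hpX with h | h
            · exact c0.frontier_subset h
            · exact interior_subset (sub (c1.frontier_subset h))
          · exact interior_subset (hall p hp hpX).1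
        exact hq.2 (mem_interior.2 ⟨N, hsub, oN, hqN⟩)
      · have h1 : q ∈ closure (interior K1) := r1 (c1.frontier_subset hq)
        obtain ⟨p, hpN, hpi⟩ := mem_closure_iff.1 h1 N oN hqN
        have hpX : p ∉ X := by
          rintro (h | h)
          · exact h.2 (sub (interior_subset hpi))
          · exact h.2 hpi
        exact (hall p hpN hpX).2 (interior_subset hpi)
    have key2 : ¬ (∀ p ∈ N, p ∉ X → p ∈ Op) := by
      intro hall
      rcases hq with hq | hq
      · have hqK1 : q ∉ K1 := fun h => hq.2 (sub h)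
        have h1 : q ∈ closure (interior K0) := r0 (c0.frontier_subset hq)
        obtain ⟨p, ⟨hpN, hpK1⟩, hpi⟩ := mem_closure_iff.1 h1 (N ∩ K1ᶜ) (oN.inter c1.isOpen_compl)
          ⟨hqN, hqK1⟩
        have hpX : p ∉ X := by
          rintro (h | h)
          · exact h.2 hpi
          · exact hpK1 (c1.frontier_subset h)
        exact Set.disjoint_left.1 dO (hall p hpN hpX) ⟨hpi, hpK1⟩
      · have hqi : q ∈ interior K0 := sub (c1.frontier_subset hq)
        have h1 : q ∈ closure K1ᶜ := by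
          rw [closure_compl]
          exact hq.2
        obtain ⟨p, ⟨hpN, hpi⟩, hpK1⟩ := mem_closure_iff.1 h1 (N ∩ interior K0)
          (oN.inter isOpen_interior) ⟨hqN, hqi⟩
        have hpX : p ∉ X := by
          rintro (h | h)
          · exact h.2 hpi
          · exact hpK1 (c1.frontier_subset h)
        exact Set.disjoint_left.1 dO (hall p hpN hpX) ⟨hpi, hpK1⟩
    rcases e1 with e1 | e1 <;> rcases e2 with e2 | e2
    · exfalso
      apply key2
      intro p hp hpX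
      rcases hN p hpX with h | h
      · exact e1 ⟨hp, h⟩
      · exact e2 ⟨hp, h⟩
    · left
      intro p hp hpX
      rcases hN p hpX with h | h
      · exact Or.inl ⟨e1 ⟨hp, h⟩, h⟩
      · exact Or.inr ⟨e2 ⟨hp, h⟩, h⟩
    · right
      intro p hp hpX
      rcases hN p hpX with h | h
      · exact Or.inr ⟨e1 ⟨hp, h⟩, h⟩
      · exact Or.inl ⟨e2 ⟨hp, h⟩, h⟩
    · exfalso
      apply key1
      intro p hp hpX
      rcases hN p hpX with h | h
      · exact e1 ⟨hp, h⟩
      · exact e2 ⟨hp, h⟩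
  have hAX : ∀ p ∈ A, p ∉ X := by
    rintro p (⟨_, h⟩ | ⟨_, h⟩)
    · exact hNpX p h
    · exact hNnX p h
  have hBX : ∀ p ∈ B, p ∉ X := by
    rintro p (⟨_, h⟩ | ⟨_, h⟩)
    · exact hNnX p h
    · exact hNpX p h
  -- the closures are disjoint and cover
  have hcl : ∀ q, q ∈ closure A → q ∈ closure B → False := by
    intro q hqA hqB
    by_cases hqX : q ∈ X
    · obtain ⟨N, oN, hqN, h | h⟩ := hloc q hqX
      · obtain ⟨p, hpN, hpB⟩ := mem_closure_iff.1 hqB N oN hqN
        exact Set.disjoint_left.1 hAB (h p hpN (hBX p hpB)) hpB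
      · obtain ⟨p, hpN, hpA⟩ := mem_closure_iff.1 hqA N oN hqN
        exact Set.disjoint_left.1 hAB hpA (h p hpN (hAX p hpA))
    · rcases hABX q hqX with h | h
      · obtain ⟨p, hpA, hpB⟩ := mem_closure_iff.1 hqB A oA h
        exact Set.disjoint_left.1 hAB hpA hpB
      · obtain ⟨p, hpB, hpA⟩ := mem_closure_iff.1 hqA B oB h
        exact Set.disjoint_left.1 hAB hpA hpB
  have hcov : (univ : Set RP2) ⊆ closure A ∪ closure B := by
    intro q _
    rw [← closure_union]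
    have h1 : closure Xᶜ = univ := by rw [closure_compl, hXi, compl_empty]
    have h2 : q ∈ closure Xᶜ := by rw [h1]; exact mem_univ q
    exact closure_mono (fun p hp => hABX p hp) h2
  have hBempty : B = ∅ := by
    by_contra hne
    obtain ⟨b, hb⟩ := nonempty_iff_ne_empty.2 hne
    have h1 := isPreconnected_closed_iff.1 (isPreconnected_univ (α := RP2)) (closure A) (closure B)
      isClosed_closure isClosed_closure hcov
      ⟨P, mem_univ _, subset_closure (Or.inl ⟨Or.inl hP, hPpos⟩)⟩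
      ⟨b, mem_univ _, subset_closure hb⟩
    obtain ⟨q, -, hqA, hqB⟩ := h1
    exact hcl q hqA hqB
  have hall : ∀ p, p ∉ X → p ∈ A := by
    intro p hp
    rcases hABX p hp with h | h
    · exact h
    · rw [hBempty] at h
      exact absurd h (notMem_empty p)
  refine ⟨fun p hp => ?_, fun p hp hp1 => ?_, fun p hp => ?_⟩
  · have hpX : p ∉ X := by
      rintro (h | h)
      · exact hp (c0.frontier_subset h)
      · exact hp (interior_subset (sub (c1.frontier_subset h)))
    rcases hall p hpX with h | h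
    · exact h.2
    · exact absurd (interior_subset h.1.1) hp
  · have hpX : p ∉ X := by
      rintro (h | h)
      · exact h.2 hp
      · exact hp1 (c1.frontier_subset h)
    rcases hall p hpX with h | h
    · rcases h.1 with h' | h'
      · exact absurd (interior_subset hp) h'
      · exact absurd (interior_subset h') hp1
    · exact h.2
  · have hpX : p ∉ X := by
      rintro (h | h)
      · exact h.2 (sub (interior_subset hp))
      · exact h.2 hp
    rcases hall p hpX with h | h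
    · exact h.2
    · exact absurd (interior_subset hp) h.1.2

end sign

end Pool.Agent.Rohlin
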