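import Pool.Agent.Rohlin.LinChange
import Pool.Agent.Rohlin.Sign
import Pool.Agent.Rohlin.DiscTop

/-!
# Reduction to an octic in general position (helper64)

A nonsingular real octic with the scheme `15 ⊔ 1⟨4⟩` is, after a real linear change of coordinates
and multiplication with a constant, an octic `f` which is `Normal` and has the regions `K0`, `K1`.
-/

set_option autoImplicit false

namespace Pool.Agent.Rohlin

open Set Topology Matrix

/-! ### discs -/

theorem IsDisc.nonempty {Δ : Set RP2} (h : IsDisc Δ) : Δ.Nonempty := by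
  obtain ⟨δ, -, -, hr, -⟩ := h
  rw [← hr]
  exact ⟨δ ⟨0, by simp⟩, mem_range_self _⟩

theorem IsDisc.subset_closure_interior {Δ : Set RP2} (h : IsDisc Δ) : Δ ⊆ closure (interior Δ) := by
  obtain ⟨δ, hc, -, hr, hint⟩ := h
  rw [hint, ← hr]
  rintro _ ⟨z, rfl⟩
  have h1 : z ∈ closure {z : Metric.closedBall (0 : ℂ) 1 | ‖(z : ℂ)‖ < 1} := by
    rw [Metric.mem_closure_iff]
    intro ε hε
    have hz : ‖(z : ℂ)‖ ≤ 1 := mem_closedBall_zero_iff.1 z.2
    set r : ℝ := max 0 (1 - ε / 2) with hr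
    have hr0 : 0 ≤ r := le_max_left _ _
    have hr1 : r < 1 := max_lt one_pos (by linarith)
    have hr2 : 1 - r ≤ ε / 2 := by linarith [le_max_right 0 (1 - ε / 2)]
    have hn : ‖(r : ℂ) * (z : ℂ)‖ < 1 := by
      rw [norm_mul, Complex.norm_real, Real.norm_eq_abs, abs_of_nonneg hr0]
      calc r * ‖(z : ℂ)‖ ≤ r * 1 := mul_le_mul_of_nonneg_left hz hr0
        _ < 1 := by linarith
    refine ⟨⟨(r : ℂ) * (z : ℂ), by simpa using hn.le⟩, hn, ?_⟩
    rw [Subtype.dist_eq, dist_eq_norm]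
    have h2 : (z : ℂ) - (r : ℂ) * (z : ℂ) = ((1 - r : ℝ) : ℂ) * (z : ℂ) := by
      push_cast
      ring
    rw [h2, norm_mul, Complex.norm_real, Real.norm_eq_abs, abs_of_pos (by linarith)]
    calc (1 - r) * ‖(z : ℂ)‖ ≤ (1 - r) * 1 := mul_le_mul_of_nonneg_left hz (by linarith)
      _ < ε := by linarith
  exact image_closure_subset_closure_image hc ⟨z, h1, rfl⟩

/-- the frontier of a finite disjoint union of closed sets -/
theorem frontier_iUnion_of_disjoint {Y : Type*} [TopologicalSpace Y] {ι : Type*} [Finite ι]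
    {Δ : ι → Set Y} (hc : ∀ i, IsClosed (Δ i)) (hd : ∀ i j, i ≠ j → Disjoint (Δ i) (Δ j)) :
    frontier (⋃ i, Δ i) = ⋃ i, frontier (Δ i) := by
  have hcl : IsClosed (⋃ i, Δ i) := isClosed_iUnion_of_finite hc
  ext p
  constructor
  · intro hp
    obtain ⟨i, hi⟩ := mem_iUnion.1 (hcl.frontier_subset hp)
    refine mem_iUnion.2 ⟨i, subset_closure hi, fun h => hp.2 ?_⟩
    exact interior_mono (subset_iUnion Δ i) h
  · intro hp
    obtain ⟨i, hi⟩ := mem_iUnion.1 hp
    have hpi : p ∈ Δ i := (hc i).frontier_subset hi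
    refine ⟨subset_closure (mem_iUnion.2 ⟨i, hpi⟩), fun h => hi.2 ?_⟩
    -- a neighbourhood which misses the other sets
    have h1 : IsClosed (⋃ j : {j // j ≠ i}, Δ j.1) := isClosed_iUnion_of_finite fun j => hc j.1
    have h2 : p ∉ ⋃ j : {j // j ≠ i}, Δ j.1 := by
      intro h'
      obtain ⟨j, hj⟩ := mem_iUnion.1 h'
      exact Set.disjoint_left.1 (hd i j.1 j.2.symm) hpi hj
    refine mem_interior.2 ⟨interior (⋃ i, Δ i) ∩ (⋃ j : {j // j ≠ i}, Δ j.1)ᶜ, ?_,
      isOpen_interior.inter h1.isOpen_compl, h, h2⟩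
    rintro q ⟨hq1, hq2⟩
    obtain ⟨j, hj⟩ := mem_iUnion.1 (interior_subset hq1)
    by_cases hji : j = i
    · rw [← hji]
      exact hj
    · exact absurd (mem_iUnion.2 ⟨⟨j, hji⟩, hj⟩) hq2

/-- the outer ovals -/
def oo (i : Fin 16) : Fin 20 := ⟨i.val + 4, by omega⟩

/-- the inner ovals -/
def oi (i : Fin 4) : Fin 20 := ⟨i.val, by omega⟩

/-- what is needed of the discs of the scheme -/
structure Discs (Δ : Fin 20 → Set RP2) : Prop where
  disc : ∀ i, IsDisc (Δ i)
  inner : ∀ i : Fin 4, Δ (oi i) ⊆ interior (Δ (oo 0))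
  disj0 : ∀ i j : Fin 16, i ≠ j → Disjoint (Δ (oo i)) (Δ (oo j))
  disj1 : ∀ i j : Fin 4, i ≠ j → Disjoint (Δ (oi i)) (Δ (oi j))

theorem Discs.preimage {Δ : Fin 20 → Set RP2} (h : Discs Δ) (e : RP2 ≃ₜ RP2) :
    Discs fun i => e ⁻¹' Δ i where
  disc i := (h.disc i).preimage e
  inner i := by
    rw [← e.preimage_interior]
    exact preimage_mono (h.inner i)
  disj0 i j hij := (h.disj0 i j hij).preimage e
  disj1 i j hij := (h.disj1 i j hij).preimage e

theorem exists_discs {X : Set RP2} (h : HasScheme 8 X S15) :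
    ∃ Δ : Fin 20 → Set RP2, Discs Δ ∧ X = ⋃ i, frontier (Δ i) := by
  obtain ⟨Δ, J, h1, h2, h3, -, -, h6, -, h8⟩ := h
  have hJ : J = ∅ := by
    rcases h6 with h | h
    · exact h.2
    · exact absurd h.1 (by decide)
  refine ⟨Δ, ⟨h1, fun i => ?_, fun i j hij => ?_, fun i j hij => ?_⟩, ?_⟩
  · refine h2 (oi i) (oo 0) ?_ ?_
    · intro h
      have := congrArg Fin.val h
      simp only [oi, oo] at this
      have h4 := i.2
      simp at this
      omega
    · right
      exact ⟨i.2, rfl⟩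
  · refine h3 (oo i) (oo j) ?_ ?_
    · rintro (h | ⟨h, -⟩)
      · apply hij
        have := congrArg Fin.val h
        simp only [oo] at this
        exact Fin.ext (by omega)
      · simp only [oo] at h
        omega
    · rintro (h | ⟨h, -⟩)
      · apply hij
        have := congrArg Fin.val h
        simp only [oo] at this
        exact Fin.ext (by omega)
      · simp only [oo] at h
        omega
  · refine h3 (oi i) (oi j) ?_ ?_
    · rintro (h | ⟨-, h⟩)
      · apply hij
        have := congrArg Fin.val h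
        simp only [oi] at this
        exact Fin.ext this
      · simp only [oi] at h
        omega
    · rintro (h | ⟨-, h⟩)
      · apply hij
        have := congrArg Fin.val h
        simp only [oi] at this
        exact Fin.ext this.symm
      · simp only [oi] at h
        omega
  · rw [h8, hJ, empty_union]
    rfl

/-- the union of the outer discs -/
def KK0 (Δ : Fin 20 → Set RP2) : Set RP2 := ⋃ i, Δ (oo i)

/-- the union of the inner discs -/
def KK1 (Δ : Fin 20 → Set RP2) : Set RP2 := ⋃ i, Δ (oi i)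

theorem frontier_KK {Δ : Fin 20 → Set RP2} (h : Discs Δ) :
    ⋃ i, frontier (Δ i) = frontier (KK0 Δ) ∪ frontier (KK1 Δ) := by
  rw [KK0, KK1, frontier_iUnion_of_disjoint (fun i => (h.disc _).isClosed) h.disj0,
    frontier_iUnion_of_disjoint (fun i => (h.disc _).isClosed) h.disj1]
  ext p
  simp only [mem_iUnion, mem_union]
  constructor
  · rintro ⟨i, hi⟩
    by_cases h4 : i.val < 4
    · exact Or.inr ⟨⟨i.val, h4⟩, hi⟩
    · refine Or.inl ⟨⟨i.val - 4, by omega⟩, ?_⟩
      have : oo ⟨i.val - 4, by omega⟩ = i := Fin.ext (by simp only [oo]; omega)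
      rw [this]
      exact hi
  · rintro (⟨i, hi⟩ | ⟨i, hi⟩)
    · exact ⟨_, hi⟩
    · exact ⟨_, hi⟩

theorem exists_notMem_KK0 {Δ : Fin 20 → Set RP2} (h : Discs Δ) : ∃ p, p ∉ KK0 Δ := by
  by_contra hcon
  push Not at hcon
  have h1 := isPreconnected_closed_iff.1 (isPreconnected_univ (α := RP2)) (Δ (oo 0))
    (⋃ j : {j : Fin 16 // j ≠ 0}, Δ (oo j.1)) (h.disc _).isClosed
    (isClosed_iUnion_of_finite fun j => (h.disc _).isClosed) (fun p _ => by
      obtain ⟨i, hi⟩ := mem_iUnion.1 (hcon p)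
      by_cases h0 : i = 0
      · left
        rw [← h0]
        exact hi
      · exact Or.inr (mem_iUnion.2 ⟨⟨i, h0⟩, hi⟩)) (by
      obtain ⟨p, hp⟩ := (h.disc (oo 0)).nonempty
      exact ⟨p, mem_univ _, hp⟩) (by
      obtain ⟨p, hp⟩ := (h.disc (oo 1)).nonempty
      exact ⟨p, mem_univ _, mem_iUnion.2 ⟨⟨1, by decide⟩, hp⟩⟩)
  obtain ⟨p, -, hp1, hp2⟩ := h1
  obtain ⟨j, hj⟩ := mem_iUnion.1 hp2
  exact Set.disjoint_left.1 (h.disj0 0 j.1 j.2.symm) hp1 hj

/-- evaluation at a real vector -/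
theorem aeval_ofReal_mv (v : Fin 3 → ℝ) (p : MvPolynomial (Fin 3) ℝ) :
    MvPolynomial.aeval (fun i => (v i : ℂ)) p = ((MvPolynomial.eval v p : ℝ) : ℂ) :=
  MvPolynomial.aeval_algebraMap_apply (B := ℂ) v p

theorem regions_of_discs {f : MvPolynomial (Fin 3) ℝ} (nf : Normal f)
    (h1 : MvPolynomial.eval ![0, 0, 1] f = 1) {Δ : Fin 20 → Set RP2} (h : Discs Δ)
    (hX : {p : RP2 | MvPolynomial.eval p.rep f = 0} = ⋃ i, frontier (Δ i))
    (hc : centre ∉ KK0 Δ) : Regions f (KK0 Δ) (KK1 Δ) := by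
  have c0 : IsClosed (KK0 Δ) := isClosed_iUnion_of_finite fun i => (h.disc _).isClosed
  have c1 : IsClosed (KK1 Δ) := isClosed_iUnion_of_finite fun i => (h.disc _).isClosed
  have sub : KK1 Δ ⊆ interior (KK0 Δ) :=
    iUnion_subset fun i => (h.inner i).trans (interior_mono (subset_iUnion (fun i => Δ (oo i)) 0))
  have r0 : KK0 Δ ⊆ closure (interior (KK0 Δ)) := iUnion_subset fun i =>
    (h.disc _).subset_closure_interior.trans
      (closure_mono (interior_mono (subset_iUnion (fun i => Δ (oo i)) i)))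
  have r1 : KK1 Δ ⊆ closure (interior (KK1 Δ)) := iUnion_subset fun i =>
    (h.disc _).subset_closure_interior.trans
      (closure_mono (interior_mono (subset_iUnion (fun i => Δ (oi i)) i)))
  have hX' : ∀ p : RP2, MvPolynomial.eval p.rep f = 0 ↔
      p ∈ frontier (KK0 Δ) ∨ p ∈ frontier (KK1 Δ) := by
    intro p
    have : p ∈ {p : RP2 | MvPolynomial.eval p.rep f = 0} ↔
        p ∈ frontier (KK0 Δ) ∪ frontier (KK1 Δ) := by rw [hX, frontier_KK h]
    exact this
  have hns : ∀ v : Fin 3 → ℝ, v ≠ 0 → MvPolynomial.eval v f = 0 →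
      ∃ i, MvPolynomial.eval v (MvPolynomial.pderiv i f) ≠ 0 := by
    intro v hv h0
    obtain ⟨i, hi⟩ := nf.nonsing (fun i => (v i : ℂ)) (ofReal_vec_ne hv) (by
      rw [aeval_ofReal_mv, h0, Complex.ofReal_zero])
    refine ⟨i, fun h => hi ?_⟩
    rw [aeval_ofReal_mv, h, Complex.ofReal_zero]
  have hm : Even 8 := by decide
  have hcp : 0 < MvPolynomial.eval centre.rep f := by
    rw [centre, rep_pos_iff nf.hom hm, h1]
    exact one_pos
  obtain ⟨s1, s2, s3⟩ := sign_regions nf.hom hm hns c0 c1 sub r0 r1 hX' hc hcp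
  refine ⟨⟨fun i => Δ (oo i), fun i => h.disc _, h.disj0, rfl⟩,
    ⟨fun i => Δ (oi i), fun i => h.disc _, h.disj1, rfl⟩, c0, c1, sub, hc, ?_, ?_, ?_, ?_⟩
  · intro θ η hp
    rw [gr_eval]
    exact (rep_pos_iff nf.hom hm _ (vec_ne θ η)).1 (s1 _ hp)
  · intro θ η hp hp1
    rw [gr_eval]
    exact (rep_neg_iff nf.hom hm _ (vec_ne θ η)).1 (s2 _ hp hp1)
  · intro θ η hp
    rw [gr_eval]
    exact (rep_pos_iff nf.hom hm _ (vec_ne θ η)).1 (s3 _ hp)
  · intro θ η hp
    exact (eval_pt_rep_eq_zero_iff nf.hom θ η).1 ((hX' _).2 hp)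

/-- REDUCE -/
theorem reduce (A : RealCurve 8) (hA : HasScheme 8 A.real S15) :
    ∃ (f : MvPolynomial (Fin 3) ℝ) (K0 K1 : Set RP2), Normal f ∧ Regions f K0 K1 ∧
      (fam f 1).Separable ∧
      (IsPreconnected (A.complex \ realPoints) → IsPreconnected (cpl f)) := by
  obtain ⟨Δ, hΔ, hX⟩ := exists_discs hA
  have c0 : IsClosed (KK0 Δ) := isClosed_iUnion_of_finite fun i => (hΔ.disc _).isClosed
  -- the possible centres
  set U : Set (Fin 3 → ℝ) := Subtype.val '' {v : {v : Fin 3 → ℝ // v ≠ 0} |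
    (Projectivization.mk ℝ v.1 v.2 : RP2) ∉ KK0 Δ} with hUdef
  have hU : IsOpen U := by
    apply (isOpen_ne (x := (0 : Fin 3 → ℝ))).isOpenMap_subtype_val
    exact c0.isOpen_compl.preimage continuous_mkRP2
  have hne : U.Nonempty := by
    obtain ⟨p, hp⟩ := exists_notMem_KK0 hΔ
    induction p using Projectivization.ind with
    | h v hv => exact ⟨v, ⟨⟨v, hv⟩, hp, rfl⟩⟩
  obtain ⟨M, c, f, hM, hMU, hc, hc1, nf, hsep, hf, hfc⟩ := exists_normal A.hom A.nonsing hU hne
  set e := linR M hM with he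
  have hMe : M *ᵥ ![0, 0, 1] = fun i => M i 2 := by
    funext i
    simp [Matrix.mulVec, dotProduct, Fin.sum_univ_three]
  have h1 : MvPolynomial.eval ![0, 0, 1] f = 1 := by
    rw [hf, hMe, hc1]
  have hX' : {p : RP2 | MvPolynomial.eval p.rep f = 0} = ⋃ i, frontier (e ⁻¹' Δ i) := by
    have h2 : {p : RP2 | MvPolynomial.eval p.rep f = 0} = e ⁻¹' A.real := by
      ext p
      induction p using Projectivization.ind with
      | h v hv =>
        rw [mem_preimage, he, linR_mk]
        change MvPolynomial.eval (Projectivization.mk ℝ v hv).rep f = 0 ↔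
          MvPolynomial.eval (Projectivization.mk ℝ (M *ᵥ v) _).rep A.F = 0
        rw [eval_rep_eq_zero_iff nf.hom, eval_rep_eq_zero_iff A.hom, hf]
        constructor
        · intro h
          exact (mul_eq_zero.1 h).resolve_left hc
        · intro h
          rw [h, mul_zero]
    rw [h2, hX, preimage_iUnion]
    exact iUnion_congr fun i => e.preimage_frontier _
  have hcen : centre ∉ KK0 fun i => e ⁻¹' Δ i := by
    intro h
    obtain ⟨i, hi⟩ := mem_iUnion.1 h
    obtain ⟨⟨v, hv⟩, hvK, hveq⟩ := hMU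
    apply hvK
    refine mem_iUnion.2 ⟨i, ?_⟩
    have h3 : e centre = Projectivization.mk ℝ v hv := by
      rw [he, centre, linR_mk]
      congr 1
      rw [hMe]
      exact hveq.symm
    rw [← h3]
    exact hi
  exact ⟨f, _, _, nf, regions_of_discs nf h1 (hΔ.preimage e) hX' hcen, hsep,
    preconn_cpl A.hom nf.hom M hM hc hfc⟩

end Pool.Agent.Rohlin
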