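import Pool.Agent.Rohlin.Good
import Pool.Agent.Rohlin.RealGauge

/-!
# Both colourings: connectedness of the set of non real points
-/

set_option autoImplicit false

namespace Pool.Agent.Rohlin

open Set Topology Polynomial Filter Complex

/-! ### the quotient map -/

/-- the quotient map -/
noncomputable def mkC (v : {v : Fin 3 → ℂ // v ≠ 0}) : CP2 := Projectivization.mk ℂ v.1 v.2

lemma continuous_mkC : Continuous mkC := continuous_quotient_mk'

lemma isOpenMap_mkC : IsOpenMap mkC := by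
  intro U hU
  have hq : IsQuotientMap mkC := isQuotientMap_quotient_mk'
  rw [← hq.isOpen_preimage]
  have h1 : mkC ⁻¹' (mkC '' U) = ⋃ a : ℂˣ,
      (fun v : {v : Fin 3 → ℂ // v ≠ 0} =>
        (⟨a • v.1, (smul_ne_zero_iff_ne a).2 v.2⟩ : {v : Fin 3 → ℂ // v ≠ 0})) ⁻¹' U := by
    ext v
    simp only [mem_preimage, mem_image, mem_iUnion]
    constructor
    · rintro ⟨u, hu, he⟩
      obtain ⟨a, ha⟩ := (Projectivization.mk_eq_mk_iff ℂ u.1 v.1 u.2 v.2).1 he
      refine ⟨a, ?_⟩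
      convert hu
    · rintro ⟨a, ha⟩
      refine ⟨_, ha, ?_⟩
      exact (Projectivization.mk_eq_mk_iff ℂ _ _ _ _).2 ⟨a, rfl⟩
  rw [h1]
  refine isOpen_iUnion fun a => hU.preimage ?_
  refine Continuous.subtype_mk ?_ _
  exact continuous_subtype_val.const_smul a

/-- real vectors up to a factor -/
def IsRealV (v : Fin 3 → ℂ) : Prop := ∃ (t : ℂ) (r : Fin 3 → ℝ), v = fun i => t * r i

lemma isRealV_smul {v : Fin 3 → ℂ} {t : ℂ} (ht : t ≠ 0) : IsRealV (t • v) ↔ IsRealV v := by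
  constructor
  · rintro ⟨s, r, h⟩
    refine ⟨t⁻¹ * s, r, ?_⟩
    funext i
    have := congrFun h i
    simp only [Pi.smul_apply, smul_eq_mul] at this
    rw [mul_assoc, ← this, inv_mul_cancel_left₀ ht]
  · rintro ⟨s, r, rfl⟩
    exact ⟨t * s, r, by funext i; simp [mul_assoc]⟩

lemma mem_realPoints {v : Fin 3 → ℂ} (hv : v ≠ 0) :
    Projectivization.mk ℂ v hv ∈ realPoints ↔ IsRealV v := by
  constructor
  · rintro ⟨r, hr, he⟩
    obtain ⟨a, ha⟩ := (Projectivization.mk_eq_mk_iff' ℂ _ _ _ _).1 he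
    exact ⟨a, r, by rw [← ha]; rfl⟩
  · rintro ⟨t, r, h⟩
    have ht : t ≠ 0 := by
      rintro rfl
      apply hv
      rw [h]
      funext i
      simp
    have hr : (fun i => (r i : ℂ)) ≠ 0 := by
      intro h0
      apply hv
      rw [h]
      funext i
      have := congrFun h0 i
      simp only [Pi.zero_apply] at this
      rw [this, mul_zero]
      rfl
    refine ⟨r, hr, ?_⟩
    rw [Projectivization.mk_eq_mk_iff']
    exact ⟨t, by rw [h]; rfl⟩

lemma zero_iff_of_mk {f : MvPolynomial (Fin 3) ℝ} {m : ℕ} (hf : f.IsHomogeneous m)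
    {v : Fin 3 → ℂ} (hv : v ≠ 0) :
    MvPolynomial.aeval (Projectivization.mk ℂ v hv).rep f = 0 ↔ MvPolynomial.aeval v f = 0 := by
  obtain ⟨a, ha⟩ := Projectivization.exists_smul_eq_mk_rep ℂ v hv
  rw [← ha]
  have h1 : (a • v : Fin 3 → ℂ) = (a : ℂ) • v := rfl
  rw [h1, aeval_smul_hom hf]
  constructor
  · intro h
    rcases mul_eq_zero.1 h with h2 | h2
    · exact absurd (pow_eq_zero_iff'.1 h2).1 a.ne_zero
    · exact h2
  · intro h
    rw [h, mul_zero]

lemma mem_cpl {f : MvPolynomial (Fin 3) ℝ} {m : ℕ} (hf : f.IsHomogeneous m)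
    {v : Fin 3 → ℂ} (hv : v ≠ 0) :
    Projectivization.mk ℂ v hv ∈ cpl f ↔ MvPolynomial.aeval v f = 0 ∧ ¬ IsRealV v := by
  rw [cpl, Set.mem_sdiff, mem_realPoints, mem_ofPred_eq, zero_iff_of_mk hf]

/-- the conjugate vector -/
noncomputable def cj (v : Fin 3 → ℂ) : Fin 3 → ℂ := fun i => (starRingEnd ℂ) (v i)

lemma cj_cj (v : Fin 3 → ℂ) : cj (cj v) = v := by
  funext i
  simp [cj]

lemma continuous_cj : Continuous cj := by
  unfold cj
  exact continuous_pi fun i => Complex.continuous_conj.comp (continuous_apply i)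

lemma cj_smul (t : ℂ) (v : Fin 3 → ℂ) : cj (t • v) = (starRingEnd ℂ) t • cj v := by
  funext i
  simp [cj]

lemma cj_ne_zero {v : Fin 3 → ℂ} (hv : v ≠ 0) : cj v ≠ 0 := by
  intro h
  apply hv
  rw [← cj_cj v, h]
  funext i
  simp [cj]

lemma aeval_cj {f : MvPolynomial (Fin 3) ℝ} {v : Fin 3 → ℂ} (h : MvPolynomial.aeval v f = 0) :
    MvPolynomial.aeval (cj v) f = 0 := by
  show MvPolynomial.aeval (fun i => (starRingEnd ℂ) (v i)) f = 0
  rw [aeval_conj, h, map_zero]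

lemma isRealV_cj {v : Fin 3 → ℂ} (h : ¬ IsRealV v) : ¬ IsRealV (cj v) := by
  rintro ⟨t, r, hr⟩
  apply h
  refine ⟨(starRingEnd ℂ) t, r, ?_⟩
  rw [← cj_cj v, hr]
  funext i
  simp [cj]

lemma cU_cj (v : Fin 3 → ℂ) : cU (cj v) = (starRingEnd ℂ) (cV v) := cU_conj v

lemma cV_cj (v : Fin 3 → ℂ) : cV (cj v) = (starRingEnd ℂ) (cU v) := cV_conj v

lemma norm_cU_cj (v : Fin 3 → ℂ) : ‖cU (cj v)‖ = ‖cV v‖ := by
  rw [cU_cj, RCLike.norm_conj]

lemma norm_cV_cj (v : Fin 3 → ℂ) : ‖cV (cj v)‖ = ‖cU v‖ := by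
  rw [cV_cj, RCLike.norm_conj]

lemma norm_eq_of_real {v : Fin 3 → ℂ} (h : IsRealV v) : ‖cU v‖ = ‖cV v‖ := by
  obtain ⟨t, r, rfl⟩ := h
  have h1 : cU (fun i => t * (r i : ℂ)) = t * ((r 0 : ℂ) + I * (r 1 : ℂ)) := by
    simp only [cU]
    ring
  have h2 : cV (fun i => t * (r i : ℂ)) = t * (starRingEnd ℂ) ((r 0 : ℂ) + I * (r 1 : ℂ)) := by
    simp only [cV, map_add, map_mul, conj_ofReal, conj_I]
    ring
  rw [h1, h2, norm_mul, norm_mul, RCLike.norm_conj]

/-! ### the circle -/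

lemma comp_fam_circ {f : MvPolynomial (Fin 3) ℝ} {m : ℕ} (hf : f.IsHomogeneous m) (θ : ℝ) :
    (fam f (circ θ)).comp (C (exp (θ * I)) * X) =
      C (exp (θ * I) ^ m) * (gr f θ).map (algebraMap ℝ ℂ) := by
  apply Polynomial.funext
  intro η
  rw [eval_comp, eval_mul, eval_mul, eval_C, eval_C, eval_X, fam_circ hf, eval_map_algebraMap]

lemma deriv_fam_circ {f : MvPolynomial (Fin 3) ℝ} {m : ℕ} (hf : f.IsHomogeneous m) (θ : ℝ)
    (η : ℂ) : exp (θ * I) * (derivative (fam f (circ θ))).eval (exp (θ * I) * η) =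
      exp (θ * I) ^ m * Polynomial.aeval η (derivative (gr f θ)) := by
  have h := congrArg (fun p => (derivative p).eval η) (comp_fam_circ hf θ)
  simp only [derivative_comp, derivative_mul, derivative_C, zero_mul, derivative_X, mul_one,
    zero_add, eval_mul, eval_C, eval_comp, eval_X, derivative_map, eval_map_algebraMap] at h
  exact h

lemma tt_aeval_conj (p : ℝ[X]) (η : ℂ) :
    Polynomial.aeval ((starRingEnd ℂ) η) p = (starRingEnd ℂ) (Polynomial.aeval η p) := by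
  induction p using Polynomial.induction_on' with
  | add p q hp hq => rw [map_add, map_add, map_add, hp, hq]
  | monomial n a => simp [Polynomial.aeval_monomial]

/-- over a real line a multiple root is real -/
lemma simple_of_nonreal {f : MvPolynomial (Fin 3) ℝ} (nf : Normal f) {v : Fin 3 → ℂ} (hv : v ≠ 0)
    (h0 : MvPolynomial.aeval v f = 0) (hr : ¬ IsRealV v) (hn : ‖cU v‖ = ‖cV v‖) :
    (derivative (fam f (cU v / cV v))).eval (v 2 / cV v) ≠ 0 := by
  have hV : cV v ≠ 0 := by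
    intro h
    rw [h, norm_zero, norm_eq_zero] at hn
    have h1 : v 0 = 0 := by
      have : 2 * v 0 = cU v + cV v := by simp [cU, cV]; ring
      rw [hn, h, add_zero] at this
      simpa using this
    have h2 : v 1 = 0 := by
      have : 2 * I * v 1 = cU v - cV v := by simp [cU, cV]; ring
      rw [hn, h, sub_zero] at this
      simpa using this
    rcases ne_zero_of_aeval nf hv h0 with h3 | h3
    · exact h3 h1
    · exact h3 h2
  intro hd
  obtain ⟨θ, -, -, hθ⟩ := circ_surj (w := cU v / cV v) (by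
    rw [norm_div, hn, div_self (norm_ne_zero_iff.2 hV)])
  set e := exp (θ * I) with he
  have he0 : e ≠ 0 := Complex.exp_ne_zero _
  set η := e⁻¹ * (v 2 / cV v) with hη
  have hy : v 2 / cV v = e * η := by rw [hη, mul_inv_cancel_left₀ he0]
  have hroot : (fam f (cU v / cV v)).eval (v 2 / cV v) = 0 := by
    have h1 := aeval_eq_fam nf.hom hV (f := f)
    rw [h0] at h1
    rcases mul_eq_zero.1 h1.symm with h2 | h2
    · exact absurd (pow_eq_zero_iff (by norm_num) |>.1 h2) hV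
    · exact h2
  rw [← hθ, hy] at hroot hd
  have g0 : Polynomial.aeval η (gr f θ) = 0 := by
    have h1 := fam_circ nf.hom θ η (f := f)
    rw [← he, hroot] at h1
    rcases mul_eq_zero.1 h1.symm with h2 | h2
    · exact absurd (pow_eq_zero_iff (by norm_num) |>.1 h2) he0
    · exact h2
  have g1 : Polynomial.aeval η (derivative (gr f θ)) = 0 := by
    have h1 := deriv_fam_circ nf.hom θ η (f := f)
    rw [← he, hd, mul_zero] at h1
    rcases mul_eq_zero.1 h1.symm with h2 | h2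
    · exact absurd (pow_eq_zero_iff (by norm_num) |>.1 h2) he0
    · exact h2
  have k0 : (fam f (circ θ)).eval (e * (starRingEnd ℂ) η) = 0 := by
    rw [he, fam_circ nf.hom, tt_aeval_conj, g0, map_zero, mul_zero]
  have k1 : (derivative (fam f (circ θ))).eval (e * (starRingEnd ℂ) η) = 0 := by
    have h1 := deriv_fam_circ nf.hom θ ((starRingEnd ℂ) η) (f := f)
    rw [tt_aeval_conj, g1, map_zero, mul_zero, ← he] at h1
    rcases mul_eq_zero.1 h1 with h2 | h2
    · exact absurd h2 he0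
    · exact h2
  have hab : ((1 + circ θ) / 2 ≠ 0 ∨ I * (1 - circ θ) / 2 ≠ 0) := by
    by_contra hcon
    push Not at hcon
    have h1 : (1 + circ θ) = 0 := by linear_combination 2 * hcon.1
    have h2 : (1 - circ θ) = 0 := by
      have h3 : I * (1 - circ θ) = 0 := by linear_combination 2 * hcon.2
      exact (mul_eq_zero.1 h3).resolve_left I_ne_zero
    have h4 : (2 : ℂ) = 0 := by linear_combination h1 + h2
    norm_num at h4
  have heq := nf.one _ _ (e * η) (e * (starRingEnd ℂ) η) hab hroot hd k0 k1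
  have hreal : (starRingEnd ℂ) η = η := (mul_left_cancel₀ he0 heq).symm
  obtain ⟨x, hx⟩ := Complex.conj_eq_iff_real.1 hreal
  apply hr
  refine ⟨cV v * e, ![Real.cos θ, Real.sin θ, x], ?_⟩
  have h5 := eq_smul_of_cV_ne_zero hV
  rw [← hθ, half_one_add_circ, half_one_sub_circ, ← he, hy, hx] at h5
  rw [h5]
  funext i
  have h6 : cV (cV v • ![e * (Real.cos θ : ℂ), e * (Real.sin θ : ℂ), e * (x : ℂ)]) = cV v := by
    rw [← h5]
  rw [h6]
  fin_cases i <;> simp [mul_assoc]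

lemma isRealV_of_circ {v : Fin 3 → ℂ} (hV : cV v ≠ 0) {θ x : ℝ} (h1 : cU v / cV v = circ θ)
    (h2 : v 2 / cV v = exp (θ * I) * x) : IsRealV v := by
  refine ⟨cV v * exp (θ * I), ![Real.cos θ, Real.sin θ, x], ?_⟩
  have h5 := eq_smul_of_cV_ne_zero hV
  rw [h1, half_one_add_circ, half_one_sub_circ, h2] at h5
  have h6 : cV (cV v • ![exp (θ * I) * (Real.cos θ : ℂ), exp (θ * I) * (Real.sin θ : ℂ),
      exp (θ * I) * (x : ℂ)]) = cV v := by
    rw [← h5]
  rw [h5]
  funext i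
  rw [h6]
  fin_cases i <;> simp [mul_assoc]

namespace Ctx

variable {n : Type} [Fintype n] [DecidableEq n] (X : Ctx n)

/-- a vector over a non real point of the curve -/
def OnC (v : Fin 3 → ℂ) : Prop := v ≠ 0 ∧ MvPolynomial.aeval v X.f = 0 ∧ ¬ IsRealV v

variable {X}

lemma OnC.cj {v : Fin 3 → ℂ} (h : X.OnC v) : X.OnC (cj v) :=
  ⟨cj_ne_zero h.1, aeval_cj h.2.1, isRealV_cj h.2.2⟩

lemma OnC.smul {v : Fin 3 → ℂ} (h : X.OnC v) {t : ℂ} (ht : t ≠ 0) : X.OnC (t • v) :=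
  ⟨smul_ne_zero ht h.1, by rw [aeval_smul_hom X.nf.hom, h.2.1, mul_zero],
    fun h' => h.2.2 ((isRealV_smul ht).1 h')⟩

lemma OnC.cV_ne {v : Fin 3 → ℂ} (h : X.OnC v) (hn : ‖cU v‖ ≤ ‖cV v‖) : cV v ≠ 0 := by
  intro h0
  rw [h0, norm_zero, norm_le_zero_iff] at hn
  have h1 : v 0 = 0 := by
    have : 2 * v 0 = cU v + cV v := by simp [cU, cV]; ring
    rw [hn, h0, add_zero] at this
    simpa using this
  have h2 : v 1 = 0 := by
    have : 2 * I * v 1 = cU v - cV v := by simp [cU, cV]; ring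
    rw [hn, h0, sub_zero] at this
    simpa using this
  rcases ne_zero_of_aeval X.nf h.1 h.2.1 with h3 | h3
  · exact h3 h1
  · exact h3 h2

lemma OnC.root {v : Fin 3 → ℂ} (h : X.OnC v) (hV : cV v ≠ 0) :
    (fam X.f (cU v / cV v)).eval (v 2 / cV v) = 0 := by
  have h1 := aeval_eq_fam X.nf.hom hV (f := X.f)
  rw [h.2.1] at h1
  rcases mul_eq_zero.1 h1.symm with h2 | h2
  · exact absurd (pow_eq_zero_iff (by norm_num) |>.1 h2) hV
  · exact h2

lemma norm_div_le {v : Fin 3 → ℂ} (_hV : cV v ≠ 0) (hn : ‖cU v‖ ≤ ‖cV v‖) :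
    ‖cU v / cV v‖ ≤ 1 := by
  rw [norm_div]
  exact div_le_one_of_le₀ hn (norm_nonneg _)

variable (X) (κ : Fin 8 → ZMod 2)

/-- the colour `k` from above -/
def Up (v : Fin 3 → ℂ) (k : ZMod 2) : Prop :=
  ‖cU v‖ ≤ ‖cV v‖ ∧ X.Near κ (cU v / cV v) (v 2 / cV v) k

/-- the colour of a vector; below it is the colour of the conjugate vector plus `τ` -/
def ColV (τ : ZMod 2) (v : Fin 3 → ℂ) (k : ZMod 2) : Prop :=
  X.Up κ v k ∨ X.Up κ (cj v) (k + τ)

variable {X κ}

lemma up_smul {v : Fin 3 → ℂ} {k : ZMod 2} {t : ℂ} (ht : t ≠ 0) (h : X.Up κ v k) :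
    X.Up κ (t • v) k := by
  refine ⟨?_, ?_⟩
  · rw [cU_smul, cV_smul, norm_mul, norm_mul]
    exact mul_le_mul_of_nonneg_left h.1 (norm_nonneg _)
  · have h1 : (t • v) 2 = t * v 2 := rfl
    rw [cU_smul, cV_smul, h1, mul_div_mul_left _ _ ht, mul_div_mul_left _ _ ht]
    exact h.2

lemma colV_smul {τ : ZMod 2} {v : Fin 3 → ℂ} {k : ZMod 2} {t : ℂ} (ht : t ≠ 0)
    (h : X.ColV κ τ v k) : X.ColV κ τ (t • v) k := by
  rcases h with h | h
  · exact Or.inl (up_smul ht h)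
  · right
    rw [cj_smul]
    exact up_smul (by simpa using ht) h

lemma exists_up (hbr : X.BrOK κ) {v : Fin 3 → ℂ} (h : X.OnC v) (hn : ‖cU v‖ ≤ ‖cV v‖) :
    ∃ k, X.Up κ v k := by
  have hV := h.cV_ne hn
  obtain ⟨k, hk⟩ := X.exists_near hbr (norm_div_le hV hn) (h.root hV) fun h1 => by
    refine simple_of_nonreal X.nf h.1 h.2.1 h.2.2 ?_
    rw [norm_div, div_eq_one_iff_eq (norm_ne_zero_iff.2 hV)] at h1
    exact h1
  exact ⟨k, hn, hk⟩

lemma up_unique {v : Fin 3 → ℂ} (h : X.OnC v) {k k' : ZMod 2} (h1 : X.Up κ v k)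
    (h2 : X.Up κ v k') : k = k' := by
  have hV := h.cV_ne h1.1
  exact X.near_unique (norm_div_le hV h1.1) (h.root hV) h1.2 h2.2

lemma up_open {v : Fin 3 → ℂ} (h : X.OnC v) {k : ZMod 2} (h1 : X.Up κ v k) :
    ∀ᶠ v' in 𝓝 v, ‖cU v'‖ ≤ ‖cV v'‖ → X.Up κ v' k := by
  have hV := h.cV_ne h1.1
  obtain ⟨ε, hε, h2⟩ := X.near_open h1.2
  have c1 : ContinuousAt (fun v' => cU v' / cV v') v :=
    continuous_cU.continuousAt.div continuous_cV.continuousAt hV
  have c2 : ContinuousAt (fun v' : Fin 3 → ℂ => v' 2 / cV v') v :=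
    (continuous_apply 2).continuousAt.div continuous_cV.continuousAt hV
  have e1 : ∀ᶠ v' in 𝓝 v, ‖cU v' / cV v' - cU v / cV v‖ < ε := by
    refine (c1.sub continuousAt_const).norm.eventually (gt_mem_nhds ?_)
    simpa using hε
  have e2 : ∀ᶠ v' : Fin 3 → ℂ in 𝓝 v, ‖v' 2 / cV v' - v 2 / cV v‖ < ε := by
    refine (c2.sub continuousAt_const).norm.eventually (gt_mem_nhds ?_)
    simpa using hε
  filter_upwards [e1, e2] with v' h3 h4 h5
  exact ⟨h5, h2 _ _ h3 h4⟩

/-- the hypothesis on conjugate pairs over the real lines -/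
def PairHyp (X : Ctx n) (κ : Fin 8 → ZMod 2) (τ : ZMod 2) : Prop :=
  ∀ θ ∈ Icc 0 Real.pi, X.Reg θ → ∀ a b, X.ConjEdge θ a b → κ b = κ a + τ

lemma consist {τ : ZMod 2} (hbr : X.BrOK κ) (hp : X.PairHyp κ τ) {v : Fin 3 → ℂ} (h : X.OnC v)
    (hn : ‖cU v‖ = ‖cV v‖) {k : ZMod 2} (hk : X.Up κ v k) : X.Up κ (cj v) (k + τ) := by
  have hV := h.cV_ne hn.le
  have hn' : ‖cU (cj v)‖ ≤ ‖cV (cj v)‖ := by rw [norm_cU_cj, norm_cV_cj, hn]
  obtain ⟨k', hk'⟩ := exists_up hbr h.cj hn'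
  suffices hkk : k' = k + τ by rw [← hkk]; exact hk'
  set w := cU v / cV v with hw
  set y := v 2 / cV v with hy
  have hwn : ‖w‖ = 1 := by rw [hw, norm_div, hn, div_self (norm_ne_zero_iff.2 hV)]
  have hU : cU v ≠ 0 := by
    rw [← norm_ne_zero_iff, hn]
    exact norm_ne_zero_iff.2 hV
  have hww : w * (starRingEnd ℂ) w = 1 := by
    rw [mul_conj, normSq_eq_norm_sq, hwn]
    norm_num
  have hcV : (starRingEnd ℂ) (cV v) ≠ 0 := by simpa using hV
  have hcU : (starRingEnd ℂ) (cU v) ≠ 0 := by simpa using hU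
  have e1 : cU (cj v) / cV (cj v) = w := by
    rw [cU_cj, cV_cj]
    have h1 : (starRingEnd ℂ) w = (starRingEnd ℂ) (cU v) / (starRingEnd ℂ) (cV v) := by
      rw [hw, map_div₀]
    have h2 : w * ((starRingEnd ℂ) (cU v) / (starRingEnd ℂ) (cV v)) = 1 := by rw [← h1, hww]
    rw [div_eq_iff hcU]
    field_simp at h2
    exact h2.symm
  have e2 : (cj v) 2 / cV (cj v) = w * (starRingEnd ℂ) y := by
    rw [cV_cj, ← e1, cU_cj, cV_cj, hy, map_div₀]
    have : (cj v) 2 = (starRingEnd ℂ) (v 2) := rfl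
    rw [this]
    field_simp
  obtain ⟨-, hk1⟩ := hk
  obtain ⟨-, hk2⟩ := hk'
  rw [e1, e2] at hk2
  obtain ⟨ε, hε, hk1⟩ := hk1
  obtain ⟨ε', hε', hk2⟩ := hk2
  obtain ⟨θ₀, hθ0, hθπ, hθw⟩ := circ_surj hwn
  have hroot := h.root hV
  -- the imaginary part does not vanish
  have him : (exp (-(θ₀ * I)) * y).im ≠ 0 := by
    intro h0
    apply h.2.2
    have h1 : exp (-(θ₀ * I)) * y = (((exp (-(θ₀ * I)) * y).re : ℝ) : ℂ) := by
      apply Complex.ext
      · rw [ofReal_re]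
      · rw [ofReal_im, h0]
    refine isRealV_of_circ hV (θ := θ₀) (x := (exp (-(θ₀ * I)) * y).re) hθw.symm ?_
    rw [← h1, ← mul_assoc, ← Complex.exp_add, add_neg_cancel, Complex.exp_zero, one_mul]
  -- close parameters
  have c1 : Continuous fun q : ℝ × ℂ => circ q.1 := continuous_circ.comp continuous_fst
  have c2 : Continuous fun q : ℝ × ℂ => circ q.1 * (starRingEnd ℂ) q.2 :=
    c1.mul (Complex.continuous_conj.comp continuous_snd)
  have c3 : Continuous fun q : ℝ × ℂ => (exp (-(q.1 * I)) * q.2).im := by fun_prop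
  have ev : ∀ᶠ q : ℝ × ℂ in 𝓝 (θ₀, y), ‖circ q.1 - w‖ < min ε ε' ∧ ‖q.2 - y‖ < ε ∧
      ‖circ q.1 * (starRingEnd ℂ) q.2 - w * (starRingEnd ℂ) y‖ < ε' ∧
      (exp (-(q.1 * I)) * q.2).im ≠ 0 := by
    refine Eventually.and ?_ (Eventually.and ?_ (Eventually.and ?_ ?_))
    · refine (c1.sub continuous_const).norm.continuousAt.eventually (gt_mem_nhds ?_)
      show ‖circ θ₀ - w‖ < min ε ε'
      rw [hθw, sub_self, norm_zero]
      exact lt_min hε hε'
    · refine (continuous_snd.sub continuous_const).norm.continuousAt.eventually (gt_mem_nhds ?_)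
      show ‖y - y‖ < ε
      rw [sub_self, norm_zero]
      exact hε
    · refine (c2.sub continuous_const).norm.continuousAt.eventually (gt_mem_nhds ?_)
      show ‖circ θ₀ * (starRingEnd ℂ) y - w * (starRingEnd ℂ) y‖ < ε'
      rw [hθw, sub_self, norm_zero]
      exact hε'
    · exact c3.continuousAt.eventually_ne him
  obtain ⟨r, hr, hball⟩ := Metric.eventually_nhds_iff.1 ev
  have h3 : ∀ᶠ θ in 𝓝 θ₀, ∃ y', (fam X.f (circ θ)).eval y' = 0 ∧ ‖y' - y‖ < r := by
    have h4 : Tendsto circ (𝓝 θ₀) (𝓝 w) := by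
      rw [← hθw]
      exact continuous_circ.continuousAt
    exact h4.eventually ((famF X.nf).eventually_root hroot hr)
  obtain ⟨δ, hδ, hb⟩ := Metric.eventually_nhds_iff.1 h3
  obtain ⟨θ, ht1, ht2, hreg⟩ := exists_circ_mem_Star X.cZ θ₀
    (lt_min (lt_min hδ hr) (sub_pos.2 hθπ))
  have ht3 : |θ - θ₀| < min δ r := by
    rw [abs_of_pos (by linarith)]
    have := min_le_left (min δ r) (Real.pi - θ₀)
    linarith
  have ht4 : θ < Real.pi := by
    have := min_le_right (min δ r) (Real.pi - θ₀)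
    linarith
  obtain ⟨y', hy', hyd⟩ := hb (y := θ) (by
    rw [Real.dist_eq]
    exact ht3.trans_le (min_le_left _ _))
  obtain ⟨g1, g2, g3, g4⟩ := hball (y := (θ, y')) (by
    rw [Prod.dist_eq]
    refine max_lt ?_ ?_
    · rw [Real.dist_eq]
      exact ht3.trans_le (min_le_right _ _)
    · rw [dist_eq_norm]
      exact hyd)
  have hD : circ θ ∈ X.D := ⟨hreg, (norm_circ θ).le⟩
  obtain ⟨a, rfl⟩ := X.exists_label hD hy'
  -- the conjugate root
  have hcr : (fam X.f (circ θ)).eval (circ θ * (starRingEnd ℂ) (X.y a (circ θ))) = 0 := by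
    have h4 : circ θ * (starRingEnd ℂ) (X.y a (circ θ)) =
        exp (θ * I) * (starRingEnd ℂ) (X.eta θ a) := by
      rw [X.y_eq θ a, map_mul, ← Complex.exp_conj, map_mul, conj_ofReal, conj_I, circ]
      rw [← mul_assoc, ← Complex.exp_add]
      congr 2
      ring
    rw [h4, fam_circ X.nf.hom, tt_aeval_conj]
    have h5 := fam_circ X.nf.hom θ (X.eta θ a) (f := X.f)
    rw [← X.y_eq θ a, hy'] at h5
    rcases mul_eq_zero.1 h5.symm with h6 | h6
    · exact absurd (pow_eq_zero_iff (by norm_num) |>.1 h6) (Complex.exp_ne_zero _)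
    · rw [h6, map_zero, mul_zero]
  obtain ⟨b, hb'⟩ := X.exists_label hD hcr
  have hedge : X.ConjEdge θ a b := by
    refine ⟨g4, ?_⟩
    show exp (-(θ * I)) * X.y b (circ θ) = (starRingEnd ℂ) (exp (-(θ * I)) * X.y a (circ θ))
    rw [hb', map_mul, ← Complex.exp_conj, map_neg, map_mul, conj_ofReal, conj_I, ← mul_assoc, circ,
      ← Complex.exp_add]
    congr 2
    ring
  have hka : κ a = k := hk1 (circ θ) hD (g1.trans_le (min_le_left _ _)) a g2
  have hkb : κ b = k' := hk2 (circ θ) hD (g1.trans_le (min_le_right _ _)) b (by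
    rw [hb']
    exact g3)
  rw [← hka, ← hkb]
  exact hp θ ⟨by linarith, ht4.le⟩ hreg a b hedge

lemma exists_colV {τ : ZMod 2} (hbr : X.BrOK κ) {v : Fin 3 → ℂ} (h : X.OnC v) :
    ∃ k, X.ColV κ τ v k := by
  rcases le_total ‖cU v‖ ‖cV v‖ with hn | hn
  · obtain ⟨k, hk⟩ := exists_up hbr h hn
    exact ⟨k, Or.inl hk⟩
  · obtain ⟨k, hk⟩ := exists_up hbr h.cj (by rw [norm_cU_cj, norm_cV_cj]; exact hn)
    refine ⟨k + τ, Or.inr ?_⟩
    rw [add_assoc, CharTwo.add_self_eq_zero, add_zero]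
    exact hk

lemma colV_spec {τ : ZMod 2} (hbr : X.BrOK κ) (hp : X.PairHyp κ τ) {v : Fin 3 → ℂ}
    (h : X.OnC v) {k : ZMod 2} (hk : X.ColV κ τ v k) :
    (‖cU v‖ ≤ ‖cV v‖ → X.Up κ v k) ∧ (‖cV v‖ ≤ ‖cU v‖ → X.Up κ (cj v) (k + τ)) := by
  rcases hk with hk | hk
  · refine ⟨fun _ => hk, fun hn => ?_⟩
    exact consist hbr hp h (le_antisymm hk.1 hn) hk
  · refine ⟨fun hn => ?_, fun _ => hk⟩
    have h1 : ‖cV v‖ ≤ ‖cU v‖ := by
      have := hk.1
      rwa [norm_cU_cj, norm_cV_cj] at this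
    have h2 := consist hbr hp h.cj (by rw [norm_cU_cj, norm_cV_cj]; exact le_antisymm h1 hn) hk
    rw [cj_cj, add_assoc, CharTwo.add_self_eq_zero, add_zero] at h2
    exact h2

lemma colV_unique {τ : ZMod 2} (hbr : X.BrOK κ) (hp : X.PairHyp κ τ) {v : Fin 3 → ℂ}
    (h : X.OnC v) {k k' : ZMod 2} (hk : X.ColV κ τ v k) (hk' : X.ColV κ τ v k') : k = k' := by
  have h1 := colV_spec hbr hp h hk
  have h2 := colV_spec hbr hp h hk'
  rcases le_total ‖cU v‖ ‖cV v‖ with hn | hn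
  · exact up_unique h (h1.1 hn) (h2.1 hn)
  · exact add_right_cancel (up_unique h.cj (h1.2 hn) (h2.2 hn))

lemma colV_open {τ : ZMod 2} (hbr : X.BrOK κ) (hp : X.PairHyp κ τ) {v : Fin 3 → ℂ}
    (h : X.OnC v) {k : ZMod 2} (hk : X.ColV κ τ v k) : ∀ᶠ v' in 𝓝 v, X.ColV κ τ v' k := by
  obtain ⟨h1, h2⟩ := colV_spec hbr hp h hk
  have e1 : ∀ᶠ v' in 𝓝 v, ‖cU v'‖ ≤ ‖cV v'‖ → X.Up κ v' k := by
    rcases le_or_gt ‖cU v‖ ‖cV v‖ with hn | hn
    · exact up_open h (h1 hn)
    · have h3 : ∀ᶠ v' in 𝓝 v, ‖cV v'‖ < ‖cU v'‖ :=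
        continuous_cV.norm.continuousAt.eventually_lt continuous_cU.norm.continuousAt hn
      filter_upwards [h3] with v' h4 h5
      exact absurd h5 (not_le.2 h4)
  have e2 : ∀ᶠ v' in 𝓝 v, ‖cV v'‖ ≤ ‖cU v'‖ → X.Up κ (cj v') (k + τ) := by
    rcases le_or_gt ‖cV v‖ ‖cU v‖ with hn | hn
    · have h3 := up_open h.cj (h2 hn)
      have h4 : Tendsto cj (𝓝 v) (𝓝 (cj v)) := continuous_cj.continuousAt
      filter_upwards [h4.eventually h3] with v' h5 h6
      exact h5 (by rw [norm_cU_cj, norm_cV_cj]; exact h6)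
    · have h3 : ∀ᶠ v' in 𝓝 v, ‖cU v'‖ < ‖cV v'‖ :=
        continuous_cU.norm.continuousAt.eventually_lt continuous_cV.norm.continuousAt hn
      filter_upwards [h3] with v' h4 h5
      exact absurd h5 (not_le.2 h4)
  filter_upwards [e1, e2] with v' h3 h4
  rcases le_total ‖cU v'‖ ‖cV v'‖ with hn | hn
  · exact Or.inl (h3 hn)
  · exact Or.inr (h4 hn)

lemma zmod_two_cases : ∀ k : ZMod 2, k = 0 ∨ k = 1 := by decide

/-- the colour is constant -/
theorem colV_const {τ : ZMod 2} (hbr : X.BrOK κ) (hp : X.PairHyp κ τ)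
    (hconn : IsPreconnected (cpl X.f)) {v v' : Fin 3 → ℂ} (h : X.OnC v) (h' : X.OnC v')
    {k k' : ZMod 2} (hk : X.ColV κ τ v k) (hk' : X.ColV κ τ v' k') : k = k' := by
  classical
  have hrep : ∀ (u : Fin 3 → ℂ) (hu : u ≠ 0), X.OnC u → ∀ k, X.ColV κ τ u k →
      X.OnC (Projectivization.mk ℂ u hu).rep ∧ X.ColV κ τ (Projectivization.mk ℂ u hu).rep k := by
    intro u hu hou k hk
    obtain ⟨a, ha⟩ := Projectivization.exists_smul_eq_mk_rep ℂ u hu
    rw [← ha]
    exact ⟨hou.smul a.ne_zero, colV_smul a.ne_zero hk⟩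
  let F : CP2 → ZMod 2 := fun p => if X.ColV κ τ p.rep 0 then 0 else 1
  have hF : ∀ p : CP2, X.OnC p.rep → ∀ k, X.ColV κ τ p.rep k → F p = k := by
    intro p hp' k hk
    have hk01 : k = 0 ∨ k = 1 := zmod_two_cases k
    rcases hk01 with rfl | rfl
    · exact if_pos hk
    · refine if_neg fun h0 => ?_
      have := colV_unique hbr hp hp' hk h0
      exact absurd this (by decide)
  have hmem : ∀ p ∈ cpl X.f, X.OnC p.rep := by
    intro p hp'
    have h1 := mem_cpl X.nf.hom p.rep_nonzero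
    rw [p.mk_rep] at h1
    exact ⟨p.rep_nonzero, h1.1 hp'⟩
  have hloc : ∀ p ∈ cpl X.f, ∀ᶠ q in 𝓝[cpl X.f] p, F q = F p := by
    intro p hp'
    have hon := hmem p hp'
    obtain ⟨k, hk⟩ := exists_colV (τ := τ) hbr hon
    have h1 := colV_open hbr hp hon hk
    have h2 : ∀ᶠ u : {v : Fin 3 → ℂ // v ≠ 0} in 𝓝 ⟨p.rep, p.rep_nonzero⟩,
        X.ColV κ τ u.1 k :=
      (continuous_subtype_val (p := fun v : Fin 3 → ℂ => v ≠ 0)).continuousAt.eventually h1
    have h3 := isOpenMap_mkC.image_mem_nhds h2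
    have h4 : mkC ⟨p.rep, p.rep_nonzero⟩ = p := p.mk_rep
    rw [h4] at h3
    filter_upwards [mem_nhdsWithin_of_mem_nhds h3, self_mem_nhdsWithin] with q hq hqc
    obtain ⟨u, hu, rfl⟩ := hq
    have h5 : X.OnC u.1 := by
      have := (mem_cpl X.nf.hom u.2).1 hqc
      exact ⟨u.2, this⟩
    have h6 := hrep u.1 u.2 h5 k hu
    rw [hF p hon k hk]
    exact hF _ h6.1 k h6.2
  have h1 := hrep v h.1 h k hk
  have h2 := hrep v' h'.1 h' k' hk'
  have h3 : Projectivization.mk ℂ v h.1 ∈ cpl X.f := (mem_cpl X.nf.hom h.1).2 h.2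
  have h4 : Projectivization.mk ℂ v' h'.1 ∈ cpl X.f := (mem_cpl X.nf.hom h'.1).2 h'.2
  rw [← hF _ h1.1 k h1.2, ← hF _ h2.1 k' h2.2]
  exact Family.const_of_locally hconn hloc h3 h4

/-- the points over the centre of the star -/
lemma onC_centre (X : Ctx n) (a : Fin 8) :
    X.OnC ![(1 + X.c) / 2, I * (1 - X.c) / 2, X.y a X.c] := by
  have hc : X.c ∈ Star X.c X.Z := centre_mem_Star X.cZ
  refine ⟨fun h => ?_, ?_, fun h => ?_⟩
  · have h1 := cV_std X.c (X.y a X.c)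
    rw [h] at h1
    simp [cV] at h1
  · rw [← aeval_dir]
    exact X.y_root X.c hc X.hc.le a
  · have h1 := norm_eq_of_real h
    rw [cU_std, cV_std, norm_one] at h1
    have := X.hc
    linarith

lemma up_centre (hbr : X.BrOK κ) (a : Fin 8) :
    X.Up κ ![(1 + X.c) / 2, I * (1 - X.c) / 2, X.y a X.c] (κ a) := by
  have hc : X.c ∈ Star X.c X.Z := centre_mem_Star X.cZ
  obtain ⟨k, hk⟩ := exists_up hbr (onC_centre X a) (by
    rw [cU_std, cV_std, norm_one]
    exact X.hc.le)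
  have h1 := hk.2
  rw [cU_std, cV_std, div_one] at h1
  have h2 : (![(1 + X.c) / 2, I * (1 - X.c) / 2, X.y a X.c] : Fin 3 → ℂ) 2 / 1 = X.y a X.c := by
    simp
  rw [h2] at h1
  obtain ⟨ε, hε, h3⟩ := h1
  have h4 : κ a = k := h3 X.c ⟨hc, X.hc.le⟩ (by simpa using hε) a (by simpa using hε)
  rw [h4]
  exact hk

/-- **TYPE 2** -/
theorem typeTwoOK (hconn : IsPreconnected (cpl X.f)) : X.TypeTwoOK := by
  intro κ hcoll
  have hbr : X.BrOK κ := by
    intro z hz hz1 a b y₀ ha hb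
    by_cases hab : a = b
    · rw [hab]
    · exact hcoll z hz hz1 a b ⟨hab, y₀, ha, hb⟩
  refine ⟨fun hp a b => ?_, fun hp => ?_⟩
  · have hp' : X.PairHyp κ 0 := fun θ hθ hr a b he => by
      rw [add_zero]
      exact (hp θ hθ hr a b he).symm
    exact colV_const hbr hp' hconn (onC_centre X a) (onC_centre X b) (Or.inl (up_centre hbr a))
      (Or.inl (up_centre hbr b))
  · have hp' : X.PairHyp κ 1 := fun θ hθ hr a b he => by
      have h1 := hp θ hθ hr a b he
      revert h1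
      generalize κ a = u
      generalize κ b = v
      revert u v
      decide
    have h1 := colV_const hbr hp' hconn (onC_centre X 0) (onC_centre X 0).cj
      (Or.inl (up_centre hbr 0)) (k' := κ 0 + 1) (Or.inr (by
        rw [cj_cj, add_assoc, CharTwo.add_self_eq_zero, add_zero]
        exact up_centre hbr 0))
    have h2 : (1 : ZMod 2) = 0 := by
      have := h1.symm
      rwa [add_eq_left] at this
    exact absurd h2 (by decide)

end Ctx

end Pool.Agent.Rohlin
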