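import Pool.Agent.Rohlin.Pair
import Pool.Agent.Rohlin.PtOpen
import Pool.Agent.Rohlin.ConfG
import Pool.Agent.Rohlin.Core

/-!
# Uniqueness of the pairing at a regular angle
-/

set_option autoImplicit false

namespace Pool.Agent.Rohlin

open Polynomial Complex Set Matrix Filter Topology

/-- disjoint closed intervals are the components of their union -/
theorem cmp_of_intervals {P : Type*} [Finite P] {T : Set ℝ} {a b : P → ℝ} {S : P → Prop}
    (hlt : ∀ p, S p → a p < b p) (hT : ∀ x, x ∈ T ↔ ∃ p, S p ∧ a p ≤ x ∧ x ≤ b p)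
    (hd : ∀ p q, S p → S q → p ≠ q → b p < a q ∨ b q < a p) {p : P} (hp : S p) :
    Cmp T (a p) (b p) := by
  refine ⟨hlt p hp, fun x hx => (hT x).2 ⟨p, hp, hx.1, hx.2⟩, ?_, ?_⟩
  · have h1 : ∀ᶠ y in 𝓝[<] (a p), ∀ q, b q < a p → b q < y := by
      rw [eventually_all]
      intro q
      by_cases hq : b q < a p
      · filter_upwards [Ioo_mem_nhdsLT hq] with y hy _
        exact hy.1
      · exact Eventually.of_forall fun y h => absurd h hq
    filter_upwards [h1, self_mem_nhdsWithin] with y hy hyp hyT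
    obtain ⟨q, hq, h2, h3⟩ := (hT y).1 hyT
    have hya : y < a p := hyp
    by_cases hpq : p = q
    · subst hpq
      linarith
    · rcases hd p q hp hq hpq with h4 | h4
      · linarith [hlt p hp]
      · linarith [hy q h4]
  · have h1 : ∀ᶠ y in 𝓝[>] (b p), ∀ q, b p < a q → y < a q := by
      rw [eventually_all]
      intro q
      by_cases hq : b p < a q
      · filter_upwards [Ioo_mem_nhdsGT hq] with y hy _
        exact hy.2
      · exact Eventually.of_forall fun y h => absurd h hq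
    filter_upwards [h1, self_mem_nhdsWithin] with y hy hyp hyT
    obtain ⟨q, hq, h2, h3⟩ := (hT y).1 hyT
    have hyb : b p < y := hyp
    by_cases hpq : p = q
    · subst hpq
      linarith
    · rcases hd p q hp hq hpq with h4 | h4
      · linarith [hy q h4]
      · linarith [hlt p hp]

namespace Ctx

variable {n : Type} [Fintype n] [DecidableEq n] {X : Ctx n}

theorem Pre.mt {θ : ℝ} {A B : Fin 4 → Fin 8} {kind : Fin 4 → Fin 3} (P : X.Pre θ A B kind)
    (h : X.Reg θ) (p : Fin 4) : X.Mt θ (kind p) (A p) (B p) := by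
  have C := P.conf h
  have hne : ∀ (k : Fin 3), k ≠ 2 → ∀ p, kind p = k → kind p ≠ 2 := fun k hk p hp h2 =>
    hk (hp.symm.trans h2)
  have hcmp : ∀ (K : Set RP2) (k : Fin 3), k ≠ 2 → (∀ η : ℝ, pt θ η ∈ K ↔ ∃ p, kind p = k ∧
      (X.eta θ (A p)).re ≤ η ∧ η ≤ (X.eta θ (B p)).re) → kind p = k →
      Cmp {x | pt θ x ∈ K} (X.eta θ (A p)).re (X.eta θ (B p)).re := by
    intro K k hk hK hp
    exact cmp_of_intervals (a := fun p => (X.eta θ (A p)).re) (b := fun p => (X.eta θ (B p)).re)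
      (S := fun p => kind p = k) (fun p hp => (P.real p (hne k hk p hp)).2.2) hK
      (fun p q hp hq hpq => C.disj p q hpq (hp.trans hq.symm) (hne k hk p hp)) hp
  rcases fin3_cases (kind p) with hp | hp | hp
  · refine Or.inr (Or.inl ⟨hp, ?_, ?_, hcmp X.K0 0 (by decide) P.in0 hp⟩)
    · exact (P.real p (hne 0 (by decide) p hp)).1
    · exact (P.real p (hne 0 (by decide) p hp)).2.1
  · refine Or.inr (Or.inr ⟨hp, ?_, ?_, hcmp X.K1 1 (by decide) P.in1 hp⟩)
    · exact (P.real p (hne 1 (by decide) p hp)).1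
    · exact (P.real p (hne 1 (by decide) p hp)).2.1
  · exact Or.inl ⟨hp, P.cpx p hp⟩

/-- two pairings at the same regular angle differ by a permutation of the pairs -/
theorem Pairing.exists_perm {θ : ℝ} {A B A' B' : Fin 4 → Fin 8} {kind kind' : Fin 4 → Fin 3}
    {ζ ζ' : Fin 4 → ℂ} (h : X.Reg θ) (P : X.Pairing θ A B kind ζ)
    (P' : X.Pairing θ A' B' kind' ζ') :
    ∃ σ : Equiv.Perm (Fin 4), ∀ p, A' (σ p) = A p ∧ B' (σ p) = B p ∧ kind' (σ p) = kind p ∧
      ζ' (σ p) = ζ p := by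
  have hbij : Function.Bijective (Sum.elim A' B') := by
    rw [Fintype.bijective_iff_injective_and_card]
    exact ⟨P'.inj, by simp⟩
  have h1 : ∀ p, ∃ q, A' q = A p ∧ B' q = B p ∧ kind' q = kind p := by
    intro p
    obtain ⟨x, hx⟩ := hbij.2 (A p)
    have hm := P.pre.mt h p
    rcases x with q | q
    · simp only [Sum.elim_inl] at hx
      have hm' := P'.pre.mt h q
      rw [hx] at hm'
      obtain ⟨h2, h3⟩ := hm'.eq_right h hm
      exact ⟨q, hx, h3, h2⟩
    · simp only [Sum.elim_inr] at hx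
      have hm' := P'.pre.mt h q
      rw [hx] at hm'
      exact (hm'.not_adj h hm).elim
  choose σ hσ using h1
  have hinj : Function.Injective σ := by
    intro p q hpq
    have h2 : A p = A q := by rw [← (hσ p).1, ← (hσ q).1, hpq]
    have := @P.inj (Sum.inl p) (Sum.inl q) h2
    exact Sum.inl.inj this
  refine ⟨Equiv.ofBijective σ (Finite.injective_iff_bijective.1 hinj), fun p => ?_⟩
  refine ⟨(hσ p).1, (hσ p).2.1, (hσ p).2.2, ?_⟩
  show ζ' (σ p) = ζ p
  rw [P'.zeta, P.zeta, (hσ p).1, (hσ p).2.1, (hσ p).2.2]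

variable (X)

/-- UNIQ -/
theorem uniqOK : X.UniqOK := by
  intro θ h A B kind ζ A' B' kind' ζ' P P'
  obtain ⟨σ, hσ⟩ := P.exists_perm h P'
  unfold proj
  have h1 : (List.ofFn fun p => pairFac X.M (A p) (B p) (ζ p)) =
      List.ofFn ((fun p => pairFac X.M (A' p) (B' p) (ζ' p)) ∘ σ) := by
    congr 1
    funext p
    obtain ⟨h2, h3, -, h4⟩ := hσ p
    simp only [Function.comp_apply, h2, h3, h4]
  rw [h1]
  symm
  refine (Equiv.Perm.ofFn_comp_perm σ _).prod_eq' ?_
  rw [List.pairwise_ofFn]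
  intro i j hij
  obtain ⟨h2, h3, h4⟩ := ne_of_inj A' B' P'.inj
  have hne : σ i ≠ σ j := fun h => hij.ne (σ.injective h)
  exact pairFac_comm X.M (h3 _ _ hne) (h2 _ _) (h2 _ _).symm (h4 _ _ hne) _ _

/-- ARC -/
theorem arcOK' : X.ArcOK := X.arcOK isOpenMap_pt

end Ctx

end Pool.Agent.Rohlin
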