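import Pool.Agent.Rohlin.Core
import Pool.Agent.Rohlin.Uniq
import Pool.Agent.Rohlin.ConfG
import Pool.Agent.Rohlin.PtOpen
import Pool.Agent.Rohlin.RealGauge
import Pool.Agent.Rohlin.TypeTwo
import Pool.Agent.Rohlin.DiscTop
import Pool.Agent.Rohlin.Ctx
import Pool.Agent.Rohlin.Cross
import Pool.Agent.Rohlin.LocalOK
import Pool.Agent.Rohlin.OvalCount
import Pool.Agent.Rohlin.Reduce

/-!
# The core with all the inputs which are already proved
-/

set_option autoImplicit false

namespace Pool.Agent.Rohlin

open Polynomial Complex Set Matrix Filter Topology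

namespace Ctx

variable {n : Type} [Fintype n] [DecidableEq n] (X : Ctx n)

/-- what is left of the core: the real events and connectedness -/
theorem core_main (hE : X.EventOK) (hconn : IsPreconnected (cpl X.f)) : False :=
  X.core X.pairOK X.stateOK (X.arcOK isOpenMap_pt) X.uniqOK X.closeOK (X.crossOK X.localOK) hE
    X.countOK X.discOK (X.typeTwoOK hconn)

end Ctx

/-- an octic in general position with 16 outer discs and 4 inner ones is of type I (its complex
points without the real ones are not connected) -/
theorem not_isPreconnected_of_regions {f : MvPolynomial (Fin 3) ℝ} {K0 K1 : Set RP2}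
    (nf : Normal f) (reg : Regions f K0 K1) (h1 : (fam f 1).Separable)
    (hE : ∀ (n : Type) [Fintype n] [DecidableEq n] (X : Ctx n), X.EventOK) :
    ¬ IsPreconnected (cpl f) := by
  intro hconn
  obtain ⟨n, i1, i2, X, hf, -, -⟩ := exists_ctx nf reg h1
  subst hf
  exact X.core_main (hE n X) hconn

/-- **`15 ⊔ 1⟨4⟩` is of type I** (from EVENT) -/
theorem isTypeOne_of_event
    (hE : ∀ (n : Type) [Fintype n] [DecidableEq n] (X : Ctx n), X.EventOK) : IsTypeOne 8 S15 := by
  intro A hA hconn
  obtain ⟨f, K0, K1, nf, reg, h1, h2⟩ := reduce A hA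
  exact not_isPreconnected_of_regions nf reg h1 hE (h2 hconn)

end Pool.Agent.Rohlin
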