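import Mathlib

/-!
# Labelling the roots of a family of polynomials over a simply connected set
-/

set_option autoImplicit false

namespace Pool.Agent.Rohlin

open Set Topology Polynomial Filter

/-- a monic family of polynomials of degree `m` with continuous coefficients -/
structure Family (m : ℕ) where
  P : ℂ → ℂ[X]
  monic : ∀ x, (P x).Monic
  deg : ∀ x, (P x).natDegree = m
  cont : ∀ j, Continuous fun x => (P x).coeff j

variable {m : ℕ} (F : Family m)

namespace Family

lemma continuous_eval : Continuous fun p : ℂ × ℂ => (F.P p.1).eval p.2 := by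
  have : (fun p : ℂ × ℂ => (F.P p.1).eval p.2) =
      fun p => ∑ j ∈ Finset.range (m + 1), (F.P p.1).coeff j * p.2 ^ j := by
    funext p
    rw [eval_eq_sum_range, F.deg]
  rw [this]
  refine continuous_finsetSum _ fun j _ => ?_
  exact ((F.cont j).comp continuous_fst).mul (continuous_snd.pow j)

lemma ne_zero (x : ℂ) : F.P x ≠ 0 := (F.monic x).ne_zero

/-- if the value at `y` is small there is a root near `y` -/
lemma exists_root_near {x y : ℂ} {ε : ℝ} (hε : 0 < ε)
    (h : ‖(F.P x).eval y‖ < ε ^ m) : ∃ y', (F.P x).eval y' = 0 ∧ ‖y' - y‖ < ε := by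
  by_contra hcon
  push Not at hcon
  have hs : (F.P x).Splits := IsAlgClosed.splits _
  have h1 : F.P x = ((F.P x).roots.map fun a => X - C a).prod := by
    conv_lhs => rw [hs.eq_prod_roots, F.monic x]
    simp
  have hcard : Multiset.card (F.P x).roots = m := hs.natDegree_eq_card_roots.symm.trans (F.deg x)
  have h2 : (F.P x).eval y = ((F.P x).roots.map fun a => y - a).prod := by
    conv_lhs => rw [h1]
    rw [eval_multiset_prod, Multiset.map_map]
    congr 1
    apply Multiset.map_congr rfl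
    intro a _
    simp
  have h3 : ε ^ m ≤ ‖(F.P x).eval y‖ := by
    rw [h2]
    have key : ∀ s : Multiset ℂ, (∀ a ∈ s, ε ≤ ‖a - y‖) →
        ε ^ (Multiset.card s) ≤ ‖(s.map fun a => y - a).prod‖ := by
      intro s
      induction s using Multiset.induction_on with
      | empty => intro _; simp
      | cons a s ih =>
        intro hs
        rw [Multiset.map_cons, Multiset.prod_cons, norm_mul, Multiset.card_cons, pow_succ,
          mul_comm]
        refine mul_le_mul ?_ (ih fun b hb => hs b (Multiset.mem_cons_of_mem hb))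
          (pow_nonneg hε.le _) (norm_nonneg _)
        rw [norm_sub_rev]
        exact hs a (Multiset.mem_cons_self a s)
    have := key (F.P x).roots fun a ha => hcon a ((mem_roots (F.ne_zero x)).1 ha)
    rwa [hcard] at this
  exact absurd h (not_lt.2 h3)

lemma pos_of_root {x y : ℂ} (h : (F.P x).eval y = 0) : 0 < m := by
  rcases Nat.eq_zero_or_pos m with h0 | h0
  · exfalso
    have h1 : F.P x = 1 := (F.monic x).natDegree_eq_zero.1 (by rw [F.deg, h0])
    rw [h1] at h
    simp at h
  · exact h0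

/-- roots vary continuously -/
lemma eventually_root {x y : ℂ} (h : (F.P x).eval y = 0) {ε : ℝ} (hε : 0 < ε) :
    ∀ᶠ x' in 𝓝 x, ∃ y', (F.P x').eval y' = 0 ∧ ‖y' - y‖ < ε := by
  have hm := F.pos_of_root h
  have h1 : Continuous fun x' => ‖(F.P x').eval y‖ :=
    (F.continuous_eval.comp (by fun_prop : Continuous fun x' : ℂ => (x', y))).norm
  have h2 : ∀ᶠ x' in 𝓝 x, ‖(F.P x').eval y‖ < ε ^ m := by
    refine h1.continuousAt.eventually (gt_mem_nhds ?_)
    show ‖(F.P x).eval y‖ < ε ^ m
    rw [h, norm_zero]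
    positivity
  filter_upwards [h2] with x' hx'
  exact F.exists_root_near hε hx'

/-- the total space -/
abbrev E : Type := {p : ℂ × ℂ // (F.P p.1).eval p.2 = 0}

/-- the projection -/
def pr (e : F.E) : ℂ := e.1.1

lemma continuous_pr : Continuous F.pr := continuous_fst.comp continuous_subtype_val

/-- the regular values -/
def reg : Set ℂ := {x | (F.P x).Separable}

lemma card_roots {x : ℂ} (hx : x ∈ F.reg) : ((F.P x).roots.toFinset).card = m := by
  rw [Multiset.toFinset_card_of_nodup (nodup_roots hx), ← (IsAlgClosed.splits _).natDegree_eq_card_roots, F.deg]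

/-- an enumeration of the roots -/
lemma exists_enum {x : ℂ} (hx : x ∈ F.reg) : ∃ η : Fin m → ℂ, Function.Injective η ∧
    ∀ y, (F.P x).eval y = 0 ↔ ∃ i, η i = y := by
  let e := ((F.P x).roots.toFinset).equivFinOfCardEq (F.card_roots hx)
  refine ⟨fun i => (e.symm i).1, fun i j h => e.symm.injective (Subtype.ext h), fun y => ?_⟩
  constructor
  · intro hy
    have : y ∈ (F.P x).roots.toFinset := by
      rw [Multiset.mem_toFinset, mem_roots (F.ne_zero x)]
      exact hy
    exact ⟨e ⟨y, this⟩, by simp⟩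
  · rintro ⟨i, rfl⟩
    have := (e.symm i).2
    rw [Multiset.mem_toFinset, mem_roots (F.ne_zero x)] at this
    exact this

/-- `m` distinct roots are all roots -/
lemma eq_of_injective {x : ℂ} {η : Fin m → ℂ} (hinj : Function.Injective η)
    (hη : ∀ i, (F.P x).eval (η i) = 0) {y : ℂ} (hy : (F.P x).eval y = 0) : ∃ i, η i = y := by
  classical
  by_contra hcon
  push Not at hcon
  have h1 : (insert y (Finset.univ.image η)).card ≤ m := by
    have h2 : insert y (Finset.univ.image η) ⊆ (F.P x).roots.toFinset := by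
      intro z hz
      rw [Multiset.mem_toFinset, mem_roots (F.ne_zero x)]
      rcases Finset.mem_insert.1 hz with rfl | hz
      · exact hy
      · obtain ⟨i, -, rfl⟩ := Finset.mem_image.1 hz
        exact hη i
    exact (Finset.card_le_card h2).trans ((Multiset.toFinset_card_le _).trans
      ((card_roots' _).trans (F.deg x).le))
  rw [Finset.card_insert_of_notMem, Finset.card_image_of_injective _ hinj, Finset.card_univ,
    Fintype.card_fin] at h1
  · omega
  · intro h
    obtain ⟨i, -, hi⟩ := Finset.mem_image.1 h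
    exact hcon i hi

/-- separated neighbourhoods of the roots -/
lemma exists_nbhd {x₀ : ℂ} {η : Fin m → ℂ} (hinj : Function.Injective η)
    (hη : ∀ i, (F.P x₀).eval (η i) = 0) : ∃ (δ : ℝ) (U : Set ℂ), 0 < δ ∧ IsOpen U ∧ x₀ ∈ U ∧
      (∀ i j, i ≠ j → 2 * δ ≤ ‖η i - η j‖) ∧
      ∀ x ∈ U, ∀ i, ∃ y, (F.P x).eval y = 0 ∧ ‖y - η i‖ < δ := by
  have h1 : ∀ᶠ δ : ℝ in 𝓝[>] 0, ∀ i j, i ≠ j → 2 * δ ≤ ‖η i - η j‖ := by
    refine eventually_all.2 fun i => eventually_all.2 fun j => ?_
    by_cases hij : i = j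
    · exact Eventually.of_forall fun δ h => absurd hij h
    · have hpos : 0 < ‖η i - η j‖ := norm_pos_iff.2 (sub_ne_zero.2 fun h => hij (hinj h))
      have h2 : ∀ᶠ δ : ℝ in 𝓝[>] 0, 2 * δ < ‖η i - η j‖ := by
        refine eventually_nhdsWithin_of_eventually_nhds ?_
        refine (show Continuous fun δ : ℝ => 2 * δ by fun_prop).continuousAt.eventually
          (gt_mem_nhds ?_)
        simpa using hpos
      filter_upwards [h2] with δ hδ _
      exact hδ.le
  obtain ⟨δ, hδ, hδ0⟩ := (h1.and self_mem_nhdsWithin).exists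
  have h3 : ∀ᶠ x in 𝓝 x₀, ∀ i, ∃ y, (F.P x).eval y = 0 ∧ ‖y - η i‖ < δ :=
    eventually_all.2 fun i => F.eventually_root (hη i) hδ0
  obtain ⟨U, hU, hUo, hxU⟩ := mem_nhds_iff.1 h3
  exact ⟨δ, U, hδ0, hUo, hxU, hδ, fun x hx => hU hx⟩

/-- uniqueness of the root near `η i` -/
lemma unique_near {x : ℂ} {η : Fin m → ℂ} {δ : ℝ} (hδ : ∀ i j, i ≠ j → 2 * δ ≤ ‖η i - η j‖)
    (hex : ∀ i, ∃ y, (F.P x).eval y = 0 ∧ ‖y - η i‖ < δ) :
    (∀ i y y', (F.P x).eval y = 0 → ‖y - η i‖ < δ → (F.P x).eval y' = 0 → ‖y' - η i‖ < δ →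
      y = y') ∧ ∀ y, (F.P x).eval y = 0 → ∃ i, ‖y - η i‖ < δ := by
  classical
  choose g hg1 hg2 using hex
  have sep : ∀ i j y, ‖y - η i‖ < δ → ‖y - η j‖ < δ → i = j := by
    intro i j y h1 h2
    by_contra hij
    have h3 := hδ i j hij
    have h4 : ‖η i - η j‖ ≤ ‖y - η i‖ + ‖y - η j‖ := by
      have : η i - η j = (y - η j) - (y - η i) := by ring
      rw [this, add_comm]
      exact norm_sub_le _ _
    linarith
  have all : ∀ (i : Fin m) (y : ℂ), (F.P x).eval y = 0 → ‖y - η i‖ < δ →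
      ∀ y', (F.P x).eval y' = 0 → ‖y' - η i‖ < δ → y' = y := by
    intro i y hy hyi y' hy' hyi'
    have hinj : Function.Injective (Function.update g i y) := by
      intro a b hab
      have ha : ‖Function.update g i y a - η a‖ < δ := by
        by_cases h : a = i
        · subst h; rw [Function.update_self]; exact hyi
        · rw [Function.update_of_ne h]; exact hg2 a
      have hb : ‖Function.update g i y b - η b‖ < δ := by
        by_cases h : b = i
        · subst h; rw [Function.update_self]; exact hyi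
        · rw [Function.update_of_ne h]; exact hg2 b
      rw [hab] at ha
      exact sep _ _ _ ha hb
    obtain ⟨j, hj⟩ := F.eq_of_injective hinj (fun a => by
      by_cases h : a = i
      · subst h; rw [Function.update_self]; exact hy
      · rw [Function.update_of_ne h]; exact hg1 a) hy'
    by_cases h : j = i
    · subst h
      rw [Function.update_self] at hj
      exact hj.symm
    · rw [Function.update_of_ne h] at hj
      rw [← hj] at hyi'
      exact absurd (sep _ _ _ (hg2 j) hyi') h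
  refine ⟨fun i y y' h1 h2 h3 h4 => (all i y h1 h2 y' h3 h4).symm, fun y hy => ?_⟩
  have hinj : Function.Injective g := fun a b hab => sep _ _ (g a) (hg2 a) (hab ▸ hg2 b)
  obtain ⟨j, hj⟩ := F.eq_of_injective hinj hg1 hy
  exact ⟨j, hj ▸ hg2 j⟩

theorem isCoveringMapOn_pr (hm : 0 < m) : IsCoveringMapOn F.pr F.reg := by
  classical
  have : NeZero m := ⟨hm.ne'⟩
  have hsec : ∀ x, ∃ y, (F.P x).eval y = 0 := by
    intro x
    have h1 : (F.P x).degree ≠ 0 := by
      rw [degree_eq_natDegree (F.ne_zero x), F.deg]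
      exact_mod_cast hm.ne'
    obtain ⟨y, hy⟩ := IsAlgClosed.exists_root _ h1
    exact ⟨y, hy⟩
  choose sec hsec using hsec
  have hne : Nonempty (ℂ → F.E) := ⟨fun x => ⟨(x, sec x), hsec x⟩⟩
  have key : ∀ x : F.reg, ∃ t : Bundle.Trivialization (Fin m) F.pr, x.1 ∈ t.baseSet := by
    rintro ⟨x₀, hx₀⟩
    obtain ⟨η, hinj, hη⟩ := F.exists_enum hx₀
    obtain ⟨δ, U, hδ, hUo, hxU, hsep, hex⟩ := F.exists_nbhd hinj fun i => (hη _).2 ⟨i, rfl⟩
    let V : Fin m → Set F.E := fun i => {e | e.1.1 ∈ U ∧ ‖e.1.2 - η i‖ < δ}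
    have hVo : ∀ i, IsOpen (V i) := fun i => by
      refine IsOpen.inter (hUo.preimage (continuous_fst.comp continuous_subtype_val)) ?_
      have h1 : Continuous fun e : F.E => ‖e.1.2 - η i‖ :=
        ((continuous_snd.comp continuous_subtype_val).sub continuous_const).norm
      exact isOpen_lt h1 continuous_const
    refine ⟨hUo.trivializationDiscrete V U (fun i W hW => ⟨fun hWo => ?_, fun hWo => ?_⟩)
      (fun i => ?_) (fun i => ?_) (fun i j hij => ?_) ?_, hxU⟩
    · exact (hWo.preimage F.continuous_pr).inter (hVo i)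
    · rw [isOpen_iff_mem_nhds]
      intro x hx
      obtain ⟨y, hy, hyi⟩ := hex x (hW hx) i
      have hmem : (⟨(x, y), hy⟩ : F.E) ∈ F.pr ⁻¹' W ∩ V i := ⟨hx, hW hx, hyi⟩
      obtain ⟨O, hO, hOe⟩ := isOpen_induced_iff.1 hWo
      have hxyO : (x, y) ∈ O := by
        have : (⟨(x, y), hy⟩ : F.E) ∈ Subtype.val ⁻¹' O := by rw [hOe]; exact hmem
        exact this
      obtain ⟨r, hr, hball⟩ := Metric.isOpen_iff.1 hO _ hxyO
      have h1 := F.eventually_root hy hr
      have h2 : ∀ᶠ x' in 𝓝 x, dist x' x < r := Metric.ball_mem_nhds x hr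
      filter_upwards [h1, h2] with x' h1 h2
      obtain ⟨y', hy', hd⟩ := h1
      have h3 : (x', y') ∈ O := by
        apply hball
        rw [Metric.mem_ball, Prod.dist_eq, max_lt_iff]
        exact ⟨h2, by rw [dist_eq_norm]; exact hd⟩
      have h4 : (⟨(x', y'), hy'⟩ : F.E) ∈ F.pr ⁻¹' W ∩ V i := by
        rw [← hOe]; exact h3
      exact h4.1
    · rintro ⟨⟨x, y⟩, he⟩ ⟨h1, h2⟩ ⟨⟨x', y'⟩, he'⟩ ⟨h1', h2'⟩ hxx
      have hxx' : x = x' := hxx
      subst hxx'
      have := (F.unique_near hsep (hex x h1)).1 i y y' he h2 he' h2'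
      subst this
      rfl
    · intro x hx
      obtain ⟨y, hy, hyi⟩ := hex x hx i
      exact ⟨⟨(x, y), hy⟩, ⟨hx, hyi⟩, rfl⟩
    · rw [Function.onFun, Set.disjoint_left]
      rintro ⟨⟨x, y⟩, he⟩ ⟨_, h1⟩ ⟨_, h2⟩
      have h3 := hsep i j hij
      have h1' : ‖y - η i‖ < δ := h1
      have h2' : ‖y - η j‖ < δ := h2
      have h4 : ‖η i - η j‖ ≤ ‖y - η j‖ + ‖y - η i‖ := by
        have : η i - η j = (y - η j) - (y - η i) := by ring
        rw [this]
        exact norm_sub_le _ _
      linarith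
    · rintro ⟨⟨x, y⟩, he⟩ hx
      obtain ⟨i, hi⟩ := (F.unique_near hsep (hex x hx)).2 y he
      exact Set.mem_iUnion.2 ⟨i, hx, hi⟩
  choose t ht using key
  exact IsCoveringMapOn.mk F.pr F.reg (fun _ => Fin m) t ht

/-- **Labelling of the roots** over a simply connected open set. -/
theorem exists_labels {D : Set ℂ} (hD : IsOpen D) (hDs : IsSimplyConnected D)
    (hreg : D ⊆ F.reg) : ∃ y : Fin m → ℂ → ℂ, (∀ i, ContinuousOn (y i) D) ∧
      (∀ x ∈ D, ∀ i, (F.P x).eval (y i x) = 0) ∧
      ∀ x ∈ D, Function.Injective fun i => y i x := by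
  classical
  rcases Nat.eq_zero_or_pos m with hm | hm
  · subst hm
    exact ⟨fun i => i.elim0, fun i => i.elim0, fun _ _ i => i.elim0, fun _ _ i => i.elim0⟩
  have := hDs.simplyConnectedSpace
  have := hD.locallyPathConnectedSpace
  obtain ⟨x₀, hx₀⟩ := hDs.nonempty
  obtain ⟨η, hinj, hη⟩ := F.exists_enum (hreg hx₀)
  have cov := F.isCoveringMapOn_pr hm
  let ι : C(D, ℂ) := ⟨Subtype.val, continuous_subtype_val⟩
  have hlift : ∀ (a : D) (e : F.E), F.pr e = ι a →
      ∃! f : C(D, F.E), f a = e ∧ F.pr ∘ f = ι := fun a e he =>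
    cov.existsUnique_continuousMap_lifts ι he fun a => hreg a.2
  choose f hf _ using fun i : Fin m =>
    hlift ⟨x₀, hx₀⟩ ⟨(x₀, η i), (hη _).2 ⟨i, rfl⟩⟩ rfl
  have hfst : ∀ i (a : D), (f i a).1.1 = a.1 := fun i a => congrFun (hf i).2 a
  refine ⟨fun i x => if h : x ∈ D then (f i ⟨x, h⟩).1.2 else 0, fun i => ?_, fun x hx i => ?_,
    fun x hx i j hij => ?_⟩
  · rw [continuousOn_iff_continuous_domRestrict]
    have : (D.domRestrict fun x => if h : x ∈ D then (f i ⟨x, h⟩).1.2 else 0) =
        fun a => (f i a).1.2 := by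
      funext a
      simp [Set.domRestrict]
    rw [this]
    exact continuous_snd.comp (continuous_subtype_val.comp (map_continuous (f i)))
  · simp only [dif_pos hx]
    have h1 := (f i ⟨x, hx⟩).2
    rwa [hfst i ⟨x, hx⟩] at h1
  · simp only [dif_pos hx] at hij
    have h1 : f i ⟨x, hx⟩ = f j ⟨x, hx⟩ := by
      apply Subtype.ext
      exact Prod.ext ((hfst i _).trans (hfst j _).symm) hij
    obtain ⟨g, -, hg⟩ := hlift ⟨x, hx⟩ (f i ⟨x, hx⟩) (congrFun (hf i).2 ⟨x, hx⟩)
    have h2 := hg (f i) ⟨rfl, (hf i).2⟩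
    have h3 := hg (f j) ⟨h1.symm, (hf j).2⟩
    have h4 : f i = f j := h2.trans h3.symm
    have h5 : (f i ⟨x₀, hx₀⟩).1.2 = (f j ⟨x₀, hx₀⟩).1.2 := by rw [h4]
    rw [(hf i).1, (hf j).1] at h5
    exact hinj h5

end Family

end Pool.Agent.Rohlin
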