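import Pool.Agent.Rohlin.Star
import Pool.Agent.Rohlin.Fam

/-!
# Geometry of the star domain near a point of the closed disc
-/

set_option autoImplicit false

namespace Pool.Agent.Rohlin

open Set Topology Filter Complex

variable {c : ℂ} {Z : Finset ℂ}

lemma sc_combo {z : ℂ} (hzc : z ≠ c) {a b : ℝ} (hab : a + b = 1) (w w' : ℂ) :
    sc c z (a • w + b • w') = a • sc c z w + b • sc c z w' := by
  have h0 : c - z ≠ 0 := sub_ne_zero.2 (Ne.symm hzc)
  have hab' : (a : ℂ) + b = 1 := by exact_mod_cast hab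
  simp only [sc, real_smul]
  field_simp
  linear_combination z * hab'

lemma sc_mem_slitPlane_iff {z w : ℂ} (hzc : z ≠ c) :
    sc c z w ∈ slitPlane ↔ ∀ t : ℝ, 0 ≤ t → w ≠ z + t * (z - c) := by
  have h : c ∉ ({z} : Finset ℂ) := by
    rw [Finset.mem_singleton]
    exact Ne.symm hzc
  have := mem_Star (Z := {z}) h (w := w)
  simp only [Star, Finset.mem_singleton, forall_eq, mem_ofPred_eq] at this
  exact this.symm

lemma star_slitPlane {s : ℝ} (hs : 0 < s) : StarConvex ℝ (s : ℂ) slitPlane := by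
  intro w hw a b ha hb hab
  rw [mem_slitPlane_iff] at hw ⊢
  simp only [real_smul, add_re, mul_re, ofReal_re, ofReal_im, zero_mul, sub_zero, add_im, mul_im,
    mul_zero, add_zero, zero_add]
  rcases hb.eq_or_lt with h | h
  · left
    have ha1 : a = 1 := by linarith
    rw [← h, ha1]
    linarith
  · rcases hw with hw | hw
    · left
      have h1 : 0 ≤ a * s := by positivity
      have h2 : 0 < b * w.re := by positivity
      linarith
    · right
      exact mul_ne_zero h.ne' hw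

/-- the part of the closed disc near `z` outside the slit of `z` is connected -/
lemma preconn_slitball {z : ℂ} (hzc : z ≠ c) (hc : ‖c‖ < 1) (hz : ‖z‖ ≤ 1) (ε : ℝ) (hε : 0 < ε) :
    IsPreconnected {w : ℂ | ‖w‖ ≤ 1 ∧ ‖w - z‖ < ε ∧ sc c z w ∈ slitPlane} := by
  have hcz : 0 < ‖c - z‖ := norm_pos_iff.2 (sub_ne_zero.2 (Ne.symm hzc))
  set s : ℝ := min (1 / 2) (ε / (2 * ‖c - z‖)) with hs
  have hs0 : 0 < s := lt_min (by norm_num) (by positivity)
  have hs1 : s ≤ 1 / 2 := min_le_left _ _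
  have hs2 : s * ‖c - z‖ < ε := by
    have : s ≤ ε / (2 * ‖c - z‖) := min_le_right _ _
    calc s * ‖c - z‖ ≤ ε / (2 * ‖c - z‖) * ‖c - z‖ := by gcongr
      _ = ε / 2 := by field_simp
      _ < ε := by linarith
  set p : ℂ := z + s * (c - z) with hp
  have hpc : p = (1 - s) • z + s • c := by
    rw [hp]
    simp only [real_smul]
    push_cast
    ring
  have hpsc : sc c z p = s := by
    rw [sc, hp, add_sub_cancel_left, mul_div_assoc, div_self (sub_ne_zero.2 (Ne.symm hzc)), mul_one]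
  have hpn : ‖p‖ ≤ 1 := by
    rw [hpc]
    calc ‖(1 - s) • z + s • c‖ ≤ ‖(1 - s) • z‖ + ‖s • c‖ := norm_add_le _ _
      _ = (1 - s) * ‖z‖ + s * ‖c‖ := by
        rw [norm_smul, norm_smul, Real.norm_of_nonneg hs0.le, Real.norm_of_nonneg (by linarith)]
      _ ≤ 1 := by nlinarith [norm_nonneg c, norm_nonneg z]
  have hpz : ‖p - z‖ < ε := by
    rw [hp, add_sub_cancel_left, norm_mul, Complex.norm_real, Real.norm_of_nonneg hs0.le]
    exact hs2
  have h1 : StarConvex ℝ p {w : ℂ | ‖w‖ ≤ 1 ∧ ‖w - z‖ < ε ∧ sc c z w ∈ slitPlane} := by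
    intro w hw a b ha hb hab
    obtain ⟨hw1, hw2, hw3⟩ := hw
    refine ⟨?_, ?_, ?_⟩
    · have := (convex_closedBall (0 : ℂ) 1) (x := p) (by simpa using hpn) (y := w)
        (by simpa using hw1) ha hb hab
      simpa using this
    · have := (convex_ball z ε) (x := p) (by simpa [dist_eq_norm] using hpz) (y := w)
        (by simpa [dist_eq_norm] using hw2) ha hb hab
      simpa [dist_eq_norm] using this
    · rw [sc_combo hzc hab, hpsc]
      exact star_slitPlane hs0 hw3 ha hb hab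
  have hne : p ∈ {w : ℂ | ‖w‖ ≤ 1 ∧ ‖w - z‖ < ε ∧ sc c z w ∈ slitPlane} := by
    refine ⟨hpn, hpz, ?_⟩
    rw [hpsc, ofReal_mem_slitPlane]
    exact hs0
  exact (h1.isPathConnected hne).isConnected.isPreconnected

lemma preconn_half (z w₀ : ℂ) (hzc : z ≠ c) (ε σ : ℝ) :
    IsPreconnected {w : ℂ | ‖w‖ ≤ 1 ∧ ‖w - w₀‖ < ε ∧ 0 < σ * (sc c z w).im} := by
  apply Convex.isPreconnected
  intro w hw w' hw' a b ha hb hab
  obtain ⟨hw1, hw2, hw3⟩ := hw
  obtain ⟨hw1', hw2', hw3'⟩ := hw'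
  refine ⟨?_, ?_, ?_⟩
  · have := (convex_closedBall (0 : ℂ) 1) (x := w) (by simpa using hw1) (y := w')
      (by simpa using hw1') ha hb hab
    simpa using this
  · have := (convex_ball w₀ ε) (x := w) (by simpa [dist_eq_norm] using hw2) (y := w')
      (by simpa [dist_eq_norm] using hw2') ha hb hab
    simpa [dist_eq_norm] using this
  · rw [sc_combo hzc hab]
    simp only [real_smul, add_im, mul_im, ofReal_re, ofReal_im, zero_mul, add_zero]
    rcases hb.eq_or_lt with h | h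
    · have ha1 : a = 1 := by linarith
      rw [← h, ha1]
      simpa using hw3
    · have e1 : 0 ≤ a * (σ * (sc c z w).im) := by positivity
      have e2 : 0 < b * (σ * (sc c z w').im) := by positivity
      nlinarith

/-- the slits which do not pass through a point stay away from it -/
lemma eventually_avoid {z w₀ : ℂ} (h : ∀ z' ∈ Z, z' ≠ z → sc c z' w₀ ∈ slitPlane) :
    ∀ᶠ w in 𝓝 w₀, ∀ z' ∈ Z, z' ≠ z → sc c z' w ∈ slitPlane := by
  rw [Finset.eventually_all]
  intro z' hz'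
  by_cases hne : z' = z
  · exact Eventually.of_forall fun _ h' => absurd hne h'
  · have := (continuous_sc c z').continuousAt.eventually
      (isOpen_slitPlane.mem_nhds (h z' hz' hne))
    filter_upwards [this] with w hw _
    exact hw

/-- density of the star domain in the open disc -/
lemma exists_mem_Star_near (hc : ‖c‖ < 1) (hcZ : c ∉ Z) {w₀ : ℂ} (hw₀ : ‖w₀‖ ≤ 1) {ε : ℝ}
    (hε : 0 < ε) : ∃ w ∈ Star c Z, ‖w‖ ≤ 1 ∧ ‖w - w₀‖ < ε := by
  by_cases h0 : w₀ = c
  · subst h0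
    exact ⟨w₀, centre_mem_Star hcZ, hw₀, by simpa using hε⟩
  let p : ℝ → ℂ := fun τ => c + (w₀ - c) * ((1 - τ) * (1 + τ ^ 2 * I))
  have hpc : Continuous p := by
    show Continuous fun τ : ℝ => c + (w₀ - c) * ((1 - (τ : ℂ)) * (1 + (τ : ℂ) ^ 2 * I))
    fun_prop
  have hp0 : p 0 = w₀ := by
    show c + (w₀ - c) * ((1 - ((0 : ℝ) : ℂ)) * (1 + ((0 : ℝ) : ℂ) ^ 2 * I)) = w₀
    simp
  have e1 : ∀ᶠ τ : ℝ in 𝓝[>] 0, ‖p τ - w₀‖ < ε := by
    refine eventually_nhdsWithin_of_eventually_nhds ?_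
    refine (hpc.sub continuous_const).norm.continuousAt.eventually (gt_mem_nhds ?_)
    show ‖p 0 - w₀‖ < ε
    rw [hp0, sub_self, norm_zero]
    exact hε
  have e2 : ∀ᶠ τ : ℝ in 𝓝[>] 0, ‖p τ‖ ≤ 1 := by
    have h1 : Ioo (0 : ℝ) (min (1 / 2) ((1 - ‖c‖) / 2)) ∈ 𝓝[>] (0 : ℝ) :=
      Ioo_mem_nhdsGT (lt_min (by norm_num) (by linarith))
    filter_upwards [h1] with τ hτ
    obtain ⟨ht0, ht1⟩ := hτ
    have ht2 : τ < 1 / 2 := lt_of_lt_of_le ht1 (min_le_left _ _)
    have ht3 : τ < (1 - ‖c‖) / 2 := lt_of_lt_of_le ht1 (min_le_right _ _)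
    have h2 : p τ = ((1 - τ : ℝ) : ℂ) * w₀ + (τ : ℂ) * c +
        (w₀ - c) * ((1 - τ : ℝ) : ℂ) * ((τ ^ 2 : ℝ) : ℂ) * I := by
      show c + (w₀ - c) * ((1 - (τ : ℂ)) * (1 + (τ : ℂ) ^ 2 * I)) = _
      push_cast
      ring
    have h3 : ‖w₀ - c‖ ≤ 2 := (norm_sub_le _ _).trans (by linarith)
    calc ‖p τ‖ ≤ ‖((1 - τ : ℝ) : ℂ) * w₀‖ + ‖(τ : ℂ) * c‖ +
          ‖(w₀ - c) * ((1 - τ : ℝ) : ℂ) * ((τ ^ 2 : ℝ) : ℂ) * I‖ := by
          rw [h2]
          exact (norm_add_le _ _).trans (by gcongr; exact norm_add_le _ _)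
      _ = (1 - τ) * ‖w₀‖ + τ * ‖c‖ + ‖w₀ - c‖ * (1 - τ) * τ ^ 2 := by
          simp only [norm_mul, Complex.norm_real, Complex.norm_I, mul_one]
          rw [Real.norm_of_nonneg (by linarith : (0 : ℝ) ≤ 1 - τ),
            Real.norm_of_nonneg (by positivity : (0 : ℝ) ≤ τ ^ 2), Real.norm_of_nonneg ht0.le]
      _ ≤ (1 - τ) * 1 + τ * ‖c‖ + 2 * 1 * τ ^ 2 := by
          gcongr <;> linarith
      _ ≤ 1 := by nlinarith
  have e3 : ∀ᶠ τ : ℝ in 𝓝[>] 0, ∀ z ∈ Z, sc c z (p τ) ∈ slitPlane := by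
    rw [Finset.eventually_all]
    intro z hz
    have hzc : z ≠ c := fun h => hcZ (h ▸ hz)
    have hcz : c - z ≠ 0 := sub_ne_zero.2 (Ne.symm hzc)
    set q : ℂ := (w₀ - c) / (c - z) with hq
    have hq0 : q ≠ 0 := div_ne_zero (sub_ne_zero.2 h0) hcz
    have hsc : ∀ τ : ℝ, (sc c z (p τ)).im = (1 - τ) * (q.im + τ ^ 2 * q.re) := by
      intro τ
      have h1 : sc c z (p τ) = 1 + q * ((1 - (τ : ℂ)) * (1 + (τ : ℂ) ^ 2 * I)) := by
        show (c + (w₀ - c) * ((1 - (τ : ℂ)) * (1 + (τ : ℂ) ^ 2 * I)) - z) / (c - z) = _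
        rw [hq]
        field_simp
        ring
      have h2 : (1 - (τ : ℂ)) * (1 + (τ : ℂ) ^ 2 * I) =
          (((1 - τ : ℝ)) : ℂ) + (((1 - τ) * τ ^ 2 : ℝ) : ℂ) * I := by
        push_cast
        ring
      rw [h1, h2]
      simp only [add_im, one_im, mul_im, add_re, ofReal_re, mul_re, ofReal_im, I_re, mul_zero,
        I_im, mul_one, sub_zero, zero_add, add_zero, zero_mul, sub_self]
      ring
    by_cases hqi : q.im = 0
    · have hqr : q.re ≠ 0 := fun h => hq0 (Complex.ext h hqi)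
      have h1 : Ioo (0 : ℝ) 1 ∈ 𝓝[>] (0 : ℝ) := Ioo_mem_nhdsGT one_pos
      filter_upwards [h1] with τ hτ
      rw [mem_slitPlane_iff]
      right
      rw [hsc, hqi, zero_add]
      have : (1 - τ) ≠ 0 := by linarith [hτ.2]
      exact mul_ne_zero this (mul_ne_zero (pow_ne_zero 2 hτ.1.ne') hqr)
    · have h1 : Continuous fun τ : ℝ => (1 - τ) * (q.im + τ ^ 2 * q.re) := by fun_prop
      have h2 : ∀ᶠ τ : ℝ in 𝓝 0, (1 - τ) * (q.im + τ ^ 2 * q.re) ≠ 0 := by
        refine h1.continuousAt.eventually_ne ?_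
        simpa using hqi
      filter_upwards [eventually_nhdsWithin_of_eventually_nhds h2] with τ hτ
      rw [mem_slitPlane_iff]
      right
      rw [hsc]
      exact hτ
  obtain ⟨τ, h1, h2, h3⟩ := (e1.and (e2.and e3)).exists
  exact ⟨p τ, (mem_Star hcZ).2 h3, h2, h1⟩

/-- finitely many points of the unit circle lie on a line through `c` -/
lemma finite_line_circle {z : ℂ} (hzc : z ≠ c) :
    {w : ℂ | ‖w‖ = 1 ∧ ∃ t : ℝ, w = c + t * (z - c)}.Finite := by
  set d : ℂ := z - c with hd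
  have hd0 : d ≠ 0 := sub_ne_zero.2 hzc
  let P : Polynomial ℝ := Polynomial.C (normSq d) * Polynomial.X ^ 2 +
    Polynomial.C (2 * (c.re * d.re + c.im * d.im)) * Polynomial.X +
    Polynomial.C (normSq c - 1)
  have hP : P ≠ 0 := by
    intro h
    have h1 : P.coeff 2 = normSq d := by
      simp only [P, Polynomial.coeff_add, Polynomial.coeff_C_mul, Polynomial.coeff_X_pow,
        Polynomial.coeff_X, Polynomial.coeff_C]
      norm_num
    rw [h, Polynomial.coeff_zero] at h1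
    exact hd0 (normSq_eq_zero.1 h1.symm)
  have hfin : {t : ℝ | P.IsRoot t}.Finite := Polynomial.finite_setOfPred_isRoot hP
  refine (hfin.image fun t : ℝ => c + t * d).subset ?_
  rintro w ⟨hw, t, rfl⟩
  refine ⟨t, ?_, rfl⟩
  show P.eval t = 0
  have h1 : normSq (c + t * d) = 1 := by
    rw [normSq_eq_norm_sq, hw, one_pow]
  simp only [P, Polynomial.eval_add, Polynomial.eval_mul, Polynomial.eval_C, Polynomial.eval_pow,
    Polynomial.eval_X]
  rw [normSq_apply] at h1 ⊢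
  rw [normSq_apply]
  simp only [add_re, mul_re, ofReal_re, ofReal_im, zero_mul, sub_zero, add_im, mul_im,
    add_zero] at h1
  linear_combination h1

lemma circ_injOn {a : ℝ} : InjOn circ (Ioo a (a + 1)) := by
  intro x hx y hy h
  have h1 : exp (2 * x * I - 2 * y * I) = 1 := by
    rw [Complex.exp_sub]
    have : exp (2 * x * I) = exp (2 * y * I) := h
    rw [this, div_self (Complex.exp_ne_zero _)]
  rw [Complex.exp_eq_one_iff] at h1
  obtain ⟨n, hn⟩ := h1
  have h2 : (2 * (x - y) : ℂ) = n * (2 * Real.pi) := by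
    have h3 : (2 * (x - y) : ℂ) * I = n * (2 * Real.pi) * I := by linear_combination hn
    exact mul_right_cancel₀ I_ne_zero h3
  have h3 : x - y = n * Real.pi := by
    have : 2 * (x - y) = n * (2 * Real.pi) := by exact_mod_cast h2
    linarith
  have h4 : |x - y| < 1 := by
    rw [abs_lt]
    constructor <;> linarith [hx.1, hx.2, hy.1, hy.2]
  have h5 : n = 0 := by
    by_contra hn0
    have h6 : (1 : ℝ) ≤ |(n : ℝ)| := by exact_mod_cast Int.one_le_abs hn0
    rw [h3, abs_mul, abs_of_pos Real.pi_pos] at h4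
    nlinarith [Real.pi_gt_three]
  rw [h5] at h3
  simp only [Int.cast_zero, zero_mul] at h3
  linarith

/-- density of the regular angles -/
lemma exists_circ_mem_Star (hcZ : c ∉ Z) (θ₀ : ℝ) {δ : ℝ} (hδ : 0 < δ) :
    ∃ θ, θ₀ < θ ∧ θ < θ₀ + δ ∧ circ θ ∈ Star c Z := by
  by_contra hcon
  push Not at hcon
  set δ' := min δ 1 with hδ'
  have hδ'0 : 0 < δ' := lt_min hδ one_pos
  have hfin : (⋃ z ∈ Z, {w : ℂ | ‖w‖ = 1 ∧ ∃ t : ℝ, w = c + t * (z - c)}).Finite := by
    refine Z.finite_toSet.biUnion fun z hz => finite_line_circle ?_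
    intro h
    exact hcZ (h ▸ hz)
  have hmaps : MapsTo circ (Ioo θ₀ (θ₀ + δ'))
      (⋃ z ∈ Z, {w : ℂ | ‖w‖ = 1 ∧ ∃ t : ℝ, w = c + t * (z - c)}) := by
    intro θ hθ
    have h1 : circ θ ∉ Star c Z :=
      hcon θ hθ.1 (lt_of_lt_of_le hθ.2 (by linarith [min_le_left δ 1]))
    simp only [Star, mem_ofPred_eq, not_forall, not_not] at h1
    obtain ⟨z, hz, t, ht, he⟩ := h1
    refine mem_biUnion hz ⟨norm_circ θ, 1 + t, ?_⟩
    rw [he]
    push_cast
    ring
  have hinj : InjOn circ (Ioo θ₀ (θ₀ + δ')) :=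
    circ_injOn.mono (Ioo_subset_Ioo le_rfl (by linarith [min_le_right δ 1]))
  have h2 := Set.Finite.of_injOn hmaps hinj hfin
  exact (Ioo_infinite (by linarith : θ₀ < θ₀ + δ')) h2

end Pool.Agent.Rohlin
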