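import Mathlib

/-!
# Real plane curves, their real schemes and types

The real projective plane and the complex projective plane carry the quotient topology.  The real
scheme of a nonsingular real curve is recorded by the forest of the nested closed discs which are
bounded by its ovals (for odd degree there is one more one-sided component).
-/

set_option autoImplicit false

namespace Pool.Agent.Rohlin

open MvPolynomial Set Metric

/-- the real projective plane -/
abbrev RP2 : Type := Projectivization ℝ (Fin 3 → ℝ)

/-- the complex projective plane -/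
abbrev CP2 : Type := Projectivization ℂ (Fin 3 → ℂ)

/-- the quotient topology of the real projective plane -/
instance : TopologicalSpace RP2 :=
  inferInstanceAs (TopologicalSpace (Quotient (projectivizationSetoid ℝ (Fin 3 → ℝ))))

/-- the quotient topology of the complex projective plane -/
instance : TopologicalSpace CP2 :=
  inferInstanceAs (TopologicalSpace (Quotient (projectivizationSetoid ℂ (Fin 3 → ℂ))))

/-- a real plane curve of degree `m` which is nonsingular (also over the complex numbers) -/
structure RealCurve (m : ℕ) where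
  /-- the equation -/
  F : MvPolynomial (Fin 3) ℝ
  hom : F.IsHomogeneous m
  nonsing : ∀ z : Fin 3 → ℂ, z ≠ 0 → aeval z F = 0 → ∃ i, aeval z (pderiv i F) ≠ 0

/-- the real locus -/
def RealCurve.real {m : ℕ} (A : RealCurve m) : Set RP2 := {p | eval p.rep A.F = 0}

/-- the complex locus -/
def RealCurve.complex {m : ℕ} (A : RealCurve m) : Set CP2 := {p | aeval p.rep A.F = 0}

/-- the real points of the complex projective plane -/
def realPoints : Set CP2 :=
  {p | ∃ (v : Fin 3 → ℝ) (h : (fun i => (v i : ℂ)) ≠ 0), p = Projectivization.mk ℂ _ h}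

/-- a curve is dividing (of type I) if the complex locus minus the real locus is disconnected -/
def RealCurve.Dividing {m : ℕ} (A : RealCurve m) : Prop :=
  ¬ IsPreconnected (A.complex \ realPoints)

/-- a closed topological disc in the real projective plane: the image of the closed unit disc under
a continuous injective map which takes the open unit disc to the interior of the image -/
def IsDisc (Δ : Set RP2) : Prop :=
  ∃ δ : closedBall (0 : ℂ) 1 → RP2, Continuous δ ∧ Function.Injective δ ∧ range δ = Δ ∧
    interior Δ = δ '' {z | ‖(z : ℂ)‖ < 1}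

/-- a one-sided simple closed curve in the real projective plane -/
def IsOneSided (J : Set RP2) : Prop :=
  (∃ γ : Circle → RP2, Continuous γ ∧ Function.Injective γ ∧ range γ = J) ∧ IsConnected Jᶜ

/-- a (combinatorial) scheme: finitely many ovals, `le i j` says that the oval `i` is equal to the
oval `j` or lies inside of it -/
structure Scheme where
  /-- the number of ovals -/
  n : ℕ
  /-- the nesting relation -/
  le : Fin n → Fin n → Prop

/-- `X` has the scheme `S` (in degree `m`): the ovals are the boundaries of closed discs which are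
nested as prescribed by `S` and otherwise disjoint, and for odd `m` there is exactly one further
component, which is one-sided -/
def HasScheme (m : ℕ) (X : Set RP2) (S : Scheme) : Prop :=
  ∃ (Δ : Fin S.n → Set RP2) (J : Set RP2),
    (∀ i, IsDisc (Δ i)) ∧
    (∀ i j, i ≠ j → S.le i j → Δ i ⊆ interior (Δ j)) ∧
    (∀ i j, ¬ S.le i j → ¬ S.le j i → Disjoint (Δ i) (Δ j)) ∧
    (∀ i, S.le i i) ∧ (∀ i j, i ≠ j → S.le i j → ¬ S.le j i) ∧
    ((Even m ∧ J = ∅) ∨ (Odd m ∧ IsOneSided J)) ∧ (∀ i, Disjoint (Δ i) J) ∧
    X = J ∪ ⋃ i, frontier (Δ i)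

/-- `S` is a real scheme of degree `m` -/
def IsRealScheme (m : ℕ) (S : Scheme) : Prop := ∃ A : RealCurve m, HasScheme m A.real S

/-- the real scheme `S` of degree `m` is of type I -/
def IsTypeOne (m : ℕ) (S : Scheme) : Prop :=
  ∀ A : RealCurve m, HasScheme m A.real S → A.Dividing

/-- `S` is obtained from `S'` by deleting at least one oval -/
def ProperSub (S S' : Scheme) : Prop :=
  (∃ e : Fin S.n → Fin S'.n, Function.Injective e ∧ ∀ i j, S.le i j ↔ S'.le (e i) (e j)) ∧
    S.n < S'.n

/-- Rohlin's conjecture (Q1): every real scheme of degree `m` which is of type I is maximal -/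
def RohlinMaximality : Prop :=
  ∀ m : ℕ, 1 ≤ m → ∀ S : Scheme, IsRealScheme m S → IsTypeOne m S →
    ¬ ∃ S' : Scheme, IsRealScheme m S' ∧ ProperSub S S'

/-- the scheme `15 ⊔ 1⟨4⟩`: the ovals `0, 1, 2, 3` lie inside the oval `4`, the ovals
`5, …, 19` are empty and outer -/
def S15 : Scheme := ⟨20, fun i j => i = j ∨ (i.val < 4 ∧ j.val = 4)⟩

/-- the scheme `13 ⊔ 1⟨2⟩ ⊔ 1⟨4⟩`: the ovals `0, 1, 2, 3` lie inside the oval `4`, the ovals `5, 6`
lie inside the oval `7`, the ovals `8, …, 20` are empty and outer -/
def S13 : Scheme :=
  ⟨21, fun i j => i = j ∨ (i.val < 4 ∧ j.val = 4) ∨ ((i.val = 5 ∨ i.val = 6) ∧ j.val = 7)⟩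

/-- the embedding which forgets the oval `7` -/
def forget (i : Fin 20) : Fin 21 := if i.val < 7 then ⟨i.val, by omega⟩ else ⟨i.val + 1, by omega⟩

theorem forget_val (x : Fin 20) : (forget x).val = if x.val < 7 then x.val else x.val + 1 := by
  unfold forget
  split_ifs <;> rfl

theorem S15_properSub_S13 : ProperSub S15 S13 := by
  refine ⟨⟨forget, ?_, ?_⟩, by decide⟩
  · intro i j h
    have h1 : (forget i).val = (forget j).val := by rw [h]
    rw [forget_val i, forget_val j] at h1
    apply Fin.ext
    split_ifs at h1 <;> omega
  · intro i j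
    show (i = j ∨ (i.val < 4 ∧ j.val = 4)) ↔ (forget i = forget j ∨
      ((forget i).val < 4 ∧ (forget j).val = 4) ∨
      (((forget i).val = 5 ∨ (forget i).val = 6) ∧ (forget j).val = 7))
    rw [Fin.ext_iff, Fin.ext_iff, forget_val i, forget_val j]
    split_ifs <;> omega

/-- the disproof of the maximality conjecture from its three ingredients -/
theorem not_rohlin (h1 : IsRealScheme 8 S15) (h2 : IsTypeOne 8 S15) (h3 : IsRealScheme 8 S13) :
    ¬ RohlinMaximality := fun h =>
  h 8 (by norm_num) S15 h1 h2 ⟨S13, h3, S15_properSub_S13⟩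

end Pool.Agent.Rohlin
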