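import Pool.Agent.Rohlin.Transv

/-!
# Signs of the derivative at the roots
-/

namespace Pool.Agent.Rohlin

open Polynomial Finset Lagrange

section

variable {P : Type*} [Fintype P] [DecidableEq P] {A B : P → ℂ} {kind : P → Fin 3}

theorem eraseInl (p : P) : (univ : Finset (P ⊕ P)).erase (Sum.inl p) =
    (univ.erase p).disjSum univ := by
  ext i
  rcases i with i | i
  · simp
  · simp

theorem eraseInr (p : P) : (univ : Finset (P ⊕ P)).erase (Sum.inr p) =
    univ.disjSum (univ.erase p) := by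
  ext i
  rcases i with i | i
  · simp
  · simp

theorem weight_inl (A B : P → ℂ) (p : P) : nodalWeight univ (Sum.elim A B) (Sum.inl p) =
    ((A p - B p) * ∏ q ∈ univ.erase p, ((A p - A q) * (A p - B q)))⁻¹ := by
  rw [nodalWeight_eq_eval_nodal_erase_inv, eval_nodal, eraseInl, prod_disjSum]
  congr 1
  simp only [Sum.elim_inl, Sum.elim_inr]
  rw [← mul_prod_erase univ _ (mem_univ p), prod_mul_distrib]
  ring

theorem weight_inr (A B : P → ℂ) (p : P) : nodalWeight univ (Sum.elim A B) (Sum.inr p) =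
    ((B p - A p) * ∏ q ∈ univ.erase p, ((B p - A q) * (B p - B q)))⁻¹ := by
  rw [nodalWeight_eq_eval_nodal_erase_inv, eval_nodal, eraseInr, prod_disjSum]
  congr 1
  simp only [Sum.elim_inl, Sum.elim_inr]
  rw [← mul_prod_erase univ _ (mem_univ p), prod_mul_distrib]
  ring

/-- the real factor `(x - A q) (x - B q)` at a real point -/
noncomputable def Fr (A B : P → ℂ) (kind : P → Fin 3) (q : P) (x : ℝ) : ℝ :=
  if kind q = 2 then Complex.normSq (x - A q) else (x - (A q).re) * (x - (B q).re)

omit [Fintype P] [DecidableEq P] in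
theorem factor_real (hC : Conf A B kind) (q : P) (x : ℝ) :
    ((x : ℂ) - A q) * ((x : ℂ) - B q) = (Fr A B kind q x : ℂ) := by
  unfold Fr
  split_ifs with h
  · obtain ⟨-, hB⟩ := hC.cpx q h
    rw [hB]
    have h1 : (x : ℂ) - starRingEnd ℂ (A q) = starRingEnd ℂ ((x : ℂ) - A q) := by
      rw [map_sub, Complex.conj_ofReal]
    rw [h1, Complex.mul_conj]
  · obtain ⟨hA, hB, -⟩ := hC.real q h
    have h1 : A q = (((A q).re : ℝ) : ℂ) := Complex.ext rfl (by simpa using hA)
    have h2 : B q = (((B q).re : ℝ) : ℂ) := Complex.ext rfl (by simpa using hB)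
    push_cast
    rw [← h1, ← h2]

omit [Fintype P] [DecidableEq P] in
theorem Fr_pos_cpx (hC : Conf A B kind) (q : P) (hq : kind q = 2) (x : ℝ) : 0 < Fr A B kind q x := by
  unfold Fr
  rw [if_pos hq, Complex.normSq_pos]
  intro h
  have h1 := congrArg Complex.im h
  rw [Complex.sub_im, Complex.ofReal_im, Complex.zero_im] at h1
  have := (hC.cpx q hq).1
  linarith

omit [Fintype P] [DecidableEq P] in
theorem Fr_pos_real (hC : Conf A B kind) (q : P) (hq : kind q ≠ 2) (x : ℝ)
    (hx : x < (A q).re ∨ (B q).re < x) : 0 < Fr A B kind q x := by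
  unfold Fr
  rw [if_neg hq]
  have := (hC.real q hq).2.2
  rcases hx with h | h
  · exact mul_pos_of_neg_of_neg (by linarith) (by linarith)
  · exact mul_pos (by linarith) (by linarith)

omit [Fintype P] [DecidableEq P] in
theorem Fr_neg_real (q : P) (hq : kind q ≠ 2) (x : ℝ)
    (hx1 : (A q).re < x) (hx2 : x < (B q).re) : Fr A B kind q x < 0 := by
  unfold Fr
  rw [if_neg hq]
  exact mul_neg_of_pos_of_neg (by linarith) (by linarith)

/-- at the ends of an interval of depth 0 the other factors are positive -/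
theorem prod_pos_out (hC : Conf A B kind) (p : P) (hp : kind p = 0) (x : ℝ)
    (hx : x = (A p).re ∨ x = (B p).re) : 0 < ∏ q ∈ univ.erase p, Fr A B kind q x := by
  have hp2 : kind p ≠ 2 := by rw [hp]; decide
  have hab := (hC.real p hp2).2.2
  refine prod_pos fun q hq => ?_
  have hqp : q ≠ p := (mem_erase.1 hq).1
  rcases fin3_cases (kind q) with h | h | h
  · refine Fr_pos_real hC q (by rw [h]; decide) x ?_
    rcases hC.disj q p hqp (h.trans hp.symm) (by rw [h]; decide) with h1 | h1
    · rcases hx with rfl | rfl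
      · exact Or.inr h1
      · exact Or.inr (h1.trans hab)
    · rcases hx with rfl | rfl
      · exact Or.inl (hab.trans h1)
      · exact Or.inl h1
  · have hq2 : kind q ≠ 2 := by rw [h]; decide
    refine Fr_pos_real hC q hq2 x ?_
    have hqab := (hC.real q hq2).2.2
    obtain ⟨r, hr, h1, h2⟩ := hC.parent q h
    by_cases hrp : r = p
    · subst hrp
      rcases hx with rfl | rfl
      · exact Or.inl h1
      · exact Or.inr h2
    · rcases hC.disj r p hrp (hr.trans hp.symm) (by rw [hr]; decide) with h3 | h3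
      · rcases hx with rfl | rfl
        · exact Or.inr (by linarith)
        · exact Or.inr (by linarith)
      · rcases hx with rfl | rfl
        · exact Or.inl (by linarith)
        · exact Or.inl (by linarith)
  · exact Fr_pos_cpx hC q h x

/-- at the ends of an interval of depth 1 the product of the other factors is negative -/
theorem prod_neg_inn (hC : Conf A B kind) (p : P) (hp : kind p = 1) (x : ℝ)
    (hx : x = (A p).re ∨ x = (B p).re) : ∏ q ∈ univ.erase p, Fr A B kind q x < 0 := by
  have hp2 : kind p ≠ 2 := by rw [hp]; decide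
  have hab := (hC.real p hp2).2.2
  obtain ⟨r, hr, h1, h2⟩ := hC.parent p hp
  have hrp : r ≠ p := by rintro rfl; rw [hp] at hr; exact absurd hr (by decide)
  rw [← mul_prod_erase _ _ (mem_erase.2 ⟨hrp, mem_univ r⟩)]
  refine mul_neg_of_neg_of_pos ?_ (prod_pos fun q hq => ?_)
  · refine Fr_neg_real r (by rw [hr]; decide) x ?_ ?_
    · rcases hx with rfl | rfl
      · exact h1
      · exact h1.trans hab
    · rcases hx with rfl | rfl
      · exact hab.trans h2
      · exact h2
  · obtain ⟨hqr, hq'⟩ := mem_erase.1 hq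
    have hqp : q ≠ p := (mem_erase.1 hq').1
    rcases fin3_cases (kind q) with h | h | h
    · refine Fr_pos_real hC q (by rw [h]; decide) x ?_
      rcases hC.disj q r hqr (h.trans hr.symm) (by rw [h]; decide) with h3 | h3
      · rcases hx with rfl | rfl
        · exact Or.inr (by linarith)
        · exact Or.inr (by linarith)
      · rcases hx with rfl | rfl
        · exact Or.inl (by linarith)
        · exact Or.inl (by linarith)
    · have hq2 : kind q ≠ 2 := by rw [h]; decide
      refine Fr_pos_real hC q hq2 x ?_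
      rcases hC.disj q p hqp (h.trans hp.symm) hq2 with h3 | h3
      · rcases hx with rfl | rfl
        · exact Or.inr h3
        · exact Or.inr (h3.trans hab)
      · rcases hx with rfl | rfl
        · exact Or.inl (hab.trans h3)
        · exact Or.inl h3
    · exact Fr_pos_cpx hC q h x

omit [DecidableEq P] in
/-- the value of the polynomial at a real point is real -/
theorem nodal_eval_real (hC : Conf A B kind) (x : ℝ) :
    (nodal univ (Sum.elim A B)).eval (x : ℂ) = ((∏ q, Fr A B kind q x : ℝ) : ℂ) := by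
  rw [eval_nodal, Fintype.prod_sum_type]
  simp only [Sum.elim_inl, Sum.elim_inr]
  rw [← prod_mul_distrib]
  push_cast
  exact prod_congr rfl fun q _ => factor_real hC q x

theorem weight_inl_real (hC : Conf A B kind) (p : P) (hp : kind p ≠ 2) :
    nodalWeight univ (Sum.elim A B) (Sum.inl p) =
      ((((A p).re - (B p).re) * ∏ q ∈ univ.erase p, Fr A B kind q (A p).re)⁻¹ : ℝ) := by
  obtain ⟨hA, hB, -⟩ := hC.real p hp
  have h1 : A p = (((A p).re : ℝ) : ℂ) := Complex.ext rfl (by simpa using hA)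
  have h2 : B p = (((B p).re : ℝ) : ℂ) := Complex.ext rfl (by simpa using hB)
  rw [weight_inl]
  push_cast
  congr 2
  · rw [← h1, ← h2]
  · refine prod_congr rfl fun q _ => ?_
    rw [← factor_real hC, ← h1]

theorem weight_inr_real (hC : Conf A B kind) (p : P) (hp : kind p ≠ 2) :
    nodalWeight univ (Sum.elim A B) (Sum.inr p) =
      ((((B p).re - (A p).re) * ∏ q ∈ univ.erase p, Fr A B kind q (B p).re)⁻¹ : ℝ) := by
  obtain ⟨hA, hB, -⟩ := hC.real p hp
  have h1 : A p = (((A p).re : ℝ) : ℂ) := Complex.ext rfl (by simpa using hA)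
  have h2 : B p = (((B p).re : ℝ) : ℂ) := Complex.ext rfl (by simpa using hB)
  rw [weight_inr]
  push_cast
  congr 2
  · rw [← h1, ← h2]
  · refine prod_congr rfl fun q _ => ?_
    rw [← factor_real hC, ← h2]

omit [Fintype P] [DecidableEq P] in
/-- the roots are closed under conjugation -/
theorem factor_conj (hC : Conf A B kind) (q : P) (x : ℂ) :
    (starRingEnd ℂ x - A q) * (starRingEnd ℂ x - B q) =
      starRingEnd ℂ ((x - A q) * (x - B q)) := by
  rw [map_mul, map_sub, map_sub]
  by_cases h : kind q = 2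
  · obtain ⟨-, hB⟩ := hC.cpx q h
    rw [hB, Complex.conj_conj]
    ring
  · obtain ⟨hA, hB, -⟩ := hC.real q h
    rw [Complex.conj_eq_iff_im.2 hA, Complex.conj_eq_iff_im.2 hB]

theorem wt_simple (hC : Conf A B kind) : Wt kind (nodalWeight univ (Sum.elim A B)) := by
  refine ⟨fun p hp => ?_, fun p hp => ?_, fun p hp => ?_⟩
  · have hp2 : kind p ≠ 2 := by rw [hp]; decide
    have hab := (hC.real p hp2).2.2
    rw [weight_inl_real hC p hp2, weight_inr_real hC p hp2]
    refine ⟨Complex.ofReal_im _, Complex.ofReal_im _, ?_, ?_⟩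
    · rw [Complex.ofReal_re]
      exact inv_lt_zero.2 (mul_neg_of_neg_of_pos (by linarith)
        (prod_pos_out hC p hp _ (Or.inl rfl)))
    · rw [Complex.ofReal_re]
      exact inv_pos.2 (mul_pos (by linarith) (prod_pos_out hC p hp _ (Or.inr rfl)))
  · have hp2 : kind p ≠ 2 := by rw [hp]; decide
    have hab := (hC.real p hp2).2.2
    rw [weight_inl_real hC p hp2, weight_inr_real hC p hp2]
    refine ⟨Complex.ofReal_im _, Complex.ofReal_im _, ?_, ?_⟩
    · rw [Complex.ofReal_re]
      exact inv_pos.2 (mul_pos_of_neg_of_neg (by linarith)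
        (prod_neg_inn hC p hp _ (Or.inl rfl)))
    · rw [Complex.ofReal_re]
      exact inv_lt_zero.2 (mul_neg_of_pos_of_neg (by linarith)
        (prod_neg_inn hC p hp _ (Or.inr rfl)))
  · refine ⟨nodalWeight_ne_zero hC.inj.injOn (mem_univ _), ?_⟩
    obtain ⟨-, hB⟩ := hC.cpx p hp
    rw [weight_inl, weight_inr, map_inv₀, map_mul, map_sub, map_prod]
    congr 2
    · rw [hB, Complex.conj_conj]
    · refine prod_congr rfl fun q _ => ?_
      rw [← factor_conj hC, hB]

/-- multiplication of the weights by a positive real factor -/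
theorem wt_double (hC : Conf A B kind) (y₀ : ℝ) (hy₀ : ∀ i, (y₀ : ℂ) ≠ Sum.elim A B i) :
    Wt kind (fun i => nodalWeight univ (Sum.elim A B) i * ((Sum.elim A B i - y₀) ^ 2)⁻¹) := by
  have hw := wt_simple hC
  have key : ∀ z : ℂ, z.im = 0 → (y₀ : ℂ) ≠ z → ∃ r : ℝ, 0 < r ∧ ((z - y₀) ^ 2)⁻¹ = (r : ℂ) := by
    intro z hz hne
    have h1 : z = ((z.re : ℝ) : ℂ) := Complex.ext rfl (by simpa using hz)
    refine ⟨((z.re - y₀) ^ 2)⁻¹, ?_, by rw [h1]; push_cast; rfl⟩
    have h2 : z.re - y₀ ≠ 0 := by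
      intro h
      refine hne ?_
      rw [h1, sub_eq_zero.1 h]
    positivity
  refine ⟨fun p hp => ?_, fun p hp => ?_, fun p hp => ?_⟩
  · have hp2 : kind p ≠ 2 := by rw [hp]; decide
    obtain ⟨hA, hB, -⟩ := hC.real p hp2
    obtain ⟨r, hr, h1⟩ := key (A p) hA (hy₀ (Sum.inl p))
    obtain ⟨r', hr', h2⟩ := key (B p) hB (hy₀ (Sum.inr p))
    obtain ⟨i1, i2, i3, i4⟩ := hw.k0 p hp
    simp only [Sum.elim_inl, Sum.elim_inr]
    rw [h1, h2]
    refine ⟨?_, ?_, ?_, ?_⟩
    · rw [mul_comm, Complex.im_ofReal_mul, i1, mul_zero]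
    · rw [mul_comm, Complex.im_ofReal_mul, i2, mul_zero]
    · rw [mul_comm, Complex.re_ofReal_mul]
      exact mul_neg_of_pos_of_neg hr i3
    · rw [mul_comm, Complex.re_ofReal_mul]
      exact mul_pos hr' i4
  · have hp2 : kind p ≠ 2 := by rw [hp]; decide
    obtain ⟨hA, hB, -⟩ := hC.real p hp2
    obtain ⟨r, hr, h1⟩ := key (A p) hA (hy₀ (Sum.inl p))
    obtain ⟨r', hr', h2⟩ := key (B p) hB (hy₀ (Sum.inr p))
    obtain ⟨i1, i2, i3, i4⟩ := hw.k1 p hp
    simp only [Sum.elim_inl, Sum.elim_inr]
    rw [h1, h2]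
    refine ⟨?_, ?_, ?_, ?_⟩
    · rw [mul_comm, Complex.im_ofReal_mul, i1, mul_zero]
    · rw [mul_comm, Complex.im_ofReal_mul, i2, mul_zero]
    · rw [mul_comm, Complex.re_ofReal_mul]
      exact mul_pos hr i3
    · rw [mul_comm, Complex.re_ofReal_mul]
      exact mul_neg_of_pos_of_neg hr' i4
  · obtain ⟨i1, i2⟩ := hw.k2 p hp
    obtain ⟨-, hB⟩ := hC.cpx p hp
    simp only [Sum.elim_inl, Sum.elim_inr]
    refine ⟨mul_ne_zero i1 (inv_ne_zero (pow_ne_zero _ (sub_ne_zero.2 (hy₀ (Sum.inl p)).symm))), ?_⟩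
    rw [i2, map_mul, map_inv₀, map_pow, map_sub, Complex.conj_ofReal, hB]

end

end Pool.Agent.Rohlin
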