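import Pool.Agent.Rohlin.Arc
import Pool.Agent.Rohlin.Weights

/-!
# Determinant forms of the transversality lemmas
-/

namespace Pool.Agent.Rohlin

open Polynomial Finset Lagrange

/-- the sign of a pair of roots, `a`, `b` square roots of the derivative at the two roots -/
noncomputable def zet (kind : Fin 3) (a b : ℂ) : ℂ :=
  if kind = 2 then (starRingEnd ℂ) a / b else -Complex.I * (a * b) / ‖a * b‖

/-- primitive 8-th root of unity -/
noncomputable def om8 : ℂ := (1 + Complex.I) / ((Real.sqrt 2 : ℝ) : ℂ)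

theorem om8_sq : om8 ^ 2 = Complex.I := by
  unfold om8
  have h : (((Real.sqrt 2 : ℝ) : ℂ)) ^ 2 = 2 := by
    rw [← Complex.ofReal_pow, Real.sq_sqrt zero_le_two]
    norm_num
  rw [div_pow, h]
  have : (1 + Complex.I) ^ 2 = 2 * Complex.I := by
    linear_combination Complex.I_sq
  rw [this]
  ring

theorem om8_conj_sq : (starRingEnd ℂ om8) ^ 2 = -Complex.I := by
  rw [← map_pow, om8_sq, Complex.conj_I]

theorem om8_mul_conj : om8 * starRingEnd ℂ om8 = 1 := by
  have h1 : Complex.normSq om8 = 1 := by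
    have h2 : Complex.normSq om8 ^ 2 = 1 := by
      rw [← map_pow, om8_sq, Complex.normSq_I]
    have h3 := Complex.normSq_nonneg om8
    nlinarith
  rw [Complex.mul_conj, h1, Complex.ofReal_one]

/-- the real row of a pair -/
noncomputable def rrow (kind : Fin 3) (A B a b : ℂ) (j : ℕ) : ℝ :=
  if kind = 2 then 2 * (om8 * (A ^ j / a)).re
  else if kind = 0 then A.re ^ j / ‖a‖ + B.re ^ j / ‖b‖
  else A.re ^ j / ‖a‖ - B.re ^ j / ‖b‖

section rows

variable {P : Type*} {A B : P → ℂ} {kind : P → Fin 3} {w : P ⊕ P → ℂ} {σA σB : P → ℂ}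

/-- every row is real up to an 8-th root of unity -/
theorem row_eq (hC : Conf A B kind) (hw : Wt kind w) (hA : ∀ p, σA p ^ 2 * w (Sum.inl p) = 1)
    (hB : ∀ p, σB p ^ 2 * w (Sum.inr p) = 1) (p : P) :
    ∃ u : ℂ, u ^ 8 = 1 ∧ ∀ j : ℕ, A p ^ j / σA p -
      Complex.I * zet (kind p) (σA p) (σB p) * (B p ^ j / σB p) =
        u * (rrow (kind p) (A p) (B p) (σA p) (σB p) j : ℝ) := by
  have ha : σA p ≠ 0 := by
    intro h
    have := hA p
    rw [h] at this
    simp at this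
  have hb : σB p ≠ 0 := by
    intro h
    have := hB p
    rw [h] at this
    simp at this
  have hna : (‖σA p‖ : ℂ) ≠ 0 := Complex.ofReal_ne_zero.2 (norm_ne_zero_iff.2 ha)
  have hnb : (‖σB p‖ : ℂ) ≠ 0 := Complex.ofReal_ne_zero.2 (norm_ne_zero_iff.2 hb)
  have hreal : kind p ≠ 2 → -Complex.I * zet (kind p) (σA p) (σB p) * (σB p)⁻¹ =
      -(σA p / ‖σA p‖) * (‖σB p‖ : ℂ)⁻¹ := by
    intro h
    unfold zet
    rw [if_neg h, norm_mul, Complex.ofReal_mul]
    field_simp
    rw [Complex.I_sq]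
  -- a real square
  have hsq : ∀ r : ℝ, σA p ^ 2 * (r : ℂ) = 1 → (r < 0 → σA p ^ 2 = -(‖σA p‖ : ℂ) ^ 2) ∧
      (0 < r → σA p ^ 2 = (‖σA p‖ : ℂ) ^ 2) := by
    intro r h
    have hr0 : r ≠ 0 := by rintro rfl; simp at h
    have h1 : σA p ^ 2 = ((r⁻¹ : ℝ) : ℂ) := by
      rw [Complex.ofReal_inv]
      exact eq_inv_of_mul_eq_one_left h
    have h2 : ‖σA p‖ ^ 2 = |r⁻¹| := by
      rw [← norm_pow, h1, Complex.norm_real, Real.norm_eq_abs]
    constructor
    · intro hr
      rw [h1, ← Complex.ofReal_pow, h2, abs_of_neg (inv_lt_zero.2 hr)]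
      push_cast
      ring
    · intro hr
      rw [h1, ← Complex.ofReal_pow, h2, abs_of_pos (inv_pos.2 hr)]
  rcases fin3_cases (kind p) with hp | hp | hp
  · have hp2 : kind p ≠ 2 := by rw [hp]; decide
    obtain ⟨hAr, hBr, -⟩ := hC.real p hp2
    have h1 : A p = (((A p).re : ℝ) : ℂ) := Complex.ext rfl (by simpa using hAr)
    have h2 : B p = (((B p).re : ℝ) : ℂ) := Complex.ext rfl (by simpa using hBr)
    obtain ⟨i1, i2, i3, i4⟩ := hw.k0 p hp
    have h3 : w (Sum.inl p) = (((w (Sum.inl p)).re : ℝ) : ℂ) := Complex.ext rfl (by simpa using i1)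
    have h4 := hA p
    rw [h3] at h4
    have h5 := (hsq _ h4).1 i3
    refine ⟨-(σA p / ‖σA p‖), ?_, fun j => ?_⟩
    · have h6 : (-(σA p / ‖σA p‖)) ^ 2 = -1 := by
        rw [neg_sq, div_pow, h5]
        field_simp
      calc (-(σA p / ‖σA p‖)) ^ 8 = ((-(σA p / ‖σA p‖)) ^ 2) ^ 4 := by ring
        _ = 1 := by rw [h6]; norm_num
    · have h7 : (σA p)⁻¹ = -(σA p / ‖σA p‖) * (‖σA p‖ : ℂ)⁻¹ := by
        field_simp
        rw [h5]
        ring
      have h8 : (rrow (kind p) (A p) (B p) (σA p) (σB p) j : ℂ) =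
          A p ^ j * (‖σA p‖ : ℂ)⁻¹ + B p ^ j * (‖σB p‖ : ℂ)⁻¹ := by
        unfold rrow
        rw [if_neg hp2, if_pos hp]
        push_cast
        rw [← h1, ← h2]
        ring
      rw [h8]
      calc A p ^ j / σA p - Complex.I * zet (kind p) (σA p) (σB p) * (B p ^ j / σB p)
          = A p ^ j * (σA p)⁻¹ +
            B p ^ j * (-Complex.I * zet (kind p) (σA p) (σB p) * (σB p)⁻¹) := by ring
        _ = _ := by rw [h7, hreal hp2]; ring
  · have hp2 : kind p ≠ 2 := by rw [hp]; decide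
    have hp0 : kind p ≠ 0 := by rw [hp]; decide
    obtain ⟨hAr, hBr, -⟩ := hC.real p hp2
    have h1 : A p = (((A p).re : ℝ) : ℂ) := Complex.ext rfl (by simpa using hAr)
    have h2 : B p = (((B p).re : ℝ) : ℂ) := Complex.ext rfl (by simpa using hBr)
    obtain ⟨i1, i2, i3, i4⟩ := hw.k1 p hp
    have h3 : w (Sum.inl p) = (((w (Sum.inl p)).re : ℝ) : ℂ) := Complex.ext rfl (by simpa using i1)
    have h4 := hA p
    rw [h3] at h4
    have h5 := (hsq _ h4).2 i3
    refine ⟨σA p / ‖σA p‖, ?_, fun j => ?_⟩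
    · have h6 : (σA p / ‖σA p‖) ^ 2 = 1 := by
        rw [div_pow, h5]
        field_simp
      calc (σA p / ‖σA p‖) ^ 8 = ((σA p / ‖σA p‖) ^ 2) ^ 4 := by ring
        _ = 1 := by rw [h6]; norm_num
    · have h7 : (σA p)⁻¹ = (σA p / ‖σA p‖) * (‖σA p‖ : ℂ)⁻¹ := by
        field_simp
        rw [h5]
      have h8 : (rrow (kind p) (A p) (B p) (σA p) (σB p) j : ℂ) =
          A p ^ j * (‖σA p‖ : ℂ)⁻¹ - B p ^ j * (‖σB p‖ : ℂ)⁻¹ := by
        unfold rrow
        rw [if_neg hp2, if_neg hp0]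
        push_cast
        rw [← h1, ← h2]
        ring
      rw [h8]
      calc A p ^ j / σA p - Complex.I * zet (kind p) (σA p) (σB p) * (B p ^ j / σB p)
          = A p ^ j * (σA p)⁻¹ +
            B p ^ j * (-Complex.I * zet (kind p) (σA p) (σB p) * (σB p)⁻¹) := by ring
        _ = _ := by rw [h7, hreal hp2]; ring
  · obtain ⟨-, hBp⟩ := hC.cpx p hp
    obtain ⟨i1, i2⟩ := hw.k2 p hp
    have hsB : σB p ^ 2 = (starRingEnd ℂ (σA p)) ^ 2 := by
      have h1 := hB p
      have h2 := congrArg (starRingEnd ℂ) (hA p)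
      rw [map_mul, map_pow, map_one, ← i2] at h2
      have hne : w (Sum.inr p) ≠ 0 := by
        intro h
        rw [h, mul_zero] at h1
        exact zero_ne_one h1
      exact mul_right_cancel₀ hne (h1.trans h2.symm)
    have hca : starRingEnd ℂ (σA p) ≠ 0 := (_root_.map_ne_zero _).2 ha
    refine ⟨starRingEnd ℂ om8, ?_, fun j => ?_⟩
    · calc (starRingEnd ℂ om8) ^ 8 = ((starRingEnd ℂ om8) ^ 2) ^ 4 := by ring
        _ = 1 := by
          rw [om8_conj_sq, neg_pow, Complex.I_pow_four]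
          norm_num
    · have h8 : (rrow (kind p) (A p) (B p) (σA p) (σB p) j : ℂ) =
          om8 * (A p ^ j / σA p) + starRingEnd ℂ (om8 * (A p ^ j / σA p)) := by
        unfold rrow
        rw [if_pos hp, Complex.add_conj]
      have h9 : zet (kind p) (σA p) (σB p) * (B p ^ j / σB p) =
          starRingEnd ℂ (A p ^ j / σA p) := by
        unfold zet
        rw [if_pos hp, hBp, map_div₀, map_pow]
        rw [div_mul_div_comm, ← sq, hsB]
        field_simp
      rw [h8, mul_assoc, h9, map_mul]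
      have h10 := om8_mul_conj
      have h11 := om8_conj_sq
      linear_combination (-(A p ^ j / σA p)) * h10 - (starRingEnd ℂ (A p ^ j / σA p)) * h11

/-- the polynomial with the given coefficients -/
noncomputable def polyOf {k : ℕ} (c : Fin k → ℝ) : ℝ[X] := ∑ j : Fin k, C (c j) * X ^ (j : ℕ)

theorem polyOf_degree {k : ℕ} (c : Fin k → ℝ) : (polyOf c).degree < k := degree_sum_fin_lt c

theorem polyOf_eval {k : ℕ} (c : Fin k → ℝ) (y : ℝ) : (polyOf c).eval y = ∑ j, c j * y ^ (j : ℕ) := by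
  unfold polyOf
  rw [eval_finsetSum]
  exact sum_congr rfl fun j _ => by simp

theorem polyOf_aeval {k : ℕ} (c : Fin k → ℝ) (y : ℂ) :
    aeval y (polyOf c) = ∑ j, (c j : ℂ) * y ^ (j : ℕ) := by
  unfold polyOf
  rw [map_sum]
  exact sum_congr rfl fun j _ => by simp

theorem polyOf_derivative_eval {k : ℕ} (c : Fin k → ℝ) (y : ℝ) :
    (polyOf c).derivative.eval y = ∑ j, c j * ((j : ℕ) * y ^ ((j : ℕ) - 1)) := by
  unfold polyOf
  rw [derivative_sum, eval_finsetSum]
  refine sum_congr rfl fun j _ => ?_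
  rw [derivative_C_mul, eval_C_mul, derivative_X_pow, eval_mul, eval_pow, eval_X, eval_C]

theorem polyOf_eq_zero {k : ℕ} {c : Fin k → ℝ} (h : polyOf c = 0) : c = 0 := by
  funext i
  have h1 : (polyOf c).coeff (i : ℕ) = c i := by
    unfold polyOf
    rw [finsetSum_coeff, sum_eq_single i]
    · simp
    · intro j _ hj
      rw [coeff_C_mul, coeff_X_pow, if_neg, mul_zero]
      intro h
      exact hj (Fin.ext h.symm)
    · intro h
      exact absurd (mem_univ i) h
  rw [h, coeff_zero] at h1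
  rw [← h1]
  rfl

theorem sqrt_weight {a v : ℂ} (h : a ^ 2 * v = 1) (hv : v.im = 0) :
    Real.sqrt |v.re| = ‖a‖⁻¹ := by
  have h1 : v = ((v.re : ℝ) : ℂ) := Complex.ext rfl (by simpa using hv)
  have h2 : ‖a‖ ^ 2 * |v.re| = 1 := by
    have := congrArg norm h
    rw [h1, norm_mul, norm_pow, norm_one, Complex.norm_real, Real.norm_eq_abs] at this
    exact this
  have ha : ‖a‖ ≠ 0 := by
    intro h3
    rw [h3] at h2
    simp at h2
  have h3 : |v.re| = (‖a‖⁻¹) ^ 2 := by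
    rw [inv_pow]
    exact eq_inv_of_mul_eq_one_right h2
  rw [h3, Real.sqrt_sq (inv_nonneg.2 (norm_nonneg _))]

/-- normalised values through the norms of the square roots -/
theorem xval_eq {ι : Type*} {v w : ι → ℂ} {g : ℝ[X]} {i : ι} {a : ℂ} (h : a ^ 2 * w i = 1)
    (hw : (w i).im = 0) : xval v w g i = g.eval (v i).re / ‖a‖ := by
  unfold xval
  rw [sqrt_weight h hw]
  rfl

/-- the kernel of the real row is the condition `WCond` -/
theorem row_W (hw : Wt kind w) (hA : ∀ p, σA p ^ 2 * w (Sum.inl p) = 1)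
    (hB : ∀ p, σB p ^ 2 * w (Sum.inr p) = 1) (p : P) {k : ℕ} (c : Fin k → ℝ)
    (h : ∑ j : Fin k, rrow (kind p) (A p) (B p) (σA p) (σB p) j * c j = 0) :
    WCond A B kind w (polyOf c) p := by
  refine ⟨fun hp => ?_, fun hp => ?_, fun hp => ?_⟩
  · have hp2 : kind p ≠ 2 := by rw [hp]; decide
    obtain ⟨i1, i2, i3, i4⟩ := hw.k0 p hp
    rw [xval_eq (hB p) i2, xval_eq (hA p) i1]
    simp only [Sum.elim_inl, Sum.elim_inr]
    rw [polyOf_eval, polyOf_eval, eq_neg_iff_add_eq_zero, ← h, sum_div, sum_div,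
      ← sum_add_distrib]
    refine sum_congr rfl fun j _ => ?_
    unfold rrow
    rw [if_neg hp2, if_pos hp]
    ring
  · have hp2 : kind p ≠ 2 := by rw [hp]; decide
    have hp0 : kind p ≠ 0 := by rw [hp]; decide
    obtain ⟨i1, i2, i3, i4⟩ := hw.k1 p hp
    rw [xval_eq (hB p) i2, xval_eq (hA p) i1]
    simp only [Sum.elim_inl, Sum.elim_inr]
    rw [polyOf_eval, polyOf_eval, eq_comm, ← sub_eq_zero, ← h, sum_div, sum_div,
      ← sum_sub_distrib]
    refine sum_congr rfl fun j _ => ?_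
    unfold rrow
    rw [if_neg hp2, if_neg hp0]
    ring
  · have ha : σA p ≠ 0 := by
      intro h
      have := hA p
      rw [h] at this
      simp at this
    set Z : ℂ := om8 * (aeval (A p) (polyOf c) / σA p) with hZ
    have h1 : Z.re = 0 := by
      have h2 : 2 * Z.re = ∑ j : Fin k, rrow (kind p) (A p) (B p) (σA p) (σB p) j * c j := by
        rw [hZ, polyOf_aeval, sum_div, mul_sum, Complex.re_sum, mul_sum]
        refine sum_congr rfl fun j _ => ?_
        unfold rrow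
        rw [if_pos hp]
        have h3 : om8 * ((c j : ℂ) * A p ^ (j : ℕ) / σA p) =
            (c j : ℂ) * (om8 * (A p ^ (j : ℕ) / σA p)) := by ring
        rw [h3, Complex.re_ofReal_mul]
        ring
      rw [h] at h2
      linarith
    have h2 : Z = (Z.im : ℂ) * Complex.I := by
      apply Complex.ext
      · simp [h1]
      · simp
    refine ⟨Z.im ^ 2, sq_nonneg _, ?_⟩
    have h3 : aeval (A p) (polyOf c) = (starRingEnd ℂ om8) * Z * σA p := by
      rw [hZ]
      have h10 := om8_mul_conj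
      field_simp
      linear_combination (-(aeval (A p) (polyOf c))) * h10
    have h4 := hA p
    have h5 : (aeval (A p) (polyOf c)) ^ 2 * w (Sum.inl p) =
        (starRingEnd ℂ om8) ^ 2 * Z ^ 2 * (σA p ^ 2 * w (Sum.inl p)) := by
      rw [h3]
      ring
    rw [h5, h4, om8_conj_sq]
    nth_rewrite 1 [h2]
    push_cast
    linear_combination (-(Z.im : ℂ) ^ 2 * Complex.I) * Complex.I_sq

end rows

/-- determinants of matrices whose rows are real up to 8-th roots of unity -/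
theorem det_pow_eight {k : ℕ} (M : Matrix (Fin k) (Fin k) ℂ) (Rm : Fin k → Fin k → ℝ)
    (hM : ∀ p, ∃ u : ℂ, u ^ 8 = 1 ∧ ∀ j, M p j = u * (Rm p j : ℝ))
    (hker : ∀ c : Fin k → ℝ, (∀ p, ∑ j, Rm p j * c j = 0) → c = 0) :
    ∃ x : ℝ, 0 < x ∧ M.det ^ 8 = x := by
  choose u hu hM using hM
  set R : Matrix (Fin k) (Fin k) ℝ := Matrix.of Rm with hR
  have h1 : M = Matrix.diagonal u * R.map (algebraMap ℝ ℂ) := by
    ext p j
    rw [Matrix.diagonal_mul, hM]
    rfl
  have h2 : R.det ≠ 0 := by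
    intro h
    obtain ⟨c, hc, hc0⟩ := Matrix.exists_mulVec_eq_zero_iff.2 h
    refine hc (hker c fun p => ?_)
    have := congrFun hc0 p
    exact this
  have h3 : (R.map (algebraMap ℝ ℂ)).det = ((R.det : ℝ) : ℂ) := by
    have := (RingHom.map_det (algebraMap ℝ ℂ) R).symm
    exact this
  refine ⟨R.det ^ 8, by positivity, ?_⟩
  rw [h1, Matrix.det_mul, Matrix.det_diagonal, h3, mul_pow, ← prod_pow]
  simp only [hu, prod_const_one, one_mul]
  push_cast
  rfl

/-- a polynomial of small degree which vanishes at all roots is zero -/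
theorem eq_zero_of_roots {P : Type*} [Fintype P] {A B : P → ℂ}
    (hinj : Function.Injective (Sum.elim A B)) (g : ℝ[X])
    (hg : g.degree < ((2 * Fintype.card P : ℕ) : WithBot ℕ))
    (h : ∀ p, aeval (A p) g = 0 ∧ aeval (B p) g = 0) : g = 0 := by
  have h1 : g.map (algebraMap ℝ ℂ) = 0 := by
    refine eq_zero_of_degree_lt_of_eval_index_eq_zero (s := univ) (v := Sum.elim A B)
      hinj.injOn ?_ ?_
    · rw [card_univ, Fintype.card_sum, ← two_mul]
      exact lt_of_le_of_lt degree_map_le hg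
    · rintro (p | p) _
      · rw [← aeval_eq_eval_map]
        exact (h p).1
      · rw [← aeval_eq_eval_map]
        exact (h p).2
  exact (Polynomial.map_eq_zero _).1 h1

/-- **T1**: the determinant of a pairing does not vanish, and its 8-th power is positive. -/
theorem det_simple {k : ℕ} {A B σA σB : Fin k → ℂ} {kind : Fin k → Fin 3} (hC : Conf A B kind)
    (hA : ∀ p, σA p ^ 2 = (nodal univ (Sum.elim A B)).derivative.eval (A p))
    (hB : ∀ p, σB p ^ 2 = (nodal univ (Sum.elim A B)).derivative.eval (B p))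
    (M : Matrix (Fin k) (Fin k) ℂ)
    (hM : ∀ p j : Fin k, M p j = A p ^ (j : ℕ) / σA p -
      Complex.I * zet (kind p) (σA p) (σB p) * (B p ^ (j : ℕ) / σB p)) :
    ∃ x : ℝ, 0 < x ∧ M.det ^ 8 = x := by
  have hw := wt_simple hC
  have hne : ∀ i, nodalWeight univ (Sum.elim A B) i ≠ 0 := fun i =>
    nodalWeight_ne_zero hC.inj.injOn (mem_univ i)
  have hA' : ∀ p, σA p ^ 2 * nodalWeight univ (Sum.elim A B) (Sum.inl p) = 1 := by
    intro p
    have h1 := nodalWeight_eq_eval_derivative_nodal (s := univ) (v := Sum.elim A B)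
      (mem_univ (Sum.inl p))
    simp only [Sum.elim_inl] at h1
    have h2 := hne (Sum.inl p)
    rw [h1] at h2 ⊢
    rw [hA, mul_inv_cancel₀ fun h => h2 (by rw [h, inv_zero])]
  have hB' : ∀ p, σB p ^ 2 * nodalWeight univ (Sum.elim A B) (Sum.inr p) = 1 := by
    intro p
    have h1 := nodalWeight_eq_eval_derivative_nodal (s := univ) (v := Sum.elim A B)
      (mem_univ (Sum.inr p))
    simp only [Sum.elim_inr] at h1
    have h2 := hne (Sum.inr p)
    rw [h1] at h2 ⊢
    rw [hB, mul_inv_cancel₀ fun h => h2 (by rw [h, inv_zero])]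
  refine det_pow_eight M (fun p j => rrow (kind p) (A p) (B p) (σA p) (σB p) j) (fun p => ?_)
    (fun c hc => ?_)
  · obtain ⟨u, hu, h⟩ := row_eq hC hw hA' hB' p
    exact ⟨u, hu, fun j => by rw [hM, h]⟩
  · refine polyOf_eq_zero (eq_zero_of_roots hC.inj _ ?_ (core hC hw
      (adm_simple _ hC.inj (by simp [two_mul]) _ (polyOf_degree c))
      (fun p => row_W hw hA' hB' p c (hc p))))
    refine (polyOf_degree c).trans_le ?_
    rw [Fintype.card_fin]
    exact_mod_cast Nat.le_mul_of_pos_left k two_pos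

/-- **T3**: the same along the arc of Lagrangians at a concave event of depth 0. -/
theorem det_arc {k : ℕ} {A B σA σB : Fin k → ℂ} {kind : Fin k → Fin 3} (hC : Conf A B kind)
    (hA : ∀ p, σA p ^ 2 = (nodal univ (Sum.elim A B)).derivative.eval (A p))
    (hB : ∀ p, σB p ^ 2 = (nodal univ (Sum.elim A B)).derivative.eval (B p))
    {p₁ p₂ : Fin k} (h12 : p₁ ≠ p₂) (hk1 : kind p₁ = 0) (hk2 : kind p₂ = 0)
    (hord : (B p₁).re < (A p₂).re)
    (hadj : ∀ q, kind q = 0 → q ≠ p₁ → q ≠ p₂ → (B q).re < (A p₁).re ∨ (B p₂).re < (A q).re)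
    (c S : ℝ) (hc : 0 ≤ c) (hS : 0 ≤ S) (hcS : c ^ 2 + S ^ 2 = 1)
    (M : Matrix (Fin k) (Fin k) ℂ)
    (hM : ∀ p, p ≠ p₁ → p ≠ p₂ → ∀ j : Fin k, M p j = A p ^ (j : ℕ) / σA p -
      Complex.I * zet (kind p) (σA p) (σB p) * (B p ^ (j : ℕ) / σB p))
    (hM1 : ∀ j : Fin k, M p₁ j = (((A p₁).re ^ (j : ℕ) / ‖σA p₁‖ + S * ((B p₂).re ^ (j : ℕ) / ‖σB p₂‖) +
      c * ((B p₁).re ^ (j : ℕ) / ‖σB p₁‖) : ℝ) : ℂ))
    (hM2 : ∀ j : Fin k, M p₂ j = ((S * ((B p₁).re ^ (j : ℕ) / ‖σB p₁‖) -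
      c * ((B p₂).re ^ (j : ℕ) / ‖σB p₂‖) - (A p₂).re ^ (j : ℕ) / ‖σA p₂‖ : ℝ) : ℂ)) :
    ∃ x : ℝ, 0 < x ∧ M.det ^ 8 = x := by
  have hw := wt_simple hC
  have hne : ∀ i, nodalWeight univ (Sum.elim A B) i ≠ 0 := fun i =>
    nodalWeight_ne_zero hC.inj.injOn (mem_univ i)
  have hA' : ∀ p, σA p ^ 2 * nodalWeight univ (Sum.elim A B) (Sum.inl p) = 1 := by
    intro p
    have h1 := nodalWeight_eq_eval_derivative_nodal (s := univ) (v := Sum.elim A B)
      (mem_univ (Sum.inl p))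
    simp only [Sum.elim_inl] at h1
    have h2 := hne (Sum.inl p)
    rw [h1] at h2 ⊢
    rw [hA, mul_inv_cancel₀ fun h => h2 (by rw [h, inv_zero])]
  have hB' : ∀ p, σB p ^ 2 * nodalWeight univ (Sum.elim A B) (Sum.inr p) = 1 := by
    intro p
    have h1 := nodalWeight_eq_eval_derivative_nodal (s := univ) (v := Sum.elim A B)
      (mem_univ (Sum.inr p))
    simp only [Sum.elim_inr] at h1
    have h2 := hne (Sum.inr p)
    rw [h1] at h2 ⊢
    rw [hB, mul_inv_cancel₀ fun h => h2 (by rw [h, inv_zero])]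
  let r₁ : Fin k → ℝ := fun j => (A p₁).re ^ (j : ℕ) / ‖σA p₁‖ +
    S * ((B p₂).re ^ (j : ℕ) / ‖σB p₂‖) + c * ((B p₁).re ^ (j : ℕ) / ‖σB p₁‖)
  let r₂ : Fin k → ℝ := fun j => S * ((B p₁).re ^ (j : ℕ) / ‖σB p₁‖) -
    c * ((B p₂).re ^ (j : ℕ) / ‖σB p₂‖) - (A p₂).re ^ (j : ℕ) / ‖σA p₂‖
  refine det_pow_eight M (fun p j => if p = p₁ then r₁ j else if p = p₂ then r₂ j else
    rrow (kind p) (A p) (B p) (σA p) (σB p) j) (fun p => ?_) (fun c' hc' => ?_)
  · by_cases hp1 : p = p₁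
    · subst hp1
      refine ⟨1, one_pow _, fun j => ?_⟩
      rw [hM1, if_pos rfl, one_mul]
    by_cases hp2 : p = p₂
    · subst hp2
      refine ⟨1, one_pow _, fun j => ?_⟩
      rw [hM2, if_neg hp1, if_pos rfl, one_mul]
    obtain ⟨u, hu, h⟩ := row_eq hC hw hA' hB' p
    exact ⟨u, hu, fun j => by rw [hM p hp1 hp2, h, if_neg hp1, if_neg hp2]⟩
  · obtain ⟨a1, a2, a3, a4⟩ := hw.k0 p₁ hk1
    obtain ⟨b1, b2, b3, b4⟩ := hw.k0 p₂ hk2
    set g := polyOf c' with hg
    have x1 := xval_eq (v := Sum.elim A B) (g := g) (hA' p₁) a1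
    have x2 := xval_eq (v := Sum.elim A B) (g := g) (hB' p₁) a2
    have x3 := xval_eq (v := Sum.elim A B) (g := g) (hA' p₂) b1
    have x4 := xval_eq (v := Sum.elim A B) (g := g) (hB' p₂) b2
    simp only [Sum.elim_inl, Sum.elim_inr] at x1 x2 x3 x4
    have e1 : xval (Sum.elim A B) (nodalWeight univ (Sum.elim A B)) g (Sum.inl p₁) +
        S * xval (Sum.elim A B) (nodalWeight univ (Sum.elim A B)) g (Sum.inr p₂) +
        c * xval (Sum.elim A B) (nodalWeight univ (Sum.elim A B)) g (Sum.inr p₁) = 0 := by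
      have h := hc' p₁
      simp only [if_true] at h
      rw [x1, x2, x4, hg, polyOf_eval, polyOf_eval, polyOf_eval, ← h, sum_div, sum_div, sum_div,
        mul_sum, mul_sum, ← sum_add_distrib, ← sum_add_distrib]
      exact sum_congr rfl fun j _ => by simp only [r₁]; ring
    have e2 : S * xval (Sum.elim A B) (nodalWeight univ (Sum.elim A B)) g (Sum.inr p₁) -
        c * xval (Sum.elim A B) (nodalWeight univ (Sum.elim A B)) g (Sum.inr p₂) -
        xval (Sum.elim A B) (nodalWeight univ (Sum.elim A B)) g (Sum.inl p₂) = 0 := by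
      have h := hc' p₂
      simp only [if_neg h12.symm, if_true] at h
      rw [x3, x2, x4, hg, polyOf_eval, polyOf_eval, polyOf_eval, ← h, sum_div, sum_div, sum_div,
        mul_sum, mul_sum, ← sum_sub_distrib, ← sum_sub_distrib]
      exact sum_congr rfl fun j _ => by simp only [r₂]; ring
    refine polyOf_eq_zero (eq_zero_of_roots hC.inj _ ?_ (core_arc hC hw
      (adm_simple _ hC.inj (by simp [two_mul]) _ (polyOf_degree c')) h12 hk1 hk2 hord hadj
      (fun p hp1 hp2 => row_W hw hA' hB' p c' ?_) c S hc hS hcS ?_ ?_))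
    · refine (polyOf_degree c').trans_le ?_
      rw [Fintype.card_fin]
      exact_mod_cast Nat.le_mul_of_pos_left k two_pos
    · have := hc' p
      simpa only [if_neg hp1, if_neg hp2] using this
    · linear_combination c * e1 + S * e2 -
        (xval (Sum.elim A B) (nodalWeight univ (Sum.elim A B)) g (Sum.inr p₁)) * hcS
    · linear_combination S * e1 - c * e2 -
        (xval (Sum.elim A B) (nodalWeight univ (Sum.elim A B)) g (Sum.inr p₂)) * hcS

section event

variable {k : ℕ} {A B σA σB : Fin k → ℂ} {kind : Fin k → Fin 3} {p₀ : Fin k}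

/-- common part of the two forms of **T2** -/
theorem det_event
    (hC : Conf (fun p : {p // p ≠ p₀} => A p) (fun p : {p // p ≠ p₀} => B p)
      (fun p : {p // p ≠ p₀} => kind p)) (y₀ : ℝ)
    (hy₀ : ∀ p, p ≠ p₀ → (y₀ : ℂ) ≠ A p ∧ (y₀ : ℂ) ≠ B p)
    (hA : ∀ p, p ≠ p₀ → σA p ^ 2 = (A p - y₀) ^ 2 *
      (nodal univ (Sum.elim (fun p : {p // p ≠ p₀} => A p)
        (fun p : {p // p ≠ p₀} => B p))).derivative.eval (A p))
    (hB : ∀ p, p ≠ p₀ → σB p ^ 2 = (B p - y₀) ^ 2 *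
      (nodal univ (Sum.elim (fun p : {p // p ≠ p₀} => A p)
        (fun p : {p // p ≠ p₀} => B p))).derivative.eval (B p))
    (M : Matrix (Fin k) (Fin k) ℂ)
    (hM : ∀ p, p ≠ p₀ → ∀ j : Fin k, M p j = A p ^ (j : ℕ) / σA p -
      Complex.I * zet (kind p) (σA p) (σB p) * (B p ^ (j : ℕ) / σB p))
    (r₀ : Fin k → ℝ) (hM0 : ∀ j, M p₀ j = (r₀ j : ℂ))
    (hadm : ∀ c : Fin k → ℝ, ∑ j, r₀ j * c j = 0 →
      Adm (Sum.elim (fun p : {p // p ≠ p₀} => A p) (fun p : {p // p ≠ p₀} => B p))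
        (fun i => nodalWeight univ (Sum.elim (fun p : {p // p ≠ p₀} => A p)
          (fun p : {p // p ≠ p₀} => B p)) i *
          ((Sum.elim (fun p : {p // p ≠ p₀} => A p) (fun p : {p // p ≠ p₀} => B p) i - y₀) ^ 2)⁻¹)
        (polyOf c))
    (hone : k = 1 → r₀ p₀ ≠ 0) :
    ∃ x : ℝ, 0 < x ∧ M.det ^ 8 = x := by
  set A' : {p // p ≠ p₀} → ℂ := fun p => A p with hA'
  set B' : {p // p ≠ p₀} → ℂ := fun p => B p with hB'
  have hy : ∀ i, (y₀ : ℂ) ≠ Sum.elim A' B' i := by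
    rintro (p | p)
    · exact (hy₀ p p.2).1
    · exact (hy₀ p p.2).2
  have hw := wt_double hC y₀ hy
  have hne : ∀ i, nodalWeight univ (Sum.elim A' B') i ≠ 0 := fun i =>
    nodalWeight_ne_zero hC.inj.injOn (mem_univ i)
  have hsA : ∀ p : {p // p ≠ p₀}, σA p ^ 2 * (nodalWeight univ (Sum.elim A' B') (Sum.inl p) *
      ((Sum.elim A' B' (Sum.inl p) - y₀) ^ 2)⁻¹) = 1 := by
    intro p
    have h1 := nodalWeight_eq_eval_derivative_nodal (s := univ) (v := Sum.elim A' B')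
      (mem_univ (Sum.inl p))
    have h2 := hne (Sum.inl p)
    rw [h1] at h2 ⊢
    have h3 : (nodal univ (Sum.elim A' B')).derivative.eval (A' p) ≠ 0 := fun h =>
      h2 (by rw [Sum.elim_inl, h, inv_zero])
    have h4 : A' p - y₀ ≠ 0 := sub_ne_zero.2 (hy (Sum.inl p)).symm
    rw [hA p p.2]
    simp only [Sum.elim_inl]
    change (A' p - y₀) ^ 2 * (nodal univ (Sum.elim A' B')).derivative.eval (A' p) * _ = 1
    field_simp
  have hsB : ∀ p : {p // p ≠ p₀}, σB p ^ 2 * (nodalWeight univ (Sum.elim A' B') (Sum.inr p) *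
      ((Sum.elim A' B' (Sum.inr p) - y₀) ^ 2)⁻¹) = 1 := by
    intro p
    have h1 := nodalWeight_eq_eval_derivative_nodal (s := univ) (v := Sum.elim A' B')
      (mem_univ (Sum.inr p))
    have h2 := hne (Sum.inr p)
    rw [h1] at h2 ⊢
    have h3 : (nodal univ (Sum.elim A' B')).derivative.eval (B' p) ≠ 0 := fun h =>
      h2 (by rw [Sum.elim_inr, h, inv_zero])
    have h4 : B' p - y₀ ≠ 0 := sub_ne_zero.2 (hy (Sum.inr p)).symm
    rw [hB p p.2]
    simp only [Sum.elim_inr]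
    change (B' p - y₀) ^ 2 * (nodal univ (Sum.elim A' B')).derivative.eval (B' p) * _ = 1
    field_simp
  have hcard : Fintype.card {p // p ≠ p₀} + 1 = k := by
    have h := Fintype.card_subtype_compl (fun p : Fin k => p = p₀)
    rw [Fintype.card_fin, Fintype.card_subtype_eq] at h
    have hk : 0 < k := Fin.pos p₀
    have h' : Fintype.card {p : Fin k // p ≠ p₀} = k - 1 := h
    omega
  refine det_pow_eight M (fun p j => if p = p₀ then r₀ j else
    rrow (kind p) (A p) (B p) (σA p) (σB p) j) (fun p => ?_) (fun c hc => ?_)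
  · by_cases hp : p = p₀
    · subst hp
      refine ⟨1, one_pow _, fun j => ?_⟩
      rw [hM0, if_pos rfl, one_mul]
    · obtain ⟨u, hu, h⟩ := row_eq (σA := fun p : {p // p ≠ p₀} => σA p)
        (σB := fun p : {p // p ≠ p₀} => σB p) hC hw hsA hsB ⟨p, hp⟩
      exact ⟨u, hu, fun j => by rw [hM p hp, if_neg hp]; exact h j⟩
  · have h0 : ∑ j, r₀ j * c j = 0 := by
      have := hc p₀
      simpa only [if_true] using this
    have hW : ∀ p : {p // p ≠ p₀}, WCond A' B' (fun p => kind p)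
        (fun i => nodalWeight univ (Sum.elim A' B') i * ((Sum.elim A' B' i - y₀) ^ 2)⁻¹)
        (polyOf c) p := by
      intro p
      refine row_W (σA := fun p : {p // p ≠ p₀} => σA p) (σB := fun p : {p // p ≠ p₀} => σB p)
        hw hsA hsB p c ?_
      have := hc p
      simpa only [if_neg p.2] using this
    rcases Nat.lt_or_ge k 2 with hk | hk
    · have hk1 : k = 1 := by
        have := Fin.pos p₀
        omega
      subst hk1
      funext j
      have hj : j = p₀ := Subsingleton.elim _ _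
      rw [Fin.sum_univ_one] at h0
      have hj0 : (0 : Fin 1) = p₀ := Subsingleton.elim _ _
      rw [hj0] at h0
      rw [hj]
      exact (mul_eq_zero.1 h0).resolve_left (hone rfl)
    · refine polyOf_eq_zero (eq_zero_of_roots hC.inj _ ?_ (core hC hw (hadm c h0) hW))
      refine (polyOf_degree c).trans_le ?_
      exact_mod_cast (by omega : k ≤ 2 * Fintype.card {p // p ≠ p₀})

/-- **T2**, O-type: `f = (X - y₀) ^ 2 * F`, `F(y₀) > 0`; the row of the colliding pair is `y₀ ^ j`. -/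
theorem det_event_O
    (hC : Conf (fun p : {p // p ≠ p₀} => A p) (fun p : {p // p ≠ p₀} => B p)
      (fun p : {p // p ≠ p₀} => kind p)) (y₀ : ℝ)
    (hy₀ : ∀ p, p ≠ p₀ → (y₀ : ℂ) ≠ A p ∧ (y₀ : ℂ) ≠ B p)
    (hA : ∀ p, p ≠ p₀ → σA p ^ 2 = (A p - y₀) ^ 2 *
      (nodal univ (Sum.elim (fun p : {p // p ≠ p₀} => A p)
        (fun p : {p // p ≠ p₀} => B p))).derivative.eval (A p))
    (hB : ∀ p, p ≠ p₀ → σB p ^ 2 = (B p - y₀) ^ 2 *
      (nodal univ (Sum.elim (fun p : {p // p ≠ p₀} => A p)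
        (fun p : {p // p ≠ p₀} => B p))).derivative.eval (B p))
    (F₀ : ℝ) (hF : (nodal univ (Sum.elim (fun p : {p // p ≠ p₀} => A p)
        (fun p : {p // p ≠ p₀} => B p))).eval (y₀ : ℂ) = F₀) (hF0 : 0 < F₀)
    (M : Matrix (Fin k) (Fin k) ℂ)
    (hM : ∀ p, p ≠ p₀ → ∀ j : Fin k, M p j = A p ^ (j : ℕ) / σA p -
      Complex.I * zet (kind p) (σA p) (σB p) * (B p ^ (j : ℕ) / σB p))
    (hM0 : ∀ j : Fin k, M p₀ j = (y₀ : ℂ) ^ (j : ℕ)) :
    ∃ x : ℝ, 0 < x ∧ M.det ^ 8 = x := by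
  refine det_event hC y₀ hy₀ hA hB M hM (fun j => y₀ ^ (j : ℕ)) (fun j => by
    rw [hM0]; push_cast; rfl) (fun c hc => ?_) ?_
  · have hcard : Fintype.card {p // p ≠ p₀} + 1 = k := by
      have h := Fintype.card_subtype_compl (fun p : Fin k => p = p₀)
      rw [Fintype.card_fin, Fintype.card_subtype_eq] at h
      have hk : 0 < k := Fin.pos p₀
      have h' : Fintype.card {p : Fin k // p ≠ p₀} = k - 1 := h
      omega
    have hd : (polyOf c).degree < ((Fintype.card {p // p ≠ p₀} + 1 : ℕ) : WithBot ℕ) := by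
      rw [hcard]
      exact polyOf_degree c
    refine adm_zero _ hC.inj (by rw [Fintype.card_sum, two_mul]) y₀ ?_ _ hd ?_ F₀ hF (Or.inl hF0)
    · rintro (p | p)
      · exact (hy₀ p p.2).1
      · exact (hy₀ p p.2).2
    · rw [polyOf_eval, ← hc]
      exact sum_congr rfl fun j _ => mul_comm _ _
  · intro hk
    subst hk
    have : p₀ = 0 := Subsingleton.elim _ _
    rw [this]
    simp

/-- **T2**, gap type: `f = (X - y₀) ^ 2 * F`, `F(y₀) < 0`; the row of the colliding pair is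
`2 F(y₀) j y₀ ^ (j - 1) - F'(y₀) y₀ ^ j`. -/
theorem det_event_gap
    (hC : Conf (fun p : {p // p ≠ p₀} => A p) (fun p : {p // p ≠ p₀} => B p)
      (fun p : {p // p ≠ p₀} => kind p)) (y₀ : ℝ)
    (hy₀ : ∀ p, p ≠ p₀ → (y₀ : ℂ) ≠ A p ∧ (y₀ : ℂ) ≠ B p)
    (hA : ∀ p, p ≠ p₀ → σA p ^ 2 = (A p - y₀) ^ 2 *
      (nodal univ (Sum.elim (fun p : {p // p ≠ p₀} => A p)
        (fun p : {p // p ≠ p₀} => B p))).derivative.eval (A p))
    (hB : ∀ p, p ≠ p₀ → σB p ^ 2 = (B p - y₀) ^ 2 *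
      (nodal univ (Sum.elim (fun p : {p // p ≠ p₀} => A p)
        (fun p : {p // p ≠ p₀} => B p))).derivative.eval (B p))
    (F₀ F₁ : ℝ) (hF : (nodal univ (Sum.elim (fun p : {p // p ≠ p₀} => A p)
        (fun p : {p // p ≠ p₀} => B p))).eval (y₀ : ℂ) = F₀) (hF0 : F₀ < 0)
    (hF' : (nodal univ (Sum.elim (fun p : {p // p ≠ p₀} => A p)
        (fun p : {p // p ≠ p₀} => B p))).derivative.eval (y₀ : ℂ) = F₁)
    (M : Matrix (Fin k) (Fin k) ℂ)
    (hM : ∀ p, p ≠ p₀ → ∀ j : Fin k, M p j = A p ^ (j : ℕ) / σA p -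
      Complex.I * zet (kind p) (σA p) (σB p) * (B p ^ (j : ℕ) / σB p))
    (hM0 : ∀ j : Fin k, M p₀ j = 2 * (F₀ : ℂ) * ((j : ℕ) * (y₀ : ℂ) ^ ((j : ℕ) - 1)) -
      F₁ * (y₀ : ℂ) ^ (j : ℕ)) :
    ∃ x : ℝ, 0 < x ∧ M.det ^ 8 = x := by
  have hcard : Fintype.card {p // p ≠ p₀} + 1 = k := by
    have h := Fintype.card_subtype_compl (fun p : Fin k => p = p₀)
    rw [Fintype.card_fin, Fintype.card_subtype_eq] at h
    have hk : 0 < k := Fin.pos p₀
    have h' : Fintype.card {p : Fin k // p ≠ p₀} = k - 1 := h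
    omega
  refine det_event hC y₀ hy₀ hA hB M hM
    (fun j => 2 * F₀ * ((j : ℕ) * y₀ ^ ((j : ℕ) - 1)) - F₁ * y₀ ^ (j : ℕ)) (fun j => by
    rw [hM0]; push_cast; rfl) (fun c hc => ?_) ?_
  · have hd : (polyOf c).degree < ((Fintype.card {p // p ≠ p₀} + 1 : ℕ) : WithBot ℕ) := by
      rw [hcard]
      exact polyOf_degree c
    refine adm_gap _ hC.inj (by rw [Fintype.card_sum, two_mul]) y₀ ?_ _ hd F₀ hF hF0 ?_
    · rintro (p | p)
      · exact (hy₀ p p.2).1
      · exact (hy₀ p p.2).2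
    · rw [hF, hF']
      have h1 : 2 * F₀ * (polyOf c).derivative.eval y₀ = F₁ * (polyOf c).eval y₀ := by
        rw [polyOf_derivative_eval, polyOf_eval, mul_sum, mul_sum, ← sub_eq_zero, ← sum_sub_distrib,
          ← hc]
        exact sum_congr rfl fun j _ => by ring
      exact_mod_cast h1
  · intro hk
    exfalso
    have hemp : IsEmpty {p // p ≠ p₀} := Fintype.card_eq_zero_iff.1 (by omega)
    rw [eval_nodal, Fintype.prod_empty] at hF
    have : F₀ = 1 := by exact_mod_cast hF.symm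
    linarith

end event

end Pool.Agent.Rohlin
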