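import Pool.Agent.Rohlin.Slice2D

/-!
# The local types of a strip set at simple zeros and at folds

Part of the counting package of the cell ROH (MP_dec4ff_ag).
-/

set_option autoImplicit false

namespace Pool.Agent.Rohlin

open Set Topology Filter

/-- points slightly to the left of a left end -/
theorem exists_out_left {S : Set ℝ} {z c : ℝ} (hz : z ∈ leftEnds S) (hc : c < z) :
    ∃ w, c < w ∧ w < z ∧ w ∉ S := by
  obtain ⟨_, ε, hε, hout⟩ := hz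
  refine ⟨max (z - ε / 2) ((c + z) / 2), ?_, ?_, hout _ ⟨?_, ?_⟩⟩
  · exact lt_of_lt_of_le (by linarith) (le_max_right _ _)
  · exact max_lt (by linarith) (by linarith)
  · exact lt_of_lt_of_le (by linarith) (le_max_left _ _)
  · exact max_lt (by linarith) (by linarith)

/-- exactly one left end -/
theorem ncard_one {S : Set ℝ} (hS : IsClosed S) (hF : (frontier S).Finite) {a b x y : ℝ}
    (hax : a < x) (hxy : x < y) (hyb : y < b) (hx : x ∉ S) (hy : y ∈ S)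
    (h : (∀ u ∈ Ioo a b, ∀ v ∈ Ioo a b, u ∈ S → v ∈ S → Icc u v ⊆ S) ∨
      (∀ u ∈ Ioo a b, ∀ v ∈ Ioo a b, u ∉ S → v ∉ S → ∀ w ∈ Icc u v, w ∉ S)) :
    (leftEnds S ∩ Ioo a b).ncard = 1 := by
  obtain ⟨z, hz, hxz, hzy, -⟩ := exists_leftEnd hS hF hx hy hxy
  rw [ncard_eq_one]
  refine ⟨z, ?_⟩
  have huniq : ∀ z1 ∈ leftEnds S ∩ Ioo a b, ∀ z2 ∈ leftEnds S ∩ Ioo a b, ¬ z1 < z2 := by
    intro z1 h1 z2 h2 hlt
    obtain ⟨w, hw1, hw2, hwS⟩ := exists_out_left h2.1 hlt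
    rcases h with h | h
    · exact hwS (h z1 h1.2 z2 h2.2 h1.1.1 h2.1.1 ⟨hw1.le, hw2.le⟩)
    · obtain ⟨w', hw1', hw2', hwS'⟩ := exists_out_left h1.1 h1.2.1
      exact h w' ⟨hw1', by linarith [h1.2.2]⟩ w ⟨by linarith [h1.2.1], by linarith [h2.2.2]⟩
        hwS' hwS z1 ⟨hw2'.le, hw1.le⟩ h1.1.1
  have hzI : z ∈ leftEnds S ∩ Ioo a b := ⟨hz, by linarith, by linarith⟩
  ext t
  constructor
  · intro ht
    rcases lt_trichotomy t z with h1 | h1 | h1
    · exact absurd h1 (huniq t ht z hzI)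
    · exact h1
    · exact absurd h1 (huniq z hzI t ht)
  · rintro rfl
    exact hzI

/-- no left end -/
theorem ncard_none {S : Set ℝ} {a b : ℝ}
    (h : ∀ u ∈ Ioo a b, ∀ v ∈ Ioo a b, u < v → v ∈ S → u ∈ S) :
    (leftEnds S ∩ Ioo a b).ncard = 0 := by
  have : leftEnds S ∩ Ioo a b = ∅ := by
    rw [eq_empty_iff_forall_notMem]
    rintro z ⟨hz, hza, hzb⟩
    obtain ⟨w, hw1, hw2, hwS⟩ := exists_out_left hz hza
    exact hwS (h w ⟨hw1, by linarith⟩ z ⟨hza, hzb⟩ hw2 hz.1)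
  rw [this, ncard_empty]

/-- a box -/
theorem exists_box {P : ℝ × ℝ → Prop} {θ ρ : ℝ} (h : ∀ᶠ q in 𝓝 (θ, ρ), P q) :
    ∃ r > 0, ∀ θ' ∈ Ioo (θ - r) (θ + r), ∀ η ∈ Icc (ρ - r) (ρ + r), P (θ', η) := by
  obtain ⟨r, hr, hball⟩ := Metric.eventually_nhds_iff.1 h
  refine ⟨r / 2, by positivity, fun θ' h1 η h2 => hball ?_⟩
  rw [Prod.dist_eq]
  refine max_lt ?_ ?_
  · rw [Real.dist_eq, abs_lt]
    constructor <;> simp only <;> linarith [h1.1, h1.2]
  · rw [Real.dist_eq, abs_lt]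
    constructor <;> simp only <;> linarith [h2.1, h2.2]

/-- a function of two variables with some continuous derivatives -/
structure Smooth2 (G Gy Gyy Gx : ℝ → ℝ → ℝ) : Prop where
  dy : ∀ θ η, HasDerivAt (fun y => G θ y) (Gy θ η) η
  dyy : ∀ θ η, HasDerivAt (fun y => Gy θ y) (Gyy θ η) η
  dx : ∀ θ η, HasDerivAt (fun t => G t η) (Gx θ η) θ
  c : Continuous fun p : ℝ × ℝ => G p.1 p.2
  cy : Continuous fun p : ℝ × ℝ => Gy p.1 p.2
  cyy : Continuous fun p : ℝ × ℝ => Gyy p.1 p.2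
  cx : Continuous fun p : ℝ × ℝ => Gx p.1 p.2

namespace Smooth2

variable {G Gy Gyy Gx : ℝ → ℝ → ℝ}

theorem const_mul (S : Smooth2 G Gy Gyy Gx) (τ : ℝ) :
    Smooth2 (fun θ η => τ * G θ η) (fun θ η => τ * Gy θ η) (fun θ η => τ * Gyy θ η)
      (fun θ η => τ * Gx θ η) where
  dy θ η := (S.dy θ η).const_mul τ
  dyy θ η := (S.dyy θ η).const_mul τ
  dx θ η := (S.dx θ η).const_mul τ
  c := S.c.const_mul τ
  cy := S.cy.const_mul τ
  cyy := S.cyy.const_mul τ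
  cx := S.cx.const_mul τ

theorem neg (S : Smooth2 G Gy Gyy Gx) :
    Smooth2 (fun θ η => - G θ η) (fun θ η => - Gy θ η) (fun θ η => - Gyy θ η)
      (fun θ η => - Gx θ η) where
  dy θ η := (S.dy θ η).fun_neg
  dyy θ η := (S.dyy θ η).fun_neg
  dx θ η := (S.dx θ η).fun_neg
  c := S.c.neg
  cy := S.cy.neg
  cyy := S.cyy.neg
  cx := S.cx.neg

variable (S : Smooth2 G Gy Gyy Gx)
include S

theorem cont_slice (θ : ℝ) : Continuous (G θ) :=
  S.c.comp (Continuous.prodMk continuous_const continuous_id)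

theorem cont_slice' (η : ℝ) : Continuous fun θ => G θ η :=
  S.c.comp (Continuous.prodMk continuous_id continuous_const)

theorem mono_y {θ a b : ℝ} (h : ∀ η ∈ Icc a b, 0 < Gy θ η) : StrictMonoOn (G θ) (Icc a b) :=
  strictMonoOn_of_deriv_pos (convex_Icc a b) (S.cont_slice θ).continuousOn fun x hx => by
    rw [interior_Icc] at hx
    rw [(S.dy θ x).deriv]
    exact h x (Ioo_subset_Icc_self hx)

theorem mono_yy {θ a b : ℝ} (h : ∀ η ∈ Icc a b, 0 < Gyy θ η) : StrictMonoOn (Gy θ) (Icc a b) :=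
  strictMonoOn_of_deriv_pos (convex_Icc a b)
    (S.cy.comp (Continuous.prodMk continuous_const continuous_id)).continuousOn fun x hx => by
    rw [interior_Icc] at hx
    rw [(S.dyy θ x).deriv]
    exact h x (Ioo_subset_Icc_self hx)

theorem mono_x {η a b : ℝ} (h : ∀ θ ∈ Ioo a b, 0 < Gx θ η) :
    StrictMonoOn (fun θ => G θ η) (Ioo a b) :=
  strictMonoOn_of_deriv_pos (convex_Ioo a b) (S.cont_slice' η).continuousOn fun x hx => by
    rw [interior_Ioo] at hx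
    rw [(S.dx x η).deriv]
    exact h x hx

/-- the minimum of a slice -/
theorem pos_of_convex {θ ρ r : ℝ} (hr : 0 < r) (h : ∀ η ∈ Icc (ρ - r) (ρ + r), 0 < Gyy θ η)
    (h0 : G θ ρ = 0) (h1 : Gy θ ρ = 0) {η : ℝ} (hη : η ∈ Icc (ρ - r) (ρ + r)) (hne : η ≠ ρ) :
    0 < G θ η := by
  have hm := S.mono_yy h
  have hρ : ρ ∈ Icc (ρ - r) (ρ + r) := ⟨by linarith, by linarith⟩
  rcases lt_or_gt_of_ne hne with hlt | hgt
  · -- to the left the derivative is negative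
    have key : StrictAntiOn (G θ) (Icc η ρ) :=
      strictAntiOn_of_deriv_neg (convex_Icc _ _) (S.cont_slice θ).continuousOn fun x hx => by
        rw [interior_Icc] at hx
        rw [(S.dy θ x).deriv, ← h1]
        exact hm ⟨by linarith [hη.1, hx.1], by linarith [hx.2]⟩ hρ hx.2
    have := key ⟨le_rfl, hlt.le⟩ ⟨hlt.le, le_rfl⟩ hlt
    linarith
  · have key : StrictMonoOn (G θ) (Icc ρ η) :=
      strictMonoOn_of_deriv_pos (convex_Icc _ _) (S.cont_slice θ).continuousOn fun x hx => by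
        rw [interior_Icc] at hx
        rw [(S.dy θ x).deriv, ← h1]
        exact hm hρ ⟨by linarith [hx.1], by linarith [hη.2, hx.2]⟩ hx.1
    have := key ⟨le_rfl, hgt.le⟩ ⟨hgt.le, le_rfl⟩ hgt
    linarith

/-- quasiconvexity of a slice -/
theorem quasi {θ a b : ℝ} (h : ∀ η ∈ Icc a b, 0 < Gyy θ η) {u v w : ℝ} (hu : u ∈ Icc a b)
    (hv : v ∈ Icc a b) (hw : w ∈ Icc u v) : G θ w ≤ max (G θ u) (G θ v) := by
  have hc : StrictConvexOn ℝ (Icc a b) (G θ) := by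
    refine strictConvexOn_of_deriv2_pos (convex_Icc a b) (S.cont_slice θ).continuousOn
      fun x hx => ?_
    rw [interior_Icc] at hx
    have e1 : deriv (G θ) = Gy θ := funext fun y => (S.dy θ y).deriv
    rw [Function.iterate_succ, Function.iterate_one, Function.comp_apply, e1, (S.dyy θ x).deriv]
    exact h x (Ioo_subset_Icc_self hx)
  exact hc.convexOn.le_max_of_mem_Icc hu hv hw

end Smooth2

section types

variable {G Gy Gyy Gx : ℝ → ℝ → ℝ} (S : Smooth2 G Gy Gyy Gx) {E Z : Set (ℝ × ℝ)}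
  (h : StripSet E Z) {θ ρ : ℝ}

include S h

/-- simple zero where the set lies above -/
theorem locType_pos (hloc : ∀ᶠ q : ℝ × ℝ in 𝓝 (θ, ρ), q ∈ E ↔ 0 ≤ G q.1 q.2) (h0 : G θ ρ = 0)
    (h1 : 0 < Gy θ ρ) : LocType E θ ρ 1 1 1 := by
  have hpos : ∀ᶠ q : ℝ × ℝ in 𝓝 (θ, ρ), 0 < Gy q.1 q.2 :=
    (isOpen_lt continuous_const S.cy).mem_nhds h1
  obtain ⟨r, hr, hbox⟩ := exists_box (hloc.and hpos)
  refine ⟨r, hr, fun ε hε hεr => ?_⟩
  have hmθ : StrictMonoOn (G θ) (Icc (ρ - r) (ρ + r)) := S.mono_y fun η hη =>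
    (hbox θ ⟨by linarith, by linarith⟩ η hη).2
  have hup : 0 < G θ (ρ + ε / 2) := by
    rw [← h0]
    exact hmθ ⟨by linarith, by linarith⟩ ⟨by linarith, by linarith⟩ (by linarith)
  have hdn : G θ (ρ - ε / 2) < 0 := by
    rw [← h0]
    exact hmθ ⟨by linarith, by linarith⟩ ⟨by linarith, by linarith⟩ (by linarith)
  filter_upwards [Ioo_mem_nhds (show θ - r < θ by linarith) (show θ < θ + r by linarith),
    (isOpen_lt continuous_const (S.cont_slice' _)).mem_nhds hup,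
    (isOpen_lt (S.cont_slice' _) continuous_const).mem_nhds hdn] with θ' h2 h3 h4
  have hm' : StrictMonoOn (G θ') (Icc (ρ - r) (ρ + r)) := S.mono_y fun η hη => (hbox θ' h2 η hη).2
  have hiff : ∀ η ∈ Icc (ρ - r) (ρ + r), η ∈ sl E θ' ↔ 0 ≤ G θ' η := fun η hη =>
    (hbox θ' h2 η hη).1
  have hIoo : ∀ u ∈ Ioo (ρ - ε) (ρ + ε), u ∈ Icc (ρ - r) (ρ + r) := fun u hu =>
    ⟨by linarith [hu.1], by linarith [hu.2]⟩
  have := ncard_one (h.closed_sl θ') (h.fin_front θ') (a := ρ - ε) (b := ρ + ε) (x := ρ - ε / 2)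
    (y := ρ + ε / 2) (by linarith) (by linarith) (by linarith)
    (by rw [hiff _ ⟨by linarith, by linarith⟩]; exact not_le.2 h4)
    (by rw [hiff _ ⟨by linarith, by linarith⟩]; exact le_of_lt h3)
    (Or.inl fun u hu v hv huS _ w hw => by
      have hwI : w ∈ Icc (ρ - r) (ρ + r) := ⟨by linarith [(hIoo u hu).1, hw.1],
        by linarith [(hIoo v hv).2, hw.2]⟩
      rw [hiff w hwI]
      rw [hiff u (hIoo u hu)] at huS
      exact huS.trans (hm'.monotoneOn (hIoo u hu) hwI hw.1))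
  rw [this]
  split_ifs <;> rfl

/-- simple zero where the set lies below -/
theorem locType_neg (hloc : ∀ᶠ q : ℝ × ℝ in 𝓝 (θ, ρ), q ∈ E ↔ 0 ≤ G q.1 q.2)
    (h1 : Gy θ ρ < 0) : LocType E θ ρ 0 0 0 := by
  have hneg : ∀ᶠ q : ℝ × ℝ in 𝓝 (θ, ρ), Gy q.1 q.2 < 0 :=
    (isOpen_lt S.cy continuous_const).mem_nhds h1
  obtain ⟨r, hr, hbox⟩ := exists_box (hloc.and hneg)
  refine ⟨r, hr, fun ε hε hεr => ?_⟩
  filter_upwards [Ioo_mem_nhds (show θ - r < θ by linarith) (show θ < θ + r by linarith)] with θ' h2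
  have hm' : StrictMonoOn (fun η => - G θ' η) (Icc (ρ - r) (ρ + r)) :=
    S.neg.mono_y fun η hη => neg_pos.2 (hbox θ' h2 η hη).2
  have hiff : ∀ η ∈ Icc (ρ - r) (ρ + r), η ∈ sl E θ' ↔ 0 ≤ G θ' η := fun η hη =>
    (hbox θ' h2 η hη).1
  have hIoo : ∀ u ∈ Ioo (ρ - ε) (ρ + ε), u ∈ Icc (ρ - r) (ρ + r) := fun u hu =>
    ⟨by linarith [hu.1], by linarith [hu.2]⟩
  have := ncard_none (S := sl E θ') (a := ρ - ε) (b := ρ + ε) fun u hu v hv huv hvS => by
    rw [hiff u (hIoo u hu)]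
    rw [hiff v (hIoo v hv)] at hvS
    have := hm' (hIoo u hu) (hIoo v hv) huv
    simp only at this
    linarith
  rw [this]
  split_ifs <;> rfl

theorem locType_simple (hloc : ∀ᶠ q : ℝ × ℝ in 𝓝 (θ, ρ), q ∈ E ↔ 0 ≤ G q.1 q.2)
    (h0 : G θ ρ = 0) (h1 : Gy θ ρ ≠ 0) : ∃ c : ℕ, LocType E θ ρ c c c := by
  rcases lt_or_gt_of_ne h1 with h2 | h2
  · exact ⟨0, locType_neg S h hloc h2⟩
  · exact ⟨1, locType_pos S h hloc h0 h2⟩

/-- fold, convex case -/
theorem locType_convex (hloc : ∀ᶠ q : ℝ × ℝ in 𝓝 (θ, ρ), q ∈ E ↔ 0 ≤ G q.1 q.2)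
    (h0 : G θ ρ = 0) (h1 : Gy θ ρ = 0) (h2 : 0 < Gyy θ ρ) (h3 : Gx θ ρ ≠ 0) :
    LocType E θ ρ 1 0 0 ∨ LocType E θ ρ 0 0 1 := by
  have hpos : ∀ᶠ q : ℝ × ℝ in 𝓝 (θ, ρ), 0 < Gyy q.1 q.2 :=
    (isOpen_lt continuous_const S.cyy).mem_nhds h2
  -- the core for a given box
  have core : ∀ r > 0, (∀ θ' ∈ Ioo (θ - r) (θ + r), ∀ η ∈ Icc (ρ - r) (ρ + r),
      ((θ', η) ∈ E ↔ 0 ≤ G θ' η) ∧ 0 < Gyy θ' η) → ∀ ε, 0 < ε → ε < r → ∀ᶠ θ' in 𝓝 θ,
      θ' ∈ Ioo (θ - r) (θ + r) ∧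
      ((∀ η ∈ Icc (ρ - r) (ρ + r), G θ η ≤ G θ' η) →
        (leftEnds (sl E θ') ∩ Ioo (ρ - ε) (ρ + ε)).ncard = 0) ∧
      (G θ' ρ < G θ ρ → (leftEnds (sl E θ') ∩ Ioo (ρ - ε) (ρ + ε)).ncard = 1) := by
    intro r hr hbox ε hε hεr
    have hθpos : ∀ η ∈ Icc (ρ - r) (ρ + r), η ≠ ρ → 0 < G θ η := fun η hη hne =>
      S.pos_of_convex hr (fun x hx => (hbox θ ⟨by linarith, by linarith⟩ x hx).2) h0 h1 hη hne
    have hup : 0 < G θ (ρ + ε / 2) :=
      hθpos _ ⟨by linarith, by linarith⟩ (by linarith : ρ < ρ + ε / 2).ne'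
    filter_upwards [Ioo_mem_nhds (show θ - r < θ by linarith) (show θ < θ + r by linarith),
      (isOpen_lt continuous_const (S.cont_slice' _)).mem_nhds hup] with θ' h5 h6
    have hiff : ∀ η ∈ Icc (ρ - r) (ρ + r), η ∈ sl E θ' ↔ 0 ≤ G θ' η := fun η hη =>
      (hbox θ' h5 η hη).1
    have hIoo : ∀ u ∈ Ioo (ρ - ε) (ρ + ε), u ∈ Icc (ρ - r) (ρ + r) := fun u hu =>
      ⟨by linarith [hu.1], by linarith [hu.2]⟩
    refine ⟨h5, fun hle => ncard_none fun u hu v _ _ _ => ?_, fun hlt => ?_⟩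
    · rw [hiff u (hIoo u hu)]
      refine le_trans ?_ (hle u (hIoo u hu))
      by_cases hue : u = ρ
      · rw [hue, h0]
      · exact (hθpos u (hIoo u hu) hue).le
    · rw [h0] at hlt
      refine ncard_one (h.closed_sl θ') (h.fin_front θ') (x := ρ) (y := ρ + ε / 2)
        (by linarith) (by linarith) (by linarith)
        (by rw [hiff _ ⟨by linarith, by linarith⟩]; exact not_le.2 hlt)
        (by rw [hiff _ ⟨by linarith, by linarith⟩]; exact le_of_lt h6)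
        (Or.inr fun u hu v hv huS hvS w hw => ?_)
      have hwI : w ∈ Icc (ρ - r) (ρ + r) := ⟨by linarith [(hIoo u hu).1, hw.1],
        by linarith [(hIoo v hv).2, hw.2]⟩
      rw [hiff _ (hIoo u hu), not_le] at huS
      rw [hiff _ (hIoo v hv), not_le] at hvS
      rw [hiff w hwI, not_le]
      exact lt_of_le_of_lt (S.quasi (fun η hη => (hbox θ' h5 η hη).2) (hIoo u hu) (hIoo v hv) hw)
        (max_lt huS hvS)
  rcases lt_or_gt_of_ne h3 with h4 | h4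
  · right
    have hx : ∀ᶠ q : ℝ × ℝ in 𝓝 (θ, ρ), Gx q.1 q.2 < 0 :=
      (isOpen_lt S.cx continuous_const).mem_nhds h4
    obtain ⟨r, hr, hbox⟩ := exists_box ((hloc.and hpos).and hx)
    refine ⟨r, hr, fun ε hε hεr => ?_⟩
    filter_upwards [core r hr (fun θ' h5 η hη => (hbox θ' h5 η hη).1) ε hε hεr] with θ' h5
    obtain ⟨h5, h6, h7⟩ := h5
    have hθ : θ ∈ Ioo (θ - r) (θ + r) := ⟨by linarith, by linarith⟩
    have hm : ∀ η ∈ Icc (ρ - r) (ρ + r), StrictMonoOn (fun t => - G t η) (Ioo (θ - r) (θ + r)) :=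
      fun η hη => S.neg.mono_x fun t ht => neg_pos.2 (hbox t ht η hη).2
    split_ifs with h8 h9
    · refine h6 fun η hη => ?_
      have := hm η hη h5 hθ h8
      simp only at this
      linarith
    · refine h6 fun η hη => ?_
      rw [h9]
    · have h10 : θ < θ' := lt_of_le_of_ne (not_lt.1 h8) (Ne.symm h9)
      refine h7 ?_
      have := hm ρ ⟨by linarith, by linarith⟩ hθ h5 h10
      simp only at this
      linarith
  · left
    have hx : ∀ᶠ q : ℝ × ℝ in 𝓝 (θ, ρ), 0 < Gx q.1 q.2 :=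
      (isOpen_lt continuous_const S.cx).mem_nhds h4
    obtain ⟨r, hr, hbox⟩ := exists_box ((hloc.and hpos).and hx)
    refine ⟨r, hr, fun ε hε hεr => ?_⟩
    filter_upwards [core r hr (fun θ' h5 η hη => (hbox θ' h5 η hη).1) ε hε hεr] with θ' h5
    obtain ⟨h5, h6, h7⟩ := h5
    have hθ : θ ∈ Ioo (θ - r) (θ + r) := ⟨by linarith, by linarith⟩
    have hm : ∀ η ∈ Icc (ρ - r) (ρ + r), StrictMonoOn (fun t => G t η) (Ioo (θ - r) (θ + r)) :=
      fun η hη => S.mono_x fun t ht => (hbox t ht η hη).2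
    split_ifs with h8 h9
    · exact h7 (hm ρ ⟨by linarith, by linarith⟩ h5 hθ h8)
    · refine h6 fun η hη => ?_
      rw [h9]
    · have h10 : θ < θ' := lt_of_le_of_ne (not_lt.1 h8) (Ne.symm h9)
      exact h6 fun η hη => (hm η hη hθ h5 h10).le

/-- fold, concave case -/
theorem locType_concave (hloc : ∀ᶠ q : ℝ × ℝ in 𝓝 (θ, ρ), q ∈ E ↔ 0 ≤ G q.1 q.2)
    (h0 : G θ ρ = 0) (h1 : Gy θ ρ = 0) (h2 : Gyy θ ρ < 0) (h3 : Gx θ ρ ≠ 0) :
    LocType E θ ρ 1 1 0 ∨ LocType E θ ρ 0 1 1 := by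
  have hneg : ∀ᶠ q : ℝ × ℝ in 𝓝 (θ, ρ), Gyy q.1 q.2 < 0 :=
    (isOpen_lt S.cyy continuous_const).mem_nhds h2
  have core : ∀ r > 0, (∀ θ' ∈ Ioo (θ - r) (θ + r), ∀ η ∈ Icc (ρ - r) (ρ + r),
      ((θ', η) ∈ E ↔ 0 ≤ G θ' η) ∧ Gyy θ' η < 0) → ∀ ε, 0 < ε → ε < r → ∀ᶠ θ' in 𝓝 θ,
      θ' ∈ Ioo (θ - r) (θ + r) ∧
      ((∀ η ∈ Icc (ρ - r) (ρ + r), G θ' η < G θ η) →
        (leftEnds (sl E θ') ∩ Ioo (ρ - ε) (ρ + ε)).ncard = 0) ∧
      (G θ ρ ≤ G θ' ρ → (leftEnds (sl E θ') ∩ Ioo (ρ - ε) (ρ + ε)).ncard = 1) := by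
    intro r hr hbox ε hε hεr
    have hθneg : ∀ η ∈ Icc (ρ - r) (ρ + r), η ≠ ρ → G θ η < 0 := fun η hη hne => by
      have := S.neg.pos_of_convex hr
        (fun x hx => neg_pos.2 (hbox θ ⟨by linarith, by linarith⟩ x hx).2)
        (by rw [h0, neg_zero]) (by rw [h1, neg_zero]) hη hne
      linarith
    have hdn : G θ (ρ - ε / 2) < 0 :=
      hθneg _ ⟨by linarith, by linarith⟩ (by linarith : ρ - ε / 2 < ρ).ne
    filter_upwards [Ioo_mem_nhds (show θ - r < θ by linarith) (show θ < θ + r by linarith),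
      (isOpen_lt (S.cont_slice' _) continuous_const).mem_nhds hdn] with θ' h5 h6
    have hiff : ∀ η ∈ Icc (ρ - r) (ρ + r), η ∈ sl E θ' ↔ 0 ≤ G θ' η := fun η hη =>
      (hbox θ' h5 η hη).1
    have hIoo : ∀ u ∈ Ioo (ρ - ε) (ρ + ε), u ∈ Icc (ρ - r) (ρ + r) := fun u hu =>
      ⟨by linarith [hu.1], by linarith [hu.2]⟩
    refine ⟨h5, fun hlt => ncard_none fun u hu v hv _ hvS => ?_, fun hle => ?_⟩
    · exfalso
      rw [hiff v (hIoo v hv)] at hvS
      have e1 := hlt v (hIoo v hv)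
      by_cases hve : v = ρ
      · rw [hve] at e1 hvS
        linarith
      · linarith [hθneg v (hIoo v hv) hve]
    · rw [h0] at hle
      refine ncard_one (h.closed_sl θ') (h.fin_front θ') (x := ρ - ε / 2) (y := ρ)
        (by linarith) (by linarith) (by linarith)
        (by rw [hiff _ ⟨by linarith, by linarith⟩]; exact not_le.2 h6)
        (by rw [hiff _ ⟨by linarith, by linarith⟩]; exact hle)
        (Or.inl fun u hu v hv huS hvS w hw => ?_)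
      have hwI : w ∈ Icc (ρ - r) (ρ + r) := ⟨by linarith [(hIoo u hu).1, hw.1],
        by linarith [(hIoo v hv).2, hw.2]⟩
      rw [hiff _ (hIoo u hu)] at huS
      rw [hiff _ (hIoo v hv)] at hvS
      rw [hiff w hwI]
      have := S.neg.quasi (fun η hη => neg_pos.2 (hbox θ' h5 η hη).2) (hIoo u hu) (hIoo v hv) hw
      have e2 : max (-G θ' u) (-G θ' v) ≤ 0 := max_le (by linarith) (by linarith)
      linarith
  rcases lt_or_gt_of_ne h3 with h4 | h4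
  · left
    have hx : ∀ᶠ q : ℝ × ℝ in 𝓝 (θ, ρ), Gx q.1 q.2 < 0 :=
      (isOpen_lt S.cx continuous_const).mem_nhds h4
    obtain ⟨r, hr, hbox⟩ := exists_box ((hloc.and hneg).and hx)
    refine ⟨r, hr, fun ε hε hεr => ?_⟩
    filter_upwards [core r hr (fun θ' h5 η hη => (hbox θ' h5 η hη).1) ε hε hεr] with θ' h5
    obtain ⟨h5, h6, h7⟩ := h5
    have hθ : θ ∈ Ioo (θ - r) (θ + r) := ⟨by linarith, by linarith⟩
    have hm : ∀ η ∈ Icc (ρ - r) (ρ + r), StrictMonoOn (fun t => - G t η) (Ioo (θ - r) (θ + r)) :=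
      fun η hη => S.neg.mono_x fun t ht => neg_pos.2 (hbox t ht η hη).2
    split_ifs with h8 h9
    · refine h7 ?_
      have := hm ρ ⟨by linarith, by linarith⟩ h5 hθ h8
      simp only at this
      linarith
    · refine h7 ?_
      rw [h9]
    · have h10 : θ < θ' := lt_of_le_of_ne (not_lt.1 h8) (Ne.symm h9)
      refine h6 fun η hη => ?_
      have := hm η hη hθ h5 h10
      simp only at this
      linarith
  · right
    have hx : ∀ᶠ q : ℝ × ℝ in 𝓝 (θ, ρ), 0 < Gx q.1 q.2 :=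
      (isOpen_lt continuous_const S.cx).mem_nhds h4
    obtain ⟨r, hr, hbox⟩ := exists_box ((hloc.and hneg).and hx)
    refine ⟨r, hr, fun ε hε hεr => ?_⟩
    filter_upwards [core r hr (fun θ' h5 η hη => (hbox θ' h5 η hη).1) ε hε hεr] with θ' h5
    obtain ⟨h5, h6, h7⟩ := h5
    have hθ : θ ∈ Ioo (θ - r) (θ + r) := ⟨by linarith, by linarith⟩
    have hm : ∀ η ∈ Icc (ρ - r) (ρ + r), StrictMonoOn (fun t => G t η) (Ioo (θ - r) (θ + r)) :=
      fun η hη => S.mono_x fun t ht => (hbox t ht η hη).2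
    split_ifs with h8 h9
    · exact h6 fun η hη => hm η hη h5 hθ h8
    · refine h7 ?_
      rw [h9]
    · have h10 : θ < θ' := lt_of_le_of_ne (not_lt.1 h8) (Ne.symm h9)
      exact h7 (hm ρ ⟨by linarith, by linarith⟩ hθ h5 h10).le

/-- fold: the jump of the number of left ends -/
theorem locType_fold (hloc : ∀ᶠ q : ℝ × ℝ in 𝓝 (θ, ρ), q ∈ E ↔ 0 ≤ G q.1 q.2)
    (h0 : G θ ρ = 0) (h1 : Gy θ ρ = 0) (h2 : Gyy θ ρ ≠ 0) (h3 : Gx θ ρ ≠ 0) :
    ∃ cL c0 cR : ℕ, LocType E θ ρ cL c0 cR ∧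
      (2 * c0 : ℤ) - cL - cR = - (SignType.sign (Gyy θ ρ) : ℤ) := by
  rcases lt_or_gt_of_ne h2 with h4 | h4
  · rw [sign_neg h4]
    rcases locType_concave S h hloc h0 h1 h4 h3 with h5 | h5
    · exact ⟨1, 1, 0, h5, by simp⟩
    · exact ⟨0, 1, 1, h5, by simp⟩
  · rw [sign_pos h4]
    rcases locType_convex S h hloc h0 h1 h4 h3 with h5 | h5
    · exact ⟨1, 0, 0, h5, by simp⟩
    · exact ⟨0, 0, 1, h5, by simp⟩

end types

end Pool.Agent.Rohlin
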