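import Pool.Agent.Rohlin.RP2Top
import Pool.Agent.Rohlin.Line
import Pool.Agent.Rohlin.LocTypes

/-!
# Derivatives of the family `gr f θ`, double roots

Part of the counting package of the cell ROH (MP_dec4ff_ag).
-/

set_option autoImplicit false

namespace Pool.Agent.Rohlin

open Set Topology Filter

theorem derivative_gr (f : MvPolynomial (Fin 3) ℝ) (θ : ℝ) :
    Polynomial.derivative (gr f θ) = gr (MvPolynomial.pderiv 2 f) θ := by
  unfold gr
  induction f using MvPolynomial.induction_on with
  | C r => simp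
  | add p q hp hq => simp only [map_add, hp, hq]
  | mul_X p i hp =>
    rw [map_mul, Polynomial.derivative_mul, hp, Derivation.leibniz, map_add, smul_eq_mul,
      smul_eq_mul, map_mul, map_mul]
    fin_cases i
    · simp [MvPolynomial.pderiv_X]
      ring
    · simp [MvPolynomial.pderiv_X]
      ring
    · simp [MvPolynomial.pderiv_X]
      ring

/-- the derivative in the direction of the angle -/
noncomputable def gx (f : MvPolynomial (Fin 3) ℝ) (θ η : ℝ) : ℝ :=
  -Real.sin θ * (gr (MvPolynomial.pderiv 0 f) θ).eval η +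
    Real.cos θ * (gr (MvPolynomial.pderiv 1 f) θ).eval η

theorem hasDerivAt_theta (f : MvPolynomial (Fin 3) ℝ) (θ η : ℝ) :
    HasDerivAt (fun t => (gr f t).eval η) (gx f θ η) θ := by
  simp only [gx, gr_eval]
  induction f using MvPolynomial.induction_on with
  | C r => simpa using hasDerivAt_const θ r
  | add p q hp hq =>
    simp only [map_add]
    refine (hp.fun_add hq).congr_deriv ?_
    ring
  | mul_X p i hp =>
    simp only [map_mul, MvPolynomial.eval_X, Derivation.leibniz, smul_eq_mul, map_add]
    have hX : HasDerivAt (fun t : ℝ => (![Real.cos t, Real.sin t, η] : Fin 3 → ℝ) i)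
        (-Real.sin θ * MvPolynomial.eval ![Real.cos θ, Real.sin θ, η]
          (MvPolynomial.pderiv 0 (MvPolynomial.X i : MvPolynomial (Fin 3) ℝ)) +
        Real.cos θ * MvPolynomial.eval ![Real.cos θ, Real.sin θ, η]
          (MvPolynomial.pderiv 1 (MvPolynomial.X i : MvPolynomial (Fin 3) ℝ))) θ := by
      fin_cases i
      · simpa [MvPolynomial.pderiv_X] using Real.hasDerivAt_cos θ
      · simpa [MvPolynomial.pderiv_X] using Real.hasDerivAt_sin θ
      · simpa [MvPolynomial.pderiv_X] using hasDerivAt_const θ η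
    refine (hp.fun_mul hX).congr_deriv ?_
    ring

/-- Euler's identity -/
theorem euler {f : MvPolynomial (Fin 3) ℝ} (hf : f.IsHomogeneous 8) (θ η : ℝ) :
    Real.cos θ * (gr (MvPolynomial.pderiv 0 f) θ).eval η +
      Real.sin θ * (gr (MvPolynomial.pderiv 1 f) θ).eval η +
      η * (gr (MvPolynomial.pderiv 2 f) θ).eval η = 8 * (gr f θ).eval η := by
  simp only [gr_eval]
  have h := congrArg (MvPolynomial.eval ![Real.cos θ, Real.sin θ, η]) hf.sum_X_mul_pderiv
  rw [map_sum, Fin.sum_univ_three] at h
  simp only [map_mul, MvPolynomial.eval_X, nsmul_eq_mul] at h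
  simpa using h

theorem smooth_gr (f : MvPolynomial (Fin 3) ℝ) :
    Smooth2 (fun θ η => (gr f θ).eval η)
      (fun θ η => (Polynomial.derivative (gr f θ)).eval η)
      (fun θ η => (Polynomial.derivative (Polynomial.derivative (gr f θ))).eval η) (gx f) where
  dy θ η := (gr f θ).hasDerivAt η
  dyy θ η := (Polynomial.derivative (gr f θ)).hasDerivAt η
  dx θ η := hasDerivAt_theta f θ η
  c := continuous_gr_eval f
  cy := by
    simp only [derivative_gr]
    exact continuous_gr_eval _
  cyy := by
    simp only [derivative_gr]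
    exact continuous_gr_eval _
  cx := by
    unfold gx
    exact (((Real.continuous_sin.comp continuous_fst).neg).mul (continuous_gr_eval _)).add
      ((Real.continuous_cos.comp continuous_fst).mul (continuous_gr_eval _))

section

variable {f : MvPolynomial (Fin 3) ℝ}

theorem map_eval_real (p : Polynomial ℝ) (η : ℝ) :
    (p.map (algebraMap ℝ ℂ)).eval (η : ℂ) = ((p.eval η : ℝ) : ℂ) := by
  rw [Polynomial.eval_map]
  exact Polynomial.eval₂_at_apply (algebraMap ℝ ℂ) η

theorem dir_eval_real (f : MvPolynomial (Fin 3) ℝ) (θ η : ℝ) :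
    (dir f (Real.cos θ : ℂ) (Real.sin θ : ℂ)).eval (η : ℂ) = (((gr f θ).eval η : ℝ) : ℂ) := by
  rw [← Line.gr_map]
  exact map_eval_real _ _

theorem dir_derivative_eval_real (f : MvPolynomial (Fin 3) ℝ) (θ η : ℝ) :
    (Polynomial.derivative (dir f (Real.cos θ : ℂ) (Real.sin θ : ℂ))).eval (η : ℂ) =
      (((Polynomial.derivative (gr f θ)).eval η : ℝ) : ℂ) := by
  rw [← Line.gr_map, Polynomial.derivative_map]
  exact map_eval_real _ _

theorem dir_derivative2_eval_real (f : MvPolynomial (Fin 3) ℝ) (θ η : ℝ) :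
    (Polynomial.derivative (Polynomial.derivative
      (dir f (Real.cos θ : ℂ) (Real.sin θ : ℂ)))).eval (η : ℂ) =
      (((Polynomial.derivative (Polynomial.derivative (gr f θ))).eval η : ℝ) : ℂ) := by
  rw [← Line.gr_map, Polynomial.derivative_map, Polynomial.derivative_map]
  exact map_eval_real _ _

theorem cos_or_sin (θ : ℝ) : ((Real.cos θ : ℝ) : ℂ) ≠ 0 ∨ ((Real.sin θ : ℝ) : ℂ) ≠ 0 := by
  by_contra h
  push Not at h
  have h1 : Real.cos θ = 0 := by exact_mod_cast h.1
  have h2 : Real.sin θ = 0 := by exact_mod_cast h.2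
  have := Real.sin_sq_add_cos_sq θ
  rw [h1, h2] at this
  norm_num at this

/-- a double root is exactly double -/
theorem Normal.gyy_ne (nf : Normal f) {θ η : ℝ} (h0 : (gr f θ).eval η = 0)
    (h1 : (Polynomial.derivative (gr f θ)).eval η = 0) :
    (Polynomial.derivative (Polynomial.derivative (gr f θ))).eval η ≠ 0 := by
  intro h2
  refine nf.two _ _ (η : ℂ) (cos_or_sin θ) ?_ ?_ ?_
  · rw [dir_eval_real, h0, Complex.ofReal_zero]
  · rw [dir_derivative_eval_real, h1, Complex.ofReal_zero]
  · rw [dir_derivative2_eval_real, h2, Complex.ofReal_zero]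

/-- at most one double root -/
theorem Normal.dbl_unique (nf : Normal f) {θ η η' : ℝ} (h0 : (gr f θ).eval η = 0)
    (h1 : (Polynomial.derivative (gr f θ)).eval η = 0) (h0' : (gr f θ).eval η' = 0)
    (h1' : (Polynomial.derivative (gr f θ)).eval η' = 0) : η = η' := by
  have h := nf.one _ _ (η : ℂ) (η' : ℂ) (cos_or_sin θ)
    (by rw [dir_eval_real, h0, Complex.ofReal_zero])
    (by rw [dir_derivative_eval_real, h1, Complex.ofReal_zero])
    (by rw [dir_eval_real, h0', Complex.ofReal_zero])
    (by rw [dir_derivative_eval_real, h1', Complex.ofReal_zero])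
  exact_mod_cast h

theorem aeval_real_mv (p : MvPolynomial (Fin 3) ℝ) (θ η : ℝ) :
    MvPolynomial.aeval (![(Real.cos θ : ℂ), (Real.sin θ : ℂ), (η : ℂ)] : Fin 3 → ℂ) p =
      (((gr p θ).eval η : ℝ) : ℂ) := by
  rw [← Line.dir_eval]
  exact dir_eval_real p θ η

/-- at a double root the derivative in the direction of the angle does not vanish -/
theorem Normal.gx_ne (nf : Normal f) {θ η : ℝ} (h0 : (gr f θ).eval η = 0)
    (h1 : (Polynomial.derivative (gr f θ)).eval η = 0) : gx f θ η ≠ 0 := by
  intro h2
  rw [derivative_gr] at h1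
  have he := euler nf.hom θ η
  rw [h0, h1, mul_zero, mul_zero, add_zero] at he
  unfold gx at h2
  have hsc := Real.sin_sq_add_cos_sq θ
  set A := (gr (MvPolynomial.pderiv 0 f) θ).eval η with hA
  set B := (gr (MvPolynomial.pderiv 1 f) θ).eval η with hB
  have hA0 : A = 0 := by linear_combination Real.cos θ * he - Real.sin θ * h2 - A * hsc
  have hB0 : B = 0 := by linear_combination Real.sin θ * he + Real.cos θ * h2 - B * hsc
  obtain ⟨i, hi⟩ := nf.nonsing ![(Real.cos θ : ℂ), (Real.sin θ : ℂ), (η : ℂ)] (by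
    intro hz
    rcases cos_or_sin θ with h | h
    · exact h (by simpa using congrFun hz 0)
    · exact h (by simpa using congrFun hz 1)) (by rw [aeval_real_mv, h0, Complex.ofReal_zero])
  apply hi
  rw [aeval_real_mv]
  fin_cases i
  · change (((gr (MvPolynomial.pderiv 0 f) θ).eval η : ℝ) : ℂ) = 0
    rw [← hA, hA0, Complex.ofReal_zero]
  · change (((gr (MvPolynomial.pderiv 1 f) θ).eval η : ℝ) : ℂ) = 0
    rw [← hB, hB0, Complex.ofReal_zero]
  · change (((gr (MvPolynomial.pderiv 2 f) θ).eval η : ℝ) : ℂ) = 0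
    rw [h1, Complex.ofReal_zero]

/-- the zeros over one angle are finite in number -/
theorem Normal.finite_zeros (nf : Normal f) (θ : ℝ) : {η : ℝ | (gr f θ).eval η = 0}.Finite := by
  have hne : gr f θ ≠ 0 := (Line.gr_monic nf θ).ne_zero
  refine ((gr f θ).roots.toFinset.finite_toSet).subset fun η hη => ?_
  rw [Finset.mem_coe, Multiset.mem_toFinset, Polynomial.mem_roots hne]
  exact hη

end

end Pool.Agent.Rohlin
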