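import Pool.Agent.Rohlin.StripCount
import Pool.Agent.Rohlin.GrDeriv

/-!
# The strip set of a disc, jumps of the number of left ends

Part of the counting package of the cell ROH (MP_dec4ff_ag).
-/

set_option autoImplicit false

namespace Pool.Agent.Rohlin

open Set Topology Filter

/-! ### left ends and right ends -/

theorem ncard_leftEnds_le_neg {S : Set ℝ} (hS : IsClosed S) (hF : (frontier S).Finite) {B : ℝ}
    (hB : ∀ y ∈ S, |y| ≤ B) (hfin : (leftEnds {y : ℝ | -y ∈ S}).Finite) :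
    (leftEnds S).ncard ≤ (leftEnds {y : ℝ | -y ∈ S}).ncard := by
  have hmax : ∀ z ∈ leftEnds S, sSup (cmp S z) ∈ cmp S z := fun z hz =>
    (isCompact_cmp hS hB z).sSup_mem
      ⟨z, le_rfl, by rw [Icc_self]; exact singleton_subset_iff.2 hz.1⟩
  have hle : ∀ z ∈ leftEnds S, ∀ y ∈ cmp S z, y ≤ sSup (cmp S z) := fun z hz y hy =>
    le_csSup (isCompact_cmp hS hB z).bddAbove hy
  refine ncard_le_ncard_of_injOn (fun z => -sSup (cmp S z)) (fun z hz => ?_)
    (fun z hz z' hz' heq => ?_) hfin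
  · set r := sSup (cmp S z) with hr
    have hrm := hmax z hz
    rw [← hr] at hrm
    have hrS : r ∈ S := hrm.2 ⟨hrm.1, le_rfl⟩
    have hnb : (frontier S \ {r})ᶜ ∈ 𝓝 r :=
      (hF.subset sdiff_subset).isClosed.isOpen_compl.mem_nhds (fun h => h.2 rfl)
    obtain ⟨ε, hε, hball⟩ := Metric.mem_nhds_iff.1 hnb
    have hdis : Disjoint (Ioo r (r + ε)) (frontier S) := by
      rw [Set.disjoint_left]
      intro u hu huF
      have h1 : u ∈ Metric.ball r ε := by
        rw [Metric.mem_ball, Real.dist_eq, abs_lt]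
        constructor <;> linarith [hu.1, hu.2]
      exact hball h1 ⟨huF, hu.1.ne'⟩
    refine ⟨by change - -r ∈ S; rwa [neg_neg], ε, hε, fun y hy hyS => ?_⟩
    rcases subset_or_disjoint_of_frontier isPreconnected_Ioo hdis with h1 | h1
    · have h2 : r + ε / 2 ∈ cmp S z := by
        refine ⟨by linarith [hrm.1], fun u hu => ?_⟩
        rcases le_or_gt u r with h3 | h3
        · exact hrm.2 ⟨hu.1, h3⟩
        · exact interior_subset (h1 ⟨h3, by linarith [hu.2]⟩)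
      have := hle z hz _ h2
      linarith
    · exact h1 (a := -y) ⟨by linarith [hy.2], by linarith [hy.1]⟩ (subset_closure hyS)
  · have heq' : sSup (cmp S z) = sSup (cmp S z') := neg_injective heq
    have h1 := hmax z hz
    have h2 := hmax z' hz'
    rw [← heq'] at h2
    exact leftEnd_unique hz hz' h1.2 h2.2 h1.1 h2.1

namespace StripSet

variable {E Z : Set (ℝ × ℝ)} (h : StripSet E Z)
include h

theorem ncard_flip_le {θ θ' : ℝ} (hflip : ∀ y, (θ', -y) ∈ E ↔ (θ, y) ∈ E) :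
    (leftEnds (sl E θ)).ncard ≤ (leftEnds (sl E θ')).ncard := by
  obtain ⟨B, hB⟩ := h.bdd
  have hset : {y : ℝ | -y ∈ sl E θ} = sl E θ' := by
    ext y
    change (θ, -y) ∈ E ↔ (θ', y) ∈ E
    rw [← hflip (-y), neg_neg]
  have := ncard_leftEnds_le_neg (h.closed_sl θ) (h.fin_front θ) (B := B)
    (fun y hy => hB (θ, y) hy) (by rw [hset]; exact h.leftEnds_fin θ')
  rwa [hset] at this

theorem ncard_flip {θ θ' : ℝ} (hflip : ∀ y, (θ', -y) ∈ E ↔ (θ, y) ∈ E) :
    (leftEnds (sl E θ')).ncard = (leftEnds (sl E θ)).ncard :=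
  le_antisymm (h.ncard_flip_le fun y => by rw [← hflip (-y), neg_neg]) (h.ncard_flip_le hflip)

theorem eventually_const {θ : ℝ} (hreg : RegAt E Z θ) :
    ∀ᶠ y in 𝓝 θ, (leftEnds (sl E y)).ncard = (leftEnds (sl E θ)).ncard := by
  obtain ⟨c, hc⟩ := hreg
  have h1 := h.ncard_near θ c c c hc
  have h2 : ∀ᶠ y in 𝓝 θ, (leftEnds (sl E y)).ncard = ∑ ρ ∈ (h.fin θ).toFinset, c ρ := by
    filter_upwards [h1] with y hy
    rw [hy]
    exact Finset.sum_congr rfl fun ρ _ => by split_ifs <;> rfl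
  have h3 := h2.self_of_nhds
  filter_upwards [h2] with y hy
  rw [hy, h3]

theorem reg_right {θ β m : ℝ} (hreg0 : RegAt E Z θ) (hreg : ∀ θ' ∈ Ioo θ β, RegAt E Z θ')
    (hm : m ∈ Ioo θ β) : (leftEnds (sl E m)).ncard = (leftEnds (sl E θ)).ncard := by
  have h1 : ∀ᶠ y in 𝓝[>] θ, (leftEnds (sl E y)).ncard = (leftEnds (sl E θ)).ncard :=
    (h.eventually_const hreg0).filter_mono nhdsWithin_le_nhds
  have h2 : ∀ᶠ y in 𝓝[>] θ, y ∈ Ioo θ β := Ioo_mem_nhdsGT (hm.1.trans hm.2)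
  obtain ⟨y, hy1, hy2⟩ := (h1.and h2).exists
  rw [← hy1]
  exact h.ncard_const isOpen_Ioo isPreconnected_Ioo hreg hm hy2

theorem reg_left {θ α m : ℝ} (hreg0 : RegAt E Z θ) (hreg : ∀ θ' ∈ Ioo α θ, RegAt E Z θ')
    (hm : m ∈ Ioo α θ) : (leftEnds (sl E m)).ncard = (leftEnds (sl E θ)).ncard := by
  have h1 : ∀ᶠ y in 𝓝[<] θ, (leftEnds (sl E y)).ncard = (leftEnds (sl E θ)).ncard :=
    (h.eventually_const hreg0).filter_mono nhdsWithin_le_nhds
  have h2 : ∀ᶠ y in 𝓝[<] θ, y ∈ Ioo α θ := Ioo_mem_nhdsLT (hm.1.trans hm.2)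
  obtain ⟨y, hy1, hy2⟩ := (h1.and h2).exists
  rw [← hy1]
  exact h.ncard_const isOpen_Ioo isPreconnected_Ioo hreg hm hy2

/-- the jump of the number of left ends at an angle -/
theorem jump {θ α β mL mR : ℝ} (hL : ∀ θ' ∈ Ioo α θ, RegAt E Z θ')
    (hR : ∀ θ' ∈ Ioo θ β, RegAt E Z θ') (hmL : mL ∈ Ioo α θ) (hmR : mR ∈ Ioo θ β) (J : ℝ → ℤ)
    (hJ : ∀ ρ ∈ sl Z θ, ∃ cL c0 cR : ℕ, LocType E θ ρ cL c0 cR ∧ (2 * c0 : ℤ) - cL - cR = J ρ) :
    (2 * (leftEnds (sl E θ)).ncard : ℤ) - (leftEnds (sl E mL)).ncard -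
      (leftEnds (sl E mR)).ncard = ∑ ρ ∈ (h.fin θ).toFinset, J ρ := by
  classical
  have hJ' : ∀ ρ : ℝ, ∃ cL c0 cR : ℕ, ρ ∈ sl Z θ →
      LocType E θ ρ cL c0 cR ∧ (2 * c0 : ℤ) - cL - cR = J ρ := by
    intro ρ
    by_cases hρ : ρ ∈ sl Z θ
    · obtain ⟨a, b, c, h1⟩ := hJ ρ hρ
      exact ⟨a, b, c, fun _ => h1⟩
    · exact ⟨0, 0, 0, fun h => absurd h hρ⟩
  choose cL c0 cR hc using hJ'
  have hn := h.ncard_near θ cL c0 cR (fun ρ hρ => (hc ρ hρ).1)
  have e0 := hn.self_of_nhds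
  simp only [lt_irrefl, if_false, if_true] at e0
  have e1 : (leftEnds (sl E mL)).ncard = ∑ ρ ∈ (h.fin θ).toFinset, cL ρ := by
    have h1 : ∀ᶠ y in 𝓝[<] θ, (leftEnds (sl E y)).ncard = ∑ ρ ∈ (h.fin θ).toFinset, cL ρ := by
      filter_upwards [hn.filter_mono nhdsWithin_le_nhds, self_mem_nhdsWithin] with y hy hy2
      rw [hy]
      have hy3 : y < θ := hy2
      exact Finset.sum_congr rfl fun ρ _ => by rw [if_pos hy3]
    have h2 : ∀ᶠ y in 𝓝[<] θ, y ∈ Ioo α θ := Ioo_mem_nhdsLT (hmL.1.trans hmL.2)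
    obtain ⟨y, hy1, hy2⟩ := (h1.and h2).exists
    rw [← hy1]
    exact h.ncard_const isOpen_Ioo isPreconnected_Ioo hL hmL hy2
  have e2 : (leftEnds (sl E mR)).ncard = ∑ ρ ∈ (h.fin θ).toFinset, cR ρ := by
    have h1 : ∀ᶠ y in 𝓝[>] θ, (leftEnds (sl E y)).ncard = ∑ ρ ∈ (h.fin θ).toFinset, cR ρ := by
      filter_upwards [hn.filter_mono nhdsWithin_le_nhds, self_mem_nhdsWithin] with y hy hy2
      rw [hy]
      have hy3 : θ < y := hy2
      exact Finset.sum_congr rfl fun ρ _ => by rw [if_neg hy3.not_gt, if_neg hy3.ne']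
    have h2 : ∀ᶠ y in 𝓝[>] θ, y ∈ Ioo θ β := Ioo_mem_nhdsGT (hmR.1.trans hmR.2)
    obtain ⟨y, hy1, hy2⟩ := (h1.and h2).exists
    rw [← hy1]
    exact h.ncard_const isOpen_Ioo isPreconnected_Ioo hR hmR hy2
  rw [e0, e1, e2]
  push_cast
  rw [Finset.mul_sum, ← Finset.sum_sub_distrib, ← Finset.sum_sub_distrib]
  exact Finset.sum_congr rfl fun ρ hρ => (hc ρ ((h.fin θ).mem_toFinset.1 hρ)).2

end StripSet

/-! ### the strip set of a closed set which misses the centre -/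

theorem projEmb_pt (θ η : ℝ) : projEmb (pt θ η) 2 2 = η ^ 2 / (1 + η ^ 2) := by
  change projMat _ 2 2 = _
  unfold projMat
  rw [Fin.sum_univ_three]
  have h1 := Real.sin_sq_add_cos_sq θ
  simp only [Matrix.cons_val_zero, Matrix.cons_val_one, Matrix.cons_val]
  congr 1
  · ring
  · linarith

theorem bounded_of_closed {Δ : Set RP2} (hcl : IsClosed Δ) (hcen : centre ∉ Δ) :
    ∃ B : ℝ, ∀ θ η : ℝ, pt θ η ∈ Δ → |η| ≤ B := by
  rcases Δ.eq_empty_or_nonempty with h0 | hne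
  · exact ⟨0, fun θ η h => by rw [h0] at h; exact absurd h (notMem_empty _)⟩
  have hc : Continuous fun x : RP2 => projEmb x 2 2 :=
    (continuous_apply 2).comp ((continuous_apply 2).comp continuous_projEmb)
  obtain ⟨x, hx, hmax⟩ := hcl.isCompact.exists_isMaxOn hne hc.continuousOn
  obtain ⟨θ0, η0, rfl⟩ := exists_pt_eq (p := x) (fun hh => hcen (hh ▸ hx))
  refine ⟨|η0|, fun θ η h => ?_⟩
  have h1 := hmax h
  simp only [mem_ofPred_eq, projEmb_pt] at h1
  have h2 : (0 : ℝ) < 1 + η ^ 2 := by positivity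
  have h3 : (0 : ℝ) < 1 + η0 ^ 2 := by positivity
  rw [div_le_div_iff₀ h2 h3] at h1
  have h4 : η ^ 2 ≤ η0 ^ 2 := by nlinarith
  exact sq_le_sq.1 h4

theorem stripSet_of_closed {Δ : Set RP2} (hcl : IsClosed Δ) (hcen : centre ∉ Δ)
    (hfin : ∀ θ, {η : ℝ | pt θ η ∈ frontier Δ}.Finite) :
    StripSet {p : ℝ × ℝ | pt p.1 p.2 ∈ Δ} {p : ℝ × ℝ | pt p.1 p.2 ∈ frontier Δ} where
  closedE := hcl.preimage continuous_pt
  closedZ := isClosed_frontier.preimage continuous_pt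
  front := continuous_pt.frontier_preimage_subset Δ
  sub := fun _ hp => hcl.frontier_subset hp
  bdd := by
    obtain ⟨B, hB⟩ := bounded_of_closed hcl hcen
    exact ⟨B, fun p hp => hB p.1 p.2 hp⟩
  fin := hfin

/-! ### cut angles -/

/-- an increasing enumeration of a finite set in `(0, b)` with the end points added -/
theorem exists_cuts (S : Finset ℝ) : ∀ b : ℝ, 0 < b → (∀ θ ∈ S, 0 < θ ∧ θ < b) →
    ∃ c : ℕ → ℝ, c 0 = 0 ∧ c (S.card + 1) = b ∧ (∀ k ≤ S.card, c k < c (k + 1)) ∧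
      (∀ k, 1 ≤ k → k ≤ S.card → c k ∈ S) ∧ ∀ θ ∈ S, ∃ k, 1 ≤ k ∧ k ≤ S.card ∧ c k = θ := by
  induction S using Finset.induction_on_max with
  | empty =>
    intro b hb _
    refine ⟨fun k => if k = 0 then 0 else b, by simp, by simp, fun k hk => ?_, fun k h1 h2 => ?_,
      fun θ hθ => absurd hθ (Finset.notMem_empty θ)⟩
    · have : k = 0 := by simpa using hk
      subst this
      simpa using hb
    · rw [Finset.card_empty] at h2
      omega
  | insert a S hmax ih =>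
    intro b hb hS
    have ha := hS a (Finset.mem_insert_self a S)
    have haS : a ∉ S := fun h => lt_irrefl a (hmax a h)
    obtain ⟨c, h1, h2, h3, h4, h5⟩ := ih a ha.1
      (fun θ hθ => ⟨(hS θ (Finset.mem_insert_of_mem hθ)).1, hmax θ hθ⟩)
    rw [Finset.card_insert_of_notMem haS]
    refine ⟨fun k => if k ≤ S.card + 1 then c k else b, by simpa using h1, by simp,
      fun k hk => ?_, fun k hk1 hk2 => ?_, fun θ hθ => ?_⟩
    · beta_reduce
      rcases hk.lt_or_eq with hlt | heq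
      · rw [if_pos (by omega), if_pos (by omega)]
        exact h3 k (by omega)
      · rw [if_pos (by omega), if_neg (by omega), heq, h2]
        exact ha.2
    · beta_reduce
      rw [if_pos hk2]
      rcases hk2.lt_or_eq with hlt | heq
      · exact Finset.mem_insert_of_mem (h4 k hk1 (by omega))
      · rw [heq, h2]
        exact Finset.mem_insert_self a S
    · rcases Finset.mem_insert.1 hθ with h6 | h6
      · exact ⟨S.card + 1, by omega, le_rfl, by beta_reduce; rw [if_pos le_rfl, h2, h6]⟩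
      · obtain ⟨k, hk1, hk2, hk3⟩ := h5 θ h6
        exact ⟨k, hk1, by omega, by beta_reduce; rw [if_pos (by omega), hk3]⟩

end Pool.Agent.Rohlin
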