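import Pool.Agent.Rohlin.Fam

/-!
# The discriminant of the pencil: finiteness and the number of the branch lines
-/

set_option autoImplicit false

namespace Pool.Agent.Rohlin

open Polynomial Complex Set

/-- the family over the affine line `x ↦ (α x, β x)` in the plane of directions -/
noncomputable def fib (f : MvPolynomial (Fin 3) ℝ) (α β : ℂ[X]) : ℂ[X][X] :=
  MvPolynomial.aeval ![C α, C β, (X : ℂ[X][X])] f

theorem fib_map (f : MvPolynomial (Fin 3) ℝ) (α β : ℂ[X]) (x : ℂ) :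
    (fib f α β).map (evalRingHom x) = dir f (α.eval x) (β.eval x) := by
  have h1 : (mapAlgHom ((aeval x : ℂ[X] →ₐ[ℂ] ℂ).restrictScalars ℝ)).comp
      (MvPolynomial.aeval ![C α, C β, (X : ℂ[X][X])]) =
      (MvPolynomial.aeval ![C (α.eval x), C (β.eval x), (X : ℂ[X])] :
        MvPolynomial (Fin 3) ℝ →ₐ[ℝ] ℂ[X]) := by
    apply MvPolynomial.algHom_ext
    intro i
    fin_cases i <;> simp
  have h2 := DFunLike.congr_fun h1 f
  rw [AlgHom.comp_apply] at h2
  rw [dir, ← h2, fib]
  rfl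

theorem fib_eq (f : MvPolynomial (Fin 3) ℝ) (α β : ℂ[X]) :
    fib f α β = ∑ d ∈ f.support,
      C (C ((MvPolynomial.coeff d f : ℝ) : ℂ) * α ^ d 0 * β ^ d 1) * X ^ d 2 := by
  rw [fib, MvPolynomial.aeval_def, MvPolynomial.eval₂_eq']
  refine Finset.sum_congr rfl fun d _ => ?_
  rw [Fin.prod_univ_three]
  simp only [Matrix.cons_val_zero, Matrix.cons_val_one, Matrix.cons_val, C_mul, C_pow]
  have : (algebraMap ℝ ℂ[X][X]) (MvPolynomial.coeff d f) = C (C ((MvPolynomial.coeff d f : ℝ) : ℂ)) := rfl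
  rw [this]
  ring

theorem fib_coeff (f : MvPolynomial (Fin 3) ℝ) (α β : ℂ[X]) (t : ℕ) :
    (fib f α β).coeff t = ∑ d ∈ f.support.filter (fun d => d 2 = t),
      C ((MvPolynomial.coeff d f : ℝ) : ℂ) * α ^ d 0 * β ^ d 1 := by
  rw [fib_eq, finsetSum_coeff, Finset.sum_filter]
  refine Finset.sum_congr rfl fun d _ => ?_
  rw [coeff_C_mul_X_pow]
  simp only [eq_comm]

theorem fib_coeff_eq_zero {f : MvPolynomial (Fin 3) ℝ} {m : ℕ} (hf : f.IsHomogeneous m)
    (α β : ℂ[X]) {t : ℕ} (ht : m < t) : (fib f α β).coeff t = 0 := by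
  rw [fib_coeff]
  refine Finset.sum_eq_zero fun d hd => ?_
  rw [Finset.mem_filter] at hd
  have := sum_of_mem_support hf hd.1
  omega

theorem fib_natDegree_coeff {f : MvPolynomial (Fin 3) ℝ} {m : ℕ} (hf : f.IsHomogeneous m)
    {α β : ℂ[X]} (hα : α.natDegree ≤ 1) (hβ : β.natDegree ≤ 1) {t : ℕ} :
    ((fib f α β).coeff t).natDegree ≤ m - t := by
  rw [fib_coeff]
  refine natDegree_sum_le_of_forall_le _ _ fun d hd => ?_
  rw [Finset.mem_filter] at hd
  have h1 := sum_of_mem_support hf hd.1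
  have h2 : (α ^ d 0).natDegree ≤ d 0 := (natDegree_pow_le).trans (by nlinarith)
  have h3 : (β ^ d 1).natDegree ≤ d 1 := (natDegree_pow_le).trans (by nlinarith)
  calc (C ((MvPolynomial.coeff d f : ℝ) : ℂ) * α ^ d 0 * β ^ d 1).natDegree
      ≤ (C ((MvPolynomial.coeff d f : ℝ) : ℂ) * α ^ d 0).natDegree + (β ^ d 1).natDegree := natDegree_mul_le
    _ ≤ (α ^ d 0).natDegree + (β ^ d 1).natDegree := by
        gcongr
        exact natDegree_C_mul_le _ _
    _ ≤ m - t := by omega

theorem fib_coeff_top {f : MvPolynomial (Fin 3) ℝ} {m : ℕ} (hf : f.IsHomogeneous m)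
    (hm : f.coeff (Finsupp.single 2 m) = 1) (α β : ℂ[X]) : (fib f α β).coeff m = 1 := by
  rw [fib_coeff]
  rw [Finset.sum_eq_single (Finsupp.single 2 m)]
  · rw [hm]
    simp
  · intro d hd hne
    exfalso
    apply hne
    rw [Finset.mem_filter] at hd
    have h1 := sum_of_mem_support hf hd.1
    ext i
    fin_cases i
    · simp; omega
    · simp; omega
    · simp; omega
  · intro h
    exfalso
    apply h
    rw [Finset.mem_filter, MvPolynomial.mem_support_iff, hm]
    simp

theorem fib_natDegree {f : MvPolynomial (Fin 3) ℝ} {m : ℕ} (hf : f.IsHomogeneous m)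
    (hm : f.coeff (Finsupp.single 2 m) = 1) (α β : ℂ[X]) : (fib f α β).natDegree = m := by
  apply le_antisymm
  · rw [natDegree_le_iff_coeff_eq_zero]
    exact fun t ht => fib_coeff_eq_zero hf α β ht
  · apply le_natDegree_of_ne_zero
    rw [fib_coeff_top hf hm]
    exact one_ne_zero

theorem fib_monic {f : MvPolynomial (Fin 3) ℝ} {m : ℕ} (hf : f.IsHomogeneous m)
    (hm : f.coeff (Finsupp.single 2 m) = 1) (α β : ℂ[X]) : (fib f α β).Monic := by
  rw [Monic, leadingCoeff, fib_natDegree hf hm, fib_coeff_top hf hm]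

/-- the discriminant along the line -/
noncomputable def dis (f : MvPolynomial (Fin 3) ℝ) (m : ℕ) (α β : ℂ[X]) : ℂ[X] :=
  resultant (fib f α β) (derivative (fib f α β)) m (m - 1)

theorem dis_eval {f : MvPolynomial (Fin 3) ℝ} {m : ℕ} (hf : f.IsHomogeneous m)
    (hm : f.coeff (Finsupp.single 2 m) = 1) (α β : ℂ[X]) (x : ℂ) :
    (dis f m α β).eval x = 0 ↔ ¬ (dir f (α.eval x) (β.eval x)).Separable := by
  have h1 := resultant_map_map (fib f α β) (derivative (fib f α β)) m (m - 1) (evalRingHom x)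
  rw [coe_evalRingHom] at h1
  have h2 : (dir f (α.eval x) (β.eval x)).natDegree = m := by
    rw [← fib_map, (fib_monic hf hm α β).natDegree_map, fib_natDegree hf hm]
  have h3 : (derivative (dir f (α.eval x) (β.eval x))).natDegree = m - 1 := by
    rw [natDegree_derivative, h2]
  have h4 : dir f (α.eval x) (β.eval x) ≠ 0 := by
    rw [← fib_map]
    exact ((fib_monic hf hm α β).map _).ne_zero
  have h5 := resultant_eq_zero_iff (f := dir f (α.eval x) (β.eval x))
    (g := derivative (dir f (α.eval x) (β.eval x)))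
  rw [h2, h3] at h5
  rw [dis, ← h1, ← derivative_map, fib_map, h5, separable_def]
  simp [h4]

/-- the weight of a column of the Sylvester matrix -/
theorem sylvester_weight {f : MvPolynomial (Fin 3) ℝ} {m : ℕ} (hf : f.IsHomogeneous m)
    {α β : ℂ[X]} (hα : α.natDegree ≤ 1) (hβ : β.natDegree ≤ 1) (hm : 0 < m)
    (i j : Fin (m + (m - 1))) :
    sylvester (fib f α β) (derivative (fib f α β)) m (m - 1) i j = 0 ∨
    (sylvester (fib f α β) (derivative (fib f α β)) m (m - 1) i j).natDegree + i ≤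
      (Fin.addCases (fun j₁ : Fin m => m - 1 + (j₁ : ℕ)) (fun j₁ : Fin (m - 1) => m + (j₁ : ℕ)) j :
        ℕ) := by
  rw [sylvester, Matrix.of_apply]
  refine Fin.addCases (fun j₁ => ?_) (fun j₁ => ?_) j
  · simp only [Fin.addCases_left]
    split_ifs with h
    · right
      rw [Set.mem_Icc] at h
      rw [coeff_derivative]
      have h1 : ((fib f α β).coeff (i - j₁ + 1) * (((i : ℕ) - (j₁ : ℕ) : ℕ) + 1 : ℂ[X])).natDegree ≤
          m - (i - j₁ + 1) := by
        refine (natDegree_mul_le).trans ?_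
        have h2 := fib_natDegree_coeff hf hα hβ (t := (i : ℕ) - j₁ + 1)
        have h3 : ((((i : ℕ) - (j₁ : ℕ) : ℕ) + 1 : ℂ[X])).natDegree = 0 := by
          have : ((((i : ℕ) - (j₁ : ℕ) : ℕ) + 1 : ℂ[X])) = (((i : ℕ) - (j₁ : ℕ) + 1 : ℕ) : ℂ[X]) := by
            push_cast; rfl
          rw [this, natDegree_natCast]
        rw [h3]
        omega
      omega
    · left; rfl
  · simp only [Fin.addCases_right]
    split_ifs with h
    · right
      rw [Set.mem_Icc] at h
      have h2 := fib_natDegree_coeff hf hα hβ (t := (i : ℕ) - j₁)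
      omega
    · left; rfl

theorem natDegree_det_le {N : ℕ} (A : Matrix (Fin N) (Fin N) ℂ[X]) (u : Fin N → ℕ) (e : ℕ)
    (h : ∀ i j, A i j = 0 ∨ (A i j).natDegree + (i : ℕ) ≤ u j)
    (hu : ∑ j, u j = e + ∑ i : Fin N, (i : ℕ)) : A.det.natDegree ≤ e := by
  rw [Matrix.det_apply]
  refine natDegree_sum_le_of_forall_le _ _ fun σ _ => ?_
  refine (natDegree_smul_le _ _).trans ?_
  by_cases h0 : ∃ j, A (σ j) j = 0
  · obtain ⟨j, hj⟩ := h0
    have h1 : ∏ i, A (σ i) i = 0 := Finset.prod_eq_zero (Finset.mem_univ j) hj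
    rw [h1, natDegree_zero]
    exact Nat.zero_le _
  · push Not at h0
    have h1 : ∑ j, ((A (σ j) j).natDegree + (σ j : ℕ)) ≤ ∑ j, u j :=
      Finset.sum_le_sum fun j _ => (h (σ j) j).resolve_left (h0 j)
    rw [Finset.sum_add_distrib, Equiv.sum_comp σ (fun i => (i : ℕ)), hu] at h1
    exact (natDegree_prod_le _ _).trans (by omega)

theorem natDegree_dis {f : MvPolynomial (Fin 3) ℝ} (hf : f.IsHomogeneous 8)
    {α β : ℂ[X]} (hα : α.natDegree ≤ 1) (hβ : β.natDegree ≤ 1) :
    (dis f 8 α β).natDegree ≤ 56 := by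
  rw [dis, resultant]
  refine natDegree_det_le _ _ 56 (fun i j => sylvester_weight hf hα hβ (by norm_num) i j) ?_
  decide

end Pool.Agent.Rohlin
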