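import Pool.Agent.Rohlin.Recouple

/-!
# Events: the algebra of the recoupling of two pairs
-/

set_option autoImplicit false

namespace Pool.Agent.Rohlin

open Matrix Phase
open scoped ComplexOrder

section Alg

variable {m : ℕ} {n : Type} [Fintype n] [DecidableEq n] (M : Majorana m n)

theorem pairFac_swap {a b : Fin m} (hab : a ≠ b) (η : ℂ) :
    pairFac M b a (-η) = pairFac M a b η := by
  rw [pairFac, pairFac, M.anti b a hab.symm]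
  congr 2
  module

/-- a state fixed by a pair factor -/
theorem fixed_iff {a b : Fin m} {η : ℂ} {ψ : n → ℂ} (h : pairFac M a b η *ᵥ ψ = ψ) :
    (Complex.I * η) • ((M.e a * M.e b) *ᵥ ψ) = ψ := by
  rw [pairFac, Matrix.smul_mulVec, Matrix.add_mulVec, Matrix.one_mulVec, Matrix.smul_mulVec] at h
  have h1 : (2 : ℂ) • ((1 / 2 : ℂ) • (ψ + (Complex.I * η) • ((M.e a * M.e b) *ᵥ ψ))) =
      (2 : ℂ) • ψ := by rw [h]
  rw [smul_smul, show (2 : ℂ) * (1 / 2) = 1 by norm_num, one_smul, two_smul] at h1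
  exact add_left_cancel h1

theorem fixed_left {a b : Fin m} {η : ℂ} {ψ : n → ℂ} (h : pairFac M a b η *ᵥ ψ = ψ) :
    (Complex.I * η) • (M.e b *ᵥ ψ) = M.e a *ᵥ ψ := by
  have h1 := fixed_iff M h
  have h2 : M.e a *ᵥ ((Complex.I * η) • ((M.e a * M.e b) *ᵥ ψ)) = M.e a *ᵥ ψ := by rw [h1]
  rw [Matrix.mulVec_smul, Matrix.mulVec_mulVec, ← Matrix.mul_assoc, M.sq, one_mul] at h2
  exact h2

/-- **Recoupling**: the pairs `(1,4), (2,3)` are replaced by `(1,2), (3,4)`. -/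
theorem recouple {a₁ a₂ a₃ a₄ : Fin m} (h12 : a₁ ≠ a₂) (h13 : a₁ ≠ a₃) (h14 : a₁ ≠ a₄)
    (h23 : a₂ ≠ a₃) (h24 : a₂ ≠ a₄) (h34 : a₃ ≠ a₄) {z14 z23 z12 z34 : ℂ}
    (hz14 : z14 ^ 2 = 1) (hz23 : z23 ^ 2 = 1) (hz12 : z12 ^ 2 = 1) (hz34 : z34 ^ 2 = 1)
    (hz : z14 * z23 * z12 * z34 = 1) {ψ : n → ℂ} (h1 : pairFac M a₁ a₄ z14 *ᵥ ψ = ψ)
    (h2 : pairFac M a₂ a₃ z23 *ᵥ ψ = ψ) :
    pairFac M a₁ a₂ z12 *ᵥ (pairFac M a₃ a₄ z34 *ᵥ ψ) =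
      (1 / 2 : ℂ) • (ψ + (z12 * z14) • ((M.e a₂ * M.e a₄) *ᵥ ψ)) := by
  -- `e₁ ψ = i z14 e₄ ψ`, `e₂ ψ = i z23 e₃ ψ`
  have e1 := fixed_left M h1
  have e2 := fixed_left M h2
  have hI := Complex.I_mul_I
  -- `i z12 e₁ e₂ ψ = z12 z14 e₂ e₄ ψ`
  have hX : (Complex.I * z12) • ((M.e a₁ * M.e a₂) *ᵥ ψ) = (z12 * z14) • ((M.e a₂ * M.e a₄) *ᵥ ψ) := by
    rw [M.anti a₁ a₂ h12, Matrix.neg_mulVec, ← Matrix.mulVec_mulVec, ← e1, Matrix.mulVec_smul,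
      Matrix.mulVec_mulVec, smul_neg, smul_smul, ← neg_smul]
    congr 1
    linear_combination (-(z12 * z14)) * hI
  -- `e₄ ψ = - i z14 e₁ ψ`, `e₃ ψ = - i z23 e₂ ψ`
  have e4 : M.e a₄ *ᵥ ψ = (-(Complex.I * z14)) • (M.e a₁ *ᵥ ψ) := by
    rw [← e1, smul_smul]
    rw [show -(Complex.I * z14) * (Complex.I * z14) = 1 by
      linear_combination (-(z14 ^ 2)) * hI + hz14, one_smul]
  have e3 : M.e a₃ *ᵥ ψ = (-(Complex.I * z23)) • (M.e a₂ *ᵥ ψ) := by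
    rw [← e2, smul_smul]
    rw [show -(Complex.I * z23) * (Complex.I * z23) = 1 by
      linear_combination (-(z23 ^ 2)) * hI + hz23, one_smul]
  -- `i z34 e₃ e₄ ψ = z12 z14 e₂ e₄ ψ`
  have hY : (Complex.I * z34) • ((M.e a₃ * M.e a₄) *ᵥ ψ) = (z12 * z14) • ((M.e a₂ * M.e a₄) *ᵥ ψ) := by
    rw [M.anti a₃ a₄ h34, Matrix.neg_mulVec, ← Matrix.mulVec_mulVec, e3, Matrix.mulVec_smul,
      Matrix.mulVec_mulVec, M.anti a₄ a₂ h24.symm, Matrix.neg_mulVec]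
    simp only [smul_neg, neg_smul, neg_neg, smul_smul]
    rw [← neg_smul]
    congr 1
    have hzz : z34 * z23 = z12 * z14 := by
      linear_combination (z12 * z14) * hz - (z34 * z23) * (z14 ^ 2) * hz12 - (z34 * z23) * hz14
    linear_combination (-(z34 * z23)) * hI + hzz
  have h3 : pairFac M a₃ a₄ z34 *ᵥ ψ =
      (1 / 2 : ℂ) • (ψ + (z12 * z14) • ((M.e a₂ * M.e a₄) *ᵥ ψ)) := by
    rw [pairFac, Matrix.smul_mulVec, Matrix.add_mulVec, Matrix.one_mulVec, Matrix.smul_mulVec, hY]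
  have h4 : pairFac M a₁ a₂ z12 *ᵥ ψ =
      (1 / 2 : ℂ) • (ψ + (z12 * z14) • ((M.e a₂ * M.e a₄) *ᵥ ψ)) := by
    rw [pairFac, Matrix.smul_mulVec, Matrix.add_mulVec, Matrix.one_mulVec, Matrix.smul_mulVec, hX]
  -- `pf12 (pf12 ψ) = pf12 ψ`
  rw [h3, ← h4, Matrix.mulVec_mulVec, pairFac_idem M h12 hz12]

/-- the recoupled direction is orthogonal -/
theorem ortho_recouple (hH : ∀ a, (M.e a)ᴴ = M.e a) {a₁ a₂ a₄ : Fin m} (h12 : a₁ ≠ a₂)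
    (h14 : a₁ ≠ a₄) (h24 : a₂ ≠ a₄) {z14 : ℂ} (hz : star z14 = z14) {ψ : n → ℂ}
    (h1 : pairFac M a₁ a₄ z14 *ᵥ ψ = ψ) : star ψ ⬝ᵥ ((M.e a₂ * M.e a₄) *ᵥ ψ) = 0 := by
  have e := fixed_iff M h1
  set Q := (Complex.I * z14) • (M.e a₁ * M.e a₄) with hQ
  have hQψ : Q *ᵥ ψ = ψ := by rw [hQ, Matrix.smul_mulVec, e]
  have hQH : Qᴴ = Q := by
    rw [hQ, conjTranspose_smul, conjTranspose_mul, hH, hH, M.anti a₄ a₁ h14.symm, star_mul', hz]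
    simp
  have hQc : Q * (M.e a₂ * M.e a₄) = -((M.e a₂ * M.e a₄) * Q) := by
    rw [hQ, Matrix.smul_mul, Matrix.mul_smul, ← smul_neg]
    congr 1
    calc M.e a₁ * M.e a₄ * (M.e a₂ * M.e a₄) = M.e a₁ * (M.e a₄ * M.e a₂) * M.e a₄ := by
          simp only [Matrix.mul_assoc]
      _ = -(M.e a₁ * M.e a₂ * (M.e a₄ * M.e a₄)) := by
          rw [M.anti a₄ a₂ h24.symm]; simp [Matrix.mul_assoc]
      _ = M.e a₂ * M.e a₁ * (M.e a₄ * M.e a₄) := by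
          rw [M.anti a₁ a₂ h12]; simp [Matrix.mul_assoc]
      _ = M.e a₂ * (M.e a₁ * M.e a₄) * M.e a₄ := by simp only [Matrix.mul_assoc]
      _ = M.e a₂ * (-(M.e a₄ * M.e a₁)) * M.e a₄ := by rw [← M.anti a₁ a₄ h14]
      _ = -(M.e a₂ * M.e a₄ * (M.e a₁ * M.e a₄)) := by simp [Matrix.mul_assoc]
  have h3 : star ψ ⬝ᵥ ((M.e a₂ * M.e a₄) *ᵥ ψ) = -(star ψ ⬝ᵥ ((M.e a₂ * M.e a₄) *ᵥ ψ)) := by
    calc star ψ ⬝ᵥ ((M.e a₂ * M.e a₄) *ᵥ ψ) = star (Q *ᵥ ψ) ⬝ᵥ ((M.e a₂ * M.e a₄) *ᵥ ψ) := by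
          rw [hQψ]
      _ = star ψ ⬝ᵥ (Q *ᵥ ((M.e a₂ * M.e a₄) *ᵥ ψ)) := by
          rw [Matrix.star_mulVec, ← Matrix.dotProduct_mulVec, hQH]
      _ = -(star ψ ⬝ᵥ ((M.e a₂ * M.e a₄) *ᵥ (Q *ᵥ ψ))) := by
          rw [Matrix.mulVec_mulVec, hQc, Matrix.neg_mulVec, dotProduct_neg, Matrix.mulVec_mulVec]
      _ = _ := by rw [hQψ]
  have h4 : (2 : ℂ) * (star ψ ⬝ᵥ ((M.e a₂ * M.e a₄) *ᵥ ψ)) = 0 := by linear_combination h3
  exact (mul_eq_zero.mp h4).resolve_left two_ne_zero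

end Alg

section Proj

variable {m k : ℕ} {n : Type} [Fintype n] [DecidableEq n] (M : Majorana m n)

theorem list_fix (L : List (Matrix n n ℂ)) (χ : n → ℂ) (h : ∀ x ∈ L, x *ᵥ χ = χ) :
    L.prod *ᵥ χ = χ := by
  induction L with
  | nil => simp
  | cons x L ih =>
    rw [List.prod_cons, ← Matrix.mulVec_mulVec, ih (fun y hy => h y (List.mem_cons_of_mem _ hy)),
      h x List.mem_cons_self]

/-- The projector of a matching applied to the state of a matching which differs in the two pairs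
`p₀, p₁` only. -/
theorem proj_mulVec (hH : ∀ a, (M.e a)ᴴ = M.e a) (A B : Fin k → Fin m)
    (hinj : Function.Injective (Sum.elim A B)) (η : Fin k → ℂ) (hη : ∀ j, η j = 1 ∨ η j = -1)
    (p₀ p₁ : Fin k) (h01 : p₀ ≠ p₁) (ψ : n → ℂ)
    (hψ : ∀ p, p ≠ p₀ → p ≠ p₁ → pairFac M (A p) (B p) (η p) *ᵥ ψ = ψ) :
    (List.ofFn fun j => pairFac M (A j) (B j) (η j)).prod *ᵥ ψ =
      pairFac M (A p₁) (B p₁) (η p₁) *ᵥ (pairFac M (A p₀) (B p₀) (η p₀) *ᵥ ψ) := by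
  obtain ⟨hH', hP, hl, hr⟩ := pairProd M hH k A B hinj η hη
  set P := (List.ofFn fun j => pairFac M (A j) (B j) (η j)).prod with hPdef
  obtain ⟨n1, n2, n3⟩ := ne_of_inj A B hinj
  have hcomm : ∀ i j, i ≠ j → pairFac M (A i) (B i) (η i) * pairFac M (A j) (B j) (η j) =
      pairFac M (A j) (B j) (η j) * pairFac M (A i) (B i) (η i) := fun i j hij =>
    pairFac_comm M (n2 i j hij) (n1 i j) (n1 j i).symm (n3 i j hij) _ _
  set χ := pairFac M (A p₁) (B p₁) (η p₁) *ᵥ (pairFac M (A p₀) (B p₀) (η p₀) *ᵥ ψ) with hχ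
  have h1 : P *ᵥ χ = P *ᵥ ψ := by
    rw [hχ, Matrix.mulVec_mulVec, hr p₁, Matrix.mulVec_mulVec, hr p₀]
  have hfix : ∀ p, pairFac M (A p) (B p) (η p) *ᵥ χ = χ := by
    intro p
    have hi1 := pairFac_idem M (n1 p₁ p₁) (eta_sq η hη p₁)
    have hi0 := pairFac_idem M (n1 p₀ p₀) (eta_sq η hη p₀)
    by_cases hp1 : p = p₁
    · subst hp1
      rw [hχ, Matrix.mulVec_mulVec, hi1]
    · by_cases hp0 : p = p₀
      · subst hp0
        rw [hχ, Matrix.mulVec_mulVec, hcomm p p₁ hp1, ← Matrix.mulVec_mulVec, Matrix.mulVec_mulVec _ (pairFac M (A p) (B p) (η p)) (pairFac M (A p) (B p) (η p)), hi0]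
      · rw [hχ, Matrix.mulVec_mulVec, hcomm p p₁ hp1, ← Matrix.mulVec_mulVec,
          Matrix.mulVec_mulVec _ (pairFac M (A p) (B p) (η p)) (pairFac M (A p₀) (B p₀) (η p₀)),
          hcomm p p₀ hp0, ← Matrix.mulVec_mulVec, hψ p hp0 hp1]
  rw [← h1]
  exact list_fix _ χ (by
    intro x hx
    rw [List.mem_ofFn] at hx
    obtain ⟨j, rfl⟩ := hx
    exact hfix j)

end Proj

end Pool.Agent.Rohlin
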