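import Pool.Agent.Rohlin.EvMove

/-!
# Classification of the events: how the pairing changes
-/

set_option autoImplicit false

namespace Pool.Agent.Rohlin

open Polynomial Complex Set Filter Topology

namespace EvClass

variable {n : Type} [Fintype n] [DecidableEq n] {X : Ctx n} {θs : ℝ} {a b : Fin 8}
  {e σ : Fin 8 → ℂ} {η₀ s sg ρ δ : ℝ}

/-! ### the double root -/

theorem map_eq_prod (hL : X.EvLim θs a b e σ η₀) :
    (gr X.f θs).map (algebraMap ℝ ℂ) = ∏ i, (Polynomial.X - C (e i)) := by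
  apply Polynomial.funext
  intro x
  rw [eval_eq_prod hL, Polynomial.eval_prod]
  exact Finset.prod_congr rfl fun i _ => by rw [eval_sub, eval_X, eval_C]

/-- the derivative at a limit -/
theorem deriv_lim (hL : X.EvLim θs a b e σ η₀) (i : Fin 8) :
    ((derivative (gr X.f θs)).map (algebraMap ℝ ℂ)).eval (e i) =
      ∏ j ∈ Finset.univ.erase i, (e i - e j) := by
  rw [← derivative_map, map_eq_prod hL, ← Finset.mul_prod_erase Finset.univ _ (Finset.mem_univ i),
    derivative_mul]
  simp [Polynomial.eval_prod]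

theorem dbl_of_lim (hL : X.EvLim θs a b e σ η₀) : X.Dbl θs η₀ := by
  refine ⟨root_eta0 hL, ?_⟩
  have h := deriv_lim hL a
  rw [Finset.prod_eq_zero (Finset.mem_erase.2 ⟨hL.ne.symm, Finset.mem_univ b⟩)
    (by rw [hL.ea, hL.eb, sub_self]), hL.ea, eval_map_ofReal] at h
  exact_mod_cast h

theorem eq_of_dbl (hL : X.EvLim θs a b e σ η₀) {η : ℝ} (h : X.Dbl θs η) : η = η₀ := by
  obtain ⟨i, hi⟩ := exists_of_root hL (x := (η : ℂ)) (by rw [eval_map_ofReal, h.1, ofReal_zero])
  by_cases hab : i = a ∨ i = b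
  · rcases hab with rfl | rfl
    · rw [hL.ea] at hi; exact_mod_cast hi.symm
    · rw [hL.eb] at hi; exact_mod_cast hi.symm
  · exfalso
    push Not at hab
    have h1 := deriv_lim hL i
    rw [hi, eval_map_ofReal, h.2, ofReal_zero] at h1
    have h2 := Finset.prod_eq_zero_iff.1 h1.symm
    obtain ⟨j, hj, hj2⟩ := h2
    have h3 : e j = e i := by rw [hi]; exact (sub_eq_zero.1 hj2).symm
    have h4 : j = i := eq_of_lim_eq hL hab h3
    exact (Finset.mem_erase.1 hj).1 h4

theorem second_ne (hL : X.EvLim θs a b e σ η₀) :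
    (derivative (derivative (gr X.f θs))).eval η₀ ≠ 0 := by
  have h := dbl_of_lim hL
  intro h2
  have hcs : (Real.cos θs : ℂ) ≠ 0 ∨ (Real.sin θs : ℂ) ≠ 0 := by
    by_contra hcon
    push Not at hcon
    have h3 := Real.sin_sq_add_cos_sq θs
    have h4 : Real.cos θs = 0 := by exact_mod_cast hcon.1
    have h5 : Real.sin θs = 0 := by exact_mod_cast hcon.2
    rw [h4, h5] at h3
    norm_num at h3
  refine X.nf.two (Real.cos θs) (Real.sin θs) η₀ hcs ?_ ?_ ?_
  · rw [← Line.gr_map, eval_map_ofReal, h.1, ofReal_zero]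
  · rw [← Line.gr_map, derivative_map, eval_map_ofReal, h.2, ofReal_zero]
  · rw [← Line.gr_map, derivative_map, derivative_map, eval_map_ofReal, h2, ofReal_zero]

/-! ### building the new pairing -/

/-- the region of depth `κ` -/
def Kreg (X : Ctx n) (κ : Fin 3) : Set RP2 := if κ = 0 then X.K0 else X.K1

theorem Kreg_zero : Kreg X 0 = X.K0 := if_pos rfl

theorem Kreg_one : Kreg X 1 = X.K1 := if_neg (by decide)

theorem Kreg_or (κ : Fin 3) : Kreg X κ = X.K0 ∨ Kreg X κ = X.K1 := by
  unfold Kreg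
  split_ifs
  · exact Or.inl rfl
  · exact Or.inr rfl

theorem fin3 {κ : Fin 3} (h : κ ≠ 2) : κ = 0 ∨ κ = 1 := by
  revert h
  revert κ
  decide

variable {tC tR : ℝ} {A B : Fin 4 → Fin 8} {kind : Fin 4 → Fin 3} {p₀ : Fin 4} {lo hi : Fin 8}
  {x₁ x₂ : ℝ}

theorem Pre.inK {t : ℝ} (P : X.Pre t A B kind) {κ : Fin 3} (hκ : κ ≠ 2) (x : ℝ) :
    pt t x ∈ Kreg X κ ↔ ∃ p, kind p = κ ∧ (X.eta t (A p)).re ≤ x ∧ x ≤ (X.eta t (B p)).re := by
  rcases fin3 hκ with rfl | rfl
  · rw [Kreg_zero]; exact P.in0 x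
  · rw [Kreg_one]; exact P.in1 x

/-- all the data of the two sides -/
structure Sides (X : Ctx n) (θs : ℝ) (a b : Fin 8) (e σ : Fin 8 → ℂ) (η₀ s sg ρ δ tC tR : ℝ)
    (A B : Fin 4 → Fin 8) (kind : Fin 4 → Fin 3) (p₀ : Fin 4) (lo hi : Fin 8) (x₁ x₂ : ℝ) :
    Prop where
  lim : X.EvLim θs a b e σ η₀
  box : Box X θs a b e η₀ s sg ρ δ
  hC : |tC - θs| < δ
  sC : sg * (tC - θs) < 0
  hR : |tR - θs| < δ
  sR : 0 < sg * (tR - θs)
  pre : X.Pre tC A B kind
  kind0 : kind p₀ = 2
  p0 : (A p₀ = a ∧ B p₀ = b) ∨ (A p₀ = b ∧ B p₀ = a)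
  lohi : (lo = a ∧ hi = b) ∨ (lo = b ∧ hi = a)
  eta_lo : X.eta tR lo = x₁
  eta_hi : X.eta tR hi = x₂
  x1l : η₀ - ρ < x₁
  x1r : x₁ < η₀
  x2l : η₀ < x₂
  x2r : x₂ < η₀ + ρ

namespace Sides

variable (S : Sides X θs a b e σ η₀ s sg ρ δ tC tR A B kind p₀ lo hi x₁ x₂)

include S

theorem neC : tC ≠ θs := by
  rintro rfl
  have := S.sC
  simp at this

theorem neR : tR ≠ θs := by
  rintro rfl
  have := S.sR
  simp at this

theorem regR : X.Reg tR := S.box.reg tR S.neR S.hR

theorem regC : X.Reg tC := S.box.reg tC S.neC S.hC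

theorem root1 : (gr X.f tR).eval x₁ = 0 := by
  have h := X.eta_root S.regR lo
  rw [S.eta_lo, eval_map_ofReal] at h
  exact_mod_cast h

theorem root2 : (gr X.f tR).eval x₂ = 0 := by
  have h := X.eta_root S.regR hi
  rw [S.eta_hi, eval_map_ofReal] at h
  exact_mod_cast h

/-- the only roots near `η₀` are `x₁`, `x₂` -/
theorem near_root {u : ℝ} (hu : |u - η₀| < 3 * ρ) (h0 : (gr X.f tR).eval u = 0) :
    u = x₁ ∨ u = x₂ := by
  obtain ⟨k, hk⟩ := Ctx.exists_eta_of_root X S.regR h0
  have h1 : k = a ∨ k = b := by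
    apply mem_of_close S.lim S.box S.neR S.hR
    rw [hk, norm_ofReal_sub_ofReal]
    exact hu
  have h2 : k = lo ∨ k = hi := by
    rcases S.lohi with ⟨rfl, rfl⟩ | ⟨rfl, rfl⟩
    · exact h1
    · exact h1.symm
  rcases h2 with rfl | rfl
  · left
    have := hk.symm.trans S.eta_lo
    exact_mod_cast this
  · right
    have := hk.symm.trans S.eta_hi
    exact_mod_cast this

theorem between_near {x : ℝ} (h1 : x₁ < x) (h2 : x < x₂) : |x - η₀| ≤ ρ := by
  rw [abs_le]
  constructor
  · linarith [S.x1l]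
  · linarith [S.x2r]

theorem nonroot_between {x : ℝ} (h1 : x₁ < x) (h2 : x < x₂) : (gr X.f tR).eval x ≠ 0 := by
  intro h0
  have hρ := S.box.rho_pos
  have h3 := S.between_near h1 h2
  rcases S.near_root (by linarith) h0 with h | h
  · exact h1.ne' h
  · exact h2.ne h

theorem between_iff {K : Set RP2} (hK : K = X.K0 ∨ K = X.K1) {x : ℝ} (h1 : x₁ < x)
    (h2 : x < x₂) : pt tR x ∈ K ↔ pt tR η₀ ∈ K := by
  refine vert_iff X.reg hK fun u hu => ?_
  have h3 : x₁ < u ∧ u < x₂ := by
    rcases le_total x η₀ with h | h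
    · rw [uIcc_of_le h] at hu
      exact ⟨by linarith [hu.1], by linarith [hu.2, S.x2l]⟩
    · rw [uIcc_of_ge h] at hu
      exact ⟨by linarith [hu.1, S.x1r], by linarith [hu.2]⟩
  exact S.nonroot_between h3.1 h3.2

theorem real_old {κ : Fin 3} (hκ : κ ≠ 2) (p : Fin 4) (hp : kind p = κ) :
    (e (A p)).im = 0 ∧ (e (B p)).im = 0 ∧ (A p ≠ a ∧ A p ≠ b) ∧ (B p ≠ a ∧ B p ≠ b) := by
  have hp2 : kind p ≠ 2 := by rw [hp]; exact hκ
  have hpp : p ≠ p₀ := by
    rintro rfl
    exact hp2 S.kind0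
  have h1 := S.pre.real p hp2
  have h2 := ne_ab S.pre.inj S.p0 hpp
  exact ⟨im_lim_zero S.lim S.box S.neC S.hC h1.1, im_lim_zero S.lim S.box S.neC S.hC h1.2.1, h2⟩

/-- the pairs of depth `κ` over the points between the two new roots -/
theorem old_between {κ : Fin 3} (hκ : κ ≠ 2) {p : Fin 4} (hp : kind p = κ) {x : ℝ}
    (h1 : x₁ < x) (h2 : x < x₂) :
    ((X.eta tR (A p)).re ≤ x ∧ x ≤ (X.eta tR (B p)).re) ↔
      ((X.eta tC (A p)).re ≤ η₀ ∧ η₀ ≤ (X.eta tC (B p)).re) := by
  obtain ⟨h3, h4, h5, h6⟩ := S.real_old hκ p hp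
  have hx := S.between_near h1 h2
  have hη : |η₀ - η₀| ≤ ρ := by rw [sub_self, abs_zero]; exact S.box.rho_pos.le
  rw [(pos_near S.lim S.box S.neR S.hR S.neC S.hC h3 h5 hx hη).1,
    (pos_near S.lim S.box S.neR S.hR S.neC S.hC h4 h6 hx hη).2]

theorem old_outside {κ : Fin 3} (hκ : κ ≠ 2) {x : ℝ} (hx : (gr X.f tR).eval x ≠ 0)
    (hnb : ¬ (x₁ < x ∧ x < x₂)) : pt tR x ∈ Kreg X κ ↔
      ∃ p, kind p = κ ∧ (X.eta tR (A p)).re ≤ x ∧ x ≤ (X.eta tR (B p)).re := by
  refine transfer S.lim S.box S.neR S.hR S.neC S.hC (Kreg_or κ) (S.real_old hκ)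
    (Pre.inK S.pre hκ) hx fun i _ => ?_
  by_cases hab : i = a ∨ i = b
  · have hei : e i = η₀ := by
      rcases hab with rfl | rfl
      · exact S.lim.ea
      · exact S.lim.eb
    have hn1 : x ≠ x₁ := fun h => hx (by rw [h]; exact S.root1)
    have hn2 : x ≠ x₂ := fun h => hx (by rw [h]; exact S.root2)
    have hlt : x₁ < x₂ := S.x1r.trans S.x2l
    have hvals : ∀ k, e k = e i → ∀ u : ℝ, X.eta tR k = u → u = x₁ ∨ u = x₂ := by
      intro k hk u hu
      have h1 := mem_of_lim_eq S.lim (hk.trans hei)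
      have h2 : k = lo ∨ k = hi := by
        rcases S.lohi with ⟨rfl, rfl⟩ | ⟨rfl, rfl⟩
        · exact h1
        · exact h1.symm
      rcases h2 with rfl | rfl
      · left
        have := hu.symm.trans S.eta_lo
        exact_mod_cast this
      · right
        have := hu.symm.trans S.eta_hi
        exact_mod_cast this
    rcases lt_or_gt_of_ne hn1 with h | h
    · left
      intro k hk u hu
      rcases hvals k hk u hu with rfl | rfl <;> linarith
    · right
      have h3 : x₂ < x := lt_of_le_of_ne (not_lt.1 fun h4 => hnb ⟨h, h4⟩) hn2.symm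
      intro k hk u hu
      rcases hvals k hk u hu with rfl | rfl <;> linarith
  · push Not at hab
    have hk1 : ∀ k, e k = e i → k = i := fun k hk => eq_of_lim_eq S.lim hab hk
    rcases lt_or_ge (X.eta tR i).re x with h | h
    · right
      intro k hk u hu
      rw [hk1 k hk] at hu
      rw [hu, ofReal_re] at h
      exact h
    · left
      intro k hk u hu
      rw [hk1 k hk] at hu
      rw [hu, ofReal_re] at h
      refine lt_of_le_of_ne h ?_
      rintro rfl
      apply hx
      have h1 := X.eta_root S.regR i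
      rw [hu, eval_map_ofReal] at h1
      exact_mod_cast h1

/-- **Building** a pairing on the real side. -/
theorem build {A' B' : Fin 4 → Fin 8} {kind' : Fin 4 → Fin 3}
    (hinj : Function.Injective (Sum.elim A' B'))
    (hcpx : ∀ p, kind' p = 2 → 0 < (X.eta tR (A' p)).im ∧
      X.eta tR (B' p) = (starRingEnd ℂ) (X.eta tR (A' p)))
    (hreal : ∀ p, kind' p ≠ 2 → (X.eta tR (A' p)).im = 0 ∧ (X.eta tR (B' p)).im = 0 ∧
      (X.eta tR (A' p)).re < (X.eta tR (B' p)).re)
    (hout : ∀ κ : Fin 3, κ ≠ 2 → ∀ x, (gr X.f tR).eval x ≠ 0 → ¬ (x₁ < x ∧ x < x₂) →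
      ((∃ p, kind' p = κ ∧ (X.eta tR (A' p)).re ≤ x ∧ x ≤ (X.eta tR (B' p)).re) ↔
        ∃ p, kind p = κ ∧ (X.eta tR (A p)).re ≤ x ∧ x ≤ (X.eta tR (B p)).re))
    (hin : ∀ κ : Fin 3, κ ≠ 2 → ∀ x, x₁ < x → x < x₂ →
      (pt tR x ∈ Kreg X κ ↔
        ∃ p, kind' p = κ ∧ (X.eta tR (A' p)).re ≤ x ∧ x ≤ (X.eta tR (B' p)).re)) :
    X.Pre tR A' B' kind' := by
  have hK : ∀ κ : Fin 3, κ ≠ 2 → ∀ x, (gr X.f tR).eval x ≠ 0 →
      (pt tR x ∈ Kreg X κ ↔
        ∃ p, kind' p = κ ∧ (X.eta tR (A' p)).re ≤ x ∧ x ≤ (X.eta tR (B' p)).re) := by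
    intro κ hκ x hx
    by_cases hb : x₁ < x ∧ x < x₂
    · exact hin κ hκ x hb.1 hb.2
    · rw [S.old_outside hκ hx hb, hout κ hκ x hx hb]
  have hne : gr X.f tR ≠ 0 := (Line.gr_monic X.nf tR).ne_zero
  have hsimple : ∀ x, (gr X.f tR).eval x = 0 → (derivative (gr X.f tR)).eval x ≠ 0 := by
    intro x h0 h1
    obtain ⟨k, hk⟩ := Ctx.exists_eta_of_root X S.regR h0
    have h2 := X.sig_sq S.regR k
    rw [hk, eval_map_ofReal, h1, ofReal_zero] at h2
    exact X.sig_ne_zero S.regR k (pow_eq_zero_iff two_ne_zero |>.1 h2)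
  obtain ⟨h0, h1⟩ := mem_of_nonroot X.reg hne hsimple (fun p => (X.eta tR (A' p)).re)
    (fun p => (X.eta tR (B' p)).re) kind' (fun p hp => (hreal p hp).2.2)
    (fun x hx => by
      have := hK 0 (by decide) x hx
      rwa [Kreg_zero] at this)
    (fun x hx => by
      have := hK 1 (by decide) x hx
      rwa [Kreg_one] at this)
  exact ⟨hinj, hcpx, hreal, h0, h1⟩

/-! ### the two types -/

theorem im_lo : (X.eta tR lo).im = 0 := by rw [S.eta_lo, ofReal_im]

theorem im_hi : (X.eta tR hi).im = 0 := by rw [S.eta_hi, ofReal_im]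

theorem re_lo : (X.eta tR lo).re = x₁ := by rw [S.eta_lo, ofReal_re]

theorem re_hi : (X.eta tR hi).re = x₂ := by rw [S.eta_hi, ofReal_re]

theorem other (p : Fin 4) (hp : p ≠ p₀) :
    (A p ≠ lo ∧ A p ≠ hi) ∧ (B p ≠ lo ∧ B p ≠ hi) := by
  have h := ne_ab S.pre.inj S.p0 hp
  rcases S.lohi with ⟨rfl, rfl⟩ | ⟨rfl, rfl⟩
  · exact h
  · exact ⟨h.1.symm, h.2.symm⟩

theorem lo_ne_hi : lo ≠ hi := by
  rcases S.lohi with ⟨rfl, rfl⟩ | ⟨rfl, rfl⟩
  · exact S.lim.ne
  · exact S.lim.ne.symm

theorem between_old {κ : Fin 3} (hκ : κ ≠ 2) {x : ℝ} (h1 : x₁ < x) (h2 : x < x₂) :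
    (∃ p, kind p = κ ∧ (X.eta tR (A p)).re ≤ x ∧ x ≤ (X.eta tR (B p)).re) ↔
      pt tC η₀ ∈ Kreg X κ := by
  rw [Pre.inK S.pre hκ]
  exact exists_congr fun p => and_congr_right fun hp => S.old_between hκ hp h1 h2

theorem eta0_near : |η₀ - η₀| ≤ ρ := by rw [sub_self, abs_zero]; exact S.box.rho_pos.le

/-- CONVEX event: the two new roots form a pair of their own. -/
theorem convex {κ : Fin 3} (hκ : κ ≠ 2)
    (hnew : ∀ x, x₁ < x → x < x₂ → pt tR x ∈ Kreg X κ)
    (hother : ∀ κ' : Fin 3, κ' ≠ 2 → κ' ≠ κ → ∀ x, x₁ < x → x < x₂ →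
      (pt tR x ∈ Kreg X κ' ↔ pt tC η₀ ∈ Kreg X κ')) :
    X.Pre tR (Function.update A p₀ lo) (Function.update B p₀ hi) (Function.update kind p₀ κ) := by
  have hinj := S.pre.inj
  refine S.build ?_ ?_ ?_ ?_ ?_
  · refine Function.Injective.sumElim ?_ ?_ ?_
    · intro p q hpq
      by_cases hp : p = p₀ <;> by_cases hq : q = p₀
      · rw [hp, hq]
      · rw [hp, Function.update_self, Function.update_of_ne hq] at hpq
        exact absurd hpq.symm (S.other q hq).1.1
      · rw [hq, Function.update_self, Function.update_of_ne hp] at hpq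
        exact absurd hpq (S.other p hp).1.1
      · rw [Function.update_of_ne hp, Function.update_of_ne hq] at hpq
        exact inj_A hinj hpq
    · intro p q hpq
      by_cases hp : p = p₀ <;> by_cases hq : q = p₀
      · rw [hp, hq]
      · rw [hp, Function.update_self, Function.update_of_ne hq] at hpq
        exact absurd hpq.symm (S.other q hq).2.2
      · rw [hq, Function.update_self, Function.update_of_ne hp] at hpq
        exact absurd hpq (S.other p hp).2.2
      · rw [Function.update_of_ne hp, Function.update_of_ne hq] at hpq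
        exact inj_B hinj hpq
    · intro p q hpq
      by_cases hp : p = p₀ <;> by_cases hq : q = p₀
      · rw [hp, hq, Function.update_self, Function.update_self] at hpq
        exact S.lo_ne_hi hpq
      · rw [hp, Function.update_self, Function.update_of_ne hq] at hpq
        exact absurd hpq.symm (S.other q hq).2.1
      · rw [hq, Function.update_self, Function.update_of_ne hp] at hpq
        exact absurd hpq (S.other p hp).1.2
      · rw [Function.update_of_ne hp, Function.update_of_ne hq] at hpq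
        exact inj_AB hinj p q hpq
  · intro p hp
    have hpp : p ≠ p₀ := by
      rintro rfl
      rw [Function.update_self] at hp
      exact hκ hp
    rw [Function.update_of_ne hpp] at hp
    rw [Function.update_of_ne hpp, Function.update_of_ne hpp]
    have h1 := ne_ab hinj S.p0 hpp
    exact cpx_other S.lim S.box S.neC S.hC S.neR S.hR h1.1 h1.2 (S.pre.cpx p hp)
  · intro p hp
    by_cases hpp : p = p₀
    · rw [hpp, Function.update_self, Function.update_self, S.re_lo, S.re_hi]
      exact ⟨S.im_lo, S.im_hi, S.x1r.trans S.x2l⟩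
    · rw [Function.update_of_ne hpp] at hp
      rw [Function.update_of_ne hpp, Function.update_of_ne hpp]
      have h1 := ne_ab hinj S.p0 hpp
      exact real_other S.lim S.box S.neC S.hC S.neR S.hR h1.1 h1.2 (S.pre.real p hp)
  · intro κ' hκ' x hx hnb
    constructor
    · rintro ⟨p, hp, h1, h2⟩
      by_cases hpp : p = p₀
      · exfalso
        rw [hpp, Function.update_self, S.re_lo] at h1
        rw [hpp, Function.update_self, S.re_hi] at h2
        refine hnb ⟨lt_of_le_of_ne h1 fun h => hx ?_, lt_of_le_of_ne h2 fun h => hx ?_⟩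
        · rw [← h]; exact S.root1
        · rw [h]; exact S.root2
      · rw [Function.update_of_ne hpp] at hp h1 h2
        exact ⟨p, hp, h1, h2⟩
    · rintro ⟨p, hp, h1, h2⟩
      have hpp : p ≠ p₀ := by
        rintro rfl
        exact hκ' (hp.symm.trans S.kind0)
      exact ⟨p, by rw [Function.update_of_ne hpp]; exact hp,
        by rw [Function.update_of_ne hpp]; exact h1, by rw [Function.update_of_ne hpp]; exact h2⟩
  · intro κ' hκ' x h1 h2
    by_cases hk : κ' = κ
    · subst hk
      refine ⟨fun _ => ⟨p₀, Function.update_self _ _ _, ?_, ?_⟩, fun _ => hnew x h1 h2⟩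
      · rw [Function.update_self, S.re_lo]; exact h1.le
      · rw [Function.update_self, S.re_hi]; exact h2.le
    · rw [hother κ' hκ' hk x h1 h2, ← S.between_old hκ' h1 h2]
      constructor
      · rintro ⟨p, hp, h3, h4⟩
        have hpp : p ≠ p₀ := by
          rintro rfl
          exact hκ' (hp.symm.trans S.kind0)
        exact ⟨p, by rw [Function.update_of_ne hpp]; exact hp,
          by rw [Function.update_of_ne hpp]; exact h3, by rw [Function.update_of_ne hpp]; exact h4⟩
      · rintro ⟨p, hp, h3, h4⟩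
        by_cases hpp : p = p₀
        · exfalso
          rw [hpp, Function.update_self] at hp
          exact hk hp.symm
        · rw [Function.update_of_ne hpp] at hp h3 h4
          exact ⟨p, hp, h3, h4⟩

/-- CONCAVE event: an interval is cut into two. -/
theorem concave {κ : Fin 3} (hκ : κ ≠ 2)
    (hnew : ∀ x, x₁ < x → x < x₂ → pt tR x ∉ Kreg X κ)
    (hold : pt tC η₀ ∈ Kreg X κ)
    (hother : ∀ κ' : Fin 3, κ' ≠ 2 → κ' ≠ κ → ∀ x, x₁ < x → x < x₂ →
      (pt tR x ∈ Kreg X κ' ↔ pt tC η₀ ∈ Kreg X κ')) :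
    ∃ p₁, p₁ ≠ p₀ ∧ kind p₁ = κ ∧ (X.eta tC (A p₁)).re < η₀ ∧ η₀ < (X.eta tC (B p₁)).re ∧
      X.Pre tR (Function.update A p₀ hi) (Function.update (Function.update B p₁ lo) p₀ (B p₁))
        (Function.update kind p₀ κ) := by
  have hinj := S.pre.inj
  obtain ⟨p₁, hp1, h1, h2⟩ := (Pre.inK S.pre hκ η₀).1 hold
  have hp10 : p₁ ≠ p₀ := by
    rintro rfl
    exact hκ (hp1.symm.trans S.kind0)
  have hp1r : kind p₁ ≠ 2 := by rw [hp1]; exact hκ
  obtain ⟨r1, r2, r3⟩ := S.pre.real p₁ hp1r
  have hab1 := ne_ab hinj S.p0 hp10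
  have eA := im_lim_zero S.lim S.box S.neC S.hC r1
  have eB := im_lim_zero S.lim S.box S.neC S.hC r2
  -- on the real side
  have hmid : ∀ x, x₁ < x → x < x₂ →
      (X.eta tR (A p₁)).re ≤ x ∧ x ≤ (X.eta tR (B p₁)).re := fun x hx1 hx2 =>
    (S.old_between hκ hp1 hx1 hx2).2 ⟨h1, h2⟩
  have e1 : (X.eta tR (A p₁)).re ≤ η₀ - ρ ∧ η₀ + ρ ≤ (X.eta tR (B p₁)).re := by
    have q1 := (pos_near S.lim S.box S.neC S.hC S.neR S.hR eA hab1.1 S.eta0_near
      (x' := η₀ - ρ) (by rw [sub_sub_cancel_left, abs_neg, abs_of_pos S.box.rho_pos])).1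
    have q2 := (pos_near S.lim S.box S.neC S.hC S.neR S.hR eB hab1.2 S.eta0_near
      (x' := η₀ + ρ) (by rw [add_sub_cancel_left, abs_of_pos S.box.rho_pos])).2
    exact ⟨q1.1 h1, q2.1 h2⟩
  have e2 : (X.eta tC (A p₁)).re ≤ η₀ - ρ ∧ η₀ + ρ ≤ (X.eta tC (B p₁)).re := by
    have q1 := (pos_near S.lim S.box S.neC S.hC S.neC S.hC eA hab1.1 S.eta0_near
      (x' := η₀ - ρ) (by rw [sub_sub_cancel_left, abs_neg, abs_of_pos S.box.rho_pos])).1
    have q2 := (pos_near S.lim S.box S.neC S.hC S.neC S.hC eB hab1.2 S.eta0_near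
      (x' := η₀ + ρ) (by rw [add_sub_cancel_left, abs_of_pos S.box.rho_pos])).2
    exact ⟨q1.1 h1, q2.1 h2⟩
  have hρ := S.box.rho_pos
  -- uniqueness of the interval
  have huniq : ∀ p, kind p = κ → (X.eta tC (A p)).re ≤ η₀ → η₀ ≤ (X.eta tC (B p)).re →
      p = p₁ := by
    intro p hp q1 q2
    by_contra hne
    rcases (S.pre.conf S.regC).disj p p₁ hne (hp.trans hp1.symm) (by rw [hp]; exact hκ) with h | h
    · linarith
    · linarith
  refine ⟨p₁, hp10, hp1, by linarith [e2.1], by linarith [e2.2], ?_⟩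
  -- values of the new functions
  have vA0 : Function.update A p₀ hi p₀ = hi := Function.update_self _ _ _
  have vA : ∀ p, p ≠ p₀ → Function.update A p₀ hi p = A p := fun p hp =>
    Function.update_of_ne hp _ _
  have vB0 : Function.update (Function.update B p₁ lo) p₀ (B p₁) p₀ = B p₁ :=
    Function.update_self _ _ _
  have vB1 : Function.update (Function.update B p₁ lo) p₀ (B p₁) p₁ = lo := by
    rw [Function.update_of_ne hp10, Function.update_self]
  have vB : ∀ p, p ≠ p₀ → p ≠ p₁ →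
      Function.update (Function.update B p₁ lo) p₀ (B p₁) p = B p := fun p hp hp' => by
    rw [Function.update_of_ne hp, Function.update_of_ne hp']
  have vk0 : Function.update kind p₀ κ p₀ = κ := Function.update_self _ _ _
  have vk : ∀ p, p ≠ p₀ → Function.update kind p₀ κ p = kind p := fun p hp =>
    Function.update_of_ne hp _ _
  refine S.build ?_ ?_ ?_ ?_ ?_
  · refine Function.Injective.sumElim ?_ ?_ ?_
    · intro p q hpq
      by_cases hp : p = p₀ <;> by_cases hq : q = p₀
      · rw [hp, hq]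
      · rw [hp, vA0, vA q hq] at hpq
        exact absurd hpq.symm (S.other q hq).1.2
      · rw [hq, vA0, vA p hp] at hpq
        exact absurd hpq (S.other p hp).1.2
      · rw [vA p hp, vA q hq] at hpq
        exact inj_A hinj hpq
    · intro p q hpq
      by_cases hp : p = p₀ <;> by_cases hq : q = p₀
      · rw [hp, hq]
      · rw [hp, vB0] at hpq
        by_cases hq1 : q = p₁
        · rw [hq1, vB1] at hpq
          exact absurd hpq (S.other p₁ hp10).2.1
        · rw [vB q hq hq1] at hpq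
          exact absurd (inj_B hinj hpq).symm hq1
      · rw [hq, vB0] at hpq
        by_cases hp1' : p = p₁
        · rw [hp1', vB1] at hpq
          exact absurd hpq.symm (S.other p₁ hp10).2.1
        · rw [vB p hp hp1'] at hpq
          exact absurd (inj_B hinj hpq) hp1'
      · by_cases hp1' : p = p₁ <;> by_cases hq1 : q = p₁
        · rw [hp1', hq1]
        · rw [hp1', vB1, vB q hq hq1] at hpq
          exact absurd hpq.symm (S.other q hq).2.1
        · rw [hq1, vB1, vB p hp hp1'] at hpq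
          exact absurd hpq (S.other p hp).2.1
        · rw [vB p hp hp1', vB q hq hq1] at hpq
          exact inj_B hinj hpq
    · intro p q hpq
      by_cases hp : p = p₀
      · rw [hp, vA0] at hpq
        by_cases hq : q = p₀
        · rw [hq, vB0] at hpq
          exact (S.other p₁ hp10).2.2 hpq.symm
        · by_cases hq1 : q = p₁
          · rw [hq1, vB1] at hpq
            exact S.lo_ne_hi hpq.symm
          · rw [vB q hq hq1] at hpq
            exact (S.other q hq).2.2 hpq.symm
      · rw [vA p hp] at hpq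
        by_cases hq : q = p₀
        · rw [hq, vB0] at hpq
          exact inj_AB hinj _ _ hpq
        · by_cases hq1 : q = p₁
          · rw [hq1, vB1] at hpq
            exact (S.other p hp).1.1 hpq
          · rw [vB q hq hq1] at hpq
            exact inj_AB hinj _ _ hpq
  · intro p hp
    have hpp : p ≠ p₀ := by
      rintro rfl
      rw [vk0] at hp
      exact hκ hp
    rw [vk p hpp] at hp
    have hpp1 : p ≠ p₁ := by
      rintro rfl
      exact hp1r hp
    rw [vA p hpp, vB p hpp hpp1]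
    have q := ne_ab hinj S.p0 hpp
    exact cpx_other S.lim S.box S.neC S.hC S.neR S.hR q.1 q.2 (S.pre.cpx p hp)
  · intro p hp
    by_cases hpp : p = p₀
    · rw [hpp, vA0, vB0, S.re_hi]
      exact ⟨S.im_hi, im_zero_of_lim S.lim S.box S.neR S.hR hab1.2 eB, by
        linarith [e1.2, S.x2r]⟩
    · rw [vk p hpp] at hp
      by_cases hpp1 : p = p₁
      · rw [hpp1, vA p₁ hp10, vB1, S.re_lo]
        exact ⟨im_zero_of_lim S.lim S.box S.neR S.hR hab1.1 eA, S.im_lo, by
          linarith [e1.1, S.x1l]⟩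
      · rw [vA p hpp, vB p hpp hpp1]
        have q := ne_ab hinj S.p0 hpp
        exact real_other S.lim S.box S.neC S.hC S.neR S.hR q.1 q.2 (S.pre.real p hp)
  · intro κ' hκ' x hx hnb
    have hx12 : x < x₁ ∨ x₂ < x := by
      have hn1 : x ≠ x₁ := fun h => hx (by rw [h]; exact S.root1)
      have hn2 : x ≠ x₂ := fun h => hx (by rw [h]; exact S.root2)
      rcases lt_or_gt_of_ne hn1 with h | h
      · exact Or.inl h
      · exact Or.inr (lt_of_le_of_ne (not_lt.1 fun h4 => hnb ⟨h, h4⟩) hn2.symm)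
    have hx12' : x₁ < x₂ := S.x1r.trans S.x2l
    constructor
    · rintro ⟨p, hp, q1, q2⟩
      by_cases hpp : p = p₀
      · rw [hpp, vk0] at hp
        rw [hpp, vA0, S.re_hi] at q1
        rw [hpp, vB0] at q2
        exact ⟨p₁, hp1.trans hp, by linarith [e1.1, S.x2l], q2⟩
      · rw [vk p hpp] at hp
        by_cases hpp1 : p = p₁
        · rw [hpp1, vA p₁ hp10] at q1
          rw [hpp1, vB1, S.re_lo] at q2
          exact ⟨p₁, by rw [← hpp1]; exact hp, q1, by linarith [e1.2, S.x1r]⟩
        · rw [vA p hpp] at q1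
          rw [vB p hpp hpp1] at q2
          exact ⟨p, hp, q1, q2⟩
    · rintro ⟨p, hp, q1, q2⟩
      have hpp : p ≠ p₀ := by
        rintro rfl
        exact hκ' (hp.symm.trans S.kind0)
      by_cases hpp1 : p = p₁
      · rw [hpp1] at hp q1 q2
        rcases hx12 with h | h
        · exact ⟨p₁, by rw [vk p₁ hp10]; exact hp, by rw [vA p₁ hp10]; exact q1,
            by rw [vB1, S.re_lo]; exact h.le⟩
        · exact ⟨p₀, by rw [vk0]; exact hp1.symm.trans hp, by rw [vA0, S.re_hi]; exact h.le,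
            by rw [vB0]; exact q2⟩
      · exact ⟨p, by rw [vk p hpp]; exact hp, by rw [vA p hpp]; exact q1,
          by rw [vB p hpp hpp1]; exact q2⟩
  · intro κ' hκ' x q1 q2
    by_cases hk : κ' = κ
    · subst hk
      refine ⟨fun h => absurd h (hnew x q1 q2), ?_⟩
      rintro ⟨p, hp, q3, q4⟩
      exfalso
      by_cases hpp : p = p₀
      · rw [hpp, vA0, S.re_hi] at q3
        linarith
      · rw [vk p hpp] at hp
        by_cases hpp1 : p = p₁
        · rw [hpp1, vB1, S.re_lo] at q4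
          linarith
        · rw [vA p hpp] at q3
          rw [vB p hpp hpp1] at q4
          have q5 := (S.old_between hκ' hp q1 q2).1 ⟨q3, q4⟩
          exact hpp1 (huniq p hp q5.1 q5.2)
    · rw [hother κ' hκ' hk x q1 q2, ← S.between_old hκ' q1 q2]
      constructor
      · rintro ⟨p, hp, h3, h4⟩
        have hpp : p ≠ p₀ := by
          rintro rfl
          exact hκ' (hp.symm.trans S.kind0)
        have hpp1 : p ≠ p₁ := by
          rintro rfl
          exact hk (hp.symm.trans hp1)
        exact ⟨p, by rw [vk p hpp]; exact hp, by rw [vA p hpp]; exact h3,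
          by rw [vB p hpp hpp1]; exact h4⟩
      · rintro ⟨p, hp, h3, h4⟩
        by_cases hpp : p = p₀
        · exfalso
          rw [hpp, vk0] at hp
          exact hk hp.symm
        · rw [vk p hpp] at hp
          have hpp1 : p ≠ p₁ := by
            rintro rfl
            exact hk (hp.symm.trans hp1)
          rw [vA p hpp] at h3
          rw [vB p hpp hpp1] at h4
          exact ⟨p, hp, h3, h4⟩

end Sides

/-! ### the classification -/

open Classical in
/-- the depth of the oval through the double root: the kind of the new real pair -/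
noncomputable def kap (X : Ctx n) (θ η : ℝ) : Fin 3 := if pt θ η ∈ X.K1 then 1 else 0

theorem kap_ne (X : Ctx n) (θ η : ℝ) : kap X θ η ≠ 2 := by
  unfold kap
  split_ifs <;> decide

theorem not_mem0_of_pos {t x : ℝ} (h : 0 < (gr X.f t).eval x) (h1 : pt t x ∉ X.K1) :
    pt t x ∉ X.K0 := by
  intro h0
  by_cases hi : pt t x ∈ interior X.K0
  · exact absurd (X.reg.neg t x hi h1) (not_lt.2 h.le)
  · have : pt t x ∈ frontier X.K0 := by rw [X.reg.closed0.frontier_eq]; exact ⟨h0, hi⟩
    exact h.ne' (X.reg.zero t x (Or.inl this))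

/-- **EVCLASS.** How the pairing changes at an event. -/
theorem evclass (hL : X.EvLim θs a b e σ η₀) {ρmax : ℝ} (hρmax : 0 < ρmax) :
    ∃ sg : ℝ, (sg = 1 ∨ sg = -1) ∧ ∃ δ : ℝ, 0 < δ ∧
      (∀ t, t ≠ θs → |t - θs| < δ → X.Reg t) ∧
      ∀ tC tR : ℝ, |tC - θs| < δ → sg * (tC - θs) < 0 → |tR - θs| < δ → 0 < sg * (tR - θs) →
      ∀ A B kind, X.Pre tC A B kind →
      ∃ (p₀ : Fin 4) (lo hi : Fin 8) (x₁ x₂ : ℝ), kind p₀ = 2 ∧
        ((A p₀ = a ∧ B p₀ = b) ∨ (A p₀ = b ∧ B p₀ = a)) ∧
        ((lo = a ∧ hi = b) ∨ (lo = b ∧ hi = a)) ∧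
        X.eta tR lo = x₁ ∧ X.eta tR hi = x₂ ∧ η₀ - ρmax < x₁ ∧ x₁ < η₀ ∧ η₀ < x₂ ∧
        x₂ < η₀ + ρmax ∧
        (X.esg θs η₀ = X.edep θs η₀ →
          X.Pre tR (Function.update A p₀ lo) (Function.update B p₀ hi)
            (Function.update kind p₀ (kap X θs η₀))) ∧
        (X.esg θs η₀ ≠ X.edep θs η₀ → ∃ p₁, p₁ ≠ p₀ ∧ kind p₁ = kap X θs η₀ ∧
          (X.eta tC (A p₁)).re < η₀ ∧ η₀ < (X.eta tC (B p₁)).re ∧
          X.Pre tR (Function.update A p₀ hi)
            (Function.update (Function.update B p₁ lo) p₀ (B p₁))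
            (Function.update kind p₀ (kap X θs η₀))) := by
  have hd := dbl_of_lim hL
  have h2 := second_ne hL
  -- the sign
  obtain ⟨s, hs, hs1⟩ : ∃ s : ℝ, 0 < s * (derivative (derivative (gr X.f θs))).eval η₀ ∧
      ((0 < s ∧ X.esg θs η₀ = 1) ∨ (s < 0 ∧ X.esg θs η₀ = -1)) := by
    rcases lt_or_gt_of_ne h2 with h | h
    · refine ⟨-1, by linarith, Or.inr ⟨by norm_num, ?_⟩⟩
      unfold Ctx.esg
      rw [sign_neg h]
      rfl
    · refine ⟨1, by linarith, Or.inl ⟨one_pos, ?_⟩⟩
      unfold Ctx.esg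
      rw [sign_pos h]
      rfl
  obtain ⟨sg, ρ, δ, hρm, hB⟩ := exists_Box hL hd.2 hs hρmax
  refine ⟨sg, hB.sg_val, δ, hB.delta_pos, hB.reg, ?_⟩
  intro tC tR hC sC hR sR A B kind P
  obtain ⟨p₀, hk0, hp0⟩ := exists_p0 hL hB hC sC P
  obtain ⟨lo, hi, x₁, x₂, hlohi, hlo, hhi, f1, f2, f3, f4⟩ := rside_roots hL hB hR sR
  have S : Sides X θs a b e σ η₀ s sg ρ δ tC tR A B kind p₀ lo hi x₁ x₂ :=
    ⟨hL, hB, hC, sC, hR, sR, P, hk0, hp0, hlohi, hlo, hhi, f1, f2, f3, f4⟩
  have hη : |η₀ - η₀| ≤ ρ := S.eta0_near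
  have gC : 0 < s * (gr X.f tC).eval η₀ := hB.cside tC η₀ hC hη sC
  have gR : s * (gr X.f tR).eval η₀ < 0 := hB.rside tR hR sR
  refine ⟨p₀, lo, hi, x₁, x₂, hk0, hp0, hlohi, hlo, hhi, by linarith, f2, f3, by linarith, ?_, ?_⟩
  · intro hconv
    by_cases hK : pt θs η₀ ∈ X.K1
    · -- depth 1: a gap between two new roots, inside of the region of depth 0
      have he : X.edep θs η₀ = -1 := if_pos hK
      have hkap : kap X θs η₀ = 1 := if_pos hK
      rw [he] at hconv
      rcases hs1 with ⟨hs0, h1⟩ | ⟨hs0, h1⟩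
      · rw [h1] at hconv; norm_num at hconv
      rw [hkap]
      have gR' : 0 < (gr X.f tR).eval η₀ := by
        by_contra hcon
        push Not at hcon
        nlinarith
      refine S.convex (by decide) (fun x q1 q2 => ?_) (fun κ' hκ' hne x q1 q2 => ?_)
      · rw [Kreg_one, S.between_iff (Or.inr rfl) q1 q2]
        exact mem1_of_pos X.reg gR' (hB.depth1 hK tR η₀ hR hη)
      · have : κ' = 0 := by
          rcases fin3 hκ' with h | h
          · exact h
          · exact absurd h hne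
        subst this
        rw [Kreg_zero]
        exact ⟨fun _ => interior_subset (hB.depth1 hK tC η₀ hC hη),
          fun _ => interior_subset (hB.depth1 hK tR x hR (S.between_near q1 q2))⟩
    · have he : X.edep θs η₀ = 1 := if_neg hK
      have hkap : kap X θs η₀ = 0 := if_neg hK
      rw [he] at hconv
      rcases hs1 with ⟨hs0, h1⟩ | ⟨hs0, h1⟩
      swap
      · rw [h1] at hconv; norm_num at hconv
      rw [hkap]
      have gR' : (gr X.f tR).eval η₀ < 0 := by
        by_contra hcon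
        push Not at hcon
        nlinarith
      refine S.convex (by decide) (fun x q1 q2 => ?_) (fun κ' hκ' hne x q1 q2 => ?_)
      · rw [Kreg_zero, S.between_iff (Or.inl rfl) q1 q2]
        exact mem0_of_neg X.reg gR'
      · have : κ' = 1 := by
          rcases fin3 hκ' with h | h
          · exact absurd h hne
          · exact h
        subst this
        rw [Kreg_one]
        exact ⟨fun h => absurd h (hB.depth0 hK tR x hR (S.between_near q1 q2)),
          fun h => absurd h (hB.depth0 hK tC η₀ hC hη)⟩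
  · intro hconc
    by_cases hK : pt θs η₀ ∈ X.K1
    · have he : X.edep θs η₀ = -1 := if_pos hK
      have hkap : kap X θs η₀ = 1 := if_pos hK
      rw [he] at hconc
      rcases hs1 with ⟨hs0, h1⟩ | ⟨hs0, h1⟩
      swap
      · exact absurd h1 hconc
      rw [hkap]
      have gR' : (gr X.f tR).eval η₀ < 0 := by
        by_contra hcon
        push Not at hcon
        nlinarith
      have gC' : 0 < (gr X.f tC).eval η₀ := by
        by_contra hcon
        push Not at hcon
        nlinarith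
      refine S.concave (by decide) (fun x q1 q2 => ?_) ?_ (fun κ' hκ' hne x q1 q2 => ?_)
      · rw [Kreg_one, S.between_iff (Or.inr rfl) q1 q2]
        exact not_mem1_of_neg X.reg gR'
      · rw [Kreg_one]
        exact mem1_of_pos X.reg gC' (hB.depth1 hK tC η₀ hC hη)
      · have : κ' = 0 := by
          rcases fin3 hκ' with h | h
          · exact h
          · exact absurd h hne
        subst this
        rw [Kreg_zero]
        exact ⟨fun _ => interior_subset (hB.depth1 hK tC η₀ hC hη),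
          fun _ => interior_subset (hB.depth1 hK tR x hR (S.between_near q1 q2))⟩
    · have he : X.edep θs η₀ = 1 := if_neg hK
      have hkap : kap X θs η₀ = 0 := if_neg hK
      rw [he] at hconc
      rcases hs1 with ⟨hs0, h1⟩ | ⟨hs0, h1⟩
      · exact absurd h1 hconc
      rw [hkap]
      have gR' : 0 < (gr X.f tR).eval η₀ := by
        by_contra hcon
        push Not at hcon
        nlinarith
      have gC' : (gr X.f tC).eval η₀ < 0 := by
        by_contra hcon
        push Not at hcon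
        nlinarith
      refine S.concave (by decide) (fun x q1 q2 => ?_) ?_ (fun κ' hκ' hne x q1 q2 => ?_)
      · rw [Kreg_zero, S.between_iff (Or.inl rfl) q1 q2]
        exact not_mem0_of_pos gR' (hB.depth0 hK tR η₀ hR hη)
      · rw [Kreg_zero]
        exact mem0_of_neg X.reg gC'
      · have : κ' = 1 := by
          rcases fin3 hκ' with h | h
          · exact absurd h hne
          · exact h
        subst this
        rw [Kreg_one]
        exact ⟨fun h => absurd h (hB.depth0 hK tR x hR (S.between_near q1 q2)),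
          fun h => absurd h (hB.depth0 hK tC η₀ hC hη)⟩

end EvClass

end Pool.Agent.Rohlin
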