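import Pool.Agent.Rohlin.EvCross
import Pool.Agent.Rohlin.RealGauge

/-!
# Events: the concave case
-/

set_option autoImplicit false

namespace Pool.Agent.Rohlin

open Polynomial Complex Set Matrix Filter Topology Metric

theorem ph_div (z w : ℂ) : ph (z / w) = ph z / ph w := by
  unfold ph
  rw [norm_div, ofReal_div, div_div_div_comm]

theorem ph_unit_mul {u : ℂ} (hu : ‖u‖ = 1) {ρ : ℝ} (hρ : 0 < ρ) : ph (u * (ρ : ℂ)) = u := by
  rw [ph_mul_real hρ, ph_of_norm_one hu]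

section Rot

variable {m : ℕ} {n : Type} [Fintype n] [DecidableEq n] (M : Majorana m n)

theorem Rfac_zero_one (a b : Fin m) : Rfac M a b 0 1 = M.e a * M.e b := by
  unfold Rfac
  simp

theorem rhoG_a {a b : Fin m} (hab : a ≠ b) (C S : ℂ) (v : Fin m → ℂ) :
    rhoG a b C S v a = C * v a + S * v b := by
  rw [rhoG, Function.update_of_ne hab, Function.update_self]

theorem rhoG_b {a b : Fin m} (C S : ℂ) (v : Fin m → ℂ) :
    rhoG a b C S v b = -S * v a + C * v b := by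
  rw [rhoG, Function.update_self]

theorem rhoG_other {a b i : Fin m} (ha : i ≠ a) (hb : i ≠ b) (C S : ℂ) (v : Fin m → ℂ) :
    rhoG a b C S v i = v i := by
  rw [rhoG, Function.update_of_ne hb, Function.update_of_ne ha]

end Rot

namespace Ctx

variable {n : Type} [Fintype n] [DecidableEq n] {X : Ctx n}

omit [DecidableEq n] in
theorem dot_half (l ψ χ : n → ℂ) (τ : ℂ) :
    l ⬝ᵥ ((1 / 2 : ℂ) • (ψ + τ • χ)) = (1 / 2 : ℂ) * (l ⬝ᵥ ψ + τ * (l ⬝ᵥ χ)) := by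
  rw [dotProduct_smul, dotProduct_add, dotProduct_smul, smul_eq_mul, smul_eq_mul]

/-- **gap type**: the phase is constant along the arc of the recoupling -/
theorem ph_arc {θ : ℝ} (hθ : X.Reg θ) {A B : Fin 4 → Fin 8}
    (hinj : Function.Injective (Sum.elim A B)) {z : Fin 4 → ℂ} (hz1 : ∀ p, z p = 1 ∨ z p = -1)
    {ψ : n → ℂ} (hψ : X.proj A B z = vecMulVec ψ (star ψ)) {p₀ p₁ : Fin 4} (h01 : p₀ ≠ p₁)
    {τ : ℂ} (hτ : τ = 1 ∨ τ = -1)
    (harc : ∀ c S : ℝ, 0 ≤ c → 0 ≤ S → c ^ 2 + S ^ 2 = 1 → ∃ x : ℝ, 0 < x ∧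
      (Matrix.of fun p j : Fin 4 =>
        if p = p₁ then vfam (X.eta θ) (X.sig θ) j (A p₁) - I * z p₁ *
          (S * vfam (X.eta θ) (X.sig θ) j (B p₁) + τ * c * vfam (X.eta θ) (X.sig θ) j (A p₀))
        else if p = p₀ then (S * vfam (X.eta θ) (X.sig θ) j (A p₀) -
          τ * c * vfam (X.eta θ) (X.sig θ) j (B p₁)) - I * z p₀ *
            vfam (X.eta θ) (X.sig θ) j (B p₀)
        else vfam (X.eta θ) (X.sig θ) j (A p) - I * z p * vfam (X.eta θ) (X.sig θ) j (B p)).det ^ 8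
          = (x : ℂ)) :
    ph (X.lr θ ⬝ᵥ ((1 / 2 : ℂ) • (ψ + τ • ((X.M.e (A p₀) * X.M.e (B p₁)) *ᵥ ψ)))) =
      ph (X.lr θ ⬝ᵥ ψ) := by
  obtain ⟨κ, hκ, h1, -, -⟩ := X.exists_kappa_sq hinj hz1 hψ
  obtain ⟨n1, n2, n3⟩ := ne_of_inj A B hinj
  have hτ2 : τ ^ 2 = 1 := by rcases hτ with h | h <;> rw [h] <;> norm_num
  set v := vfam (X.eta θ) (X.sig θ) with hv
  set g : ℝ → ℂ := fun φ => X.lr θ ⬝ᵥ
    (Rfac X.M (A p₀) (B p₁) (Real.cos φ : ℂ) (τ * (Real.sin φ : ℂ)) *ᵥ ψ) with hg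
  have hgv : ∀ φ, g φ = (Real.cos φ : ℂ) * (X.lr θ ⬝ᵥ ψ) + τ * (Real.sin φ : ℂ) *
      (X.lr θ ⬝ᵥ ((X.M.e (A p₀) * X.M.e (B p₁)) *ᵥ ψ)) := by
    intro φ
    rw [hg]
    simp only [Rfac]
    rw [Matrix.add_mulVec, Matrix.smul_mulVec, Matrix.smul_mulVec, Matrix.one_mulVec,
      dotProduct_add, dotProduct_smul, dotProduct_smul, smul_eq_mul, smul_eq_mul]
  have hgc : Continuous g := by
    have : g = fun φ => (Real.cos φ : ℂ) * (X.lr θ ⬝ᵥ ψ) + τ * (Real.sin φ : ℂ) *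
      (X.lr θ ⬝ᵥ ((X.M.e (A p₀) * X.M.e (B p₁)) *ᵥ ψ)) := funext hgv
    rw [this]
    have hc1 : Continuous fun φ : ℝ => ((Real.cos φ : ℝ) : ℂ) :=
      Complex.continuous_ofReal.comp Real.continuous_cos
    have hc2 : Continuous fun φ : ℝ => ((Real.sin φ : ℝ) : ℂ) :=
      Complex.continuous_ofReal.comp Real.continuous_sin
    exact (hc1.mul continuous_const).add ((continuous_const.mul hc2).mul continuous_const)
  have hsq : ∀ φ, g φ ^ 2 = κ * (Matrix.of fun p j : Fin 4 =>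
        if p = p₁ then v j (A p₁) - I * z p₁ *
          ((Real.cos (2 * φ) : ℝ) * v j (B p₁) + τ * (Real.sin (2 * φ) : ℝ) * v j (A p₀))
        else if p = p₀ then ((Real.cos (2 * φ) : ℝ) * v j (A p₀) -
          τ * (Real.sin (2 * φ) : ℝ) * v j (B p₁)) - I * z p₀ * v j (B p₀)
        else v j (A p) - I * z p * v j (B p)).det := by
    intro φ
    have hcs : (Real.cos φ : ℂ) ^ 2 + (τ * (Real.sin φ : ℂ)) ^ 2 = 1 := by
      rw [mul_pow, hτ2, one_mul]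
      have := Real.sin_sq_add_cos_sq φ
      rw [add_comm] at this
      exact_mod_cast this
    have h2 := sq_rot X.M X.C (ε := 1) (one_mul 1) (fun a => by rw [one_smul]; exact X.hC a)
      (n1 p₀ p₁) hcs v (X.lr θ) (X.lr_sq hθ) ψ
    rw [hg]
    simp only
    rw [h2, h1]
    have e1 : (Real.cos φ : ℂ) ^ 2 - (τ * (Real.sin φ : ℂ)) ^ 2 = (Real.cos (2 * φ) : ℝ) := by
      rw [mul_pow, hτ2, one_mul, Real.cos_two_mul]
      have := Real.sin_sq_add_cos_sq φ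
      have h3 : (Real.sin φ : ℂ) ^ 2 + (Real.cos φ : ℂ) ^ 2 = 1 := by exact_mod_cast this
      push_cast
      push_cast at h3
      linear_combination (-1 : ℂ) * h3
    have e2 : -(2 * (Real.cos φ : ℂ) * (τ * (Real.sin φ : ℂ))) = -(τ * (Real.sin (2 * φ) : ℝ)) := by
      rw [Real.sin_two_mul]
      push_cast
      ring
    rw [e1, e2]
    congr 2
    ext p j
    simp only [Matrix.of_apply]
    by_cases hp1 : p = p₁
    · subst hp1
      rw [if_pos rfl, rhoG_b, rhoG_other (n2 p p₀ h01.symm) (n1 p p)]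
      ring
    · by_cases hp0 : p = p₀
      · subst hp0
        rw [if_neg hp1, if_pos rfl, rhoG_a (n1 p p₁), rhoG_other (n1 p p).symm (n3 p p₁ hp1)]
        ring
      · rw [if_neg hp1, if_neg hp0, rhoG_other (n2 p p₀ hp0) (n1 p p₁),
          rhoG_other (n1 p₀ p).symm (n3 p p₁ hp1)]
  obtain ⟨u, hu, hu'⟩ := Phase.exists_phase (S := Icc (0 : ℝ) (Real.pi / 4)) isPreconnected_Icc
    hgc.continuousOn (N := 16) (by norm_num) (pow_ne_zero 8 hκ) (by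
      intro φ hφ
      have hs : 0 ≤ Real.sin (2 * φ) := Real.sin_nonneg_of_nonneg_of_le_pi (by linarith [hφ.1])
        (by linarith [hφ.2, Real.pi_pos])
      have hc : 0 ≤ Real.cos (2 * φ) := Real.cos_nonneg_of_neg_pi_div_two_le_of_le
        (by linarith [hφ.1, Real.pi_pos]) (by linarith [hφ.2])
      obtain ⟨x, hx, hx'⟩ := harc _ _ hs hc (Real.sin_sq_add_cos_sq _)
      refine ⟨x, hx, ?_⟩
      rw [show (16 : ℕ) = 2 * 8 by norm_num, pow_mul, hsq, mul_pow, hx'])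
  obtain ⟨ρ0, hρ0, h0⟩ := hu' 0 ⟨le_rfl, by positivity⟩
  obtain ⟨ρ1, hρ1, h2⟩ := hu' (Real.pi / 4) ⟨by positivity, le_rfl⟩
  rw [hgv] at h0 h2
  rw [Real.cos_zero, Real.sin_zero] at h0
  rw [Real.cos_pi_div_four, Real.sin_pi_div_four] at h2
  have h3 : X.lr θ ⬝ᵥ ψ = u * ρ0 := by
    rw [← h0]
    push_cast
    ring
  have h4 : X.lr θ ⬝ᵥ ((1 / 2 : ℂ) • (ψ + τ • ((X.M.e (A p₀) * X.M.e (B p₁)) *ᵥ ψ))) =
      u * ((ρ1 * (Real.sqrt 2 / 2) : ℝ) : ℂ) := by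
    rw [dot_half]
    have h5 : ((Real.sqrt 2 / 2 : ℝ) : ℂ) * ((Real.sqrt 2 / 2 : ℝ) : ℂ) = 1 / 2 := by
      rw [← ofReal_mul]
      have : Real.sqrt 2 / 2 * (Real.sqrt 2 / 2) = 1 / 2 := by
        have := Real.mul_self_sqrt (show (0:ℝ) ≤ 2 by norm_num)
        nlinarith
      rw [this]
      push_cast
      ring
    push_cast [ofReal_mul] at h2 h5 ⊢
    linear_combination ((Real.sqrt 2 : ℂ) / 2) * h2 - ((X.lr θ ⬝ᵥ ψ) +
      τ * (X.lr θ ⬝ᵥ ((X.M.e (A p₀) * X.M.e (B p₁)) *ᵥ ψ))) * h5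
  rw [h3, h4, ph_unit_mul hu hρ0, ph_unit_mul hu (by positivity)]

section

variable {θs : ℝ} {a b : Fin 8} {ε : ℂ} {Y H : ℂ → ℂ} {y0 s0 : Fin 8 → ℂ}
  (h : X.LocData (circ θs) a b ε Y H y0 s0) (hZ : circ θs ∈ X.Z)

include h hZ

/-- the square with the opposite sign -/
theorem LocData.sq_zero {A B : Fin 4 → Fin 8} {z : Fin 4 → ℂ} {p₀ : Fin 4} (hA : A p₀ = a)
    (hB : B p₀ = b) (hinj : Function.Injective (Sum.elim A B)) (hz : z p₀ = ε) :
    Tendsto (fun w => rt (tvar X.c (circ θs) w) * (X.rowsW A B z w).det)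
      (𝓝[X.D] (circ θs)) (𝓝 0) := by
  obtain ⟨n1, n2, n3⟩ := ne_of_inj A B hinj
  set N : Matrix (Fin 4) (Fin 4) ℂ := Matrix.of fun p j : Fin 4 => if p = p₀ then 0 else
    (y0 (A p) ^ (j : ℕ) / s0 (A p) - I * z p * (y0 (B p) ^ (j : ℕ) / s0 (B p))) with hN
  have hN0 : N.det = 0 := Matrix.det_eq_zero_of_row_eq_zero p₀ fun j => by
    rw [hN, Matrix.of_apply, if_pos rfl]
  rw [← hN0]
  apply tendsto_det _ _ p₀
  · intro p hp j
    rw [hN, Matrix.of_apply, if_neg hp]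
    exact h.rows_other (A := A) (B := B) (z := z) (p := p)
      ⟨fun h2 => n2 p p₀ hp (h2.trans hA.symm), fun h2 => n1 p p₀ (h2.trans hB.symm)⟩
      ⟨fun h2 => n1 p₀ p (hA.trans h2.symm), fun h2 => n3 p p₀ hp (h2.trans hB.symm)⟩ j
  · intro j
    rw [hN, Matrix.of_apply, if_pos rfl]
    have ht := t_lim X hZ
    have ht0 : Tendsto (fun w => tvar X.c (circ θs) w) (𝓝[X.D] (circ θs)) (𝓝 0) :=
      ht.mono_right nhdsWithin_le_nhds
    have h1 := ht0.mul (h.row_gap hZ hA hB hz j)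
    rw [zero_mul] at h1
    refine h1.congr' ?_
    filter_upwards [self_mem_nhdsWithin] with w hw
    have h2 := rt_mul_rt (tvar X.c (circ θs) w)
    have h3 : rt (tvar X.c (circ θs) w) ≠ 0 := rt_ne_zero (tvar_ne_zero X.cZ hZ hw.1)
    field_simp
    linear_combination (-(X.rowsW A B z w p₀ j)) * h2

variable {η₀ : ℝ} (hd : X.Dbl θs η₀)
include hd

/-- **type O**: the recoupled state has the same phase in the limit -/
theorem LocData.conc_O {A B : Fin 4 → Fin 8} {z : Fin 4 → ℂ} {p₀ p₁ : Fin 4} {ψ : n → ℂ}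
    (h01 : p₀ ≠ p₁) (hA : A p₀ = a) (hB : B p₀ = b) (hinj : Function.Injective (Sum.elim A B))
    (hz1 : ∀ p, z p = 1 ∨ z p = -1) (hψ : X.proj A B z = vecMulVec ψ (star ψ))
    (hz : z p₀ = -ε) (hO : (matEv (eLim θs y0) (sLim θs s0) A B z p₀ (rowO η₀)).det ≠ 0)
    (τ : ℂ) :
    Tendsto (fun θ => ph (X.lr θ ⬝ᵥ ((1 / 2 : ℂ) •
      (ψ + τ • ((X.M.e (A p₀) * X.M.e (B p₁)) *ᵥ ψ)))) / ph (X.lr θ ⬝ᵥ ψ)) (𝓝[≠] θs) (𝓝 1) := by
  obtain ⟨n1, n2, n3⟩ := ne_of_inj A B hinj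
  obtain ⟨κ, hκ, h1, h2, -⟩ := X.exists_kappa_sq hinj hz1 hψ
  obtain ⟨Λ, hΛ, h3⟩ := h.sq_O hZ hd hA hB hinj hz hO
  set χ := (X.M.e (A p₀) * X.M.e (B p₁)) *ᵥ ψ with hχ
  -- the flipped signs
  set z' : Fin 4 → ℂ := fun p => if p = p₀ ∨ p = p₁ then -z p else z p with hz'
  have h4 : ∀ w ∈ X.D, (X.l w ⬝ᵥ χ) ^ 2 = -(κ * (X.rowsW A B z' w).det) := by
    intro w hw
    have h5 := sq_rot X.M X.C (ε := 1) (one_mul 1) (fun a => by rw [one_smul]; exact X.hC a)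
      (n1 p₀ p₁) (c := 0) (s := 1) (by norm_num) (vfam (fun i => X.y i w) fun i => X.s i w)
      (X.l w) (X.l_sq w hw.1 hw.2) ψ
    rw [Rfac_zero_one] at h5
    rw [hχ, h5, h1]
    have h6 : (Matrix.of fun p j : Fin 4 =>
        rhoG (A p₀) (B p₁) ((0:ℂ) ^ 2 - 1 ^ 2) (-(2 * 0 * 1))
          (vfam (fun i => X.y i w) (fun i => X.s i w) j) (A p) - I * z p *
        rhoG (A p₀) (B p₁) ((0:ℂ) ^ 2 - 1 ^ 2) (-(2 * 0 * 1))
          (vfam (fun i => X.y i w) (fun i => X.s i w) j) (B p)) =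
        Matrix.of fun p j => (if p = p₀ then (-1 : ℂ) else 1) * X.rowsW A B z' w p j := by
      have hvf : ∀ j i, vfam (fun i => X.y i w) (fun i => X.s i w) j i =
          X.y i w ^ (j : ℕ) / X.s i w := fun _ _ => rfl
      ext p j
      simp only [Matrix.of_apply, rowsW]
      by_cases hp1 : p = p₁
      · subst hp1
        rw [if_neg h01.symm, rhoG_b, rhoG_other (n2 p p₀ h01.symm) (n1 p p), hz']
        simp [hvf]
      · by_cases hp0 : p = p₀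
        · subst hp0
          rw [if_pos rfl, rhoG_a (n1 p p₁), rhoG_other (n1 p p).symm (n3 p p₁ hp1), hz']
          simp [hvf]
          ring
        · rw [if_neg hp0, rhoG_other (n2 p p₀ hp0) (n1 p p₁),
            rhoG_other (n1 p₀ p).symm (n3 p p₁ hp1), hz']
          simp [hp0, hp1, hvf]
    rw [h6, Matrix.det_mul_column, Finset.prod_ite_eq' Finset.univ p₀ fun _ => (-1 : ℂ),
      if_pos (Finset.mem_univ _)]
    ring
  have h5 : Tendsto (fun w => rt (tvar X.c (circ θs) w) * (X.rowsW A B z' w).det)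
      (𝓝[X.D] (circ θs)) (𝓝 0) := h.sq_zero hZ hA hB hinj (by
    rw [hz']
    simp [hz])
  -- the square of the quotient
  have h6 : Tendsto (fun w => ((X.l w ⬝ᵥ χ) / (X.l w ⬝ᵥ ψ)) ^ 2) (𝓝[X.D] (circ θs)) (𝓝 0) := by
    have h7 := ((h5.const_mul κ).neg).div (h3.const_mul κ) (mul_ne_zero hκ hΛ)
    rw [mul_zero, neg_zero, zero_div] at h7
    refine h7.congr' ?_
    filter_upwards [self_mem_nhdsWithin] with w hw
    have h8 : rt (tvar X.c (circ θs) w) ≠ 0 := rt_ne_zero (tvar_ne_zero X.cZ hZ hw.1)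
    rw [div_pow, h4 w hw, h2 w hw]
    have e1 : -(κ * (rt (tvar X.c (circ θs) w) * (X.rowsW A B z' w).det)) =
      rt (tvar X.c (circ θs) w) * -(κ * (X.rowsW A B z' w).det) := by ring
    have e2 : κ * (rt (tvar X.c (circ θs) w) * (X.rowsW A B z w).det) =
      rt (tvar X.c (circ θs) w) * (κ * (X.rowsW A B z w).det) := by ring
    rw [Pi.div_apply, e1, e2, mul_div_mul_left _ _ h8]
  have h7 : Tendsto (fun w => (X.l w ⬝ᵥ χ) / (X.l w ⬝ᵥ ψ)) (𝓝[X.D] (circ θs)) (𝓝 0) := by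
    rw [tendsto_zero_iff_norm_tendsto_zero] at h6 ⊢
    have h8 := (Real.continuous_sqrt.tendsto 0).comp h6
    rw [Real.sqrt_zero] at h8
    refine h8.congr fun w => ?_
    simp only [Function.comp, norm_pow]
    exact Real.sqrt_sq (norm_nonneg _)
  have h8 : ∀ᶠ w in 𝓝[X.D] (circ θs), X.l w ⬝ᵥ ψ ≠ 0 := by
    have h9 := (h3.const_mul κ).eventually_ne (mul_ne_zero hκ hΛ)
    filter_upwards [h9, self_mem_nhdsWithin] with w hw hwD h0
    have := h2 w hwD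
    rw [h0] at this
    apply hw
    rw [← mul_left_comm, ← this]
    simp
  have hcirc := X.circ_tendsto hZ
  have h9 : Tendsto (fun θ => (1 / 2 : ℂ) * (1 + τ * ((X.l (circ θ) ⬝ᵥ χ) /
      (X.l (circ θ) ⬝ᵥ ψ)))) (𝓝[≠] θs) (𝓝 ((1 / 2 : ℂ) * (1 + τ * 0))) :=
    (((h7.comp hcirc).const_mul τ).const_add 1).const_mul _
  rw [mul_zero, add_zero, mul_one] at h9
  have h10 := tendsto_ph (by norm_num) h9
  have h11 : ph (1 / 2 : ℂ) = 1 := by
    have := ph_of_pos (show (0:ℝ) < 1 / 2 by norm_num)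
    push_cast at this
    exact this
  rw [h11] at h10
  refine h10.congr' ?_
  filter_upwards [hcirc.eventually h8] with θ hθ
  rw [← ph_div, dot_half, X.lr_dot, X.lr_dot]
  congr 1
  have h12 := Complex.exp_ne_zero (4 * θ * I)
  field_simp

end

end Ctx

end Pool.Agent.Rohlin
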