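import Pool.Agent.Rohlin.EvLim

/-!
# Events: the crossing
-/

set_option autoImplicit false

namespace Pool.Agent.Rohlin

open Polynomial Complex Set Matrix Filter Topology Metric

theorem rt_tvar (c r w : ℂ) : rt (tvar c r w) = Phase.lcoord c r w ^ (((1 : ℝ) / 4 : ℝ) : ℂ) := by
  unfold rt tvar Phase.lcoord
  have h1 := Complex.neg_pi_lt_arg ((w - r) / (c - r))
  have h2 := Complex.arg_le_pi ((w - r) / (c - r))
  have h3 : (Complex.log ((w - r) / (c - r)) * (1 / 2 : ℂ)).im = Complex.arg ((w - r) / (c - r)) / 2 := by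
    rw [show (1 / 2 : ℂ) = ((1 / 2 : ℝ) : ℂ) by push_cast; ring, Complex.im_mul_ofReal,
      Complex.log_im]
    ring
  rw [← Complex.cpow_mul _ (by rw [h3]; linarith [Real.pi_pos]) (by rw [h3]; linarith [Real.pi_pos])]
  congr 1
  push_cast
  ring

theorem rt_tvar_inv (c r w : ℂ) :
    (rt (tvar c r w))⁻¹ = Phase.lcoord c r w ^ (((-1 : ℝ) / 4 : ℝ) : ℂ) := by
  rw [rt_tvar, ← Complex.cpow_neg]
  congr 1
  push_cast
  ring

/-- the matrix at an event -/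
noncomputable def matEv (e σ : Fin 8 → ℂ) (A B : Fin 4 → Fin 8) (z : Fin 4 → ℂ)
    (p₀ : Fin 4) (R : Fin 4 → ℂ) : Matrix (Fin 4) (Fin 4) ℂ := Matrix.of fun p j =>
  if p = p₀ then R j else e (A p) ^ (j : ℕ) / σ (A p) - I * z p * (e (B p) ^ (j : ℕ) / σ (B p))

/-- the colliding row at an event, type O -/
noncomputable def rowO (η₀ : ℝ) (j : Fin 4) : ℂ := (η₀ : ℂ) ^ (j : ℕ)

/-- the colliding row at an event, gap type -/
noncomputable def rowG (e : Fin 8 → ℂ) (a b : Fin 8) (η₀ : ℝ) (j : Fin 4) : ℂ :=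
  2 * (Frest e a b).eval (η₀ : ℂ) * ((j : ℕ) * (η₀ : ℂ) ^ ((j : ℕ) - 1)) -
    (derivative (Frest e a b)).eval (η₀ : ℂ) * (η₀ : ℂ) ^ (j : ℕ)

namespace Ctx

variable {n : Type} [Fintype n] [DecidableEq n] (X : Ctx n)

theorem lr_dot (θ : ℝ) (ψ : n → ℂ) : X.lr θ ⬝ᵥ ψ = exp (4 * θ * I) * (X.l (circ θ) ⬝ᵥ ψ) := by
  unfold lr
  simp only [dotProduct, Finset.mul_sum]
  exact Finset.sum_congr rfl fun i _ => by ring

/-- the phases on the two sides of an event -/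
theorem cross_lr {θs : ℝ} (hZ : circ θs ∈ X.Z) (ψ : n → ℂ) (τ : ℝ) {Λ : ℂ} (hΛ : Λ ≠ 0)
    (hlim : Tendsto (fun w => (X.l w ⬝ᵥ ψ) ^ 2 *
      Phase.lcoord X.c (circ θs) w ^ ((τ / 4 : ℝ) : ℂ)) (𝓝[X.D] (circ θs)) (𝓝 Λ)) :
    ∃ Pm Pp : ℂ, ‖Pm‖ = 1 ∧ ‖Pp‖ = 1 ∧
      Tendsto (fun θ => ph (X.lr θ ⬝ᵥ ψ)) (𝓝[<] θs) (𝓝 Pm) ∧
      Tendsto (fun θ => ph (X.lr θ ⬝ᵥ ψ)) (𝓝[>] θs) (𝓝 Pp) ∧
      Pp = Pm * exp (I * Real.pi * τ / 8) := by
  obtain ⟨ε, hε, hsub⟩ := X.exists_ball_subset hZ (norm_circ θs)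
  obtain ⟨Lm, Lp, h1, h2, h3, h4, h5⟩ := Phase.crossing X.hc θs hε (h := fun w => X.l w ⬝ᵥ ψ)
    (by
      have hl : ContinuousOn X.l X.D := X.l_cont
      have : Continuous fun v : n → ℂ => v ⬝ᵥ ψ := by
        unfold dotProduct
        fun_prop
      exact (this.comp_continuousOn hl).mono hsub) τ hΛ
    (by rw [← X.nhds_D hZ (norm_circ θs)]; exact hlim)
  have he : ∀ θ : ℝ, ‖exp (4 * θ * I)‖ = 1 := by
    intro θ
    rw [show (4 * θ * I : ℂ) = ((4 * θ : ℝ) : ℂ) * I by push_cast; ring]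
    exact Complex.norm_exp_ofReal_mul_I _
  have hph : ∀ θ : ℝ, ph (X.lr θ ⬝ᵥ ψ) =
      exp (4 * θ * I) * ((X.l (circ θ) ⬝ᵥ ψ) / (‖X.l (circ θ) ⬝ᵥ ψ‖ : ℂ)) := by
    intro θ
    rw [X.lr_dot, ph_mul, ph_of_norm_one (he θ)]
    rfl
  have hc : Continuous fun θ : ℝ => exp (4 * θ * I) := by fun_prop
  refine ⟨exp (4 * θs * I) * Lm, exp (4 * θs * I) * Lp, ?_, ?_, ?_, ?_, ?_⟩
  · rw [norm_mul, he, h1, mul_one]
  · rw [norm_mul, he, h2, mul_one]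
  · simp_rw [hph]
    exact ((hc.tendsto θs).mono_left nhdsWithin_le_nhds).mul h3
  · simp_rw [hph]
    exact ((hc.tendsto θs).mono_left nhdsWithin_le_nhds).mul h4
  · rw [h5]; ring

variable {X}

section

variable {θs : ℝ} {a b : Fin 8} {ε : ℂ} {Y H : ℂ → ℂ} {y0 s0 : Fin 8 → ℂ}
  (h : X.LocData (circ θs) a b ε Y H y0 s0) (hZ : circ θs ∈ X.Z) {η₀ : ℝ} (hd : X.Dbl θs η₀)

include h hZ hd

/-- the limit of `Om` for a pair disjoint from the colliding pair or equal to it -/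
theorem LocData.Om_lim' {i j : Fin 8} (hij : i ≠ j)
    (hc : (i ≠ a ∧ i ≠ b ∧ j ≠ a ∧ j ≠ b) ∨ (i = a ∧ j = b) ∨ (i = b ∧ j = a)) :
    ∃ L : ℂ, L ≠ 0 ∧ Tendsto (fun θ => X.Om θ i j) (𝓝[≠] θs) (𝓝 L) := by
  have hne := X.neBot_D_circ hZ
  have hε0 : ε ≠ 0 := by rcases h.hε with h1 | h1 <;> rw [h1] <;> norm_num
  have hF : (Frest (eLim θs y0) a b).eval (η₀ : ℂ) ≠ 0 := by
    intro h0
    have h1 := h.F_ne_zero hZ
    rw [h.Y_zero hZ hd, Frest_eval θs y0 h.hab, h0, mul_zero] at h1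
    exact h1 rfl
  have hL0 : -(ε * I) * (Frest (eLim θs y0) a b).eval (η₀ : ℂ) ≠ 0 :=
    mul_ne_zero (neg_ne_zero.mpr (mul_ne_zero hε0 I_ne_zero)) hF
  have hev := h.evLim hZ hd
  rcases hc with ⟨h1, h2, h3, h4⟩ | ⟨rfl, rfl⟩ | ⟨rfl, rfl⟩
  · have hs : ∀ k, k ≠ a → k ≠ b → sLim θs s0 k ≠ 0 := fun k hk1 hk2 =>
      mul_ne_zero (Complex.exp_ne_zero _) (h.s0_ne k hk1 hk2)
    have hd' : eLim θs y0 j - eLim θs y0 i ≠ 0 := by
      rw [sub_ne_zero]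
      intro h5
      rcases hev.inj i j h5.symm with h6 | h6 | h6
      · exact hij h6
      · exact h1 h6.1
      · exact h2 h6.1
    refine ⟨sLim θs s0 i * sLim θs s0 j / (eLim θs y0 j - eLim θs y0 i),
      div_ne_zero (mul_ne_zero (hs i h1 h2) (hs j h3 h4)) hd', ?_⟩
    exact ((hev.sig_lim i h1 h2).mul (hev.sig_lim j h3 h4)).div
      ((hev.eta_lim j).sub (hev.eta_lim i)) hd'
  · exact ⟨_, hL0, h.Om_lim hZ hd⟩
  · refine ⟨-(-(ε * I) * (Frest (eLim θs y0) j i).eval (η₀ : ℂ)), neg_ne_zero.mpr hL0, ?_⟩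
    have h1 := (h.Om_lim hZ hd).neg
    refine h1.congr fun θ => ?_
    exact (X.Om_swap θ j i).symm

/-- the sign of the colliding pair -/
theorem LocData.z_eq {s : Set ℝ} (hs : (𝓝[s] θs).NeBot) (hs' : 𝓝[s] θs ≤ 𝓝[≠] θs)
    {A B : Fin 4 → Fin 8} {kind : Fin 4 → Fin 3} {z : Fin 4 → ℂ}
    (hp : ∀ᶠ θ in 𝓝[s] θs, X.Pairing θ A B kind z) {p : Fin 4} (hA : A p = a) (hB : B p = b) :
    z p = -ε * (X.esg θs η₀ : ℂ) := by
  have h1 : Tendsto (fun θ => ph (X.Om θ a b)) (𝓝[s] θs)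
      (𝓝 (ph (-(ε * I) * (Frest (eLim θs y0) a b).eval (η₀ : ℂ)))) := by
    refine tendsto_ph ?_ ((h.Om_lim hZ hd).mono_left hs')
    obtain ⟨L, hL, hL'⟩ := h.Om_lim' hZ hd h.hab (Or.inr (Or.inl ⟨rfl, rfl⟩))
    have hn : (𝓝[≠] θs).NeBot := hs.mono hs'
    rw [← tendsto_nhds_unique hL' (h.Om_lim hZ hd)]
    exact hL
  have h2 : Tendsto (fun θ => ph (X.Om θ a b)) (𝓝[s] θs) (𝓝 (I * z p)) := by
    refine tendsto_const_nhds.congr' ?_
    filter_upwards [hp] with θ hθ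
    rw [hθ.I_zeta p, hA, hB]
  have h3 := tendsto_nhds_unique h2 h1
  -- the value of the phase
  have h4 := h.esg_eq hZ hd
  set F := (Frest (eLim θs y0) a b).eval (η₀ : ℂ) with hF
  set g : ℝ := (derivative (derivative (gr X.f θs))).eval η₀ with hg
  have hF2 : F = ((g / 2 : ℝ) : ℂ) := by
    push_cast
    rw [h4]
    ring
  have hF0 : g ≠ 0 := by
    intro h0
    obtain ⟨L, hL, hL'⟩ := h.Om_lim' hZ hd h.hab (Or.inr (Or.inl ⟨rfl, rfl⟩))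
    have hn : (𝓝[≠] θs).NeBot := hs.mono hs'
    have := tendsto_nhds_unique hL' (h.Om_lim hZ hd)
    apply hL
    rw [this, ← hF, hF2, h0]
    simp
  have hεn : ‖-(ε * I)‖ = 1 := by rcases h.hε with h1 | h1 <;> rw [h1] <;> simp
  have h5 : ph (-(ε * I) * F) = -(ε * I) * (X.esg θs η₀ : ℂ) := by
    rw [ph_mul, ph_of_norm_one hεn]
    congr 1
    unfold esg
    rw [← hg, hF2]
    rcases lt_or_gt_of_ne hF0 with h6 | h6
    · rw [sign_neg h6]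
      have : ((g / 2 : ℝ) : ℂ) = -((-(g / 2) : ℝ) : ℂ) := by push_cast; ring
      rw [this, ph_neg, ph_of_pos (by linarith)]
      simp
    · rw [sign_pos h6, ph_of_pos (by linarith)]
      simp
  rw [h5] at h3
  apply mul_left_cancel₀ I_ne_zero
  rw [h3]
  ring

/-- the sign of the event is `± 1` -/
theorem LocData.esg_cases : X.esg θs η₀ = 1 ∨ X.esg θs η₀ = -1 := by
  have h4 := h.esg_eq hZ hd
  have hne := X.neBot_D_circ hZ
  have hF : (Frest (eLim θs y0) a b).eval (η₀ : ℂ) ≠ 0 := by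
    intro h0
    have h1 := h.F_ne_zero hZ
    rw [h.Y_zero hZ hd, Frest_eval θs y0 h.hab, h0, mul_zero] at h1
    exact h1 rfl
  have hg : (derivative (derivative (gr X.f θs))).eval η₀ ≠ 0 := by
    intro h0
    rw [h0] at h4
    exact hF (by simpa using h4.symm)
  unfold esg
  rcases lt_or_gt_of_ne hg with h6 | h6
  · rw [sign_neg h6]; right; rfl
  · rw [sign_pos h6]; left; rfl

theorem LocData.esg_re : X.esg θs η₀ = SignType.sign
    ((Frest (eLim θs y0) a b).eval (η₀ : ℂ)).re := by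
  have h4 := congrArg Complex.re (h.esg_eq hZ hd)
  rw [ofReal_re] at h4
  unfold esg
  rw [h4, show (2 * (Frest (eLim θs y0) a b).eval (η₀ : ℂ)).re =
    2 * ((Frest (eLim θs y0) a b).eval (η₀ : ℂ)).re by simp]
  congr 1
  rw [sign_mul, sign_pos (by norm_num : (0:ℝ) < 2), one_mul]

/-- **the crossing** for a matching state which contains the colliding pair -/
theorem LocData.cross {A B : Fin 4 → Fin 8} {z : Fin 4 → ℂ} {p₀ : Fin 4} {ψ : n → ℂ}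
    (hA : A p₀ = a) (hB : B p₀ = b) (hinj : Function.Injective (Sum.elim A B))
    (hz1 : ∀ p, z p = 1 ∨ z p = -1) (hψ : X.proj A B z = vecMulVec ψ (star ψ))
    (hz : z p₀ = -ε * (X.esg θs η₀ : ℂ))
    (hO : X.esg θs η₀ = 1 →
      (matEv (eLim θs y0) (sLim θs s0) A B z p₀ (rowO η₀)).det ≠ 0)
    (hG : X.esg θs η₀ = -1 →
      (matEv (eLim θs y0) (sLim θs s0) A B z p₀ (rowG (eLim θs y0) a b η₀)).det ≠ 0) :
    ∃ Pm Pp : ℂ, ‖Pm‖ = 1 ∧ ‖Pp‖ = 1 ∧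
      Tendsto (fun θ => ph (X.lr θ ⬝ᵥ ψ)) (𝓝[<] θs) (𝓝 Pm) ∧
      Tendsto (fun θ => ph (X.lr θ ⬝ᵥ ψ)) (𝓝[>] θs) (𝓝 Pp) ∧
      Pp = Pm * exp (I * Real.pi * X.esg θs η₀ / 8) := by
  obtain ⟨κ, hκ, -, h1, -⟩ := X.exists_kappa_sq hinj hz1 hψ
  rcases h.esg_cases hZ hd with he | he
  · obtain ⟨Λ, hΛ, h2⟩ := h.sq_O hZ hd hA hB hinj (by rw [hz, he]; simp) (hO he)
    obtain ⟨Pm, Pp, h3, h4, h5, h6, h7⟩ := X.cross_lr hZ ψ 1 (mul_ne_zero hκ hΛ) (by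
      refine (h2.const_mul κ).congr' ?_
      filter_upwards [self_mem_nhdsWithin] with w hw
      rw [h1 w hw, rt_tvar]
      ring)
    refine ⟨Pm, Pp, h3, h4, h5, h6, ?_⟩
    rw [h7, he]
    norm_num
  · obtain ⟨Λ, hΛ, h2⟩ := h.sq_gap hZ hd hA hB hinj (by rw [hz, he]; simp) (hG he)
    obtain ⟨Pm, Pp, h3, h4, h5, h6, h7⟩ := X.cross_lr hZ ψ (-1) (mul_ne_zero hκ hΛ) (by
      refine (h2.const_mul κ).congr' ?_
      filter_upwards [self_mem_nhdsWithin] with w hw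
      rw [h1 w hw, rt_tvar_inv]
      ring)
    refine ⟨Pm, Pp, h3, h4, h5, h6, ?_⟩
    rw [h7, he]
    norm_num

end

end Ctx

end Pool.Agent.Rohlin
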