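import Pool.Agent.Rohlin.EvZeta
import Pool.Agent.Rohlin.Steps

/-!
# Events: the limit data
-/

set_option autoImplicit false

namespace Pool.Agent.Rohlin

open Polynomial Complex Set Matrix Filter Topology

/-- the product over the labels which do not collide -/
noncomputable def Frest (e : Fin 8 → ℂ) (a b : Fin 8) : ℂ[X] :=
  ∏ i ∈ Finset.univ.filter (fun i => i ≠ a ∧ i ≠ b), (X - C (e i))

namespace Ctx

variable {n : Type} [Fintype n] [DecidableEq n] (X : Ctx n)

/-- the limit data at an event: the labels `a`, `b` collide at the angle `θs`, the other labels have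
distinct limits -/
structure EvLim (θs : ℝ) (a b : Fin 8) (e σ : Fin 8 → ℂ) (η₀ : ℝ) : Prop where
  reg : ∀ᶠ θ in 𝓝[≠] θs, X.Reg θ
  ne : a ≠ b
  eta_lim : ∀ i, Tendsto (fun θ => X.eta θ i) (𝓝[≠] θs) (𝓝 (e i))
  sig_lim : ∀ i, i ≠ a → i ≠ b → Tendsto (fun θ => X.sig θ i) (𝓝[≠] θs) (𝓝 (σ i))
  ea : e a = η₀
  eb : e b = η₀
  inj : ∀ i j, e i = e j → i = j ∨ (i = a ∧ j = b) ∨ (i = b ∧ j = a)

/-- the virtual sign of two labels: `I * vz = ph Om` -/
noncomputable def vz (θ : ℝ) (i j : Fin 8) : ℂ := -I * ph (X.Om θ i j)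

end Ctx

/-- the rows of the matrix along the arc of the recoupling: `p₁` carries the labels `a₁, a₂`, `p₀`
the labels `a₃, a₄` -/
noncomputable def arcRows (v : Fin 4 → Fin 8 → ℂ) (A B : Fin 4 → Fin 8) (z : Fin 4 → ℂ)
    (p₁ p₀ : Fin 4) (z14 z23 τ c S : ℂ) : Matrix (Fin 4) (Fin 4) ℂ := fun p j =>
  if p = p₁ then v j (A p₁) - I * z14 * (S * v j (B p₀) + τ * c * v j (B p₁))
  else if p = p₀ then (S * v j (B p₁) - τ * c * v j (B p₀)) - I * z23 * v j (A p₀)
  else v j (A p) - I * z p * v j (B p)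

end Pool.Agent.Rohlin
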