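import Pool.Agent.Rohlin.Setup

/-!
# Topology of the real projective plane and the coordinates `pt`
-/

set_option autoImplicit false

namespace Pool.Agent.Rohlin

open Set Topology

/-! ### Hausdorff and compact -/

theorem continuous_mkRP2 :
    Continuous (fun v : {v : Fin 3 → ℝ // v ≠ 0} => (Projectivization.mk ℝ v.1 v.2 : RP2)) :=
  continuous_quotient_mk'

/-- the projector onto the line -/
noncomputable def projMat (v : Fin 3 → ℝ) : Fin 3 → Fin 3 → ℝ := fun i j =>
  v i * v j / ∑ k, v k ^ 2

theorem sumsq_pos {v : Fin 3 → ℝ} (hv : v ≠ 0) : 0 < ∑ k, v k ^ 2 := by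
  obtain ⟨i, hi⟩ : ∃ i, v i ≠ 0 := by
    by_contra h
    push Not at h
    exact hv (funext h)
  exact lt_of_lt_of_le (by positivity)
    (Finset.single_le_sum (f := fun k => v k ^ 2) (fun k _ => sq_nonneg _) (Finset.mem_univ i))

theorem projMat_smul (v : Fin 3 → ℝ) (t : ℝ) (ht : t ≠ 0) : projMat (t • v) = projMat v := by
  funext i j
  unfold projMat
  have h1 : ∑ k, (t • v) k ^ 2 = t ^ 2 * ∑ k, v k ^ 2 := by
    rw [Finset.mul_sum]
    exact Finset.sum_congr rfl fun k _ => by rw [Pi.smul_apply, smul_eq_mul]; ring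
  rw [h1, Pi.smul_apply, Pi.smul_apply, smul_eq_mul, smul_eq_mul]
  rw [show t * v i * (t * v j) = t ^ 2 * (v i * v j) by ring]
  exact mul_div_mul_left _ _ (pow_ne_zero 2 ht)

/-- the embedding of the real projective plane into the space of matrices -/
noncomputable def projEmb : RP2 → Fin 3 → Fin 3 → ℝ :=
  Projectivization.lift (fun v => projMat v.1) (by
    rintro ⟨v, hv⟩ ⟨w, hw⟩ t h
    simp only at h
    subst h
    refine projMat_smul w t fun ht => hv ?_
    rw [ht, zero_smul])

theorem projEmb_mk (v : Fin 3 → ℝ) (hv : v ≠ 0) :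
    projEmb (Projectivization.mk ℝ v hv) = projMat v := rfl

theorem continuous_projEmb : Continuous projEmb := by
  have hc : Continuous (fun v : {v : Fin 3 → ℝ // v ≠ 0} => projMat v.1) := by
    refine continuous_pi fun i => continuous_pi fun j => ?_
    unfold projMat
    have hk : ∀ k : Fin 3, Continuous fun v : {v : Fin 3 → ℝ // v ≠ 0} => v.1 k := fun k =>
      (continuous_apply k).comp continuous_subtype_val
    exact Continuous.div ((hk i).mul (hk j)) (continuous_finsetSum _ fun k _ => (hk k).pow 2)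
      fun v => (sumsq_pos v.2).ne'
  exact continuous_quot_lift _ hc

theorem projEmb_injective : Function.Injective projEmb := by
  intro p q
  induction p using Projectivization.ind with
  | h v hv =>
    induction q using Projectivization.ind with
    | h w hw =>
      intro h
      rw [projEmb_mk, projEmb_mk] at h
      obtain ⟨i, hi⟩ : ∃ i, v i ≠ 0 := by
        by_contra hcon
        push Not at hcon
        exact hv (funext hcon)
      have hV := sumsq_pos hv
      have hW := sumsq_pos hw
      have hent : ∀ j, v i * v j / ∑ k, v k ^ 2 = w i * w j / ∑ k, w k ^ 2 := fun j =>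
        congrFun (congrFun h i) j
      rw [Projectivization.mk_eq_mk_iff']
      refine ⟨(∑ k, v k ^ 2) / v i * (w i / ∑ k, w k ^ 2), ?_⟩
      funext j
      rw [Pi.smul_apply, smul_eq_mul]
      have h1 := hent j
      field_simp at h1 ⊢
      linarith

instance : T2Space RP2 := T2Space.of_injective_continuous projEmb_injective continuous_projEmb

instance : CompactSpace RP2 := by
  have hcomp : CompactSpace (Metric.sphere (0 : Fin 3 → ℝ) 1) :=
    isCompact_iff_compactSpace.1 (isCompact_sphere _ _)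
  let F : Metric.sphere (0 : Fin 3 → ℝ) 1 → RP2 := fun v =>
    Projectivization.mk ℝ v.1 (fun h => by
      have := v.2
      rw [mem_sphere_zero_iff_norm, h, norm_zero] at this
      exact zero_ne_one this)
  have hF : Continuous F := by
    have : Continuous (fun v : Metric.sphere (0 : Fin 3 → ℝ) 1 =>
        (⟨v.1, fun h => by
          have := v.2
          rw [mem_sphere_zero_iff_norm, h, norm_zero] at this
          exact zero_ne_one this⟩ : {v : Fin 3 → ℝ // v ≠ 0})) :=
      Continuous.subtype_mk continuous_subtype_val _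
    exact continuous_mkRP2.comp this
  have hsurj : Function.Surjective F := by
    intro p
    induction p using Projectivization.ind with
    | h v hv =>
      have hn : ‖v‖ ≠ 0 := norm_ne_zero_iff.2 hv
      refine ⟨⟨‖v‖⁻¹ • v, ?_⟩, ?_⟩
      · rw [mem_sphere_zero_iff_norm, norm_smul, norm_inv, norm_norm, inv_mul_cancel₀ hn]
      · exact (Projectivization.mk_eq_mk_iff' ℝ _ _ _ _).2 ⟨‖v‖⁻¹, rfl⟩
  exact ⟨by rw [← hsurj.range_eq]; exact isCompact_range hF⟩

/-! ### the coordinates -/

theorem vec_ne (θ η : ℝ) : (![Real.cos θ, Real.sin θ, η] : Fin 3 → ℝ) ≠ 0 := by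
  intro h
  have h0 : Real.cos θ = 0 := by simpa using congrFun h 0
  have h1 : Real.sin θ = 0 := by simpa using congrFun h 1
  have := Real.sin_sq_add_cos_sq θ
  rw [h0, h1] at this
  norm_num at this

theorem continuous_pt : Continuous (fun p : ℝ × ℝ => pt p.1 p.2) := by
  have h : Continuous (fun p : ℝ × ℝ =>
      (⟨![Real.cos p.1, Real.sin p.1, p.2], vec_ne p.1 p.2⟩ : {v : Fin 3 → ℝ // v ≠ 0})) := by
    refine Continuous.subtype_mk ?_ _
    refine continuous_pi fun i => ?_
    fin_cases i
    · exact Real.continuous_cos.comp continuous_fst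
    · exact Real.continuous_sin.comp continuous_fst
    · exact continuous_snd
  exact continuous_mkRP2.comp h

theorem pt_add_pi (θ η : ℝ) : pt (θ + Real.pi) (-η) = pt θ η := by
  refine (Projectivization.mk_eq_mk_iff' ℝ _ _ _ _).2 ⟨-1, ?_⟩
  funext i
  fin_cases i
  · simp [Real.cos_add_pi]
  · simp [Real.sin_add_pi]
  · simp

theorem pt_add_int_mul_pi (θ η : ℝ) (n : ℤ) :
    pt (θ + n * Real.pi) ((n.negOnePow : ℤ) * η) = pt θ η := by
  induction n using Int.induction_on with
  | zero => simp
  | succ n ih =>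
    rw [← ih, ← pt_add_pi (θ + (n : ℤ) * Real.pi)]
    congr 1
    · push_cast; ring
    · rw [Int.negOnePow_succ]; push_cast; ring
  | pred n ih =>
    rw [← ih, ← pt_add_pi (θ + ((-n - 1 : ℤ) : ℝ) * Real.pi)]
    congr 1
    · push_cast; ring
    · have : Int.negOnePow (-(n : ℤ)) = -Int.negOnePow (-(n : ℤ) - 1) := by
        rw [← Int.negOnePow_succ]; congr 1; ring
      rw [this]; push_cast; ring

theorem pt_eq_iff (θ η θ' η' : ℝ) :
    pt θ η = pt θ' η' ↔ ∃ n : ℤ, θ' = θ + n * Real.pi ∧ η' = (n.negOnePow : ℤ) * η := by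
  constructor
  · intro h
    obtain ⟨a, ha⟩ := (Projectivization.mk_eq_mk_iff' ℝ _ _ _ _).1 h
    -- `a • (cos θ', sin θ', η') = (cos θ, sin θ, η)`
    have h0 : a * Real.cos θ' = Real.cos θ := by simpa using congrFun ha 0
    have h1 : a * Real.sin θ' = Real.sin θ := by simpa using congrFun ha 1
    have h2 : a * η' = η := by simpa using congrFun ha 2
    have ha2 : a ^ 2 = 1 := by
      have e1 := Real.sin_sq_add_cos_sq θ
      have e2 := Real.sin_sq_add_cos_sq θ'
      rw [← h0, ← h1] at e1
      nlinarith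
    have hsin : Real.sin (θ' - θ) = 0 := by
      rw [Real.sin_sub, ← h0, ← h1]; ring
    obtain ⟨n, hn⟩ := Real.sin_eq_zero_iff.1 hsin
    have hθ : θ' = θ + n * Real.pi := by linarith
    refine ⟨n, hθ, ?_⟩
    have hcos : Real.cos θ' = (n.negOnePow : ℤ) * Real.cos θ := by
      rw [hθ, Real.cos_add_int_mul_pi, Int.cast_negOnePow]
    have hsin' : Real.sin θ' = (n.negOnePow : ℤ) * Real.sin θ := by
      rw [hθ, Real.sin_add_int_mul_pi, Int.cast_negOnePow]
    have hu2 : ((n.negOnePow : ℤ) : ℝ) ^ 2 = 1 := by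
      rcases Int.units_eq_one_or n.negOnePow with h | h <;> rw [h] <;> simp
    have hau : a = ((n.negOnePow : ℤ) : ℝ) := by
      rw [hcos] at h0
      rw [hsin'] at h1
      have e1 := Real.sin_sq_add_cos_sq θ
      have e3 : a * ((n.negOnePow : ℤ) : ℝ) = 1 := by
        linear_combination Real.cos θ * h0 + Real.sin θ * h1 -
          (a * ((n.negOnePow : ℤ) : ℝ) - 1) * e1
      have : a * ((n.negOnePow : ℤ) : ℝ) * ((n.negOnePow : ℤ) : ℝ) = ((n.negOnePow : ℤ) : ℝ) := by
        rw [e3, one_mul]
      rw [mul_assoc, ← pow_two, hu2, mul_one] at this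
      exact this
    rw [← h2, hau, ← mul_assoc, ← pow_two, hu2, one_mul]
  · rintro ⟨n, rfl, rfl⟩
    exact (pt_add_int_mul_pi θ η n).symm

theorem range_pt : range (fun p : ℝ × ℝ => pt p.1 p.2) = {centre}ᶜ := by
  ext p
  constructor
  · rintro ⟨⟨θ, η⟩, rfl⟩ h
    obtain ⟨a, ha⟩ := (Projectivization.mk_eq_mk_iff' ℝ _ _ _ _).1 h
    have h0 : Real.cos θ = 0 := by simpa using (congrFun ha 0).symm
    have h1 : Real.sin θ = 0 := by simpa using (congrFun ha 1).symm
    have := Real.sin_sq_add_cos_sq θ
    rw [h0, h1] at this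
    norm_num at this
  · induction p using Projectivization.ind with
    | h v hv =>
      intro hp
      have hne : v 0 ≠ 0 ∨ v 1 ≠ 0 := by
        by_contra hcon
        push Not at hcon
        apply hp
        have h2 : v 2 ≠ 0 := by
          intro h2
          apply hv
          funext i
          fin_cases i
          · exact hcon.1
          · exact hcon.2
          · exact h2
        refine (Projectivization.mk_eq_mk_iff' ℝ _ _ _ _).2 ⟨v 2, ?_⟩
        funext i
        fin_cases i
        · simp [hcon.1]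
        · simp [hcon.2]
        · simp
      -- polar coordinates
      let z : ℂ := ⟨v 0, v 1⟩
      have hz : z ≠ 0 := by
        intro h
        rcases hne with h' | h'
        · exact h' (congrArg Complex.re h)
        · exact h' (congrArg Complex.im h)
      have hr : ‖z‖ ≠ 0 := norm_ne_zero_iff.2 hz
      refine ⟨(Complex.arg z, v 2 / ‖z‖), ?_⟩
      refine (Projectivization.mk_eq_mk_iff' ℝ _ _ _ _).2 ⟨‖z‖⁻¹, ?_⟩
      funext i
      fin_cases i
      · change ‖z‖⁻¹ * v 0 = Real.cos (Complex.arg z)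
        rw [Complex.cos_arg hz]
        change ‖z‖⁻¹ * v 0 = v 0 / ‖z‖
        ring
      · change ‖z‖⁻¹ * v 1 = Real.sin (Complex.arg z)
        rw [Complex.sin_arg]
        change ‖z‖⁻¹ * v 1 = v 1 / ‖z‖
        ring
      · change ‖z‖⁻¹ * v 2 = v 2 / ‖z‖
        ring

theorem exists_pt_eq {p : RP2} (hp : p ≠ centre) : ∃ θ η : ℝ, pt θ η = p := by
  have : p ∈ range (fun p : ℝ × ℝ => pt p.1 p.2) := by rw [range_pt]; exact hp
  obtain ⟨⟨θ, η⟩, h⟩ := this
  exact ⟨θ, η, h⟩

/-! ### the polynomial in coordinates -/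

theorem gr_eval (f : MvPolynomial (Fin 3) ℝ) (θ η : ℝ) :
    (gr f θ).eval η = MvPolynomial.eval ![Real.cos θ, Real.sin θ, η] f := by
  have key : (Polynomial.evalRingHom η).comp ((MvPolynomial.aeval ![Polynomial.C (Real.cos θ),
      Polynomial.C (Real.sin θ), (Polynomial.X : Polynomial ℝ)]).toRingHom) =
      (MvPolynomial.eval ![Real.cos θ, Real.sin θ, η] : MvPolynomial (Fin 3) ℝ →+* ℝ) := by
    apply MvPolynomial.ringHom_ext
    · intro r; simp
    · intro i; fin_cases i <;> simp
  exact DFunLike.congr_fun key f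

theorem eval_smul_of_homogeneous {m : ℕ} {F : MvPolynomial (Fin 3) ℝ} (hF : F.IsHomogeneous m)
    (a : ℝ) (v : Fin 3 → ℝ) : MvPolynomial.eval (a • v) F = a ^ m * MvPolynomial.eval v F := by
  rw [MvPolynomial.eval_eq', MvPolynomial.eval_eq', Finset.mul_sum]
  refine Finset.sum_congr rfl fun d hd => ?_
  have hdeg : ∑ i, d i = m := by
    have := hF (MvPolynomial.mem_support_iff.1 hd)
    rw [← this, Finsupp.weight_apply, Finsupp.sum_fintype _ _ (by simp)]
    simp
  have : ∏ i, (a • v) i ^ d i = a ^ m * ∏ i, v i ^ d i := by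
    rw [← hdeg, ← Finset.prod_pow_eq_pow_sum, ← Finset.prod_mul_distrib]
    exact Finset.prod_congr rfl fun i _ => by rw [Pi.smul_apply, smul_eq_mul, mul_pow]
  rw [this]
  ring

theorem eval_rep_eq_zero_iff {m : ℕ} {F : MvPolynomial (Fin 3) ℝ} (hF : F.IsHomogeneous m)
    (v : Fin 3 → ℝ) (hv : v ≠ 0) :
    MvPolynomial.eval (Projectivization.mk ℝ v hv).rep F = 0 ↔ MvPolynomial.eval v F = 0 := by
  obtain ⟨a, ha⟩ := Projectivization.exists_smul_eq_mk_rep ℝ v hv
  rw [← ha, Units.smul_def, eval_smul_of_homogeneous hF]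
  constructor
  · intro h
    exact (mul_eq_zero.1 h).resolve_left (pow_ne_zero _ a.ne_zero)
  · intro h
    rw [h, mul_zero]

theorem eval_pt_rep_eq_zero_iff {m : ℕ} {F : MvPolynomial (Fin 3) ℝ} (hF : F.IsHomogeneous m)
    (θ η : ℝ) : MvPolynomial.eval (pt θ η).rep F = 0 ↔ (gr F θ).eval η = 0 := by
  rw [gr_eval]
  exact eval_rep_eq_zero_iff hF _ _

theorem continuous_gr_eval (f : MvPolynomial (Fin 3) ℝ) :
    Continuous (fun p : ℝ × ℝ => (gr f p.1).eval p.2) := by
  have h : (fun p : ℝ × ℝ => (gr f p.1).eval p.2) =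
      fun p : ℝ × ℝ => MvPolynomial.eval ![Real.cos p.1, Real.sin p.1, p.2] f := by
    funext p; exact gr_eval f p.1 p.2
  rw [h]
  refine (MvPolynomial.continuous_eval f).comp (continuous_pi fun i => ?_)
  fin_cases i
  · exact Real.continuous_cos.comp continuous_fst
  · exact Real.continuous_sin.comp continuous_fst
  · exact continuous_snd

end Pool.Agent.Rohlin
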