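import Mathlib

/-!
# Sums of residues of `g² / f` times a Herglotz function
-/

namespace Pool.Agent.Rohlin

open Polynomial Finset Lagrange

section general

variable {ι : Type*} [Fintype ι] [DecidableEq ι] (v : ι → ℂ)

/-- the sum of the residues of `H / f` -/
theorem sum_weight (hv : Function.Injective v) (H : ℂ[X]) (hH : H.degree < Fintype.card ι) :
    ∑ i, H.eval (v i) * nodalWeight univ v i = H.coeff (Fintype.card ι - 1) := by
  have h := coeff_eq_sum (s := univ) (v := v) (hv.injOn) (P := H) (by simpa using hH)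
  rw [card_univ] at h
  rw [h]
  refine sum_congr rfl fun i _ => ?_
  rw [nodalWeight, prod_inv_distrib, div_eq_mul_inv]

/-- partial fractions of `H / f` outside of the nodes -/
theorem sum_weight_inv (hv : Function.Injective v) (H : ℂ[X]) (hH : H.degree < Fintype.card ι) (z : ℂ)
    (hz : ∀ i, z ≠ v i) :
    (nodal univ v).eval z * ∑ i, H.eval (v i) * nodalWeight univ v i * (z - v i)⁻¹ = H.eval z := by
  have h1 := eq_interpolate (s := univ) (v := v) hv.injOn (f := H) (by simpa using hH)
  have h2 := eval_interpolate_not_at_node (s := univ) (v := v) (fun i => H.eval (v i)) (x := z)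
    (fun i _ => hz i)
  rw [← h1] at h2
  rw [h2]
  congr 1
  refine sum_congr rfl fun i _ => ?_
  ring

/-- partial fractions of `H / f` at a node where `H` vanishes -/
theorem sum_weight_inv_node (hv : Function.Injective v) (H : ℂ[X]) (hH : H.degree < Fintype.card ι)
    (i₀ : ι) (h0 : H.eval (v i₀) = 0) :
    ∑ i, H.eval (v i) * nodalWeight univ v i * (v i₀ - v i)⁻¹ =
      H.derivative.eval (v i₀) * nodalWeight univ v i₀ := by
  obtain ⟨Q, hQ⟩ := dvd_iff_isRoot.2 h0
  have hcard : 0 < Fintype.card ι := Fintype.card_pos_iff.2 ⟨i₀⟩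
  have hd : Q.degree < (Fintype.card ι : WithBot ℕ) ∧ Q.coeff (Fintype.card ι - 1) = 0 := by
    by_cases hQ0 : Q = 0
    · rw [hQ0]
      exact ⟨by rw [degree_zero]; exact WithBot.bot_lt_coe _, coeff_zero _⟩
    · have h1 : H.natDegree = Q.natDegree + 1 := by
        rw [hQ, natDegree_mul (X_sub_C_ne_zero _) hQ0, natDegree_X_sub_C, add_comm]
      have hH0 : H ≠ 0 := by
        rw [hQ]
        exact mul_ne_zero (X_sub_C_ne_zero _) hQ0
      have h2 : H.natDegree < Fintype.card ι := by
        rwa [degree_eq_natDegree hH0, Nat.cast_lt] at hH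
      constructor
      · rw [degree_eq_natDegree hQ0, Nat.cast_lt]
        omega
      · exact coeff_eq_zero_of_natDegree_lt (by omega)
  have h1 := sum_weight v hv Q hd.1
  rw [hd.2, ← add_sum_erase univ _ (mem_univ i₀)] at h1
  have h2 : H.derivative.eval (v i₀) = Q.eval (v i₀) := by
    rw [hQ, derivative_mul]
    simp
  rw [h2, ← add_sum_erase univ _ (mem_univ i₀), sub_self, inv_zero, mul_zero, zero_add]
  have h3 : ∑ i ∈ univ.erase i₀, H.eval (v i) * nodalWeight univ v i * (v i₀ - v i)⁻¹ =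
      -∑ i ∈ univ.erase i₀, Q.eval (v i) * nodalWeight univ v i := by
    rw [← sum_neg_distrib]
    refine sum_congr rfl fun i hi => ?_
    have hne : v i₀ - v i ≠ 0 := sub_ne_zero.2 fun h => (mem_erase.1 hi).1 (hv h).symm
    rw [hQ, eval_mul, eval_sub, eval_X, eval_C]
    field_simp
    ring
  rw [h3]
  linear_combination (-1 : ℂ) * h1

/-- the sum `∑ H(y_i) / (f'(y_i) (z - y_i))` for an admissible `z` -/
theorem sum_sq_inv (hv : Function.Injective v) (g : ℂ[X]) (hg : (g * g).degree < Fintype.card ι)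
    (z : ℂ) (hz : g.eval z = 0) :
    ∑ i, (g * g).eval (v i) * nodalWeight univ v i * (z - v i)⁻¹ = 0 := by
  by_cases h : ∃ i, z = v i
  · obtain ⟨i, rfl⟩ := h
    rw [sum_weight_inv_node v hv _ hg i (by rw [eval_mul, hz, zero_mul]), derivative_mul, eval_add,
      eval_mul, eval_mul, hz]
    simp
  · push Not at h
    have h1 := sum_weight_inv v hv _ hg z h
    rw [eval_mul, hz, zero_mul] at h1
    refine (mul_eq_zero.1 h1).resolve_left ?_
    rw [eval_nodal]
    exact prod_ne_zero_iff.2 fun i _ => sub_ne_zero.2 (h i)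

end general

/-- `g² / f` is admissible: the sums which occur in the argument are nonnegative -/
structure Adm {ι : Type*} [Fintype ι] (v w : ι → ℂ) (g : ℝ[X]) : Prop where
  zero : 0 ≤ (∑ i, (aeval (v i) g) ^ 2 * w i * v i).re
  inv : ∀ z : ℝ, g.eval z = 0 → 0 ≤ (∑ i, (aeval (v i) g) ^ 2 * w i * ((z : ℂ) - v i)⁻¹).re

theorem aeval_eq_eval_map (g : ℝ[X]) (z : ℂ) : aeval z g = (g.map (algebraMap ℝ ℂ)).eval z := by
  rw [aeval_def, eval_map]

theorem aeval_ofReal (g : ℝ[X]) (z : ℝ) : aeval (z : ℂ) g = ((g.eval z : ℝ) : ℂ) := by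
  have := aeval_algebraMap_apply ℂ z g
  simpa using this

theorem degree_sq_lt {k : ℕ} (g : ℂ[X]) (hg : g.degree < k) : (g * g).degree < ((2 * k - 1 : ℕ) : WithBot ℕ) := by
  by_cases h0 : g = 0
  · rw [h0, zero_mul, degree_zero]
    exact WithBot.bot_lt_coe _
  · have h1 : g.natDegree < k := by
      rwa [degree_eq_natDegree h0, Nat.cast_lt] at hg
    rw [degree_eq_natDegree (mul_ne_zero h0 h0), Nat.cast_lt, natDegree_mul h0 h0]
    omega

theorem coeff_sq {R : Type*} [CommRing R] {k : ℕ} (hk : 0 < k) (g : R[X]) (hg : g.degree < k) :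
    (X * (g * g)).coeff (2 * k - 1) = g.coeff (k - 1) ^ 2 := by
  have h1 : 2 * k - 1 = (2 * k - 2) + 1 := by omega
  rw [h1, coeff_X_mul]
  have h2 : 2 * k - 2 = (k - 1) + (k - 1) := by omega
  have h3 : g.natDegree ≤ k - 1 := by
    by_cases h0 : g = 0
    · rw [h0, natDegree_zero]; exact Nat.zero_le _
    · have : g.natDegree < k := by
        rw [← Nat.cast_lt (α := WithBot ℕ), ← degree_eq_natDegree h0]
        exact hg
      omega
  rw [h2, coeff_mul_add_eq_of_natDegree_le h3 h3, sq]

section adm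

variable {ι : Type*} [Fintype ι] [DecidableEq ι] (v : ι → ℂ)

theorem adm_simple (hv : Function.Injective v) {k : ℕ} (hk : Fintype.card ι = 2 * k) (g : ℝ[X])
    (hg : g.degree < k) : Adm v (nodalWeight univ v) g := by
  set G := g.map (algebraMap ℝ ℂ) with hG
  have hGd : G.degree < k := lt_of_le_of_lt degree_map_le hg
  have hGG := degree_sq_lt G hGd
  have hev : ∀ i, (aeval (v i) g) ^ 2 = (G * G).eval (v i) := by
    intro i
    rw [aeval_eq_eval_map, eval_mul, sq]
  constructor
  · rcases Nat.eq_zero_or_pos k with rfl | hk0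
    · have : IsEmpty ι := Fintype.card_eq_zero_iff.1 (by simpa using hk)
      simp
    · have h1 : ∑ i, (aeval (v i) g) ^ 2 * nodalWeight univ v i * v i =
          ∑ i, (X * (G * G)).eval (v i) * nodalWeight univ v i := by
        refine sum_congr rfl fun i _ => ?_
        rw [hev, eval_mul (p := X), eval_X]
        ring
      have h2 : (X * (G * G)).degree < (Fintype.card ι : WithBot ℕ) := by
        rw [hk]
        by_cases h0 : G = 0
        · rw [h0, mul_zero, mul_zero, degree_zero]
          exact WithBot.bot_lt_coe _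
        · have h3 : G.natDegree < k := by
            rwa [degree_eq_natDegree h0, Nat.cast_lt] at hGd
          have h4 : G * G ≠ 0 := mul_ne_zero h0 h0
          rw [degree_eq_natDegree (mul_ne_zero X_ne_zero h4), Nat.cast_lt,
            natDegree_mul X_ne_zero h4, natDegree_mul h0 h0, natDegree_X]
          omega
      rw [h1, sum_weight v hv _ h2, hk, coeff_sq hk0 G hGd, hG, coeff_map]
      have h5 : ((algebraMap ℝ ℂ) (g.coeff (k - 1)) ^ 2).re = g.coeff (k - 1) ^ 2 := by
        rw [← map_pow]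
        exact Complex.ofReal_re _
      rw [h5]
      exact sq_nonneg _
  · intro z hz
    have h1 : G.eval (z : ℂ) = 0 := by
      rw [← aeval_eq_eval_map, aeval_ofReal, hz, Complex.ofReal_zero]
    have h2 := sum_sq_inv v hv G (lt_of_lt_of_le hGG (by
      rw [hk]
      exact_mod_cast Nat.sub_le _ _)) z h1
    have h3 : ∑ i, (aeval (v i) g) ^ 2 * nodalWeight univ v i * ((z : ℂ) - v i)⁻¹ = 0 := by
      rw [← h2]
      exact sum_congr rfl fun i _ => by rw [hev]
    rw [h3, Complex.zero_re]

/-- double root `y₀` of `f = (X - y₀)² F`, case `g(y₀) = 0` -/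
theorem adm_zero (hv : Function.Injective v) {k : ℕ} (hk : Fintype.card ι = 2 * k) (y₀ : ℝ)
    (hy₀ : ∀ i, (y₀ : ℂ) ≠ v i) (g : ℝ[X]) (hg : g.degree < ((k + 1 : ℕ) : WithBot ℕ))
    (hg0 : g.eval y₀ = 0) (c : ℝ) (hc : (nodal univ v).eval (y₀ : ℂ) = c)
    (hcg : 0 < c ∨ g.derivative.eval y₀ = 0) :
    Adm v (fun i => nodalWeight univ v i * ((v i - y₀) ^ 2)⁻¹) g := by
  obtain ⟨g₁, hg₁⟩ := dvd_iff_isRoot.2 hg0
  have hd : g₁.degree < k := by
    by_cases h0 : g₁ = 0
    · rw [h0, degree_zero]
      exact WithBot.bot_lt_coe _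
    · have h1 : g.natDegree = 1 + g₁.natDegree := by
        rw [hg₁, natDegree_mul (X_sub_C_ne_zero _) h0, natDegree_X_sub_C]
      have h2 : g ≠ 0 := by
        rw [hg₁]
        exact mul_ne_zero (X_sub_C_ne_zero _) h0
      rw [degree_eq_natDegree h2, Nat.cast_lt] at hg
      rw [degree_eq_natDegree h0, Nat.cast_lt]
      omega
  have hA := adm_simple v hv hk g₁ hd
  have hev : ∀ i, (aeval (v i) g) ^ 2 * (nodalWeight univ v i * ((v i - y₀) ^ 2)⁻¹) =
      (aeval (v i) g₁) ^ 2 * nodalWeight univ v i := by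
    intro i
    have h1 : v i - y₀ ≠ 0 := sub_ne_zero.2 (hy₀ i).symm
    have h2 : aeval (v i) g = (v i - y₀) * aeval (v i) g₁ := by
      rw [hg₁, map_mul, map_sub, aeval_X, aeval_C]
      rfl
    rw [h2]
    field_simp
  constructor
  · have h1 : ∑ i, (aeval (v i) g) ^ 2 * (nodalWeight univ v i * ((v i - y₀) ^ 2)⁻¹) * v i =
        ∑ i, (aeval (v i) g₁) ^ 2 * nodalWeight univ v i * v i :=
      sum_congr rfl fun i _ => by rw [hev]
    rw [h1]
    exact hA.zero
  · intro z hz
    have h1 : ∑ i, (aeval (v i) g) ^ 2 * (nodalWeight univ v i * ((v i - y₀) ^ 2)⁻¹) *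
        ((z : ℂ) - v i)⁻¹ = ∑ i, (aeval (v i) g₁) ^ 2 * nodalWeight univ v i * ((z : ℂ) - v i)⁻¹ :=
      sum_congr rfl fun i _ => by rw [hev]
    rw [h1]
    by_cases hz1 : g₁.eval z = 0
    · exact hA.inv z hz1
    · have hzy : z = y₀ := by
        rw [hg₁, eval_mul, eval_sub, eval_X, eval_C] at hz
        exact sub_eq_zero.1 ((mul_eq_zero.1 hz).resolve_right hz1)
      subst hzy
      have hcpos : 0 < c := by
        refine hcg.resolve_right fun h => hz1 ?_
        rw [hg₁, derivative_mul] at h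
        simpa using h
      set G₁ := g₁.map (algebraMap ℝ ℂ) with hG₁
      have hGd : G₁.degree < k := lt_of_le_of_lt degree_map_le hd
      have h2 := sum_weight_inv v hv (G₁ * G₁) (lt_of_lt_of_le (degree_sq_lt G₁ hGd) (by
        rw [hk]
        exact_mod_cast Nat.sub_le _ _)) z hy₀
      have h3 : ∑ i, (aeval (v i) g₁) ^ 2 * nodalWeight univ v i * ((z : ℂ) - v i)⁻¹ =
          ((g₁.eval z ^ 2 / c : ℝ) : ℂ) := by
        have h4 : ∑ i, (aeval (v i) g₁) ^ 2 * nodalWeight univ v i * ((z : ℂ) - v i)⁻¹ =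
            ∑ i, (G₁ * G₁).eval (v i) * nodalWeight univ v i * ((z : ℂ) - v i)⁻¹ :=
          sum_congr rfl fun i _ => by rw [aeval_eq_eval_map, eval_mul, sq]
        rw [h4]
        rw [hc, eval_mul, ← aeval_eq_eval_map, aeval_ofReal] at h2
        have hc0 : (c : ℂ) ≠ 0 := Complex.ofReal_ne_zero.2 hcpos.ne'
        push_cast
        rw [eq_div_iff hc0, mul_comm, h2, sq]
      rw [h3, Complex.ofReal_re]
      positivity

/-- double root `y₀` of `f = (X - y₀)² F`, case `(g / √F)'(y₀) = 0`, `F(y₀) < 0` -/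
theorem adm_gap (hv : Function.Injective v) {k : ℕ} (hk : Fintype.card ι = 2 * k) (y₀ : ℝ)
    (hy₀ : ∀ i, (y₀ : ℂ) ≠ v i) (g : ℝ[X]) (hg : g.degree < ((k + 1 : ℕ) : WithBot ℕ))
    (c : ℝ) (hc : (nodal univ v).eval (y₀ : ℂ) = c) (hc0 : c < 0)
    (hcg : 2 * (nodal univ v).eval (y₀ : ℂ) * (g.derivative.eval y₀ : ℝ) =
      (nodal univ v).derivative.eval (y₀ : ℂ) * (g.eval y₀ : ℝ)) :
    Adm v (fun i => nodalWeight univ v i * ((v i - y₀) ^ 2)⁻¹) g := by
  have hcC : (c : ℂ) ≠ 0 := Complex.ofReal_ne_zero.2 hc0.ne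
  by_cases hg0 : g.eval y₀ = 0
  · refine adm_zero v hv hk y₀ hy₀ g hg hg0 c hc (Or.inr ?_)
    rw [hg0, Complex.ofReal_zero, mul_zero, hc] at hcg
    have h1 := (mul_eq_zero.1 hcg).resolve_left (mul_ne_zero two_ne_zero hcC)
    exact_mod_cast h1
  set G := g.map (algebraMap ℝ ℂ) with hG
  set F := nodal univ v with hF
  set d : ℝ := g.eval y₀ ^ 2 / c with hd
  have hdneg : d < 0 := div_neg_of_pos_of_neg (by positivity) hc0
  have hGe : ∀ z : ℂ, G.eval z = aeval z g := fun z => (aeval_eq_eval_map g z).symm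
  have hGr : ∀ z : ℝ, G.eval (z : ℂ) = (g.eval z : ℝ) := fun z => by rw [hGe, aeval_ofReal]
  have hGd' : G.derivative.eval (y₀ : ℂ) = (g.derivative.eval y₀ : ℝ) := by
    rw [hG, derivative_map, ← aeval_eq_eval_map, aeval_ofReal]
  set T := G * G - C (d : ℂ) * F with hT
  have hT0 : T.eval (y₀ : ℂ) = 0 := by
    rw [hT, eval_sub, eval_mul, eval_mul, eval_C, hGr, hc, hd]
    push_cast
    field_simp
    ring
  have hT1 : T.derivative.eval (y₀ : ℂ) = 0 := by
    rw [hT, derivative_sub, derivative_mul, derivative_C_mul, eval_sub, eval_add, eval_mul, eval_mul,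
      eval_mul, eval_C, hGr, hGd', hd]
    rw [hc] at hcg
    push_cast
    field_simp
    linear_combination ((g.eval y₀ : ℝ) : ℂ) * hcg
  obtain ⟨T₁, hT₁⟩ := dvd_iff_isRoot.2 hT0
  have hT₁0 : T₁.eval (y₀ : ℂ) = 0 := by
    rw [hT₁, derivative_mul] at hT1
    simpa using hT1
  obtain ⟨T₂, hT₂⟩ := dvd_iff_isRoot.2 hT₁0
  have hTT : T = (X - C (y₀ : ℂ)) ^ 2 * T₂ := by rw [hT₁, hT₂]; ring
  have hGnat : G.natDegree ≤ k := by
    by_cases h0 : G = 0
    · rw [h0, natDegree_zero]; exact Nat.zero_le _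
    · have : G.degree < ((k + 1 : ℕ) : WithBot ℕ) := lt_of_le_of_lt degree_map_le hg
      rw [degree_eq_natDegree h0, Nat.cast_lt] at this
      omega
  have hFnat : F.natDegree = 2 * k := by rw [hF, natDegree_nodal, card_univ, hk]
  have hTnat : T.natDegree ≤ 2 * k := by
    rw [hT]
    refine (natDegree_sub_le _ _).trans (max_le ?_ ?_)
    · exact natDegree_mul_le.trans (by omega)
    · exact (natDegree_C_mul_le _ _).trans hFnat.le
  have hT₂nat : T₂ ≠ 0 → T₂.natDegree + 2 ≤ 2 * k := by
    intro h0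
    rw [hTT, natDegree_mul (pow_ne_zero _ (X_sub_C_ne_zero _)) h0, natDegree_pow,
      natDegree_X_sub_C] at hTnat
    omega
  have hev : ∀ i, (aeval (v i) g) ^ 2 * (nodalWeight univ v i * ((v i - y₀) ^ 2)⁻¹) =
      T₂.eval (v i) * nodalWeight univ v i := by
    intro i
    have h1 : v i - y₀ ≠ 0 := sub_ne_zero.2 (hy₀ i).symm
    have h2 : (aeval (v i) g) ^ 2 = (v i - y₀) ^ 2 * T₂.eval (v i) := by
      have h3 : T.eval (v i) = (aeval (v i) g) ^ 2 := by
        rw [hT, eval_sub, eval_mul, eval_mul, eval_C, hGe, hF, eval_nodal_at_node (mem_univ i)]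
        ring
      rw [← h3, hTT, eval_mul, eval_pow, eval_sub, eval_X, eval_C]
    rw [h2]
    field_simp
  constructor
  · have h1 : ∑ i, (aeval (v i) g) ^ 2 * (nodalWeight univ v i * ((v i - y₀) ^ 2)⁻¹) * v i =
        ∑ i, (X * T₂).eval (v i) * nodalWeight univ v i := by
      refine sum_congr rfl fun i _ => ?_
      rw [hev, eval_mul, eval_X]
      ring
    rcases Nat.eq_zero_or_pos k with rfl | hk0
    · have : IsEmpty ι := Fintype.card_eq_zero_iff.1 (by simpa using hk)
      simp
    · have h2 : (X * T₂).degree < (Fintype.card ι : WithBot ℕ) := by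
        by_cases h0 : T₂ = 0
        · rw [h0, mul_zero, degree_zero]
          exact WithBot.bot_lt_coe _
        · have := hT₂nat h0
          rw [hk, degree_eq_natDegree (mul_ne_zero X_ne_zero h0), Nat.cast_lt,
            natDegree_mul X_ne_zero h0, natDegree_X]
          omega
      have h3 : T₂.natDegree ≤ 2 * k - 2 := by
        by_cases h0 : T₂ = 0
        · rw [h0, natDegree_zero]; exact Nat.zero_le _
        · have := hT₂nat h0
          omega
      have h4 : T.coeff (2 * k) = T₂.coeff (2 * k - 2) := by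
        have h5 : 2 * k = 2 + (2 * k - 2) := by omega
        have h6 : ((X - C (y₀ : ℂ)) ^ 2).natDegree ≤ 2 := by
          rw [natDegree_pow, natDegree_X_sub_C]
        have h7 : ((X - C (y₀ : ℂ)) ^ 2).coeff 2 = 1 := by
          have := (monic_X_sub_C (y₀ : ℂ)).pow 2
          have h8 : ((X - C (y₀ : ℂ)) ^ 2).natDegree = 2 := by
            rw [natDegree_pow, natDegree_X_sub_C]
          rw [Monic, leadingCoeff, h8] at this
          exact this
        rw [hTT]
        nth_rewrite 1 [h5]
        rw [coeff_mul_add_eq_of_natDegree_le h6 h3, h7, one_mul]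
      have h5 : T.coeff (2 * k) = ((g.coeff k ^ 2 - d : ℝ) : ℂ) := by
        have h6 : 2 * k = k + k := by omega
        have h7 : F.coeff (2 * k) = 1 := by
          have := nodal_monic (s := univ) (v := v)
          rw [Monic, leadingCoeff, ← hF, hFnat] at this
          exact this
        rw [hT, coeff_sub, coeff_C_mul, h7, h6, coeff_mul_add_eq_of_natDegree_le hGnat hGnat, hG,
          coeff_map]
        push_cast
        change (g.coeff k : ℂ) * (g.coeff k : ℂ) - _ = _
        ring
      rw [h1, sum_weight v hv _ h2, hk]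
      have h8 : 2 * k - 1 = (2 * k - 2) + 1 := by omega
      rw [h8, coeff_X_mul, ← h4, h5, Complex.ofReal_re]
      have := sq_nonneg (g.coeff k)
      linarith
  · intro z hz
    have hzy : z ≠ y₀ := fun h => hg0 (h ▸ hz)
    have hzy' : ((z : ℂ) - y₀) ≠ 0 := sub_ne_zero.2 (by exact_mod_cast hzy)
    have h1 : ∑ i, (aeval (v i) g) ^ 2 * (nodalWeight univ v i * ((v i - y₀) ^ 2)⁻¹) *
        ((z : ℂ) - v i)⁻¹ = ∑ i, T₂.eval (v i) * nodalWeight univ v i * ((z : ℂ) - v i)⁻¹ :=
      sum_congr rfl fun i _ => by rw [hev]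
    have hd2 : T₂.degree < (Fintype.card ι : WithBot ℕ) := by
      by_cases h0 : T₂ = 0
      · rw [h0, degree_zero]
        exact WithBot.bot_lt_coe _
      · have := hT₂nat h0
        rw [hk, degree_eq_natDegree h0, Nat.cast_lt]
        omega
    have hGz : G.eval (z : ℂ) = 0 := by rw [hGr, hz, Complex.ofReal_zero]
    have h2 : ∑ i, T₂.eval (v i) * nodalWeight univ v i * ((z : ℂ) - v i)⁻¹ =
        ((-d / (z - y₀) ^ 2 : ℝ) : ℂ) := by
      by_cases hnode : ∃ i, (z : ℂ) = v i
      · obtain ⟨i, hi⟩ := hnode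
        have h3 : T₂.eval (v i) = 0 := by
          have h4 : T.eval (z : ℂ) = 0 := by
            rw [hT, eval_sub, eval_mul, eval_mul, hGz, hi, hF, eval_nodal_at_node (mem_univ i)]
            ring
          rw [hTT, eval_mul, eval_pow, eval_sub, eval_X, eval_C] at h4
          rw [← hi]
          exact (mul_eq_zero.1 h4).resolve_left (pow_ne_zero _ hzy')
        rw [hi, sum_weight_inv_node v hv T₂ hd2 i h3]
        have h5 : F.derivative.eval (v i) * nodalWeight univ v i = 1 := by
          rw [nodalWeight_eq_eval_derivative_nodal (mem_univ i), ← hF]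
          refine mul_inv_cancel₀ ?_
          intro h6
          have h7 := nodalWeight_ne_zero (s := univ) (v := v) hv.injOn (mem_univ i)
          rw [nodalWeight_eq_eval_derivative_nodal (mem_univ i), ← hF, h6, inv_zero] at h7
          exact h7 rfl
        have h6 : T.derivative.eval (z : ℂ) = -(d : ℂ) * F.derivative.eval (z : ℂ) := by
          rw [hT, derivative_sub, derivative_mul, derivative_C_mul, eval_sub, eval_add, eval_mul,
            eval_mul, eval_mul, eval_C, hGz]
          ring
        have h7 : T.derivative.eval (z : ℂ) = ((z : ℂ) - y₀) ^ 2 * T₂.derivative.eval (z : ℂ) := by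
          rw [hTT, derivative_mul, eval_add, eval_mul, eval_mul, hi, h3, eval_pow, eval_sub, eval_X,
            eval_C]
          ring
        rw [h6] at h7
        rw [hi] at h7
        have h8 : T₂.derivative.eval (v i) =
            -(d : ℂ) * F.derivative.eval (v i) / (v i - y₀) ^ 2 := by
          have h9 : (v i - (y₀ : ℂ)) ^ 2 ≠ 0 := by
            rw [← hi]
            exact pow_ne_zero _ hzy'
          rw [eq_div_iff h9, mul_comm]
          exact h7.symm
        rw [h8]
        push_cast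
        rw [hi]
        calc -(d : ℂ) * F.derivative.eval (v i) / (v i - y₀) ^ 2 * nodalWeight univ v i
            = -(d : ℂ) / (v i - y₀) ^ 2 * (F.derivative.eval (v i) * nodalWeight univ v i) := by ring
          _ = _ := by rw [h5, mul_one]
      · push Not at hnode
        have h3 := sum_weight_inv v hv T₂ hd2 z hnode
        rw [← hF] at h3
        have hF0 : F.eval (z : ℂ) ≠ 0 := by
          rw [hF, eval_nodal]
          exact prod_ne_zero_iff.2 fun i _ => sub_ne_zero.2 (hnode i)
        have h4 : T.eval (z : ℂ) = -(d : ℂ) * F.eval (z : ℂ) := by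
          rw [hT, eval_sub, eval_mul, eval_mul, eval_C, hGz]
          ring
        rw [hTT, eval_mul, eval_pow, eval_sub, eval_X, eval_C] at h4
        have h5 : T₂.eval (z : ℂ) = -(d : ℂ) * F.eval (z : ℂ) / ((z : ℂ) - y₀) ^ 2 := by
          rw [eq_div_iff (pow_ne_zero _ hzy'), mul_comm]
          exact h4
        rw [h5] at h3
        refine mul_left_cancel₀ hF0 ?_
        rw [h3]
        push_cast
        ring
    rw [h1, h2, Complex.ofReal_re]
    exact div_nonneg (by linarith) (sq_nonneg _)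

end adm

end Pool.Agent.Rohlin
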