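import Pool.Agent.Rohlin.Herglotz
import Pool.Agent.Rohlin.Residue

/-!
# Transversality of the polynomials of degree `< k` and of the real Lagrangian of a pairing
-/

namespace Pool.Agent.Rohlin

open Polynomial Finset Lagrange

/-- A pairing of the roots of a real polynomial: `P` is the set of the pairs, `A p` and `B p` are the roots of the
pair `p`; kind `0`: real roots, ends of an interval of depth 0; kind `1`: real roots, ends of an interval of depth
1; kind `2`: complex conjugate roots. -/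
structure Conf {P : Type*} (A B : P → ℂ) (kind : P → Fin 3) : Prop where
  real : ∀ p, kind p ≠ 2 → (A p).im = 0 ∧ (B p).im = 0 ∧ (A p).re < (B p).re
  cpx : ∀ p, kind p = 2 → 0 < (A p).im ∧ B p = starRingEnd ℂ (A p)
  inj : Function.Injective (Sum.elim A B)
  disj : ∀ p q, p ≠ q → kind p = kind q → kind p ≠ 2 → (B p).re < (A q).re ∨ (B q).re < (A p).re
  parent : ∀ p, kind p = 1 → ∃ q, kind q = 0 ∧ (A q).re < (A p).re ∧ (B p).re < (B q).re

/-- signs of the weights `1 / f'` -/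
structure Wt {P : Type*} (kind : P → Fin 3) (w : P ⊕ P → ℂ) : Prop where
  k0 : ∀ p, kind p = 0 → (w (Sum.inl p)).im = 0 ∧ (w (Sum.inr p)).im = 0 ∧ (w (Sum.inl p)).re < 0 ∧
    0 < (w (Sum.inr p)).re
  k1 : ∀ p, kind p = 1 → (w (Sum.inl p)).im = 0 ∧ (w (Sum.inr p)).im = 0 ∧ 0 < (w (Sum.inl p)).re ∧
    (w (Sum.inr p)).re < 0
  k2 : ∀ p, kind p = 2 → w (Sum.inl p) ≠ 0 ∧ w (Sum.inr p) = starRingEnd ℂ (w (Sum.inl p))

/-- normalised value of `g` at a real root: `g / √|f'|` -/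
noncomputable def xval {ι : Type*} (v w : ι → ℂ) (g : ℝ[X]) (i : ι) : ℝ :=
  g.eval (v i).re * Real.sqrt |(w i).re|

/-- the condition for `g` to be in the real Lagrangian of the pairing, at the pair `p` -/
structure WCond {P : Type*} (A B : P → ℂ) (kind : P → Fin 3) (w : P ⊕ P → ℂ) (g : ℝ[X]) (p : P) :
    Prop where
  out : kind p = 0 → xval (Sum.elim A B) w g (Sum.inr p) = -xval (Sum.elim A B) w g (Sum.inl p)
  inn : kind p = 1 → xval (Sum.elim A B) w g (Sum.inr p) = xval (Sum.elim A B) w g (Sum.inl p)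
  cpx : kind p = 2 → ∃ ρ : ℝ, 0 ≤ ρ ∧ (aeval (A p) g) ^ 2 * w (Sum.inl p) = ρ * Complex.I

section xval

variable {ι : Type*} {v w : ι → ℂ} {g : ℝ[X]} {i : ι}

theorem xval_eq_zero (hw : (w i).re ≠ 0) : xval v w g i = 0 ↔ g.eval (v i).re = 0 := by
  unfold xval
  rw [mul_eq_zero]
  refine or_iff_left ?_
  exact (Real.sqrt_pos.2 (abs_pos.2 hw)).ne'

theorem sq_of_pos (hv : (v i).im = 0) (hw : (w i).im = 0) (hpos : 0 < (w i).re) :
    (aeval (v i) g) ^ 2 * w i = ((xval v w g i ^ 2 : ℝ) : ℂ) := by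
  have h1 : v i = (((v i).re : ℝ) : ℂ) := Complex.ext rfl (by simpa using hv)
  have h2 : w i = (((w i).re : ℝ) : ℂ) := Complex.ext rfl (by simpa using hw)
  unfold xval
  rw [mul_pow, Real.sq_sqrt (abs_nonneg _), abs_of_pos hpos]
  nth_rewrite 1 [h1, h2]
  rw [aeval_ofReal]
  push_cast
  ring

theorem sq_of_neg (hv : (v i).im = 0) (hw : (w i).im = 0) (hneg : (w i).re < 0) :
    (aeval (v i) g) ^ 2 * w i = ((-(xval v w g i ^ 2) : ℝ) : ℂ) := by
  have h1 : v i = (((v i).re : ℝ) : ℂ) := Complex.ext rfl (by simpa using hv)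
  have h2 : w i = (((w i).re : ℝ) : ℂ) := Complex.ext rfl (by simpa using hw)
  unfold xval
  rw [mul_pow, Real.sq_sqrt (abs_nonneg _), abs_of_neg hneg]
  nth_rewrite 1 [h1, h2]
  rw [aeval_ofReal]
  push_cast
  ring

theorem mul_sign (hi : (w i).re ≠ 0) {j : ι} (hj : (w j).re ≠ 0) :
    (0 ≤ xval v w g i * xval v w g j ↔ 0 ≤ g.eval (v i).re * g.eval (v j).re) ∧
    (xval v w g i * xval v w g j ≤ 0 ↔ g.eval (v i).re * g.eval (v j).re ≤ 0) := by
  have h1 : 0 < Real.sqrt |(w i).re| * Real.sqrt |(w j).re| :=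
    mul_pos (Real.sqrt_pos.2 (abs_pos.2 hi)) (Real.sqrt_pos.2 (abs_pos.2 hj))
  have h2 : xval v w g i * xval v w g j =
      (g.eval (v i).re * g.eval (v j).re) * (Real.sqrt |(w i).re| * Real.sqrt |(w j).re|) := by
    unfold xval
    ring
  rw [h2]
  constructor
  · constructor
    · intro h
      exact nonneg_of_mul_nonneg_left h h1
    · intro h
      exact mul_nonneg h h1.le
  · constructor
    · intro h
      exact nonpos_of_mul_nonpos_left h h1
    · intro h
      exact mul_nonpos_of_nonpos_of_nonneg h h1.le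

end xval

section core

variable {P : Type*} [Fintype P] [DecidableEq P] {A B : P → ℂ} {kind : P → Fin 3} {w : P ⊕ P → ℂ}
  {g : ℝ[X]}

/-- poles -/
theorem exists_pole (hC : Conf A B kind) (hw : Wt kind w) (h1 : ∀ p, kind p = 1 → WCond A B kind w g p)
    (q : P) (hq : kind q = 0) (hgq : g.eval (A q).re * g.eval (B q).re ≤ 0) :
    ∃ z : ℝ, (A q).re ≤ z ∧ z ≤ (B q).re ∧ g.eval z = 0 ∧
      ∀ p, kind p = 1 → g.eval (A p).re = 0 ∨ z < (A p).re ∨ (B p).re < z := by
  have hq2 : kind q ≠ 2 := by rw [hq]; decide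
  let s : Finset P := univ.filter fun p => kind p = 1 ∧ (A q).re < (A p).re ∧ (B p).re < (B q).re
  have hs : ∀ p ∈ s, kind p = 1 ∧ (A q).re < (A p).re ∧ (B p).re < (B q).re := by
    intro p hp
    simpa [s] using hp
  have hne2 : ∀ p, kind p = 1 → kind p ≠ 2 := by
    intro p hp
    rw [hp]; decide
  have hx : ∀ p, kind p = 1 → (0 ≤ g.eval (A p).re * g.eval (B p).re) ∧
      (g.eval (A p).re = 0 ↔ g.eval (B p).re = 0) := by
    intro p hp
    have h2 := hw.k1 p hp
    have h3 := (h1 p hp).inn hp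
    have h4 := xval_eq_zero (v := Sum.elim A B) (g := g) h2.2.2.1.ne'
    have h5 := xval_eq_zero (v := Sum.elim A B) (g := g) h2.2.2.2.ne
    constructor
    · refine (mul_sign (v := Sum.elim A B) (i := Sum.inl p) (j := Sum.inr p) h2.2.2.1.ne'
        h2.2.2.2.ne).1.1 ?_
      rw [h3]
      exact mul_self_nonneg _
    · simp only [Sum.elim_inl, Sum.elim_inr] at h4 h5
      rw [← h4, ← h5, h3]
  obtain ⟨z, hz1, hz2, hz3, hz4⟩ := exists_zero_avoid' s (fun p => (A p).re) (fun p => (B p).re)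
    (hC.real q hq2).2.2
    (fun p hp => ⟨(hs p hp).2.1, (hC.real p (hne2 p (hs p hp).1)).2.2, (hs p hp).2.2⟩)
    (fun i hi j hj hij => hC.disj i j hij ((hs i hi).1.trans (hs j hj).1.symm) (hne2 i (hs i hi).1))
    (fun y => g.eval y) g.continuous (fun p hp => (hx p (hs p hp).1).1)
    (fun p hp => (hx p (hs p hp).1).2) hgq
  refine ⟨z, hz1, hz2, hz3, fun p hp => ?_⟩
  by_cases hps : p ∈ s
  · exact hz4 p hps
  · obtain ⟨q', hq', hq1, hq2'⟩ := hC.parent p hp
    have hqq : q ≠ q' := by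
      rintro rfl
      exact hps (by simp [s, hp, hq1, hq2'])
    have hab := (hC.real p (hne2 p hp)).2.2
    rcases hC.disj q q' hqq (hq.trans hq'.symm) hq2 with h | h
    · exact Or.inr (Or.inl (by linarith))
    · exact Or.inr (Or.inr (by linarith))

/-- the contribution of a pair -/
noncomputable def Kc (A B : P → ℂ) (w : P ⊕ P → ℂ) (g : ℝ[X]) (R : ℂ → ℂ) (p : P) : ℝ :=
  ((aeval (A p) g) ^ 2 * w (Sum.inl p) * R (A p) + (aeval (B p) g) ^ 2 * w (Sum.inr p) * R (B p)).re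

omit [DecidableEq P] in
theorem sum_Kc_nonneg (hA : Adm (Sum.elim A B) w g) (s : Finset P) (μ : ℝ) (lam z : P → ℝ)
    (hμ : 0 ≤ μ) (hlam : ∀ j ∈ s, 0 < lam j) (hz : ∀ j ∈ s, g.eval (z j) = 0) :
    0 ≤ ∑ p, Kc A B w g (herg s μ lam z) p := by
  have h1 : ∑ p, Kc A B w g (herg s μ lam z) p =
      (∑ i, (aeval (Sum.elim A B i) g) ^ 2 * w i * herg s μ lam z (Sum.elim A B i)).re := by
    rw [Fintype.sum_sum_type, ← sum_add_distrib, Complex.re_sum]
    rfl
  have h2 : ∑ i, (aeval (Sum.elim A B i) g) ^ 2 * w i * herg s μ lam z (Sum.elim A B i) =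
      μ * ∑ i, (aeval (Sum.elim A B i) g) ^ 2 * w i * Sum.elim A B i +
        ∑ j ∈ s, (lam j : ℂ) * ∑ i, (aeval (Sum.elim A B i) g) ^ 2 * w i *
          ((z j : ℂ) - Sum.elim A B i)⁻¹ := by
    rw [mul_sum]
    simp_rw [mul_sum]
    rw [sum_comm, ← sum_add_distrib]
    refine sum_congr rfl fun i _ => ?_
    unfold herg
    rw [mul_add, mul_sum]
    congr 1
    · ring
    · exact sum_congr rfl fun j _ => by ring
  rw [h1, h2, Complex.add_re, Complex.re_ofReal_mul]
  refine add_nonneg (mul_nonneg hμ hA.zero) ?_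
  rw [Complex.re_sum]
  refine sum_nonneg fun j hj => ?_
  rw [Complex.re_ofReal_mul]
  exact mul_nonneg (hlam j hj).le (hA.inv (z j) (hz j hj))

omit [Fintype P] [DecidableEq P] in
theorem Kc_out (hC : Conf A B kind) (hw : Wt kind w) (s : Finset P) (μ : ℝ) (lam z : P → ℝ) (p : P)
    (hp : kind p = 0) : Kc A B w g (herg s μ lam z) p =
      -(xval (Sum.elim A B) w g (Sum.inl p) ^ 2) * hergR s μ lam z (A p).re +
        xval (Sum.elim A B) w g (Sum.inr p) ^ 2 * hergR s μ lam z (B p).re := by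
  have hp2 : kind p ≠ 2 := by rw [hp]; decide
  obtain ⟨hA, hB, -⟩ := hC.real p hp2
  obtain ⟨h1, h2, h3, h4⟩ := hw.k0 p hp
  have h5 := sq_of_neg (v := Sum.elim A B) (w := w) (g := g) (i := Sum.inl p) hA h1 h3
  have h6 := sq_of_pos (v := Sum.elim A B) (w := w) (g := g) (i := Sum.inr p) hB h2 h4
  have hAr : A p = (((A p).re : ℝ) : ℂ) := Complex.ext rfl (by simpa using hA)
  have hBr : B p = (((B p).re : ℝ) : ℂ) := Complex.ext rfl (by simpa using hB)
  simp only [Sum.elim_inl, Sum.elim_inr] at h5 h6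
  unfold Kc
  rw [h5, h6, Complex.add_re, Complex.re_ofReal_mul, Complex.re_ofReal_mul]
  congr 2
  · rw [hAr, herg_ofReal, Complex.ofReal_re, Complex.ofReal_re]
  · rw [hBr, herg_ofReal, Complex.ofReal_re, Complex.ofReal_re]

omit [Fintype P] [DecidableEq P] in
theorem Kc_inn (hC : Conf A B kind) (hw : Wt kind w) (s : Finset P) (μ : ℝ) (lam z : P → ℝ) (p : P)
    (hp : kind p = 1) : Kc A B w g (herg s μ lam z) p =
      xval (Sum.elim A B) w g (Sum.inl p) ^ 2 * hergR s μ lam z (A p).re +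
        -(xval (Sum.elim A B) w g (Sum.inr p) ^ 2) * hergR s μ lam z (B p).re := by
  have hp2 : kind p ≠ 2 := by rw [hp]; decide
  obtain ⟨hA, hB, -⟩ := hC.real p hp2
  obtain ⟨h1, h2, h3, h4⟩ := hw.k1 p hp
  have h5 := sq_of_pos (v := Sum.elim A B) (w := w) (g := g) (i := Sum.inl p) hA h1 h3
  have h6 := sq_of_neg (v := Sum.elim A B) (w := w) (g := g) (i := Sum.inr p) hB h2 h4
  have hAr : A p = (((A p).re : ℝ) : ℂ) := Complex.ext rfl (by simpa using hA)
  have hBr : B p = (((B p).re : ℝ) : ℂ) := Complex.ext rfl (by simpa using hB)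
  simp only [Sum.elim_inl, Sum.elim_inr] at h5 h6
  unfold Kc
  rw [h5, h6, Complex.add_re, Complex.re_ofReal_mul, Complex.re_ofReal_mul]
  congr 2
  · rw [hAr, herg_ofReal, Complex.ofReal_re, Complex.ofReal_re]
  · rw [hBr, herg_ofReal, Complex.ofReal_re, Complex.ofReal_re]

theorem aeval_conj_real (g : ℝ[X]) (z : ℂ) : aeval (starRingEnd ℂ z) g = starRingEnd ℂ (aeval z g) := by
  rw [aeval_def, aeval_def, Polynomial.hom_eval₂]
  congr 1
  ext x
  simp

omit [Fintype P] [DecidableEq P] in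
/-- complex conjugate pairs -/
theorem Kc_cpx (hC : Conf A B kind) (hw : Wt kind w) (s : Finset P) (μ : ℝ) (lam z : P → ℝ)
    (hμ : 0 ≤ μ) (hlam : ∀ j ∈ s, 0 < lam j) (hne : 0 < μ ∨ s.Nonempty) (p : P)
    (hp : kind p = 2) (hW : WCond A B kind w g p) :
    Kc A B w g (herg s μ lam z) p ≤ 0 ∧
      (Kc A B w g (herg s μ lam z) p = 0 → aeval (A p) g = 0 ∧ aeval (B p) g = 0) := by
  obtain ⟨him, hB⟩ := hC.cpx p hp
  obtain ⟨hw0, hw1⟩ := hw.k2 p hp
  obtain ⟨ρ, hρ, hW⟩ := hW.cpx hp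
  have h1 : Kc A B w g (herg s μ lam z) p = -(2 * ρ * (herg s μ lam z (A p)).im) := by
    have hc : (starRingEnd ℂ (aeval (A p) g)) ^ 2 * starRingEnd ℂ (w (Sum.inl p)) *
        starRingEnd ℂ (herg s μ lam z (A p)) =
        starRingEnd ℂ ((aeval (A p) g) ^ 2 * w (Sum.inl p) * herg s μ lam z (A p)) := by
      rw [map_mul, map_mul, map_pow (starRingEnd ℂ)]
    unfold Kc
    rw [hB, hw1, aeval_conj_real, herg_conj, hc, hW, Complex.add_re, Complex.conj_re, Complex.mul_re,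
      Complex.mul_re, Complex.mul_im]
    simp
    ring
  have h2 := herg_im_pos s μ lam z hμ hlam hne him
  rw [h1]
  constructor
  · have := mul_nonneg hρ h2.le
    linarith
  · intro h
    have h3 : ρ = 0 := by
      have h4 : 2 * ρ * (herg s μ lam z (A p)).im = 0 := by linarith
      rcases mul_eq_zero.1 h4 with h5 | h5
      · linarith
      · exact absurd h5 h2.ne'
    rw [h3] at hW
    have h4 : aeval (A p) g = 0 := by
      have : (aeval (A p) g) ^ 2 = 0 := by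
        have h5 : (aeval (A p) g) ^ 2 * w (Sum.inl p) = 0 := by rw [hW]; simp
        exact (mul_eq_zero.1 h5).resolve_right hw0
      exact pow_eq_zero_iff two_ne_zero |>.1 this
    exact ⟨h4, by rw [hB, aeval_conj_real, h4, map_zero]⟩

theorem aeval_real {z : ℂ} (hz : z.im = 0) (h : g.eval z.re = 0) : aeval z g = 0 := by
  have h1 : z = ((z.re : ℝ) : ℂ) := Complex.ext rfl (by simpa using hz)
  rw [h1, aeval_ofReal, h, Complex.ofReal_zero]

omit [Fintype P] [DecidableEq P] in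
/-- pairs of depth 0 with an own pole -/
theorem Kc_out_le (hC : Conf A B kind) (hw : Wt kind w) (s : Finset P) (μ : ℝ) (lam z : P → ℝ)
    (p : P) (hp : kind p = 0) (hW : WCond A B kind w g p) (hz1 : (A p).re ≤ z p)
    (hz2 : z p ≤ (B p).re) (hz0 : g.eval (z p) = 0)
    (hR1 : ∀ y, (A p).re ≤ y → y < z p → 0 < hergR s μ lam z y)
    (hR2 : ∀ y, z p < y → y ≤ (B p).re → hergR s μ lam z y < 0) :
    Kc A B w g (herg s μ lam z) p ≤ 0 ∧
      (Kc A B w g (herg s μ lam z) p = 0 → aeval (A p) g = 0 ∧ aeval (B p) g = 0) := by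
  have hp2 : kind p ≠ 2 := by rw [hp]; decide
  obtain ⟨hA, hB, -⟩ := hC.real p hp2
  obtain ⟨h1, h2, h3, h4⟩ := hw.k0 p hp
  have h5 := xval_eq_zero (v := Sum.elim A B) (g := g) (i := Sum.inl p) h3.ne
  have h6 := xval_eq_zero (v := Sum.elim A B) (g := g) (i := Sum.inr p) h4.ne'
  simp only [Sum.elim_inl, Sum.elim_inr] at h5 h6
  rw [Kc_out hC hw s μ lam z p hp]
  have hW := hW.out hp
  rw [hW] at h6 ⊢
  set x := xval (Sum.elim A B) w g (Sum.inl p)
  by_cases hx : x = 0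
  · rw [hx]
    refine ⟨by simp, fun _ => ⟨aeval_real hA (h5.1 hx), aeval_real hB (h6.1 (by rw [hx, neg_zero]))⟩⟩
  · have hzA : (A p).re < z p := lt_of_le_of_ne hz1 fun h => hx (h5.2 (by rw [h]; exact hz0))
    have hzB : z p < (B p).re := lt_of_le_of_ne hz2 fun h => hx (by
      have := h6.2 (by rw [← h]; exact hz0)
      linarith)
    have h7 := hR1 _ le_rfl hzA
    have h8 := hR2 _ hzB le_rfl
    have h9 : 0 < x ^ 2 := by positivity
    have h10 : -(x ^ 2) * hergR s μ lam z (A p).re + (-x) ^ 2 * hergR s μ lam z (B p).re < 0 := by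
      have h11 := mul_pos h9 h7
      have h12 := mul_neg_of_pos_of_neg h9 h8
      rw [neg_sq]
      linarith
    exact ⟨h10.le, fun h => absurd h h10.ne⟩

omit [Fintype P] [DecidableEq P] in
/-- pairs of depth 1 -/
theorem Kc_inn_le (hC : Conf A B kind) (hw : Wt kind w) (s : Finset P) (μ : ℝ) (lam z : P → ℝ)
    (hμ : 0 ≤ μ) (hlam : ∀ j ∈ s, 0 < lam j) (hne : 0 < μ ∨ s.Nonempty)
    (p : P) (hp : kind p = 1) (hW : WCond A B kind w g p)
    (hz : ∀ j ∈ s, g.eval (A p).re = 0 ∨ z j < (A p).re ∨ (B p).re < z j) :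
    Kc A B w g (herg s μ lam z) p ≤ 0 ∧
      (Kc A B w g (herg s μ lam z) p = 0 → aeval (A p) g = 0 ∧ aeval (B p) g = 0) := by
  have hp2 : kind p ≠ 2 := by rw [hp]; decide
  obtain ⟨hA, hB, hAB⟩ := hC.real p hp2
  obtain ⟨h1, h2, h3, h4⟩ := hw.k1 p hp
  have h5 := xval_eq_zero (v := Sum.elim A B) (g := g) (i := Sum.inl p) h3.ne'
  have h6 := xval_eq_zero (v := Sum.elim A B) (g := g) (i := Sum.inr p) h4.ne
  simp only [Sum.elim_inl, Sum.elim_inr] at h5 h6
  rw [Kc_inn hC hw s μ lam z p hp]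
  have hW := hW.inn hp
  rw [hW] at h6 ⊢
  set x := xval (Sum.elim A B) w g (Sum.inl p)
  by_cases hx : x = 0
  · rw [hx]
    refine ⟨by simp, fun _ => ⟨aeval_real hA (h5.1 hx), aeval_real hB (h6.1 hx)⟩⟩
  · have h7 := hergR_strictMono s μ lam z hμ hlam hne hAB fun j hj =>
      (hz j hj).resolve_left fun h => hx (h5.2 h)
    have h9 : 0 < x ^ 2 := by positivity
    have h10 : x ^ 2 * hergR s μ lam z (A p).re + -(x ^ 2) * hergR s μ lam z (B p).re < 0 := by
      have h11 := mul_lt_mul_of_pos_left h7 h9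
      linarith
    exact ⟨h10.le, fun h => absurd h h10.ne⟩

theorem fin3_cases (a : Fin 3) : a = 0 ∨ a = 1 ∨ a = 2 := by
  fin_cases a <;> simp

/-- **Transversality**: core. -/
theorem core (hC : Conf A B kind) (hw : Wt kind w) (hA : Adm (Sum.elim A B) w g)
    (hW : ∀ p, WCond A B kind w g p) (p : P) : aeval (A p) g = 0 ∧ aeval (B p) g = 0 := by
  have h0 : ∀ q, kind q = 0 → g.eval (A q).re * g.eval (B q).re ≤ 0 := by
    intro q hq
    obtain ⟨h1, h2, h3, h4⟩ := hw.k0 q hq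
    refine (mul_sign (v := Sum.elim A B) (i := Sum.inl q) (j := Sum.inr q) h3.ne h4.ne').2.1 ?_
    rw [(hW q).out hq]
    have := mul_self_nonneg (xval (Sum.elim A B) w g (Sum.inl q))
    linarith
  have hz : ∀ q, ∃ z : ℝ, kind q = 0 → (A q).re ≤ z ∧ z ≤ (B q).re ∧ g.eval z = 0 ∧
      ∀ p, kind p = 1 → g.eval (A p).re = 0 ∨ z < (A p).re ∨ (B p).re < z := by
    intro q
    by_cases hq : kind q = 0
    · obtain ⟨z, hz⟩ := exists_pole hC hw (fun p _ => hW p) q hq (h0 q hq)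
      exact ⟨z, fun _ => hz⟩
    · exact ⟨0, fun h => absurd h hq⟩
  choose z hz using hz
  set s : Finset P := univ.filter fun q => kind q = 0 with hs
  have hs' : ∀ q, q ∈ s ↔ kind q = 0 := by
    intro q
    simp [s]
  obtain ⟨μ, lam, hμ, hlam, hne, hR⟩ := exists_herg s (fun q => (A q).re) (fun q => (B q).re) z
    (fun q hq => ⟨(hz q ((hs' q).1 hq)).1, (hz q ((hs' q).1 hq)).2.1⟩)
    (fun q hq r hr hqr => hC.disj q r hqr (((hs' q).1 hq).trans ((hs' r).1 hr).symm)
      (by rw [(hs' q).1 hq]; decide))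
  have hK : ∀ p, Kc A B w g (herg s μ lam z) p ≤ 0 ∧
      (Kc A B w g (herg s μ lam z) p = 0 → aeval (A p) g = 0 ∧ aeval (B p) g = 0) := by
    intro p
    rcases fin3_cases (kind p) with hp | hp | hp
    · have h1 := hz p hp
      have h2 := hR p ((hs' p).2 hp)
      exact Kc_out_le hC hw s μ lam z p hp (hW p) h1.1 h1.2.1 h1.2.2.1 h2.1 h2.2
    · exact Kc_inn_le hC hw s μ lam z hμ hlam hne p hp (hW p)
        (fun j hj => (hz j ((hs' j).1 hj)).2.2.2 p hp)
    · exact Kc_cpx hC hw s μ lam z hμ hlam hne p hp (hW p)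
  have hsum := sum_Kc_nonneg hA s μ lam z hμ hlam (fun j hj => (hz j ((hs' j).1 hj)).2.2.1)
  have hsum0 : ∑ p, Kc A B w g (herg s μ lam z) p = 0 :=
    le_antisymm (Finset.sum_nonpos fun p _ => (hK p).1) hsum
  exact (hK p).2 ((Finset.sum_eq_zero_iff_of_nonpos fun p _ => (hK p).1).1 hsum0 p (mem_univ p))

end core

end Pool.Agent.Rohlin
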