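import Pool.Agent.Rohlin.Line
import Pool.Agent.Rohlin.RP2Top
import Pool.Agent.Rohlin.Transv
import Pool.Agent.Rohlin.Steps

/-!
# Elementary consequences of the fields of a pairing (module PAIR, part 0)
-/

set_option autoImplicit false

namespace Pool.Agent.Rohlin

open Polynomial Complex Set Matrix Filter Topology

/-- the restriction of the regions to one line: `T0, T1` closed, `U0, U1` the traces of the
interiors -/
structure Slc (T0 U0 T1 U1 : Set ℝ) (g : ℝ[X]) : Prop where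
  closed0 : IsClosed T0
  closed1 : IsClosed T1
  open0 : IsOpen U0
  open1 : IsOpen U1
  sub0 : U0 ⊆ T0
  sub1 : U1 ⊆ T1
  sub : T1 ⊆ U0
  pos : ∀ x, x ∉ T0 → 0 < g.eval x
  neg : ∀ x, x ∈ U0 → x ∉ T1 → g.eval x < 0
  posi : ∀ x, x ∈ U1 → 0 < g.eval x
  zero0 : ∀ x, x ∈ T0 → x ∉ U0 → g.eval x = 0
  zero1 : ∀ x, x ∈ T1 → x ∉ U1 → g.eval x = 0
  bdd : ∃ R : ℝ, ∀ x, x ∈ T0 → |x| ≤ R
  simple : ∀ x, g.eval x = 0 → (derivative g).eval x ≠ 0

/-- the intervals of a pairing -/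
structure Ivs {P : Type*} (T0 T1 : Set ℝ) (g : ℝ[X]) (a b : P → ℝ) (kind : P → Fin 3) : Prop where
  root : ∀ p, kind p ≠ 2 → g.eval (a p) = 0 ∧ g.eval (b p) = 0
  lt : ∀ p, kind p ≠ 2 → a p < b p
  inja : ∀ p q, kind p ≠ 2 → kind q ≠ 2 → a p = a q → p = q
  injb : ∀ p q, kind p ≠ 2 → kind q ≠ 2 → b p = b q → p = q
  ne : ∀ p q, kind p ≠ 2 → kind q ≠ 2 → a p ≠ b q
  in0 : ∀ x, x ∈ T0 ↔ ∃ p, kind p = 0 ∧ a p ≤ x ∧ x ≤ b p
  in1 : ∀ x, x ∈ T1 ↔ ∃ p, kind p = 1 ∧ a p ≤ x ∧ x ≤ b p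

theorem poly_near_of_deriv_pos {g : ℝ[X]} {x : ℝ} (hx : g.eval x = 0)
    (hd : 0 < (derivative g).eval x) :
    (∀ᶠ y in 𝓝[>] x, 0 < g.eval y) ∧ ∀ᶠ y in 𝓝[<] x, g.eval y < 0 := by
  have h := eventually_nhdsWithin_sign_eq_of_deriv_pos (f := fun y => g.eval y) (x₀ := x)
    (by rw [Polynomial.deriv]; exact hd) hx
  constructor
  · filter_upwards [mem_nhdsWithin_of_mem_nhds h, self_mem_nhdsWithin] with y hy hy2
    rw [sign_pos (sub_pos.2 hy2)] at hy
    exact sign_eq_one_iff.1 hy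
  · filter_upwards [mem_nhdsWithin_of_mem_nhds h, self_mem_nhdsWithin] with y hy hy2
    rw [sign_neg (sub_neg.2 hy2)] at hy
    exact sign_eq_neg_one_iff.1 hy

theorem poly_near_of_deriv_neg {g : ℝ[X]} {x : ℝ} (hx : g.eval x = 0)
    (hd : (derivative g).eval x < 0) :
    (∀ᶠ y in 𝓝[>] x, g.eval y < 0) ∧ ∀ᶠ y in 𝓝[<] x, 0 < g.eval y := by
  have h := poly_near_of_deriv_pos (g := -g) (x := x) (by simpa using hx) (by simpa using hd)
  simpa using h

namespace Slc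

variable {T0 U0 T1 U1 : Set ℝ} {g : ℝ[X]} (S : Slc T0 U0 T1 U1 g)
include S

theorem notMem_one {x : ℝ} (h : g.eval x < 0) : x ∉ T1 := by
  intro hx
  by_cases h1 : x ∈ U1
  · linarith [S.posi x h1]
  · linarith [S.zero1 x hx h1]

theorem mem_zero {x : ℝ} (h : g.eval x < 0) : x ∈ U0 := by
  by_contra h1
  by_cases h0 : x ∈ T0
  · linarith [S.zero0 x h0 h1]
  · linarith [S.pos x h0]

theorem mem_one {x : ℝ} (h : 0 < g.eval x) (hx : x ∈ T0) : x ∈ U1 := by
  have h0 : x ∈ U0 := by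
    by_contra h0
    linarith [S.zero0 x hx h0]
  have h1 : x ∈ T1 := by
    by_contra h1
    linarith [S.neg x h0 h1]
  by_contra h2
  linarith [S.zero1 x h1 h2]

/-- near a root there are points with `g < 0` and points with `g > 0` -/
theorem near {x : ℝ} (hx : g.eval x = 0) :
    ((∀ᶠ y in 𝓝[>] x, 0 < g.eval y) ∧ ∀ᶠ y in 𝓝[<] x, g.eval y < 0) ∨
    ((∀ᶠ y in 𝓝[>] x, g.eval y < 0) ∧ ∀ᶠ y in 𝓝[<] x, 0 < g.eval y) := by
  rcases lt_or_gt_of_ne (S.simple x hx) with h | h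
  · exact Or.inr (poly_near_of_deriv_neg hx h)
  · exact Or.inl (poly_near_of_deriv_pos hx h)

theorem exists_neg_nhds {x : ℝ} (hx : g.eval x = 0) {V : Set ℝ} (hV : V ∈ 𝓝 x) :
    ∃ y ∈ V, g.eval y < 0 := by
  rcases S.near hx with ⟨_, h⟩ | ⟨h, _⟩
  · obtain ⟨y, hy1, hy2⟩ := (h.and (mem_nhdsWithin_of_mem_nhds hV)).exists
    exact ⟨y, hy2, hy1⟩
  · obtain ⟨y, hy1, hy2⟩ := (h.and (mem_nhdsWithin_of_mem_nhds hV)).exists
    exact ⟨y, hy2, hy1⟩

theorem exists_pos_nhds {x : ℝ} (hx : g.eval x = 0) {V : Set ℝ} (hV : V ∈ 𝓝 x) :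
    ∃ y ∈ V, 0 < g.eval y := by
  rcases S.near hx with ⟨h, _⟩ | ⟨_, h⟩
  · obtain ⟨y, hy1, hy2⟩ := (h.and (mem_nhdsWithin_of_mem_nhds hV)).exists
    exact ⟨y, hy2, hy1⟩
  · obtain ⟨y, hy1, hy2⟩ := (h.and (mem_nhdsWithin_of_mem_nhds hV)).exists
    exact ⟨y, hy2, hy1⟩

/-- a root is not in the interior of `T1` -/
theorem root_notMem_nhds_one {x : ℝ} (hx : g.eval x = 0) (h : T1 ∈ 𝓝 x) : False := by
  obtain ⟨y, hy, hn⟩ := S.exists_neg_nhds hx h
  exact S.notMem_one hn hy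

/-- a root in the interior of `T0` is in `T1` -/
theorem root_mem_one {x : ℝ} (hx : g.eval x = 0) (h : T0 ∈ 𝓝 x) : x ∈ T1 := by
  by_contra hn
  obtain ⟨y, hy, hp⟩ := S.exists_pos_nhds hx (inter_mem h (S.closed1.isOpen_compl.mem_nhds hn))
  exact hy.2 (S.sub1 (S.mem_one hp hy.1))

variable {P : Type*} {a b : P → ℝ} {kind : P → Fin 3} (I : Ivs T0 T1 g a b kind)
include I

theorem not_root_inside_one {p : P} (hp : kind p = 1) {x : ℝ} (hx : g.eval x = 0)
    (h1 : a p < x) (h2 : x < b p) : False := by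
  refine S.root_notMem_nhds_one hx ?_
  filter_upwards [Ioo_mem_nhds h1 h2] with y hy
  exact (I.in1 y).2 ⟨p, hp, hy.1.le, hy.2.le⟩

theorem root_inside_zero {p : P} (hp : kind p = 0) {x : ℝ} (hx : g.eval x = 0)
    (h1 : a p < x) (h2 : x < b p) : ∃ q, kind q = 1 ∧ (x = a q ∨ x = b q) := by
  have hx1 : x ∈ T1 := by
    refine S.root_mem_one hx ?_
    filter_upwards [Ioo_mem_nhds h1 h2] with y hy
    exact (I.in0 y).2 ⟨p, hp, hy.1.le, hy.2.le⟩
  obtain ⟨q, hq, h3, h4⟩ := (I.in1 x).1 hx1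
  refine ⟨q, hq, ?_⟩
  by_contra hcon
  push Not at hcon
  exact S.not_root_inside_one I hq hx (lt_of_le_of_ne h3 (Ne.symm hcon.1)) (lt_of_le_of_ne h4 hcon.2)

theorem not_left_inside {p q : P} (hpq : p ≠ q) (hk : kind p = kind q) (h2 : kind p ≠ 2)
    (h3 : a p ≤ a q) (h4 : a q ≤ b p) : False := by
  have hq2 : kind q ≠ 2 := hk ▸ h2
  have h5 : a p < a q := lt_of_le_of_ne h3 fun e => hpq (I.inja p q h2 hq2 e)
  have h6 : a q < b p := lt_of_le_of_ne h4 (I.ne q p hq2 h2)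
  have hroot := (I.root q hq2).1
  have h01 : kind p = 0 ∨ kind p = 1 := by
    have : ∀ k : Fin 3, k ≠ 2 → k = 0 ∨ k = 1 := by decide
    exact this _ h2
  rcases h01 with h | h
  · obtain ⟨r, hr, h7⟩ := S.root_inside_zero I h hroot h5 h6
    have hr2 : kind r ≠ 2 := by rw [hr]; decide
    rcases h7 with h7 | h7
    · have := I.inja q r hq2 hr2 h7
      rw [← this, ← hk, h] at hr
      exact absurd hr (by decide)
    · exact I.ne q r hq2 hr2 h7
  · exact S.not_root_inside_one I h hroot h5 h6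

theorem disj {p q : P} (hpq : p ≠ q) (hk : kind p = kind q) (h2 : kind p ≠ 2) :
    b p < a q ∨ b q < a p := by
  by_contra hcon
  push Not at hcon
  rcases le_total (a p) (a q) with h | h
  · exact S.not_left_inside I hpq hk h2 h hcon.1
  · exact S.not_left_inside I hpq.symm hk.symm (hk ▸ h2) h hcon.2

theorem parent {p : P} (hp : kind p = 1) : ∃ q, kind q = 0 ∧ a q < a p ∧ b p < b q := by
  have hp2 : kind p ≠ 2 := by rw [hp]; decide
  have h1 : a p ∈ T1 := (I.in1 _).2 ⟨p, hp, le_rfl, (I.lt p hp2).le⟩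
  obtain ⟨q, hq, h3, h4⟩ := (I.in0 _).1 (S.sub0 (S.sub h1))
  have hq2 : kind q ≠ 2 := by rw [hq]; decide
  have hpq : p ≠ q := by
    rintro rfl
    rw [hp] at hq
    exact absurd hq (by decide)
  have h5 : a q < a p := lt_of_le_of_ne h3 fun e => hpq (I.inja q p hq2 hp2 e).symm
  have h6 : a p < b q := lt_of_le_of_ne h4 (I.ne p q hp2 hq2)
  refine ⟨q, hq, h5, ?_⟩
  by_contra hcon
  rw [not_lt] at hcon
  have h7 : b q < b p := lt_of_le_of_ne hcon fun e => hpq (I.injb q p hq2 hp2 e).symm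
  exact S.not_root_inside_one I hp (I.root q hq2).2 h6 h7

theorem deriv_one {p : P} (hp : kind p = 1) :
    0 < (derivative g).eval (a p) ∧ (derivative g).eval (b p) < 0 := by
  have hp2 : kind p ≠ 2 := by rw [hp]; decide
  have hlt := I.lt p hp2
  constructor
  · by_contra hcon
    have hd : (derivative g).eval (a p) < 0 :=
      lt_of_le_of_ne (not_lt.1 hcon) (S.simple _ (I.root p hp2).1)
    obtain ⟨h, _⟩ := poly_near_of_deriv_neg (I.root p hp2).1 hd
    obtain ⟨y, hy1, hy2⟩ := (h.and (Ioo_mem_nhdsGT hlt)).exists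
    exact S.notMem_one hy1 ((I.in1 y).2 ⟨p, hp, hy2.1.le, hy2.2.le⟩)
  · by_contra hcon
    have hd : 0 < (derivative g).eval (b p) :=
      lt_of_le_of_ne (not_lt.1 hcon) (S.simple _ (I.root p hp2).2).symm
    obtain ⟨_, h⟩ := poly_near_of_deriv_pos (I.root p hp2).2 hd
    obtain ⟨y, hy1, hy2⟩ := (h.and (Ioo_mem_nhdsLT hlt)).exists
    exact S.notMem_one hy1 ((I.in1 y).2 ⟨p, hp, hy2.1.le, hy2.2.le⟩)

theorem nhds_notMem [Finite P] {p : P} (hp : kind p = 0) {x : ℝ} (hx : x = a p ∨ x = b p) :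
    ∀ᶠ y in 𝓝 x, ∀ q, q ≠ p → kind q = 0 → y < a q ∨ b q < y := by
  rw [eventually_all]
  intro q
  by_cases h : q ≠ p ∧ kind q = 0
  · have hq2 : kind q ≠ 2 := by rw [h.2]; decide
    have hp2 : kind p ≠ 2 := by rw [hp]; decide
    have hx2 : x < a q ∨ b q < x := by
      have hl := I.lt p hp2
      rcases S.disj I h.1 (h.2.trans hp.symm) hq2 with h3 | h3
      · right
        rcases hx with rfl | rfl <;> linarith
      · left
        rcases hx with rfl | rfl <;> linarith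
    rcases hx2 with h3 | h3
    · filter_upwards [Iio_mem_nhds h3] with y hy _ _
      exact Or.inl hy
    · filter_upwards [Ioi_mem_nhds h3] with y hy _ _
      exact Or.inr hy
  · filter_upwards with y hy1 hy2
    exact absurd ⟨hy1, hy2⟩ h

theorem deriv_zero [Finite P] {p : P} (hp : kind p = 0) :
    (derivative g).eval (a p) < 0 ∧ 0 < (derivative g).eval (b p) := by
  have hp2 : kind p ≠ 2 := by rw [hp]; decide
  have hlt := I.lt p hp2
  constructor
  · by_contra hcon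
    have hd : 0 < (derivative g).eval (a p) :=
      lt_of_le_of_ne (not_lt.1 hcon) (S.simple _ (I.root p hp2).1).symm
    obtain ⟨_, h⟩ := poly_near_of_deriv_pos (I.root p hp2).1 hd
    have h2 := S.nhds_notMem I hp (Or.inl (rfl : a p = a p))
    obtain ⟨y, ⟨hy1, hy2⟩, hy3⟩ :=
      ((h.and (mem_nhdsWithin_of_mem_nhds h2)).and (self_mem_nhdsWithin (s := Iio (a p)))).exists
    obtain ⟨q, hq, h3, h4⟩ := (I.in0 y).1 (S.sub0 (S.mem_zero hy1))
    by_cases hqp : q = p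
    · subst hqp
      linarith
    · rcases hy2 q hqp hq with h5 | h5 <;> linarith
  · by_contra hcon
    have hd : (derivative g).eval (b p) < 0 :=
      lt_of_le_of_ne (not_lt.1 hcon) (S.simple _ (I.root p hp2).2)
    obtain ⟨h, _⟩ := poly_near_of_deriv_neg (I.root p hp2).2 hd
    have h2 := S.nhds_notMem I hp (Or.inr (rfl : b p = b p))
    obtain ⟨y, ⟨hy1, hy2⟩, hy3⟩ :=
      ((h.and (mem_nhdsWithin_of_mem_nhds h2)).and (self_mem_nhdsWithin (s := Ioi (b p)))).exists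
    obtain ⟨q, hq, h3, h4⟩ := (I.in0 y).1 (S.sub0 (S.mem_zero hy1))
    by_cases hqp : q = p
    · subst hqp
      linarith
    · rcases hy2 q hqp hq with h5 | h5 <;> linarith

end Slc

/-! ### the slices of the regions -/

theorem exists_bound {K0 : Set RP2} (hc : IsClosed K0) (hK : centre ∉ K0) (θ : ℝ) :
    ∃ R : ℝ, ∀ x : ℝ, pt θ x ∈ K0 → |x| ≤ R := by
  have hne : ∀ t : ℝ, (![Real.cos θ * t, Real.sin θ * t, 1] : Fin 3 → ℝ) ≠ 0 := by
    intro t h
    have := congrFun h 2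
    simp at this
  let φ : ℝ → {v : Fin 3 → ℝ // v ≠ 0} := fun t => ⟨![Real.cos θ * t, Real.sin θ * t, 1], hne t⟩
  have hφ : Continuous φ := by
    refine Continuous.subtype_mk ?_ _
    refine continuous_pi fun i => ?_
    fin_cases i
    · exact continuous_const.mul continuous_id
    · exact continuous_const.mul continuous_id
    · exact continuous_const
  have hc2 := continuous_mkRP2.comp hφ
  have h0 : Projectivization.mk ℝ (φ 0).1 (φ 0).2 = centre := by
    have : φ 0 = ⟨![0, 0, 1], fun h => by simpa using congrFun h 2⟩ := by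
      apply Subtype.ext
      simp [φ]
    rw [this]
    rfl
  have hopen := hc.isOpen_compl.preimage hc2
  have hmem : (0 : ℝ) ∈ ((fun v : {v : Fin 3 → ℝ // v ≠ 0} => Projectivization.mk ℝ v.1 v.2) ∘ φ) ⁻¹'
      K0ᶜ := by
    change Projectivization.mk ℝ (φ 0).1 (φ 0).2 ∈ K0ᶜ
    rw [h0]
    exact hK
  obtain ⟨δ, hδ, hball⟩ := Metric.isOpen_iff.1 hopen 0 hmem
  refine ⟨δ⁻¹, fun x hx => ?_⟩
  by_contra hcon
  rw [not_le] at hcon
  have hx0 : x ≠ 0 := by
    rintro rfl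
    rw [abs_zero] at hcon
    exact absurd (inv_pos.2 hδ) (not_lt.2 hcon.le)
  have h1 : x⁻¹ ∈ Metric.ball (0 : ℝ) δ := by
    rw [Metric.mem_ball, dist_zero_right, Real.norm_eq_abs, abs_inv]
    exact inv_lt_of_inv_lt₀ hδ hcon
  refine hball h1 ?_
  have h2 : ((fun v : {v : Fin 3 → ℝ // v ≠ 0} => Projectivization.mk ℝ v.1 v.2) ∘ φ) x⁻¹ = pt θ x := by
    change Projectivization.mk ℝ _ _ = Projectivization.mk ℝ _ _
    rw [Projectivization.mk_eq_mk_iff']
    refine ⟨x⁻¹, ?_⟩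
    ext i
    fin_cases i
    · simp [φ, mul_comm]
    · simp [φ, mul_comm]
    · simp [φ, hx0]
  rw [h2]
  exact hx

namespace Ctx

open Line

variable {n : Type} [Fintype n] [DecidableEq n] (X : Ctx n)

/-- real roots -/
theorem gr_eval_re {θ : ℝ} (h : circ θ ∈ Star X.c X.Z) {i : Fin 8} (hi : (X.eta θ i).im = 0) :
    (gr X.f θ).eval (X.eta θ i).re = 0 := by
  have h1 := X.eta_root h i
  have h2 : X.eta θ i = (((X.eta θ i).re : ℝ) : ℂ) := Complex.ext rfl (by simpa using hi)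
  rw [h2, ← aeval_eq_eval_map, aeval_ofReal] at h1
  exact_mod_cast h1

theorem sig_sq_re {θ : ℝ} (h : circ θ ∈ Star X.c X.Z) {i : Fin 8} (hi : (X.eta θ i).im = 0) :
    X.sig θ i ^ 2 = (((derivative (gr X.f θ)).eval (X.eta θ i).re : ℝ) : ℂ) := by
  have h1 := X.sig_sq h i
  have h2 : X.eta θ i = (((X.eta θ i).re : ℝ) : ℂ) := Complex.ext rfl (by simpa using hi)
  rw [h2, ← aeval_eq_eval_map, aeval_ofReal] at h1
  exact h1

theorem exists_eta_of_root {θ : ℝ} (h : circ θ ∈ Star X.c X.Z) {x : ℝ}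
    (hx : (gr X.f θ).eval x = 0) : ∃ i, X.eta θ i = (x : ℂ) := by
  apply X.eta_surj h
  rw [← aeval_eq_eval_map, aeval_ofReal, hx]
  simp

theorem slc {θ : ℝ} (h : circ θ ∈ Star X.c X.Z) :
    Slc {x | pt θ x ∈ X.K0} {x | pt θ x ∈ interior X.K0} {x | pt θ x ∈ X.K1}
      {x | pt θ x ∈ interior X.K1} (gr X.f θ) := by
  have hc : Continuous (fun x : ℝ => pt θ x) :=
    continuous_pt.comp (continuous_const.prodMk continuous_id)
  refine ⟨X.reg.closed0.preimage hc, X.reg.closed1.preimage hc, isOpen_interior.preimage hc,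
    isOpen_interior.preimage hc, fun x hx => interior_subset (s := X.K0) hx,
    fun x hx => interior_subset (s := X.K1) hx, fun x hx => X.reg.sub hx, fun x hx => X.reg.pos θ x hx, fun x hx hx1 => X.reg.neg θ x hx hx1,
    fun x hx => X.reg.posi θ x hx, fun x hx hx1 => X.reg.zero θ x (Or.inl ⟨subset_closure hx, hx1⟩),
    fun x hx hx1 => X.reg.zero θ x (Or.inr ⟨subset_closure hx, hx1⟩),
    exists_bound X.reg.closed0 X.reg.centre θ, fun x hx hd => ?_⟩
  obtain ⟨i, hi⟩ := X.exists_eta_of_root h hx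
  have him : (X.eta θ i).im = 0 := by rw [hi]; simp
  have h1 := X.sig_sq_re h him
  have hre : (X.eta θ i).re = x := by rw [hi]; simp
  rw [hre, hd] at h1
  exact X.sig_ne_zero h i (pow_eq_zero_iff two_ne_zero |>.1 (by simpa using h1))

/-- the fields of a pairing without the signs -/
structure Pre (θ : ℝ) (A B : Fin 4 → Fin 8) (kind : Fin 4 → Fin 3) : Prop where
  inj : Function.Injective (Sum.elim A B)
  cpx : ∀ p, kind p = 2 → 0 < (X.eta θ (A p)).im ∧
    X.eta θ (B p) = (starRingEnd ℂ) (X.eta θ (A p))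
  real : ∀ p, kind p ≠ 2 → (X.eta θ (A p)).im = 0 ∧ (X.eta θ (B p)).im = 0 ∧
    (X.eta θ (A p)).re < (X.eta θ (B p)).re
  in0 : ∀ η : ℝ, pt θ η ∈ X.K0 ↔ ∃ p, kind p = 0 ∧
    (X.eta θ (A p)).re ≤ η ∧ η ≤ (X.eta θ (B p)).re
  in1 : ∀ η : ℝ, pt θ η ∈ X.K1 ↔ ∃ p, kind p = 1 ∧
    (X.eta θ (A p)).re ≤ η ∧ η ≤ (X.eta θ (B p)).re

variable {X} {θ : ℝ} {A B : Fin 4 → Fin 8} {kind : Fin 4 → Fin 3} {ζ : Fin 4 → ℂ}

theorem Pairing.pre (P : X.Pairing θ A B kind ζ) : X.Pre θ A B kind :=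
  ⟨P.inj, P.cpx, P.real, P.in0, P.in1⟩

theorem Pre.ivs (P : X.Pre θ A B kind) (h : X.Reg θ) :
    Ivs {x | pt θ x ∈ X.K0} {x | pt θ x ∈ X.K1} (gr X.f θ) (fun p => (X.eta θ (A p)).re)
      (fun p => (X.eta θ (B p)).re) kind := by
  have key : ∀ i j : Fin 8, (X.eta θ i).im = 0 → (X.eta θ j).im = 0 →
      (X.eta θ i).re = (X.eta θ j).re → i = j := by
    intro i j hi hj hij
    exact X.eta_injective h (Complex.ext hij (hi.trans hj.symm))
  refine ⟨fun p hp => ⟨X.gr_eval_re h (P.real p hp).1, X.gr_eval_re h (P.real p hp).2.1⟩,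
    fun p hp => (P.real p hp).2.2, fun p q hp hq e => ?_, fun p q hp hq e => ?_,
    fun p q hp hq e => ?_, fun x => P.in0 x, fun x => P.in1 x⟩
  · have := @P.inj (Sum.inl p) (Sum.inl q) (key _ _ (P.real p hp).1 (P.real q hq).1 e)
    exact Sum.inl.inj this
  · have := @P.inj (Sum.inr p) (Sum.inr q) (key _ _ (P.real p hp).2.1 (P.real q hq).2.1 e)
    exact Sum.inr.inj this
  · have := @P.inj (Sum.inl p) (Sum.inr q) (key _ _ (P.real p hp).1 (P.real q hq).2.1 e)
    exact absurd this (by simp)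

/-- the roots of a pairing are a configuration in the sense of `Transv` -/
theorem Pre.conf (P : X.Pre θ A B kind) (h : X.Reg θ) :
    Conf (fun p => X.eta θ (A p)) (fun p => X.eta θ (B p)) kind where
  real := P.real
  cpx := P.cpx
  inj := by
    have : Sum.elim (fun p => X.eta θ (A p)) (fun p => X.eta θ (B p)) = X.eta θ ∘ Sum.elim A B := by
      funext i
      rcases i with i | i <;> rfl
    rw [this]
    exact (X.eta_injective h).comp P.inj
  disj := fun p q hpq hk h2 => (X.slc h).disj (P.ivs h) hpq hk h2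
  parent := fun p hp => (X.slc h).parent (P.ivs h) hp

theorem Pairing.conf (P : X.Pairing θ A B kind ζ) (h : X.Reg θ) :
    Conf (fun p => X.eta θ (A p)) (fun p => X.eta θ (B p)) kind := P.pre.conf h

/-- the signs of the derivative at the ends of an interval of depth 0 -/
theorem Pre.deriv_zero (P : X.Pre θ A B kind) (h : X.Reg θ) {p : Fin 4} (hp : kind p = 0) :
    (derivative (gr X.f θ)).eval (X.eta θ (A p)).re < 0 ∧
      0 < (derivative (gr X.f θ)).eval (X.eta θ (B p)).re := (X.slc h).deriv_zero (P.ivs h) hp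

/-- the signs of the derivative at the ends of an interval of depth 1 -/
theorem Pre.deriv_one (P : X.Pre θ A B kind) (h : X.Reg θ) {p : Fin 4} (hp : kind p = 1) :
    0 < (derivative (gr X.f θ)).eval (X.eta θ (A p)).re ∧
      (derivative (gr X.f θ)).eval (X.eta θ (B p)).re < 0 := (X.slc h).deriv_one (P.ivs h) hp

theorem sign_aux {z : ℂ} {r : ℝ} (hr : r < 0) (hz : z ^ 2 = (r : ℂ)) :
    -I * z / ‖z‖ = 1 ∨ -I * z / ‖z‖ = -1 := by
  have h0 : z ≠ 0 := by
    rintro rfl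
    rw [zero_pow two_ne_zero] at hz
    exact hr.ne (by exact_mod_cast hz.symm)
  have hn : (‖z‖ : ℂ) ≠ 0 := by exact_mod_cast (norm_ne_zero_iff.2 h0)
  have hn2 : ‖z‖ ^ 2 = -r := by
    rw [← norm_pow, hz, Complex.norm_real, Real.norm_eq_abs, abs_of_neg hr]
  apply sq_eq_one_iff.1
  rw [div_pow, mul_pow, hz, neg_sq, I_sq]
  have hn3 : ((‖z‖ : ℂ)) ^ 2 = -(r : ℂ) := by exact_mod_cast congrArg (fun t : ℝ => (t : ℂ)) hn2
  rw [hn3]
  have hr2 : (r : ℂ) ≠ 0 := by exact_mod_cast hr.ne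
  field_simp

/-- the square of the sign of a pair is one -/
theorem Pre.zeta_sq (P : X.Pre θ A B kind) (h : X.Reg θ) (p : Fin 4) :
    X.zeta θ (A p) (B p) (kind p) = 1 ∨ X.zeta θ (A p) (B p) (kind p) = -1 := by
  unfold zeta
  by_cases h2 : kind p = 2
  · rw [if_pos h2]
    apply sq_eq_one_iff.1
    have h3 := X.sig_sq h (B p)
    rw [(P.cpx p h2).2, ← aeval_eq_eval_map, Polynomial.aeval_conj, aeval_eq_eval_map,
      ← X.sig_sq h (A p)] at h3
    rw [div_pow, h3, map_pow]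
    exact div_self (pow_ne_zero _ ((_root_.map_ne_zero _).2 (X.sig_ne_zero h (A p))))
  · rw [if_neg h2]
    have hA := X.sig_sq_re h (P.real p h2).1
    have hB := X.sig_sq_re h (P.real p h2).2.1
    have hprod : (X.sig θ (A p) * X.sig θ (B p)) ^ 2 =
        (((derivative (gr X.f θ)).eval (X.eta θ (A p)).re *
          (derivative (gr X.f θ)).eval (X.eta θ (B p)).re : ℝ) : ℂ) := by
      rw [mul_pow, hA, hB, ofReal_mul]
    refine sign_aux ?_ hprod
    have h01 : kind p = 0 ∨ kind p = 1 := by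
      have : ∀ k : Fin 3, k ≠ 2 → k = 0 ∨ k = 1 := by decide
      exact this _ h2
    rcases h01 with h0 | h1
    · exact mul_neg_of_neg_of_pos (P.deriv_zero h h0).1 (P.deriv_zero h h0).2
    · exact mul_neg_of_pos_of_neg (P.deriv_one h h1).1 (P.deriv_one h h1).2

/-- a pairing from its fields without the signs -/
theorem Pre.pairing (P : X.Pre θ A B kind) (h : X.Reg θ) :
    X.Pairing θ A B kind fun p => X.zeta θ (A p) (B p) (kind p) :=
  ⟨P.inj, P.cpx, P.real, P.in0, P.in1, fun _ => rfl, P.zeta_sq h⟩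

end Ctx

end Pool.Agent.Rohlin
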