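import Pool.Agent.Rohlin.EvDefs
import Pool.Agent.Rohlin.Pair0
import Pool.Agent.Rohlin.DetForm

/-!
# Events: the determinants in the limit, and along the arc of the recoupling
-/

set_option autoImplicit false

namespace Pool.Agent.Rohlin

open Polynomial Complex Set Matrix Filter Topology

/-- multiplication of the rows by 8-th roots of unity -/
theorem det_units {k : ℕ} (M M₀ : Matrix (Fin k) (Fin k) ℂ)
    (h : ∀ p, ∃ u : ℂ, u ^ 8 = 1 ∧ ∀ j, M p j = u * M₀ p j) : M.det ^ 8 = M₀.det ^ 8 := by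
  choose u hu hM using h
  have h1 : M = Matrix.diagonal u * M₀ := by
    ext p j
    rw [Matrix.diagonal_mul, hM]
  rw [h1, Matrix.det_mul, Matrix.det_diagonal, mul_pow, ← Finset.prod_pow]
  simp only [hu, Finset.prod_const_one, one_mul]

namespace Ctx

variable {n : Type} [Fintype n] [DecidableEq n] {X : Ctx n}

section T3X

variable {θ : ℝ} {A B : Fin 4 → Fin 8} {kind : Fin 4 → Fin 3} {z : Fin 4 → ℂ}

/-- the polynomial of the configuration -/
theorem nodal_eq (hreg : X.Reg θ) (h : X.Pairing θ A B kind z) :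
    Lagrange.nodal Finset.univ (Sum.elim (fun p => X.eta θ (A p)) (fun p => X.eta θ (B p))) =
      (gr X.f θ).map (algebraMap ℝ ℂ) := by
  have hbij : Function.Bijective (Sum.elim A B) := by
    rw [Fintype.bijective_iff_injective_and_card]
    exact ⟨h.inj, by simp⟩
  rw [X.gr_map_eq_prod hreg, Lagrange.nodal_eq, ← hbij.prod_comp]
  refine Finset.prod_congr rfl fun i _ => ?_
  rcases i with i | i <;> rfl

theorem sigA_sq (hreg : X.Reg θ) (h : X.Pairing θ A B kind z) (p : Fin 4) :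
    X.sig θ (A p) ^ 2 = (Lagrange.nodal Finset.univ (Sum.elim (fun p => X.eta θ (A p))
      (fun p => X.eta θ (B p)))).derivative.eval (X.eta θ (A p)) := by
  rw [nodal_eq hreg h, X.sig_sq hreg, derivative_map]

theorem sigB_sq (hreg : X.Reg θ) (h : X.Pairing θ A B kind z) (p : Fin 4) :
    X.sig θ (B p) ^ 2 = (Lagrange.nodal Finset.univ (Sum.elim (fun p => X.eta θ (A p))
      (fun p => X.eta θ (B p)))).derivative.eval (X.eta θ (B p)) := by
  rw [nodal_eq hreg h, X.sig_sq hreg, derivative_map]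

/-- the square of `σ` at the ends of an interval of depth 0 -/
theorem sig_sq_out (hreg : X.Reg θ) (h : X.Pairing θ A B kind z) (p : Fin 4) (hp : kind p = 0) :
    X.sig θ (A p) ^ 2 = -(‖X.sig θ (A p)‖ : ℂ) ^ 2 ∧
      X.sig θ (B p) ^ 2 = (‖X.sig θ (B p)‖ : ℂ) ^ 2 := by
  have hC := h.conf hreg
  have hw := wt_simple hC
  obtain ⟨i1, i2, i3, i4⟩ := hw.k0 p hp
  have key : ∀ (s : ℂ) (w : ℂ), s ^ 2 * w = 1 → w.im = 0 →
      (w.re < 0 → s ^ 2 = -(‖s‖ : ℂ) ^ 2) ∧ (0 < w.re → s ^ 2 = (‖s‖ : ℂ) ^ 2) := by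
    intro s w h1 h2
    have h3 : w = ((w.re : ℝ) : ℂ) := Complex.ext rfl (by simpa using h2)
    have h4 : s ^ 2 = ((w.re⁻¹ : ℝ) : ℂ) := by
      rw [Complex.ofReal_inv, ← h3]
      exact eq_inv_of_mul_eq_one_left h1
    have h5 : ‖s‖ ^ 2 = |w.re⁻¹| := by
      rw [← norm_pow, h4, Complex.norm_real, Real.norm_eq_abs]
    constructor
    · intro hr
      rw [h4, ← Complex.ofReal_pow, h5, abs_of_neg (inv_lt_zero.2 hr)]
      push_cast
      ring
    · intro hr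
      rw [h4, ← Complex.ofReal_pow, h5, abs_of_pos (inv_pos.2 hr)]
  have hA : X.sig θ (A p) ^ 2 * Lagrange.nodalWeight Finset.univ (Sum.elim (fun p => X.eta θ (A p))
      (fun p => X.eta θ (B p))) (Sum.inl p) = 1 := by
    rw [Lagrange.nodalWeight_eq_eval_derivative_nodal (Finset.mem_univ _), sigA_sq hreg h]
    refine mul_inv_cancel₀ ?_
    rw [← sigA_sq hreg h]
    exact pow_ne_zero _ (X.sig_ne_zero hreg _)
  have hB : X.sig θ (B p) ^ 2 * Lagrange.nodalWeight Finset.univ (Sum.elim (fun p => X.eta θ (A p))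
      (fun p => X.eta θ (B p))) (Sum.inr p) = 1 := by
    rw [Lagrange.nodalWeight_eq_eval_derivative_nodal (Finset.mem_univ _), sigB_sq hreg h]
    refine mul_inv_cancel₀ ?_
    rw [← sigB_sq hreg h]
    exact pow_ne_zero _ (X.sig_ne_zero hreg _)
  exact ⟨(key _ _ hA i1).1 i3, (key _ _ hB i2).2 i4⟩

/-- the virtual sign of two real labels -/
theorem vz_eq {i j : Fin 8} (hi : (X.eta θ i).im = 0) (hj : (X.eta θ j).im = 0)
    (hlt : (X.eta θ i).re < (X.eta θ j).re) :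
    X.vz θ i j = -I * (X.sig θ i * X.sig θ j) / ((‖X.sig θ i‖ : ℂ) * ‖X.sig θ j‖) := by
  unfold Ctx.vz
  rw [I_zeta_real hi hj hlt, norm_mul, Complex.ofReal_mul]
  linear_combination (-(-I * (X.sig θ i * X.sig θ j) / ((‖X.sig θ i‖ : ℂ) * ‖X.sig θ j‖))) * I_sq

theorem zeta_eq (h : X.Pairing θ A B kind z) (p : Fin 4) (hp : kind p = 0) :
    z p = -I * (X.sig θ (A p) * X.sig θ (B p)) / ((‖X.sig θ (A p)‖ : ℂ) * ‖X.sig θ (B p)‖) := by
  rw [h.zeta p]
  unfold Ctx.zeta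
  rw [if_neg (by rw [hp]; decide), norm_mul, Complex.ofReal_mul]

variable {p₁ p₀ : Fin 4}

/-- the signs of the virtual pairs -/
theorem vz_facts (hreg : X.Reg θ) (h : X.Pairing θ A B kind z) (hk1 : kind p₁ = 0)
    (hk0 : kind p₀ = 0) (hord : (X.eta θ (B p₁)).re < (X.eta θ (A p₀)).re) :
    X.vz θ (A p₁) (B p₀) ^ 2 = 1 ∧ X.vz θ (B p₁) (A p₀) ^ 2 = 1 ∧
      z p₁ * z p₀ * X.vz θ (A p₁) (B p₀) * X.vz θ (B p₁) (A p₀) = 1 := by
  obtain ⟨r1, r2, r12⟩ := h.real p₁ (by rw [hk1]; decide)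
  obtain ⟨r3, r4, r34⟩ := h.real p₀ (by rw [hk0]; decide)
  obtain ⟨s1, s2⟩ := sig_sq_out hreg h p₁ hk1
  obtain ⟨s3, s4⟩ := sig_sq_out hreg h p₀ hk0
  have n1 : (‖X.sig θ (A p₁)‖ : ℂ) ≠ 0 :=
    Complex.ofReal_ne_zero.2 (norm_ne_zero_iff.2 (X.sig_ne_zero hreg _))
  have n2 : (‖X.sig θ (B p₁)‖ : ℂ) ≠ 0 :=
    Complex.ofReal_ne_zero.2 (norm_ne_zero_iff.2 (X.sig_ne_zero hreg _))
  have n3 : (‖X.sig θ (A p₀)‖ : ℂ) ≠ 0 :=
    Complex.ofReal_ne_zero.2 (norm_ne_zero_iff.2 (X.sig_ne_zero hreg _))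
  have n4 : (‖X.sig θ (B p₀)‖ : ℂ) ≠ 0 :=
    Complex.ofReal_ne_zero.2 (norm_ne_zero_iff.2 (X.sig_ne_zero hreg _))
  rw [vz_eq r1 r4 (by linarith), vz_eq r2 r3 hord, zeta_eq h p₁ hk1, zeta_eq h p₀ hk0]
  refine ⟨?_, ?_, ?_⟩
  · rw [div_pow, mul_pow, mul_pow, neg_sq, I_sq, s1, s4]
    field_simp
  · rw [div_pow, mul_pow, mul_pow, neg_sq, I_sq, s2, s3]
    field_simp
  · have h1 : -I * (X.sig θ (A p₁) * X.sig θ (B p₁)) /
          ((‖X.sig θ (A p₁)‖ : ℂ) * ‖X.sig θ (B p₁)‖) *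
        (-I * (X.sig θ (A p₀) * X.sig θ (B p₀)) / ((‖X.sig θ (A p₀)‖ : ℂ) * ‖X.sig θ (B p₀)‖)) *
        (-I * (X.sig θ (A p₁) * X.sig θ (B p₀)) / ((‖X.sig θ (A p₁)‖ : ℂ) * ‖X.sig θ (B p₀)‖)) *
        (-I * (X.sig θ (B p₁) * X.sig θ (A p₀)) / ((‖X.sig θ (B p₁)‖ : ℂ) * ‖X.sig θ (A p₀)‖)) =
        (I ^ 2) ^ 2 * (X.sig θ (A p₁) ^ 2 * X.sig θ (B p₁) ^ 2 * X.sig θ (A p₀) ^ 2 *
          X.sig θ (B p₀) ^ 2) / ((‖X.sig θ (A p₁)‖ : ℂ) * ‖X.sig θ (B p₁)‖ *
            ‖X.sig θ (A p₀)‖ * ‖X.sig θ (B p₀)‖) ^ 2 := by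
      field_simp
    rw [h1, s1, s2, s3, s4, I_sq]
    field_simp

/-- **T3X** -/
theorem arc_det (hreg : X.Reg θ) (h : X.Pairing θ A B kind z) (h10 : p₁ ≠ p₀) (hk1 : kind p₁ = 0)
    (hk0 : kind p₀ = 0) (hord : (X.eta θ (B p₁)).re < (X.eta θ (A p₀)).re)
    (hadj : ∀ q, kind q = 0 → q ≠ p₁ → q ≠ p₀ →
      (X.eta θ (B q)).re < (X.eta θ (A p₁)).re ∨ (X.eta θ (B p₀)).re < (X.eta θ (A q)).re)
    (c S : ℝ) (hc : 0 ≤ c) (hS : 0 ≤ S) (hcS : c ^ 2 + S ^ 2 = 1) :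
    ∃ x : ℝ, 0 < x ∧ (arcRows (vfam (X.eta θ) (X.sig θ)) A B z p₁ p₀
      (X.vz θ (A p₁) (B p₀)) (X.vz θ (B p₁) (A p₀)) (z p₁ * X.vz θ (A p₁) (B p₀)) c S).det ^ 8 =
        x := by
  have hC := h.conf hreg
  obtain ⟨r1, r2, r12⟩ := h.real p₁ (by rw [hk1]; decide)
  obtain ⟨r3, r4, r34⟩ := h.real p₀ (by rw [hk0]; decide)
  obtain ⟨s1, s2⟩ := sig_sq_out hreg h p₁ hk1
  obtain ⟨s3, s4⟩ := sig_sq_out hreg h p₀ hk0
  have e1 : X.eta θ (A p₁) = (((X.eta θ (A p₁)).re : ℝ) : ℂ) := Complex.ext rfl (by simpa using r1)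
  have e2 : X.eta θ (B p₁) = (((X.eta θ (B p₁)).re : ℝ) : ℂ) := Complex.ext rfl (by simpa using r2)
  have e3 : X.eta θ (A p₀) = (((X.eta θ (A p₀)).re : ℝ) : ℂ) := Complex.ext rfl (by simpa using r3)
  have e4 : X.eta θ (B p₀) = (((X.eta θ (B p₀)).re : ℝ) : ℂ) := Complex.ext rfl (by simpa using r4)
  have z1 := X.sig_ne_zero hreg (A p₁)
  have z2 := X.sig_ne_zero hreg (B p₁)
  have z3 := X.sig_ne_zero hreg (A p₀)
  have z4 := X.sig_ne_zero hreg (B p₀)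
  have n1 : (‖X.sig θ (A p₁)‖ : ℂ) ≠ 0 := Complex.ofReal_ne_zero.2 (norm_ne_zero_iff.2 z1)
  have n2 : (‖X.sig θ (B p₁)‖ : ℂ) ≠ 0 := Complex.ofReal_ne_zero.2 (norm_ne_zero_iff.2 z2)
  have n3 : (‖X.sig θ (A p₀)‖ : ℂ) ≠ 0 := Complex.ofReal_ne_zero.2 (norm_ne_zero_iff.2 z3)
  have n4 : (‖X.sig θ (B p₀)‖ : ℂ) ≠ 0 := Complex.ofReal_ne_zero.2 (norm_ne_zero_iff.2 z4)
  let M₀ : Matrix (Fin 4) (Fin 4) ℂ := fun p j =>
    if p = p₁ then (((X.eta θ (A p₁)).re ^ (j : ℕ) / ‖X.sig θ (A p₁)‖ +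
      S * ((X.eta θ (B p₀)).re ^ (j : ℕ) / ‖X.sig θ (B p₀)‖) +
      c * ((X.eta θ (B p₁)).re ^ (j : ℕ) / ‖X.sig θ (B p₁)‖) : ℝ) : ℂ)
    else if p = p₀ then ((S * ((X.eta θ (B p₁)).re ^ (j : ℕ) / ‖X.sig θ (B p₁)‖) -
      c * ((X.eta θ (B p₀)).re ^ (j : ℕ) / ‖X.sig θ (B p₀)‖) -
      (X.eta θ (A p₀)).re ^ (j : ℕ) / ‖X.sig θ (A p₀)‖ : ℝ) : ℂ)
    else X.eta θ (A p) ^ (j : ℕ) / X.sig θ (A p) -
      I * zet (kind p) (X.sig θ (A p)) (X.sig θ (B p)) *
        (X.eta θ (B p) ^ (j : ℕ) / X.sig θ (B p))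
  obtain ⟨x, hx, hdet⟩ := det_arc (k := 4) hC (sigA_sq hreg h) (sigB_sq hreg h) h10 hk1 hk0 hord
    hadj c S hc hS hcS M₀ (fun p hp1 hp2 j => by simp only [M₀, if_neg hp1, if_neg hp2])
    (fun j => by simp only [M₀, if_true]) (fun j => by simp only [M₀, if_neg h10.symm, if_true])
  refine ⟨x, hx, ?_⟩
  rw [← hdet]
  refine det_units _ _ fun p => ?_
  by_cases hp1 : p = p₁
  · subst hp1
    refine ⟨-(X.sig θ (A p) / ‖X.sig θ (A p)‖), ?_, fun j => ?_⟩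
    · have h6 : (-(X.sig θ (A p) / ‖X.sig θ (A p)‖)) ^ 2 = -1 := by
        rw [neg_sq, div_pow, s1]
        field_simp
      calc (-(X.sig θ (A p) / ‖X.sig θ (A p)‖)) ^ 8 =
          ((-(X.sig θ (A p) / ‖X.sig θ (A p)‖)) ^ 2) ^ 4 := by ring
        _ = 1 := by rw [h6]; norm_num
    · have hv := (vz_facts hreg h hk1 hk0 hord).1
      have hz12 := zeta_eq h p hk1
      have hz14 := vz_eq (X := X) (θ := θ) r1 r4 (by linarith)
      simp only [M₀, arcRows, if_true, vfam]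
      have f1 : (X.sig θ (A p))⁻¹ = -X.sig θ (A p) / (‖X.sig θ (A p)‖ : ℂ) ^ 2 := by
        field_simp
        rw [s1]
        ring
      have f2 : I * X.vz θ (A p) (B p₀) / X.sig θ (B p₀) =
          X.sig θ (A p) / ((‖X.sig θ (A p)‖ : ℂ) * ‖X.sig θ (B p₀)‖) := by
        rw [hz14]
        field_simp
        linear_combination -I_sq
      have f3 : I * X.vz θ (A p) (B p₀) * (z p * X.vz θ (A p) (B p₀)) / X.sig θ (B p) =
          X.sig θ (A p) / ((‖X.sig θ (A p)‖ : ℂ) * ‖X.sig θ (B p)‖) := by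
        have h7 : I * X.vz θ (A p) (B p₀) * (z p * X.vz θ (A p) (B p₀)) = I * z p := by
          linear_combination (I * z p) * hv
        rw [h7, hz12]
        field_simp
        linear_combination -I_sq
      push_cast
      rw [← e1, ← e2, ← e4]
      calc X.eta θ (A p) ^ (j : ℕ) / X.sig θ (A p) - I * X.vz θ (A p) (B p₀) *
            (S * (X.eta θ (B p₀) ^ (j : ℕ) / X.sig θ (B p₀)) +
              z p * X.vz θ (A p) (B p₀) * c * (X.eta θ (B p) ^ (j : ℕ) / X.sig θ (B p)))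
          = X.eta θ (A p) ^ (j : ℕ) * (X.sig θ (A p))⁻¹ -
            S * X.eta θ (B p₀) ^ (j : ℕ) * (I * X.vz θ (A p) (B p₀) / X.sig θ (B p₀)) -
            c * X.eta θ (B p) ^ (j : ℕ) *
              (I * X.vz θ (A p) (B p₀) * (z p * X.vz θ (A p) (B p₀)) / X.sig θ (B p)) := by ring
        _ = _ := by
          rw [f1, f2, f3]
          field_simp
          ring
  by_cases hp0 : p = p₀
  · subst hp0
    refine ⟨X.sig θ (B p₁) / ‖X.sig θ (B p₁)‖, ?_, fun j => ?_⟩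
    · have h6 : (X.sig θ (B p₁) / ‖X.sig θ (B p₁)‖) ^ 2 = 1 := by
        rw [div_pow, s2]
        field_simp
      calc (X.sig θ (B p₁) / ‖X.sig θ (B p₁)‖) ^ 8 =
          ((X.sig θ (B p₁) / ‖X.sig θ (B p₁)‖) ^ 2) ^ 4 := by ring
        _ = 1 := by rw [h6]; norm_num
    · have hz12 := zeta_eq h p₁ hk1
      have hz14 := vz_eq (X := X) (θ := θ) r1 r4 (by linarith)
      have hz23 := vz_eq (X := X) (θ := θ) r2 r3 hord
      simp only [M₀, arcRows, if_true, if_neg hp1, vfam]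
      have f1 : (X.sig θ (B p₁))⁻¹ = X.sig θ (B p₁) / (‖X.sig θ (B p₁)‖ : ℂ) ^ 2 := by
        field_simp
        rw [s2]
      have f2 : z p₁ * X.vz θ (A p₁) (B p) / X.sig θ (B p) =
          X.sig θ (B p₁) / ((‖X.sig θ (B p₁)‖ : ℂ) * ‖X.sig θ (B p)‖) := by
        rw [hz12, hz14]
        have h7 : -I * (X.sig θ (A p₁) * X.sig θ (B p₁)) /
            ((‖X.sig θ (A p₁)‖ : ℂ) * ‖X.sig θ (B p₁)‖) *
            (-I * (X.sig θ (A p₁) * X.sig θ (B p)) / ((‖X.sig θ (A p₁)‖ : ℂ) * ‖X.sig θ (B p)‖)) /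
            X.sig θ (B p) = I ^ 2 * X.sig θ (A p₁) ^ 2 * X.sig θ (B p₁) /
              ((‖X.sig θ (A p₁)‖ : ℂ) ^ 2 * (‖X.sig θ (B p₁)‖ * ‖X.sig θ (B p)‖)) := by
          field_simp
        rw [h7, s1, I_sq]
        field_simp
      have f3 : I * X.vz θ (B p₁) (A p) / X.sig θ (A p) =
          X.sig θ (B p₁) / ((‖X.sig θ (B p₁)‖ : ℂ) * ‖X.sig θ (A p)‖) := by
        rw [hz23]
        field_simp
        linear_combination -I_sq
      push_cast
      rw [← e2, ← e3, ← e4]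
      calc S * (X.eta θ (B p₁) ^ (j : ℕ) / X.sig θ (B p₁)) -
            z p₁ * X.vz θ (A p₁) (B p) * c * (X.eta θ (B p) ^ (j : ℕ) / X.sig θ (B p)) -
            I * X.vz θ (B p₁) (A p) * (X.eta θ (A p) ^ (j : ℕ) / X.sig θ (A p))
          = S * X.eta θ (B p₁) ^ (j : ℕ) * (X.sig θ (B p₁))⁻¹ -
            c * X.eta θ (B p) ^ (j : ℕ) * (z p₁ * X.vz θ (A p₁) (B p) / X.sig θ (B p)) -
            X.eta θ (A p) ^ (j : ℕ) * (I * X.vz θ (B p₁) (A p) / X.sig θ (A p)) := by ring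
        _ = _ := by
          rw [f1, f2, f3]
          field_simp
  · refine ⟨1, one_pow _, fun j => ?_⟩
    simp only [M₀, arcRows, if_neg hp1, if_neg hp0, vfam, one_mul]
    have : z p = zet (kind p) (X.sig θ (A p)) (X.sig θ (B p)) := by
      rw [h.zeta p]
      rfl
    rw [this]

end T3X

end Ctx

/-! ### the limit configuration at an event -/

theorem ne_zero_of_pow_eight {d : ℂ} (h : ∃ x : ℝ, 0 < x ∧ d ^ 8 = x) : d ≠ 0 := by
  obtain ⟨x, hx, hd⟩ := h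
  rintro rfl
  rw [zero_pow (by norm_num)] at hd
  have : x = 0 := by exact_mod_cast hd.symm
  linarith

/-- a configuration is invariant under conjugation -/
theorem nodal_map_conj {P : Type*} [Fintype P] {A B : P → ℂ} {kind : P → Fin 3}
    (hC : Conf A B kind) : (Lagrange.nodal Finset.univ (Sum.elim A B)).map (starRingEnd ℂ) =
      Lagrange.nodal Finset.univ (Sum.elim A B) := by
  rw [Lagrange.nodal_eq, Fintype.prod_sum_type, ← Finset.prod_mul_distrib, Polynomial.map_prod]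
  refine Finset.prod_congr rfl fun q _ => ?_
  simp only [Sum.elim_inl, Sum.elim_inr, Polynomial.map_mul, Polynomial.map_sub, Polynomial.map_X,
    Polynomial.map_C]
  by_cases h : kind q = 2
  · obtain ⟨-, hB⟩ := hC.cpx q h
    rw [hB, Complex.conj_conj]
    ring
  · obtain ⟨hA, hB, -⟩ := hC.real q h
    rw [Complex.conj_eq_iff_im.2 hA, Complex.conj_eq_iff_im.2 hB]

theorem nodal_deriv_real {P : Type*} [Fintype P] {A B : P → ℂ} {kind : P → Fin 3}
    (hC : Conf A B kind) (x : ℝ) :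
    ((Lagrange.nodal Finset.univ (Sum.elim A B)).derivative.eval (x : ℂ)).im = 0 := by
  rw [← Complex.conj_eq_iff_im]
  have h1 : (Lagrange.nodal Finset.univ (Sum.elim A B)).derivative.map (starRingEnd ℂ) =
      (Lagrange.nodal Finset.univ (Sum.elim A B)).derivative := by
    rw [← derivative_map, nodal_map_conj hC]
  have h2 : ((Lagrange.nodal Finset.univ (Sum.elim A B)).derivative.map (starRingEnd ℂ)).eval
      (starRingEnd ℂ (x : ℂ)) = starRingEnd ℂ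
        ((Lagrange.nodal Finset.univ (Sum.elim A B)).derivative.eval (x : ℂ)) := by
    rw [eval_map, eval₂_at_apply]
  rw [← h2, h1, Complex.conj_ofReal]

namespace Ctx

variable {n : Type} [Fintype n] [DecidableEq n] {X : Ctx n}

namespace EvLim

variable {ts : ℝ} {a b : Fin 8} {e sg : Fin 8 → ℂ} {y₀ : ℝ}

theorem ne_of_ne (h : X.EvLim ts a b e sg y₀) {i j : Fin 8} (hij : i ≠ j) (ha : i ≠ a) (hb : i ≠ b) :
    e i ≠ e j := by
  intro he
  rcases h.inj i j he with h1 | h1 | h1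
  · exact hij h1
  · exact ha h1.1
  · exact hb h1.1

/-- the limit of the squares of `σ` -/
theorem sg_sq_prod (h : X.EvLim ts a b e sg y₀) {i : Fin 8} (ha : i ≠ a) (hb : i ≠ b) :
    sg i ^ 2 = ∏ j ∈ Finset.univ.erase i, (e i - e j) := by
  have h1 : Tendsto (fun θ => X.sig θ i ^ 2) (𝓝[≠] ts) (𝓝 (sg i ^ 2)) := (h.sig_lim i ha hb).pow 2
  have h2 : Tendsto (fun θ => ∏ j ∈ Finset.univ.erase i, (X.eta θ i - X.eta θ j)) (𝓝[≠] ts)
      (𝓝 (∏ j ∈ Finset.univ.erase i, (e i - e j))) :=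
    tendsto_finsetProd _ fun j _ => (h.eta_lim i).sub (h.eta_lim j)
  refine tendsto_nhds_unique (h1.congr' ?_) h2
  filter_upwards [h.reg] with θ hθ
  exact X.sig_sq_prod hθ i

theorem sg_ne_zero (h : X.EvLim ts a b e sg y₀) {i : Fin 8} (ha : i ≠ a) (hb : i ≠ b) :
    sg i ≠ 0 := by
  intro h0
  have h1 := h.sg_sq_prod ha hb
  rw [h0, zero_pow two_ne_zero] at h1
  refine absurd h1.symm (Finset.prod_ne_zero_iff.2 fun j hj => ?_)
  exact sub_ne_zero.2 (h.ne_of_ne (Finset.ne_of_mem_erase hj).symm ha hb)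

/-- the square of `σ` in terms of the polynomial of the other labels -/
theorem sg_sq (h : X.EvLim ts a b e sg y₀) {i : Fin 8} (ha : i ≠ a) (hb : i ≠ b) :
    sg i ^ 2 = (e i - y₀) ^ 2 * (Frest e a b).derivative.eval (e i) := by
  rw [h.sg_sq_prod ha hb]
  have hi : i ∈ Finset.univ.filter (fun i => i ≠ a ∧ i ≠ b) := by simp [ha, hb]
  have h1 : (Frest e a b).derivative.eval (e i) =
      ∏ j ∈ (Finset.univ.filter (fun i => i ≠ a ∧ i ≠ b)).erase i, (e i - e j) := by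
    unfold Frest
    rw [← Finset.mul_prod_erase _ _ hi, derivative_mul]
    simp [Polynomial.eval_prod]
  have h2 : (Finset.univ : Finset (Fin 8)).erase i =
      insert a (insert b ((Finset.univ.filter (fun i => i ≠ a ∧ i ≠ b)).erase i)) := by
    ext j
    simp only [Finset.mem_erase, Finset.mem_univ, and_true, Finset.mem_insert, Finset.mem_filter,
      true_and]
    constructor
    · intro hj
      by_cases h3 : j = a
      · exact Or.inl h3
      · by_cases h4 : j = b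
        · exact Or.inr (Or.inl h4)
        · exact Or.inr (Or.inr ⟨hj, h3, h4⟩)
    · rintro (rfl | rfl | h3)
      · exact ha.symm
      · exact hb.symm
      · exact h3.1
  rw [h1, h2, Finset.prod_insert (by simp [h.ne]), Finset.prod_insert (by simp), h.ea, h.eb]
  ring

variable {A B : Fin 4 → Fin 8} {kind : Fin 4 → Fin 3} {z : Fin 4 → ℂ} {p₀ : Fin 4} {F : Filter ℝ}

section labels

variable (hinj : Function.Injective (Sum.elim A B))
  (hAB : (A p₀ = a ∧ B p₀ = b) ∨ (A p₀ = b ∧ B p₀ = a))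
include hinj hAB

theorem A_ne {p : Fin 4} (hp : p ≠ p₀) : A p ≠ a ∧ A p ≠ b := by
  have h1 : A p ≠ A p₀ := fun h => hp (Sum.inl.inj (@hinj (Sum.inl p) (Sum.inl p₀) h))
  have h2 : A p ≠ B p₀ := fun h => absurd (@hinj (Sum.inl p) (Sum.inr p₀) h) (by simp)
  rcases hAB with ⟨h3, h4⟩ | ⟨h3, h4⟩
  · exact ⟨h3 ▸ h1, h4 ▸ h2⟩
  · exact ⟨h4 ▸ h2, h3 ▸ h1⟩

theorem B_ne {p : Fin 4} (hp : p ≠ p₀) : B p ≠ a ∧ B p ≠ b := by
  have h1 : B p ≠ A p₀ := fun h => absurd (@hinj (Sum.inr p) (Sum.inl p₀) h) (by simp)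
  have h2 : B p ≠ B p₀ := fun h => hp (Sum.inr.inj (@hinj (Sum.inr p) (Sum.inr p₀) h))
  rcases hAB with ⟨h3, h4⟩ | ⟨h3, h4⟩
  · exact ⟨h3 ▸ h1, h4 ▸ h2⟩
  · exact ⟨h4 ▸ h2, h3 ▸ h1⟩

/-- the polynomial of the other labels -/
theorem nodal_eq_Frest (e : Fin 8 → ℂ) :
    Lagrange.nodal Finset.univ (Sum.elim (fun p : {p // p ≠ p₀} => e (A p))
      (fun p : {p // p ≠ p₀} => e (B p))) = Frest e a b := by
  have hbij : Function.Bijective (Sum.elim A B) := by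
    rw [Fintype.bijective_iff_injective_and_card]
    exact ⟨hinj, by simp⟩
  let g : {p // p ≠ p₀} ⊕ {p // p ≠ p₀} → Fin 8 := Sum.elim (fun p => A p) (fun p => B p)
  have hg : Function.Injective g := by
    rintro (p | p) (q | q) hpq
    · have := Sum.inl.inj (@hinj (Sum.inl p.1) (Sum.inl q.1) hpq)
      rw [Subtype.ext this]
    · exact absurd (@hinj (Sum.inl p.1) (Sum.inr q.1) hpq) (by simp)
    · exact absurd (@hinj (Sum.inr p.1) (Sum.inl q.1) hpq) (by simp)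
    · have := Sum.inr.inj (@hinj (Sum.inr p.1) (Sum.inr q.1) hpq)
      rw [Subtype.ext this]
  have himg : Finset.univ.filter (fun i => i ≠ a ∧ i ≠ b) = Finset.univ.image g := by
    ext i
    simp only [Finset.mem_filter, Finset.mem_univ, true_and, Finset.mem_image]
    constructor
    · rintro ⟨h1, h2⟩
      obtain ⟨x, hx⟩ := hbij.2 i
      have hA0 : i ≠ A p₀ ∧ i ≠ B p₀ := by
        rcases hAB with ⟨h3, h4⟩ | ⟨h3, h4⟩
        · exact ⟨h3 ▸ h1, h4 ▸ h2⟩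
        · exact ⟨h3 ▸ h2, h4 ▸ h1⟩
      rcases x with p | p
      · have hp : p ≠ p₀ := by
          rintro rfl
          exact hA0.1 hx.symm
        exact ⟨Sum.inl ⟨p, hp⟩, hx⟩
      · have hp : p ≠ p₀ := by
          rintro rfl
          exact hA0.2 hx.symm
        exact ⟨Sum.inr ⟨p, hp⟩, hx⟩
    · rintro ⟨x, rfl⟩
      rcases x with p | p
      · exact A_ne hinj hAB p.2
      · exact B_ne hinj hAB p.2
  rw [Lagrange.nodal_eq, Frest, himg, Finset.prod_image (fun x _ y _ hxy => hg hxy)]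
  refine Finset.prod_congr rfl fun x _ => ?_
  rcases x with p | p <;> rfl

end labels

section limconf

variable [F.NeBot] (h : X.EvLim ts a b e sg y₀) (hF : F ≤ 𝓝[≠] ts)
  (hp : ∀ᶠ θ in F, X.Pairing θ A B kind z) (hk : kind p₀ = 2)
  (hAB : (A p₀ = a ∧ B p₀ = b) ∨ (A p₀ = b ∧ B p₀ = a))
include h hF hp hk hAB

/-- the configuration of the other labels passes to the limit -/
theorem conf_lim : Conf (fun p : {p // p ≠ p₀} => e (A p)) (fun p : {p // p ≠ p₀} => e (B p))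
    (fun p : {p // p ≠ p₀} => kind p) := by
  have hreg : ∀ᶠ θ in F, X.Reg θ := h.reg.filter_mono hF
  have hC : ∀ᶠ θ in F, Conf (fun p => X.eta θ (A p)) (fun p => X.eta θ (B p)) kind := by
    filter_upwards [hreg, hp] with θ h1 h2
    exact h2.conf h1
  obtain ⟨θ₁, hθ₁⟩ := hp.exists
  have hinj := hθ₁.inj
  have hlim : ∀ i, Tendsto (fun θ => X.eta θ i) F (𝓝 (e i)) := fun i => (h.eta_lim i).mono_left hF
  have hre : ∀ i, Tendsto (fun θ => (X.eta θ i).re) F (𝓝 (e i).re) := fun i =>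
    (Complex.continuous_re.tendsto _).comp (hlim i)
  have him : ∀ i, Tendsto (fun θ => (X.eta θ i).im) F (𝓝 (e i).im) := fun i =>
    (Complex.continuous_im.tendsto _).comp (hlim i)
  have hAB1 : ∀ p q : {p // p ≠ p₀}, e (A p) ≠ e (B q) := by
    intro p q
    obtain ⟨h1, h2⟩ := A_ne hinj hAB p.2
    exact h.ne_of_ne (fun h3 => absurd (@hinj (Sum.inl p.1) (Sum.inr q.1) h3) (by simp)) h1 h2
  have hAim : ∀ p : {p // p ≠ p₀}, kind p ≠ 2 → (e (A p)).im = 0 := by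
    intro p hp2
    refine tendsto_nhds_unique (him (A p)) (tendsto_const_nhds.congr' ?_)
    filter_upwards [hC] with θ hθ
    exact (hθ.real p hp2).1.symm
  have hBim : ∀ p : {p // p ≠ p₀}, kind p ≠ 2 → (e (B p)).im = 0 := by
    intro p hp2
    refine tendsto_nhds_unique (him (B p)) (tendsto_const_nhds.congr' ?_)
    filter_upwards [hC] with θ hθ
    exact (hθ.real p hp2).2.1.symm
  have hABre : ∀ p q : {p // p ≠ p₀}, kind p ≠ 2 → kind q ≠ 2 → (e (A p)).re ≠ (e (B q)).re := by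
    intro p q h1 h2 h3
    exact hAB1 p q (Complex.ext h3 ((hAim p h1).trans (hBim q h2).symm))
  refine ⟨fun p hp2 => ⟨hAim p hp2, hBim p hp2, ?_⟩, fun p hp2 => ?_, ?_, fun p q hpq hkk hp2 => ?_,
    fun p hp1 => ?_⟩
  · refine lt_of_le_of_ne (le_of_tendsto_of_tendsto (hre (A p)) (hre (B p)) ?_)
      (hABre p p hp2 hp2)
    filter_upwards [hC] with θ hθ
    exact (hθ.real p hp2).2.2.le
  · have h1 : e (B p) = starRingEnd ℂ (e (A p)) := by
      refine tendsto_nhds_unique (hlim (B p))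
        (((Complex.continuous_conj.tendsto _).comp (hlim (A p))).congr' ?_)
      filter_upwards [hC] with θ hθ
      exact (hθ.cpx p hp2).2.symm
    refine ⟨lt_of_le_of_ne (ge_of_tendsto (him (A p)) ?_) fun h0 => hAB1 p p ?_, h1⟩
    · filter_upwards [hC] with θ hθ
      exact (hθ.cpx p hp2).1.le
    · rw [h1]
      exact (Complex.conj_eq_iff_im.2 h0.symm).symm
  · rintro (p | p) (q | q) hpq
    · by_contra hcon
      obtain ⟨h1, h2⟩ := A_ne hinj hAB p.2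
      refine h.ne_of_ne (fun h3 => hcon ?_) h1 h2 hpq
      rw [Subtype.ext (Sum.inl.inj (@hinj (Sum.inl p.1) (Sum.inl q.1) h3))]
    · exact absurd hpq (hAB1 p q)
    · exact absurd hpq.symm (hAB1 q p)
    · by_contra hcon
      obtain ⟨h1, h2⟩ := B_ne hinj hAB p.2
      refine h.ne_of_ne (fun h3 => hcon ?_) h1 h2 hpq
      rw [Subtype.ext (Sum.inr.inj (@hinj (Sum.inr p.1) (Sum.inr q.1) h3))]
  · have hq2 : kind q ≠ 2 := fun h1 => hp2 (hkk.trans h1)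
    have hpq' : (p : Fin 4) ≠ q := fun h1 => hpq (Subtype.ext h1)
    have h1 : ∀ᶠ θ in F, (X.eta θ (B p)).re < (X.eta θ (A q)).re ∨
        (X.eta θ (B q)).re < (X.eta θ (A p)).re := by
      filter_upwards [hC] with θ hθ
      exact hθ.disj p q hpq' hkk hp2
    have h2 : (∃ᶠ θ in F, (X.eta θ (B p)).re < (X.eta θ (A q)).re) ∨
        ∃ᶠ θ in F, (X.eta θ (B q)).re < (X.eta θ (A p)).re := by
      rw [← Filter.frequently_or_distrib]
      exact h1.frequently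
    rcases h2 with h2 | h2
    · left
      refine lt_of_le_of_ne ?_ (hABre q p hq2 hp2).symm
      have h3 : Tendsto (fun θ => (X.eta θ (A q)).re - (X.eta θ (B p)).re) F
        (𝓝 ((e (A q)).re - (e (B p)).re)) := (hre (A q)).sub (hre (B p))
      have h4 := ge_of_tendsto_of_frequently h3 (h2.mono fun θ hθ => (sub_pos.2 hθ).le)
      linarith
    · right
      refine lt_of_le_of_ne ?_ (hABre p q hp2 hq2).symm
      have h3 : Tendsto (fun θ => (X.eta θ (A p)).re - (X.eta θ (B q)).re) F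
        (𝓝 ((e (A p)).re - (e (B q)).re)) := (hre (A p)).sub (hre (B q))
      have h4 := ge_of_tendsto_of_frequently h3 (h2.mono fun θ hθ => (sub_pos.2 hθ).le)
      linarith
  · have h1 : ∀ᶠ θ in F, ∃ q, kind q = 0 ∧ (X.eta θ (A q)).re < (X.eta θ (A p)).re ∧
        (X.eta θ (B p)).re < (X.eta θ (B q)).re := by
      filter_upwards [hC] with θ hθ
      exact hθ.parent p hp1
    have h2 : ∃ q, ∃ᶠ θ in F, kind q = 0 ∧ (X.eta θ (A q)).re < (X.eta θ (A p)).re ∧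
        (X.eta θ (B p)).re < (X.eta θ (B q)).re := by
      by_contra hcon
      push Not at hcon
      have h3 : ∀ᶠ θ in F, ∀ q, ¬(kind q = 0 ∧ (X.eta θ (A q)).re < (X.eta θ (A p)).re ∧
          (X.eta θ (B p)).re < (X.eta θ (B q)).re) := by
        rw [eventually_all]
        intro q
        have := hcon q
        filter_upwards [this] with θ hθ hθ2
        exact absurd hθ2.2.2 (not_lt.2 (hθ hθ2.1 hθ2.2.1))
      obtain ⟨θ, h4, h5⟩ := (h1.and h3).exists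
      obtain ⟨q, hq⟩ := h4
      exact h5 q hq
    obtain ⟨q, hq⟩ := h2
    have hk0 : kind q = 0 := by
      obtain ⟨θ, hθ⟩ := hq.exists
      exact hθ.1
    have hq0 : q ≠ p₀ := by
      rintro rfl
      rw [hk] at hk0
      exact absurd hk0 (by decide)
    have hq2 : kind q ≠ 2 := by rw [hk0]; decide
    have hp2 : kind p ≠ 2 := by
      intro h0
      have h5 : kind p = 1 := hp1
      rw [h5] at h0
      exact absurd h0 (by decide)
    have hqp : (p : Fin 4) ≠ q := by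
      rintro h0
      have h5 : kind p = 1 := hp1
      rw [h0, hk0] at h5
      exact absurd h5 (by decide)
    refine ⟨⟨q, hq0⟩, hk0, ?_, ?_⟩
    · have h3 : Tendsto (fun θ => (X.eta θ (A p)).re - (X.eta θ (A q)).re) F
        (𝓝 ((e (A p)).re - (e (A q)).re)) := (hre (A p)).sub (hre (A q))
      have h4 := ge_of_tendsto_of_frequently h3 (hq.mono fun θ hθ => (sub_pos.2 hθ.2.1).le)
      refine lt_of_le_of_ne (by linarith) fun h5 => ?_
      obtain ⟨h6, h7⟩ := A_ne hinj hAB p.2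
      refine h.ne_of_ne (i := A p) (j := A q) (fun h8 => hqp ?_) h6 h7 (Complex.ext h5.symm
        ((hAim p hp2).trans (hAim ⟨q, hq0⟩ hq2).symm))
      exact Sum.inl.inj (@hinj (Sum.inl p.1) (Sum.inl q) h8)
    · have h3 : Tendsto (fun θ => (X.eta θ (B q)).re - (X.eta θ (B p)).re) F
        (𝓝 ((e (B q)).re - (e (B p)).re)) := (hre (B q)).sub (hre (B p))
      have h4 := ge_of_tendsto_of_frequently h3 (hq.mono fun θ hθ => (sub_pos.2 hθ.2.2).le)
      refine lt_of_le_of_ne (by linarith) fun h5 => ?_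
      obtain ⟨h6, h7⟩ := B_ne hinj hAB p.2
      refine h.ne_of_ne (i := B p) (j := B q) (fun h8 => hqp ?_) h6 h7 (Complex.ext h5
        ((hBim p hp2).trans (hBim ⟨q, hq0⟩ hq2).symm))
      exact Sum.inr.inj (@hinj (Sum.inr p.1) (Sum.inr q) h8)

omit hk in
/-- the signs in the limit -/
theorem zet_lim {p : Fin 4} (hpp : p ≠ p₀) : z p = zet (kind p) (sg (A p)) (sg (B p)) := by
  obtain ⟨θ₁, hθ₁⟩ := hp.exists
  have hinj := hθ₁.inj
  obtain ⟨h1, h2⟩ := A_ne hinj hAB hpp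
  obtain ⟨h3, h4⟩ := B_ne hinj hAB hpp
  have hA := (h.sig_lim (A p) h1 h2).mono_left hF
  have hB := (h.sig_lim (B p) h3 h4).mono_left hF
  have hA0 := h.sg_ne_zero h1 h2
  have hB0 := h.sg_ne_zero h3 h4
  have h5 : ∀ᶠ θ in F, zet (kind p) (X.sig θ (A p)) (X.sig θ (B p)) = z p := by
    filter_upwards [hp] with θ hθ
    rw [hθ.zeta p]
    rfl
  have h6 : Tendsto (fun θ => zet (kind p) (X.sig θ (A p)) (X.sig θ (B p))) F
      (𝓝 (zet (kind p) (sg (A p)) (sg (B p)))) := by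
    unfold zet
    by_cases hk2 : kind p = 2
    · simp only [if_pos hk2]
      exact ((Complex.continuous_conj.tendsto _).comp hA).div hB hB0
    · simp only [if_neg hk2]
      refine (tendsto_const_nhds.mul (hA.mul hB)).div
        ((Complex.continuous_ofReal.tendsto _).comp (hA.mul hB).norm) ?_
      exact Complex.ofReal_ne_zero.2 (norm_ne_zero_iff.2 (mul_ne_zero hA0 hB0))
  exact tendsto_nhds_unique (tendsto_const_nhds.congr' (h5.mono fun θ hθ => hθ.symm)) h6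

/-- **T2X**, O-type, with a filter -/
theorem det_O' (hF0 : 0 < ((Frest e a b).eval (y₀ : ℂ)).re) (M : Matrix (Fin 4) (Fin 4) ℂ)
    (hM : ∀ p, p ≠ p₀ → ∀ j : Fin 4, M p j = e (A p) ^ (j : ℕ) / sg (A p) -
      I * z p * (e (B p) ^ (j : ℕ) / sg (B p)))
    (hM0 : ∀ j : Fin 4, M p₀ j = (y₀ : ℂ) ^ (j : ℕ)) : M.det ≠ 0 := by
  obtain ⟨θ₁, hθ₁⟩ := hp.exists
  have hinj := hθ₁.inj
  have hC := conf_lim h hF hp hk hAB
  have hn := nodal_eq_Frest hinj hAB e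
  have hreal := nodal_eval_real hC y₀
  rw [hn] at hreal
  refine ne_zero_of_pow_eight ?_
  refine det_event_O (A := fun p => e (A p)) (B := fun p => e (B p))
    (σA := fun p => sg (A p)) (σB := fun p => sg (B p)) hC y₀ (fun p hpp => ?_) (fun p hpp => ?_)
    (fun p hpp => ?_) ((Frest e a b).eval (y₀ : ℂ)).re ?_ hF0 M (fun p hpp j => ?_) hM0
  · obtain ⟨h1, h2⟩ := A_ne hinj hAB hpp
    obtain ⟨h3, h4⟩ := B_ne hinj hAB hpp
    rw [← h.ea]
    exact ⟨(h.ne_of_ne h1 h1 h2).symm, (h.ne_of_ne h3 h3 h4).symm⟩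
  · obtain ⟨h1, h2⟩ := A_ne hinj hAB hpp
    rw [hn]
    exact h.sg_sq h1 h2
  · obtain ⟨h1, h2⟩ := B_ne hinj hAB hpp
    rw [hn]
    exact h.sg_sq h1 h2
  · rw [hn, hreal, Complex.ofReal_re]
  · rw [hM p hpp, zet_lim h hF hp hAB hpp]

/-- **T2X**, gap type, with a filter -/
theorem det_gap' (hF0 : ((Frest e a b).eval (y₀ : ℂ)).re < 0) (M : Matrix (Fin 4) (Fin 4) ℂ)
    (hM : ∀ p, p ≠ p₀ → ∀ j : Fin 4, M p j = e (A p) ^ (j : ℕ) / sg (A p) -
      I * z p * (e (B p) ^ (j : ℕ) / sg (B p)))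
    (hM0 : ∀ j : Fin 4, M p₀ j = 2 * (Frest e a b).eval (y₀ : ℂ) *
      ((j : ℕ) * (y₀ : ℂ) ^ ((j : ℕ) - 1)) -
        (Frest e a b).derivative.eval (y₀ : ℂ) * (y₀ : ℂ) ^ (j : ℕ)) : M.det ≠ 0 := by
  obtain ⟨θ₁, hθ₁⟩ := hp.exists
  have hinj := hθ₁.inj
  have hC := conf_lim h hF hp hk hAB
  have hn := nodal_eq_Frest hinj hAB e
  have hreal := nodal_eval_real hC y₀
  have hreal' := nodal_deriv_real hC y₀
  rw [hn] at hreal hreal'
  have hr : (Frest e a b).eval (y₀ : ℂ) = ((((Frest e a b).eval (y₀ : ℂ)).re : ℝ) : ℂ) := by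
    rw [hreal, Complex.ofReal_re]
  have hr' : (Frest e a b).derivative.eval (y₀ : ℂ) =
      ((((Frest e a b).derivative.eval (y₀ : ℂ)).re : ℝ) : ℂ) :=
    Complex.ext rfl (by simpa using hreal')
  refine ne_zero_of_pow_eight ?_
  refine det_event_gap (A := fun p => e (A p)) (B := fun p => e (B p))
    (σA := fun p => sg (A p)) (σB := fun p => sg (B p)) hC y₀ (fun p hpp => ?_) (fun p hpp => ?_)
    (fun p hpp => ?_) ((Frest e a b).eval (y₀ : ℂ)).re
    ((Frest e a b).derivative.eval (y₀ : ℂ)).re ?_ hF0 ?_ M (fun p hpp j => ?_) (fun j => ?_)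
  · obtain ⟨h1, h2⟩ := A_ne hinj hAB hpp
    obtain ⟨h3, h4⟩ := B_ne hinj hAB hpp
    rw [← h.ea]
    exact ⟨(h.ne_of_ne h1 h1 h2).symm, (h.ne_of_ne h3 h3 h4).symm⟩
  · obtain ⟨h1, h2⟩ := A_ne hinj hAB hpp
    rw [hn]
    exact h.sg_sq h1 h2
  · obtain ⟨h1, h2⟩ := B_ne hinj hAB hpp
    rw [hn]
    exact h.sg_sq h1 h2
  · rw [hn, ← hr]
  · rw [hn, ← hr']
  · rw [hM p hpp, zet_lim h hF hp hAB hpp]
  · rw [hM0, ← hr, ← hr']

end limconf

/-- one side of a point -/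
theorem side_le {s : Set ℝ} (hs : s = Iio ts ∨ s = Ioi ts) : 𝓝[s] ts ≤ 𝓝[≠] ts ∧ (𝓝[s] ts).NeBot := by
  rcases hs with rfl | rfl
  · exact ⟨nhdsWithin_mono _ fun x hx => ne_of_lt hx, inferInstance⟩
  · exact ⟨nhdsWithin_mono _ fun x hx => ne_of_gt hx, inferInstance⟩

/-- **T2X**, O-type -/
theorem det_O (h : X.EvLim ts a b e sg y₀) {s : Set ℝ} (hs : s = Iio ts ∨ s = Ioi ts)
    (hp : ∀ᶠ θ in 𝓝[s] ts, X.Pairing θ A B kind z) (hk : kind p₀ = 2)
    (hAB : (A p₀ = a ∧ B p₀ = b) ∨ (A p₀ = b ∧ B p₀ = a))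
    (hF0 : 0 < ((Frest e a b).eval (y₀ : ℂ)).re) (M : Matrix (Fin 4) (Fin 4) ℂ)
    (hM : ∀ p, p ≠ p₀ → ∀ j : Fin 4, M p j = e (A p) ^ (j : ℕ) / sg (A p) -
      I * z p * (e (B p) ^ (j : ℕ) / sg (B p)))
    (hM0 : ∀ j : Fin 4, M p₀ j = (y₀ : ℂ) ^ (j : ℕ)) : M.det ≠ 0 := by
  have := (side_le hs).2
  exact det_O' h (side_le hs).1 hp hk hAB hF0 M hM hM0

/-- **T2X**, gap type -/
theorem det_gap (h : X.EvLim ts a b e sg y₀) {s : Set ℝ} (hs : s = Iio ts ∨ s = Ioi ts)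
    (hp : ∀ᶠ θ in 𝓝[s] ts, X.Pairing θ A B kind z) (hk : kind p₀ = 2)
    (hAB : (A p₀ = a ∧ B p₀ = b) ∨ (A p₀ = b ∧ B p₀ = a))
    (hF0 : ((Frest e a b).eval (y₀ : ℂ)).re < 0) (M : Matrix (Fin 4) (Fin 4) ℂ)
    (hM : ∀ p, p ≠ p₀ → ∀ j : Fin 4, M p j = e (A p) ^ (j : ℕ) / sg (A p) -
      I * z p * (e (B p) ^ (j : ℕ) / sg (B p)))
    (hM0 : ∀ j : Fin 4, M p₀ j = 2 * (Frest e a b).eval (y₀ : ℂ) *
      ((j : ℕ) * (y₀ : ℂ) ^ ((j : ℕ) - 1)) -
        (Frest e a b).derivative.eval (y₀ : ℂ) * (y₀ : ℂ) ^ (j : ℕ)) : M.det ≠ 0 := by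
  have := (side_le hs).2
  exact det_gap' h (side_le hs).1 hp hk hAB hF0 M hM hM0

end EvLim

end Ctx

end Pool.Agent.Rohlin
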