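import Pool.Agent.Rohlin.EvLoc
import Pool.Agent.Rohlin.LocalDefs

/-!
# Events: the limit of the square of the functional
-/

set_option autoImplicit false

namespace Pool.Agent.Rohlin

open Polynomial Complex Set Matrix Filter Topology Metric

namespace Ctx

variable {n : Type} [Fintype n] [DecidableEq n] {X : Ctx n}

theorem LocalAt.locData {r : ℂ} {D : LocalData 4} (h : X.LocalAt r D) :
    X.LocData r D.a D.b D.ε D.Y D.H (fun i => if i = D.a ∨ i = D.b then D.Y 0 else D.y i) D.s := by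
  refine ⟨D.hab, D.hε, D.hY, h.anH.differentiableAt, D.hH0, h.ya, h.yb, h.sa, h.sb, ?_, h.s_other,
    D.hs0, ?_, ?_, ?_⟩
  · intro i h1 h2
    simp only [h1, h2, or_self, if_false]
    exact h.y_other i h1 h2
  · simp
  · simp
  · intro i j hij
    by_cases hi : i = D.a ∨ i = D.b
    · by_cases hj : j = D.a ∨ j = D.b
      · rcases hi with hi | hi <;> rcases hj with hj | hj
        · exact Or.inl (hi.trans hj.symm)
        · exact Or.inr (Or.inl ⟨hi, hj⟩)
        · exact Or.inr (Or.inr ⟨hi, hj⟩)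
        · exact Or.inl (hi.trans hj.symm)
      · exfalso
        simp only [hi, hj, if_true, if_false] at hij
        push Not at hj
        exact D.hyY j hj.1 hj.2 hij.symm
    · by_cases hj : j = D.a ∨ j = D.b
      · exfalso
        simp only [hi, hj, if_true, if_false] at hij
        push Not at hi
        exact D.hyY i hi.1 hi.2 hij
      · simp only [hi, hj, if_false] at hij
        push Not at hi hj
        by_contra hcon
        push Not at hcon
        exact D.hinj i j hi.1 hi.2 hj.1 hj.2 hcon.1 hij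

/-! ### the circle near `r` -/

theorem circ_ne {θ θ₀ : ℝ} (h1 : θ ≠ θ₀) (h2 : |θ - θ₀| < Real.pi) : circ θ ≠ circ θ₀ := by
  intro h
  have h3 := Phase.circ_sub θ θ₀
  rw [h, sub_self] at h3
  have hs : Real.sin (θ - θ₀) ≠ 0 := by
    rw [abs_lt] at h2
    intro h0
    have := (Real.sin_eq_zero_iff_of_lt_of_lt h2.1 h2.2).mp h0
    exact h1 (sub_eq_zero.mp this)
  have h4 : ((2 * Real.sin (θ - θ₀) : ℝ) : ℂ) ≠ 0 := by
    exact_mod_cast mul_ne_zero two_ne_zero hs
  have h5 : circ θ₀ ≠ 0 := by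
    intro h0
    have := norm_circ θ₀
    rw [h0, norm_zero] at this
    exact zero_ne_one this
  exact mul_ne_zero h4 (mul_ne_zero (mul_ne_zero I_ne_zero (Complex.exp_ne_zero _)) h5) h3.symm

variable (X)

theorem circ_tendsto {θs : ℝ} (hZ : circ θs ∈ X.Z) :
    Tendsto circ (𝓝[≠] θs) (𝓝[X.D] (circ θs)) := by
  rw [X.nhds_D hZ (norm_circ θs), tendsto_nhdsWithin_iff]
  refine ⟨(continuous_circ.tendsto θs).mono_left nhdsWithin_le_nhds, ?_⟩
  have h1 : ∀ᶠ θ in 𝓝[≠] θs, |θ - θs| < Real.pi := by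
    have : ∀ᶠ θ in 𝓝 θs, dist θ θs < Real.pi := Metric.ball_mem_nhds θs Real.pi_pos
    exact nhdsWithin_le_nhds this
  filter_upwards [h1, self_mem_nhdsWithin] with θ h2 h3
  exact ⟨by simp [norm_circ], circ_ne h3 h2⟩

theorem neBot_D_circ {θs : ℝ} (hZ : circ θs ∈ X.Z) : (𝓝[X.D] (circ θs)).NeBot :=
  (X.circ_tendsto hZ).neBot

theorem eventually_reg {θs : ℝ} (hZ : circ θs ∈ X.Z) : ∀ᶠ θ in 𝓝[≠] θs, X.Reg θ := by
  have h := (X.circ_tendsto hZ).eventually self_mem_nhdsWithin
  exact h.mono fun θ hθ => hθ.1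

variable {X}

/-! ### the polynomial at the branch point -/

section

variable {θs : ℝ} {a b : Fin 8} {ε : ℂ} {Y H : ℂ → ℂ} {y0 s0 : Fin 8 → ℂ}

theorem prod_split (y0 : Fin 8 → ℂ) {a b : Fin 8} (hab : a ≠ b) :
    ∏ i, (Polynomial.X - Polynomial.C (y0 i)) =
      (Polynomial.X - Polynomial.C (y0 a)) * ((Polynomial.X - Polynomial.C (y0 b)) * Frest y0 a b) := by
  have h1 : (Finset.univ : Finset (Fin 8)).erase a =
      insert b (Finset.univ.filter (fun i => i ≠ a ∧ i ≠ b)) := by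
    ext i
    simp only [Finset.mem_erase, Finset.mem_univ, and_true, Finset.mem_insert, Finset.mem_filter,
      true_and]
    by_cases hi : i = b
    · subst hi
      simp [hab.symm]
    · simp [hi]
  rw [← Finset.mul_prod_erase Finset.univ _ (Finset.mem_univ a), h1, Finset.prod_insert (by simp)]
  rfl

theorem card_rest {a b : Fin 8} (hab : a ≠ b) :
    (Finset.univ.filter (fun i : Fin 8 => i ≠ a ∧ i ≠ b)).card = 6 := by
  have h1 : (Finset.univ : Finset (Fin 8)).erase a =
      insert b (Finset.univ.filter (fun i => i ≠ a ∧ i ≠ b)) := by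
    ext i
    simp only [Finset.mem_erase, Finset.mem_univ, and_true, Finset.mem_insert, Finset.mem_filter,
      true_and]
    by_cases hi : i = b
    · subst hi
      simp [hab.symm]
    · simp [hi]
  have h2 := congrArg Finset.card h1
  rw [Finset.card_erase_of_mem (Finset.mem_univ a), Finset.card_insert_of_notMem (by simp)] at h2
  simp at h2
  omega

variable (h : X.LocData (circ θs) a b ε Y H y0 s0) (hZ : circ θs ∈ X.Z)

include h hZ

theorem LocData.fam_r : fam X.f (circ θs) =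
    (Polynomial.X - Polynomial.C (Y 0)) ^ 2 * Frest y0 a b := by
  have hne := X.neBot_D_circ hZ
  have h1 : fam X.f (circ θs) = ∏ i, (Polynomial.X - Polynomial.C (y0 i)) := by
    refine Polynomial.funext fun x => ?_
    have h2 : Tendsto (fun w => (fam X.f w).eval x) (𝓝[X.D] (circ θs))
        (𝓝 ((fam X.f (circ θs)).eval x)) := by
      have : Continuous fun w => (fam X.f w).eval x :=
        (contDiff_fam X.f (n := 0)).continuous.comp (continuous_id.prodMk continuous_const)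
      exact (this.tendsto _).mono_left nhdsWithin_le_nhds
    have h3 : Tendsto (fun w => ∏ i, (x - X.y i w)) (𝓝[X.D] (circ θs)) (𝓝 (∏ i, (x - y0 i))) :=
      tendsto_finsetProd _ fun i _ => tendsto_const_nhds.sub (h.y_lim hZ i)
    rw [eval_prod]
    simp only [eval_sub, eval_X, eval_C]
    refine tendsto_nhds_unique h2 (h3.congr' ?_)
    filter_upwards [self_mem_nhdsWithin] with w hw
    rw [fam_eq_prod hw, eval_prod]
    simp
  rw [h1, prod_split y0 h.hab, h.y0a, h.y0b]
  ring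

/-- the double root in the real gauge -/
theorem LocData.Y_zero {η₀ : ℝ} (hd : X.Dbl θs η₀) : Y 0 = exp (θs * I) * η₀ := by
  set r := circ θs with hr
  have hdir : ((1 + r) / 2 ≠ 0 ∨ I * (1 - r) / 2 ≠ 0) := by
    by_contra hcon
    push Not at hcon
    have h1 : 1 + r = 0 := by
      have := hcon.1
      field_simp at this
      simpa using this
    have h2 : 1 - r = 0 := by
      have := hcon.2
      rw [div_eq_zero_iff, mul_eq_zero] at this
      rcases this with (h3 | h3) | h3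
      · exact absurd h3 I_ne_zero
      · exact h3
      · norm_num at h3
    have h3 : (2 : ℂ) = 0 := by linear_combination h1 + h2
    norm_num at h3
  refine X.nf.one _ _ _ _ hdir ?_ ?_ ?_ ?_
  · change (fam X.f r).eval (Y 0) = 0
    rw [h.fam_r hZ]
    simp
  · change (derivative (fam X.f r)).eval (Y 0) = 0
    rw [h.fam_r hZ]
    simp [derivative_mul, derivative_pow]
  · change (fam X.f r).eval (exp (θs * I) * η₀) = 0
    rw [hr, Line.fam_circ_eval X.nf.hom]
    have h1 := hd.1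
    have h2 : ((gr X.f θs).map (algebraMap ℝ ℂ)).eval (η₀ : ℂ) = 0 := by
      rw [Polynomial.eval_map_algebraMap]
      have : aeval ((algebraMap ℝ ℂ) η₀) (gr X.f θs) = 0 := by
        rw [aeval_algebraMap_apply, coe_aeval_eq_eval, h1, map_zero]
      exact this
    rw [h2, mul_zero]
  · change (derivative (fam X.f r)).eval (exp (θs * I) * η₀) = 0
    rw [hr, Line.fam_circ_deriv_eval X.nf.hom]
    have h1 := hd.2
    have h2 : ((derivative (gr X.f θs)).map (algebraMap ℝ ℂ)).eval (η₀ : ℂ) = 0 := by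
      rw [Polynomial.eval_map_algebraMap]
      have : aeval ((algebraMap ℝ ℂ) η₀) (derivative (gr X.f θs)) = 0 := by
        rw [aeval_algebraMap_apply, coe_aeval_eq_eval, h1, map_zero]
      exact this
    rw [h2, mul_zero]

end

/-- the limits of the roots in the real gauge -/
noncomputable def eLim (θs : ℝ) (y0 : Fin 8 → ℂ) (i : Fin 8) : ℂ := exp (-(θs * I)) * y0 i

/-- the limits of the square roots of the derivative in the real gauge -/
noncomputable def sLim (θs : ℝ) (s0 : Fin 8 → ℂ) (i : Fin 8) : ℂ := exp (-(7 / 2 * θs * I)) * s0 i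

theorem y0_eq (θs : ℝ) (y0 : Fin 8 → ℂ) (i : Fin 8) : y0 i = exp (θs * I) * eLim θs y0 i := by
  unfold eLim
  rw [← mul_assoc, ← Complex.exp_add]
  simp

theorem s0_eq (θs : ℝ) (s0 : Fin 8 → ℂ) (i : Fin 8) :
    s0 i = exp (7 / 2 * θs * I) * sLim θs s0 i := by
  unfold sLim
  rw [← mul_assoc, ← Complex.exp_add]
  simp

/-- the product over the other labels in the two gauges -/
theorem Frest_comp (θs : ℝ) (y0 : Fin 8 → ℂ) {a b : Fin 8} (hab : a ≠ b) :
    (Frest y0 a b).comp (Polynomial.C (exp (θs * I)) * Polynomial.X) =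
      Polynomial.C (exp (θs * I) ^ 6) * Frest (eLim θs y0) a b := by
  rw [Frest, Frest, prod_comp]
  have h1 : ∀ i ∈ Finset.univ.filter (fun i : Fin 8 => i ≠ a ∧ i ≠ b),
      (Polynomial.X - Polynomial.C (y0 i)).comp (Polynomial.C (exp (θs * I)) * Polynomial.X) =
        Polynomial.C (exp (θs * I)) * (Polynomial.X - Polynomial.C (eLim θs y0 i)) := by
    intro i _
    rw [sub_comp, X_comp, C_comp, mul_sub, ← C_mul, ← y0_eq]
  rw [Finset.prod_congr rfl h1, Finset.prod_mul_distrib, Finset.prod_const, card_rest hab, C_pow]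

theorem Frest_eval (θs : ℝ) (y0 : Fin 8 → ℂ) {a b : Fin 8} (hab : a ≠ b) (x : ℂ) :
    (Frest y0 a b).eval (exp (θs * I) * x) =
      exp (θs * I) ^ 6 * (Frest (eLim θs y0) a b).eval x := by
  have h := congrArg (fun p => p.eval x) (Frest_comp θs y0 hab)
  simp only [eval_comp, eval_mul, eval_C, eval_X] at h
  exact h

theorem Frest_deriv_eval (θs : ℝ) (y0 : Fin 8 → ℂ) {a b : Fin 8} (hab : a ≠ b) (x : ℂ) :
    (derivative (Frest y0 a b)).eval (exp (θs * I) * x) =
      exp (θs * I) ^ 5 * (derivative (Frest (eLim θs y0) a b)).eval x := by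
  have h := congrArg (fun p => (derivative p).eval x) (Frest_comp θs y0 hab)
  simp only [derivative_comp, derivative_mul, derivative_C, zero_mul, derivative_X, mul_one,
    zero_add, eval_comp, eval_mul, eval_C, eval_X] at h
  have h0 := Complex.exp_ne_zero (θs * I)
  apply mul_left_cancel₀ h0
  rw [h]
  ring

section

variable {θs : ℝ} {a b : Fin 8} {ε : ℂ} {Y H : ℂ → ℂ} {y0 s0 : Fin 8 → ℂ}
  (h : X.LocData (circ θs) a b ε Y H y0 s0) (hZ : circ θs ∈ X.Z) {η₀ : ℝ} (hd : X.Dbl θs η₀)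

include h hZ hd

/-- the limit data in the real gauge -/
theorem LocData.evLim : X.EvLim θs a b (eLim θs y0) (sLim θs s0) η₀ := by
  have hY := h.Y_zero hZ hd
  have hexp : exp (-(θs * I)) * exp (θs * I) = 1 := by
    rw [← Complex.exp_add]; simp
  refine ⟨X.eventually_reg hZ, h.hab, fun i => ?_, fun i h1 h2 => ?_, ?_, ?_, fun i j hij => ?_⟩
  · unfold eta eLim
    refine Tendsto.mul ?_ ((h.y_lim hZ i).comp (X.circ_tendsto hZ))
    have : Continuous fun θ : ℝ => exp (-(θ * I)) := by fun_prop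
    exact (this.tendsto _).mono_left nhdsWithin_le_nhds
  · unfold sig sLim
    refine Tendsto.mul ?_ ((h.s_other i h1 h2).comp (X.circ_tendsto hZ))
    have : Continuous fun θ : ℝ => exp (-(7 / 2 * θ * I)) := by fun_prop
    exact (this.tendsto _).mono_left nhdsWithin_le_nhds
  · rw [eLim, h.y0a, hY, ← mul_assoc, hexp, one_mul]
  · rw [eLim, h.y0b, hY, ← mul_assoc, hexp, one_mul]
  · apply h.y0_inj
    rw [y0_eq θs y0 i, y0_eq θs y0 j, hij]

/-- `gr` at the event -/
theorem LocData.gr_r : (gr X.f θs).map (algebraMap ℝ ℂ) =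
    (Polynomial.X - Polynomial.C (η₀ : ℂ)) ^ 2 * Frest (eLim θs y0) a b := by
  refine Polynomial.funext fun x => ?_
  have h1 := Line.fam_circ_eval X.nf.hom θs x
  rw [h.fam_r hZ, eval_mul, Frest_eval θs y0 h.hab, h.Y_zero hZ hd] at h1
  have h0 := Complex.exp_ne_zero (θs * I)
  apply mul_left_cancel₀ (pow_ne_zero 8 h0)
  rw [← h1]
  simp only [eval_mul, eval_pow, eval_sub, eval_X, eval_C]
  ring

/-- the sign of the event -/
theorem LocData.esg_eq : (((derivative (derivative (gr X.f θs))).eval η₀ : ℝ) : ℂ) =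
    2 * (Frest (eLim θs y0) a b).eval (η₀ : ℂ) := by
  have h1 : (((derivative (derivative (gr X.f θs))).eval η₀ : ℝ) : ℂ) =
      (derivative (derivative ((gr X.f θs).map (algebraMap ℝ ℂ)))).eval (η₀ : ℂ) := by
    rw [derivative_map, derivative_map, Polynomial.eval_map_algebraMap]
    have : aeval ((algebraMap ℝ ℂ) η₀) (derivative (derivative (gr X.f θs))) =
        (((derivative (derivative (gr X.f θs))).eval η₀ : ℝ) : ℂ) := by
      rw [aeval_algebraMap_apply, coe_aeval_eq_eval]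
      rfl
    exact this.symm
  rw [h1, h.gr_r hZ hd]
  simp [derivative_mul, derivative_pow]

/-- the limit of the ratio of the colliding labels -/
theorem LocData.Om_lim : Tendsto (fun θ => X.Om θ a b) (𝓝[≠] θs)
    (𝓝 (-(ε * I) * (Frest (eLim θs y0) a b).eval (η₀ : ℂ))) := by
  have hne := X.neBot_D_circ hZ
  have ht := t_lim X hZ
  have ht0 : Tendsto (fun w => tvar X.c (circ θs) w) (𝓝[X.D] (circ θs)) (𝓝 0) :=
    ht.mono_right nhdsWithin_le_nhds
  have htn : Tendsto (fun w => -tvar X.c (circ θs) w) (𝓝[X.D] (circ θs)) (𝓝 0) := by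
    simpa using ht0.neg
  have hY' := h.deriv_ne_zero hZ
  have h1 : Tendsto (fun w => X.s a w * X.s b w / (X.y b w - X.y a w)) (𝓝[X.D] (circ θs))
      (𝓝 (-(ε * I) * (H 0 * H 0) / (2 * deriv Y 0))) := by
    have h2 : Tendsto (fun w => -(ε * I) * (H (tvar X.c (circ θs) w) * H (-tvar X.c (circ θs) w)) /
        ((Y (tvar X.c (circ θs) w) - Y (-tvar X.c (circ θs) w)) / tvar X.c (circ θs) w))
        (𝓝[X.D] (circ θs)) (𝓝 (-(ε * I) * (H 0 * H 0) / (2 * deriv Y 0))) :=
      (((h.hH.continuousAt.tendsto.comp ht0).mul (h.hH.continuousAt.tendsto.comp htn)).const_mul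
        _).div ((tendsto_symm_quot h.hY.hasDerivAt).comp ht) (mul_ne_zero two_ne_zero hY')
    refine h2.congr' ?_
    filter_upwards [h.ya, h.yb, h.sa, h.sb, self_mem_nhdsWithin] with w ya yb sa sb hw
    have ht1 := tvar_ne_zero X.cZ hZ hw.1
    have hd1 : X.y a w - X.y b w ≠ 0 := sub_ne_zero.mpr fun h3 => h.hab (X.y_inj w hw.1 hw.2 h3)
    have hd2 : X.y b w - X.y a w ≠ 0 := sub_ne_zero.mpr fun h3 => h.hab (X.y_inj w hw.1 hw.2 h3.symm)
    rw [sa, sb, ← ya, ← yb]
    have h5 := rt_mul_rt (tvar X.c (circ θs) w)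
    generalize rt (tvar X.c (circ θs) w) = R at *
    generalize H (tvar X.c (circ θs) w) = H1 at *
    generalize H (-tvar X.c (circ θs) w) = H2 at *
    generalize tvar X.c (circ θs) w = t at *
    rw [div_div_eq_mul_div, div_eq_div_iff hd1 hd2]
    linear_combination (-(ε * I * H1 * H2 * (X.y a w - X.y b w))) * h5
  have h2 : Tendsto (fun θ : ℝ => exp (-(6 * θ * I)) * (X.s a (circ θ) * X.s b (circ θ) /
      (X.y b (circ θ) - X.y a (circ θ)))) (𝓝[≠] θs)
      (𝓝 (exp (-(6 * θs * I)) * (-(ε * I) * (H 0 * H 0) / (2 * deriv Y 0)))) := by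
    refine Tendsto.mul ?_ (h1.comp (X.circ_tendsto hZ))
    have : Continuous fun θ : ℝ => exp (-(6 * θ * I)) := by fun_prop
    exact (this.tendsto _).mono_left nhdsWithin_le_nhds
  have h3 : exp (-(6 * θs * I)) * (-(ε * I) * (H 0 * H 0) / (2 * deriv Y 0)) =
      -(ε * I) * (Frest (eLim θs y0) a b).eval (η₀ : ℂ) := by
    have h4 := h.rel1 hZ
    rw [h.Y_zero hZ hd, Frest_eval θs y0 h.hab] at h4
    have h5 : exp (-(6 * θs * I)) * exp (θs * I) ^ 6 = 1 := by
      rw [← Complex.exp_nat_mul, ← Complex.exp_add, ← Complex.exp_zero]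
      congr 1
      push_cast
      ring
    rw [← pow_two, h4]
    field_simp
    linear_combination (-(ε * (Frest (eLim θs y0) a b).eval (η₀ : ℂ))) * h5
  rw [h3] at h2
  refine h2.congr fun θ => ?_
  unfold Om sig eta
  have h6 : exp (-(6 * θ * I)) = exp (-(7 / 2 * θ * I)) * exp (-(7 / 2 * θ * I)) / exp (-(θ * I)) := by
    rw [← Complex.exp_add, ← Complex.exp_sub]
    congr 1
    ring
  rw [h6, ← mul_sub]
  have h7 := Complex.exp_ne_zero (-(θ * I))
  rcases eq_or_ne (X.y b (circ θ) - X.y a (circ θ)) 0 with h8 | h8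
  · rw [h8]; simp
  · field_simp

/-- the limit of the square, type O -/
theorem LocData.sq_O {A B : Fin 4 → Fin 8} {z : Fin 4 → ℂ} {p₀ : Fin 4} (hA : A p₀ = a)
    (hB : B p₀ = b) (hinj : Function.Injective (Sum.elim A B)) (hz : z p₀ = -ε)
    (hdet : (Matrix.of fun p j : Fin 4 => if p = p₀ then (η₀ : ℂ) ^ (j : ℕ) else
      eLim θs y0 (A p) ^ (j : ℕ) / sLim θs s0 (A p) -
        I * z p * (eLim θs y0 (B p) ^ (j : ℕ) / sLim θs s0 (B p))).det ≠ 0) :
    ∃ Λ : ℂ, Λ ≠ 0 ∧ Tendsto (fun w => rt (tvar X.c (circ θs) w) * (X.rowsW A B z w).det)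
      (𝓝[X.D] (circ θs)) (𝓝 Λ) := by
  obtain ⟨n1, n2, n3⟩ := ne_of_inj A B hinj
  set u := exp (θs * I) with hu
  set v := exp (7 / 2 * θs * I) with hv
  have hu0 : u ≠ 0 := Complex.exp_ne_zero _
  have hv0 : v ≠ 0 := Complex.exp_ne_zero _
  set N : Matrix (Fin 4) (Fin 4) ℂ := Matrix.of fun p j : Fin 4 =>
    if p = p₀ then (η₀ : ℂ) ^ (j : ℕ) else
      eLim θs y0 (A p) ^ (j : ℕ) / sLim θs s0 (A p) -
        I * z p * (eLim θs y0 (B p) ^ (j : ℕ) / sLim θs s0 (B p)) with hN
  refine ⟨(Matrix.of fun p j : Fin 4 => (if p = p₀ then 2 / H 0 else v⁻¹) *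
    (Matrix.of fun p j : Fin 4 => u ^ (j : ℕ) * N p j) p j).det, ?_, ?_⟩
  · rw [Matrix.det_mul_column, Matrix.det_mul_row]
    refine mul_ne_zero ?_ (mul_ne_zero ?_ hdet)
    · rw [Finset.prod_ne_zero_iff]
      intro p _
      split_ifs
      · exact div_ne_zero two_ne_zero h.hH0
      · exact inv_ne_zero hv0
    · rw [Finset.prod_ne_zero_iff]
      intro p _
      exact pow_ne_zero _ hu0
  · apply tendsto_det _ _ p₀
    · intro p hp j
      have h1 := h.rows_other (A := A) (B := B) (z := z) (p := p)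
        ⟨fun h2 => n2 p p₀ hp (h2.trans hA.symm), fun h2 => n1 p p₀ (h2.trans hB.symm)⟩
        ⟨fun h2 => n1 p₀ p (hA.trans h2.symm), fun h2 => n3 p p₀ hp (h2.trans hB.symm)⟩ j
      convert h1 using 2
      rw [Matrix.of_apply, Matrix.of_apply, if_neg hp, hN, Matrix.of_apply, if_neg hp,
        y0_eq θs y0 (A p), y0_eq θs y0 (B p), s0_eq θs s0 (A p), s0_eq θs s0 (B p)]
      rw [← hu, ← hv, mul_pow, mul_pow, mul_div_mul_comm, mul_div_mul_comm]
      ring
    · intro j
      have h1 := h.row_O hZ hA hB hz j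
      convert h1 using 2
      rw [Matrix.of_apply, Matrix.of_apply, if_pos rfl, hN, Matrix.of_apply, if_pos rfl,
        h.Y_zero hZ hd, ← hu, mul_pow]
      ring

/-- the limit of the square, gap type -/
theorem LocData.sq_gap {A B : Fin 4 → Fin 8} {z : Fin 4 → ℂ} {p₀ : Fin 4} (hA : A p₀ = a)
    (hB : B p₀ = b) (hinj : Function.Injective (Sum.elim A B)) (hz : z p₀ = ε)
    (hdet : (Matrix.of fun p j : Fin 4 => if p = p₀ then
      2 * (Frest (eLim θs y0) a b).eval (η₀ : ℂ) * ((j : ℕ) * (η₀ : ℂ) ^ ((j : ℕ) - 1)) -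
        (derivative (Frest (eLim θs y0) a b)).eval (η₀ : ℂ) * (η₀ : ℂ) ^ (j : ℕ) else
      eLim θs y0 (A p) ^ (j : ℕ) / sLim θs s0 (A p) -
        I * z p * (eLim θs y0 (B p) ^ (j : ℕ) / sLim θs s0 (B p))).det ≠ 0) :
    ∃ Λ : ℂ, Λ ≠ 0 ∧ Tendsto (fun w => (rt (tvar X.c (circ θs) w))⁻¹ * (X.rowsW A B z w).det)
      (𝓝[X.D] (circ θs)) (𝓝 Λ) := by
  have hne := X.neBot_D_circ hZ
  obtain ⟨n1, n2, n3⟩ := ne_of_inj A B hinj
  have hY' := h.deriv_ne_zero hZ
  set u := exp (θs * I) with hu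
  set v := exp (7 / 2 * θs * I) with hv
  have hu0 : u ≠ 0 := Complex.exp_ne_zero _
  have hv0 : v ≠ 0 := Complex.exp_ne_zero _
  set F0 := (Frest (eLim θs y0) a b).eval (η₀ : ℂ) with hF0
  set F1 := (derivative (Frest (eLim θs y0) a b)).eval (η₀ : ℂ) with hF1
  set N : Matrix (Fin 4) (Fin 4) ℂ := Matrix.of fun p j : Fin 4 =>
    if p = p₀ then 2 * F0 * ((j : ℕ) * (η₀ : ℂ) ^ ((j : ℕ) - 1)) - F1 * (η₀ : ℂ) ^ (j : ℕ) else
      eLim θs y0 (A p) ^ (j : ℕ) / sLim θs s0 (A p) -
        I * z p * (eLim θs y0 (B p) ^ (j : ℕ) / sLim θs s0 (B p)) with hN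
  refine ⟨(Matrix.of fun p j : Fin 4 =>
    (if p = p₀ then 2 * deriv Y 0 ^ 2 * u ^ 5 / H 0 ^ 3 else v⁻¹) *
    (Matrix.of fun p j : Fin 4 => u ^ (j : ℕ) * N p j) p j).det, ?_, ?_⟩
  · rw [Matrix.det_mul_column, Matrix.det_mul_row]
    refine mul_ne_zero ?_ (mul_ne_zero ?_ hdet)
    · rw [Finset.prod_ne_zero_iff]
      intro p _
      split_ifs
      · exact div_ne_zero (mul_ne_zero (mul_ne_zero two_ne_zero (pow_ne_zero _ hY'))
          (pow_ne_zero _ hu0)) (pow_ne_zero _ h.hH0)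
      · exact inv_ne_zero hv0
    · rw [Finset.prod_ne_zero_iff]
      intro p _
      exact pow_ne_zero _ hu0
  · apply tendsto_det _ _ p₀
    · intro p hp j
      have h1 := h.rows_other (A := A) (B := B) (z := z) (p := p)
        ⟨fun h2 => n2 p p₀ hp (h2.trans hA.symm), fun h2 => n1 p p₀ (h2.trans hB.symm)⟩
        ⟨fun h2 => n1 p₀ p (hA.trans h2.symm), fun h2 => n3 p p₀ hp (h2.trans hB.symm)⟩ j
      convert h1 using 2
      rw [Matrix.of_apply, Matrix.of_apply, if_neg hp, hN, Matrix.of_apply, if_neg hp,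
        y0_eq θs y0 (A p), y0_eq θs y0 (B p), s0_eq θs s0 (A p), s0_eq θs s0 (B p)]
      rw [← hu, ← hv, mul_pow, mul_pow, mul_div_mul_comm, mul_div_mul_comm]
      ring
    · intro j
      have h1 := h.row_gap hZ hA hB hz j
      convert h1 using 2
      have r1 := h.rel1 hZ
      have r2 := h.rel2 hZ
      have hYz := h.Y_zero hZ hd
      rw [hYz, Frest_eval θs y0 h.hab, ← hu, ← hF0] at r1
      rw [hYz, Frest_deriv_eval θs y0 h.hab, ← hu, ← hF1] at r2
      rw [Matrix.of_apply, Matrix.of_apply, if_pos rfl, hN, Matrix.of_apply, if_pos rfl,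
        hYz, ← hu, mul_pow]
      have hH0 := h.hH0
      have r2' : deriv H 0 = deriv Y 0 ^ 2 * (u ^ 5 * F1) / H 0 := by
        rw [← r2]; field_simp
      rw [r2']
      rcases Nat.eq_zero_or_pos (j : ℕ) with hj | hj
      · rw [hj]
        simp only [Nat.cast_zero, zero_mul, mul_zero, zero_sub, pow_zero, one_mul, mul_one]
        field_simp
      · obtain ⟨i, hi⟩ : ∃ i, (j : ℕ) = i + 1 := ⟨(j : ℕ) - 1, by omega⟩
        rw [hi, Nat.add_sub_cancel, mul_pow]
        field_simp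
        push_cast
        linear_combination (-((i : ℂ) + 1) * u ^ i * (η₀ : ℂ) ^ i) * r1

end

end Ctx

end Pool.Agent.Rohlin
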