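import Pool.Agent.Rohlin.Frame

/-!
# Local behaviour of the pure spinor at a branch point, slit crossing

Everything is written in the coordinate `t = sqrt ((w - z) / (c - z))`.
-/

set_option autoImplicit false

namespace Pool.Agent.Rohlin

open Matrix Set Topology Filter

/-! ### square roots of rank one forms have limits -/

section SqLimit

variable {n : Type} [Fintype n]

/-- A continuous function whose square tends to a non-zero limit along a convex set tends to a
square root of the limit. -/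
theorem exists_sqrt_limit (S : Set ℂ) (hS : Convex ℝ S) (p : ℂ) {δ : ℝ} (hδ : 0 < δ)
    (g : ℂ → n → ℂ) (hg : ContinuousOn g (S ∩ Metric.ball p δ)) (Λ : Matrix n n ℂ) (hΛ : Λ ≠ 0)
    (hlim : Tendsto (fun t => vecMulVec (g t) (g t)) (𝓝[S] p) (𝓝 Λ)) :
    ∃ l : n → ℂ, Tendsto g (𝓝[S] p) (𝓝 l) := by
  by_cases hbot : 𝓝[S] p = ⊥
  · exact ⟨0, by rw [hbot]; exact tendsto_bot⟩
  have hne : (𝓝[S] p).NeBot := ⟨hbot⟩
  have hij : ∀ i j, Tendsto (fun t => g t i * g t j) (𝓝[S] p) (𝓝 (Λ i j)) := by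
    intro i j
    have := (tendsto_pi_nhds.mp (tendsto_pi_nhds.mp hlim i)) j
    simpa [Matrix.vecMulVec_apply] using this
  -- a diagonal entry is not zero
  obtain ⟨i, hi⟩ : ∃ i, Λ i i ≠ 0 := by
    by_contra hcon
    push Not at hcon
    apply hΛ
    ext a b
    have h1 : Tendsto (fun t => (g t a * g t b) * (g t a * g t b)) (𝓝[S] p)
        (𝓝 (Λ a b * Λ a b)) := (hij a b).mul (hij a b)
    have h2 : Tendsto (fun t => (g t a * g t a) * (g t b * g t b)) (𝓝[S] p)
        (𝓝 (Λ a a * Λ b b)) := (hij a a).mul (hij b b)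
    have h3 : Λ a b * Λ a b = Λ a a * Λ b b := by
      refine tendsto_nhds_unique h1 (h2.congr fun t => by ring)
    rw [hcon a, zero_mul] at h3
    simpa using h3
  obtain ⟨μ, hμ⟩ := IsAlgClosed.exists_eq_mul_self (Λ i i)
  have hμ0 : μ ≠ 0 := by
    rintro rfl
    exact hi (by rw [hμ, mul_zero])
  -- the quotient `g i / μ` has square tending to `1`
  set q : ℂ → ℂ := fun t => g t i / μ with hq
  have hq2 : Tendsto (fun t => q t * q t) (𝓝[S] p) (𝓝 1) := by
    have h1 : Tendsto (fun t => (g t i * g t i) / (μ * μ)) (𝓝[S] p) (𝓝 (Λ i i / (μ * μ))) :=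
      (hij i i).div_const _
    rw [hμ, div_self (mul_ne_zero hμ0 hμ0)] at h1
    refine h1.congr fun t => ?_
    change g t i * g t i / (μ * μ) = g t i / μ * (g t i / μ)
    field_simp
  -- on a smaller ball the real part of `q` does not vanish
  have hev : ∀ᶠ t in 𝓝[S] p, ‖q t * q t - 1‖ < 1 := by
    have := hq2.sub_const 1
    rw [sub_self] at this
    have h2 := this.norm
    rw [norm_zero] at h2
    exact h2.eventually (gt_mem_nhds one_pos)
  rw [eventually_nhdsWithin_iff, Metric.eventually_nhds_iff_ball] at hev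
  obtain ⟨δ', hδ', hball⟩ := hev
  set r := min δ δ' with hr
  have hr0 : 0 < r := lt_min hδ hδ'
  set T := S ∩ Metric.ball p r with hT
  have hTpre : IsPreconnected T := (hS.inter (convex_ball p r)).isPreconnected
  have hgT : ContinuousOn g T := hg.mono (inter_subset_inter_right _
    (Metric.ball_subset_ball (min_le_left _ _)))
  have hqT : ContinuousOn q T := by
    rw [hq]
    exact ((continuous_apply i).comp_continuousOn hgT).div_const _
  have hre : ∀ t ∈ T, (q t).re ≠ 0 := by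
    intro t ht hre
    have h1 := hball t (Metric.ball_subset_ball (min_le_right _ _) ht.2) ht.1
    have h2 : q t * q t = -((q t).im ^ 2 : ℝ) := by
      apply Complex.ext
      · simp [Complex.mul_re, hre, sq]
      · simp [Complex.mul_im, hre, sq]
    rw [h2] at h1
    have h3 : ‖(-((q t).im ^ 2 : ℝ) : ℂ) - 1‖ = (q t).im ^ 2 + 1 := by
      rw [show (-((q t).im ^ 2 : ℝ) : ℂ) - 1 = ((-((q t).im ^ 2 + 1) : ℝ) : ℂ) by push_cast; ring,
        Complex.norm_real, Real.norm_eq_abs, abs_neg, abs_of_pos (by positivity)]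
    rw [h3] at h1
    nlinarith [sq_nonneg (q t).im]
  have hsign : (∀ t ∈ T, 0 < (q t).re) ∨ (∀ t ∈ T, (q t).re < 0) := by
    by_contra hcon
    push Not at hcon
    obtain ⟨⟨t1, ht1, h1⟩, ⟨t2, ht2, h2⟩⟩ := hcon
    have h3 : ContinuousOn (fun t => (q t).re) T := Complex.continuous_re.comp_continuousOn hqT
    obtain ⟨t, ht, h4⟩ := hTpre.intermediate_value ht1 ht2 h3 (⟨h1, h2⟩ : (0 : ℝ) ∈ Icc _ _)
    exact hre t ht h4
  have hTmem : T ∈ 𝓝[S] p := by
    rw [hT]
    exact inter_mem self_mem_nhdsWithin (mem_nhdsWithin_of_mem_nhds (Metric.ball_mem_nhds p hr0))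
  -- the limit of `q`
  have hlimq : ∃ σ : ℂ, σ * σ = 1 ∧ Tendsto q (𝓝[S] p) (𝓝 σ) := by
    have key : ∀ σ : ℝ, (σ = 1 ∨ σ = -1) → (∀ t ∈ T, 0 < σ * (q t).re) →
        Tendsto q (𝓝[S] p) (𝓝 (σ : ℂ)) := by
      intro σ hσ hpos
      rw [tendsto_iff_norm_sub_tendsto_zero]
      have h0 := hq2.sub_const 1
      rw [sub_self] at h0
      have h2 := h0.norm
      rw [norm_zero] at h2
      refine squeeze_zero' (Eventually.of_forall fun t => norm_nonneg _) ?_ h2
      filter_upwards [hTmem] with t ht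
      have h5 : q t * q t - 1 = (q t - σ) * (q t + σ) := by
        rcases hσ with h | h <;> rw [h] <;> push_cast <;> ring
      rw [h5, norm_mul]
      have h6 : 1 ≤ ‖q t + σ‖ := by
        have h7 := Complex.abs_re_le_norm (q t + σ)
        have h8 := hpos t ht
        refine le_trans ?_ h7
        rw [Complex.add_re, Complex.ofReal_re]
        rcases hσ with h | h
        · rw [h] at h8 ⊢
          rw [abs_of_pos (by linarith)]; linarith
        · rw [h] at h8 ⊢
          rw [abs_of_neg (by linarith)]; linarith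
      nlinarith [norm_nonneg (q t - σ)]
    rcases hsign with h | h
    · exact ⟨((1 : ℝ) : ℂ), by norm_num, key 1 (Or.inl rfl) fun t ht => by
        rw [one_mul]; exact h t ht⟩
    · exact ⟨((-1 : ℝ) : ℂ), by norm_num, key (-1) (Or.inr rfl) fun t ht => by
        linarith [h t ht]⟩
  obtain ⟨σ, hσ, hqσ⟩ := hlimq
  have hσ0 : σ ≠ 0 := by
    rintro rfl
    simp at hσ
  have hgi : Tendsto (fun t => g t i) (𝓝[S] p) (𝓝 (σ * μ)) := by
    have := hqσ.mul_const μ
    refine this.congr fun t => ?_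
    rw [hq]
    field_simp
  refine ⟨fun j => Λ i j / (σ * μ), tendsto_pi_nhds.mpr fun j => ?_⟩
  have h1 := (hij i j).div hgi (mul_ne_zero hσ0 hμ0)
  refine h1.congr' ?_
  have h2 : ∀ᶠ t in 𝓝[S] p, g t i ≠ 0 := hgi.eventually_ne (mul_ne_zero hσ0 hμ0)
  filter_upwards [h2] with t ht
  simp only [Pi.div_apply]
  field_simp

omit [Fintype n] in
theorem tendsto_vecMulVec {α : Type*} {F : Filter α} {f g : α → n → ℂ} {x y : n → ℂ}
    (hf : Tendsto f F (𝓝 x)) (hg : Tendsto g F (𝓝 y)) :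
    Tendsto (fun t => vecMulVec (f t) (g t)) F (𝓝 (vecMulVec x y)) := by
  refine tendsto_pi_nhds.mpr fun i => tendsto_pi_nhds.mpr fun j => ?_
  simp only [Matrix.vecMulVec_apply]
  exact ((tendsto_pi_nhds.mp hf) i).mul ((tendsto_pi_nhds.mp hg) j)

end SqLimit

/-! ### algebra of the product -/

section Algebra

variable {m : ℕ} {n : Type} [Fintype n] [DecidableEq n] (M : Majorana m n)

theorem Majorana.g_add (v w : Fin m → ℂ) : M.g (v + w) = M.g v + M.g w := by
  simp [Majorana.g, add_smul, Finset.sum_add_distrib]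

theorem Majorana.g_csmul (c : ℂ) (v : Fin m → ℂ) : M.g (c • v) = c • M.g v := by
  simp [Majorana.g, mul_smul, Finset.smul_sum]

theorem Majorana.g_sub (v w : Fin m → ℂ) : M.g (v - w) = M.g v - M.g w := by
  simp [Majorana.g, sub_smul, Finset.sum_sub_distrib]

theorem Majorana.continuous_g : Continuous fun v : Fin m → ℂ => M.g v := by
  unfold Majorana.g
  exact continuous_finsetSum _ fun a _ => (continuous_apply a).smul continuous_const

theorem Majorana.tendsto_R {α : Type*} {F : Filter α} : ∀ {k : ℕ}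
    (v : α → Fin k → Fin m → ℂ) (x : Fin k → Fin m → ℂ) (_ : ∀ j, Tendsto (fun t => v t j) F (𝓝 (x j))),
    Tendsto (fun t => M.R (v t)) F (𝓝 (M.R x)) := by
  intro k
  induction k with
  | zero =>
    intro v x _
    simp only [M.R_zero]
    exact tendsto_const_nhds
  | succ k ih =>
    intro v x h
    simp only [M.R_succ]
    exact ((M.continuous_g.tendsto _).comp (h 0)).mul
      (ih (fun t j => v t j.succ) (fun j => x j.succ) (fun j => h j.succ))

/-- the Newton change of basis: `v 0, v 1 - y v 0, v 2 - y v 1, ...`. -/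
theorem Majorana.newton (y : ℂ) : ∀ {k : ℕ} (v : Fin (k + 1) → Fin m → ℂ)
    (_ : ∀ i j, v i ⬝ᵥ v j = 0), M.R v = M.g (v 0) *
      M.R (fun j : Fin k => v j.succ - y • v j.castSucc) := by
  have main : ∀ {k : ℕ} (X : Matrix n n ℂ) (v : Fin (k + 1) → Fin m → ℂ)
      (_ : ∀ i j, v i ⬝ᵥ v j = 0), X * M.R v = X * (M.g (v 0) *
      M.R (fun j : Fin k => v j.succ - y • v j.castSucc)) := by
    intro k
    induction k with
    | zero => intro X v _; rw [M.R_succ, M.R_zero, M.R_zero]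
    | succ k ih =>
      intro X v hv
      have h1 : M.g (v 0) * M.g (v (Fin.succ 0) - y • v (Fin.castSucc 0)) =
          M.g (v 0) * M.g (v 1) := by
        rw [M.g_sub, M.g_csmul, Matrix.mul_sub, Matrix.mul_smul]
        have : (Fin.castSucc (0 : Fin (k + 1))) = 0 := rfl
        rw [this, M.g_sq _ (hv 0 0)]
        simp
      have h2 := ih (X * M.g (v 0)) (fun j => v j.succ) (fun i j => hv _ _)
      rw [M.R_succ v, ← Matrix.mul_assoc, h2, M.R_succ (fun j : Fin (k + 1) =>
        v j.succ - y • v j.castSucc), ← Matrix.mul_assoc (M.g (v 0)), h1]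
      simp only [Matrix.mul_assoc]
      rfl
  intro k v hv
  have := main 1 v hv
  rwa [one_mul, one_mul] at this

end Algebra

/-! ### the local normal form at a branch point -/

/-- the principal square root of `t` -/
noncomputable def rt (t : ℂ) : ℂ := t ^ (1 / 2 : ℂ)

theorem rt_mul_rt (t : ℂ) : rt t * rt t = t := by
  rw [rt]
  by_cases ht : t = 0
  · rw [ht, Complex.zero_cpow (by norm_num)]; simp
  · rw [← Complex.cpow_add _ _ ht]; norm_num

theorem rt_ne_zero {t : ℂ} (ht : t ≠ 0) : rt t ≠ 0 := by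
  intro h
  apply ht
  rw [← rt_mul_rt t, h, zero_mul]

theorem tendsto_rt (S : Set ℂ) : Tendsto rt (𝓝[S] 0) (𝓝 0) := by
  have h : ContinuousAt (fun x : ℂ => x ^ (1 / 2 : ℂ)) 0 :=
    Complex.continuousAt_cpow_const_of_re_pos (Or.inl (by simp)) (by norm_num)
  have h2 := h.tendsto
  rw [Complex.zero_cpow (by norm_num)] at h2
  exact h2.mono_left nhdsWithin_le_nhds

/-- local data at a branch point, in the coordinate `t`: the labels `a`, `b` collide. -/
structure LocalData (k : ℕ) where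
  /-- first colliding label -/
  a : Fin (2 * k)
  /-- second colliding label -/
  b : Fin (2 * k)
  hab : a ≠ b
  /-- the sign -/
  ε : ℂ
  hε : ε = 1 ∨ ε = -1
  /-- the colliding root is `Y t` resp. `Y (-t)` -/
  Y : ℂ → ℂ
  /-- the square root of the derivative is `t ^ (1/2) * H t` -/
  H : ℂ → ℂ
  hY : DifferentiableAt ℂ Y 0
  hH : ContinuousAt H 0
  hH0 : H 0 ≠ 0
  /-- the limits of the other roots -/
  y : Fin (2 * k) → ℂ
  /-- the limits of the other square roots of the derivative -/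
  s : Fin (2 * k) → ℂ
  hs0 : ∀ i, i ≠ a → i ≠ b → s i ≠ 0
  hyY : ∀ i, i ≠ a → i ≠ b → y i ≠ Y 0
  hinj : ∀ i j, i ≠ a → i ≠ b → j ≠ a → j ≠ b → i ≠ j → y i ≠ y j

/-- labels `root`, `sq` (functions of `t`) with the local data `D` along `S`. -/
structure LocalData.Holds {k : ℕ} (D : LocalData k) (S : Set ℂ) (root sq : Fin (2 * k) → ℂ → ℂ) :
    Prop where
  root_a : ∀ᶠ t in 𝓝[S] 0, root D.a t = D.Y t
  root_b : ∀ᶠ t in 𝓝[S] 0, root D.b t = D.Y (-t)
  sq_a : ∀ᶠ t in 𝓝[S] 0, sq D.a t = rt t * D.H t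
  sq_b : ∀ᶠ t in 𝓝[S] 0, sq D.b t = D.ε * Complex.I * rt t * D.H (-t)
  root_other : ∀ i, i ≠ D.a → i ≠ D.b → Tendsto (root i) (𝓝[S] 0) (𝓝 (D.y i))
  sq_other : ∀ i, i ≠ D.a → i ≠ D.b → Tendsto (sq i) (𝓝[S] 0) (𝓝 (D.s i))

/-- the frame vectors -/
noncomputable def frameVec {k : ℕ} (root sq : Fin (2 * k) → ℂ → ℂ) (t : ℂ) :
    Fin k → Fin (2 * k) → ℂ := fun j i => root i t ^ (j : ℕ) / sq i t

namespace LocalData

variable {k : ℕ} (D : LocalData k)

theorem ε_ne : D.ε ≠ 0 := by rcases D.hε with h | h <;> rw [h] <;> norm_num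

theorem ε_sq : D.ε ^ 2 = 1 := by rcases D.hε with h | h <;> rw [h] <;> norm_num

/-- the vanishing vector -/
noncomputable def N : Fin (2 * k) → ℂ := fun i =>
  if i = D.a then (D.H 0)⁻¹ else if i = D.b then (D.ε * Complex.I * D.H 0)⁻¹ else 0

/-- the limits of the other vectors -/
noncomputable def W (j : ℕ) : Fin (2 * k) → ℂ := fun i =>
  if i = D.a then 0 else if i = D.b then 0 else D.y i ^ j * (D.y i - D.Y 0) / D.s i

variable {S : Set ℂ} (hS : S ⊆ Complex.slitPlane)

include hS in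
theorem ev_ne : ∀ᶠ t in 𝓝[S] (0 : ℂ), t ≠ 0 := by
  filter_upwards [self_mem_nhdsWithin] with t ht
  exact Complex.slitPlane_ne_zero (hS ht)

theorem tendsto_neg_nhdsWithin {f : ℂ → ℂ} (hf : ContinuousAt f 0) :
    Tendsto (fun t => f (-t)) (𝓝[S] 0) (𝓝 (f 0)) := by
  have h1 : ContinuousAt (fun t : ℂ => f (-t)) 0 := by
    apply ContinuousAt.comp (g := f) (f := fun t : ℂ => -t)
    · simpa using hf
    · exact continuousAt_neg
  have := h1.tendsto
  simp only [neg_zero] at this
  exact this.mono_left nhdsWithin_le_nhds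

variable {root sq : Fin (2 * k) → ℂ → ℂ} (hD : D.Holds S root sq)

include hS hD in
theorem tendsto_N (h0 : 0 < k) :
    Tendsto (fun t => rt t • frameVec root sq t ⟨0, h0⟩) (𝓝[S] 0) (𝓝 D.N) := by
  refine tendsto_pi_nhds.mpr fun i => ?_
  simp only [Pi.smul_apply, frameVec, smul_eq_mul, pow_zero, N]
  split_ifs with h1 h2
  · subst h1
    have h3 : Tendsto (fun t => (D.H t)⁻¹) (𝓝[S] 0) (𝓝 (D.H 0)⁻¹) :=
      (D.hH.tendsto.mono_left nhdsWithin_le_nhds).inv₀ D.hH0
    refine h3.congr' ?_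
    filter_upwards [ev_ne hS, hD.sq_a] with t ht h
    rw [h]
    have := rt_ne_zero ht
    by_cases hHt : D.H t = 0
    · rw [hHt]; simp
    · field_simp
  · subst h2
    have h3 : Tendsto (fun t => (D.ε * Complex.I * D.H (-t))⁻¹) (𝓝[S] 0)
        (𝓝 (D.ε * Complex.I * D.H 0)⁻¹) :=
      ((tendsto_neg_nhdsWithin D.hH).const_mul _).inv₀
        (mul_ne_zero (mul_ne_zero D.ε_ne Complex.I_ne_zero) D.hH0)
    refine h3.congr' ?_
    filter_upwards [ev_ne hS, hD.sq_b] with t ht h
    rw [h]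
    have := rt_ne_zero ht
    have := D.ε_ne
    by_cases hHt : D.H (-t) = 0
    · rw [hHt]; simp
    · field_simp
  · have h3 : Tendsto (fun t => rt t * ((1 : ℂ) / sq i t)) (𝓝[S] 0) (𝓝 (0 * (1 / D.s i))) :=
      (tendsto_rt S).mul ((tendsto_const_nhds (x := (1 : ℂ))).div (hD.sq_other i h1 h2)
        (D.hs0 i h1 h2))
    rw [zero_mul] at h3
    exact h3

include hS in
theorem tendsto_slope_rt {f : ℂ → ℂ} (hf : DifferentiableAt ℂ f 0) :
    Tendsto (fun t => (f t - f 0) / rt t) (𝓝[S] 0) (𝓝 0) := by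
  have h1 := hf.hasDerivAt
  rw [hasDerivAt_iff_tendsto_slope] at h1
  have h2 : 𝓝[S] (0 : ℂ) ≤ 𝓝[≠] 0 := by
    apply nhdsWithin_mono
    intro t ht
    exact Complex.slitPlane_ne_zero (hS ht)
  have h3 := (h1.mono_left h2).mul (tendsto_rt S)
  rw [mul_zero] at h3
  refine h3.congr' ?_
  filter_upwards [ev_ne hS] with t ht
  rw [slope_def_field, sub_zero]
  have h4 := rt_ne_zero ht
  have h5 := rt_mul_rt t
  field_simp
  rw [pow_two, h5]

include hS hD in
theorem tendsto_W (j : ℕ) (h1 : j + 1 < k) : Tendsto (fun t => frameVec root sq t ⟨j + 1, h1⟩ -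
    D.Y 0 • frameVec root sq t ⟨j, by omega⟩) (𝓝[S] 0) (𝓝 (D.W j)) := by
  refine tendsto_pi_nhds.mpr fun i => ?_
  simp only [Pi.sub_apply, Pi.smul_apply, frameVec, smul_eq_mul, W]
  have hform : ∀ t, root i t ^ (j + 1) / sq i t - D.Y 0 * (root i t ^ j / sq i t) =
      root i t ^ j * (root i t - D.Y 0) / sq i t := by
    intro t; ring
  simp only [hform]
  have hYc := D.hY.continuousAt
  split_ifs with h2 h3
  · subst h2
    have h4 : Tendsto (fun t => D.Y t ^ j * ((D.Y t - D.Y 0) / rt t) * (D.H t)⁻¹) (𝓝[S] 0)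
        (𝓝 (D.Y 0 ^ j * 0 * (D.H 0)⁻¹)) :=
      (((hYc.tendsto.mono_left nhdsWithin_le_nhds).pow j).mul (tendsto_slope_rt hS D.hY)).mul
        ((D.hH.tendsto.mono_left nhdsWithin_le_nhds).inv₀ D.hH0)
    rw [mul_zero, zero_mul] at h4
    refine h4.congr' ?_
    filter_upwards [ev_ne hS, hD.sq_a, hD.root_a] with t ht h h'
    rw [h, h']
    have := rt_ne_zero ht
    by_cases hHt : D.H t = 0
    · rw [hHt]; simp
    · field_simp
  · subst h3
    have hd : DifferentiableAt ℂ (fun t => D.Y (-t)) 0 := by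
      apply DifferentiableAt.comp (g := D.Y) (f := fun t : ℂ => -t)
      · simpa using D.hY
      · fun_prop
    have h5 := tendsto_slope_rt hS hd
    simp only [neg_zero] at h5
    have h4 : Tendsto (fun t => D.Y (-t) ^ j * ((D.Y (-t) - D.Y 0) / rt t) *
        (D.ε * Complex.I * D.H (-t))⁻¹) (𝓝[S] 0)
        (𝓝 (D.Y 0 ^ j * 0 * (D.ε * Complex.I * D.H 0)⁻¹)) :=
      (((tendsto_neg_nhdsWithin hYc).pow j).mul h5).mul
        (((tendsto_neg_nhdsWithin D.hH).const_mul _).inv₀
        (mul_ne_zero (mul_ne_zero D.ε_ne Complex.I_ne_zero) D.hH0))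
    rw [mul_zero, zero_mul] at h4
    refine h4.congr' ?_
    filter_upwards [ev_ne hS, hD.sq_b, hD.root_b] with t ht h h'
    rw [h, h']
    have := rt_ne_zero ht
    have := D.ε_ne
    by_cases hHt : D.H (-t) = 0
    · rw [hHt]; simp
    · field_simp
  · have hyc := hD.root_other i h2 h3
    have hsc := hD.sq_other i h2 h3
    exact ((hyc.pow j).mul (hyc.sub_const (D.Y 0))).div hsc (D.hs0 i h2 h3)

end LocalData

/-! ### the limit of the form -/

namespace LocalData

variable {k : ℕ} (D : LocalData (k + 1))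

/-- the limit family -/
noncomputable def U : Fin (k + 1) → Fin (2 * (k + 1)) → ℂ :=
  Fin.cons D.N fun j : Fin k => D.W j

theorem U_zero : D.U 0 = D.N := rfl

theorem U_succ (j : Fin k) : D.U j.succ = D.W j := rfl

theorem N_a : D.N D.a = (D.H 0)⁻¹ := by simp [N]

theorem N_b : D.N D.b = (D.ε * Complex.I * D.H 0)⁻¹ := by simp [N, D.hab.symm]

theorem N_other {i : Fin (2 * (k + 1))} (h1 : i ≠ D.a) (h2 : i ≠ D.b) : D.N i = 0 := by
  simp [N, h1, h2]

theorem linearIndependent_U : LinearIndependent ℂ D.U := by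
  classical
  rw [Fintype.linearIndependent_iff]
  intro c hc
  have hsum : ∀ i, c 0 * D.N i + ∑ j : Fin k, c j.succ * D.W j i = 0 := by
    intro i
    have := congrFun hc i
    rw [Fin.sum_univ_succ] at this
    simpa [U_zero, U_succ, Finset.sum_apply] using this
  have h0 : c 0 = 0 := by
    have h1 := hsum D.a
    have h2 : ∀ j : Fin k, D.W j D.a = 0 := fun j => by simp [W]
    simp only [h2, mul_zero, Finset.sum_const_zero, add_zero, N_a] at h1
    rcases mul_eq_zero.mp h1 with h | h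
    · exact h
    · exact absurd h (inv_ne_zero D.hH0)
  set p : Polynomial ℂ := ∑ j : Fin k, Polynomial.C (c j.succ) * Polynomial.X ^ (j : ℕ) with hp
  have hev : ∀ i, i ≠ D.a → i ≠ D.b → p.eval (D.y i) = 0 := by
    intro i h1 h2
    have h3 := hsum i
    rw [h0, zero_mul, zero_add] at h3
    have h4 : (∑ j : Fin k, c j.succ * D.y i ^ (j : ℕ)) * ((D.y i - D.Y 0) / D.s i) =
        ∑ j : Fin k, c j.succ * D.W j i := by
      rw [Finset.sum_mul]
      refine Finset.sum_congr rfl fun j _ => ?_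
      simp only [W, h1, h2, if_false]
      ring
    rw [h3] at h4
    rcases mul_eq_zero.mp h4 with h5 | h5
    · rw [hp, Polynomial.eval_finsetSum]
      simpa using h5
    · exact absurd h5 (div_ne_zero (sub_ne_zero.mpr (D.hyY i h1 h2)) (D.hs0 i h1 h2))
  have hdeg : p.degree < k := by
    rw [hp, ← Polynomial.mem_degreeLT]
    refine Submodule.sum_mem _ fun j _ => ?_
    rw [Polynomial.mem_degreeLT]
    refine (Polynomial.degree_C_mul_X_pow_le _ _).trans_lt ?_
    exact_mod_cast j.2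
  have hp0 : p = 0 := by
    refine Polynomial.eq_zero_of_degree_lt_of_eval_index_eq_zero
      (s := (Finset.univ.erase D.a).erase D.b) (v := fun i => D.y i) ?_ ?_ ?_
    · intro i hi j hj hij
      simp only [Finset.coe_erase, Set.mem_sdiff, Finset.coe_univ, Set.mem_univ, true_and,
        Set.mem_singleton_iff] at hi hj
      by_contra hne
      exact D.hinj i j hi.1 hi.2 hj.1 hj.2 hne hij
    · rw [Finset.card_erase_of_mem (Finset.mem_erase.mpr ⟨D.hab.symm, Finset.mem_univ _⟩),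
        Finset.card_erase_of_mem (Finset.mem_univ _), Finset.card_univ, Fintype.card_fin]
      refine hdeg.trans_le ?_
      exact_mod_cast (by omega : k ≤ 2 * (k + 1) - 1 - 1)
    · intro i hi
      simp only [Finset.mem_erase, Finset.mem_univ, and_true] at hi
      exact hev i hi.2 hi.1
  intro j
  refine Fin.cases h0 (fun j => ?_) j
  have h3 : p.coeff (j : ℕ) = c j.succ := by
    rw [hp, Polynomial.finsetSum_coeff, Finset.sum_eq_single j]
    · simp
    · intro i _ hij
      rw [Polynomial.coeff_C_mul_X_pow, if_neg]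
      exact fun h => hij (Fin.ext h.symm)
    · intro h
      exact absurd (Finset.mem_univ j) h
  rw [← h3, hp0, Polynomial.coeff_zero]

variable {n : Type} [Fintype n] [DecidableEq n] (M : Majorana (2 * (k + 1)) n)
  {S : Set ℂ} (hS : S ⊆ Complex.slitPlane) {root sq : Fin (2 * (k + 1)) → ℂ → ℂ}
  (hD : D.Holds S root sq)
  (hiso : ∀ᶠ t in 𝓝[S] 0, ∀ i j, frameVec root sq t i ⬝ᵥ frameVec root sq t j = 0)

/-- the rescaled family -/
noncomputable def resc (root sq : Fin (2 * (k + 1)) → ℂ → ℂ) (t : ℂ) :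
    Fin (k + 1) → Fin (2 * (k + 1)) → ℂ :=
  Fin.cons (rt t • frameVec root sq t 0) fun j : Fin k =>
    frameVec root sq t j.succ - D.Y 0 • frameVec root sq t j.castSucc

include hS hD in
theorem tendsto_resc (j : Fin (k + 1)) :
    Tendsto (fun t => D.resc root sq t j) (𝓝[S] 0) (𝓝 (D.U j)) := by
  refine Fin.cases ?_ (fun j => ?_) j
  · exact D.tendsto_N hS hD (Nat.succ_pos k)
  · exact D.tendsto_W hS hD j (by omega)

include hiso in
theorem R_resc : ∀ᶠ t in 𝓝[S] 0, M.R (D.resc root sq t) = rt t • M.R (frameVec root sq t) := by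
  filter_upwards [hiso] with t ht
  rw [M.newton (D.Y 0) _ ht, M.R_succ]
  simp only [resc, Fin.cons_zero, Fin.cons_succ]
  rw [M.g_csmul, Matrix.smul_mul]

include hS hD hiso in
theorem tendsto_form : Tendsto (fun t => rt t • M.R (frameVec root sq t)) (𝓝[S] 0)
    (𝓝 (M.R D.U)) := by
  refine (M.tendsto_R _ _ (D.tendsto_resc hS hD)).congr' ?_
  filter_upwards [D.R_resc M hiso] with t ht
  exact ht

include hS hD hiso in
theorem U_iso [(𝓝[S] (0 : ℂ)).NeBot] (i j : Fin (k + 1)) : D.U i ⬝ᵥ D.U j = 0 := by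
  have h1 : Tendsto (fun t => D.resc root sq t i ⬝ᵥ D.resc root sq t j) (𝓝[S] 0)
      (𝓝 (D.U i ⬝ᵥ D.U j)) := by
    unfold dotProduct
    refine tendsto_finsetSum _ fun a _ => ?_
    exact ((tendsto_pi_nhds.mp (D.tendsto_resc hS hD i)) a).mul
      ((tendsto_pi_nhds.mp (D.tendsto_resc hS hD j)) a)
  have h2 : ∀ᶠ t in 𝓝[S] 0, D.resc root sq t i ⬝ᵥ D.resc root sq t j = 0 := by
    filter_upwards [hiso] with t ht
    refine Fin.cases ?_ (fun i => ?_) i <;> refine Fin.cases ?_ (fun j => ?_) j <;>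
      simp [resc, sub_dotProduct, dotProduct_sub, smul_dotProduct, dotProduct_smul, ht]
  have h3 : Tendsto (fun _ : ℂ => (0 : ℂ)) (𝓝[S] 0) (𝓝 (D.U i ⬝ᵥ D.U j)) :=
    h1.congr' h2
  exact tendsto_nhds_unique h3 tendsto_const_nhds

/-- the principal fourth root of `t` -/
noncomputable def qt (t : ℂ) : ℂ := t ^ (1 / 4 : ℂ)

theorem qt_mul_qt (t : ℂ) : qt t * qt t = rt t := by
  rw [qt, rt]
  by_cases ht : t = 0
  · rw [ht, Complex.zero_cpow (by norm_num), Complex.zero_cpow (by norm_num)]; simp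
  · rw [← Complex.cpow_add _ _ ht]; norm_num

theorem continuousOn_qt {S : Set ℂ} (hS : S ⊆ Complex.slitPlane) : ContinuousOn qt S := by
  intro t ht
  exact (continuousAt_cpow_const (hS ht)).continuousWithinAt

include hS hD hiso in
/-- **The pure spinor at a branch point.** -/
theorem exists_lambda [Nonempty n] [(𝓝[S] (0 : ℂ)).NeBot] (hconv : Convex ℝ S)
    (C : Matrix n n ℂ) (hCC : Cᴴ * C = 1) {δ : ℝ} (hδ : 0 < δ) (L : ℂ → n → ℂ)
    (hL : ContinuousOn L (S ∩ Metric.ball 0 δ))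
    (hLL : ∀ᶠ t in 𝓝[S] 0, C * M.R (frameVec root sq t) = vecMulVec (L t) (L t)) :
    ∃ l : n → ℂ, l ≠ 0 ∧ Tendsto (fun t => qt t • L t) (𝓝[S] 0) (𝓝 l) ∧
      C * M.R D.U = vecMulVec l l := by
  have hU := D.U_iso hS hD hiso
  have hΛ : C * M.R D.U ≠ 0 := by
    intro h
    apply M.R_ne_zero D.U hU D.linearIndependent_U
    have := congrArg (fun A => Cᴴ * A) h
    simpa [← Matrix.mul_assoc, hCC] using this
  have hform : Tendsto (fun t => vecMulVec (qt t • L t) (qt t • L t)) (𝓝[S] 0)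
      (𝓝 (C * M.R D.U)) := by
    have h1 : Tendsto (fun t => C * (rt t • M.R (frameVec root sq t))) (𝓝[S] 0)
        (𝓝 (C * M.R D.U)) := (D.tendsto_form M hS hD hiso).const_mul C
    refine h1.congr' ?_
    filter_upwards [hLL] with t ht
    rw [Matrix.mul_smul, ht, ← qt_mul_qt]
    ext i j
    simp [Matrix.vecMulVec_apply]
    ring
  obtain ⟨l, hl⟩ := exists_sqrt_limit S hconv 0 hδ (fun t => qt t • L t)
    (((continuousOn_qt hS).mono inter_subset_left).smul hL) _ hΛ hform
  have h2 : C * M.R D.U = vecMulVec l l :=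
    tendsto_nhds_unique hform (tendsto_vecMulVec hl hl)
  refine ⟨l, ?_, hl, h2⟩
  rintro rfl
  apply hΛ
  rw [h2]
  ext i j
  simp [Matrix.vecMulVec_apply]

include hS hD hiso in
/-- the limit spinor is an eigenvector of the quarter rotation. -/
theorem lambda_Bfac [(𝓝[S] (0 : ℂ)).NeBot] (C : Matrix n n ℂ) (l : n → ℂ)
    (hl : C * M.R D.U = vecMulVec l l) :
    l ᵥ* Bfac M D.a D.b D.ε = Complex.exp (Real.pi * Complex.I / 4) • l := by
  have hU := D.U_iso hS hD hiso
  have h1 := M.l_vecMul_g C D.U hU l hl 0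
  have h2 : M.g D.N = (D.H 0)⁻¹ • M.e D.a + (D.ε * Complex.I * D.H 0)⁻¹ • M.e D.b := by
    rw [Majorana.g, Finset.sum_eq_add D.a D.b D.hab]
    · rw [N_a, N_b]
    · intro c _ hc
      rw [N_other D hc.1 hc.2, zero_smul]
    · intro h; exact absurd (Finset.mem_univ _) h
    · intro h; exact absurd (Finset.mem_univ _) h
  rw [U_zero, h2, Matrix.vecMul_add, Matrix.vecMul_smul, Matrix.vecMul_smul] at h1
  have hε := D.ε_sq
  have hε0 := D.ε_ne
  have hH := D.hH0
  have h3 : l ᵥ* M.e D.a = (Complex.I * D.ε) • (l ᵥ* M.e D.b) := by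
    have h4 : (D.H 0) • ((D.H 0)⁻¹ • l ᵥ* M.e D.a +
        (D.ε * Complex.I * D.H 0)⁻¹ • l ᵥ* M.e D.b) = 0 := by rw [h1, smul_zero]
    rw [smul_add, smul_smul, smul_smul, mul_inv_cancel₀ hH, one_smul] at h4
    have h5 : D.H 0 * (D.ε * Complex.I * D.H 0)⁻¹ = -(Complex.I * D.ε) := by
      have hI := Complex.I_ne_zero
      field_simp
      linear_combination (D.ε ^ 2) * Complex.I_sq - hε
    rw [h5, neg_smul] at h4
    exact eq_of_sub_eq_zero (by rw [sub_eq_add_neg]; exact h4)
  have h6 : l ᵥ* (M.e D.a * M.e D.b) = (Complex.I * D.ε) • l := by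
    rw [← Matrix.vecMul_vecMul, h3, Matrix.smul_vecMul, Matrix.vecMul_vecMul, M.sq,
      Matrix.vecMul_one]
  rw [Bfac, Matrix.vecMul_smul, Matrix.vecMul_add, Matrix.vecMul_one, Matrix.vecMul_smul, h6,
    smul_smul]
  have h7 : D.ε * (Complex.I * D.ε) = Complex.I := by linear_combination Complex.I * hε
  have h8 : Complex.exp (Real.pi * Complex.I / 4) =
      ((Real.sqrt 2 : ℝ) : ℂ)⁻¹ * (1 + Complex.I) := by
    have h9 : (Real.pi * Complex.I / 4 : ℂ) = ((Real.pi / 4 : ℝ) : ℂ) * Complex.I := by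
      push_cast; ring
    rw [h9, Complex.exp_mul_I, ← Complex.ofReal_cos, ← Complex.ofReal_sin, Real.cos_pi_div_four,
      Real.sin_pi_div_four]
    have h10 : ((Real.sqrt 2 / 2 : ℝ) : ℂ) = ((Real.sqrt 2 : ℝ) : ℂ)⁻¹ := by
      rw [← Complex.ofReal_inv]
      congr 1
      rw [div_eq_iff (by norm_num), inv_mul_eq_div, eq_div_iff (by positivity)]
      exact Real.mul_self_sqrt (by norm_num)
    rw [h10]
    ring
  rw [h7, h8, mul_add, mul_one, add_smul, smul_add, smul_smul]

end LocalData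

end Pool.Agent.Rohlin
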