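import Pool.Agent.Rohlin.EvSq
import Pool.Agent.Rohlin.Spin

/-!
# Events: the local data at a real branch point
-/

set_option autoImplicit false

namespace Pool.Agent.Rohlin

open Polynomial Complex Set Matrix Filter Topology Metric

/-- divided differences of a product converge to the derivative -/
theorem tendsto_divdiff {α : Type*} {F : Filter α} (S : Finset (Fin 8)) {u v : α → ℂ}
    {c : α → Fin 8 → ℂ} {y : ℂ} {c₀ : Fin 8 → ℂ} (hu : Tendsto u F (𝓝 y)) (hv : Tendsto v F (𝓝 y))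
    (hc : Tendsto c F (𝓝 c₀)) (hne : ∀ᶠ x in F, u x ≠ v x) :
    Tendsto (fun x => (∏ i ∈ S, (u x - c x i) - ∏ i ∈ S, (v x - c x i)) / (u x - v x)) F
      (𝓝 ((derivative (∏ i ∈ S, (X - C (c₀ i)))).eval y)) := by
  set G : ℂ × (Fin 8 → ℂ) → ℂ := fun p => ∏ i ∈ S, (p.1 - p.2 i) with hG
  have hGd : ContDiff ℂ 1 G := by
    rw [hG]
    exact contDiff_prod fun i _ => contDiff_fst.sub ((contDiff_apply ℂ ℂ i).comp contDiff_snd)
  have hst := (hGd.contDiffAt (x := (y, c₀))).hasStrictFDerivAt one_ne_zero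
  set G' := fderiv ℂ G (y, c₀) with hG'
  have hval : G' (1, 0) = (derivative (∏ i ∈ S, (X - C (c₀ i)))).eval y := by
    have h1 : HasDerivAt (fun s : ℂ => G (s, c₀)) (G' (1, 0)) y := by
      have h2 : HasFDerivAt G G' ((fun s : ℂ => (s, c₀)) y) := hst.hasFDerivAt
      have h3 : HasDerivAt (fun s : ℂ => (s, c₀)) (1, 0) y :=
        (hasDerivAt_id y).prodMk (hasDerivAt_const y c₀)
      exact h2.comp_hasDerivAt y h3
    have h2 : HasDerivAt (fun s : ℂ => (∏ i ∈ S, (X - C (c₀ i))).eval s)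
        ((derivative (∏ i ∈ S, (X - C (c₀ i)))).eval y) y := Polynomial.hasDerivAt _ _
    have h3 : (fun s : ℂ => G (s, c₀)) = fun s : ℂ => (∏ i ∈ S, (X - C (c₀ i))).eval s := by
      funext s
      simp [hG, eval_prod]
    rw [h3] at h1
    exact h1.unique h2
  rw [← hval]
  have ht : Tendsto (fun x => ((u x, c x), (v x, c x))) F (𝓝 ((y, c₀), (y, c₀))) :=
    (hu.prodMk_nhds hc).prodMk_nhds (hv.prodMk_nhds hc)
  have ho := hst.isLittleO.comp_tendsto ht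
  rw [Asymptotics.isLittleO_iff] at ho
  rw [tendsto_iff_norm_sub_tendsto_zero, Metric.tendsto_nhds]
  intro ε hε
  filter_upwards [ho (half_pos hε), hne] with x hx hx'
  rw [dist_zero_right, norm_norm]
  have hd : u x - v x ≠ 0 := sub_ne_zero.mpr hx'
  have h1 : (u x, c x) - (v x, c x) = (u x - v x) • ((1 : ℂ), (0 : Fin 8 → ℂ)) := by
    ext <;> simp
  simp only [Function.comp_apply] at hx
  rw [h1, map_smul] at hx
  have h2 : (G (u x, c x) - G (v x, c x)) / (u x - v x) - G' (1, 0) =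
      (G (u x, c x) - G (v x, c x) - (u x - v x) • G' (1, 0)) / (u x - v x) := by
    rw [smul_eq_mul]
    field_simp
  have h3 : (∏ i ∈ S, (u x - c x i) - ∏ i ∈ S, (v x - c x i)) / (u x - v x) =
      (G (u x, c x) - G (v x, c x)) / (u x - v x) := rfl
  rw [h3, h2, norm_div, div_lt_iff₀ (norm_pos_iff.mpr hd)]
  refine lt_of_le_of_lt hx ?_
  have h4 : ‖(u x - v x) • ((1 : ℂ), (0 : Fin 8 → ℂ))‖ = ‖u x - v x‖ := by
    rw [norm_smul]
    simp [Prod.norm_def]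
  rw [h4]
  have := norm_pos_iff.mpr hd
  nlinarith

namespace Ctx

variable {n : Type} [Fintype n] [DecidableEq n] (X : Ctx n)

/-- the local data at a branch point, in the coordinate `t = tvar c r w` -/
structure LocData (r : ℂ) (a b : Fin 8) (ε : ℂ) (Y H : ℂ → ℂ) (y0 s0 : Fin 8 → ℂ) : Prop where
  hab : a ≠ b
  hε : ε = 1 ∨ ε = -1
  hY : DifferentiableAt ℂ Y 0
  hH : DifferentiableAt ℂ H 0
  hH0 : H 0 ≠ 0
  ya : ∀ᶠ w in 𝓝[X.D] r, X.y a w = Y (tvar X.c r w)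
  yb : ∀ᶠ w in 𝓝[X.D] r, X.y b w = Y (-tvar X.c r w)
  sa : ∀ᶠ w in 𝓝[X.D] r, X.s a w = rt (tvar X.c r w) * H (tvar X.c r w)
  sb : ∀ᶠ w in 𝓝[X.D] r, X.s b w = ε * I * rt (tvar X.c r w) * H (-tvar X.c r w)
  y_other : ∀ i, i ≠ a → i ≠ b → Tendsto (X.y i) (𝓝[X.D] r) (𝓝 (y0 i))
  s_other : ∀ i, i ≠ a → i ≠ b → Tendsto (X.s i) (𝓝[X.D] r) (𝓝 (s0 i))
  s0_ne : ∀ i, i ≠ a → i ≠ b → s0 i ≠ 0
  y0a : y0 a = Y 0
  y0b : y0 b = Y 0
  y0_inj : ∀ i j, y0 i = y0 j → i = j ∨ (i = a ∧ j = b) ∨ (i = b ∧ j = a)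

variable {X}

/-- the two colliding labels may be exchanged -/
theorem LocData.swap {r : ℂ} {a b : Fin 8} {ε : ℂ} {Y H : ℂ → ℂ} {y0 s0 : Fin 8 → ℂ}
    (h : X.LocData r a b ε Y H y0 s0) :
    X.LocData r b a (-ε) (fun t => Y (-t)) (fun t => ε * I * H (-t)) y0 s0 := by
  have hneg : DifferentiableAt ℂ (fun t : ℂ => -t) 0 := differentiableAt_id.neg
  have hε2 : ε * ε = 1 := by rcases h.hε with h1 | h1 <;> rw [h1] <;> norm_num
  have hε0 : ε ≠ 0 := by rcases h.hε with h1 | h1 <;> rw [h1] <;> norm_num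
  refine ⟨h.hab.symm, ?_, ?_, ?_, ?_, ?_, ?_, ?_, ?_, fun i h1 h2 => h.y_other i h2 h1,
    fun i h1 h2 => h.s_other i h2 h1, fun i h1 h2 => h.s0_ne i h2 h1, ?_, ?_, ?_⟩
  · rcases h.hε with h1 | h1 <;> rw [h1] <;> simp
  · exact DifferentiableAt.comp (g := Y) (f := fun t : ℂ => -t) 0 (by simpa using h.hY) hneg
  · refine DifferentiableAt.const_mul ?_ _
    exact DifferentiableAt.comp (g := H) (f := fun t : ℂ => -t) 0 (by simpa using h.hH) hneg
  · simpa [hε0] using h.hH0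
  · filter_upwards [h.yb] with w hw
    rw [hw]
  · filter_upwards [h.ya] with w hw
    rw [hw, neg_neg]
  · filter_upwards [h.sb] with w hw
    rw [hw]
    ring
  · filter_upwards [h.sa] with w hw
    rw [hw, neg_neg]
    linear_combination (-(rt (tvar X.c r w) * H (tvar X.c r w))) * hε2 +
      (ε * ε * rt (tvar X.c r w) * H (tvar X.c r w)) * I_mul_I
  · simpa using h.y0b
  · simpa using h.y0a
  · intro i j hij
    rcases h.y0_inj i j hij with h1 | h1 | h1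
    · exact Or.inl h1
    · exact Or.inr (Or.inr h1)
    · exact Or.inr (Or.inl h1)

/-- the restriction is the product over the labels -/
theorem fam_eq_prod {w : ℂ} (hw : w ∈ X.D) :
    fam X.f w = ∏ i, (Polynomial.X - Polynomial.C (X.y i w)) := by
  have hdvd : (∏ i, (Polynomial.X - Polynomial.C (X.y i w))) ∣ fam X.f w := by
    refine Finset.prod_dvd_of_coprime (fun i _ j _ hij => ?_) fun i _ => ?_
    · exact Polynomial.pairwise_coprime_X_sub_C (X.y_inj w hw.1 hw.2) hij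
    · exact Polynomial.dvd_iff_isRoot.2 (X.y_root w hw.1 hw.2 i)
  have hmp : (∏ i, (Polynomial.X - Polynomial.C (X.y i w))).Monic :=
    Polynomial.monic_prod_of_monic _ _ fun i _ => Polynomial.monic_X_sub_C _
  refine Polynomial.eq_of_monic_of_dvd_of_natDegree_le hmp (Line.fam_monic X.nf w) hdvd ?_
  rw [Line.fam_natDegree X.nf, Polynomial.natDegree_prod_of_monic _ _ fun i _ =>
    Polynomial.monic_X_sub_C _]
  simp

theorem s_sq_prod {w : ℂ} (hw : w ∈ X.D) {a b : Fin 8} (hab : a ≠ b) :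
    X.s a w ^ 2 = (X.y a w - X.y b w) *
      ∏ i ∈ Finset.univ.filter (fun i => i ≠ a ∧ i ≠ b), (X.y a w - X.y i w) := by
  rw [X.s_sq w hw.1 hw.2, fam_eq_prod hw,
    ← Finset.mul_prod_erase Finset.univ _ (Finset.mem_univ a), derivative_mul]
  have h1 : (Finset.univ : Finset (Fin 8)).erase a =
      insert b (Finset.univ.filter (fun i => i ≠ a ∧ i ≠ b)) := by
    ext i
    simp only [Finset.mem_erase, Finset.mem_univ, and_true, Finset.mem_insert, Finset.mem_filter,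
      true_and]
    by_cases hi : i = b
    · subst hi
      simp [hab.symm]
    · simp [hi]
  simp only [derivative_sub, derivative_X, derivative_C, sub_zero, one_mul, eval_add, eval_mul,
    eval_sub, eval_X, eval_C, sub_self, zero_mul, add_zero, eval_prod]
  rw [h1, Finset.prod_insert (by simp)]

section

variable {r : ℂ} {a b : Fin 8} {ε : ℂ} {Y H : ℂ → ℂ} {y0 s0 : Fin 8 → ℂ}

theorem t_lim (X : Ctx n) {r : ℂ} (hr : r ∈ X.Z) :
    Tendsto (fun w => tvar X.c r w) (𝓝[X.D] r) (𝓝[≠] 0) := by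
  rw [tendsto_nhdsWithin_iff]
  refine ⟨(tendsto_tvar_self X.c r).mono_left nhdsWithin_le_nhds, ?_⟩
  filter_upwards [self_mem_nhdsWithin] with w hw
  exact tvar_ne_zero X.cZ hr hw.1

variable (h : X.LocData r a b ε Y H y0 s0)

include h

theorem LocData.eps_sq : ε * ε = 1 := by rcases h.hε with h1 | h1 <;> rw [h1] <;> norm_num

theorem LocData.y_lim (hr : r ∈ X.Z) (i : Fin 8) : Tendsto (X.y i) (𝓝[X.D] r) (𝓝 (y0 i)) := by
  have ht := t_lim X hr
  have ht0 : Tendsto (fun w => tvar X.c r w) (𝓝[X.D] r) (𝓝 0) := ht.mono_right nhdsWithin_le_nhds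
  by_cases ha : i = a
  · subst ha
    rw [h.y0a]
    exact (h.hY.continuousAt.tendsto.comp ht0).congr' (h.ya.mono fun w hw => hw.symm)
  · by_cases hb : i = b
    · subst hb
      rw [h.y0b]
      have h1 : Tendsto (fun w => -tvar X.c r w) (𝓝[X.D] r) (𝓝 0) := by simpa using ht0.neg
      exact (h.hY.continuousAt.tendsto.comp h1).congr' (h.yb.mono fun w hw => hw.symm)
    · exact h.y_other i ha hb

/-- the first relation: `H 0 ^ 2 = 2 Y' (0) F (Y 0)` -/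
theorem LocData.rel1 (hr : r ∈ X.Z) [(𝓝[X.D] r).NeBot] :
    H 0 ^ 2 = 2 * deriv Y 0 * (Frest y0 a b).eval (Y 0) := by
  have ht := t_lim X hr
  have ht0 : Tendsto (fun w => tvar X.c r w) (𝓝[X.D] r) (𝓝 0) := ht.mono_right nhdsWithin_le_nhds
  have h1 : Tendsto (fun w => H (tvar X.c r w) ^ 2) (𝓝[X.D] r) (𝓝 (H 0 ^ 2)) :=
    (h.hH.continuousAt.tendsto.comp ht0).pow 2
  have h2 : Tendsto (fun w => (Y (tvar X.c r w) - Y (-tvar X.c r w)) / tvar X.c r w *
      ∏ i ∈ Finset.univ.filter (fun i => i ≠ a ∧ i ≠ b), (X.y a w - X.y i w)) (𝓝[X.D] r)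
      (𝓝 (2 * deriv Y 0 * (Frest y0 a b).eval (Y 0))) := by
    refine ((tendsto_symm_quot h.hY.hasDerivAt).comp ht).mul ?_
    rw [Frest, eval_prod]
    simp only [eval_sub, eval_X, eval_C]
    rw [← h.y0a]
    exact tendsto_finsetProd _ fun i _ => (h.y_lim hr a).sub (h.y_lim hr i)
  refine tendsto_nhds_unique h1 (h2.congr' ?_)
  filter_upwards [h.ya, h.yb, h.sa, self_mem_nhdsWithin] with w ha hb hs hw
  have ht1 := tvar_ne_zero X.cZ hr hw.1
  have h3 := s_sq_prod hw h.hab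
  rw [hs, mul_pow, pow_two (rt _), rt_mul_rt] at h3
  rw [← ha, ← hb, div_mul_eq_mul_div, ← h3]
  field_simp

theorem LocData.s_sq_b (_hr : r ∈ X.Z) : ∀ᶠ w in 𝓝[X.D] r,
    tvar X.c r w * H (-tvar X.c r w) ^ 2 = (X.y a w - X.y b w) *
      ∏ i ∈ Finset.univ.filter (fun i => i ≠ a ∧ i ≠ b), (X.y b w - X.y i w) := by
  filter_upwards [h.sb, self_mem_nhdsWithin] with w hs hw
  have h3 := s_sq_prod hw h.hab.symm
  have h4 : Finset.univ.filter (fun i : Fin 8 => i ≠ b ∧ i ≠ a) =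
      Finset.univ.filter (fun i => i ≠ a ∧ i ≠ b) := by
    ext i
    simp only [Finset.mem_filter, Finset.mem_univ, true_and]
    exact and_comm
  rw [hs, h4] at h3
  have h5 := rt_mul_rt (tvar X.c r w)
  have h6 := h.eps_sq
  linear_combination (-1 : ℂ) * h3 + (ε * ε * (I * I) * H (-tvar X.c r w) ^ 2) * h5 +
    ((I * I) * tvar X.c r w * H (-tvar X.c r w) ^ 2) * h6 +
    (tvar X.c r w * H (-tvar X.c r w) ^ 2) * I_mul_I

/-- the second relation: `H 0 * H' (0) = Y' (0) ^ 2 * F' (Y 0)` -/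
theorem LocData.rel2 (hr : r ∈ X.Z) [(𝓝[X.D] r).NeBot] :
    H 0 * deriv H 0 = deriv Y 0 ^ 2 * (derivative (Frest y0 a b)).eval (Y 0) := by
  have ht := t_lim X hr
  have ht0 : Tendsto (fun w => tvar X.c r w) (𝓝[X.D] r) (𝓝 0) := ht.mono_right nhdsWithin_le_nhds
  have hHd : HasDerivAt (fun t => H t ^ 2) (2 * H 0 * deriv H 0) 0 := by
    have this : HasDerivAt (fun t => H t ^ 2) (((2 : ℕ) : ℂ) * H 0 ^ (2 - 1) * deriv H 0) 0 :=
      h.hH.hasDerivAt.pow 2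
    norm_num at this
    exact this
  have h1 : Tendsto (fun w => (H (tvar X.c r w) ^ 2 - H (-tvar X.c r w) ^ 2) / tvar X.c r w)
      (𝓝[X.D] r) (𝓝 (2 * (2 * H 0 * deriv H 0))) := (tendsto_symm_quot hHd).comp ht
  have hne : ∀ᶠ w in 𝓝[X.D] r, X.y a w ≠ X.y b w := by
    filter_upwards [self_mem_nhdsWithin] with w hw heq
    exact h.hab (X.y_inj w hw.1 hw.2 heq)
  have h2 := tendsto_divdiff (Finset.univ.filter (fun i => i ≠ a ∧ i ≠ b))
    (u := fun w => X.y a w) (v := fun w => X.y b w) (c := fun w i => X.y i w) (c₀ := y0)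
    (y := Y 0) (F := 𝓝[X.D] r) (by rw [← h.y0a]; exact h.y_lim hr a)
    (by rw [← h.y0b]; exact h.y_lim hr b) (tendsto_pi_nhds.2 fun i => h.y_lim hr i) hne
  have h3 : Tendsto (fun w => ((Y (tvar X.c r w) - Y (-tvar X.c r w)) / tvar X.c r w) ^ 2 *
      ((∏ i ∈ Finset.univ.filter (fun i => i ≠ a ∧ i ≠ b), (X.y a w - X.y i w) -
        ∏ i ∈ Finset.univ.filter (fun i => i ≠ a ∧ i ≠ b), (X.y b w - X.y i w)) /
          (X.y a w - X.y b w))) (𝓝[X.D] r)
      (𝓝 ((2 * deriv Y 0) ^ 2 * (derivative (Frest y0 a b)).eval (Y 0))) :=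
    (((tendsto_symm_quot h.hY.hasDerivAt).comp ht).pow 2).mul h2
  have h4 : 2 * (2 * H 0 * deriv H 0) =
      (2 * deriv Y 0) ^ 2 * (derivative (Frest y0 a b)).eval (Y 0) := by
    refine tendsto_nhds_unique h1 (h3.congr' ?_)
    filter_upwards [h.ya, h.yb, h.sa, h.s_sq_b hr, self_mem_nhdsWithin, hne] with w ha hb hs hsb hw hne
    have ht1 := tvar_ne_zero X.cZ hr hw.1
    have h5 := s_sq_prod hw h.hab
    rw [hs, mul_pow, pow_two (rt _), rt_mul_rt] at h5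
    have hd : X.y a w - X.y b w ≠ 0 := sub_ne_zero.mpr hne
    rw [← ha, ← hb]
    generalize (∏ i ∈ Finset.univ.filter (fun i => i ≠ a ∧ i ≠ b), (X.y a w - X.y i w)) = P1 at *
    generalize (∏ i ∈ Finset.univ.filter (fun i => i ≠ a ∧ i ≠ b), (X.y b w - X.y i w)) = P2 at *
    field_simp
    linear_combination (-1 : ℂ) * h5 + hsb
  linear_combination (1 / 4 : ℂ) * h4

theorem LocData.deriv_ne_zero (hr : r ∈ X.Z) [(𝓝[X.D] r).NeBot] : deriv Y 0 ≠ 0 := by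
  intro h0
  have := h.rel1 hr
  rw [h0] at this
  simp [h.hH0] at this

theorem LocData.F_ne_zero (hr : r ∈ X.Z) [(𝓝[X.D] r).NeBot] : (Frest y0 a b).eval (Y 0) ≠ 0 := by
  intro h0
  have := h.rel1 hr
  rw [h0] at this
  simp [h.hH0] at this

/-- the other rows of a pairing converge -/
theorem LocData.rows_other {A B : Fin 4 → Fin 8} {z : Fin 4 → ℂ} {p : Fin 4}
    (hA : A p ≠ a ∧ A p ≠ b) (hB : B p ≠ a ∧ B p ≠ b) (j : Fin 4) :
    Tendsto (fun w => X.rowsW A B z w p j) (𝓝[X.D] r)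
      (𝓝 (y0 (A p) ^ (j : ℕ) / s0 (A p) - I * z p * (y0 (B p) ^ (j : ℕ) / s0 (B p)))) := by
  unfold rowsW
  exact (((h.y_other _ hA.1 hA.2).pow _).div (h.s_other _ hA.1 hA.2) (h.s0_ne _ hA.1 hA.2)).sub
    ((((h.y_other _ hB.1 hB.2).pow _).div (h.s_other _ hB.1 hB.2) (h.s0_ne _ hB.1 hB.2)).const_mul _)

/-- the colliding row, type O -/
theorem LocData.row_O (hr : r ∈ X.Z) {A B : Fin 4 → Fin 8} {z : Fin 4 → ℂ} {p : Fin 4}
    (hA : A p = a) (hB : B p = b) (hz : z p = -ε) (j : Fin 4) :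
    Tendsto (fun w => rt (tvar X.c r w) * X.rowsW A B z w p j) (𝓝[X.D] r)
      (𝓝 (2 * Y 0 ^ (j : ℕ) / H 0)) := by
  have ht := t_lim X hr
  have ht0 : Tendsto (fun w => tvar X.c r w) (𝓝[X.D] r) (𝓝 0) := ht.mono_right nhdsWithin_le_nhds
  have htn : Tendsto (fun w => -tvar X.c r w) (𝓝[X.D] r) (𝓝 0) := by simpa using ht0.neg
  have h1 : Tendsto (fun w => Y (tvar X.c r w) ^ (j : ℕ) / H (tvar X.c r w) +
      Y (-tvar X.c r w) ^ (j : ℕ) / H (-tvar X.c r w)) (𝓝[X.D] r)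
      (𝓝 (Y 0 ^ (j : ℕ) / H 0 + Y 0 ^ (j : ℕ) / H 0)) :=
    (((h.hY.continuousAt.tendsto.comp ht0).pow _).div (h.hH.continuousAt.tendsto.comp ht0)
      h.hH0).add (((h.hY.continuousAt.tendsto.comp htn).pow _).div
      (h.hH.continuousAt.tendsto.comp htn) h.hH0)
  rw [show 2 * Y 0 ^ (j : ℕ) / H 0 = Y 0 ^ (j : ℕ) / H 0 + Y 0 ^ (j : ℕ) / H 0 by ring]
  refine h1.congr' ?_
  have hev1 : ∀ᶠ w in 𝓝[X.D] r, H (tvar X.c r w) ≠ 0 :=
    (h.hH.continuousAt.tendsto.comp ht0).eventually_ne h.hH0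
  have hev2 : ∀ᶠ w in 𝓝[X.D] r, H (-tvar X.c r w) ≠ 0 :=
    (h.hH.continuousAt.tendsto.comp htn).eventually_ne h.hH0
  filter_upwards [h.ya, h.yb, h.sa, h.sb, self_mem_nhdsWithin, hev1, hev2] with w ya yb sa sb hw
    hh1 hh2
  have ht1 := tvar_ne_zero X.cZ hr hw.1
  have hrt := rt_ne_zero ht1
  have hε0 : ε ≠ 0 := by rcases h.hε with h1 | h1 <;> rw [h1] <;> norm_num
  rw [rowsW, hA, hB, ya, yb, sa, sb, hz]
  have hI := I_ne_zero
  field_simp
  ring

/-- the colliding row, gap type -/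
theorem LocData.row_gap (hr : r ∈ X.Z) {A B : Fin 4 → Fin 8} {z : Fin 4 → ℂ} {p : Fin 4}
    (hA : A p = a) (hB : B p = b) (hz : z p = ε) (j : Fin 4) :
    Tendsto (fun w => (rt (tvar X.c r w))⁻¹ * X.rowsW A B z w p j) (𝓝[X.D] r)
      (𝓝 (2 * (((j : ℕ) * Y 0 ^ ((j : ℕ) - 1) * deriv Y 0 * H 0 - Y 0 ^ (j : ℕ) * deriv H 0) /
        H 0 ^ 2))) := by
  have ht := t_lim X hr
  have ht0 : Tendsto (fun w => tvar X.c r w) (𝓝[X.D] r) (𝓝 0) := ht.mono_right nhdsWithin_le_nhds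
  have htn : Tendsto (fun w => -tvar X.c r w) (𝓝[X.D] r) (𝓝 0) := by simpa using ht0.neg
  have hd : HasDerivAt (fun t => Y t ^ (j : ℕ) / H t)
      (((j : ℕ) * Y 0 ^ ((j : ℕ) - 1) * deriv Y 0 * H 0 - Y 0 ^ (j : ℕ) * deriv H 0) / H 0 ^ 2) 0 :=
    (h.hY.hasDerivAt.pow _).div h.hH.hasDerivAt h.hH0
  refine ((tendsto_symm_quot hd).comp ht).congr' ?_
  have hev1 : ∀ᶠ w in 𝓝[X.D] r, H (tvar X.c r w) ≠ 0 :=
    (h.hH.continuousAt.tendsto.comp ht0).eventually_ne h.hH0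
  have hev2 : ∀ᶠ w in 𝓝[X.D] r, H (-tvar X.c r w) ≠ 0 :=
    (h.hH.continuousAt.tendsto.comp htn).eventually_ne h.hH0
  filter_upwards [h.ya, h.yb, h.sa, h.sb, self_mem_nhdsWithin, hev1, hev2] with w ya yb sa sb hw
    hh1 hh2
  have ht1 := tvar_ne_zero X.cZ hr hw.1
  have hrt := rt_ne_zero ht1
  have hε0 : ε ≠ 0 := by rcases h.hε with h1 | h1 <;> rw [h1] <;> norm_num
  rw [rowsW, hA, hB, ya, yb, sa, sb, hz, Function.comp_apply]
  have hI := I_ne_zero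
  have h5 := rt_mul_rt (tvar X.c r w)
  generalize rt (tvar X.c r w) = R at *
  rw [← h5] at *
  field_simp

end

end Ctx

end Pool.Agent.Rohlin
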