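import Pool.Agent.Rohlin.EvRegion
import Pool.Agent.Rohlin.EvDefs

/-!
# The real picture near an event
-/

set_option autoImplicit false

namespace Pool.Agent.Rohlin

open Polynomial Complex Set Filter Topology

namespace EvClass

/-! ### derivatives of forms along curves -/

theorem hasDerivAt_eval (f : MvPolynomial (Fin 3) ℝ) {c : ℝ → Fin 3 → ℝ} {c' : Fin 3 → ℝ} {t : ℝ}
    (hc : ∀ i, HasDerivAt (fun s => c s i) (c' i) t) :
    HasDerivAt (fun s => MvPolynomial.eval (c s) f)
      (∑ i, MvPolynomial.eval (c t) (MvPolynomial.pderiv i f) * c' i) t := by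
  induction f using MvPolynomial.induction_on with
  | C r => simpa using hasDerivAt_const t r
  | add p q hp hq =>
    simp only [map_add, add_mul, Finset.sum_add_distrib]
    exact hp.add hq
  | mul_X p i hp =>
    have h := hp.mul (hc i)
    simp only [map_mul, MvPolynomial.eval_X]
    refine h.congr_deriv ?_
    have h2 : ∀ j : Fin 3, MvPolynomial.eval (c t) (MvPolynomial.pderiv j (p * MvPolynomial.X i)) *
        c' j = MvPolynomial.eval (c t) (MvPolynomial.pderiv j p) * c' j * c t i +
        (if j = i then MvPolynomial.eval (c t) p * c' j else 0) := by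
      intro j
      rw [Derivation.leibniz, MvPolynomial.pderiv_X, smul_eq_mul, smul_eq_mul, map_add, map_mul,
        map_mul, MvPolynomial.eval_X]
      by_cases hj : j = i
      · subst hj
        rw [Pi.single_eq_same, map_one, if_pos rfl]
        ring
      · rw [Pi.single_eq_of_ne (Ne.symm hj), map_zero, if_neg hj]
        ring
    rw [Finset.sum_congr rfl fun j _ => h2 j, Finset.sum_add_distrib, Finset.sum_ite_eq' Finset.univ,
      if_pos (Finset.mem_univ _), Finset.sum_mul]

/-- the derivative with respect to the angle -/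
noncomputable def grt (f : MvPolynomial (Fin 3) ℝ) (θ η : ℝ) : ℝ :=
  MvPolynomial.eval ![Real.cos θ, Real.sin θ, η] (MvPolynomial.pderiv 0 f) * (-Real.sin θ) +
    MvPolynomial.eval ![Real.cos θ, Real.sin θ, η] (MvPolynomial.pderiv 1 f) * Real.cos θ

theorem hasDerivAt_gr_angle (f : MvPolynomial (Fin 3) ℝ) (θ η : ℝ) :
    HasDerivAt (fun t => (gr f t).eval η) (grt f θ η) θ := by
  have h := hasDerivAt_eval f (c := fun t => ![Real.cos t, Real.sin t, η])
    (c' := ![-Real.sin θ, Real.cos θ, 0]) (t := θ) (by
      intro i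
      fin_cases i
      · exact Real.hasDerivAt_cos θ
      · exact Real.hasDerivAt_sin θ
      · exact hasDerivAt_const θ η)
  have he : (fun t => (gr f t).eval η) =
      fun t => MvPolynomial.eval ![Real.cos t, Real.sin t, η] f := by
    funext t
    exact gr_eval f t η
  rw [he]
  refine h.congr_deriv ?_
  rw [Fin.sum_univ_three]
  unfold grt
  simp

theorem derivative_gr_eval (f : MvPolynomial (Fin 3) ℝ) (θ η : ℝ) :
    (derivative (gr f θ)).eval η =
      MvPolynomial.eval ![Real.cos θ, Real.sin θ, η] (MvPolynomial.pderiv 2 f) := by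
  have h := hasDerivAt_eval f (c := fun t => ![Real.cos θ, Real.sin θ, t])
    (c' := ![0, 0, 1]) (t := η) (by
      intro i
      fin_cases i
      · exact hasDerivAt_const η _
      · exact hasDerivAt_const η _
      · exact hasDerivAt_id η)
  have he : (fun t => (gr f θ).eval t) =
      fun t => MvPolynomial.eval ![Real.cos θ, Real.sin θ, t] f := by
    funext t
    exact gr_eval f θ t
  rw [← he] at h
  have h2 := (gr f θ).hasDerivAt η
  rw [h2.unique h, Fin.sum_univ_three]
  simp

theorem continuous_vec : Continuous (fun p : ℝ × ℝ => ![Real.cos p.1, Real.sin p.1, p.2]) := by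
  refine continuous_pi fun i => ?_
  fin_cases i
  · exact Real.continuous_cos.comp continuous_fst
  · exact Real.continuous_sin.comp continuous_fst
  · exact continuous_snd

theorem continuous_grt (f : MvPolynomial (Fin 3) ℝ) :
    Continuous (fun p : ℝ × ℝ => grt f p.1 p.2) := by
  unfold grt
  have h : ∀ g : MvPolynomial (Fin 3) ℝ, Continuous
      (fun p : ℝ × ℝ => MvPolynomial.eval ![Real.cos p.1, Real.sin p.1, p.2] g) := fun g =>
    g.continuous_eval.comp continuous_vec
  exact ((h _).mul (Real.continuous_sin.comp continuous_fst).neg).add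
    ((h _).mul (Real.continuous_cos.comp continuous_fst))

/-- the curve is not vertical and nonsingular at a double root: the derivative with respect to the
angle does not vanish -/
theorem grt_ne_zero {f : MvPolynomial (Fin 3) ℝ} (nf : Normal f) {θ η : ℝ}
    (h0 : (gr f θ).eval η = 0) (h1 : (derivative (gr f θ)).eval η = 0) : grt f θ η ≠ 0 := by
  intro ht
  set v : Fin 3 → ℝ := ![Real.cos θ, Real.sin θ, η] with hv
  have hf : MvPolynomial.eval v f = 0 := by rw [← gr_eval]; exact h0
  have h2 : MvPolynomial.eval v (MvPolynomial.pderiv 2 f) = 0 := by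
    rw [← derivative_gr_eval]; exact h1
  have heul : ∑ i, v i * MvPolynomial.eval v (MvPolynomial.pderiv i f) = 0 := by
    have h := congrArg (MvPolynomial.eval v) nf.hom.sum_X_mul_pderiv
    rw [map_sum] at h
    simp only [map_mul, MvPolynomial.eval_X, map_nsmul, hf, smul_zero] at h
    exact h
  rw [Fin.sum_univ_three, h2, mul_zero, add_zero] at heul
  have e0 : v 0 = Real.cos θ := rfl
  have e1 : v 1 = Real.sin θ := rfl
  rw [e0, e1] at heul
  unfold grt at ht
  rw [← hv] at ht
  have hcs := Real.sin_sq_add_cos_sq θ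
  have hp0 : MvPolynomial.eval v (MvPolynomial.pderiv 0 f) = 0 := by
    linear_combination (-(MvPolynomial.eval v (MvPolynomial.pderiv 0 f))) * hcs +
      Real.cos θ * heul - Real.sin θ * ht
  have hp1 : MvPolynomial.eval v (MvPolynomial.pderiv 1 f) = 0 := by
    linear_combination (-(MvPolynomial.eval v (MvPolynomial.pderiv 1 f))) * hcs +
      Real.sin θ * heul + Real.cos θ * ht
  have hcast : ∀ g : MvPolynomial (Fin 3) ℝ, MvPolynomial.aeval (fun i => (v i : ℂ)) g =
      ((MvPolynomial.eval v g : ℝ) : ℂ) := by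
    intro g
    induction g using MvPolynomial.induction_on with
    | C r => simp
    | add p q hp hq => simp [hp, hq]
    | mul_X p i hp => simp [hp]
  have hne : (fun i => (v i : ℂ)) ≠ 0 := by
    intro h
    have h3 : v = 0 := by
      funext i
      have := congrFun h i
      simpa using this
    exact vec_ne θ η h3
  obtain ⟨i, hi⟩ := nf.nonsing _ hne (by rw [hcast, hf, Complex.ofReal_zero])
  apply hi
  rw [hcast]
  fin_cases i
  · show ((MvPolynomial.eval v (MvPolynomial.pderiv 0 f) : ℝ) : ℂ) = 0
    rw [hp0, Complex.ofReal_zero]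
  · show ((MvPolynomial.eval v (MvPolynomial.pderiv 1 f) : ℝ) : ℂ) = 0
    rw [hp1, Complex.ofReal_zero]
  · show ((MvPolynomial.eval v (MvPolynomial.pderiv 2 f) : ℝ) : ℂ) = 0
    rw [h2, Complex.ofReal_zero]

/-! ### a double root -/

/-- near a double root the polynomial has a weak sign -/
theorem double_root_sign (p : ℝ[X]) {η : ℝ} (h0 : p.eval η = 0) (h1 : (derivative p).eval η = 0)
    {s : ℝ} (hs : 0 < s * (derivative (derivative p)).eval η) :
    ∀ᶠ x in 𝓝 η, 0 ≤ s * p.eval x ∧ (x ≠ η → 0 < s * p.eval x) := by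
  obtain ⟨q, hq⟩ := dvd_iff_isRoot.2 (show p.IsRoot η from h0)
  have hq0 : q.eval η = 0 := by
    rw [hq, derivative_mul] at h1
    simpa using h1
  obtain ⟨r, hr⟩ := dvd_iff_isRoot.2 (show q.IsRoot η from hq0)
  have hp : p = (X - C η) * (X - C η) * r := by rw [hq, hr]; ring
  have h2 : (derivative (derivative p)).eval η = 2 * r.eval η := by
    rw [hp]
    simp only [derivative_mul, derivative_sub, derivative_X, derivative_C, sub_zero, eval_add,
      eval_mul, eval_sub, eval_X, eval_C, eval_one, one_mul, mul_one, derivative_add, sub_self,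
      zero_mul, mul_zero, add_zero]
    ring
  have h3 : 0 < s * r.eval η := by
    rw [h2] at hs
    nlinarith
  have h4 : ∀ᶠ x in 𝓝 η, 0 < s * r.eval x := by
    have hc : ContinuousAt (fun x => s * r.eval x) η :=
      (continuous_const.mul r.continuous).continuousAt
    exact hc.eventually (lt_mem_nhds h3)
  filter_upwards [h4] with x hx
  have e : s * p.eval x = (x - η) ^ 2 * (s * r.eval x) := by
    rw [hp]
    simp only [eval_mul, eval_sub, eval_X, eval_C]
    ring
  rw [e]
  refine ⟨by positivity, fun hne => ?_⟩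
  have : x - η ≠ 0 := sub_ne_zero.2 hne
  positivity

/-- the two sides of an event: `s` is the sign of the second derivative, `sg` the side on which
there are two real roots -/
theorem exists_box {f : MvPolynomial (Fin 3) ℝ} (nf : Normal f) {θ η : ℝ}
    (h0 : (gr f θ).eval η = 0) (h1 : (derivative (gr f θ)).eval η = 0) {s : ℝ}
    (hs : 0 < s * (derivative (derivative (gr f θ))).eval η) :
    ∃ sg : ℝ, (sg = 1 ∨ sg = -1) ∧ ∃ δ : ℝ, 0 < δ ∧
      (∀ t x, |t - θ| < δ → |x - η| < δ → sg * (t - θ) < 0 → 0 < s * (gr f t).eval x) ∧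
      (∀ t, |t - θ| < δ → 0 < sg * (t - θ) → s * (gr f t).eval η < 0) ∧
      ∀ x, |x - η| < δ → x ≠ η → 0 < s * (gr f θ).eval x := by
  have hα := grt_ne_zero nf h0 h1
  set α := grt f θ η with hαdef
  have hs0 : s ≠ 0 := by
    rintro rfl
    simp at hs
  -- a box on which the derivative has the sign of `α`
  have hbox : ∀ᶠ p : ℝ × ℝ in 𝓝 (θ, η), 0 < α * grt f p.1 p.2 := by
    have hc : ContinuousAt (fun p : ℝ × ℝ => α * grt f p.1 p.2) (θ, η) :=
      (continuous_const.mul (continuous_grt f)).continuousAt
    refine hc.eventually (lt_mem_nhds ?_)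
    exact mul_self_pos.2 hα
  obtain ⟨δ1, hδ1, hb1⟩ := Metric.eventually_nhds_iff.1 hbox
  obtain ⟨δ2, hδ2, hb2⟩ := Metric.eventually_nhds_iff.1 (double_root_sign _ h0 h1 hs)
  set δ := min δ1 δ2 with hδ
  have hδ0 : 0 < δ := lt_min hδ1 hδ2
  -- monotonicity in the angle
  have hmono : ∀ x, |x - η| < δ → StrictMonoOn (fun t => α * (gr f t).eval x)
      (Ioo (θ - δ) (θ + δ)) := by
    intro x hx
    have hd : ∀ t, HasDerivAt (fun t => α * (gr f t).eval x) (α * grt f t x) t := fun t =>
      (hasDerivAt_gr_angle f t x).const_mul α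
    refine strictMonoOn_of_deriv_pos (convex_Ioo _ _)
      (fun t _ => (hd t).continuousAt.continuousWithinAt) fun t ht => ?_
    rw [interior_Ioo] at ht
    rw [(hd t).deriv]
    refine hb1 (y := (t, x)) ?_
    rw [Prod.dist_eq, max_lt_iff, Real.dist_eq, Real.dist_eq]
    constructor
    · exact lt_of_lt_of_le (abs_lt.2 ⟨by linarith [ht.1], by linarith [ht.2]⟩) (min_le_left _ _)
    · exact lt_of_lt_of_le hx (min_le_left _ _)
  have hcmp : ∀ t x, |t - θ| < δ → |x - η| < δ → (θ < t → α * (gr f θ).eval x < α * (gr f t).eval x)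
      ∧ (t < θ → α * (gr f t).eval x < α * (gr f θ).eval x) := by
    intro t x ht hx
    have ht' := abs_lt.1 ht
    have m1 : t ∈ Ioo (θ - δ) (θ + δ) := ⟨by linarith [ht'.1], by linarith [ht'.2]⟩
    have m2 : θ ∈ Ioo (θ - δ) (θ + δ) := ⟨by linarith, by linarith⟩
    exact ⟨fun h => hmono x hx m2 m1 h, fun h => hmono x hx m1 m2 h⟩
  have hweak : ∀ x, |x - η| < δ → 0 ≤ s * (gr f θ).eval x ∧ (x ≠ η → 0 < s * (gr f θ).eval x) :=
    fun x hx => hb2 (by rw [Real.dist_eq]; exact lt_of_lt_of_le hx (min_le_right _ _))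
  have hη : |η - η| < δ := by rw [sub_self, abs_zero]; exact hδ0
  -- the sign of `s α`
  have hsq : 0 < α ^ 2 := by positivity
  rcases lt_or_gt_of_ne (mul_ne_zero hs0 hα) with hsa | hsa
  · -- `s α < 0`: real roots for `t > θ`
    refine ⟨1, Or.inl rfl, δ, hδ0, fun t x ht hx hlt => ?_, fun t ht hlt => ?_,
      fun x hx => (hweak x hx).2⟩
    · have h5 := (hcmp t x ht hx).2 (by linarith)
      have h6 := (hweak x hx).1
      have h7 : s * (gr f t).eval x * α ^ 2 = (s * α) * (α * (gr f t).eval x) := by ring
      have h8 : s * (gr f θ).eval x * α ^ 2 = (s * α) * (α * (gr f θ).eval x) := by ring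
      have h9 : 0 < s * (gr f t).eval x * α ^ 2 := by
        rw [h7]
        have : (s * α) * (α * (gr f θ).eval x) < (s * α) * (α * (gr f t).eval x) :=
          mul_lt_mul_of_neg_left h5 hsa
        have h10 : 0 ≤ s * (gr f θ).eval x * α ^ 2 := by positivity
        linarith
      exact pos_of_mul_pos_left h9 hsq.le
    · have h5 := (hcmp t η ht hη).1 (by linarith)
      rw [h0, mul_zero] at h5
      have h7 : s * (gr f t).eval η * α ^ 2 = (s * α) * (α * (gr f t).eval η) := by ring
      have h9 : s * (gr f t).eval η * α ^ 2 < 0 := by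
        rw [h7]
        exact mul_neg_of_neg_of_pos hsa h5
      exact neg_of_mul_neg_left h9 hsq.le
  · refine ⟨-1, Or.inr rfl, δ, hδ0, fun t x ht hx hlt => ?_, fun t ht hlt => ?_,
      fun x hx => (hweak x hx).2⟩
    · have h5 := (hcmp t x ht hx).1 (by linarith)
      have h6 := (hweak x hx).1
      have h7 : s * (gr f t).eval x * α ^ 2 = (s * α) * (α * (gr f t).eval x) := by ring
      have h8 : s * (gr f θ).eval x * α ^ 2 = (s * α) * (α * (gr f θ).eval x) := by ring
      have h9 : 0 < s * (gr f t).eval x * α ^ 2 := by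
        rw [h7]
        have : (s * α) * (α * (gr f θ).eval x) < (s * α) * (α * (gr f t).eval x) :=
          mul_lt_mul_of_pos_left h5 hsa
        have h10 : 0 ≤ s * (gr f θ).eval x * α ^ 2 := by positivity
        linarith
      exact pos_of_mul_pos_left h9 hsq.le
    · have h5 := (hcmp t η ht hη).2 (by linarith)
      rw [h0, mul_zero] at h5
      have h7 : s * (gr f t).eval η * α ^ 2 = (s * α) * (α * (gr f t).eval η) := by ring
      have h9 : s * (gr f t).eval η * α ^ 2 < 0 := by
        rw [h7]
        exact mul_neg_of_pos_of_neg hsa h5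
      exact neg_of_mul_neg_left h9 hsq.le

end EvClass

end Pool.Agent.Rohlin
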