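import Pool.Agent.Rohlin.EvConc
import Pool.Agent.Rohlin.EvDet

/-!
# Events: the two analytic statements
-/

set_option autoImplicit false

namespace Pool.Agent.Rohlin

open Polynomial Complex Set Matrix Filter Topology Metric
open scoped ComplexOrder

theorem Frest_swap (e : Fin 8 → ℂ) (a b : Fin 8) : Frest e b a = Frest e a b := by
  unfold Frest
  congr 1
  ext i
  simp only [Finset.mem_filter, Finset.mem_univ, true_and]
  exact and_comm

section Flip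

variable {n : Type} [Fintype n] [DecidableEq n]

theorem inj_flip {A B : Fin 4 → Fin 8} (h : Function.Injective (Sum.elim A B)) (p₀ : Fin 4) :
    Function.Injective (Sum.elim (Function.update A p₀ (B p₀)) (Function.update B p₀ (A p₀))) := by
  obtain ⟨n1, n2, n3⟩ := ne_of_inj A B h
  have hA : ∀ p q, Function.update A p₀ (B p₀) p = Function.update A p₀ (B p₀) q → p = q := by
    intro p q hpq
    by_contra hne
    by_cases h1 : p = p₀
    · subst h1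
      rw [Function.update_self, Function.update_of_ne (Ne.symm hne)] at hpq
      exact n1 q p hpq.symm
    · by_cases h2 : q = p₀
      · subst h2
        rw [Function.update_self, Function.update_of_ne hne] at hpq
        exact n1 p q hpq
      · rw [Function.update_of_ne h1, Function.update_of_ne h2] at hpq
        exact n2 p q hne hpq
  have hB : ∀ p q, Function.update B p₀ (A p₀) p = Function.update B p₀ (A p₀) q → p = q := by
    intro p q hpq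
    by_contra hne
    by_cases h1 : p = p₀
    · subst h1
      rw [Function.update_self, Function.update_of_ne (Ne.symm hne)] at hpq
      exact n1 p q hpq
    · by_cases h2 : q = p₀
      · subst h2
        rw [Function.update_self, Function.update_of_ne hne] at hpq
        exact n1 q p hpq.symm
      · rw [Function.update_of_ne h1, Function.update_of_ne h2] at hpq
        exact n3 p q hne hpq
  have hAB : ∀ p q, Function.update A p₀ (B p₀) p ≠ Function.update B p₀ (A p₀) q := by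
    intro p q hpq
    by_cases h1 : p = p₀
    · by_cases h2 : q = p₀
      · subst h1; subst h2
        rw [Function.update_self, Function.update_self] at hpq
        exact n1 _ _ hpq.symm
      · subst h1
        rw [Function.update_self, Function.update_of_ne h2] at hpq
        exact n3 p q (Ne.symm h2) hpq
    · by_cases h2 : q = p₀
      · subst h2
        rw [Function.update_self, Function.update_of_ne h1] at hpq
        exact n2 p q h1 hpq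
      · rw [Function.update_of_ne h1, Function.update_of_ne h2] at hpq
        exact n1 p q hpq
  rintro (p | p) (q | q) hpq
  · rw [hA p q hpq]
  · exact absurd hpq (hAB p q)
  · exact absurd hpq.symm (hAB q p)
  · rw [hB p q hpq]

end Flip

theorem eq_norm_mul_ph (z : ℂ) : z = (‖z‖ : ℂ) * ph z := by
  unfold ph
  rcases eq_or_ne z 0 with h | h
  · simp [h]
  · have : (‖z‖ : ℂ) ≠ 0 := by exact_mod_cast (norm_pos_iff.mpr h).ne'
    field_simp

namespace Ctx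

variable {n : Type} [Fintype n] [DecidableEq n] {X : Ctx n}

theorem proj_flip {A B : Fin 4 → Fin 8} (h : Function.Injective (Sum.elim A B)) (z : Fin 4 → ℂ)
    (p₀ : Fin 4) : X.proj (Function.update A p₀ (B p₀)) (Function.update B p₀ (A p₀))
      (Function.update z p₀ (-z p₀)) = X.proj A B z := by
  obtain ⟨n1, -, -⟩ := ne_of_inj A B h
  unfold proj
  congr 2
  funext p
  by_cases hp : p = p₀
  · subst hp
    rw [Function.update_self, Function.update_self, Function.update_self]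
    exact Pool.Agent.Rohlin.pairFac_swap X.M (n1 p p) (z p)
  · rw [Function.update_of_ne hp, Function.update_of_ne hp, Function.update_of_ne hp]

/-- the oriented matching on the complex side -/
structure Orient (X : Ctx n) (θs η₀ : ℝ) (a b : Fin 8) (ε : ℂ) (y0 s0 : Fin 8 → ℂ)
    (A B : Fin 4 → Fin 8) (z : Fin 4 → ℂ) (p₀ : Fin 4) : Prop where
  hA : A p₀ = a
  hB : B p₀ = b
  inj : Function.Injective (Sum.elim A B)
  z1 : ∀ p, z p = 1 ∨ z p = -1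
  z0 : z p₀ = -ε * (X.esg θs η₀ : ℂ)
  lim : ∀ p, Tendsto (fun θ => ph (X.Om θ (A p) (B p))) (𝓝[≠] θs) (𝓝 (I * z p))
  O : X.esg θs η₀ = 1 → (matEv (eLim θs y0) (sLim θs s0) A B z p₀ (rowO η₀)).det ≠ 0
  G : X.esg θs η₀ = -1 →
    (matEv (eLim θs y0) (sLim θs s0) A B z p₀ (rowG (eLim θs y0) a b η₀)).det ≠ 0

section

variable {θs : ℝ} {a b : Fin 8} {ε : ℂ} {Y H : ℂ → ℂ} {y0 s0 : Fin 8 → ℂ}
  (h : X.LocData (circ θs) a b ε Y H y0 s0) (hZ : circ θs ∈ X.Z) {η₀ : ℝ} (hd : X.Dbl θs η₀)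

include h hZ hd

theorem LocData.orient {s : Set ℝ} (hs : s = Iio θs ∨ s = Ioi θs) {A B : Fin 4 → Fin 8}
    {kind : Fin 4 → Fin 3} {z : Fin 4 → ℂ} {p₀ : Fin 4} (hk : kind p₀ = 2)
    (hAB : (A p₀ = a ∧ B p₀ = b) ∨ (A p₀ = b ∧ B p₀ = a))
    (hp : ∀ᶠ θ in 𝓝[s] θs, X.Pairing θ A B kind z) :
    ∃ z₁ : Fin 4 → ℂ, X.Orient θs η₀ a b ε y0 s0 (Function.update A p₀ a)
        (Function.update B p₀ b) z₁ p₀ ∧
      (∀ p, p ≠ p₀ → z₁ p = z p) ∧
      X.proj (Function.update A p₀ a) (Function.update B p₀ b) z₁ = X.proj A B z := by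
  obtain ⟨hs1, hs2⟩ := EvLim.side_le (ts := θs) hs
  have hev := h.evLim hZ hd
  obtain ⟨θ₁, hθ₁⟩ := hp.exists
  have hinj := hθ₁.inj
  obtain ⟨n1, n2, n3⟩ := ne_of_inj A B hinj
  -- the limits of the phases
  have hlim : ∀ (A₁ B₁ : Fin 4 → Fin 8) (z₁ : Fin 4 → ℂ), (∀ p, A₁ p ≠ B₁ p) →
      (∀ p, p ≠ p₀ → A₁ p = A p ∧ B₁ p = B p) → A₁ p₀ = a → B₁ p₀ = b →
      (∀ᶠ θ in 𝓝[s] θs, ∀ p, ph (X.Om θ (A₁ p) (B₁ p)) = I * z₁ p) →
      ∀ p, Tendsto (fun θ => ph (X.Om θ (A₁ p) (B₁ p))) (𝓝[≠] θs) (𝓝 (I * z₁ p)) := by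
    intro A₁ B₁ z₁ h0 h1 h2 h3 h4 p
    obtain ⟨L, hL, hL'⟩ := h.Om_lim' hZ hd (h0 p) (by
      by_cases hpp : p = p₀
      · subst hpp
        exact Or.inr (Or.inl ⟨h2, h3⟩)
      · left
        obtain ⟨e1, e2⟩ := h1 p hpp
        rw [e1, e2]
        obtain ⟨f1, f2⟩ := EvLim.A_ne hinj hAB hpp
        obtain ⟨f3, f4⟩ := EvLim.B_ne hinj hAB hpp
        exact ⟨f1, f2, f3, f4⟩)
    have h5 := tendsto_ph hL hL'
    have h6 : Tendsto (fun θ => ph (X.Om θ (A₁ p) (B₁ p))) (𝓝[s] θs) (𝓝 (I * z₁ p)) := by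
      refine tendsto_const_nhds.congr' ?_
      filter_upwards [h4] with θ hθ
      exact (hθ p).symm
    rw [tendsto_nhds_unique h6 (h5.mono_left hs1)]
    exact h5
  -- the determinants
  have hO : ∀ (A₁ B₁ : Fin 4 → Fin 8) (z₁ : Fin 4 → ℂ),
      (∀ p, p ≠ p₀ → A₁ p = A p ∧ B₁ p = B p ∧ z₁ p = z p) → X.esg θs η₀ = 1 →
      (matEv (eLim θs y0) (sLim θs s0) A₁ B₁ z₁ p₀ (rowO η₀)).det ≠ 0 := by
    intro A₁ B₁ z₁ h1 he
    rw [h.esg_re hZ hd] at he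
    have hpos : 0 < ((Frest (eLim θs y0) a b).eval (η₀ : ℂ)).re := by
      by_contra hcon
      rcases (not_lt.mp hcon).lt_or_eq with h2 | h2
      · rw [sign_neg h2] at he
        exact absurd he (by decide)
      · rw [h2, sign_zero] at he
        exact absurd he (by decide)
    refine EvLim.det_O hev hs hp hk hAB hpos _ (fun p hpp j => ?_) fun j => ?_
    · obtain ⟨e1, e2, e3⟩ := h1 p hpp
      rw [matEv, Matrix.of_apply, if_neg hpp, e1, e2, e3]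
    · rw [matEv, Matrix.of_apply, if_pos rfl, rowO]
  have hG : ∀ (A₁ B₁ : Fin 4 → Fin 8) (z₁ : Fin 4 → ℂ),
      (∀ p, p ≠ p₀ → A₁ p = A p ∧ B₁ p = B p ∧ z₁ p = z p) → X.esg θs η₀ = -1 →
      (matEv (eLim θs y0) (sLim θs s0) A₁ B₁ z₁ p₀ (rowG (eLim θs y0) a b η₀)).det ≠ 0 := by
    intro A₁ B₁ z₁ h1 he
    rw [h.esg_re hZ hd] at he
    have hneg : ((Frest (eLim θs y0) a b).eval (η₀ : ℂ)).re < 0 := by
      by_contra hcon
      rcases (not_lt.mp hcon).lt_or_eq with h2 | h2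
      · rw [sign_pos h2] at he
        exact absurd he (by decide)
      · rw [← h2, sign_zero] at he
        exact absurd he (by decide)
    refine EvLim.det_gap hev hs hp hk hAB hneg _ (fun p hpp j => ?_) fun j => ?_
    · obtain ⟨e1, e2, e3⟩ := h1 p hpp
      rw [matEv, Matrix.of_apply, if_neg hpp, e1, e2, e3]
    · rw [matEv, Matrix.of_apply, if_pos rfl, rowG]
  rcases hAB with ⟨hA, hB⟩ | ⟨hA, hB⟩
  · have e1 : Function.update A p₀ a = A := by rw [← hA, Function.update_eq_self]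
    have e2 : Function.update B p₀ b = B := by rw [← hB, Function.update_eq_self]
    rw [e1, e2]
    refine ⟨z, ⟨hA, hB, hinj, hθ₁.zeta_sq, h.z_eq hZ hd hs2 hs1 hp hA hB, ?_,
      hO A B z fun p _ => ⟨rfl, rfl, rfl⟩, hG A B z fun p _ => ⟨rfl, rfl, rfl⟩⟩,
      fun p _ => rfl, rfl⟩
    exact hlim A B z (fun p => n1 p p) (fun p _ => ⟨rfl, rfl⟩) hA hB (by
      filter_upwards [hp] with θ hθ p
      exact (hθ.I_zeta p).symm)
  · have e1 : Function.update A p₀ a = Function.update A p₀ (B p₀) := by rw [hB]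
    have e2 : Function.update B p₀ b = Function.update B p₀ (A p₀) := by rw [hA]
    rw [e1, e2]
    have hinj' := inj_flip hinj p₀
    obtain ⟨m1, -, -⟩ := ne_of_inj _ _ hinj'
    have hupd : ∀ p, p ≠ p₀ → Function.update A p₀ (B p₀) p = A p ∧
        Function.update B p₀ (A p₀) p = B p ∧ Function.update z p₀ (-z p₀) p = z p := fun p hpp =>
      ⟨Function.update_of_ne hpp _ _, Function.update_of_ne hpp _ _, Function.update_of_ne hpp _ _⟩
    refine ⟨Function.update z p₀ (-z p₀), ⟨?_, ?_, hinj', ?_, ?_, ?_, hO _ _ _ hupd,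
      hG _ _ _ hupd⟩, fun p hpp => Function.update_of_ne hpp _ _, proj_flip hinj z p₀⟩
    · rw [Function.update_self, hB]
    · rw [Function.update_self, hA]
    · intro p
      by_cases hpp : p = p₀
      · subst hpp
        rw [Function.update_self]
        rcases hθ₁.zeta_sq p with h1 | h1 <;> rw [h1]
        · right; rfl
        · left; ring
      · rw [Function.update_of_ne hpp]
        exact hθ₁.zeta_sq p
    · rw [Function.update_self, h.swap.z_eq hZ hd hs2 hs1 hp hA hB]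
      ring
    · refine hlim _ _ _ (fun p => m1 p p) (fun p hpp => ⟨(hupd p hpp).1, (hupd p hpp).2.1⟩)
        (by rw [Function.update_self, hB]) (by rw [Function.update_self, hA]) ?_
      filter_upwards [hp] with θ hθ p
      by_cases hpp : p = p₀
      · subst hpp
        rw [Function.update_self, Function.update_self, Function.update_self, X.Om_swap, ph_neg,
          ← hθ.I_zeta p]
        ring
      · rw [Function.update_of_ne hpp, Function.update_of_ne hpp, Function.update_of_ne hpp,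
          ← hθ.I_zeta p]

/-- the phase on the real side -/
theorem LocData.phase_R {sC sR : Set ℝ}
    (hs : (sC = Iio θs ∧ sR = Ioi θs) ∨ (sC = Ioi θs ∧ sR = Iio θs)) {A B : Fin 4 → Fin 8}
    {z : Fin 4 → ℂ} {p₀ : Fin 4} {ψ : n → ℂ} (ho : X.Orient θs η₀ a b ε y0 s0 A B z p₀)
    (hψ : X.proj A B z = vecMulVec ψ (star ψ))
    (hpos : ∀ᶠ θ in 𝓝[sC] θs, ∃ r : ℝ, 0 < r ∧ X.lr θ ⬝ᵥ ψ = r) :
    ∃ P : ℂ, ‖P‖ = 1 ∧ Tendsto (fun θ => ph (X.lr θ ⬝ᵥ ψ)) (𝓝[sR] θs) (𝓝 P) ∧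
      (sC = Iio θs → P = exp (I * Real.pi * X.esg θs η₀ / 8)) ∧
      (sC = Ioi θs → star P = exp (I * Real.pi * X.esg θs η₀ / 8)) := by
  obtain ⟨Pm, Pp, h1, h2, h3, h4, h5⟩ := h.cross hZ hd ho.hA ho.hB ho.inj ho.z1 hψ ho.z0 ho.O ho.G
  have hne : (Iio θs : Set ℝ) ≠ Ioi θs := by
    intro h6
    have h7 : θs - 1 ∈ Iio θs := by simp
    rw [h6] at h7
    simp at h7
    linarith
  have hone : Tendsto (fun θ => ph (X.lr θ ⬝ᵥ ψ)) (𝓝[sC] θs) (𝓝 1) := by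
    refine tendsto_const_nhds.congr' ?_
    filter_upwards [hpos] with θ hθ
    obtain ⟨r, hr, hr'⟩ := hθ
    rw [hr', ph_of_pos hr]
  rcases hs with ⟨rfl, rfl⟩ | ⟨rfl, rfl⟩
  · have h6 := tendsto_nhds_unique h3 hone
    refine ⟨Pp, h2, h4, fun _ => ?_, fun h7 => absurd h7 hne⟩
    rw [h5, h6, one_mul]
  · have h6 := tendsto_nhds_unique h4 hone
    refine ⟨Pm, h1, h3, fun h7 => absurd h7.symm hne, fun _ => ?_⟩
    rw [h6] at h5
    have h7 : star Pm * Pm = 1 := by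
      rw [Complex.star_def, ← Complex.normSq_eq_conj_mul_self, Complex.normSq_eq_norm_sq, h1]
      norm_num
    calc star Pm = star Pm * (Pm * exp (I * Real.pi * X.esg θs η₀ / 8)) := by rw [← h5, mul_one]
      _ = _ := by rw [← mul_assoc, h7, one_mul]

end

/-- the overlap from the phases -/
theorem overlap {θs : ℝ} {sR : Set ℝ} [(𝓝[sR] θs).NeBot] {ψ ψ' : n → ℂ}
    (hpos : ∀ᶠ θ in 𝓝[sR] θs, ∃ r : ℝ, 0 < r ∧ X.lr θ ⬝ᵥ ψ' = r) {P : ℂ} (hP : ‖P‖ = 1)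
    (hlim : Tendsto (fun θ => ph (X.lr θ ⬝ᵥ ψ)) (𝓝[sR] θs) (𝓝 P))
    (hrat : Tendsto (fun θ => ph (X.lr θ ⬝ᵥ (vecMulVec ψ' (star ψ') *ᵥ ψ)) / ph (X.lr θ ⬝ᵥ ψ))
      (𝓝[sR] θs) (𝓝 1)) : star ψ' ⬝ᵥ ψ = (‖star ψ' ⬝ᵥ ψ‖ : ℂ) * P := by
  have h1 : ∀ᶠ θ in 𝓝[sR] θs, ph (X.lr θ ⬝ᵥ (vecMulVec ψ' (star ψ') *ᵥ ψ)) =
      ph (star ψ' ⬝ᵥ ψ) := by
    filter_upwards [hpos] with θ hθ
    obtain ⟨r, hr, hr'⟩ := hθ
    rw [Matrix.vecMulVec_mulVec, dotProduct_smul, op_smul_eq_mul, hr', ph_real_mul hr]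
  have h2 : ∀ᶠ θ in 𝓝[sR] θs, ph (X.lr θ ⬝ᵥ ψ) ≠ 0 :=
    hlim.eventually_ne (norm_ne_zero_iff.mp (by rw [hP]; norm_num))
  have h3 : Tendsto (fun _ : ℝ => ph (star ψ' ⬝ᵥ ψ)) (𝓝[sR] θs) (𝓝 (1 * P)) := by
    refine (hrat.mul hlim).congr' ?_
    filter_upwards [h1, h2] with θ e1 e2
    rw [e1, div_mul_cancel₀ _ e2]
  rw [one_mul] at h3
  have h4 := tendsto_nhds_unique h3 tendsto_const_nhds
  rw [h4]
  exact eq_norm_mul_ph _

omit [DecidableEq n] in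
theorem norm_sq_overlap (ψ ψ' : n → ℂ) :
    ((‖star ψ' ⬝ᵥ ψ‖ ^ 2 : ℝ) : ℂ) = star ψ ⬝ᵥ (vecMulVec ψ' (star ψ') *ᵥ ψ) := by
  rw [Matrix.vecMulVec_mulVec, dotProduct_smul, op_smul_eq_mul]
  have h1 : star ψ ⬝ᵥ ψ' = star (star ψ' ⬝ᵥ ψ) := Matrix.star_dotProduct ψ ψ'
  rw [h1, Complex.star_def, ← Complex.normSq_eq_conj_mul_self, Complex.normSq_eq_norm_sq]

/-- one side of a point -/
theorem sides {θs : ℝ} {sC sR : Set ℝ}
    (hs : (sC = Iio θs ∧ sR = Ioi θs) ∨ (sC = Ioi θs ∧ sR = Iio θs)) :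
    (sC = Iio θs ∨ sC = Ioi θs) ∧ (sR = Iio θs ∨ sR = Ioi θs) := by
  rcases hs with ⟨rfl, rfl⟩ | ⟨rfl, rfl⟩
  · exact ⟨Or.inl rfl, Or.inr rfl⟩
  · exact ⟨Or.inr rfl, Or.inl rfl⟩

/-- the final form of the overlap -/
theorem overlap_cases {θs η₀ : ℝ} {sC : Set ℝ} {ψ ψ' : n → ℂ} {P ρ : ℂ}
    (h : star ψ' ⬝ᵥ ψ = ρ * P) (hρ : star ρ = ρ)
    (h1 : sC = Iio θs → P = exp (I * Real.pi * X.esg θs η₀ / 8))
    (h2 : sC = Ioi θs → star P = exp (I * Real.pi * X.esg θs η₀ / 8)) :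
    (sC = Iio θs → star ψ' ⬝ᵥ ψ = exp (I * Real.pi * X.esg θs η₀ / 8) * ρ) ∧
      (sC = Ioi θs → star ψ ⬝ᵥ ψ' = exp (I * Real.pi * X.esg θs η₀ / 8) * ρ) := by
  refine ⟨fun hs => ?_, fun hs => ?_⟩
  · rw [h, h1 hs, mul_comm]
  · rw [Matrix.star_dotProduct, h, star_mul, h2 hs, hρ]

section

variable {θs : ℝ} {a b : Fin 8} {ε : ℂ} {Y H : ℂ → ℂ} {y0 s0 : Fin 8 → ℂ}

/-- the signs on the real side -/
theorem Orient.sign_eq {η₀ : ℝ} {A B : Fin 4 → Fin 8} {z : Fin 4 → ℂ} {p₀ : Fin 4}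
    (ho : X.Orient θs η₀ a b ε y0 s0 A B z p₀) {s : Set ℝ} (hs : s = Iio θs ∨ s = Ioi θs)
    {A' B' : Fin 4 → Fin 8} {kind' : Fin 4 → Fin 3} {z' : Fin 4 → ℂ}
    (hp : ∀ᶠ θ in 𝓝[s] θs, X.Pairing θ A' B' kind' z') {p : Fin 4} (hA : A' p = A p)
    (hB : B' p = B p) : z' p = z p := by
  obtain ⟨hs1, hs2⟩ := EvLim.side_le (ts := θs) hs
  have h1 : Tendsto (fun θ => ph (X.Om θ (A p) (B p))) (𝓝[s] θs) (𝓝 (I * z' p)) := by
    refine tendsto_const_nhds.congr' ?_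
    filter_upwards [hp] with θ hθ
    rw [← hA, ← hB]
    exact hθ.I_zeta p
  exact mul_left_cancel₀ I_ne_zero (tendsto_nhds_unique h1 ((ho.lim p).mono_left hs1))

theorem ev_conv_aux (h : X.LocData (circ θs) a b ε Y H y0 s0) (hZ : circ θs ∈ X.Z) {η₀ : ℝ}
    (hd : X.Dbl θs η₀) {sC sR : Set ℝ}
    (hs : (sC = Iio θs ∧ sR = Ioi θs) ∨ (sC = Ioi θs ∧ sR = Iio θs))
    {A B : Fin 4 → Fin 8} {kind kind' : Fin 4 → Fin 3} {z z' : Fin 4 → ℂ} {ψ ψ' : n → ℂ}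
    {p₀ : Fin 4} (hk : kind p₀ = 2) (hAB : (A p₀ = a ∧ B p₀ = b) ∨ (A p₀ = b ∧ B p₀ = a))
    (hC : ∀ᶠ θ in 𝓝[sC] θs, X.Full θ A B kind z ψ)
    (hR : ∀ᶠ θ in 𝓝[sR] θs, X.Full θ (Function.update A p₀ a) (Function.update B p₀ b)
      kind' z' ψ') :
    X.proj (Function.update A p₀ a) (Function.update B p₀ b) z' = X.proj A B z ∧
      (sC = Iio θs → star ψ' ⬝ᵥ ψ = exp (I * Real.pi * X.esg θs η₀ / 8)) ∧
      (sC = Ioi θs → star ψ ⬝ᵥ ψ' = exp (I * Real.pi * X.esg θs η₀ / 8)) := by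
  obtain ⟨hsC, hsR⟩ := sides hs
  obtain ⟨hR1, hR2⟩ := EvLim.side_le (ts := θs) hsR
  obtain ⟨hC1, hC2⟩ := EvLim.side_le (ts := θs) hsC
  obtain ⟨z₁, ho, hz1, hpr⟩ := h.orient hZ hd hsC hk hAB (hC.mono fun θ hθ => hθ.pair)
  have hzz : z' = z₁ := funext fun p =>
    ho.sign_eq hsR (hR.mono fun θ hθ => hθ.pair) (p := p) rfl rfl
  obtain ⟨θ₁, h₁⟩ := hC.exists
  obtain ⟨θ₂, h₂⟩ := hR.exists
  have e1 : X.proj (Function.update A p₀ a) (Function.update B p₀ b) z' = X.proj A B z := by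
    rw [hzz, hpr]
  obtain ⟨P, hP, hlim, hP1, hP2⟩ := h.phase_R hZ hd hs ho (by rw [hpr]; exact h₁.state.proj)
    (hC.mono fun θ hθ => hθ.state.pos)
  have e2 : vecMulVec ψ' (star ψ') *ᵥ ψ = ψ := by
    rw [← h₂.state.proj, e1, h₁.state.proj, Matrix.vecMulVec_mulVec, h₁.state.unit]
    simp
  have h5 : ∀ᶠ θ in 𝓝[sR] θs, ph (X.lr θ ⬝ᵥ ψ) ≠ 0 :=
    hlim.eventually_ne (norm_ne_zero_iff.mp (by rw [hP]; norm_num))
  have h6 := overlap (hR.mono fun θ hθ => hθ.state.pos) hP hlim (by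
    rw [e2]
    refine tendsto_const_nhds.congr' ?_
    filter_upwards [h5] with θ hθ
    rw [div_self hθ])
  have h7 : ‖star ψ' ⬝ᵥ ψ‖ = 1 := by
    have h8 := norm_sq_overlap ψ ψ'
    rw [e2, h₁.state.unit] at h8
    have h9 : ‖star ψ' ⬝ᵥ ψ‖ ^ 2 = 1 := by exact_mod_cast h8
    exact (pow_eq_one_iff_of_nonneg (norm_nonneg _) two_ne_zero).mp h9
  rw [h7] at h6
  obtain ⟨h8, h9⟩ := overlap_cases h6 (by simp) hP1 hP2
  refine ⟨e1, fun hc => ?_, fun hc => ?_⟩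
  · rw [h8 hc]; simp
  · rw [h9 hc]; simp

/-- **convex events** -/
theorem ev_conv (h : X.LocData (circ θs) a b ε Y H y0 s0) (hZ : circ θs ∈ X.Z) {η₀ : ℝ}
    (hd : X.Dbl θs η₀) {sC sR : Set ℝ}
    (hs : (sC = Iio θs ∧ sR = Ioi θs) ∨ (sC = Ioi θs ∧ sR = Iio θs))
    {A B : Fin 4 → Fin 8} {kind kind' : Fin 4 → Fin 3} {z z' : Fin 4 → ℂ} {ψ ψ' : n → ℂ}
    {p₀ : Fin 4} {lo hi : Fin 8} (hk : kind p₀ = 2)
    (hAB : (A p₀ = a ∧ B p₀ = b) ∨ (A p₀ = b ∧ B p₀ = a))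
    (hlh : (lo = a ∧ hi = b) ∨ (lo = b ∧ hi = a))
    (hC : ∀ᶠ θ in 𝓝[sC] θs, X.Full θ A B kind z ψ)
    (hR : ∀ᶠ θ in 𝓝[sR] θs, X.Full θ (Function.update A p₀ lo) (Function.update B p₀ hi)
      kind' z' ψ') :
    X.proj (Function.update A p₀ lo) (Function.update B p₀ hi) z' = X.proj A B z ∧
      (sC = Iio θs → star ψ' ⬝ᵥ ψ = exp (I * Real.pi * X.esg θs η₀ / 8)) ∧
      (sC = Ioi θs → star ψ ⬝ᵥ ψ' = exp (I * Real.pi * X.esg θs η₀ / 8)) := by
  rcases hlh with ⟨rfl, rfl⟩ | ⟨rfl, rfl⟩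
  · exact ev_conv_aux h hZ hd hs hk hAB hC hR
  · exact ev_conv_aux h.swap hZ hd hs hk hAB.symm hC hR

theorem ph_Om_real {θ : ℝ} {i j : Fin 8} (hi : (X.eta θ i).im = 0) (hj : (X.eta θ j).im = 0)
    (hlt : (X.eta θ i).re < (X.eta θ j).re) :
    ph (X.Om θ i j) = ph (X.sig θ i) * ph (X.sig θ j) := by
  have h1 : X.eta θ j - X.eta θ i = (((X.eta θ j).re - (X.eta θ i).re : ℝ) : ℂ) := by
    apply Complex.ext
    · simp
    · simp [hi, hj]
  rw [Om, h1, ph_div_real (by linarith), ph_mul]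

theorem eq_of_sq_near {u v : ℂ} (hu : u ^ 2 = 1) (hv : v = 1 ∨ v = -1) (h : ‖u - v‖ < 1) :
    u = v := by
  have hu' : u = 1 ∨ u = -1 := by
    have h1 : (u - 1) * (u + 1) = 0 := by linear_combination hu
    rcases mul_eq_zero.mp h1 with h2 | h2
    · exact Or.inl (sub_eq_zero.mp h2)
    · exact Or.inr (eq_neg_of_add_eq_zero_left h2)
  rcases hu' with rfl | rfl <;> rcases hv with rfl | rfl
  · rfl
  · norm_num at h
  · norm_num at h
  · rfl

/-- a state is fixed by the factors of its projector -/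
theorem fix_of_proj {A B : Fin 4 → Fin 8} (hinj : Function.Injective (Sum.elim A B))
    {z : Fin 4 → ℂ} (hz : ∀ p, z p = 1 ∨ z p = -1) {ψ : n → ℂ}
    (hψ : X.proj A B z = vecMulVec ψ (star ψ)) (hu : star ψ ⬝ᵥ ψ = 1) (p : Fin 4) :
    pairFac X.M (A p) (B p) (z p) *ᵥ ψ = ψ := by
  obtain ⟨-, -, hl, hr⟩ := pairProd X.M X.hH 4 A B hinj z hz
  have h1 : X.proj A B z *ᵥ ψ = ψ := by
    rw [hψ, Matrix.vecMulVec_mulVec, hu]
    simp
  conv_lhs => rw [← h1]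
  rw [Matrix.mulVec_mulVec]
  unfold proj at h1 ⊢
  rw [hl p]
  exact h1

theorem ev_conc_aux (h : X.LocData (circ θs) a b ε Y H y0 s0) (hZ : circ θs ∈ X.Z) {η₀ : ℝ}
    (hd : X.Dbl θs η₀) {sC sR : Set ℝ}
    (hs : (sC = Iio θs ∧ sR = Ioi θs) ∨ (sC = Ioi θs ∧ sR = Iio θs))
    {A B A' B' : Fin 4 → Fin 8} {kind kind' : Fin 4 → Fin 3} {z z' : Fin 4 → ℂ} {ψ ψ' : n → ℂ}
    {p₀ p₁ : Fin 4} (h01 : p₁ ≠ p₀) (hk : kind p₀ = 2)
    (hAB : (A p₀ = a ∧ B p₀ = b) ∨ (A p₀ = b ∧ B p₀ = a))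
    (hA' : A' = Function.update A p₀ b)
    (hB' : B' = Function.update (Function.update B p₁ a) p₀ (B p₁))
    (hk0 : X.esg θs η₀ = -1 → kind' p₀ = 0 ∧ kind' p₁ = 0)
    (hk' : kind' p₀ ≠ 2 ∧ kind' p₁ ≠ 2)
    (hlt : ∀ᶠ θ in 𝓝[sR] θs, (X.eta θ a).re < (X.eta θ b).re)
    (hC : ∀ᶠ θ in 𝓝[sC] θs, X.Full θ A B kind z ψ)
    (hR : ∀ᶠ θ in 𝓝[sR] θs, X.Full θ A' B' kind' z' ψ') :
    X.proj A' B' z' * X.proj A B z = pairFac X.M (A' p₁) (B' p₁) (z' p₁) *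
        pairFac X.M (A' p₀) (B' p₀) (z' p₀) * X.proj A B z ∧
      X.proj A B z * X.proj A' B' z' = pairFac X.M (A p₁) (B p₁) (z p₁) *
        pairFac X.M (A p₀) (B p₀) (z p₀) * X.proj A' B' z' ∧
      (sC = Iio θs → star ψ' ⬝ᵥ ψ = exp (I * Real.pi * X.esg θs η₀ / 8) *
        ((Real.sqrt 2 : ℝ) : ℂ)⁻¹) ∧
      (sC = Ioi θs → star ψ ⬝ᵥ ψ' = exp (I * Real.pi * X.esg θs η₀ / 8) *
        ((Real.sqrt 2 : ℝ) : ℂ)⁻¹) := by
  obtain ⟨hsC, hsR⟩ := sides hs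
  obtain ⟨hR1, hR2⟩ := EvLim.side_le (ts := θs) hsR
  obtain ⟨hC1, hC2⟩ := EvLim.side_le (ts := θs) hsC
  obtain ⟨z₁, ho, hz1, hpr⟩ := h.orient hZ hd hsC hk hAB (hC.mono fun θ hθ => hθ.pair)
  obtain ⟨θ₁, h₁⟩ := hC.exists
  obtain ⟨θ₂, h₂⟩ := hR.exists
  set A₁ := Function.update A p₀ a with hA₁
  set B₁ := Function.update B p₀ b with hB₁
  -- the labels
  have a1 : A₁ p₁ = A p₁ := Function.update_of_ne h01 _ _
  have b1 : B₁ p₁ = B p₁ := Function.update_of_ne h01 _ _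
  have a0 : A₁ p₀ = a := ho.hA
  have b0 : B₁ p₀ = b := ho.hB
  have a1' : A' p₁ = A₁ p₁ := by rw [hA', Function.update_of_ne h01, a1]
  have b1' : B' p₁ = a := by rw [hB', Function.update_of_ne h01, Function.update_self]
  have a0' : A' p₀ = b := by rw [hA', Function.update_self]
  have b0' : B' p₀ = B₁ p₁ := by rw [hB', Function.update_self, b1]
  have aq : ∀ p, p ≠ p₀ → A' p = A₁ p := fun p hp => by
    rw [hA', hA₁, Function.update_of_ne hp, Function.update_of_ne hp]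
  have bq : ∀ p, p ≠ p₀ → p ≠ p₁ → B' p = B₁ p := fun p hp hp1 => by
    rw [hB', hB₁, Function.update_of_ne hp, Function.update_of_ne hp1, Function.update_of_ne hp]
  have zq : ∀ p, p ≠ p₀ → p ≠ p₁ → z' p = z₁ p := fun p hp hp1 =>
    ho.sign_eq hsR (hR.mono fun θ hθ => hθ.pair) (aq p hp) (bq p hp hp1)
  have hψ₁ : X.proj A₁ B₁ z₁ = vecMulVec ψ (star ψ) := by rw [hpr]; exact h₁.state.proj
  have fix₁ := fix_of_proj ho.inj ho.z1 hψ₁ h₁.state.unit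
  have fix' := fix_of_proj h₂.pair.inj h₂.pair.zeta_sq h₂.state.proj h₂.state.unit
  obtain ⟨n1, n2, n3⟩ := ne_of_inj A₁ B₁ ho.inj
  -- the product of the four signs
  have hprod : z₁ p₁ * z₁ p₀ * z' p₁ * z' p₀ = 1 := by
    have e1 : ∀ᶠ θ in 𝓝[sR] θs, ph (X.Om θ (A₁ p₁) (B₁ p₁)) * ph (X.Om θ (A₁ p₀) (B₁ p₀)) =
        -(z' p₁ * z' p₀) := by
      filter_upwards [hR, hlt] with θ hθ hl
      obtain ⟨r1, r2, r3⟩ := hθ.pair.real p₁ hk'.2
      obtain ⟨r4, r5, r6⟩ := hθ.pair.real p₀ hk'.1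
      have i1 := hθ.pair.I_zeta p₁
      have i0 := hθ.pair.I_zeta p₀
      rw [a1'] at r1
      rw [b1'] at r2
      rw [a1', b1'] at r3 i1
      rw [a0'] at r4
      rw [b0'] at r5
      rw [a0', b0'] at r6 i0
      rw [ph_Om_real r1 r2 r3] at i1
      rw [ph_Om_real r4 r5 r6] at i0
      rw [a0, b0, ph_Om_real r1 r5 (by linarith), ph_Om_real r2 r4 hl]
      have hI := I_mul_I
      linear_combination (-(I * z' p₀)) * i1 - (ph (X.sig θ (A₁ p₁)) * ph (X.sig θ a)) * i0 +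
        (z' p₁ * z' p₀) * hI
    have e2 := ((ho.lim p₁).mono_left hR1).mul ((ho.lim p₀).mono_left hR1)
    have e3 := tendsto_nhds_unique (tendsto_const_nhds.congr' (e1.mono fun θ hθ => hθ.symm)) e2
    have hI := I_mul_I
    have s1 : z' p₁ * z' p₁ = 1 := by rcases h₂.pair.zeta_sq p₁ with g | g <;> rw [g] <;> norm_num
    have s0 : z' p₀ * z' p₀ = 1 := by rcases h₂.pair.zeta_sq p₀ with g | g <;> rw [g] <;> norm_num
    have e4 : z₁ p₁ * z₁ p₀ = z' p₁ * z' p₀ := by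
      linear_combination (z₁ p₁ * z₁ p₀) * hI + e3
    linear_combination (z' p₁ * z' p₀) * e4 + (z' p₀ * z' p₀) * s1 + s0
  -- the recoupled state
  have hsq : ∀ (w : Fin 4 → ℂ), (∀ p, w p = 1 ∨ w p = -1) → ∀ p, w p ^ 2 = 1 := by
    intro w hw p
    rcases hw p with g | g <;> rw [g] <;> norm_num
  have hrec := recouple X.M (a₁ := A₁ p₁) (a₂ := A₁ p₀) (a₃ := B₁ p₀) (a₄ := B₁ p₁)
    (n2 _ _ h01) (n1 _ _) (n1 _ _) (n1 _ _) (n1 _ _) (n3 _ _ h01.symm)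
    (hsq z₁ ho.z1 p₁) (hsq z₁ ho.z1 p₀) (hsq z' h₂.pair.zeta_sq p₁) (hsq z' h₂.pair.zeta_sq p₀)
    hprod (fix₁ p₁) (fix₁ p₀)
  have hP' : X.proj A' B' z' *ᵥ ψ = pairFac X.M (A' p₁) (B' p₁) (z' p₁) *ᵥ
      (pairFac X.M (A' p₀) (B' p₀) (z' p₀) *ᵥ ψ) :=
    proj_mulVec X.M X.hH A' B' h₂.pair.inj z' h₂.pair.zeta_sq p₀ p₁ h01.symm ψ fun p hp hp1 => by
      rw [aq p hp, bq p hp hp1, zq p hp hp1]
      exact fix₁ p
  have hP'2 : X.proj A' B' z' *ᵥ ψ = (1 / 2 : ℂ) • (ψ + (z' p₁ * z₁ p₁) •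
      ((X.M.e (A₁ p₀) * X.M.e (B₁ p₁)) *ᵥ ψ)) := by
    rw [hP', a1', b1', a0', b0', ← hrec, a0, b0]
  have hP : X.proj A B z *ᵥ ψ' = pairFac X.M (A p₁) (B p₁) (z p₁) *ᵥ
      (pairFac X.M (A p₀) (B p₀) (z p₀) *ᵥ ψ') :=
    proj_mulVec X.M X.hH A B h₁.pair.inj z h₁.pair.zeta_sq p₀ p₁ h01.symm ψ' fun p hp hp1 => by
      have g := fix' p
      rw [aq p hp, bq p hp hp1, zq p hp hp1, hA₁, hB₁, Function.update_of_ne hp,
        Function.update_of_ne hp, hz1 p hp] at g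
      exact g
  refine ⟨?_, ?_, ?_⟩
  · rw [h₁.state.proj, Matrix.mul_vecMulVec, Matrix.mul_vecMulVec, hP', Matrix.mulVec_mulVec]
  · rw [h₂.state.proj, Matrix.mul_vecMulVec, Matrix.mul_vecMulVec, hP, Matrix.mulVec_mulVec]
  -- the phases
  obtain ⟨P, hPn, hlim, hP1, hP2⟩ := h.phase_R hZ hd hs ho hψ₁ (hC.mono fun θ hθ => hθ.state.pos)
  have hne0 : ∀ᶠ θ in 𝓝[sR] θs, ph (X.lr θ ⬝ᵥ ψ) ≠ 0 :=
    hlim.eventually_ne (norm_ne_zero_iff.mp (by rw [hPn]; norm_num))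
  have hτ : z' p₁ * z₁ p₁ = 1 ∨ z' p₁ * z₁ p₁ = -1 := by
    rcases h₂.pair.zeta_sq p₁ with g | g <;> rcases ho.z1 p₁ with g' | g' <;> rw [g, g'] <;> simp
  have hrat : Tendsto (fun θ => ph (X.lr θ ⬝ᵥ (vecMulVec ψ' (star ψ') *ᵥ ψ)) /
      ph (X.lr θ ⬝ᵥ ψ)) (𝓝[sR] θs) (𝓝 1) := by
    rw [← h₂.state.proj, hP'2]
    rcases h.esg_cases hZ hd with he | he
    · exact (h.conc_O hZ hd h01.symm ho.hA ho.hB ho.inj ho.z1 hψ₁ (by rw [ho.z0, he]; simp)
        (ho.O he) _).mono_left hR1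
    · obtain ⟨k0, k1⟩ := hk0 he
      -- the limits of the labels
      have hev := h.evLim hZ hd
      have hre : ∀ i, Tendsto (fun θ => (X.eta θ i).re) (𝓝[sR] θs) (𝓝 (eLim θs y0 i).re) :=
        fun i => (Complex.continuous_re.tendsto _).comp ((hev.eta_lim i).mono_left hR1)
      have him : ∀ i, Tendsto (fun θ => (X.eta θ i).im) (𝓝[sR] θs) (𝓝 (eLim θs y0 i).im) :=
        fun i => (Complex.continuous_im.tendsto _).comp ((hev.eta_lim i).mono_left hR1)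
      have hgap : ∀ᶠ θ in 𝓝[sR] θs, ∀ q, q ≠ p₁ → q ≠ p₀ → kind' q = 0 →
          ¬ ((X.eta θ a).re < (X.eta θ (A' q)).re ∧ (X.eta θ (A' q)).re < (X.eta θ b).re) := by
        rw [Filter.eventually_all]
        intro q
        by_cases hq : q ≠ p₁ ∧ q ≠ p₀ ∧ kind' q = 0
        · obtain ⟨q1, q0, qk⟩ := hq
          have g1 : (eLim θs y0 (A' q)).im = 0 := by
            refine tendsto_nhds_unique (him (A' q)) (tendsto_const_nhds.congr' ?_)
            filter_upwards [hR] with θ hθ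
            exact (hθ.pair.real q (by rw [qk]; decide)).1.symm
          have g2 : A' q ≠ a ∧ A' q ≠ b := by
            rw [aq q q0]
            exact ⟨fun g => n2 q p₀ q0 (g.trans a0.symm), fun g => n1 q p₀ (g.trans b0.symm)⟩
          have g3 : eLim θs y0 (A' q) ≠ (η₀ : ℂ) := by
            rw [← hev.ea]
            exact hev.ne_of_ne g2.1 g2.1 g2.2
          have g4 : (eLim θs y0 (A' q)).re ≠ η₀ := by
            intro g
            exact g3 (Complex.ext (by simpa using g) (by simpa using g1))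
          have ga : (eLim θs y0 a).re = η₀ := by rw [hev.ea]; simp
          have gb : (eLim θs y0 b).re = η₀ := by rw [hev.eb]; simp
          rcases lt_or_gt_of_ne g4 with g5 | g5
          · filter_upwards [(hre (A' q)).eventually_lt (hre a) (by rw [ga]; exact g5)] with θ hθ
              _ _ _ hcon
            linarith [hcon.1]
          · filter_upwards [(hre b).eventually_lt (hre (A' q)) (by rw [gb]; exact g5)] with θ hθ
              _ _ _ hcon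
            linarith [hcon.2]
        · exact Filter.Eventually.of_forall fun θ q1 q0 qk => absurd ⟨q1, q0, qk⟩ hq
      -- the virtual signs
      have hvz : ∀ p, Tendsto (fun θ => X.vz θ (A₁ p) (B₁ p)) (𝓝[sR] θs) (𝓝 (z₁ p)) := by
        intro p
        have g := ((ho.lim p).mono_left hR1).const_mul (-I)
        have g' : -I * (I * z₁ p) = z₁ p := by
          have hI := I_mul_I
          linear_combination (-(z₁ p)) * hI
        rw [g'] at g
        exact g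
      have hvn : ∀ p, ∀ᶠ θ in 𝓝[sR] θs, ‖X.vz θ (A₁ p) (B₁ p) - z₁ p‖ < 1 := by
        intro p
        have g := (hvz p).sub_const (z₁ p)
        rw [sub_self] at g
        have g' := g.norm
        rw [norm_zero] at g'
        exact g'.eventually_lt_const one_pos
      refine tendsto_const_nhds.congr' ?_
      filter_upwards [hR, hlt, hgap, hvn p₁, hvn p₀, hne0,
        ((X.eventually_reg hZ).filter_mono hR1)] with θ hθ hl hg hv1 hv0 hn hreg
      have hord : (X.eta θ (B' p₁)).re < (X.eta θ (A' p₀)).re := by rw [b1', a0']; exact hl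
      obtain ⟨w1, w2, -⟩ := vz_facts hreg hθ.pair k1 k0 hord
      have v1 : X.vz θ (A' p₁) (B' p₀) = z₁ p₁ := by
        rw [a1', b0'] at w1 ⊢
        exact eq_of_sq_near w1 (ho.z1 p₁) hv1
      have v0 : X.vz θ (B' p₁) (A' p₀) = z₁ p₀ := by
        rw [b1', a0', ← a0, ← b0] at w2 ⊢
        exact eq_of_sq_near w2 (ho.z1 p₀) hv0
      have hcf := hθ.pair.conf hreg
      have harc := arc_det hreg hθ.pair h01 k1 k0 hord (fun q qk q1 q0 => by
        rcases hcf.disj q p₁ q1 (by rw [qk, k1]) (by rw [qk]; decide) with g | g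
        · exact Or.inl g
        · rcases hcf.disj q p₀ q0 (by rw [qk, k0]) (by rw [qk]; decide) with g' | g'
          · exfalso
            refine hg q q1 q0 qk ⟨?_, ?_⟩
            · rw [b1'] at g
              exact g
            · rw [a0'] at g'
              exact lt_trans (hcf.real q (by rw [qk]; decide)).2.2 g'
          · exact Or.inr g')
      rw [v1, v0] at harc
      have key := ph_arc hreg ho.inj ho.z1 hψ₁ h01.symm hτ (fun c S hc hS hcS => by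
        obtain ⟨x, hx, hx'⟩ := harc c S hc hS hcS
        refine ⟨x, hx, ?_⟩
        rw [← hx']
        congr 2
        ext p j
        simp only [Matrix.of_apply, arcRows]
        by_cases hp1 : p = p₁
        · subst hp1
          rw [if_pos rfl, if_pos rfl, a1', b0', b1', a0]
        · by_cases hp0 : p = p₀
          · subst hp0
            rw [if_neg hp1, if_neg hp1, if_pos rfl, if_pos rfl, b1', b0', a0', a0, b0]
          · rw [if_neg hp1, if_neg hp1, if_neg hp0, if_neg hp0, aq p hp0, bq p hp0 hp1,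
              zq p hp0 hp1])
      rw [key, div_self hn]
  have h6 := overlap (hR.mono fun θ hθ => hθ.state.pos) hPn hlim hrat
  have h7 : ‖star ψ' ⬝ᵥ ψ‖ = (Real.sqrt 2)⁻¹ := by
    have h8 := norm_sq_overlap ψ ψ'
    rw [← h₂.state.proj, hP'2, dot_half, h₁.state.unit,
      ortho_recouple X.M X.hH (n2 p₁ p₀ h01) (n1 p₁ p₁) (n1 p₀ p₁) (by
        rcases ho.z1 p₁ with g | g <;> rw [g] <;> simp) (fix₁ p₁)] at h8
    have h9 : ‖star ψ' ⬝ᵥ ψ‖ ^ 2 = 1 / 2 := by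
      have : ((‖star ψ' ⬝ᵥ ψ‖ ^ 2 : ℝ) : ℂ) = ((1 / 2 : ℝ) : ℂ) := by
        rw [h8]; push_cast; ring
      exact_mod_cast this
    have h10 : ((Real.sqrt 2)⁻¹) ^ 2 = 1 / 2 := by
      rw [inv_pow, Real.sq_sqrt (by norm_num)]
      norm_num
    exact (pow_left_inj₀ (norm_nonneg _) (by positivity) two_ne_zero).mp (h9.trans h10.symm)
  rw [h7, ofReal_inv] at h6
  exact overlap_cases h6 (by
    rw [← ofReal_inv, Complex.star_def, Complex.conj_ofReal]) hP1 hP2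

/-- **concave events** -/
theorem ev_conc (h : X.LocData (circ θs) a b ε Y H y0 s0) (hZ : circ θs ∈ X.Z) {η₀ : ℝ}
    (hd : X.Dbl θs η₀) {sC sR : Set ℝ}
    (hs : (sC = Iio θs ∧ sR = Ioi θs) ∨ (sC = Ioi θs ∧ sR = Iio θs))
    {A B A' B' : Fin 4 → Fin 8} {kind kind' : Fin 4 → Fin 3} {z z' : Fin 4 → ℂ} {ψ ψ' : n → ℂ}
    {p₀ p₁ : Fin 4} {lo hi : Fin 8} (h01 : p₁ ≠ p₀) (hk : kind p₀ = 2)
    (hAB : (A p₀ = a ∧ B p₀ = b) ∨ (A p₀ = b ∧ B p₀ = a))
    (hlh : (lo = a ∧ hi = b) ∨ (lo = b ∧ hi = a))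
    (hA' : A' = Function.update A p₀ hi)
    (hB' : B' = Function.update (Function.update B p₁ lo) p₀ (B p₁))
    (hk0 : X.esg θs η₀ = -1 → kind' p₀ = 0 ∧ kind' p₁ = 0)
    (hk' : kind' p₀ ≠ 2 ∧ kind' p₁ ≠ 2)
    (hlt : ∀ᶠ θ in 𝓝[sR] θs, (X.eta θ lo).re < (X.eta θ hi).re)
    (hC : ∀ᶠ θ in 𝓝[sC] θs, X.Full θ A B kind z ψ)
    (hR : ∀ᶠ θ in 𝓝[sR] θs, X.Full θ A' B' kind' z' ψ') :
    X.proj A' B' z' * X.proj A B z = pairFac X.M (A' p₁) (B' p₁) (z' p₁) *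
        pairFac X.M (A' p₀) (B' p₀) (z' p₀) * X.proj A B z ∧
      X.proj A B z * X.proj A' B' z' = pairFac X.M (A p₁) (B p₁) (z p₁) *
        pairFac X.M (A p₀) (B p₀) (z p₀) * X.proj A' B' z' ∧
      (sC = Iio θs → star ψ' ⬝ᵥ ψ = exp (I * Real.pi * X.esg θs η₀ / 8) *
        ((Real.sqrt 2 : ℝ) : ℂ)⁻¹) ∧
      (sC = Ioi θs → star ψ ⬝ᵥ ψ' = exp (I * Real.pi * X.esg θs η₀ / 8) *
        ((Real.sqrt 2 : ℝ) : ℂ)⁻¹) := by
  rcases hlh with ⟨rfl, rfl⟩ | ⟨rfl, rfl⟩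
  · exact ev_conc_aux h hZ hd hs h01 hk hAB hA' hB' hk0 hk' hlt hC hR
  · exact ev_conc_aux h.swap hZ hd hs h01 hk hAB.symm hA' hB' hk0 hk' hlt hC hR

end

end Ctx

end Pool.Agent.Rohlin
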