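import Pool.Agent.Rohlin.EvSides

/-!
# Moving the pairing through an event
-/

set_option autoImplicit false

namespace Pool.Agent.Rohlin

open Polynomial Complex Set Filter Topology

namespace EvClass

variable {n : Type} [Fintype n] [DecidableEq n] {X : Ctx n} {θs : ℝ} {a b : Fin 8}
  {e σ : Fin 8 → ℂ} {η₀ s sg ρ δ : ℝ}

theorem norm_ofReal_sub_ofReal (x y : ℝ) : ‖(x : ℂ) - y‖ = |x - y| := by
  rw [← Complex.ofReal_sub, Complex.norm_real, Real.norm_eq_abs]

theorem eq_ofReal {z : ℂ} (h : z.im = 0) : z = ((z.re : ℝ) : ℂ) :=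
  Complex.ext rfl (by simpa using h)

/-- points far from all limits are not roots -/
theorem ne_zero_of_far (hL : X.EvLim θs a b e σ η₀) (hB : Box X θs a b e η₀ s sg ρ δ) {t : ℝ}
    (ht : |t - θs| < δ) {m : ℝ} (hm : ∀ i, ρ ≤ ‖(m : ℂ) - e i‖) : (gr X.f t).eval m ≠ 0 := by
  intro h0
  by_cases hne : t = θs
  · subst hne
    obtain ⟨i, hi⟩ := exists_of_root hL (x := (m : ℂ)) (by rw [eval_map_ofReal, h0, ofReal_zero])
    have := hm i
    rw [hi, sub_self, norm_zero] at this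
    exact absurd hB.rho_pos (not_lt.2 this)
  · obtain ⟨i, hi⟩ := Ctx.exists_eta_of_root X (hB.reg t hne ht) h0
    have h1 := hB.close t hne ht i
    rw [hi] at h1
    exact absurd h1 (not_lt.2 (hm i))

/-- moving vertically to a point far from all limits -/
theorem rounding (hL : X.EvLim θs a b e σ η₀) (hB : Box X θs a b e η₀ s sg ρ δ) {t : ℝ}
    (hne : t ≠ θs) (ht : |t - θs| < δ) {x : ℝ} (hx : (gr X.f t).eval x ≠ 0)
    (hside : ∀ i, ‖(x : ℂ) - e i‖ < ρ →
      (∀ k, e k = e i → ∀ u : ℝ, X.eta t k = u → x < u) ∨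
        ∀ k, e k = e i → ∀ u : ℝ, X.eta t k = u → u < x) :
    ∃ m : ℝ, (∀ i, ρ ≤ ‖(m : ℂ) - e i‖) ∧ ∀ u ∈ uIcc x m, (gr X.f t).eval u ≠ 0 := by
  have hρ := hB.rho_pos
  by_cases hfar : ∀ i, ρ ≤ ‖(x : ℂ) - e i‖
  · refine ⟨x, hfar, fun u hu => ?_⟩
    rw [uIcc_self, mem_singleton_iff] at hu
    rwa [hu]
  · push Not at hfar
    obtain ⟨i, hi⟩ := hfar
    have him : (e i).im = 0 := by
      by_contra h0
      have h1 := im_lim_ge hL hB h0
      have h2 := Complex.abs_im_le_norm ((x : ℂ) - e i)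
      rw [Complex.sub_im, Complex.ofReal_im, zero_sub, abs_neg] at h2
      linarith
    set r := (e i).re with hr
    have hei : e i = (r : ℂ) := eq_ofReal him
    rw [hei, norm_ofReal_sub_ofReal] at hi
    have hi' := abs_lt.1 hi
    -- roots near `r`
    have hroots : ∀ u : ℝ, |u - r| ≤ ρ → (gr X.f t).eval u = 0 →
        ∃ k, e k = e i ∧ X.eta t k = u := by
      intro u hu h0
      obtain ⟨k, hk⟩ := Ctx.exists_eta_of_root X (hB.reg t hne ht) h0
      refine ⟨k, hB.eq_of_close hne ht ?_, hk⟩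
      rw [hk, hei, norm_ofReal_sub_ofReal]
      linarith
    -- the two candidates are far from all limits
    have hcand : ∀ m : ℝ, |m - r| = ρ → ∀ j, ρ ≤ ‖(m : ℂ) - e j‖ := by
      intro m hm j
      by_cases hj : e j = e i
      · rw [hj, hei, norm_ofReal_sub_ofReal, hm]
      · have h1 := hB.sep j i hj
        have h2 : ‖e j - e i‖ ≤ ‖(m : ℂ) - e i‖ + ‖(m : ℂ) - e j‖ := by
          calc ‖e j - e i‖ = ‖((m : ℂ) - e i) - ((m : ℂ) - e j)‖ := by congr 1; ring
            _ ≤ _ := norm_sub_le _ _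
        rw [hei, norm_ofReal_sub_ofReal, hm] at h2
        rw [hei] at h1
        linarith
    rcases hside i (by rw [hei, norm_ofReal_sub_ofReal]; exact hi) with h | h
    · refine ⟨r - ρ, hcand _ (by rw [sub_sub_cancel_left, abs_neg, abs_of_pos hρ]), ?_⟩
      intro u hu h0
      rw [uIcc_of_ge (by linarith)] at hu
      obtain ⟨k, hk1, hk2⟩ := hroots u (abs_le.2 ⟨by linarith [hu.1], by linarith [hu.2]⟩) h0
      have := h k hk1 u hk2
      linarith [hu.2]
    · refine ⟨r + ρ, hcand _ (by rw [add_sub_cancel_left, abs_of_pos hρ]), ?_⟩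
      intro u hu h0
      rw [uIcc_of_le (by linarith)] at hu
      obtain ⟨k, hk1, hk2⟩ := hroots u (abs_le.2 ⟨by linarith [hu.1], by linarith [hu.2]⟩) h0
      have := h k hk1 u hk2
      linarith [hu.1]

/-- the position of a label which does not collide with respect to a far point -/
theorem pos_far (hB : Box X θs a b e η₀ s sg ρ δ) {t : ℝ} (hne : t ≠ θs) (ht : |t - θs| < δ)
    {k : Fin 8} (hk : (e k).im = 0) {m : ℝ} (hm : ρ ≤ ‖(m : ℂ) - e k‖) :
    ((X.eta t k).re ≤ m ↔ (e k).re < m) ∧ (m ≤ (X.eta t k).re ↔ m < (e k).re) := by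
  rw [eq_ofReal hk, norm_ofReal_sub_ofReal] at hm
  have h1 := abs_lt.1 (re_close hB hne ht k)
  have hρ := hB.rho_pos
  rcases le_abs.1 hm with h2 | h2
  · constructor <;> constructor <;> intro h3 <;> linarith [h1.1, h1.2]
  · constructor <;> constructor <;> intro h3 <;> linarith [h1.1, h1.2]

/-- no root between `x` and `m` -/
theorem pos_vert {p : ℝ[X]} {x m y : ℝ} (hy : p.eval y = 0) (h : ∀ u ∈ uIcc x m, p.eval u ≠ 0) :
    (y ≤ x ↔ y ≤ m) ∧ (x ≤ y ↔ m ≤ y) := by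
  have hny : y ∉ uIcc x m := fun h1 => h y h1 hy
  rcases le_total x m with h1 | h1
  · rw [uIcc_of_le h1, mem_Icc, not_and_or, not_le, not_le] at hny
    rcases hny with h2 | h2
    · constructor <;> constructor <;> intro h3 <;> linarith
    · constructor <;> constructor <;> intro h3 <;> linarith
  · rw [uIcc_of_ge h1, mem_Icc, not_and_or, not_le, not_le] at hny
    rcases hny with h2 | h2
    · constructor <;> constructor <;> intro h3 <;> linarith
    · constructor <;> constructor <;> intro h3 <;> linarith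

/-- **Transfer** of the membership from one side of the event to the other, away from the interval
between the two colliding roots. -/
theorem transfer (hL : X.EvLim θs a b e σ η₀) (hB : Box X θs a b e η₀ s sg ρ δ) {t t' : ℝ}
    (hne : t ≠ θs) (ht : |t - θs| < δ) (hne' : t' ≠ θs) (ht' : |t' - θs| < δ)
    {K : Set RP2} (hK : K = X.K0 ∨ K = X.K1) {A B : Fin 4 → Fin 8} {kind : Fin 4 → Fin 3}
    {κ : Fin 3} (hreal : ∀ p, kind p = κ → (e (A p)).im = 0 ∧ (e (B p)).im = 0 ∧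
      (A p ≠ a ∧ A p ≠ b) ∧ (B p ≠ a ∧ B p ≠ b))
    (hin : ∀ x : ℝ, pt t' x ∈ K ↔ ∃ p, kind p = κ ∧
      (X.eta t' (A p)).re ≤ x ∧ x ≤ (X.eta t' (B p)).re) {x : ℝ} (hx : (gr X.f t).eval x ≠ 0)
    (hside : ∀ i, ‖(x : ℂ) - e i‖ < ρ →
      (∀ k, e k = e i → ∀ u : ℝ, X.eta t k = u → x < u) ∨
        ∀ k, e k = e i → ∀ u : ℝ, X.eta t k = u → u < x) :
    pt t x ∈ K ↔ ∃ p, kind p = κ ∧ (X.eta t (A p)).re ≤ x ∧ x ≤ (X.eta t (B p)).re := by
  obtain ⟨m, hm, hv⟩ := rounding hL hB hne ht hx hside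
  rw [vert_iff X.reg hK hv, horiz_iff X.reg hK (θ' := t') (fun u hu => ?_), hin m]
  · refine exists_congr fun p => and_congr_right fun hp => ?_
    obtain ⟨h1, h2, h3, h4⟩ := hreal p hp
    have hA0 := Ctx.gr_eval_re X (hB.reg t hne ht) (im_zero_of_lim hL hB hne ht h3 h1)
    have hB0 := Ctx.gr_eval_re X (hB.reg t hne ht) (im_zero_of_lim hL hB hne ht h4 h2)
    rw [(pos_vert hA0 hv).1, (pos_vert hB0 hv).2, (pos_far hB hne ht h1 (hm _)).1,
      (pos_far hB hne' ht' h1 (hm _)).1, (pos_far hB hne ht h2 (hm _)).2,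
      (pos_far hB hne' ht' h2 (hm _)).2]
  · refine ne_zero_of_far hL hB ?_ hm
    have h1 := abs_lt.1 ht
    have h2 := abs_lt.1 ht'
    rcases le_total t t' with h3 | h3
    · rw [uIcc_of_le h3] at hu
      exact abs_lt.2 ⟨by linarith [hu.1], by linarith [hu.2]⟩
    · rw [uIcc_of_ge h3] at hu
      exact abs_lt.2 ⟨by linarith [hu.1], by linarith [hu.2]⟩

/-- the position of a label which does not collide with respect to points near `η₀` -/
theorem pos_near (hL : X.EvLim θs a b e σ η₀) (hB : Box X θs a b e η₀ s sg ρ δ) {t t' : ℝ}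
    (hne : t ≠ θs) (ht : |t - θs| < δ) (hne' : t' ≠ θs) (ht' : |t' - θs| < δ)
    {k : Fin 8} (hk : (e k).im = 0) (hkab : k ≠ a ∧ k ≠ b) {x x' : ℝ} (hx : |x - η₀| ≤ ρ)
    (hx' : |x' - η₀| ≤ ρ) :
    ((X.eta t k).re ≤ x ↔ (X.eta t' k).re ≤ x') ∧ (x ≤ (X.eta t k).re ↔ x' ≤ (X.eta t' k).re) := by
  have h0 : e k ≠ e a := by
    intro h
    rcases mem_of_lim_eq hL (h.trans hL.ea) with h1 | h1
    · exact hkab.1 h1
    · exact hkab.2 h1
  have h1 := hB.sep k a h0
  rw [hL.ea, eq_ofReal hk, norm_ofReal_sub_ofReal] at h1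
  have h2 := abs_lt.1 (re_close hB hne ht k)
  have h3 := abs_lt.1 (re_close hB hne' ht' k)
  have h4 := abs_le.1 hx
  have h5 := abs_le.1 hx'
  have hρ := hB.rho_pos
  rcases le_abs.1 h1 with h6 | h6
  · constructor <;> constructor <;> intro h7 <;> linarith [h2.1, h2.2, h3.1, h3.2, h4.1, h4.2]
  · constructor <;> constructor <;> intro h7 <;> linarith [h2.1, h2.2, h3.1, h3.2, h4.1, h4.2]

/-- the order of two labels which do not collide is the same on both sides -/
theorem order_same (hL : X.EvLim θs a b e σ η₀) (hB : Box X θs a b e η₀ s sg ρ δ) {t t' : ℝ}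
    (hne : t ≠ θs) (ht : |t - θs| < δ) (hne' : t' ≠ θs) (ht' : |t' - θs| < δ)
    {k l : Fin 8} (hk : (e k).im = 0) (hl : (e l).im = 0) (hlab : l ≠ a ∧ l ≠ b)
    (h : (X.eta t k).re < (X.eta t l).re) : (X.eta t' k).re < (X.eta t' l).re := by
  have hkl : e k ≠ e l := by
    intro h1
    have := eq_of_lim_eq hL hlab h1
    subst this
    exact lt_irrefl _ h
  have h1 := hB.sep k l hkl
  rw [eq_ofReal hk, eq_ofReal hl, norm_ofReal_sub_ofReal] at h1
  have h2 := abs_lt.1 (re_close hB hne ht k)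
  have h3 := abs_lt.1 (re_close hB hne ht l)
  have h4 := abs_lt.1 (re_close hB hne' ht' k)
  have h5 := abs_lt.1 (re_close hB hne' ht' l)
  have hρ := hB.rho_pos
  rcases le_abs.1 h1 with h6 | h6 <;> linarith [h2.1, h2.2, h3.1, h3.2, h4.1, h4.2, h5.1, h5.2]

/-! ### the pairing on the complex side -/

section CSide

variable {tC : ℝ} {A B : Fin 4 → Fin 8} {kind : Fin 4 → Fin 3}

theorem inj_A (h : Function.Injective (Sum.elim A B)) {p q : Fin 4} (hpq : A p = A q) : p = q := by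
  have := @h (Sum.inl p) (Sum.inl q) hpq
  simpa using this

theorem inj_B (h : Function.Injective (Sum.elim A B)) {p q : Fin 4} (hpq : B p = B q) : p = q := by
  have := @h (Sum.inr p) (Sum.inr q) hpq
  simpa using this

theorem inj_AB (h : Function.Injective (Sum.elim A B)) (p q : Fin 4) : A p ≠ B q := by
  intro hpq
  have := @h (Sum.inl p) (Sum.inr q) hpq
  simp at this

theorem surj_AB (h : Function.Injective (Sum.elim A B)) (i : Fin 8) :
    (∃ p, A p = i) ∨ ∃ p, B p = i := by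
  have hb : Function.Bijective (Sum.elim A B) :=
    (Fintype.bijective_iff_injective_and_card _).2 ⟨h, by simp⟩
  obtain ⟨j, hj⟩ := hb.2 i
  rcases j with j | j
  · exact Or.inl ⟨j, hj⟩
  · exact Or.inr ⟨j, hj⟩

/-- the pair of the colliding labels on the complex side -/
theorem exists_p0 (hL : X.EvLim θs a b e σ η₀) (hB : Box X θs a b e η₀ s sg ρ δ)
    (ht : |tC - θs| < δ) (hs : sg * (tC - θs) < 0) (P : X.Pre tC A B kind) :
    ∃ p₀, kind p₀ = 2 ∧ ((A p₀ = a ∧ B p₀ = b) ∨ (A p₀ = b ∧ B p₀ = a)) := by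
  have hne : tC ≠ θs := by
    rintro rfl
    simp at hs
  have hreg := hB.reg tC hne ht
  have hab := cside_conj hL hB ht hs
  have hba : X.eta tC a = (starRingEnd ℂ) (X.eta tC b) := by rw [hab, Complex.conj_conj]
  have hk : ∀ p, (A p = a ∨ B p = a) → kind p = 2 := by
    intro p hp
    by_contra h2
    obtain ⟨h3, h4, _⟩ := P.real p h2
    rcases hp with hp | hp
    · rw [hp] at h3; exact cside_im hL hB ht hs (Or.inl rfl) h3
    · rw [hp] at h4; exact cside_im hL hB ht hs (Or.inl rfl) h4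
  rcases surj_AB P.inj a with ⟨p, hp⟩ | ⟨p, hp⟩
  · refine ⟨p, hk p (Or.inl hp), Or.inl ⟨hp, ?_⟩⟩
    have h1 := (P.cpx p (hk p (Or.inl hp))).2
    rw [hp, ← hab] at h1
    exact X.eta_injective hreg h1
  · refine ⟨p, hk p (Or.inr hp), Or.inr ⟨?_, hp⟩⟩
    have h1 := (P.cpx p (hk p (Or.inr hp))).2
    rw [hp] at h1
    have h2 : X.eta tC (A p) = X.eta tC b := by
      rw [hab, h1, Complex.conj_conj]
    exact X.eta_injective hreg h2

/-- labels of the pairs other than `p₀` do not collide -/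
theorem ne_ab {p₀ : Fin 4} (hinj : Function.Injective (Sum.elim A B))
    (h0 : (A p₀ = a ∧ B p₀ = b) ∨ (A p₀ = b ∧ B p₀ = a)) {p : Fin 4} (hp : p ≠ p₀) :
    (A p ≠ a ∧ A p ≠ b) ∧ (B p ≠ a ∧ B p ≠ b) := by
  rcases h0 with ⟨h1, h2⟩ | ⟨h1, h2⟩
  · refine ⟨⟨fun h => hp (inj_A hinj (h.trans h1.symm)), fun h => ?_⟩,
      fun h => ?_, fun h => hp (inj_B hinj (h.trans h2.symm))⟩
    · exact inj_AB hinj p p₀ (h.trans h2.symm)
    · exact inj_AB hinj p₀ p (h1.trans h.symm)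
  · refine ⟨⟨fun h => ?_, fun h => hp (inj_A hinj (h.trans h1.symm))⟩,
      fun h => hp (inj_B hinj (h.trans h2.symm)), fun h => ?_⟩
    · exact inj_AB hinj p p₀ (h.trans h2.symm)
    · exact inj_AB hinj p₀ p (h1.trans h.symm)

/-- complex pairs other than `p₀` stay complex pairs -/
theorem cpx_other (hL : X.EvLim θs a b e σ η₀) (hB : Box X θs a b e η₀ s sg ρ δ) {t t' : ℝ}
    (hne : t ≠ θs) (ht : |t - θs| < δ) (hne' : t' ≠ θs) (ht' : |t' - θs| < δ) {i j : Fin 8}
    (hi : i ≠ a ∧ i ≠ b) (hj : j ≠ a ∧ j ≠ b)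
    (h : 0 < (X.eta t i).im ∧ X.eta t j = (starRingEnd ℂ) (X.eta t i)) :
    0 < (X.eta t' i).im ∧ X.eta t' j = (starRingEnd ℂ) (X.eta t' i) :=
  ⟨im_pos_of_im_pos hL hB hne ht hne' ht' hi h.1,
    conj_near hL hB hne' ht' hj (conj_lim hL hB hne ht h.2)⟩

/-- real pairs other than `p₀` stay real pairs -/
theorem real_other (hL : X.EvLim θs a b e σ η₀) (hB : Box X θs a b e η₀ s sg ρ δ) {t t' : ℝ}
    (hne : t ≠ θs) (ht : |t - θs| < δ) (hne' : t' ≠ θs) (ht' : |t' - θs| < δ) {i j : Fin 8}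
    (hi : i ≠ a ∧ i ≠ b) (hj : j ≠ a ∧ j ≠ b)
    (h : (X.eta t i).im = 0 ∧ (X.eta t j).im = 0 ∧ (X.eta t i).re < (X.eta t j).re) :
    (X.eta t' i).im = 0 ∧ (X.eta t' j).im = 0 ∧ (X.eta t' i).re < (X.eta t' j).re := by
  have h1 := im_lim_zero hL hB hne ht h.1
  have h2 := im_lim_zero hL hB hne ht h.2.1
  exact ⟨im_zero_of_lim hL hB hne' ht' hi h1, im_zero_of_lim hL hB hne' ht' hj h2,
    order_same hL hB hne ht hne' ht' h1 h2 hj h.2.2⟩

end CSide

end EvClass

end Pool.Agent.Rohlin
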