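import Pool.Agent.Rohlin.Line
import Pool.Agent.Rohlin.RP2Top
import Pool.Agent.Rohlin.Steps

/-!
# Membership in the regions `K0`, `K1` along sets without zeros, and at one angle
-/

set_option autoImplicit false

namespace Pool.Agent.Rohlin

open Polynomial Complex Set Filter Topology

namespace EvClass

variable {f : MvPolynomial (Fin 3) ℝ} {K0 K1 : Set RP2}

/-- a closed set whose frontier is avoided by a preconnected set -/
theorem mem_iff_of_preconnected {α : Type*} [TopologicalSpace α] {g : α → RP2}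
    (hg : Continuous g) {K : Set RP2} (hK : IsClosed K) {S : Set α} (hS : IsPreconnected S)
    (hfr : ∀ p ∈ S, g p ∉ frontier K) {x y : α} (hx : x ∈ S) (hy : y ∈ S) :
    g x ∈ K ↔ g y ∈ K := by
  have key : ∀ x ∈ S, ∀ y ∈ S, g x ∈ K → g y ∈ K := by
    intro x hx y hy hxK
    by_contra hyK
    have h1 : IsOpen (g ⁻¹' interior K) := isOpen_interior.preimage hg
    have h2 : IsOpen (g ⁻¹' Kᶜ) := hK.isOpen_compl.preimage hg
    have hcov : S ⊆ g ⁻¹' interior K ∪ g ⁻¹' Kᶜ := by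
      intro p hp
      by_cases h : g p ∈ K
      · left
        by_contra hi
        exact hfr p hp (by rw [hK.frontier_eq]; exact ⟨h, hi⟩)
      · right; exact h
    have hxi : g x ∈ interior K := by
      rcases hcov hx with h | h
      · exact h
      · exact absurd hxK h
    obtain ⟨p, hp, hp1, hp2⟩ := hS _ _ h1 h2 hcov ⟨x, hx, hxi⟩ ⟨y, hy, hyK⟩
    exact hp2 (interior_subset hp1)
  exact ⟨key x hx y hy, key y hy x hx⟩

theorem not_frontier0 (hR : Regions f K0 K1) {θ η : ℝ} (h : (gr f θ).eval η ≠ 0) :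
    pt θ η ∉ frontier K0 := fun hf => h (hR.zero θ η (Or.inl hf))

theorem not_frontier1 (hR : Regions f K0 K1) {θ η : ℝ} (h : (gr f θ).eval η ≠ 0) :
    pt θ η ∉ frontier K1 := fun hf => h (hR.zero θ η (Or.inr hf))

/-- vertical segments without roots -/
theorem vert_iff {K : Set RP2} (hR : Regions f K0 K1) (hK : K = K0 ∨ K = K1)
    {θ x y : ℝ} (h : ∀ u ∈ uIcc x y, (gr f θ).eval u ≠ 0) : pt θ x ∈ K ↔ pt θ y ∈ K := by
  have hc : Continuous (fun u : ℝ => pt θ u) := continuous_pt.comp (by fun_prop : Continuous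
    (fun u : ℝ => (θ, u)))
  have hcl : IsClosed K := by
    rcases hK with rfl | rfl
    · exact hR.closed0
    · exact hR.closed1
  refine mem_iff_of_preconnected hc hcl isPreconnected_uIcc (fun u hu => ?_)
    left_mem_uIcc right_mem_uIcc
  rcases hK with rfl | rfl
  · exact not_frontier0 hR (h u hu)
  · exact not_frontier1 hR (h u hu)

/-- horizontal segments without roots -/
theorem horiz_iff {K : Set RP2} (hR : Regions f K0 K1) (hK : K = K0 ∨ K = K1)
    {θ θ' x : ℝ} (h : ∀ u ∈ uIcc θ θ', (gr f u).eval x ≠ 0) : pt θ x ∈ K ↔ pt θ' x ∈ K := by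
  have hc : Continuous (fun u : ℝ => pt u x) := continuous_pt.comp (by fun_prop : Continuous
    (fun u : ℝ => (u, x)))
  have hcl : IsClosed K := by
    rcases hK with rfl | rfl
    · exact hR.closed0
    · exact hR.closed1
  refine mem_iff_of_preconnected hc hcl isPreconnected_uIcc (fun u hu => ?_)
    left_mem_uIcc right_mem_uIcc
  rcases hK with rfl | rfl
  · exact not_frontier0 hR (h u hu)
  · exact not_frontier1 hR (h u hu)

theorem mem0_of_neg (hR : Regions f K0 K1) {θ η : ℝ} (h : (gr f θ).eval η < 0) :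
    pt θ η ∈ K0 := by
  by_contra hn
  exact absurd (hR.pos θ η hn) (not_lt.2 h.le)

theorem not_mem1_of_neg (hR : Regions f K0 K1) {θ η : ℝ} (h : (gr f θ).eval η < 0) :
    pt θ η ∉ K1 := by
  intro hn
  by_cases hi : pt θ η ∈ interior K1
  · exact absurd (hR.posi θ η hi) (not_lt.2 h.le)
  · have : pt θ η ∈ frontier K1 := by rw [hR.closed1.frontier_eq]; exact ⟨hn, hi⟩
    exact h.ne (hR.zero θ η (Or.inr this))

theorem mem1_of_pos (hR : Regions f K0 K1) {θ η : ℝ} (h : 0 < (gr f θ).eval η)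
    (hi : pt θ η ∈ interior K0) : pt θ η ∈ K1 := by
  by_contra hn
  exact absurd (hR.neg θ η hi hn) (not_lt.2 h.le)

/-- near a simple root there are points where the polynomial is negative -/
theorem exists_neg_near (p : ℝ[X]) {x : ℝ} (h0 : p.eval x = 0)
    (h1 : (derivative p).eval x ≠ 0) {V : Set ℝ} (hV : V ∈ 𝓝 x) : ∃ y ∈ V, p.eval y < 0 := by
  by_contra hcon
  push Not at hcon
  have hmin : IsLocalMin (fun y => p.eval y) x := by
    filter_upwards [hV] with y hy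
    rw [h0]
    exact hcon y hy
  exact h1 (hmin.hasDerivAt_eq_zero (p.hasDerivAt x))

theorem exists_pos_near (p : ℝ[X]) {x : ℝ} (h0 : p.eval x = 0)
    (h1 : (derivative p).eval x ≠ 0) {V : Set ℝ} (hV : V ∈ 𝓝 x) : ∃ y ∈ V, 0 < p.eval y := by
  obtain ⟨y, hy, hlt⟩ := exists_neg_near (-p) (by simp [h0]) (by simpa using h1) hV
  exact ⟨y, hy, by simpa using hlt⟩

/-- Membership in `K0`, `K1` is given by finitely many intervals as soon as this is true away from
the roots. -/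
theorem mem_of_nonroot (hR : Regions f K0 K1) {θ : ℝ} (hne : gr f θ ≠ 0)
    (hsimple : ∀ x, (gr f θ).eval x = 0 → (derivative (gr f θ)).eval x ≠ 0)
    {ι : Type} [Finite ι] (A B : ι → ℝ) (kind : ι → Fin 3)
    (hAB : ∀ p, kind p ≠ 2 → A p < B p)
    (h0 : ∀ x, (gr f θ).eval x ≠ 0 → (pt θ x ∈ K0 ↔ ∃ p, kind p = 0 ∧ A p ≤ x ∧ x ≤ B p))
    (h1 : ∀ x, (gr f θ).eval x ≠ 0 → (pt θ x ∈ K1 ↔ ∃ p, kind p = 1 ∧ A p ≤ x ∧ x ≤ B p)) :
    (∀ x, pt θ x ∈ K0 ↔ ∃ p, kind p = 0 ∧ A p ≤ x ∧ x ≤ B p) ∧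
      ∀ x, pt θ x ∈ K1 ↔ ∃ p, kind p = 1 ∧ A p ≤ x ∧ x ≤ B p := by
  have hc : Continuous (fun u : ℝ => pt θ u) := continuous_pt.comp (by fun_prop : Continuous
    (fun u : ℝ => (θ, u)))
  have hfin : {x : ℝ | (gr f θ).eval x = 0}.Finite := by
    refine ((gr f θ).roots.toFinset.finite_toSet).subset fun x hx => ?_
    simpa [hne] using hx
  have hdense : Dense {x : ℝ | (gr f θ).eval x ≠ 0} := by
    have := hfin.countable.dense_compl ℝ
    exact this
  -- the union of intervals is closed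
  have hUc : ∀ κ : Fin 3, IsClosed {x : ℝ | ∃ p, kind p = κ ∧ A p ≤ x ∧ x ≤ B p} := by
    intro κ
    have : {x : ℝ | ∃ p, kind p = κ ∧ A p ≤ x ∧ x ≤ B p} =
        ⋃ p : {p : ι // kind p = κ}, Icc (A p) (B p) := by
      ext x
      simp only [mem_ofPred_eq, mem_iUnion, mem_Icc, Subtype.exists, exists_prop]
    rw [this]
    exact isClosed_iUnion_of_finite fun p => isClosed_Icc
  -- intervals lie in `K`
  have hsub : ∀ (κ : Fin 3) (K : Set RP2), κ ≠ 2 → IsClosed K →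
      (∀ x, (gr f θ).eval x ≠ 0 → (pt θ x ∈ K ↔ ∃ p, kind p = κ ∧ A p ≤ x ∧ x ≤ B p)) →
      ∀ x, (∃ p, kind p = κ ∧ A p ≤ x ∧ x ≤ B p) → pt θ x ∈ K := by
    rintro κ K hκ hK hiff x ⟨p, hp, hx1, hx2⟩
    have hlt := hAB p (by rw [hp]; exact hκ)
    have h3 : x ∈ closure (Ioo (A p) (B p)) := by
      rw [closure_Ioo hlt.ne]; exact ⟨hx1, hx2⟩
    have h4 : Ioo (A p) (B p) ⊆ closure (Ioo (A p) (B p) ∩ {x : ℝ | (gr f θ).eval x ≠ 0}) :=
      hdense.open_subset_closure_inter isOpen_Ioo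
    have h5 : x ∈ closure (Ioo (A p) (B p) ∩ {x : ℝ | (gr f θ).eval x ≠ 0}) :=
      closure_minimal h4 isClosed_closure h3
    have h6 : closure (Ioo (A p) (B p) ∩ {x : ℝ | (gr f θ).eval x ≠ 0}) ⊆
        (fun u : ℝ => pt θ u) ⁻¹' K := by
      refine closure_minimal ?_ (hK.preimage hc)
      rintro y ⟨hy1, hy2⟩
      exact (hiff y hy2).2 ⟨p, hp, hy1.1.le, hy1.2.le⟩
    exact h6 h5
  refine ⟨fun x => ⟨fun hx => ?_, hsub 0 K0 (by decide) hR.closed0 h0 x⟩,
    fun x => ⟨fun hx => ?_, hsub 1 K1 (by decide) hR.closed1 h1 x⟩⟩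
  · by_cases hr : (gr f θ).eval x = 0
    · refine (hUc 0).closure_subset (mem_closure_iff_nhds.2 fun V hV => ?_)
      obtain ⟨y, hy, hlt⟩ := exists_neg_near _ hr (hsimple x hr) hV
      exact ⟨y, hy, (h0 y hlt.ne).1 (mem0_of_neg hR hlt)⟩
    · exact (h0 x hr).1 hx
  · by_cases hr : (gr f θ).eval x = 0
    · refine (hUc 1).closure_subset (mem_closure_iff_nhds.2 fun V hV => ?_)
      have hint : (fun u : ℝ => pt θ u) ⁻¹' interior K0 ∈ 𝓝 x :=
        (isOpen_interior.preimage hc).mem_nhds (hR.sub hx)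
      obtain ⟨y, hy, hlt⟩ := exists_pos_near _ hr (hsimple x hr) (inter_mem hV hint)
      exact ⟨y, hy.1, (h1 y hlt.ne').1 (mem1_of_pos hR hlt hy.2)⟩
    · exact (h1 x hr).1 hx

end EvClass

end Pool.Agent.Rohlin
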