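import Pool.Agent.Rohlin.EvLocal
import Pool.Agent.Rohlin.Pair0

/-!
# The labels on the two sides of an event
-/

set_option autoImplicit false

namespace Pool.Agent.Rohlin

open Polynomial Complex Set Filter Topology

namespace EvClass

theorem eval_map_ofReal (p : ℝ[X]) (x : ℝ) :
    (p.map (algebraMap ℝ ℂ)).eval (x : ℂ) = ((p.eval x : ℝ) : ℂ) := by
  have := Polynomial.eval_map_apply (f := algebraMap ℝ ℂ) (p := p) x
  simpa using this

theorem eval_map_conj (p : ℝ[X]) (x : ℂ) :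
    (p.map (algebraMap ℝ ℂ)).eval ((starRingEnd ℂ) x) =
      (starRingEnd ℂ) ((p.map (algebraMap ℝ ℂ)).eval x) := by
  rw [eval_map_algebraMap, eval_map_algebraMap, Polynomial.aeval_conj]

theorem continuous_gr_map_eval (f : MvPolynomial (Fin 3) ℝ) (x : ℂ) :
    Continuous fun t : ℝ => ((gr f t).map (algebraMap ℝ ℂ)).eval x := by
  have h : (fun t : ℝ => ((gr f t).map (algebraMap ℝ ℂ)).eval x) =
      fun t : ℝ => MvPolynomial.aeval ![(Real.cos t : ℂ), (Real.sin t : ℂ), x] f := by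
    funext t
    rw [Line.gr_map, Line.dir_eval]
  rw [h]
  refine (continuous_aeval f).comp (continuous_pi fun i => ?_)
  fin_cases i
  · exact Complex.continuous_ofReal.comp Real.continuous_cos
  · exact Complex.continuous_ofReal.comp Real.continuous_sin
  · exact continuous_const

variable {n : Type} [Fintype n] [DecidableEq n] {X : Ctx n} {θs : ℝ} {a b : Fin 8}
  {e σ : Fin 8 → ℂ} {η₀ : ℝ}

/-- the limits of the labels are the roots -/
theorem eval_eq_prod (hL : X.EvLim θs a b e σ η₀) (x : ℂ) :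
    ((gr X.f θs).map (algebraMap ℝ ℂ)).eval x = ∏ i, (x - e i) := by
  have h1 : Tendsto (fun t : ℝ => ((gr X.f t).map (algebraMap ℝ ℂ)).eval x) (𝓝[≠] θs)
      (𝓝 (((gr X.f θs).map (algebraMap ℝ ℂ)).eval x)) :=
    ((continuous_gr_map_eval X.f x).tendsto θs).mono_left nhdsWithin_le_nhds
  have h2 : Tendsto (fun t : ℝ => ∏ i, (x - X.eta t i)) (𝓝[≠] θs) (𝓝 (∏ i, (x - e i))) :=
    tendsto_finsetProd _ fun i _ => tendsto_const_nhds.sub (hL.eta_lim i)
  refine tendsto_nhds_unique h1 (h2.congr' ?_)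
  filter_upwards [hL.reg] with t ht
  rw [X.gr_map_eq_prod ht, Polynomial.eval_prod]
  exact Finset.prod_congr rfl fun i _ => by rw [eval_sub, eval_X, eval_C]

theorem exists_of_root (hL : X.EvLim θs a b e σ η₀) {x : ℂ}
    (hx : ((gr X.f θs).map (algebraMap ℝ ℂ)).eval x = 0) : ∃ i, e i = x := by
  rw [eval_eq_prod hL, Finset.prod_eq_zero_iff] at hx
  obtain ⟨i, _, hi⟩ := hx
  exact ⟨i, (sub_eq_zero.1 hi).symm⟩

theorem root_lim (hL : X.EvLim θs a b e σ η₀) (i : Fin 8) :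
    ((gr X.f θs).map (algebraMap ℝ ℂ)).eval (e i) = 0 := by
  rw [eval_eq_prod hL]
  exact Finset.prod_eq_zero (Finset.mem_univ i) (sub_self _)

theorem exists_conj_lim (hL : X.EvLim θs a b e σ η₀) (i : Fin 8) :
    ∃ j, e j = (starRingEnd ℂ) (e i) := by
  apply exists_of_root hL
  rw [eval_map_conj, root_lim hL, map_zero]

theorem root_eta0 (hL : X.EvLim θs a b e σ η₀) : (gr X.f θs).eval η₀ = 0 := by
  have h := root_lim hL a
  rw [hL.ea, eval_map_ofReal] at h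
  exact_mod_cast h

/-- the quantitative data near an event: `s` is the sign of the second derivative, `sg` the side
with two real roots -/
structure Box (X : Ctx n) (θs : ℝ) (a b : Fin 8) (e : Fin 8 → ℂ) (η₀ s sg ρ δ : ℝ) : Prop where
  rho_pos : 0 < ρ
  delta_pos : 0 < δ
  sg_val : sg = 1 ∨ sg = -1
  sep : ∀ i j, e i ≠ e j → 4 * ρ ≤ ‖e i - e j‖
  reg : ∀ t, t ≠ θs → |t - θs| < δ → X.Reg t
  close : ∀ t, t ≠ θs → |t - θs| < δ → ∀ i, ‖X.eta t i - e i‖ < ρ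
  cside : ∀ t x, |t - θs| < δ → |x - η₀| ≤ ρ → sg * (t - θs) < 0 → 0 < s * (gr X.f t).eval x
  rside : ∀ t, |t - θs| < δ → 0 < sg * (t - θs) → s * (gr X.f t).eval η₀ < 0
  ends : ∀ t, |t - θs| < δ → 0 < s * (gr X.f t).eval (η₀ - ρ) ∧ 0 < s * (gr X.f t).eval (η₀ + ρ)
  depth1 : pt θs η₀ ∈ X.K1 → ∀ t x, |t - θs| < δ → |x - η₀| ≤ ρ → pt t x ∈ interior X.K0
  depth0 : pt θs η₀ ∉ X.K1 → ∀ t x, |t - θs| < δ → |x - η₀| ≤ ρ → pt t x ∉ X.K1

theorem exists_sep_const (e : Fin 8 → ℂ) : ∃ ρ₀ : ℝ, 0 < ρ₀ ∧ ∀ ρ ≤ ρ₀, ∀ i j, e i ≠ e j →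
    4 * ρ ≤ ‖e i - e j‖ := by
  have h : ∀ i j : Fin 8, ∃ ρ₀ : ℝ, 0 < ρ₀ ∧ (e i ≠ e j → 4 * ρ₀ ≤ ‖e i - e j‖) := by
    intro i j
    by_cases hij : e i = e j
    · exact ⟨1, one_pos, fun h => absurd hij h⟩
    · refine ⟨‖e i - e j‖ / 4, ?_, fun _ => by linarith⟩
      have : 0 < ‖e i - e j‖ := norm_pos_iff.2 (sub_ne_zero.2 hij)
      linarith
  choose r hr0 hr using h
  obtain ⟨p, _, hp⟩ := Finset.exists_min_image (Finset.univ : Finset (Fin 8 × Fin 8))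
    (fun p => r p.1 p.2) ⟨(0, 0), Finset.mem_univ _⟩
  refine ⟨r p.1 p.2, hr0 _ _, fun ρ hρ i j hij => ?_⟩
  have h1 := hr i j hij
  have h2 := hp (i, j) (Finset.mem_univ _)
  simp only at h2
  linarith

theorem exists_Box (hL : X.EvLim θs a b e σ η₀) (hd : (derivative (gr X.f θs)).eval η₀ = 0)
    {s : ℝ} (hs : 0 < s * (derivative (derivative (gr X.f θs))).eval η₀) {ρmax : ℝ}
    (hρmax : 0 < ρmax) : ∃ sg ρ δ : ℝ, ρ ≤ ρmax ∧ Box X θs a b e η₀ s sg ρ δ := by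
  obtain ⟨sg, hsg, δ1, hδ1, hc, hr, hz⟩ := exists_box X.nf (root_eta0 hL) hd hs
  obtain ⟨ρ1, hρ1, hsep⟩ := exists_sep_const e
  -- the regions
  have hreg : ∃ δ2 : ℝ, 0 < δ2 ∧
      (pt θs η₀ ∈ X.K1 → ∀ t x, |t - θs| < δ2 → |x - η₀| < δ2 → pt t x ∈ interior X.K0) ∧
      (pt θs η₀ ∉ X.K1 → ∀ t x, |t - θs| < δ2 → |x - η₀| < δ2 → pt t x ∉ X.K1) := by
    by_cases hK : pt θs η₀ ∈ X.K1
    · have h1 : ∀ᶠ p : ℝ × ℝ in 𝓝 (θs, η₀), pt p.1 p.2 ∈ interior X.K0 :=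
        (continuous_pt.continuousAt (x := (θs, η₀))).eventually
          (isOpen_interior.mem_nhds (X.reg.sub hK))
      obtain ⟨δ2, hδ2, hb⟩ := Metric.eventually_nhds_iff.1 h1
      refine ⟨δ2, hδ2, fun _ t x ht hx => hb (y := (t, x)) ?_, fun h => absurd hK h⟩
      rw [Prod.dist_eq, max_lt_iff, Real.dist_eq, Real.dist_eq]
      exact ⟨ht, hx⟩
    · have h1 : ∀ᶠ p : ℝ × ℝ in 𝓝 (θs, η₀), pt p.1 p.2 ∈ X.K1ᶜ :=
        (continuous_pt.continuousAt (x := (θs, η₀))).eventually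
          (X.reg.closed1.isOpen_compl.mem_nhds hK)
      obtain ⟨δ2, hδ2, hb⟩ := Metric.eventually_nhds_iff.1 h1
      refine ⟨δ2, hδ2, fun h => absurd h hK, fun _ t x ht hx => hb (y := (t, x)) ?_⟩
      rw [Prod.dist_eq, max_lt_iff, Real.dist_eq, Real.dist_eq]
      exact ⟨ht, hx⟩
  obtain ⟨δ2, hδ2, hd1, hd0⟩ := hreg
  obtain ⟨ρ, hρ0, hρ⟩ : ∃ ρ : ℝ, 0 < ρ ∧ ρ < min (min δ1 ρ1) (min δ2 ρmax) :=
    exists_between (lt_min (lt_min hδ1 hρ1) (lt_min hδ2 hρmax))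
  have e1 : ρ < δ1 := lt_of_lt_of_le hρ (le_trans (min_le_left _ _) (min_le_left _ _))
  have e2 : ρ < ρ1 := lt_of_lt_of_le hρ (le_trans (min_le_left _ _) (min_le_right _ _))
  have e3 : ρ < δ2 := lt_of_lt_of_le hρ (le_trans (min_le_right _ _) (min_le_left _ _))
  have e4 : ρ < ρmax := lt_of_lt_of_le hρ (le_trans (min_le_right _ _) (min_le_right _ _))
  -- the labels
  have h3 : ∀ᶠ t in 𝓝[≠] θs, X.Reg t ∧ ∀ i, ‖X.eta t i - e i‖ < ρ := by
    refine hL.reg.and (eventually_all.2 fun i => ?_)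
    have h4 : Tendsto (fun t => ‖X.eta t i - e i‖) (𝓝[≠] θs) (𝓝 ‖e i - e i‖) :=
      ((hL.eta_lim i).sub_const _).norm
    rw [sub_self, norm_zero] at h4
    exact h4.eventually (gt_mem_nhds hρ0)
  rw [eventually_nhdsWithin_iff] at h3
  obtain ⟨δ3, hδ3, hb3⟩ := Metric.eventually_nhds_iff.1 h3
  -- the ends
  have h5 : ∀ y, y = η₀ - ρ ∨ y = η₀ + ρ → ∀ᶠ t in 𝓝 θs, 0 < s * (gr X.f t).eval y := by
    intro y hy
    have hcont : Continuous fun t : ℝ => s * (gr X.f t).eval y :=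
      continuous_const.mul ((continuous_gr_eval X.f).comp (by fun_prop : Continuous
        fun t : ℝ => (t, y)))
    refine hcont.continuousAt.eventually (lt_mem_nhds ?_)
    refine hz y ?_ ?_
    · rcases hy with rfl | rfl
      · rw [show η₀ - ρ - η₀ = -ρ by ring, abs_neg, abs_of_pos hρ0]; exact e1
      · rw [show η₀ + ρ - η₀ = ρ by ring, abs_of_pos hρ0]; exact e1
    · rcases hy with rfl | rfl <;> linarith
  obtain ⟨δ4, hδ4, hb4⟩ := Metric.eventually_nhds_iff.1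
    ((h5 _ (Or.inl rfl)).and (h5 _ (Or.inr rfl)))
  set δ := min (min δ1 δ2) (min δ3 δ4) with hδ
  have f1 : δ ≤ δ1 := le_trans (min_le_left _ _) (min_le_left _ _)
  have f2 : δ ≤ δ2 := le_trans (min_le_left _ _) (min_le_right _ _)
  have f3 : δ ≤ δ3 := le_trans (min_le_right _ _) (min_le_left _ _)
  have f4 : δ ≤ δ4 := le_trans (min_le_right _ _) (min_le_right _ _)
  refine ⟨sg, ρ, δ, e4.le, ⟨hρ0, lt_min (lt_min hδ1 hδ2) (lt_min hδ3 hδ4), hsg,
    fun i j hij => hsep ρ e2.le i j hij, ?_, ?_, ?_, ?_, ?_, ?_, ?_⟩⟩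
  · intro t hne ht
    exact (hb3 (by rw [Real.dist_eq]; exact lt_of_lt_of_le ht f3) hne).1
  · intro t hne ht
    exact (hb3 (by rw [Real.dist_eq]; exact lt_of_lt_of_le ht f3) hne).2
  · intro t x ht hx hlt
    exact hc t x (lt_of_lt_of_le ht f1) (lt_of_le_of_lt hx e1) hlt
  · intro t ht hlt
    exact hr t (lt_of_lt_of_le ht f1) hlt
  · intro t ht
    exact hb4 (by rw [Real.dist_eq]; exact lt_of_lt_of_le ht f4)
  · intro hK t x ht hx
    exact hd1 hK t x (lt_of_lt_of_le ht f2) (lt_of_le_of_lt hx e3)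
  · intro hK t x ht hx
    exact hd0 hK t x (lt_of_lt_of_le ht f2) (lt_of_le_of_lt hx e3)

/-! ### consequences -/

section

variable {s sg ρ δ : ℝ}

theorem Box.eq_of_lt (hB : Box X θs a b e η₀ s sg ρ δ) {i j : Fin 8}
    (h : ‖e i - e j‖ < 4 * ρ) : e i = e j := by
  by_contra hne
  exact absurd (hB.sep i j hne) (not_le.2 h)

/-- a label whose root at `t` is close to `e i` -/
theorem Box.eq_of_close (hB : Box X θs a b e η₀ s sg ρ δ) {t : ℝ} (hne : t ≠ θs)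
    (ht : |t - θs| < δ) {i k : Fin 8} (h : ‖X.eta t k - e i‖ < 3 * ρ) : e k = e i := by
  apply hB.eq_of_lt
  have h1 := hB.close t hne ht k
  calc ‖e k - e i‖ = ‖(X.eta t k - e i) - (X.eta t k - e k)‖ := by congr 1; ring
    _ ≤ ‖X.eta t k - e i‖ + ‖X.eta t k - e k‖ := norm_sub_le _ _
    _ < 3 * ρ + ρ := add_lt_add h h1
    _ = 4 * ρ := by ring

theorem eq_of_lim_eq (hL : X.EvLim θs a b e σ η₀) {i j : Fin 8} (hj : j ≠ a ∧ j ≠ b)
    (h : e i = e j) : i = j := by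
  rcases hL.inj i j h with h1 | h1 | h1
  · exact h1
  · exact absurd h1.2 hj.2
  · exact absurd h1.2 hj.1

theorem mem_of_lim_eq (hL : X.EvLim θs a b e σ η₀) {i : Fin 8} (h : e i = η₀) :
    i = a ∨ i = b := by
  rcases hL.inj i a (h.trans hL.ea.symm) with h1 | h1 | h1
  · exact Or.inl h1
  · exact Or.inl h1.1
  · exact Or.inr h1.1

/-- conjugate limits give conjugate roots -/
theorem conj_near (hL : X.EvLim θs a b e σ η₀) (hB : Box X θs a b e η₀ s sg ρ δ) {t : ℝ}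
    (hne : t ≠ θs) (ht : |t - θs| < δ) {i j : Fin 8} (hj : j ≠ a ∧ j ≠ b)
    (h : e j = (starRingEnd ℂ) (e i)) : X.eta t j = (starRingEnd ℂ) (X.eta t i) := by
  obtain ⟨k, hk⟩ := X.eta_conj (hB.reg t hne ht) i
  have h1 : ‖X.eta t k - e j‖ < 3 * ρ := by
    rw [hk, h, ← map_sub, Complex.norm_conj]
    have := hB.close t hne ht i
    have := hB.rho_pos
    linarith
  have h2 := eq_of_lim_eq hL hj (hB.eq_of_close hne ht h1)
  rw [← h2, hk]

/-- conjugate roots have conjugate limits -/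
theorem conj_lim (hL : X.EvLim θs a b e σ η₀) (hB : Box X θs a b e η₀ s sg ρ δ) {t : ℝ}
    (hne : t ≠ θs) (ht : |t - θs| < δ) {i j : Fin 8}
    (h : X.eta t j = (starRingEnd ℂ) (X.eta t i)) : e j = (starRingEnd ℂ) (e i) := by
  obtain ⟨k, hk⟩ := exists_conj_lim hL i
  rw [← hk]
  apply hB.eq_of_close hne ht
  rw [h, hk, ← map_sub, Complex.norm_conj]
  have := hB.close t hne ht i
  have := hB.rho_pos
  linarith

/-- a limit which is not real is far from the real line -/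
theorem im_lim_ge (hL : X.EvLim θs a b e σ η₀) (hB : Box X θs a b e η₀ s sg ρ δ) {i : Fin 8}
    (h : (e i).im ≠ 0) : 2 * ρ ≤ |(e i).im| := by
  obtain ⟨k, hk⟩ := exists_conj_lim hL i
  have h1 : e k ≠ e i := by
    rw [hk]
    intro h2
    exact h (Complex.conj_eq_iff_im.1 h2)
  have h2 := hB.sep k i h1
  rw [hk] at h2
  have h3 : (starRingEnd ℂ) (e i) - e i = ((-(2 * (e i).im) : ℝ) : ℂ) * I := by
    apply Complex.ext
    · simp
    · simp
      ring
  rw [h3, norm_mul, Complex.norm_I, mul_one, Complex.norm_real, Real.norm_eq_abs, abs_neg,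
    abs_mul, abs_of_pos (by norm_num : (0 : ℝ) < 2)] at h2
  linarith

theorem im_close (hB : Box X θs a b e η₀ s sg ρ δ) {t : ℝ} (hne : t ≠ θs)
    (ht : |t - θs| < δ) (i : Fin 8) : |(X.eta t i).im - (e i).im| < ρ := by
  have := Complex.abs_im_le_norm (X.eta t i - e i)
  rw [Complex.sub_im] at this
  exact lt_of_le_of_lt this (hB.close t hne ht i)

theorem re_close (hB : Box X θs a b e η₀ s sg ρ δ) {t : ℝ} (hne : t ≠ θs)
    (ht : |t - θs| < δ) (i : Fin 8) : |(X.eta t i).re - (e i).re| < ρ := by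
  have := Complex.abs_re_le_norm (X.eta t i - e i)
  rw [Complex.sub_re] at this
  exact lt_of_le_of_lt this (hB.close t hne ht i)

/-- a real root has a real limit -/
theorem im_lim_zero (hL : X.EvLim θs a b e σ η₀) (hB : Box X θs a b e η₀ s sg ρ δ) {t : ℝ}
    (hne : t ≠ θs) (ht : |t - θs| < δ) {i : Fin 8} (h : (X.eta t i).im = 0) : (e i).im = 0 := by
  by_contra h1
  have h2 := im_lim_ge hL hB h1
  have h3 := im_close hB hne ht i
  rw [h, zero_sub, abs_neg] at h3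
  have := hB.rho_pos
  linarith

/-- a real limit of a label which does not collide gives real roots -/
theorem im_zero_of_lim (hL : X.EvLim θs a b e σ η₀) (hB : Box X θs a b e η₀ s sg ρ δ) {t : ℝ}
    (hne : t ≠ θs) (ht : |t - θs| < δ) {i : Fin 8} (hi : i ≠ a ∧ i ≠ b) (h : (e i).im = 0) :
    (X.eta t i).im = 0 := by
  have h1 := conj_near hL hB hne ht (i := i) (j := i) hi (Complex.conj_eq_iff_im.2 h).symm
  exact Complex.conj_eq_iff_im.1 h1.symm

/-- the sign of the imaginary part is the same on both sides -/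
theorem im_pos_of_im_pos (hL : X.EvLim θs a b e σ η₀) (hB : Box X θs a b e η₀ s sg ρ δ)
    {t t' : ℝ} (hne : t ≠ θs) (ht : |t - θs| < δ) (hne' : t' ≠ θs) (ht' : |t' - θs| < δ)
    {i : Fin 8} (hi : i ≠ a ∧ i ≠ b) (h : 0 < (X.eta t i).im) : 0 < (X.eta t' i).im := by
  have h0 : (e i).im ≠ 0 := fun h0 => h.ne' (im_zero_of_lim hL hB hne ht hi h0)
  have h1 := im_lim_ge hL hB h0
  have h2 := abs_lt.1 (im_close hB hne ht i)
  have h3 := abs_lt.1 (im_close hB hne' ht' i)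
  have h4 := hB.rho_pos
  rcases lt_or_gt_of_ne h0 with h5 | h5
  · rw [abs_of_neg h5] at h1
    linarith [h2.1, h2.2]
  · rw [abs_of_pos h5] at h1
    linarith [h3.1, h3.2]

/-! ### the colliding labels -/

theorem close_eta0 (hL : X.EvLim θs a b e σ η₀) (hB : Box X θs a b e η₀ s sg ρ δ) {t : ℝ}
    (hne : t ≠ θs) (ht : |t - θs| < δ) {i : Fin 8} (hi : i = a ∨ i = b) :
    ‖X.eta t i - η₀‖ < ρ := by
  have h := hB.close t hne ht i
  rcases hi with rfl | rfl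
  · rwa [hL.ea] at h
  · rwa [hL.eb] at h

theorem mem_of_close (hL : X.EvLim θs a b e σ η₀) (hB : Box X θs a b e η₀ s sg ρ δ) {t : ℝ}
    (hne : t ≠ θs) (ht : |t - θs| < δ) {i : Fin 8} (h : ‖X.eta t i - η₀‖ < 3 * ρ) :
    i = a ∨ i = b := by
  apply mem_of_lim_eq hL
  rw [← hL.ea]
  apply hB.eq_of_close hne ht
  rwa [hL.ea]

theorem cside_im (hL : X.EvLim θs a b e σ η₀) (hB : Box X θs a b e η₀ s sg ρ δ) {t : ℝ}
    (ht : |t - θs| < δ) (hs : sg * (t - θs) < 0) {i : Fin 8} (hi : i = a ∨ i = b) :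
    (X.eta t i).im ≠ 0 := by
  have hne : t ≠ θs := by
    rintro rfl
    simp at hs
  intro h0
  have h1 := close_eta0 hL hB hne ht hi
  have h2 : X.eta t i = (((X.eta t i).re : ℝ) : ℂ) := Complex.ext rfl (by simpa using h0)
  rw [h2, ← Complex.ofReal_sub, Complex.norm_real, Real.norm_eq_abs] at h1
  have h3 := hB.cside t _ ht h1.le hs
  have h4 := Ctx.gr_eval_re X (hB.reg t hne ht) h0
  rw [h4, mul_zero] at h3
  exact lt_irrefl _ h3

theorem cside_conj (hL : X.EvLim θs a b e σ η₀) (hB : Box X θs a b e η₀ s sg ρ δ) {t : ℝ}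
    (ht : |t - θs| < δ) (hs : sg * (t - θs) < 0) :
    X.eta t b = (starRingEnd ℂ) (X.eta t a) := by
  have hne : t ≠ θs := by
    rintro rfl
    simp at hs
  obtain ⟨k, hk⟩ := X.eta_conj (hB.reg t hne ht) a
  have h1 : ‖X.eta t k - η₀‖ < 3 * ρ := by
    have e1 : X.eta t k - η₀ = (starRingEnd ℂ) (X.eta t a - η₀) := by
      rw [hk, map_sub, Complex.conj_ofReal]
    rw [e1, Complex.norm_conj]
    have := close_eta0 hL hB hne ht (i := a) (Or.inl rfl)
    have := hB.rho_pos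
    linarith
  rcases mem_of_close hL hB hne ht h1 with h2 | h2
  · exfalso
    rw [h2] at hk
    exact cside_im hL hB ht hs (Or.inl rfl) (Complex.conj_eq_iff_im.1 hk.symm)
  · rw [← h2, hk]

/-- on the real side there are two real roots, on the two sides of the double root -/
theorem rside_roots (hL : X.EvLim θs a b e σ η₀) (hB : Box X θs a b e η₀ s sg ρ δ) {t : ℝ}
    (ht : |t - θs| < δ) (hs : 0 < sg * (t - θs)) :
    ∃ (lo hi : Fin 8) (x₁ x₂ : ℝ), ((lo = a ∧ hi = b) ∨ (lo = b ∧ hi = a)) ∧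
      X.eta t lo = x₁ ∧ X.eta t hi = x₂ ∧ η₀ - ρ < x₁ ∧ x₁ < η₀ ∧ η₀ < x₂ ∧ x₂ < η₀ + ρ := by
  have hne : t ≠ θs := by
    rintro rfl
    simp at hs
  have hreg := hB.reg t hne ht
  have hρ := hB.rho_pos
  have hmid := hB.rside t ht hs
  obtain ⟨hl, hr⟩ := hB.ends t ht
  have hc : Continuous fun x => s * (gr X.f t).eval x := continuous_const.mul (gr X.f t).continuous
  obtain ⟨x₁, hx₁, hz₁⟩ := intermediate_value_Icc' (by linarith : η₀ - ρ ≤ η₀) hc.continuousOn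
    ⟨hmid.le, hl.le⟩
  obtain ⟨x₂, hx₂, hz₂⟩ := intermediate_value_Icc (by linarith : η₀ ≤ η₀ + ρ) hc.continuousOn
    ⟨hmid.le, hr.le⟩
  simp only at hz₁ hz₂
  have hs0 : s ≠ 0 := by
    rintro rfl
    simp at hl
  have e1 : x₁ ≠ η₀ := fun h => by rw [h] at hz₁; exact hmid.ne hz₁
  have e2 : x₂ ≠ η₀ := fun h => by rw [h] at hz₂; exact hmid.ne hz₂
  have e3 : x₁ ≠ η₀ - ρ := fun h => by rw [h] at hz₁; exact hl.ne' hz₁
  have e4 : x₂ ≠ η₀ + ρ := fun h => by rw [h] at hz₂; exact hr.ne' hz₂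
  have f1 : x₁ < η₀ := lt_of_le_of_ne hx₁.2 e1
  have f2 : η₀ < x₂ := lt_of_le_of_ne hx₂.1 (Ne.symm e2)
  have f3 : η₀ - ρ < x₁ := lt_of_le_of_ne hx₁.1 (Ne.symm e3)
  have f4 : x₂ < η₀ + ρ := lt_of_le_of_ne hx₂.2 e4
  obtain ⟨lo, hlo⟩ := Ctx.exists_eta_of_root X hreg ((mul_eq_zero.1 hz₁).resolve_left hs0)
  obtain ⟨hi, hhi⟩ := Ctx.exists_eta_of_root X hreg ((mul_eq_zero.1 hz₂).resolve_left hs0)
  have g1 : lo = a ∨ lo = b := by
    apply mem_of_close hL hB hne ht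
    rw [hlo, ← Complex.ofReal_sub, Complex.norm_real, Real.norm_eq_abs, abs_lt]
    constructor <;> linarith
  have g2 : hi = a ∨ hi = b := by
    apply mem_of_close hL hB hne ht
    rw [hhi, ← Complex.ofReal_sub, Complex.norm_real, Real.norm_eq_abs, abs_lt]
    constructor <;> linarith
  have g3 : lo ≠ hi := by
    rintro rfl
    rw [hlo] at hhi
    have : x₁ = x₂ := by exact_mod_cast hhi
    linarith
  refine ⟨lo, hi, x₁, x₂, ?_, hlo, hhi, f3, f1, f2, f4⟩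
  rcases g1 with rfl | rfl <;> rcases g2 with rfl | rfl
  · exact absurd rfl g3
  · exact Or.inl ⟨rfl, rfl⟩
  · exact Or.inr ⟨rfl, rfl⟩
  · exact absurd rfl g3

end

end EvClass

end Pool.Agent.Rohlin
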