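import Pool.Agent.Rohlin.EvDefs
import Pool.Agent.Rohlin.EvAlg

/-!
# Events: the square of the functional on a matching state near a real branch point
-/

set_option autoImplicit false

namespace Pool.Agent.Rohlin

open Polynomial Complex Set Matrix Filter Topology Metric

theorem tendsto_det {F : Filter ℂ} (E : ℂ → Matrix (Fin 4) (Fin 4) ℂ) (W : ℂ → ℂ) (p₀ : Fin 4)
    (N : Matrix (Fin 4) (Fin 4) ℂ) (h : ∀ p, p ≠ p₀ → ∀ j, Tendsto (fun w => E w p j) F (𝓝 (N p j)))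
    (h0 : ∀ j, Tendsto (fun w => W w * E w p₀ j) F (𝓝 (N p₀ j))) :
    Tendsto (fun w => W w * (E w).det) F (𝓝 N.det) := by
  have h1 : ∀ w, W w * (E w).det =
      (Matrix.of fun p j => (if p = p₀ then W w else 1) * E w p j).det := by
    intro w
    rw [Matrix.det_mul_column]
    congr 1
    rw [Finset.prod_ite_eq' Finset.univ p₀ fun _ => W w, if_pos (Finset.mem_univ _)]
  simp_rw [h1]
  have h2 : Tendsto (fun w => (Matrix.of fun p j => (if p = p₀ then W w else 1) * E w p j :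
      Matrix (Fin 4) (Fin 4) ℂ)) F (𝓝 N) := by
    refine tendsto_pi_nhds.2 fun p => tendsto_pi_nhds.2 fun j => ?_
    by_cases hp : p = p₀
    · subst hp
      simpa using h0 j
    · simpa [hp] using h p hp j
  exact ((continuous_id.matrix_det (R := ℂ) (n := Fin 4)).tendsto N).comp h2

/-- symmetric difference quotient -/
theorem tendsto_symm_quot {Q : ℂ → ℂ} {Q' : ℂ} (h : HasDerivAt Q Q' 0) :
    Tendsto (fun t => (Q t - Q (-t)) / t) (𝓝[≠] 0) (𝓝 (2 * Q')) := by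
  have h1 : HasDerivAt (fun t => Q t - Q (-t)) (2 * Q') 0 := by
    have h2 : HasDerivAt (fun t : ℂ => Q (-t)) (-Q') 0 := by
      have h3 : HasDerivAt (fun t : ℂ => -t) (-1) 0 := hasDerivAt_neg' (0 : ℂ)
      have h4 : HasDerivAt Q Q' (-(0 : ℂ)) := by rw [neg_zero]; exact h
      have := h4.comp (0 : ℂ) h3
      rw [mul_neg, mul_one] at this
      exact this
    have h5 := h.sub h2
    rw [show Q' - -Q' = 2 * Q' by ring] at h5
    exact h5
  rw [hasDerivAt_iff_tendsto_slope] at h1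
  refine h1.congr fun t => ?_
  rw [slope_def_field]
  simp

namespace Ctx

variable {n : Type} [Fintype n] [DecidableEq n] (X : Ctx n)

theorem D_subset_Kset {r : ℂ} (hr : r ∈ X.Z) : X.D ⊆ Phase.Kset r := by
  intro w hw
  refine ⟨by simpa using hw.2, ?_⟩
  intro h
  rw [mem_singleton_iff] at h
  exact hw.1 r hr 0 le_rfl (by rw [h]; simp)

theorem exists_ball_subset {r : ℂ} (hr : r ∈ X.Z) (hr1 : ‖r‖ = 1) :
    ∃ ε : ℝ, 0 < ε ∧ Phase.Kset r ∩ ball r ε ⊆ X.D := by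
  have h1 : r ∈ Star X.c (X.Z.erase r) := by
    intro z hz t ht
    obtain ⟨hz1, hz2⟩ := Finset.mem_erase.mp hz
    rcases ht.eq_or_lt with h0 | h0
    · rw [← h0]
      simpa using Ne.symm hz1
    · exact X.cgen z hz2 r hr t h0
  have h2 : IsOpen (Star X.c (X.Z.erase r)) :=
    isOpen_Star (fun h => X.cZ (Finset.mem_of_mem_erase h))
  obtain ⟨ε, hε, h3⟩ := Metric.isOpen_iff.mp h2 r h1
  refine ⟨ε, hε, fun w hw => ⟨?_, by simpa using hw.1.1⟩⟩
  intro z hz t ht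
  by_cases hzr : z = r
  · subst hzr
    intro heq
    have h4 := Phase.lcoord_mem_slitPlane X.hc hr1 hw.1
    have h5 : Phase.lcoord X.c z w = ((-t : ℝ) : ℂ) := by
      have hcz : X.c - z ≠ 0 := by
        intro h
        exact X.cZ ((sub_eq_zero.mp h) ▸ hr)
      rw [Phase.lcoord, heq]
      push_cast
      field_simp
      ring
    rw [h5, Complex.mem_slitPlane_iff] at h4
    rcases h4 with h4 | h4
    · rw [ofReal_re] at h4
      linarith
    · exact h4 (ofReal_im _)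
  · exact h3 hw.2 z (Finset.mem_erase.mpr ⟨hzr, hz⟩) t ht

theorem nhds_D {r : ℂ} (hr : r ∈ X.Z) (hr1 : ‖r‖ = 1) : 𝓝[X.D] r = 𝓝[Phase.Kset r] r := by
  obtain ⟨ε, hε, h⟩ := X.exists_ball_subset hr hr1
  apply le_antisymm
  · exact nhdsWithin_mono _ (X.D_subset_Kset hr)
  · rw [← nhdsWithin_inter_of_mem' (mem_nhdsWithin_of_mem_nhds (ball_mem_nhds r hε))]
    exact nhdsWithin_mono _ h

/-- the rows of a pairing at a point of the disc -/
noncomputable def rowsW (A B : Fin 4 → Fin 8) (z : Fin 4 → ℂ) (w : ℂ) : Matrix (Fin 4) (Fin 4) ℂ :=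
  fun p j => X.y (A p) w ^ (j : ℕ) / X.s (A p) w - I * z p * (X.y (B p) w ^ (j : ℕ) / X.s (B p) w)

/-- the rows of a pairing at an angle -/
noncomputable def rowsR (A B : Fin 4 → Fin 8) (z : Fin 4 → ℂ) (θ : ℝ) : Matrix (Fin 4) (Fin 4) ℂ :=
  fun p j => X.eta θ (A p) ^ (j : ℕ) / X.sig θ (A p) -
    I * z p * (X.eta θ (B p) ^ (j : ℕ) / X.sig θ (B p))

theorem pairVec_dot {m : ℕ} (a b : Fin m) (η : ℂ) (v : Fin m → ℂ) :
    pairVec a b η ⬝ᵥ v = v a - I * η * v b := by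
  unfold pairVec
  rw [sub_dotProduct, smul_dotProduct, single_one_dotProduct, single_one_dotProduct, smul_eq_mul]

theorem ev_hC (a : Fin 8) : X.C * X.M.e a = (-1 : ℂ) ^ 4 • ((X.M.e a)ᵀ * X.C) := by
  rw [X.hC]; norm_num

theorem ev_hCT : X.Cᵀ = (-1 : ℂ) ^ (4 * (4 + 1) / 2) • X.C := by
  rw [X.hCT]; norm_num

/-- the constant of a matching state -/
theorem exists_kappa {A B : Fin 4 → Fin 8} (hinj : Function.Injective (Sum.elim A B))
    {z : Fin 4 → ℂ} (hz : ∀ p, z p = 1 ∨ z p = -1) {ψ : n → ℂ}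
    (hψ : X.proj A B z = vecMulVec ψ (star ψ)) :
    ∃ κ : ℂ, κ ≠ 0 ∧ ∀ v : Fin 4 → Fin 8 → ℂ, ψ ⬝ᵥ ((X.C * X.M.R v) *ᵥ ψ) =
      κ * (Matrix.of fun p j => v j (A p) - I * z p * v j (B p)).det := by
  obtain ⟨κ, hκ, h⟩ := Majorana.exists_kappa X.M A B hinj z hz X.card X.C X.hCC X.ev_hC X.ev_hCT ψ hψ
  refine ⟨κ, hκ, fun v => ?_⟩
  rw [h v]
  congr 2
  ext p j
  simp only [Matrix.of_apply, pairFam]
  rw [pairVec_dot]

omit [DecidableEq n] in
theorem sq_dot (l ψ : n → ℂ) : (l ⬝ᵥ ψ) ^ 2 = ψ ⬝ᵥ (vecMulVec l l *ᵥ ψ) := by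
  rw [Matrix.vecMulVec_mulVec, dotProduct_smul, op_smul_eq_mul, dotProduct_comm ψ l, pow_two]

/-- **the square of the functional, in the disc and on the circle** -/
theorem exists_kappa_sq {A B : Fin 4 → Fin 8} (hinj : Function.Injective (Sum.elim A B))
    {z : Fin 4 → ℂ} (hz : ∀ p, z p = 1 ∨ z p = -1) {ψ : n → ℂ}
    (hψ : X.proj A B z = vecMulVec ψ (star ψ)) :
    ∃ κ : ℂ, κ ≠ 0 ∧ (∀ v : Fin 4 → Fin 8 → ℂ, ψ ⬝ᵥ ((X.C * X.M.R v) *ᵥ ψ) =
      κ * (Matrix.of fun p j => v j (A p) - I * z p * v j (B p)).det) ∧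
      (∀ w ∈ X.D, (X.l w ⬝ᵥ ψ) ^ 2 = κ * (X.rowsW A B z w).det) ∧
      ∀ θ, X.Reg θ → (X.lr θ ⬝ᵥ ψ) ^ 2 = κ * (X.rowsR A B z θ).det := by
  obtain ⟨κ, hκ, h⟩ := X.exists_kappa hinj hz hψ
  refine ⟨κ, hκ, h, fun w hw => ?_, fun θ hθ => ?_⟩
  · rw [sq_dot, ← X.l_sq w hw.1 hw.2, h]
    rfl
  · rw [sq_dot, ← X.lr_sq hθ, h]
    rfl

end Ctx

end Pool.Agent.Rohlin
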