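import Pool.Agent.Rohlin.Line
import Pool.Agent.Rohlin.RealGauge

/-!
# A uniform formula for the sign of a pair

`I * ζ = Om / ‖Om‖` with `Om = σ_a σ_b / (η_b - η_a)`, for all kinds of pairs.
-/

set_option autoImplicit false

namespace Pool.Agent.Rohlin

open Polynomial Complex Set Matrix Filter Topology

/-- the phase of a complex number -/
noncomputable def ph (z : ℂ) : ℂ := z / (‖z‖ : ℂ)

theorem ph_real_mul {r : ℝ} (hr : 0 < r) (z : ℂ) : ph ((r : ℂ) * z) = ph z := by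
  unfold ph
  rw [norm_mul, Complex.norm_real, Real.norm_of_nonneg hr.le, ofReal_mul]
  have h : (r : ℂ) ≠ 0 := by exact_mod_cast hr.ne'
  rw [mul_div_mul_left _ _ h]

theorem ph_mul_real {r : ℝ} (hr : 0 < r) (z : ℂ) : ph (z * (r : ℂ)) = ph z := by
  rw [mul_comm, ph_real_mul hr]

theorem ph_div_real {r : ℝ} (hr : 0 < r) (z : ℂ) : ph (z / (r : ℂ)) = ph z := by
  rw [div_eq_mul_inv, ← ofReal_inv, ph_mul_real (inv_pos.mpr hr)]

theorem ph_neg (z : ℂ) : ph (-z) = -ph z := by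
  unfold ph
  rw [norm_neg, neg_div]

theorem ph_mul (z w : ℂ) : ph (z * w) = ph z * ph w := by
  unfold ph
  rw [norm_mul, ofReal_mul, mul_div_mul_comm]

theorem norm_ph {z : ℂ} (hz : z ≠ 0) : ‖ph z‖ = 1 := by
  unfold ph
  rw [norm_div, Complex.norm_real, norm_norm, div_self (norm_pos_iff.mpr hz).ne']

theorem ph_of_norm_one {z : ℂ} (hz : ‖z‖ = 1) : ph z = z := by
  unfold ph
  rw [hz]; simp

theorem ph_of_pos {r : ℝ} (hr : 0 < r) : ph (r : ℂ) = 1 := by
  have := ph_real_mul hr 1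
  rw [mul_one] at this
  rw [this]
  simp [ph]

theorem tendsto_ph {α : Type*} {F : Filter α} {g : α → ℂ} {L : ℂ} (hL : L ≠ 0)
    (h : Tendsto g F (𝓝 L)) : Tendsto (fun a => ph (g a)) F (𝓝 (ph L)) := by
  unfold ph
  refine h.div ?_ (by exact_mod_cast (norm_pos_iff.mpr hL).ne')
  exact (Complex.continuous_ofReal.tendsto _).comp h.norm

namespace Ctx

variable {n : Type} [Fintype n] [DecidableEq n] (X : Ctx n)

/-- the basic ratio of two labels -/
noncomputable def Om (θ : ℝ) (i j : Fin 8) : ℂ :=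
  X.sig θ i * X.sig θ j / (X.eta θ j - X.eta θ i)

theorem Om_swap (θ : ℝ) (i j : Fin 8) : X.Om θ j i = -X.Om θ i j := by
  unfold Om
  rw [← neg_sub (X.eta θ j) (X.eta θ i), div_neg, mul_comm (X.sig θ j)]

theorem Om_ne_zero {θ : ℝ} (h : circ θ ∈ Star X.c X.Z) {i j : Fin 8} (hij : i ≠ j) :
    X.Om θ i j ≠ 0 := by
  unfold Om
  refine div_ne_zero (mul_ne_zero (X.sig_ne_zero h i) (X.sig_ne_zero h j)) ?_
  rw [sub_ne_zero]
  intro h1
  exact hij (X.eta_injective h h1.symm)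

variable {X}

/-- the uniform formula at a real pair -/
theorem I_zeta_real {θ : ℝ} {i j : Fin 8} (hi : (X.eta θ i).im = 0) (hj : (X.eta θ j).im = 0)
    (hlt : (X.eta θ i).re < (X.eta θ j).re) :
    ph (X.Om θ i j) = I * (-I * (X.sig θ i * X.sig θ j) / ‖X.sig θ i * X.sig θ j‖) := by
  have h1 : X.eta θ j - X.eta θ i = (((X.eta θ j).re - (X.eta θ i).re : ℝ) : ℂ) := by
    apply Complex.ext
    · simp
    · simp [hi, hj]
  rw [Om, h1, ph_div_real (by linarith)]
  unfold ph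
  linear_combination (X.sig θ i * X.sig θ j / ‖X.sig θ i * X.sig θ j‖) * I_mul_I

/-- the uniform formula -/
theorem Pairing.I_zeta {θ : ℝ} {A B : Fin 4 → Fin 8} {kind : Fin 4 → Fin 3} {ζ : Fin 4 → ℂ}
    (h : X.Pairing θ A B kind ζ) (p : Fin 4) : I * ζ p = ph (X.Om θ (A p) (B p)) := by
  have hz : ζ p * ζ p = 1 := by
    rcases h.zeta_sq p with h4 | h4 <;> rw [h4] <;> norm_num
  have hz0 : ζ p ≠ 0 := by
    rcases h.zeta_sq p with h4 | h4 <;> rw [h4] <;> norm_num
  by_cases hp : kind p = 2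
  · obtain ⟨h1, h2⟩ := h.cpx p hp
    have h3 := h.zeta p
    unfold Ctx.zeta at h3
    rw [if_pos hp] at h3
    have hb : X.sig θ (B p) ≠ 0 := by
      intro h0
      rw [h0, div_zero] at h3
      exact hz0 h3
    have ha : X.sig θ (A p) ≠ 0 := by
      intro h0
      rw [h0, map_zero, zero_div] at h3
      exact hz0 h3
    have h5 : X.sig θ (B p) = ζ p * (starRingEnd ℂ) (X.sig θ (A p)) := by
      have : (starRingEnd ℂ) (X.sig θ (A p)) = ζ p * X.sig θ (B p) := by
        rw [h3]; field_simp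
      rw [this, ← mul_assoc, hz, one_mul]
    have h6 : X.Om θ (A p) (B p) =
        ((‖X.sig θ (A p)‖ ^ 2 / (2 * (X.eta θ (A p)).im) : ℝ) : ℂ) * (I * ζ p) := by
      have h7 : X.eta θ (B p) - X.eta θ (A p) = -(2 * (X.eta θ (A p)).im * I) := by
        rw [h2]
        apply Complex.ext
        · simp
        · simp; ring
      have h8 : X.sig θ (A p) * (starRingEnd ℂ) (X.sig θ (A p)) = ((‖X.sig θ (A p)‖ ^ 2 : ℝ) : ℂ) := by
        rw [Complex.mul_conj, Complex.normSq_eq_norm_sq]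
      have him : ((X.eta θ (A p)).im : ℂ) ≠ 0 := by exact_mod_cast h1.ne'
      rw [Om, h7, h5]
      have h9 : X.sig θ (A p) * (ζ p * (starRingEnd ℂ) (X.sig θ (A p))) =
          ζ p * ((‖X.sig θ (A p)‖ ^ 2 : ℝ) : ℂ) := by
        rw [← h8]; ring
      rw [h9, div_eq_iff (by
        rw [neg_ne_zero]
        exact mul_ne_zero (mul_ne_zero two_ne_zero him) I_ne_zero)]
      push_cast
      field_simp
      linear_combination ((‖X.sig θ (A p)‖ : ℂ) ^ 2) * I_sq
    rw [h6, ph_real_mul (div_pos (pow_pos (norm_pos_iff.mpr ha) 2) (by linarith)), ph_mul,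
      ph_of_norm_one (by simp), ph_of_norm_one (by
        rcases h.zeta_sq p with h4 | h4 <;> rw [h4] <;> simp)]
  · obtain ⟨h1, h2, h3⟩ := h.real p hp
    rw [I_zeta_real h1 h2 h3, h.zeta p]
    unfold Ctx.zeta
    rw [if_neg hp]

theorem Pairing.ne {θ : ℝ} {A B : Fin 4 → Fin 8} {kind : Fin 4 → Fin 3} {ζ : Fin 4 → ℂ}
    (h : X.Pairing θ A B kind ζ) (p : Fin 4) : A p ≠ B p := by
  intro hab
  have := @h.inj (Sum.inl p) (Sum.inr p) hab
  simp at this

/-- Two phases `± I` close to a common limit are equal. -/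
theorem eq_of_near {u v L : ℂ} (hu : u = I ∨ u = -I) (hv : v = I ∨ v = -I) (h1 : ‖u - L‖ < 1)
    (h2 : ‖v - L‖ < 1) : u = v := by
  have h3 : ‖u - v‖ < 2 := by
    have : u - v = (u - L) - (v - L) := by ring
    rw [this]
    exact lt_of_le_of_lt (norm_sub_le _ _) (by linarith)
  rcases hu with rfl | rfl <;> rcases hv with rfl | rfl
  · rfl
  · exfalso
    rw [show I - -I = 2 * I by ring, norm_mul, norm_I, mul_one] at h3
    norm_num at h3
  · exfalso
    rw [show -I - I = -(2 * I) by ring, norm_neg, norm_mul, norm_I, mul_one] at h3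
    norm_num at h3
  · rfl

theorem Pairing.ph_cases {θ : ℝ} {A B : Fin 4 → Fin 8} {kind : Fin 4 → Fin 3} {ζ : Fin 4 → ℂ}
    (h : X.Pairing θ A B kind ζ) (p : Fin 4) :
    ph (X.Om θ (A p) (B p)) = I ∨ ph (X.Om θ (A p) (B p)) = -I := by
  rw [← h.I_zeta p]
  rcases h.zeta_sq p with h4 | h4 <;> rw [h4]
  · left; ring
  · right; ring

end Ctx

end Pool.Agent.Rohlin
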