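import Mathlib

/-!
# Trace expansion over the even subgraphs (abstract part of the Rohlin project)

A family of Majorana operators `e a` (anticommuting involutions), a word of factors
`1 + u e_a e_b` with `u ^ 4 = 1`.  The trace is the sum over the even subgraphs of the
corresponding graph of fourth roots of unity, the empty subgraph contributing `1`.
-/

namespace Pool.Agent.Rohlin

open Matrix

/-- A family of `m` anticommuting involutions. -/
structure Majorana (m : ℕ) (n : Type) [Fintype n] [DecidableEq n] where
  /-- the operators -/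
  e : Fin m → Matrix n n ℂ
  sq : ∀ a, e a * e a = 1
  anti : ∀ a b, a ≠ b → e a * e b = -(e b * e a)

namespace Majorana

variable {m : ℕ} {n : Type} [Fintype n] [DecidableEq n] (M : Majorana m n)

/-- the product of the operators of a word -/
def word (l : List (Fin m)) : Matrix n n ℂ := (l.map M.e).prod

@[simp] theorem word_nil : M.word [] = 1 := rfl

@[simp] theorem word_cons (a : Fin m) (l : List (Fin m)) :
    M.word (a :: l) = M.e a * M.word l := by
  simp [word]

theorem word_append (l l' : List (Fin m)) : M.word (l ++ l') = M.word l * M.word l' := by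
  simp [word]

theorem e_mul_word (a : Fin m) (l : List (Fin m)) :
    M.e a * M.word l = (-1 : ℂ) ^ (l.length + l.count a) • (M.word l * M.e a) := by
  induction l with
  | nil => simp
  | cons b l ih =>
    by_cases hab : b = a
    · subst hab
      have h1 : M.e b * (M.e b * M.word l) = M.word l := by
        rw [← Matrix.mul_assoc, M.sq, Matrix.one_mul]
      have h2 : M.e b * M.word l * M.e b =
          (-1 : ℂ) ^ (l.length + l.count b) • M.word l := by
        rw [ih, Matrix.smul_mul, Matrix.mul_assoc, M.sq, Matrix.mul_one]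
      have h3 : (-1 : ℂ) ^ (l.length + 1 + (l.count b + 1)) *
          (-1 : ℂ) ^ (l.length + l.count b) = 1 := by
        rw [← pow_add]
        apply Even.neg_one_pow
        exact ⟨l.length + l.count b + 1, by ring⟩
      rw [word_cons, h1, h2, List.length_cons, List.count_cons_self, smul_smul, h3, one_smul]
    · rw [word_cons, ← Matrix.mul_assoc, M.anti a b (Ne.symm hab), Matrix.neg_mul,
        Matrix.mul_assoc, ih, List.length_cons, List.count_cons_of_ne hab]
      have : l.length + 1 + l.count a = l.length + l.count a + 1 := by ring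
      rw [this, pow_succ, Matrix.mul_smul]
      simp [Matrix.mul_assoc]

/-- A word of even length with a letter of odd multiplicity has trace `0`. -/
theorem trace_word_eq_zero (l : List (Fin m)) (hl : Even l.length) (a : Fin m)
    (ha : Odd (l.count a)) : (M.word l).trace = 0 := by
  have h1 : M.e a * M.word l = -(M.word l * M.e a) := by
    rw [M.e_mul_word, (hl.add_odd ha).neg_one_pow]
    simp
  have h2 : (M.word l).trace = (M.e a * (M.word l * M.e a)).trace := by
    rw [Matrix.trace_mul_comm, Matrix.mul_assoc, M.sq, Matrix.mul_one]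
  have h3 : (M.e a * (M.word l * M.e a)).trace = -(M.word l).trace := by
    rw [← Matrix.mul_assoc, h1, Matrix.neg_mul, Matrix.mul_assoc, M.sq, Matrix.mul_one,
      Matrix.trace_neg]
  have h4 : (M.word l).trace = -(M.word l).trace := h2.trans h3
  have h5 : (2 : ℂ) * (M.word l).trace = 0 := by linear_combination h4
  simpa using h5

/-- A word all whose letters have even multiplicity is `1` or `-1`. -/
theorem word_eq_pm_one : ∀ (k : ℕ) (l : List (Fin m)), l.length = k →
    (∀ a, Even (l.count a)) → M.word l = 1 ∨ M.word l = -1 := by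
  intro k
  induction k using Nat.strong_induction_on with
  | _ k ih =>
    intro l hk hev
    cases l with
    | nil => left; rfl
    | cons a t =>
      have h1 : Odd (t.count a) := by
        have := hev a
        rw [List.count_cons_self] at this
        rcases Nat.even_or_odd (t.count a) with h | h
        · exact absurd this (by simpa [Nat.even_add_one] using h)
        · exact h
      have h2 : a ∈ t := by
        by_contra hcon
        rw [List.count_eq_zero_of_not_mem hcon] at h1
        exact absurd h1 (by decide)
      obtain ⟨x, y, rfl⟩ := List.append_of_mem h2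
      have h3 : M.word (a :: (x ++ a :: y)) =
          (-1 : ℂ) ^ (x.length + x.count a) • M.word (x ++ y) := by
        rw [word_cons, word_append, word_cons, ← Matrix.mul_assoc, M.e_mul_word, word_append,
          Matrix.smul_mul, Matrix.mul_assoc (M.word x), ← Matrix.mul_assoc (M.e a), M.sq,
          Matrix.one_mul]
      have h4 : ∀ b, Even ((x ++ y).count b) := by
        intro b
        have := hev b
        by_cases hb : a = b
        · subst hb
          simp only [List.count_cons_self, List.count_append] at this ⊢
          have h5 : x.count a + (y.count a + 1) + 1 = (x.count a + y.count a) + 2 := by ring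
          rw [h5] at this
          simpa [Nat.even_add] using this
        · simpa [List.count_cons_of_ne hb, List.count_append] using this
      have h5 := ih (x ++ y).length (by
        rw [← hk]
        simp only [List.length_cons, List.length_append]
        omega) (x ++ y) rfl h4
      rw [h3]
      rcases neg_one_pow_eq_or ℂ (x.length + x.count a) with h6 | h6 <;> rw [h6] <;>
        rcases h5 with h7 | h7 <;> rw [h7] <;> simp

end Majorana

/-! ### expansion of an ordered product -/

theorem sum_zmod_two {M : Type*} [AddCommMonoid M] (f : ZMod 2 → M) :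
    ∑ x, f x = f 0 + f 1 := Fin.sum_univ_two f

theorem prod_ofFn_one_add {R : Type*} [Ring R] : ∀ (E : ℕ) (X : Fin E → R),
    (List.ofFn fun j => 1 + X j).prod =
      ∑ c : Fin E → ZMod 2, (List.ofFn fun j => if c j = 0 then 1 else X j).prod := by
  intro E
  induction E with
  | zero => intro X; simp
  | succ E ih =>
    intro X
    rw [List.ofFn_succ, List.prod_cons, ih (fun j => X j.succ)]
    rw [← (Fin.consEquiv (fun _ => ZMod 2)).sum_comp, Fintype.sum_prod_type, sum_zmod_two]
    simp only [Fin.consEquiv, Equiv.coe_fn_mk, List.ofFn_succ, List.prod_cons, Fin.cons_zero,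
      Fin.cons_succ, if_true]
    rw [add_mul, one_mul, Finset.mul_sum]
    simp


/-! ### the graph -/

section Graph

variable {m E : ℕ} (a b : Fin E → Fin m)

/-- the incidence matrix mod 2 -/
def inc : Matrix (Fin m) (Fin E) (ZMod 2) :=
  fun v j => (if a j = v then 1 else 0) + (if b j = v then 1 else 0)

theorem zmod2_cases : ∀ x : ZMod 2, x = 0 ∨ x = 1 := by decide

/-- the letters of the subgraph `c` -/
def letters : ∀ {E : ℕ}, (Fin E → Fin m) → (Fin E → Fin m) → (Fin E → ZMod 2) → List (Fin m)
  | 0, _, _, _ => []
  | _ + 1, a, b, c => (if c 0 = 0 then [] else [a 0, b 0]) ++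
      letters (fun j => a j.succ) (fun j => b j.succ) (fun j => c j.succ)

theorem even_length_letters : ∀ {E : ℕ} (a b : Fin E → Fin m) (c : Fin E → ZMod 2),
    Even (letters a b c).length := by
  intro E
  induction E with
  | zero => intro a b c; simp [letters]
  | succ E ih =>
    intro a b c
    rw [letters, List.length_append]
    apply Even.add _ (ih _ _ _)
    split_ifs <;> simp

theorem count_letters : ∀ {E : ℕ} (a b : Fin E → Fin m) (c : Fin E → ZMod 2) (v : Fin m),
    ((letters a b c).count v : ZMod 2) = ∑ j, inc a b v j * c j := by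
  intro E
  induction E with
  | zero => intro a b c v; simp [letters]
  | succ E ih =>
    intro a b c v
    rw [letters, List.count_append, Fin.sum_univ_succ, Nat.cast_add, ih]
    congr 1
    rcases zmod2_cases (c 0) with h | h
    · simp [h]
    · simp only [h, one_ne_zero, if_false, mul_one, inc, List.count_cons, List.count_nil,
        beq_iff_eq]
      push_cast
      by_cases h1 : a 0 = v <;> by_cases h2 : b 0 = v <;> simp [h1, h2]

theorem prod_letters {n : Type} [Fintype n] [DecidableEq n] (M : Majorana m n) :
    ∀ {E : ℕ} (a b : Fin E → Fin m) (u : Fin E → ℂ) (c : Fin E → ZMod 2),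
    (List.ofFn fun j => if c j = 0 then 1 else u j • (M.e (a j) * M.e (b j))).prod =
      (∏ j, if c j = 0 then 1 else u j) • M.word (letters a b c) := by
  intro E
  induction E with
  | zero => intro a b u c; simp [letters]
  | succ E ih =>
    intro a b u c
    rw [List.ofFn_succ, List.prod_cons, Fin.prod_univ_succ, letters, M.word_append,
      ih (fun j => a j.succ) (fun j => b j.succ) (fun j => u j.succ) (fun j => c j.succ)]
    split_ifs with h
    · simp
    · simp only [Majorana.word_cons, Majorana.word_nil, Matrix.mul_one]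
      rw [Matrix.smul_mul, Matrix.mul_smul, smul_smul]

/-- the sign of an even subgraph -/
theorem exists_sign {n : Type} [Fintype n] [DecidableEq n] (M : Majorana m n)
    (c : Fin E → ZMod 2) (hc : inc a b *ᵥ c = 0) :
    ∃ σ : ℂ, (σ = 1 ∨ σ = -1) ∧ M.word (letters a b c) = σ • (1 : Matrix n n ℂ) := by
  have h : ∀ v, Even ((letters a b c).count v) := by
    intro v
    rw [← ZMod.natCast_eq_zero_iff_even, count_letters]
    exact congrFun hc v
  rcases M.word_eq_pm_one _ _ rfl h with h1 | h1
  · exact ⟨1, Or.inl rfl, by rw [h1, one_smul]⟩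
  · exact ⟨-1, Or.inr rfl, by rw [h1, neg_smul, one_smul]⟩

theorem trace_word_letters {n : Type} [Fintype n] [DecidableEq n] (M : Majorana m n)
    (c : Fin E → ZMod 2) (hc : inc a b *ᵥ c ≠ 0) : (M.word (letters a b c)).trace = 0 := by
  obtain ⟨v, hv⟩ : ∃ v, (inc a b *ᵥ c) v ≠ 0 := by
    by_contra hcon
    push Not at hcon
    exact hc (funext hcon)
  refine M.trace_word_eq_zero _ (even_length_letters a b c) v ?_
  rw [← ZMod.natCast_eq_one_iff_odd, count_letters]
  rcases zmod2_cases ((inc a b *ᵥ c) v) with h | h
  · exact absurd h hv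
  · exact h

/-- the even subgraphs -/
def evens : Finset (Fin E → ZMod 2) := Finset.univ.filter fun c => inc a b *ᵥ c = 0

/-- connected graph: the number of even subgraphs. -/
theorem card_evens [NeZero m] (hconn : ∀ s : Fin m → ZMod 2, (∀ j, s (a j) = s (b j)) →
    ∀ x y, s x = s y) : (evens a b).card * 2 ^ m = 2 ^ (E + 1) := by
  have h1 : (evens a b).card = 2 ^ (Module.finrank (ZMod 2)
      (LinearMap.ker (inc a b).mulVecLin)) := by
    have : Fintype (LinearMap.ker (inc a b).mulVecLin) := Fintype.ofFinite _
    have h2 : Fintype.card (LinearMap.ker (inc a b).mulVecLin) = _ :=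
      Module.card_eq_pow_finrank (K := ZMod 2) (V := LinearMap.ker (inc a b).mulVecLin)
    rw [ZMod.card] at h2
    rw [← h2]
    exact (Fintype.card_of_subtype (evens a b) (by intro c; simp [evens])).symm
  have h3 : Module.finrank (ZMod 2) (LinearMap.ker (inc a b)ᵀ.mulVecLin) = 1 := by
    rw [finrank_eq_one_iff']
    refine ⟨⟨fun _ => 1, ?_⟩, ?_, ?_⟩
    · rw [LinearMap.mem_ker]
      funext j
      simp only [Matrix.mulVecLin_apply, Matrix.mulVec, dotProduct, Matrix.transpose_apply, inc,
        mul_one, Finset.sum_add_distrib, Finset.sum_ite_eq, Finset.mem_univ, if_true,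
        Pi.zero_apply]
      exact CharTwo.add_self_eq_zero 1
    · intro h
      have := congrFun (congrArg Subtype.val h) 0
      simp at this
    · rintro ⟨s, hs⟩
      rw [LinearMap.mem_ker] at hs
      have hs' : ∀ j, s (a j) = s (b j) := by
        intro j
        have := congrFun hs j
        simp only [Matrix.mulVecLin_apply, Matrix.mulVec, dotProduct, Matrix.transpose_apply,
          inc, add_mul, ite_mul, one_mul, zero_mul, Finset.sum_add_distrib, Finset.sum_ite_eq,
          Finset.mem_univ, if_true, Pi.zero_apply] at this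
        exact CharTwo.add_eq_zero.mp this
      refine ⟨s 0, ?_⟩
      apply Subtype.ext
      funext v
      simpa using hconn s hs' 0 v
  have h4 := (inc a b).mulVecLin.finrank_range_add_finrank_ker
  have h5 := (inc a b)ᵀ.mulVecLin.finrank_range_add_finrank_ker
  have h6 := (inc a b).rank_transpose
  rw [Matrix.rank, Matrix.rank] at h6
  rw [Module.finrank_fin_fun] at h4 h5
  rw [h1, ← pow_add]
  congr 1
  omega

/-- not a coboundary: there is an even subgraph with an odd number of marked edges. -/
theorem exists_odd (p : Fin E → ZMod 2)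
    (hII : ¬ ∃ s : Fin m → ZMod 2, ∀ j, p j = s (a j) + s (b j)) :
    ∃ c, inc a b *ᵥ c = 0 ∧ ∑ j, p j * c j = 1 := by
  by_contra hcon
  push Not at hcon
  apply hII
  set φ : Module.Dual (ZMod 2) (Fin E → ZMod 2) :=
    ∑ j, p j • LinearMap.proj j with hφ
  have hφa : ∀ c, φ c = ∑ j, p j * c j := by
    intro c
    simp [hφ, LinearMap.sum_apply]
  have h1 : φ ∈ (LinearMap.ker (inc a b).mulVecLin).dualAnnihilator := by
    rw [Submodule.mem_dualAnnihilator]
    intro c hc
    rw [hφa]
    rcases zmod2_cases (∑ j, p j * c j) with h | h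
    · exact h
    · exact absurd h (hcon c hc)
  rw [← LinearMap.range_dualMap_eq_dualAnnihilator_ker] at h1
  obtain ⟨ψ, hψ⟩ := h1
  refine ⟨fun v => ψ (Pi.single v 1), fun j => ?_⟩
  have h2 : φ (Pi.single j 1) = p j := by
    rw [hφa]
    simp [Pi.single_apply]
  have h3 : (inc a b).mulVecLin (Pi.single j 1) =
      Pi.single (a j) 1 + Pi.single (b j) 1 := by
    funext v
    simp [inc, Pi.single_apply, eq_comm]
  rw [← h2, ← hψ, LinearMap.dualMap_apply, h3, map_add]

end Graph

/-! ### the main theorem -/

section Main

variable {m E : ℕ} {n : Type} [Fintype n] [DecidableEq n] (M : Majorana m n)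
  (a b : Fin E → Fin m) (u : Fin E → ℂ)

/-- The trace of a word is the sum over the even subgraphs of units `w c`, with `w 0 = 1`,
`w c ^ 2 = ∏ u ^ 2`. -/
theorem trace_expand : ∃ w : (Fin E → ZMod 2) → ℂ, w 0 = 1 ∧
    (∀ c, w c ^ 2 = ∏ j, if c j = 0 then 1 else u j ^ 2) ∧
    (List.ofFn (fun j => 1 + u j • (M.e (a j) * M.e (b j)))).prod.trace =
      Fintype.card n * ∑ c ∈ evens a b, w c := by
  classical
  have h1 : ∀ c : Fin E → ZMod 2, ∃ σ : ℂ, (σ = 1 ∨ σ = -1) ∧ (c = 0 → σ = 1) ∧
      (M.word (letters a b c)).trace =
        if inc a b *ᵥ c = 0 then Fintype.card n * σ else 0 := by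
    intro c
    by_cases hc : inc a b *ᵥ c = 0
    · by_cases h0 : c = 0
      · refine ⟨1, Or.inl rfl, fun _ => rfl, ?_⟩
        subst h0
        have h2 : ∀ {E : ℕ} (a b : Fin E → Fin m), letters a b 0 = [] := by
          intro E
          induction E with
          | zero => intro a b; rfl
          | succ E ih =>
            intro a b
            rw [letters]
            simp only [Pi.zero_apply, if_true, List.nil_append]
            exact ih _ _
        rw [h2, if_pos hc]
        simp
      · obtain ⟨σ, hσ, h2⟩ := exists_sign a b M c hc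
        refine ⟨σ, hσ, fun h => absurd h h0, ?_⟩
        rw [h2, if_pos hc, Matrix.trace_smul, Matrix.trace_one, smul_eq_mul, mul_comm]
    · refine ⟨1, Or.inl rfl, fun _ => rfl, ?_⟩
      rw [if_neg hc]
      exact trace_word_letters a b M c hc
  choose σ hσ hσ0 hσt using h1
  refine ⟨fun c => σ c * ∏ j, if c j = 0 then 1 else u j, ?_, ?_, ?_⟩
  · simp [hσ0 0 rfl]
  · intro c
    rw [mul_pow, ← Finset.prod_pow]
    have : σ c ^ 2 = 1 := by
      rcases hσ c with h | h <;> rw [h] <;> norm_num
    rw [this, one_mul]
    refine Finset.prod_congr rfl fun j _ => ?_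
    split_ifs <;> simp
  · rw [prod_ofFn_one_add, Matrix.trace_sum, evens, Finset.sum_filter, Finset.mul_sum]
    refine Finset.sum_congr rfl fun c _ => ?_
    rw [prod_letters, Matrix.trace_smul, hσt]
    split_ifs
    · rw [smul_eq_mul]; ring
    · simp

/-- **Main theorem of the module.**  If the graph is connected and the imaginary units do not
form a coboundary then the trace of the word is not so small as `- card n * 2 ^ E / 2 ^ m`. -/
theorem trace_gt [Nonempty n] (hu : ∀ j, u j ^ 4 = 1)
    (hconn : ∀ s : Fin m → ZMod 2, (∀ j, s (a j) = s (b j)) → ∀ x y, s x = s y)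
    (hII : ¬ ∃ s : Fin m → ZMod 2, ∀ j, (u j ^ 2 = -1 ↔ s (a j) ≠ s (b j))) :
    -((Fintype.card n : ℝ) * 2 ^ E / 2 ^ m) <
      ((List.ofFn (fun j => 1 + u j • (M.e (a j) * M.e (b j)))).prod.trace).re := by
  classical
  have hm : m ≠ 0 := by
    rintro rfl
    apply hII
    exact ⟨fun _ => 0, fun j => (a j).elim0⟩
  have : NeZero m := ⟨hm⟩
  obtain ⟨w, hw0, hw2, hw⟩ := trace_expand M a b u
  set p : Fin E → ZMod 2 := fun j => if u j ^ 2 = -1 then 1 else 0 with hp
  have hu2 : ∀ j, u j ^ 2 = if p j = 1 then -1 else 1 := by
    intro j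
    by_cases h : u j ^ 2 = -1
    · simp [hp, h]
    · have h1 : (u j ^ 2 - 1) * (u j ^ 2 + 1) = 0 := by linear_combination hu j
      rcases mul_eq_zero.mp h1 with h2 | h2
      · have h3 : u j ^ 2 = 1 := by linear_combination h2
        simp [hp, h3]
      · exact absurd (by linear_combination h2) h
  obtain ⟨c₀, hc₀, hc₁⟩ := exists_odd a b p (by
    rintro ⟨s, hs⟩
    apply hII
    refine ⟨s, fun j => ?_⟩
    have h1 := hs j
    rcases zmod2_cases (s (a j)) with h2 | h2 <;> rcases zmod2_cases (s (b j)) with h3 | h3 <;>
      rw [h2, h3] at h1 ⊢ <;> by_cases h4 : u j ^ 2 = -1 <;> simp [hp, h4] at h1 ⊢)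
  -- the squares
  have hsq : ∀ c : Fin E → ZMod 2, w c ^ 2 = if ∑ j, p j * c j = 1 then -1 else 1 := by
    intro c
    rw [hw2]
    have : ∀ s : Finset (Fin E), (∏ j ∈ s, if c j = 0 then (1 : ℂ) else u j ^ 2) =
        if ∑ j ∈ s, p j * c j = 1 then -1 else 1 := by
      intro s
      induction s using Finset.induction_on with
      | empty => simp
      | insert j s hj ih =>
        rw [Finset.prod_insert hj, Finset.sum_insert hj, ih]
        rcases zmod2_cases (c j) with h | h
        · simp [h]
        · rw [h, if_neg one_ne_zero, hu2 j, mul_one]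
          rcases zmod2_cases (p j) with h2 | h2 <;>
            rcases zmod2_cases (∑ j ∈ s, p j * c j) with h3 | h3 <;> rw [h2, h3] <;>
            norm_num
          decide
    exact this _
  -- the real parts
  have hre1 : ∀ c, -1 ≤ (w c).re := by
    intro c
    have h1 := hsq c
    split_ifs at h1
    · have h2 : (w c - Complex.I) * (w c + Complex.I) = 0 := by
        linear_combination h1 - Complex.I_sq
      rcases mul_eq_zero.mp h2 with h3 | h3
      · rw [show w c = Complex.I by linear_combination h3]; simp
      · rw [show w c = -Complex.I by linear_combination h3]; simp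
    · have h2 : (w c - 1) * (w c + 1) = 0 := by linear_combination h1
      rcases mul_eq_zero.mp h2 with h3 | h3
      · rw [show w c = 1 by linear_combination h3]; simp
      · rw [show w c = -1 by linear_combination h3]; simp
  have hre0 : ∀ c, ∑ j, p j * c j = 1 → (w c).re = 0 := by
    intro c hc
    have h1 := hsq c
    rw [if_pos hc] at h1
    have h2 : (w c - Complex.I) * (w c + Complex.I) = 0 := by
      linear_combination h1 - Complex.I_sq
    rcases mul_eq_zero.mp h2 with h3 | h3
    · rw [show w c = Complex.I by linear_combination h3]; simp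
    · rw [show w c = -Complex.I by linear_combination h3]; simp
  -- pairing `c` with `c + c₀`
  have hpair : ∀ c : Fin E → ZMod 2, -1 ≤ (w c).re + (w (c + c₀)).re := by
    intro c
    rcases zmod2_cases (∑ j, p j * c j) with h | h
    · have h1 : ∑ j, p j * (c + c₀) j = 1 := by
        simp only [Pi.add_apply, mul_add, Finset.sum_add_distrib, h, hc₁, zero_add]
      rw [hre0 _ h1]
      linarith [hre1 c]
    · rw [hre0 _ h]
      linarith [hre1 (c + c₀)]
  have hsum : ∑ c ∈ evens a b, (w (c + c₀)).re = ∑ c ∈ evens a b, (w c).re := by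
    refine Finset.sum_nbij' (fun c => c + c₀) (fun c => c - c₀) ?_ ?_ ?_ ?_ ?_
    · intro c hc
      simp only [evens, Finset.mem_filter, Finset.mem_univ, true_and] at hc ⊢
      rw [Matrix.mulVec_add, hc, hc₀, add_zero]
    · intro c hc
      simp only [evens, Finset.mem_filter, Finset.mem_univ, true_and] at hc ⊢
      rw [Matrix.mulVec_sub, hc, hc₀, sub_zero]
    · intro c _; simp
    · intro c _; simp
    · intro c _; rfl
  have h0mem : (0 : Fin E → ZMod 2) ∈ evens a b := by simp [evens]
  have hlow : 2 - ((evens a b).card : ℝ) ≤ 2 * ∑ c ∈ evens a b, (w c).re := by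
    have h1 : 2 * ∑ c ∈ evens a b, (w c).re =
        ∑ c ∈ evens a b, ((w c).re + (w (c + c₀)).re) := by
      rw [Finset.sum_add_distrib, hsum]; ring
    rw [h1, ← Finset.add_sum_erase _ _ h0mem]
    have h2 : (w 0).re + (w (0 + c₀)).re = 1 := by
      rw [zero_add, hre0 c₀ hc₁, hw0]; simp
    have h3 : ∑ c ∈ (evens a b).erase 0, (-1 : ℝ) ≤
        ∑ c ∈ (evens a b).erase 0, ((w c).re + (w (c + c₀)).re) :=
      Finset.sum_le_sum fun c _ => hpair c
    rw [Finset.sum_const, Finset.card_erase_of_mem h0mem, nsmul_eq_mul,
      Nat.cast_sub (Finset.card_pos.mpr ⟨0, h0mem⟩)] at h3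
    rw [h2]
    push_cast at h3
    linarith
  have hcard : ((evens a b).card : ℝ) * 2 ^ m = 2 ^ (E + 1) := by
    exact_mod_cast card_evens a b hconn
  have hn : (0 : ℝ) < Fintype.card n := by exact_mod_cast Fintype.card_pos
  have hE : (2 : ℝ) ^ E / 2 ^ m = (evens a b).card / 2 := by
    rw [div_eq_div_iff (by positivity) (by norm_num)]
    rw [hcard]; ring
  rw [hw]
  have h5 : ((Fintype.card n : ℂ) * ∑ c ∈ evens a b, w c).re =
      Fintype.card n * ∑ c ∈ evens a b, (w c).re := by
    rw [← Complex.re_sum]
    simp
  rw [h5, mul_div_assoc, hE, ← mul_neg]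
  apply mul_lt_mul_of_pos_left _ hn
  linarith

end Main

end Pool.Agent.Rohlin
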