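import Pool.Agent.Rohlin.EvMain
import Pool.Agent.Rohlin.EvClass
import Pool.Agent.Rohlin.Uniq

/-!
# EVENT: combination of the analytic part and of the classification
-/

set_option autoImplicit false

namespace Pool.Agent.Rohlin

open Polynomial Complex Set Matrix Filter Topology

namespace Ctx

variable {n : Type} [Fintype n] [DecidableEq n] {X : Ctx n}

theorem IsState.proj_idem {θ : ℝ} {A B : Fin 4 → Fin 8} {ζ : Fin 4 → ℂ} {ψ : n → ℂ}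
    (h : X.IsState θ A B ζ ψ) : X.proj A B ζ * X.proj A B ζ = X.proj A B ζ := by
  rw [h.proj, Matrix.vecMulVec_mul_vecMulVec, h.unit, one_smul]

/-- the data are constant along one side of the event -/
theorem full_side {θs δ : ℝ} (hreg : ∀ t, t ≠ θs → |t - θs| < δ → X.Reg t)
    {t₀ : ℝ} (h0 : |t₀ - θs| < δ) {A B : Fin 4 → Fin 8} {kind : Fin 4 → Fin 3} {ζ : Fin 4 → ℂ}
    {ψ : n → ℂ} (hF : X.Full t₀ A B kind ζ ψ) :
    (t₀ < θs → ∀ t, θs - δ < t → t < θs → X.Full t A B kind ζ ψ) ∧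
      (θs < t₀ → ∀ t, θs < t → t < θs + δ → X.Full t A B kind ζ ψ) := by
  have hh := abs_lt.1 h0
  constructor
  · intro hlt t h1 h2
    refine X.arcOK' t₀ t (fun u hu => ?_) A B kind ζ ψ hF
    have hu2 : θs - δ < u ∧ u < θs := by
      rcases le_total t₀ t with h | h
      · rw [uIcc_of_le h] at hu
        exact ⟨by linarith [hu.1], by linarith [hu.2]⟩
      · rw [uIcc_of_ge h] at hu
        exact ⟨by linarith [hu.1], by linarith [hu.2]⟩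
    exact hreg u hu2.2.ne (abs_lt.2 ⟨by linarith [hu2.1], by linarith [hu2.2]⟩)
  · intro hlt t h1 h2
    refine X.arcOK' t₀ t (fun u hu => ?_) A B kind ζ ψ hF
    have hu2 : θs < u ∧ u < θs + δ := by
      rcases le_total t₀ t with h | h
      · rw [uIcc_of_le h] at hu
        exact ⟨by linarith [hu.1], by linarith [hu.2]⟩
      · rw [uIcc_of_ge h] at hu
        exact ⟨by linarith [hu.1], by linarith [hu.2]⟩
    exact hreg u hu2.1.ne' (abs_lt.2 ⟨by linarith [hu2.1], by linarith [hu2.2]⟩)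

theorem full_left {θs δ : ℝ} (hδ : 0 < δ) (hreg : ∀ t, t ≠ θs → |t - θs| < δ → X.Reg t)
    {t₀ : ℝ} (h0 : |t₀ - θs| < δ) (hlt : t₀ < θs) {A B : Fin 4 → Fin 8} {kind : Fin 4 → Fin 3}
    {ζ : Fin 4 → ℂ} {ψ : n → ℂ} (hF : X.Full t₀ A B kind ζ ψ) :
    ∀ᶠ t in 𝓝[Iio θs] θs, X.Full t A B kind ζ ψ := by
  have h1 : Ioo (θs - δ) θs ∈ 𝓝[<] θs := Ioo_mem_nhdsLT (by linarith)
  filter_upwards [h1] with t ht
  exact (full_side hreg h0 hF).1 hlt t ht.1 ht.2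

theorem full_right {θs δ : ℝ} (hδ : 0 < δ) (hreg : ∀ t, t ≠ θs → |t - θs| < δ → X.Reg t)
    {t₀ : ℝ} (h0 : |t₀ - θs| < δ) (hlt : θs < t₀) {A B : Fin 4 → Fin 8} {kind : Fin 4 → Fin 3}
    {ζ : Fin 4 → ℂ} {ψ : n → ℂ} (hF : X.Full t₀ A B kind ζ ψ) :
    ∀ᶠ t in 𝓝[Ioi θs] θs, X.Full t A B kind ζ ψ := by
  have h1 : Ioo θs (θs + δ) ∈ 𝓝[>] θs := Ioo_mem_nhdsGT (by linarith)
  filter_upwards [h1] with t ht
  exact (full_side hreg h0 hF).2 hlt t ht.1 ht.2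

/-- a pairing extends to full data -/
theorem exists_full {θ : ℝ} (h : X.Reg θ) {A B : Fin 4 → Fin 8} {kind : Fin 4 → Fin 3}
    (P : X.Pre θ A B kind) : ∃ (ζ : Fin 4 → ℂ) (ψ : n → ℂ), X.Full θ A B kind ζ ψ := by
  have hP := P.pairing h
  obtain ⟨ψ, hψ⟩ := X.stateOK θ A B kind _ h hP
  exact ⟨_, ψ, ⟨hP, hψ⟩⟩

/-- the two new roots stay in order -/
theorem order_side {S : Set ℝ} (hS : IsPreconnected S) (hreg : ∀ t ∈ S, X.Reg t)
    {A' B' : Fin 4 → Fin 8} {kind' : Fin 4 → Fin 3} (hP : ∀ t ∈ S, X.Pre t A' B' kind')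
    {p₀ p₁ : Fin 4} {lo hi : Fin 8} (hk0 : kind' p₀ ≠ 2) (hk1 : kind' p₁ ≠ 2) (hlo : B' p₁ = lo)
    (hhi : A' p₀ = hi) (hne : lo ≠ hi) {t₂ t : ℝ} (h₂ : t₂ ∈ S) (ht : t ∈ S)
    (h : (X.eta t₂ lo).re < (X.eta t₂ hi).re) : (X.eta t lo).re < (X.eta t hi).re := by
  refine lt_const hS (Complex.continuous_re.comp_continuousOn (X.eta_cont hreg lo))
    (Complex.continuous_re.comp_continuousOn (X.eta_cont hreg hi)) (fun u hu hre => ?_) h₂ ht h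
  have e1 : (X.eta u lo).im = 0 := by rw [← hlo]; exact ((hP u hu).real p₁ hk1).2.1
  have e2 : (X.eta u hi).im = 0 := by rw [← hhi]; exact ((hP u hu).real p₀ hk0).1
  exact hne (X.eta_injective (hreg u hu) (Complex.ext hre (e1.trans e2.symm)))

theorem swap_pair {A B : Fin 4 → Fin 8} {p₀ : Fin 4} {a b lo hi : Fin 8}
    (hAB : (A p₀ = a ∧ B p₀ = b) ∨ (A p₀ = b ∧ B p₀ = a))
    (hlh : (lo = a ∧ hi = b) ∨ (lo = b ∧ hi = a)) :
    (lo = A p₀ ∧ hi = B p₀) ∨ (lo = B p₀ ∧ hi = A p₀) := by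
  rcases hAB with ⟨h1, h2⟩ | ⟨h1, h2⟩ <;> rcases hlh with ⟨h3, h4⟩ | ⟨h3, h4⟩
  · exact Or.inl ⟨h3.trans h1.symm, h4.trans h2.symm⟩
  · exact Or.inr ⟨h3.trans h2.symm, h4.trans h1.symm⟩
  · exact Or.inr ⟨h3.trans h2.symm, h4.trans h1.symm⟩
  · exact Or.inl ⟨h3.trans h1.symm, h4.trans h2.symm⟩

variable (X)

/-- the conclusion of EVENT -/
def EvConcl (θ η θ₁ θ₂ : ℝ) : Prop := ∀ A B kind ζ ψ, X.Full θ₁ A B kind ζ ψ →
    ∃ A' B' kind' ζ' ψ', X.Full θ₂ A' B' kind' ζ' ψ' ∧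
      star ψ' ⬝ᵥ ψ = exp (I * Real.pi * X.esg θ η / 8) *
        (((Real.sqrt 2 : ℝ) : ℂ)⁻¹) ^ X.enc θ η ∧
      ∃ L : List (Edge 8), L.length = 2 * X.enc θ η ∧
        (∀ x ∈ L, x.1 ≠ x.2.1 ∧ (x.2.2 = 1 ∨ x.2.2 = -1)) ∧
        X.proj A' B' ζ' * X.proj A B ζ = (L.map (pf X.M)).prod * X.proj A B ζ ∧
        ∀ p, (∃ q, (A' p = A q ∧ B' p = B q) ∨ (A' p = B q ∧ B' p = A q)) ∨
          ∃ x ∈ L, (x.1 = A' p ∧ x.2.1 = B' p) ∨ (x.1 = B' p ∧ x.2.1 = A' p)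

variable {X}

theorem kap_zero {θ η : ℝ} (hne : X.esg θ η ≠ X.edep θ η) (he : X.esg θ η = -1) :
    EvClass.kap X θ η = 0 := by
  by_cases hK : pt θ η ∈ X.K1
  · exfalso
    apply hne
    rw [he]
    exact (if_pos hK : X.edep θ η = -1).symm
  · exact if_neg hK

/-- the two new pairs as a list -/
theorem two_list {A' B' : Fin 4 → Fin 8} {ζ' : Fin 4 → ℂ} {θ₂ : ℝ} {kind' : Fin 4 → Fin 3}
    {ψ' : n → ℂ} (hF' : X.Full θ₂ A' B' kind' ζ' ψ') (p₀ p₁ : Fin 4) {Q : Matrix n n ℂ}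
    (e1 : X.proj A' B' ζ' * Q = pairFac X.M (A' p₁) (B' p₁) (ζ' p₁) *
        pairFac X.M (A' p₀) (B' p₀) (ζ' p₀) * Q) {A B : Fin 4 → Fin 8}
    (hold : ∀ p, p ≠ p₀ → p ≠ p₁ →
      ∃ q, (A' p = A q ∧ B' p = B q) ∨ (A' p = B q ∧ B' p = A q)) :
    ∃ L : List (Edge 8), L.length = 2 * 1 ∧
        (∀ x ∈ L, x.1 ≠ x.2.1 ∧ (x.2.2 = 1 ∨ x.2.2 = -1)) ∧
        X.proj A' B' ζ' * Q = (L.map (pf X.M)).prod * Q ∧
        ∀ p, (∃ q, (A' p = A q ∧ B' p = B q) ∨ (A' p = B q ∧ B' p = A q)) ∨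
          ∃ x ∈ L, (x.1 = A' p ∧ x.2.1 = B' p) ∨ (x.1 = B' p ∧ x.2.1 = A' p) := by
  refine ⟨[(A' p₁, B' p₁, ζ' p₁), (A' p₀, B' p₀, ζ' p₀)], rfl, ?_, ?_, ?_⟩
  · intro x hx
    simp only [List.mem_cons, List.not_mem_nil, or_false] at hx
    rcases hx with rfl | rfl
    · exact ⟨hF'.pair.ne p₁, hF'.pair.zeta_sq p₁⟩
    · exact ⟨hF'.pair.ne p₀, hF'.pair.zeta_sq p₀⟩
  · rw [e1]
    simp only [List.map_cons, List.map_nil, List.prod_cons, List.prod_nil, mul_one]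
    rfl
  · intro p
    by_cases hp : p = p₀
    · right
      exact ⟨(A' p₀, B' p₀, ζ' p₀), by simp, Or.inl (by rw [hp]; exact ⟨rfl, rfl⟩)⟩
    · by_cases hp1 : p = p₁
      · right
        exact ⟨(A' p₁, B' p₁, ζ' p₁), by simp, Or.inl (by rw [hp1]; exact ⟨rfl, rfl⟩)⟩
      · exact Or.inl (hold p hp hp1)

theorem reg_right {θs δ : ℝ} (hreg : ∀ t, t ≠ θs → |t - θs| < δ → X.Reg t) :
    ∀ t ∈ Ioo θs (θs + δ), X.Reg t := fun t ht =>
  hreg t ht.1.ne' (abs_lt.2 ⟨by linarith [ht.1, ht.2], by linarith [ht.2]⟩)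

theorem reg_left {θs δ : ℝ} (hreg : ∀ t, t ≠ θs → |t - θs| < δ → X.Reg t) :
    ∀ t ∈ Ioo (θs - δ) θs, X.Reg t := fun t ht =>
  hreg t ht.2.ne (abs_lt.2 ⟨by linarith [ht.1], by linarith [ht.1, ht.2]⟩)

/-- two real roots on the right -/
theorem event_right {θ η : ℝ} {a b : Fin 8} {ε : ℂ} {Y H : ℂ → ℂ} {y0 s0 : Fin 8 → ℂ}
    (hloc : X.LocData (circ θ) a b ε Y H y0 s0) (hz : circ θ ∈ X.Z) (hd : X.Dbl θ η) {δ : ℝ}
    (hδ : 0 < δ) (hreg : ∀ t, t ≠ θ → |t - θ| < δ → X.Reg t) {θ₁ θ₂ : ℝ} (h1 : θ - δ < θ₁)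
    (h2 : θ₁ < θ) (h3 : θ < θ₂) (h4 : θ₂ < θ + δ)
    (hcls : ∀ A B kind, X.Pre θ₁ A B kind →
      ∃ (p₀ : Fin 4) (lo hi : Fin 8) (x₁ x₂ : ℝ), kind p₀ = 2 ∧
        ((A p₀ = a ∧ B p₀ = b) ∨ (A p₀ = b ∧ B p₀ = a)) ∧
        ((lo = a ∧ hi = b) ∨ (lo = b ∧ hi = a)) ∧
        X.eta θ₂ lo = x₁ ∧ X.eta θ₂ hi = x₂ ∧ x₁ < x₂ ∧
        (X.esg θ η = X.edep θ η →
          X.Pre θ₂ (Function.update A p₀ lo) (Function.update B p₀ hi)
            (Function.update kind p₀ (EvClass.kap X θ η))) ∧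
        (X.esg θ η ≠ X.edep θ η → ∃ p₁, p₁ ≠ p₀ ∧ kind p₁ = EvClass.kap X θ η ∧
          X.Pre θ₂ (Function.update A p₀ hi)
            (Function.update (Function.update B p₁ lo) p₀ (B p₁))
            (Function.update kind p₀ (EvClass.kap X θ η)))) :
    X.EvConcl θ η θ₁ θ₂ := by
  intro A B kind ζ ψ hF
  have a1 : |θ₁ - θ| < δ := abs_lt.2 ⟨by linarith, by linarith⟩
  have a2 : |θ₂ - θ| < δ := abs_lt.2 ⟨by linarith, by linarith⟩
  have hr2 : X.Reg θ₂ := hreg θ₂ h3.ne' a2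
  obtain ⟨p₀, lo, hi, x₁, x₂, hk0, hAB, hlh, hlo, hhi, hx, hconv, hconc⟩ :=
    hcls A B kind hF.pair.pre
  have hC := full_left hδ hreg a1 h2 hF
  have hsw := swap_pair hAB hlh
  have hlohi : lo ≠ hi := by
    rintro rfl
    rw [hlo] at hhi
    have : x₁ = x₂ := by exact_mod_cast hhi
    exact hx.ne this
  by_cases hty : X.esg θ η = X.edep θ η
  · -- convex
    obtain ⟨ζ', ψ', hF'⟩ := exists_full hr2 (hconv hty)
    have hR := full_right hδ hreg a2 h3 hF'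
    obtain ⟨e1, e2, -⟩ := ev_conv hloc hz hd (Or.inl ⟨rfl, rfl⟩) hk0 hAB hlh hC hR
    have henc : X.enc θ η = 0 := if_pos hty
    refine ⟨_, _, _, ζ', ψ', hF', ?_, [], ?_, ?_, ?_, ?_⟩
    · rw [henc, pow_zero, mul_one]; exact e2 rfl
    · rw [henc]; rfl
    · intro x hx; simp at hx
    · rw [e1, hF.state.proj_idem]; simp
    · intro p
      left
      by_cases hp : p = p₀
      · refine ⟨p₀, ?_⟩
        rw [hp, Function.update_self, Function.update_self]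
        exact hsw
      · exact ⟨p, Or.inl ⟨Function.update_of_ne hp _ _, Function.update_of_ne hp _ _⟩⟩
  · -- concave
    obtain ⟨p₁, h01, hk1, P'⟩ := hconc hty
    obtain ⟨ζ', ψ', hF'⟩ := exists_full hr2 P'
    have hR := full_right hδ hreg a2 h3 hF'
    have henc : X.enc θ η = 1 := if_neg hty
    have hlt : ∀ᶠ t in 𝓝[Ioi θ] θ, (X.eta t lo).re < (X.eta t hi).re := by
      have h5 : Ioo θ (θ + δ) ∈ 𝓝[>] θ := Ioo_mem_nhdsGT (by linarith)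
      filter_upwards [h5] with t ht
      refine order_side isPreconnected_Ioo (reg_right hreg)
        (fun u hu => ((full_side hreg a2 hF').2 h3 u hu.1 hu.2).pair.pre) (p₀ := p₀) (p₁ := p₁)
        ?_ ?_ ?_ ?_ hlohi (t₂ := θ₂) ⟨h3, h4⟩ ht ?_
      · rw [Function.update_self]; exact EvClass.kap_ne X θ η
      · rw [Function.update_of_ne h01, hk1]; exact EvClass.kap_ne X θ η
      · rw [Function.update_of_ne h01, Function.update_self]
      · rw [Function.update_self]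
      · rw [hlo, hhi, ofReal_re, ofReal_re]; exact hx
    obtain ⟨e1, -, e2, -⟩ := ev_conc hloc hz hd (Or.inl ⟨rfl, rfl⟩) h01 hk0 hAB hlh rfl rfl
      (fun he => ⟨by rw [Function.update_self]; exact kap_zero hty he,
        by rw [Function.update_of_ne h01, hk1]; exact kap_zero hty he⟩)
      ⟨by rw [Function.update_self]; exact EvClass.kap_ne X θ η,
        by rw [Function.update_of_ne h01, hk1]; exact EvClass.kap_ne X θ η⟩ hlt hC hR
    refine ⟨_, _, _, ζ', ψ', hF', ?_, ?_⟩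
    · rw [henc, pow_one]; exact e2 rfl
    · rw [henc]
      refine two_list hF' p₀ p₁ e1 fun p hp hp1 => ⟨p, Or.inl ⟨Function.update_of_ne hp _ _, ?_⟩⟩
      rw [Function.update_of_ne hp, Function.update_of_ne hp1]

/-- two real roots on the left -/
theorem event_left {θ η : ℝ} {a b : Fin 8} {ε : ℂ} {Y H : ℂ → ℂ} {y0 s0 : Fin 8 → ℂ}
    (hloc : X.LocData (circ θ) a b ε Y H y0 s0) (hz : circ θ ∈ X.Z) (hd : X.Dbl θ η) {δ : ℝ}
    (hδ : 0 < δ) (hreg : ∀ t, t ≠ θ → |t - θ| < δ → X.Reg t) {θ₁ θ₂ : ℝ} (h1 : θ - δ < θ₁)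
    (h2 : θ₁ < θ) (h3 : θ < θ₂) (h4 : θ₂ < θ + δ)
    (hcls : ∀ A B kind, X.Pre θ₂ A B kind →
      ∃ (p₀ : Fin 4) (lo hi : Fin 8) (x₁ x₂ : ℝ), kind p₀ = 2 ∧
        ((A p₀ = a ∧ B p₀ = b) ∨ (A p₀ = b ∧ B p₀ = a)) ∧
        ((lo = a ∧ hi = b) ∨ (lo = b ∧ hi = a)) ∧
        X.eta θ₁ lo = x₁ ∧ X.eta θ₁ hi = x₂ ∧ x₁ < x₂ ∧
        (X.esg θ η = X.edep θ η →
          X.Pre θ₁ (Function.update A p₀ lo) (Function.update B p₀ hi)
            (Function.update kind p₀ (EvClass.kap X θ η))) ∧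
        (X.esg θ η ≠ X.edep θ η → ∃ p₁, p₁ ≠ p₀ ∧ kind p₁ = EvClass.kap X θ η ∧
          X.Pre θ₁ (Function.update A p₀ hi)
            (Function.update (Function.update B p₁ lo) p₀ (B p₁))
            (Function.update kind p₀ (EvClass.kap X θ η)))) :
    X.EvConcl θ η θ₁ θ₂ := by
  intro A B kind ζ ψ hF
  have a1 : |θ₁ - θ| < δ := abs_lt.2 ⟨by linarith, by linarith⟩
  have a2 : |θ₂ - θ| < δ := abs_lt.2 ⟨by linarith, by linarith⟩
  have hr1 : X.Reg θ₁ := hreg θ₁ h2.ne a1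
  have hr2 : X.Reg θ₂ := hreg θ₂ h3.ne' a2
  -- the pairing on the complex side
  obtain ⟨Ac, Bc, kc, zc', hPc⟩ := X.pairOK θ₂ hr2
  obtain ⟨zc, ψc, hFc⟩ := exists_full hr2 hPc.pre
  obtain ⟨p₀, lo, hi, x₁, x₂, hk0, hAB, hlh, hlo, hhi, hx, hconv, hconc⟩ :=
    hcls Ac Bc kc hFc.pair.pre
  have hC := full_right hδ hreg a2 h3 hFc
  have hsw := swap_pair hAB hlh
  have hlohi : lo ≠ hi := by
    rintro rfl
    rw [hlo] at hhi
    have : x₁ = x₂ := by exact_mod_cast hhi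
    exact hx.ne this
  -- comparison with the given pairing
  have hcomp : ∀ {A' B' : Fin 4 → Fin 8} {kind' : Fin 4 → Fin 3}, X.Pre θ₁ A' B' kind' →
      ∃ z', X.Full θ₁ A' B' kind' z' ψ ∧ X.proj A' B' z' = X.proj A B ζ ∧
        ∀ p, ∃ q, A' p = A q ∧ B' p = B q := by
    intro A' B' kind' P'
    obtain ⟨z', ψ', hF'⟩ := exists_full hr1 P'
    have hpr : X.proj A' B' z' = X.proj A B ζ := X.uniqOK θ₁ hr1 _ _ _ _ _ _ _ _ hF.pair hF'.pair
    have hψ : ψ' = ψ := state_unique X hF.state hF'.state hpr rfl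
    obtain ⟨σ, hσ⟩ := hF.pair.exists_perm hr1 hF'.pair
    refine ⟨z', by rw [← hψ]; exact hF', hpr, fun p => ⟨σ.symm p, ?_⟩⟩
    obtain ⟨e1, e2, -⟩ := hσ (σ.symm p)
    rw [Equiv.apply_symm_apply] at e1 e2
    exact ⟨e1, e2⟩
  by_cases hty : X.esg θ η = X.edep θ η
  · -- convex
    obtain ⟨z', hF', hpr, hperm⟩ := hcomp (hconv hty)
    have hR := full_left hδ hreg a1 h2 hF'
    obtain ⟨e1, -, e2⟩ := ev_conv hloc hz hd (Or.inr ⟨rfl, rfl⟩) hk0 hAB hlh hC hR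
    have henc : X.enc θ η = 0 := if_pos hty
    refine ⟨Ac, Bc, kc, zc, ψc, hFc, ?_, [], ?_, ?_, ?_, ?_⟩
    · rw [henc, pow_zero, mul_one]; exact e2 rfl
    · rw [henc]; rfl
    · intro x hx; simp at hx
    · rw [← e1, hpr, hF.state.proj_idem]; simp
    · intro p
      left
      obtain ⟨q, q1, q2⟩ := hperm p
      by_cases hp : p = p₀
      · rw [hp, Function.update_self] at q1 q2
        refine ⟨q, ?_⟩
        rw [← q1, ← q2, hp]
        rcases hsw with ⟨r1, r2⟩ | ⟨r1, r2⟩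
        · exact Or.inl ⟨r1.symm, r2.symm⟩
        · exact Or.inr ⟨r2.symm, r1.symm⟩
      · rw [Function.update_of_ne hp] at q1 q2
        exact ⟨q, Or.inl ⟨q1, q2⟩⟩
  · -- concave
    obtain ⟨p₁, h01, hk1, P'⟩ := hconc hty
    obtain ⟨z', hF', hpr, hperm⟩ := hcomp P'
    have hR := full_left hδ hreg a1 h2 hF'
    have henc : X.enc θ η = 1 := if_neg hty
    have hlt : ∀ᶠ t in 𝓝[Iio θ] θ, (X.eta t lo).re < (X.eta t hi).re := by
      have h5 : Ioo (θ - δ) θ ∈ 𝓝[<] θ := Ioo_mem_nhdsLT (by linarith)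
      filter_upwards [h5] with t ht
      refine order_side isPreconnected_Ioo (reg_left hreg)
        (fun u hu => ((full_side hreg a1 hF').1 h2 u hu.1 hu.2).pair.pre) (p₀ := p₀) (p₁ := p₁)
        ?_ ?_ ?_ ?_ hlohi (t₂ := θ₁) ⟨h1, h2⟩ ht ?_
      · rw [Function.update_self]; exact EvClass.kap_ne X θ η
      · rw [Function.update_of_ne h01, hk1]; exact EvClass.kap_ne X θ η
      · rw [Function.update_of_ne h01, Function.update_self]
      · rw [Function.update_self]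
      · rw [hlo, hhi, ofReal_re, ofReal_re]; exact hx
    obtain ⟨-, e1, -, e2⟩ := ev_conc hloc hz hd (Or.inr ⟨rfl, rfl⟩) h01 hk0 hAB hlh rfl rfl
      (fun he => ⟨by rw [Function.update_self]; exact kap_zero hty he,
        by rw [Function.update_of_ne h01, hk1]; exact kap_zero hty he⟩)
      ⟨by rw [Function.update_self]; exact EvClass.kap_ne X θ η,
        by rw [Function.update_of_ne h01, hk1]; exact EvClass.kap_ne X θ η⟩ hlt hC hR
    refine ⟨Ac, Bc, kc, zc, ψc, hFc, ?_, ?_⟩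
    · rw [henc, pow_one]; exact e2 rfl
    · rw [henc]
      rw [hpr] at e1
      refine two_list hFc p₀ p₁ e1 fun p hp hp1 => ?_
      obtain ⟨q, q1, q2⟩ := hperm p
      rw [Function.update_of_ne hp] at q1
      rw [Function.update_of_ne hp, Function.update_of_ne hp1] at q2
      exact ⟨q, Or.inl ⟨q1, q2⟩⟩

variable (X)

/-- **EVENT** -/
theorem eventOK (hL : X.LocalOK) : X.EventOK := by
  intro θ η hz hd
  obtain ⟨D, hD⟩ := hL (circ θ) hz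
  have hloc := hD.locData
  have hE := hloc.evLim hz hd
  obtain ⟨sg, hsg, δ, hδ, hreg, hcls⟩ := EvClass.evclass hE one_pos
  refine ⟨δ, hδ, ?_⟩
  intro θ₁ θ₂ h1 h2 h3 h4
  have a1 : |θ₁ - θ| < δ := abs_lt.2 ⟨by linarith, by linarith⟩
  have a2 : |θ₂ - θ| < δ := abs_lt.2 ⟨by linarith, by linarith⟩
  have h1' : θ - δ < θ₁ := by linarith
  rcases hsg with rfl | rfl
  · refine event_right hloc hz hd hδ hreg h1' h2 h3 h4 fun A B kind P => ?_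
    obtain ⟨p₀, lo, hi, x₁, x₂, q1, q2, q3, q4, q5, -, q6, q7, -, q8, q9⟩ :=
      hcls θ₁ θ₂ a1 (by linarith) a2 (by linarith) A B kind P
    refine ⟨p₀, lo, hi, x₁, x₂, q1, q2, q3, q4, q5, q6.trans q7, q8, fun h => ?_⟩
    obtain ⟨p₁, r1, r2, -, -, r3⟩ := q9 h
    exact ⟨p₁, r1, r2, r3⟩
  · refine event_left hloc hz hd hδ hreg h1' h2 h3 h4 fun A B kind P => ?_
    obtain ⟨p₀, lo, hi, x₁, x₂, q1, q2, q3, q4, q5, -, q6, q7, -, q8, q9⟩ :=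
      hcls θ₂ θ₁ a2 (by linarith) a1 (by linarith) A B kind P
    refine ⟨p₀, lo, hi, x₁, x₂, q1, q2, q3, q4, q5, q6.trans q7, q8, fun h => ?_⟩
    obtain ⟨p₁, r1, r2, -, -, r3⟩ := q9 h
    exact ⟨p₁, r1, r2, r3⟩

end Ctx

end Pool.Agent.Rohlin
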