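import Pool.Agent.Rohlin.Even

/-!
# Concrete Majorana operators (Jordan–Wigner), charge conjugation, rank one projectors
-/

namespace Pool.Agent.Rohlin

open Matrix Kronecker
open scoped ComplexOrder

/-! ### Jordan–Wigner -/

/-- Pauli `X` -/
def pX : Matrix (Fin 2) (Fin 2) ℂ := !![0, 1; 1, 0]
/-- Pauli `Y` -/
def pY : Matrix (Fin 2) (Fin 2) ℂ := !![0, -Complex.I; Complex.I, 0]
/-- Pauli `Z` -/
def pZ : Matrix (Fin 2) (Fin 2) ℂ := !![1, 0; 0, -1]

theorem pX_sq : pX * pX = 1 := by
  ext i j; fin_cases i <;> fin_cases j <;> simp [pX, Matrix.mul_apply]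
theorem pY_sq : pY * pY = 1 := by
  ext i j; fin_cases i <;> fin_cases j <;> simp [pY, Matrix.mul_apply]
theorem pZ_sq : pZ * pZ = 1 := by
  ext i j; fin_cases i <;> fin_cases j <;> simp [pZ, Matrix.mul_apply]
theorem pXY : pX * pY = -(pY * pX) := by
  ext i j; fin_cases i <;> fin_cases j <;> simp [pX, pY, Matrix.mul_apply]
theorem pXZ : pX * pZ = -(pZ * pX) := by
  ext i j; fin_cases i <;> fin_cases j <;> simp [pX, pZ, Matrix.mul_apply]
theorem pYZ : pY * pZ = -(pZ * pY) := by
  ext i j; fin_cases i <;> fin_cases j <;> simp [pY, pZ, Matrix.mul_apply]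
theorem pX_h : pXᴴ = pX := by
  ext i j; fin_cases i <;> fin_cases j <;> simp [pX]
theorem pY_h : pYᴴ = pY := by
  ext i j; fin_cases i <;> fin_cases j <;> simp [pY]
theorem pZ_h : pZᴴ = pZ := by
  ext i j; fin_cases i <;> fin_cases j <;> simp [pZ]
theorem pX_t : pXᵀ = pX := by
  ext i j; fin_cases i <;> fin_cases j <;> simp [pX]
theorem pY_t : pYᵀ = -pY := by
  ext i j; fin_cases i <;> fin_cases j <;> simp [pY]
theorem pZ_t : pZᵀ = pZ := by
  ext i j; fin_cases i <;> fin_cases j <;> simp [pZ]

theorem pZpow_Y (k : ℕ) : pZ ^ k * pY = (-1 : ℂ) ^ k • (pY * pZ ^ k) := by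
  induction k with
  | zero => simp
  | succ k ih =>
    rw [pow_succ, Matrix.mul_assoc, show pZ * pY = -(pY * pZ) by rw [pYZ, neg_neg],
      Matrix.mul_neg, ← Matrix.mul_assoc, ih, pow_succ, Matrix.smul_mul, Matrix.mul_assoc]
    simp

theorem pX_Zpow (k : ℕ) : pX * pZ ^ k = (-1 : ℂ) ^ k • (pZ ^ k * pX) := by
  induction k with
  | zero => simp
  | succ k ih =>
    rw [pow_succ, ← Matrix.mul_assoc, ih, pow_succ, Matrix.smul_mul, Matrix.mul_assoc,
      pXZ, Matrix.mul_neg, ← Matrix.mul_assoc]
    simp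

section Step

theorem kron_neg {n : Type} (A : Matrix n n ℂ) (B : Matrix (Fin 2) (Fin 2) ℂ) :
    A ⊗ₖ (-B) = -(A ⊗ₖ B) := by
  ext i j
  simp [Matrix.kroneckerMap_apply]

theorem neg_kron {n : Type} (A : Matrix n n ℂ) (B : Matrix (Fin 2) (Fin 2) ℂ) :
    (-A) ⊗ₖ B = -(A ⊗ₖ B) := by
  ext i j
  simp [Matrix.kroneckerMap_apply]

variable {m : ℕ} {n : Type} [Fintype n] [DecidableEq n]

/-- two more Majorana operators -/
def Majorana.step (M : Majorana m n) : Majorana (m + 2) (n × Fin 2) where
  e := Fin.cons ((1 : Matrix n n ℂ) ⊗ₖ pX) (Fin.cons ((1 : Matrix n n ℂ) ⊗ₖ pY)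
    fun a => M.e a ⊗ₖ pZ)
  sq a := by
    refine Fin.cases ?_ (fun a => Fin.cases ?_ (fun a => ?_) a) a
    · simp only [Fin.cons_zero]
      rw [← mul_kronecker_mul, pX_sq, one_mul, one_kronecker_one]
    · simp only [Fin.cons_zero, Fin.cons_succ]
      rw [← mul_kronecker_mul, pY_sq, one_mul, one_kronecker_one]
    · simp only [Fin.cons_succ]
      rw [← mul_kronecker_mul, pZ_sq, M.sq, one_kronecker_one]
  anti a b := by
    refine Fin.cases ?_ (fun a => Fin.cases ?_ (fun a => ?_) a) a <;>
      refine Fin.cases ?_ (fun b => Fin.cases ?_ (fun b => ?_) b) b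
    · intro h; exact absurd rfl h
    · intro _
      simp only [Fin.cons_zero, Fin.cons_succ]
      rw [← mul_kronecker_mul, ← mul_kronecker_mul, pXY, kron_neg]
    · intro _
      simp only [Fin.cons_zero, Fin.cons_succ]
      rw [← mul_kronecker_mul, ← mul_kronecker_mul, pXZ, kron_neg, one_mul, mul_one]
    · intro _
      simp only [Fin.cons_zero, Fin.cons_succ]
      rw [← mul_kronecker_mul, ← mul_kronecker_mul, pXY, kron_neg, neg_neg]
    · intro h; exact absurd rfl h
    · intro _
      simp only [Fin.cons_zero, Fin.cons_succ]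
      rw [← mul_kronecker_mul, ← mul_kronecker_mul, pYZ, kron_neg, one_mul, mul_one]
    · intro _
      simp only [Fin.cons_zero, Fin.cons_succ]
      rw [← mul_kronecker_mul, ← mul_kronecker_mul, pXZ, kron_neg, one_mul, mul_one, neg_neg]
    · intro _
      simp only [Fin.cons_zero, Fin.cons_succ]
      rw [← mul_kronecker_mul, ← mul_kronecker_mul, pYZ, kron_neg, one_mul, mul_one, neg_neg]
    · intro h
      simp only [Fin.cons_succ]
      have hab : a ≠ b := fun h' => h (by rw [h'])
      rw [← mul_kronecker_mul, ← mul_kronecker_mul, M.anti a b hab, neg_kron]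

end Step

/-- **Existence of the Fock space** with `2 * k` self-adjoint Majorana operators and a unitary
charge conjugation matrix. -/
theorem exists_fock (k : ℕ) : ∃ (n : Type) (_ : Fintype n) (_ : DecidableEq n)
    (M : Majorana (2 * k) n) (C : Matrix n n ℂ), Fintype.card n = 2 ^ k ∧
      (∀ a, (M.e a)ᴴ = M.e a) ∧ Cᴴ * C = 1 ∧
      Cᵀ = (-1 : ℂ) ^ (k * (k + 1) / 2) • C ∧
      ∀ a, C * M.e a = (-1 : ℂ) ^ k • ((M.e a)ᵀ * C) := by
  induction k with
  | zero =>
    refine ⟨Unit, inferInstance, inferInstance, ⟨fun a => a.elim0, fun a => a.elim0,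
      fun a => a.elim0⟩, 1, rfl, fun a => a.elim0, by simp, by simp, fun a => a.elim0⟩
  | succ k ih =>
    obtain ⟨n, i1, i2, M, C, hcard, hH, hCC, hCT, hCe⟩ := ih
    have hZY := pZpow_Y k
    have hXZ := pX_Zpow k
    have hZZ : pZ ^ k * pZ ^ k = 1 := by
      rw [← pow_add, ← two_mul, pow_mul, pow_two, pZ_sq, one_pow]
    have hZt : (pZ ^ k)ᵀ = pZ ^ k := by rw [transpose_pow, pZ_t]
    have hZh : (pZ ^ k)ᴴ = pZ ^ k := by rw [conjTranspose_pow, pZ_h]
    have hs : ((-1 : ℂ) ^ k) * (-1) ^ k = 1 := by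
      rw [← pow_add]; exact Even.neg_one_pow ⟨k, rfl⟩
    have htr : ∀ (A : Matrix n n ℂ) (B : Matrix (Fin 2) (Fin 2) ℂ), (A ⊗ₖ B)ᵀ = Aᵀ ⊗ₖ Bᵀ :=
      fun A B => (kroneckerMap_transpose _ _ _).symm
    refine ⟨n × Fin 2, inferInstance, inferInstance, M.step, C ⊗ₖ (pZ ^ k * pY), ?_, ?_, ?_, ?_, ?_⟩
    · rw [Fintype.card_prod, hcard, Fintype.card_fin, pow_succ]
    · intro a
      refine Fin.cases ?_ (fun a => Fin.cases ?_ (fun a => ?_) a) a
      · simp only [Majorana.step, Fin.cons_zero]
        rw [conjTranspose_kronecker, pX_h, conjTranspose_one]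
      · simp only [Majorana.step, Fin.cons_zero, Fin.cons_succ]
        rw [conjTranspose_kronecker, pY_h, conjTranspose_one]
      · simp only [Majorana.step, Fin.cons_succ]
        rw [conjTranspose_kronecker, pZ_h, hH]
    · rw [conjTranspose_kronecker, ← mul_kronecker_mul, hCC, conjTranspose_mul, hZh, pY_h,
        Matrix.mul_assoc, ← Matrix.mul_assoc (pZ ^ k), hZZ, one_mul, pY_sq, one_kronecker_one]
    · have h1 : (k + 1) * (k + 1 + 1) / 2 = k * (k + 1) / 2 + (k + 1) := by
        have : (k + 1) * (k + 1 + 1) = k * (k + 1) + (k + 1) * 2 := by ring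
        rw [this, Nat.add_mul_div_right _ _ (by norm_num)]
      rw [htr, hCT, transpose_mul, pY_t, hZt, hZY, h1, pow_add, pow_succ]
      simp only [Matrix.neg_mul, smul_kronecker, kronecker_smul, kron_neg, smul_smul]
      have : (-1 : ℂ) ^ (k * (k + 1) / 2) * ((-1) ^ k * -1) * (-1) ^ k =
          -(-1) ^ (k * (k + 1) / 2) := by
        linear_combination (-(-1 : ℂ) ^ (k * (k + 1) / 2)) * hs
      rw [this, neg_smul, smul_neg]
    · intro a
      refine Fin.cases ?_ (fun a => Fin.cases ?_ (fun a => ?_) a) a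
      · simp only [Majorana.step, Fin.cons_zero]
        rw [htr, pX_t, transpose_one, ← mul_kronecker_mul, ← mul_kronecker_mul, mul_one, one_mul,
          Matrix.mul_assoc, show pY * pX = -(pX * pY) by rw [pXY, neg_neg], Matrix.mul_neg,
          ← Matrix.mul_assoc, ← Matrix.mul_assoc, hXZ, Matrix.smul_mul]
        simp only [kron_neg, kronecker_smul, smul_smul, pow_succ]
        rw [show (-1 : ℂ) ^ k * -1 * (-1) ^ k = -1 by linear_combination -hs, neg_one_smul]
      · simp only [Majorana.step, Fin.cons_zero, Fin.cons_succ]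
        rw [htr, pY_t, transpose_one, ← mul_kronecker_mul, ← mul_kronecker_mul, mul_one, one_mul,
          Matrix.neg_mul, ← Matrix.mul_assoc]
        conv_lhs => rw [hZY]
        simp only [kron_neg, kronecker_smul, pow_succ, Matrix.smul_mul, smul_neg]
        rw [Matrix.mul_assoc]
        simp
      · simp only [Majorana.step, Fin.cons_succ]
        rw [htr, pZ_t, ← mul_kronecker_mul, ← mul_kronecker_mul, hCe, Matrix.mul_assoc, pYZ,
          Matrix.mul_neg, ← Matrix.mul_assoc, ← Matrix.mul_assoc, ← pow_succ, ← pow_succ']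
        simp only [kron_neg, smul_kronecker, pow_succ]
        simp

/-! ### rank one self-adjoint idempotents -/

section State

variable {n : Type} [Fintype n] [DecidableEq n]

/-- A self-adjoint idempotent of trace `1` is `ψ ψ*`. -/
theorem exists_state (P : Matrix n n ℂ) (hH : Pᴴ = P) (hP : P * P = P) (ht : P.trace = 1) :
    ∃ ψ : n → ℂ, star ψ ⬝ᵥ ψ = 1 ∧ P *ᵥ ψ = ψ ∧ P = vecMulVec ψ (star ψ) := by
  obtain ⟨φ, hφ⟩ : ∃ φ : n → ℂ, P *ᵥ φ ≠ 0 := by
    by_contra hcon
    push Not at hcon
    have : P = 0 := by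
      ext i j
      have := congrFun (hcon (Pi.single j 1)) i
      simpa using this
    rw [this] at ht
    simp at ht
  set χ := P *ᵥ φ with hχ
  have hPχ : P *ᵥ χ = χ := by rw [hχ, Matrix.mulVec_mulVec, hP]
  set N : ℝ := ∑ i, ‖χ i‖ ^ 2 with hN
  have hNc : star χ ⬝ᵥ χ = (N : ℂ) := by
    rw [hN, dotProduct]
    push_cast
    refine Finset.sum_congr rfl fun i _ => ?_
    rw [Pi.star_apply, ← Complex.conj_mul']
    rfl
  have hN0 : 0 < N := by
    obtain ⟨i, hi⟩ : ∃ i, χ i ≠ 0 := by
      by_contra hcon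
      push Not at hcon
      exact hφ (funext hcon)
    refine Finset.sum_pos' (fun _ _ => by positivity) ⟨i, Finset.mem_univ _, ?_⟩
    have := norm_pos_iff.mpr hi
    positivity
  set r : ℂ := (((Real.sqrt N)⁻¹ : ℝ) : ℂ) with hr
  have hrr : r * r * N = 1 := by
    rw [hr]
    norm_cast
    have := Real.mul_self_sqrt hN0.le
    have h2 : Real.sqrt N ≠ 0 := (Real.sqrt_pos.mpr hN0).ne'
    field_simp
    nlinarith
  have hrs : star r = r := by rw [hr]; exact Complex.conj_ofReal _
  set ψ := r • χ with hψ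
  have hψψ : star ψ ⬝ᵥ ψ = 1 := by
    rw [hψ, star_smul, hrs, smul_dotProduct, dotProduct_smul, hNc, smul_eq_mul, smul_eq_mul]
    linear_combination hrr
  have hPψ : P *ᵥ ψ = ψ := by rw [hψ, Matrix.mulVec_smul, hPχ]
  have hψP : star ψ ᵥ* P = star ψ := by
    have := congrArg star hPψ
    rw [Matrix.star_mulVec, hH] at this
    exact this
  refine ⟨ψ, hψψ, hPψ, ?_⟩
  set S := vecMulVec ψ (star ψ) with hS
  have hSH : Sᴴ = S := by rw [hS, conjTranspose_vecMulVec, star_star]
  have h1 : P * S = S := by rw [hS, Matrix.mul_vecMulVec, hPψ]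
  have h2 : S * P = S := by rw [hS, Matrix.vecMulVec_mul, hψP]
  have h3 : S * S = S := by
    rw [hS, Matrix.vecMulVec_mul_vecMulVec, hψψ]
    simp
  have h4 : (P - S)ᴴ * (P - S) = P - S := by
    rw [conjTranspose_sub, hH, hSH, Matrix.sub_mul, Matrix.mul_sub, Matrix.mul_sub, hP, h1, h2, h3]
    simp
  have h5 : (P - S).trace = 0 := by
    rw [Matrix.trace_sub, ht, hS, Matrix.trace_vecMulVec, dotProduct_comm, hψψ, sub_self]
  have h6 : P - S = 0 := by
    rw [← Matrix.trace_conjTranspose_mul_self_eq_zero_iff (A := P - S), h4]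
    exact h5
  exact sub_eq_zero.mp h6

end State

/-! ### pair projectors -/

section Pair

variable {m : ℕ} {n : Type} [Fintype n] [DecidableEq n] (M : Majorana m n)

/-- the pair projector `(1 + i η e_a e_b) / 2` -/
noncomputable def pairFac (a b : Fin m) (η : ℂ) : Matrix n n ℂ :=
  (1 / 2 : ℂ) • (1 + (Complex.I * η) • (M.e a * M.e b))

theorem ee_sq {a b : Fin m} (hab : a ≠ b) : (M.e a * M.e b) * (M.e a * M.e b) = -1 := by
  calc (M.e a * M.e b) * (M.e a * M.e b) = M.e a * (M.e b * M.e a) * M.e b := by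
        simp only [Matrix.mul_assoc]
    _ = -(M.e a * (M.e a * M.e b) * M.e b) := by
        rw [M.anti b a (Ne.symm hab)]; simp
    _ = -((M.e a * M.e a) * (M.e b * M.e b)) := by simp only [Matrix.mul_assoc]
    _ = -1 := by rw [M.sq, M.sq, one_mul]

theorem pairFac_idem {a b : Fin m} (hab : a ≠ b) {η : ℂ} (hη : η ^ 2 = 1) :
    pairFac M a b η * pairFac M a b η = pairFac M a b η := by
  have h1 : (Complex.I * η) * (Complex.I * η) = -1 := by
    linear_combination (η ^ 2) * Complex.I_sq - hη
  unfold pairFac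
  rw [Matrix.smul_mul, Matrix.mul_smul, smul_smul, Matrix.add_mul, Matrix.mul_add, Matrix.mul_add,
    one_mul, one_mul, mul_one, Matrix.smul_mul, Matrix.mul_smul, ee_sq M hab, smul_smul, h1]
  rw [neg_one_smul, neg_neg]
  module

theorem pairFac_herm {a b : Fin m} (hab : a ≠ b) (hH : ∀ a, (M.e a)ᴴ = M.e a) {η : ℂ}
    (hη : star η = η) : (pairFac M a b η)ᴴ = pairFac M a b η := by
  unfold pairFac
  rw [conjTranspose_smul, conjTranspose_add, conjTranspose_smul, conjTranspose_one,
    conjTranspose_mul, hH, hH, M.anti b a (Ne.symm hab), star_mul', hη]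
  simp

theorem ee_comm {a b c d : Fin m} (hac : a ≠ c) (had : a ≠ d) (hbc : b ≠ c) (hbd : b ≠ d) :
    (M.e a * M.e b) * (M.e c * M.e d) = (M.e c * M.e d) * (M.e a * M.e b) := by
  calc (M.e a * M.e b) * (M.e c * M.e d) = M.e a * (M.e b * M.e c) * M.e d := by
        simp only [Matrix.mul_assoc]
    _ = -(M.e a * M.e c * (M.e b * M.e d)) := by
        rw [M.anti b c hbc]; simp [Matrix.mul_assoc]
    _ = (M.e a * M.e c) * M.e d * M.e b := by
        rw [M.anti b d hbd]; simp [Matrix.mul_assoc]
    _ = -(M.e c * (M.e a * M.e d) * M.e b) := by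
        rw [M.anti a c hac]; simp [Matrix.mul_assoc]
    _ = (M.e c * M.e d) * (M.e a * M.e b) := by
        rw [M.anti a d had]; simp [Matrix.mul_assoc]

theorem pairFac_comm {a b c d : Fin m} (hac : a ≠ c) (had : a ≠ d) (hbc : b ≠ c) (hbd : b ≠ d)
    (η η' : ℂ) : pairFac M a b η * pairFac M c d η' = pairFac M c d η' * pairFac M a b η := by
  unfold pairFac
  simp only [Matrix.smul_mul, Matrix.mul_smul, Matrix.add_mul, Matrix.mul_add, one_mul, mul_one,
    ee_comm M hac had hbc hbd]
  module

/-- The product of pair projectors over disjoint pairs is a self-adjoint idempotent fixed by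
each factor; its trace is `card n / 2 ^ k`. -/
theorem pairProd (hH : ∀ a, (M.e a)ᴴ = M.e a) : ∀ (k : ℕ) (a b : Fin k → Fin m)
    (_ : Function.Injective (Sum.elim a b)) (η : Fin k → ℂ) (_ : ∀ j, η j = 1 ∨ η j = -1),
    let P := (List.ofFn fun j => pairFac M (a j) (b j) (η j)).prod
    Pᴴ = P ∧ P * P = P ∧ (∀ j, pairFac M (a j) (b j) (η j) * P = P) ∧
      (∀ j, P * pairFac M (a j) (b j) (η j) = P) := by
  intro k
  induction k with
  | zero => intro a b _ η _; simp
  | succ k ih =>
    intro a b hinj η hη P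
    have hne : ∀ i j, a i ≠ b j := fun i j h =>
      absurd (hinj (show Sum.elim a b (Sum.inl i) = Sum.elim a b (Sum.inr j) from h)) (by simp)
    have hna : ∀ i j, i ≠ j → a i ≠ a j := fun i j hij h =>
      hij (by simpa using hinj (show Sum.elim a b (Sum.inl i) = Sum.elim a b (Sum.inl j) from h))
    have hnb : ∀ i j, i ≠ j → b i ≠ b j := fun i j hij h =>
      hij (by simpa using hinj (show Sum.elim a b (Sum.inr i) = Sum.elim a b (Sum.inr j) from h))
    have hinj' : Function.Injective (Sum.elim (fun j : Fin k => a j.succ)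
        (fun j : Fin k => b j.succ)) := by
      rintro (x | x) (y | y) h
      · by_contra hcon
        exact hna x.succ y.succ (fun h' => hcon (by rw [Fin.succ_injective _ h'])) h
      · exact absurd h (hne x.succ y.succ)
      · exact absurd h.symm (hne y.succ x.succ)
      · by_contra hcon
        exact hnb x.succ y.succ (fun h' => hcon (by rw [Fin.succ_injective _ h'])) h
    obtain ⟨h1, h2, h3, h4⟩ := ih (fun j => a j.succ) (fun j => b j.succ) hinj'
      (fun j => η j.succ) (fun j => hη j.succ)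
    set Q := (List.ofFn fun j : Fin k => pairFac M (a j.succ) (b j.succ) (η j.succ)).prod with hQ
    set F := pairFac M (a 0) (b 0) (η 0) with hF
    have hPQ : P = F * Q := by
      simp only [P, List.ofFn_succ, List.prod_cons, hF, hQ]
    have hFF : F * F = F := pairFac_idem M (hne 0 0) (by
      rcases hη 0 with h | h <;> rw [h] <;> norm_num)
    have hFH : Fᴴ = F := pairFac_herm M (hne 0 0) hH (by
      rcases hη 0 with h | h <;> rw [h] <;> simp)
    have hFj : ∀ j : Fin k, F * pairFac M (a j.succ) (b j.succ) (η j.succ) =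
        pairFac M (a j.succ) (b j.succ) (η j.succ) * F := fun j =>
      pairFac_comm M (hna _ _ (Fin.succ_ne_zero j).symm) (hne _ _) (hne _ _).symm
        (hnb _ _ (Fin.succ_ne_zero j).symm) _ _
    have hFQ : F * Q = Q * F := by
      have : Commute F Q := by
        rw [hQ]
        apply Commute.list_prod_right
        intro x hx
        rw [List.mem_ofFn] at hx
        obtain ⟨j, rfl⟩ := hx
        exact hFj j
      exact this
    rw [hPQ]
    refine ⟨?_, ?_, ?_, ?_⟩
    · rw [conjTranspose_mul, h1, hFH, hFQ]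
    · calc F * Q * (F * Q) = F * (Q * F) * Q := by simp only [Matrix.mul_assoc]
        _ = F * F * (Q * Q) := by rw [← hFQ]; simp only [Matrix.mul_assoc]
        _ = F * Q := by rw [hFF, h2]
    · intro j
      refine Fin.cases ?_ (fun j => ?_) j
      · rw [← Matrix.mul_assoc, ← hF, hFF]
      · rw [← Matrix.mul_assoc, ← hFj, Matrix.mul_assoc, h3 j]
    · intro j
      refine Fin.cases ?_ (fun j => ?_) j
      · rw [hFQ, Matrix.mul_assoc, ← hF, hFF]
      · rw [Matrix.mul_assoc, h4 j]

/-- The trace of a product of pair projectors over disjoint pairs. -/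
theorem trace_pairProd (k : ℕ) (a b : Fin k → Fin m)
    (hinj : Function.Injective (Sum.elim a b)) (η : Fin k → ℂ) :
    (List.ofFn fun j => pairFac M (a j) (b j) (η j)).prod.trace * 2 ^ k = Fintype.card n := by
  have hev : evens a b = {0} := by
    ext c
    simp only [evens, Finset.mem_filter, Finset.mem_univ, true_and, Finset.mem_singleton]
    constructor
    · intro h
      funext j
      have h1 := congrFun h (a j)
      simp only [Matrix.mulVec, dotProduct, inc, Pi.zero_apply] at h1
      rw [Finset.sum_eq_single j] at h1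
      · have h2 : b j ≠ a j := fun h' =>
          absurd (hinj (show Sum.elim a b (Sum.inr j) = Sum.elim a b (Sum.inl j) from h'))
            (by simp)
        simpa [h2] using h1
      · intro i _ hij
        have h2 : a i ≠ a j := fun h' => hij (by
          simpa using hinj (show Sum.elim a b (Sum.inl i) = Sum.elim a b (Sum.inl j) from h'))
        have h3 : b i ≠ a j := fun h' =>
          absurd (hinj (show Sum.elim a b (Sum.inr i) = Sum.elim a b (Sum.inl j) from h'))
            (by simp)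
        simp [h2, h3]
      · intro h; exact absurd (Finset.mem_univ _) h
    · rintro rfl; simp
  have h1 : ∀ (k : ℕ) (a b : Fin k → Fin m) (η : Fin k → ℂ),
      (List.ofFn fun j => pairFac M (a j) (b j) (η j)).prod =
      (1 / 2 : ℂ) ^ k • (List.ofFn fun j => 1 + (Complex.I * η j) • (M.e (a j) * M.e (b j))).prod := by
    intro k
    induction k with
    | zero => intro a b η; simp
    | succ k ih =>
      intro a b η
      rw [List.ofFn_succ, List.prod_cons, List.ofFn_succ, List.prod_cons,
        ih (fun j => a j.succ) (fun j => b j.succ) (fun j => η j.succ)]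
      simp only [pairFac]
      rw [Matrix.smul_mul, Matrix.mul_smul, smul_smul, pow_succ, mul_comm (1 / 2 : ℂ)]
  obtain ⟨w, hw0, -, hw⟩ := trace_expand M a b (fun j => Complex.I * η j)
  rw [h1, Matrix.trace_smul, hw, hev, Finset.sum_singleton, hw0, smul_eq_mul, mul_one,
    mul_right_comm, ← mul_pow]
  norm_num

/-- **The state of a perfect matching.** -/
theorem exists_pairState (hH : ∀ a, (M.e a)ᴴ = M.e a) (k : ℕ) (hn : Fintype.card n = 2 ^ k)
    (a b : Fin k → Fin m) (hinj : Function.Injective (Sum.elim a b)) (η : Fin k → ℂ)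
    (hη : ∀ j, η j = 1 ∨ η j = -1) : ∃ ψ : n → ℂ, star ψ ⬝ᵥ ψ = 1 ∧
      (∀ j, pairFac M (a j) (b j) (η j) *ᵥ ψ = ψ) ∧
      (List.ofFn fun j => pairFac M (a j) (b j) (η j)).prod = vecMulVec ψ (star ψ) := by
  obtain ⟨h1, h2, h3, h4⟩ := pairProd M hH k a b hinj η hη
  have ht : (List.ofFn fun j => pairFac M (a j) (b j) (η j)).prod.trace = 1 := by
    have := trace_pairProd M k a b hinj η
    rw [hn] at this
    push_cast at this
    exact mul_right_cancel₀ (pow_ne_zero k two_ne_zero) (by rw [this, one_mul])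
  obtain ⟨ψ, hψ, hPψ, hP⟩ := exists_state _ h1 h2 ht
  refine ⟨ψ, hψ, fun j => ?_, hP⟩
  conv_lhs => rw [← hPψ]
  rw [Matrix.mulVec_mulVec, h3 j, hPψ]

end Pair

end Pool.Agent.Rohlin
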