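import Pool.Agent.Rohlin.Conn

/-!
# Germs: square roots and the Puiseux expansion at a simple branch point
-/

set_option autoImplicit false

namespace Pool.Agent.Rohlin.Germ

open Polynomial Complex Set Filter Topology
open scoped ContDiff

/-- a nonvanishing germ has a square root -/
lemma exists_sqrt {k : ℂ → ℂ} {p : ℂ} (hk : AnalyticAt ℂ k p) (h : k p ≠ 0) :
    ∃ m : ℂ → ℂ, AnalyticAt ℂ m p ∧ m p ≠ 0 ∧ ∀ y, m y ^ 2 = k y := by
  obtain ⟨κ, hκ⟩ := IsAlgClosed.exists_pow_nat_eq (k p) (n := 2) (by norm_num)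
  have hκ0 : κ ≠ 0 := by
    rintro rfl
    apply h
    rw [← hκ]
    norm_num
  have h1 : AnalyticAt ℂ (fun y => k y / k p) p := hk.div analyticAt_const h
  have h2 : AnalyticAt ℂ (fun y => (k y / k p) ^ (1 / 2 : ℂ)) p := by
    refine h1.cpow analyticAt_const ?_
    rw [div_self h]
    exact one_mem_slitPlane
  have h3 : ∀ y, (κ * (k y / k p) ^ (1 / 2 : ℂ)) ^ 2 = k y := by
    intro y
    have h4 := cpow_nat_inv_pow (k y / k p) (n := 2) two_ne_zero
    have h5 : ((k y / k p) ^ (1 / 2 : ℂ)) ^ 2 = k y / k p := by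
      convert h4 using 2
      norm_num
    rw [mul_pow, h5, hκ, mul_div_cancel₀ _ h]
  refine ⟨fun y => κ * (k y / k p) ^ (1 / 2 : ℂ), analyticAt_const.mul h2, ?_, h3⟩
  intro h0
  have h0' : κ * (k p / k p) ^ (1 / 2 : ℂ) = 0 := h0
  apply h
  rw [← h3 p, h0']
  norm_num

/-- comparison of orders -/
lemma eq_zero_of_le {A B : ℂ → ℂ} {p : ℂ} (hA : ContinuousAt A p) (hB : ContinuousAt B p)
    {a b : ℕ} (hab : a < b) {C : ℝ}
    (h : ∀ᶠ y in 𝓝 p, ‖(y - p) ^ a * A y‖ ≤ C * ‖(y - p) ^ b * B y‖) : A p = 0 := by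
  have h1 : ∀ᶠ y in 𝓝[≠] p, ‖A y‖ ≤ C * (‖y - p‖ ^ (b - a) * ‖B y‖) := by
    filter_upwards [eventually_nhdsWithin_of_eventually_nhds h, self_mem_nhdsWithin] with y hy hne
    have hpos : 0 < ‖y - p‖ ^ a := pow_pos (norm_pos_iff.2 (sub_ne_zero.2 hne)) _
    rw [norm_mul, norm_mul, norm_pow, norm_pow] at hy
    have h2 : ‖y - p‖ ^ b = ‖y - p‖ ^ a * ‖y - p‖ ^ (b - a) := by
      rw [← pow_add]
      congr 1
      omega
    rw [h2] at hy
    have h3 : ‖y - p‖ ^ a * ‖A y‖ ≤ ‖y - p‖ ^ a * (C * (‖y - p‖ ^ (b - a) * ‖B y‖)) := by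
      calc ‖y - p‖ ^ a * ‖A y‖ ≤ C * (‖y - p‖ ^ a * ‖y - p‖ ^ (b - a) * ‖B y‖) := hy
        _ = _ := by ring
    exact le_of_mul_le_mul_left h3 hpos
  have h4 : Tendsto (fun y => C * (‖y - p‖ ^ (b - a) * ‖B y‖)) (𝓝[≠] p) (𝓝 0) := by
    have h5 : ContinuousAt (fun y => C * (‖y - p‖ ^ (b - a) * ‖B y‖)) p := by
      have : ContinuousAt (fun y : ℂ => ‖y - p‖ ^ (b - a)) p := by fun_prop
      exact continuousAt_const.mul (this.mul hB.norm)
    have h6 := h5.tendsto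
    have h7 : C * (‖p - p‖ ^ (b - a) * ‖B p‖) = 0 := by
      rw [sub_self, norm_zero, zero_pow (by omega), zero_mul, mul_zero]
    rw [h7] at h6
    exact h6.mono_left nhdsWithin_le_nhds
  have h8 : Tendsto (fun y => ‖A y‖) (𝓝[≠] p) (𝓝 0) :=
    squeeze_zero' (Eventually.of_forall fun _ => norm_nonneg _) h1 h4
  have h9 : Tendsto (fun y => ‖A y‖) (𝓝[≠] p) (𝓝 ‖A p‖) :=
    hA.norm.tendsto.mono_left nhdsWithin_le_nhds
  exact norm_eq_zero.1 (tendsto_nhds_unique h9 h8)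

/-- a germ with a simple zero is `t` times a square -/
lemma exists_simple {φ : ℂ → ℂ} (hφ : AnalyticAt ℂ φ 0) (h0 : φ 0 = 0) {c : ℂ} (hc : c ≠ 0)
    (h1 : HasDerivAt φ c 0) :
    ∃ H : ℂ → ℂ, AnalyticAt ℂ H 0 ∧ H 0 ^ 2 = c ∧ ∀ᶠ t in 𝓝 0, φ t = t * H t ^ 2 := by
  have hnot : ¬ ∀ᶠ t in 𝓝 0, φ t = 0 := by
    intro h
    have h2 : HasDerivAt φ 0 0 :=
      (hasDerivAt_const (0 : ℂ) (0 : ℂ)).congr_of_eventuallyEq h
    exact hc (h1.unique h2)
  obtain ⟨n, G, hG, hG0, hfG⟩ := hφ.exists_eventuallyEq_pow_smul_nonzero_iff.2 hnot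
  have hn0 : n ≠ 0 := by
    rintro rfl
    have := hfG.self_of_nhds
    rw [h0] at this
    simp at this
    exact hG0 this.symm
  have hn1 : n = 1 := by
    by_contra hne
    obtain ⟨j, rfl⟩ : ∃ j, n = j + 2 := ⟨n - 2, by omega⟩
    have h2 : HasDerivAt (fun t : ℂ => (t - 0) ^ (j + 2) • G t)
        (((j + 2 : ℕ) : ℂ) * (0 - 0) ^ (j + 1) * 1 * G 0 + (0 - 0) ^ (j + 2) * deriv G 0) 0 := by
      have h3 : HasDerivAt (fun t : ℂ => (t - 0) ^ (j + 2))
          (((j + 2 : ℕ) : ℂ) * (0 - 0) ^ (j + 1) * 1) 0 := by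
        have := ((hasDerivAt_id' (0 : ℂ)).sub_const 0).fun_pow (j + 2)
        simpa using this
      simpa only [smul_eq_mul] using h3.fun_mul hG.differentiableAt.hasDerivAt
    have h4 := h1.unique (h2.congr_of_eventuallyEq hfG)
    apply hc
    rw [h4]
    simp
  subst hn1
  have h2 : HasDerivAt (fun t : ℂ => (t - 0) ^ 1 • G t) (G 0) 0 := by
    have h3 : HasDerivAt (fun t : ℂ => (t - 0) ^ 1) 1 0 := by
      simpa using (hasDerivAt_id (0 : ℂ)).sub_const 0
    have := h3.fun_mul hG.differentiableAt.hasDerivAt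
    simpa using this
  have h4 : c = G 0 := h1.unique (h2.congr_of_eventuallyEq hfG)
  obtain ⟨H, hH, -, hH2⟩ := exists_sqrt hG hG0
  refine ⟨H, hH, by rw [hH2, h4], ?_⟩
  filter_upwards [hfG] with t ht
  rw [ht, hH2]
  simp

/-- the Puiseux parametrization at a simple branch point -/
theorem exists_puiseux {F : ℂ × ℂ → ℂ} {z η : ℂ} (hF : ContDiffAt ℂ ω F (z, η))
    (hF0 : F (z, η) = 0) {cw : ℂ} (hcw : cw ≠ 0) (hw : HasDerivAt (fun w => F (w, η)) cw z)
    {R : ℂ → ℂ} (hR : ContinuousAt R η) (hR0 : R η ≠ 0)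
    (hFR : ∀ y, F (z, y) = (y - η) ^ 2 * R y) {d : ℂ} (hd : d ≠ 0) :
    ∃ Y : ℂ → ℂ, AnalyticAt ℂ Y 0 ∧ Y 0 = η ∧ deriv Y 0 ≠ 0 ∧
      (∀ᶠ t in 𝓝 0, F (z + t ^ 2 * d, Y t) = 0) ∧
      ∃ g : ℂ → ℂ, ∀ᶠ t in 𝓝 0, g (Y t) = t := by
  -- the implicit function
  have hcd : ContDiffAt ℂ ω (fun p : ℂ × ℂ => F (p.2, p.1)) (η, z) := by
    have h1 : ContDiffAt ℂ ω (fun p : ℂ × ℂ => (p.2, p.1)) (η, z) :=
      contDiffAt_snd.prodMk contDiffAt_fst
    exact ContDiffAt.comp (g := F) (f := fun p : ℂ × ℂ => (p.2, p.1)) (η, z) hF h1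
  have hone : (ω : WithTop ℕ∞) ≠ 0 := by simp
  have hst := hcd.hasStrictFDerivAt hone
  have hpart : fderiv ℂ (fun p : ℂ × ℂ => F (p.2, p.1)) (η, z) (0, 1) = cw := by
    have h2 : HasDerivAt (fun s : ℂ => ((η, s) : ℂ × ℂ)) (0, 1) z :=
      (hasDerivAt_const z η).prodMk (hasDerivAt_id z)
    have h3 := hst.hasFDerivAt.comp_hasDerivAt z h2
    exact h3.unique hw
  have hinv : ((fderiv ℂ (fun p : ℂ × ℂ => F (p.2, p.1)) (η, z)) ∘L
      .inr ℂ ℂ ℂ).IsInvertible := by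
    apply Family.isInvertible_of_ne
    simpa [hpart] using hcw
  set ψ := hcd.implicitFunction hone hinv with hψ
  have hψη : ψ η = z := hcd.implicitFunction_apply_self hone hinv
  have hψF : ∀ᶠ y in 𝓝 η, F (ψ y, y) = 0 := by
    have := hcd.eventually_apply_implicitFunction hone hinv
    filter_upwards [this] with y hy
    rw [← hF0]
    exact hy
  have hψa : AnalyticAt ℂ ψ η := by
    have := hcd.contDiffAt_implicitFunction hone hinv
    exact this.analyticAt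
  -- comparison of `F (z, y)` and `ψ y - z`
  have hcomp : ∀ᶠ y in 𝓝 η, ‖(y - η) ^ 2 * R y + cw * (ψ y - z)‖ ≤ ‖cw‖ / 2 * ‖ψ y - z‖ := by
    have h1 := hst.isLittleO
    have h2 : Tendsto (fun y => (((y, ψ y) : ℂ × ℂ), ((y, z) : ℂ × ℂ))) (𝓝 η)
        (𝓝 (((η, z) : ℂ × ℂ), ((η, z) : ℂ × ℂ))) := by
      have h3 : ContinuousAt (fun y => (((y, ψ y) : ℂ × ℂ), ((y, z) : ℂ × ℂ))) η :=
        (continuousAt_id.prodMk hψa.continuousAt).prodMk
          (continuousAt_id.prodMk continuousAt_const)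
      have h4 := h3.tendsto
      rw [hψη] at h4
      exact h4
    have h5 := (h1.comp_tendsto h2).def (half_pos (norm_pos_iff.2 hcw))
    filter_upwards [h5, hψF] with y hy hy0
    simp only [Function.comp_apply, Prod.mk_sub_mk, sub_self] at hy
    have h6 : fderiv ℂ (fun p : ℂ × ℂ => F (p.2, p.1)) (η, z) (0, ψ y - z) =
        cw * (ψ y - z) := by
      have h7 : ((0, ψ y - z) : ℂ × ℂ) = (ψ y - z) • ((0, 1) : ℂ × ℂ) := by simp
      rw [h7, map_smul, hpart, smul_eq_mul, mul_comm]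
    rw [h6, hy0, hFR y] at hy
    have h8 : (0 : ℂ) - (y - η) ^ 2 * R y - cw * (ψ y - z) =
        -((y - η) ^ 2 * R y + cw * (ψ y - z)) := by ring
    rw [h8, norm_neg] at hy
    refine hy.trans_eq ?_
    congr 1
    rw [Prod.norm_def]
    simp
  have hle1 : ∀ᶠ y in 𝓝 η, ‖(y - η) ^ 2 * R y‖ ≤ (3 / 2 * ‖cw‖) * ‖ψ y - z‖ := by
    filter_upwards [hcomp] with y hy
    have h1 : (y - η) ^ 2 * R y =
        ((y - η) ^ 2 * R y + cw * (ψ y - z)) - cw * (ψ y - z) := by ring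
    have h2 := norm_sub_le ((y - η) ^ 2 * R y + cw * (ψ y - z)) (cw * (ψ y - z))
    rw [← h1, norm_mul cw] at h2
    linarith
  have hle2 : ∀ᶠ y in 𝓝 η, ‖ψ y - z‖ ≤ (2 / ‖cw‖) * ‖(y - η) ^ 2 * R y‖ := by
    filter_upwards [hcomp] with y hy
    have hcw' : 0 < ‖cw‖ := norm_pos_iff.2 hcw
    have h1 : cw * (ψ y - z) =
        ((y - η) ^ 2 * R y + cw * (ψ y - z)) - (y - η) ^ 2 * R y := by ring
    have h2 := norm_sub_le ((y - η) ^ 2 * R y + cw * (ψ y - z)) ((y - η) ^ 2 * R y)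
    rw [← h1, norm_mul cw] at h2
    rw [div_mul_eq_mul_div, le_div_iff₀ hcw']
    linarith
  -- the order is two
  have hh : AnalyticAt ℂ (fun y => ψ y - z) η := hψa.sub analyticAt_const
  have hnot : ¬ ∀ᶠ y in 𝓝 η, ψ y - z = 0 := by
    intro h
    apply hR0
    refine eq_zero_of_le (A := R) (B := fun _ => 0) (a := 2) (b := 3) (C := 1) hR
      continuousAt_const (by norm_num) ?_
    filter_upwards [hle1, h] with y hy hy0
    rw [hy0, norm_zero, mul_zero] at hy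
    simpa using hy
  obtain ⟨n, k, hk, hk0, hfk⟩ := hh.exists_eventuallyEq_pow_smul_nonzero_iff.2 hnot
  have hn : n = 2 := by
    rcases lt_trichotomy n 2 with h | h | h
    · exfalso
      apply hk0
      refine eq_zero_of_le (A := k) (B := R) (a := n) (b := 2) (C := 2 / ‖cw‖) hk.continuousAt hR
        h ?_
      filter_upwards [hle2, hfk] with y hy hy2
      rw [hy2, smul_eq_mul] at hy
      exact hy
    · exact h
    · exfalso
      apply hR0
      refine eq_zero_of_le (A := R) (B := k) (a := 2) (b := n) (C := 3 / 2 * ‖cw‖) hR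
        hk.continuousAt h ?_
      filter_upwards [hle1, hfk] with y hy hy2
      rw [hy2, smul_eq_mul] at hy
      exact hy
  subst hn
  -- the coordinate
  obtain ⟨m, hm, hm0, hm2⟩ := exists_sqrt (k := fun y => k y / d) (p := η)
    (hk.div analyticAt_const hd) (div_ne_zero hk0 hd)
  set g : ℂ → ℂ := fun y => (y - η) * m y with hg
  have hga : AnalyticAt ℂ g η := (analyticAt_id.sub analyticAt_const).mul hm
  have hgη : g η = 0 := by simp [hg]
  have hgd : HasDerivAt g (m η) η := by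
    have h1 : HasDerivAt (fun y : ℂ => y - η) 1 η := (hasDerivAt_id' η).sub_const η
    have h2 := h1.fun_mul hm.differentiableAt.hasDerivAt
    simpa using h2
  have hgsq : ∀ᶠ y in 𝓝 η, ψ y = z + g y ^ 2 * d := by
    filter_upwards [hfk] with y hy
    have h1 : g y ^ 2 = (y - η) ^ 2 * (k y / d) := by
      rw [hg]
      simp only [mul_pow, hm2]
    rw [h1]
    rw [smul_eq_mul] at hy
    have h2 : (y - η) ^ 2 * (k y / d) * d = (y - η) ^ 2 * k y := by
      field_simp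
    rw [h2, ← hy]
    ring
  -- the inverse function
  have hgF := hgd.hasFDerivAt_equiv hm0
  have hgc : ContDiffAt ℂ ω g η := hga.contDiffAt
  set Y := hgc.localInverse hgF hone with hY
  have hY0 : Y 0 = η := by
    have := hgc.localInverse_apply_image hgF hone
    rwa [hgη] at this
  have hYa : AnalyticAt ℂ Y 0 := by
    have := hgc.to_localInverse hgF hone
    rw [hgη] at this
    exact this.analyticAt
  have hgY : ∀ᶠ t in 𝓝 0, g (Y t) = t := by
    have := (hgc.hasStrictFDerivAt' hgF hone).eventually_right_inverse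
    rw [hgη] at this
    exact this
  have hYt : Tendsto Y (𝓝 0) (𝓝 η) := by
    have := hYa.continuousAt.tendsto
    rwa [hY0] at this
  refine ⟨Y, hYa, hY0, ?_, ?_, g, hgY⟩
  · intro h0
    have h1 : HasDerivAt (fun t => g (Y t)) (m η * deriv Y 0) 0 := by
      have h2 : HasDerivAt g (m η) (Y 0) := by rw [hY0]; exact hgd
      exact h2.comp 0 hYa.differentiableAt.hasDerivAt
    have h3 : HasDerivAt (fun t => g (Y t)) 1 0 := (hasDerivAt_id 0).congr_of_eventuallyEq hgY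
    have h4 := h1.unique h3
    rw [h0, mul_zero] at h4
    exact zero_ne_one h4
  · filter_upwards [hgY, hYt.eventually hgsq, hYt.eventually hψF] with t h1 h2 h3
    rw [h2, h1] at h3
    exact h3

/-- a continuous function whose square tends to `r ^ 2` along preconnected sets tends to `± r` -/
lemma tendsto_of_sq {D : Set ℂ} {z : ℂ} {u : ℂ → ℂ} (hu : ContinuousOn u D) {r : ℂ} (hr : r ≠ 0)
    {ε₀ : ℝ} (hε₀ : 0 < ε₀)
    (hpre : ∀ ε, 0 < ε → ε ≤ ε₀ → IsPreconnected {w | w ∈ D ∧ ‖w - z‖ < ε})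
    (h : Tendsto (fun w => u w ^ 2) (𝓝[D] z) (𝓝 (r ^ 2))) :
    ∃ σ : ℂ, σ ^ 2 = r ^ 2 ∧ Tendsto u (𝓝[D] z) (𝓝 σ) := by
  have h1 : Tendsto (fun w => (u w / r) ^ 2) (𝓝[D] z) (𝓝 1) := by
    have := h.div_const (r ^ 2)
    rw [div_self (pow_ne_zero 2 hr)] at this
    simpa only [div_pow] using this
  -- on a small ball the square is close to one
  have h2 : ∀ᶠ w in 𝓝[D] z, ‖(u w / r) ^ 2 - 1‖ < 1 := by
    have := (Metric.tendsto_nhds.1 h1) 1 one_pos
    filter_upwards [this] with w hw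
    rwa [dist_eq_norm] at hw
  obtain ⟨ε₁, hε₁, hb⟩ := Metric.mem_nhdsWithin_iff.1 h2
  set ε := min ε₀ ε₁ with hε
  have hε0 : 0 < ε := lt_min hε₀ hε₁
  set S := {w | w ∈ D ∧ ‖w - z‖ < ε} with hS
  have hSp : IsPreconnected S := hpre ε hε0 (min_le_left _ _)
  have hSb : ∀ w ∈ S, ‖(u w / r) ^ 2 - 1‖ < 1 := by
    intro w hw
    refine hb ⟨?_, hw.1⟩
    rw [Metric.mem_ball, dist_eq_norm]
    exact hw.2.trans_le (min_le_right _ _)
  have hre : ∀ w ∈ S, (u w / r).re ≠ 0 := by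
    intro w hw h0
    have h3 := hSb w hw
    have h4 : ((u w / r) ^ 2).re ≤ 0 := by
      rw [sq, mul_re, h0]
      nlinarith [mul_self_nonneg (u w / r).im]
    have h5 : 1 ≤ ‖(u w / r) ^ 2 - 1‖ := by
      have h6 := abs_re_le_norm ((u w / r) ^ 2 - 1)
      rw [sub_re, one_re] at h6
      have h7 : 1 ≤ |((u w / r) ^ 2).re - 1| := by
        rw [abs_of_nonpos (by linarith)]
        linarith
      linarith
    linarith
  have hSD : S ⊆ D := fun w hw => hw.1
  have hcont : ContinuousOn (fun w => (u w / r).re) S :=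
    continuous_re.comp_continuousOn ((hu.mono hSD).div_const r)
  have hSmem : S ∈ 𝓝[D] z := by
    refine Metric.mem_nhdsWithin_iff.2 ⟨ε, hε0, fun w hw => ⟨hw.2, ?_⟩⟩
    have := hw.1
    rwa [Metric.mem_ball, dist_eq_norm] at this
  -- the key estimate
  have key : ∀ σ : ℂ, σ ≠ 0 → σ ^ 2 = r ^ 2 → (∀ w ∈ S, 0 < (u w / σ).re) →
      Tendsto u (𝓝[D] z) (𝓝 σ) := by
    intro σ hσ hσ2 hpos
    have h3 : Tendsto (fun w => (u w / σ) ^ 2) (𝓝[D] z) (𝓝 1) := by
      refine h1.congr fun w => ?_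
      rw [div_pow, div_pow, hσ2]
    have h4 : Tendsto (fun w => ‖(u w / σ) ^ 2 - 1‖) (𝓝[D] z) (𝓝 0) := by
      have := (h3.sub_const 1).norm
      simpa using this
    have h5 : Tendsto (fun w => ‖u w / σ - 1‖) (𝓝[D] z) (𝓝 0) := by
      refine squeeze_zero' (Eventually.of_forall fun _ => norm_nonneg _) ?_ h4
      filter_upwards [hSmem] with w hw
      have h6 : 1 ≤ ‖u w / σ + 1‖ := by
        have h7 := abs_re_le_norm (u w / σ + 1)
        rw [add_re, one_re] at h7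
        have h8 := le_abs_self ((u w / σ).re + 1)
        have := hpos w hw
        linarith
      have h9 : (u w / σ) ^ 2 - 1 = (u w / σ - 1) * (u w / σ + 1) := by ring
      rw [h9, norm_mul]
      exact le_mul_of_one_le_right (norm_nonneg _) h6
    have h10 : Tendsto (fun w => u w / σ) (𝓝[D] z) (𝓝 1) :=
      tendsto_iff_norm_sub_tendsto_zero.2 h5
    have h11 := h10.mul_const σ
    rw [one_mul] at h11
    refine h11.congr fun w => ?_
    exact div_mul_cancel₀ _ hσ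
  by_cases hne : S.Nonempty
  · obtain ⟨w₀, hw₀⟩ := hne
    rcases lt_or_gt_of_ne (hre w₀ hw₀) with hneg | hpos
    · refine ⟨-r, by ring, key (-r) (neg_ne_zero.2 hr) (by ring) fun w hw => ?_⟩
      rw [div_neg, neg_re]
      by_contra hcon
      have hge : 0 ≤ (u w / r).re := by linarith
      obtain ⟨w', hw', h0⟩ := hSp.intermediate_value hw₀ hw hcont ⟨hneg.le, hge⟩
      exact hre w' hw' h0
    · refine ⟨r, rfl, key r hr rfl fun w hw => ?_⟩
      by_contra hcon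
      obtain ⟨w', hw', h0⟩ := hSp.intermediate_value hw hw₀ hcont ⟨not_lt.1 hcon, hpos.le⟩
      exact hre w' hw' h0
  · refine ⟨r, rfl, key r hr rfl fun w hw => absurd ⟨w, hw⟩ hne⟩

end Pool.Agent.Rohlin.Germ
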