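import Pool.Agent.Rohlin.Labels
import Pool.Agent.Rohlin.DGeo

/-!
# Colours of the labels: well defined near every point of the curve over the closed disc
-/

set_option autoImplicit false

namespace Pool.Agent.Rohlin

open Set Topology Polynomial Filter Complex

namespace Ctx

variable {n : Type} [Fintype n] [DecidableEq n] (X : Ctx n)

lemma ne_c {z : ℂ} (hz : z ∈ X.Z) : z ≠ X.c := fun h => X.cZ (h ▸ hz)

lemma separable_of_notMem {w : ℂ} (hw : w ∉ X.Z) (h1 : ‖w‖ ≤ 1) : (fam X.f w).Separable := by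
  by_contra h
  exact hw ((X.hZ w).2 ⟨h1, h⟩)

lemma separable_of_mem_D {w : ℂ} (hw : w ∈ X.D) : (fam X.f w).Separable :=
  X.separable_of_notMem (notMem_of_mem_Star hw.1) hw.2

/-- every root is labelled -/
lemma exists_label {w : ℂ} (hw : w ∈ X.D) {y : ℂ} (hy : (fam X.f w).eval y = 0) :
    ∃ i, X.y i w = y :=
  (famF X.nf).eq_of_injective (X.y_inj w hw.1 hw.2) (X.y_root w hw.1 hw.2) hy

variable (κ : Fin 8 → ZMod 2)

/-- the colours of nearby labels agree -/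
def Good (w₀ : ℂ) : Prop :=
  ∃ ε > 0, ∀ w ∈ X.D, ∀ w' ∈ X.D, ‖w - w₀‖ < ε → ‖w' - w₀‖ < ε →
    ∀ i j, ‖X.y i w - X.y j w'‖ < ε → κ i = κ j

/-- the labels near `y₀` over points near `w₀` have the colour `k` -/
def Near (w₀ y₀ : ℂ) (k : ZMod 2) : Prop :=
  ∃ ε > 0, ∀ w ∈ X.D, ‖w - w₀‖ < ε → ∀ i, ‖X.y i w - y₀‖ < ε → κ i = k

variable {κ}

lemma isOpen_good : IsOpen {w | X.Good κ w} := by
  rw [Metric.isOpen_iff]
  rintro w₀ ⟨ε, hε, h⟩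
  refine ⟨ε / 2, half_pos hε, fun w₁ hw₁ => ⟨ε / 2, half_pos hε, fun w hw w' hw' h1 h2 i j h3 =>
    h w hw w' hw' ?_ ?_ i j (by linarith)⟩⟩
  · rw [Metric.mem_ball, dist_eq_norm] at hw₁
    calc ‖w - w₀‖ = ‖(w - w₁) + (w₁ - w₀)‖ := by congr 1; ring
      _ ≤ ‖w - w₁‖ + ‖w₁ - w₀‖ := norm_add_le _ _
      _ < ε := by linarith
  · rw [Metric.mem_ball, dist_eq_norm] at hw₁
    calc ‖w' - w₀‖ = ‖(w' - w₁) + (w₁ - w₀)‖ := by congr 1; ring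
      _ ≤ ‖w' - w₁‖ + ‖w₁ - w₀‖ := norm_add_le _ _
      _ < ε := by linarith

lemma good_of_mem_D {w₀ : ℂ} (hw₀ : w₀ ∈ X.D) : X.Good κ w₀ := by
  obtain ⟨ρ, hρ, hsep⟩ := (famF X.nf).exists_sep w₀
  have h1 : ∀ᶠ w in 𝓝[X.D] w₀, ∀ i, ‖X.y i w - X.y i w₀‖ < ρ := by
    refine eventually_all.2 fun i => ?_
    have h2 : ContinuousWithinAt (fun w => ‖X.y i w - X.y i w₀‖) X.D w₀ :=
      ((X.y_cont i w₀ hw₀).sub continuousWithinAt_const).norm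
    refine h2.eventually (gt_mem_nhds ?_)
    simpa using hρ
  obtain ⟨ε, hε, hball⟩ := Metric.mem_nhdsWithin_iff.1 h1
  refine ⟨min ε ρ, lt_min hε hρ, fun w hw w' hw' h2 h3 i j h4 => ?_⟩
  have e1 : ‖X.y i w - X.y i w₀‖ < ρ :=
    hball ⟨by rw [Metric.mem_ball, dist_eq_norm]; exact h2.trans_le (min_le_left _ _), hw⟩ i
  have e2 : ‖X.y j w' - X.y j w₀‖ < ρ :=
    hball ⟨by rw [Metric.mem_ball, dist_eq_norm]; exact h3.trans_le (min_le_left _ _), hw'⟩ j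
  have e3 : ‖X.y i w - X.y j w'‖ < ρ := h4.trans_le (min_le_right _ _)
  by_contra hne
  have hij : X.y i w₀ ≠ X.y j w₀ := by
    intro h
    have := X.y_inj w₀ hw₀.1 hw₀.2 h
    rw [this] at hne
    exact hne rfl
  have e4 := hsep _ _ (X.y_root w₀ hw₀.1 hw₀.2 i) (X.y_root w₀ hw₀.1 hw₀.2 j) hij
  have e5 : ‖X.y i w₀ - X.y j w₀‖ ≤ ‖X.y i w - X.y i w₀‖ + ‖X.y i w - X.y j w'‖ +
      ‖X.y j w' - X.y j w₀‖ := by
    calc ‖X.y i w₀ - X.y j w₀‖ = ‖-(X.y i w - X.y i w₀) + (X.y i w - X.y j w') +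
          (X.y j w' - X.y j w₀)‖ := by congr 1; ring
      _ ≤ ‖-(X.y i w - X.y i w₀)‖ + ‖X.y i w - X.y j w'‖ + ‖X.y j w' - X.y j w₀‖ :=
        norm_add₃_le
      _ = _ := by rw [norm_neg]
  linarith

/-- near a branch point the star domain is connected -/
lemma exists_preconn {z : ℂ} (hz : z ∈ X.Z) :
    ∃ ε₀ > 0, ∀ ε, 0 < ε → ε ≤ ε₀ → IsPreconnected {w | w ∈ X.D ∧ ‖w - z‖ < ε} := by
  have hzn : ‖z‖ ≤ 1 := ((X.hZ z).1 hz).1
  have h1 : ∀ z' ∈ X.Z, z' ≠ z → sc X.c z' z ∈ slitPlane := by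
    intro z' hz' hne
    rw [sc_mem_slitPlane_iff (X.ne_c hz')]
    intro t ht
    rcases ht.eq_or_lt with h | h
    · rw [← h]
      simpa using hne.symm
    · exact X.cgen z' hz' z hz t h
  obtain ⟨ε₀, hε₀, hb⟩ := Metric.eventually_nhds_iff.1 (eventually_avoid h1)
  refine ⟨ε₀, hε₀, fun ε hε hle => ?_⟩
  have h2 : {w | w ∈ X.D ∧ ‖w - z‖ < ε} =
      {w : ℂ | ‖w‖ ≤ 1 ∧ ‖w - z‖ < ε ∧ sc X.c z w ∈ slitPlane} := by
    ext w
    constructor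
    · rintro ⟨⟨h3, h4⟩, h5⟩
      exact ⟨h4, h5, sc_mem_slitPlane X.cZ hz h3⟩
    · rintro ⟨h3, h4, h5⟩
      refine ⟨⟨(mem_Star X.cZ).2 fun z' hz' => ?_, h3⟩, h4⟩
      by_cases hne : z' = z
      · rw [hne]
        exact h5
      · exact hb (by rw [dist_eq_norm]; exact h4.trans_le hle) z' hz' hne
  rw [h2]
  exact preconn_slitball (X.ne_c hz) X.hc hzn ε hε

/-- labels stay in their clusters -/
lemma cluster {z : ℂ} {ρ ε : ℝ}
    (hsep : ∀ y y', (fam X.f z).eval y = 0 → (fam X.f z).eval y' = 0 → y ≠ y' →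
      4 * ρ ≤ ‖y - y'‖)
    (hnear : ∀ w, ‖w - z‖ < ε → ∀ y, (fam X.f w).eval y = 0 →
      ∃ y₀, (fam X.f z).eval y₀ = 0 ∧ ‖y₀ - y‖ < ρ)
    {S : Set ℂ} (hS : IsPreconnected S) (hSD : S ⊆ X.D) (hSb : ∀ w ∈ S, ‖w - z‖ < ε)
    {i : Fin 8} {y₀ : ℂ} (hy₀ : (fam X.f z).eval y₀ = 0) {w w' : ℂ} (hw : w ∈ S) (hw' : w' ∈ S)
    (h : ‖X.y i w - y₀‖ < 2 * ρ) : ‖X.y i w' - y₀‖ < ρ := by
  classical
  -- the dichotomy
  have hdic : ∀ w ∈ S, ‖X.y i w - y₀‖ < 2 * ρ → ‖X.y i w - y₀‖ < ρ := by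
    intro w hw h
    obtain ⟨y₁, hy₁, hd⟩ := hnear w (hSb w hw) _ (X.y_root w (hSD hw).1 (hSD hw).2 i)
    by_cases hne : y₁ = y₀
    · rw [← hne, norm_sub_rev]
      exact hd
    · exfalso
      have h1 := hsep y₁ y₀ hy₁ hy₀ hne
      have h2 : ‖y₁ - y₀‖ ≤ ‖y₁ - X.y i w‖ + ‖X.y i w - y₀‖ := by
        have : y₁ - y₀ = (y₁ - X.y i w) + (X.y i w - y₀) := by ring
        rw [this]
        exact norm_add_le _ _
      have := norm_nonneg (y₁ - X.y i w)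
      linarith
  have hdic' : ∀ w ∈ S, ¬ ‖X.y i w - y₀‖ < 2 * ρ → 3 * ρ ≤ ‖X.y i w - y₀‖ := by
    intro w hw h
    obtain ⟨y₁, hy₁, hd⟩ := hnear w (hSb w hw) _ (X.y_root w (hSD hw).1 (hSD hw).2 i)
    have hne : y₁ ≠ y₀ := by
      rintro rfl
      apply h
      rw [norm_sub_rev]
      have := norm_nonneg (y₁ - X.y i w)
      linarith
    have h1 := hsep y₁ y₀ hy₁ hy₀ hne
    have h2 : ‖y₁ - y₀‖ ≤ ‖y₁ - X.y i w‖ + ‖X.y i w - y₀‖ := by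
      have : y₁ - y₀ = (y₁ - X.y i w) + (X.y i w - y₀) := by ring
      rw [this]
      exact norm_add_le _ _
    linarith
  have hρ : 0 < ρ := by
    obtain ⟨y₁, hy₁, hd⟩ := hnear w (hSb w hw) _ (X.y_root w (hSD hw).1 (hSD hw).2 i)
    exact (norm_nonneg _).trans_lt hd
  have hcont : ∀ w ∈ S, ContinuousWithinAt (fun w => ‖X.y i w - y₀‖) S w := fun w hw =>
    (((X.y_cont i w (hSD hw)).mono hSD).sub continuousWithinAt_const).norm
  have hloc : ∀ w ∈ S, ∀ᶠ w' in 𝓝[S] w,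
      decide (‖X.y i w' - y₀‖ < 2 * ρ) = decide (‖X.y i w - y₀‖ < 2 * ρ) := by
    intro w hw
    by_cases hlt : ‖X.y i w - y₀‖ < 2 * ρ
    · filter_upwards [(hcont w hw).eventually (gt_mem_nhds hlt)] with w' hw'
      rw [decide_eq_true hw', decide_eq_true hlt]
    · have h1 : 2 * ρ < ‖X.y i w - y₀‖ := by
        have := hdic' w hw hlt
        linarith
      filter_upwards [(hcont w hw).eventually (lt_mem_nhds h1)] with w' hw'
      rw [decide_eq_false hlt, decide_eq_false (not_lt.2 hw'.le)]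
  have h3 := Family.const_of_locally (f := fun w => decide (‖X.y i w - y₀‖ < 2 * ρ))
    hS hloc hw hw'
  rw [decide_eq_true h] at h3
  exact hdic w' hw' (of_decide_eq_true h3.symm)

/-- a label in a cluster near a branch point tends to the root -/
lemma tendsto_of_cluster {z : ℂ} {ρ ε : ℝ} (hε : 0 < ε)
    (hsep : ∀ y y', (fam X.f z).eval y = 0 → (fam X.f z).eval y' = 0 → y ≠ y' →
      4 * ρ ≤ ‖y - y'‖) {i : Fin 8} {y₀ : ℂ} (hy₀ : (fam X.f z).eval y₀ = 0)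
    (h : ∀ w ∈ X.D, ‖w - z‖ < ε → ‖X.y i w - y₀‖ < ρ) :
    Tendsto (X.y i) (𝓝[X.D] z) (𝓝 y₀) := by
  rw [Metric.tendsto_nhds]
  intro r hr
  by_cases hρ : 0 < ρ
  · have h1 := (famF X.nf).eventually_near z (lt_min hr hρ)
    have h2 : ∀ᶠ w in 𝓝 z, ‖w - z‖ < ε := by
      filter_upwards [Metric.ball_mem_nhds z hε] with w hw
      rwa [Metric.mem_ball, dist_eq_norm] at hw
    filter_upwards [eventually_nhdsWithin_of_eventually_nhds h1,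
      eventually_nhdsWithin_of_eventually_nhds h2, self_mem_nhdsWithin] with w h1 h2 h3
    obtain ⟨y₁, hy₁, hd⟩ := h1 (X.y i w) (X.y_root w h3.1 h3.2 i)
    have h4 := h w h3 h2
    have h5 : y₁ = y₀ := by
      by_contra hne
      have h6 := hsep y₁ y₀ hy₁ hy₀ hne
      have h7 : ‖y₁ - y₀‖ ≤ ‖y₁ - X.y i w‖ + ‖X.y i w - y₀‖ := by
        have : y₁ - y₀ = (y₁ - X.y i w) + (X.y i w - y₀) := by ring
        rw [this]
        exact norm_add_le _ _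
      have h8 := hd.trans_le (min_le_right _ _)
      linarith
    rw [dist_comm, dist_eq_norm, ← h5]
    exact hd.trans_le (min_le_left _ _)
  · have h2 : ∀ᶠ w in 𝓝 z, ‖w - z‖ < ε := by
      filter_upwards [Metric.ball_mem_nhds z hε] with w hw
      rwa [Metric.mem_ball, dist_eq_norm] at hw
    filter_upwards [eventually_nhdsWithin_of_eventually_nhds h2, self_mem_nhdsWithin] with w h2 h3
    have h4 := h w h3 h2
    have := norm_nonneg (X.y i w - y₀)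
    linarith

/-- everything near a branch point -/
lemma exists_clusters {z : ℂ} (hz : z ∈ X.Z) : ∃ ρ ε : ℝ, 0 < ρ ∧ 0 < ε ∧
    (∀ w, ‖w - z‖ < ε → ∀ y, (fam X.f w).eval y = 0 →
      ∃ y₀, (fam X.f z).eval y₀ = 0 ∧ ‖y₀ - y‖ < ρ) ∧
    ∀ i y₀, (fam X.f z).eval y₀ = 0 → ∀ w ∈ X.D, ‖w - z‖ < ε → ‖X.y i w - y₀‖ < 2 * ρ →
      Tendsto (X.y i) (𝓝[X.D] z) (𝓝 y₀) := by
  obtain ⟨ρ, hρ, hsep⟩ := (famF X.nf).exists_sep z
  obtain ⟨ε₁, hε₁, h1⟩ := Metric.eventually_nhds_iff.1 ((famF X.nf).eventually_near z hρ)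
  obtain ⟨ε₀, hε₀, h0⟩ := X.exists_preconn hz
  have hnear : ∀ w, ‖w - z‖ < min ε₀ ε₁ → ∀ y, (fam X.f w).eval y = 0 →
      ∃ y₀, (fam X.f z).eval y₀ = 0 ∧ ‖y₀ - y‖ < ρ := fun w hw y hy =>
    h1 (by rw [dist_eq_norm]; exact hw.trans_le (min_le_right _ _)) y hy
  refine ⟨ρ, min ε₀ ε₁, hρ, lt_min hε₀ hε₁, hnear, fun i y₀ hy₀ w hw hwε hd => ?_⟩
  have hS := h0 (min ε₀ ε₁) (lt_min hε₀ hε₁) (min_le_left _ _)
  refine X.tendsto_of_cluster (lt_min hε₀ hε₁) hsep hy₀ fun w' hw' hwε' => ?_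
  exact X.cluster hsep hnear hS (fun _ h => h.1) (fun _ h => h.2) hy₀ ⟨hw, hwε⟩ ⟨hw', hwε'⟩ hd

/-- at an interior branch point -/
lemma good_of_mem_Z {z : ℂ} (hz : z ∈ X.Z)
    (hbr : ∀ a b (y₀ : ℂ), Tendsto (X.y a) (𝓝[X.D] z) (𝓝 y₀) →
      Tendsto (X.y b) (𝓝[X.D] z) (𝓝 y₀) → κ a = κ b) : X.Good κ z := by
  obtain ⟨ρ, ε, hρ, hε, hnear, hcl⟩ := X.exists_clusters hz
  refine ⟨min ε ρ, lt_min hε hρ, fun w hw w' hw' h1 h2 i j h3 => ?_⟩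
  obtain ⟨y₀, hy₀, hd⟩ := hnear w (h1.trans_le (min_le_left _ _)) _ (X.y_root w hw.1 hw.2 i)
  refine hbr i j y₀ (hcl i y₀ hy₀ w hw (h1.trans_le (min_le_left _ _)) ?_)
    (hcl j y₀ hy₀ w' hw' (h2.trans_le (min_le_left _ _)) ?_)
  · rw [norm_sub_rev]
    linarith
  · have h4 : ‖X.y j w' - y₀‖ ≤ ‖X.y i w - X.y j w'‖ + ‖y₀ - X.y i w‖ := by
      have : X.y j w' - y₀ = -(X.y i w - X.y j w') - (y₀ - X.y i w) := by ring
      rw [this]
      refine (norm_sub_le _ _).trans ?_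
      rw [norm_neg]
    have h5 := h3.trans_le (min_le_right ε ρ)
    linarith

/-- the point of the slit of `z` with parameter `s` -/
noncomputable def slitPt (z : ℂ) (s : ℝ) : ℂ := z + s * (z - X.c)

lemma continuous_slitPt (z : ℂ) : Continuous (X.slitPt z) := by
  unfold slitPt
  fun_prop

lemma sc_slitPt {z : ℂ} (hz : z ∈ X.Z) (s : ℝ) : sc X.c z (X.slitPt z s) = ((-s : ℝ) : ℂ) := by
  have h0 : X.c - z ≠ 0 := sub_ne_zero.2 (Ne.symm (X.ne_c hz))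
  rw [sc, slitPt]
  field_simp
  push_cast
  ring

lemma norm_slitPt_lt {z : ℂ} {s s₀ : ℝ} (hs : 0 ≤ s) (hlt : s < s₀) (h : ‖X.slitPt z s₀‖ ≤ 1) :
    ‖X.slitPt z s‖ < 1 := by
  have hs₀ : 0 < 1 + s₀ := by linarith
  set q : ℝ := (1 + s) / (1 + s₀) with hq
  have hq0 : 0 ≤ q := div_nonneg (by linarith) hs₀.le
  have hq1 : q < 1 := (div_lt_one hs₀).2 (by linarith)
  have h1 : X.slitPt z s = ((1 - q : ℝ) : ℂ) * X.c + (q : ℂ) * X.slitPt z s₀ := by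
    have h2 : (q : ℂ) * (1 + s₀) = 1 + s := by
      have : q * (1 + s₀) = 1 + s := div_mul_cancel₀ _ hs₀.ne'
      exact_mod_cast this
    simp only [slitPt]
    push_cast
    linear_combination (X.c - z) * h2
  rw [h1]
  calc ‖((1 - q : ℝ) : ℂ) * X.c + (q : ℂ) * X.slitPt z s₀‖
      ≤ ‖((1 - q : ℝ) : ℂ) * X.c‖ + ‖(q : ℂ) * X.slitPt z s₀‖ := norm_add_le _ _
    _ = (1 - q) * ‖X.c‖ + q * ‖X.slitPt z s₀‖ := by
      rw [norm_mul, norm_mul, Complex.norm_real, Complex.norm_real, Real.norm_of_nonneg hq0,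
        Real.norm_of_nonneg (by linarith)]
    _ < 1 := by
      have h3 : (1 - q) * ‖X.c‖ < (1 - q) * 1 := mul_lt_mul_of_pos_left X.hc (by linarith)
      nlinarith

/-- the structure of the star domain near an inner point of a slit -/
lemma exists_slit_nbhd {z : ℂ} (hz : z ∈ X.Z) {s₀ : ℝ} (hs₀ : 0 < s₀) : ∃ ε₀ > 0,
    ∀ w, ‖w - X.slitPt z s₀‖ < ε₀ → (w ∈ Star X.c X.Z ↔ (sc X.c z w).im ≠ 0) := by
  have h1 : ∀ z' ∈ X.Z, z' ≠ z → sc X.c z' (X.slitPt z s₀) ∈ slitPlane := by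
    intro z' hz' hne
    rw [sc_mem_slitPlane_iff (X.ne_c hz')]
    intro t ht
    exact X.cgen2 z hz z' hz' hne.symm s₀ t hs₀.le ht
  have h2 : ∀ᶠ w in 𝓝 (X.slitPt z s₀), (sc X.c z w).re < 0 := by
    refine (continuous_re.comp (continuous_sc X.c z)).continuousAt.eventually (gt_mem_nhds ?_)
    show (sc X.c z (X.slitPt z s₀)).re < 0
    rw [X.sc_slitPt hz, ofReal_re]
    linarith
  obtain ⟨ε₀, hε₀, hb⟩ := Metric.eventually_nhds_iff.1 ((eventually_avoid h1).and h2)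
  refine ⟨ε₀, hε₀, fun w hw => ?_⟩
  obtain ⟨h3, h4⟩ := hb (y := w) (by rw [dist_eq_norm]; exact hw)
  constructor
  · intro h5
    have h6 := sc_mem_slitPlane X.cZ hz h5
    rw [mem_slitPlane_iff] at h6
    rcases h6 with h6 | h6
    · linarith
    · exact h6
  · intro h5
    refine (mem_Star X.cZ).2 fun z' hz' => ?_
    by_cases hne : z' = z
    · rw [hne, mem_slitPlane_iff]
      exact Or.inr h5
    · exact h3 z' hz' hne

lemma good_slit_closed {z : ℂ} (hz : z ∈ X.Z) {s₀ : ℝ} (hs₀ : 0 < s₀)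
    (hn : ‖X.slitPt z s₀‖ ≤ 1) (h : ∀ s, 0 ≤ s → s < s₀ → X.Good κ (X.slitPt z s)) :
    X.Good κ (X.slitPt z s₀) := by
  classical
  set w₀ := X.slitPt z s₀ with hw₀
  have hnot : w₀ ∉ X.Z := fun hmem => X.cgen z hz w₀ hmem s₀ hs₀ rfl
  have hreg : w₀ ∈ (famF X.nf).reg := X.separable_of_notMem hnot hn
  obtain ⟨δ, hδ, -, η, hηc, hηr, hηi⟩ := (famF X.nf).exists_local_labels' hreg
  obtain ⟨ε₀, hε₀, hst⟩ := X.exists_slit_nbhd hz hs₀
  obtain ⟨ρ, hρ, hsep⟩ := (famF X.nf).exists_sep w₀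
  have hw₀b : w₀ ∈ Metric.ball w₀ δ := Metric.mem_ball_self hδ
  have h1 : ∀ᶠ w in 𝓝 w₀, ∀ k, ‖η k w - η k w₀‖ < ρ := by
    refine eventually_all.2 fun k => ?_
    have h2 : ContinuousAt (fun w => ‖η k w - η k w₀‖) w₀ :=
      (((hηc k).continuousAt (Metric.ball_mem_nhds _ hδ)).sub continuousAt_const).norm
    refine h2.eventually (gt_mem_nhds ?_)
    simpa using hρ
  obtain ⟨ε₂, hε₂, hb⟩ := Metric.eventually_nhds_iff.1 h1
  set ε₁ := min ε₀ δ with hε₁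
  have hε₁0 : 0 < ε₁ := lt_min hε₀ hδ
  -- the halves
  let S : ℝ → Set ℂ := fun σ => {w : ℂ | ‖w‖ ≤ 1 ∧ ‖w - w₀‖ < ε₁ ∧ 0 < σ * (sc X.c z w).im}
  have hSD : ∀ σ, S σ ⊆ X.D := by
    rintro σ w ⟨h2, h3, h4⟩
    refine ⟨(hst w (h3.trans_le (min_le_left _ _))).2 fun h5 => ?_, h2⟩
    rw [h5, mul_zero] at h4
    exact lt_irrefl _ h4
  have hSb : ∀ σ, S σ ⊆ Metric.ball w₀ δ := by
    rintro σ w ⟨h2, h3, h4⟩
    rw [Metric.mem_ball, dist_eq_norm]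
    exact h3.trans_le (min_le_right _ _)
  have hmatch : ∀ σ i, (S σ).Nonempty → ∃ k, ∀ w ∈ S σ, X.y i w = η k w := by
    intro σ i hne
    refine (famF X.nf).match_labels (preconn_half z w₀ (X.ne_c hz) ε₁ σ) hne ?_ ?_ ?_ ?_ ?_
    · exact (X.y_cont i).mono (hSD σ)
    · exact fun k => (hηc k).mono (hSb σ)
    · exact fun w hw => X.y_root w (hSD σ hw).1 (hSD σ hw).2 i
    · exact fun w hw k => hηr w (hSb σ hw) k
    · exact fun w hw => hηi w (hSb σ hw)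
  refine ⟨min (min ε₁ ε₂) ρ, lt_min (lt_min hε₁0 hε₂) hρ, fun w hw w' hw' h2 h3 i j h4 => ?_⟩
  have hside : ∀ w ∈ X.D, ‖w - w₀‖ < min (min ε₁ ε₂) ρ → ∃ σ : ℝ, σ ^ 2 = 1 ∧ w ∈ S σ := by
    intro w hw h2
    have h5 : ‖w - w₀‖ < ε₁ := h2.trans_le ((min_le_left _ _).trans (min_le_left _ _))
    have h6 : (sc X.c z w).im ≠ 0 := (hst w (h5.trans_le (min_le_left _ _))).1 hw.1
    rcases lt_or_gt_of_ne h6 with h7 | h7
    · exact ⟨-1, by norm_num, hw.2, h5, by linarith⟩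
    · exact ⟨1, by norm_num, hw.2, h5, by linarith⟩
  obtain ⟨σ, hσ, hwS⟩ := hside w hw h2
  obtain ⟨σ', hσ', hwS'⟩ := hside w' hw' h3
  obtain ⟨k, hk⟩ := hmatch σ i ⟨w, hwS⟩
  obtain ⟨l, hl⟩ := hmatch σ' j ⟨w', hwS'⟩
  have hkl : k = l := by
    by_contra hne
    have e1 : ‖η k w - η k w₀‖ < ρ := hb (by
      rw [dist_eq_norm]
      exact h2.trans_le ((min_le_left _ _).trans (min_le_right _ _))) k
    have e2 : ‖η l w' - η l w₀‖ < ρ := hb (by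
      rw [dist_eq_norm]
      exact h3.trans_le ((min_le_left _ _).trans (min_le_right _ _))) l
    have e3 : ‖η k w - η l w'‖ < ρ := by
      rw [← hk w hwS, ← hl w' hwS']
      exact h4.trans_le (min_le_right _ _)
    have e4 := hsep _ _ (hηr w₀ hw₀b k) (hηr w₀ hw₀b l) fun h => hne (hηi w₀ hw₀b h)
    have e5 : ‖η k w₀ - η l w₀‖ ≤ ‖η k w - η k w₀‖ + ‖η k w - η l w'‖ + ‖η l w' - η l w₀‖ := by
      calc ‖η k w₀ - η l w₀‖ = ‖-(η k w - η k w₀) + (η k w - η l w') + (η l w' - η l w₀)‖ := by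
            congr 1; ring
        _ ≤ ‖-(η k w - η k w₀)‖ + ‖η k w - η l w'‖ + ‖η l w' - η l w₀‖ := norm_add₃_le
        _ = _ := by rw [norm_neg]
    linarith
  subst hkl
  -- a good point of the slit nearby
  have h5 : ∀ᶠ s in 𝓝[<] s₀, ‖X.slitPt z s - w₀‖ < ε₁ ∧ 0 ≤ s ∧ s < s₀ := by
    have e1 : ∀ᶠ s in 𝓝 s₀, ‖X.slitPt z s - w₀‖ < ε₁ := by
      refine ((X.continuous_slitPt z).sub continuous_const).norm.continuousAt.eventually
        (gt_mem_nhds ?_)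
      show ‖X.slitPt z s₀ - w₀‖ < ε₁
      rw [hw₀, sub_self, norm_zero]
      exact hε₁0
    have e2 : ∀ᶠ s in 𝓝 s₀, 0 ≤ s := by
      filter_upwards [lt_mem_nhds hs₀] with s hs
      exact hs.le
    filter_upwards [eventually_nhdsWithin_of_eventually_nhds e1,
      eventually_nhdsWithin_of_eventually_nhds e2, self_mem_nhdsWithin] with s h6 h7 h8
    exact ⟨h6, h7, h8⟩
  obtain ⟨s, hsε, hs0, hss⟩ := h5.exists
  obtain ⟨ε', hε', hg⟩ := h s hs0 hss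
  set w₁ := X.slitPt z s with hw₁
  have hw₁n : ‖w₁‖ < 1 := X.norm_slitPt_lt hs0 hss hn
  have hw₁b : w₁ ∈ Metric.ball w₀ δ := by
    rw [Metric.mem_ball, dist_eq_norm]
    exact hsε.trans_le (min_le_right _ _)
  -- points on the two sides
  let p : ℝ → ℝ → ℂ := fun σ τ => w₁ + (σ * τ) * I * (X.c - z)
  have hpc : ∀ σ, Continuous (p σ) := fun σ => by
    show Continuous fun τ : ℝ => w₁ + ((σ : ℂ) * (τ : ℂ)) * I * (X.c - z)
    fun_prop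
  have hp0 : ∀ σ, p σ 0 = w₁ := fun σ => by
    show w₁ + ((σ : ℂ) * ((0 : ℝ) : ℂ)) * I * (X.c - z) = w₁
    simp
  have hpsc : ∀ σ τ, (sc X.c z (p σ τ)).im = σ * τ := by
    intro σ τ
    have h0 : X.c - z ≠ 0 := sub_ne_zero.2 (Ne.symm (X.ne_c hz))
    have h6 : sc X.c z (p σ τ) = ((-s : ℝ) : ℂ) + ((σ * τ : ℝ) : ℂ) * I := by
      rw [← X.sc_slitPt hz s]
      show (w₁ + ((σ : ℂ) * (τ : ℂ)) * I * (X.c - z) - z) / (X.c - z) = _
      rw [sc, ← hw₁]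
      field_simp
      push_cast
      ring
    rw [h6]
    simp
  have hev : ∀ σ : ℝ, σ ^ 2 = 1 → ∀ᶠ τ in 𝓝[>] (0 : ℝ), p σ τ ∈ S σ ∧ ‖p σ τ - w₁‖ < ε' ∧
      ‖η k (p σ τ) - η k w₁‖ < ε' / 2 := by
    intro σ hσ
    have e1 : ∀ᶠ τ in 𝓝 (0 : ℝ), ‖p σ τ‖ ≤ 1 := by
      have : ∀ᶠ τ in 𝓝 (0 : ℝ), ‖p σ τ‖ < 1 := by
        refine (hpc σ).norm.continuousAt.eventually (gt_mem_nhds ?_)
        show ‖p σ 0‖ < 1
        rw [hp0]
        exact hw₁n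
      filter_upwards [this] with τ hτ
      exact hτ.le
    have e2 : ∀ᶠ τ in 𝓝 (0 : ℝ), ‖p σ τ - w₀‖ < ε₁ := by
      refine ((hpc σ).sub continuous_const).norm.continuousAt.eventually (gt_mem_nhds ?_)
      show ‖p σ 0 - w₀‖ < ε₁
      rw [hp0]
      exact hsε
    have e3 : ∀ᶠ τ in 𝓝 (0 : ℝ), ‖p σ τ - w₁‖ < ε' := by
      refine ((hpc σ).sub continuous_const).norm.continuousAt.eventually (gt_mem_nhds ?_)
      show ‖p σ 0 - w₁‖ < ε'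
      rw [hp0, sub_self, norm_zero]
      exact hε'
    have e4 : ∀ᶠ τ in 𝓝 (0 : ℝ), ‖η k (p σ τ) - η k w₁‖ < ε' / 2 := by
      have c1 : ContinuousAt (η k) (p σ 0) := by
        rw [hp0]
        exact (hηc k).continuousAt (Metric.isOpen_ball.mem_nhds hw₁b)
      have c2 : ContinuousAt (fun τ => ‖η k (p σ τ) - η k w₁‖) 0 :=
        ((c1.comp (hpc σ).continuousAt).sub continuousAt_const).norm
      refine c2.eventually (gt_mem_nhds ?_)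
      show ‖η k (p σ 0) - η k w₁‖ < ε' / 2
      rw [hp0, sub_self, norm_zero]
      exact half_pos hε'
    filter_upwards [eventually_nhdsWithin_of_eventually_nhds e1,
      eventually_nhdsWithin_of_eventually_nhds e2, eventually_nhdsWithin_of_eventually_nhds e3,
      eventually_nhdsWithin_of_eventually_nhds e4, self_mem_nhdsWithin] with τ a1 a2 a3 a4 a5
    refine ⟨⟨a1, a2, ?_⟩, a3, a4⟩
    rw [hpsc, ← mul_assoc, ← pow_two, hσ, one_mul]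
    exact a5
  obtain ⟨τ, ⟨h6, h7, h8⟩, h9, h10, h11⟩ := ((hev σ hσ).and (hev σ' hσ')).exists
  refine hg _ (hSD σ h6) _ (hSD σ' h9) h7 h10 i j ?_
  rw [hk _ h6, hl _ h9]
  calc ‖η k (p σ τ) - η k (p σ' τ)‖
      = ‖(η k (p σ τ) - η k w₁) - (η k (p σ' τ) - η k w₁)‖ := by congr 1; ring
    _ ≤ ‖η k (p σ τ) - η k w₁‖ + ‖η k (p σ' τ) - η k w₁‖ := norm_sub_le _ _
    _ < ε' := by linarith

variable (κ) in
/-- the hypothesis on the colouring: labels which collide at an interior branch point have the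
same colour -/
def BrOK : Prop := ∀ z ∈ X.Z, ‖z‖ < 1 → ∀ a b (y₀ : ℂ), Tendsto (X.y a) (𝓝[X.D] z) (𝓝 y₀) →
  Tendsto (X.y b) (𝓝[X.D] z) (𝓝 y₀) → κ a = κ b

lemma good_all (hbr : X.BrOK κ) {w₀ : ℂ} (hw₀ : ‖w₀‖ ≤ 1) (hZ : w₀ ∈ X.Z → ‖w₀‖ < 1) :
    X.Good κ w₀ := by
  by_cases hst : w₀ ∈ Star X.c X.Z
  · exact X.good_of_mem_D ⟨hst, hw₀⟩
  simp only [Star, mem_ofPred_eq, not_forall, not_not] at hst
  obtain ⟨z, hz, t, ht, he⟩ := hst
  have he' : w₀ = X.slitPt z t := he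
  rcases ht.eq_or_lt with h0 | h0
  · have : w₀ = z := by
      rw [he', slitPt, ← h0]
      simp
    rw [this] at hZ ⊢
    exact X.good_of_mem_Z hz (hbr z hz (hZ hz))
  rw [he'] at hw₀ ⊢
  have hgood0 : X.Good κ (X.slitPt z 0) := by
    have h1 : X.slitPt z 0 = z := by simp [slitPt]
    have h2 := X.norm_slitPt_lt le_rfl h0 hw₀
    rw [h1] at h2 ⊢
    exact X.good_of_mem_Z hz (hbr z hz h2)
  by_contra hcon
  let B : Set ℝ := Icc 0 t ∩ (X.slitPt z) ⁻¹' {w | X.Good κ w}ᶜ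
  have hBc : IsCompact B :=
    isCompact_Icc.inter_right ((X.isOpen_good.isClosed_compl).preimage (X.continuous_slitPt z))
  have hBne : B.Nonempty := ⟨t, ⟨h0.le, le_rfl⟩, hcon⟩
  obtain ⟨s₀, ⟨hs₀I, hs₀B⟩, hmin⟩ := hBc.exists_isLeast hBne
  have hs₀ : 0 < s₀ := by
    rcases hs₀I.1.eq_or_lt with h1 | h1
    · exfalso
      rw [← h1] at hs₀B
      exact hs₀B hgood0
    · exact h1
  refine hs₀B (X.good_slit_closed hz hs₀ ?_ fun s hs hlt => ?_)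
  · rcases hs₀I.2.eq_or_lt with h1 | h1
    · rw [h1]
      exact hw₀
    · exact (X.norm_slitPt_lt hs₀I.1 h1 hw₀).le
  · by_contra hbad
    exact not_le.2 hlt (hmin ⟨⟨hs, hlt.le.trans hs₀I.2⟩, hbad⟩)

/-! ### the colour near a point of the curve -/

lemma near_of_good {w₀ : ℂ} (h : X.Good κ w₀) (y₀ : ℂ) : ∃ k, X.Near κ w₀ y₀ k := by
  obtain ⟨ε, hε, hg⟩ := h
  by_cases hex : ∃ w ∈ X.D, ‖w - w₀‖ < ε / 2 ∧ ∃ i, ‖X.y i w - y₀‖ < ε / 2
  · obtain ⟨w, hw, h1, i, h2⟩ := hex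
    refine ⟨κ i, ε / 2, half_pos hε, fun w' hw' h3 j h4 => ?_⟩
    refine (hg w hw w' hw' (by linarith) (by linarith) i j ?_).symm
    calc ‖X.y i w - X.y j w'‖ = ‖(X.y i w - y₀) - (X.y j w' - y₀)‖ := by congr 1; ring
      _ ≤ ‖X.y i w - y₀‖ + ‖X.y j w' - y₀‖ := norm_sub_le _ _
      _ < ε := by linarith
  · refine ⟨0, ε / 2, half_pos hε, fun w' hw' h3 j h4 => ?_⟩
    exact absurd ⟨w', hw', h3, j, h4⟩ hex

/-- at a branch point, near a simple root -/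
lemma near_of_simple {z : ℂ} (hz : z ∈ X.Z) {y₀ : ℂ} (hy₀ : (fam X.f z).eval y₀ = 0)
    (hd : (derivative (fam X.f z)).eval y₀ ≠ 0) : ∃ k, X.Near κ z y₀ k := by
  obtain ⟨ρ, ε, hρ, hε, -, hcl⟩ := X.exists_clusters hz
  by_cases hex : ∃ w ∈ X.D, ‖w - z‖ < ε ∧ ∃ i, ‖X.y i w - y₀‖ < 2 * ρ
  · obtain ⟨w, hw, h1, i, h2⟩ := hex
    have hti := hcl i y₀ hy₀ w hw h1 h2
    refine ⟨κ i, min ε (2 * ρ), lt_min hε (by positivity), fun w' hw' h3 j h4 => ?_⟩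
    have htj := hcl j y₀ hy₀ w' hw' (h3.trans_le (min_le_left _ _)) (h4.trans_le (min_le_right _ _))
    -- the labels agree near `z`
    have dfu : HasStrictFDerivAt (famF X.nf).g (fderiv ℂ (famF X.nf).g (z, y₀)) (z, y₀) :=
      (contDiff_fam X.f (n := 1)).contDiffAt.hasStrictFDerivAt (by norm_num)
    have hinv : ((fderiv ℂ (famF X.nf).g (z, y₀)) ∘L .inr ℂ ℂ ℂ).IsInvertible := by
      apply Family.isInvertible_of_ne
      have h5 : fderiv ℂ (famF X.nf).g (z, y₀) (0, 1) = (derivative (fam X.f z)).eval y₀ := by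
        have h1 : HasFDerivAt (famF X.nf).g (fderiv ℂ (famF X.nf).g (z, y₀)) (z, y₀) :=
          dfu.hasFDerivAt
        have h2 : HasDerivAt (fun s : ℂ => ((z, s) : ℂ × ℂ)) (0, 1) y₀ :=
          (hasDerivAt_const y₀ z).prodMk (hasDerivAt_id y₀)
        have h3 := h1.comp_hasDerivAt y₀ h2
        have h4 : HasDerivAt ((famF X.nf).g ∘ fun s : ℂ => ((z, s) : ℂ × ℂ))
            ((derivative (fam X.f z)).eval y₀) y₀ := (fam X.f z).hasDerivAt y₀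
        exact h3.unique h4
      simpa [h5] using hd
    have h6 := dfu.eventually_apply_eq_iff_implicitFunctionOfProdDomain hinv
    have hg0 : (famF X.nf).g (z, y₀) = 0 := hy₀
    have htd : ∀ l, Tendsto (X.y l) (𝓝[X.D] z) (𝓝 y₀) →
        Tendsto (fun w => (w, X.y l w)) (𝓝[X.D] z) (𝓝 (z, y₀)) := by
      intro l hl
      rw [nhds_prod_eq]
      exact (tendsto_id.mono_left nhdsWithin_le_nhds).prodMk hl
    have h7 := (htd i hti).eventually h6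
    have h8 := (htd j htj).eventually h6
    have hne : (𝓝[X.D] z).NeBot := by
      rw [← mem_closure_iff_nhdsWithin_neBot, Metric.mem_closure_iff]
      intro r hr
      obtain ⟨w, hw, hw1, hw2⟩ := exists_mem_Star_near X.hc X.cZ ((X.hZ z).1 hz).1 hr
      exact ⟨w, ⟨hw, hw1⟩, by rw [dist_comm, dist_eq_norm]; exact hw2⟩
    obtain ⟨w'', h9, h10, h11⟩ := (h7.and (h8.and self_mem_nhdsWithin)).exists
    have e1 := h9.1 (by rw [hg0]; exact X.y_root w'' h11.1 h11.2 i)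
    have e2 := h10.1 (by rw [hg0]; exact X.y_root w'' h11.1 h11.2 j)
    have e3 : X.y i w'' = X.y j w'' := e1.symm.trans e2
    rw [X.y_inj w'' h11.1 h11.2 e3]
  · refine ⟨0, min ε (2 * ρ), lt_min hε (by positivity), fun w' hw' h3 j h4 => ?_⟩
    exact absurd ⟨w', hw', h3.trans_le (min_le_left _ _), j, h4.trans_le (min_le_right _ _)⟩ hex

/-- the existence of the colour -/
lemma exists_near (hbr : X.BrOK κ) {w₀ y₀ : ℂ} (hw₀ : ‖w₀‖ ≤ 1) (hy₀ : (fam X.f w₀).eval y₀ = 0)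
    (h : ‖w₀‖ = 1 → (derivative (fam X.f w₀)).eval y₀ ≠ 0) : ∃ k, X.Near κ w₀ y₀ k := by
  by_cases hZ : w₀ ∈ X.Z
  · rcases hw₀.eq_or_lt with h1 | h1
    · exact X.near_of_simple hZ hy₀ (h h1)
    · exact X.near_of_good (X.good_all hbr hw₀ fun _ => h1) y₀
  · exact X.near_of_good (X.good_all hbr hw₀ fun h => absurd h hZ) y₀

/-- there are labels close to every point of the curve -/
lemma exists_close {w₀ y₀ : ℂ} (hw₀ : ‖w₀‖ ≤ 1) (hy₀ : (fam X.f w₀).eval y₀ = 0) {ε : ℝ}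
    (hε : 0 < ε) : ∃ w ∈ X.D, ‖w - w₀‖ < ε ∧ ∃ i, ‖X.y i w - y₀‖ < ε := by
  obtain ⟨δ, hδ, hb⟩ := Metric.eventually_nhds_iff.1
    ((famF X.nf).eventually_root (x := w₀) (y := y₀) hy₀ hε)
  obtain ⟨w, hw, hw1, hw2⟩ := exists_mem_Star_near X.hc X.cZ hw₀ (lt_min hδ hε)
  obtain ⟨y', hy', hd⟩ := hb (y := w) (by rw [dist_eq_norm]; exact hw2.trans_le (min_le_left _ _))
  obtain ⟨i, rfl⟩ := X.exists_label ⟨hw, hw1⟩ hy'
  exact ⟨w, ⟨hw, hw1⟩, hw2.trans_le (min_le_right _ _), i, hd⟩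

lemma near_unique {w₀ y₀ : ℂ} (hw₀ : ‖w₀‖ ≤ 1) (hy₀ : (fam X.f w₀).eval y₀ = 0) {k k' : ZMod 2}
    (h : X.Near κ w₀ y₀ k) (h' : X.Near κ w₀ y₀ k') : k = k' := by
  obtain ⟨ε, hε, h1⟩ := h
  obtain ⟨ε', hε', h2⟩ := h'
  obtain ⟨w, hw, h3, i, h4⟩ := X.exists_close hw₀ hy₀ (lt_min hε hε')
  rw [← h1 w hw (h3.trans_le (min_le_left _ _)) i (h4.trans_le (min_le_left _ _)),
    h2 w hw (h3.trans_le (min_le_right _ _)) i (h4.trans_le (min_le_right _ _))]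

lemma near_open {w₀ y₀ : ℂ} {k : ZMod 2} (h : X.Near κ w₀ y₀ k) :
    ∃ ε > 0, ∀ w₁ y₁, ‖w₁ - w₀‖ < ε → ‖y₁ - y₀‖ < ε → X.Near κ w₁ y₁ k := by
  obtain ⟨ε, hε, h1⟩ := h
  refine ⟨ε / 2, half_pos hε, fun w₁ y₁ h2 h3 => ⟨ε / 2, half_pos hε, fun w hw h4 i h5 => ?_⟩⟩
  refine h1 w hw ?_ i ?_
  · calc ‖w - w₀‖ = ‖(w - w₁) + (w₁ - w₀)‖ := by congr 1; ring
      _ ≤ ‖w - w₁‖ + ‖w₁ - w₀‖ := norm_add_le _ _
      _ < ε := by linarith
  · calc ‖X.y i w - y₀‖ = ‖(X.y i w - y₁) + (y₁ - y₀)‖ := by congr 1; ring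
      _ ≤ ‖X.y i w - y₁‖ + ‖y₁ - y₀‖ := norm_add_le _ _
      _ < ε := by linarith

end Ctx

end Pool.Agent.Rohlin
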