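import Pool.Agent.Rohlin.RealGauge

/-!
# The special angles and a grid of regular angles between them
-/

set_option autoImplicit false

namespace Pool.Agent.Rohlin

open Polynomial Complex Set Matrix Filter Topology

theorem circ_inj {θ θ' : ℝ} (h0 : 0 < θ) (h1 : θ < Real.pi) (h0' : 0 < θ') (h1' : θ' < Real.pi)
    (h : circ θ = circ θ') : θ = θ' := by
  unfold circ at h
  obtain ⟨k, hk⟩ := Complex.exp_eq_exp_iff_exists_int.mp h
  have h2 : (θ : ℂ) = θ' + k * Real.pi := by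
    have h3 : (2 * I) * (θ : ℂ) = (2 * I) * (θ' + k * Real.pi) := by
      linear_combination hk
    exact mul_left_cancel₀ (by simp [Complex.I_ne_zero]) h3
  have h3 : θ = θ' + k * Real.pi := by exact_mod_cast h2
  have hpi := Real.pi_pos
  have h4 : k = 0 := by
    have h5 : (k : ℝ) < 1 := by
      by_contra hc
      push Not at hc
      nlinarith
    have h6 : (-1 : ℝ) < k := by
      by_contra hc
      push Not at hc
      nlinarith
    have h7 : k < 1 := by exact_mod_cast h5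
    have h8 : -1 < k := by exact_mod_cast h6
    omega
  rw [h3, h4]
  simp

theorem exists_circ {w : ℂ} (h : ‖w‖ = 1) (h1 : w ≠ 1) :
    ∃ θ : ℝ, 0 < θ ∧ θ < Real.pi ∧ circ θ = w := by
  have hw : exp (arg w * I) = w := by
    have := Complex.norm_mul_exp_arg_mul_I w
    rwa [h, ofReal_one, one_mul] at this
  have hpi := Real.pi_pos
  have ha := Complex.neg_pi_lt_arg w
  have hb := Complex.arg_le_pi w
  rcases lt_trichotomy (arg w) 0 with h2 | h2 | h2
  · refine ⟨arg w / 2 + Real.pi, by linarith, by linarith, ?_⟩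
    unfold circ
    rw [show (2 * ((arg w / 2 + Real.pi : ℝ) : ℂ) * I) = arg w * I + 2 * Real.pi * I by
      push_cast; ring, Complex.exp_add, Complex.exp_two_pi_mul_I, mul_one, hw]
  · exfalso
    rw [h2] at hw
    simp at hw
    exact h1 hw.symm
  · refine ⟨arg w / 2, by linarith, by linarith, ?_⟩
    unfold circ
    rw [show (2 * ((arg w / 2 : ℝ) : ℂ) * I) = arg w * I by push_cast; ring, hw]

theorem exists_exit {z c : ℂ} (hz : ‖z‖ ≤ 1) (hzc : z ≠ c) :
    ∃ t : ℝ, 0 ≤ t ∧ ‖z + t * (z - c)‖ = 1 := by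
  have hpos : 0 < ‖z - c‖ := norm_pos_iff.mpr (sub_ne_zero.mpr hzc)
  have hcont : Continuous fun t : ℝ => ‖z + t * (z - c)‖ := by fun_prop
  have h0 : ‖z + ((0 : ℝ) : ℂ) * (z - c)‖ ≤ 1 := by simpa using hz
  have h1 : 1 ≤ ‖z + ((2 / ‖z - c‖ : ℝ) : ℂ) * (z - c)‖ := by
    have h2 : ‖((2 / ‖z - c‖ : ℝ) : ℂ) * (z - c)‖ = 2 := by
      rw [norm_mul, Complex.norm_real, Real.norm_of_nonneg (by positivity)]
      field_simp
    have h3 := norm_sub_norm_le (((2 / ‖z - c‖ : ℝ) : ℂ) * (z - c)) (-z)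
    rw [h2, norm_neg, sub_neg_eq_add, add_comm] at h3
    rw [add_comm z]
    rw [add_comm] at h3
    linarith
  obtain ⟨t, ht, h⟩ := intermediate_value_Icc (show (0 : ℝ) ≤ 2 / ‖z - c‖ by positivity)
    hcont.continuousOn ⟨h0, h1⟩
  exact ⟨t, ht.1, h⟩

theorem exit_unique {z c : ℂ} (hc : ‖c‖ < 1) {t t' : ℝ} (ht : 0 ≤ t) (htt : t < t')
    (h : ‖z + t * (z - c)‖ = 1) (h' : ‖z + t' * (z - c)‖ = 1) : False := by
  have h1 : (0 : ℝ) < 1 + t' := by linarith
  have h1' : ((1 : ℂ) + t') ≠ 0 := by exact_mod_cast h1.ne'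
  have e : z + t * (z - c) = ((1 - (1 + t) / (1 + t') : ℝ) : ℂ) * c +
      (((1 + t) / (1 + t') : ℝ) : ℂ) * (z + t' * (z - c)) := by
    push_cast
    field_simp
    ring
  have h2 : 0 < (1 + t) / (1 + t') := by positivity
  have h3 : (1 + t) / (1 + t') < 1 := by rw [div_lt_one h1]; linarith
  have h4 : ‖z + t * (z - c)‖ ≤ (1 - (1 + t) / (1 + t')) * ‖c‖ + (1 + t) / (1 + t') * 1 := by
    rw [e]
    refine (norm_add_le _ _).trans (add_le_add ?_ ?_)
    · rw [norm_mul, Complex.norm_real, Real.norm_of_nonneg (by linarith)]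
    · rw [norm_mul, Complex.norm_real, Real.norm_of_nonneg h2.le, h']
  rw [h] at h4
  nlinarith

/-- a grid adapted to a finite set of angles -/
theorem exists_grid (E : Finset ℝ) (hE : ∀ θ ∈ E, 0 < θ ∧ θ < Real.pi) (hne : E.Nonempty) :
    ∃ (N : ℕ) (e τ : ℕ → ℝ), τ 0 = 0 ∧ τ N = Real.pi ∧ (Finset.range N).image e = E ∧
      Set.InjOn e (Finset.range N) ∧
      (∀ i < N, 0 ≤ τ i ∧ τ i < e i ∧ e i < τ (i + 1) ∧ τ (i + 1) ≤ Real.pi ∧
        ∀ θ ∈ E, τ i ≤ θ → θ ≤ τ (i + 1) → θ = e i) ∧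
      ∀ θ, 0 ≤ θ → θ ≤ Real.pi → ∃ i < N, τ i ≤ θ ∧ θ ≤ τ (i + 1) := by
  classical
  set N := E.card with hN
  have hN0 : 0 < N := Finset.card_pos.mpr hne
  set o : Fin N ↪o ℝ := E.orderEmbOfFin rfl with ho
  have hmem : ∀ i, o i ∈ E := fun i => Finset.orderEmbOfFin_mem E rfl i
  have hsurj : ∀ θ ∈ E, ∃ i, o i = θ := by
    intro θ hθ
    have : Set.range o = E := Finset.range_orderEmbOfFin E rfl
    have h : θ ∈ Set.range o := by rw [this]; exact hθ
    exact h
  let e : ℕ → ℝ := fun i => if h : i < N then o ⟨i, h⟩ else Real.pi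
  have he : ∀ i (h : i < N), e i = o ⟨i, h⟩ := fun i h => dif_pos h
  let τ : ℕ → ℝ := fun i => if i = 0 then 0 else if i < N then (e (i - 1) + e i) / 2 else Real.pi
  have hτ0 : τ 0 = 0 := if_pos rfl
  have hτN : τ N = Real.pi := by
    show (if N = 0 then (0 : ℝ) else if N < N then _ else Real.pi) = Real.pi
    rw [if_neg hN0.ne', if_neg (lt_irrefl N)]
  have hτm : ∀ i, i + 1 < N → τ (i + 1) = (e i + e (i + 1)) / 2 := by
    intro i hi
    show (if i + 1 = 0 then (0 : ℝ) else if i + 1 < N then (e (i + 1 - 1) + e (i + 1)) / 2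
      else Real.pi) = _
    rw [if_neg (by omega), if_pos hi]
    simp
  have hmono : ∀ i j (hj : j < N), i < j → e i < e j := by
    intro i j hj hij
    rw [he i (by omega), he j hj]
    exact o.strictMono (by simpa using hij)
  have hmono' : ∀ i j (hj : j < N), i ≤ j → e i ≤ e j := by
    intro i j hj hij
    rcases hij.lt_or_eq with h | h
    · exact (hmono i j hj h).le
    · rw [h]
  have heE : ∀ i < N, e i ∈ E := fun i hi => by rw [he i hi]; exact hmem _
  have hlow : ∀ i < N, τ i < e i := by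
    intro i hi
    rcases Nat.eq_zero_or_pos i with h | h
    · subst h
      rw [hτ0]
      exact (hE _ (heE 0 hi)).1
    · obtain ⟨j, rfl⟩ : ∃ j, i = j + 1 := ⟨i - 1, by omega⟩
      rw [hτm j hi]
      have := hmono j (j + 1) hi (by omega)
      linarith
  have hup : ∀ i < N, e i < τ (i + 1) := by
    intro i hi
    rcases Nat.lt_or_ge (i + 1) N with h | h
    · rw [hτm i h]
      have := hmono i (i + 1) h (by omega)
      linarith
    · have : i + 1 = N := by omega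
      rw [this, hτN]
      exact (hE _ (heE i hi)).2
  refine ⟨N, e, τ, hτ0, hτN, ?_, ?_, ?_, ?_⟩
  · ext θ
    rw [Finset.mem_image]
    constructor
    · rintro ⟨i, hi, rfl⟩
      exact heE i (Finset.mem_range.mp hi)
    · intro hθ
      obtain ⟨i, hi⟩ := hsurj θ hθ
      exact ⟨i.val, Finset.mem_range.mpr i.isLt, by rw [he i.val i.isLt]; exact hi⟩
  · intro i hi j hj hij
    have hi' : i < N := by simpa using hi
    have hj' : j < N := by simpa using hj
    rcases lt_trichotomy i j with h | h | h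
    · exact absurd hij (hmono i j hj' h).ne
    · exact h
    · exact absurd hij (hmono j i hi' h).ne'
  · intro i hi
    have h0 : 0 ≤ τ i := by
      rcases Nat.eq_zero_or_pos i with h | h
      · subst h; rw [hτ0]
      · obtain ⟨j, rfl⟩ : ∃ j, i = j + 1 := ⟨i - 1, by omega⟩
        have h1 := hup j (by omega)
        have h2 := (hE _ (heE j (by omega))).1
        linarith
    have h1 : τ (i + 1) ≤ Real.pi := by
      rcases Nat.lt_or_ge (i + 1) N with h | h
      · have h2 := hlow (i + 1) h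
        have h3 := (hE _ (heE (i + 1) h)).2
        linarith
      · have : i + 1 = N := by omega
        rw [this, hτN]
    refine ⟨h0, hlow i hi, hup i hi, h1, ?_⟩
    intro θ hθ h2 h3
    obtain ⟨j, hj⟩ := hsurj θ hθ
    have hj' : e j.val = θ := by rw [he j.val j.isLt]; exact hj
    rcases lt_trichotomy j.val i with h | h | h
    · exfalso
      obtain ⟨i', rfl⟩ : ∃ i', i = i' + 1 := ⟨i - 1, by omega⟩
      have h4 := hup i' (by omega)
      have h5 := hmono' j.val i' (by omega) (by omega)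
      linarith
    · rw [← hj', h]
    · exfalso
      have h4 := hlow (i + 1) (by omega)
      have h5 := hmono' (i + 1) j.val j.isLt (by omega)
      linarith
  · intro θ h0 h1
    by_contra hcon
    push Not at hcon
    have h2 : ∀ i ≤ N, τ i ≤ θ := by
      intro i
      induction i with
      | zero => intro _; rw [hτ0]; exact h0
      | succ i ih =>
        intro hi
        exact (hcon i (by omega) (ih (by omega))).le
    have h3 := hcon (N - 1) (by omega) (h2 (N - 1) (by omega))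
    rw [show N - 1 + 1 = N by omega, hτN] at h3
    linarith

namespace Ctx

variable {n : Type} [Fintype n] [DecidableEq n] (X : Ctx n)

theorem not_reg_iff (θ : ℝ) : ¬ X.Reg θ ↔ ∃ z ∈ X.Z, ∃ t : ℝ, 0 ≤ t ∧
    circ θ = z + t * (z - X.c) := by
  unfold Reg Star
  rw [Set.mem_setOf_eq]
  push Not
  rfl

theorem ne_c {z : ℂ} (hz : z ∈ X.Z) : z ≠ X.c := fun h => X.cZ (h ▸ hz)

theorem exists_ang (z : ℂ) : ∃ θ : ℝ, z ∈ X.Z → 0 < θ ∧ θ < Real.pi ∧ ∃ t : ℝ, 0 ≤ t ∧
    circ θ = z + t * (z - X.c) := by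
  by_cases hz : z ∈ X.Z
  · obtain ⟨t, ht, h⟩ := exists_exit (c := X.c) ((X.hZ z).mp hz).1 (X.ne_c hz)
    have h1 : z + t * (z - X.c) ≠ 1 := fun hh => X.cgen3 z hz t ht hh.symm
    obtain ⟨θ, h2, h3, h4⟩ := exists_circ h h1
    exact ⟨θ, fun _ => ⟨h2, h3, t, ht, h4⟩⟩
  · exact ⟨0, fun h => absurd h hz⟩

/-- the angle at which the slit of `z` ends -/
noncomputable def ang (z : ℂ) : ℝ := (X.exists_ang z).choose

theorem ang_spec {z : ℂ} (hz : z ∈ X.Z) : 0 < X.ang z ∧ X.ang z < Real.pi ∧ ∃ t : ℝ, 0 ≤ t ∧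
    circ (X.ang z) = z + t * (z - X.c) := (X.exists_ang z).choose_spec hz

theorem ang_unique {z : ℂ} (hz : z ∈ X.Z) {θ : ℝ} (h0 : 0 < θ) (h1 : θ < Real.pi) {t : ℝ}
    (ht : 0 ≤ t) (h : circ θ = z + t * (z - X.c)) : θ = X.ang z := by
  obtain ⟨h2, h3, t', ht', h'⟩ := X.ang_spec hz
  have e1 : ‖z + t * (z - X.c)‖ = 1 := by rw [← h, norm_circ]
  have e2 : ‖z + t' * (z - X.c)‖ = 1 := by rw [← h', norm_circ]
  rcases lt_trichotomy t t' with h4 | h4 | h4
  · exact (exit_unique X.hc ht h4 e1 e2).elim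
  · refine circ_inj h0 h1 h2 h3 ?_
    rw [h, h', h4]
  · exact (exit_unique X.hc ht' h4 e2 e1).elim

theorem ang_injOn : Set.InjOn X.ang X.Z := by
  intro z hz z' hz' h
  obtain ⟨-, -, t, ht, h1⟩ := X.ang_spec hz
  obtain ⟨-, -, t', ht', h1'⟩ := X.ang_spec hz'
  by_contra hne
  refine X.cgen2 z hz z' hz' hne t t' ht ht' ?_
  rw [← h1, ← h1', h]

theorem circ_ang {z : ℂ} (hz : z ∈ X.Z) (h : ‖z‖ = 1) : circ (X.ang z) = z := by
  obtain ⟨h1, h2, t, ht, h3⟩ := X.ang_spec hz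
  rcases ht.lt_or_eq with h4 | h4
  · exfalso
    refine exit_unique (z := z) X.hc le_rfl h4 (by simpa using h) ?_
    rw [← h3, norm_circ]
  · rw [h3, ← h4]
    simp

theorem circ_ang_slit {z : ℂ} (hz : z ∈ X.Z) (h : ‖z‖ < 1) : ∃ t : ℝ, 0 < t ∧
    circ (X.ang z) = z + t * (z - X.c) := by
  obtain ⟨h1, h2, t, ht, h3⟩ := X.ang_spec hz
  rcases ht.lt_or_eq with h4 | h4
  · exact ⟨t, h4, h3⟩
  · exfalso
    have := norm_circ (X.ang z)
    rw [h3, ← h4] at this
    simp at this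
    linarith

/-- the special angles -/
noncomputable def spec : Finset ℝ := X.Z.image X.ang

theorem mem_spec_iff (θ : ℝ) : θ ∈ X.spec ↔ 0 < θ ∧ θ < Real.pi ∧ ¬ X.Reg θ := by
  unfold spec
  rw [Finset.mem_image]
  constructor
  · rintro ⟨z, hz, rfl⟩
    obtain ⟨h1, h2, t, ht, h3⟩ := X.ang_spec hz
    exact ⟨h1, h2, (X.not_reg_iff _).mpr ⟨z, hz, t, ht, h3⟩⟩
  · rintro ⟨h1, h2, h3⟩
    obtain ⟨z, hz, t, ht, h4⟩ := (X.not_reg_iff _).mp h3
    exact ⟨z, hz, (X.ang_unique hz h1 h2 ht h4).symm⟩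

theorem reg_of_not_mem {θ : ℝ} (h0 : 0 ≤ θ) (h1 : θ ≤ Real.pi) (h : θ ∉ X.spec) : X.Reg θ := by
  by_contra hc
  rcases h0.lt_or_eq with h2 | h2
  · rcases h1.lt_or_eq with h3 | h3
    · exact h ((X.mem_spec_iff θ).mpr ⟨h2, h3, hc⟩)
    · rw [h3] at hc
      exact hc X.reg_pi
  · rw [← h2] at hc
    exact hc X.reg_zero

theorem norm_eq_or_lt {z : ℂ} (hz : z ∈ X.Z) : ‖z‖ < 1 ∨ ‖z‖ = 1 :=
  lt_or_eq_of_le ((X.hZ z).mp hz).1

end Ctx

end Pool.Agent.Rohlin
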