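import Mathlib

/-!
# Herglotz functions with prescribed poles, and zeros outside of subintervals
-/

namespace Pool.Agent.Rohlin

open Finset

/-- zeros of a continuous function in an interval, outside of subintervals -/
theorem exists_zero_avoid {ι : Type*} (s : Finset ι) (c d : ι → ℝ) {a b : ℝ} (hab : a < b)
    (hcd : ∀ i ∈ s, a < c i ∧ c i < d i ∧ d i < b)
    (hdis : ∀ i ∈ s, ∀ j ∈ s, i ≠ j → d i < c j ∨ d j < c i) (g : ℝ → ℝ) (hg : Continuous g)
    (hgs : ∀ i ∈ s, 0 < g (c i) * g (d i)) (hgab : g a * g b < 0) :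
    ∃ z, a < z ∧ z < b ∧ g z = 0 ∧ ∀ i ∈ s, z < c i ∨ d i < z := by
  classical
  induction s using Finset.induction_on generalizing g with
  | empty =>
    rcases mul_neg_iff.1 hgab with ⟨h1, h2⟩ | ⟨h1, h2⟩
    · obtain ⟨z, hz, hz0⟩ := intermediate_value_Ioo' hab.le hg.continuousOn
        (show (0 : ℝ) ∈ Set.Ioo (g b) (g a) from ⟨h2, h1⟩)
      exact ⟨z, hz.1, hz.2, hz0, fun i hi => by simp at hi⟩
    · obtain ⟨z, hz, hz0⟩ := intermediate_value_Ioo hab.le hg.continuousOn
        (show (0 : ℝ) ∈ Set.Ioo (g a) (g b) from ⟨h1, h2⟩)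
      exact ⟨z, hz.1, hz.2, hz0, fun i hi => by simp at hi⟩
  | insert i s hi ih =>
    obtain ⟨h1, h2, h3⟩ := hcd i (mem_insert_self i s)
    set C := c i with hC
    set D := d i with hD
    let L : ℝ → ℝ := fun y => g C + (y - C) / (D - C) * (g D - g C)
    have hLc : L C = g C := by simp [L]
    have hDC : D - C ≠ 0 := by linarith [sub_pos.2 h2]
    have hLd : L D = g D := by
      simp only [L]
      rw [div_self hDC]
      ring
    have hLcont : Continuous L := by
      simp only [L]
      fun_prop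
    let h : ℝ → ℝ := fun y => if y ≤ D then L y else g y
    have hh : Continuous h := by
      refine Continuous.if_le hLcont hg continuous_id continuous_const ?_
      intro x hx
      rw [hx, hLd]
    let g' : ℝ → ℝ := fun y => if y ≤ C then g y else h y
    have hg' : Continuous g' := by
      refine Continuous.if_le hg hh continuous_id continuous_const ?_
      intro x hx
      rw [hx]
      simp only [h]
      rw [if_pos h2.le, hLc]
    have hout : ∀ y, (y < C ∨ D < y) → g' y = g y := by
      intro y hy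
      simp only [g', h]
      rcases hy with hy | hy
      · rw [if_pos hy.le]
      · rw [if_neg (not_le.2 (h2.trans hy)), if_neg (not_le.2 hy)]
    have hin : ∀ y, C ≤ y → y ≤ D → g' y ≠ 0 := by
      intro y hy1 hy2 h0
      have h4 : g' y = L y := by
        simp only [g', h]
        split_ifs with h5
        · rw [le_antisymm h5 hy1, hLc]
        · rfl
      have h5 := hgs i (mem_insert_self i s)
      rw [← hC, ← hD] at h5
      have h6 : L y * g C = (1 - (y - C) / (D - C)) * (g C * g C) +
          (y - C) / (D - C) * (g C * g D) := by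
        simp only [L]
        ring
      have h7 : 0 ≤ (y - C) / (D - C) := div_nonneg (by linarith) (by linarith)
      have h8 : (y - C) / (D - C) ≤ 1 := by
        rw [div_le_one (by linarith)]
        linarith
      have h9 : 0 < g C * g C := by
        have : g C ≠ 0 := by
          intro h
          rw [h, zero_mul] at h5
          exact lt_irrefl _ h5
        exact mul_self_pos.2 this
      have h10 : 0 < L y * g C := by
        rw [h6]
        rcases eq_or_lt_of_le h7 with h11 | h11
        · rw [← h11]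
          simpa using h9
        · have := mul_pos h11 h5
          have := mul_nonneg (sub_nonneg.2 h8) h9.le
          linarith
      rw [← h4, h0, zero_mul] at h10
      exact lt_irrefl _ h10
    have hsep : ∀ j ∈ s, (c j < C ∨ D < c j) ∧ (d j < C ∨ D < d j) := by
      intro j hj
      have hji : j ≠ i := fun h => hi (h ▸ hj)
      have h4 := hcd j (mem_insert_of_mem hj)
      rcases hdis j (mem_insert_of_mem hj) i (mem_insert_self i s) hji with h5 | h5
      · exact ⟨Or.inl (h4.2.1.trans h5), Or.inl h5⟩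
      · exact ⟨Or.inr h5, Or.inr (h5.trans h4.2.1)⟩
    obtain ⟨z, hz1, hz2, hz3, hz4⟩ := ih (fun j hj => hcd j (mem_insert_of_mem hj))
      (fun j hj l hl => hdis j (mem_insert_of_mem hj) l (mem_insert_of_mem hl)) g' hg'
      (fun j hj => by
        rw [hout _ (hsep j hj).1, hout _ (hsep j hj).2]
        exact hgs j (mem_insert_of_mem hj))
      (by rw [hout a (Or.inl h1), hout b (Or.inr h3)]; exact hgab)
    have hz5 : z < C ∨ D < z := by
      by_contra hcon
      push Not at hcon
      exact hin z hcon.1 hcon.2 hz3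
    refine ⟨z, hz1, hz2, by rw [← hout z hz5]; exact hz3, ?_⟩
    intro j hj
    rcases mem_insert.1 hj with rfl | hj
    · exact hz5
    · exact hz4 j hj

/-- weak form: the function may vanish at the end points -/
theorem exists_zero_avoid' {ι : Type*} (s : Finset ι) (c d : ι → ℝ) {a b : ℝ} (hab : a < b)
    (hcd : ∀ i ∈ s, a < c i ∧ c i < d i ∧ d i < b)
    (hdis : ∀ i ∈ s, ∀ j ∈ s, i ≠ j → d i < c j ∨ d j < c i) (g : ℝ → ℝ) (hg : Continuous g)
    (hgs : ∀ i ∈ s, 0 ≤ g (c i) * g (d i)) (hgs0 : ∀ i ∈ s, g (c i) = 0 ↔ g (d i) = 0)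
    (hgab : g a * g b ≤ 0) :
    ∃ z, a ≤ z ∧ z ≤ b ∧ g z = 0 ∧ ∀ i ∈ s, g (c i) = 0 ∨ z < c i ∨ d i < z := by
  by_cases ha : g a = 0
  · exact ⟨a, le_rfl, hab.le, ha, fun i hi => Or.inr (Or.inl (hcd i hi).1)⟩
  by_cases hb : g b = 0
  · exact ⟨b, hab.le, le_rfl, hb, fun i hi => Or.inr (Or.inr (hcd i hi).2.2)⟩
  by_cases hs : ∃ i ∈ s, g (c i) = 0
  · obtain ⟨i, hi, h0⟩ := hs
    have h := hcd i hi
    refine ⟨c i, h.1.le, (h.2.1.trans h.2.2).le, h0, fun j hj => ?_⟩
    by_cases hij : i = j
    · subst hij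
      exact Or.inl h0
    · rcases hdis i hi j hj hij with h1 | h1
      · exact Or.inr (Or.inl (h.2.1.trans h1))
      · exact Or.inr (Or.inr h1)
  · push Not at hs
    obtain ⟨z, hz1, hz2, hz3, hz4⟩ := exists_zero_avoid s c d hab hcd hdis g hg
      (fun i hi => lt_of_le_of_ne (hgs i hi) (mul_ne_zero (hs i hi)
        (fun h => hs i hi ((hgs0 i hi).2 h))).symm)
      (lt_of_le_of_ne hgab (mul_ne_zero ha hb))
    exact ⟨z, hz1.le, hz2.le, hz3, fun i hi => Or.inr (hz4 i hi)⟩

/-- Herglotz functions with the prescribed poles `z j`, zeros between the intervals `[α j, β j]` -/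
theorem exists_lam {J : Type*} (s : Finset J) (α β z : J → ℝ)
    (hz : ∀ j ∈ s, α j ≤ z j ∧ z j ≤ β j)
    (hdis : ∀ i ∈ s, ∀ j ∈ s, i ≠ j → β i < α j ∨ β j < α i) :
    ∃ lam : J → ℝ, (∀ j ∈ s, 0 < lam j) ∧ ∀ j ∈ s,
      (∀ y, α j ≤ y → y < z j → 0 < ∑ i ∈ s, lam i * (z i - y)⁻¹) ∧
      (∀ y, z j < y → y ≤ β j → ∑ i ∈ s, lam i * (z i - y)⁻¹ < 0) := by
  classical
  induction s using Finset.induction_on_max_value (f := α) with
  | empty => exact ⟨fun _ => 1, fun j hj => by simp at hj, fun j hj => by simp at hj⟩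
  | insert a s ha hmax ih =>
    obtain ⟨lam, hlam, hR⟩ := ih (fun j hj => hz j (mem_insert_of_mem hj))
      (fun i hi j hj => hdis i (mem_insert_of_mem hi) j (mem_insert_of_mem hj))
    have hza := hz a (mem_insert_self a s)
    have hleft : ∀ x ∈ s, β x < α a := by
      intro x hx
      have hxa : x ≠ a := fun h => ha (h ▸ hx)
      have hzx := hz x (mem_insert_of_mem hx)
      rcases hdis x (mem_insert_of_mem hx) a (mem_insert_self a s) hxa with h | h
      · exact h
      · have := hmax x hx
        linarith [hza.1, hza.2]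
    rcases s.eq_empty_or_nonempty with rfl | hs
    · refine ⟨fun _ => 1, fun _ _ => one_pos, ?_⟩
      intro j hj
      have hja : j = a := by simpa using hj
      subst hja
      constructor
      · intro y _ hy
        simp only [insert_empty_eq, sum_singleton, one_mul]
        exact inv_pos.2 (by linarith)
      · intro y hy _
        simp only [insert_empty_eq, sum_singleton, one_mul]
        exact inv_lt_zero.2 (by linarith)
    · obtain ⟨t, ht1, ht2⟩ := exists_between ((Finset.sup'_lt_iff hs (f := β)).2 hleft)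
      have hβt : ∀ x ∈ s, β x < t := fun x hx => lt_of_le_of_lt (Finset.le_sup' β hx) ht1
      have hzt : ∀ x ∈ s, z x < t := fun x hx =>
        lt_of_le_of_lt (hz x (mem_insert_of_mem hx)).2 (hβt x hx)
      have hta : t < z a := lt_of_lt_of_le ht2 hza.1
      let lam' : J → ℝ := fun j => if j = a then ∑ i ∈ s, lam i * ((z a - t) / (z a - z i)) else
        lam j * ((z j - t) / (z j - z a))
      have hlam'a : lam' a = ∑ i ∈ s, lam i * ((z a - t) / (z a - z i)) := by simp [lam']
      have hlam's : ∀ j ∈ s, lam' j = lam j * ((z j - t) / (z j - z a)) := by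
        intro j hj
        simp only [lam']
        rw [if_neg]
        exact fun h => ha (h ▸ hj)
      have hkey : ∀ y, (∀ j ∈ s, z j ≠ y) → z a ≠ y →
          ∑ i ∈ insert a s, lam' i * (z i - y)⁻¹ =
            (∑ i ∈ s, lam i * (z i - y)⁻¹) * ((y - t) / (y - z a)) := by
        intro y hy hya
        rw [sum_insert ha, hlam'a, sum_mul, sum_mul, ← sum_add_distrib]
        refine sum_congr rfl fun i hi => ?_
        rw [hlam's i hi]
        have h1 : z i - y ≠ 0 := sub_ne_zero.2 (hy i hi)
        have h2 : z a - y ≠ 0 := sub_ne_zero.2 hya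
        have h3 : z a - z i ≠ 0 := sub_ne_zero.2 (hta.trans' (hzt i hi)).ne'
        have h4 : z i - z a ≠ 0 := sub_ne_zero.2 (hta.trans' (hzt i hi)).ne
        have h5 : y - z a ≠ 0 := sub_ne_zero.2 (Ne.symm hya)
        field_simp
        ring
      refine ⟨lam', ?_, ?_⟩
      · intro j hj
        rcases mem_insert.1 hj with rfl | hj
        · rw [hlam'a]
          refine Finset.sum_pos (fun i hi => ?_) hs
          have h1 := hzt i hi
          exact mul_pos (hlam i hi) (div_pos (by linarith) (by linarith))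
        · rw [hlam's j hj]
          have h1 := hzt j hj
          exact mul_pos (hlam j hj) (div_pos_of_neg_of_neg (by linarith) (by linarith))
      · intro j hj
        rcases mem_insert.1 hj with rfl | hj
        · have hold : ∀ y, α j ≤ y → (∀ i ∈ s, z i ≠ y) ∧ ∑ i ∈ s, lam i * (z i - y)⁻¹ < 0 := by
            intro y hy
            have h1 : ∀ i ∈ s, z i < y := fun i hi =>
              lt_of_lt_of_le ((hzt i hi).trans ht2) hy
            refine ⟨fun i hi => (h1 i hi).ne, ?_⟩
            refine Finset.sum_neg (fun i hi => ?_) hs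
            exact mul_neg_of_pos_of_neg (hlam i hi) (inv_lt_zero.2 (by linarith [h1 i hi]))
          constructor
          · intro y hy1 hy2
            rw [hkey y (hold y hy1).1 hy2.ne']
            exact mul_pos_of_neg_of_neg (hold y hy1).2
              (div_neg_of_pos_of_neg (by linarith) (by linarith))
          · intro y hy1 hy2
            have hy0 : α j ≤ y := hza.1.trans hy1.le
            rw [hkey y (hold y hy0).1 hy1.ne]
            exact mul_neg_of_neg_of_pos (hold y hy0).2 (div_pos (by linarith) (by linarith))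
        · have hzj := hz j (mem_insert_of_mem hj)
          have hne : ∀ y, α j ≤ y → y ≤ β j → z j ≠ y → (∀ i ∈ s, z i ≠ y) ∧ z a ≠ y ∧
              0 < (y - t) / (y - z a) := by
            intro y hy1 hy2 hy3
            have h1 := hβt j hj
            refine ⟨fun i hi => ?_, (by linarith : y < z a).ne', ?_⟩
            · by_cases hij : i = j
              · rw [hij]; exact hy3
              · have hzi := hz i (mem_insert_of_mem hi)
                rcases hdis i (mem_insert_of_mem hi) j (mem_insert_of_mem hj) hij with h | h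
                · exact (by linarith : z i < y).ne
                · exact (by linarith : y < z i).ne'
            · exact div_pos_of_neg_of_neg (by linarith) (by linarith)
          constructor
          · intro y hy1 hy2
            obtain ⟨h1, h2, h3⟩ := hne y hy1 (hy2.le.trans hzj.2) hy2.ne'
            rw [hkey y h1 h2]
            exact mul_pos ((hR j hj).1 y hy1 hy2) h3
          · intro y hy1 hy2
            obtain ⟨h1, h2, h3⟩ := hne y (hzj.1.trans hy1.le) hy2 hy1.ne
            rw [hkey y h1 h2]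
            exact mul_neg_of_neg_of_pos ((hR j hj).2 y hy1 hy2) h3

/-- the Herglotz function `μ y + ∑ lam_j / (z_j - y)` -/
noncomputable def herg {J : Type*} (s : Finset J) (μ : ℝ) (lam z : J → ℝ) (y : ℂ) : ℂ :=
  μ * y + ∑ j ∈ s, (lam j : ℂ) * ((z j : ℂ) - y)⁻¹

/-- the Herglotz function on the real line -/
noncomputable def hergR {J : Type*} (s : Finset J) (μ : ℝ) (lam z : J → ℝ) (y : ℝ) : ℝ :=
  μ * y + ∑ j ∈ s, lam j * (z j - y)⁻¹

theorem herg_ofReal {J : Type*} (s : Finset J) (μ : ℝ) (lam z : J → ℝ) (y : ℝ) :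
    herg s μ lam z (y : ℂ) = (hergR s μ lam z y : ℂ) := by
  unfold herg hergR
  push_cast
  rfl

theorem herg_conj {J : Type*} (s : Finset J) (μ : ℝ) (lam z : J → ℝ) (y : ℂ) :
    herg s μ lam z (starRingEnd ℂ y) = starRingEnd ℂ (herg s μ lam z y) := by
  unfold herg
  rw [map_add, map_mul, map_sum, Complex.conj_ofReal]
  congr 1
  refine sum_congr rfl fun j _ => ?_
  rw [map_mul, map_inv₀, map_sub, Complex.conj_ofReal, Complex.conj_ofReal]

theorem herg_im_pos {J : Type*} (s : Finset J) (μ : ℝ) (lam z : J → ℝ) (hμ : 0 ≤ μ)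
    (hlam : ∀ j ∈ s, 0 < lam j) (hne : 0 < μ ∨ s.Nonempty) {y : ℂ} (hy : 0 < y.im) :
    0 < (herg s μ lam z y).im := by
  have h1 : (herg s μ lam z y).im = μ * y.im + ∑ j ∈ s, lam j * (y.im / Complex.normSq (z j - y)) := by
    unfold herg
    rw [Complex.add_im, Complex.im_ofReal_mul, Complex.im_sum]
    congr 1
    refine sum_congr rfl fun j _ => ?_
    rw [Complex.im_ofReal_mul, Complex.inv_im, Complex.sub_im, Complex.ofReal_im]
    ring
  have h2 : ∀ j, 0 < Complex.normSq ((z j : ℂ) - y) := by
    intro j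
    rw [Complex.normSq_pos]
    intro h
    have := congrArg Complex.im h
    rw [Complex.sub_im, Complex.ofReal_im, Complex.zero_im] at this
    linarith
  have h3 : ∀ j ∈ s, 0 < lam j * (y.im / Complex.normSq (z j - y)) := fun j hj =>
    mul_pos (hlam j hj) (div_pos hy (h2 j))
  rw [h1]
  rcases hne with h | h
  · exact add_pos_of_pos_of_nonneg (mul_pos h hy) (Finset.sum_nonneg fun j hj => (h3 j hj).le)
  · exact add_pos_of_nonneg_of_pos (mul_nonneg hμ hy.le) (Finset.sum_pos h3 h)

theorem hergR_mono {J : Type*} (s : Finset J) (μ : ℝ) (lam z : J → ℝ) (hμ : 0 ≤ μ)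
    (hlam : ∀ j ∈ s, 0 < lam j) {c d : ℝ} (hcd : c ≤ d) (hz : ∀ j ∈ s, z j < c ∨ d < z j) :
    hergR s μ lam z c ≤ hergR s μ lam z d := by
  unfold hergR
  refine add_le_add (mul_le_mul_of_nonneg_left hcd hμ) (Finset.sum_le_sum fun j hj => ?_)
  refine mul_le_mul_of_nonneg_left ?_ (hlam j hj).le
  rcases hz j hj with h | h
  · have h1 : z j - c < 0 := by linarith
    have h2 : z j - d < 0 := by linarith
    rw [inv_le_inv_of_neg h1 h2]
    linarith
  · have h1 : 0 < z j - c := by linarith
    have h2 : 0 < z j - d := by linarith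
    rw [inv_le_inv₀ h1 h2]
    linarith

theorem hergR_strictMono {J : Type*} (s : Finset J) (μ : ℝ) (lam z : J → ℝ) (hμ : 0 ≤ μ)
    (hlam : ∀ j ∈ s, 0 < lam j) (hne : 0 < μ ∨ s.Nonempty) {c d : ℝ} (hcd : c < d)
    (hz : ∀ j ∈ s, z j < c ∨ d < z j) :
    hergR s μ lam z c < hergR s μ lam z d := by
  have h3 : ∀ j ∈ s, lam j * (z j - c)⁻¹ < lam j * (z j - d)⁻¹ := by
    intro j hj
    refine mul_lt_mul_of_pos_left ?_ (hlam j hj)
    rcases hz j hj with h | h
    · have h1 : z j - c < 0 := by linarith
      have h2 : z j - d < 0 := by linarith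
      rw [inv_lt_inv_of_neg h1 h2]
      linarith
    · have h1 : 0 < z j - c := by linarith
      have h2 : 0 < z j - d := by linarith
      rw [inv_lt_inv₀ h1 h2]
      linarith
  unfold hergR
  rcases hne with h | h
  · exact add_lt_add_of_lt_of_le (mul_lt_mul_of_pos_left hcd h)
      (Finset.sum_le_sum fun j hj => (h3 j hj).le)
  · exact add_lt_add_of_le_of_lt (mul_le_mul_of_nonneg_left hcd.le hμ)
      (Finset.sum_lt_sum_of_nonempty h h3)

theorem exists_herg {J : Type*} (s : Finset J) (α β z : J → ℝ)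
    (hz : ∀ j ∈ s, α j ≤ z j ∧ z j ≤ β j)
    (hdis : ∀ i ∈ s, ∀ j ∈ s, i ≠ j → β i < α j ∨ β j < α i) :
    ∃ (μ : ℝ) (lam : J → ℝ), 0 ≤ μ ∧ (∀ j ∈ s, 0 < lam j) ∧ (0 < μ ∨ s.Nonempty) ∧ ∀ j ∈ s,
      (∀ y, α j ≤ y → y < z j → 0 < hergR s μ lam z y) ∧
      (∀ y, z j < y → y ≤ β j → hergR s μ lam z y < 0) := by
  rcases s.eq_empty_or_nonempty with rfl | hs
  · exact ⟨1, fun _ => 1, zero_le_one, fun j hj => by simp at hj, Or.inl one_pos,
      fun j hj => by simp at hj⟩
  · obtain ⟨lam, h1, h2⟩ := exists_lam s α β z hz hdis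
    refine ⟨0, lam, le_rfl, h1, Or.inr hs, fun j hj => ⟨fun y hy1 hy2 => ?_, fun y hy1 hy2 => ?_⟩⟩
    · unfold hergR
      rw [zero_mul, zero_add]
      exact (h2 j hj).1 y hy1 hy2
    · unfold hergR
      rw [zero_mul, zero_add]
      exact (h2 j hj).2 y hy1 hy2

end Pool.Agent.Rohlin
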