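import Pool.Agent.Rohlin.CoreMain
import Pool.Agent.Rohlin.Event
import Pool.Agent.Rohlin.LocalOK

/-!
# The real scheme `⟨15 ⊔ 1⟨4⟩⟩` of degree `8` is of type one
-/

namespace Pool.Agent.Rohlin

theorem isTypeOne_S15 : IsTypeOne 8 S15 :=
  isTypeOne_of_event fun _ _ _ X => X.eventOK X.localOK

end Pool.Agent.Rohlin
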