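import Pool.Agent.Rohlin.RealGauge
import Pool.Agent.Rohlin.Line

/-!
# Labelled roots at one angle, pairings and states of labelled roots
-/

set_option autoImplicit false

namespace Pool.Agent.Rohlin

open Polynomial Complex Set Matrix Filter Topology

/-- `e` labels the roots of `gr f θ` and `s` are square roots of the derivative at the roots -/
structure Lab (f : MvPolynomial (Fin 3) ℝ) (θ : ℝ) (e s : Fin 8 → ℂ) : Prop where
  root : ∀ i, ((gr f θ).map (algebraMap ℝ ℂ)).eval (e i) = 0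
  inj : Function.Injective e
  sq : ∀ i, s i ^ 2 = ((derivative (gr f θ)).map (algebraMap ℝ ℂ)).eval (e i)

/-- the sign of a pair -/
noncomputable def zetaG (s : Fin 8 → ℂ) (a b : Fin 8) (kind : Fin 3) : ℂ :=
  if kind = 2 then (starRingEnd ℂ) (s a) / s b else -I * (s a * s b) / ‖s a * s b‖

/-- the pairing of labelled roots -/
structure PairingG (K0 K1 : Set RP2) (θ : ℝ) (e s : Fin 8 → ℂ) (A B : Fin 4 → Fin 8)
    (kind : Fin 4 → Fin 3) (ζ : Fin 4 → ℂ) : Prop where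
  inj : Function.Injective (Sum.elim A B)
  cpx : ∀ p, kind p = 2 → 0 < (e (A p)).im ∧ e (B p) = (starRingEnd ℂ) (e (A p))
  real : ∀ p, kind p ≠ 2 → (e (A p)).im = 0 ∧ (e (B p)).im = 0 ∧ (e (A p)).re < (e (B p)).re
  in0 : ∀ η : ℝ, pt θ η ∈ K0 ↔ ∃ p, kind p = 0 ∧ (e (A p)).re ≤ η ∧ η ≤ (e (B p)).re
  in1 : ∀ η : ℝ, pt θ η ∈ K1 ↔ ∃ p, kind p = 1 ∧ (e (A p)).re ≤ η ∧ η ≤ (e (B p)).re
  zeta : ∀ p, ζ p = zetaG s (A p) (B p) (kind p)
  zeta_sq : ∀ p, ζ p = 1 ∨ ζ p = -1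

/-- `ψ` is the normalized state of a matching with respect to the functional `l` -/
structure StateG {n : Type} [Fintype n] [DecidableEq n] (M : Majorana 8 n) (l : n → ℂ)
    (A B : Fin 4 → Fin 8) (ζ : Fin 4 → ℂ) (ψ : n → ℂ) : Prop where
  unit : star ψ ⬝ᵥ ψ = 1
  proj : (List.ofFn fun p => pairFac M (A p) (B p) (ζ p)).prod = vecMulVec ψ (star ψ)
  pos : ∃ r : ℝ, 0 < r ∧ l ⬝ᵥ ψ = r

namespace Lab

variable {f : MvPolynomial (Fin 3) ℝ} {θ : ℝ} {e s : Fin 8 → ℂ}

theorem map_eq_prod (nf : Normal f) (h : Lab f θ e s) :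
    (gr f θ).map (algebraMap ℝ ℂ) = ∏ i, (Polynomial.X - Polynomial.C (e i)) := by
  have hm : ((gr f θ).map (algebraMap ℝ ℂ)).Monic := (Line.gr_monic nf θ).map _
  have hdeg : ((gr f θ).map (algebraMap ℝ ℂ)).natDegree = 8 := by
    rw [Polynomial.natDegree_map, Line.gr_natDegree nf]
  have hdvd : (∏ i, (Polynomial.X - Polynomial.C (e i))) ∣ (gr f θ).map (algebraMap ℝ ℂ) := by
    refine Finset.prod_dvd_of_coprime (fun i _ j _ hij => ?_) fun i _ => ?_
    · exact Polynomial.pairwise_coprime_X_sub_C h.inj hij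
    · exact Polynomial.dvd_iff_isRoot.2 (h.root i)
  have hmp : (∏ i, (Polynomial.X - Polynomial.C (e i))).Monic :=
    Polynomial.monic_prod_of_monic _ _ fun i _ => Polynomial.monic_X_sub_C _
  refine Polynomial.eq_of_monic_of_dvd_of_natDegree_le hmp hm hdvd ?_
  rw [hdeg, Polynomial.natDegree_prod_of_monic _ _ fun i _ => Polynomial.monic_X_sub_C _]
  simp

theorem surj (nf : Normal f) (h : Lab f θ e s) {x : ℂ}
    (hx : ((gr f θ).map (algebraMap ℝ ℂ)).eval x = 0) : ∃ i, e i = x := by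
  rw [h.map_eq_prod nf, Polynomial.eval_prod, Finset.prod_eq_zero_iff] at hx
  obtain ⟨i, _, hi⟩ := hx
  rw [eval_sub, eval_X, eval_C, sub_eq_zero] at hi
  exact ⟨i, hi.symm⟩

/-- a real root is the value of a label -/
theorem surj_real (nf : Normal f) (h : Lab f θ e s) {η : ℝ} (h0 : (gr f θ).eval η = 0) :
    ∃ i, e i = (η : ℂ) := by
  apply h.surj nf
  have h1 : ((gr f θ).map (algebraMap ℝ ℂ)).eval (η : ℂ) = (((gr f θ).eval η : ℝ) : ℂ) := by
    have := Polynomial.eval_map_apply (f := algebraMap ℝ ℂ) (p := gr f θ) η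
    simpa using this
  rw [h1, h0, Complex.ofReal_zero]

/-- the derivative at a root as a product -/
theorem sq_prod (nf : Normal f) (h : Lab f θ e s) (i : Fin 8) :
    s i ^ 2 = ∏ j ∈ Finset.univ.erase i, (e i - e j) := by
  rw [h.sq i, ← derivative_map, h.map_eq_prod nf,
    ← Finset.mul_prod_erase Finset.univ _ (Finset.mem_univ i), derivative_mul]
  simp [Polynomial.eval_prod]

theorem s_ne_zero (nf : Normal f) (h : Lab f θ e s) (i : Fin 8) : s i ≠ 0 := by
  intro h0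
  have h1 := h.sq_prod nf i
  rw [h0, zero_pow two_ne_zero] at h1
  refine Finset.prod_ne_zero_iff.2 (fun j hj => ?_) h1.symm
  exact sub_ne_zero.2 fun h2 => (Finset.mem_erase.1 hj).1 (h.inj h2).symm

/-- the conjugate of a root is a root -/
theorem conj (nf : Normal f) (h : Lab f θ e s) (i : Fin 8) :
    ∃ j, e j = (starRingEnd ℂ) (e i) := by
  apply h.surj nf
  have h1 := h.root i
  rw [Polynomial.eval_map_algebraMap] at h1 ⊢
  have h2 := Polynomial.aeval_conj (gr f θ) (e i)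
  rw [h2, h1, map_zero]

/-- the derivative at a root and at the conjugate root -/
theorem sq_conj (h : Lab f θ e s) {i j : Fin 8} (hij : e j = (starRingEnd ℂ) (e i)) :
    s j ^ 2 = (starRingEnd ℂ) (s i) ^ 2 := by
  rw [h.sq, ← map_pow, h.sq, hij, Polynomial.eval_map_algebraMap,
    Polynomial.eval_map_algebraMap]
  exact Polynomial.aeval_conj _ _

theorem sq_real (h : Lab f θ e s) {i : Fin 8} (hi : (e i).im = 0) :
    s i ^ 2 = ((((derivative (gr f θ)).eval (e i).re : ℝ)) : ℂ) := by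
  rw [h.sq]
  have h1 : e i = (((e i).re : ℝ) : ℂ) := Complex.ext rfl (by simpa using hi)
  rw [h1]
  have := Polynomial.eval_map_apply (f := algebraMap ℝ ℂ) (p := derivative (gr f θ)) (e i).re
  simpa using this

/-- the sign of a pair is a fourth root of unity -/
theorem zeta_pow_four (nf : Normal f) (h : Lab f θ e s) {a b : Fin 8} {k : Fin 3}
    (hc : k = 2 → e b = (starRingEnd ℂ) (e a))
    (hr : k ≠ 2 → (e a).im = 0 ∧ (e b).im = 0) : zetaG s a b k ^ 4 = 1 := by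
  have ha := h.s_ne_zero nf a
  have hb := h.s_ne_zero nf b
  unfold zetaG
  split_ifs with hk
  · have h1 := h.sq_conj (hc hk)
    have h2 : ((starRingEnd ℂ) (s a) / s b) ^ 4 =
        ((starRingEnd ℂ) (s a) ^ 2 / s b ^ 2) ^ 2 := by ring
    rw [h2, ← h1, div_self (pow_ne_zero 2 hb), one_pow]
  · obtain ⟨h1, h2⟩ := hr hk
    set t := s a * s b with hs
    have hs0 : t ≠ 0 := mul_ne_zero ha hb
    have h3 : ∃ x : ℝ, t ^ 2 = x := by
      refine ⟨(derivative (gr f θ)).eval (e a).re * (derivative (gr f θ)).eval (e b).re, ?_⟩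
      rw [hs, mul_pow, h.sq_real h1, h.sq_real h2, ← Complex.ofReal_mul]
    obtain ⟨x, hx⟩ := h3
    have h4 : ‖t‖ ^ 2 = |x| := by
      rw [← norm_pow, hx, Complex.norm_real, Real.norm_eq_abs]
    have h5 : (‖t‖ : ℂ) ^ 4 = t ^ 4 := by
      have h6 : ((‖t‖ ^ 2 : ℝ) : ℂ) ^ 2 = (t ^ 2) ^ 2 := by
        rw [h4, hx, ← Complex.ofReal_pow, ← Complex.ofReal_pow, sq_abs]
      push_cast at h6
      linear_combination h6
    have h7 : (-I * t / (‖t‖ : ℂ)) ^ 4 = I ^ 4 * t ^ 4 / (‖t‖ : ℂ) ^ 4 := by ring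
    rw [h7, h5, I_pow_four, one_mul, div_self (pow_ne_zero 4 hs0)]

/-- labelled roots from the labels of the family at the point `circ θ` -/
theorem of_w (nf : Normal f) {y t : Fin 8 → ℂ} (hroot : ∀ i, (fam f (circ θ)).eval (y i) = 0)
    (hinj : Function.Injective y)
    (hsq : ∀ i, t i ^ 2 = (derivative (fam f (circ θ))).eval (y i)) :
    Lab f θ (fun i => exp (-(θ * I)) * y i) (fun i => exp (-(7 / 2 * θ * I)) * t i) := by
  have hy : ∀ i, exp (θ * I) * (exp (-(θ * I)) * y i) = y i := fun i => by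
    rw [← mul_assoc, ← Complex.exp_add, add_neg_cancel, exp_zero, one_mul]
  refine ⟨fun i => ?_, fun i j hij => ?_, fun i => ?_⟩
  · have h1 := Line.fam_circ_eval nf.hom θ (exp (-(θ * I)) * y i)
    rw [hy, hroot i] at h1
    exact (mul_eq_zero.1 h1.symm).resolve_left (pow_ne_zero _ (exp_ne_zero _))
  · exact hinj (mul_left_cancel₀ (exp_ne_zero _) hij)
  · have h1 := Line.fam_circ_deriv_eval nf.hom θ (exp (-(θ * I)) * y i)
    rw [hy, ← hsq i] at h1
    show (exp (-(7 / 2 * θ * I)) * t i) ^ 2 = _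
    rw [mul_pow, h1, ← Complex.exp_nat_mul, ← Complex.exp_nat_mul, ← mul_assoc, ← Complex.exp_add]
    have h2 : ((2 : ℕ) : ℂ) * -(7 / 2 * θ * I) + ((7 : ℕ) : ℂ) * (θ * I) = 0 := by
      push_cast; ring
    rw [h2, exp_zero, one_mul]

end Lab

/-- the form in the real gauge from the form at the point `circ θ` -/
theorem form_of_w {n : Type} [Fintype n] [DecidableEq n] (M : Majorana 8 n) (C : Matrix n n ℂ)
    {θ : ℝ} {y t : Fin 8 → ℂ} {l : n → ℂ} (h : C * M.R (vfam y t) = vecMulVec l l) :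
    C * M.R (vfam (fun i => exp (-(θ * I)) * y i) (fun i => exp (-(7 / 2 * θ * I)) * t i)) =
      vecMulVec (fun a => exp (4 * θ * I) * l a) (fun a => exp (4 * θ * I) * l a) := by
  have h0 : vfam (fun i => exp (-(θ * I)) * y i) (fun i => exp (-(7 / 2 * θ * I)) * t i) =
      fun j : Fin 4 => (exp (-(θ * I)) ^ (j : ℕ) * exp (7 / 2 * θ * I)) • vfam y t j := by
    funext j i
    rw [Pi.smul_apply, smul_eq_mul]
    unfold vfam
    change (exp (-(θ * I)) * y i) ^ (j : ℕ) / (exp (-(7 / 2 * θ * I)) * t i) = _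
    rw [mul_pow, Complex.exp_neg (7 / 2 * θ * I)]
    have := Complex.exp_ne_zero (7 / 2 * θ * I)
    by_cases h : t i = 0
    · simp [h]
    · field_simp
  have h2 : (∏ j : Fin 4, exp (-(θ * I)) ^ (j : ℕ) * exp (7 / 2 * θ * I)) = exp (8 * θ * I) := by
    rw [Fin.prod_univ_four]
    simp only [← Complex.exp_nat_mul, ← Complex.exp_add]
    congr 1
    simp
    ring
  rw [h0, Majorana.R_smul, Matrix.mul_smul, h, h2]
  ext a b
  rw [Matrix.smul_apply, vecMulVec_apply, vecMulVec_apply, smul_eq_mul]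
  have h4 : exp (8 * θ * I) = exp (4 * θ * I) * exp (4 * θ * I) := by
    rw [← Complex.exp_add]
    congr 1
    ring
  rw [h4]
  ring

namespace Ctx

variable {n : Type} [Fintype n] [DecidableEq n] (X : Ctx n)

theorem lab {θ : ℝ} (h : X.Reg θ) : Lab X.f θ (X.eta θ) (X.sig θ) :=
  ⟨X.eta_root h, X.eta_injective h, X.sig_sq h⟩

theorem pairing_iff (θ : ℝ) (A B : Fin 4 → Fin 8) (kind : Fin 4 → Fin 3) (ζ : Fin 4 → ℂ) :
    X.Pairing θ A B kind ζ ↔ PairingG X.K0 X.K1 θ (X.eta θ) (X.sig θ) A B kind ζ :=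
  ⟨fun h => ⟨h.inj, h.cpx, h.real, h.in0, h.in1, h.zeta, h.zeta_sq⟩,
    fun h => ⟨h.inj, h.cpx, h.real, h.in0, h.in1, h.zeta, h.zeta_sq⟩⟩

theorem isState_iff (θ : ℝ) (A B : Fin 4 → Fin 8) (ζ : Fin 4 → ℂ) (ψ : n → ℂ) :
    X.IsState θ A B ζ ψ ↔ StateG X.M (X.lr θ) A B ζ ψ :=
  ⟨fun h => ⟨h.unit, h.proj, h.pos⟩, fun h => ⟨h.unit, h.proj, h.pos⟩⟩

end Ctx

end Pool.Agent.Rohlin
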