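import Pool.Agent.Rohlin.Fam
import Pool.Agent.Rohlin.Star

/-!
# The labels of the roots near a point of the closed disc
-/

set_option autoImplicit false

namespace Pool.Agent.Rohlin

open Set Topology Polynomial Filter Complex

namespace Family

variable {m : ℕ}

lemma isOpen_reg' (F : Family m) : IsOpen F.reg := by
  rw [isOpen_iff_mem_nhds]
  intro x₀ hx₀
  obtain ⟨η, hinj, hη⟩ := F.exists_enum hx₀
  obtain ⟨δ, U, hδ, hUo, hxU, hsep, hex⟩ := F.exists_nbhd hinj fun i => (hη _).2 ⟨i, rfl⟩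
  filter_upwards [hUo.mem_nhds hxU] with x hx
  choose r hr hrη using hex x hx
  have hri : Function.Injective r := by
    intro i j hij
    by_contra h
    have h1 := hsep i j h
    have h2 : ‖η i - η j‖ ≤ ‖r j - η j‖ + ‖r i - η i‖ := by
      have : η i - η j = (r j - η j) - (r i - η i) := by rw [hij]; ring
      rw [this]
      exact norm_sub_le _ _
    have := hrη i
    have := hrη j
    linarith
  classical
  have hcard : Multiset.card (F.P x).roots = m :=
    (IsAlgClosed.splits _).natDegree_eq_card_roots.symm.trans (F.deg x)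
  have h3 : (F.P x).roots.Nodup := by
    rw [← Multiset.toFinset_card_eq_card_iff_nodup]
    refine le_antisymm (Multiset.toFinset_card_le _) ?_
    rw [hcard]
    have h4 : Finset.univ.image r ⊆ (F.P x).roots.toFinset := by
      intro z hz
      obtain ⟨i, -, rfl⟩ := Finset.mem_image.1 hz
      rw [Multiset.mem_toFinset, mem_roots (F.ne_zero x)]
      exact hr i
    have h5 := Finset.card_le_card h4
    rwa [Finset.card_image_of_injective _ hri, Finset.card_univ, Fintype.card_fin] at h5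
  exact (nodup_roots_iff_of_splits (F.ne_zero x) (IsAlgClosed.splits _)).1 h3

lemma exists_local_labels' (F : Family m) {x₀ : ℂ} (hx₀ : x₀ ∈ F.reg) :
    ∃ δ > 0, Metric.ball x₀ δ ⊆ F.reg ∧ ∃ y : Fin m → ℂ → ℂ,
      (∀ i, ContinuousOn (y i) (Metric.ball x₀ δ)) ∧
      (∀ x ∈ Metric.ball x₀ δ, ∀ i, (F.P x).eval (y i x) = 0) ∧
      ∀ x ∈ Metric.ball x₀ δ, Function.Injective fun i => y i x := by
  obtain ⟨δ, hδ, hb⟩ := Metric.isOpen_iff.1 F.isOpen_reg' x₀ hx₀
  have h1 : ContractibleSpace (Metric.ball x₀ δ) := Metric.contractibleSpace_ball hδ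
  have h2 : IsSimplyConnected (Metric.ball x₀ δ) := SimplyConnectedSpace.ofContractible _
  obtain ⟨y, h3⟩ := F.exists_labels Metric.isOpen_ball h2 hb
  exact ⟨δ, hδ, hb, y, h3⟩

/-- a continuous root over a preconnected set is one of the labels -/
lemma match_labels (F : Family m) {S : Set ℂ} (hS : IsPreconnected S) (hne : S.Nonempty)
    {y : ℂ → ℂ} {η : Fin m → ℂ → ℂ} (hy : ContinuousOn y S) (hη : ∀ k, ContinuousOn (η k) S)
    (hyr : ∀ w ∈ S, (F.P w).eval (y w) = 0) (hηr : ∀ w ∈ S, ∀ k, (F.P w).eval (η k w) = 0)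
    (hinj : ∀ w ∈ S, Function.Injective fun k => η k w) : ∃ k, ∀ w ∈ S, y w = η k w := by
  classical
  obtain ⟨w₀, hw₀⟩ := hne
  have hex : ∀ w ∈ S, ∃ k, η k w = y w := fun w hw =>
    F.eq_of_injective (hinj w hw) (hηr w hw) (hyr w hw)
  obtain ⟨k₀, hk₀⟩ := hex w₀ hw₀
  let g : ℂ → Fin m := fun w => if h : w ∈ S then (hex w h).choose else k₀
  have hg : ∀ w ∈ S, η (g w) w = y w := by
    intro w hw
    have : g w = (hex w hw).choose := dif_pos hw
    rw [this]
    exact (hex w hw).choose_spec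
  have hloc : ∀ w ∈ S, ∀ᶠ w' in 𝓝[S] w, g w' = g w := by
    intro w hw
    have h1 : ∀ᶠ w' in 𝓝[S] w, ∀ l, l ≠ g w → η l w' ≠ y w' := by
      refine eventually_all.2 fun l => ?_
      by_cases hl : l = g w
      · exact Eventually.of_forall fun _ h => absurd hl h
      · have hne : η l w ≠ y w := by
          rw [← hg w hw]
          exact fun h => hl (hinj w hw h)
        have h2 : ContinuousWithinAt (fun w' => η l w' - y w') S w := (hη l w hw).sub (hy w hw)
        have h3 := h2.eventually_ne (sub_ne_zero.2 hne)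
        filter_upwards [h3] with w' h4 _ h5
        exact h4 (sub_eq_zero.2 h5)
    filter_upwards [h1, self_mem_nhdsWithin] with w' h1 h2
    by_contra h3
    exact h1 _ h3 (hg w' h2)
  refine ⟨g w₀, fun w hw => ?_⟩
  rw [← hg w hw, const_of_locally hS hloc hw hw₀]

/-- distinct roots are separated -/
lemma exists_sep (F : Family m) (x : ℂ) : ∃ ρ : ℝ, 0 < ρ ∧ ∀ y y', (F.P x).eval y = 0 →
    (F.P x).eval y' = 0 → y ≠ y' → 4 * ρ ≤ ‖y - y'‖ := by
  classical
  have h1 : ∀ y ∈ (F.P x).roots.toFinset, ∀ᶠ ρ : ℝ in 𝓝[>] 0, ∀ y' ∈ (F.P x).roots.toFinset,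
      y ≠ y' → 4 * ρ ≤ ‖y - y'‖ := by
    intro y _
    rw [Finset.eventually_all]
    intro y' _
    by_cases h : y = y'
    · exact Eventually.of_forall fun _ h' => absurd h h'
    · have hpos : 0 < ‖y - y'‖ := norm_pos_iff.2 (sub_ne_zero.2 h)
      have h2 : ∀ᶠ δ : ℝ in 𝓝[>] 0, 4 * δ < ‖y - y'‖ := by
        refine eventually_nhdsWithin_of_eventually_nhds ?_
        refine (show Continuous fun δ : ℝ => 4 * δ by fun_prop).continuousAt.eventually
          (gt_mem_nhds ?_)
        simpa using hpos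
      filter_upwards [h2] with δ hδ _
      exact hδ.le
  obtain ⟨ρ, hρ, hρ0⟩ := (((Finset.eventually_all _).2 h1).and self_mem_nhdsWithin).exists
  refine ⟨ρ, hρ0, fun y y' hy hy' hne => hρ y ?_ y' ?_ hne⟩
  · rw [Multiset.mem_toFinset, mem_roots (F.ne_zero x)]
    exact hy
  · rw [Multiset.mem_toFinset, mem_roots (F.ne_zero x)]
    exact hy'

end Family

end Pool.Agent.Rohlin
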