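import Pool.Agent.Rohlin.Good
import Pool.Agent.Rohlin.Frame
import Pool.Agent.Rohlin.Germ

/-!
# LOCAL: the labels and the square roots near a branch point
-/

set_option autoImplicit false

namespace Pool.Agent.Rohlin

open Polynomial Complex Set Filter Topology
open scoped ContDiff

variable {f : MvPolynomial (Fin 3) ℝ}

namespace Loc

/-! ### derivatives of the family -/

lemma hasDerivAt_aeval (f : MvPolynomial (Fin 3) ℝ) {v : ℂ → Fin 3 → ℂ} {v' : Fin 3 → ℂ} {x : ℂ}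
    (hv : ∀ i, HasDerivAt (fun t => v t i) (v' i) x) :
    HasDerivAt (fun t => MvPolynomial.aeval (v t) f)
      (∑ i, MvPolynomial.aeval (v x) (MvPolynomial.pderiv i f) * v' i) x := by
  induction f using MvPolynomial.induction_on with
  | C r =>
    simp only [MvPolynomial.pderiv_C, map_zero, zero_mul, Finset.sum_const_zero,
      MvPolynomial.aeval_C]
    exact hasDerivAt_const _ _
  | add p q hp hq =>
    simp only [map_add, add_mul, Finset.sum_add_distrib]
    exact hp.fun_add hq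
  | mul_X p i hp =>
    have h1 := hp.fun_mul (hv i)
    simp only [map_mul, MvPolynomial.aeval_X]
    refine h1.congr_deriv ?_
    have h2 : ∀ j, MvPolynomial.aeval (v x) (MvPolynomial.pderiv j (p * MvPolynomial.X i)) * v' j =
        MvPolynomial.aeval (v x) (MvPolynomial.pderiv j p) * v' j * v x i +
          MvPolynomial.aeval (v x) p * (if j = i then v' j else 0) := by
      intro j
      rw [Derivation.leibniz, MvPolynomial.pderiv_X, smul_eq_mul, smul_eq_mul, map_add, map_mul,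
        map_mul, MvPolynomial.aeval_X]
      by_cases hji : j = i
      · subst hji
        rw [Pi.single_eq_same, if_pos rfl, map_one]
        ring
      · rw [Pi.single_eq_of_ne (Ne.symm hji), if_neg hji, map_zero]
        ring
    simp only [h2]
    rw [Finset.sum_add_distrib, ← Finset.sum_mul, ← Finset.mul_sum, Finset.sum_ite_eq' Finset.univ i,
      if_pos (Finset.mem_univ i)]

lemma eval_derivative_dir (f : MvPolynomial (Fin 3) ℝ) (a b y : ℂ) :
    (derivative (dir f a b)).eval y =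
      MvPolynomial.aeval ![a, b, y] (MvPolynomial.pderiv 2 f) := by
  have h1 : HasDerivAt (fun t => MvPolynomial.aeval ![a, b, t] f)
      (∑ i, MvPolynomial.aeval ![a, b, y] (MvPolynomial.pderiv i f) *
        (![0, 0, 1] : Fin 3 → ℂ) i) y := by
    refine hasDerivAt_aeval f (v := fun t => ![a, b, t]) fun i => ?_
    fin_cases i
    · exact hasDerivAt_const y a
    · exact hasDerivAt_const y b
    · exact hasDerivAt_id' y
  have h2 : HasDerivAt (fun t => MvPolynomial.aeval ![a, b, t] f)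
      ((derivative (dir f a b)).eval y) y := by
    have := (dir f a b).hasDerivAt y
    simpa only [aeval_dir] using this
  rw [h2.unique h1, Fin.sum_univ_three]
  simp

lemma derivative_dir (f : MvPolynomial (Fin 3) ℝ) (a b : ℂ) :
    derivative (dir f a b) = dir (MvPolynomial.pderiv 2 f) a b := by
  refine Polynomial.funext fun y => ?_
  rw [eval_derivative_dir, aeval_dir]

lemma derivative_fam (f : MvPolynomial (Fin 3) ℝ) (w : ℂ) :
    derivative (fam f w) = fam (MvPolynomial.pderiv 2 f) w := derivative_dir _ _ _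

lemma dir_ne (w : ℂ) : (1 + w) / 2 ≠ 0 ∨ I * (1 - w) / 2 ≠ 0 := by
  by_contra hcon
  push Not at hcon
  have h1 : I * (1 - w) / 2 + I * ((1 + w) / 2) = I := by ring
  rw [hcon.1, hcon.2] at h1
  simp at h1
  exact I_ne_zero h1.symm

/-- at a double root the derivative of the family with respect to `w` does not vanish -/
lemma exists_deriv_w (nf : Normal f) {w y : ℂ} (h0 : (fam f w).eval y = 0)
    (h1 : (derivative (fam f w)).eval y = 0) :
    ∃ c : ℂ, c ≠ 0 ∧ HasDerivAt (fun w => (fam f w).eval y) c w := by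
  set V : Fin 3 → ℂ := ![(1 + w) / 2, I * (1 - w) / 2, y] with hV
  have hd : HasDerivAt (fun t => (fam f t).eval y)
      (∑ i, MvPolynomial.aeval V (MvPolynomial.pderiv i f) *
        (![1 / 2, -I / 2, 0] : Fin 3 → ℂ) i) w := by
    have h2 : HasDerivAt (fun t => MvPolynomial.aeval ![(1 + t) / 2, I * (1 - t) / 2, y] f)
        (∑ i, MvPolynomial.aeval V (MvPolynomial.pderiv i f) *
          (![1 / 2, -I / 2, 0] : Fin 3 → ℂ) i) w := by
      refine hasDerivAt_aeval f (v := fun t => ![(1 + t) / 2, I * (1 - t) / 2, y]) fun i => ?_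
      fin_cases i
      · show HasDerivAt (fun t : ℂ => (1 + t) / 2) (1 / 2) w
        exact ((hasDerivAt_id' w).const_add 1).div_const 2
      · show HasDerivAt (fun t : ℂ => I * (1 - t) / 2) (-I / 2) w
        have := (((hasDerivAt_id' w).const_sub 1).const_mul I).div_const 2
        refine this.congr_deriv ?_
        ring
      · exact hasDerivAt_const w y
    have h3 : (fun t => (fam f t).eval y) =
        fun t => MvPolynomial.aeval ![(1 + t) / 2, I * (1 - t) / 2, y] f := by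
      funext t
      rw [fam, aeval_dir]
    rw [h3]
    exact h2
  refine ⟨_, ?_, hd⟩
  intro hc
  rw [Fin.sum_univ_three] at hc
  simp only [Matrix.cons_val_zero, Matrix.cons_val_one, Matrix.cons_val_two, Matrix.head_cons,
    Matrix.tail_cons] at hc
  have hV0 : V ≠ 0 := by
    intro h
    have h2 := cV_std w y
    rw [← hV, h] at h2
    simp [cV] at h2
  have hfV : MvPolynomial.aeval V f = 0 := by
    rw [fam, aeval_dir] at h0
    exact h0
  have hf2 : MvPolynomial.aeval V (MvPolynomial.pderiv 2 f) = 0 := by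
    rw [fam, eval_derivative_dir] at h1
    exact h1
  -- Euler's relation
  have heu : MvPolynomial.aeval V (MvPolynomial.pderiv 0 f) * V 0 +
      MvPolynomial.aeval V (MvPolynomial.pderiv 1 f) * V 1 +
      MvPolynomial.aeval V (MvPolynomial.pderiv 2 f) * V 2 = 0 := by
    have h2 : HasDerivAt (fun t : ℂ => MvPolynomial.aeval (t • V) f)
        (∑ i, MvPolynomial.aeval ((1 : ℂ) • V) (MvPolynomial.pderiv i f) * V i) 1 := by
      refine hasDerivAt_aeval f (v := fun t : ℂ => t • V) fun i => ?_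
      have := (hasDerivAt_id' (1 : ℂ)).mul_const (V i)
      rw [one_mul] at this
      exact this
    have h3 : (fun t : ℂ => MvPolynomial.aeval (t • V) f) = fun _ => 0 := by
      funext t
      rw [aeval_smul_hom nf.hom, hfV, mul_zero]
    rw [h3] at h2
    have h4 := h2.unique (hasDerivAt_const (1 : ℂ) (0 : ℂ))
    rw [Fin.sum_univ_three, one_smul] at h4
    exact h4
  have hV0' : V 0 = (1 + w) / 2 := rfl
  have hV1' : V 1 = I * (1 - w) / 2 := rfl
  rw [hf2, hV0', hV1'] at heu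
  rw [hf2] at hc
  set f0 := MvPolynomial.aeval V (MvPolynomial.pderiv 0 f) with hf0
  set f1 := MvPolynomial.aeval V (MvPolynomial.pderiv 1 f) with hf1
  have hI : I * I = -1 := I_mul_I
  have e1 : f0 = I * f1 := by
    linear_combination 2 * hc
  have e2 : f1 = 0 := by
    have h2 : f1 * I = 0 := by
      rw [e1] at heu
      linear_combination heu
    rcases mul_eq_zero.1 h2 with h3 | h3
    · exact h3
    · exact absurd h3 I_ne_zero
  have e3 : f0 = 0 := by rw [e1, e2, mul_zero]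
  obtain ⟨i, hi⟩ := nf.nonsing V hV0 hfV
  fin_cases i
  · exact hi e3
  · exact hi e2
  · exact hi hf2

/-- the remaining factor at a double root -/
lemma exists_factor {Q : ℂ[X]} {η : ℂ} (h0 : Q.eval η = 0) (h1 : Q.derivative.eval η = 0) :
    ∃ R : ℂ[X], Q = (X - C η) ^ 2 * R ∧ Q.derivative.derivative.eval η = 2 * R.eval η := by
  obtain ⟨R1, hR1⟩ := dvd_iff_isRoot.2 h0
  have h2 : R1.eval η = 0 := by
    rw [hR1, derivative_mul] at h1
    simpa using h1
  obtain ⟨R, hR⟩ := dvd_iff_isRoot.2 h2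
  refine ⟨R, by rw [hR1, hR]; ring, ?_⟩
  rw [hR1, hR]
  simp only [derivative_mul, derivative_add, derivative_X_sub_C, eval_add, eval_mul, eval_sub,
    eval_X, eval_C, sub_self, zero_mul, one_mul, add_zero]
  ring

end Loc

/-! ### the local data -/

namespace Ctx

variable {n : Type} [Fintype n] [DecidableEq n] (X : Ctx n)

/-- the local data at the branch point `z`, in the coordinate `t = tvar c z w`:
the labels `a`, `b` collide, `Y t`, `Y (-t)` are their values, and `t ^ (1 / 2) * H t` is the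
square root of the derivative -/
structure LocAt (z : ℂ) (a b : Fin 8) (ε : ℂ) (Y H : ℂ → ℂ) (y0 s0 : Fin 8 → ℂ) (δ r : ℝ) :
    Prop where
  ne : a ≠ b
  eps : ε = 1 ∨ ε = -1
  pos : 0 < δ
  rpos : 0 < r
  anY : AnalyticAt ℂ Y 0
  anH : AnalyticAt ℂ H 0
  H0 : H 0 ≠ 0
  Y1 : deriv Y 0 ≠ 0
  /-- `Y 0` is the double root -/
  Y0_root : (fam X.f z).eval (Y 0) = 0
  Y0_der : (derivative (fam X.f z)).eval (Y 0) = 0
  Y0_der2 : (derivative (derivative (fam X.f z))).eval (Y 0) ≠ 0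
  H_sq : H 0 ^ 2 = deriv Y 0 * (derivative (derivative (fam X.f z))).eval (Y 0)
  contY : ContinuousOn Y (Metric.ball 0 δ)
  contH : ContinuousOn H (Metric.ball 0 δ)
  H_ne : ∀ t : ℂ, ‖t‖ < δ → H t ≠ 0
  injY : ∀ t t' : ℂ, ‖t‖ < δ → ‖t'‖ < δ → Y t = Y t' → t = t'
  root : ∀ t : ℂ, ‖t‖ < δ → (fam X.f (z + t ^ 2 * (X.c - z))).eval (Y t) = 0
  der : ∀ t : ℂ, ‖t‖ < δ →
    (derivative (fam X.f (z + t ^ 2 * (X.c - z)))).eval (Y t) = t * H t ^ 2
  ya : ∀ w ∈ X.D, ‖w - z‖ < r → X.y a w = Y (tvar X.c z w)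
  yb : ∀ w ∈ X.D, ‖w - z‖ < r → X.y b w = Y (-tvar X.c z w)
  sa : ∀ w ∈ X.D, ‖w - z‖ < r →
    X.s a w = (tvar X.c z w) ^ (1 / 2 : ℂ) * H (tvar X.c z w)
  sb : ∀ w ∈ X.D, ‖w - z‖ < r →
    X.s b w = ε * I * (tvar X.c z w) ^ (1 / 2 : ℂ) * H (-tvar X.c z w)
  small : ∀ w : ℂ, ‖w - z‖ < r → ‖tvar X.c z w‖ < δ
  /-- near `z` the only slit is the one of `z` -/
  star : ∀ w : ℂ, ‖w - z‖ < r → (w ∈ Star X.c X.Z ↔ sc X.c z w ∈ slitPlane)
  /-- the limits of all labels -/
  lim_y : ∀ i, Tendsto (X.y i) (𝓝[X.D] z) (𝓝 (y0 i))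
  lim_s : ∀ i, i ≠ a → i ≠ b → Tendsto (X.s i) (𝓝[X.D] z) (𝓝 (s0 i))
  y0a : y0 a = Y 0
  y0b : y0 b = Y 0
  prod : fam X.f z = ∏ i, (Polynomial.X - Polynomial.C (y0 i))
  y0_root : ∀ i, (fam X.f z).eval (y0 i) = 0
  y0_ne : ∀ i, i ≠ a → i ≠ b → y0 i ≠ Y 0
  y0_inj : ∀ i j, i ≠ a → i ≠ b → j ≠ a → j ≠ b → i ≠ j → y0 i ≠ y0 j
  s0_sq : ∀ i, i ≠ a → i ≠ b → (derivative (fam X.f z)).eval (y0 i) = s0 i ^ 2
  s0_ne : ∀ i, i ≠ a → i ≠ b → s0 i ≠ 0

lemma neBot_DL {z : ℂ} (hz : ‖z‖ ≤ 1) : (𝓝[X.D] z).NeBot := by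
  rw [← mem_closure_iff_nhdsWithin_neBot, Metric.mem_closure_iff]
  intro r hr
  obtain ⟨w, hw, hw1, hw2⟩ := exists_mem_Star_near X.hc X.cZ hz hr
  exact ⟨w, ⟨hw, hw1⟩, by rw [dist_comm, dist_eq_norm]; exact hw2⟩

/-- all labels have limits -/
lemma exists_limits {z : ℂ} (hz : z ∈ X.Z) : ∃ y0 : Fin 8 → ℂ,
    (∀ i, Tendsto (X.y i) (𝓝[X.D] z) (𝓝 (y0 i))) ∧
    fam X.f z = ∏ i, (Polynomial.X - Polynomial.C (y0 i)) := by
  have hzn : ‖z‖ ≤ 1 := ((X.hZ z).1 hz).1
  obtain ⟨ρ, ε, hρ, hε, hnear, hcl⟩ := X.exists_clusters hz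
  obtain ⟨w₁, hw₁, hw₁n, hw₁ε⟩ := exists_mem_Star_near X.hc X.cZ hzn hε
  have h1 : ∀ i, ∃ y₀, Tendsto (X.y i) (𝓝[X.D] z) (𝓝 y₀) := by
    intro i
    obtain ⟨y₀, hy₀, hd⟩ := hnear w₁ hw₁ε (X.y i w₁) (X.y_root w₁ hw₁ hw₁n i)
    refine ⟨y₀, hcl i y₀ hy₀ w₁ ⟨hw₁, hw₁n⟩ hw₁ε ?_⟩
    rw [norm_sub_rev]
    linarith
  choose y0 hy0 using h1
  refine ⟨y0, hy0, ?_⟩
  have hne := X.neBot_DL hzn
  refine Polynomial.funext fun x => ?_
  have h2 : Tendsto (fun w => (fam X.f w).eval x) (𝓝[X.D] z) (𝓝 ((fam X.f z).eval x)) := by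
    have : Continuous fun w : ℂ => (fam X.f w).eval x :=
      (famF X.nf).continuous_eval.comp (by fun_prop : Continuous fun w : ℂ => (w, x))
    exact this.continuousAt.tendsto.mono_left nhdsWithin_le_nhds
  have h3 : Tendsto (fun w => ∏ i, (x - X.y i w)) (𝓝[X.D] z) (𝓝 (∏ i, (x - y0 i))) :=
    tendsto_finsetProd _ fun i _ => tendsto_const_nhds.sub (hy0 i)
  have h4 : ∀ᶠ w in 𝓝[X.D] z, ∏ i, (x - X.y i w) = (fam X.f w).eval x := by
    filter_upwards [self_mem_nhdsWithin] with w hw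
    rw [prod_of_roots (monic_fam X.nf w) (natDegree_fam X.nf w) (X.y_root w hw.1 hw.2)
      (X.y_inj w hw.1 hw.2), eval_prod]
    refine Finset.prod_congr rfl fun i _ => ?_
    simp
  have h5 := tendsto_nhds_unique (h3.congr' h4) h2
  rw [← h5, eval_prod]
  refine Finset.prod_congr rfl fun i _ => ?_
  simp

/-- a root which is the limit of two labels is the double root, and there is no third one -/
lemma limits_inj {z : ℂ} {y0 : Fin 8 → ℂ}
    (hprod : fam X.f z = ∏ i, (Polynomial.X - Polynomial.C (y0 i))) {η : ℂ}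
    (h0 : (fam X.f z).eval η = 0) (h1 : (derivative (fam X.f z)).eval η = 0)
    {a b : Fin 8} (hab : a ≠ b) (ha : y0 a = η) (hb : y0 b = η) :
    (∀ i, i ≠ a → i ≠ b → y0 i ≠ η) ∧
      (∀ i j, i ≠ j → y0 i = y0 j → y0 i = η) := by
  classical
  have hdir : (1 + z) / 2 ≠ 0 ∨ I * (1 - z) / 2 ≠ 0 := Loc.dir_ne z
  constructor
  · intro i hia hib hi
    have h2 : (Polynomial.X - Polynomial.C η) ^ 3 ∣ fam X.f z := by
      rw [hprod]
      have h3 : ∏ j ∈ ({a, b, i} : Finset (Fin 8)), (Polynomial.X - Polynomial.C (y0 j)) =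
          (Polynomial.X - Polynomial.C η) ^ 3 := by
        rw [Finset.prod_insert (by simp [hab, hia.symm]),
          Finset.prod_insert (by simp [hib.symm]), Finset.prod_singleton, ha, hb, hi]
        ring
      rw [← h3]
      exact Finset.prod_dvd_prod_of_subset _ _ _ (Finset.subset_univ _)
    obtain ⟨R, hR⟩ := h2
    refine X.nf.two _ _ η hdir h0 h1 ?_
    show (derivative (derivative (fam X.f z))).eval η = 0
    rw [hR]
    simp [derivative_mul, derivative_pow]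
  · intro i j hij hy
    have h2 : (Polynomial.X - Polynomial.C (y0 i)) ^ 2 ∣ fam X.f z := by
      rw [hprod]
      have h3 : ∏ l ∈ ({i, j} : Finset (Fin 8)), (Polynomial.X - Polynomial.C (y0 l)) =
          (Polynomial.X - Polynomial.C (y0 i)) ^ 2 := by
        rw [Finset.prod_pair hij, ← hy]
        ring
      rw [← h3]
      exact Finset.prod_dvd_prod_of_subset _ _ _ (Finset.subset_univ _)
    obtain ⟨R, hR⟩ := h2
    refine X.nf.one _ _ _ _ hdir (?_ : (fam X.f z).eval (y0 i) = 0)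
      (?_ : (derivative (fam X.f z)).eval (y0 i) = 0) h0 h1
    · rw [hR]
      simp
    · rw [hR]
      simp [derivative_mul, derivative_pow]

/-- **The local data at a branch point.** -/
theorem exists_locAt {z : ℂ} (hz : z ∈ X.Z) :
    ∃ a b ε Y H y0 s0 δ r, X.LocAt z a b ε Y H y0 s0 δ r := by
  have hzn : ‖z‖ ≤ 1 := ((X.hZ z).1 hz).1
  have hzc : z ≠ X.c := X.ne_c hz
  have hd : X.c - z ≠ 0 := sub_ne_zero.2 hzc.symm
  have hnb := X.neBot_DL hzn
  -- the double root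
  obtain ⟨η, hη0, hη1⟩ : ∃ η, (fam X.f z).eval η = 0 ∧ (derivative (fam X.f z)).eval η = 0 := by
    have h1 : ¬ (fam X.f z).Separable := ((X.hZ z).1 hz).2
    by_contra hcon
    push Not at hcon
    apply h1
    rw [Polynomial.separable_def]
    refine (Polynomial.isCoprime_iff_aeval_ne_zero_of_isAlgClosed ℂ ℂ _ _).2 fun a => ?_
    rw [coe_aeval_eq_eval]
    by_cases h : (fam X.f z).eval a = 0
    · exact Or.inr (hcon a h)
    · exact Or.inl h
  have hη2 : (derivative (derivative (fam X.f z))).eval η ≠ 0 :=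
    X.nf.two _ _ η (Loc.dir_ne z) hη0 hη1
  obtain ⟨cw, hcw, hw⟩ := Loc.exists_deriv_w X.nf hη0 hη1
  obtain ⟨R, hR, hR2⟩ := Loc.exists_factor hη0 hη1
  have hRη : R.eval η ≠ 0 := by
    intro h
    apply hη2
    rw [hR2, h, mul_zero]
  have hF : ContDiffAt ℂ ω (fun p : ℂ × ℂ => (fam X.f p.1).eval p.2) (z, η) :=
    (contDiff_fam X.f).contDiffAt
  obtain ⟨Y, hYa, hY0, hY1, hYr, g, hg⟩ := Germ.exists_puiseux hF hη0 hcw hw
    (R := fun y => R.eval y) R.continuous.continuousAt hRη (fun y => by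
      show (fam X.f z).eval y = _
      rw [hR]
      simp) hd
  -- the square root of the derivative
  set φ : ℂ → ℂ := fun t => (derivative (fam X.f (z + t ^ 2 * (X.c - z)))).eval (Y t) with hφ
  have hφ' : φ = (fun p : ℂ × ℂ => (fam (MvPolynomial.pderiv 2 X.f) p.1).eval p.2) ∘
      fun t => (z + t ^ 2 * (X.c - z), Y t) := by
    funext t
    rw [hφ]
    simp only [Function.comp_apply]
    rw [Loc.derivative_fam]
  have hcurve0 : ((z + (0 : ℂ) ^ 2 * (X.c - z), Y 0) : ℂ × ℂ) = (z, η) := by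
    rw [hY0]
    simp
  have hF1 : ContDiffAt ℂ ω (fun p : ℂ × ℂ => (fam (MvPolynomial.pderiv 2 X.f) p.1).eval p.2)
      (z + (0 : ℂ) ^ 2 * (X.c - z), Y 0) := (contDiff_fam _).contDiffAt
  have hcurve : AnalyticAt ℂ (fun t : ℂ => ((z + t ^ 2 * (X.c - z), Y t) : ℂ × ℂ)) 0 := by
    refine AnalyticAt.prod ?_ hYa
    exact analyticAt_const.add (((analyticAt_id).pow 2).mul analyticAt_const)
  have hφa : AnalyticAt ℂ φ 0 := by
    rw [hφ']
    exact AnalyticAt.comp hF1.analyticAt hcurve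
  have hφ0 : φ 0 = 0 := by
    rw [hφ]
    simp only
    rw [hY0]
    simpa using hη1
  have hφd : HasDerivAt φ (deriv Y 0 * (derivative (derivative (fam X.f z))).eval η) 0 := by
    have h1 : HasFDerivAt (fun p : ℂ × ℂ => (fam (MvPolynomial.pderiv 2 X.f) p.1).eval p.2)
        (fderiv ℂ (fun p : ℂ × ℂ => (fam (MvPolynomial.pderiv 2 X.f) p.1).eval p.2) (z, η))
        (z, η) := ((contDiff_fam (n := 1) _).differentiable (by norm_num) _).hasFDerivAt
    have h2 : HasDerivAt (fun t : ℂ => ((z + t ^ 2 * (X.c - z), Y t) : ℂ × ℂ))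
        (0, deriv Y 0) 0 := by
      refine HasDerivAt.prodMk ?_ hYa.differentiableAt.hasDerivAt
      have h3 := (((hasDerivAt_id' (0 : ℂ)).fun_pow 2).mul_const (X.c - z)).const_add z
      simpa using h3
    have h4 : fderiv ℂ (fun p : ℂ × ℂ => (fam (MvPolynomial.pderiv 2 X.f) p.1).eval p.2) (z, η)
        (0, 1) = (derivative (derivative (fam X.f z))).eval η := by
      have h5 : HasDerivAt (fun s : ℂ => ((z, s) : ℂ × ℂ)) (0, 1) η :=
        (hasDerivAt_const η z).prodMk (hasDerivAt_id η)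
      have h6 := h1.comp_hasDerivAt η h5
      rw [Loc.derivative_fam]
      have h7 : HasDerivAt ((fun p : ℂ × ℂ => (fam (MvPolynomial.pderiv 2 X.f) p.1).eval p.2) ∘
          fun s : ℂ => ((z, s) : ℂ × ℂ))
          ((derivative (fam (MvPolynomial.pderiv 2 X.f) z)).eval η) η :=
        (fam (MvPolynomial.pderiv 2 X.f) z).hasDerivAt η
      exact h6.unique h7
    rw [← hcurve0] at h1
    have h8 := h1.comp_hasDerivAt (0 : ℂ) h2
    rw [hcurve0] at h8
    rw [hφ']
    refine h8.congr_deriv ?_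
    have h9 : ((0, deriv Y 0) : ℂ × ℂ) = deriv Y 0 • ((0, 1) : ℂ × ℂ) := by simp
    rw [h9, map_smul, h4, smul_eq_mul]
  obtain ⟨H, hHa, hH2, hHφ⟩ := Germ.exists_simple hφa hφ0 (mul_ne_zero hY1 hη2) hφd
  have hH0 : H 0 ≠ 0 := by
    intro h
    rw [h] at hH2
    exact mul_ne_zero hY1 hη2 (by rw [← hH2]; norm_num)
  -- the radius `δ`
  have hall := ((((hYr.and hHφ).and hYa.eventually_analyticAt).and
    hHa.eventually_analyticAt).and (hHa.continuousAt.eventually_ne hH0)).and hg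
  obtain ⟨δ, hδ, hb⟩ := Metric.eventually_nhds_iff.1 hall
  have hbt : ∀ t : ℂ, ‖t‖ < δ → (fam X.f (z + t ^ 2 * (X.c - z))).eval (Y t) = 0 ∧
      φ t = t * H t ^ 2 ∧ AnalyticAt ℂ Y t ∧ AnalyticAt ℂ H t ∧ H t ≠ 0 ∧ g (Y t) = t := by
    intro t ht
    obtain ⟨⟨⟨⟨⟨g1, g2⟩, g3⟩, g4⟩, g5⟩, g6⟩ :=
      hb (show dist t 0 < δ by rwa [dist_zero_right])
    exact ⟨g1, g2, g3, g4, g5, g6⟩
  have hinj : ∀ t t' : ℂ, ‖t‖ < δ → ‖t'‖ < δ → Y t = Y t' → t = t' := by
    intro t t' ht ht' h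
    rw [← (hbt t ht).2.2.2.2.2, ← (hbt t' ht').2.2.2.2.2, h]
  have hYc : ContinuousOn Y (Metric.ball 0 δ) := fun t ht =>
    (hbt t (by simpa using ht)).2.2.1.continuousAt.continuousWithinAt
  have hHc : ContinuousOn H (Metric.ball 0 δ) := fun t ht =>
    (hbt t (by simpa using ht)).2.2.2.1.continuousAt.continuousWithinAt
  -- the radius `r`
  obtain ⟨ε₀, hε₀, hpre⟩ := X.exists_preconn hz
  have hav : ∀ z' ∈ X.Z, z' ≠ z → sc X.c z' z ∈ slitPlane := by
    intro z' hz' hne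
    rw [sc_mem_slitPlane_iff (X.ne_c hz')]
    intro t ht
    rcases ht.eq_or_lt with h | h
    · rw [← h]
      simpa using hne.symm
    · exact X.cgen z' hz' z hz t h
  obtain ⟨ε₂, hε₂, hav2⟩ := Metric.eventually_nhds_iff.1 (eventually_avoid hav)
  have hsm := (Metric.tendsto_nhds.1 (tendsto_tvar_self X.c z)) δ hδ
  obtain ⟨ε₁, hε₁, hsm2⟩ := Metric.eventually_nhds_iff.1 hsm
  set r := min ε₀ (min ε₁ ε₂) with hr
  have hr0 : 0 < r := lt_min hε₀ (lt_min hε₁ hε₂)
  have hsmall : ∀ w : ℂ, ‖w - z‖ < r → ‖tvar X.c z w‖ < δ := by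
    intro w hw
    have := hsm2 (y := w) (by
      rw [dist_eq_norm]
      exact hw.trans_le ((min_le_right _ _).trans (min_le_left _ _)))
    rwa [dist_zero_right] at this
  have hstar : ∀ w : ℂ, ‖w - z‖ < r → (w ∈ Star X.c X.Z ↔ sc X.c z w ∈ slitPlane) := by
    intro w hw
    constructor
    · intro h
      exact sc_mem_slitPlane X.cZ hz h
    · intro h
      refine (mem_Star X.cZ).2 fun z' hz' => ?_
      by_cases hne : z' = z
      · rw [hne]
        exact h
      · exact hav2 (by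
          rw [dist_eq_norm]
          exact hw.trans_le ((min_le_right _ _).trans (min_le_right _ _))) z' hz' hne
  set S : Set ℂ := {w | w ∈ X.D ∧ ‖w - z‖ < r} with hS
  have hSp : IsPreconnected S := hpre r hr0 (min_le_left _ _)
  have hSD : S ⊆ X.D := fun w hw => hw.1
  have hSne : S.Nonempty := by
    obtain ⟨w, hw, hw1, hw2⟩ := exists_mem_Star_near X.hc X.cZ hzn hr0
    exact ⟨w, ⟨hw, hw1⟩, hw2⟩
  have hSt : ∀ w ∈ S, ‖tvar X.c z w‖ < δ := fun w hw => hsmall w hw.2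
  have hSt' : ∀ w ∈ S, ‖-tvar X.c z w‖ < δ := fun w hw => by
    rw [norm_neg]
    exact hSt w hw
  have hre : ∀ w ∈ S, 0 < (tvar X.c z w).re := fun w hw => tvar_re_pos X.cZ hz hw.1.1
  have htc : ContinuousOn (tvar X.c z) S :=
    (continuousOn_tvar X.cZ hz).mono fun w hw => hw.1.1
  have hweq : ∀ w, w = z + tvar X.c z w ^ 2 * (X.c - z) := eq_add_tvar hzc
  have hYtc : ContinuousOn (fun w => Y (tvar X.c z w)) S :=
    hYc.comp htc fun w hw => by simpa using hSt w hw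
  have hYtc' : ContinuousOn (fun w => Y (-tvar X.c z w)) S :=
    hYc.comp htc.neg fun w hw => by simpa using hSt w hw
  have hHtc : ContinuousOn (fun w => H (tvar X.c z w)) S :=
    hHc.comp htc fun w hw => by simpa using hSt w hw
  have hHtc' : ContinuousOn (fun w => H (-tvar X.c z w)) S :=
    hHc.comp htc.neg fun w hw => by simpa using hSt w hw
  have hrc : ContinuousOn (fun w => (tvar X.c z w) ^ (1 / 2 : ℂ)) S := by
    intro w hw
    refine ContinuousWithinAt.cpow (htc w hw) continuousWithinAt_const ?_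
    rw [mem_slitPlane_iff]
    exact Or.inl (hre w hw)
  -- the colliding labels
  obtain ⟨a, ha⟩ := (famF X.nf).match_labels (y := fun w => Y (tvar X.c z w)) (η := X.y) hSp hSne
    hYtc (fun k => (X.y_cont k).mono hSD) (fun w hw => by
      have := (hbt _ (hSt w hw)).1
      rw [← hweq w] at this
      exact this) (fun w hw k => X.y_root w hw.1.1 hw.1.2 k) (fun w hw => X.y_inj w hw.1.1 hw.1.2)
  obtain ⟨b, hbb⟩ := (famF X.nf).match_labels (y := fun w => Y (-tvar X.c z w)) (η := X.y) hSp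
    hSne hYtc' (fun k => (X.y_cont k).mono hSD) (fun w hw => by
      have := (hbt _ (hSt' w hw)).1
      rw [neg_sq, ← hweq w] at this
      exact this) (fun w hw k => X.y_root w hw.1.1 hw.1.2 k) (fun w hw => X.y_inj w hw.1.1 hw.1.2)
  have hab : a ≠ b := by
    intro h
    obtain ⟨w, hw⟩ := hSne
    have h1 : Y (tvar X.c z w) = Y (-tvar X.c z w) := by
      have h2 := ha w hw
      have h3 := hbb w hw
      rw [h2, h3, h]
    have h2 := hinj _ _ (hSt w hw) (hSt' w hw) h1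
    have h3 := hre w hw
    have h4 : tvar X.c z w = 0 := by linear_combination h2 / 2
    rw [h4, zero_re] at h3
    exact lt_irrefl _ h3
  have hrt : ∀ t : ℂ, (t ^ (1 / 2 : ℂ)) ^ 2 = t := by
    intro t
    have h4 := cpow_nat_inv_pow t (n := 2) two_ne_zero
    convert h4 using 2
    norm_num
  have htne : ∀ w ∈ S, tvar X.c z w ≠ 0 := fun w hw h => by
    have := hre w hw
    rw [h, zero_re] at this
    exact lt_irrefl _ this
  have hrtne : ∀ w ∈ S, (tvar X.c z w) ^ (1 / 2 : ℂ) ≠ 0 := fun w hw h => by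
    apply htne w hw
    rw [← hrt (tvar X.c z w), h]
    norm_num
  -- the square roots
  have hsa2 : ∀ w ∈ S, X.s a w ^ 2 = ((tvar X.c z w) ^ (1 / 2 : ℂ) * H (tvar X.c z w)) ^ 2 := by
    intro w hw
    have h1 := (hbt _ (hSt w hw)).2.1
    rw [hφ] at h1
    simp only at h1
    rw [← hweq w] at h1
    rw [X.s_sq w hw.1.1 hw.1.2, ← ha w hw, h1, mul_pow, hrt]
  have hsb2 : ∀ w ∈ S,
      X.s b w ^ 2 = (I * (tvar X.c z w) ^ (1 / 2 : ℂ) * H (-tvar X.c z w)) ^ 2 := by
    intro w hw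
    have h1 := (hbt _ (hSt' w hw)).2.1
    rw [hφ] at h1
    simp only at h1
    rw [neg_sq, ← hweq w] at h1
    rw [X.s_sq w hw.1.1 hw.1.2, ← hbb w hw, h1, mul_pow, mul_pow, hrt, I_sq]
    ring
  have hsa : EqOn (X.s a) (fun w => (tvar X.c z w) ^ (1 / 2 : ℂ) * H (tvar X.c z w)) S ∨
      EqOn (X.s a) (-fun w => (tvar X.c z w) ^ (1 / 2 : ℂ) * H (tvar X.c z w)) S := by
    refine hSp.eq_or_eq_neg_of_sq_eq ((X.s_cont a).mono hSD) (hrc.mul hHtc)
      (fun w hw => hsa2 w hw) fun {w} hw => ?_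
    exact mul_ne_zero (hrtne w hw) (hbt _ (hSt w hw)).2.2.2.2.1
  have hsb : EqOn (X.s b) (fun w => I * (tvar X.c z w) ^ (1 / 2 : ℂ) * H (-tvar X.c z w)) S ∨
      EqOn (X.s b) (-fun w => I * (tvar X.c z w) ^ (1 / 2 : ℂ) * H (-tvar X.c z w)) S := by
    refine hSp.eq_or_eq_neg_of_sq_eq ((X.s_cont b).mono hSD)
      ((continuousOn_const.mul hrc).mul hHtc') (fun w hw => hsb2 w hw) fun {w} hw => ?_
    exact mul_ne_zero (mul_ne_zero I_ne_zero (hrtne w hw)) (hbt _ (hSt' w hw)).2.2.2.2.1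
  obtain ⟨σ, hσ, hsa'⟩ : ∃ σ : ℂ, (σ = 1 ∨ σ = -1) ∧ ∀ w ∈ S,
      X.s a w = σ * ((tvar X.c z w) ^ (1 / 2 : ℂ) * H (tvar X.c z w)) := by
    rcases hsa with h | h
    · exact ⟨1, Or.inl rfl, fun w hw => by rw [h hw, one_mul]⟩
    · refine ⟨-1, Or.inr rfl, fun w hw => ?_⟩
      rw [h hw, Pi.neg_apply, neg_one_mul]
  obtain ⟨σ', hσ', hsb'⟩ : ∃ σ : ℂ, (σ = 1 ∨ σ = -1) ∧ ∀ w ∈ S,
      X.s b w = σ * (I * (tvar X.c z w) ^ (1 / 2 : ℂ) * H (-tvar X.c z w)) := by
    rcases hsb with h | h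
    · exact ⟨1, Or.inl rfl, fun w hw => by rw [h hw, one_mul]⟩
    · refine ⟨-1, Or.inr rfl, fun w hw => ?_⟩
      rw [h hw, Pi.neg_apply, neg_one_mul]
  have hσ2 : σ * σ = 1 := by rcases hσ with h | h <;> rw [h] <;> norm_num
  have hσ0 : σ ≠ 0 := by rcases hσ with h | h <;> rw [h] <;> norm_num
  -- the limits
  obtain ⟨y0, hy0, hprod⟩ := X.exists_limits hz
  have hmemS : S ∈ 𝓝[X.D] z := by
    refine Metric.mem_nhdsWithin_iff.2 ⟨r, hr0, fun w hw => ⟨hw.2, ?_⟩⟩
    have := hw.1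
    rwa [Metric.mem_ball, dist_eq_norm] at this
  have htlim : Tendsto (tvar X.c z) (𝓝[X.D] z) (𝓝 0) :=
    (tendsto_tvar_self X.c z).mono_left nhdsWithin_le_nhds
  have hy0a : y0 a = η := by
    have h1 : Tendsto (fun w => Y (tvar X.c z w)) (𝓝[X.D] z) (𝓝 (Y 0)) :=
      hYa.continuousAt.tendsto.comp htlim
    have h2 : Tendsto (X.y a) (𝓝[X.D] z) (𝓝 (Y 0)) := by
      refine h1.congr' ?_
      filter_upwards [hmemS] with w hw
      exact ha w hw
    rw [tendsto_nhds_unique (hy0 a) h2, hY0]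
  have hy0b : y0 b = η := by
    have h0 : Tendsto (fun w => -tvar X.c z w) (𝓝[X.D] z) (𝓝 0) := by
      simpa using htlim.neg
    have h1 : Tendsto (fun w => Y (-tvar X.c z w)) (𝓝[X.D] z) (𝓝 (Y 0)) :=
      hYa.continuousAt.tendsto.comp h0
    have h2 : Tendsto (X.y b) (𝓝[X.D] z) (𝓝 (Y 0)) := by
      refine h1.congr' ?_
      filter_upwards [hmemS] with w hw
      exact hbb w hw
    rw [tendsto_nhds_unique (hy0 b) h2, hY0]
  obtain ⟨hlim1, hlim2⟩ := X.limits_inj hprod hη0 hη1 hab hy0a hy0b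
  have hy0r : ∀ i, (fam X.f z).eval (y0 i) = 0 := by
    intro i
    rw [hprod, eval_prod]
    exact Finset.prod_eq_zero (Finset.mem_univ i) (by simp)
  have hy0d : ∀ i, i ≠ a → i ≠ b → (derivative (fam X.f z)).eval (y0 i) ≠ 0 := by
    intro i hia hib h
    exact hlim1 i hia hib (X.nf.one _ _ _ _ (Loc.dir_ne z) (hy0r i) h hη0 hη1)
  have hs0 : ∀ i, ∃ σ : ℂ, i ≠ a → i ≠ b →
      (derivative (fam X.f z)).eval (y0 i) = σ ^ 2 ∧ Tendsto (X.s i) (𝓝[X.D] z) (𝓝 σ) := by
    intro i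
    by_cases hi : i ≠ a ∧ i ≠ b
    · obtain ⟨ρ, hρ⟩ := IsAlgClosed.exists_pow_nat_eq ((derivative (fam X.f z)).eval (y0 i))
        (n := 2) (by norm_num)
      have hρ0 : ρ ≠ 0 := by
        rintro rfl
        apply hy0d i hi.1 hi.2
        rw [← hρ]
        norm_num
      have hlim : Tendsto (fun w => X.s i w ^ 2) (𝓝[X.D] z) (𝓝 (ρ ^ 2)) := by
        rw [hρ]
        have h1 : Tendsto (fun w => (w, X.y i w)) (𝓝[X.D] z) (𝓝 (z, y0 i)) := by
          rw [nhds_prod_eq]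
          exact (tendsto_id.mono_left nhdsWithin_le_nhds).prodMk (hy0 i)
        have h2 : ContinuousAt (fun p : ℂ × ℂ =>
            (fam (MvPolynomial.pderiv 2 X.f) p.1).eval p.2) (z, y0 i) :=
          (contDiff_fam (n := 0) _).continuous.continuousAt
        have h3 := h2.tendsto.comp h1
        rw [← Loc.derivative_fam] at h3
        refine h3.congr' ?_
        filter_upwards [self_mem_nhdsWithin] with w hw
        rw [X.s_sq w hw.1 hw.2 i, Loc.derivative_fam]
        rfl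
      obtain ⟨σ, hσ1, hσ2⟩ := Germ.tendsto_of_sq (X.s_cont i) hρ0 hε₀ hpre hlim
      exact ⟨σ, fun _ _ => ⟨by rw [hσ1, hρ], hσ2⟩⟩
    · refine ⟨0, fun h1 h2 => absurd ⟨h1, h2⟩ hi⟩
  choose s0 hs0' using hs0
  have hH2' : (σ * H 0) ^ 2 = deriv Y 0 * (derivative (derivative (fam X.f z))).eval (Y 0) := by
    rw [mul_pow, sq σ, hσ2, one_mul, hH2, hY0]
  refine ⟨a, b, σ' * σ, Y, fun t => σ * H t, y0, s0, δ, r, ⟨hab, ?_, hδ, hr0, hYa,
    analyticAt_const.mul hHa, mul_ne_zero hσ0 hH0, hY1, ?_, ?_, ?_, hH2', hYc,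
    continuousOn_const.mul hHc, ?_, hinj, fun t ht => (hbt t ht).1, ?_, ?_, ?_, ?_, ?_, hsmall,
    hstar, hy0, fun i hi hi' => (hs0' i hi hi').2, ?_, ?_, hprod, hy0r, ?_, ?_,
    fun i hi hi' => (hs0' i hi hi').1, ?_⟩⟩
  · rcases hσ with h | h <;> rcases hσ' with h' | h' <;> rw [h, h'] <;> norm_num
  · rw [hY0]
    exact hη0
  · rw [hY0]
    exact hη1
  · rw [hY0]
    exact hη2
  · exact fun t ht => mul_ne_zero hσ0 (hbt t ht).2.2.2.2.1
  · intro t ht
    have := (hbt t ht).2.1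
    rw [hφ] at this
    simp only at this
    rw [this, mul_pow, sq σ, hσ2, one_mul]
  · exact fun w hw hwr => (ha w ⟨hw, hwr⟩).symm
  · exact fun w hw hwr => (hbb w ⟨hw, hwr⟩).symm
  · intro w hw hwr
    rw [hsa' w ⟨hw, hwr⟩]
    ring
  · intro w hw hwr
    rw [hsb' w ⟨hw, hwr⟩]
    linear_combination (-(σ' * I * (tvar X.c z w) ^ (1 / 2 : ℂ) * H (-tvar X.c z w))) * hσ2
  · rw [hy0a, hY0]
  · rw [hy0b, hY0]
  · intro i hi hi'
    rw [hY0]
    exact hlim1 i hi hi'
  · intro i j hi hi' hj hj' hij h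
    exact hlim1 i hi hi' (hlim2 i j hij h)
  · intro i hi hi' h
    apply hy0d i hi hi'
    rw [(hs0' i hi hi').1, h]
    norm_num

end Ctx

end Pool.Agent.Rohlin
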