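import Mathlib

/-!
# Closed subsets of the line with finite frontier: left ends of components

Part of the counting package of the cell ROH (MP_dec4ff_ag).
-/

namespace Pool.Agent.Rohlin

open Set Topology

/-- Left ends of the components of `S`. -/
def leftEnds (S : Set ℝ) : Set ℝ := {z | z ∈ S ∧ ∃ ε > 0, ∀ y ∈ Ioo (z - ε) z, y ∉ S}

theorem leftEnds_subset (S : Set ℝ) : leftEnds S ⊆ S := fun _ h => h.1

theorem leftEnds_subset_frontier (S : Set ℝ) : leftEnds S ⊆ frontier S := by
  rintro z ⟨hz, ε, hε, hy⟩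
  refine ⟨subset_closure hz, fun hint => ?_⟩
  rw [mem_interior_iff_mem_nhds, Metric.mem_nhds_iff] at hint
  obtain ⟨r, hr, hball⟩ := hint
  have hm : 0 < min r ε := lt_min hr hε
  have h1 : z - min r ε / 2 ∈ Metric.ball z r := by
    rw [Metric.mem_ball, Real.dist_eq, abs_lt]
    have := min_le_left r ε
    constructor <;> linarith
  refine hy (z - min r ε / 2) ⟨?_, by linarith⟩ (hball h1)
  have := min_le_right r ε
  linarith

/-- A preconnected set avoiding the frontier is inside or outside. -/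
theorem subset_or_disjoint_of_frontier {X : Type*} [TopologicalSpace X] {S C : Set X}
    (hC : IsPreconnected C) (hf : Disjoint C (frontier S)) : C ⊆ interior S ∨ C ⊆ (closure S)ᶜ := by
  have hcov : C ⊆ interior S ∪ (closure S)ᶜ := by
    intro x hx
    by_contra hcon
    rw [mem_union, not_or, mem_compl_iff, not_not] at hcon
    exact disjoint_left.1 hf hx ⟨hcon.2, hcon.1⟩
  exact hC.subset_or_subset isOpen_interior isClosed_closure.isOpen_compl
    (disjoint_left.2 fun x h1 h2 => h2 (subset_closure (interior_subset h1))) hcov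

/-- Between an outer point and an inner point to its right there is a left end. -/
theorem exists_leftEnd {S : Set ℝ} (hS : IsClosed S) (hF : (frontier S).Finite) {x y : ℝ}
    (hx : x ∉ S) (hy : y ∈ S) (hxy : x < y) :
    ∃ z ∈ leftEnds S, x < z ∧ z ≤ y ∧ Icc z y ⊆ S := by
  -- `z` is the infimum of the points `t ≥ x` with `[t,y] ⊆ S`
  let T : Set ℝ := {t | x ≤ t ∧ t ≤ y ∧ Icc t y ⊆ S}
  have hyT : y ∈ T := ⟨hxy.le, le_rfl, by rw [Icc_self]; exact singleton_subset_iff.2 hy⟩
  have hTb : BddBelow T := ⟨x, fun t ht => ht.1⟩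
  have hzx : x ≤ sInf T := le_csInf ⟨y, hyT⟩ fun t ht => ht.1
  have hzy : sInf T ≤ y := csInf_le hTb hyT
  have hIoc : Ioc (sInf T) y ⊆ S := by
    intro u hu
    obtain ⟨t, ht, htu⟩ := exists_lt_of_csInf_lt ⟨y, hyT⟩ hu.1
    exact ht.2.2 ⟨htu.le, hu.2⟩
  have hIcc : Icc (sInf T) y ⊆ S := by
    rcases hzy.eq_or_lt with h | h
    · rw [h, Icc_self]; exact singleton_subset_iff.2 hy
    · rw [← closure_Ioc h.ne]
      exact closure_minimal hIoc hS
  have hzS : sInf T ∈ S := hIcc ⟨le_rfl, hzy⟩
  have hzx' : x < sInf T := lt_of_le_of_ne hzx fun h => hx (h ▸ hzS)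
  refine ⟨sInf T, ⟨hzS, ?_⟩, hzx', hzy, hIcc⟩
  -- a punctured left neighbourhood without frontier points
  obtain ⟨ε, hε, hεF⟩ : ∃ ε > 0, ∀ u ∈ Ioo (sInf T - ε) (sInf T), u ∉ frontier S := by
    have hfin : (frontier S \ {sInf T}).Finite := hF.subset sdiff_subset
    have hopen : IsOpen (frontier S \ {sInf T})ᶜ := hfin.isClosed.isOpen_compl
    have hmem : sInf T ∈ (frontier S \ {sInf T})ᶜ := fun h => h.2 rfl
    obtain ⟨r, hr, hball⟩ := Metric.isOpen_iff.1 hopen _ hmem
    refine ⟨r, hr, fun u hu huF => ?_⟩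
    have : u ∈ Metric.ball (sInf T) r := by
      rw [Metric.mem_ball, Real.dist_eq, abs_lt]
      constructor <;> linarith [hu.1, hu.2]
    exact hball this ⟨huF, hu.2.ne⟩
  have hδ : 0 < min ε (sInf T - x) := lt_min hε (by linarith)
  refine ⟨min ε (sInf T - x), hδ, ?_⟩
  have hsub : Ioo (sInf T - min ε (sInf T - x)) (sInf T) ⊆ Ioo (sInf T - ε) (sInf T) :=
    Ioo_subset_Ioo_left (by linarith [min_le_left ε (sInf T - x)])
  rcases subset_or_disjoint_of_frontier (S := S)
    (isPreconnected_Ioo (a := sInf T - min ε (sInf T - x)) (b := sInf T))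
    (disjoint_left.2 fun u hu => hεF u (hsub hu)) with h | h
  · -- then `T` would contain smaller points
    exfalso
    set u := sInf T - min ε (sInf T - x) / 2 with hu
    have hxu : x ≤ u := by
      have := min_le_right ε (sInf T - x)
      rw [hu]; linarith
    have huT : u ∈ T := by
      refine ⟨hxu, by linarith, fun v hv => ?_⟩
      by_cases hv2 : v < sInf T
      · exact interior_subset (h ⟨by linarith [hv.1], hv2⟩)
      · exact hIcc ⟨not_lt.1 hv2, hv.2⟩
    have := csInf_le hTb huT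
    linarith
  · intro u hu huS
    exact h hu (subset_closure huS)

/-- The rank of a point: the number of left ends to its left. -/
noncomputable def rk (S : Set ℝ) (y : ℝ) : ℕ := (leftEnds S ∩ Iic y).ncard

theorem leftEnds_finite {S : Set ℝ} (hF : (frontier S).Finite) : (leftEnds S).Finite :=
  hF.subset (leftEnds_subset_frontier S)

theorem rk_mono {S : Set ℝ} (hF : (frontier S).Finite) {x y : ℝ} (h : x ≤ y) :
    rk S x ≤ rk S y :=
  ncard_le_ncard (inter_subset_inter_right _ (Iic_subset_Iic.2 h))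
    ((leftEnds_finite hF).subset inter_subset_left)

theorem rk_le {S : Set ℝ} (hF : (frontier S).Finite) (x : ℝ) :
    rk S x ≤ (leftEnds S).ncard :=
  ncard_le_ncard inter_subset_left (leftEnds_finite hF)

/-- No left end in the interior of a segment of `S`. -/
theorem not_leftEnd_of_Icc {S : Set ℝ} {x y z : ℝ} (h : Icc x y ⊆ S) (hz : x < z) (hzy : z ≤ y) :
    z ∉ leftEnds S := by
  rintro ⟨_, ε, hε, hout⟩
  have hm : 0 < min ε (z - x) := lt_min hε (by linarith)
  have h1 := min_le_left ε (z - x)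
  have h2 := min_le_right ε (z - x)
  exact hout (z - min ε (z - x) / 2) ⟨by linarith, by linarith⟩ (h ⟨by linarith, by linarith⟩)

theorem rk_eq_of_Icc {S : Set ℝ} {x y : ℝ} (hxy : x ≤ y) (h : Icc x y ⊆ S) :
    rk S x = rk S y := by
  unfold rk
  congr 1
  ext z
  constructor
  · rintro ⟨hz, hzx⟩
    exact ⟨hz, le_trans hzx hxy⟩
  · rintro ⟨hz, hzy⟩
    refine ⟨hz, ?_⟩
    by_contra hcon
    exact not_leftEnd_of_Icc h (not_le.1 hcon) hzy hz

theorem Icc_of_rk_eq {S : Set ℝ} (hS : IsClosed S) (hF : (frontier S).Finite) {x y : ℝ}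
    (hy : y ∈ S) (hrk : rk S x = rk S y) (hx : x ∈ S) : Icc x y ⊆ S := by
  intro u hu
  by_contra huS
  have huy : u < y := lt_of_le_of_ne hu.2 fun h => huS (h ▸ hy)
  have hxu : x < u := lt_of_le_of_ne hu.1 fun h => huS (h ▸ hx)
  obtain ⟨z, hz, huz, hzy, _⟩ := exists_leftEnd hS hF huS hy huy
  have hlt : rk S x < rk S y := by
    refine ncard_lt_ncard ⟨inter_subset_inter_right _ (Iic_subset_Iic.2 (hu.1.trans hu.2)), ?_⟩
      ((leftEnds_finite hF).subset inter_subset_left)
    intro hsub
    have := hsub ⟨hz, hzy⟩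
    exact absurd this.2 (not_le.2 (hxu.trans huz))
  exact absurd hrk hlt.ne

/-- Every rank between `1` and the number of left ends is attained at a left end. -/
theorem exists_rk_eq {S : Set ℝ} (hF : (frontier S).Finite) {i : ℕ} (hi : i < (leftEnds S).ncard) :
    ∃ z ∈ leftEnds S, rk S z = i + 1 := by
  classical
  have hfin := leftEnds_finite hF
  -- the rank is injective on left ends, with values in `[1, N]`
  have hinj : InjOn (rk S) (leftEnds S) := by
    have key : ∀ a ∈ leftEnds S, ∀ b ∈ leftEnds S, a < b → rk S a < rk S b := by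
      intro a _ b hb hab
      refine ncard_lt_ncard ⟨inter_subset_inter_right _ (Iic_subset_Iic.2 hab.le), fun hsub => ?_⟩
        (hfin.subset inter_subset_left)
      exact absurd (hsub ⟨hb, le_refl b⟩).2 (not_le.2 hab)
    intro a ha b hb hab
    rcases lt_trichotomy a b with h | h | h
    · exact absurd hab (key a ha b hb h).ne
    · exact h
    · exact absurd hab.symm (key b hb a ha h).ne
  have hmaps : ∀ z ∈ leftEnds S, rk S z ∈ Icc 1 (leftEnds S).ncard := by
    intro z hz
    refine ⟨?_, rk_le hF z⟩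
    rw [Nat.one_le_iff_ne_zero]
    intro h0
    have := (ncard_eq_zero (hfin.subset inter_subset_left)).1 h0
    exact (this ▸ (⟨hz, le_refl z⟩ : z ∈ leftEnds S ∩ Iic z) : z ∈ (∅ : Set ℝ))
  have himg : rk S '' leftEnds S = Icc 1 (leftEnds S).ncard := by
    apply Set.eq_of_subset_of_ncard_le
    · rintro _ ⟨z, hz, rfl⟩
      exact hmaps z hz
    · rw [ncard_image_of_injOn hinj]
      rw [← Nat.card_coe_set_eq (Icc 1 (leftEnds S).ncard)]
      simp
    · exact finite_Icc _ _
  have : i + 1 ∈ rk S '' leftEnds S := by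
    rw [himg]
    exact ⟨by omega, by omega⟩
  exact this

/-- A point of a bounded `S` has rank at least one. -/
theorem one_le_rk {S : Set ℝ} (hS : IsClosed S) (hF : (frontier S).Finite) {B : ℝ}
    (hB : ∀ y ∈ S, -B ≤ y) {y : ℝ} (hy : y ∈ S) : 1 ≤ rk S y := by
  have hx : -B - 1 ∉ S := fun h => by linarith [hB _ h]
  obtain ⟨z, hz, _, hzy, _⟩ := exists_leftEnd hS hF hx hy (by linarith [hB y hy])
  rw [Nat.one_le_iff_ne_zero]
  intro h0
  have := (ncard_eq_zero ((leftEnds_finite hF).subset inter_subset_left)).1 h0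
  exact (this ▸ (⟨hz, hzy⟩ : z ∈ leftEnds S ∩ Iic y) : z ∈ (∅ : Set ℝ))

end Pool.Agent.Rohlin
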