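import Pool.Agent.Rohlin.Pair0
import Pool.Agent.Rohlin.Slice1D

/-!
# Existence of the pairing at a regular angle (module PAIR)
-/

set_option autoImplicit false

namespace Pool.Agent.Rohlin

open Polynomial Complex Set Matrix Filter Topology

/-- `[a, b]` is a nondegenerate component of `T` -/
structure Cmp (T : Set ℝ) (a b : ℝ) : Prop where
  lt : a < b
  sub : Icc a b ⊆ T
  left : ∀ᶠ y in 𝓝[<] a, y ∉ T
  right : ∀ᶠ y in 𝓝[>] b, y ∉ T

theorem exists_left_end {T : Set ℝ} (hT : IsClosed T) (hF : (frontier T).Finite) {R : ℝ}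
    (hR : ∀ x ∈ T, |x| ≤ R) {x : ℝ} (hx : x ∈ T) :
    ∃ a, a ≤ x ∧ Icc a x ⊆ T ∧ ∀ᶠ y in 𝓝[<] a, y ∉ T := by
  have h0 : -R - 1 ∉ T := fun h => by
    have := neg_abs_le (-R - 1)
    have h2 := hR _ h
    linarith
  have h1 : -R - 1 < x := by
    have := neg_abs_le x
    have h2 := hR _ hx
    linarith
  obtain ⟨z, ⟨_, ε, hε, hz⟩, _, h3, h4⟩ := exists_leftEnd hT hF h0 hx h1
  refine ⟨z, h3, h4, ?_⟩
  filter_upwards [Ioo_mem_nhdsLT (show z - ε < z by linarith)] with y hy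
  exact hz y hy

theorem exists_right_end {T : Set ℝ} (hT : IsClosed T) (hF : (frontier T).Finite) {R : ℝ}
    (hR : ∀ x ∈ T, |x| ≤ R) {x : ℝ} (hx : x ∈ T) :
    ∃ b, x ≤ b ∧ Icc x b ⊆ T ∧ ∀ᶠ y in 𝓝[>] b, y ∉ T := by
  let N : ℝ ≃ₜ ℝ := Homeomorph.neg ℝ
  have hT' : IsClosed (N ⁻¹' T) := hT.preimage N.continuous
  have hF' : (frontier (N ⁻¹' T)).Finite := by
    rw [← N.preimage_frontier]
    exact hF.preimage N.injective.injOn
  have hR' : ∀ y ∈ N ⁻¹' T, |y| ≤ R := by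
    intro y hy
    have := hR _ hy
    simpa [N] using this
  obtain ⟨a, h1, h2, h3⟩ := exists_left_end hT' hF' hR' (x := -x) (by simpa [N] using hx)
  refine ⟨-a, by linarith, ?_, ?_⟩
  · intro y hy
    have h4 : -y ∈ N ⁻¹' T := h2 ⟨by linarith [hy.2], by linarith [hy.1]⟩
    simpa [N] using h4
  · have h5 : Tendsto (fun y : ℝ => -y) (𝓝[>] (-a)) (𝓝[<] a) := by
      have h6 := tendsto_neg_nhdsGT (a := -a)
      simpa using h6
    filter_upwards [h5.eventually h3] with y hy hy2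
    exact hy (by simpa [N] using hy2)

namespace Cmp

variable {T : Set ℝ} {a b c d : ℝ}

theorem not_lt_right (h : Cmp T a b) (h2 : Icc a c ⊆ T) : ¬ b < c := by
  intro hbc
  obtain ⟨y, hy1, hy2⟩ := (h.right.and (Ioo_mem_nhdsGT hbc)).exists
  exact hy1 (h2 ⟨h.lt.le.trans hy2.1.le, hy2.2.le⟩)

theorem not_left_lt (h : Cmp T a b) (h2 : Icc c b ⊆ T) : ¬ c < a := by
  intro hca
  obtain ⟨y, hy1, hy2⟩ := (h.left.and (Ioo_mem_nhdsLT hca)).exists
  exact hy1 (h2 ⟨hy2.1.le, hy2.2.le.trans h.lt.le⟩)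

theorem right_unique (h : Cmp T a b) (h' : Cmp T a c) : b = c :=
  le_antisymm (not_lt.1 (h'.not_lt_right h.sub)) (not_lt.1 (h.not_lt_right h'.sub))

theorem left_unique (h : Cmp T a b) (h' : Cmp T c b) : a = c :=
  le_antisymm (not_lt.1 (h.not_left_lt h'.sub)) (not_lt.1 (h'.not_left_lt h.sub))

theorem not_adj (h : Cmp T a b) (h' : Cmp T b c) : False := by
  obtain ⟨y, hy1, hy2⟩ := (h'.left.and (Ioo_mem_nhdsLT h.lt)).exists
  exact hy1 (h.sub ⟨hy2.1.le, hy2.2.le⟩)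

theorem left_notMem (h : Cmp T a b) {U : Set ℝ} (hU : IsOpen U) (hUT : U ⊆ T) : a ∉ U := by
  intro ha
  obtain ⟨y, hy1, hy2⟩ := (h.left.and (mem_nhdsWithin_of_mem_nhds (hU.mem_nhds ha))).exists
  exact hy1 (hUT hy2)

theorem right_notMem (h : Cmp T a b) {U : Set ℝ} (hU : IsOpen U) (hUT : U ⊆ T) : b ∉ U := by
  intro ha
  obtain ⟨y, hy1, hy2⟩ := (h.right.and (mem_nhdsWithin_of_mem_nhds (hU.mem_nhds ha))).exists
  exact hy1 (hUT hy2)

theorem left_mem (h : Cmp T a b) : a ∈ T := h.sub ⟨le_rfl, h.lt.le⟩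

theorem right_mem (h : Cmp T a b) : b ∈ T := h.sub ⟨h.lt.le, le_rfl⟩

end Cmp

/-- a one-sided neighbourhood in `T` and the other side outside of `T` -/
theorem exists_cmp_right {T : Set ℝ} (hT : IsClosed T) (hF : (frontier T).Finite) {R : ℝ}
    (hR : ∀ x ∈ T, |x| ≤ R) {x : ℝ} (hx : x ∈ T) (h1 : ∀ᶠ y in 𝓝[>] x, y ∈ T)
    (h2 : ∀ᶠ y in 𝓝[<] x, y ∉ T) : ∃ b, Cmp T x b := by
  obtain ⟨b, h3, h4, h5⟩ := exists_right_end hT hF hR hx
  refine ⟨b, lt_of_le_of_ne h3 ?_, h4, h2, h5⟩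
  rintro rfl
  obtain ⟨y, hy1, hy2⟩ := (h1.and h5).exists
  exact hy2 hy1

theorem exists_cmp_left {T : Set ℝ} (hT : IsClosed T) (hF : (frontier T).Finite) {R : ℝ}
    (hR : ∀ x ∈ T, |x| ≤ R) {x : ℝ} (hx : x ∈ T) (h1 : ∀ᶠ y in 𝓝[<] x, y ∈ T)
    (h2 : ∀ᶠ y in 𝓝[>] x, y ∉ T) : ∃ a, Cmp T a x := by
  obtain ⟨b, h3, h4, h5⟩ := exists_left_end hT hF hR hx
  refine ⟨b, lt_of_le_of_ne h3 ?_, h4, h5, h2⟩
  rintro rfl
  obtain ⟨y, hy1, hy2⟩ := (h1.and h5).exists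
  exact hy2 hy1

namespace Slc

variable {T0 U0 T1 U1 : Set ℝ} {g : ℝ[X]} (S : Slc T0 U0 T1 U1 g)
include S

theorem ne_zero : g ≠ 0 := by
  rintro rfl
  exact S.simple 0 (by simp) (by simp)

theorem finite_zero : (frontier T0).Finite := by
  refine (g.roots.toFinset.finite_toSet).subset fun x hx => ?_
  have h1 : x ∈ T0 := S.closed0.frontier_subset hx
  have h2 : x ∉ U0 := fun h => hx.2 (interior_maximal S.sub0 S.open0 h)
  rw [Finset.mem_coe, Multiset.mem_toFinset, mem_roots S.ne_zero]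
  exact S.zero0 x h1 h2

theorem finite_one : (frontier T1).Finite := by
  refine (g.roots.toFinset.finite_toSet).subset fun x hx => ?_
  have h1 : x ∈ T1 := S.closed1.frontier_subset hx
  have h2 : x ∉ U1 := fun h => hx.2 (interior_maximal S.sub1 S.open1 h)
  rw [Finset.mem_coe, Multiset.mem_toFinset, mem_roots S.ne_zero]
  exact S.zero1 x h1 h2

theorem bdd_one : ∃ R : ℝ, ∀ x ∈ T1, |x| ≤ R := by
  obtain ⟨R, hR⟩ := S.bdd
  exact ⟨R, fun x hx => hR x (S.sub0 (S.sub hx))⟩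

theorem root_cases {x : ℝ} (hx : g.eval x = 0) : (x ∈ T0 ∧ x ∉ U0) ∨ (x ∈ T1 ∧ x ∉ U1) := by
  have h0 : x ∈ T0 := by
    by_contra h
    linarith [S.pos x h]
  by_cases h1 : x ∈ U0
  · right
    constructor
    · by_contra h
      linarith [S.neg x h1 h]
    · intro h
      linarith [S.posi x h]
  · exact Or.inl ⟨h0, h1⟩

theorem cmp_zero_roots {a b : ℝ} (h : Cmp T0 a b) : g.eval a = 0 ∧ g.eval b = 0 :=
  ⟨S.zero0 a h.left_mem (h.left_notMem S.open0 S.sub0),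
    S.zero0 b h.right_mem (h.right_notMem S.open0 S.sub0)⟩

theorem cmp_one_roots {a b : ℝ} (h : Cmp T1 a b) : g.eval a = 0 ∧ g.eval b = 0 :=
  ⟨S.zero1 a h.left_mem (h.left_notMem S.open1 S.sub1),
    S.zero1 b h.right_mem (h.right_notMem S.open1 S.sub1)⟩

theorem exists_cmp {x : ℝ} (hx : g.eval x = 0) :
    ((∃ y, Cmp T0 x y) ∨ ∃ y, Cmp T0 y x) ∨ (∃ y, Cmp T1 x y) ∨ ∃ y, Cmp T1 y x := by
  obtain ⟨R, hR⟩ := S.bdd
  obtain ⟨R', hR'⟩ := S.bdd_one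
  rcases S.root_cases hx with ⟨h0, h1⟩ | ⟨h0, h1⟩
  · left
    have hn : ∀ᶠ y in 𝓝 x, y ∉ T1 :=
      S.closed1.isOpen_compl.mem_nhds fun h => h1 (S.sub h)
    rcases S.near hx with ⟨h2, h3⟩ | ⟨h2, h3⟩
    · right
      refine exists_cmp_left S.closed0 S.finite_zero hR h0 ?_ ?_
      · filter_upwards [h3] with y hy using S.sub0 (S.mem_zero hy)
      · filter_upwards [h2, mem_nhdsWithin_of_mem_nhds hn] with y hy hy2 hy3
        exact hy2 (S.sub1 (S.mem_one hy hy3))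
    · left
      refine exists_cmp_right S.closed0 S.finite_zero hR h0 ?_ ?_
      · filter_upwards [h2] with y hy using S.sub0 (S.mem_zero hy)
      · filter_upwards [h3, mem_nhdsWithin_of_mem_nhds hn] with y hy hy2 hy3
        exact hy2 (S.sub1 (S.mem_one hy hy3))
  · right
    have hn : ∀ᶠ y in 𝓝 x, y ∈ U0 := S.open0.mem_nhds (S.sub h0)
    rcases S.near hx with ⟨h2, h3⟩ | ⟨h2, h3⟩
    · left
      refine exists_cmp_right S.closed1 S.finite_one hR' h0 ?_ ?_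
      · filter_upwards [h2, mem_nhdsWithin_of_mem_nhds hn] with y hy hy2
        exact S.sub1 (S.mem_one hy (S.sub0 hy2))
      · filter_upwards [h3] with y hy using S.notMem_one hy
    · right
      refine exists_cmp_left S.closed1 S.finite_one hR' h0 ?_ ?_
      · filter_upwards [h3, mem_nhdsWithin_of_mem_nhds hn] with y hy hy2
        exact S.sub1 (S.mem_one hy (S.sub0 hy2))
      · filter_upwards [h2] with y hy using S.notMem_one hy

theorem mem_cmp_zero {x : ℝ} (hx : x ∈ T0) : ∃ a b, Cmp T0 a b ∧ a ≤ x ∧ x ≤ b := by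
  obtain ⟨R, hR⟩ := S.bdd
  obtain ⟨a, h1, h2, h3⟩ := exists_left_end S.closed0 S.finite_zero hR hx
  obtain ⟨b, h4, h5, h6⟩ := exists_right_end S.closed0 S.finite_zero hR hx
  have hab : Icc a b ⊆ T0 := by
    intro y hy
    rcases le_total y x with h | h
    · exact h2 ⟨hy.1, h⟩
    · exact h5 ⟨h, hy.2⟩
  have hroot : g.eval a = 0 := by
    refine S.zero0 a (hab ⟨le_rfl, h1.trans h4⟩) fun ha => ?_
    obtain ⟨y, hy1, hy2⟩ := (h3.and (mem_nhdsWithin_of_mem_nhds (S.open0.mem_nhds ha))).exists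
    exact hy1 (S.sub0 hy2)
  refine ⟨a, b, ⟨lt_of_le_of_ne (h1.trans h4) ?_, hab, h3, h6⟩, h1, h4⟩
  rintro rfl
  obtain ⟨y, hy, hn⟩ := S.exists_neg_nhds hroot (V := {y | y = a ∨ y ∉ T0}) (by
    have h7 : ∀ᶠ y in 𝓝[≠] a, y ∉ T0 := by
      rw [← nhdsLT_sup_nhdsGT, eventually_sup]
      exact ⟨h3, h6⟩
    rw [eventually_nhdsWithin_iff] at h7
    filter_upwards [h7] with y hy
    by_cases hya : y = a
    · exact Or.inl hya
    · exact Or.inr (hy hya))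
  rcases hy with rfl | hy
  · linarith
  · exact hy (S.sub0 (S.mem_zero hn))

theorem mem_cmp_one {x : ℝ} (hx : x ∈ T1) : ∃ a b, Cmp T1 a b ∧ a ≤ x ∧ x ≤ b := by
  obtain ⟨R, hR⟩ := S.bdd_one
  obtain ⟨a, h1, h2, h3⟩ := exists_left_end S.closed1 S.finite_one hR hx
  obtain ⟨b, h4, h5, h6⟩ := exists_right_end S.closed1 S.finite_one hR hx
  have hab : Icc a b ⊆ T1 := by
    intro y hy
    rcases le_total y x with h | h
    · exact h2 ⟨hy.1, h⟩
    · exact h5 ⟨h, hy.2⟩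
  have ha1 : a ∈ T1 := hab ⟨le_rfl, h1.trans h4⟩
  have hroot : g.eval a = 0 := by
    refine S.zero1 a ha1 fun ha => ?_
    obtain ⟨y, hy1, hy2⟩ := (h3.and (mem_nhdsWithin_of_mem_nhds (S.open1.mem_nhds ha))).exists
    exact hy1 (S.sub1 hy2)
  refine ⟨a, b, ⟨lt_of_le_of_ne (h1.trans h4) ?_, hab, h3, h6⟩, h1, h4⟩
  rintro rfl
  obtain ⟨y, hy, hn⟩ := S.exists_pos_nhds hroot (V := {y | (y = a ∨ y ∉ T1) ∧ y ∈ T0}) (by
    have h7 : ∀ᶠ y in 𝓝[≠] a, y ∉ T1 := by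
      rw [← nhdsLT_sup_nhdsGT, eventually_sup]
      exact ⟨h3, h6⟩
    rw [eventually_nhdsWithin_iff] at h7
    filter_upwards [h7, S.open0.mem_nhds (S.sub ha1)] with y hy hy0
    refine ⟨?_, S.sub0 hy0⟩
    by_cases hya : y = a
    · exact Or.inl hya
    · exact Or.inr (hy hya))
  rcases hy with ⟨rfl | hy, hy0⟩
  · linarith
  · exact hy (S.sub1 (S.mem_one hn hy0))

end Slc

/-- a relation on eight labels which matches them in pairs -/
theorem exists_matching {R : Fin 8 → Fin 8 → Prop}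
    (h1 : ∀ i, (∃ j, R i j) ∨ ∃ j, R j i) (h2 : ∀ i j k, R i j → R i k → j = k)
    (h3 : ∀ i j k, R i k → R j k → i = j) (h4 : ∀ i j k, R i j → R j k → False) :
    ∃ A B : Fin 4 → Fin 8, (∀ p, R (A p) (B p)) ∧ Function.Injective (Sum.elim A B) ∧
      ∀ i j, R i j → ∃ p, A p = i ∧ B p = j := by
  classical
  let S : Finset (Fin 8) := Finset.univ.filter fun i => ∃ j, R i j
  have hS : ∀ i, i ∈ S ↔ ∃ j, R i j := fun i => by simp [S]
  have hSc : ∀ i, i ∈ Sᶜ ↔ ∃ j, R j i := fun i => by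
    rw [Finset.mem_compl, hS]
    constructor
    · intro h
      exact (h1 i).resolve_left h
    · rintro ⟨j, hj⟩ ⟨k, hk⟩
      exact h4 j i k hj hk
  choose f hf using fun i : S => (hS i.1).1 i.2
  have hcard : S.card = Sᶜ.card := by
    refine Finset.card_bij (fun i hi => f ⟨i, hi⟩) (fun i hi => (hSc _).2 ⟨i, hf ⟨i, hi⟩⟩)
      (fun i hi j hj hij => ?_) fun j hj => ?_
    · have h5 := hf ⟨i, hi⟩
      have h6 := hf ⟨j, hj⟩
      rw [← hij] at h6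
      exact h3 i j _ h5 h6
    · obtain ⟨i, hi⟩ := (hSc j).1 hj
      exact ⟨i, (hS i).2 ⟨j, hi⟩, h2 i _ _ (hf ⟨i, (hS i).2 ⟨j, hi⟩⟩) hi⟩
  have h8 : S.card + Sᶜ.card = 8 := by
    rw [Finset.card_add_card_compl]
    rfl
  have h44 : S.card = 4 := by omega
  let e : S ≃ Fin 4 := S.equivFinOfCardEq h44
  refine ⟨fun p => (e.symm p).1, fun p => f (e.symm p), fun p => hf _, ?_, fun i j hij => ?_⟩
  · intro x y hxy
    rcases x with p | p <;> rcases y with q | q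
    · simp only [Sum.elim_inl] at hxy
      exact congrArg _ (e.symm.injective (Subtype.ext hxy))
    · simp only [Sum.elim_inl, Sum.elim_inr] at hxy
      have h5 := hf (e.symm q)
      have h6 := hf (e.symm p)
      rw [hxy] at h6
      exact (h4 _ _ _ h5 h6).elim
    · simp only [Sum.elim_inl, Sum.elim_inr] at hxy
      have h5 := hf (e.symm p)
      have h6 := hf (e.symm q)
      rw [← hxy] at h6
      exact (h4 _ _ _ h5 h6).elim
    · simp only [Sum.elim_inr] at hxy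
      have h5 := hf (e.symm p)
      have h6 := hf (e.symm q)
      rw [← hxy] at h6
      exact congrArg _ (e.symm.injective (Subtype.ext (h3 _ _ _ h5 h6)))
  · refine ⟨e ⟨i, (hS i).2 ⟨j, hij⟩⟩, by simp, ?_⟩
    have h5 := hf (e.symm (e ⟨i, (hS i).2 ⟨j, hij⟩⟩))
    rw [e.symm_apply_apply] at h5
    simp only [e.symm_apply_apply]
    exact h2 i _ _ h5 hij

namespace Ctx

variable {n : Type} [Fintype n] [DecidableEq n] (X : Ctx n)

/-- the labels `i`, `j` form a pair of kind `k` -/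
def Mt (θ : ℝ) (k : Fin 3) (i j : Fin 8) : Prop :=
  (k = 2 ∧ 0 < (X.eta θ i).im ∧ X.eta θ j = (starRingEnd ℂ) (X.eta θ i)) ∨
  (k = 0 ∧ (X.eta θ i).im = 0 ∧ (X.eta θ j).im = 0 ∧
    Cmp {x | pt θ x ∈ X.K0} (X.eta θ i).re (X.eta θ j).re) ∨
  (k = 1 ∧ (X.eta θ i).im = 0 ∧ (X.eta θ j).im = 0 ∧
    Cmp {x | pt θ x ∈ X.K1} (X.eta θ i).re (X.eta θ j).re)

variable {X} {θ : ℝ}

theorem Mt.eq_right (h : X.Reg θ) {k k' : Fin 3} {i j j' : Fin 8} (h1 : X.Mt θ k i j)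
    (h2 : X.Mt θ k' i j') : k = k' ∧ j = j' := by
  have S := X.slc h
  have key : ∀ i j : Fin 8, (X.eta θ i).im = 0 → (X.eta θ j).im = 0 →
      (X.eta θ i).re = (X.eta θ j).re → i = j := by
    intro i j hi hj hij
    exact X.eta_injective h (Complex.ext hij (hi.trans hj.symm))
  rcases h1 with ⟨hk, h1, h1'⟩ | ⟨hk, h1, h1', h1''⟩ | ⟨hk, h1, h1', h1''⟩ <;>
    rcases h2 with ⟨hk', h2, h2'⟩ | ⟨hk', h2, h2', h2''⟩ | ⟨hk', h2, h2', h2''⟩
  · exact ⟨hk.trans hk'.symm, X.eta_injective h (h1'.trans h2'.symm)⟩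
  · rw [h2] at h1; exact absurd h1 (lt_irrefl _)
  · rw [h2] at h1; exact absurd h1 (lt_irrefl _)
  · rw [h1] at h2; exact absurd h2 (lt_irrefl _)
  · exact ⟨hk.trans hk'.symm, key _ _ h1' h2' (h1''.right_unique h2'')⟩
  · exact absurd (S.sub h2''.left_mem) (h1''.left_notMem S.open0 S.sub0)
  · rw [h1] at h2; exact absurd h2 (lt_irrefl _)
  · exact absurd (S.sub h1''.left_mem) (h2''.left_notMem S.open0 S.sub0)
  · exact ⟨hk.trans hk'.symm, key _ _ h1' h2' (h1''.right_unique h2'')⟩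

theorem Mt.eq_left (h : X.Reg θ) {k k' : Fin 3} {i i' j : Fin 8} (h1 : X.Mt θ k i j)
    (h2 : X.Mt θ k' i' j) : k = k' ∧ i = i' := by
  have S := X.slc h
  have key : ∀ i j : Fin 8, (X.eta θ i).im = 0 → (X.eta θ j).im = 0 →
      (X.eta θ i).re = (X.eta θ j).re → i = j := by
    intro i j hi hj hij
    exact X.eta_injective h (Complex.ext hij (hi.trans hj.symm))
  rcases h1 with ⟨hk, h1, h1'⟩ | ⟨hk, h1, h1', h1''⟩ | ⟨hk, h1, h1', h1''⟩ <;>
    rcases h2 with ⟨hk', h2, h2'⟩ | ⟨hk', h2, h2', h2''⟩ | ⟨hk', h2, h2', h2''⟩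
  · refine ⟨hk.trans hk'.symm, X.eta_injective h ?_⟩
    exact (starRingEnd ℂ).injective (h1'.symm.trans h2')
  · rw [h1', Complex.conj_im] at h2'; linarith
  · rw [h1', Complex.conj_im] at h2'; linarith
  · rw [h2', Complex.conj_im] at h1'; linarith
  · exact ⟨hk.trans hk'.symm, key _ _ h1 h2 (h1''.left_unique h2'')⟩
  · exact absurd (S.sub h2''.right_mem) (h1''.right_notMem S.open0 S.sub0)
  · rw [h2', Complex.conj_im] at h1'; linarith
  · exact absurd (S.sub h1''.right_mem) (h2''.right_notMem S.open0 S.sub0)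
  · exact ⟨hk.trans hk'.symm, key _ _ h1 h2 (h1''.left_unique h2'')⟩

theorem Mt.not_adj (h : X.Reg θ) {k k' : Fin 3} {i j l : Fin 8} (h1 : X.Mt θ k i j)
    (h2 : X.Mt θ k' j l) : False := by
  have S := X.slc h
  rcases h1 with ⟨hk, h1, h1'⟩ | ⟨hk, h1, h1', h1''⟩ | ⟨hk, h1, h1', h1''⟩ <;>
    rcases h2 with ⟨hk', h2, h2'⟩ | ⟨hk', h2, h2', h2''⟩ | ⟨hk', h2, h2', h2''⟩
  · rw [h1', Complex.conj_im] at h2; linarith
  · rw [h1', Complex.conj_im] at h2; linarith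
  · rw [h1', Complex.conj_im] at h2; linarith
  · linarith
  · exact h1''.not_adj h2''
  · exact absurd (S.sub h2''.left_mem) (h1''.right_notMem S.open0 S.sub0)
  · linarith
  · exact absurd (S.sub h1''.right_mem) (h2''.left_notMem S.open0 S.sub0)
  · exact h1''.not_adj h2''

theorem Mt.exists_of_cmp_zero (h : X.Reg θ) {a b : ℝ} (hab : Cmp {x | pt θ x ∈ X.K0} a b) :
    ∃ i j, X.Mt θ 0 i j ∧ X.eta θ i = (a : ℂ) ∧ X.eta θ j = (b : ℂ) := by
  have S := X.slc h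
  obtain ⟨h1, h2⟩ := S.cmp_zero_roots hab
  obtain ⟨i, hi⟩ := X.exists_eta_of_root h h1
  obtain ⟨j, hj⟩ := X.exists_eta_of_root h h2
  exact ⟨i, j, Or.inr (Or.inl ⟨rfl, by rw [hi]; simp, by rw [hj]; simp, by
    rw [hi, hj]; simpa using hab⟩), hi, hj⟩

theorem Mt.exists_of_cmp_one (h : X.Reg θ) {a b : ℝ} (hab : Cmp {x | pt θ x ∈ X.K1} a b) :
    ∃ i j, X.Mt θ 1 i j ∧ X.eta θ i = (a : ℂ) ∧ X.eta θ j = (b : ℂ) := by
  have S := X.slc h
  obtain ⟨h1, h2⟩ := S.cmp_one_roots hab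
  obtain ⟨i, hi⟩ := X.exists_eta_of_root h h1
  obtain ⟨j, hj⟩ := X.exists_eta_of_root h h2
  exact ⟨i, j, Or.inr (Or.inr ⟨rfl, by rw [hi]; simp, by rw [hj]; simp, by
    rw [hi, hj]; simpa using hab⟩), hi, hj⟩

theorem Mt.total (h : X.Reg θ) (i : Fin 8) :
    (∃ j, ∃ k, X.Mt θ k i j) ∨ ∃ j, ∃ k, X.Mt θ k j i := by
  have S := X.slc h
  obtain ⟨j, hj⟩ := X.eta_conj h i
  rcases lt_trichotomy (X.eta θ i).im 0 with hi | hi | hi
  · right
    refine ⟨j, 2, Or.inl ⟨rfl, ?_, ?_⟩⟩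
    · rw [hj, Complex.conj_im]; linarith
    · rw [hj, Complex.conj_conj]
  · have hroot := X.gr_eval_re h hi
    have hre : X.eta θ i = (((X.eta θ i).re : ℝ) : ℂ) := Complex.ext rfl (by simpa using hi)
    rcases S.exists_cmp hroot with (⟨y, hy⟩ | ⟨y, hy⟩) | ⟨y, hy⟩ | ⟨y, hy⟩
    · obtain ⟨a, b, h1, h2, h3⟩ := Mt.exists_of_cmp_zero h hy
      have : a = i := X.eta_injective h (h2.trans hre.symm)
      subst this
      exact Or.inl ⟨b, 0, h1⟩
    · obtain ⟨a, b, h1, h2, h3⟩ := Mt.exists_of_cmp_zero h hy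
      have : b = i := X.eta_injective h (h3.trans hre.symm)
      subst this
      exact Or.inr ⟨a, 0, h1⟩
    · obtain ⟨a, b, h1, h2, h3⟩ := Mt.exists_of_cmp_one h hy
      have : a = i := X.eta_injective h (h2.trans hre.symm)
      subst this
      exact Or.inl ⟨b, 1, h1⟩
    · obtain ⟨a, b, h1, h2, h3⟩ := Mt.exists_of_cmp_one h hy
      have : b = i := X.eta_injective h (h3.trans hre.symm)
      subst this
      exact Or.inr ⟨a, 1, h1⟩
  · exact Or.inl ⟨j, 2, Or.inl ⟨rfl, hi, hj⟩⟩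

variable (X) in
/-- at every regular angle there is a pairing -/
theorem exists_pre (h : X.Reg θ) : ∃ A B kind, X.Pre θ A B kind := by
  have S := X.slc h
  obtain ⟨A, B, h1, h2, h3⟩ := exists_matching (R := fun i j => ∃ k, X.Mt θ k i j)
    (Mt.total h) (fun i j l ⟨k, hk⟩ ⟨k', hk'⟩ => (hk.eq_right h hk').2)
    (fun i j l ⟨k, hk⟩ ⟨k', hk'⟩ => (hk.eq_left h hk').2)
    fun i j l ⟨k, hk⟩ ⟨k', hk'⟩ => hk.not_adj h hk'
  choose kind hkind using h1
  refine ⟨A, B, kind, ⟨h2, fun p hp => ?_, fun p hp => ?_, fun x => ⟨fun hx => ?_, ?_⟩,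
    fun x => ⟨fun hx => ?_, ?_⟩⟩⟩
  · rcases hkind p with ⟨_, h4, h5⟩ | ⟨hk, _⟩ | ⟨hk, _⟩
    · exact ⟨h4, h5⟩
    · rw [hp] at hk; exact absurd hk (by decide)
    · rw [hp] at hk; exact absurd hk (by decide)
  · rcases hkind p with ⟨hk, _⟩ | ⟨hk, h4, h5, h6⟩ | ⟨hk, h4, h5, h6⟩
    · exact absurd hk hp
    · exact ⟨h4, h5, h6.lt⟩
    · exact ⟨h4, h5, h6.lt⟩
  · obtain ⟨a, b, h4, h5, h6⟩ := S.mem_cmp_zero hx
    obtain ⟨i, j, h7, h8, h9⟩ := Mt.exists_of_cmp_zero h h4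
    obtain ⟨p, rfl, rfl⟩ := h3 i j ⟨0, h7⟩
    refine ⟨p, ((hkind p).eq_right h h7).1, ?_, ?_⟩
    · rw [h8]; simpa using h5
    · rw [h9]; simpa using h6
  · rintro ⟨p, hp, h4, h5⟩
    rcases hkind p with ⟨hk, _⟩ | ⟨hk, _, _, h6⟩ | ⟨hk, _⟩
    · rw [hp] at hk; exact absurd hk (by decide)
    · exact h6.sub ⟨h4, h5⟩
    · rw [hp] at hk; exact absurd hk (by decide)
  · obtain ⟨a, b, h4, h5, h6⟩ := S.mem_cmp_one hx
    obtain ⟨i, j, h7, h8, h9⟩ := Mt.exists_of_cmp_one h h4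
    obtain ⟨p, rfl, rfl⟩ := h3 i j ⟨1, h7⟩
    refine ⟨p, ((hkind p).eq_right h h7).1, ?_, ?_⟩
    · rw [h8]; simpa using h5
    · rw [h9]; simpa using h6
  · rintro ⟨p, hp, h4, h5⟩
    rcases hkind p with ⟨hk, _⟩ | ⟨hk, _⟩ | ⟨hk, _, _, h6⟩
    · rw [hp] at hk; exact absurd hk (by decide)
    · rw [hp] at hk; exact absurd hk (by decide)
    · exact h6.sub ⟨h4, h5⟩

variable (X) in
theorem pairOK : X.PairOK := fun _ h => by
  obtain ⟨A, B, kind, P⟩ := X.exists_pre h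
  exact ⟨A, B, kind, _, P.pairing h⟩

end Ctx

end Pool.Agent.Rohlin
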