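import Mathlib

/-!
# Slices of a closed set along an arc without collisions

A closed set `K` whose frontier lies over finitely many continuous pairwise different real functions
`r i` of the parameter: the position of the slices of `K` with respect to the values `r i θ` does not
depend on the parameter.
-/

set_option autoImplicit false

namespace Pool.Agent.Rohlin

open Set Filter Topology

/-- a nonvanishing continuous real function keeps its sign on a preconnected set -/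
theorem sign_const {α : Type*} [TopologicalSpace α] {S : Set α} (hS : IsPreconnected S) {w : α → ℝ}
    (hw : ContinuousOn w S) (h0 : ∀ x ∈ S, w x ≠ 0) {x y : α} (hx : x ∈ S) (hy : y ∈ S)
    (h : 0 < w x) : 0 < w y := by
  by_contra hcon
  obtain ⟨z, hz, hz0⟩ := hS.intermediate_value hy hx hw ⟨not_lt.1 hcon, h.le⟩
  exact h0 z hz hz0

/-- the order of two continuous functions without coincidences is constant -/
theorem lt_const {α : Type*} [TopologicalSpace α] {S : Set α} (hS : IsPreconnected S) {u v : α → ℝ}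
    (hu : ContinuousOn u S) (hv : ContinuousOn v S) (h0 : ∀ x ∈ S, u x ≠ v x) {x y : α} (hx : x ∈ S)
    (hy : y ∈ S) (h : u x < v x) : u y < v y := by
  have := sign_const hS (hv.sub hu) (fun z hz => sub_ne_zero.2 (h0 z hz).symm) hx hy (sub_pos.2 h)
  exact sub_pos.1 this

/-- membership in a closed set is constant along a connected set which avoids its frontier -/
theorem mem_const {α β : Type*} [TopologicalSpace α] [TopologicalSpace β] {S : Set α}
    (hS : IsPreconnected S) {g : α → β} (hg : ContinuousOn g S) {K : Set β} (hK : IsClosed K)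
    (h : ∀ x ∈ S, g x ∉ frontier K) {x y : α} (hx : x ∈ S) (hy : y ∈ S) (hxK : g x ∈ K) :
    g y ∈ K := by
  have h1 := hS.image g hg
  by_contra hcon
  have h2 : g '' S ⊆ interior K ∪ Kᶜ := by
    rintro _ ⟨z, hz, rfl⟩
    by_cases hzK : g z ∈ K
    · left
      by_contra hzi
      exact h z hz (by rw [hK.frontier_eq]; exact ⟨hzK, hzi⟩)
    · exact Or.inr hzK
  obtain ⟨z, -, hz⟩ := h1 (interior K) Kᶜ isOpen_interior hK.isOpen_compl h2
    ⟨g x, ⟨x, hx, rfl⟩, by
      by_contra hzi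
      exact h x hx (by rw [hK.frontier_eq]; exact ⟨hxK, hzi⟩)⟩
    ⟨g y, ⟨y, hy, rfl⟩, hcon⟩
  exact hz.2 (interior_subset hz.1)

section slice

variable {X : Type*} [TopologicalSpace X] {q : ℝ × ℝ → X} (hq : Continuous q) (ho : IsOpenMap q)
  {K : Set X} (hK : IsClosed K) (hcl : K ⊆ closure (interior K)) {ι : Type*} [Finite ι]
  {r : ι → ℝ → ℝ} {I : Set ℝ} (hI : IsPreconnected I) (hIo : IsOpen I)
  (hr : ∀ i, ContinuousOn (r i) I) (hinj : ∀ θ ∈ I, ∀ i j, r i θ = r j θ → i = j)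
  (hfr : ∀ θ ∈ I, ∀ η, q (θ, η) ∈ frontier K → ∃ i, r i θ = η)

include hI hr hinj in
/-- between two adjacent groups of values there is room at every parameter -/
theorem exists_gap (U : Set ι) {θ₁ θ : ℝ} (h₁ : θ₁ ∈ I) (hθ : θ ∈ I)
    (h : ∀ i ∈ U, ∀ j ∉ U, r i θ₁ < r j θ₁) :
    ∃ η : ℝ, ∀ i, (i ∈ U → r i θ < η) ∧ (i ∉ U → η < r i θ) := by
  classical
  have := Fintype.ofFinite ι
  obtain ⟨m, hm1, hm2⟩ := Order.exists_between_finsets
    ((Finset.univ.filter fun i => i ∈ U).image fun i => r i θ)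
    ((Finset.univ.filter fun i => i ∉ U).image fun i => r i θ) (by
      intro x hx y hy
      simp only [Finset.mem_image, Finset.mem_filter, Finset.mem_univ, true_and] at hx hy
      obtain ⟨i, hi, rfl⟩ := hx
      obtain ⟨j, hj, rfl⟩ := hy
      exact lt_const hI (hr i) (hr j) (fun t ht h' => hj (hinj t ht i j h' ▸ hi)) h₁ hθ (h i hi j hj))
  refine ⟨m, fun i => ⟨fun hi => hm1 _ ?_, fun hi => hm2 _ ?_⟩⟩
  · exact Finset.mem_image_of_mem _ (by simpa using hi)
  · exact Finset.mem_image_of_mem _ (by simpa using hi)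

include hq hK hI hr hinj hfr in
/-- transport of the membership of points which are no roots -/
theorem mem_transport (U : Set ι) {θ₁ θ₂ η₁ η₂ : ℝ} (h₁ : θ₁ ∈ I) (h₂ : θ₂ ∈ I)
    (hη₁ : ∀ i, (i ∈ U → r i θ₁ < η₁) ∧ (i ∉ U → η₁ < r i θ₁))
    (hη₂ : ∀ i, (i ∈ U → r i θ₂ < η₂) ∧ (i ∉ U → η₂ < r i θ₂)) (h : q (θ₁, η₁) ∈ K) :
    q (θ₂, η₂) ∈ K := by
  classical
  set Ω : ℝ → Set ℝ := fun θ => {η | ∀ i, (i ∈ U → r i θ < η) ∧ (i ∉ U → η < r i θ)} with hΩ
  have hord : ∀ i ∈ U, ∀ j ∉ U, r i θ₁ < r j θ₁ := fun i hi j hj =>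
    ((hη₁ i).1 hi).trans ((hη₁ j).2 hj)
  have hne : ∀ θ ∈ I, (Ω θ).Nonempty := fun θ hθ => exists_gap hI hr hinj U h₁ hθ hord
  have hconv : ∀ θ, IsPreconnected (Ω θ) := by
    intro θ
    refine Set.OrdConnected.isPreconnected ⟨fun x hx y hy z hz i => ⟨fun hi => ?_, fun hi => ?_⟩⟩
    · exact ((hx i).1 hi).trans_le hz.1
    · exact hz.2.trans_lt ((hy i).2 hi)
  have hnr : ∀ θ ∈ I, ∀ η ∈ Ω θ, q (θ, η) ∉ frontier K := by
    intro θ hθ η hη hf
    obtain ⟨i, hi⟩ := hfr θ hθ η hf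
    by_cases hiU : i ∈ U
    · exact absurd ((hη i).1 hiU) (by rw [hi]; exact lt_irrefl _)
    · exact absurd ((hη i).2 hiU) (by rw [hi]; exact lt_irrefl _)
  -- membership is constant on the slice
  have hsl : ∀ θ ∈ I, ∀ η ∈ Ω θ, ∀ η' ∈ Ω θ, q (θ, η) ∈ K → q (θ, η') ∈ K := by
    intro θ hθ η hη η' hη' hmem
    exact mem_const (hconv θ) (g := fun η => q (θ, η)) (by fun_prop) hK (fun x hx => hnr θ hθ x hx)
      hη hη' hmem
  have key : ∀ {θ θ' : ℝ}, θ ∈ I → θ' ∈ I →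
      ((∃ η ∈ Ω θ, q (θ, η) ∈ K) ↔ (∃ η ∈ Ω θ', q (θ', η) ∈ K)) := by
    intro θ θ' hθ hθ'
    refine hI.induction₂ (fun θ θ' => (∃ η ∈ Ω θ, q (θ, η) ∈ K) ↔ (∃ η ∈ Ω θ', q (θ', η) ∈ K))
      (fun t ht => ?_) (fun _ _ _ _ _ _ h h' => h.trans h') (fun _ _ _ _ h => h.symm) hθ hθ'
    obtain ⟨η, hη⟩ := hne t ht
    have h1 : ∀ᶠ t' in 𝓝[I] t, η ∈ Ω t' := by
      have h2 : ∀ i, ∀ᶠ t' in 𝓝[I] t, (i ∈ U → r i t' < η) ∧ (i ∉ U → η < r i t') := by
        intro i
        by_cases hiU : i ∈ U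
        · filter_upwards [(hr i t ht).eventually_lt_const ((hη i).1 hiU)] with t' ht'
          exact ⟨fun _ => ht', fun h => absurd hiU h⟩
        · filter_upwards [(hr i t ht).eventually_const_lt ((hη i).2 hiU)] with t' ht'
          exact ⟨fun h => absurd h hiU, fun _ => ht'⟩
      exact eventually_all.2 h2
    have hqc : Continuous fun t' => q (t', η) := by fun_prop
    have h3 : ∀ᶠ t' in 𝓝[I] t, (q (t, η) ∈ K ↔ q (t', η) ∈ K) := by
      by_cases hmem : q (t, η) ∈ K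
      · have h4 : q (t, η) ∈ interior K := by
          by_contra hcon
          exact hnr t ht η hη (by rw [hK.frontier_eq]; exact ⟨hmem, hcon⟩)
        have h5 : ∀ᶠ t' in 𝓝 t, q (t', η) ∈ interior K :=
          hqc.continuousAt.eventually_mem (isOpen_interior.mem_nhds h4)
        filter_upwards [h5.filter_mono nhdsWithin_le_nhds] with t' ht'
        exact ⟨fun _ => interior_subset ht', fun _ => hmem⟩
      · have h5 : ∀ᶠ t' in 𝓝 t, q (t', η) ∈ Kᶜ :=
          hqc.continuousAt.eventually_mem (hK.isOpen_compl.mem_nhds hmem)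
        filter_upwards [h5.filter_mono nhdsWithin_le_nhds] with t' ht'
        exact ⟨fun h => absurd h hmem, fun h => absurd h ht'⟩
    filter_upwards [h1, h3, self_mem_nhdsWithin] with t' h1' h3' ht'
    constructor
    · rintro ⟨η', hη', hm⟩
      exact ⟨η, h1', h3'.1 (hsl t ht η' hη' η hη hm)⟩
    · rintro ⟨η', hη', hm⟩
      exact ⟨η, hη, h3'.2 (hsl t' ht' η' hη' η h1' hm)⟩
  obtain ⟨η, hη, hm⟩ := (key h₁ h₂).1 ⟨η₁, hη₁, h⟩
  exact hsl θ₂ h₂ η hη η₂ hη₂ hm

variable {P : Type*} [Finite P] (a b : P → ι)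

omit [Finite P] in
include hq hK hI hr hinj hfr in
/-- transport of the pairs, points which are no roots -/
theorem pairs_transport_aux {θ₁ θ₂ : ℝ} (h₁ : θ₁ ∈ I) (h₂ : θ₂ ∈ I)
    (hp : ∀ η, q (θ₁, η) ∈ K ↔ ∃ p, r (a p) θ₁ ≤ η ∧ η ≤ r (b p) θ₁) (η : ℝ)
    (hη : ∀ i, r i θ₂ ≠ η) :
    q (θ₂, η) ∈ K ↔ ∃ p, r (a p) θ₂ ≤ η ∧ η ≤ r (b p) θ₂ := by
  set U : Set ι := {i | r i θ₂ < η} with hU
  have hη2 : ∀ i, (i ∈ U → r i θ₂ < η) ∧ (i ∉ U → η < r i θ₂) := fun i =>
    ⟨fun h => h, fun h => lt_of_le_of_ne (not_lt.1 h) (hη i).symm⟩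
  obtain ⟨η₁, hη1⟩ := exists_gap hI hr hinj U h₂ h₁ fun i hi j hj =>
    ((hη2 i).1 hi).trans ((hη2 j).2 hj)
  have e1 : q (θ₂, η) ∈ K ↔ q (θ₁, η₁) ∈ K :=
    ⟨fun h => mem_transport hq hK hI hr hinj hfr U h₂ h₁ hη2 hη1 h,
      fun h => mem_transport hq hK hI hr hinj hfr U h₁ h₂ hη1 hη2 h⟩
  rw [e1, hp]
  refine exists_congr fun p => and_congr ?_ ?_
  · constructor
    · intro h
      have : a p ∈ U := by
        by_contra hcon
        exact absurd ((hη1 _).2 hcon) (not_lt.2 h)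
      exact this.le
    · intro h
      have : a p ∈ U := lt_of_le_of_ne h (hη _)
      exact ((hη1 _).1 this).le
  · constructor
    · intro h
      have : b p ∉ U := by
        intro hcon
        exact absurd ((hη1 _).1 hcon) (not_lt.2 h)
      exact not_lt.1 this
    · intro h
      have : b p ∉ U := not_lt.2 h
      exact ((hη1 _).2 this).le

include hq ho hK hcl hI hIo hr hinj hfr in
/-- **Transport of the pairs** -/
theorem pairs_transport {θ₁ θ₂ : ℝ} (h₁ : θ₁ ∈ I) (h₂ : θ₂ ∈ I)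
    (hab : ∀ p, r (a p) θ₁ < r (b p) θ₁)
    (hp : ∀ η, q (θ₁, η) ∈ K ↔ ∃ p, r (a p) θ₁ ≤ η ∧ η ≤ r (b p) θ₁) (η : ℝ) :
    q (θ₂, η) ∈ K ↔ ∃ p, r (a p) θ₂ ≤ η ∧ η ≤ r (b p) θ₂ := by
  have hfin : ∀ t : ℝ, Dense {x : ℝ | ∀ i, r i t ≠ x} := by
    intro t
    have : {x : ℝ | ∀ i, r i t ≠ x} = (range fun i => r i t)ᶜ := by
      ext x
      simp
    rw [this]
    exact (Set.finite_range _).countable.dense_compl ℝ
  constructor
  · intro hmem
    by_contra hcon
    push Not at hcon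
    have hfr2 : ∀ p, η < r (a p) θ₂ ∨ r (b p) θ₂ < η := by
      intro p
      by_cases h : r (a p) θ₂ ≤ η
      · exact Or.inr (hcon p h)
      · exact Or.inl (not_le.1 h)
    have hcont : ∀ i, ContinuousAt (r i) θ₂ := fun i => (hr i).continuousAt (hIo.mem_nhds h₂)
    have hev : ∀ᶠ x : ℝ × ℝ in 𝓝 (θ₂, η), x.1 ∈ I ∧
        ∀ p, x.2 < r (a p) x.1 ∨ r (b p) x.1 < x.2 := by
      refine (continuous_fst.continuousAt.eventually_mem (hIo.mem_nhds h₂)).and
        (eventually_all.2 fun p => ?_)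
      rcases hfr2 p with h | h
      · have h3 : ContinuousAt (fun x : ℝ × ℝ => r (a p) x.1) (θ₂, η) :=
          ContinuousAt.comp (f := Prod.fst) (hcont (a p)) continuousAt_fst
        filter_upwards [continuousAt_snd.eventually_lt h3 h] with x hx
        exact Or.inl hx
      · have h3 : ContinuousAt (fun x : ℝ × ℝ => r (b p) x.1) (θ₂, η) :=
          ContinuousAt.comp (f := Prod.fst) (hcont (b p)) continuousAt_fst
        filter_upwards [h3.eventually_lt continuousAt_snd h] with x hx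
        exact Or.inr hx
    obtain ⟨W, hW, hWo, hWm⟩ := eventually_nhds_iff.1 hev
    have h4 : q (θ₂, η) ∈ closure (interior K) := hcl hmem
    have h5 : q '' W ∈ 𝓝 (q (θ₂, η)) := (ho W hWo).mem_nhds ⟨_, hWm, rfl⟩
    obtain ⟨z, hzW, hzK⟩ := mem_closure_iff_nhds.1 h4 _ h5
    obtain ⟨⟨t, x⟩, htx, rfl⟩ := hzW
    -- move to a point which is no root
    have h6 : IsOpen {x' : ℝ | (t, x') ∈ W ∧ q (t, x') ∈ interior K} := by
      have hc : Continuous fun x' : ℝ => ((t, x') : ℝ × ℝ) := by fun_prop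
      exact (hWo.preimage hc).inter (isOpen_interior.preimage (hq.comp hc))
    obtain ⟨x', hx', hx''⟩ := (hfin t).inter_open_nonempty _ h6 ⟨x, htx, hzK⟩
    obtain ⟨htI, htp⟩ := hW _ hx'.1
    obtain ⟨p, hp1, hp2⟩ := (pairs_transport_aux hq hK hI hr hinj hfr a b h₁ htI hp x' hx'').1
      (interior_subset hx'.2)
    rcases htp p with h | h
    · exact absurd hp1 (not_le.2 h)
    · exact absurd hp2 (not_le.2 h)
  · rintro ⟨p, hp1, hp2⟩
    have hlt : r (a p) θ₂ < r (b p) θ₂ := by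
      have hne : a p ≠ b p := fun h => absurd (hab p) (by rw [h]; exact lt_irrefl _)
      exact lt_const hI (hr _) (hr _) (fun t ht h => hne (hinj t ht _ _ h)) h₁ h₂ (hab p)
    have hclosed : IsClosed {x : ℝ | q (θ₂, x) ∈ K} := hK.preimage (by fun_prop)
    have h7 : Ioo (r (a p) θ₂) (r (b p) θ₂) ∩ {x : ℝ | ∀ i, r i θ₂ ≠ x} ⊆
        {x : ℝ | q (θ₂, x) ∈ K} := by
      rintro x ⟨hx1, hx2⟩
      exact (pairs_transport_aux hq hK hI hr hinj hfr a b h₁ h₂ hp x hx2).2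
        ⟨p, hx1.1.le, hx1.2.le⟩
    have h8 : Icc (r (a p) θ₂) (r (b p) θ₂) ⊆ {x : ℝ | q (θ₂, x) ∈ K} := by
      rw [← closure_Ioo hlt.ne]
      refine closure_minimal ?_ hclosed
      exact (((hfin θ₂).open_subset_closure_inter isOpen_Ioo).trans
        (closure_mono h7)).trans hclosed.closure_subset
    exact h8 ⟨hp1, hp2⟩

end slice

end Pool.Agent.Rohlin
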