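import Pool.Agent.Rohlin.Lab
import Pool.Agent.Rohlin.DiscTop
import Pool.Agent.Rohlin.SliceArc

/-!
# A pairing stays a pairing along a regular arc
-/

set_option autoImplicit false

namespace Pool.Agent.Rohlin

open Polynomial Complex Set Matrix Filter Topology

/-- a continuous function with values in the fourth roots of unity is constant -/
theorem const_of_pow_four {S : Set ℝ} (hS : IsPreconnected S) {z : ℝ → ℂ} (hz : ContinuousOn z S)
    (h4 : ∀ θ ∈ S, z θ ^ 4 = 1) {θ₁ θ₂ : ℝ} (h₁ : θ₁ ∈ S) (h₂ : θ₂ ∈ S) : z θ₁ = z θ₂ := by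
  have hfin : {x : ℂ | x ^ 4 = 1}.Finite := by
    have : {x : ℂ | x ^ 4 = 1} ⊆ ((Polynomial.nthRoots 4 (1 : ℂ)).toFinset : Set ℂ) := by
      intro x hx
      rw [Finset.mem_coe, Multiset.mem_toFinset, Polynomial.mem_nthRoots (by norm_num)]
      exact hx
    exact (Finset.finite_toSet _).subset this
  exact hS.constant_of_mapsTo hfin.isDiscrete hz (fun θ hθ => h4 θ hθ) h₁ h₂

/-- if exactly one of two continuous functions vanishes at every point, it is always the same -/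
theorem zero_const {S : Set ℝ} (hS : IsPreconnected S) {u v : ℝ → ℂ} (hu : ContinuousOn u S)
    (hv : ContinuousOn v S) (h : ∀ θ ∈ S, (u θ = 0 ∧ v θ ≠ 0) ∨ (u θ ≠ 0 ∧ v θ = 0)) {θ₁ θ₂ : ℝ}
    (h₁ : θ₁ ∈ S) (h₂ : θ₂ ∈ S) (h0 : u θ₁ = 0) : u θ₂ = 0 := by
  have h3 := sign_const hS (w := fun θ => ‖v θ‖ - ‖u θ‖) (hv.norm.sub hu.norm) (by
    intro θ hθ
    rcases h θ hθ with ⟨h4, h5⟩ | ⟨h4, h5⟩
    · simp only [h4, norm_zero, sub_zero]
      exact norm_ne_zero_iff.2 h5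
    · simp only [h5, norm_zero, zero_sub]
      exact neg_ne_zero.2 (norm_ne_zero_iff.2 h4)) h₁ h₂ (by
    rcases h θ₁ h₁ with ⟨h4, h5⟩ | ⟨h4, h5⟩
    · simp only [h4, norm_zero, sub_zero]
      exact norm_pos_iff.2 h5
    · exact absurd h0 h4)
  rcases h θ₂ h₂ with ⟨h4, h5⟩ | ⟨h4, h5⟩
  · exact h4
  · simp only [h5, norm_zero, zero_sub] at h3
    linarith [norm_nonneg (u θ₂)]

/-- continuous labels of the roots over a set of angles -/
structure LabArc (f : MvPolynomial (Fin 3) ℝ) (I : Set ℝ) (e s : ℝ → Fin 8 → ℂ) : Prop where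
  lab : ∀ θ ∈ I, Lab f θ (e θ) (s θ)
  e_cont : ∀ i, ContinuousOn (fun θ => e θ i) I
  s_cont : ∀ i, ContinuousOn (fun θ => s θ i) I

theorem real_iff' (z : ℂ) : z.im = 0 ↔ z = (starRingEnd ℂ) z := by
  rw [← Complex.conj_eq_iff_im]
  exact eq_comm

theorem PairingG.ne {K0 K1 : Set RP2} {θ : ℝ} {e s : Fin 8 → ℂ} {A B : Fin 4 → Fin 8}
    {kind : Fin 4 → Fin 3} {ζ : Fin 4 → ℂ} (h : PairingG K0 K1 θ e s A B kind ζ) (p : Fin 4) :
    A p ≠ B p := by
  intro hab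
  have := @h.inj (Sum.inl p) (Sum.inr p) hab
  simp at this

namespace LabArc

variable {f : MvPolynomial (Fin 3) ℝ} {I : Set ℝ} {e s : ℝ → Fin 8 → ℂ}

/-- conjugation of the labels is constant along an arc -/
theorem conj_const (nf : Normal f) (L : LabArc f I e s) (hI : IsPreconnected I) {θ₁ θ₂ : ℝ}
    (h₁ : θ₁ ∈ I) (h₂ : θ₂ ∈ I) {i j : Fin 8}
    (h : e θ₁ j = (starRingEnd ℂ) (e θ₁ i)) : e θ₂ j = (starRingEnd ℂ) (e θ₂ i) := by
  have hc : ∀ k, ContinuousOn (fun θ => e θ k - (starRingEnd ℂ) (e θ i)) I := fun k =>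
    (L.e_cont k).sub (Complex.continuous_conj.comp_continuousOn (L.e_cont i))
  have h3 := zero_const hI (u := fun θ => e θ j - (starRingEnd ℂ) (e θ i))
    (v := fun θ => ∏ k ∈ Finset.univ.erase j, (e θ k - (starRingEnd ℂ) (e θ i)))
    (hc j) (continuousOn_finsetProd _ fun k _ => hc k) (by
      intro θ hθ
      obtain ⟨k, hk⟩ := (L.lab θ hθ).conj nf i
      by_cases hkj : k = j
      · left
        subst hkj
        refine ⟨sub_eq_zero.2 hk, Finset.prod_ne_zero_iff.2 fun l hl h0 => ?_⟩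
        exact (Finset.mem_erase.1 hl).1 ((L.lab θ hθ).inj ((sub_eq_zero.1 h0).trans hk.symm))
      · right
        refine ⟨fun h0 => hkj ((L.lab θ hθ).inj (hk.trans (sub_eq_zero.1 h0).symm)), ?_⟩
        exact Finset.prod_eq_zero (Finset.mem_erase.2 ⟨hkj, Finset.mem_univ k⟩) (sub_eq_zero.2 hk))
    h₁ h₂ (sub_eq_zero.2 h)
  exact sub_eq_zero.1 h3

theorem real_const (nf : Normal f) (L : LabArc f I e s) (hI : IsPreconnected I) {θ₁ θ₂ : ℝ}
    (h₁ : θ₁ ∈ I) (h₂ : θ₂ ∈ I) {i : Fin 8} (h : (e θ₁ i).im = 0) : (e θ₂ i).im = 0 := by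
  rw [real_iff'] at h ⊢
  exact L.conj_const nf hI h₁ h₂ h

theorem zeta_cont (nf : Normal f) (L : LabArc f I e s) (a b : Fin 8) (k : Fin 3) :
    ContinuousOn (fun θ => zetaG (s θ) a b k) I := by
  unfold zetaG
  split_ifs with hk
  · exact (Complex.continuous_conj.comp_continuousOn (L.s_cont a)).div (L.s_cont b)
      fun θ hθ => (L.lab θ hθ).s_ne_zero nf b
  · have h1 : ContinuousOn (fun θ => s θ a * s θ b) I := (L.s_cont a).mul (L.s_cont b)
    refine (continuousOn_const.mul h1).div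
      (Complex.continuous_ofReal.comp_continuousOn h1.norm) fun θ hθ => ?_
    rw [Complex.ofReal_ne_zero, norm_ne_zero_iff]
    exact mul_ne_zero ((L.lab θ hθ).s_ne_zero nf a) ((L.lab θ hθ).s_ne_zero nf b)

/-- **A pairing stays a pairing along an open arc.** -/
theorem pairing (hopen : IsOpenMap (fun p : ℝ × ℝ => pt p.1 p.2)) (nf : Normal f)
    {K0 K1 : Set RP2} (reg : Regions f K0 K1) (L : LabArc f I e s)
    (hI : IsPreconnected I) (hIo : IsOpen I) {θ₁ θ₂ : ℝ} (h₁ : θ₁ ∈ I) (h₂ : θ₂ ∈ I)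
    {A B : Fin 4 → Fin 8} {kind : Fin 4 → Fin 3} {ζ : Fin 4 → ℂ}
    (h : PairingG K0 K1 θ₁ (e θ₁) (s θ₁) A B kind ζ) :
    PairingG K0 K1 θ₂ (e θ₂) (s θ₂) A B kind ζ := by
  -- conjugate pairs
  have hcpx : ∀ p, kind p = 2 → ∀ θ ∈ I, e θ (B p) = (starRingEnd ℂ) (e θ (A p)) :=
    fun p hp θ hθ => L.conj_const nf hI h₁ hθ (h.cpx p hp).2
  have hreal : ∀ p, kind p ≠ 2 → ∀ θ ∈ I, (e θ (A p)).im = 0 ∧ (e θ (B p)).im = 0 :=
    fun p hp θ hθ => ⟨L.real_const nf hI h₁ hθ (h.real p hp).1,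
      L.real_const nf hI h₁ hθ (h.real p hp).2.1⟩
  have hre : ∀ i, ContinuousOn (fun θ => (e θ i).re) I := fun i =>
    Complex.continuous_re.comp_continuousOn (L.e_cont i)
  have him : ∀ i, ContinuousOn (fun θ => (e θ i).im) I := fun i =>
    Complex.continuous_im.comp_continuousOn (L.e_cont i)
  have hinj : ∀ θ ∈ I, Function.Injective (e θ) := fun θ hθ => (L.lab θ hθ).inj
  -- the real labels
  have hin : ∀ (K : Set RP2) (k : Fin 3), k ≠ 2 → IsClosed K → K ⊆ closure (interior K) →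
      (∀ θ η : ℝ, pt θ η ∈ frontier K → (gr f θ).eval η = 0) →
      (∀ η : ℝ, pt θ₁ η ∈ K ↔ ∃ p, kind p = k ∧
        (e θ₁ (A p)).re ≤ η ∧ η ≤ (e θ₁ (B p)).re) →
      ∀ η : ℝ, pt θ₂ η ∈ K ↔ ∃ p, kind p = k ∧
        (e θ₂ (A p)).re ≤ η ∧ η ≤ (e θ₂ (B p)).re := by
    intro K k hk hKc hKcl hKf hK η
    have hne : ∀ p : {p // kind p = k}, kind p.1 ≠ 2 := fun p h => hk (p.2.symm.trans h)
    have h3 := pairs_transport (X := RP2) (q := fun p : ℝ × ℝ => pt p.1 p.2) continuous_pt hopen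
      hKc hKcl (ι := {i : Fin 8 // (e θ₁ i).im = 0}) (r := fun i θ => (e θ i.1).re) hI hIo
      (fun i => hre i.1) (by
        rintro θ hθ ⟨i, hi⟩ ⟨j, hj⟩ hij
        apply Subtype.ext
        apply hinj θ hθ
        apply Complex.ext hij
        rw [L.real_const nf hI h₁ hθ hi, L.real_const nf hI h₁ hθ hj]) (by
        intro θ hθ η hη
        obtain ⟨i, hi⟩ := (L.lab θ hθ).surj_real nf (hKf θ η hη)
        refine ⟨⟨i, L.real_const nf hI hθ h₁ (by rw [hi]; exact Complex.ofReal_im η)⟩, ?_⟩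
        show (e θ i).re = η
        rw [hi, Complex.ofReal_re])
      (P := {p // kind p = k}) (fun p => ⟨A p.1, (h.real p.1 (hne p)).1⟩)
      (fun p => ⟨B p.1, (h.real p.1 (hne p)).2.1⟩) h₁ h₂
      (fun p => (h.real p.1 (hne p)).2.2) (by
        intro η
        rw [hK η]
        constructor
        · rintro ⟨p, hp, h4⟩
          exact ⟨⟨p, hp⟩, h4⟩
        · rintro ⟨⟨p, hp⟩, h4⟩
          exact ⟨p, hp, h4⟩) η
    rw [h3]
    constructor
    · rintro ⟨⟨p, hp⟩, h4⟩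
      exact ⟨p, hp, h4⟩
    · rintro ⟨p, hp, h4⟩
      exact ⟨⟨p, hp⟩, h4⟩
  have hz : ∀ p, zetaG (s θ₂) (A p) (B p) (kind p) = zetaG (s θ₁) (A p) (B p) (kind p) := by
    intro p
    exact const_of_pow_four hI (L.zeta_cont nf (A p) (B p) (kind p)) (fun θ hθ =>
      (L.lab θ hθ).zeta_pow_four nf (fun hp => hcpx p hp θ hθ) fun hp => hreal p hp θ hθ) h₂ h₁
  refine ⟨h.inj, ?_, ?_, ?_, ?_, ?_, h.zeta_sq⟩
  · intro p hp
    refine ⟨?_, hcpx p hp θ₂ h₂⟩
    refine sign_const hI (him (A p)) (fun θ hθ h0 => ?_) h₁ h₂ (h.cpx p hp).1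
    have h4 := hcpx p hp θ hθ
    rw [← (real_iff' (e θ (A p))).1 h0] at h4
    exact h.ne p (hinj θ hθ h4).symm
  · intro p hp
    refine ⟨(hreal p hp θ₂ h₂).1, (hreal p hp θ₂ h₂).2, ?_⟩
    refine lt_const hI (hre (A p)) (hre (B p)) (fun θ hθ h0 => ?_) h₁ h₂ (h.real p hp).2.2
    apply h.ne p
    apply hinj θ hθ
    apply Complex.ext h0
    rw [(hreal p hp θ hθ).1, (hreal p hp θ hθ).2]
  · exact hin K0 0 (by decide) reg.closed0 reg.closure_interior0.ge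
      (fun θ η hη => reg.zero θ η (Or.inl hη)) h.in0
  · exact hin K1 1 (by decide) reg.closed1 reg.closure_interior1.ge
      (fun θ η hη => reg.zero θ η (Or.inr hη)) h.in1
  · intro p
    rw [hz p, h.zeta p]

end LabArc

end Pool.Agent.Rohlin
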