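import Pool.Agent.Rohlin.Setup

/-!
# Phases along arcs and across a boundary point

Pure analysis: continuous functions whose `N`-th power is a positive multiple of a constant have
constant phase; a function on the closed disc minus a boundary point `r` whose square grows like
`(w - r) ^ (∓ 1 / 4)` has one sided limit phases whose quotient is `exp (± i π / 8)`.
-/

set_option autoImplicit false

namespace Pool.Agent.Rohlin.Phase

open Set Filter Topology Metric

/-- A continuous function on a preconnected set whose `N`-th power is a positive multiple of a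
constant has constant phase. -/
theorem exists_phase {α : Type*} [TopologicalSpace α] {S : Set α} (hS : IsPreconnected S)
    {h : α → ℂ} (hh : ContinuousOn h S) {N : ℕ} (hN : 0 < N) {c : ℂ} (hc : c ≠ 0)
    (hp : ∀ a ∈ S, ∃ x : ℝ, 0 < x ∧ h a ^ N = c * x) :
    ∃ u : ℂ, ‖u‖ = 1 ∧ ∀ a ∈ S, ∃ ρ : ℝ, 0 < ρ ∧ h a = u * ρ := by
  rcases S.eq_empty_or_nonempty with rfl | ⟨a₀, ha₀⟩
  · exact ⟨1, by simp, fun a ha => ha.elim⟩
  have hne : ∀ a ∈ S, h a ≠ 0 := by
    intro a ha h0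
    obtain ⟨x, hx, hxa⟩ := hp a ha
    rw [h0, zero_pow hN.ne'] at hxa
    rcases mul_eq_zero.mp hxa.symm with h1 | h1
    · exact hc h1
    · exact hx.ne' (by exact_mod_cast h1)
  set f : α → ℂ := fun a => h a / (‖h a‖ : ℂ) with hf
  have hfc : ContinuousOn f S := by
    apply ContinuousOn.div hh
    · exact Complex.continuous_ofReal.comp_continuousOn hh.norm
    · intro a ha
      exact_mod_cast (norm_pos_iff.mpr (hne a ha)).ne'
  set T : Set ℂ := {z | z ^ N = c / (‖c‖ : ℂ)} with hT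
  have hTfin : T.Finite := by
    have : T ⊆ ((Polynomial.nthRoots N (c / (‖c‖ : ℂ))).toFinset : Set ℂ) := by
      intro z hz
      rw [Finset.mem_coe, Multiset.mem_toFinset, Polynomial.mem_nthRoots hN]
      exact hz
    exact (Finset.finite_toSet _).subset this
  have hmaps : MapsTo f S T := by
    intro a ha
    obtain ⟨x, hx, hxa⟩ := hp a ha
    have h1 : ‖h a‖ ^ N = ‖c‖ * x := by
      rw [← norm_pow, hxa, norm_mul, Complex.norm_real, Real.norm_of_nonneg hx.le]
    have hcn : (‖c‖ : ℂ) ≠ 0 := by exact_mod_cast (norm_pos_iff.mpr hc).ne'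
    have hx0 : (x : ℂ) ≠ 0 := by exact_mod_cast hx.ne'
    change (h a / (‖h a‖ : ℂ)) ^ N = c / (‖c‖ : ℂ)
    rw [div_pow, hxa, ← Complex.ofReal_pow, h1, Complex.ofReal_mul]
    field_simp
  have hdisc : IsDiscrete T := hTfin.isDiscrete
  refine ⟨f a₀, ?_, fun a ha => ⟨‖h a‖, norm_pos_iff.mpr (hne a ha), ?_⟩⟩
  · rw [hf]
    simp only [norm_div, Complex.norm_real, norm_norm]
    exact div_self (norm_pos_iff.mpr (hne a₀ ha₀)).ne'
  · rw [← hS.constant_of_mapsTo hdisc hfc hmaps ha ha₀]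
    have : (‖h a‖ : ℂ) ≠ 0 := by exact_mod_cast (norm_pos_iff.mpr (hne a ha)).ne'
    rw [hf]
    field_simp

/-- the closed unit disc minus a point -/
def Kset (r : ℂ) : Set ℂ := closedBall 0 1 \ {r}

theorem convex_Kset {r : ℂ} (hr : ‖r‖ = 1) : Convex ℝ (Kset r) := by
  have h1 : r ∈ extremePoints ℝ (closedBall (0 : ℂ) 1) := by
    rw [StrictConvexSpace.extremePoints_closedBall_eq_sphere]
    simpa using hr
  exact ((convex_closedBall (0 : ℂ) 1).mem_extremePoints_iff_convex_sdiff.mp h1).2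

/-- Square roots along connected punctured neighbourhoods. -/
theorem exists_sqrt_lim {r : ℂ} (hr : ‖r‖ = 1) {ε : ℝ} (hε : 0 < ε) {U : ℂ → ℂ}
    (hU : ContinuousOn U (Kset r ∩ ball r ε)) {Λ : ℂ} (hΛ : Λ ≠ 0)
    (hlim : Tendsto (fun w => U w ^ 2) (𝓝[Kset r] r) (𝓝 Λ)) :
    ∃ μ : ℂ, μ ^ 2 = Λ ∧ Tendsto U (𝓝[Kset r] r) (𝓝 μ) := by
  obtain ⟨μ, hμ⟩ : ∃ μ : ℂ, μ ^ 2 = Λ := by
    obtain ⟨μ, hμ⟩ := IsAlgClosed.exists_pow_nat_eq Λ (n := 2) (by norm_num)
    exact ⟨μ, hμ⟩
  have hμ0 : μ ≠ 0 := by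
    rintro rfl
    exact hΛ (by rw [← hμ]; simp)
  -- `z = U / μ`
  have hz : Tendsto (fun w => (U w / μ) ^ 2) (𝓝[Kset r] r) (𝓝 1) := by
    have h1 := hlim.div_const (μ ^ 2)
    rw [← hμ, div_self (pow_ne_zero 2 hμ0)] at h1
    refine h1.congr fun w => ?_
    rw [div_pow]
  -- small ball
  have hev : ∀ᶠ w in 𝓝[Kset r] r, ‖(U w / μ) ^ 2 - 1‖ < 1 := by
    have := hz (ball_mem_nhds (1 : ℂ) one_pos)
    filter_upwards [this] with w hw
    simpa [dist_eq_norm] using hw
  obtain ⟨δ, hδ, hδw⟩ : ∃ δ > 0, ∀ w ∈ Kset r, ‖w - r‖ < δ → ‖(U w / μ) ^ 2 - 1‖ < 1 := by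
    rw [eventually_nhdsWithin_iff, Metric.eventually_nhds_iff] at hev
    obtain ⟨δ, hδ, h1⟩ := hev
    exact ⟨δ, hδ, fun w hw h2 => h1 (by rwa [dist_eq_norm]) hw⟩
  set ε' := min ε δ with hε'
  have hε'0 : 0 < ε' := lt_min hε hδ
  set S := Kset r ∩ ball r ε' with hSdef
  have hSc : IsPreconnected S :=
    ((convex_Kset hr).inter (convex_ball r ε')).isPreconnected
  have hSU : ContinuousOn (fun w => (U w / μ).re) S :=
    Complex.continuous_re.comp_continuousOn
      ((hU.mono (inter_subset_inter_right _ (ball_subset_ball (min_le_left _ _)))).div_const _)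
  have hre : ∀ w ∈ S, (U w / μ).re ≠ 0 := by
    intro w hw h0
    have h1 := hδw w hw.1 (by
      have := hw.2
      rw [mem_ball, dist_eq_norm] at this
      exact lt_of_lt_of_le this (min_le_right _ _))
    have h2 : ((U w / μ) ^ 2 - 1).re ≤ -1 := by
      rw [Complex.sub_re, pow_two, Complex.mul_re, h0, Complex.one_re]
      nlinarith [mul_self_nonneg ((U w / μ).im)]
    have h3 := Complex.abs_re_le_norm ((U w / μ) ^ 2 - 1)
    have h4 : 1 ≤ |((U w / μ) ^ 2 - 1).re| := by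
      rw [le_abs]; right; linarith
    linarith
  have hSmem : S ∈ 𝓝[Kset r] r := inter_mem_nhdsWithin _ (ball_mem_nhds r hε'0)
  -- a general closing lemma
  have hclose : ∀ ν : ℂ, ν ^ 2 = μ ^ 2 → (∀ w ∈ S, 0 < (U w / ν).re) →
      Tendsto U (𝓝[Kset r] r) (𝓝 ν) := by
    intro ν hν hpos
    have hν0 : ν ≠ 0 := by
      rintro rfl
      exact pow_ne_zero 2 hμ0 (by rw [← hν]; simp)
    have h1 : Tendsto (fun w => (U w / ν) ^ 2 - 1) (𝓝[Kset r] r) (𝓝 0) := by
      have h2 : (fun w => (U w / ν) ^ 2 - 1) = fun w => (U w / μ) ^ 2 - 1 := by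
        funext w; rw [div_pow, div_pow, hν]
      rw [h2]
      have := hz.sub_const 1
      rwa [sub_self] at this
    have h2 : Tendsto (fun w => U w / ν - 1) (𝓝[Kset r] r) (𝓝 0) := by
      rw [tendsto_zero_iff_norm_tendsto_zero] at h1 ⊢
      refine squeeze_zero' (Eventually.of_forall fun w => norm_nonneg _) ?_ h1
      filter_upwards [hSmem] with w hw
      have h3 : (U w / ν) ^ 2 - 1 = (U w / ν - 1) * (U w / ν + 1) := by ring
      rw [h3, norm_mul]
      have h4 : 1 ≤ ‖U w / ν + 1‖ := by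
        have h5 := Complex.abs_re_le_norm (U w / ν + 1)
        have h6 : (1 : ℝ) ≤ |(U w / ν + 1).re| := by
          rw [Complex.add_re, Complex.one_re, le_abs]
          left
          linarith [hpos w hw]
        linarith
      exact le_mul_of_one_le_right (norm_nonneg _) h4
    have h3 : Tendsto (fun w => (U w / ν - 1 + 1) * ν) (𝓝[Kset r] r) (𝓝 ((0 + 1) * ν)) :=
      (h2.add_const 1).mul_const ν
    rw [zero_add, one_mul] at h3
    refine h3.congr fun w => ?_
    field_simp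
    ring
  by_cases hsign : ∃ w₀ ∈ S, 0 < (U w₀ / μ).re
  · obtain ⟨w₀, hw₀, hpos₀⟩ := hsign
    refine ⟨μ, hμ, hclose μ rfl fun w hw => ?_⟩
    by_contra hcon
    have hneg : (U w / μ).re < 0 := lt_of_le_of_ne (not_lt.mp hcon) (hre w hw)
    have := hSc.intermediate_value hw hw₀ hSU
    obtain ⟨w', hw', h0⟩ := this ⟨hneg.le, hpos₀.le⟩
    exact hre w' hw' h0
  · push Not at hsign
    refine ⟨-μ, by rw [neg_sq]; exact hμ, hclose (-μ) (by ring) fun w hw => ?_⟩
    have h1 : (U w / -μ) = -(U w / μ) := by rw [div_neg]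
    rw [h1, Complex.neg_re]
    have := lt_of_le_of_ne (hsign w hw) (hre w hw)
    linarith

/-- the local coordinate at `r` -/
noncomputable def lcoord (c r w : ℂ) : ℂ := (w - r) / (c - r)

theorem norm_circ (θ : ℝ) : ‖circ θ‖ = 1 := by
  rw [circ, show (2 * θ * Complex.I : ℂ) = ((2 * θ : ℝ) : ℂ) * Complex.I by push_cast; ring]
  exact Complex.norm_exp_ofReal_mul_I _

theorem continuous_circ : Continuous circ := by
  unfold circ; fun_prop

/-- `exp (2iθ) - exp (2iθ₀) = 2 i sin (θ - θ₀) exp (i (θ - θ₀)) exp (2iθ₀)` -/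
theorem circ_sub (θ θ₀ : ℝ) : circ θ - circ θ₀ =
    ((2 * Real.sin (θ - θ₀) : ℝ) : ℂ) * (Complex.I * Complex.exp ((θ - θ₀ : ℝ) * Complex.I) *
      circ θ₀) := by
  have h1 : ((Real.sin (θ - θ₀) : ℝ) : ℂ) =
      (Complex.exp (-((θ - θ₀ : ℝ) : ℂ) * Complex.I) - Complex.exp (((θ - θ₀ : ℝ) : ℂ) * Complex.I)) *
        Complex.I / 2 := by
    rw [Complex.ofReal_sin, Complex.sin]
  have h2 : circ θ = Complex.exp (((θ - θ₀ : ℝ) : ℂ) * Complex.I) *
      Complex.exp (((θ - θ₀ : ℝ) : ℂ) * Complex.I) * circ θ₀ := by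
    rw [circ, circ, ← Complex.exp_add, ← Complex.exp_add]
    congr 1
    push_cast
    ring
  have h3 : Complex.exp (-((θ - θ₀ : ℝ) : ℂ) * Complex.I) *
      Complex.exp (((θ - θ₀ : ℝ) : ℂ) * Complex.I) = 1 := by
    rw [← Complex.exp_add, ← Complex.exp_zero]
    congr 1
    ring
  rw [h2, Complex.ofReal_mul, h1]
  set E := Complex.exp (((θ - θ₀ : ℝ) : ℂ) * Complex.I)
  set E' := Complex.exp (-((θ - θ₀ : ℝ) : ℂ) * Complex.I)
  have hI : Complex.I * Complex.I = -1 := Complex.I_mul_I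
  push_cast
  linear_combination (circ θ₀) * h3 - (E' - E) * E * circ θ₀ * hI

/-- the value of the local coordinate along the circle -/
theorem lcoord_circ (c : ℂ) (θ θ₀ : ℝ) : lcoord c (circ θ₀) (circ θ) =
    ((2 * Real.sin (θ - θ₀) : ℝ) : ℂ) * (Complex.exp ((θ - θ₀ : ℝ) * Complex.I) *
      (Complex.I * circ θ₀ / (c - circ θ₀))) := by
  rw [lcoord, circ_sub]
  ring

theorem im_dir {c : ℂ} {θ₀ : ℝ} (hc : ‖c‖ < 1) : (Complex.I * circ θ₀ / (c - circ θ₀)).im < 0 := by
  set r := circ θ₀ with hr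
  have hr1 : ‖r‖ = 1 := norm_circ θ₀
  have hr0 : r ≠ 0 := by
    intro h; rw [h, norm_zero] at hr1; exact zero_ne_one hr1
  have h1 : (c / r).re < 1 := by
    have := Complex.re_le_norm (c / r)
    rw [norm_div, hr1, div_one] at this
    linarith
  have h2 : Complex.I * r / (c - r) = Complex.I / (c / r - 1) := by
    rw [show c - r = (c / r - 1) * r by field_simp]
    rw [mul_div_mul_right _ _ hr0]
  rw [h2, Complex.div_im]
  have hnz : 0 < Complex.normSq (c / r - 1) := by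
    rw [Complex.normSq_pos]
    intro h
    have := congrArg Complex.re h
    rw [Complex.sub_re, Complex.one_re, Complex.zero_re] at this
    linarith
  simp only [Complex.I_re, Complex.I_im, zero_mul, one_mul, zero_div, sub_zero]
  rw [Complex.sub_re, Complex.one_re]
  exact div_neg_of_neg_of_pos (by linarith) hnz

/-- the local coordinate avoids the cut on the closed disc -/
theorem lcoord_mem_slitPlane {c r w : ℂ} (hc : ‖c‖ < 1) (hr : ‖r‖ = 1) (hw : w ∈ Kset r) :
    lcoord c r w ∈ Complex.slitPlane := by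
  have hr0 : r ≠ 0 := by
    intro h; rw [h, norm_zero] at hr; exact zero_ne_one hr
  have hcr : c - r ≠ 0 := by
    intro h
    rw [sub_eq_zero] at h
    rw [h, hr] at hc
    exact lt_irrefl _ hc
  by_contra hcon
  rw [Complex.mem_slitPlane_iff] at hcon
  push Not at hcon
  obtain ⟨h1, h2⟩ := hcon
  -- `w - r = - s (c - r)` with `s ≥ 0`
  set s : ℝ := -(lcoord c r w).re with hs
  have hs0 : 0 ≤ s := by rw [hs]; linarith
  have h3 : lcoord c r w = ((-s : ℝ) : ℂ) := by
    apply Complex.ext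
    · simp [hs]
    · simpa using h2
  have h4 : w = r + ((-s : ℝ) : ℂ) * (c - r) := by
    rw [← h3, lcoord]
    field_simp
    ring
  have h5 : w / r = ((1 + s : ℝ) : ℂ) - (s : ℂ) * (c / r) := by
    rw [h4]
    push_cast
    field_simp
    ring
  have h6 : ‖w‖ ≤ 1 := by simpa using hw.1
  have h7 : (w / r).re ≤ 1 := by
    have := Complex.re_le_norm (w / r)
    rw [norm_div, hr, div_one] at this
    linarith
  have h8 : (c / r).re < 1 := by
    have := Complex.re_le_norm (c / r)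
    rw [norm_div, hr, div_one] at this
    linarith
  rw [h5, Complex.sub_re, Complex.ofReal_re, Complex.re_ofReal_mul] at h7
  have h9 : s = 0 := by
    by_contra hne
    have : 0 < s := lt_of_le_of_ne hs0 (Ne.symm hne)
    nlinarith
  apply hw.2
  rw [mem_singleton_iff, h4, h9]
  simp

theorem continuousOn_lcoord_cpow {c r : ℂ} (hc : ‖c‖ < 1) (hr : ‖r‖ = 1) (a : ℂ) :
    ContinuousOn (fun w => lcoord c r w ^ a) (Kset r) := by
  intro w hw
  have h1 : ContinuousAt (fun w => lcoord c r w) w := by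
    unfold lcoord
    fun_prop
  exact (h1.cpow continuousAt_const (lcoord_mem_slitPlane hc hr hw)).continuousWithinAt

/-- **Crossing a boundary point.** -/
theorem crossing {c : ℂ} (hc : ‖c‖ < 1) (θ₀ : ℝ) {ε : ℝ} (hε : 0 < ε) {h : ℂ → ℂ}
    (hh : ContinuousOn h (Kset (circ θ₀) ∩ ball (circ θ₀) ε)) (τ : ℝ) {Λ : ℂ} (hΛ : Λ ≠ 0)
    (hlim : Tendsto (fun w => h w ^ 2 * lcoord c (circ θ₀) w ^ ((τ / 4 : ℝ) : ℂ))
      (𝓝[Kset (circ θ₀)] (circ θ₀)) (𝓝 Λ)) :
    ∃ Lm Lp : ℂ, ‖Lm‖ = 1 ∧ ‖Lp‖ = 1 ∧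
      Tendsto (fun θ : ℝ => h (circ θ) / (‖h (circ θ)‖ : ℂ)) (𝓝[<] θ₀) (𝓝 Lm) ∧
      Tendsto (fun θ : ℝ => h (circ θ) / (‖h (circ θ)‖ : ℂ)) (𝓝[>] θ₀) (𝓝 Lp) ∧
      Lp = Lm * Complex.exp (Complex.I * Real.pi * τ / 8) := by
  set r := circ θ₀ with hr
  have hr1 : ‖r‖ = 1 := norm_circ θ₀
  have hζ0 : ∀ w ∈ Kset r, lcoord c r w ≠ 0 := fun w hw =>
    Complex.slitPlane_ne_zero (lcoord_mem_slitPlane hc hr1 hw)
  -- `U = h * lcoord ^ (τ / 8)`
  obtain ⟨μ, hμ, hUlim⟩ := exists_sqrt_lim hr1 hε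
    (U := fun w => h w * lcoord c r w ^ ((τ / 8 : ℝ) : ℂ))
    (hh.mul ((continuousOn_lcoord_cpow hc hr1 _).mono inter_subset_left)) hΛ (by
      refine hlim.congr' ?_
      filter_upwards [self_mem_nhdsWithin] with w hw
      rw [mul_pow]
      congr 1
      rw [← Complex.cpow_nat_mul]
      congr 1
      push_cast
      ring)
  have hμ0 : μ ≠ 0 := by
    rintro rfl
    exact hΛ (by rw [← hμ]; simp)
  set v := Complex.I * r / (c - r) with hv
  have hvim : v.im < 0 := im_dir hc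
  -- general one sided statement
  have main : ∀ (F : Filter ℝ) (g : ℂ), F ≤ 𝓝 θ₀ → g.im ≠ 0 →
      (∀ᶠ θ in F, ∃ x : ℝ, 0 < x ∧ lcoord c r (circ θ) =
        (x : ℂ) * (Complex.exp ((θ - θ₀ : ℝ) * Complex.I) * g)) →
      Tendsto (fun θ : ℝ => h (circ θ) / (‖h (circ θ)‖ : ℂ)) F
        (𝓝 (μ / (‖μ‖ : ℂ) * Complex.exp (-(τ * g.arg / 8 : ℝ) * Complex.I))) := by
    intro F g hF hg hx
    have hcirc : Tendsto circ F (𝓝 r) := (continuous_circ.tendsto θ₀).mono_left hF
    have hK : ∀ᶠ θ in F, circ θ ∈ Kset r := by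
      filter_upwards [hx] with θ hθ
      obtain ⟨x, hx0, hxz⟩ := hθ
      refine ⟨by simp [norm_circ], ?_⟩
      intro heq
      rw [mem_singleton_iff] at heq
      rw [heq] at hxz
      have h0 : lcoord c r r = 0 := by simp [lcoord]
      rw [h0] at hxz
      have h1 : (x : ℂ) ≠ 0 := by exact_mod_cast hx0.ne'
      have h2 : g ≠ 0 := by
        rintro rfl
        exact hg rfl
      exact mul_ne_zero h1 (mul_ne_zero (Complex.exp_ne_zero _) h2) hxz.symm
    have hcirc' : Tendsto circ F (𝓝[Kset r] r) := by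
      rw [tendsto_nhdsWithin_iff]
      exact ⟨hcirc, hK⟩
    have h1 : Tendsto (fun θ : ℝ => h (circ θ) * lcoord c r (circ θ) ^ ((τ / 8 : ℝ) : ℂ)) F (𝓝 μ) :=
      hUlim.comp hcirc'
    -- phase of `U`
    have h2 : Tendsto (fun θ : ℝ => (h (circ θ) * lcoord c r (circ θ) ^ ((τ / 8 : ℝ) : ℂ)) /
        (‖h (circ θ) * lcoord c r (circ θ) ^ ((τ / 8 : ℝ) : ℂ)‖ : ℂ)) F (𝓝 (μ / (‖μ‖ : ℂ))) := by
      refine h1.div ?_ (by exact_mod_cast (norm_pos_iff.mpr hμ0).ne')
      exact (Complex.continuous_ofReal.tendsto _).comp h1.norm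
    -- argument
    have h3 : Tendsto (fun θ : ℝ => (lcoord c r (circ θ)).arg) F (𝓝 g.arg) := by
      have h4 : Tendsto (fun θ : ℝ => (Complex.exp ((θ - θ₀ : ℝ) * Complex.I) * g)) F (𝓝 g) := by
        have h5 : Tendsto (fun θ : ℝ => (Complex.exp ((θ - θ₀ : ℝ) * Complex.I) * g)) (𝓝 θ₀)
            (𝓝 (Complex.exp ((θ₀ - θ₀ : ℝ) * Complex.I) * g)) := by
          have : Continuous (fun θ : ℝ => (Complex.exp ((θ - θ₀ : ℝ) * Complex.I) * g)) := by
            fun_prop
          exact this.tendsto θ₀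
        rw [sub_self, Complex.ofReal_zero, zero_mul, Complex.exp_zero, one_mul] at h5
        exact h5.mono_left hF
      have h5 : ContinuousAt Complex.arg g :=
        Complex.continuousAt_arg (Complex.mem_slitPlane_iff.mpr (Or.inr hg))
      refine (h5.tendsto.comp h4).congr' ?_
      filter_upwards [hx] with θ hθ
      obtain ⟨x, hx0, hxz⟩ := hθ
      rw [Function.comp_apply, hxz, Complex.arg_real_mul _ hx0]
    have h6 : Tendsto (fun θ : ℝ => Complex.exp (-(τ * (lcoord c r (circ θ)).arg / 8 : ℝ) * Complex.I))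
        F (𝓝 (Complex.exp (-(τ * g.arg / 8 : ℝ) * Complex.I))) := by
      have : Continuous fun a : ℝ => Complex.exp (-(τ * a / 8 : ℝ) * Complex.I) := by fun_prop
      exact (this.tendsto _).comp h3
    refine (h2.mul h6).congr' ?_
    filter_upwards [hK] with θ hθ
    have hz0 := hζ0 _ hθ
    set z := lcoord c r (circ θ) with hz
    have h7 : z ^ ((τ / 8 : ℝ) : ℂ) = ((‖z‖ ^ (τ / 8) : ℝ) : ℂ) *
        Complex.exp ((τ * z.arg / 8 : ℝ) * Complex.I) := by
      rw [Complex.cpow_def_of_ne_zero hz0, Complex.log]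
      rw [add_mul, Complex.exp_add]
      congr 1
      · rw [← Complex.ofReal_mul, ← Complex.ofReal_exp,
          Real.rpow_def_of_pos (norm_pos_iff.mpr hz0)]
      · congr 1
        push_cast
        ring
    have hzp : 0 < ‖z‖ ^ (τ / 8) := Real.rpow_pos_of_pos (norm_pos_iff.mpr hz0) _
    have h8 : ‖z ^ ((τ / 8 : ℝ) : ℂ)‖ = ‖z‖ ^ (τ / 8) := by
      rw [h7, norm_mul, Complex.norm_exp_ofReal_mul_I, mul_one, Complex.norm_real,
        Real.norm_of_nonneg hzp.le]
    rw [norm_mul, h8, h7]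
    have h9 : Complex.exp ((τ * z.arg / 8 : ℝ) * Complex.I) *
        Complex.exp (-(τ * z.arg / 8 : ℝ) * Complex.I) = 1 := by
      rw [← Complex.exp_add, ← Complex.exp_zero]
      congr 1
      ring
    set E1 := Complex.exp ((τ * z.arg / 8 : ℝ) * Complex.I)
    set E2 := Complex.exp (-(τ * z.arg / 8 : ℝ) * Complex.I)
    have hx0 : ((‖z‖ ^ (τ / 8) : ℝ) : ℂ) ≠ 0 := by exact_mod_cast hzp.ne'
    rw [Complex.ofReal_mul]
    rcases eq_or_ne (h (circ θ)) 0 with hh0 | hh0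
    · rw [hh0]; simp
    · have hn0 : (‖h (circ θ)‖ : ℂ) ≠ 0 := by exact_mod_cast (norm_pos_iff.mpr hh0).ne'
      field_simp
      linear_combination h9
  -- the two sides
  have hsin : ∀ᶠ θ in 𝓝[>] θ₀, 0 < Real.sin (θ - θ₀) := by
    have h1 : ∀ᶠ θ in 𝓝[>] θ₀, θ < θ₀ + Real.pi :=
      nhdsWithin_le_nhds (Iio_mem_nhds (by linarith [Real.pi_pos]))
    filter_upwards [h1, self_mem_nhdsWithin] with θ h2 h3
    exact Real.sin_pos_of_pos_of_lt_pi (by simpa using h3) (by linarith)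
  have hsin' : ∀ᶠ θ in 𝓝[<] θ₀, Real.sin (θ - θ₀) < 0 := by
    have h1 : ∀ᶠ θ in 𝓝[<] θ₀, θ₀ - Real.pi < θ :=
      nhdsWithin_le_nhds (Ioi_mem_nhds (by linarith [Real.pi_pos]))
    filter_upwards [h1, self_mem_nhdsWithin] with θ h2 h3
    have h4 : θ < θ₀ := h3
    have : 0 < Real.sin (-(θ - θ₀)) := Real.sin_pos_of_pos_of_lt_pi (by linarith) (by linarith)
    rw [Real.sin_neg] at this
    linarith
  refine ⟨_, _, ?_, ?_, main (𝓝[<] θ₀) (-v) nhdsWithin_le_nhds (by
      rw [Complex.neg_im]; linarith [hvim]) ?_, main (𝓝[>] θ₀) v nhdsWithin_le_nhds hvim.ne ?_, ?_⟩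
  · rw [norm_mul, norm_div, Complex.norm_real, norm_norm, div_self (norm_pos_iff.mpr hμ0).ne',
      one_mul, ← Complex.ofReal_neg, Complex.norm_exp_ofReal_mul_I]
  · rw [norm_mul, norm_div, Complex.norm_real, norm_norm, div_self (norm_pos_iff.mpr hμ0).ne',
      one_mul, ← Complex.ofReal_neg, Complex.norm_exp_ofReal_mul_I]
  · filter_upwards [hsin'] with θ hθ
    refine ⟨-(2 * Real.sin (θ - θ₀)), by linarith, ?_⟩
    rw [hr, lcoord_circ, ← hr, ← hv]
    push_cast
    ring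
  · filter_upwards [hsin] with θ hθ
    refine ⟨2 * Real.sin (θ - θ₀), by linarith, ?_⟩
    rw [hr, lcoord_circ]
  · have h1 : v.arg = (-v).arg - Real.pi := by
      have := Complex.arg_neg_eq_arg_sub_pi_of_im_pos (x := -v) (by
        rw [Complex.neg_im]; linarith)
      rw [neg_neg] at this
      exact this
    rw [h1, mul_assoc, ← Complex.exp_add]
    congr 2
    push_cast
    ring

end Pool.Agent.Rohlin.Phase
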