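import Pool.Agent.Rohlin.Spinor
import Pool.Agent.Rohlin.Phase

/-!
# Recoupling of two pairs

Rotations by an arbitrary angle in a coordinate plane, the overlap of two matching states which
differ in two pairs, and the sign of the recoupling from a nonvanishing determinant along the arc.
-/

set_option autoImplicit false

namespace Pool.Agent.Rohlin

open Matrix Phase
open scoped ComplexOrder

section Rotation

variable {m : ℕ} {n : Type} [Fintype n] [DecidableEq n] (M : Majorana m n)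

/-- `c + s e_a e_b` -/
noncomputable def Rfac (a b : Fin m) (c s : ℂ) : Matrix n n ℂ := c • 1 + s • (M.e a * M.e b)

/-- the rotation `(v_a, v_b) ↦ (C v_a + S v_b, - S v_a + C v_b)` -/
noncomputable def rhoG (a b : Fin m) (C S : ℂ) (v : Fin m → ℂ) : Fin m → ℂ :=
  Function.update (Function.update v a (C * v a + S * v b)) b (-S * v a + C * v b)

theorem Rfac_mul_Rfac_neg {a b : Fin m} (hab : a ≠ b) {c s : ℂ} (hcs : c ^ 2 + s ^ 2 = 1) :
    Rfac M a b c (-s) * Rfac M a b c s = 1 := by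
  rw [Rfac, Rfac, Matrix.add_mul, Matrix.mul_add, Matrix.mul_add]
  simp only [Matrix.smul_mul, Matrix.mul_smul, one_mul, mul_one, smul_smul, ee_sq M hab]
  have h : (1 : Matrix n n ℂ) = (c ^ 2 + s ^ 2) • (1 : Matrix n n ℂ) := by rw [hcs, one_smul]
  conv_rhs => rw [h]
  module

theorem Rfac_mul_e {a b : Fin m} (hab : a ≠ b) {c s : ℂ} (hcs : c ^ 2 + s ^ 2 = 1) (i : Fin m) :
    Rfac M a b c s * M.e i = (if i = a then (c ^ 2 - s ^ 2) • M.e a - (2 * c * s) • M.e b
      else if i = b then (2 * c * s) • M.e a + (c ^ 2 - s ^ 2) • M.e b else M.e i) *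
      Rfac M a b c s := by
  have ha : M.e a * M.e b * M.e a = -M.e b := by
    rw [M.anti a b hab, Matrix.neg_mul, Matrix.mul_assoc, M.sq, mul_one]
  have hb : M.e a * M.e b * M.e b = M.e a := by rw [Matrix.mul_assoc, M.sq, mul_one]
  have ha' : M.e a * (M.e a * M.e b) = M.e b := by rw [← Matrix.mul_assoc, M.sq, one_mul]
  have hb' : M.e b * (M.e a * M.e b) = -M.e a := by
    rw [← Matrix.mul_assoc, M.anti b a hab.symm, Matrix.neg_mul, hb]
  simp only [Rfac, Matrix.add_mul, Matrix.mul_add, Matrix.smul_mul, Matrix.mul_smul, one_mul,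
    mul_one]
  split_ifs with h1 h2
  · subst h1
    simp only [ha, Matrix.sub_mul, Matrix.smul_mul, ha', hb']
    have e1 : c = c * (c ^ 2 + s ^ 2) := by rw [hcs, mul_one]
    have e2 : s = s * (c ^ 2 + s ^ 2) := by rw [hcs, mul_one]
    have l1 : c • M.e i + s • -M.e b =
        (c * (c ^ 2 + s ^ 2)) • M.e i + (s * (c ^ 2 + s ^ 2)) • -M.e b := by
      rw [← e1, ← e2]
    rw [l1]
    module
  · subst h2
    simp only [hb, Matrix.add_mul, Matrix.smul_mul, ha', hb']
    have e1 : c = c * (c ^ 2 + s ^ 2) := by rw [hcs, mul_one]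
    have e2 : s = s * (c ^ 2 + s ^ 2) := by rw [hcs, mul_one]
    have l1 : c • M.e i + s • M.e a =
        (c * (c ^ 2 + s ^ 2)) • M.e i + (s * (c ^ 2 + s ^ 2)) • M.e a := by
      rw [← e1, ← e2]
    rw [l1]
    module
  · have h3 : M.e a * M.e b * M.e i = M.e i * (M.e a * M.e b) := by
      rw [Matrix.mul_assoc, M.anti b i (Ne.symm h2), Matrix.mul_neg, ← Matrix.mul_assoc,
        M.anti a i (Ne.symm h1), Matrix.neg_mul, neg_neg, Matrix.mul_assoc]
    rw [h3]

theorem Rfac_mul_g {a b : Fin m} (hab : a ≠ b) {c s : ℂ} (hcs : c ^ 2 + s ^ 2 = 1)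
    (v : Fin m → ℂ) : Rfac M a b c s * M.g v =
      M.g (rhoG a b (c ^ 2 - s ^ 2) (2 * c * s) v) * Rfac M a b c s := by
  have h1 : M.g (rhoG a b (c ^ 2 - s ^ 2) (2 * c * s) v) =
      ∑ i, v i • (if i = a then (c ^ 2 - s ^ 2) • M.e a - (2 * c * s) • M.e b
      else if i = b then (2 * c * s) • M.e a + (c ^ 2 - s ^ 2) • M.e b else M.e i) := by
    have h2 : ∀ f : Fin m → Matrix n n ℂ, ∑ c, f c = f a + (f b + ∑ c ∈ (Finset.univ.erase a).erase b, f c) := by
      intro f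
      rw [Finset.add_sum_erase _ _ (Finset.mem_erase.mpr ⟨hab.symm, Finset.mem_univ _⟩),
        Finset.add_sum_erase _ _ (Finset.mem_univ _)]
    rw [Majorana.g, h2, h2]
    have h3 : ∑ i ∈ (Finset.univ.erase a).erase b,
          rhoG a b (c ^ 2 - s ^ 2) (2 * c * s) v i • M.e i =
        ∑ i ∈ (Finset.univ.erase a).erase b,
          v i • (if i = a then (c ^ 2 - s ^ 2) • M.e a - (2 * c * s) • M.e b
            else if i = b then (2 * c * s) • M.e a + (c ^ 2 - s ^ 2) • M.e b else M.e i) := by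
      refine Finset.sum_congr rfl fun i hi => ?_
      have hib : i ≠ b := (Finset.mem_erase.mp hi).1
      have hia : i ≠ a := (Finset.mem_erase.mp (Finset.mem_erase.mp hi).2).1
      rw [if_neg hia, if_neg hib, rhoG, Function.update_of_ne hib, Function.update_of_ne hia]
    rw [h3, if_pos rfl, if_neg hab.symm, if_pos rfl]
    have h4 : rhoG a b (c ^ 2 - s ^ 2) (2 * c * s) v a =
        (c ^ 2 - s ^ 2) * v a + 2 * c * s * v b := by
      rw [rhoG, Function.update_of_ne hab, Function.update_self]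
    have h5 : rhoG a b (c ^ 2 - s ^ 2) (2 * c * s) v b =
        -(2 * c * s) * v a + (c ^ 2 - s ^ 2) * v b := by rw [rhoG, Function.update_self]
    rw [h4, h5]
    module
  rw [h1, Majorana.g, Matrix.mul_sum, Matrix.sum_mul]
  refine Finset.sum_congr rfl fun i _ => ?_
  rw [Matrix.mul_smul, Rfac_mul_e M hab hcs, Matrix.smul_mul]

theorem Rfac_mul_R {a b : Fin m} (hab : a ≠ b) {c s : ℂ} (hcs : c ^ 2 + s ^ 2 = 1) : ∀ {k : ℕ}
    (v : Fin k → Fin m → ℂ), Rfac M a b c s * M.R v =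
      M.R (fun j => rhoG a b (c ^ 2 - s ^ 2) (2 * c * s) (v j)) * Rfac M a b c s := by
  intro k
  induction k with
  | zero => intro v; simp [M.R_zero]
  | succ k ih =>
    intro v
    rw [M.R_succ, ← Matrix.mul_assoc, Rfac_mul_g M hab hcs, Matrix.mul_assoc, ih, M.R_succ,
      Matrix.mul_assoc]

theorem C_mul_Rfac {a b : Fin m} (C : Matrix n n ℂ) {ε : ℂ} (hε : ε * ε = 1)
    (hC : ∀ a, C * M.e a = ε • ((M.e a)ᵀ * C)) (hab : a ≠ b) (c s : ℂ) :
    C * Rfac M a b c (-s) = (Rfac M a b c s)ᵀ * C := by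
  have h1 : C * (M.e a * M.e b) = -((M.e a * M.e b)ᵀ * C) := by
    rw [← Matrix.mul_assoc, hC, Matrix.smul_mul, Matrix.mul_assoc, hC, Matrix.mul_smul, smul_smul,
      hε, one_smul, ← Matrix.mul_assoc, ← Matrix.transpose_mul, M.anti b a hab.symm,
      Matrix.transpose_neg, Matrix.neg_mul]
  rw [Rfac, Rfac, Matrix.mul_add, Matrix.mul_smul, mul_one, Matrix.mul_smul, h1,
    Matrix.transpose_add, Matrix.transpose_smul, Matrix.transpose_one, Matrix.transpose_smul,
    Matrix.add_mul, Matrix.smul_mul, one_mul, Matrix.smul_mul]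
  module

/-- the form of the rotated state -/
theorem form_rot {a b : Fin m} (C : Matrix n n ℂ) {ε : ℂ} (hε : ε * ε = 1)
    (hC : ∀ a, C * M.e a = ε • ((M.e a)ᵀ * C)) (hab : a ≠ b) {c s : ℂ} (hcs : c ^ 2 + s ^ 2 = 1)
    {k : ℕ} (v : Fin k → Fin m → ℂ) :
    (Rfac M a b c s)ᵀ * (C * M.R v) * Rfac M a b c s =
      C * M.R (fun j => rhoG a b (c ^ 2 - s ^ 2) (-(2 * c * s)) (v j)) := by
  have h1 := Rfac_mul_R M hab (c := c) (s := -s) (by rw [neg_sq]; exact hcs) v
  rw [← Matrix.mul_assoc, ← C_mul_Rfac M C hε hC hab c s, Matrix.mul_assoc C, h1,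
    Matrix.mul_assoc, Matrix.mul_assoc, Rfac_mul_Rfac_neg M hab hcs, mul_one]
  congr 2
  funext j
  congr 1 <;> ring

/-- The square of a pure spinor functional on a rotated state. -/
theorem sq_rot {a b : Fin m} (C : Matrix n n ℂ) {ε : ℂ} (hε : ε * ε = 1)
    (hC : ∀ a, C * M.e a = ε • ((M.e a)ᵀ * C)) (hab : a ≠ b) {c s : ℂ} (hcs : c ^ 2 + s ^ 2 = 1)
    {k : ℕ} (v : Fin k → Fin m → ℂ) (l : n → ℂ) (hl : C * M.R v = vecMulVec l l) (ψ : n → ℂ) :
    (l ⬝ᵥ (Rfac M a b c s *ᵥ ψ)) ^ 2 =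
      ψ ⬝ᵥ ((C * M.R (fun j => rhoG a b (c ^ 2 - s ^ 2) (-(2 * c * s)) (v j))) *ᵥ ψ) := by
  rw [← form_rot M C hε hC hab hcs, hl, Matrix.mul_assoc, Matrix.vecMulVec_mul,
    Matrix.mul_vecMulVec, Matrix.vecMulVec_mulVec, Matrix.mulVec_transpose, pow_two]
  rw [dotProduct_smul, ← Matrix.dotProduct_mulVec, op_smul_eq_mul,
    dotProduct_comm ψ (l ᵥ* _), ← Matrix.dotProduct_mulVec]

end Rotation

end Pool.Agent.Rohlin
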