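import Pool.Agent.Rohlin.Slice1D

/-!
# Closed subsets of the strip and their vertical slices

Part of the counting package of the cell ROH (MP_dec4ff_ag).
-/

set_option autoImplicit false

namespace Pool.Agent.Rohlin

open Set Topology Filter

/-- vertical slice -/
def sl (E : Set (ℝ × ℝ)) (θ : ℝ) : Set ℝ := {η | (θ, η) ∈ E}

/-- A closed set `E` of the plane, bounded in the vertical direction, with a closed set `Z ⊆ E`
containing the frontier, whose vertical slices are finite. -/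
structure StripSet (E Z : Set (ℝ × ℝ)) : Prop where
  closedE : IsClosed E
  closedZ : IsClosed Z
  front : frontier E ⊆ Z
  sub : Z ⊆ E
  bdd : ∃ B : ℝ, ∀ p ∈ E, |p.2| ≤ B
  fin : ∀ θ, (sl Z θ).Finite

/-- the number of left ends near `(θ, ρ)`: `cL` to the left, `c0` over `θ`, `cR` to the right -/
def LocType (E : Set (ℝ × ℝ)) (θ ρ : ℝ) (cL c0 cR : ℕ) : Prop :=
  ∃ ε0 > 0, ∀ ε, 0 < ε → ε < ε0 → ∀ᶠ θ' in 𝓝 θ,
    (leftEnds (sl E θ') ∩ Ioo (ρ - ε) (ρ + ε)).ncard =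
      if θ' < θ then cL else if θ' = θ then c0 else cR

/-- regular angles -/
def RegAt (E Z : Set (ℝ × ℝ)) (θ : ℝ) : Prop :=
  ∃ c : ℝ → ℕ, ∀ ρ ∈ sl Z θ, LocType E θ ρ (c ρ) (c ρ) (c ρ)

namespace StripSet

variable {E Z : Set (ℝ × ℝ)} (h : StripSet E Z)
include h

theorem closed_sl (θ : ℝ) : IsClosed (sl E θ) :=
  h.closedE.preimage (Continuous.prodMk continuous_const continuous_id)

theorem frontier_sl (θ : ℝ) : frontier (sl E θ) ⊆ sl Z θ := by
  intro η hη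
  apply h.front
  rw [h.closedE.frontier_eq]
  rw [(h.closed_sl θ).frontier_eq] at hη
  refine ⟨hη.1, fun hint => hη.2 ?_⟩
  have hc : Continuous (fun x : ℝ => (θ, x)) := Continuous.prodMk continuous_const continuous_id
  exact mem_interior.2 ⟨(fun x : ℝ => (θ, x)) ⁻¹' interior E,
    fun x hx => interior_subset (s := E) hx, isOpen_interior.preimage hc, hint⟩

theorem fin_front (θ : ℝ) : (frontier (sl E θ)).Finite := (h.fin θ).subset (h.frontier_sl θ)

theorem leftEnds_sub (θ : ℝ) : leftEnds (sl E θ) ⊆ sl Z θ :=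
  (leftEnds_subset_frontier _).trans (h.frontier_sl θ)

theorem leftEnds_fin (θ : ℝ) : (leftEnds (sl E θ)).Finite := (h.fin θ).subset (h.leftEnds_sub θ)

/-- the points of `Z` over angles near `θ` are near the points of `Z` over `θ` -/
theorem near (θ : ℝ) {ε : ℝ} (hε : 0 < ε) :
    ∀ᶠ θ' in 𝓝 θ, ∀ ρ' ∈ sl Z θ', ∃ ρ ∈ sl Z θ, |ρ' - ρ| < ε := by
  obtain ⟨B, hB⟩ := h.bdd
  let U : Set (ℝ × ℝ) := {p | ∃ ρ ∈ sl Z θ, |p.2 - ρ| < ε}
  have hU : IsOpen U := by
    have : U = ⋃ ρ ∈ sl Z θ, {p : ℝ × ℝ | |p.2 - ρ| < ε} := by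
      ext p; simp [U]
    rw [this]
    exact isOpen_biUnion fun ρ _ => isOpen_lt (by fun_prop) continuous_const
  let K : Set (ℝ × ℝ) := (Z ∩ Icc (θ - 1) (θ + 1) ×ˢ Icc (-B) B) \ U
  have hK : IsCompact K :=
    ((isCompact_Icc.prod isCompact_Icc).inter_left h.closedZ).diff hU
  have himg : IsClosed (Prod.fst '' K) := (hK.image continuous_fst).isClosed
  have hnot : θ ∉ Prod.fst '' K := by
    rintro ⟨⟨a, b⟩, ⟨⟨hZ, _⟩, hnU⟩, rfl⟩
    exact hnU ⟨b, hZ, by simpa using hε⟩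
  filter_upwards [himg.isOpen_compl.mem_nhds hnot,
    Icc_mem_nhds (show θ - 1 < θ by linarith) (show θ < θ + 1 by linarith)] with θ' h1 h2
  intro ρ' hρ'
  by_contra hcon
  apply h1
  refine ⟨(θ', ρ'), ⟨⟨hρ', h2, ?_⟩, hcon⟩, rfl⟩
  have := hB _ (h.sub hρ')
  exact abs_le.1 this

/-- splitting the left ends into the groups near the points of `Z` over `θ` -/
theorem ncard_split (F : Finset ℝ) {ε : ℝ}
    (hsep : ∀ ρ ∈ F, ∀ ρ' ∈ F, ρ ≠ ρ' → 2 * ε ≤ |ρ - ρ'|) {θ' : ℝ}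
    (hnear : ∀ ρ' ∈ sl Z θ', ∃ ρ ∈ F, |ρ' - ρ| < ε) (W : Set ℝ) :
    (leftEnds (sl E θ') ∩ W).ncard =
      ∑ ρ ∈ F, (leftEnds (sl E θ') ∩ W ∩ Ioo (ρ - ε) (ρ + ε)).ncard := by
  classical
  have hfin : (leftEnds (sl E θ') ∩ W).Finite := (h.leftEnds_fin θ').subset inter_subset_left
  set L := hfin.toFinset with hL
  have h1 : (leftEnds (sl E θ') ∩ W).ncard = L.card := by
    rw [ncard_eq_toFinset_card _ hfin]
  have h2 : L = F.biUnion fun ρ => L.filter fun z => z ∈ Ioo (ρ - ε) (ρ + ε) := by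
    ext z
    simp only [Finset.mem_biUnion, Finset.mem_filter]
    constructor
    · intro hz
      obtain ⟨ρ, hρ, hd⟩ := hnear z (h.leftEnds_sub θ' ((hfin.mem_toFinset.1 hz).1))
      rw [abs_lt] at hd
      exact ⟨ρ, hρ, hz, by linarith [hd.1], by linarith [hd.2]⟩
    · rintro ⟨_, _, hz, _⟩
      exact hz
  rw [h1, h2, Finset.card_biUnion]
  · refine Finset.sum_congr rfl fun ρ _ => ?_
    rw [← ncard_coe_finset]
    congr 1
    ext z
    simp only [L, Finset.coe_filter, mem_ofPred_eq, hfin.mem_toFinset, mem_inter_iff]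
  · intro ρ hρ ρ' hρ' hne
    rw [Function.onFun, Finset.disjoint_left]
    intro z hz hz'
    simp only [Finset.mem_filter] at hz hz'
    have h3 := hsep ρ hρ ρ' hρ' hne
    have h4 : |ρ - ρ'| < 2 * ε := by
      rw [abs_lt]
      constructor
      · linarith [hz.2.1, hz.2.2, hz'.2.1, hz'.2.2]
      · linarith [hz.2.1, hz.2.2, hz'.2.1, hz'.2.2]
    linarith

omit h in
/-- a common small radius -/
theorem exists_eps (F : Finset ℝ) (P : ℝ → Prop) (hP : ∀ᶠ ε in 𝓝[>] (0 : ℝ), P ε)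
    (Q : ℝ → ℝ → Prop) (hQ : ∀ ρ ∈ F, ∀ᶠ ε in 𝓝[>] (0 : ℝ), Q ρ ε) (η0 : ℝ) :
    ∃ ε > 0, P ε ∧ (∀ ρ ∈ F, Q ρ ε) ∧ (∀ ρ ∈ F, ∀ ρ' ∈ F, ρ ≠ ρ' → 2 * ε ≤ |ρ - ρ'|) ∧
      ∀ ρ ∈ F, ρ ≠ η0 → 2 * ε ≤ |ρ - η0| := by
  have key : ∀ x y : ℝ, ∀ᶠ ε in 𝓝[>] (0 : ℝ), x ≠ y → 2 * ε ≤ |x - y| := by
    intro x y
    by_cases hxy : x = y
    · exact Eventually.of_forall fun _ h => absurd hxy h
    · have hpos : 0 < |x - y| / 2 := by
        have := abs_pos.2 (sub_ne_zero.2 hxy)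
        linarith
      filter_upwards [Ioo_mem_nhdsGT hpos] with ε hε _
      linarith [hε.2]
  have h1 : ∀ᶠ ε in 𝓝[>] (0 : ℝ), ∀ ρ ∈ F, Q ρ ε := (Finset.eventually_all F).2 hQ
  have h2 : ∀ᶠ ε in 𝓝[>] (0 : ℝ), ∀ ρ ∈ F, ∀ ρ' ∈ F, ρ ≠ ρ' → 2 * ε ≤ |ρ - ρ'| :=
    (Finset.eventually_all F).2 fun ρ _ => (Finset.eventually_all F).2 fun ρ' _ => key ρ ρ'
  have h3 : ∀ᶠ ε in 𝓝[>] (0 : ℝ), ∀ ρ ∈ F, ρ ≠ η0 → 2 * ε ≤ |ρ - η0| :=
    (Finset.eventually_all F).2 fun ρ _ => key ρ η0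
  obtain ⟨ε, ⟨⟨⟨hpε, hqε⟩, hs⟩, hs'⟩, hpos⟩ :=
    ((((hP.and h1).and h2).and h3).and self_mem_nhdsWithin).exists
  exact ⟨ε, hpos, hpε, hqε, hs, hs'⟩

/-- the number of left ends near `θ` -/
theorem ncard_near (θ : ℝ) (cL c0 cR : ℝ → ℕ)
    (hc : ∀ ρ ∈ sl Z θ, LocType E θ ρ (cL ρ) (c0 ρ) (cR ρ)) :
    ∀ᶠ θ' in 𝓝 θ, (leftEnds (sl E θ')).ncard =
      ∑ ρ ∈ (h.fin θ).toFinset, if θ' < θ then cL ρ else if θ' = θ then c0 ρ else cR ρ := by
  classical
  set F := (h.fin θ).toFinset with hF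
  obtain ⟨ε, hε, -, hQ, hsep, -⟩ := exists_eps F (fun _ => True) (Eventually.of_forall fun _ => trivial)
    (fun ρ ε => ∀ᶠ θ' in 𝓝 θ, (leftEnds (sl E θ') ∩ Ioo (ρ - ε) (ρ + ε)).ncard =
      if θ' < θ then cL ρ else if θ' = θ then c0 ρ else cR ρ) (fun ρ hρ => by
        obtain ⟨ε0, hε0, hloc⟩ := hc ρ ((h.fin θ).mem_toFinset.1 hρ)
        filter_upwards [Ioo_mem_nhdsGT hε0] with ε hε
        exact hloc ε hε.1 hε.2) 0
  filter_upwards [(Finset.eventually_all F).2 hQ, h.near θ hε] with θ' h1 h2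
  have h3 := h.ncard_split F hsep (θ' := θ') (fun ρ' hρ' => by
    obtain ⟨ρ, hρ, hd⟩ := h2 ρ' hρ'
    exact ⟨ρ, (h.fin θ).mem_toFinset.2 hρ, hd⟩) univ
  simp only [inter_univ] at h3
  rw [h3]
  exact Finset.sum_congr rfl fun ρ hρ => h1 ρ hρ

/-- near a left end over a regular angle there are left ends -/
theorem near_leftEnd {θ : ℝ} (hreg : RegAt E Z θ) {lo : ℝ} (hlo : lo ∈ leftEnds (sl E θ))
    {W : Set (ℝ × ℝ)} (hW : W ∈ 𝓝 (θ, lo)) :
    ∀ᶠ θ' in 𝓝 θ, ∃ z ∈ leftEnds (sl E θ'), (θ', z) ∈ W := by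
  obtain ⟨c, hc⟩ := hreg
  obtain ⟨ε0, hε0, hloc⟩ := hc lo (h.leftEnds_sub θ hlo)
  rw [nhds_prod_eq, mem_prod_iff] at hW
  obtain ⟨W1, hW1, W2, hW2, hsub⟩ := hW
  obtain ⟨r, hr, hball⟩ := Metric.mem_nhds_iff.1 hW2
  set ε := min r ε0 / 2 with hε
  have hm : 0 < min r ε0 := lt_min hr hε0
  have h1 := hloc ε (by positivity) (by have := min_le_right r ε0; rw [hε]; linarith)
  have h2 : 1 ≤ c lo := by
    have h3 := h1.self_of_nhds
    simp only [lt_irrefl, if_false, if_true] at h3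
    rw [← h3, Nat.one_le_iff_ne_zero]
    intro h0
    have := (ncard_eq_zero ((h.leftEnds_fin θ).subset inter_subset_left)).1 h0
    have hmem : lo ∈ leftEnds (sl E θ) ∩ Ioo (lo - ε) (lo + ε) :=
      ⟨hlo, by linarith [show 0 < ε by positivity], by linarith [show 0 < ε by positivity]⟩
    rw [this] at hmem
    exact hmem
  filter_upwards [h1, hW1] with θ' h3 h4
  have h5 : (leftEnds (sl E θ') ∩ Ioo (lo - ε) (lo + ε)).ncard = c lo := by
    rw [h3]; split_ifs <;> rfl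
  obtain ⟨z, hz⟩ : (leftEnds (sl E θ') ∩ Ioo (lo - ε) (lo + ε)).Nonempty := by
    apply nonempty_of_ncard_ne_zero
    omega
  refine ⟨z, hz.1, hsub ⟨h4, hball ?_⟩⟩
  rw [Metric.mem_ball, Real.dist_eq, abs_lt]
  have := min_le_left r ε0
  constructor
  · linarith [hz.2.1]
  · linarith [hz.2.2]

/-- the rank is locally constant over regular angles -/
theorem rk_locally_constant {θ η : ℝ} (hreg : RegAt E Z θ) (hE : (θ, η) ∈ E) :
    ∀ᶠ p in 𝓝[E] (θ, η), rk (sl E p.1) p.2 = rk (sl E θ) η := by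
  classical
  obtain ⟨c, hc⟩ := hreg
  set F := (h.fin θ).toFinset with hF
  obtain ⟨ε, hε, hP, hQ, hsep, hsep'⟩ := exists_eps F
    (fun ε => η ∈ leftEnds (sl E θ) → (θ, η - ε) ∉ E) (by
      by_cases hη : η ∈ leftEnds (sl E θ)
      · obtain ⟨_, ε', hε', hout⟩ := hη
        filter_upwards [Ioo_mem_nhdsGT hε'] with ε hε _
        exact hout (η - ε) ⟨by linarith [hε.2], by linarith [hε.1]⟩
      · exact Eventually.of_forall fun _ h => absurd h hη)
    (fun ρ ε => ∀ᶠ θ' in 𝓝 θ, (leftEnds (sl E θ') ∩ Ioo (ρ - ε) (ρ + ε)).ncard = c ρ)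
    (fun ρ hρ => by
        obtain ⟨ε0, hε0, hloc⟩ := hc ρ ((h.fin θ).mem_toFinset.1 hρ)
        filter_upwards [Ioo_mem_nhdsGT hε0] with ε hε
        filter_upwards [hloc ε hε.1 hε.2] with θ' hθ'
        rw [hθ']; split_ifs <;> rfl) η
  -- the value of the rank near `(θ, η)`
  have key : ∀ᶠ p in 𝓝[E] (θ, η), rk (sl E p.1) p.2 = ∑ ρ ∈ F, if ρ ≤ η then c ρ else 0 := by
    have hfst : Tendsto (Prod.fst : ℝ × ℝ → ℝ) (𝓝[E] (θ, η)) (𝓝 θ) :=
      (continuous_fst.tendsto ((θ, η) : ℝ × ℝ)).mono_left nhdsWithin_le_nhds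
    have hsnd : Tendsto (Prod.snd : ℝ × ℝ → ℝ) (𝓝[E] (θ, η)) (𝓝 η) :=
      (continuous_snd.tendsto ((θ, η) : ℝ × ℝ)).mono_left nhdsWithin_le_nhds
    have e1 : ∀ᶠ p in 𝓝[E] (θ, η), ∀ ρ ∈ F,
        (leftEnds (sl E p.1) ∩ Ioo (ρ - ε) (ρ + ε)).ncard = c ρ :=
      hfst.eventually ((Finset.eventually_all F).2 hQ)
    have e2 : ∀ᶠ p in 𝓝[E] (θ, η), ∀ ρ' ∈ sl Z p.1, ∃ ρ ∈ sl Z θ, |ρ' - ρ| < ε :=
      hfst.eventually (h.near θ hε)
    have e3 : ∀ᶠ p in 𝓝[E] (θ, η), |p.2 - η| < ε := by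
      have : ∀ᶠ y in 𝓝 η, |y - η| < ε := by
        filter_upwards [Metric.ball_mem_nhds η hε] with y hy
        rwa [Metric.mem_ball, Real.dist_eq] at hy
      exact hsnd.eventually this
    have e4 : ∀ᶠ p in 𝓝[E] (θ, η), η ∈ leftEnds (sl E θ) → (p.1, η - ε) ∉ E := by
      by_cases hη : η ∈ leftEnds (sl E θ)
      · have hopen : ∀ᶠ x in 𝓝 θ, (x, η - ε) ∉ E := by
          have hc : Continuous (fun x : ℝ => (x, η - ε)) :=
            Continuous.prodMk continuous_id continuous_const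
          exact (h.closedE.isOpen_compl.preimage hc).mem_nhds (hP hη)
        exact (hfst.eventually hopen).mono fun p hp _ => hp
      · exact Eventually.of_forall fun _ h => absurd h hη
    filter_upwards [e1, e2, e3, e4, self_mem_nhdsWithin] with p h1 h2 h3 h4 hpE
    rw [abs_lt] at h3
    unfold rk
    rw [h.ncard_split F hsep (θ' := p.1) (fun ρ' hρ' => by
      obtain ⟨ρ, hρ, hd⟩ := h2 ρ' hρ'
      exact ⟨ρ, (h.fin θ).mem_toFinset.2 hρ, hd⟩) (Iic p.2)]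
    refine Finset.sum_congr rfl fun ρ hρ => ?_
    rcases lt_trichotomy ρ η with hlt | heq | hgt
    · -- far to the left
      have hd := hsep' ρ hρ hlt.ne
      rw [abs_of_neg (by linarith)] at hd
      rw [if_pos hlt.le, ← h1 ρ hρ]
      congr 1
      ext z
      constructor
      · rintro ⟨⟨hz, _⟩, hz2⟩
        exact ⟨hz, hz2⟩
      · rintro ⟨hz, hz2⟩
        exact ⟨⟨hz, by rw [mem_Iic]; linarith [hz2.2, h3.1]⟩, hz2⟩
    · -- the point itself
      subst heq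
      rw [if_pos le_rfl]
      rcases Nat.eq_zero_or_pos (c ρ) with h0 | hpos
      · rw [h0]
        rw [ncard_eq_zero ((h.leftEnds_fin _).subset (inter_subset_left.trans inter_subset_left))]
        have h5 := h1 ρ hρ
        rw [h0, ncard_eq_zero ((h.leftEnds_fin _).subset inter_subset_left)] at h5
        ext z
        constructor
        · rintro ⟨⟨hz, _⟩, hz2⟩
          rw [← h5]; exact ⟨hz, hz2⟩
        · intro hz; exact absurd hz (notMem_empty z)
      · -- `ρ` is a left end over `θ` and `c ρ = 1`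
        have h5 := ((hQ ρ hρ).self_of_nhds)
        have hsub : leftEnds (sl E θ) ∩ Ioo (ρ - ε) (ρ + ε) ⊆ {ρ} := by
          rintro z ⟨hz, hz2⟩
          by_contra hne
          have hzF : z ∈ F := (h.fin θ).mem_toFinset.2 (h.leftEnds_sub θ hz)
          have := hsep z hzF ρ hρ hne
          have h6 : |z - ρ| < ε := by rw [abs_lt]; constructor <;> linarith [hz2.1, hz2.2]
          linarith
        have hc1 : c ρ = 1 := by
          have := ncard_le_ncard hsub (finite_singleton ρ)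
          rw [ncard_singleton, h5] at this
          omega
        have hρL : ρ ∈ leftEnds (sl E θ) := by
          obtain ⟨z, hz⟩ : (leftEnds (sl E θ) ∩ Ioo (ρ - ε) (ρ + ε)).Nonempty :=
            nonempty_of_ncard_ne_zero (by omega)
          have := hsub hz
          rw [mem_singleton_iff] at this
          rw [← this]; exact hz.1
        obtain ⟨z, hz, hz1, hz2, _⟩ := exists_leftEnd (h.closed_sl p.1) (h.fin_front p.1)
          (h4 hρL) (show p.2 ∈ sl E p.1 from hpE) (by linarith [h3.1])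
        have h6 := h1 ρ hρ
        rw [hc1] at h6 ⊢
        refine le_antisymm ?_ ?_
        · rw [← h6]
          exact ncard_le_ncard (by
            rintro w ⟨⟨hw, _⟩, hw2⟩
            exact ⟨hw, hw2⟩) ((h.leftEnds_fin _).subset inter_subset_left)
        · rw [Nat.one_le_iff_ne_zero]
          intro h0
          have h7 := (ncard_eq_zero ((h.leftEnds_fin p.1).subset
            (inter_subset_left.trans inter_subset_left))).1 h0
          have h8 : z ∈ leftEnds (sl E p.1) ∩ Iic p.2 ∩ Ioo (ρ - ε) (ρ + ε) :=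
            ⟨⟨hz, hz2⟩, hz1, by linarith [h3.2]⟩
          rw [h7] at h8
          exact h8
    · -- far to the right
      have hd := hsep' ρ hρ hgt.ne'
      rw [abs_of_pos (by linarith)] at hd
      rw [if_neg (not_le.2 hgt), ncard_eq_zero ((h.leftEnds_fin _).subset
        (inter_subset_left.trans inter_subset_left))]
      ext z
      constructor
      · rintro ⟨⟨_, hz⟩, hz2⟩
        rw [mem_Iic] at hz
        linarith [hz2.1, h3.2]
      · intro hz; exact absurd hz (notMem_empty z)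
  have h0 : rk (sl E θ) η = ∑ ρ ∈ F, if ρ ≤ η then c ρ else 0 :=
    key.self_of_nhdsWithin hE
  filter_upwards [key] with p hp
  rw [hp, h0]

end StripSet

end Pool.Agent.Rohlin
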