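import Mathlib

/-!
# Slit planes

`Slit c U R` is the plane minus the rays going upwards (in the direction `i - c`) from the points
of the finite set `U` of the upper half plane and the rays going downwards from the points of the
finite set `R` of the real axis.  It is open and contractible.
-/

set_option autoImplicit false

namespace Pool.Agent.Rohlin

open Complex Set Topology

/-- the linear coordinate which is constant on the slits -/
def lam (c : ℝ) (x : ℂ) : ℝ := x.re + c * x.im

lemma lam_ofReal (c r : ℝ) : lam c (r : ℂ) = r := by simp [lam]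

lemma continuous_lam (c : ℝ) : Continuous (lam c) := by
  unfold lam
  fun_prop

/-- the slit plane -/
def Slit (c : ℝ) (U : Finset ℂ) (R : Finset ℝ) : Set ℂ :=
  {x | (∀ b ∈ U, lam c x = lam c b → x.im < b.im) ∧ ∀ r ∈ R, lam c x = r → 0 < x.im}

variable {c : ℝ} {U : Finset ℂ} {R : Finset ℝ}

lemma mem_Slit {x : ℂ} : x ∈ Slit c U R ↔
    (∀ b ∈ U, lam c x = lam c b → x.im < b.im) ∧ ∀ r ∈ R, lam c x = r → 0 < x.im := Iff.rfl

lemma isOpen_Slit (c : ℝ) (U : Finset ℂ) (R : Finset ℝ) : IsOpen (Slit c U R) := by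
  have h1 : Slit c U R = (⋂ b ∈ U, {x : ℂ | lam c x = lam c b → x.im < b.im}) ∩
      ⋂ r ∈ R, {x : ℂ | lam c x = r → 0 < x.im} := by
    ext x
    simp [Slit]
  rw [h1]
  refine IsOpen.inter (isOpen_biInter_finset fun b _ => ?_) (isOpen_biInter_finset fun r _ => ?_)
  · have : {x : ℂ | lam c x = lam c b → x.im < b.im} =
        {x : ℂ | lam c x ≠ lam c b} ∪ {x : ℂ | x.im < b.im} := by
      ext x
      simp only [mem_ofPred_eq, mem_union]
      tauto
    rw [this]
    exact (isOpen_ne_fun (continuous_lam c) continuous_const).union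
      (isOpen_lt Complex.continuous_im continuous_const)
  · have : {x : ℂ | lam c x = r → 0 < x.im} =
        {x : ℂ | lam c x ≠ r} ∪ {x : ℂ | 0 < x.im} := by
      ext x
      simp only [mem_ofPred_eq, mem_union]
      tauto
    rw [this]
    exact (isOpen_ne_fun (continuous_lam c) continuous_const).union
      (isOpen_lt continuous_const Complex.continuous_im)

/-- move along the slits -/
def slide (c : ℝ) (t : ℝ) (x : ℂ) : ℂ := x + (t : ℂ) * (I - c)

@[simp] lemma im_slide (c t : ℝ) (x : ℂ) : (slide c t x).im = x.im + t := by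
  simp [slide]

@[simp] lemma lam_slide (c t : ℝ) (x : ℂ) : lam c (slide c t x) = lam c x := by
  simp [slide, lam]
  ring

/-- the point with given coordinates -/
def pt (c l t : ℝ) : ℂ := ⟨l - c * t, t⟩

@[simp] lemma im_pt (c l t : ℝ) : (pt c l t).im = t := rfl

@[simp] lemma lam_pt (c l t : ℝ) : lam c (pt c l t) = l := by simp [pt, lam]

lemma pt_lam (c : ℝ) (x : ℂ) : pt c (lam c x) x.im = x := by
  apply Complex.ext <;> simp [pt, lam]

lemma continuous_pt {X : Type*} [TopologicalSpace X] {l t : X → ℝ} (hl : Continuous l)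
    (ht : Continuous t) : Continuous fun x => pt c (l x) (t x) := by
  have : (fun x => pt c (l x) (t x)) = fun x => ((l x - c * t x : ℝ) : ℂ) + (t x : ℂ) * I := by
    funext x
    apply Complex.ext <;> simp [pt]
  rw [this]
  fun_prop

lemma pt_mem_Slit {l t : ℝ} : pt c l t ∈ Slit c U R ↔
    (∀ b ∈ U, l = lam c b → t < b.im) ∧ ∀ r ∈ R, l = r → 0 < t := by
  simp [mem_Slit]

lemma exists_height (hU : ∀ b ∈ U, 0 < b.im) : ∃ ε > 0, ∀ b ∈ U, ε < b.im := by
  classical
  by_cases hne : U.Nonempty
  · obtain ⟨b, hb, hmin⟩ := U.exists_min_image (fun b => b.im) hne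
    exact ⟨b.im / 2, by have := hU b hb; linarith, fun b' hb' => by
      have h1 := hmin b' hb'
      have h2 := hU b hb
      linarith⟩
  · exact ⟨1, one_pos, fun b hb => absurd ⟨b, hb⟩ hne⟩

/-- the slit plane is contractible -/
theorem contractibleSpace_Slit (hU : ∀ b ∈ U, 0 < b.im) : ContractibleSpace (Slit c U R) := by
  obtain ⟨ε, hε, hεU⟩ := exists_height hU
  have hmem : ∀ l : ℝ, pt c l ε ∈ Slit c U R := fun l =>
    pt_mem_Slit.2 ⟨fun b hb _ => hεU b hb, fun r _ _ => hε⟩
  refine (contractible_iff_id_nullhomotopic _).2 ⟨⟨pt c 0 ε, hmem 0⟩, ?_⟩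
  -- first slide to the height `ε`
  let r : C(Slit c U R, Slit c U R) :=
    ⟨fun x => ⟨pt c (lam c x.1) ε, hmem _⟩, by
      refine Continuous.subtype_mk ?_ _
      exact continuous_pt ((continuous_lam c).comp continuous_subtype_val) continuous_const⟩
  have h1 : (ContinuousMap.id (Slit c U R)).Homotopic r := by
    refine ⟨⟨⟨fun p => ⟨pt c (lam c p.2.1) ((1 - p.1.1) * p.2.1.im + p.1.1 * ε), ?_⟩, ?_⟩, ?_, ?_⟩⟩
    · have h0 := p.1.2.1
      have h1 := p.1.2.2
      obtain ⟨ha, hb⟩ := p.2.2
      refine pt_mem_Slit.2 ⟨fun b hbU hl => ?_, fun s hs hl => ?_⟩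
      · have e1 := ha b hbU hl
        have e2 := hεU b hbU
        rcases h0.eq_or_lt with h | h
        · rw [← h]; simpa using e1
        · nlinarith
      · have e1 := hb s hs hl
        rcases h0.eq_or_lt with h | h
        · rw [← h]; simpa using e1
        · nlinarith
    · refine Continuous.subtype_mk ?_ _
      refine continuous_pt ((continuous_lam c).comp
        (continuous_subtype_val.comp continuous_snd)) ?_
      have := Complex.continuous_im
      fun_prop
    · intro x
      apply Subtype.ext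
      show pt c (lam c x.1) ((1 - ((0 : unitInterval) : ℝ)) * x.1.im +
        ((0 : unitInterval) : ℝ) * ε) = x.1
      simp [pt_lam]
    · intro x
      apply Subtype.ext
      show pt c (lam c x.1) ((1 - ((1 : unitInterval) : ℝ)) * x.1.im +
        ((1 : unitInterval) : ℝ) * ε) = pt c (lam c x.1) ε
      simp
  have h2 : r.Homotopic (ContinuousMap.const _ ⟨pt c 0 ε, hmem 0⟩) := by
    refine ⟨⟨⟨fun p => ⟨pt c ((1 - p.1.1) * lam c p.2.1) ε, hmem _⟩, ?_⟩, ?_, ?_⟩⟩
    · refine Continuous.subtype_mk ?_ _
      refine continuous_pt ?_ continuous_const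
      have := continuous_lam c
      fun_prop
    · intro x
      apply Subtype.ext
      show pt c ((1 - ((0 : unitInterval) : ℝ)) * lam c x.1) ε = pt c (lam c x.1) ε
      simp
    · intro x
      apply Subtype.ext
      show pt c ((1 - ((1 : unitInterval) : ℝ)) * lam c x.1) ε = pt c 0 ε
      simp
  exact h1.trans h2

theorem isSimplyConnected_Slit (hU : ∀ b ∈ U, 0 < b.im) : IsSimplyConnected (Slit c U R) := by
  have := contractibleSpace_Slit (c := c) (R := R) hU
  exact SimplyConnectedSpace.ofContractible _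

end Pool.Agent.Rohlin
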