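import Pool.Agent.Rohlin.Spin

/-!
# Crossing the slit of an interior branch point (abstract form)
-/

set_option autoImplicit false

namespace Pool.Agent.Rohlin

open Matrix Set Topology Filter

/-! ### continuous selections -/

/-- a continuous selection from finitely many continuous functions with different values is one
of them. -/
theorem select {X : Type*} [TopologicalSpace X] [T2Space X] {ι : Type*} [Finite ι] {T : Set ℂ}
    (hT : IsPreconnected T) (hne : T.Nonempty) (u : ℂ → X) (hu : ContinuousOn u T)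
    (y : ι → ℂ → X) (hy : ∀ j, ContinuousOn (y j) T)
    (hinj : ∀ w ∈ T, Function.Injective fun j => y j w) (hex : ∀ w ∈ T, ∃ j, u w = y j w) :
    ∃ j, ∀ w ∈ T, u w = y j w := by
  classical
  have hps : PreconnectedSpace T := isPreconnected_iff_preconnectedSpace.mp hT
  obtain ⟨w0, hw0⟩ := hne
  obtain ⟨j, hj⟩ := hex w0 hw0
  have hclosed : ∀ i, IsClosed {w : T | u w = y i w} := fun i =>
    isClosed_eq (continuousOn_iff_continuous_domRestrict.mp hu)
      (continuousOn_iff_continuous_domRestrict.mp (hy i))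
  have hcompl : {w : T | u w = y j w}ᶜ = ⋃ i : {i // i ≠ j}, {w : T | u w = y i.1 w} := by
    ext w
    simp only [mem_compl_iff, mem_ofPred_eq, mem_iUnion]
    constructor
    · intro h
      obtain ⟨i, hi⟩ := hex w.1 w.2
      exact ⟨⟨i, fun h' => h (by rw [← h', hi])⟩, hi⟩
    · rintro ⟨i, hi⟩ h
      exact i.2 (hinj w.1 w.2 (hi.symm.trans h))
  have hopen : IsOpen {w : T | u w = y j w} := by
    rw [← isClosed_compl_iff, hcompl]
    exact isClosed_iUnion_of_finite fun i => hclosed i.1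
  have huniv := IsClopen.eq_univ ⟨hclosed j, hopen⟩ ⟨⟨w0, hw0⟩, hj⟩
  refine ⟨j, fun w hw => ?_⟩
  have : (⟨w, hw⟩ : T) ∈ {w : T | u w = y j w} := by rw [huniv]; trivial
  exact this

/-- a limit along a dense part which takes finitely many values is a limit. -/
theorem limit_select {X : Type*} [MetricSpace X] {S S' : Set ℂ} (hS : Convex ℝ S)
    (hS' : S' ⊆ S) (hdense : S ⊆ closure S') {δ : ℝ} (hδ : 0 < δ) (u : ℂ → X)
    (hu : ContinuousOn u (S ∩ Metric.ball 0 δ)) (V : Finset X)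
    (hV : ∀ ε > 0, ∀ᶠ t in 𝓝[S'] 0, ∃ v ∈ V, dist (u t) v < ε) (v0 : X)
    (G : Filter ℂ) [G.NeBot] (hG : G ≤ 𝓝[S] 0) (hlim : Tendsto u G (𝓝 v0)) :
    Tendsto u (𝓝[S] 0) (𝓝 v0) := by
  classical
  -- separation of the values
  obtain ⟨ρ, hρ, hsep⟩ : ∃ ρ > 0, ∀ v ∈ V, v ≠ v0 → ρ ≤ dist v v0 := by
    rcases (V.erase v0).eq_empty_or_nonempty with h | h
    · refine ⟨1, one_pos, fun v hv hne => ?_⟩
      have : v ∈ V.erase v0 := Finset.mem_erase.mpr ⟨hne, hv⟩
      rw [h] at this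
      exact absurd this (Finset.notMem_empty _)
    · obtain ⟨v1, hv1, hmin⟩ := Finset.exists_min_image (V.erase v0) (fun v => dist v v0) h
      refine ⟨dist v1 v0, dist_pos.mpr (Finset.mem_erase.mp hv1).1, fun v hv hne => ?_⟩
      exact hmin v (Finset.mem_erase.mpr ⟨hne, hv⟩)
  rw [Metric.tendsto_nhds]
  intro ε hε
  set r := min (ε / 2) (ρ / 4) with hr
  have hr0 : 0 < r := lt_min (by linarith) (by linarith)
  have h1 := hV r hr0
  rw [eventually_nhdsWithin_iff, Metric.eventually_nhds_iff_ball] at h1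
  obtain ⟨δ1, hδ1, hball⟩ := h1
  set d := min δ δ1 with hd
  have hd0 : 0 < d := lt_min hδ hδ1
  set T := S ∩ Metric.ball 0 d with hT
  have hTpre : IsPreconnected T := (hS.inter (convex_ball 0 d)).isPreconnected
  have hTu : ContinuousOn u T := hu.mono (inter_subset_inter_right _
    (Metric.ball_subset_ball (min_le_left _ _)))
  -- on `T` the values are in the closed balls
  have hcl : ∀ t ∈ T, ∃ v ∈ V, dist (u t) v ≤ r := by
    intro t ht
    have h2 : t ∈ closure (S' ∩ Metric.ball 0 d) := by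
      rw [mem_closure_iff_nhds]
      intro N hN
      have h3 := mem_closure_iff_nhds.mp (hdense ht.1) (N ∩ Metric.ball 0 d)
        (inter_mem hN (Metric.isOpen_ball.mem_nhds ht.2))
      obtain ⟨q, ⟨hq1, hq2⟩, hq3⟩ := h3
      exact ⟨q, hq1, hq3, hq2⟩
    have h3 : S' ∩ Metric.ball 0 d ⊆ T := inter_subset_inter_left _ hS'
    have h4 : MapsTo u (S' ∩ Metric.ball 0 d) (⋃ v ∈ V, Metric.closedBall v r) := by
      intro q hq
      obtain ⟨v, hv, hvq⟩ := hball q (Metric.ball_subset_ball (min_le_right _ _) hq.2) hq.1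
      exact mem_biUnion hv (Metric.mem_closedBall.mpr hvq.le)
    have h5 : ContinuousWithinAt u (S' ∩ Metric.ball 0 d) t := (hTu t ht).mono h3
    have h6 := h5.mem_closure h2 h4
    have h7 : IsClosed (⋃ v ∈ V, Metric.closedBall v r) :=
      isClosed_biUnion_finset fun v _ => Metric.isClosed_closedBall
    rw [h7.closure_eq] at h6
    simpa using h6
  -- the preimages of the ball of `v0` and of the rest
  have hsplit : ∀ t ∈ T, dist (u t) v0 ≤ r ∨ ρ / 2 ≤ dist (u t) v0 := by
    intro t ht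
    obtain ⟨v, hv, hvt⟩ := hcl t ht
    by_cases h : v = v0
    · left; rw [← h]; exact hvt
    · right
      have h2 := hsep v hv h
      have h3 := dist_triangle v (u t) v0
      rw [dist_comm v (u t)] at h3
      have h4 : r ≤ ρ / 4 := min_le_right _ _
      linarith
  obtain ⟨t0, ht0T, ht0⟩ : ∃ t0 ∈ T, dist (u t0) v0 ≤ r := by
    have h2 : ∀ᶠ t in G, dist (u t) v0 < r := (Metric.tendsto_nhds.mp hlim) r hr0
    have h3 : ∀ᶠ t in G, t ∈ T := by
      apply hG
      rw [hT]
      exact inter_mem self_mem_nhdsWithin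
        (mem_nhdsWithin_of_mem_nhds (Metric.ball_mem_nhds 0 hd0))
    obtain ⟨t, h4, h5⟩ := (h2.and h3).exists
    exact ⟨t, h5, h4.le⟩
  have hall : ∀ t ∈ T, dist (u t) v0 ≤ r := by
    intro t ht
    by_contra hcon
    push Not at hcon
    have h2 : ρ / 2 ≤ dist (u t) v0 := (hsplit t ht).resolve_left (not_le.mpr hcon)
    have h3 : ContinuousOn (fun t => dist (u t) v0) T :=
      (continuous_id.dist (continuous_const (y := v0))).comp_continuousOn hTu
    have hρr : r < ρ / 2 := lt_of_le_of_lt (min_le_right _ _) (by linarith)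
    obtain ⟨q, hq, hq2⟩ := hTpre.intermediate_value ht0T ht h3
      (show (r + ρ / 2) / 2 ∈ Icc (dist (u t0) v0) (dist (u t) v0) from
        ⟨by linarith, by linarith⟩)
    have hq3 : dist (u q) v0 = (r + ρ / 2) / 2 := hq2
    rcases hsplit q hq with h4 | h4 <;> rw [hq3] at h4 <;> linarith
  have hmem : T ∈ 𝓝[S] (0 : ℂ) := by
    rw [hT]
    exact inter_mem self_mem_nhdsWithin (mem_nhdsWithin_of_mem_nhds (Metric.ball_mem_nhds 0 hd0))
  filter_upwards [hmem] with t ht
  exact lt_of_le_of_lt (hall t ht) (lt_of_le_of_lt (min_le_left _ _) (by linarith))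

/-! ### the coordinate `t` and the sector -/

/-- `φ t = z + t ^ 2 * (c - z)` -/
noncomputable def phi (c z t : ℂ) : ℂ := z + t ^ 2 * (c - z)

theorem phi_neg (c z t : ℂ) : phi c z (-t) = phi c z t := by simp [phi]

theorem continuous_phi (c z : ℂ) : Continuous (phi c z) := by unfold phi; fun_prop

theorem sc_phi {c z : ℂ} (h : c ≠ z) (t : ℂ) : sc c z (phi c z t) = t ^ 2 := by
  have : c - z ≠ 0 := sub_ne_zero.mpr h
  rw [sc, phi]
  field_simp
  ring

theorem im_sq (t : ℂ) : (t ^ 2).im = 2 * t.re * t.im := by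
  rw [sq, Complex.mul_im]; ring

/-- the sector around the positive imaginary axis -/
def SK (β : ℝ) : Set ℂ := {t | 0 < t.im ∧ |t.re| < β * t.im}

theorem convex_SK (β : ℝ) : Convex ℝ (SK β) := by
  intro x hx y hy a b ha hb hab
  obtain ⟨hx1, hx2⟩ := hx
  obtain ⟨hy1, hy2⟩ := hy
  rw [abs_lt] at hx2 hy2
  have h1 : (a • x + b • y).im = a * x.im + b * y.im := by simp
  have h2 : (a • x + b • y).re = a * x.re + b * y.re := by simp
  refine ⟨?_, ?_⟩
  · rw [h1]
    rcases ha.eq_or_lt with h | h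
    · have : b = 1 := by linarith
      rw [← h, this]; simpa using hy1
    · nlinarith
  · rw [h1, h2, abs_lt]
    rcases ha.eq_or_lt with h | h
    · have hb1 : b = 1 := by linarith
      rw [← h, hb1]
      constructor <;> linarith [hy2.1, hy2.2]
    · constructor
      · nlinarith [mul_lt_mul_of_pos_left hx2.1 h, mul_le_mul_of_nonneg_left hy2.1.le hb]
      · nlinarith [mul_lt_mul_of_pos_left hx2.2 h, mul_le_mul_of_nonneg_left hy2.2.le hb]

theorem SK_subset (β : ℝ) : SK β ⊆ Complex.slitPlane := by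
  intro t ht
  rw [Complex.mem_slitPlane_iff]
  exact Or.inr ht.1.ne'

theorem right_subset : {t : ℂ | 0 < t.re} ⊆ Complex.slitPlane := by
  intro t ht
  rw [Complex.mem_slitPlane_iff]
  exact Or.inl ht

theorem convex_right : Convex ℝ {t : ℂ | 0 < t.re} := by
  intro x hx y hy a b ha hb hab
  have h1 : (a • x + b • y).re = a * x.re + b * y.re := by simp
  change 0 < (a • x + b • y).re
  rw [h1]
  have hx' : 0 < x.re := hx
  have hy' : 0 < y.re := hy
  rcases ha.eq_or_lt with h | h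
  · have : b = 1 := by linarith
    rw [← h, this]; simpa using hy'
  · nlinarith

/-- right and left parts of the sector -/
def SKp (β : ℝ) : Set ℂ := {t | t ∈ SK β ∧ 0 < t.re}
/-- right and left parts of the sector -/
def SKm (β : ℝ) : Set ℂ := {t | t ∈ SK β ∧ t.re < 0}

theorem seq_tendsto (x : ℝ) :
    Tendsto (fun j : ℕ => (((1 : ℝ) / (j + 1) : ℝ) : ℂ) * (⟨x, 1⟩ : ℂ)) atTop (𝓝 0) := by
  have h1 : Tendsto (fun j : ℕ => (((1 : ℝ) / (j + 1) : ℝ) : ℂ)) atTop (𝓝 ((0 : ℝ) : ℂ)) :=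
    (Complex.continuous_ofReal.tendsto _).comp tendsto_one_div_add_atTop_nhds_zero_nat
  have := h1.mul_const (⟨x, 1⟩ : ℂ)
  simpa using this

theorem neBot_SKp {β : ℝ} (hβ : 0 < β) : (𝓝[SKp β] (0 : ℂ)).NeBot := by
  rw [← mem_closure_iff_nhdsWithin_neBot]
  refine mem_closure_of_tendsto (seq_tendsto (β / 2)) (Eventually.of_forall fun j => ?_)
  have hj : (0 : ℝ) < 1 / (j + 1) := by positivity
  refine ⟨⟨?_, ?_⟩, ?_⟩
  · simp only [Complex.mul_im, Complex.ofReal_re, Complex.ofReal_im]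
    linarith
  · simp only [Complex.mul_im, Complex.mul_re, Complex.ofReal_re, Complex.ofReal_im]
    rw [abs_lt]
    constructor <;> nlinarith
  · simp only [Complex.mul_re, Complex.ofReal_re, Complex.ofReal_im]
    nlinarith

theorem neBot_SKm {β : ℝ} (hβ : 0 < β) : (𝓝[SKm β] (0 : ℂ)).NeBot := by
  rw [← mem_closure_iff_nhdsWithin_neBot]
  refine mem_closure_of_tendsto (seq_tendsto (-(β / 2))) (Eventually.of_forall fun j => ?_)
  have hj : (0 : ℝ) < 1 / (j + 1) := by positivity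
  refine ⟨⟨?_, ?_⟩, ?_⟩
  · simp only [Complex.mul_im, Complex.ofReal_re, Complex.ofReal_im]
    linarith
  · simp only [Complex.mul_im, Complex.mul_re, Complex.ofReal_re, Complex.ofReal_im]
    rw [abs_lt]
    constructor <;> nlinarith
  · simp only [Complex.mul_re, Complex.ofReal_re, Complex.ofReal_im]
    nlinarith

theorem SK_subset_closure {β : ℝ} (hβ : 0 < β) : SK β ⊆ closure (SKp β ∪ SKm β) := by
  intro t ht
  rcases lt_trichotomy t.re 0 with h | h | h
  · exact subset_closure (Or.inr ⟨ht, h⟩)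
  · have h1 : Tendsto (fun j : ℕ => t + (((1 : ℝ) / (j + 1) * (β * t.im) / 2 : ℝ) : ℂ)) atTop
        (𝓝 t) := by
      have h2 : Tendsto (fun j : ℕ => (((1 : ℝ) / (j + 1) * (β * t.im) / 2 : ℝ) : ℂ)) atTop
          (𝓝 (((0 : ℝ) * (β * t.im) / 2 : ℝ) : ℂ)) :=
        (Complex.continuous_ofReal.tendsto _).comp
          ((tendsto_one_div_add_atTop_nhds_zero_nat.mul_const _).div_const _)
      have := (tendsto_const_nhds (x := t)).add h2
      simpa using this
    refine mem_closure_of_tendsto h1 (Eventually.of_forall fun j => Or.inl ?_)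
    have hj : (0 : ℝ) < 1 / (j + 1) := by positivity
    have hj1 : (1 : ℝ) / (j + 1) ≤ 1 := by
      rw [div_le_one (by positivity)]
      have : (0 : ℝ) ≤ j := Nat.cast_nonneg j
      linarith
    have hb : 0 < β * t.im := mul_pos hβ ht.1
    refine ⟨⟨?_, ?_⟩, ?_⟩
    · simpa using ht.1
    · simp only [Complex.add_re, Complex.add_im, Complex.ofReal_re, Complex.ofReal_im, h, zero_add,
        add_zero]
      rw [abs_lt]
      constructor <;> nlinarith
    · simp only [Complex.add_re, Complex.ofReal_re, h, zero_add]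
      positivity
  · exact subset_closure (Or.inl ⟨ht, h⟩)

/-! ### powers of `t` and `-t` -/

theorem cpow_of_neg {t : ℂ} (ht : 0 < t.im) (α : ℂ) :
    t ^ α = Complex.exp (Real.pi * Complex.I * α) * (-t) ^ α := by
  have h0 : t ≠ 0 := by
    rintro rfl
    simp at ht
  rw [Complex.cpow_def_of_ne_zero h0, Complex.cpow_def_of_ne_zero (neg_ne_zero.mpr h0),
    ← Complex.exp_add]
  congr 1
  have h1 : Complex.log t = Complex.log (-t) + Real.pi * Complex.I := by
    rw [Complex.log, Complex.log, norm_neg, Complex.arg_neg_eq_arg_sub_pi_of_im_pos ht]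
    push_cast
    ring
  rw [h1]
  ring

theorem rt_of_neg {t : ℂ} (ht : 0 < t.im) : rt t = Complex.I * rt (-t) := by
  rw [rt, cpow_of_neg ht]
  have : (Real.pi * Complex.I * (1 / 2) : ℂ) = Real.pi / 2 * Complex.I := by ring
  rw [this, Complex.exp_pi_div_two_mul_I]
  rfl

theorem qt_of_neg {t : ℂ} (ht : 0 < t.im) :
    LocalData.qt t = Complex.exp (Real.pi * Complex.I / 4) * LocalData.qt (-t) := by
  rw [LocalData.qt, cpow_of_neg ht]
  have : (Real.pi * Complex.I * (1 / 4) : ℂ) = Real.pi * Complex.I / 4 := by ring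
  rw [this]
  rfl

/-! ### the crossing -/

theorem Frame.exists_label {m : ℕ} {F : Family m} {D : Set ℂ} (fr : Frame F D) {w x : ℂ}
    (hw : w ∈ D) (h : (F.P w).eval x = 0) : ∃ j, x = fr.y j w := by
  rw [fr.P_eq hw, Polynomial.eval_prod, Finset.prod_eq_zero_iff] at h
  obtain ⟨j, -, hj⟩ := h
  rw [Polynomial.eval_sub, Polynomial.eval_X, Polynomial.eval_C] at hj
  exact ⟨j, sub_eq_zero.mp hj⟩

/-- two continuous functions with the same square agree up to a constant sign -/
theorem select_sign {T : Set ℂ} (hT : IsPreconnected T) (hne : T.Nonempty) (u v : ℂ → ℂ)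
    (hu : ContinuousOn u T) (hv : ContinuousOn v T) (hv0 : ∀ w ∈ T, v w ≠ 0)
    (h : ∀ w ∈ T, u w ^ 2 = v w ^ 2) : (∀ w ∈ T, u w = v w) ∨ (∀ w ∈ T, u w = -v w) := by
  obtain ⟨j, hj⟩ := select hT hne u hu (fun j : Bool => fun w => if j then v w else -v w)
    (by
      intro j
      cases j
      · simp only [Bool.false_eq_true, if_false]
        exact hv.neg
      · simp only [if_true]
        exact hv)
    (by
      intro w hw i j hij
      cases i <;> cases j <;> simp at hij ⊢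
      · exact absurd (by linear_combination (-1 / 2 : ℂ) * hij) (hv0 w hw)
      · exact absurd (by linear_combination (1 / 2 : ℂ) * hij) (hv0 w hw))
    (by
      intro w hw
      rcases sq_eq_sq_iff_eq_or_eq_neg.mp (h w hw) with h1 | h1
      · exact ⟨true, by simpa using h1⟩
      · exact ⟨false, by simpa using h1⟩)
  cases j
  · right; intro w hw; simpa using hj w hw
  · left; intro w hw; simpa using hj w hw

/-- the hypotheses of the crossing theorem -/
structure CrossHyp {k : ℕ} {F : Family (2 * (k + 1))} {D0 K : Set ℂ} (fr : Frame F D0)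
    (fr' : Frame F K) (c z : ℂ) (D : LocalData (k + 1)) (β : ℝ) : Prop where
  hcz : c ≠ z
  hβ : 0 < β
  Kconv : Convex ℝ K
  KD : ∀ w ∈ K, (sc c z w).im ≠ 0 → w ∈ D0
  phiD : ∀ᶠ t in 𝓝 (0 : ℂ), 0 < t.re → phi c z t ∈ D0
  phiK : ∀ᶠ t in 𝓝 (0 : ℂ), t ∈ SK β → phi c z t ∈ K
  holds : D.Holds {t | 0 < t.re} (fun i t => fr.y i (phi c z t)) (fun i t => fr.s i (phi c z t))
  root : ∀ᶠ t in 𝓝 (0 : ℂ), (F.P (phi c z t)).eval (D.Y t) = 0
  der : ∀ᶠ t in 𝓝 (0 : ℂ), (F.P (phi c z t)).derivative.eval (D.Y t) = t * D.H t ^ 2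
  contY : ∀ᶠ t in 𝓝 (0 : ℂ), ContinuousAt D.Y t
  contH : ∀ᶠ t in 𝓝 (0 : ℂ), ContinuousAt D.H t
  agree : ∀ w ∈ K, 0 < (sc c z w).im → ∀ i, fr'.y i w = fr.y i w ∧ fr'.s i w = fr.s i w

namespace CrossHyp

variable {k : ℕ} {F : Family (2 * (k + 1))} {D0 K : Set ℂ} {fr : Frame F D0}
  {fr' : Frame F K} {c z : ℂ} {D : LocalData (k + 1)} {β : ℝ} (h : CrossHyp fr fr' c z D β)

include h in
/-- a radius for all local facts. -/
theorem exists_radius : ∃ δ > 0, ∀ t : ℂ, ‖t‖ < δ →
    (0 < t.re → phi c z t ∈ D0) ∧ (t ∈ SK β → phi c z t ∈ K) ∧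
    (F.P (phi c z t)).eval (D.Y t) = 0 ∧
    (F.P (phi c z t)).derivative.eval (D.Y t) = t * D.H t ^ 2 ∧
    ContinuousAt D.Y t ∧ ContinuousAt D.H t ∧ D.H t ≠ 0 ∧
    (0 < t.re → fr.y D.a (phi c z t) = D.Y t ∧ fr.y D.b (phi c z t) = D.Y (-t) ∧
      fr.s D.a (phi c z t) = rt t * D.H t ∧
      fr.s D.b (phi c z t) = D.ε * Complex.I * rt t * D.H (-t)) := by
  have h1 := eventually_nhdsWithin_iff.mp h.holds.root_a
  have h2 := eventually_nhdsWithin_iff.mp h.holds.root_b
  have h3 := eventually_nhdsWithin_iff.mp h.holds.sq_a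
  have h4 := eventually_nhdsWithin_iff.mp h.holds.sq_b
  have h5 : ∀ᶠ t in 𝓝 (0 : ℂ), D.H t ≠ 0 := D.hH.eventually_ne D.hH0
  have hall := ((((((((((h.phiD.and h.phiK).and h.root).and h.der).and h.contY).and
    h.contH).and h5).and h1).and h2).and h3).and h4)
  rw [Metric.eventually_nhds_iff] at hall
  obtain ⟨δ, hδ, hb⟩ := hall
  refine ⟨δ, hδ, fun t ht => ?_⟩
  obtain ⟨⟨⟨⟨⟨⟨⟨⟨⟨⟨g1, g2⟩, g3⟩, g4⟩, g5⟩, g6⟩, g7⟩, g8⟩, g9⟩, g10⟩, g11⟩ :=
    hb (show dist t 0 < δ by rwa [dist_zero_right])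
  exact ⟨g1, g2, g3, g4, g5, g6, g7, fun hr => ⟨g8 hr, g9 hr, g10 hr, g11 hr⟩⟩

include h in
/-- the local formulas for the frame `fr'` on the sector. -/
theorem local_K : ∃ δ > 0, ∀ t : ℂ, ‖t‖ < δ → t ∈ SK β →
    fr'.y D.a (phi c z t) = D.Y t ∧ fr'.y D.b (phi c z t) = D.Y (-t) ∧
    fr'.s D.a (phi c z t) = rt t * D.H t ∧
    fr'.s D.b (phi c z t) = D.ε * Complex.I * rt t * D.H (-t) := by
  obtain ⟨δ, hδ, hr⟩ := h.exists_radius
  set T := SK β ∩ Metric.ball 0 δ with hT
  have hTpre : IsPreconnected T := ((convex_SK β).inter (convex_ball 0 δ)).isPreconnected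
  have hnb := neBot_SKp h.hβ
  obtain ⟨t1, ht1, ht1b⟩ : ∃ t1, t1 ∈ SKp β ∧ ‖t1‖ < δ := by
    have h1 : ∀ᶠ t in 𝓝[SKp β] (0 : ℂ), t ∈ SKp β ∧ ‖t‖ < δ := by
      filter_upwards [self_mem_nhdsWithin,
        mem_nhdsWithin_of_mem_nhds (Metric.ball_mem_nhds (0 : ℂ) hδ)] with t ht ht2
      exact ⟨ht, by simpa using ht2⟩
    exact h1.exists
  have ht1T : t1 ∈ T := ⟨ht1.1, by simpa using ht1b⟩
  have hnorm : ∀ t ∈ T, ‖t‖ < δ := fun t ht => by simpa using ht.2
  have hnormn : ∀ t ∈ T, ‖-t‖ < δ := fun t ht => by rw [norm_neg]; exact hnorm t ht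
  have hphiK : MapsTo (phi c z) T K := fun t ht => (hr t (hnorm t ht)).2.1 ht.1
  have hcy : ∀ i, ContinuousOn (fun t => fr'.y i (phi c z t)) T := fun i =>
    (fr'.contY i).comp (continuous_phi c z).continuousOn hphiK
  have hcs : ∀ i, ContinuousOn (fun t => fr'.s i (phi c z t)) T := fun i =>
    (fr'.contS i).comp (continuous_phi c z).continuousOn hphiK
  have hY : ContinuousOn D.Y T := fun t ht =>
    (hr t (hnorm t ht)).2.2.2.2.1.continuousWithinAt
  have hYn : ContinuousOn (fun t => D.Y (-t)) T := fun t ht => by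
    have h1 := (hr (-t) (hnormn t ht)).2.2.2.2.1
    exact (ContinuousAt.comp (g := D.Y) (f := fun t : ℂ => -t) h1
      continuousAt_neg).continuousWithinAt
  have hH : ContinuousOn D.H T := fun t ht =>
    (hr t (hnorm t ht)).2.2.2.2.2.1.continuousWithinAt
  have hHn : ContinuousOn (fun t => D.H (-t)) T := fun t ht => by
    have h1 := (hr (-t) (hnormn t ht)).2.2.2.2.2.1
    exact (ContinuousAt.comp (g := D.H) (f := fun t : ℂ => -t) h1
      continuousAt_neg).continuousWithinAt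
  have hrt : ContinuousOn rt T := fun t ht =>
    (continuousAt_cpow_const (SK_subset β ht.1)).continuousWithinAt
  have ht1D := (hr t1 ht1b).2.2.2.2.2.2.2 ht1.2
  have hag := h.agree (phi c z t1) (hphiK ht1T) (by
    rw [sc_phi h.hcz, im_sq]
    have h1 := ht1.2
    have h2 := ht1.1.1
    positivity)
  have hinj : ∀ w ∈ T, Function.Injective fun j => fr'.y j (phi c z w) := fun w hw =>
    fr'.inj _ (hphiK hw)
  -- the roots
  have ha : ∀ t ∈ T, D.Y t = fr'.y D.a (phi c z t) := by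
    obtain ⟨j, hj⟩ := select hTpre ⟨t1, ht1T⟩ D.Y hY (fun j t => fr'.y j (phi c z t)) hcy hinj
      (fun w hw => fr'.exists_label (hphiK hw) (hr w (hnorm w hw)).2.2.1)
    have h1 : fr'.y j (phi c z t1) = fr'.y D.a (phi c z t1) := by
      rw [← hj t1 ht1T, (hag D.a).1, ht1D.1]
    have h2 : j = D.a := hinj t1 ht1T h1
    rw [← h2]; exact hj
  have hb : ∀ t ∈ T, D.Y (-t) = fr'.y D.b (phi c z t) := by
    obtain ⟨j, hj⟩ := select hTpre ⟨t1, ht1T⟩ (fun t => D.Y (-t)) hYn
      (fun j t => fr'.y j (phi c z t)) hcy hinj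
      (fun w hw => fr'.exists_label (hphiK hw) (by
        have := (hr (-w) (hnormn w hw)).2.2.1
        rwa [phi_neg] at this))
    have h1 : fr'.y j (phi c z t1) = fr'.y D.b (phi c z t1) := by
      rw [← hj t1 ht1T, (hag D.b).1, ht1D.2.1]
    have h2 : j = D.b := hinj t1 ht1T h1
    rw [← h2]; exact hj
  -- the square roots
  have hsa : ∀ t ∈ T, rt t * D.H t = fr'.s D.a (phi c z t) := by
    have h1 := select_sign hTpre ⟨t1, ht1T⟩ (fun t => rt t * D.H t)
      (fun t => fr'.s D.a (phi c z t)) (hrt.mul hH) (hcs _)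
      (fun w hw => fr'.s_ne_zero (hphiK hw) _) (fun w hw => by
        rw [fr'.sq _ (hphiK hw), ← ha w hw, (hr w (hnorm w hw)).2.2.2.1, mul_pow, sq (rt w),
          rt_mul_rt])
    rcases h1 with h1 | h1
    · exact h1
    · exfalso
      have h2 := h1 t1 ht1T
      rw [(hag D.a).2, ht1D.2.2.1] at h2
      have h3 : fr.s D.a (phi c z t1) ≠ 0 :=
        fr.s_ne_zero ((hr t1 ht1b).1 ht1.2) _
      rw [ht1D.2.2.1] at h3
      exact h3 (by linear_combination (1 / 2 : ℂ) * h2)
  have hsb : ∀ t ∈ T, D.ε * Complex.I * rt t * D.H (-t) = fr'.s D.b (phi c z t) := by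
    have h1 := select_sign hTpre ⟨t1, ht1T⟩ (fun t => D.ε * Complex.I * rt t * D.H (-t))
      (fun t => fr'.s D.b (phi c z t)) ((continuousOn_const.mul hrt).mul hHn) (hcs _)
      (fun w hw => fr'.s_ne_zero (hphiK hw) _) (fun w hw => by
        have h5 := (hr (-w) (hnormn w hw)).2.2.2.1
        rw [phi_neg] at h5
        rw [fr'.sq _ (hphiK hw), ← hb w hw, h5]
        have h6 := rt_mul_rt w
        have h7 := D.ε_sq
        linear_combination (Complex.I ^ 2 * rt w ^ 2 * D.H (-w) ^ 2) * h7 +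
          (rt w ^ 2 * D.H (-w) ^ 2) * Complex.I_sq - D.H (-w) ^ 2 * h6)
    rcases h1 with h1 | h1
    · exact h1
    · exfalso
      have h2 := h1 t1 ht1T
      rw [(hag D.b).2, ht1D.2.2.2] at h2
      have h3 : fr.s D.b (phi c z t1) ≠ 0 :=
        fr.s_ne_zero ((hr t1 ht1b).1 ht1.2) _
      rw [ht1D.2.2.2] at h3
      exact h3 (by linear_combination (1 / 2 : ℂ) * h2)
  refine ⟨δ, hδ, fun t ht hts => ?_⟩
  have htT : t ∈ T := ⟨hts, by simpa using ht⟩
  exact ⟨(ha t htT).symm, (hb t htT).symm, (hsa t htT).symm, (hsb t htT).symm⟩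

/-- the part of `K` behind the slit -/
def Km (K : Set ℂ) (c z : ℂ) : Set ℂ := {w | w ∈ K ∧ (sc c z w).im < 0}

include h in
theorem convex_Km : Convex ℝ (Km K c z) := by
  intro x hx y hy a b ha hb hab
  refine ⟨h.Kconv hx.1 hy.1 ha hb hab, ?_⟩
  have hcz : c - z ≠ 0 := sub_ne_zero.mpr h.hcz
  have h1 : sc c z (a • x + b • y) = a • sc c z x + b • sc c z y := by
    have h2 : (a : ℂ) + b = 1 := by exact_mod_cast hab
    simp only [sc, Complex.real_smul]
    field_simp
    linear_combination z * h2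
  rw [h1]
  have h3 : (a • sc c z x + b • sc c z y).im = a * (sc c z x).im + b * (sc c z y).im := by simp
  rw [h3]
  have hx2 := hx.2
  have hy2 := hy.2
  rcases ha.eq_or_lt with h4 | h4
  · have : b = 1 := by linarith
    rw [← h4, this]; simpa using hy2
  · nlinarith

include h in
theorem Km_subset : Km K c z ⊆ D0 := fun w hw => h.KD w hw.1 hw.2.ne

include h in
theorem ev_SKm : ∀ᶠ t in 𝓝[SKm β] (0 : ℂ), phi c z t ∈ Km K c z := by
  have h1 : ∀ᶠ t in 𝓝[SKm β] (0 : ℂ), t ∈ SK β → phi c z t ∈ K :=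
    h.phiK.filter_mono nhdsWithin_le_nhds
  filter_upwards [h1, self_mem_nhdsWithin] with t ht hs
  refine ⟨ht hs.1, ?_⟩
  rw [sc_phi h.hcz, im_sq]
  have h2 := hs.2
  have h3 := hs.1.1
  nlinarith

theorem tendsto_neg_SKm : Tendsto (fun t : ℂ => -t) (𝓝[SKm β] 0) (𝓝[{t : ℂ | 0 < t.re}] 0) := by
  rw [tendsto_nhdsWithin_iff]
  constructor
  · have : Tendsto (fun t : ℂ => -t) (𝓝 0) (𝓝 (-0)) := continuous_neg.tendsto 0
    rw [neg_zero] at this
    exact this.mono_left nhdsWithin_le_nhds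
  · filter_upwards [self_mem_nhdsWithin] with t ht
    have h1 : 0 < (-t).re := by
      rw [Complex.neg_re]
      linarith [ht.2]
    exact h1

theorem tendsto_id_SKp : Tendsto (fun t : ℂ => t) (𝓝[SKp β] 0) (𝓝[{t : ℂ | 0 < t.re}] 0) := by
  rw [tendsto_nhdsWithin_iff]
  exact ⟨nhdsWithin_le_nhds, by filter_upwards [self_mem_nhdsWithin] with t ht using ht.2⟩

/-- limits of functions of `w` along the left part of the sector -/
theorem tendsto_SKm_of_right {X : Type*} [TopologicalSpace X] {f : ℂ → X} {x : X}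
    (hf : Tendsto (fun t => f (phi c z t)) (𝓝[{t : ℂ | 0 < t.re}] 0) (𝓝 x)) :
    Tendsto (fun t => f (phi c z t)) (𝓝[SKm β] 0) (𝓝 x) := by
  have := hf.comp (tendsto_neg_SKm (β := β))
  refine this.congr fun t => ?_
  simp only [Function.comp, phi_neg]

include h in
/-- on the left part of the sector the frames `fr'` and `fr` are related. -/
theorem local_Km : ∀ᶠ t in 𝓝[SKm β] (0 : ℂ),
    fr'.y D.a (phi c z t) = fr.y D.b (phi c z t) ∧
    fr'.y D.b (phi c z t) = fr.y D.a (phi c z t) ∧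
    fr.s D.b (phi c z t) = D.ε * fr'.s D.a (phi c z t) ∧
    fr.s D.a (phi c z t) = -D.ε * fr'.s D.b (phi c z t) := by
  obtain ⟨δ, hδ, hr⟩ := h.exists_radius
  obtain ⟨δ', hδ', hr'⟩ := h.local_K
  filter_upwards [self_mem_nhdsWithin, mem_nhdsWithin_of_mem_nhds (Metric.ball_mem_nhds (0 : ℂ) hδ),
    mem_nhdsWithin_of_mem_nhds (Metric.ball_mem_nhds (0 : ℂ) hδ')] with t ht h1 h2
  have h1' : ‖-t‖ < δ := by rw [norm_neg]; simpa using h1
  have h2' : ‖t‖ < δ' := by simpa using h2
  obtain ⟨g1, g2, g3, g4⟩ := hr' t h2' ht.1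
  have hre : 0 < (-t).re := by rw [Complex.neg_re]; linarith [ht.2]
  obtain ⟨f1, f2, f3, f4⟩ := (hr (-t) h1').2.2.2.2.2.2.2 hre
  rw [phi_neg, neg_neg] at *
  have hrt := rt_of_neg ht.1.1
  have hε := D.ε_sq
  refine ⟨by rw [g1, f2], by rw [g2, f1], ?_, ?_⟩
  · rw [f4, g3, hrt]; ring
  · rw [f3, g4, hrt]
    linear_combination (rt (-t) * D.H (-t) * Complex.I ^ 2) * hε +
      (rt (-t) * D.H (-t)) * Complex.I_sq

include h in
/-- **Labels behind the slit.** -/
theorem labels : ∀ w ∈ Km K c z, fr.y D.a w = fr'.y D.b w ∧ fr.y D.b w = fr'.y D.a w ∧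
    ∀ i, i ≠ D.a → i ≠ D.b → fr.y i w = fr'.y i w := by
  have hnb := neBot_SKm h.hβ
  have hnbp := neBot_SKp h.hβ
  obtain ⟨t0, ht0K, ht0⟩ := (h.ev_SKm.and h.local_Km).exists
  have hKmpre : IsPreconnected (Km K c z) := h.convex_Km.isPreconnected
  have hKmK : Km K c z ⊆ K := fun w hw => hw.1
  have hsel : ∀ i, ∃ j, ∀ w ∈ Km K c z, fr'.y i w = fr.y j w := fun i =>
    select hKmpre ⟨_, ht0K⟩ (fr'.y i) ((fr'.contY i).mono hKmK) (fun j => fr.y j)
      (fun j => (fr.contY j).mono h.Km_subset) (fun w hw => fr.inj w (h.Km_subset hw))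
      (fun w hw => fr.exists_label (h.Km_subset hw) (fr'.root w hw.1 i))
  choose π hπ using hsel
  have hπa : π D.a = D.b := by
    apply fr.inj _ (h.Km_subset ht0K)
    change fr.y (π D.a) _ = fr.y D.b _
    rw [← hπ D.a _ ht0K, ht0.1]
  have hπb : π D.b = D.a := by
    apply fr.inj _ (h.Km_subset ht0K)
    change fr.y (π D.b) _ = fr.y D.a _
    rw [← hπ D.b _ ht0K, ht0.2.1]
  have hπinj : Function.Injective π := by
    intro i j hij
    apply fr'.inj _ ht0K.1
    change fr'.y i _ = fr'.y j _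
    rw [hπ i _ ht0K, hπ j _ ht0K, hij]
  have hπi : ∀ i, i ≠ D.a → i ≠ D.b → π i = i := by
    intro i hia hib
    have hja : π i ≠ D.a := fun h' => hib (hπinj (h'.trans hπb.symm))
    have hjb : π i ≠ D.b := fun h' => hia (hπinj (h'.trans hπa.symm))
    have hlimp : Tendsto (fun t => fr'.y i (phi c z t)) (𝓝[SKp β] 0) (𝓝 (D.y i)) := by
      have h1 := (h.holds.root_other i hia hib).comp (tendsto_id_SKp (β := β))
      refine h1.congr' ?_
      have h2 : ∀ᶠ t in 𝓝[SKp β] (0 : ℂ), t ∈ SK β → phi c z t ∈ K :=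
        h.phiK.filter_mono nhdsWithin_le_nhds
      filter_upwards [h2, self_mem_nhdsWithin] with t ht hs
      refine ((h.agree _ (ht hs.1) ?_ i).1).symm
      rw [sc_phi h.hcz, im_sq]
      have h3 := hs.2
      have h4 := hs.1.1
      positivity
    have hlimm : Tendsto (fun t => fr'.y i (phi c z t)) (𝓝[SKm β] 0) (𝓝 (D.y (π i))) := by
      have h1 := tendsto_SKm_of_right (β := β) (f := fr.y (π i)) (c := c) (z := z)
        (h.holds.root_other (π i) hja hjb)
      refine h1.congr' ?_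
      filter_upwards [h.ev_SKm] with t ht
      exact (hπ i _ ht).symm
    obtain ⟨δ, hδ, hr⟩ := h.exists_radius
    have hlim : Tendsto (fun t => fr'.y i (phi c z t)) (𝓝[SK β] 0) (𝓝 (D.y i)) := by
      refine limit_select (convex_SK β) (S' := SKp β ∪ SKm β)
        (by rintro t (ht | ht); exacts [ht.1, ht.1]) (SK_subset_closure h.hβ) hδ _ ?_
        {D.y i, D.y (π i)} ?_ (D.y i) (𝓝[SKp β] 0)
        (nhdsWithin_mono _ fun t ht => ht.1) hlimp
      · refine (fr'.contY i).comp (continuous_phi c z).continuousOn fun t ht => ?_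
        exact (hr t (by simpa using ht.2)).2.1 ht.1
      · intro ε hε
        rw [nhdsWithin_union, eventually_sup]
        constructor
        · filter_upwards [(Metric.tendsto_nhds.mp hlimp) ε hε] with t ht
          exact ⟨_, Finset.mem_insert_self _ _, ht⟩
        · filter_upwards [(Metric.tendsto_nhds.mp hlimm) ε hε] with t ht
          exact ⟨_, Finset.mem_insert_of_mem (Finset.mem_singleton_self _), ht⟩
    have h5 : D.y i = D.y (π i) :=
      tendsto_nhds_unique (hlim.mono_left (nhdsWithin_mono _ fun t ht => ht.1)) hlimm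
    by_contra hne
    exact D.hinj i (π i) hia hib hja hjb (Ne.symm hne) h5
  intro w hw
  refine ⟨?_, ?_, fun i hia hib => ?_⟩
  · rw [hπ D.b w hw, hπb]
  · rw [hπ D.a w hw, hπa]
  · rw [hπ i w hw, hπi i hia hib]

include h in
/-- the other roots converge along the sector. -/
theorem root_other_SK (i : Fin (2 * (k + 1))) (hia : i ≠ D.a) (hib : i ≠ D.b) :
    Tendsto (fun t => fr'.y i (phi c z t)) (𝓝[SK β] 0) (𝓝 (D.y i)) := by
  have hnbp := neBot_SKp h.hβ
  have hlimp : Tendsto (fun t => fr'.y i (phi c z t)) (𝓝[SKp β] 0) (𝓝 (D.y i)) := by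
    have h1 := (h.holds.root_other i hia hib).comp (tendsto_id_SKp (β := β))
    refine h1.congr' ?_
    have h2 : ∀ᶠ t in 𝓝[SKp β] (0 : ℂ), t ∈ SK β → phi c z t ∈ K :=
      h.phiK.filter_mono nhdsWithin_le_nhds
    filter_upwards [h2, self_mem_nhdsWithin] with t ht hs
    refine ((h.agree _ (ht hs.1) ?_ i).1).symm
    rw [sc_phi h.hcz, im_sq]
    have h3 := hs.2
    have h4 := hs.1.1
    positivity
  have hlimm : Tendsto (fun t => fr'.y i (phi c z t)) (𝓝[SKm β] 0) (𝓝 (D.y i)) := by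
    have h1 := tendsto_SKm_of_right (β := β) (f := fr.y i) (c := c) (z := z)
      (h.holds.root_other i hia hib)
    refine h1.congr' ?_
    filter_upwards [h.ev_SKm] with t ht
    exact (h.labels _ ht).2.2 i hia hib
  obtain ⟨δ, hδ, hr⟩ := h.exists_radius
  refine limit_select (convex_SK β) (S' := SKp β ∪ SKm β)
    (by rintro t (ht | ht); exacts [ht.1, ht.1]) (SK_subset_closure h.hβ) hδ _ ?_
    {D.y i} ?_ (D.y i) (𝓝[SKp β] 0)
    (nhdsWithin_mono _ fun t ht => ht.1) hlimp
  · refine (fr'.contY i).comp (continuous_phi c z).continuousOn fun t ht => ?_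
    exact (hr t (by simpa using ht.2)).2.1 ht.1
  · intro ε hε
    rw [nhdsWithin_union, eventually_sup]
    constructor
    · filter_upwards [(Metric.tendsto_nhds.mp hlimp) ε hε] with t ht
      exact ⟨_, Finset.mem_singleton_self _, ht⟩
    · filter_upwards [(Metric.tendsto_nhds.mp hlimm) ε hε] with t ht
      exact ⟨_, Finset.mem_singleton_self _, ht⟩

include h in
/-- the other square roots: limits along the sector and equality behind the slit. -/
theorem sq_other_SK (i : Fin (2 * (k + 1))) (hia : i ≠ D.a) (hib : i ≠ D.b) :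
    Tendsto (fun t => fr'.s i (phi c z t)) (𝓝[SK β] 0) (𝓝 (D.s i)) ∧
      ∀ w ∈ Km K c z, fr.s i w = fr'.s i w := by
  have hnb := neBot_SKm h.hβ
  have hnbp := neBot_SKp h.hβ
  obtain ⟨t0, ht0K⟩ := h.ev_SKm.exists
  have hlimp : Tendsto (fun t => fr'.s i (phi c z t)) (𝓝[SKp β] 0) (𝓝 (D.s i)) := by
    have h1 := (h.holds.sq_other i hia hib).comp (tendsto_id_SKp (β := β))
    refine h1.congr' ?_
    have h2 : ∀ᶠ t in 𝓝[SKp β] (0 : ℂ), t ∈ SK β → phi c z t ∈ K :=
      h.phiK.filter_mono nhdsWithin_le_nhds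
    filter_upwards [h2, self_mem_nhdsWithin] with t ht hs
    refine ((h.agree _ (ht hs.1) ?_ i).2).symm
    rw [sc_phi h.hcz, im_sq]
    have h3 := hs.2
    have h4 := hs.1.1
    positivity
  have hsign := select_sign h.convex_Km.isPreconnected ⟨_, ht0K⟩ (fr'.s i) (fr.s i)
    ((fr'.contS i).mono fun w hw => hw.1) ((fr.contS i).mono h.Km_subset)
    (fun w hw => fr.s_ne_zero (h.Km_subset hw) i) (fun w hw => by
      rw [fr'.sq w hw.1, fr.sq w (h.Km_subset hw), (h.labels w hw).2.2 i hia hib])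
  have hlimr := tendsto_SKm_of_right (β := β) (f := fr.s i) (c := c) (z := z)
    (h.holds.sq_other i hia hib)
  obtain ⟨δ, hδ, hr⟩ := h.exists_radius
  have hlim : ∀ σ : ℂ, Tendsto (fun t => fr'.s i (phi c z t)) (𝓝[SKm β] 0) (𝓝 (σ * D.s i)) →
      Tendsto (fun t => fr'.s i (phi c z t)) (𝓝[SK β] 0) (𝓝 (D.s i)) := by
    intro σ hlimm
    refine limit_select (convex_SK β) (S' := SKp β ∪ SKm β)
      (by rintro t (ht | ht); exacts [ht.1, ht.1]) (SK_subset_closure h.hβ) hδ _ ?_
      {D.s i, σ * D.s i} ?_ (D.s i) (𝓝[SKp β] 0)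
      (nhdsWithin_mono _ fun t ht => ht.1) hlimp
    · refine (fr'.contS i).comp (continuous_phi c z).continuousOn fun t ht => ?_
      exact (hr t (by simpa using ht.2)).2.1 ht.1
    · intro ε hε
      rw [nhdsWithin_union, eventually_sup]
      constructor
      · filter_upwards [(Metric.tendsto_nhds.mp hlimp) ε hε] with t ht
        exact ⟨_, Finset.mem_insert_self _ _, ht⟩
      · filter_upwards [(Metric.tendsto_nhds.mp hlimm) ε hε] with t ht
        exact ⟨_, Finset.mem_insert_of_mem (Finset.mem_singleton_self _), ht⟩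
  rcases hsign with hs | hs
  · refine ⟨hlim 1 ?_, fun w hw => (hs w hw).symm⟩
    rw [one_mul]
    refine hlimr.congr' ?_
    filter_upwards [h.ev_SKm] with t ht
    exact (hs _ ht).symm
  · exfalso
    have h1 : Tendsto (fun t => fr'.s i (phi c z t)) (𝓝[SKm β] 0) (𝓝 (-1 * D.s i)) := by
      rw [neg_one_mul]
      refine hlimr.neg.congr' ?_
      filter_upwards [h.ev_SKm] with t ht
      exact (hs _ ht).symm
    have h2 := (hlim _ h1).mono_left (nhdsWithin_mono (0 : ℂ) fun t (ht : t ∈ SKm β) => ht.1)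
    have h3 := tendsto_nhds_unique h2 h1
    exact D.hs0 i hia hib (by linear_combination (1 / 2 : ℂ) * h3)

include h in
/-- the colliding square roots behind the slit. -/
theorem sq_ab : ∀ w ∈ Km K c z, fr.s D.b w = D.ε * fr'.s D.a w ∧
    fr.s D.a w = -D.ε * fr'.s D.b w := by
  have hnb := neBot_SKm h.hβ
  obtain ⟨t0, ht0K, ht0⟩ := (h.ev_SKm.and h.local_Km).exists
  have hpre := h.convex_Km.isPreconnected
  have hK : Km K c z ⊆ K := fun w hw => hw.1
  have hε := D.ε_sq
  have hε0 := D.ε_ne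
  have h1 := select_sign hpre ⟨_, ht0K⟩ (fr.s D.b) (fun w => D.ε * fr'.s D.a w)
    ((fr.contS _).mono h.Km_subset) (continuousOn_const.mul ((fr'.contS _).mono hK))
    (fun w hw => mul_ne_zero hε0 (fr'.s_ne_zero (hK hw) _)) (fun w hw => by
      rw [mul_pow, hε, one_mul, fr'.sq w (hK hw), fr.sq w (h.Km_subset hw),
        (h.labels w hw).2.1])
  have h2 := select_sign hpre ⟨_, ht0K⟩ (fr.s D.a) (fun w => -D.ε * fr'.s D.b w)
    ((fr.contS _).mono h.Km_subset) (continuousOn_const.mul ((fr'.contS _).mono hK))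
    (fun w hw => mul_ne_zero (neg_ne_zero.mpr hε0) (fr'.s_ne_zero (hK hw) _)) (fun w hw => by
      rw [mul_pow, neg_sq, hε, one_mul, fr'.sq w (hK hw), fr.sq w (h.Km_subset hw),
        (h.labels w hw).1])
  intro w hw
  constructor
  · rcases h1 with h1 | h1
    · exact h1 w hw
    · exfalso
      have h3 := h1 _ ht0K
      have h4 := ht0.2.2.1
      have h5 := fr.s_ne_zero (h.Km_subset ht0K) D.b
      exact h5 (by linear_combination (1 / 2 : ℂ) * h3 + (1 / 2 : ℂ) * h4)
  · rcases h2 with h2 | h2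
    · exact h2 w hw
    · exfalso
      have h3 := h2 _ ht0K
      have h4 := ht0.2.2.2
      have h5 := fr.s_ne_zero (h.Km_subset ht0K) D.a
      exact h5 (by linear_combination (1 / 2 : ℂ) * h3 + (1 / 2 : ℂ) * h4)

include h in
/-- the frame `fr'` has the local form on the sector. -/
theorem holds_SK : D.Holds (SK β) (fun i t => fr'.y i (phi c z t))
    (fun i t => fr'.s i (phi c z t)) := by
  obtain ⟨δ, hδ, hr⟩ := h.local_K
  have hev : ∀ᶠ t in 𝓝[SK β] (0 : ℂ), fr'.y D.a (phi c z t) = D.Y t ∧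
      fr'.y D.b (phi c z t) = D.Y (-t) ∧ fr'.s D.a (phi c z t) = rt t * D.H t ∧
      fr'.s D.b (phi c z t) = D.ε * Complex.I * rt t * D.H (-t) := by
    filter_upwards [self_mem_nhdsWithin,
      mem_nhdsWithin_of_mem_nhds (Metric.ball_mem_nhds (0 : ℂ) hδ)] with t ht h1
    exact hr t (by simpa using h1) ht
  exact ⟨hev.mono fun t ht => ht.1, hev.mono fun t ht => ht.2.1, hev.mono fun t ht => ht.2.2.1,
    hev.mono fun t ht => ht.2.2.2, h.root_other_SK, fun i h1 h2 => (h.sq_other_SK i h1 h2).1⟩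

include h in
/-- the frame vectors behind the slit. -/
theorem v_rho {w : ℂ} (hw : w ∈ Km K c z) (j : Fin (k + 1)) :
    fr'.v (k + 1) w j = rho D.a D.b D.ε (fr.v (k + 1) w j) := by
  have hε := D.ε_sq
  have hε0 := D.ε_ne
  obtain ⟨l1, l2, l3⟩ := h.labels w hw
  obtain ⟨s1, s2⟩ := h.sq_ab w hw
  have ha0 := fr'.s_ne_zero hw.1 D.a
  have hb0 := fr'.s_ne_zero hw.1 D.b
  funext i
  by_cases hib : i = D.b
  · rw [hib, rho, Function.update_self, fr'.v_apply, fr.v_apply, l1, s2]
    field_simp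
  · by_cases hia : i = D.a
    · rw [hia, rho, Function.update_of_ne D.hab, Function.update_self, fr'.v_apply, fr.v_apply,
        l2, s1]
      field_simp
    · rw [rho, Function.update_of_ne hib, Function.update_of_ne hia, fr'.v_apply, fr.v_apply,
        l3 i hia hib, (h.sq_other_SK i hia hib).2 w hw]

include h in
/-- **Crossing the slit**: the spinor behind the slit. -/
theorem spinor {n : Type} [Fintype n] [DecidableEq n] [Nonempty n]
    (M : Majorana (2 * (k + 1)) n) (C : Matrix n n ℂ) (hCC : Cᴴ * C = 1)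
    (hC : ∀ a, C * M.e a = (-1 : ℂ) ^ (k + 1) • ((M.e a)ᵀ * C)) (L L' : ℂ → n → ℂ)
    (hL : ContinuousOn L D0) (hL0 : ∀ w ∈ D0, L w ≠ 0)
    (hLL : ∀ w ∈ D0, C * M.R (fr.v (k + 1) w) = vecMulVec (L w) (L w))
    (hL' : ContinuousOn L' K)
    (hLL' : ∀ w ∈ K, C * M.R (fr'.v (k + 1) w) = vecMulVec (L' w) (L' w))
    (hag : ∀ w ∈ K, 0 < (sc c z w).im → L' w = L w) :
    ∀ w ∈ Km K c z, L w = L' w ᵥ* Bfac M D.a D.b D.ε := by
  have hnb := neBot_SKm h.hβ
  have hnbp := neBot_SKp h.hβ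
  have hnbr : (𝓝[{t : ℂ | 0 < t.re}] (0 : ℂ)).NeBot := by
    refine hnbp.mono (nhdsWithin_mono _ fun t ht => ht.2)
  have hnbK : (𝓝[SK β] (0 : ℂ)).NeBot := hnbp.mono (nhdsWithin_mono _ fun t ht => ht.1)
  obtain ⟨δ, hδ, hr⟩ := h.exists_radius
  have hε : D.ε ^ 2 = 1 := D.ε_sq
  -- the limit along the right half plane
  have hevD : ∀ᶠ t in 𝓝[{t : ℂ | 0 < t.re}] (0 : ℂ), phi c z t ∈ D0 := by
    filter_upwards [self_mem_nhdsWithin,
      mem_nhdsWithin_of_mem_nhds (Metric.ball_mem_nhds (0 : ℂ) hδ)] with t ht h1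
    exact (hr t (by simpa using h1)).1 ht
  have hevK : ∀ᶠ t in 𝓝[SK β] (0 : ℂ), phi c z t ∈ K := by
    filter_upwards [self_mem_nhdsWithin,
      mem_nhdsWithin_of_mem_nhds (Metric.ball_mem_nhds (0 : ℂ) hδ)] with t ht h1
    exact (hr t (by simpa using h1)).2.1 ht
  have hisoD : ∀ᶠ t in 𝓝[{t : ℂ | 0 < t.re}] (0 : ℂ), ∀ i j,
      frameVec (fun i t => fr.y i (phi c z t)) (fun i t => fr.s i (phi c z t)) t i ⬝ᵥ
      frameVec (fun i t => fr.y i (phi c z t)) (fun i t => fr.s i (phi c z t)) t j = 0 := by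
    filter_upwards [hevD] with t ht i j
    exact fr.v_iso (k := k + 1) le_rfl ht i j
  have hisoK : ∀ᶠ t in 𝓝[SK β] (0 : ℂ), ∀ i j,
      frameVec (fun i t => fr'.y i (phi c z t)) (fun i t => fr'.s i (phi c z t)) t i ⬝ᵥ
      frameVec (fun i t => fr'.y i (phi c z t)) (fun i t => fr'.s i (phi c z t)) t j = 0 := by
    filter_upwards [hevK] with t ht i j
    exact fr'.v_iso (k := k + 1) le_rfl ht i j
  obtain ⟨l, hl0, hl, hll⟩ := D.exists_lambda M right_subset h.holds hisoD convex_right C hCC hδ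
    (fun t => L (phi c z t)) (by
      refine hL.comp (continuous_phi c z).continuousOn fun t ht => ?_
      exact (hr t (by simpa using ht.2)).1 ht.1) (by
      filter_upwards [hevD] with t ht
      exact hLL _ ht)
  obtain ⟨l', hl'0, hl', hll'⟩ := D.exists_lambda M (SK_subset β) h.holds_SK hisoK (convex_SK β)
    C hCC hδ (fun t => L' (phi c z t)) (by
      refine hL'.comp (continuous_phi c z).continuousOn fun t ht => ?_
      exact (hr t (by simpa using ht.2)).2.1 ht.1) (by
      filter_upwards [hevK] with t ht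
      exact hLL' _ ht)
  -- the two limits agree
  have hle : l' = l := by
    have h1 := hl.comp (tendsto_id_SKp (β := β))
    have h2 := hl'.mono_left (nhdsWithin_mono (0 : ℂ) fun t (ht : t ∈ SKp β) => ht.1)
    refine tendsto_nhds_unique h2 (h1.congr' ?_)
    have h3 := hevK.filter_mono (nhdsWithin_mono (0 : ℂ) fun t (ht : t ∈ SKp β) => ht.1)
    filter_upwards [h3, self_mem_nhdsWithin] with t ht hs
    simp only [Function.comp]
    rw [hag _ ht]
    rw [sc_phi h.hcz, im_sq]
    have h3 := hs.2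
    have h4 := hs.1.1
    positivity
  rw [hle] at hl'
  have hB := D.lambda_Bfac M right_subset h.holds hisoD C l hll
  -- the relation up to sign
  have hform : ∀ w ∈ Km K c z, vecMulVec (L w) (L w) =
      vecMulVec (L' w ᵥ* Bfac M D.a D.b D.ε) (L' w ᵥ* Bfac M D.a D.b D.ε) := by
    intro w hw
    have hεε : ((-1 : ℂ) ^ (k + 1)) * (-1) ^ (k + 1) = 1 := by
      rw [← pow_add]; exact Even.neg_one_pow ⟨k + 1, rfl⟩
    have h1 := form_rho M C hεε hC D.hab hε (fr.v (k + 1) w)
    have h2 : (fun j => rho D.a D.b D.ε (fr.v (k + 1) w j)) = fr'.v (k + 1) w := by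
      funext j
      exact (h.v_rho hw j).symm
    rw [h2, hLL w (h.Km_subset hw), hLL' w hw.1, Matrix.mul_vecMulVec, Matrix.vecMulVec_mul,
      Matrix.mulVec_transpose] at h1
    exact h1
  obtain ⟨t0, ht0K⟩ := h.ev_SKm.exists
  have hcB : ContinuousOn (fun w => L' w ᵥ* Bfac M D.a D.b D.ε) (Km K c z) := by
    have h1 : Continuous fun x : n → ℂ => x ᵥ* Bfac M D.a D.b D.ε := by
      unfold Matrix.vecMul
      fun_prop
    exact h1.comp_continuousOn (hL'.mono fun w hw => hw.1)
  have hB0 : ∀ w ∈ Km K c z, L' w ᵥ* Bfac M D.a D.b D.ε ≠ 0 := by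
    intro w hw h0
    apply hL0 w (h.Km_subset hw)
    have h1 := hform w hw
    rw [h0] at h1
    funext i
    have h2 := congrFun (congrFun h1 i) i
    simpa [Matrix.vecMulVec_apply] using h2
  have hsel := select h.convex_Km.isPreconnected ⟨_, ht0K⟩ L (hL.mono h.Km_subset)
    (fun j : Bool => fun w => if j then L' w ᵥ* Bfac M D.a D.b D.ε
      else -(L' w ᵥ* Bfac M D.a D.b D.ε)) (by
      intro j
      cases j
      · simp only [Bool.false_eq_true, if_false]
        exact hcB.neg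
      · simp only [if_true]
        exact hcB) (by
      intro w hw i j hij
      have h1 : ∀ x : n → ℂ, x ≠ 0 → x ≠ -x := by
        intro x hx h2
        apply hx
        funext i
        have h3 := congrFun h2 i
        simp only [Pi.neg_apply] at h3
        simp only [Pi.zero_apply]
        linear_combination (1 / 2 : ℂ) * h3
      cases i <;> cases j <;> simp at hij ⊢
      · exact h1 _ (hB0 w hw) hij.symm
      · exact h1 _ (hB0 w hw) hij) (by
      intro w hw
      rcases eq_or_eq_neg_of_vecMulVec (hform w hw) with h1 | h1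
      · exact ⟨true, by simpa using h1⟩
      · exact ⟨false, by simpa using h1⟩)
  obtain ⟨j, hj⟩ := hsel
  -- the sign
  have h1 : Tendsto (fun t => LocalData.qt (-t) • L (phi c z t)) (𝓝[SKm β] 0) (𝓝 l) := by
    refine (hl.comp (tendsto_neg_SKm (β := β))).congr fun t => ?_
    simp only [Function.comp, phi_neg]
  have h2 : Tendsto (fun t => LocalData.qt (-t) • (L' (phi c z t) ᵥ* Bfac M D.a D.b D.ε))
      (𝓝[SKm β] 0) (𝓝 l) := by
    have h3 : Tendsto (fun t => (LocalData.qt t • L' (phi c z t)) ᵥ* Bfac M D.a D.b D.ε)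
        (𝓝[SKm β] 0) (𝓝 (l ᵥ* Bfac M D.a D.b D.ε)) := by
      have h4 : Continuous fun x : n → ℂ => x ᵥ* Bfac M D.a D.b D.ε := by
        unfold Matrix.vecMul
        fun_prop
      exact (h4.tendsto l).comp
        (hl'.mono_left (nhdsWithin_mono (0 : ℂ) fun t (ht : t ∈ SKm β) => ht.1))
    rw [hB] at h3
    have h5 := h3.const_smul (Complex.exp (Real.pi * Complex.I / 4))⁻¹
    rw [smul_smul, inv_mul_cancel₀ (Complex.exp_ne_zero _), one_smul] at h5
    refine h5.congr' ?_
    filter_upwards [self_mem_nhdsWithin] with t ht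
    rw [qt_of_neg ht.1.1, Matrix.smul_vecMul, smul_smul, ← mul_assoc,
      inv_mul_cancel₀ (Complex.exp_ne_zero _), one_mul]
  cases j
  · exfalso
    have h3 : Tendsto (fun t => LocalData.qt (-t) • L (phi c z t)) (𝓝[SKm β] 0) (𝓝 (-l)) := by
      refine h2.neg.congr' ?_
      filter_upwards [h.ev_SKm] with t ht
      have h4 := hj _ ht
      simp only [Bool.false_eq_true, if_false] at h4
      rw [h4, smul_neg]
    have h4 := tendsto_nhds_unique h1 h3
    apply hl0
    funext i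
    have h5 := congrFun h4 i
    simp only [Pi.neg_apply] at h5
    simp only [Pi.zero_apply]
    linear_combination (1 / 2 : ℂ) * h5
  · intro w hw
    simpa using hj w hw

end CrossHyp

end Pool.Agent.Rohlin
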