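import Pool.Agent.Rohlin.SpinCross

/-!
# The cone around a slit
-/

set_option autoImplicit false

namespace Pool.Agent.Rohlin

open Complex Set Matrix Filter Topology Metric

/-! ### the retraction -/

theorem retr_eq_of_norm_lt {c : ℂ} {w : ℂ} (h : ‖retr c w‖ < 1) : retr c w = w := by
  by_cases hg : gauge (closedBall (-c) 1) (w - c) ≤ 1
  · have h2 : rad c w = 1 := max_eq_left hg
    rw [retr, h2]
    simp
  · exfalso
    push Not at hg
    have h2 : rad c w = gauge (closedBall (-c) 1) (w - c) := max_eq_right hg.le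
    have hpos : 0 < gauge (closedBall (-c) 1) (w - c) := by linarith
    have h3 : (gauge (closedBall (-c) 1) (w - c))⁻¹ • (w - c) ∈ interior (closedBall (-c) 1) := by
      rw [interior_closedBall _ one_ne_zero, mem_ball, dist_eq_norm]
      have h4 : (gauge (closedBall (-c) 1) (w - c))⁻¹ • (w - c) - -c = retr c w := by
        rw [retr, h2, real_smul]
        ring
      rw [h4]
      exact h
    have h5 : gauge (closedBall (-c) 1) ((gauge (closedBall (-c) 1) (w - c))⁻¹ • (w - c)) < 1 :=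
      interior_subset_gauge_lt_one _ h3
    rw [gauge_smul_of_nonneg (inv_nonneg.2 hpos.le), smul_eq_mul, inv_mul_cancel₀ hpos.ne'] at h5
    exact lt_irrefl _ h5

theorem eq_add_of_retr_eq {c w z : ℂ} (h : retr c w = z) :
    ∃ r : ℝ, 0 ≤ r ∧ w = z + r * (z - c) := by
  obtain ⟨a, b, ha, hb, hab, h1⟩ := retr_eq_combo c w
  refine ⟨a / b, div_nonneg ha hb.le, ?_⟩
  rw [h] at h1
  have hb' : (b : ℂ) ≠ 0 := by exact_mod_cast hb.ne'
  have hab' : (a : ℂ) + b = 1 := by exact_mod_cast hab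
  rw [h1]
  simp only [real_smul]
  push_cast
  field_simp
  linear_combination (-(b : ℂ) * w - a * c) * hab'

/-! ### the cone -/

theorem sc_combo_smul {c z : ℂ} (hcz : c ≠ z) (x y : ℂ) {a b : ℝ} (hab : a + b = 1) :
    sc c z (a • x + b • y) = a • sc c z x + b • sc c z y := by
  have h1 : c - z ≠ 0 := sub_ne_zero.mpr hcz
  have h2 : (a : ℂ) + b = 1 := by exact_mod_cast hab
  simp only [sc, Complex.real_smul]
  field_simp
  linear_combination z * h2

/-- the truncated cone with apex `z` around the slit of `z` -/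
def cone (c z : ℂ) (α T : ℝ) : Set ℂ :=
  {w | (sc c z w).re < 0 ∧ |(sc c z w).im| < α * -(sc c z w).re ∧ -T < (sc c z w).re}

theorem isOpen_cone (c z : ℂ) (α T : ℝ) : IsOpen (cone c z α T) := by
  have h1 := continuous_sc c z
  have h2 : Continuous fun w => (sc c z w).re := Complex.continuous_re.comp h1
  have h3 : Continuous fun w => (sc c z w).im := Complex.continuous_im.comp h1
  exact (isOpen_lt h2 continuous_const).inter ((isOpen_lt h3.abs (continuous_const.mul h2.neg)).inter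
    (isOpen_lt continuous_const h2))

theorem convex_cone {c z : ℂ} (hcz : c ≠ z) {α T : ℝ} : Convex ℝ (cone c z α T) := by
  intro x hx y hy a b ha hb hab
  obtain ⟨hx1, hx2, hx3⟩ := hx
  obtain ⟨hy1, hy2, hy3⟩ := hy
  rw [abs_lt] at hx2 hy2
  have h1 := sc_combo_smul hcz x y hab
  have h2 : (sc c z (a • x + b • y)).re = a * (sc c z x).re + b * (sc c z y).re := by
    rw [h1]; simp
  have h3 : (sc c z (a • x + b • y)).im = a * (sc c z x).im + b * (sc c z y).im := by
    rw [h1]; simp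
  change (sc c z (a • x + b • y)).re < 0 ∧ |(sc c z (a • x + b • y)).im| <
    α * -(sc c z (a • x + b • y)).re ∧ -T < (sc c z (a • x + b • y)).re
  rw [h2, h3, abs_lt]
  rcases ha.eq_or_lt with h | h
  · have hb1 : b = 1 := by linarith
    rw [← h, hb1]
    simp only [zero_mul, one_mul, zero_add]
    exact ⟨hy1, hy2, hy3⟩
  · refine ⟨?_, ⟨?_, ?_⟩, ?_⟩
    · nlinarith
    · nlinarith [mul_lt_mul_of_pos_left hx2.1 h, mul_le_mul_of_nonneg_left hy2.1.le hb]
    · nlinarith [mul_lt_mul_of_pos_left hx2.2 h, mul_le_mul_of_nonneg_left hy2.2.le hb]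
    · have hb1 : b = 1 - a := by linarith
      rw [hb1]
      nlinarith [mul_lt_mul_of_pos_left hx3 h, mul_le_mul_of_nonneg_left hy3.le (by linarith : 0 ≤ 1 - a)]

/-- the upper half of the cone -/
def coneP (c z : ℂ) (α T : ℝ) : Set ℂ := {w | w ∈ cone c z α T ∧ 0 < (sc c z w).im}

theorem convex_coneP {c z : ℂ} (hcz : c ≠ z) {α T : ℝ} : Convex ℝ (coneP c z α T) := by
  intro x hx y hy a b ha hb hab
  refine ⟨convex_cone hcz hx.1 hy.1 ha hb hab, ?_⟩
  have h3 : (sc c z (a • x + b • y)).im = a * (sc c z x).im + b * (sc c z y).im := by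
    rw [sc_combo_smul hcz x y hab]; simp
  change 0 < (sc c z (a • x + b • y)).im
  rw [h3]
  have hx2 := hx.2
  have hy2 := hy.2
  rcases ha.eq_or_lt with h4 | h4
  · have : b = 1 := by linarith
    rw [← h4, this]; simpa using hy2
  · nlinarith

/-- the point with given coordinate -/
theorem sc_point {c z : ℂ} (hcz : c ≠ z) (u : ℂ) : sc c z (z + u * (c - z)) = u := by
  have h1 : c - z ≠ 0 := sub_ne_zero.mpr hcz
  rw [sc]
  field_simp
  ring

theorem nonempty_coneP {c z : ℂ} (hcz : c ≠ z) {α T : ℝ} (hα : 0 < α) (hT : 0 < T) :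
    (coneP c z α T).Nonempty := by
  refine ⟨z + (⟨-(T / 2), α * (T / 4)⟩ : ℂ) * (c - z), ⟨?_, ?_, ?_⟩, ?_⟩ <;>
    rw [sc_point hcz]
  · change -(T / 2) < 0
    linarith
  · change |α * (T / 4)| < α * -(-(T / 2))
    rw [abs_of_pos (by positivity)]
    nlinarith
  · change -T < -(T / 2)
    linarith
  · change 0 < α * (T / 4)
    positivity

/-- a thin cone does not meet the other slits -/
theorem exists_cone {c z : ℂ} {Z : Finset ℂ} (hcZ : c ∉ Z) (hcz : c ≠ z) (T : ℝ) (hT : 0 < T)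
    (hdis : ∀ z' ∈ Z, z' ≠ z → ∀ t t' : ℝ, 0 ≤ t → 0 ≤ t' → z + t * (z - c) ≠ z' + t' * (z' - c)) :
    ∃ α : ℝ, 0 < α ∧ cone c z α T ⊆ Star c (Z.erase z) := by
  classical
  have hc' : c ∉ Z.erase z := fun h => hcZ (Finset.mem_of_mem_erase h)
  set S : Set ℂ := (fun t : ℝ => z + t * (z - c)) '' Icc 0 T with hS
  have hScpt : IsCompact S := isCompact_Icc.image (by fun_prop)
  have hsub : S ⊆ Star c (Z.erase z) := by
    rintro _ ⟨t, ht, rfl⟩ z' hz' t' ht'
    exact hdis z' (Finset.mem_of_mem_erase hz') (Finset.ne_of_mem_erase hz') t t' ht.1 ht'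
  obtain ⟨δ, hδ, hth⟩ := hScpt.exists_thickening_subset_open (isOpen_Star hc') hsub
  have hn : 0 < ‖z - c‖ := norm_pos_iff.2 (sub_ne_zero.2 hcz.symm)
  refine ⟨δ / (T * ‖z - c‖), by positivity, fun w hw => hth ?_⟩
  obtain ⟨h1, h2, h3⟩ := hw
  rw [mem_thickening_iff]
  refine ⟨z + ((-(sc c z w).re : ℝ) : ℂ) * (z - c), ⟨-(sc c z w).re, ⟨by linarith, by linarith⟩, rfl⟩, ?_⟩
  have h4 := eq_add_mul_sc (c := c) (z := z) hcz.symm w
  have h5 : w - (z + ((-(sc c z w).re : ℝ) : ℂ) * (z - c)) =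
      (((sc c z w).im : ℝ) : ℂ) * I * (c - z) := by
    conv_lhs => rw [h4]
    have h6 : sc c z w = ((sc c z w).re : ℂ) + ((sc c z w).im : ℂ) * I := (re_add_im _).symm
    conv_lhs => rw [show sc c z (z + sc c z w * (c - z)) = sc c z w from sc_point hcz _]
    push_cast
    linear_combination (c - z) * h6
  rw [dist_eq_norm, h5, norm_mul, norm_mul, norm_I, mul_one, norm_real, Real.norm_eq_abs,
    norm_sub_rev c z]
  have h7 : |(sc c z w).im| < δ / (T * ‖z - c‖) * T := by
    refine h2.trans_le ?_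
    exact mul_le_mul_of_nonneg_left (by linarith) (by positivity)
  have h8 : δ / (T * ‖z - c‖) * T * ‖z - c‖ = δ := by
    field_simp
  calc |(sc c z w).im| * ‖z - c‖ < δ / (T * ‖z - c‖) * T * ‖z - c‖ :=
        mul_lt_mul_of_pos_right h7 hn
    _ = δ := h8

/-- the cone minus the slit lies in the star domain -/
theorem mem_Star_of_cone {c z : ℂ} {Z : Finset ℂ} (hcZ : c ∉ Z) {w : ℂ}
    (hw : w ∈ Star c (Z.erase z)) (him : (sc c z w).im ≠ 0) : w ∈ Star c Z := by
  classical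
  rw [mem_Star hcZ]
  intro z' hz'
  by_cases h : z' = z
  · rw [h, Complex.mem_slitPlane_iff]
    exact Or.inr him
  · exact sc_mem_slitPlane (fun h' => hcZ (Finset.mem_of_mem_erase h'))
      (Finset.mem_erase.2 ⟨h, hz'⟩) hw

/-- the sector in the coordinate `t` is mapped to the cone -/
theorem phi_mem_cone {c z : ℂ} (hcz : c ≠ z) {α T : ℝ} (hα : 0 < α) (hT : 0 < T) :
    ∃ β : ℝ, 0 < β ∧ ∀ᶠ t in 𝓝 (0 : ℂ), t ∈ SK β → phi c z t ∈ cone c z α T := by
  refine ⟨min (1 / 2) (α / 4), by positivity, ?_⟩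
  have h1 : ∀ᶠ t in 𝓝 (0 : ℂ), -T < (t ^ 2).re := by
    have h2 : Continuous fun t : ℂ => (t ^ 2).re := by
      have := Complex.continuous_re
      fun_prop
    have h3 := h2.tendsto 0
    simp only [ne_eq, OfNat.ofNat_ne_zero, not_false_eq_true, zero_pow, zero_re] at h3
    exact h3.eventually (lt_mem_nhds (by linarith))
  filter_upwards [h1] with t ht hts
  obtain ⟨h2, h3⟩ := hts
  have hb1 : min (1 / 2) (α / 4) ≤ 1 / 2 := min_le_left _ _
  have hb2 : min (1 / 2) (α / 4) ≤ α / 4 := min_le_right _ _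
  set β := min (1 / 2) (α / 4) with hβ
  have h4 : |t.re| < 1 / 2 * t.im := h3.trans_le (mul_le_mul_of_nonneg_right hb1 h2.le)
  have h5 : |t.re| < α / 4 * t.im := h3.trans_le (mul_le_mul_of_nonneg_right hb2 h2.le)
  have hre : (t ^ 2).re = t.re ^ 2 - t.im ^ 2 := by rw [sq, Complex.mul_re]; ring
  have him := im_sq t
  have h6 : t.re ^ 2 ≤ 1 / 4 * t.im ^ 2 := by
    have h7 : t.re ^ 2 = |t.re| ^ 2 := (sq_abs _).symm
    rw [h7]
    nlinarith [abs_nonneg t.re]
  have h8 : |t.re * t.im| ≤ α / 4 * t.im ^ 2 := by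
    rw [abs_mul, abs_of_pos h2]
    nlinarith
  refine ⟨?_, ?_, ?_⟩ <;> rw [sc_phi hcz]
  · rw [hre]
    nlinarith [sq_pos_of_pos h2]
  · rw [hre, him, mul_assoc, abs_mul, abs_of_pos (by norm_num : (0 : ℝ) < 2)]
    have h9 := sq_pos_of_pos h2
    nlinarith [mul_pos hα h9]
  · exact ht

/-- near `z` the right half plane in `t` is mapped to the star domain -/
theorem phi_mem_Star {c z : ℂ} {Z : Finset ℂ} (hcZ : c ∉ Z) (hcz : c ≠ z)
    (hz : z ∈ Star c (Z.erase z)) : ∀ᶠ t in 𝓝 (0 : ℂ), 0 < t.re → phi c z t ∈ Star c Z := by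
  classical
  have hc' : c ∉ Z.erase z := fun h => hcZ (Finset.mem_of_mem_erase h)
  have h1 : Tendsto (phi c z) (𝓝 0) (𝓝 z) := by
    have := (continuous_phi c z).tendsto 0
    simpa [phi] using this
  have h2 := h1.eventually ((isOpen_Star hc').mem_nhds hz)
  filter_upwards [h2] with t ht hre
  rw [mem_Star hcZ]
  intro z' hz'
  by_cases h : z' = z
  · rw [h, sc_phi hcz, Complex.mem_slitPlane_iff]
    by_cases him : t.im = 0
    · left
      rw [sq, Complex.mul_re, him]
      nlinarith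
    · right
      rw [im_sq]
      exact mul_ne_zero (mul_ne_zero two_ne_zero hre.ne') him
  · exact sc_mem_slitPlane hc' (Finset.mem_erase.2 ⟨h, hz'⟩) ht

theorem tvar_phi {c z : ℂ} (hcz : c ≠ z) {t : ℂ} (ht : 0 < t.re) :
    tvar c z (phi c z t) = t := by
  rw [tvar_eq, sc_phi hcz]
  have h3 := Complex.abs_arg_lt_pi_div_two_iff.2 (Or.inl ht)
  rw [abs_lt] at h3
  have h4 : ((1 / 2 : ℂ)) = ((2 : ℕ) : ℂ)⁻¹ := by norm_num
  rw [h4]
  exact Complex.pow_cpow_nat_inv two_ne_zero (by exact_mod_cast h3.1) (by exact_mod_cast h3.2.le)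

end Pool.Agent.Rohlin
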