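import Pool.Agent.Rohlin.PairArc
import Pool.Agent.Rohlin.DetForm
import Pool.Agent.Rohlin.Phase

/-!
# States of pairings: existence, uniqueness, arcs
-/

set_option autoImplicit false

namespace Pool.Agent.Rohlin

open Polynomial Complex Set Matrix Filter Topology

variable {f : MvPolynomial (Fin 3) ℝ} {K0 K1 : Set RP2}

/-- all labels occur in a pairing -/
theorem PairingG.bijective {θ : ℝ} {e s : Fin 8 → ℂ} {A B : Fin 4 → Fin 8}
    {kind : Fin 4 → Fin 3} {ζ : Fin 4 → ℂ} (h : PairingG K0 K1 θ e s A B kind ζ) :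
    Function.Bijective (Sum.elim A B) := by
  rw [Fintype.bijective_iff_injective_and_card]
  exact ⟨h.inj, by simp⟩

theorem pairFam_dot_vfam (A B : Fin 4 → Fin 8) (ζ : Fin 4 → ℂ) (e s : Fin 8 → ℂ) (p j : Fin 4) :
    pairFam A B ζ p ⬝ᵥ vfam e s j =
      e (A p) ^ (j : ℕ) / s (A p) - I * ζ p * (e (B p) ^ (j : ℕ) / s (B p)) := by
  unfold pairFam pairVec vfam
  rw [sub_dotProduct, smul_dotProduct, single_dotProduct, single_dotProduct]
  simp

/-- **T1** for labelled roots -/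
theorem PairingG.det_pos (nf : Normal f) {θ : ℝ} {e s : Fin 8 → ℂ} (hL : Lab f θ e s)
    {A B : Fin 4 → Fin 8} {kind : Fin 4 → Fin 3} {ζ : Fin 4 → ℂ}
    (h : PairingG K0 K1 θ e s A B kind ζ)
    (hC : Conf (fun p => e (A p)) (fun p => e (B p)) kind) :
    ∃ x : ℝ, 0 < x ∧
      (Matrix.of fun p j => pairFam A B ζ p ⬝ᵥ vfam e s j).det ^ 8 = (x : ℂ) := by
  have h1 : Lagrange.nodal Finset.univ (Sum.elim (fun p => e (A p)) (fun p => e (B p))) =
      (gr f θ).map (algebraMap ℝ ℂ) := by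
    rw [hL.map_eq_prod nf, Lagrange.nodal]
    refine Fintype.prod_bijective (Sum.elim A B) h.bijective _ _ ?_
    rintro (p | p) <;> rfl
  refine det_simple hC (σA := fun p => s (A p)) (σB := fun p => s (B p)) ?_ ?_ _ ?_
  · intro p
    rw [h1, derivative_map, hL.sq]
  · intro p
    rw [h1, derivative_map, hL.sq]
  · intro p j
    rw [Matrix.of_apply, pairFam_dot_vfam, h.zeta p]
    rfl

section state

variable {n : Type} [Fintype n] [DecidableEq n] (M : Majorana 8 n) (C : Matrix n n ℂ)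
  (card : Fintype.card n = 2 ^ 4) (hH : ∀ a, (M.e a)ᴴ = M.e a) (hCC : Cᴴ * C = 1) (hCT : Cᵀ = C)
  (hC : ∀ a, C * M.e a = (M.e a)ᵀ * C)

include card hCC hCT hC in
/-- the square of the value of the functional at the state -/
theorem exists_kappa_four {A B : Fin 4 → Fin 8} (hinj : Function.Injective (Sum.elim A B))
    {ζ : Fin 4 → ℂ} (hζ : ∀ p, ζ p = 1 ∨ ζ p = -1) {ψ : n → ℂ}
    (hψ : (List.ofFn fun p => pairFac M (A p) (B p) (ζ p)).prod = vecMulVec ψ (star ψ)) :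
    ∃ κ : ℂ, κ ≠ 0 ∧ ∀ (l : n → ℂ) (e s : Fin 8 → ℂ), C * M.R (vfam e s) = vecMulVec l l →
      (l ⬝ᵥ ψ) ^ 2 = κ * (Matrix.of fun p j => pairFam A B ζ p ⬝ᵥ vfam e s j).det := by
  obtain ⟨κ, hκ, h⟩ := M.exists_kappa A B hinj ζ hζ card C hCC
    (fun a => by rw [hC a]; norm_num) (by rw [hCT]; norm_num) ψ hψ
  refine ⟨κ, hκ, fun l e s hl => ?_⟩
  rw [← h, hl, Matrix.vecMulVec_mulVec, pow_two]
  simp [dotProduct_comm]

include card hH hCC hCT hC in
/-- **existence of the state** -/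
theorem PairingG.exists_state (nf : Normal f) {θ : ℝ} {e s : Fin 8 → ℂ} (hL : Lab f θ e s)
    {A B : Fin 4 → Fin 8} {kind : Fin 4 → Fin 3} {ζ : Fin 4 → ℂ}
    (h : PairingG K0 K1 θ e s A B kind ζ)
    (hconf : Conf (fun p => e (A p)) (fun p => e (B p)) kind) {l : n → ℂ}
    (hl : C * M.R (vfam e s) = vecMulVec l l) : ∃ ψ, StateG M l A B ζ ψ := by
  obtain ⟨φ, h1, -, h2⟩ := exists_pairState M hH 4 card A B h.inj ζ h.zeta_sq
  obtain ⟨κ, hκ, h3⟩ := exists_kappa_four M C card hCC hCT hC h.inj h.zeta_sq h2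
  obtain ⟨x, hx, h4⟩ := h.det_pos nf hL hconf
  have h5 : l ⬝ᵥ φ ≠ 0 := by
    intro h0
    have h6 := h3 l e s hl
    rw [h0, zero_pow two_ne_zero] at h6
    have h7 := (mul_eq_zero.1 h6.symm).resolve_left hκ
    rw [h7, zero_pow (by norm_num)] at h4
    exact hx.ne' (Complex.ofReal_eq_zero.1 h4.symm)
  set z := l ⬝ᵥ φ with hz
  have hn : (‖z‖ : ℂ) ≠ 0 := Complex.ofReal_ne_zero.2 (norm_ne_zero_iff.2 h5)
  set u : ℂ := (starRingEnd ℂ) z / (‖z‖ : ℂ) with hu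
  have huz : u * z = ‖z‖ := by
    rw [hu, div_mul_eq_mul_div, Complex.conj_mul', pow_two, mul_div_assoc, div_self hn, mul_one]
  have huu : u * star u = 1 := by
    have h6 : star u = z / (‖z‖ : ℂ) := by
      rw [hu]
      change (starRingEnd ℂ) _ = _
      rw [map_div₀, Complex.conj_conj, Complex.conj_ofReal]
    rw [h6, ← mul_div_assoc, huz, div_self hn]
  refine ⟨u • φ, ?_, ?_, ‖z‖, norm_pos_iff.2 h5, ?_⟩
  · rw [star_smul, smul_dotProduct, dotProduct_smul, h1, smul_smul, mul_comm, huu]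
    simp
  · rw [h2, star_smul]
    ext a b
    rw [vecMulVec_apply, vecMulVec_apply, Pi.smul_apply, Pi.smul_apply, smul_eq_mul, smul_eq_mul]
    linear_combination (-(φ a * (star φ) b)) * huu
  · rw [dotProduct_smul, smul_eq_mul, ← hz, huz]

/-- the state is unique -/
theorem StateG.unique {l : n → ℂ} {A B A' B' : Fin 4 → Fin 8} {ζ ζ' : Fin 4 → ℂ} {ψ ψ' : n → ℂ}
    {M : Majorana 8 n} (h : StateG M l A B ζ ψ) (h' : StateG M l A' B' ζ' ψ')
    (hp : (List.ofFn fun p => pairFac M (A p) (B p) (ζ p)).prod =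
      (List.ofFn fun p => pairFac M (A' p) (B' p) (ζ' p)).prod) : ψ' = ψ := by
  have h1 : vecMulVec ψ (star ψ) = vecMulVec ψ' (star ψ') := by
    rw [← h.proj, ← h'.proj, hp]
  have h2 : ψ' = (star ψ ⬝ᵥ ψ') • ψ := by
    have h3 := congrArg (fun Q => Q *ᵥ ψ') h1
    simp only [Matrix.vecMulVec_mulVec] at h3
    rw [h'.unit] at h3
    simpa using h3.symm
  set c := star ψ ⬝ᵥ ψ' with hc
  obtain ⟨r, hr, h3⟩ := h.pos
  obtain ⟨r', hr', h4⟩ := h'.pos
  rw [h2, dotProduct_smul, smul_eq_mul, h3] at h4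
  have h5 : c * star c = 1 := by
    have h6 := h'.unit
    rw [h2, star_smul, smul_dotProduct, dotProduct_smul, h.unit] at h6
    simpa [mul_comm] using h6
  have hrc : (r : ℂ) ≠ 0 := Complex.ofReal_ne_zero.2 hr.ne'
  have h6 : c = ((r' / r : ℝ) : ℂ) := by
    rw [Complex.ofReal_div, eq_div_iff hrc, h4]
  have h7 : 0 < r' / r := div_pos hr' hr
  rw [h6] at h5
  have h8 : (r' / r) * (r' / r) = 1 := by
    have : star (((r' / r : ℝ) : ℂ)) = ((r' / r : ℝ) : ℂ) := Complex.conj_ofReal _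
    rw [this, ← Complex.ofReal_mul] at h5
    exact_mod_cast h5
  have h9 : r' / r = 1 := by nlinarith
  rw [h2, h6, h9]
  simp

include card hCC hCT hC in
/-- **The state stays the state along an arc of pairings.** -/
theorem StateG.arc (nf : Normal f) {I : Set ℝ} {e s : ℝ → Fin 8 → ℂ} {l : ℝ → n → ℂ}
    (hI : IsPreconnected I) (hlab : ∀ θ ∈ I, Lab f θ (e θ) (s θ)) (hlc : ContinuousOn l I)
    (hl : ∀ θ ∈ I, C * M.R (vfam (e θ) (s θ)) = vecMulVec (l θ) (l θ))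
    {A B : Fin 4 → Fin 8} {kind : Fin 4 → Fin 3} {ζ : Fin 4 → ℂ}
    (hP : ∀ θ ∈ I, PairingG K0 K1 θ (e θ) (s θ) A B kind ζ)
    (hconf : ∀ θ ∈ I, Conf (fun p => e θ (A p)) (fun p => e θ (B p)) kind) {θ₁ θ₂ : ℝ}
    (h₁ : θ₁ ∈ I) (h₂ : θ₂ ∈ I) {ψ : n → ℂ} (h : StateG M (l θ₁) A B ζ ψ) :
    StateG M (l θ₂) A B ζ ψ := by
  have hP1 := hP θ₁ h₁
  obtain ⟨κ, hκ, h3⟩ := exists_kappa_four M C card hCC hCT hC hP1.inj hP1.zeta_sq h.proj
  have hcont : ContinuousOn (fun θ => l θ ⬝ᵥ ψ) I := by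
    unfold dotProduct
    refine continuousOn_finsetSum _ fun a _ => ?_
    exact ((continuousOn_pi.1 hlc) a).mul continuousOn_const
  obtain ⟨u, hu, hρ⟩ := Phase.exists_phase hI hcont (N := 16) (by norm_num) (c := κ ^ 8)
    (pow_ne_zero 8 hκ) (by
      intro θ hθ
      obtain ⟨x, hx, hx8⟩ := (hP θ hθ).det_pos nf (hlab θ hθ) (hconf θ hθ)
      refine ⟨x, hx, ?_⟩
      have h5 := h3 (l θ) (e θ) (s θ) (hl θ hθ)
      calc (l θ ⬝ᵥ ψ) ^ 16 = ((l θ ⬝ᵥ ψ) ^ 2) ^ 8 := by ring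
        _ = κ ^ 8 * x := by rw [h5, mul_pow, hx8])
  obtain ⟨ρ1, hρ1, h6⟩ := hρ θ₁ h₁
  obtain ⟨ρ2, hρ2, h7⟩ := hρ θ₂ h₂
  obtain ⟨r, hr, h8⟩ := h.pos
  have hu1 : u = 1 := by
    have hρc : (ρ1 : ℂ) ≠ 0 := Complex.ofReal_ne_zero.2 hρ1.ne'
    have h9 : u = ((r / ρ1 : ℝ) : ℂ) := by
      rw [Complex.ofReal_div, eq_div_iff hρc, ← h6, h8]
    have h10 : 0 < r / ρ1 := div_pos hr hρ1
    rw [h9, Complex.norm_real, Real.norm_of_nonneg h10.le] at hu
    rw [h9, hu, Complex.ofReal_one]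
  refine ⟨h.unit, h.proj, ρ2, hρ2, ?_⟩
  rw [h7, hu1, one_mul]

end state

end Pool.Agent.Rohlin
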