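import Pool.Agent.Rohlin.Slice2D

/-!
# The strips over a regular arc

Part of the counting package of the cell ROH (MP_dec4ff_ag).
-/

set_option autoImplicit false

namespace Pool.Agent.Rohlin

open Set Topology Filter

/-- the part of `E` over `J` of rank `i + 1` -/
def stripT (E : Set (ℝ × ℝ)) (J : Set ℝ) (i : ℕ) : Set (ℝ × ℝ) :=
  {p | p ∈ E ∧ p.1 ∈ J ∧ rk (sl E p.1) p.2 = i + 1}

namespace StripSet

variable {E Z : Set (ℝ × ℝ)} (h : StripSet E Z)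
include h

/-- the number of left ends is constant on a regular interval -/
theorem ncard_const {J : Set ℝ} (_hJo : IsOpen J) (hJ : IsPreconnected J)
    (hreg : ∀ θ ∈ J, RegAt E Z θ) {θ θ' : ℝ} (hθ : θ ∈ J) (hθ' : θ' ∈ J) :
    (leftEnds (sl E θ)).ncard = (leftEnds (sl E θ')).ncard := by
  have hloc : ∀ x ∈ J, ∀ᶠ y in 𝓝 x, (leftEnds (sl E y)).ncard = (leftEnds (sl E x)).ncard := by
    intro x hx
    obtain ⟨c, hc⟩ := hreg x hx
    have h1 := h.ncard_near x c c c hc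
    have h2 : ∀ᶠ y in 𝓝 x, (leftEnds (sl E y)).ncard = ∑ ρ ∈ (h.fin x).toFinset, c ρ := by
      filter_upwards [h1] with y hy
      rw [hy]
      exact Finset.sum_congr rfl fun ρ _ => by split_ifs <;> rfl
    have h3 := h2.self_of_nhds
    filter_upwards [h2] with y hy
    rw [hy, h3]
  have hcont : ContinuousOn (fun x => (leftEnds (sl E x)).ncard) J := by
    intro x hx
    have : Tendsto (fun x => (leftEnds (sl E x)).ncard) (𝓝 x) (pure ((leftEnds (sl E x)).ncard)) := by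
      rw [tendsto_pure]
      exact hloc x hx
    exact ContinuousAt.continuousWithinAt (this.mono_right (pure_le_nhds _))
  exact hJ.constant hcont hθ hθ'

theorem fiber_preconnected (θ : ℝ) (i : ℕ) :
    IsPreconnected {η | η ∈ sl E θ ∧ rk (sl E θ) η = i + 1} := by
  apply OrdConnected.isPreconnected
  constructor
  intro x hx y hy z hz
  have hsub : Icc x y ⊆ sl E θ :=
    Icc_of_rk_eq (h.closed_sl θ) (h.fin_front θ) hy.1 (hx.2.trans hy.2.symm) hx.1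
  refine ⟨hsub hz, ?_⟩
  rw [← rk_eq_of_Icc hz.1 (fun u hu => hsub ⟨hu.1, hu.2.trans hz.2⟩), hx.2]

/-- a left end of the given rank -/
theorem exists_mem_strip {J : Set ℝ} (hJo : IsOpen J) (hJ : IsPreconnected J)
    (hreg : ∀ θ ∈ J, RegAt E Z θ) {θ0 : ℝ} (hθ0 : θ0 ∈ J) {i : ℕ}
    (hi : i < (leftEnds (sl E θ0)).ncard) {θ : ℝ} (hθ : θ ∈ J) :
    ∃ lo ∈ leftEnds (sl E θ), (θ, lo) ∈ stripT E J i := by
  rw [h.ncard_const hJo hJ hreg hθ0 hθ] at hi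
  obtain ⟨z, hz, hrk⟩ := exists_rk_eq (h.fin_front θ) hi
  exact ⟨z, hz, hz.1, hθ, hrk⟩

/-- the strips over a regular interval are connected -/
theorem strip_preconnected {J : Set ℝ} (hJo : IsOpen J) (hJ : IsPreconnected J)
    (hreg : ∀ θ ∈ J, RegAt E Z θ) (i : ℕ) : IsPreconnected (stripT E J i) := by
  rintro U V hU hV hcov ⟨pU, hpU⟩ ⟨pV, hpV⟩
  by_contra hcon
  -- every fibre is in `U` or in `V`
  have hfib : ∀ θ ∈ J, IsPreconnected ({θ} ×ˢ {η | η ∈ sl E θ ∧ rk (sl E θ) η = i + 1}) :=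
    fun θ _ => isPreconnected_singleton.prod (h.fiber_preconnected θ i)
  have hfsub : ∀ θ ∈ J, ({θ} ×ˢ {η | η ∈ sl E θ ∧ rk (sl E θ) η = i + 1}) ⊆ stripT E J i := by
    rintro θ hθ ⟨a, b⟩ ⟨ha, hb⟩
    obtain rfl : a = θ := ha
    exact ⟨hb.1, hθ, hb.2⟩
  have hmemf : ∀ p ∈ stripT E J i, p ∈ ({p.1} ×ˢ {η | η ∈ sl E p.1 ∧ rk (sl E p.1) η = i + 1}) :=
    fun p hp => ⟨rfl, hp.1, hp.2.2⟩
  have hdich : ∀ p ∈ stripT E J i, p ∈ U →
      ∀ η, (p.1, η) ∈ stripT E J i → (p.1, η) ∈ U := by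
    intro p hp hpU η hη
    by_contra hnU
    have hηV : (p.1, η) ∈ V := (hcov hη).resolve_left hnU
    obtain ⟨q, hq, hqU, hqV⟩ := hfib p.1 hp.2.1 U V hU hV ((hfsub p.1 hp.2.1).trans hcov)
      ⟨p, hmemf p hp, hpU⟩ ⟨(p.1, η), ⟨rfl, hη.1, hη.2.2⟩, hηV⟩
    exact hcon ⟨q, hfsub p.1 hp.2.1 hq, hqU, hqV⟩
  have hdich' : ∀ p ∈ stripT E J i, p ∈ V →
      ∀ η, (p.1, η) ∈ stripT E J i → (p.1, η) ∈ V := by
    intro p hp hpV η hη
    by_contra hnV
    have hηU : (p.1, η) ∈ U := (hcov hη).resolve_right hnV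
    obtain ⟨q, hq, hqU, hqV⟩ := hfib p.1 hp.2.1 U V hU hV ((hfsub p.1 hp.2.1).trans hcov)
      ⟨(p.1, η), ⟨rfl, hη.1, hη.2.2⟩, hηU⟩ ⟨p, hmemf p hp, hpV⟩
    exact hcon ⟨q, hfsub p.1 hp.2.1 hq, hqU, hqV⟩
  -- the number of left ends is large enough
  have hi : ∀ θ ∈ J, i < (leftEnds (sl E θ)).ncard := by
    intro θ hθ
    rw [← h.ncard_const hJo hJ hreg hpU.1.2.1 hθ]
    have := rk_le (h.fin_front pU.1) pU.2
    rw [hpU.1.2.2] at this
    omega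
  -- openness of the two sets of angles
  have hopen : ∀ W : Set (ℝ × ℝ), IsOpen W →
      (∀ p ∈ stripT E J i, p ∈ W → ∀ η, (p.1, η) ∈ stripT E J i → (p.1, η) ∈ W) →
      IsOpen {θ | θ ∈ J ∧ ∃ η, (θ, η) ∈ stripT E J i ∧ (θ, η) ∈ W} := by
    intro W hW hWd
    rw [isOpen_iff_mem_nhds]
    rintro θ ⟨hθ, η, hη, hηW⟩
    obtain ⟨lo, hlo, hloT⟩ := h.exists_mem_strip hJo hJ hreg hθ (hi θ hθ) hθ
    have hloW : (θ, lo) ∈ W := hWd (θ, η) hη hηW lo hloT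
    have h1 := h.rk_locally_constant (hreg θ hθ) hloT.1
    rw [eventually_nhdsWithin_iff] at h1
    have hWn : W ∩ {p | p ∈ E → rk (sl E p.1) p.2 = rk (sl E θ) lo} ∈ 𝓝 (θ, lo) :=
      inter_mem (hW.mem_nhds hloW) h1
    filter_upwards [h.near_leftEnd (hreg θ hθ) hlo hWn, hJo.mem_nhds hθ] with θ' hz hθ'
    obtain ⟨z, hz, hzW, hzr⟩ := hz
    exact ⟨hθ', z, ⟨hz.1, hθ', (hzr hz.1).trans hloT.2.2⟩, hzW⟩
  obtain ⟨θ, hθJ, ⟨_, η, hη, hηU⟩, ⟨_, η', hη', hηV⟩⟩ :=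
    hJ _ _ (hopen U hU hdich) (hopen V hV hdich') (by
      intro θ hθ
      obtain ⟨lo, _, hloT⟩ := h.exists_mem_strip hJo hJ hreg hθ (hi θ hθ) hθ
      rcases hcov hloT with h1 | h1
      · exact Or.inl ⟨hθ, lo, hloT, h1⟩
      · exact Or.inr ⟨hθ, lo, hloT, h1⟩)
      ⟨pU.1, hpU.1.2.1, hpU.1.2.1, pU.2, hpU.1, hpU.2⟩
      ⟨pV.1, hpV.1.2.1, hpV.1.2.1, pV.2, hpV.1, hpV.2⟩
  exact hcon ⟨(θ, η'), hη', hdich (θ, η) hη hηU η' hη', hηV⟩

theorem closure_strip_sub_E (J : Set ℝ) (i : ℕ) : closure (stripT E J i) ⊆ E :=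
  closure_minimal (fun _ hp => hp.1) h.closedE

/-- over regular angles of `J` the closure adds nothing -/
theorem mem_strip_of_closure {J : Set ℝ} {i : ℕ} {p : ℝ × ℝ} (hreg : RegAt E Z p.1)
    (hp : p ∈ closure (stripT E J i)) (hpJ : p.1 ∈ J) : p ∈ stripT E J i := by
  have hpE := h.closure_strip_sub_E J i hp
  have h1 := h.rk_locally_constant hreg (show (p.1, p.2) ∈ E from hpE)
  rw [eventually_nhdsWithin_iff] at h1
  obtain ⟨q, hq1, hq2⟩ := mem_closure_iff_nhds.1 hp _ h1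
  exact ⟨hpE, hpJ, (hq1 hq2.1).symm.trans hq2.2.2⟩

/-- the closure is compact if `J` is bounded -/
theorem isCompact_closure_strip {α β : ℝ} (i : ℕ) :
    IsCompact (closure (stripT E (Ioo α β) i)) := by
  obtain ⟨B, hB⟩ := h.bdd
  refine (isCompact_Icc.prod isCompact_Icc).closure_of_subset (s := stripT E (Ioo α β) i)
    (K := Icc α β ×ˢ Icc (-B) B) ?_
  intro p hp
  exact ⟨Ioo_subset_Icc_self hp.2.1, abs_le.1 (hB p hp.1)⟩

/-- the closure projects onto the closed interval -/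
theorem exists_mem_closure_strip {α β : ℝ} (hαβ : α < β)
    (hreg : ∀ θ ∈ Ioo α β, RegAt E Z θ) {θ0 : ℝ} (hθ0 : θ0 ∈ Ioo α β) {i : ℕ}
    (hi : i < (leftEnds (sl E θ0)).ncard) {θ : ℝ} (hθ : θ ∈ Icc α β) :
    ∃ η, (θ, η) ∈ closure (stripT E (Ioo α β) i) := by
  have hc : IsClosed (Prod.fst '' closure (stripT E (Ioo α β) i)) :=
    ((h.isCompact_closure_strip i).image continuous_fst).isClosed
  have hsub : Ioo α β ⊆ Prod.fst '' closure (stripT E (Ioo α β) i) := by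
    intro x hx
    obtain ⟨lo, _, hT⟩ := h.exists_mem_strip isOpen_Ioo isPreconnected_Ioo hreg hθ0 hi hx
    exact ⟨(x, lo), subset_closure hT, rfl⟩
  have : θ ∈ Prod.fst '' closure (stripT E (Ioo α β) i) := by
    have h2 := closure_minimal hsub hc
    rw [closure_Ioo hαβ.ne] at h2
    exact h2 hθ
  obtain ⟨⟨a, b⟩, hab, rfl⟩ := this
  exact ⟨b, hab⟩

omit h in
theorem fst_mem_of_closure {α β : ℝ} {i : ℕ} {p : ℝ × ℝ}
    (hp : p ∈ closure (stripT E (Ioo α β) i)) : p.1 ∈ Icc α β := by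
  have : closure (stripT E (Ioo α β) i) ⊆ Prod.fst ⁻¹' Icc α β :=
    closure_minimal (fun q hq => Ioo_subset_Icc_self hq.2.1) (isClosed_Icc.preimage continuous_fst)
  exact this hp

/-- the fibres of the closure lie in one component of the slice -/
theorem Icc_of_closure {α β : ℝ} (hreg : ∀ θ ∈ Ioo α β, RegAt E Z θ) {i : ℕ} {θ x y : ℝ}
    (hx : (θ, x) ∈ closure (stripT E (Ioo α β) i))
    (hy : (θ, y) ∈ closure (stripT E (Ioo α β) i)) : Icc x y ⊆ sl E θ := by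
  intro u hu
  by_contra huE
  have hxE : x ∈ sl E θ := h.closure_strip_sub_E _ _ hx
  have hyE : y ∈ sl E θ := h.closure_strip_sub_E _ _ hy
  have hxu : x < u := lt_of_le_of_ne hu.1 fun hh => huE (hh ▸ hxE)
  have huy : u < y := lt_of_le_of_ne hu.2 fun hh => huE (hh ▸ hyE)
  -- a horizontal segment outside of `E`
  have hopen : ∀ᶠ θ' in 𝓝 θ, (θ', u) ∉ E := by
    have hc : Continuous (fun x : ℝ => (x, u)) := Continuous.prodMk continuous_id continuous_const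
    exact (h.closedE.isOpen_compl.preimage hc).mem_nhds huE
  obtain ⟨δ, hδ, hball⟩ := Metric.eventually_nhds_iff.1 hopen
  set J : Set ℝ := Ioo α β ∩ Ioo (θ - δ) (θ + δ) with hJ
  have hJo : IsOpen J := isOpen_Ioo.inter isOpen_Ioo
  have hJp : IsPreconnected J := (ordConnected_Ioo.inter ordConnected_Ioo).isPreconnected
  have hT := h.strip_preconnected hJo hJp (fun x hx => hreg x hx.1) i
  have hδ' : ∀ θ' ∈ J, (θ', u) ∉ E := by
    intro θ' hθ'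
    apply hball
    rw [Real.dist_eq, abs_lt]
    constructor
    · linarith [hθ'.2.1]
    · linarith [hθ'.2.2]
  have hUo : IsOpen {p : ℝ × ℝ | p.2 < u} := isOpen_lt continuous_snd continuous_const
  have hVo : IsOpen {p : ℝ × ℝ | u < p.2} := isOpen_lt continuous_const continuous_snd
  have hSo : IsOpen {p : ℝ × ℝ | p.1 ∈ Ioo (θ - δ) (θ + δ)} := isOpen_Ioo.preimage continuous_fst
  have hθin : θ ∈ Ioo (θ - δ) (θ + δ) := ⟨by linarith, by linarith⟩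
  obtain ⟨q, hq1, hq2⟩ := mem_closure_iff.1 hx _ (hUo.inter hSo) ⟨hxu, hθin⟩
  obtain ⟨q', hq1', hq2'⟩ := mem_closure_iff.1 hy _ (hVo.inter hSo) ⟨huy, hθin⟩
  obtain ⟨r, _, hr1, hr2⟩ := hT _ _ hUo hVo (by
      intro p hp
      rcases lt_trichotomy p.2 u with hlt | heq | hgt
      · exact Or.inl hlt
      · exfalso
        apply hδ' p.1 hp.2.1
        rw [← heq]; exact hp.1
      · exact Or.inr hgt)
    ⟨q, ⟨hq2.1, ⟨hq2.2.1, hq1.2⟩, hq2.2.2⟩, hq1.1⟩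
    ⟨q', ⟨hq2'.1, ⟨hq2'.2.1, hq1'.2⟩, hq2'.2.2⟩, hq1'.1⟩
  have e1 : r.2 < u := hr1
  have e2 : u < r.2 := hr2
  linarith

end StripSet

/-- A nonempty set of points in one component of `S` has a common left end. -/
theorem exists_common_leftEnd {S W : Set ℝ} (hS : IsClosed S) (hF : (frontier S).Finite) {B : ℝ}
    (hB : ∀ y ∈ S, -B ≤ y) (hW : W.Nonempty) (hWS : ∀ x ∈ W, ∀ y ∈ W, Icc x y ⊆ S) :
    ∃ ρ ∈ leftEnds S, ∀ y ∈ W, ρ ≤ y ∧ Icc ρ y ⊆ S := by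
  obtain ⟨y0, hy0⟩ := hW
  have hWS' : W ⊆ S := fun y hy => hWS y hy y hy ⟨le_rfl, le_rfl⟩
  have hx : -B - 1 ∉ S := fun h => by linarith [hB _ h]
  obtain ⟨ρ, hρ, _, hρy, hsub⟩ :=
    exists_leftEnd hS hF hx (hWS' hy0) (by linarith [hB y0 (hWS' hy0)])
  refine ⟨ρ, hρ, fun y hy => ?_⟩
  rcases le_total y0 y with hle | hle
  · refine ⟨hρy.trans hle, fun u hu => ?_⟩
    rcases le_total u y0 with h1 | h1
    · exact hsub ⟨hu.1, h1⟩
    · exact hWS y0 hy0 y hy ⟨h1, hu.2⟩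
  · have hρy' : ρ ≤ y := by
      by_contra hcon
      exact not_leftEnd_of_Icc (hWS y hy y0 hy0) (not_le.1 hcon) hρy hρ
    exact ⟨hρy', fun u hu => hsub ⟨hu.1, hu.2.trans hle⟩⟩

/-- uniqueness of the left end of a component -/
theorem leftEnd_unique {S : Set ℝ} {ρ ρ' y : ℝ} (hρ : ρ ∈ leftEnds S) (hρ' : ρ' ∈ leftEnds S)
    (h : Icc ρ y ⊆ S) (h' : Icc ρ' y ⊆ S) (hy : ρ ≤ y) (hy' : ρ' ≤ y) : ρ = ρ' := by
  rcases lt_trichotomy ρ ρ' with hlt | heq | hgt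
  · exact absurd hρ' (not_leftEnd_of_Icc h hlt hy')
  · exact heq
  · exact absurd hρ (not_leftEnd_of_Icc h' hgt hy)

end Pool.Agent.Rohlin
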