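import Mathlib

/-!
# The slice graph of a simply connected space is a tree: vertices = edges + 1

Abstract counting package of the cell ROH (MP_dec4ff_ag).
-/

namespace Pool.Agent.Rohlin

open Set Topology

/-- Maps from a contractible space to the circle lift to the line. -/
theorem exists_real_lift {D : Type*} [TopologicalSpace D] [ContractibleSpace D]
    (φ : C(D, Circle)) : ∃ g : C(D, ℝ), ∀ x, Circle.exp (g x) = φ x := by
  obtain ⟨y, ⟨H⟩⟩ := id_nullhomotopic D
  obtain ⟨r, hr⟩ : ∃ r : ℝ, Circle.exp r = φ y := ⟨Complex.arg (φ y : ℂ), Circle.exp_arg _⟩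
  let F : C(unitInterval × D, Circle) := φ.comp H.symm.toContinuousMap
  have hF0 : ∀ a, F (0, a) = Circle.exp ((ContinuousMap.const D r) a) := by
    intro a
    change φ (H.symm (0, a)) = Circle.exp r
    rw [H.symm.apply_zero, hr]
    rfl
  let L := Circle.isCoveringMap_exp.liftHomotopy F (ContinuousMap.const D r) hF0
  refine ⟨⟨fun x => L (1, x), by fun_prop⟩, fun x => ?_⟩
  have h1 := congrFun (Circle.isCoveringMap_exp.liftHomotopy_lifts (H := F)
    (f := ContinuousMap.const D r) hF0) (1, x)
  change Circle.exp (L (1, x)) = φ (H.symm (1, x)) at h1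
  rw [H.symm.apply_one] at h1
  exact h1

/-- An integer valued continuous function on a preconnected set is constant. -/
theorem eq_of_int_valued {D : Type*} [TopologicalSpace D] {s : Set D} (hs : IsPreconnected s)
    {f : D → ℝ} (hf : ContinuousOn f s) (hint : ∀ x ∈ s, ∃ m : ℤ, f x = m) {x y : D}
    (hx : x ∈ s) (hy : y ∈ s) : f x = f y := by
  have key : ∀ x ∈ s, ∀ y ∈ s, ¬ f x < f y := by
    intro x hx y hy hlt
    have himg : (f '' s).OrdConnected := (hs.image f hf).ordConnected
    obtain ⟨a, ha⟩ := hint x hx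
    obtain ⟨b, hb⟩ := hint y hy
    rw [ha, hb] at hlt
    have hab : a + 1 ≤ b := by
      have : a < b := by exact_mod_cast hlt
      omega
    have hab' : (a : ℝ) + 1 ≤ b := by exact_mod_cast hab
    have hmem : (a : ℝ) + 1 / 2 ∈ f '' s := by
      refine himg.out (mem_image_of_mem f hx) (mem_image_of_mem f hy) ⟨?_, ?_⟩
      · rw [ha]; linarith
      · rw [hb]; linarith
    obtain ⟨z, hz, hfz⟩ := hmem
    obtain ⟨m, hm⟩ := hint z hz
    rw [hm] at hfz
    have h2 : (2 * m : ℤ) = 2 * a + 1 := by
      have : (2 : ℝ) * m = 2 * a + 1 := by linarith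
      exact_mod_cast this
    omega
  exact le_antisymm (not_lt.1 (key y hy x hx)) (not_lt.1 (key x hx y hy))

/-- THE COUNT.  `D` is connected and every map from `D` to the circle lifts to the line.  `D` is
covered by finitely many pairwise disjoint closed preconnected *vertex pieces* `V i` and closed
preconnected *strips* `S e` with coordinate `t e`, which touch the vertex pieces only at their two
ends and each other only inside vertex pieces.  Then the number of vertex pieces is the number of
strips plus one. -/
theorem card_vertices_eq {D : Type*} [TopologicalSpace D] [ConnectedSpace D]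
    (hlift : ∀ φ : C(D, Circle), ∃ g : C(D, ℝ), ∀ x, Circle.exp (g x) = φ x)
    {A E : Type*} [Fintype A] [Fintype E] (V : A → Set D) (S : E → Set D) (a b : E → A)
    (t : E → D → ℝ)
    (hVc : ∀ i, IsClosed (V i)) (hVp : ∀ i, IsPreconnected (V i)) (hVn : ∀ i, (V i).Nonempty)
    (hVd : ∀ i j, i ≠ j → Disjoint (V i) (V j))
    (hSc : ∀ e, IsClosed (S e)) (hSp : ∀ e, IsPreconnected (S e))
    (ht : ∀ e, ContinuousOn (t e) (S e))
    (hcover : ∀ x, (∃ i, x ∈ V i) ∨ ∃ e, x ∈ S e)
    (hSV : ∀ e i x, x ∈ S e → x ∈ V i → (t e x = 0 ∧ i = a e) ∨ (t e x = 1 ∧ i = b e))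
    (hSS : ∀ e e' x, e ≠ e' → x ∈ S e → x ∈ S e' → ∃ i, x ∈ V i)
    (ha : ∀ e, ∃ x ∈ S e, x ∈ V (a e) ∧ t e x = 0)
    (hb : ∀ e, ∃ x ∈ S e, x ∈ V (b e) ∧ t e x = 1) :
    Fintype.card A = Fintype.card E + 1 := by
  classical
  -- potentials
  have hpot : ∀ e : E, ∃ p : A → ℚ, ∀ e' : E, p (b e') - p (a e') = if e' = e then 1 else 0 := by
    intro e
    -- the map to the circle
    let φf : D → Circle := fun x => if x ∈ S e then Circle.exp (2 * Real.pi * t e x) else 1
    have hφS : ∀ x ∈ S e, φf x = Circle.exp (2 * Real.pi * t e x) := fun x hx => if_pos hx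
    have hφV : ∀ i, ∀ x ∈ V i, φf x = 1 := by
      intro i x hx
      by_cases hxS : x ∈ S e
      · rw [hφS x hxS]
        rcases hSV e i x hxS hx with ⟨h0, _⟩ | ⟨h1, _⟩
        · rw [h0, mul_zero, Circle.exp_zero]
        · rw [h1, mul_one, Circle.exp_two_pi]
      · exact if_neg hxS
    have hφS' : ∀ e', e' ≠ e → ∀ x ∈ S e', φf x = 1 := by
      intro e' hne x hx
      by_cases hxS : x ∈ S e
      · obtain ⟨i, hi⟩ := hSS e' e x hne hx hxS
        exact hφV i x hi
      · exact if_neg hxS
    let C : Set D := (⋃ i, V i) ∪ ⋃ e' : {e' : E // e' ≠ e}, S e'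
    have hCc : IsClosed C :=
      (isClosed_iUnion_of_finite hVc).union (isClosed_iUnion_of_finite fun e' => hSc e')
    have hφC : ∀ x ∈ C, φf x = 1 := by
      rintro x (hx | hx)
      · obtain ⟨i, hi⟩ := mem_iUnion.1 hx
        exact hφV i x hi
      · obtain ⟨e', he'⟩ := mem_iUnion.1 hx
        exact hφS' e' e'.2 x he'
    have hun : S e ∪ C = univ := by
      refine eq_univ_of_forall fun x => ?_
      rcases hcover x with ⟨i, hi⟩ | ⟨e', he'⟩
      · exact Or.inr (Or.inl (mem_iUnion.2 ⟨i, hi⟩))
      · by_cases hee : e' = e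
        · exact Or.inl (hee ▸ he')
        · exact Or.inr (Or.inr (mem_iUnion.2 ⟨⟨e', hee⟩, he'⟩))
    have hφcont : Continuous φf := by
      rw [← continuousOn_univ, ← hun]
      refine ContinuousOn.union_of_isClosed ?_ ?_ (hSc e) hCc
      · refine ContinuousOn.congr (f := fun x => Circle.exp (2 * Real.pi * t e x)) ?_ hφS
        exact Circle.exp.continuous.comp_continuousOn (continuousOn_const.mul (ht e))
      · exact ContinuousOn.congr (continuousOn_const (c := (1 : Circle))) hφC
    obtain ⟨g, hg⟩ := hlift ⟨φf, hφcont⟩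
    let G : D → ℝ := fun x => g x / (2 * Real.pi)
    have hGc : Continuous G := g.continuous.div_const _
    have hpi : (2 * Real.pi : ℝ) ≠ 0 := by positivity
    have hG1 : ∀ x, φf x = 1 → ∃ m : ℤ, G x = m := by
      intro x hx
      have h1 : Circle.exp (g x) = Circle.exp 0 := by
        rw [hg x, Circle.exp_zero]; exact hx
      obtain ⟨m, hm⟩ := Circle.exp_eq_exp.1 h1
      refine ⟨m, ?_⟩
      change g x / (2 * Real.pi) = m
      rw [hm, zero_add, mul_div_assoc, div_self hpi, mul_one]
    have hGS : ∀ x ∈ S e, ∃ m : ℤ, G x - t e x = m := by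
      intro x hx
      have h1 : Circle.exp (g x) = Circle.exp (2 * Real.pi * t e x) := by
        rw [hg x]; exact hφS x hx
      obtain ⟨m, hm⟩ := Circle.exp_eq_exp.1 h1
      refine ⟨m, ?_⟩
      change g x / (2 * Real.pi) - t e x = m
      rw [hm]
      field_simp
      ring
    -- values on the vertex pieces
    choose v hv using hVn
    have hval : ∀ i, ∀ x ∈ V i, G x = G (v i) := fun i x hx =>
      eq_of_int_valued (hVp i) hGc.continuousOn (fun y hy => hG1 y (hφV i y hy)) hx (hv i)
    have hint : ∀ i, ∃ m : ℤ, G (v i) = m := fun i => hG1 _ (hφV i _ (hv i))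
    choose m hm using hint
    refine ⟨fun i => (m i : ℚ), fun e' => ?_⟩
    obtain ⟨xa, hxaS, hxaV, hxat⟩ := ha e'
    obtain ⟨xb, hxbS, hxbV, hxbt⟩ := hb e'
    have hGa := hval _ xa hxaV
    have hGb := hval _ xb hxbV
    by_cases hee : e' = e
    · subst hee
      rw [if_pos rfl]
      have h1 : G xa - t e' xa = G xb - t e' xb :=
        eq_of_int_valued (f := fun x => G x - t e' x) (hSp e')
          (hGc.continuousOn.sub (ht e')) hGS hxaS hxbS
      rw [hxat, hxbt, hGa, hGb, hm, hm] at h1
      have h2 : (m (b e') : ℝ) - m (a e') = 1 := by linarith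
      have h3 : m (b e') - m (a e') = 1 := by exact_mod_cast h2
      change (m (b e') : ℚ) - (m (a e') : ℚ) = 1
      exact_mod_cast h3
    · rw [if_neg hee]
      have h1 : G xa = G xb :=
        eq_of_int_valued (hSp e') hGc.continuousOn (fun y hy => hG1 y (hφS' e' hee y hy)) hxaS hxbS
      rw [hGa, hGb, hm, hm] at h1
      have h2 : (m (b e') : ℝ) - m (a e') = 0 := by linarith
      have h3 : m (b e') - m (a e') = 0 := by exact_mod_cast h2
      change (m (b e') : ℚ) - (m (a e') : ℚ) = 0
      exact_mod_cast h3
  -- the coboundary map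
  let d : (A → ℚ) →ₗ[ℚ] (E → ℚ) :=
    { toFun := fun p e => p (b e) - p (a e)
      map_add' := by intro p q; funext e; simp only [Pi.add_apply]; ring
      map_smul' := by intro c p; funext e; simp only [Pi.smul_apply, smul_eq_mul, RingHom.id_apply]; ring }
  have hsurj : Function.Surjective d := by
    choose p hp using hpot
    intro f
    refine ⟨∑ e, f e • p e, ?_⟩
    funext e'
    change (∑ e, f e • p e) (b e') - (∑ e, f e • p e) (a e') = f e'
    simp only [Finset.sum_apply, Pi.smul_apply, smul_eq_mul]
    rw [← Finset.sum_sub_distrib]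
    have : ∀ e, f e * p e (b e') - f e * p e (a e') = f e * (if e' = e then 1 else 0) := by
      intro e
      rw [← mul_sub, hp]
    simp [this]
  -- kernel = constants
  obtain ⟨x0⟩ : Nonempty D := inferInstance
  have hA : Nonempty A := by
    rcases hcover x0 with ⟨i, _⟩ | ⟨e, _⟩
    · exact ⟨i⟩
    · exact ⟨a e⟩
  have hker : LinearMap.ker d = Submodule.span ℚ {fun _ : A => (1 : ℚ)} := by
    apply le_antisymm
    · intro p hp
      have hp' : ∀ e, p (b e) = p (a e) := by
        intro e
        have : d p e = 0 := by rw [LinearMap.mem_ker.1 hp]; rfl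
        exact sub_eq_zero.1 this
      -- the locally constant function on `D`
      have hex : ∀ x : D, ∃ q : ℚ, (∀ i, x ∈ V i → p i = q) ∧ ∀ e, x ∈ S e → p (a e) = q := by
        intro x
        rcases em (∃ i, x ∈ V i) with ⟨i, hi⟩ | hno
        · refine ⟨p i, fun j hj => ?_, fun e he => ?_⟩
          · by_contra hne
            have hij : j ≠ i := fun h => hne (by rw [h])
            exact (disjoint_left.1 (hVd j i hij)) hj hi
          · rcases hSV e i x he hi with ⟨_, h⟩ | ⟨_, h⟩
            · rw [h]
            · rw [h, hp']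
        · rcases hcover x with ⟨i, hi⟩ | ⟨e, he⟩
          · exact absurd ⟨i, hi⟩ hno
          · refine ⟨p (a e), fun i hi => absurd ⟨i, hi⟩ hno, fun e' he' => ?_⟩
            by_cases hee : e' = e
            · rw [hee]
            · exact absurd (hSS e' e x hee he' he) hno
      choose q hqV hqS using hex
      have hloc : ∀ r : ℚ, IsClosed {x | q x = r} := by
        intro r
        have : {x | q x = r} = (⋃ i : {i : A // p i = r}, V i) ∪
            ⋃ e : {e : E // p (a e) = r}, S e := by
          ext x
          constructor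
          · intro hx
            rcases hcover x with ⟨i, hi⟩ | ⟨e, he⟩
            · exact Or.inl (mem_iUnion.2 ⟨⟨i, (hqV x i hi).trans hx⟩, hi⟩)
            · exact Or.inr (mem_iUnion.2 ⟨⟨e, (hqS x e he).trans hx⟩, he⟩)
          · rintro (hx | hx)
            · obtain ⟨i, hi⟩ := mem_iUnion.1 hx
              exact (hqV x i hi).symm.trans i.2
            · obtain ⟨e, he⟩ := mem_iUnion.1 hx
              exact (hqS x e he).symm.trans e.2
        rw [this]
        exact (isClosed_iUnion_of_finite fun i : {i : A // p i = r} => hVc i).union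
          (isClosed_iUnion_of_finite fun e : {e : E // p (a e) = r} => hSc e)
      -- finitely many values, so `{q = r}` is open as well
      have hvals : ∀ x, q x ∈ Set.range p := by
        intro x
        rcases hcover x with ⟨i, hi⟩ | ⟨e, he⟩
        · exact ⟨i, hqV x i hi⟩
        · exact ⟨a e, hqS x e he⟩
      have hopen : ∀ r : ℚ, IsOpen {x | q x = r} := by
        intro r
        have hcompl : {x | q x = r}ᶜ = ⋃ i : {i : A // p i ≠ r}, {x | q x = p i} := by
          ext x
          rw [mem_compl_iff, mem_iUnion]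
          constructor
          · intro hx
            obtain ⟨i, hi⟩ := hvals x
            exact ⟨⟨i, fun h => hx (hi.symm.trans h)⟩, hi.symm⟩
          · rintro ⟨i, hi⟩ hx
            exact i.2 (hi.symm.trans hx)
        rw [← isClosed_compl_iff, hcompl]
        exact isClosed_iUnion_of_finite fun i => hloc _
      have hconst : ∀ x, q x = q x0 := by
        have hcl : IsClopen {x | q x = q x0} := ⟨hloc _, hopen _⟩
        have huniv := hcl.eq_univ ⟨x0, rfl⟩
        intro x
        have : x ∈ {x | q x = q x0} := by rw [huniv]; trivial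
        exact this
      rw [Submodule.mem_span_singleton]
      refine ⟨q x0, ?_⟩
      funext i
      obtain ⟨x, hx⟩ := hVn i
      rw [Pi.smul_apply, smul_eq_mul, mul_one, hqV x i hx, hconst x]
    · rw [Submodule.span_singleton_le_iff_mem, LinearMap.mem_ker]
      funext e
      change (1 : ℚ) - 1 = 0
      ring
  have hne : (fun _ : A => (1 : ℚ)) ≠ 0 := by
    intro h
    obtain ⟨i⟩ := hA
    exact one_ne_zero (congrFun h i)
  have hrank := LinearMap.finrank_range_add_finrank_ker d
  rw [LinearMap.range_eq_top.2 hsurj, finrank_top, hker, finrank_span_singleton hne,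
    Module.finrank_fintype_fun_eq_card, Module.finrank_fintype_fun_eq_card] at hrank
  exact hrank.symm

end Pool.Agent.Rohlin
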