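import Pool.Agent.Rohlin.StripArc
import Pool.Agent.Rohlin.DiscTop
import Pool.Agent.Rohlin.TreeCount

/-!
# The count for one disc

Part of the counting package of the cell ROH (MP_dec4ff_ag).
-/

set_option autoImplicit false

namespace Pool.Agent.Rohlin

open Set Topology Filter

/-- the component of `S` with left end `ρ` -/
def cmp (S : Set ℝ) (ρ : ℝ) : Set ℝ := {η | ρ ≤ η ∧ Icc ρ η ⊆ S}

theorem isClosed_cmp {S : Set ℝ} (hS : IsClosed S) (ρ : ℝ) : IsClosed (cmp S ρ) := by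
  apply isClosed_of_closure_subset
  intro η hη
  have hρ : ρ ≤ η := by
    have : closure (cmp S ρ) ⊆ Ici ρ := closure_minimal (fun x hx => hx.1) isClosed_Ici
    exact this hη
  refine ⟨hρ, fun u hu => ?_⟩
  rcases hu.2.eq_or_lt with h | h
  · subst h
    have : closure (cmp S ρ) ⊆ S := closure_minimal (fun x hx => hx.2 ⟨hx.1, le_rfl⟩) hS
    exact this hη
  · obtain ⟨x, hx1, hx2⟩ := mem_closure_iff.1 hη (Ioi u) isOpen_Ioi h
    exact hx2.2 ⟨hu.1, le_of_lt hx1⟩

theorem ordConnected_cmp (S : Set ℝ) (ρ : ℝ) : (cmp S ρ).OrdConnected := by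
  constructor
  intro x hx y hy z hz
  exact ⟨hx.1.trans hz.1, fun u hu => hy.2 ⟨hu.1, hu.2.trans hz.2⟩⟩

theorem isCompact_cmp {S : Set ℝ} (hS : IsClosed S) {B : ℝ} (hB : ∀ y ∈ S, |y| ≤ B) (ρ : ℝ) :
    IsCompact (cmp S ρ) := by
  refine Metric.isCompact_of_isClosed_isBounded (isClosed_cmp hS ρ) ?_
  refine (Metric.isBounded_Icc (-B) B).subset fun y hy => ?_
  exact abs_le.1 (hB y (hy.2 ⟨hy.1, le_rfl⟩))

/-- pieces of a subset as subsets of the subtype -/
theorem preconnected_sub {X : Type*} [TopologicalSpace X] {Δ S : Set X} (hS : IsPreconnected S)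
    (hsub : S ⊆ Δ) : IsPreconnected ((↑) ⁻¹' S : Set Δ) := by
  rw [← IsInducing.subtypeVal.isPreconnected_image, Subtype.image_preimage_coe,
    inter_eq_self_of_subset_right hsub]
  exact hS

/-- the angle of a point, normalized to the arc `[α, β]` -/
noncomputable def arcT (α β : ℝ) (x : RP2) : ℝ := by
  classical
  exact if hx : ∃ p : ℝ × ℝ, p.1 ∈ Icc α β ∧ pt p.1 p.2 = x then
    (hx.choose.1 - α) / (β - α) else 0

theorem pt_inj_of_lt {p q : ℝ × ℝ} (h : pt p.1 p.2 = pt q.1 q.2) (hpq : |q.1 - p.1| < Real.pi) :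
    p = q := by
  obtain ⟨n, h1, h2⟩ := (pt_eq_iff _ _ _ _).1 h
  have hn : n = 0 := by
    have e1 : |(n : ℝ) * Real.pi| < Real.pi := by rw [h1] at hpq; simpa using hpq
    rw [abs_mul, abs_of_pos Real.pi_pos] at e1
    have e2 : |(n : ℝ)| < 1 := by
      by_contra hcon
      have := mul_le_mul_of_nonneg_right (not_lt.1 hcon) Real.pi_pos.le
      linarith
    rw [← Int.cast_abs] at e2
    have e3 : |n| < 1 := by exact_mod_cast e2
    exact Int.abs_lt_one_iff.1 e3
  subst hn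
  apply Prod.ext
  · simpa using h1.symm
  · simpa using h2.symm

theorem arcT_pt {α β : ℝ} (hgap : β - α < Real.pi) {p : ℝ × ℝ} (hp : p.1 ∈ Icc α β) :
    arcT α β (pt p.1 p.2) = (p.1 - α) / (β - α) := by
  have hx : ∃ q : ℝ × ℝ, q.1 ∈ Icc α β ∧ pt q.1 q.2 = pt p.1 p.2 := ⟨p, hp, rfl⟩
  unfold arcT
  rw [dif_pos hx]
  have h1 := hx.choose_spec
  have h2 : hx.choose = p := pt_inj_of_lt h1.2 (by
    rw [abs_lt]
    constructor
    · linarith [h1.1.1, h1.1.2, hp.1, hp.2]
    · linarith [h1.1.1, h1.1.2, hp.1, hp.2])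
  rw [h2]

theorem continuousOn_arcT {α β : ℝ} (hgap : β - α < Real.pi) {K : Set (ℝ × ℝ)} (hK : IsCompact K)
    (hsub : ∀ p ∈ K, p.1 ∈ Icc α β) :
    ContinuousOn (arcT α β) ((fun p : ℝ × ℝ => pt p.1 p.2) '' K) := by
  have hcomp : CompactSpace K := isCompact_iff_compactSpace.1 hK
  let f : K → RP2 := fun p => pt p.1.1 p.1.2
  have hf : Continuous f := continuous_pt.comp continuous_subtype_val
  have hinj : Function.Injective f := by
    intro p q hpq
    apply Subtype.ext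
    refine pt_inj_of_lt hpq ?_
    have h1 := hsub p p.2
    have h2 := hsub q q.2
    rw [abs_lt]
    constructor
    · linarith [h1.1, h1.2, h2.1, h2.2]
    · linarith [h1.1, h1.2, h2.1, h2.2]
  have hemb : IsEmbedding f := (hf.isClosedEmbedding hinj).isEmbedding
  have hrange : (fun p : ℝ × ℝ => pt p.1 p.2) '' K = range f := by
    ext x
    constructor
    · rintro ⟨p, hp, rfl⟩; exact ⟨⟨p, hp⟩, rfl⟩
    · rintro ⟨p, rfl⟩; exact ⟨p, p.2, rfl⟩
  rw [hrange, continuousOn_iff_continuous_domRestrict]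
  have hcomp2 : (range f).domRestrict (arcT α β) =
      (fun p : K => (p.1.1 - α) / (β - α)) ∘ hemb.toHomeomorph.symm := by
    funext x
    obtain ⟨p, hp⟩ := hemb.toHomeomorph.surjective x
    rw [← hp]
    simp only [Function.comp_apply, Homeomorph.symm_apply_apply]
    change arcT α β (f p) = _
    exact arcT_pt hgap (hsub p p.2)
  rw [hcomp2]
  exact Continuous.comp (by fun_prop) hemb.toHomeomorph.symm.continuous

/-- normalizing the angle -/
theorem exists_normalForm {x : RP2} (hx : x ≠ centre) :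
    ∃ θ η : ℝ, 0 ≤ θ ∧ θ < Real.pi ∧ pt θ η = x := by
  obtain ⟨θ, η, rfl⟩ := exists_pt_eq hx
  let n : ℤ := ⌊θ / Real.pi⌋
  have h1 := Int.floor_le (θ / Real.pi)
  have h2 := Int.lt_floor_add_one (θ / Real.pi)
  rw [le_div_iff₀ Real.pi_pos] at h1
  rw [div_lt_iff₀ Real.pi_pos] at h2
  refine ⟨θ + (-n : ℤ) * Real.pi, (((-n : ℤ).negOnePow : ℤ) : ℝ) * η, ?_, ?_,
    pt_add_int_mul_pi θ η (-n)⟩
  · push_cast
    linarith
  · push_cast
    linarith

/-- a position in a finite increasing sequence -/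
theorem exists_arc (c : ℕ → ℝ) (K : ℕ) {θ : ℝ} (h0 : c 0 ≤ θ) (hK : θ < c (K + 1)) :
    ∃ k ≤ K, c k ≤ θ ∧ θ < c (k + 1) := by
  induction K with
  | zero => exact ⟨0, le_rfl, h0, hK⟩
  | succ K ih =>
    by_cases h : θ < c (K + 1)
    · obtain ⟨k, hk, h1, h2⟩ := ih h
      exact ⟨k, by omega, h1, h2⟩
    · exact ⟨K + 1, le_rfl, not_lt.1 h, hK⟩

theorem c_lt_of_lt {c : ℕ → ℝ} {K : ℕ} (hc : ∀ k ≤ K, c k < c (k + 1)) {k l : ℕ} (hkl : k < l)
    (hl : l ≤ K + 1) : c k < c l := by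
  induction l with
  | zero => omega
  | succ l ih =>
    rcases Nat.lt_succ_iff_lt_or_eq.1 hkl with h | h
    · exact (ih h (by omega)).trans (hc l (by omega))
    · subst h; exact hc k (by omega)

set_option maxHeartbeats 4000000 in
/-- THE COUNT FOR ONE DISC -/
theorem strip_count {Δ : Set RP2} (hΔ : IsDisc Δ) (hcen : centre ∉ Δ) {Z : Set (ℝ × ℝ)}
    (h : StripSet {p : ℝ × ℝ | pt p.1 p.2 ∈ Δ} Z) (c : ℕ → ℝ) (K : ℕ)
    (hc : ∀ k ≤ K, c k < c (k + 1)) (hc0 : c 0 = 0) (hcK : c (K + 1) = Real.pi) (hK : 1 ≤ K)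
    (hreg : ∀ k ≤ K, ∀ θ ∈ Ioo (c k) (c (k + 1)), RegAt {p : ℝ × ℝ | pt p.1 p.2 ∈ Δ} Z θ) :
    ∑ k ∈ Finset.range (K + 1), (leftEnds (sl {p : ℝ × ℝ | pt p.1 p.2 ∈ Δ} (c k))).ncard =
      ∑ k ∈ Finset.range (K + 1),
        (leftEnds (sl {p : ℝ × ℝ | pt p.1 p.2 ∈ Δ} ((c k + c (k + 1)) / 2))).ncard + 1 := by
  classical
  set E : Set (ℝ × ℝ) := {p : ℝ × ℝ | pt p.1 p.2 ∈ Δ} with hE
  have hconn : ConnectedSpace Δ := hΔ.connectedSpace
  have hcontr : ContractibleSpace Δ := hΔ.contractibleSpace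
  obtain ⟨B, hB⟩ := h.bdd
  have hBs : ∀ θ, ∀ y ∈ sl E θ, |y| ≤ B := fun θ y hy => hB (θ, y) hy
  have hBl : ∀ θ, ∀ y ∈ sl E θ, -B ≤ y := fun θ y hy => (abs_le.1 (hBs θ y hy)).1
  have hlt : ∀ {k l : ℕ}, k < l → l ≤ K + 1 → c k < c l := fun h1 h2 => c_lt_of_lt hc h1 h2
  have hcinj : ∀ {k l : ℕ}, k ≤ K + 1 → l ≤ K + 1 → c k = c l → k = l := by
    intro k l hk hl hkl
    rcases lt_trichotomy k l with h1 | h1 | h1
    · exact absurd hkl (hlt h1 hl).ne
    · exact h1
    · exact absurd hkl.symm (hlt h1 hk).ne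
  have hc_nonneg : ∀ {k : ℕ}, k ≤ K + 1 → 0 ≤ c k := by
    intro k hk
    rcases Nat.eq_zero_or_pos k with h0 | hpos
    · rw [h0, hc0]
    · rw [← hc0]; exact (hlt hpos hk).le
  have hc_le : ∀ {k : ℕ}, k ≤ K + 1 → c k ≤ Real.pi := by
    intro k hk
    rcases hk.eq_or_lt with h0 | hpos
    · rw [h0, hcK]
    · rw [← hcK]; exact (hlt hpos le_rfl).le
  have hc_lt : ∀ {k : ℕ}, k ≤ K → c k < Real.pi := by
    intro k hk
    rw [← hcK]; exact hlt (by omega) le_rfl
  have hgap : ∀ {k : ℕ}, k ≤ K → c (k + 1) - c k < Real.pi := by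
    intro k hk
    rcases Nat.eq_zero_or_pos k with h0 | hpos
    · subst h0
      rw [hc0, sub_zero]
      rw [← hcK]; exact hlt (by omega) le_rfl
    · have := hlt hpos (by omega : k ≤ K + 1)
      rw [hc0] at this
      have := hc_le (by omega : k + 1 ≤ K + 1)
      linarith
  -- index types
  let A : Type := Σ k : Fin (K + 1), leftEnds (sl E (c k))
  let N : ℕ → ℕ := fun k => (leftEnds (sl E ((c k + c (k + 1)) / 2))).ncard
  let I : Type := Σ k : Fin (K + 1), Fin (N k)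
  have : ∀ θ, Fintype (leftEnds (sl E θ)) := fun θ => (h.leftEnds_fin θ).fintype
  let Vr : A → Set RP2 := fun v => (fun η => pt (c v.1) η) '' cmp (sl E (c v.1)) v.2
  let T : I → Set (ℝ × ℝ) := fun e => closure (stripT E (Ioo (c e.1) (c (e.1 + 1))) e.2)
  let Sr : I → Set RP2 := fun e => (fun p : ℝ × ℝ => pt p.1 p.2) '' T e
  have hmid : ∀ k : ℕ, k ≤ K → (c k + c (k + 1)) / 2 ∈ Ioo (c k) (c (k + 1)) := by
    intro k hk
    have := hc k hk
    constructor <;> linarith
  have hregI : ∀ e : I, ∀ θ ∈ Ioo (c e.1) (c (e.1 + 1)), RegAt E Z θ := fun e =>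
    hreg e.1 (by have := e.1.2; omega)
  have hTfst : ∀ e : I, ∀ p ∈ T e, p.1 ∈ Icc (c e.1) (c (e.1 + 1)) := fun e p hp =>
    StripSet.fst_mem_of_closure hp
  have hTE : ∀ e : I, T e ⊆ E := fun e => h.closure_strip_sub_E _ _
  have hTcomp : ∀ e : I, IsCompact (T e) := fun e => h.isCompact_closure_strip _
  have hVsub : ∀ v, Vr v ⊆ Δ := by
    rintro v _ ⟨η, hη, rfl⟩
    exact hη.2 ⟨hη.1, le_rfl⟩
  have hSsub : ∀ e, Sr e ⊆ Δ := by
    rintro e _ ⟨p, hp, rfl⟩
    exact hTE e hp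
  have hcpt : ∀ θ : ℝ, Continuous fun η : ℝ => pt θ η := fun θ =>
    continuous_pt.comp (Continuous.prodMk continuous_const continuous_id)
  have hVcl : ∀ v, IsClosed (Vr v) := fun v =>
    ((isCompact_cmp (h.closed_sl _) (hBs _) _).image (hcpt _)).isClosed
  have hScl : ∀ e, IsClosed (Sr e) := fun e => ((hTcomp e).image continuous_pt).isClosed
  have hVpre : ∀ v, IsPreconnected (Vr v) := fun v =>
    (ordConnected_cmp _ _).isPreconnected.image _ (hcpt _).continuousOn
  have hSpre : ∀ e, IsPreconnected (Sr e) := fun e =>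
    ((h.strip_preconnected isOpen_Ioo isPreconnected_Ioo (hregI e) _).closure).image _
      continuous_pt.continuousOn
  have hVne : ∀ v, (Vr v).Nonempty := fun v =>
    ⟨_, v.2, ⟨le_rfl, by rw [Icc_self]; exact singleton_subset_iff.2 v.2.2.1⟩, rfl⟩
  -- disjointness of the vertex pieces
  have hVdis : ∀ v w, v ≠ w → Disjoint (Vr v) (Vr w) := by
    intro v w hvw
    rw [Set.disjoint_left]
    rintro x ⟨η, hη, rfl⟩ ⟨η', hη', he⟩
    apply hvw
    have hk : c v.1 < Real.pi := hc_lt (by have := v.1.2; omega)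
    have hl : c w.1 < Real.pi := hc_lt (by have := w.1.2; omega)
    have hk0 : 0 ≤ c v.1 := hc_nonneg (by have := v.1.2; omega)
    have hl0 : 0 ≤ c w.1 := hc_nonneg (by have := w.1.2; omega)
    have h1 : ((c w.1, η') : ℝ × ℝ) = (c v.1, η) := pt_inj_of_lt he (by
      rw [abs_lt]; constructor <;> simp only <;> linarith)
    have h2 : c w.1 = c v.1 := congrArg Prod.fst h1
    have h3 : η' = η := congrArg Prod.snd h1
    have h4 : (v.1 : ℕ) = w.1 := hcinj (by have := v.1.2; omega) (by have := w.1.2; omega) h2.symm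
    obtain ⟨k, ρ⟩ := v
    obtain ⟨l, ρ'⟩ := w
    have h5 : k = l := Fin.ext h4
    subst h5
    subst h3
    have : ρ = ρ' := Subtype.ext (leftEnd_unique ρ.2 ρ'.2 hη.2 hη'.2 hη.1 hη'.1)
    rw [this]
  -- the two ends of a strip
  have hexa : ∀ e : I, ∃ v : A, ∀ p ∈ T e, p.1 = c e.1 → pt p.1 p.2 ∈ Vr v := by
    intro e
    obtain ⟨η0, hη0⟩ := h.exists_mem_closure_strip (hc e.1 (by have := e.1.2; omega)) (hregI e)
      (hmid e.1 (by have := e.1.2; omega)) e.2.2 (left_mem_Icc.2 (hc e.1 (by have := e.1.2; omega)).le)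
    obtain ⟨ρ, hρ, hall⟩ := exists_common_leftEnd (h.closed_sl (c e.1)) (h.fin_front (c e.1))
      (hBl (c e.1)) (W := {η | (c e.1, η) ∈ T e}) ⟨η0, hη0⟩
      (fun x hx y hy => h.Icc_of_closure (hregI e) hx hy)
    refine ⟨⟨e.1, ⟨ρ, hρ⟩⟩, fun p hp hp1 => ?_⟩
    have hp' : (c e.1, p.2) ∈ T e := by rw [← hp1]; exact hp
    rw [hp1]
    exact ⟨p.2, hall p.2 hp', rfl⟩
  have hexb : ∀ e : I, ∃ v : A, ∀ p ∈ T e, p.1 = c (e.1 + 1) → pt p.1 p.2 ∈ Vr v := by
    intro e
    obtain ⟨η0, hη0⟩ := h.exists_mem_closure_strip (hc e.1 (by have := e.1.2; omega)) (hregI e)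
      (hmid e.1 (by have := e.1.2; omega)) e.2.2 (right_mem_Icc.2 (hc e.1 (by have := e.1.2; omega)).le)
    by_cases hek : (e.1 : ℕ) < K
    · obtain ⟨ρ, hρ, hall⟩ := exists_common_leftEnd (h.closed_sl (c (e.1 + 1)))
        (h.fin_front (c (e.1 + 1))) (hBl (c (e.1 + 1))) (W := {η | (c (e.1 + 1), η) ∈ T e}) ⟨η0, hη0⟩
        (fun x hx y hy => h.Icc_of_closure (hregI e) hx hy)
      refine ⟨⟨⟨e.1 + 1, by omega⟩, ⟨ρ, hρ⟩⟩, fun p hp hp1 => ?_⟩
      have hp' : (c (e.1 + 1), p.2) ∈ T e := by rw [← hp1]; exact hp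
      rw [hp1]
      exact ⟨p.2, hall p.2 hp', rfl⟩
    · have heK : (e.1 : ℕ) = K := by have := e.1.2; omega
      have hpi : c (e.1 + 1) = Real.pi := by rw [heK, hcK]
      have hflip : ∀ y, (Real.pi, -y) ∈ E ↔ (0, y) ∈ E := by
        intro y
        change pt Real.pi (-y) ∈ Δ ↔ pt 0 y ∈ Δ
        rw [← pt_add_pi 0 y, zero_add]
      obtain ⟨ρ, hρ, hall⟩ := exists_common_leftEnd (h.closed_sl 0) (h.fin_front 0) (hBl 0)
        (W := {η | (c (e.1 + 1), -η) ∈ T e}) ⟨-η0, by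
          change (c (e.1 + 1), -(-η0)) ∈ T e
          rw [neg_neg]; exact hη0⟩
        (fun x hx y hy => by
          have h1 := h.Icc_of_closure (hregI e) hy hx
          intro u hu
          have h2 : -u ∈ Icc (-y) (-x) := ⟨by linarith [hu.2], by linarith [hu.1]⟩
          have h3 : (c (e.1 + 1), -u) ∈ E := h1 h2
          rw [hpi] at h3
          exact (hflip u).1 h3)
      have hc00 : c ((0 : Fin (K + 1)) : ℕ) = 0 := by simpa using hc0
      refine ⟨⟨0, ⟨ρ, by rw [hc00]; exact hρ⟩⟩, fun p hp hp1 => ?_⟩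
      have hp' : (c (e.1 + 1), -(-p.2)) ∈ T e := by rw [neg_neg, ← hp1]; exact hp
      have h1 := hall (-p.2) hp'
      refine ⟨-p.2, ?_, ?_⟩
      · change -p.2 ∈ cmp (sl E (c ((0 : Fin (K + 1)) : ℕ))) ρ
        rw [hc00]; exact h1
      · change pt (c ((0 : Fin (K + 1)) : ℕ)) (-p.2) = pt p.1 p.2
        rw [hc00, hp1, hpi, ← pt_add_pi 0 (-p.2), zero_add, neg_neg]
  choose a ha using hexa
  choose b hb using hexb
  -- a point of a strip which lies in a vertex piece is over an end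
  have hends : ∀ (e : I) (v : A) (p : ℝ × ℝ), p ∈ T e → pt p.1 p.2 ∈ Vr v →
      p.1 = c e.1 ∨ p.1 = c (e.1 + 1) := by
    rintro e v p hp ⟨η, hη, heq⟩
    have hpI := hTfst e p hp
    have hek : (e.1 : ℕ) ≤ K := by have := e.1.2; omega
    have hvk : (v.1 : ℕ) ≤ K := by have := v.1.2; omega
    by_contra hcon
    push Not at hcon
    have h1 : c e.1 < p.1 := lt_of_le_of_ne hpI.1 (Ne.symm hcon.1)
    have h2 : p.1 < c (e.1 + 1) := lt_of_le_of_ne hpI.2 hcon.2
    have h3 : 0 ≤ c e.1 := hc_nonneg (by omega)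
    have h4 : c (e.1 + 1) ≤ Real.pi := hc_le (by omega)
    have h5 : 0 ≤ c v.1 := hc_nonneg (by omega)
    have h6 : c v.1 < Real.pi := hc_lt hvk
    have h7 : ((c v.1, η) : ℝ × ℝ) = p := pt_inj_of_lt heq (by
      rw [abs_lt]; constructor <;> simp only <;> linarith)
    have h8 : c v.1 = p.1 := congrArg Prod.fst h7
    rw [← h8] at h1 h2
    -- no cut angle strictly inside of an arc
    rcases Nat.lt_or_ge (e.1 : ℕ) v.1 with h9 | h9
    · rcases Nat.lt_or_ge ((e.1 : ℕ) + 1) v.1 with h10 | h10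
      · exact absurd h2 (not_lt.2 (hlt h10 (by omega)).le)
      · have : (v.1 : ℕ) = e.1 + 1 := by omega
        rw [this] at h2
        exact absurd h2 (lt_irrefl _)
    · rcases h9.eq_or_lt with h10 | h10
      · rw [h10] at h1
        exact absurd h1 (lt_irrefl _)
      · exact absurd h1 (not_lt.2 (hlt h10 (by omega)).le)
  -- points over a cut angle lie in a vertex piece
  have hcut : ∀ (k : Fin (K + 1)) (η : ℝ), (c k, η) ∈ E → ∃ v, pt (c k) η ∈ Vr v := by
    intro k η hη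
    obtain ⟨ρ, hρ, hall⟩ := exists_common_leftEnd (h.closed_sl (c k)) (h.fin_front (c k))
      (hBl (c k)) (W := {η}) ⟨η, rfl⟩ (by
        rintro x rfl y rfl
        rw [Icc_self]; exact singleton_subset_iff.2 hη)
    exact ⟨⟨k, ⟨ρ, hρ⟩⟩, η, hall η rfl, rfl⟩
  have key := card_vertices_eq (D := Δ) (fun φ => exists_real_lift φ) (A := A) (E := I)
    (fun v => (↑) ⁻¹' Vr v) (fun e => (↑) ⁻¹' Sr e) a b
    (fun e x => arcT (c e.1) (c (e.1 + 1)) x)
    (fun v => (hVcl v).preimage continuous_subtype_val)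
    (fun v => preconnected_sub (hVpre v) (hVsub v))
    (fun v => by obtain ⟨x, hx⟩ := hVne v; exact ⟨⟨x, hVsub v hx⟩, hx⟩)
    (fun v w hvw => (hVdis v w hvw).preimage _)
    (fun e => (hScl e).preimage continuous_subtype_val)
    (fun e => preconnected_sub (hSpre e) (hSsub e))
    (fun e => (continuousOn_arcT (hgap (by have := e.1.2; omega)) (hTcomp e) (hTfst e)).comp
      continuous_subtype_val.continuousOn (fun x hx => hx))
    (by
      -- covering
      intro x
      obtain ⟨θ, η, hθ0, hθπ, hx⟩ := exists_normalForm (x := (x : RP2)) (fun hh => hcen (hh ▸ x.2))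
      obtain ⟨k, hk, hk1, hk2⟩ := exists_arc c K (θ := θ) (by rw [hc0]; exact hθ0)
        (by rw [hcK]; exact hθπ)
      have hxE : (θ, η) ∈ E := by change pt θ η ∈ Δ; rw [hx]; exact x.2
      rcases hk1.eq_or_lt with heq | hlt'
      · left
        obtain ⟨v, hv⟩ := hcut ⟨k, by omega⟩ η (by change (c k, η) ∈ E; rw [heq]; exact hxE)
        refine ⟨v, ?_⟩
        change (x : RP2) ∈ Vr v
        rw [← hx, ← heq]; exact hv
      · right
        have hin : θ ∈ Ioo (c k) (c (k + 1)) := ⟨hlt', hk2⟩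
        have hrk1 := one_le_rk (h.closed_sl θ) (h.fin_front θ) (hBl θ) (y := η) hxE
        have hrk2 := rk_le (h.fin_front θ) η
        have hN : (leftEnds (sl E θ)).ncard = N k :=
          h.ncard_const isOpen_Ioo isPreconnected_Ioo (hreg k hk) hin (hmid k hk)
        refine ⟨⟨⟨k, by omega⟩, ⟨rk (sl E θ) η - 1, ?_⟩⟩, ?_⟩
        · change rk (sl E θ) η - 1 < N k
          omega
        · change (x : RP2) ∈ Sr _
          refine ⟨(θ, η), subset_closure ⟨hxE, hin, ?_⟩, hx⟩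
          change rk (sl E θ) η = (rk (sl E θ) η - 1) + 1
          omega)
    (by
      -- strips and vertex pieces
      rintro e v x ⟨p, hp, hpx⟩ hxv
      have hpx' : pt p.1 p.2 = (x : RP2) := hpx
      have hek : (e.1 : ℕ) ≤ K := by have := e.1.2; omega
      have hxv' : pt p.1 p.2 ∈ Vr v := by rw [hpx']; exact hxv
      have hden : c (e.1 + 1) - c e.1 ≠ 0 := by have := hc e.1 hek; linarith
      have ht : arcT (c e.1) (c (e.1 + 1)) (x : RP2) = (p.1 - c e.1) / (c (e.1 + 1) - c e.1) := by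
        rw [← hpx']; exact arcT_pt (hgap hek) (hTfst e p hp)
      rcases hends e v p hp hxv' with h1 | h1
      · left
        refine ⟨?_, ?_⟩
        · rw [ht, h1, sub_self, zero_div]
        · by_contra hne
          exact (Set.disjoint_left.1 (hVdis v (a e) hne)) hxv' (ha e p hp h1)
      · right
        refine ⟨?_, ?_⟩
        · rw [ht, h1, div_self hden]
        · by_contra hne
          exact (Set.disjoint_left.1 (hVdis v (b e) hne)) hxv' (hb e p hp h1))
    (by
      -- two strips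
      rintro e e' x hne ⟨p, hp, hpx⟩ ⟨p', hp', hpx'⟩
      have e1 : pt p.1 p.2 = (x : RP2) := hpx
      have e2 : pt p'.1 p'.2 = (x : RP2) := hpx'
      have hpI := hTfst e p hp
      have hpI' := hTfst e' p' hp'
      have hek : (e.1 : ℕ) ≤ K := by have := e.1.2; omega
      have hek' : (e'.1 : ℕ) ≤ K := by have := e'.1.2; omega
      -- it suffices that `p` lies over an end
      have hsuff : p.1 = c e.1 ∨ p.1 = c (e.1 + 1) → ∃ v, (x : RP2) ∈ Vr v := by
        rintro (h1 | h1)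
        · exact ⟨a e, by rw [← e1]; exact ha e p hp h1⟩
        · exact ⟨b e, by rw [← e1]; exact hb e p hp h1⟩
      change ∃ v, (x : RP2) ∈ Vr v
      by_contra hcon
      have hno : ¬ (p.1 = c e.1 ∨ p.1 = c (e.1 + 1)) := fun hh => hcon (hsuff hh)
      push Not at hno
      have h1 : c e.1 < p.1 := lt_of_le_of_ne hpI.1 (Ne.symm hno.1)
      have h2 : p.1 < c (e.1 + 1) := lt_of_le_of_ne hpI.2 hno.2
      have h3 : 0 ≤ c e.1 := hc_nonneg (by omega)
      have h4 : c (e.1 + 1) ≤ Real.pi := hc_le (by omega)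
      have h3' : 0 ≤ c e'.1 := hc_nonneg (by omega)
      have h4' : c (e'.1 + 1) ≤ Real.pi := hc_le (by omega)
      have h7 : p = p' := pt_inj_of_lt (e1.trans e2.symm) (by
        rw [abs_lt]; constructor <;> linarith [hpI'.1, hpI'.2])
      subst h7
      -- the arcs agree
      have h8 : (e.1 : ℕ) = e'.1 := by
        rcases lt_trichotomy (e.1 : ℕ) e'.1 with h9 | h9 | h9
        · exfalso
          rcases Nat.lt_or_ge ((e.1 : ℕ) + 1) e'.1 with h10 | h10
          · have := hlt h10 (by omega)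
            linarith [hpI'.1]
          · have : (e'.1 : ℕ) = e.1 + 1 := by omega
            rw [this] at hpI'
            linarith [hpI'.1]
        · exact h9
        · exfalso
          rcases Nat.lt_or_ge ((e'.1 : ℕ) + 1) e.1 with h10 | h10
          · have := hlt h10 (by omega)
            linarith [hpI'.2]
          · have : (e.1 : ℕ) = e'.1 + 1 := by omega
            rw [this] at h1
            linarith [hpI'.2]
      obtain ⟨k, i⟩ := e
      obtain ⟨k', i'⟩ := e'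
      have h9 : k = k' := Fin.ext h8
      subst h9
      have hr := hreg k (by have := k.2; omega) p.1 ⟨h1, h2⟩
      have m1 := h.mem_strip_of_closure hr hp ⟨h1, h2⟩
      have m2 := h.mem_strip_of_closure hr hp' ⟨h1, h2⟩
      have h10 : (i : ℕ) + 1 = i' + 1 := m1.2.2.symm.trans m2.2.2
      apply hne
      have h11 : i = i' := Fin.ext (by omega)
      rw [h11])
    (by
      intro e
      have hek : (e.1 : ℕ) ≤ K := by have := e.1.2; omega
      obtain ⟨η0, hη0⟩ := h.exists_mem_closure_strip (hc e.1 hek) (hregI e)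
        (hmid e.1 hek) e.2.2 (left_mem_Icc.2 (hc e.1 hek).le)
      refine ⟨⟨pt (c e.1) η0, hTE e hη0⟩, ⟨_, hη0, rfl⟩, ha e _ hη0 rfl, ?_⟩
      change arcT (c e.1) (c (e.1 + 1)) (pt (c e.1) η0) = 0
      rw [arcT_pt (hgap hek) (p := (c e.1, η0)) (left_mem_Icc.2 (hc e.1 hek).le)]
      simp)
    (by
      intro e
      have hek : (e.1 : ℕ) ≤ K := by have := e.1.2; omega
      have hden : c (e.1 + 1) - c e.1 ≠ 0 := by have := hc e.1 hek; linarith
      obtain ⟨η0, hη0⟩ := h.exists_mem_closure_strip (hc e.1 hek) (hregI e)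
        (hmid e.1 hek) e.2.2 (right_mem_Icc.2 (hc e.1 hek).le)
      refine ⟨⟨pt (c (e.1 + 1)) η0, hTE e hη0⟩, ⟨_, hη0, rfl⟩, hb e _ hη0 rfl, ?_⟩
      change arcT (c e.1) (c (e.1 + 1)) (pt (c (e.1 + 1)) η0) = 1
      rw [arcT_pt (hgap hek) (p := (c (e.1 + 1), η0)) (right_mem_Icc.2 (hc e.1 hek).le)]
      exact div_self hden)
  have hcardA : Fintype.card A = ∑ k ∈ Finset.range (K + 1), (leftEnds (sl E (c k))).ncard := by
    rw [Fintype.card_sigma, ← Fin.sum_univ_eq_sum_range (fun k => (leftEnds (sl E (c k))).ncard)]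
    refine Finset.sum_congr rfl fun k _ => ?_
    rw [← Nat.card_coe_set_eq, Nat.card_eq_fintype_card]
  have hcardI : Fintype.card I = ∑ k ∈ Finset.range (K + 1), N k := by
    rw [Fintype.card_sigma, ← Fin.sum_univ_eq_sum_range N]
    exact Finset.sum_congr rfl fun k _ => Fintype.card_fin _
  rw [hcardA, hcardI] at key
  exact key

end Pool.Agent.Rohlin
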